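import Pool.Agent.Lib.MP76b19e.Rob.CapT

/-!
# The local data and the local inequality (problem MP_76b19e_co)

`V` is finite, `F` a graph on `V`, `W ⊆ V`, levels `0, ..., L`, `X 0 ⊆ ... ⊆ X L = W`,
`P 0 < ... < P L`, multiplicities `ν j ≥ 1`; the vertices outside `W` are private
pendants which fill the caps of the levels below `L`. `B` is the set of the colours
(vertices of `G` outside `W`), `M v` the colours missed by `v`, `T i = t_1 + ... + t_i` the partial
sums of the strict tail, `c K` the number of large cliques with trace `K` on `W`.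
-/

set_option autoImplicit false

open Finset

namespace MP76b19e.Rob

/-- the local data -/
structure Loc {V β : Type} [Fintype V] [DecidableEq V] [DecidableEq β] (F : SimpleGraph V)
    (W : Finset V) (L : ℕ) (X : ℕ → Finset V) (P ν : ℕ → ℕ) (t : ℕ) (T : ℕ → ℕ) (B : Finset β)
    (M : V → Finset β) (c : Finset V → ℕ) : Prop where
  q2 : 2 ≤ P 0
  Pmono : ∀ j < L, P j < P (j + 1)
  ν1 : ∀ j ≤ L, 1 ≤ ν j
  Xmono : Monotone X
  XL : ∀ j, L ≤ j → X j = W
  Xcard : ∀ j ≤ L, (X j).card + P j = (∑ i ∈ range (j + 1), ν i * P i) + 1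
  /-- a vertex of level `j < L` has at most `P j` closed neighbours in `V` -/
  cap : ∀ j < L, ∀ v ∈ X j, (∀ i < j, v ∉ X i) → ∀ N : Finset V,
    (∀ u, u ∈ N ↔ u = v ∨ F.Adj u v) → N.card ≤ P j
  pend : ∀ u v v', u ∉ W → F.Adj u v → F.Adj u v' → v = v'
  pendW : ∀ u v, u ∉ W → F.Adj u v → v ∈ W
  /-- a vertex of level `j` has at most `P j` closed neighbours in `W` and colours -/
  colW : ∀ j ≤ L, ∀ v ∈ X j, (∀ i < j, v ∉ X i) → ∀ N : Finset V,
    (∀ u, u ∈ N ↔ u ∈ W ∧ (u = v ∨ F.Adj u v)) → N.card + (M v).card ≤ P j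
  T0 : T 0 = 0
  Tstep : ∀ i < t, T i + P L + i + 1 ≤ T (i + 1)
  Bcard : B.card = P L + T t
  MB : ∀ v, M v ⊆ B
  c1 : ∀ K ∈ Ind F W, ∀ i ≤ t, K.card = (∑ j ∈ range (L + 1), ν j) + i →
    P L + T i ≤ c K + (K.biUnion M).card
  c2 : ∀ K ∈ Ind F W, K.card = (∑ j ∈ range (L + 1), ν j) + t + 1 → 1 ≤ c K

/-- the exponent `g` is allowed for the profile `P, ν`: it is `∑ (ν j - 1)`, or one less; the first
value is only needed if the profile is close to `q, ..., q, q + 1, ..., q + L` -/
def GapOk (P ν : ℕ → ℕ) (L g : ℕ) : Prop :=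
  ((∑ j ∈ range (L + 1), (ν j - 1) * (P j - P 0)) + ∑ j ∈ range (L + 1), (P j - P 0 - j) ≤ L ∧
    g = ∑ j ∈ range (L + 1), (ν j - 1)) ∨ g + 1 = ∑ j ∈ range (L + 1), (ν j - 1)

/-- the pendants fill the caps of the levels below `L` -/
def Full {V : Type} (F : SimpleGraph V) (L : ℕ) (X : ℕ → Finset V) (P : ℕ → ℕ) : Prop :=
  ∀ j < L, ∀ v ∈ X j, (∀ i < j, v ∉ X i) → ∀ N : Finset V,
    (∀ u, u ∈ N ↔ u = v ∨ F.Adj u v) → N.card = P j

/-- there are no pendants -/
def NoPend {V : Type} (F : SimpleGraph V) (W : Finset V) : Prop := ∀ u v, F.Adj u v → u ∈ W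

/-- the local inequality for all local data with pendants -/
def LocIneq : Prop :=
  ∀ (V β : Type) (_ : Fintype V) (_ : DecidableEq V) (_ : DecidableEq β) (F : SimpleGraph V)
    (W : Finset V) (L : ℕ) (X : ℕ → Finset V) (P ν : ℕ → ℕ) (T : ℕ → ℕ) (B : Finset β)
    (M : V → Finset β) (c : Finset V → ℕ), Loc F W L X P ν 0 T B M c → Full F L X P →
    ∀ g : ℕ, GapOk P ν L g →
    ∀ Y ∈ MIS F W,
      ((P 0 : ℝ) ^ g * ∏ j ∈ range L, (P j : ℝ)) *
        ∑ s ∈ univ.filter (fun s : V ≃ Fin (Fintype.card V) => gr F W s = Y),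
          RM F X (fun _ => 1) (fun j => (P j : ℝ)) s L ≤
      (Fintype.card (V ≃ Fin (Fintype.card V)) : ℝ) * CapT F W (fun K => (c K : ℝ)) Y

/-- the local inequality for all local data without pendants -/
def LocIneqW : Prop :=
  ∀ (V β : Type) (_ : Fintype V) (_ : DecidableEq V) (_ : DecidableEq β) (F : SimpleGraph V)
    (W : Finset V) (L : ℕ) (X : ℕ → Finset V) (P ν : ℕ → ℕ) (T : ℕ → ℕ) (B : Finset β)
    (M : V → Finset β) (c : Finset V → ℕ), Loc F W L X P ν 0 T B M c → NoPend F W →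
    ∀ g : ℕ, GapOk P ν L g →
    ∀ Y ∈ MIS F W,
      ((P 0 : ℝ) ^ g * ∏ j ∈ range L, (P j : ℝ)) *
        ∑ s ∈ univ.filter (fun s : V ≃ Fin (Fintype.card V) => gr F W s = Y),
          RM F X (fun _ => 1) (fun j => (P j : ℝ)) s L ≤
      (Fintype.card (V ≃ Fin (Fintype.card V)) : ℝ) * CapT F W (fun K => (c K : ℝ)) Y

variable {V β : Type} [Fintype V] [DecidableEq V] [DecidableEq β] {F : SimpleGraph V}
  {W : Finset V} {L : ℕ} {X : ℕ → Finset V} {P ν : ℕ → ℕ} {t : ℕ} {T : ℕ → ℕ} {B : Finset β}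
  {M : V → Finset β} {c : Finset V → ℕ}

/-- the lower bound given by the pointwise inequality -/
theorem Loc.bound' (h : Loc F W L X P ν t T B M c) (g : ℕ)
    (hloc : ∀ Y ∈ MIS F W,
      ((P 0 : ℝ) ^ g * ∏ j ∈ range L, (P j : ℝ)) *
        ∑ s ∈ univ.filter (fun s : V ≃ Fin (Fintype.card V) => gr F W s = Y),
          RM F X (fun _ => 1) (fun j => (P j : ℝ)) s L ≤
      (Fintype.card (V ≃ Fin (Fintype.card V)) : ℝ) * CapT F W (fun K => (c K : ℝ)) Y) :
    (P 0) ^ g ≤ ∑ K ∈ Ind F W, c K := by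
  classical
  have hP : ∀ j, j ≤ L → 0 < P j := by
    intro j hj
    induction j with
    | zero => have := h.q2; omega
    | succ j ih =>
      have := h.Pmono j (by omega)
      omega
  -- make the levels positive beyond `L`
  set P' : ℕ → ℝ := fun j => if j ≤ L then (P j : ℝ) else 1 with hP'
  have hP'pos : ∀ j, 0 < P' j := by
    intro j
    simp only [hP']
    split_ifs with hj
    · exact_mod_cast hP j hj
    · exact one_pos
  have hRM : ∀ s : V ≃ Fin (Fintype.card V), ∀ m, m ≤ L →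
      RM F X (fun _ => 1) P' s m = RM F X (fun _ => 1) (fun j => (P j : ℝ)) s m := by
    intro s
    have hb : ∀ m, m < L → bm F X (fun _ => 1) P' s m =
        bm F X (fun _ => 1) (fun j => (P j : ℝ)) s m := by
      intro m
      induction m with
      | zero =>
        intro _
        simp only [bm, hP', Nat.zero_le, if_true]
      | succ m ih =>
        intro hm
        simp only [bm]
        rw [ih (by omega)]
        simp only [hP', if_pos (show m + 1 ≤ L by omega)]
    intro m hm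
    cases m with
    | zero => rfl
    | succ m =>
      simp only [RM, gm]
      rw [hb m (by omega)]
      congr 1
      refine prod_congr rfl fun i hi => ?_
      rw [mem_range] at hi
      rw [hb i (by omega)]
  have h1 := reduceT (F := F) (W := W) (n := Fintype.card V) rfl X h.Xmono (fun _ => (1 : ℝ)) P'
    (fun _ => zero_le_one) hP'pos L (fun K => (c K : ℝ))
    ((P 0 : ℝ) ^ g * ∏ j ∈ range L, (P j : ℝ)) (by positivity) (by
      intro Y hY
      have h2 := hloc Y hY
      refine le_trans (le_of_eq ?_) h2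
      congr 1
      exact sum_congr rfl fun s _ => hRM s L le_rfl)
  have h2 : ((P 0 : ℝ) ^ g * ∏ j ∈ range L, (P j : ℝ)) * ∏ j ∈ range L, 1 / P' j =
      (P 0 : ℝ) ^ g := by
    rw [mul_assoc, ← prod_mul_distrib]
    have h3 : ∏ j ∈ range L, (P j : ℝ) * (1 / P' j) = 1 := by
      refine prod_eq_one fun j hj => ?_
      rw [mem_range] at hj
      have h4 : (0 : ℝ) < P j := by exact_mod_cast hP j hj.le
      simp only [hP', if_pos hj.le]
      field_simp
    rw [h3, mul_one]
  rw [h2] at h1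
  exact_mod_cast h1

end MP76b19e.Rob
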