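import Pool.Agent.Lib.MP76b19e.Rob.LinkC

/-!
# The bound for the maximal independent sets of size `r` (problem MP_76b19e_co)

`alpha`: the pointwise inequality for the maximal independent sets `Y` with `Nn ν l` elements.
-/

set_option autoImplicit false

open Finset

namespace MP76b19e.Rob

variable {V : Type} [DecidableEq V] [Fintype V] {F : SimpleGraph V} {W Y : Finset V}
  {X : ℕ → Finset V} {lev : V → ℕ} {P ν : ℕ → ℕ} {l : ℕ}

/-- the excess of `Y` -/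
def xY (Y : Finset V) (lev : V → ℕ) (ν : ℕ → ℕ) (j : ℕ) : ℕ := (Kl Y lev (j + 1)).card - Nn ν j

/-- the numbers of dominated vertices -/
noncomputable def CY (F : SimpleGraph V) (Y : Finset V) (lev : V → ℕ) (j : ℕ) : ℕ :=
  (CN F (Kl Y lev (j + 1))).card

/-- the zeros below `l` -/
def ZY (Y : Finset V) (lev : V → ℕ) (ν : ℕ → ℕ) (l : ℕ) : Finset ℕ :=
  (range l).filter fun z => xY Y lev ν z = 0

/-- the product of the probability and the caps -/
noncomputable def IY (F : SimpleGraph V) (W Y : Finset V) (X : ℕ → Finset V) (lev : V → ℕ)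
    (P ν : ℕ → ℕ) (l : ℕ) (i : ℕ) : ℝ :=
  Ival (mZ F W X (ZY Y lev ν l) Y) (Kl Y lev i) * ∏ k ∈ Kl Y lev i, (P (lev k) : ℝ)

/-- the number of overlaps -/
noncomputable def OY (F : SimpleGraph V) (W Y : Finset V) (X : ℕ → Finset V) (lev : V → ℕ)
    (ν : ℕ → ℕ) (l : ℕ) (i : ℕ) : ℝ :=
  oK (mZ F W X (ZY Y lev ν l) Y) (Kl Y lev i)

omit [Fintype V] [DecidableEq V] in
theorem xY_eq {j : ℕ} (h : Nn ν j ≤ (Kl Y lev (j + 1)).card) :
    (Kl Y lev (j + 1)).card = Nn ν j + xY Y lev ν j := by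
  unfold xY
  omega

omit [Fintype V] [DecidableEq V] in
/-- the sum of the caps of the elements up to level `j` -/
theorem cap_Kl {j : ℕ} (hx : ∀ i, i ≤ j → Nn ν i ≤ (Kl Y lev (i + 1)).card) :
    ∑ k ∈ Kl Y lev (j + 1), (P (lev k) : ℝ) =
      Ss P ν j + (xY Y lev ν j : ℝ) * P j - Xs P (xY Y lev ν) j := by
  rw [cap_sum P lev j _ (fun k hk => by rw [mem_Kl] at hk; omega)]
  rw [← cap_excess (P := P) (ν := ν) (t := fun i => (Kl Y lev (i + 1)).card)
    (e := xY Y lev ν) (j := j) (fun i hi => xY_eq (hx i hi))]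
  congr 1
  refine sum_congr rfl fun i hi => ?_
  congr 3
  ext k
  rw [mem_filter, mem_Kl, mem_Kl]
  rw [mem_range] at hi
  constructor
  · rintro ⟨⟨h1, _⟩, h2⟩
    exact ⟨h1, by omega⟩
  · rintro ⟨h1, h2⟩
    exact ⟨⟨h1, by omega⟩, by omega⟩

/-- the loss below index `i` -/
theorem Gp_eq {i : ℕ} (hx : ∀ j, j < i → Nn ν j ≤ (Kl Y lev (j + 1)).card) :
    Gp P ν (xY Y lev ν) (CY F Y lev) i =
      ∑ k ∈ Kl Y lev i, (P (lev k) : ℝ) - ((CN F (Kl Y lev i)).card : ℝ) := by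
  rcases i with _ | j
  · change (0 : ℝ) = _
    rw [Kl_zero, sum_empty, CN_empty]
    simp
  · rw [cap_Kl (fun i hi => hx i (by omega))]
    rfl

theorem card_CN_caps (hcap : ∀ v ∈ W, lev v < l → (cn F v).card ≤ P (lev v)) {T : Finset V}
    (hT : T ⊆ W) (hTl : ∀ k ∈ T, lev k < l) :
    ((CN F T).card : ℝ) ≤ ∑ k ∈ T, (P (lev k) : ℝ) := by
  refine (card_CN_le T).trans (sum_le_sum fun k hk => ?_)
  exact_mod_cast hcap k (hT hk) (hTl k hk)

/-- the caps: `l` is the last level, the vertices outside `W` are pendants -/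
structure Cp (F : SimpleGraph V) (W Y : Finset V) (lev : V → ℕ) (P : ℕ → ℕ) (l : ℕ) : Prop where
  lo : ∀ v ∈ W, lev v < l → (cn F v).card ≤ P (lev v)
  hi : ∀ v ∈ W, lev v = l → (cn F v ∩ W).card ≤ P l
  le : ∀ v ∈ W, lev v ≤ l
  pen : ∀ v, v ∉ W → (dn F Y v).card ≤ 1

theorem Gp_nonneg (h : Lv F W Y X lev) (hcap : Cp F W Y lev P l) {i : ℕ} (hil : i ≤ l)
    (hx : ∀ j, j < i → Nn ν j ≤ (Kl Y lev (j + 1)).card) :
    0 ≤ Gp P ν (xY Y lev ν) (CY F Y lev) i := by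
  rw [Gp_eq hx]
  have := card_CN_caps (F := F) (P := P) hcap.lo (T := Kl Y lev i)
    (fun k hk => h.Y_sub (mem_Kl.1 hk).1) (fun k hk => by
      have := (mem_Kl.1 hk).2
      omega)
  linarith

/-- the core bounds for a block -/
theorem core_Bl (h : Lv F W Y X lev) (hP : ∀ j, 0 < P j) (hm : ∀ j, P j < P (j + 1))
    (hcap : Cp F W Y lev P l) {Z : Finset ℕ} (hZ : ∀ z ∈ Z, z < l) {i j : ℕ} :
    0 ≤ oK (mZ F W X Z Y) (Bl Y lev i j) ∧
    oK (mZ F W X Z Y) (Bl Y lev i j) ≤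
      gK (mZ F W X Z Y) (fun k => (P (lev k) : ℝ)) (Bl Y lev i j) ∧
    (gK (mZ F W X Z Y) (fun k => (P (lev k) : ℝ)) (Bl Y lev i j) ≤ (P i : ℝ) - 1 →
      Ival (mZ F W X Z Y) (Bl Y lev i j) * ∏ k ∈ Bl Y lev i j, (P (lev k) : ℝ) ≤
        Phi (P i) (gK (mZ F W X Z Y) (fun k => (P (lev k) : ℝ)) (Bl Y lev i j))
          (oK (mZ F W X Z Y) (Bl Y lev i j))) ∧
    (gK (mZ F W X Z Y) (fun k => (P (lev k) : ℝ)) (Bl Y lev i j) = (P i : ℝ) →
      Ival (mZ F W X Z Y) (Bl Y lev i j) * ∏ k ∈ Bl Y lev i j, (P (lev k) : ℝ) ≤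
        P i * (2 + oK (mZ F W X Z Y) (Bl Y lev i j))) := by
  have hmono : ∀ a b, a ≤ b → P a ≤ P b := fun a b h =>
    monotone_nat_of_le_succ (fun j => (hm j).le) h
  have hQ : (1 : ℝ) ≤ P i := by exact_mod_cast hP i
  have h0 := mZ_empty (F := F) (W := W) (Y := Y) (X := X) (Z := Z) h.max
  have hc : ∀ k ∈ Bl Y lev i j, (P i : ℝ) ≤ (fun k => (P (lev k) : ℝ)) k := by
    intro k hk
    rw [mem_Bl] at hk
    change (P i : ℝ) ≤ (P (lev k) : ℝ)
    exact_mod_cast hmono _ _ hk.2.1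
  have ha : ∀ k ∈ Bl Y lev i j, aK (mZ F W X Z Y) (Bl Y lev i j) k ≤
      (fun k => (P (lev k) : ℝ)) k := by
    intro k hk
    have hkY : k ∈ Y := (mem_Bl.1 hk).1
    have hkW := h.Y_sub hkY
    have hkl := hcap.le k hkW
    have hkc : k ∈ cn F k := mem_cn.2 (Or.inl rfl)
    have hvc : ∀ v ∈ Rst F W X Z Y, k ∈ Dst F X Z Y v → v ∈ cn F k := fun v _ hkv =>
      mem_cn.2 (mem_dn.1 (Dst_subset v hkv)).2
    change aK (mZ F W X Z Y) (Bl Y lev i j) k ≤ (P (lev k) : ℝ)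
    rcases Nat.lt_or_ge (lev k) l with hlt | hge
    · refine (aK_mZ_le' hk hkY hkc hvc).trans ?_
      exact_mod_cast hcap.lo k hkW hlt
    · have hkl' : lev k = l := by omega
      rw [hkl']
      refine (aK_mZ_le' (N := cn F k ∩ W) hk hkY (mem_inter.2 ⟨hkc, hkW⟩) ?_).trans ?_
      · intro v hv hkv
        refine mem_inter.2 ⟨hvc v hv hkv, ?_⟩
        by_contra hvW
        rcases (mem_Rst.1 hv).2 with h1 | ⟨z, hz, y, hy⟩
        · exact hvW h1
        · rw [mem_inter] at hy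
          have h2 : k = y := card_le_one.1 (hcap.pen v hvW) k (Dst_subset v hkv) y hy.1
          rw [← h2] at hy
          have h3 := (h.mem_X hkY).1 hy.2
          have h4 := hZ z hz
          omega
      · exact_mod_cast hcap.hi k hkW hkl'
  refine ⟨oK_nonneg mZ_pos h0 _, oK_le_gK ha, fun hg => ?_, fun hg => ?_⟩
  · exact Ival_core mZ_pos h0 hQ hc ha hg
  · exact Ival_coreQ mZ_pos h0 hQ mZ_int (fun k => ⟨P (lev k), rfl⟩) hc ha hg

theorem IY_split (h : Lv F W Y X lev) {i j : ℕ} (hij : i ≤ j)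
    (hi : i = 0 ∨ i - 1 ∈ ZY Y lev ν l) :
    IY F W Y X lev P ν l j = IY F W Y X lev P ν l i *
      (Ival (mZ F W X (ZY Y lev ν l) Y) (Bl Y lev i j) *
        ∏ k ∈ Bl Y lev i j, (P (lev k) : ℝ)) := by
  unfold IY
  rw [Ival_Kl h hi hij, ← Kl_union (Y := Y) (lev := lev) hij, prod_union Kl_disj]
  ring

omit [Fintype V] [DecidableEq V] in
theorem start_mem {i : ℕ} (hil : i ≤ l) (hi : i = 0 ∨ xY Y lev ν (i - 1) = 0) :
    i = 0 ∨ i - 1 ∈ ZY Y lev ν l := by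
  rcases Nat.eq_zero_or_pos i with h1 | h1
  · exact Or.inl h1
  · right
    unfold ZY
    rw [mem_filter, mem_range]
    refine ⟨by omega, ?_⟩
    rcases hi with h2 | h2
    · omega
    · exact h2

omit [Fintype V] [DecidableEq V] in
theorem ZY_lt : ∀ z ∈ ZY Y lev ν l, z < l := by
  intro z hz
  unfold ZY at hz
  rw [mem_filter, mem_range] at hz
  exact hz.1

/-- the block data -/
theorem blk (h : Lv F W Y X lev) (hP : ∀ j, 0 < P j) (hm : ∀ j, P j < P (j + 1))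
    (hcap : Cp F W Y lev P l)
    (hx : ∀ j, j < l → Nn ν j ≤ (Kl Y lev (j + 1)).card) :
    Blk P ν (xY Y lev ν) (CY F Y lev) (IY F W Y X lev P ν l) (OY F W Y X lev ν l) l := by
  have key : ∀ i z, i ≤ z → z < l → (i = 0 ∨ xY Y lev ν (i - 1) = 0) → xY Y lev ν z = 0 →
      gK (mZ F W X (ZY Y lev ν l) Y) (fun k => (P (lev k) : ℝ)) (Bl Y lev i (z + 1)) =
        Gp P ν (xY Y lev ν) (CY F Y lev) (z + 1) - Gp P ν (xY Y lev ν) (CY F Y lev) i ∧
      oK (mZ F W X (ZY Y lev ν l) Y) (Bl Y lev i (z + 1)) =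
        OY F W Y X lev ν l (z + 1) - OY F W Y X lev ν l i := by
    intro i z hiz hzl hi hz
    have hi' := start_mem (l := l) (by omega) hi
    have hzZ : z ∈ ZY Y lev ν l := by
      unfold ZY
      rw [mem_filter, mem_range]
      exact ⟨hzl, hz⟩
    constructor
    · unfold gK
      rw [sum_Bl h hi' hiz hzZ, Gp_eq (fun j hj => hx j (by omega)),
        Gp_eq (fun j hj => hx j (by omega)),
        ← Kl_union (Y := Y) (lev := lev) (show i ≤ z + 1 by omega), sum_union Kl_disj]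
      ring
    · unfold OY
      rw [oK_Kl h hi' (show i ≤ z + 1 by omega)]
      ring
  refine ⟨?_, ?_, ?_, ?_, ?_, ?_, ?_, ?_⟩
  · unfold IY
    rw [Kl_zero, Ival_empty, prod_empty, mul_one]
  · unfold OY
    rw [Kl_zero]
    unfold oK
    rw [powerset_empty, sum_singleton, mZ_empty h.max, mul_zero]
  · intro i
    exact mul_nonneg (Ival_pos mZ_pos _).le (prod_nonneg fun _ _ => Nat.cast_nonneg _)
  · intro j hj hz
    have h1 := xY_eq (hx (j + 1) hj)
    have h2 := xY_eq (hx j (by omega))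
    have h3 := card_le_card (Kl_mono (Y := Y) (lev := lev) (show j + 1 ≤ j + 1 + 1 by omega))
    have h4 := Nn_succ ν j
    omega
  · intro j hj
    exact Gp_nonneg h hcap hj fun j' hj' => hx j' (by omega)
  · intro i z hiz hzl hi hz _
    obtain ⟨h1, h2⟩ := key i z hiz hzl hi hz
    obtain ⟨h3, h4, _, _⟩ := core_Bl (X := X) (Z := ZY Y lev ν l) (i := i) (j := z + 1)
      h hP hm hcap ZY_lt
    rw [← h1, ← h2]
    exact ⟨h3, h4⟩
  · intro i z hiz hzl hi hz _ hg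
    obtain ⟨h1, h2⟩ := key i z hiz hzl hi hz
    obtain ⟨_, _, h3, _⟩ := core_Bl (X := X) (Z := ZY Y lev ν l) (i := i) (j := z + 1)
      h hP hm hcap ZY_lt
    rw [← h1, ← h2]
    rw [← h1] at hg
    rw [IY_split h (show i ≤ z + 1 by omega) (start_mem (l := l) (by omega) hi)]
    refine mul_le_mul_of_nonneg_left (h3 hg) ?_
    exact mul_nonneg (Ival_pos mZ_pos _).le (prod_nonneg fun _ _ => Nat.cast_nonneg _)
  · intro i z hiz hzl hi hz _ hg
    obtain ⟨h1, h2⟩ := key i z hiz hzl hi hz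
    obtain ⟨_, _, _, h3⟩ := core_Bl (X := X) (Z := ZY Y lev ν l) (i := i) (j := z + 1)
      h hP hm hcap ZY_lt
    rw [← h2]
    rw [← h1] at hg
    rw [IY_split h (show i ≤ z + 1 by omega) (start_mem (l := l) (by omega) hi)]
    refine mul_le_mul_of_nonneg_left (h3 hg) ?_
    exact mul_nonneg (Ival_pos mZ_pos _).le (prod_nonneg fun _ _ => Nat.cast_nonneg _)

omit [Fintype V] in
/-- the weight of the target -/
theorem Ex_prod (hP : ∀ j, 0 < P j) {j : ℕ} (hν : ∀ i, i ≤ j → 1 ≤ ν i)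
    (hx : ∀ i, i ≤ j → Nn ν i ≤ (Kl Y lev (i + 1)).card) :
    Ex P ν (xY Y lev ν) (j + 1) * ∏ k ∈ Kl Y lev (j + 1), (P (lev k) : ℝ) =
      (P 0 : ℝ) ^ (∑ i ∈ range (j + 1), (ν i - 1)) * (∏ i ∈ range (j + 1), (P i : ℝ)) *
        (P j : ℝ) ^ (xY Y lev ν j) := by
  have hP0 : ∀ j, (P j : ℝ) ≠ 0 := fun j => by
    have := hP j
    positivity
  induction j with
  | zero =>
    have h1 : ∏ k ∈ Kl Y lev (0 + 1), (P (lev k) : ℝ) = (P 0 : ℝ) ^ (Kl Y lev (0 + 1)).card := by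
      rw [← prod_const]
      refine prod_congr rfl fun k hk => ?_
      rw [mem_Kl] at hk
      rw [show lev k = 0 by omega]
    have h2 := xY_eq (hx 0 le_rfl)
    have h3 : Nn ν 0 = ν 0 := by
      unfold Nn
      simp
    have h4 := hν 0 le_rfl
    change ((P 0 : ℝ) / P 0) ^ (ν 0 - 1) * ∏ k ∈ Kl Y lev (0 + 1), (P (lev k) : ℝ) = _
    rw [h1, h2, h3, div_self (hP0 0), one_pow, one_mul, sum_range_one, prod_range_one]
    obtain ⟨t, ht⟩ : ∃ t, ν 0 = t + 1 := ⟨ν 0 - 1, by omega⟩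
    rw [ht, Nat.add_sub_cancel, pow_add, pow_succ]
  | succ j ih =>
    have ih' := ih (fun i hi => hν i (by omega)) (fun i hi => hx i (by omega))
    have h1 : ∏ k ∈ Kl Y lev (j + 1 + 1), (P (lev k) : ℝ) =
        (∏ k ∈ Kl Y lev (j + 1), (P (lev k) : ℝ)) *
          (P (j + 1) : ℝ) ^ (Bl Y lev (j + 1) (j + 1 + 1)).card := by
      rw [← Kl_union (Y := Y) (lev := lev) (show j + 1 ≤ j + 1 + 1 by omega),
        prod_union Kl_disj, ← prod_const]
      congr 1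
      refine prod_congr rfl fun k hk => ?_
      rw [mem_Bl] at hk
      rw [show lev k = j + 1 by omega]
    have h2 : (Kl Y lev (j + 1 + 1)).card = (Kl Y lev (j + 1)).card +
        (Bl Y lev (j + 1) (j + 1 + 1)).card := by
      rw [← Kl_union (Y := Y) (lev := lev) (show j + 1 ≤ j + 1 + 1 by omega),
        card_union_of_disjoint Kl_disj]
    have h3 := xY_eq (hx j (by omega))
    have h4 := xY_eq (hx (j + 1) le_rfl)
    have h5 := Nn_succ ν j
    have h6 := hν (j + 1) le_rfl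
    -- the number of elements of level `j + 1`
    have h7 : xY Y lev ν j + (Bl Y lev (j + 1) (j + 1 + 1)).card =
        (ν (j + 1) - 1) + 1 + xY Y lev ν (j + 1) := by omega
    rw [h1, sum_range_succ, prod_range_succ _ (j + 1)]
    change Ex P ν (xY Y lev ν) (j + 1) * ((P (j + 1) : ℝ) / P j) ^ (xY Y lev ν j) *
      (((P 0 : ℝ) / P (j + 1)) ^ (ν (j + 1) - 1)) * _ = _
    have h8 : ((P (j + 1) : ℝ) / P j) ^ (xY Y lev ν j) * (P j : ℝ) ^ (xY Y lev ν j) =
        (P (j + 1) : ℝ) ^ (xY Y lev ν j) := by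
      rw [← mul_pow, div_mul_cancel₀ _ (hP0 j)]
    have h9 : ((P 0 : ℝ) / P (j + 1)) ^ (ν (j + 1) - 1) * (P (j + 1) : ℝ) ^ (ν (j + 1) - 1) =
        (P 0 : ℝ) ^ (ν (j + 1) - 1) := by
      rw [← mul_pow, div_mul_cancel₀ _ (hP0 (j + 1))]
    calc Ex P ν (xY Y lev ν) (j + 1) * ((P (j + 1) : ℝ) / P j) ^ (xY Y lev ν j) *
          (((P 0 : ℝ) / P (j + 1)) ^ (ν (j + 1) - 1)) *
          ((∏ k ∈ Kl Y lev (j + 1), (P (lev k) : ℝ)) *
            (P (j + 1) : ℝ) ^ (Bl Y lev (j + 1) (j + 1 + 1)).card)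
        = (Ex P ν (xY Y lev ν) (j + 1) * ∏ k ∈ Kl Y lev (j + 1), (P (lev k) : ℝ)) *
            ((P (j + 1) : ℝ) / P j) ^ (xY Y lev ν j) *
            (((P 0 : ℝ) / P (j + 1)) ^ (ν (j + 1) - 1)) *
            (P (j + 1) : ℝ) ^ (Bl Y lev (j + 1) (j + 1 + 1)).card := by ring
      _ = (P 0 : ℝ) ^ (∑ i ∈ range (j + 1), (ν i - 1)) * (∏ i ∈ range (j + 1), (P i : ℝ)) *
            (((P (j + 1) : ℝ) / P j) ^ (xY Y lev ν j) * (P j : ℝ) ^ (xY Y lev ν j)) *
            (((P 0 : ℝ) / P (j + 1)) ^ (ν (j + 1) - 1)) *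
            (P (j + 1) : ℝ) ^ (Bl Y lev (j + 1) (j + 1 + 1)).card := by
          rw [ih']
          ring
      _ = (P 0 : ℝ) ^ (∑ i ∈ range (j + 1), (ν i - 1)) * (∏ i ∈ range (j + 1), (P i : ℝ)) *
            (((P 0 : ℝ) / P (j + 1)) ^ (ν (j + 1) - 1)) *
            (P (j + 1) : ℝ) ^ (xY Y lev ν j + (Bl Y lev (j + 1) (j + 1 + 1)).card) := by
          rw [h8, pow_add]
          ring
      _ = (P 0 : ℝ) ^ (∑ i ∈ range (j + 1), (ν i - 1)) * (∏ i ∈ range (j + 1), (P i : ℝ)) *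
            ((((P 0 : ℝ) / P (j + 1)) ^ (ν (j + 1) - 1)) *
            (P (j + 1) : ℝ) ^ (ν (j + 1) - 1)) * P (j + 1) *
            (P (j + 1) : ℝ) ^ xY Y lev ν (j + 1) := by
          rw [h7, pow_add, pow_succ]
          ring
      _ = _ := by
          rw [h9, pow_add]
          ring

end MP76b19e.Rob
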