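import Pool.Agent.Lib.MP76b19e.Rob.LinkD

/-!
# The pointwise inequality for the maximal independent sets of size `r` (problem MP_76b19e_co)

`alpha`: for a maximal independent set `Y` of `W` with `Nn ν l` elements, the weighted sum of the
running minimum statistic over the orders with greedy set `Y` is at most the number of orders
times `1 + Xs l + ∑_{v ∈ W \ Y} (|D(v)| - 1)`. `low_bound`: the bound for the blocks below `l`.
-/

set_option autoImplicit false

open Finset

namespace MP76b19e.Rob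

/-- numerical version of the running minimum statistic -/
noncomputable def rn (P ν C : ℕ → ℕ) : ℕ → ℝ
  | 0 => 1
  | m + 1 => max 0 (bn P ν C m) * gn P ν C m

theorem rn_nonneg (P ν C : ℕ → ℕ) (l : ℕ) : 0 ≤ rn P ν C l := by
  cases l with
  | zero => exact zero_le_one
  | succ m => exact mul_nonneg (le_max_left _ _) (gn_nonneg P ν C m)

variable {V : Type} [DecidableEq V] [Fintype V] {F : SimpleGraph V} {W Y : Finset V}
  {X : ℕ → Finset V} {lev : V → ℕ} {P ν : ℕ → ℕ} {l n : ℕ} {s : V ≃ Fin n}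

/-- a positive statistic has positive factors -/
theorem bm_pos {b p : ℕ → ℝ} (h : 0 < RM F X b p s l) (j : ℕ) (hj : j < l) :
    0 < bm F X b p s j := by
  rcases l with _ | m
  · omega
  · change 0 < max 0 (bm F X b p s m) * gm F X b p s m at h
    have h1 : 0 < max 0 (bm F X b p s m) := by
      rcases lt_or_ge 0 (max 0 (bm F X b p s m)) with h2 | h2
      · exact h2
      · have h3 := mul_nonpos_of_nonpos_of_nonneg h2 (gm_nonneg (F := F) X b p s m)
        exact absurd h (not_lt.2 h3)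
    have h2 : 0 < gm F X b p s m := by
      rcases lt_or_ge 0 (gm F X b p s m) with h2 | h2
      · exact h2
      · have h3 := mul_nonpos_of_nonneg_of_nonpos (le_max_left 0 (bm F X b p s m)) h2
        exact absurd h (not_lt.2 h3)
    rcases Nat.lt_or_ge j m with h3 | h3
    · by_contra hcon
      push Not at hcon
      have h4 : gm F X b p s m = 0 := by
        unfold gm
        refine prod_eq_zero (mem_range.2 h3) ?_
        rw [max_eq_left hcon]
        exact min_eq_right zero_le_one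
      rw [h4] at h2
      exact absurd h2 (lt_irrefl _)
    · have : j = m := by omega
      rw [this]
      rcases lt_max_iff.1 h1 with h4 | h4
      · exact absurd h4 (lt_irrefl _)
      · exact h4

/-- the sizes of the robust sets -/
theorem Tr_card (hX : ∀ j, X j = W.filter fun v => lev v ≤ j) (hP : ∀ j, 0 < P j)
    (hm : ∀ j, P j < P (j + 1)) (hcap : ∀ v ∈ W, lev v < l → (cn F v).card ≤ P (lev v))
    (hXc : ∀ j, j < l → ((X j).card : ℝ) = Ss P ν j - P j + 1)
    (h : 0 < RM F X (fun _ => 1) (fun j => (P j : ℝ)) s l) (j : ℕ) (hj : j < l) :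
    Nn ν j ≤ (Tr F s (X j)).card := by
  refine t_ge (t := fun j => (Tr F s (X j)).card) (C := fun j => (CN F (Tr F s (X j))).card)
    hP hm (fun j hj => ?_) (fun j hj => ?_) j hj
  · have hsub : Tr F s (X j) ⊆ W := by
      intro k hk
      have h1 := Tr_subset hk
      rw [hX, mem_filter] at h1
      exact h1.1
    have hsubl : ∀ k ∈ Tr F s (X j), lev k < l := by
      intro k hk
      have h1 := Tr_subset hk
      rw [hX, mem_filter] at h1
      omega
    refine (card_CN_caps (F := F) (P := P) hcap hsub hsubl).trans ?_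
    rw [cap_sum P lev j _ (fun k hk => by
      have h1 := Tr_subset hk
      rw [hX, mem_filter] at h1
      exact h1.2)]
    refine sub_le_sub_left (sum_le_sum fun i hi => ?_) _
    rw [mem_range] at hi
    have h1 : (0 : ℝ) ≤ (P (i + 1) : ℝ) - P i := by
      have : (P i : ℝ) ≤ P (i + 1) := by exact_mod_cast (hm i).le
      linarith
    refine mul_le_mul_of_nonneg_right ?_ h1
    have h2 : Tr F s (X i) ⊆ (Tr F s (X j)).filter fun k => lev k ≤ i := by
      intro k hk
      rw [mem_filter]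
      have h3 : X i ⊆ X j := by
        intro v hv
        rw [hX, mem_filter] at hv ⊢
        exact ⟨hv.1, by omega⟩
      refine ⟨Tr_mono h3 hk, ?_⟩
      have h4 := Tr_subset hk
      rw [hX, mem_filter] at h4
      exact h4.2
    exact_mod_cast card_le_card h2
  · rw [← bm_eq (X := X) (s := s) hXc j hj]
    exact bm_pos h j hj

omit [Fintype V] in
theorem Tr_sub_Kl (h : Lv F W Y X lev) (hs : gr F W s = Y) (j : ℕ) :
    Tr F s (X j) ⊆ Kl Y lev (j + 1) := by
  intro k hk
  have h1 := Tr_subset hk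
  rw [h.X_eq, mem_filter] at h1
  have h2 : X j ⊆ W := by
    rw [h.X_eq]
    exact filter_subset _ _
  have h3 := Tr_subset_gr h2 hk
  rw [hs] at h3
  exact mem_Kl.2 ⟨h3, by omega⟩

/-- the statistic is at most its numerical version -/
theorem RM_le (h : Lv F W Y X lev)
    (hXc : ∀ j, j < l → ((X j).card : ℝ) = Ss P ν j - P j + 1) (hs : gr F W s = Y) :
    RM F X (fun _ => 1) (fun j => (P j : ℝ)) s l ≤ rn P ν (CY F Y lev) l := by
  have hb : ∀ j, j < l → bm F X (fun _ => 1) (fun j => (P j : ℝ)) s j ≤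
      bn P ν (CY F Y lev) j := by
    intro j hj
    rw [bm_eq (X := X) (s := s) hXc j hj]
    exact bn_mono j fun i _ => card_le_card (CN_mono (Tr_sub_Kl h hs i))
  rcases l with _ | m
  · exact le_rfl
  · change max 0 (bm F X (fun _ => 1) (fun j => (P j : ℝ)) s m) *
      gm F X (fun _ => 1) (fun j => (P j : ℝ)) s m ≤
      max 0 (bn P ν (CY F Y lev) m) * gn P ν (CY F Y lev) m
    refine mul_le_mul (max_le_max le_rfl (hb m (by omega))) ?_ (gm_nonneg _ _ _ _ _)
      (le_max_left _ _)
    unfold gm gn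
    refine prod_le_prod (fun _ _ => le_min zero_le_one (le_max_left _ _)) fun i hi => ?_
    have := mem_range.1 hi
    exact min_le_min le_rfl (max_le_max le_rfl (hb i (by omega)))

omit [Fintype V] in
theorem Y_inter (h : Lv F W Y X lev) (z : ℕ) : Y ∩ X z = Kl Y lev (z + 1) := by
  ext k
  rw [mem_inter, mem_Kl]
  constructor
  · rintro ⟨h1, h2⟩
    have := (h.mem_X h1).1 h2
    exact ⟨h1, by omega⟩
  · rintro ⟨h1, h2⟩
    exact ⟨h1, (h.mem_X h1).2 (by omega)⟩

/-- the sum of the statistic over the orders with greedy set `Y` -/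
theorem sum_RM_le (h : Lv F W Y X lev) (hP : ∀ j, 0 < P j)
    (hm : ∀ j, P j < P (j + 1)) (hcap : ∀ v ∈ W, lev v < l → (cn F v).card ≤ P (lev v))
    (hXc : ∀ j, j < l → ((X j).card : ℝ) = Ss P ν j - P j + 1) :
    ∑ s ∈ univ.filter (fun s : V ≃ Fin n => gr F W s = Y),
        RM F X (fun _ => 1) (fun j => (P j : ℝ)) s l ≤
      (Fintype.card (V ≃ Fin n) : ℝ) * Ival (mZ F W X (ZY Y lev ν l) Y) Y *
        rn P ν (CY F Y lev) l := by
  classical
  have h1 : ∀ s ∈ univ.filter (fun s : V ≃ Fin n => gr F W s = Y),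
      RM F X (fun _ => 1) (fun j => (P j : ℝ)) s l ≤
        if (∀ z ∈ ZY Y lev ν l, Tr F s (X z) = Y ∩ X z) then rn P ν (CY F Y lev) l else 0 := by
    intro s hs
    have hs' := (mem_filter.1 hs).2
    split_ifs with h2
    · exact RM_le h hXc hs'
    · by_contra hcon
      push Not at hcon
      apply h2
      intro z hz
      unfold ZY at hz
      rw [mem_filter, mem_range] at hz
      have h3 := Tr_card h.X_eq hP hm hcap hXc hcon z hz.1
      rw [Y_inter h z]
      refine eq_of_subset_of_card_le (Tr_sub_Kl h hs' z) ?_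
      have h4 := card_le_card (Tr_sub_Kl h hs' z)
      have h5 := xY_eq (Y := Y) (lev := lev) (ν := ν) (j := z) (h3.trans h4)
      omega
  refine (sum_le_sum h1).trans ?_
  rw [← sum_filter, filter_filter, sum_const, nsmul_eq_mul]
  refine mul_le_mul_of_nonneg_right ?_ (rn_nonneg _ _ _ _)
  exact decouple (n := n)

/-- the bound for the blocks below `l` -/
theorem low_bound (h : Lv F W Y X lev) (hP : ∀ j, 0 < P j) (hm : ∀ j, P j < P (j + 1))
    (hcap : Cp F W Y lev P l)
    (hx : ∀ j, j < l → Nn ν j ≤ (Kl Y lev (j + 1)).card)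
    (hb : ∀ j, j < l → 0 < bn P ν (CY F Y lev) j) (i : ℕ) (hil : i ≤ l)
    (hi : i = 0 ∨ xY Y lev ν (i - 1) = 0) :
    0 ≤ OY F W Y X lev ν l i ∧
      OY F W Y X lev ν l i ≤ Gp P ν (xY Y lev ν) (CY F Y lev) i ∧
      Dv P ν (xY Y lev ν) (CY F Y lev) (IY F W Y X lev P ν l) i ≤
        1 + Xs P (xY Y lev ν) i + OY F W Y X lev ν l i ∧
      Dv P ν (xY Y lev ν) (CY F Y lev) (IY F W Y X lev P ν l) i ≤ P i :=
  start_bound hP hm (blk h hP hm hcap hx) hb i hil hi

/-- the statistic at the last block -/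
theorem rn_le (hP : ∀ j, 0 < P j) (hm : ∀ j, P j < P (j + 1)) {x C : ℕ → ℕ}
    (hG : ∀ j, j < l → 0 ≤ Gp P ν x C (j + 1)) {i : ℕ} (hi : i = 0 ∨ x (i - 1) = 0) :
    (i = l → rn P ν C l ≤ gn P ν C l) ∧
      ∀ j, i ≤ j → j + 1 = l → rn P ν C l ≤ (1 + x j) * gn P ν C i := by
  constructor
  · intro hil
    rcases l with _ | m
    · change (1 : ℝ) ≤ gn P ν C 0
      unfold gn
      simp
    · have h0 : x m = 0 := by
        rcases hi with h1 | h1
        · omega
        · rw [hil] at h1
          simpa using h1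
      have h1 := bn_le (ν := ν) (C := C) (x := x) hP hm m (fun j hj => hG j (by omega))
      rw [h0] at h1
      push_cast at h1
      rw [gn_succ]
      change max 0 (bn P ν C m) * gn P ν C m ≤ _
      rw [min_eq_right (max_le zero_le_one (by linarith))]
      rw [mul_comm]
  · intro j hij hjl
    subst hjl
    have h1 := bn_le (ν := ν) (C := C) (x := x) hP hm j (fun j' hj => hG j' (by omega))
    change max 0 (bn P ν C j) * gn P ν C j ≤ _
    have h2 : (0 : ℝ) ≤ x j := Nat.cast_nonneg _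
    exact mul_le_mul (max_le (by linarith) h1) (gn_anti P ν C hij) (gn_nonneg _ _ _ _)
      (by linarith)

/-- the pointwise inequality for the maximal independent sets with `Nn ν l` elements -/
theorem alpha (h : Lv F W Y X lev) (hP : ∀ j, 0 < P j) (hm : ∀ j, P j < P (j + 1))
    (hν : ∀ i, i ≤ l → 1 ≤ ν i) (hcap : Cp F W Y lev P l)
    (hXc : ∀ j, j < l → ((X j).card : ℝ) = Ss P ν j - P j + 1)
    (hWc : (W.card : ℝ) = Ss P ν l - P l + 1) (hY : Y.card = Nn ν l) :
    ((P 0 : ℝ) ^ (∑ i ∈ range (l + 1), (ν i - 1)) * ∏ i ∈ range l, (P i : ℝ)) *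
        ∑ s ∈ univ.filter (fun s : V ≃ Fin n => gr F W s = Y),
          RM F X (fun _ => 1) (fun j => (P j : ℝ)) s l ≤
      (Fintype.card (V ≃ Fin n) : ℝ) *
        (1 + Xs P (xY Y lev ν) l + ∑ v ∈ W \ Y, (((dn F Y v).card : ℝ) - 1)) := by
  classical
  have hl := hcap.le
  have hpen := hcap.pen
  have hTw : 0 ≤ (P 0 : ℝ) ^ (∑ i ∈ range (l + 1), (ν i - 1)) * ∏ i ∈ range l, (P i : ℝ) :=
    mul_nonneg (by positivity) (prod_nonneg fun _ _ => Nat.cast_nonneg _)
  have hO0 : 0 ≤ ∑ v ∈ W \ Y, (((dn F Y v).card : ℝ) - 1) := by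
    refine sum_nonneg fun v hv => ?_
    have h2 : 1 ≤ (dn F Y v).card := card_pos.2 (h.max v (mem_sdiff.1 hv).1)
    have h3 : (1 : ℝ) ≤ ((dn F Y v).card : ℝ) := by exact_mod_cast h2
    linarith
  have hX0 := Xs_nonneg (x := xY Y lev ν) hm l
  have hcard : (0 : ℝ) ≤ (Fintype.card (V ≃ Fin n) : ℝ) := Nat.cast_nonneg _
  by_cases hs : ∃ s : V ≃ Fin n, gr F W s = Y ∧
      0 < RM F X (fun _ => 1) (fun j => (P j : ℝ)) s l
  · obtain ⟨s0, hs0, hpos⟩ := hs
    have hx : ∀ j, j < l → Nn ν j ≤ (Kl Y lev (j + 1)).card := fun j hj =>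
      (Tr_card h.X_eq hP hm hcap.lo hXc hpos j hj).trans (card_le_card (Tr_sub_Kl h hs0 j))
    have hb : ∀ j, j < l → 0 < bn P ν (CY F Y lev) j := by
      intro j hj
      refine (bm_pos hpos j hj).trans_le ?_
      rw [bm_eq (X := X) (s := s0) hXc j hj]
      exact bn_mono j fun i _ => card_le_card (CN_mono (Tr_sub_Kl h hs0 i))
    have hKl : Kl Y lev (l + 1) = Y := by
      unfold Kl
      rw [filter_true_of_mem]
      intro k hk
      have := hl k (h.Y_sub hk)
      omega
    have hx' : ∀ j, j ≤ l → Nn ν j ≤ (Kl Y lev (j + 1)).card := by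
      intro j hj
      rcases Nat.lt_or_ge j l with h1 | h1
      · exact hx j h1
      · have : j = l := by omega
        rw [this, hKl, hY]
    have hxl : xY Y lev ν l = 0 := by
      unfold xY
      rw [hKl, hY]
      omega
    have hB := blk h hP hm hcap hx
    obtain ⟨i, hil, hi, hxi⟩ := exists_start (xY Y lev ν) l
    have hi' := start_mem hil hi
    set m := mZ F W X (ZY Y lev ν l) Y with hmdef
    set c : V → ℝ := fun k => (P (lev k) : ℝ) with hc
    obtain ⟨ho, hog, hcore, _⟩ := core_Bl (X := X) (Z := ZY Y lev ν l) (i := i) (j := l + 1)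
      h hP hm hcap ZY_lt
    rw [← hmdef, ← hc] at hog hcore
    rw [← hmdef] at ho
    -- the loss of the last block
    have hgl : gK m c (Bl Y lev i (l + 1)) ≤
        (P l : ℝ) - 1 - Xs P (xY Y lev ν) l - Gp P ν (xY Y lev ν) (CY F Y lev) i := by
      have h1 := sum_Bl_last (Z := ZY Y lev ν l) (i := i) h hl
      rw [← hmdef] at h1
      have h2 : ∑ k ∈ Y, c k = ∑ k ∈ Kl Y lev i, c k + ∑ k ∈ Bl Y lev i (l + 1), c k := by
        rw [← sum_union Kl_disj, Kl_union (by omega), hKl]
      have h3 := cap_Kl (P := P) (j := l) hx'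
      rw [hKl, hxl] at h3
      have h4 := Gp_eq (F := F) (P := P) (Y := Y) (lev := lev) (ν := ν) (i := i)
        (fun j hj => hx j (by omega))
      unfold gK
      rw [h4]
      have h5 : ∑ k ∈ Y, c k = Ss P ν l + ((0 : ℕ) : ℝ) * P l - Xs P (xY Y lev ν) l := h3
      push_cast at h5
      have h6 : ∑ k ∈ Kl Y lev i, c k = ∑ k ∈ Kl Y lev i, (P (lev k) : ℝ) := rfl
      linarith
    have hIt : Ival m Y * ∏ k ∈ Y, c k = IY F W Y X lev P ν l i *
        (Ival m (Bl Y lev i (l + 1)) * ∏ k ∈ Bl Y lev i (l + 1), c k) := by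
      have h1 := IY_split (P := P) (j := l + 1) h (show i ≤ l + 1 by omega) hi'
      rw [← h1]
      unfold IY
      rw [hKl]
    have hI0 : 0 ≤ Ival m Y * ∏ k ∈ Y, c k :=
      mul_nonneg (Ival_pos mZ_pos _).le (prod_nonneg fun _ _ => Nat.cast_nonneg _)
    have hII : 0 ≤ IY F W Y X lev P ν l i := hB.Inn i
    have hνl : ∀ j, j + 1 = l → xY Y lev ν j ≤ ν (j + 1) := by
      intro j hj
      have h1 := xY_eq (hx' (j + 1) (by omega))
      have h2 := xY_eq (hx' j (by omega))
      have h3 := card_le_card (Kl_mono (Y := Y) (lev := lev) (show j + 1 ≤ j + 1 + 1 by omega))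
      have h4 := Nn_succ ν j
      rw [hj] at h1 h2 h3 h4
      rw [hxl] at h1
      rw [hj]
      omega
    have hfin := final_bound (x := xY Y lev ν) (C := CY F Y lev) (ν := ν) hP hm hB hb hil hi hxi
      hνl hI0 ho hog hgl (fun hg => by
        rw [hIt]
        exact mul_le_mul_of_nonneg_left (hcore hg) hII) (rn_nonneg P ν (CY F Y lev) l)
      (rn_le hP hm (fun j hj => hB.G j hj) hi)
    have hOs : OY F W Y X lev ν l i + oK m (Bl Y lev i (l + 1)) ≤
        ∑ v ∈ W \ Y, (((dn F Y v).card : ℝ) - 1) := by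
      refine le_trans (le_of_eq ?_) (oK_le (X := X) (Z := ZY Y lev ν l) h hpen Y)
      have h1 := oK_Kl (j := l + 1) h hi' (by omega)
      rw [hKl] at h1
      rw [h1]
      rfl
    -- the weight
    have hw := Ex_prod (Y := Y) (lev := lev) hP (j := l) hν hx'
    rw [hKl, hxl, pow_zero, mul_one, prod_range_succ] at hw
    have hPl : (0 : ℝ) < P l := by exact_mod_cast hP l
    have hTwe : (P 0 : ℝ) ^ (∑ i ∈ range (l + 1), (ν i - 1)) * ∏ i ∈ range l, (P i : ℝ) =
        1 / (P l : ℝ) * Ex P ν (xY Y lev ν) (l + 1) * ∏ k ∈ Y, c k := by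
      have h1 : Ex P ν (xY Y lev ν) (l + 1) * ∏ k ∈ Y, c k =
          (P 0 : ℝ) ^ (∑ i ∈ range (l + 1), (ν i - 1)) *
            ((∏ i ∈ range l, (P i : ℝ)) * P l) := hw
      rw [mul_assoc (1 / (P l : ℝ)), h1]
      field_simp
    have hsum := sum_RM_le (n := n) (ν := ν) (l := l) h hP hm hcap.lo hXc
    rw [← hmdef] at hsum
    calc ((P 0 : ℝ) ^ (∑ i ∈ range (l + 1), (ν i - 1)) * ∏ i ∈ range l, (P i : ℝ)) *
        ∑ s ∈ univ.filter (fun s : V ≃ Fin n => gr F W s = Y),
          RM F X (fun _ => 1) (fun j => (P j : ℝ)) s l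
        ≤ ((P 0 : ℝ) ^ (∑ i ∈ range (l + 1), (ν i - 1)) * ∏ i ∈ range l, (P i : ℝ)) *
          ((Fintype.card (V ≃ Fin n) : ℝ) * Ival m Y * rn P ν (CY F Y lev) l) :=
          mul_le_mul_of_nonneg_left hsum hTw
      _ = (Fintype.card (V ≃ Fin n) : ℝ) * (1 / (P l : ℝ) * Ex P ν (xY Y lev ν) (l + 1) *
            (Ival m Y * ∏ k ∈ Y, c k) * rn P ν (CY F Y lev) l) := by
          rw [hTwe]
          ring
      _ ≤ _ := by
          refine mul_le_mul_of_nonneg_left ?_ hcard
          linarith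
  · have h1 : ∑ s ∈ univ.filter (fun s : V ≃ Fin n => gr F W s = Y),
          RM F X (fun _ => 1) (fun j => (P j : ℝ)) s l ≤ 0 := by
      refine sum_nonpos fun s hs' => ?_
      by_contra hcon
      push Not at hcon
      exact hs ⟨s, (mem_filter.1 hs').2, hcon⟩
    have h2 := mul_nonpos_of_nonneg_of_nonpos hTw h1
    refine h2.trans (mul_nonneg hcard ?_)
    linarith

end MP76b19e.Rob
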