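import Pool.Agent.Lib.MP76b19e.Rob.ZeroL

/-!
# The local inequality without an excess before the last level (problem MP_76b19e_co)

`Loc.zero`: the local inequality for the sets `Y ∈ MIS F W` with more than `∑ ν j` elements and
exactly `∑_{j < L} ν j` elements of level less than `L`. `locIneq_of_mixed`: the remaining case.
-/

set_option autoImplicit false

open Finset

namespace MP76b19e.Rob

variable {V β : Type} [Fintype V] [DecidableEq V] [DecidableEq β] {F : SimpleGraph V}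
  {W Y : Finset V} {L : ℕ} {X : ℕ → Finset V} {P ν : ℕ → ℕ} {T : ℕ → ℕ} {B : Finset β}
  {M : V → Finset β} {c : Finset V → ℕ}

/-- the local inequality, a zero before the last level -/
theorem Loc.zero (h : Loc F W L X P ν 0 T B M c) {n : ℕ} (hY : Y ∈ MIS F W) {d : ℕ}
    (hc : Y.card = ∑ j ∈ range (L + 1), ν j + (d + 1))
    (hz : L = 0 ∨ xY Y (levX X) ν (L - 1) = 0) {g : ℕ}
    (hg : g ≤ ∑ j ∈ range (L + 1), (ν j - 1)) :
    ((P 0 : ℝ) ^ g * ∏ j ∈ range L, (P j : ℝ)) *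
        ∑ s ∈ univ.filter (fun s : V ≃ Fin n => gr F W s = Y),
          RM F X (fun _ => 1) (fun j => (P j : ℝ)) s L ≤
      (Fintype.card (V ≃ Fin n) : ℝ) * CapT F W (fun K => (c K : ℝ)) Y := by
  classical
  have hLv := Lv_of h.Xmono h.XL hY
  have hcp := h.cp hLv.Y_sub
  have hP0 : 0 < P 0 := by have := h.q2; omega
  have hPp := Pe_pos h.Pmono hP0
  have hPm := Pe_mono h.Pmono
  have hXc : ∀ j, j < L → ((X j).card : ℝ) = Rob.Ss (Pe P L) ν j - Pe P L j + 1 :=
    fun j hj => h.Ss hj.le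
  have hWc : (W.card : ℝ) = Rob.Ss (Pe P L) ν L - Pe P L L + 1 := by
    rw [← h.Ss le_rfl, h.XL L le_rfl]
  have hW : ∀ v ∈ W, v ∈ X L := fun v hv => by rw [h.XL L le_rfl]; exact hv
  have hRM : ∀ s : V ≃ Fin n, RM F X (fun _ => 1) (fun j => (P j : ℝ)) s L =
      RM F X (fun _ => 1) (fun j => (Pe P L j : ℝ)) s L := fun s =>
    RM_congr (fun j hj => by rw [Pe_of_le hj.le]) s
  rw [sum_congr rfl fun s _ => hRM s]
  have hTg : (P 0 : ℝ) ^ g * ∏ j ∈ range L, (P j : ℝ) ≤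
      (Pe P L 0 : ℝ) ^ (∑ i ∈ range (L + 1), (ν i - 1)) * ∏ i ∈ range L, (Pe P L i : ℝ) := by
    rw [Pe_of_le (Nat.zero_le L)]
    have h1 : ∏ i ∈ range L, (Pe P L i : ℝ) = ∏ j ∈ range L, (P j : ℝ) :=
      prod_congr rfl fun i hi => by rw [Pe_of_le (mem_range.1 hi).le]
    rw [h1]
    refine mul_le_mul_of_nonneg_right ?_ (prod_nonneg fun _ _ => Nat.cast_nonneg _)
    exact pow_le_pow_right₀ (by exact_mod_cast hP0) hg
  have hS0 : 0 ≤ ∑ s ∈ univ.filter (fun s : V ≃ Fin n => gr F W s = Y),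
      RM F X (fun _ => 1) (fun j => (Pe P L j : ℝ)) s L :=
    sum_nonneg fun s _ => RM_nonneg _ _ _ _ _
  refine (mul_le_mul_of_nonneg_right hTg hS0).trans ?_
  have hind : ∀ K ⊆ Y, K ∈ Ind F W := fun K hK =>
    mem_Ind.2 ⟨hK.trans hLv.Y_sub, fun x hx y hy => hLv.indep x (hK hx) y (hK hy)⟩
  refine Rob.zero (n := n) hLv hPp hPm (fun i hi => h.ν1 i hi) hcp hXc hWc (d := d) hc hz
    (by rw [Pe_of_le (Nat.zero_le L)]; exact h.q2) (B := B) (M := M) ?_ h.MB ?_ ?_ ?_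
  · rw [Pe_of_le le_rfl, h.Bcard, h.T0, add_zero]
  · intro v hv
    have h2 := levX_spec (hW v hv)
    have h3 := h.colW _ h2.2.1 v h2.1 h2.2.2 (cn F v ∩ W) (fun u => by
      rw [mem_inter, mem_cn]
      exact and_comm)
    rw [Pe_of_le h2.2.1]
    exact h3
  · intro K hK hKc
    have h1 := h.c1 K (hind K hK) 0 le_rfl (by rw [add_zero]; exact hKc)
    rw [h.T0, add_zero] at h1
    rw [Pe_of_le le_rfl]
    exact h1
  · intro K hK hKc
    exact h.c2 K (hind K hK) (by rw [hKc]; rfl)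

/-- the remaining case of the local inequality: an excess at level `L - 1` -/
def MixedIneq (Cond : ∀ {V : Type} [Fintype V], SimpleGraph V → Finset V → ℕ →
    (ℕ → Finset V) → (ℕ → ℕ) → Prop) : Prop :=
  ∀ (V β : Type) (_ : Fintype V) (_ : DecidableEq V) (_ : DecidableEq β) (F : SimpleGraph V)
    (W : Finset V) (L : ℕ) (X : ℕ → Finset V) (P ν : ℕ → ℕ) (T : ℕ → ℕ) (B : Finset β)
    (M : V → Finset β) (c : Finset V → ℕ), Loc F W (L + 1) X P ν 0 T B M c →
    Cond F W (L + 1) X P → ∀ g : ℕ, GapOk P ν (L + 1) g →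
    ∀ Y ∈ MIS F W, ∑ j ∈ range (L + 2), ν j < Y.card → 1 ≤ xY Y (levX X) ν L →
      ((P 0 : ℝ) ^ g * ∏ j ∈ range (L + 1), (P j : ℝ)) *
        ∑ s ∈ univ.filter (fun s : V ≃ Fin (Fintype.card V) => gr F W s = Y),
          RM F X (fun _ => 1) (fun j => (P j : ℝ)) s (L + 1) ≤
      (Fintype.card (V ≃ Fin (Fintype.card V)) : ℝ) * CapT F W (fun K => (c K : ℝ)) Y

/-- the local inequality for all but the remaining case -/
theorem Loc.ineq (h : Loc F W L X P ν 0 T B M c) {n : ℕ} (hY : Y ∈ MIS F W)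
    (hmix : ∑ j ∈ range (L + 1), ν j < Y.card → L = 0 ∨ xY Y (levX X) ν (L - 1) = 0) {g : ℕ}
    (hg : g ≤ ∑ j ∈ range (L + 1), (ν j - 1)) :
    ((P 0 : ℝ) ^ g * ∏ j ∈ range L, (P j : ℝ)) *
        ∑ s ∈ univ.filter (fun s : V ≃ Fin n => gr F W s = Y),
          RM F X (fun _ => 1) (fun j => (P j : ℝ)) s L ≤
      (Fintype.card (V ≃ Fin n) : ℝ) * CapT F W (fun K => (c K : ℝ)) Y := by
  classical
  rcases Nat.lt_trichotomy Y.card (∑ j ∈ range (L + 1), ν j) with h1 | h1 | h1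
  · have h2 : ∑ s ∈ univ.filter (fun s : V ≃ Fin n => gr F W s = Y),
          RM F X (fun _ => 1) (fun j => (P j : ℝ)) s L ≤ 0 := by
      refine sum_nonpos fun s hs' => ?_
      by_contra hcon
      push Not at hcon
      have := h.card_ge (mem_filter.1 hs').2 hcon
      omega
    have h3 : 0 ≤ (P 0 : ℝ) ^ g * ∏ j ∈ range L, (P j : ℝ) :=
      mul_nonneg (by positivity) (prod_nonneg fun _ _ => Nat.cast_nonneg _)
    exact (mul_nonpos_of_nonneg_of_nonpos h3 h2).trans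
      (mul_nonneg (Nat.cast_nonneg _) (CapT_nonneg c Y))
  · exact h.alpha hY h1 hg
  · obtain ⟨d, hd⟩ : ∃ d, Y.card = ∑ j ∈ range (L + 1), ν j + (d + 1) :=
      ⟨Y.card - ∑ j ∈ range (L + 1), ν j - 1, by omega⟩
    exact h.zero hY hd (hmix h1) hg

theorem GapOk.le {P ν : ℕ → ℕ} {L g : ℕ} (h : GapOk P ν L g) :
    g ≤ ∑ j ∈ range (L + 1), (ν j - 1) := by
  rcases h with h | h
  · exact h.2.le
  · omega

/-- the local inequality with pendants follows from the remaining case -/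
theorem locIneq_of_mixed (h : MixedIneq fun F _ L X P => Full F L X P) : LocIneq := by
  classical
  intro V β iF iV iβ F W L X P ν T B M c hloc hfull g hg Y hY
  by_cases hmix : ∑ j ∈ range (L + 1), ν j < Y.card → L = 0 ∨ xY Y (levX X) ν (L - 1) = 0
  · exact hloc.ineq hY hmix hg.le
  · push Not at hmix
    obtain ⟨h1, h2, h3⟩ := hmix
    obtain ⟨L, rfl⟩ : ∃ j, L = j + 1 := ⟨L - 1, by omega⟩
    exact h V β iF iV iβ F W L X P ν T B M c hloc hfull g hg Y hY h1
      (Nat.one_le_iff_ne_zero.2 h3)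

/-- the local inequality without pendants follows from the remaining case -/
theorem locIneqW_of_mixed (h : MixedIneq fun F W _ _ _ => NoPend F W) : LocIneqW := by
  classical
  intro V β iF iV iβ F W L X P ν T B M c hloc hfull g hg Y hY
  by_cases hmix : ∑ j ∈ range (L + 1), ν j < Y.card → L = 0 ∨ xY Y (levX X) ν (L - 1) = 0
  · exact hloc.ineq hY hmix hg.le
  · push Not at hmix
    obtain ⟨h1, h2, h3⟩ := hmix
    obtain ⟨L, rfl⟩ : ∃ j, L = j + 1 := ⟨L - 1, by omega⟩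
    exact h V β iF iV iβ F W L X P ν T B M c hloc hfull g hg Y hY h1
      (Nat.one_le_iff_ne_zero.2 h3)

end MP76b19e.Rob
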