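import Mathlib

/-!
# Robust sets of a random order (problem MP_76b19e_co)

`F` is a graph, `s : V ≃ Fin n` an order of its vertices, `X` a set of vertices. Recursively along
the order a vertex is killed if it has an earlier robust neighbour, and it is robust if it is in
`X` and all its earlier neighbours are killed.
-/

set_option autoImplicit false

open Finset

namespace MP76b19e.Rob

variable {V : Type} {n : ℕ} (F : SimpleGraph V)

/-- robust vertices -/
def rob (s : V ≃ Fin n) (X : Finset V) (v : V) : Prop :=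
  v ∈ X ∧ ∀ y, F.Adj v y → ∀ _h1 : s y < s v, ∃ z, F.Adj y z ∧ ∃ _h2 : s z < s y, rob s X z
termination_by (s v).val
decreasing_by exact lt_trans _h2 _h1

/-- killed vertices -/
def killed (s : V ≃ Fin n) (X : Finset V) (y : V) : Prop :=
  ∃ z, F.Adj y z ∧ s z < s y ∧ rob F s X z

variable {F} {s s' : V ≃ Fin n} {X X' : Finset V}

theorem rob_iff {v : V} :
    rob F s X v ↔ v ∈ X ∧ ∀ y, F.Adj v y → s y < s v → killed F s X y := by
  rw [rob]
  constructor
  · rintro ⟨h1, h2⟩
    refine ⟨h1, fun y hy hlt => ?_⟩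
    obtain ⟨z, hz, hlt2, hr⟩ := h2 y hy hlt
    exact ⟨z, hz, hlt2, hr⟩
  · rintro ⟨h1, h2⟩
    refine ⟨h1, fun y hy hlt => ?_⟩
    obtain ⟨z, hz, hlt2, hr⟩ := h2 y hy hlt
    exact ⟨z, hz, hlt2, hr⟩

theorem rob.mem {v : V} (h : rob F s X v) : v ∈ X := (rob_iff.1 h).1

theorem not_killed_of_rob {v : V} (h : rob F s X v) : ¬ killed F s X v := by
  induction hk : (s v).val using Nat.strong_induction_on generalizing v with
  | _ k ih =>
    rintro ⟨z, hz, hlt, hr⟩
    have h1 := (rob_iff.1 h).2 z hz hlt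
    exact ih (s z).val (by rw [← hk]; exact hlt) hr rfl h1

theorem rob_mono (hX : X ⊆ X') {v : V} (h : rob F s X v) : rob F s X' v := by
  induction hk : (s v).val using Nat.strong_induction_on generalizing v with
  | _ k ih =>
    rw [rob_iff] at h ⊢
    refine ⟨hX h.1, fun y hy hlt => ?_⟩
    obtain ⟨z, hz, hlt2, hr⟩ := h.2 y hy hlt
    exact ⟨z, hz, hlt2, ih (s z).val (by rw [← hk]; exact lt_trans hlt2 hlt) hr rfl⟩

theorem killed_mono (hX : X ⊆ X') {v : V} (h : killed F s X v) : killed F s X' v := by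
  obtain ⟨z, hz, hlt, hr⟩ := h
  exact ⟨z, hz, hlt, rob_mono hX hr⟩

theorem killed_of_adj {x z : V} (hx : rob F s X x) (h : F.Adj x z) : killed F s X z := by
  rcases lt_trichotomy (s z) (s x) with h1 | h1 | h1
  · exact (rob_iff.1 hx).2 z h h1
  · exact absurd (s.injective h1) h.ne'
  · exact ⟨x, h.symm, h1, hx⟩

theorem rob_indep {x y : V} (hx : rob F s X x) (hy : rob F s X y) : ¬ F.Adj x y := fun h =>
  not_killed_of_rob hy (killed_of_adj hx h)

/-- permuting vertices that are not robust and not adjacent to robust vertices keeps all robust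
vertices, also those of smaller sets -/
theorem rob_stab {Y : Finset V} (hY : Y ⊆ X)
    (hQ : ∀ y, s' y ≠ s y → ¬ rob F s X y ∧ ∀ x, rob F s X x → ¬ F.Adj x y) {v : V}
    (h : rob F s Y v) : rob F s' Y v := by
  induction hk : (s v).val using Nat.strong_induction_on generalizing v with
  | _ k ih =>
    have hv : s' v = s v := by
      by_contra hne
      exact (hQ v hne).1 (rob_mono hY h)
    have h0 := h
    rw [rob_iff] at h ⊢
    refine ⟨h.1, fun y hy hlt => ?_⟩
    have hy' : s' y = s y := by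
      by_contra hne
      exact (hQ y hne).2 v (rob_mono hY h0) hy
    rw [hy', hv] at hlt
    obtain ⟨z, hz, hlt2, hr⟩ := h.2 y hy hlt
    have hz' : s' z = s z := by
      by_contra hne
      exact (hQ z hne).1 (rob_mono hY hr)
    refine ⟨z, hz, ?_, ih (s z).val (by rw [← hk]; exact lt_trans hlt2 hlt) hr rfl⟩
    rw [hz', hy']
    exact hlt2

/-! ### Prefixes -/

theorem prefix_symm {p : Fin n} (h : ∀ y, s y < p → s' y = s y) :
    ∀ y, s' y < p → s y = s' y := by
  intro y hy
  have h1 : s (s.symm (s' y)) = s' y := s.apply_symm_apply _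
  have h2 := h (s.symm (s' y)) (by rw [h1]; exact hy)
  rw [h1] at h2
  have h3 := s'.injective h2
  rw [h3] at h1
  exact h1

theorem rob_prefix_aux {p : Fin n} (h : ∀ y, s y < p → s' y = s y) {v : V} (hv : s v < p)
    (hr : rob F s X v) : rob F s' X v := by
  induction hk : (s v).val using Nat.strong_induction_on generalizing v with
  | _ k ih =>
    rw [rob_iff] at hr ⊢
    refine ⟨hr.1, fun y hy hlt => ?_⟩
    rw [h v hv] at hlt
    have hy' := prefix_symm h y (lt_trans hlt hv)
    rw [← hy'] at hlt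
    obtain ⟨z, hz, hlt2, hrz⟩ := hr.2 y hy hlt
    have hzp := lt_trans hlt2 (lt_trans hlt hv)
    refine ⟨z, hz, ?_, ih (s z).val (by rw [← hk]; exact lt_trans hlt2 hlt) hzp hrz rfl⟩
    rw [h z hzp, ← hy']
    exact hlt2

theorem rob_prefix {p : Fin n} (h : ∀ y, s y < p → s' y = s y) {v : V} (hv : s v < p) :
    rob F s X v ↔ rob F s' X v :=
  ⟨rob_prefix_aux h hv, rob_prefix_aux (prefix_symm h) (by rw [h v hv]; exact hv)⟩

theorem killed_prefix {p : Fin n} (h : ∀ y, s y < p → s' y = s y) {v : V} (hv : s v < p) :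
    killed F s X v ↔ killed F s' X v := by
  constructor
  · rintro ⟨z, hz, hlt, hr⟩
    have hzp := lt_trans hlt hv
    exact ⟨z, hz, by rw [h z hzp, h v hv]; exact hlt, (rob_prefix h hzp).1 hr⟩
  · rintro ⟨z, hz, hlt, hr⟩
    rw [h v hv] at hlt
    have hz' := prefix_symm h z (lt_trans hlt hv)
    rw [← hz'] at hlt
    exact ⟨z, hz, hlt, (rob_prefix h (lt_trans hlt hv)).2 hr⟩

/-! ### The first neighbour that is not killed -/

variable (F) in
/-- `z` is the first neighbour of `w` that is not killed, and it precedes `w` -/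
def IsNext (s : V ≃ Fin n) (X : Finset V) (w z : V) : Prop :=
  F.Adj w z ∧ s z < s w ∧ ¬ killed F s X z ∧ ∀ y, F.Adj w y → s y < s z → killed F s X y

theorem exists_next {w : V} (h : ∃ z, F.Adj w z ∧ s z < s w ∧ ¬ killed F s X z) :
    ∃ z, IsNext F s X w z := by
  classical
  obtain ⟨z0, h0⟩ := h
  have hne : (univ.filter fun p : Fin n => F.Adj w (s.symm p) ∧ p < s w ∧
      ¬ killed F s X (s.symm p)).Nonempty := by
    refine ⟨s z0, ?_⟩
    rw [mem_filter, s.symm_apply_apply]
    exact ⟨mem_univ _, h0⟩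
  obtain ⟨p, hp, hmin⟩ := exists_min_image _ (fun p => p) hne
  rw [mem_filter] at hp
  refine ⟨s.symm p, hp.2.1, ?_, hp.2.2.2, fun y hy hlt => ?_⟩
  · rw [s.apply_symm_apply]; exact hp.2.2.1
  · rw [s.apply_symm_apply] at hlt
    by_contra hcon
    have h1 := hmin (s y) (by
      rw [mem_filter, s.symm_apply_apply]
      exact ⟨mem_univ _, hy, lt_trans hlt hp.2.2.1, hcon⟩)
    exact absurd h1 (not_le.2 hlt)

theorem next_unique {w z z' : V} (h : IsNext F s X w z) (h' : IsNext F s X w z') : z = z' := by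
  rcases lt_trichotomy (s z) (s z') with h1 | h1 | h1
  · exact absurd (h'.2.2.2 z h.1 h1) h.2.2.1
  · exact s.injective h1
  · exact absurd (h.2.2.2 z' h'.1 h1) h'.2.2.1

/-- a vertex of `X` that is not robust and is not killed, or is just not robust, has a first
neighbour that is not killed -/
theorem exists_next_of_not_rob {w : V} (hw : w ∈ X) (h : ¬ rob F s X w) :
    ∃ z, IsNext F s X w z := by
  apply exists_next
  by_contra hcon
  push Not at hcon
  apply h
  rw [rob_iff]
  refine ⟨hw, fun y hy hlt => ?_⟩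
  by_contra hk
  exact hk (by
    by_contra hk2
    exact hk2 (hcon y hy hlt))

section swap

variable [DecidableEq V]

/-- interchange the places of `w` and `z` -/
def sw (s : V ≃ Fin n) (w z : V) : V ≃ Fin n := (Equiv.swap w z).trans s

theorem sw_left (w z : V) : sw s w z w = s z := by
  unfold sw
  rw [Equiv.trans_apply, Equiv.swap_apply_left]

theorem sw_right (w z : V) : sw s w z z = s w := by
  unfold sw
  rw [Equiv.trans_apply, Equiv.swap_apply_right]

theorem sw_ne {w z y : V} (h1 : y ≠ w) (h2 : y ≠ z) : sw s w z y = s y := by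
  unfold sw
  rw [Equiv.trans_apply, Equiv.swap_apply_of_ne_of_ne h1 h2]

theorem sw_sw (w z : V) : sw (sw s w z) w z = s := by
  ext y
  unfold sw
  simp only [Equiv.trans_apply, Equiv.swap_apply_self]

theorem sw_prefix {w z : V} (h : s z < s w) : ∀ y, s y < s z → sw s w z y = s y := by
  intro y hy
  apply sw_ne
  · rintro rfl
    exact absurd (lt_trans hy h) (lt_irrefl _)
  · rintro rfl
    exact absurd hy (lt_irrefl _)

/-- after the interchange `w` is robust -/
theorem rob_sw {w z : V} (hw : w ∈ X) (h : IsNext F s X w z) : rob F (sw s w z) X w := by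
  rw [rob_iff]
  refine ⟨hw, fun y hy hlt => ?_⟩
  rw [sw_left] at hlt
  have hyw : y ≠ w := hy.ne'
  have hyz : y ≠ z := by
    rintro rfl
    rw [sw_right] at hlt
    exact absurd (lt_trans hlt h.2.1) (lt_irrefl _)
  rw [sw_ne hyw hyz] at hlt
  exact (killed_prefix (sw_prefix h.2.1) hlt).1 (h.2.2.2 y hy hlt)

/-- after the interchange `w` is the first robust neighbour of `z` -/
theorem first_sw {w z y : V} (h : IsNext F s X w z) (hy : F.Adj z y)
    (hlt : sw s w z y < sw s w z w) : ¬ rob F (sw s w z) X y := by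
  intro hr
  rw [sw_left] at hlt
  have hyz : y ≠ z := hy.ne'
  have hyw : y ≠ w := by
    rintro rfl
    rw [sw_left] at hlt
    exact absurd hlt (lt_irrefl _)
  rw [sw_ne hyw hyz] at hlt
  exact h.2.2.1 ⟨y, hy, hlt, (rob_prefix (sw_prefix h.2.1) hlt).2 hr⟩

theorem sw_inj {s₁ s₂ : V ≃ Fin n} {w₁ w₂ z : V} (hw₁ : w₁ ∈ X) (hw₂ : w₂ ∈ X)
    (h₁ : IsNext F s₁ X w₁ z) (h₂ : IsNext F s₂ X w₂ z) (h : sw s₁ w₁ z = sw s₂ w₂ z) :
    s₁ = s₂ ∧ w₁ = w₂ := by
  have r₁ := rob_sw hw₁ h₁
  have r₂ := rob_sw hw₂ h₂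
  have hw : w₁ = w₂ := by
    rcases lt_trichotomy (sw s₁ w₁ z w₁) (sw s₁ w₁ z w₂) with h3 | h3 | h3
    · rw [h] at h3
      exact absurd (h ▸ r₁) (first_sw h₂ h₁.1.symm h3)
    · exact (sw s₁ w₁ z).injective h3
    · exact absurd (h ▸ r₂) (first_sw h₁ h₂.1.symm h3)
  subst hw
  refine ⟨?_, rfl⟩
  rw [← sw_sw (s := s₁) w₁ z, h, sw_sw]

end swap

end MP76b19e.Rob
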