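import Pool.Agent.Lib.MP76b19e.Rob.Ival

/-!
# The canonical split over maximal independent sets (problem MP_76b19e_co)

`F` is a graph, `W` a finite set of vertices. Every independent set `K ⊆ W` distributes its unit
budget over the maximal independent sets `Y ⊇ K` by the greedy law of the rest:
`Ival (mY Y) (Y \ K)`.
-/

set_option autoImplicit false

open Finset

namespace MP76b19e.Rob

variable {V : Type} [DecidableEq V] (F : SimpleGraph V) (W : Finset V)

open Classical in
/-- independent subsets of `W` -/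
noncomputable def Ind : Finset (Finset V) :=
  W.powerset.filter fun K => ∀ x ∈ K, ∀ y ∈ K, ¬ F.Adj x y

open Classical in
/-- the part of `W` which is not dominated by `K` -/
noncomputable def Und (K : Finset V) : Finset V :=
  W.filter fun v => ∀ k ∈ K, v ≠ k ∧ ¬ F.Adj v k

open Classical in
/-- maximal independent subsets of `W` -/
noncomputable def MIS : Finset (Finset V) :=
  (Ind F W).filter fun Y => Und F W Y = ∅

open Classical in
/-- the closed neighbours of `v` in `Y` -/
noncomputable def dn (Y : Finset V) (v : V) : Finset V := Y.filter fun y => v = y ∨ F.Adj v y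

open Classical in
/-- multiplicities of the dominating sets -/
noncomputable def mY (Y : Finset V) (D : Finset V) : ℝ :=
  ((W.filter fun v => dn F Y v = D).card : ℝ)

variable {F W}

theorem mem_Ind {K : Finset V} :
    K ∈ Ind F W ↔ K ⊆ W ∧ ∀ x ∈ K, ∀ y ∈ K, ¬ F.Adj x y := by
  classical
  unfold Ind
  rw [mem_filter, mem_powerset]

theorem mem_Und {K : Finset V} {v : V} :
    v ∈ Und F W K ↔ v ∈ W ∧ ∀ k ∈ K, v ≠ k ∧ ¬ F.Adj v k := by
  classical
  unfold Und
  rw [mem_filter]

theorem mem_MIS {Y : Finset V} :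
    Y ∈ MIS F W ↔ (Y ⊆ W ∧ ∀ x ∈ Y, ∀ y ∈ Y, ¬ F.Adj x y) ∧ Und F W Y = ∅ := by
  classical
  unfold MIS
  rw [mem_filter, mem_Ind]

theorem mem_dn {Y : Finset V} {v y : V} : y ∈ dn F Y v ↔ y ∈ Y ∧ (v = y ∨ F.Adj v y) := by
  classical
  unfold dn
  rw [mem_filter]

theorem dn_subset (Y : Finset V) (v : V) : dn F Y v ⊆ Y := fun _ h => (mem_dn.1 h).1

theorem mY_nonneg (Y D : Finset V) : 0 ≤ mY F W Y D := by
  classical
  exact Nat.cast_nonneg _

theorem dn_self {Y : Finset V} (hY : ∀ x ∈ Y, ∀ y ∈ Y, ¬ F.Adj x y) {k : V} (hk : k ∈ Y) :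
    dn F Y k = {k} := by
  ext y
  rw [mem_dn, mem_singleton]
  constructor
  · rintro ⟨h1, h2 | h2⟩
    · exact h2.symm
    · exact absurd h2 (hY k hk y h1)
  · rintro rfl
    exact ⟨hk, Or.inl rfl⟩

/-- the denominators count the undominated vertices -/
theorem sum_mY {Y K : Finset V} (hK : K ⊆ Y) :
    ∑ D ∈ (Y \ K).powerset, mY F W Y D = ((Und F W K).card : ℝ) := by
  classical
  unfold mY
  rw [← Nat.cast_sum]
  congr 1
  rw [card_eq_sum_card_fiberwise (f := dn F Y) (s := Und F W K) (t := (Y \ K).powerset)]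
  · refine sum_congr rfl fun D hD => ?_
    rw [mem_powerset] at hD
    congr 1
    ext v
    rw [mem_filter, mem_filter, mem_Und]
    constructor
    · rintro ⟨h1, h2⟩
      refine ⟨⟨h1, fun k hk => ?_⟩, h2⟩
      have h3 : k ∉ dn F Y v := by
        intro h4
        rw [h2] at h4
        exact (mem_sdiff.1 (hD h4)).2 hk
      rw [mem_dn] at h3
      push Not at h3
      exact h3 (hK hk)
    · rintro ⟨⟨h1, _⟩, h2⟩
      exact ⟨h1, h2⟩
  · intro v hv
    rw [mem_coe, mem_Und] at hv
    rw [mem_coe, mem_powerset]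
    intro y hy
    rw [mem_dn] at hy
    rw [mem_sdiff]
    refine ⟨hy.1, fun hyK => ?_⟩
    have h1 := hv.2 y hyK
    rcases hy.2 with h2 | h2
    · exact h1.1 h2
    · exact h1.2 h2

theorem Und_insert_subset {K : Finset V} {s : V} (hs : s ∈ Und F W K) :
    (Und F W (insert s K)).card < (Und F W K).card := by
  classical
  apply card_lt_card
  rw [ssubset_iff_of_subset]
  · refine ⟨s, hs, fun h => ?_⟩
    exact ((mem_Und.1 h).2 s (mem_insert_self s K)).1 rfl
  · intro v hv
    rw [mem_Und] at hv ⊢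
    exact ⟨hv.1, fun k hk => hv.2 k (mem_insert_of_mem hk)⟩

theorem insert_mem_Ind {K : Finset V} {s : V} (hK : K ∈ Ind F W) (hs : s ∈ Und F W K) :
    insert s K ∈ Ind F W := by
  rw [mem_Ind] at hK ⊢
  rw [mem_Und] at hs
  refine ⟨insert_subset_iff.2 ⟨hs.1, hK.1⟩, fun x hx y hy => ?_⟩
  rcases mem_insert.1 hx with rfl | hx
  · rcases mem_insert.1 hy with rfl | hy
    · exact F.loopless.irrefl _
    · exact (hs.2 y hy).2
  · rcases mem_insert.1 hy with h1 | hy
    · rw [h1]
      exact fun h => (hs.2 x hx).2 h.symm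
    · exact hK.2 x hx y hy

/-- every independent set distributes a unit budget -/
theorem budget {K : Finset V} (hK : K ∈ Ind F W) :
    ∑ Y ∈ (MIS F W).filter (fun Y => K ⊆ Y), Ival (mY F W Y) (Y \ K) = 1 := by
  classical
  induction hc : (Und F W K).card using Nat.strong_induction_on generalizing K with
  | _ c ih =>
    rcases (Und F W K).eq_empty_or_nonempty with h0 | h0
    · -- `K` is maximal
      have h1 : (MIS F W).filter (fun Y => K ⊆ Y) = {K} := by
        ext Y
        rw [mem_filter, mem_singleton, mem_MIS]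
        constructor
        · rintro ⟨⟨h2, _⟩, h4⟩
          refine (Subset.antisymm h4 fun y hy => ?_).symm
          by_contra hyK
          have h5 : y ∈ Und F W K := by
            rw [mem_Und]
            refine ⟨h2.1 hy, fun k hk => ⟨?_, h2.2 y hy k (h4 hk)⟩⟩
            rintro rfl
            exact hyK hk
          rw [h0] at h5
          exact absurd h5 (notMem_empty y)
        · rintro rfl
          exact ⟨⟨mem_Ind.1 hK, h0⟩, Subset.refl _⟩
      rw [h1, sum_singleton, Finset.sdiff_self, Ival_empty]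
    · have hpos : (0 : ℝ) < ((Und F W K).card : ℝ) := by exact_mod_cast card_pos.2 h0
      have h1 : ∀ Y ∈ (MIS F W).filter (fun Y => K ⊆ Y), Ival (mY F W Y) (Y \ K) =
          (∑ s ∈ Y \ K, Ival (mY F W Y) (Y \ insert s K)) / ((Und F W K).card : ℝ) := by
        intro Y hY
        rw [mem_filter, mem_MIS] at hY
        have h2 : (Y \ K).Nonempty := by
          rw [nonempty_iff_ne_empty]
          intro h3
          have h4 : Y ⊆ K := by
            rw [← sdiff_eq_empty_iff_subset]
            exact h3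
          have h5 : Y = K := Subset.antisymm h4 hY.2
          rw [h5] at hY
          rw [hY.1.2] at h0
          exact absurd h0 (by simp)
        rw [Ival_eq _ h2, sum_mY hY.2]
        congr 1
        refine sum_congr rfl fun s _ => ?_
        congr 1
        ext y
        simp only [mem_erase, mem_sdiff, mem_insert]
        tauto
      rw [sum_congr rfl h1, ← sum_div, div_eq_one_iff_eq hpos.ne']
      have h2 : ∑ Y ∈ (MIS F W).filter (fun Y => K ⊆ Y), ∑ s ∈ Y \ K,
          Ival (mY F W Y) (Y \ insert s K) =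
          ∑ s ∈ Und F W K, ∑ Y ∈ (MIS F W).filter (fun Y => insert s K ⊆ Y),
            Ival (mY F W Y) (Y \ insert s K) := by
        apply sum_comm'
        intro Y s
        rw [mem_filter, mem_filter, mem_MIS, mem_sdiff, mem_Und, insert_subset_iff]
        constructor
        · rintro ⟨⟨h3, h4⟩, h5, h6⟩
          refine ⟨⟨h3, h5, h4⟩, h3.1.1 h5, fun k hk => ⟨?_, h3.1.2 s h5 k (h4 hk)⟩⟩
          rintro rfl
          exact h6 hk
        · rintro ⟨⟨h5, h6, h7⟩, _, h4⟩
          exact ⟨⟨h5, h7⟩, h6, fun h8 => (h4 s h8).1 rfl⟩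
      rw [h2]
      have h3 : ∀ s ∈ Und F W K, ∑ Y ∈ (MIS F W).filter (fun Y => insert s K ⊆ Y),
            Ival (mY F W Y) (Y \ insert s K) = 1 := by
        intro s hs
        exact ih _ (by rw [← hc]; exact Und_insert_subset hs) (insert_mem_Ind hK hs) rfl
      rw [sum_congr rfl h3, sum_const, nsmul_eq_mul, mul_one]

variable (F W) in
/-- the capacity of a maximal independent set -/
noncomputable def Cap (r : ℕ) (b : Finset V → ℝ) (Y : Finset V) : ℝ :=
  ∑ K ∈ Y.powersetCard (r + 1), Ival (mY F W Y) (Y \ K) +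
    ∑ K ∈ Y.powersetCard r, b K * Ival (mY F W Y) (Y \ K)

/-- the budgets of the independent sets of a given size -/
theorem budget_sum (r : ℕ) (b : Finset V → ℝ) :
    ∑ K ∈ (Ind F W).filter (fun K => K.card = r), b K =
      ∑ Y ∈ MIS F W, ∑ K ∈ Y.powersetCard r, b K * Ival (mY F W Y) (Y \ K) := by
  classical
  have h1 : ∀ K ∈ (Ind F W).filter (fun K => K.card = r), b K =
      ∑ Y ∈ (MIS F W).filter (fun Y => K ⊆ Y), b K * Ival (mY F W Y) (Y \ K) := by
    intro K hK
    rw [← mul_sum, budget (mem_filter.1 hK).1, mul_one]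
  rw [sum_congr rfl h1]
  apply sum_comm'
  intro K Y
  rw [mem_filter, mem_filter, mem_powersetCard, mem_Ind, mem_MIS]
  constructor
  · rintro ⟨⟨_, h2⟩, h3, h4⟩
    exact ⟨⟨h4, h2⟩, h3⟩
  · rintro ⟨⟨h1, h2⟩, h3⟩
    refine ⟨⟨⟨h1.trans h3.1.1, fun x hx y hy => h3.1.2 x (h1 hx) y (h1 hy)⟩, h2⟩, h3, h1⟩

/-- the canonical split -/
theorem split (r : ℕ) (b : Finset V → ℝ) :
    (((Ind F W).filter (fun K => K.card = r + 1)).card : ℝ) +
      ∑ K ∈ (Ind F W).filter (fun K => K.card = r), b K =
    ∑ Y ∈ MIS F W, Cap F W r b Y := by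
  unfold Cap
  rw [sum_add_distrib, ← budget_sum r b]
  congr 1
  have h := budget_sum (F := F) (W := W) (r + 1) (fun _ => (1 : ℝ))
  simp only [one_mul] at h
  rw [← h, sum_const, nsmul_eq_mul, mul_one]

end MP76b19e.Rob
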