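import Pool.Agent.Lib.MP76b19e.Rob.RM
import Pool.Agent.Lib.MP76b19e.Rob.Split

/-!
# Greedy sets, reduction to the pointwise inequality, decoupling (problem MP_76b19e_co)

`V` contains the finite set `W` and the pendants. `gr F W s` is the greedy maximal independent
subset of `W` for the order `s` (pendants ignored), `Tr F s X` is the robust set of `X` in the whole
graph `F` (pendants included); `Tr F s X ⊆ gr F W s` for `X ⊆ W`.
-/

set_option autoImplicit false

open Finset

namespace MP76b19e.Rob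

variable {V : Type}

/-- the graph induced on `W` -/
def FW (F : SimpleGraph V) (W : Finset V) : SimpleGraph V where
  Adj u v := F.Adj u v ∧ u ∈ W ∧ v ∈ W
  symm := ⟨fun _ _ h => ⟨h.1.symm, h.2.2, h.2.1⟩⟩
  loopless := ⟨fun _ h => F.loopless.irrefl _ h.1⟩

variable {n : ℕ} (F : SimpleGraph V) (W : Finset V)

open Classical in
/-- the greedy set -/
noncomputable def gr (s : V ≃ Fin n) : Finset V := W.filter fun v => rob (FW F W) s W v

open Classical in
/-- the robust set -/
noncomputable def Tr (s : V ≃ Fin n) (X : Finset V) : Finset V := X.filter fun v => rob F s X v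

variable {F W} {s : V ≃ Fin n} {X X' : Finset V}

theorem mem_gr {v : V} : v ∈ gr F W s ↔ rob (FW F W) s W v := by
  classical
  unfold gr
  rw [mem_filter]
  exact ⟨fun h => h.2, fun h => ⟨h.mem, h⟩⟩

theorem mem_Tr {v : V} : v ∈ Tr F s X ↔ rob F s X v := by
  classical
  unfold Tr
  rw [mem_filter]
  exact ⟨fun h => h.2, fun h => ⟨h.mem, h⟩⟩

theorem Tr_subset : Tr F s X ⊆ X := fun _ h => (mem_Tr.1 h).mem

theorem gr_subset : gr F W s ⊆ W := fun _ h => (mem_gr.1 h).mem

theorem Tr_mono (h : X ⊆ X') : Tr F s X ⊆ Tr F s X' := fun _ hv =>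
  mem_Tr.2 (rob_mono h (mem_Tr.1 hv))

theorem rob_FW (hX : X ⊆ W) {v : V} (h : rob F s X v) : rob (FW F W) s W v := by
  induction hc : (s v).val using Nat.strong_induction_on generalizing v with
  | _ c ih =>
    rw [rob_iff] at h ⊢
    refine ⟨hX h.1, fun y hy hlt => ?_⟩
    obtain ⟨z, hz, hlt2, hr⟩ := h.2 y hy.1 hlt
    have hz' : rob (FW F W) s W z := by
      refine ih (s z).val ?_ hr rfl
      rw [← hc]
      exact lt_trans hlt2 hlt
    exact ⟨z, ⟨hz, hy.2.2, hz'.mem⟩, hlt2, hz'⟩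

theorem Tr_subset_gr (hX : X ⊆ W) : Tr F s X ⊆ gr F W s := fun _ hv =>
  mem_gr.2 (rob_FW hX (mem_Tr.1 hv))

/-- every element of `W` is picked or killed -/
theorem rob_or_killed {v : V} (hv : v ∈ W) :
    rob (FW F W) s W v ∨ killed (FW F W) s W v := by
  induction hc : (s v).val using Nat.strong_induction_on generalizing v with
  | _ c ih =>
    by_cases h : rob (FW F W) s W v
    · exact Or.inl h
    · right
      rw [rob_iff] at h
      push Not at h
      obtain ⟨y, hy, hlt, hk⟩ := h hv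
      have h1 := ih (s y).val (by rw [← hc]; exact hlt) hy.2.2 rfl
      rcases h1 with h1 | h1
      · exact ⟨y, hy, hlt, h1⟩
      · exact absurd h1 hk

variable [DecidableEq V]

theorem gr_mem_MIS : gr F W s ∈ MIS F W := by
  rw [mem_MIS]
  refine ⟨⟨gr_subset, fun x hx y hy h => ?_⟩, ?_⟩
  · exact rob_indep (mem_gr.1 hx) (mem_gr.1 hy) ⟨h, gr_subset hx, gr_subset hy⟩
  · rw [Finset.eq_empty_iff_forall_notMem]
    intro v hv
    rw [mem_Und] at hv
    rcases rob_or_killed (F := F) (s := s) hv.1 with h | h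
    · exact (hv.2 v (mem_gr.2 h)).1 rfl
    · obtain ⟨z, hz, _, hr⟩ := h
      exact (hv.2 z (mem_gr.2 hr)).2 hz.1

/-- a vertex of `W` outside the greedy set is preceded by one of its neighbours in it -/
theorem gr_first {v : V} (hv : v ∈ W) (h : v ∉ gr F W s) :
    ∃ k ∈ dn F (gr F W s) v, s k < s v := by
  rcases rob_or_killed (F := F) (s := s) hv with h1 | h1
  · exact absurd (mem_gr.2 h1) h
  · obtain ⟨z, hz, hlt, hr⟩ := h1
    exact ⟨z, mem_dn.2 ⟨mem_gr.2 hr, Or.inr hz.1⟩, hlt⟩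

omit [DecidableEq V] in
/-- a vertex with a robust neighbour is preceded by one of its robust neighbours or by itself
robust -/
theorem Tr_first {v k : V} (hk : k ∈ Tr F s X) (h : F.Adj v k) :
    ∃ z ∈ Tr F s X, F.Adj v z ∧ s z < s v := by
  rcases lt_trichotomy (s k) (s v) with h1 | h1 | h1
  · exact ⟨k, hk, h, h1⟩
  · exact absurd (s.injective h1) h.ne'
  · obtain ⟨z, hz, hlt, hr⟩ := (rob_iff.1 (mem_Tr.1 hk)).2 v h.symm h1
    exact ⟨z, mem_Tr.2 hr, hz, hlt⟩

variable [Fintype V]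

/-- the covered set -/
theorem mem_cov_Tr {u : V} : u ∈ cov F s X X ↔ ∃ z ∈ Tr F s X, u = z ∨ F.Adj u z := by
  rw [mem_cov]
  constructor
  · rintro ⟨z, hz, hr, h⟩
    exact ⟨z, mem_Tr.2 hr, h.imp id fun h => h.symm⟩
  · rintro ⟨z, hz, h⟩
    exact ⟨z, Tr_subset hz, mem_Tr.1 hz, h.imp id fun h => h.symm⟩

/-! ### Decoupling -/

section decoupling

variable (F W) (X : ℕ → Finset V) (Z : Finset ℕ) (Y : Finset V)

open Classical in
/-- the stage-wise dominating set of `v`: its neighbours in the first `Y ∩ X z`, `z ∈ Z`, which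
contains one of them (all neighbours in `Y` if there is no such `z`) -/
noncomputable def Dst (v : V) : Finset V :=
  if h : (Z.filter fun z => (dn F Y v ∩ X z).Nonempty).Nonempty then
    dn F Y v ∩ X ((Z.filter fun z => (dn F Y v ∩ X z).Nonempty).min' h) else dn F Y v

open Classical in
/-- the vertices which take part in the events -/
noncomputable def Rst : Finset V :=
  univ.filter fun v => v ∉ Y ∧ (v ∈ W ∨ ∃ z ∈ Z, (dn F Y v ∩ X z).Nonempty)

open Classical in
/-- the multiplicities of the stage-wise dominating sets -/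
noncomputable def mZ (D : Finset V) : ℝ :=
  (((Rst F W X Z Y).filter fun v => Dst F X Z Y v = D).card : ℝ) + if D.card = 1 then 1 else 0

variable {F W X Z Y}

theorem Dst_of_none {v : V} (h : ∀ z ∈ Z, ¬ (dn F Y v ∩ X z).Nonempty) :
    Dst F X Z Y v = dn F Y v := by
  classical
  unfold Dst
  rw [dif_neg]
  rintro ⟨z, hz⟩
  rw [mem_filter] at hz
  exact h z hz.1 hz.2

theorem Dst_of_first {v : V} {z : ℕ} (hz : z ∈ Z) (h : (dn F Y v ∩ X z).Nonempty)
    (hmin : ∀ z' ∈ Z, z' < z → ¬ (dn F Y v ∩ X z').Nonempty) :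
    Dst F X Z Y v = dn F Y v ∩ X z := by
  classical
  unfold Dst
  have h1 : (Z.filter fun z => (dn F Y v ∩ X z).Nonempty).Nonempty :=
    ⟨z, mem_filter.2 ⟨hz, h⟩⟩
  rw [dif_pos h1]
  congr 2
  apply le_antisymm
  · exact min'_le _ _ (mem_filter.2 ⟨hz, h⟩)
  · apply le_min'
    intro z' hz'
    rw [mem_filter] at hz'
    by_contra hlt
    push Not at hlt
    exact hmin z' hz'.1 hlt hz'.2

/-- either there is a first level in `Z` or none -/
theorem first_or_none (v : V) :
    (∃ z ∈ Z, (dn F Y v ∩ X z).Nonempty ∧ ∀ z' ∈ Z, z' < z → ¬ (dn F Y v ∩ X z').Nonempty) ∨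
      ∀ z ∈ Z, ¬ (dn F Y v ∩ X z).Nonempty := by
  classical
  by_cases h : (Z.filter fun z => (dn F Y v ∩ X z).Nonempty).Nonempty
  · left
    have h1 := min'_mem _ h
    rw [mem_filter] at h1
    refine ⟨_, h1.1, h1.2, fun z' hz' hlt h2 => ?_⟩
    have h3 := min'_le (Z.filter fun z => (dn F Y v ∩ X z).Nonempty) z'
      (mem_filter.2 ⟨hz', h2⟩)
    exact absurd hlt (not_lt.2 h3)
  · right
    intro z hz h2
    exact h ⟨z, mem_filter.2 ⟨hz, h2⟩⟩

theorem Dst_subset (v : V) : Dst F X Z Y v ⊆ dn F Y v := by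
  rcases first_or_none (F := F) (X := X) (Z := Z) (Y := Y) v with ⟨z, hz, h1, h2⟩ | h
  · rw [Dst_of_first hz h1 h2]
    exact inter_subset_left
  · rw [Dst_of_none h]

theorem mem_Rst {v : V} :
    v ∈ Rst F W X Z Y ↔ v ∉ Y ∧ (v ∈ W ∨ ∃ z ∈ Z, (dn F Y v ∩ X z).Nonempty) := by
  classical
  unfold Rst
  rw [mem_filter]
  exact ⟨fun h => h.2, fun h => ⟨mem_univ v, h⟩⟩

/-- the decoupling lemma -/
theorem decouple :
    ((univ.filter fun s : V ≃ Fin n => gr F W s = Y ∧ ∀ z ∈ Z, Tr F s (X z) = Y ∩ X z).card : ℝ) ≤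
      (Fintype.card (V ≃ Fin n) : ℝ) * Ival (mZ F W X Z Y) Y := by
  classical
  have h1 := perm_le (n := n) (Rst F W X Z Y) (Dst F X Z Y) Y
    (disjoint_left.2 fun v hv => (mem_Rst.1 hv).1) (mZ F W X Z Y) (fun _ _ => rfl)
  refine le_trans ?_ h1
  have h2 : (univ.filter fun s : V ≃ Fin n => gr F W s = Y ∧ ∀ z ∈ Z, Tr F s (X z) = Y ∩ X z) ⊆
      univ.filter fun s : V ≃ Fin n => Ev (Rst F W X Z Y) (Dst F X Z Y) Y s := by
    intro s hs
    rw [mem_filter] at hs ⊢
    refine ⟨mem_univ s, ?_⟩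
    obtain ⟨_, hg, ht⟩ := hs
    intro v hv _
    rw [mem_Rst] at hv
    have key : ∃ k ∈ Dst F X Z Y v, s k < s v := by
      rcases first_or_none (F := F) (X := X) (Z := Z) (Y := Y) v with ⟨z, hz, h3, h4⟩ | h
      · rw [Dst_of_first hz h3 h4]
        obtain ⟨k, hk⟩ := h3
        rw [mem_inter, mem_dn] at hk
        have hkT : k ∈ Tr F s (X z) := by
          rw [ht z hz, mem_inter]
          exact ⟨hk.1.1, hk.2⟩
        have hadj : F.Adj v k := by
          rcases hk.1.2 with h5 | h5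
          · rw [← h5] at hk
            exact absurd hk.1.1 hv.1
          · exact h5
        obtain ⟨w, hw, hvw, hlt⟩ := Tr_first hkT hadj
        rw [ht z hz, mem_inter] at hw
        exact ⟨w, mem_inter.2 ⟨mem_dn.2 ⟨hw.1, Or.inr hvw⟩, hw.2⟩, hlt⟩
      · rw [Dst_of_none h]
        have hvW : v ∈ W := by
          rcases hv.2 with h5 | ⟨z, hz, h5⟩
          · exact h5
          · exact absurd h5 (h z hz)
        have h6 := gr_first (F := F) (s := s) hvW (by rw [hg]; exact hv.1)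
        rw [hg] at h6
        exact h6
    constructor
    · intro h0
      obtain ⟨k, hk, _⟩ := key
      rw [h0] at hk
      exact absurd hk (notMem_empty k)
    · exact fun _ => key
  exact_mod_cast card_le_card h2

end decoupling

/-! ### Reduction to the pointwise inequality -/

/-- the reduction -/
theorem reduce (hn : Fintype.card V = n) (X : ℕ → Finset V) (hX : Monotone X) (b P : ℕ → ℝ)
    (hb : ∀ j, 0 ≤ b j) (hP : ∀ j, 0 < P j) (m r : ℕ) (cap : Finset V → ℝ) (Tw : ℝ)
    (hTw : 0 ≤ Tw)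
    (h : ∀ Y ∈ MIS F W, Tw * ∑ s ∈ univ.filter (fun s : V ≃ Fin n => gr F W s = Y),
      RM F X b P s m ≤ (Fintype.card (V ≃ Fin n) : ℝ) * Cap F W r cap Y) :
    Tw * ∏ j ∈ range m, b j / P j ≤
      (((Ind F W).filter (fun K => K.card = r + 1)).card : ℝ) +
        ∑ K ∈ (Ind F W).filter (fun K => K.card = r), cap K := by
  classical
  have hcard : (0 : ℝ) < (Fintype.card (V ≃ Fin n) : ℝ) := by
    have : Nonempty (V ≃ Fin n) := ⟨Fintype.equivFinOfCardEq hn⟩
    exact_mod_cast Fintype.card_pos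
  have h1 := rm_mean (F := F) (n := n) X hX b P hb hP m
  have h2 : ∑ s : V ≃ Fin n, RM F X b P s m =
      ∑ Y ∈ MIS F W, ∑ s ∈ univ.filter (fun s : V ≃ Fin n => gr F W s = Y), RM F X b P s m :=
    (sum_fiberwise_of_maps_to (fun s _ => gr_mem_MIS) _).symm
  rw [split r cap]
  have h3 : (Fintype.card (V ≃ Fin n) : ℝ) * (Tw * ∏ j ∈ range m, b j / P j) ≤
      (Fintype.card (V ≃ Fin n) : ℝ) * ∑ Y ∈ MIS F W, Cap F W r cap Y := by
    calc (Fintype.card (V ≃ Fin n) : ℝ) * (Tw * ∏ j ∈ range m, b j / P j)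
        = Tw * ((Fintype.card (V ≃ Fin n) : ℝ) * ∏ j ∈ range m, b j / P j) := by ring
      _ ≤ Tw * ∑ s : V ≃ Fin n, RM F X b P s m := mul_le_mul_of_nonneg_left h1 hTw
      _ = ∑ Y ∈ MIS F W, Tw * ∑ s ∈ univ.filter (fun s : V ≃ Fin n => gr F W s = Y),
            RM F X b P s m := by rw [h2, mul_sum]
      _ ≤ ∑ Y ∈ MIS F W, (Fintype.card (V ≃ Fin n) : ℝ) * Cap F W r cap Y :=
          sum_le_sum fun Y hY => h Y hY
      _ = _ := by rw [mul_sum]
  exact le_of_mul_le_mul_left h3 hcard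

end MP76b19e.Rob
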