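import Pool.Agent.Lib.MP76b19e.Basic

/-!
# Run length encoding of the profile, sizes of the levels (problem MP_76b19e_co)
-/

set_option autoImplicit false

open Finset

namespace MP76b19e.Rob

open Pool.Agent.MP76b19e

/-- the list with `ν j` copies of `P j`, `j < N` -/
def blkL (P ν : ℕ → ℕ) (N : ℕ) : List ℕ :=
  (List.range N).flatMap fun j => List.replicate (ν j) (P j)

theorem blk_zero (P ν : ℕ → ℕ) : blkL P ν 0 = [] := rfl

theorem blk_add (P ν : ℕ → ℕ) (a b : ℕ) :
    blkL P ν (a + b) = blkL P ν a ++ blkL (fun i => P (a + i)) (fun i => ν (a + i)) b := by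
  unfold blkL
  rw [List.range_add, List.flatMap_append]
  congr 1
  rw [List.flatMap_map]

theorem blk_one (P ν : ℕ → ℕ) : blkL P ν 1 = List.replicate (ν 0) (P 0) := by
  unfold blkL
  rw [List.range_one, List.flatMap_cons, List.flatMap_nil, List.append_nil]

theorem blk_succ (P ν : ℕ → ℕ) (N : ℕ) :
    blkL P ν (N + 1) = blkL P ν N ++ List.replicate (ν N) (P N) := by
  rw [blk_add, blk_one, add_zero]

theorem blk_succ' (P ν : ℕ → ℕ) (N : ℕ) :
    blkL P ν (N + 1) =
      List.replicate (ν 0) (P 0) ++ blkL (fun i => P (i + 1)) (fun i => ν (i + 1)) N := by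
  rw [add_comm N 1, blk_add, blk_one]
  congr 2
  · funext i; rw [add_comm]
  · funext i; rw [add_comm]

theorem blk_sum (P ν : ℕ → ℕ) (N : ℕ) : (blkL P ν N).sum = ∑ i ∈ range N, ν i * P i := by
  induction N with
  | zero => rfl
  | succ N ih => rw [blk_succ, List.sum_append, ih, sum_range_succ, List.sum_replicate, smul_eq_mul]

theorem blk_length (P ν : ℕ → ℕ) (N : ℕ) : (blkL P ν N).length = ∑ i ∈ range N, ν i := by
  induction N with
  | zero => rfl
  | succ N ih => rw [blk_succ, List.length_append, ih, sum_range_succ, List.length_replicate]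

theorem mem_blk {P ν : ℕ → ℕ} {N x : ℕ} (h : x ∈ blkL P ν N) : ∃ j < N, x = P j := by
  unfold blkL at h
  rw [List.mem_flatMap] at h
  obtain ⟨j, h1, h2⟩ := h
  rw [List.mem_range] at h1
  exact ⟨j, h1, (List.mem_replicate.1 h2).2⟩

theorem blk_pairwise {P ν : ℕ → ℕ} {N : ℕ} (hP : ∀ j, j + 1 < N → P j ≤ P (j + 1)) :
    (blkL P ν N).Pairwise (· ≤ ·) := by
  induction N with
  | zero => exact List.Pairwise.nil
  | succ N ih =>
    rw [blk_succ, List.pairwise_append]
    refine ⟨ih fun j hj => hP j (by omega), ?_, ?_⟩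
    · rw [List.pairwise_replicate]
      right
      exact le_rfl
    · intro x hx y hy
      obtain ⟨j, hj, rfl⟩ := mem_blk hx
      rw [(List.mem_replicate.1 hy).2]
      have : ∀ m, j + m ≤ N → P j ≤ P (j + m) := by
        intro m
        induction m with
        | zero => intro _; exact le_rfl
        | succ m ihm =>
          intro hm
          exact (ihm (by omega)).trans (hP (j + m) (by omega))
      have h1 := this (N - j) (by omega)
      rwa [show j + (N - j) = N by omega] at h1

/-- run length encoding -/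
theorem rle (ps : List ℕ) (h : ps.Pairwise (· ≤ ·)) : ∃ (N : ℕ) (P ν : ℕ → ℕ),
    ps = blkL P ν N ∧ (∀ j, 1 ≤ ν j) ∧ ∀ j, j + 1 < N → P j < P (j + 1) := by
  induction ps with
  | nil => exact ⟨0, fun _ => 0, fun _ => 1, rfl, fun _ => le_rfl, fun j hj => by omega⟩
  | cons q ps ih =>
    rw [List.pairwise_cons] at h
    obtain ⟨N, P, ν, h1, h2, h3⟩ := ih h.2
    rcases N with _ | N
    · refine ⟨1, fun _ => q, fun _ => 1, ?_, fun _ => le_rfl, fun j hj => by omega⟩
      rw [h1, blk_zero, blk_one]
      rfl
    · have h4 : q ≤ P 0 := by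
        apply h.1
        rw [h1, blk_succ', List.mem_append]
        left
        rw [List.mem_replicate]
        exact ⟨by have := h2 0; omega, rfl⟩
      rcases Nat.eq_or_lt_of_le h4 with h5 | h5
      · refine ⟨N + 1, P, fun j => if j = 0 then ν 0 + 1 else ν j, ?_, ?_, h3⟩
        · rw [h1, blk_succ', blk_succ', if_pos rfl, List.replicate_succ, h5, List.cons_append]
          congr 3
        · intro j
          dsimp only
          split_ifs
          · omega
          · exact h2 j
      · refine ⟨N + 2, fun j => if j = 0 then q else P (j - 1),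
          fun j => if j = 0 then 1 else ν (j - 1), ?_, ?_, ?_⟩
        · rw [blk_succ', if_pos rfl, if_pos rfl, h1]
          rfl
        · intro j
          dsimp only
          split_ifs
          · exact le_rfl
          · exact h2 _
        · intro j hj
          dsimp only
          rcases j with _ | j
          · rw [if_pos rfl, if_neg (by omega)]
            exact h5
          · rw [if_neg (by omega), if_neg (by omega), Nat.add_sub_cancel]
            have := h3 j (by omega)
            rw [show j + 1 + 1 - 1 = j + 1 by omega]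
            exact this

section

variable {α : Type*} {G : SimpleGraph α} {U : Finset α}

theorem C_append (l1 l2 : List ℕ) (a : ℕ) (h : C G U a (l1 ++ l2)) : C G U (a + l1.sum) l2 := by
  induction l1 generalizing a with
  | nil => simpa using h
  | cons p l1 ih =>
    rw [List.cons_append] at h
    simp only [C] at h
    have h1 := ih (a + p) h.2
    rw [List.sum_cons, ← add_assoc]
    exact h1

/-- the sizes of the levels -/
theorem C_size {P ν : ℕ → ℕ} {N : ℕ} (hν : ∀ j, 1 ≤ ν j) (h : C G U 0 (blkL P ν N)) (j : ℕ)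
    (hj : j < N) : (∑ i ∈ range (j + 1), ν i * P i) + 1 ≤ (W G U (P j)).card + P j := by
  obtain ⟨m, rfl⟩ : ∃ m, N = j + 1 + m := ⟨N - (j + 1), by omega⟩
  obtain ⟨u, hu⟩ : ∃ u, ν j = u + 1 := ⟨ν j - 1, by have := hν j; omega⟩
  rw [blk_add, blk_succ, hu, List.replicate_succ', List.append_assoc, List.append_assoc] at h
  have h1 := C_append _ _ _ h
  have h2 := C_append _ _ _ h1
  rw [List.singleton_append] at h2
  simp only [C] at h2
  have h3 := h2.1
  rw [blk_sum, List.sum_replicate, smul_eq_mul] at h3
  rw [sum_range_succ, hu]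
  have e : (u + 1) * P j = u * P j + P j := by ring
  omega

/-- truncation to a subset of minimal size -/
theorem C_trunc : ∀ (ps : List ℕ) (p a : ℕ) (U0 : Finset α), (p :: ps).Pairwise (· ≤ ·) →
    C G U a (p :: ps) → U0 ⊆ W G U p → U0.card ≤ a + 1 →
    ∃ U' : Finset α, U0 ⊆ U' ∧ U' ⊆ U ∧ U'.card = a + (p :: ps).sum + 1 ∧
      C G U' a (p :: ps) := by
  intro ps
  induction ps with
  | nil =>
    intro p a U0 _ hC h0 hc
    simp only [C] at hC
    obtain ⟨U1, h1, h2, h3⟩ := Finset.exists_subsuperset_card_eq h0 hc hC.1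
    have hWU : W G U p ⊆ U := fun v hv => (mem_W.1 hv).1
    obtain ⟨U2, h4, h5, h6⟩ := Finset.exists_subsuperset_card_eq (h2.trans hWU)
      (n := a + p + 1) (by omega) hC.2
    refine ⟨U2, h1.trans h4, h5, by rw [h6]; simp, ?_⟩
    simp only [C]
    refine ⟨?_, by omega⟩
    rw [← h3]
    apply Finset.card_le_card
    intro v hv
    rw [mem_W]
    exact ⟨h4 hv, (Finset.card_le_card (cn_mono h5 v)).trans (mem_W.1 (h2 hv)).2⟩
  | cons p' ps ih =>
    intro p a U0 hp hC h0 hc
    rw [List.pairwise_cons] at hp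
    have hpp : p ≤ p' := hp.1 p' (by simp)
    have hC' : a + 1 ≤ (W G U p).card ∧ C G U (a + p) (p' :: ps) := by
      simpa only [C] using hC
    obtain ⟨U1, h1, h2, h3⟩ := Finset.exists_subsuperset_card_eq h0 hc hC'.1
    have hWW : W G U p ⊆ W G U p' := by
      intro v hv
      rw [mem_W] at hv ⊢
      exact ⟨hv.1, hv.2.trans hpp⟩
    obtain ⟨U', h4, h5, h6, h7⟩ := ih p' (a + p) U1 hp.2 hC'.2 (h2.trans hWW) (by omega)
    refine ⟨U', h1.trans h4, h5, ?_, ?_⟩
    · rw [h6, List.sum_cons (a := p)]
      ring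
    · have : a + 1 ≤ (W G U' p).card := by
        rw [← h3]
        apply Finset.card_le_card
        intro v hv
        rw [mem_W]
        exact ⟨h4 hv, (Finset.card_le_card (cn_mono h5 v)).trans (mem_W.1 (h2 hv)).2⟩
      simp only [C] at h7 ⊢
      exact ⟨this, h7⟩

/-- nested sets of the exact sizes -/
theorem nested {P : ℕ → ℕ} {s : ℕ → ℕ} :
    ∀ L : ℕ, (∀ j < L, P j ≤ P (j + 1)) → (∀ j < L, s j ≤ s (j + 1)) →
      (∀ j ≤ L, s j ≤ (W G U (P j)).card) →
    ∃ X : ℕ → Finset α, Monotone X ∧ (∀ j ≤ L, X j ⊆ W G U (P j)) ∧ (∀ j ≤ L, (X j).card = s j) ∧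
      ∀ j, L ≤ j → X j = X L := by
  intro L
  induction L with
  | zero =>
    intro hP hs h
    obtain ⟨X0, h1, h2⟩ := Finset.exists_subset_card_eq (h 0 le_rfl)
    refine ⟨fun _ => X0, fun _ _ _ => le_rfl, ?_, ?_, fun _ _ => rfl⟩
    · intro j hj
      obtain rfl : j = 0 := by omega
      exact h1
    · intro j hj
      obtain rfl : j = 0 := by omega
      exact h2
  | succ L ih =>
    intro hP hs h
    obtain ⟨X, h1, h2, h3, h4⟩ := ih (fun j hj => hP j (by omega)) (fun j hj => hs j (by omega))
      fun j hj => h j (by omega)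
    have hWW : W G U (P L) ⊆ W G U (P (L + 1)) := by
      intro v hv
      rw [mem_W] at hv ⊢
      exact ⟨hv.1, hv.2.trans (hP L (by omega))⟩
    obtain ⟨Y, h5, h6, h7⟩ := Finset.exists_subsuperset_card_eq ((h2 L le_rfl).trans hWW)
      (n := s (L + 1)) (by rw [h3 L le_rfl]; exact hs L (by omega)) (h (L + 1) le_rfl)
    refine ⟨fun j => if j ≤ L then X j else Y, ?_, ?_, ?_, ?_⟩
    · intro i j hij
      dsimp only
      split_ifs with hi hj hj
      · exact h1 hij
      · exact (h1 hi).trans h5
      · omega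
      · exact le_rfl
    · intro j hj
      dsimp only
      split_ifs with hj'
      · exact h2 j hj'
      · obtain rfl : j = L + 1 := by omega
        exact h6
    · intro j hj
      dsimp only
      split_ifs with hj'
      · exact h3 j hj'
      · obtain rfl : j = L + 1 := by omega
        exact h7
    · intro j hj
      dsimp only
      rw [if_neg (by omega), if_neg (by omega)]

end

end MP76b19e.Rob
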