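import Pool.Agent.Lib.MP76b19e.Rob.Loc
import Pool.Agent.Lib.MP76b19e.Rob.Rle
import Pool.Agent.Lib.MP76b19e.CoreO

/-!
# The local data of a graph (problem MP_76b19e_co)
-/

set_option autoImplicit false

open Finset

namespace MP76b19e.Rob

open Pool.Agent.MP76b19e

section

variable {α : Type} [DecidableEq α] (G : SimpleGraph α) (W0 : Finset α) (X0 : ℕ → Finset α)
  (P : ℕ → ℕ) (L : ℕ) (e : Bool)

open Classical in
/-- the level of a vertex -/
noncomputable def lev (a : α) : ℕ := if h : ∃ j, a ∈ X0 j then Nat.find h else L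

open Classical in
/-- the number of pendants of a vertex -/
noncomputable def pn (a : α) : ℕ :=
  if e = true ∧ lev X0 L a < L then P (lev X0 L a) - (cn G W0 a).card else 0

/-- the complement graph on `W0`, with pendants if `e = true` -/
noncomputable def FP : SimpleGraph (α ⊕ α × Fin (P L)) where
  Adj x y :=
    match x, y with
    | Sum.inl a, Sum.inl b => a ≠ b ∧ ¬ G.Adj a b ∧ a ∈ W0 ∧ b ∈ W0
    | Sum.inl a, Sum.inr (b, i) => a = b ∧ a ∈ W0 ∧ i.val < pn G W0 X0 P L e a
    | Sum.inr (b, i), Sum.inl a => a = b ∧ a ∈ W0 ∧ i.val < pn G W0 X0 P L e a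
    | Sum.inr _, Sum.inr _ => False
  symm := ⟨by
    rintro (a | ⟨a, i⟩) (b | ⟨b, j⟩) h
    · exact ⟨h.1.symm, fun h' => h.2.1 h'.symm, h.2.2.2, h.2.2.1⟩
    · exact h
    · exact h
    · exact h⟩
  loopless := ⟨by
    rintro (a | ⟨a, i⟩) h
    · exact h.1 rfl
    · exact h⟩

variable {G W0 X0 P L e}

theorem FP_ll {a b : α} : (FP G W0 X0 P L e).Adj (Sum.inl a) (Sum.inl b) ↔
    a ≠ b ∧ ¬ G.Adj a b ∧ a ∈ W0 ∧ b ∈ W0 := Iff.rfl

theorem FP_lr {a b : α} {i : Fin (P L)} : (FP G W0 X0 P L e).Adj (Sum.inl a) (Sum.inr (b, i)) ↔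
    a = b ∧ a ∈ W0 ∧ i.val < pn G W0 X0 P L e a := Iff.rfl

theorem FP_rl {a b : α} {i : Fin (P L)} : (FP G W0 X0 P L e).Adj (Sum.inr (b, i)) (Sum.inl a) ↔
    a = b ∧ a ∈ W0 ∧ i.val < pn G W0 X0 P L e a := Iff.rfl

theorem FP_rr {x y : α × Fin (P L)} : ¬ (FP G W0 X0 P L e).Adj (Sum.inr x) (Sum.inr y) := by
  rintro h
  exact h

theorem lev_eq {a : α} {j : ℕ} (h : a ∈ X0 j) (hmin : ∀ i < j, a ∉ X0 i) : lev X0 L a = j := by
  classical
  unfold lev
  rw [dif_pos ⟨j, h⟩]
  rw [Nat.find_eq_iff]
  exact ⟨h, hmin⟩

/-- the embedding of the vertices -/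
def il : α ↪ α ⊕ α × Fin (P L) := ⟨Sum.inl, Sum.inl_injective⟩

end

section

variable {α : Type} [Fintype α] [DecidableEq α] {G : SimpleGraph α} {U : Finset α}
  {P ν : ℕ → ℕ} {L t : ℕ}

/-- the lower bound for a profile, given the local inequality -/
theorem build_aux (e : Bool) (g : ℕ)
    (hloc : ∀ (V β : Type) (_ : Fintype V) (_ : DecidableEq V) (_ : DecidableEq β)
      (F : SimpleGraph V) (W : Finset V) (X : ℕ → Finset V) (T : ℕ → ℕ) (B : Finset β)
      (M : V → Finset β) (c : Finset V → ℕ), Loc F W L X P ν t T B M c →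
      (e = true → Full F L X P) → (e = false → NoPend F W) → (P 0) ^ g ≤ ∑ K ∈ Ind F W, c K)
    (hq : 2 ≤ P 0) (hP : ∀ j < L + t, P j < P (j + 1))
    (hν : ∀ j, 1 ≤ ν j) (htail : ∀ j, L < j → j ≤ L + t → ν j = 1)
    (hC : C G U 0 (blkL P ν (L + 1 + t))) :
    (P 0) ^ g ≤ (K G U ((∑ j ∈ range (L + 1), ν j) + t + 1)).card := by
  classical
  set S : ℕ := ∑ i ∈ range (L + 1), ν i * P i with hS
  set R : ℕ := (∑ j ∈ range (L + 1), ν j) + t + 1 with hR
  set T : ℕ → ℕ := fun i => ∑ j ∈ range i, P (L + 1 + j) with hT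
  -- the levels
  have hge : ∀ j, P j ≤ ∑ i ∈ range (j + 1), ν i * P i := by
    intro j
    rw [sum_range_succ]
    have := Nat.mul_le_mul_right (P j) (hν j)
    omega
  obtain ⟨X0, hX1, hX2, hX3, hX4⟩ := nested (G := G) (U := U) (P := P)
    (s := fun j => (∑ i ∈ range (j + 1), ν i * P i) + 1 - P j) L
    (fun j hj => (hP j (by omega)).le) (by
      intro j _
      rw [sum_range_succ _ (j + 1)]
      have := Nat.mul_le_mul_right (P (j + 1)) (hν (j + 1))
      omega) (by
      intro j hj
      have := C_size hν hC j (by omega)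
      omega)
  set W0 := X0 L with hW0
  have hW0card : W0.card + P L = S + 1 := by
    have h1 := hX3 L le_rfl
    have h2 := hge L
    rw [← hW0] at h1
    omega
  have hWU : W0 ⊆ W G U (P L) := hX2 L le_rfl
  -- the tail
  have htl : C G U (S - P L) (P L :: blkL (fun i => P (L + 1 + i)) (fun i => ν (L + 1 + i)) t) ∧
      (P L :: blkL (fun i => P (L + 1 + i)) (fun i => ν (L + 1 + i)) t).Pairwise (· ≤ ·) := by
    obtain ⟨u, hu⟩ : ∃ u, ν L = u + 1 := ⟨ν L - 1, by have := hν L; omega⟩
    have hdec : blkL P ν (L + 1 + t) = (blkL P ν L ++ List.replicate u (P L)) ++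
        (P L :: blkL (fun i => P (L + 1 + i)) (fun i => ν (L + 1 + i)) t) := by
      rw [blk_add, blk_succ, hu, List.replicate_succ']
      simp only [List.append_assoc, List.singleton_append]
    have hpw : (blkL P ν (L + 1 + t)).Pairwise (· ≤ ·) :=
      blk_pairwise fun j hj => (hP j (by omega)).le
    rw [hdec] at hpw hC
    refine ⟨?_, (List.pairwise_append.1 hpw).2.1⟩
    have h1 := C_append _ _ _ hC
    rw [List.sum_append, blk_sum, List.sum_replicate, smul_eq_mul, zero_add] at h1
    have h2 : S - P L = ∑ i ∈ range L, ν i * P i + u * P L := by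
      rw [hS, sum_range_succ, hu]
      have e : (u + 1) * P L = u * P L + P L := by ring
      omega
    rw [h2]
    exact h1
  have hPS : P L ≤ S := hge L
  obtain ⟨U', hU1, hU2, hU3, hU4⟩ := C_trunc _ _ _ W0 htl.2 htl.1 hWU (by omega)
  have hTsum : (blkL (fun i => P (L + 1 + i)) (fun i => ν (L + 1 + i)) t).sum = T t := by
    rw [blk_sum]
    simp only [hT]
    refine sum_congr rfl fun i hi => ?_
    rw [mem_range] at hi
    rw [htail (L + 1 + i) (by omega) (by omega), one_mul]
  rw [List.sum_cons, hTsum] at hU3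
  -- the conditions for the tail
  have hCi : ∀ i ≤ t, ∃ l : List ℕ, l.length = t - i ∧ C G U' (S + T i) l := by
    intro i hi
    refine ⟨blkL (fun j => P (L + 1 + (i + j))) (fun j => ν (L + 1 + (i + j))) (t - i), ?_, ?_⟩
    · rw [blk_length]
      rw [sum_congr rfl (g := fun _ => 1)]
      · simp
      · intro j hj
        rw [mem_range] at hj
        exact htail _ (by omega) (by omega)
    · have h1 : C G U' S (blkL (fun i => P (L + 1 + i)) (fun i => ν (L + 1 + i)) t) := by
        simp only [C] at hU4
        have h2 := hU4.2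
        rwa [show S - P L + P L = S by omega] at h2
      obtain ⟨m, rfl⟩ : ∃ m, t = i + m := ⟨t - i, by omega⟩
      rw [blk_add] at h1
      have h2 := C_append _ _ _ h1
      rw [blk_sum] at h2
      rw [show i + m - i = m by omega]
      have h3 : ∑ j ∈ range i, ν (L + 1 + j) * P (L + 1 + j) = T i := by
        simp only [hT]
        refine sum_congr rfl fun j hj => ?_
        rw [mem_range] at hj
        rw [htail (L + 1 + j) (by omega) (by omega), one_mul]
      rw [h3] at h2
      exact h2
  -- the graph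
  set F := FP G W0 X0 P L e with hF
  set B0 := U' \ W0 with hB0
  have hB0card : B0.card = P L + T t := by
    have := card_sdiff_add_card_eq_card hU1
    rw [← hB0] at this
    omega
  set WW : Finset (α ⊕ α × Fin (P L)) := W0.map il with hWW
  set XX : ℕ → Finset (α ⊕ α × Fin (P L)) := fun j => (X0 j).map il with hXX
  set M : (α ⊕ α × Fin (P L)) → Finset α := fun v =>
    match v with
    | Sum.inl a => cn G B0 a
    | Sum.inr _ => ∅ with hM
  have hMl : ∀ a, M (Sum.inl a) = cn G B0 a := fun a => rfl
  have hmemW : ∀ a : α, (Sum.inl a : α ⊕ α × Fin (P L)) ∈ WW ↔ a ∈ W0 := by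
    intro a
    rw [hWW, mem_map]
    constructor
    · rintro ⟨b, hb, hab⟩
      have : b = a := Sum.inl_injective hab
      rwa [this] at hb
    · intro ha
      exact ⟨a, ha, rfl⟩
  have hmemX : ∀ j (a : α), (Sum.inl a : α ⊕ α × Fin (P L)) ∈ XX j ↔ a ∈ X0 j := by
    intro j a
    simp only [hXX]
    rw [mem_map]
    constructor
    · rintro ⟨b, hb, hab⟩
      have : b = a := Sum.inl_injective hab
      rwa [this] at hb
    · intro ha
      exact ⟨a, ha, rfl⟩
  have hXr : ∀ j (x : α × Fin (P L)), (Sum.inr x : α ⊕ α × Fin (P L)) ∉ XX j := by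
    intro j x hx
    simp only [hXX] at hx
    rw [mem_map] at hx
    obtain ⟨b, _, hb⟩ := hx
    exact absurd hb (by simp [il])
  have hWr : ∀ x : α × Fin (P L), (Sum.inr x : α ⊕ α × Fin (P L)) ∉ WW := by
    intro x hx
    rw [hWW, mem_map] at hx
    obtain ⟨b, _, hb⟩ := hx
    exact absurd hb (by simp [il])
  have hX0W : ∀ j, X0 j ⊆ W0 := by
    intro j
    rcases le_total j L with h | h
    · exact hX1 h
    · rw [hX4 j h]
  have hPm : ∀ i j, i ≤ j → j ≤ L → P i ≤ P j := by
    intro i j hij
    induction j, hij using Nat.le_induction with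
    | base => intro _; exact le_rfl
    | succ j hij ih =>
      intro hj
      exact (ih (by omega)).trans (hP j (by omega)).le
  -- closed neighbourhoods inside `W`
  have hcnW : ∀ a ∈ W0, ∀ N : Finset (α ⊕ α × Fin (P L)),
      (∀ u, u ∈ N ↔ u ∈ WW ∧ (u = Sum.inl a ∨ F.Adj u (Sum.inl a))) →
      N = (cn G W0 a).map il := by
    intro a ha N hN
    ext u
    rw [hN]
    constructor
    · rintro ⟨h1, h2⟩
      rcases u with b | x
      · refine mem_map.2 ⟨b, ?_, rfl⟩
        rw [mem_cn]
        refine ⟨(hmemW b).1 h1, ?_⟩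
        rcases h2 with h2 | h2
        · rw [Sum.inl_injective h2]
          exact G.loopless.irrefl a
        · rw [hF, FP_ll] at h2
          exact fun h => h2.2.1 h.symm
      · exact absurd h1 (hWr x)
    · intro hu
      obtain ⟨b, hb, rfl⟩ := mem_map.1 hu
      rw [mem_cn] at hb
      refine ⟨(hmemW b).2 hb.1, ?_⟩
      by_cases hab : b = a
      · left
        rw [hab]
        rfl
      · right
        change (FP G W0 X0 P L e).Adj (Sum.inl b) (Sum.inl a)
        rw [FP_ll]
        exact ⟨hab, fun h => hb.2 h.symm, hb.1, ha⟩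
  have hcodeg : ∀ j ≤ L, ∀ a ∈ X0 j, (cn G W0 a).card + (cn G B0 a).card ≤ P j := by
    intro j hj a ha
    have h1 := (mem_W.1 (hX2 j hj ha)).2
    refine le_trans ?_ h1
    rw [← card_union_of_disjoint]
    · apply card_le_card
      intro u hu
      rw [mem_union, mem_cn, mem_cn] at hu
      rw [mem_cn]
      rcases hu with hu | hu
      · exact ⟨hU2 (hU1 hu.1), hu.2⟩
      · exact ⟨hU2 (mem_sdiff.1 hu.1).1, hu.2⟩
    · rw [disjoint_left]
      intro u hu hu'
      rw [mem_cn] at hu hu'
      exact (mem_sdiff.1 hu'.1).2 hu.1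
  -- the traces
  set K0 : Finset (α ⊕ α × Fin (P L)) → Finset α := fun Kv =>
    W0.filter fun a => Sum.inl a ∈ Kv with hK0
  have hK0map : ∀ Kv, Kv ⊆ WW → (K0 Kv).map il = Kv := by
    intro Kv hKv
    ext u
    rw [mem_map]
    constructor
    · rintro ⟨a, ha, rfl⟩
      exact (mem_filter.1 ha).2
    · intro hu
      rcases u with a | x
      · exact ⟨a, mem_filter.2 ⟨(hmemW a).1 (hKv hu), hu⟩, rfl⟩
      · exact absurd (hKv hu) (hWr x)
  have hK0card : ∀ Kv, Kv ⊆ WW → (K0 Kv).card = Kv.card := by
    intro Kv hKv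
    conv_rhs => rw [← hK0map Kv hKv, card_map]
  set UK : Finset (α ⊕ α × Fin (P L)) → Finset α := fun Kv =>
    B0.filter fun u => ∀ a ∈ K0 Kv, G.Adj a u with hUK
  set cf : Finset (α ⊕ α × Fin (P L)) → Finset (Finset α) := fun Kv =>
    if Kv.card ≤ R then K G (UK Kv) (R - Kv.card) else ∅ with hcf
  have hcaps : ∀ j < L, ∀ v ∈ XX j, (∀ i < j, v ∉ XX i) → ∀ N : Finset (α ⊕ α × Fin (P L)),
      (∀ u, u ∈ N ↔ u = v ∨ F.Adj u v) → N.card ≤ P j ∧ (e = true → N.card = P j) := by
    intro j hj v hv hmin N hN
    rcases v with a | x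
    swap
    · exact absurd hv (hXr j x)
    rw [hmemX] at hv
    have ha : a ∈ W0 := hX0W j hv
    have hlev : lev X0 L a = j := lev_eq hv fun i hi h => hmin i hi ((hmemX i a).2 h)
    have hpn : pn G W0 X0 P L e a = if e = true then P j - (cn G W0 a).card else 0 := by
      unfold pn
      rw [hlev]
      by_cases he : e = true
      · rw [if_pos he, if_pos ⟨he, hj⟩]
      · rw [if_neg he, if_neg fun h => he h.1]
    have hNeq : N = (cn G W0 a).map il ∪
        (univ.filter fun i : Fin (P L) => i.val < pn G W0 X0 P L e a).map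
          ⟨fun i => (Sum.inr (a, i) : α ⊕ α × Fin (P L)), fun i i' h => by
            simpa using h⟩ := by
      ext u
      rw [hN, mem_union, mem_map, mem_map]
      constructor
      · rintro (rfl | h)
        · left
          exact ⟨a, mem_cn.2 ⟨ha, G.loopless.irrefl a⟩, rfl⟩
        · rcases u with b | ⟨b, i⟩
          · left
            rw [hF, FP_ll] at h
            exact ⟨b, mem_cn.2 ⟨h.2.2.1, fun h' => h.2.1 h'.symm⟩, rfl⟩
          · right
            rw [hF, FP_rl] at h
            refine ⟨i, ?_, ?_⟩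
            · rw [mem_filter]
              exact ⟨mem_univ i, h.2.2⟩
            · rw [h.1]
              rfl
      · rintro (⟨b, hb, rfl⟩ | ⟨i, hi, rfl⟩)
        · rw [mem_cn] at hb
          by_cases hab : b = a
          · left
            rw [hab]
            rfl
          · right
            change (FP G W0 X0 P L e).Adj (Sum.inl b) (Sum.inl a)
            rw [FP_ll]
            exact ⟨hab, fun h => hb.2 h.symm, hb.1, ha⟩
        · right
          change (FP G W0 X0 P L e).Adj (Sum.inr (a, i)) (Sum.inl a)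
          rw [FP_rl]
          rw [mem_filter] at hi
          exact ⟨rfl, ha, hi.2⟩
    rw [hNeq, card_union_of_disjoint, card_map, card_map, Fin.card_filter_val_lt, hpn]
    · have h1 := hcodeg j hj.le a hv
      have h2 := hPm j L hj.le le_rfl
      by_cases he : e = true
      · rw [if_pos he]
        constructor
        · omega
        · intro _
          omega
      · rw [if_neg he]
        constructor
        · omega
        · intro h
          exact absurd h he
    · rw [disjoint_left]
      intro u hu hu'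
      rw [mem_map] at hu hu'
      obtain ⟨b, _, rfl⟩ := hu
      obtain ⟨i, _, hi⟩ := hu'
      exact absurd hi (by simp [il])
  -- the local data
  have hLoc : Loc F WW L XX P ν t T B0 M (fun Kv => (cf Kv).card) := by
    refine ⟨hq, fun j hj => hP j (by omega), fun j _ => hν j, ?_, ?_, ?_, ?_, ?_, ?_, ?_, ?_,
      ?_, hB0card, ?_, ?_, ?_⟩
    · intro i j hij
      exact map_subset_map.2 (hX1 hij)
    · intro j hj
      simp only [hXX]
      rw [hX4 j hj]
    · intro j hj
      simp only [hXX]
      rw [card_map, hX3 j hj]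
      have := hge j
      omega
    · -- caps
      intro j hj v hv hmin N hN
      exact (hcaps j hj v hv hmin N hN).1
    · -- pendants are private
      intro u v v' hu h1 h2
      rcases u with b | ⟨b, i⟩
      · rw [hmemW] at hu
        rcases v with a | ⟨a, i⟩
        · rw [hF, FP_ll] at h1
          exact absurd h1.2.2.1 hu
        · rw [hF, FP_lr] at h1
          exact absurd h1.2.1 hu
      · rcases v with a | x
        · rcases v' with a' | x'
          · rw [hF, FP_rl] at h1 h2
            rw [h1.1, h2.1]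
          · exact absurd h2 FP_rr
        · exact absurd h1 FP_rr
    · intro u v hu h1
      rcases u with b | ⟨b, i⟩
      · rw [hmemW] at hu
        rcases v with a | ⟨a, i⟩
        · rw [hF, FP_ll] at h1
          exact absurd h1.2.2.1 hu
        · rw [hF, FP_lr] at h1
          exact absurd h1.2.1 hu
      · rcases v with a | x
        · rw [hF, FP_rl] at h1
          exact (hmemW a).2 h1.2.1
        · exact absurd h1 FP_rr
    · -- colours
      intro j hj v hv _ N hN
      rcases v with a | x
      swap
      · exact absurd hv (hXr j x)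
      rw [hmemX] at hv
      have ha : a ∈ W0 := hX0W j hv
      rw [hcnW a ha N hN, card_map, hMl]
      exact hcodeg j hj a hv
    · simp [hT]
    · intro i hi
      have h1 : ∀ m, m ≤ t → P L + m ≤ P (L + m) := by
        intro m
        induction m with
        | zero => intro _; exact le_rfl
        | succ m ih =>
          intro hm
          have := ih (by omega)
          have := hP (L + m) (by omega)
          rw [← add_assoc L]
          omega
      have h2 := h1 (i + 1) (by omega)
      simp only [hT]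
      rw [sum_range_succ, show L + 1 + i = L + (i + 1) by ring]
      omega
    · intro v
      rcases v with a | x
      · intro u hu
        exact (mem_cn.1 hu).1
      · exact empty_subset _
    · -- the number of large cliques
      intro Kv hKv i hi hKc
      rw [mem_Ind] at hKv
      have hle : Kv.card ≤ R := by rw [hKc, hR]; omega
      have hcK : cf Kv = K G (UK Kv) (t - i + 1) := by
        simp only [hcf]
        rw [if_pos hle]
        congr 1
        rw [hKc, hR]
        omega
      rw [hcK]
      have hcov : U' ⊆ UK Kv ∪ (W0 ∪ Kv.biUnion M) := by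
        intro u hu
        by_cases huW : u ∈ W0
        · exact mem_union_right _ (mem_union_left _ huW)
        · have huB : u ∈ B0 := mem_sdiff.2 ⟨hu, huW⟩
          by_cases h : ∀ a ∈ K0 Kv, G.Adj a u
          · exact mem_union_left _ (mem_filter.2 ⟨huB, h⟩)
          · push Not at h
            obtain ⟨a, ha, hau⟩ := h
            refine mem_union_right _ (mem_union_right _ ?_)
            rw [mem_biUnion]
            refine ⟨Sum.inl a, (mem_filter.1 ha).2, ?_⟩
            rw [hMl, mem_cn]
            exact ⟨huB, hau⟩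
      have h1 := (card_le_card hcov).trans (card_union_le _ _)
      have h2 := card_union_le W0 (Kv.biUnion M)
      by_cases hbig : S + T i < W0.card + (Kv.biUnion M).card
      · omega
      push Not at hbig
      obtain ⟨l, hl1, hl2⟩ := hCi i hi
      have h3 : C G (UK Kv) (S + T i - (W0.card + (Kv.biUnion M).card)) l := by
        refine C_sub (U := U') (c := W0.card + (Kv.biUnion M).card) ?_ (by omega) l _ ?_
        · intro u hu
          exact (mem_sdiff.1 (mem_filter.1 hu).1).1
        · rw [show S + T i - (W0.card + (Kv.biUnion M).card) +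
            (W0.card + (Kv.biUnion M).card) = S + T i by omega]
          exact hl2
      have h4 := excess' l _ _ h3
      rw [hl1] at h4
      omega
    · intro Kv hKv hKc
      have hle : Kv.card ≤ R := by rw [hKc, hR]
      have hcK : cf Kv = K G (UK Kv) 0 := by
        simp only [hcf]
        rw [if_pos hle]
        congr 1
        rw [hKc, hR]
        omega
      rw [hcK, K_zero]
  have hbound := hloc (α ⊕ α × Fin (P L)) α _ _ _ F WW XX T B0 M (fun Kv => (cf Kv).card) hLoc
    (fun he j hj v hv hmin N hN => (hcaps j hj v hv hmin N hN).2 he) (by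
      intro he u v huv
      have hp : ∀ a, pn G W0 X0 P L e a = 0 := by
        intro a
        unfold pn
        rw [if_neg]
        rintro ⟨h, _⟩
        rw [he] at h
        exact absurd h (by simp)
      rcases u with b | ⟨b, i⟩
      · rcases v with a | ⟨a, i⟩
        · rw [hF, FP_ll] at huv
          exact (hmemW b).2 huv.2.2.1
        · rw [hF, FP_lr] at huv
          have := huv.2.2
          rw [hp] at this
          omega
      · rcases v with a | x
        · rw [hF, FP_rl] at huv
          have := huv.2.2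
          rw [hp] at this
          omega
        · exact absurd huv FP_rr)
  refine hbound.trans ?_
  -- the number of large cliques
  rw [← card_sigma]
  refine card_le_card_of_injOn (fun x => K0 x.1 ∪ x.2) ?_ ?_
  · rintro ⟨Kv, Q⟩ hx
    rw [mem_coe, mem_sigma, mem_Ind] at hx
    obtain ⟨⟨h1, h2⟩, h3⟩ := hx
    simp only at h1 h2 h3
    have hle : Kv.card ≤ R := by
      by_contra h
      simp only [hcf] at h3
      rw [if_neg h] at h3
      exact absurd h3 (notMem_empty _)
    simp only [hcf] at h3
    rw [if_pos hle, mem_K] at h3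
    obtain ⟨h4, h5, h6⟩ := h3
    have hQB : Q ⊆ B0 := fun u hu => (mem_filter.1 (h4 hu)).1
    have hd : Disjoint (K0 Kv) Q := by
      rw [disjoint_left]
      intro u hu hu'
      exact (mem_sdiff.1 (hQB hu')).2 (mem_filter.1 hu).1
    rw [mem_coe, mem_K]
    refine ⟨?_, ?_, ?_⟩
    · refine union_subset ?_ ?_
      · intro u hu
        exact hU2 (hU1 (mem_filter.1 hu).1)
      · intro u hu
        exact hU2 (mem_sdiff.1 (hQB hu)).1
    · rw [card_union_of_disjoint hd, hK0card Kv h1, h5]
      omega
    · intro a ha b hb hab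
      rw [mem_coe, mem_union] at ha hb
      rcases ha with ha | ha <;> rcases hb with hb | hb
      · by_contra hcon
        have h7 := h2 _ (mem_filter.1 ha).2 _ (mem_filter.1 hb).2
        apply h7
        change (FP G W0 X0 P L e).Adj (Sum.inl a) (Sum.inl b)
        rw [FP_ll]
        exact ⟨hab, hcon, (mem_filter.1 ha).1, (mem_filter.1 hb).1⟩
      · exact (mem_filter.1 (h4 hb)).2 a ha
      · exact ((mem_filter.1 (h4 ha)).2 b hb).symm
      · exact h6 ha hb hab
  · rintro ⟨Kv, Q⟩ hx ⟨Kv', Q'⟩ hx' heq
    rw [mem_coe, mem_sigma, mem_Ind] at hx hx'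
    simp only at hx hx' heq
    have hsub : ∀ (Kv : Finset (α ⊕ α × Fin (P L))) (Q : Finset α), Q ∈ cf Kv → Q ⊆ B0 := by
      intro Kv Q hQ
      simp only [hcf] at hQ
      split_ifs at hQ with h
      · intro u hu
        exact (mem_filter.1 ((mem_K.1 hQ).1 hu)).1
      · exact absurd hQ (notMem_empty _)
    have hI : ∀ (Kv : Finset (α ⊕ α × Fin (P L))) (Q : Finset α), Q ⊆ B0 →
        (K0 Kv ∪ Q) ∩ W0 = K0 Kv ∧ (K0 Kv ∪ Q) ∩ B0 = Q := by
      intro Kv Q hQ
      constructor
      · ext u
        rw [mem_inter, mem_union]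
        constructor
        · rintro ⟨h1 | h1, h2⟩
          · exact h1
          · exact absurd h2 (mem_sdiff.1 (hQ h1)).2
        · intro h
          exact ⟨Or.inl h, (mem_filter.1 h).1⟩
      · ext u
        rw [mem_inter, mem_union]
        constructor
        · rintro ⟨h1 | h1, h2⟩
          · exact absurd (mem_filter.1 h1).1 (mem_sdiff.1 h2).2
          · exact h1
        · intro h
          exact ⟨Or.inr h, hQ h⟩
    have h1 := hI Kv Q (hsub Kv Q hx.2)
    have h2 := hI Kv' Q' (hsub Kv' Q' hx'.2)
    have h3 : K0 Kv = K0 Kv' := by rw [← h1.1, heq, h2.1]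
    have h4 : Kv = Kv' := by rw [← hK0map Kv hx.1.1, h3, hK0map Kv' hx'.1.1]
    have h5 : Q = Q' := by rw [← h1.2, heq, h2.2]
    subst h4 h5
    rfl

/-- the lower bound for a profile, given the local inequality with pendants -/
theorem build (hloc : LocIneq) (hq : 2 ≤ P 0) (hP : ∀ j < L, P j < P (j + 1))
    (hν : ∀ j, 1 ≤ ν j) (hC : C G U 0 (blkL P ν (L + 1))) (g : ℕ) (hg : GapOk P ν L g) :
    (P 0) ^ g ≤ (K G U ((∑ j ∈ range (L + 1), ν j) + 1)).card := by
  have h := build_aux (G := G) (U := U) (t := 0) true g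
    (fun V β _ _ _ F W X T B M c hL hf _ =>
      hL.bound' g (hloc V β _ _ _ F W L X P ν T B M c hL (hf rfl) g hg)) hq hP hν
    (fun j h1 h2 => absurd h1 (by omega)) hC
  rwa [add_zero] at h

/-- the lower bound for a profile, given the local inequality without pendants -/
theorem buildW (hloc : LocIneqW) (hq : 2 ≤ P 0) (hP : ∀ j < L, P j < P (j + 1))
    (hν : ∀ j, 1 ≤ ν j) (hC : C G U 0 (blkL P ν (L + 1))) (g : ℕ) (hg : GapOk P ν L g) :
    (P 0) ^ g ≤ (K G U ((∑ j ∈ range (L + 1), ν j) + 1)).card := by
  have h := build_aux (G := G) (U := U) (t := 0) false g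
    (fun V β _ _ _ F W X T B M c hL _ hf =>
      hL.bound' g (hloc V β _ _ _ F W L X P ν T B M c hL (hf rfl) g hg)) hq hP hν
    (fun j h1 h2 => absurd h1 (by omega)) hC
  rwa [add_zero] at h

end

end MP76b19e.Rob
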