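import Pool.Agent.Lib.MP76b19e.Rob.Bridge

/-!
# The canonical split with arbitrary capacities (problem MP_76b19e_co)

`c K` is the number of large cliques whose trace on `W` is `K`; `CapT F W c Y` is the part of the
total which is assigned to the maximal independent set `Y`.
-/

set_option autoImplicit false

open Finset

namespace MP76b19e.Rob

variable {V : Type} [DecidableEq V] (F : SimpleGraph V) (W : Finset V)

/-- the capacity of a maximal independent set -/
noncomputable def CapT (c : Finset V → ℝ) (Y : Finset V) : ℝ :=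
  ∑ K ∈ Y.powerset, c K * Ival (mY F W Y) (Y \ K)

variable {F W}

/-- the canonical split -/
theorem splitT (c : Finset V → ℝ) :
    ∑ K ∈ Ind F W, c K = ∑ Y ∈ MIS F W, CapT F W c Y := by
  classical
  have h1 : ∀ K ∈ Ind F W, c K =
      ∑ Y ∈ (MIS F W).filter (fun Y => K ⊆ Y), c K * Ival (mY F W Y) (Y \ K) := by
    intro K hK
    rw [← mul_sum, budget hK, mul_one]
  rw [sum_congr rfl h1]
  unfold CapT
  apply sum_comm'
  intro K Y
  rw [mem_filter, mem_powerset, mem_Ind, mem_MIS]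
  constructor
  · rintro ⟨_, h3, h4⟩
    exact ⟨h4, h3⟩
  · rintro ⟨h1, h3⟩
    exact ⟨⟨h1.trans h3.1.1, fun x hx y hy => h3.1.2 x (h1 hx) y (h1 hy)⟩, h3, h1⟩

variable {n : ℕ} [Fintype V]

/-- the reduction to the pointwise inequality -/
theorem reduceT (hn : Fintype.card V = n) (X : ℕ → Finset V) (hX : Monotone X) (b P : ℕ → ℝ)
    (hb : ∀ j, 0 ≤ b j) (hP : ∀ j, 0 < P j) (m : ℕ) (c : Finset V → ℝ) (Tw : ℝ)
    (hTw : 0 ≤ Tw)
    (h : ∀ Y ∈ MIS F W, Tw * ∑ s ∈ univ.filter (fun s : V ≃ Fin n => gr F W s = Y),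
      RM F X b P s m ≤ (Fintype.card (V ≃ Fin n) : ℝ) * CapT F W c Y) :
    Tw * ∏ j ∈ range m, b j / P j ≤ ∑ K ∈ Ind F W, c K := by
  classical
  have hcard : (0 : ℝ) < (Fintype.card (V ≃ Fin n) : ℝ) := by
    have : Nonempty (V ≃ Fin n) := ⟨Fintype.equivFinOfCardEq hn⟩
    exact_mod_cast Fintype.card_pos
  have h1 := rm_mean (F := F) (n := n) X hX b P hb hP m
  have h2 : ∑ s : V ≃ Fin n, RM F X b P s m =
      ∑ Y ∈ MIS F W, ∑ s ∈ univ.filter (fun s : V ≃ Fin n => gr F W s = Y), RM F X b P s m :=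
    (sum_fiberwise_of_maps_to (fun s _ => gr_mem_MIS) _).symm
  rw [splitT c]
  have h3 : (Fintype.card (V ≃ Fin n) : ℝ) * (Tw * ∏ j ∈ range m, b j / P j) ≤
      (Fintype.card (V ≃ Fin n) : ℝ) * ∑ Y ∈ MIS F W, CapT F W c Y := by
    calc (Fintype.card (V ≃ Fin n) : ℝ) * (Tw * ∏ j ∈ range m, b j / P j)
        = Tw * ((Fintype.card (V ≃ Fin n) : ℝ) * ∏ j ∈ range m, b j / P j) := by ring
      _ ≤ Tw * ∑ s : V ≃ Fin n, RM F X b P s m := mul_le_mul_of_nonneg_left h1 hTw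
      _ = ∑ Y ∈ MIS F W, Tw * ∑ s ∈ univ.filter (fun s : V ≃ Fin n => gr F W s = Y),
            RM F X b P s m := by rw [h2, mul_sum]
      _ ≤ ∑ Y ∈ MIS F W, (Fintype.card (V ≃ Fin n) : ℝ) * CapT F W c Y :=
          sum_le_sum fun Y hY => h Y hY
      _ = _ := by rw [mul_sum]
  exact le_of_mul_le_mul_left h3 hcard

end MP76b19e.Rob
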