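import Pool.Agent.Lib.MP76b19e.Rob.Assemble
import Pool.Agent.Lib.MP76b19e.Rob.LocZ

/-!
# The statistic with a linear last factor (problem MP_76b19e_co)

`RL (m+1) = bm m * gm m ≤ RM (m+1)` has the same lower bound for its mean, so the local
inequality is only needed for `RL`.
-/

set_option autoImplicit false

open Finset

namespace MP76b19e.Rob

section

variable {V : Type} [Fintype V] [DecidableEq V] {n : ℕ} {F : SimpleGraph V}

variable (F) in
/-- the statistic with a linear last factor -/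
noncomputable def RL (X : ℕ → Finset V) (b P : ℕ → ℝ) (s : V ≃ Fin n) : ℕ → ℝ
  | 0 => 1
  | m + 1 => bm F X b P s m * gm F X b P s m

theorem RL_le_RM (X : ℕ → Finset V) (b P : ℕ → ℝ) (s : V ≃ Fin n) (m : ℕ) :
    RL F X b P s m ≤ RM F X b P s m := by
  cases m with
  | zero => exact le_rfl
  | succ m => exact mul_le_mul_of_nonneg_right (le_max_right _ _) (gm_nonneg X b P s m)

/-- one step of the recursion, an equality -/
theorem RL_step (X : ℕ → Finset V) (b P : ℕ → ℝ) (s : V ≃ Fin n) (m : ℕ) :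
    RL F X b P s (m + 1) = gm F X b P s m * Dx F (X m) s / P m + b m / P m * RM F X b P s m := by
  cases m with
  | zero =>
    change (Dx F (X 0) s + b 0) / P 0 * gm F X b P s 0 =
      gm F X b P s 0 * Dx F (X 0) s / P 0 + b 0 / P 0 * 1
    have : gm F X b P s 0 = 1 := by
      unfold gm
      simp
    rw [this]
    ring
  | succ k =>
    change ((Dx F (X (k + 1)) s + b (k + 1)) / P (k + 1) +
        b (k + 1) / P (k + 1) * max (bm F X b P s k - 1) 0) * gm F X b P s (k + 1) =
      gm F X b P s (k + 1) * Dx F (X (k + 1)) s / P (k + 1) +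
      b (k + 1) / P (k + 1) * (max 0 (bm F X b P s k) * gm F X b P s k)
    have key : max 0 (bm F X b P s k) * gm F X b P s k =
        (1 + max (bm F X b P s k - 1) 0) * gm F X b P s (k + 1) := by
      rw [gm_succ]
      rcases le_total (bm F X b P s k) 1 with h1 | h1
      · rw [max_eq_right (by linarith : bm F X b P s k - 1 ≤ 0),
          min_eq_right (max_le zero_le_one h1)]
        ring
      · rw [max_eq_left (by linarith : 0 ≤ bm F X b P s k - 1),
          max_eq_right (by linarith : 0 ≤ bm F X b P s k), min_eq_left h1]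
        ring
    rw [key]
    ring

/-- the statistic with a linear last factor has mean at least `∏ b_j / P_j` -/
theorem rl_mean (X : ℕ → Finset V) (hX : Monotone X) (b P : ℕ → ℝ) (hb : ∀ j, 0 ≤ b j)
    (hP : ∀ j, 0 < P j) (m : ℕ) :
    (Fintype.card (V ≃ Fin n) : ℝ) * ∏ j ∈ range m, b j / P j ≤
      ∑ s : V ≃ Fin n, RL F X b P s m := by
  cases m with
  | zero =>
    rw [Finset.prod_range_zero, mul_one]
    have h1 : ∀ s : V ≃ Fin n, RL F X b P s 0 = 1 := fun _ => rfl
    rw [Finset.sum_congr rfl fun s _ => h1 s, Finset.sum_const, nsmul_eq_mul, mul_one,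
      Finset.card_univ]
  | succ m =>
    have hβ : 0 ≤ b m / P m := div_nonneg (hb m) (hP m).le
    have h1 := dx_lemma (X m) (fun s : V ≃ Fin n => gm F X b P s m)
      (fun s => gm_nonneg X b P s m) (gm_mon X b P hb hP m (fun j hj => hX hj.le))
    calc (Fintype.card (V ≃ Fin n) : ℝ) * ∏ j ∈ range (m + 1), b j / P j
        = b m / P m * ((Fintype.card (V ≃ Fin n) : ℝ) * ∏ j ∈ range m, b j / P j) := by
          rw [Finset.prod_range_succ]; ring
      _ ≤ b m / P m * ∑ s, RM F X b P s m :=
          mul_le_mul_of_nonneg_left (rm_mean X hX b P hb hP m) hβ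
      _ ≤ (∑ s, gm F X b P s m * Dx F (X m) s) / P m + b m / P m * ∑ s, RM F X b P s m :=
          le_add_of_nonneg_left (div_nonneg h1 (hP m).le)
      _ = ∑ s : V ≃ Fin n, RL F X b P s (m + 1) := by
          rw [Finset.sum_congr rfl fun s _ => RL_step X b P s m, Finset.sum_add_distrib,
            Finset.sum_div, Finset.mul_sum]

/-- the reduction to the pointwise inequality -/
theorem reduceL {W : Finset V} (hn : Fintype.card V = n) (X : ℕ → Finset V) (hX : Monotone X)
    (b P : ℕ → ℝ) (hb : ∀ j, 0 ≤ b j) (hP : ∀ j, 0 < P j) (m : ℕ) (c : Finset V → ℝ) (Tw : ℝ)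
    (hTw : 0 ≤ Tw)
    (h : ∀ Y ∈ MIS F W, Tw * ∑ s ∈ univ.filter (fun s : V ≃ Fin n => gr F W s = Y),
      RL F X b P s m ≤ (Fintype.card (V ≃ Fin n) : ℝ) * CapT F W c Y) :
    Tw * ∏ j ∈ range m, b j / P j ≤ ∑ K ∈ Ind F W, c K := by
  classical
  have hcard : (0 : ℝ) < (Fintype.card (V ≃ Fin n) : ℝ) := by
    have : Nonempty (V ≃ Fin n) := ⟨Fintype.equivFinOfCardEq hn⟩
    exact_mod_cast Fintype.card_pos
  have h1 := rl_mean (F := F) (n := n) X hX b P hb hP m
  have h2 : ∑ s : V ≃ Fin n, RL F X b P s m =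
      ∑ Y ∈ MIS F W, ∑ s ∈ univ.filter (fun s : V ≃ Fin n => gr F W s = Y), RL F X b P s m :=
    (sum_fiberwise_of_maps_to (fun s _ => gr_mem_MIS) _).symm
  rw [splitT c]
  have h3 : (Fintype.card (V ≃ Fin n) : ℝ) * (Tw * ∏ j ∈ range m, b j / P j) ≤
      (Fintype.card (V ≃ Fin n) : ℝ) * ∑ Y ∈ MIS F W, CapT F W c Y := by
    calc (Fintype.card (V ≃ Fin n) : ℝ) * (Tw * ∏ j ∈ range m, b j / P j)
        = Tw * ((Fintype.card (V ≃ Fin n) : ℝ) * ∏ j ∈ range m, b j / P j) := by ring
      _ ≤ Tw * ∑ s : V ≃ Fin n, RL F X b P s m := mul_le_mul_of_nonneg_left h1 hTw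
      _ = ∑ Y ∈ MIS F W, Tw * ∑ s ∈ univ.filter (fun s : V ≃ Fin n => gr F W s = Y),
            RL F X b P s m := by rw [h2, mul_sum]
      _ ≤ ∑ Y ∈ MIS F W, (Fintype.card (V ≃ Fin n) : ℝ) * CapT F W c Y :=
          sum_le_sum fun Y hY => h Y hY
      _ = _ := by rw [mul_sum]
  exact le_of_mul_le_mul_left h3 hcard

/-- the linear statistic depends only on the caps below `m` -/
theorem RL_congr {X : ℕ → Finset V} {b p p' : ℕ → ℝ} {m : ℕ} (h : ∀ j, j < m → p j = p' j)
    (s : V ≃ Fin n) : RL F X b p s m = RL F X b p' s m := by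
  have hb : ∀ j, j < m → bm F X b p s j = bm F X b p' s j := by
    intro j
    induction j with
    | zero =>
      intro hj
      change (Dx F (X 0) s + b 0) / p 0 = (Dx F (X 0) s + b 0) / p' 0
      rw [h 0 hj]
    | succ j ih =>
      intro hj
      change (Dx F (X (j + 1)) s + b (j + 1)) / p (j + 1) + b (j + 1) / p (j + 1) *
        max (bm F X b p s j - 1) 0 = (Dx F (X (j + 1)) s + b (j + 1)) / p' (j + 1) +
        b (j + 1) / p' (j + 1) * max (bm F X b p' s j - 1) 0
      rw [h (j + 1) hj, ih (by omega)]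
  cases m with
  | zero => rfl
  | succ m =>
    change bm F X b p s m * gm F X b p s m = bm F X b p' s m * gm F X b p' s m
    rw [hb m (Nat.lt_succ_self m)]
    congr 1
    unfold gm
    refine prod_congr rfl fun i hi => ?_
    rw [hb i (by have := mem_range.1 hi; omega)]

end

/-- the local inequality for the linear statistic, no pendants -/
def LocIneqL : Prop :=
  ∀ (V β : Type) (_ : Fintype V) (_ : DecidableEq V) (_ : DecidableEq β) (F : SimpleGraph V)
    (W : Finset V) (L : ℕ) (X : ℕ → Finset V) (P ν : ℕ → ℕ) (T : ℕ → ℕ) (B : Finset β)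
    (M : V → Finset β) (c : Finset V → ℕ), Loc F W L X P ν 0 T B M c → NoPend F W →
    ∀ g : ℕ, GapOk P ν L g →
    ∀ Y ∈ MIS F W,
      ((P 0 : ℝ) ^ g * ∏ j ∈ range L, (P j : ℝ)) *
        ∑ s ∈ univ.filter (fun s : V ≃ Fin (Fintype.card V) => gr F W s = Y),
          RL F X (fun _ => 1) (fun j => (P j : ℝ)) s L ≤
      (Fintype.card (V ≃ Fin (Fintype.card V)) : ℝ) * CapT F W (fun K => (c K : ℝ)) Y

/-- the remaining case of the local inequality for the linear statistic -/
def MixedIneqL : Prop :=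
  ∀ (V β : Type) (_ : Fintype V) (_ : DecidableEq V) (_ : DecidableEq β) (F : SimpleGraph V)
    (W : Finset V) (L : ℕ) (X : ℕ → Finset V) (P ν : ℕ → ℕ) (T : ℕ → ℕ) (B : Finset β)
    (M : V → Finset β) (c : Finset V → ℕ), Loc F W (L + 1) X P ν 0 T B M c →
    NoPend F W → ∀ g : ℕ, GapOk P ν (L + 1) g →
    ∀ Y ∈ MIS F W, ∑ j ∈ range (L + 2), ν j < Y.card → 1 ≤ xY Y (levX X) ν L →
      ((P 0 : ℝ) ^ g * ∏ j ∈ range (L + 1), (P j : ℝ)) *
        ∑ s ∈ univ.filter (fun s : V ≃ Fin (Fintype.card V) => gr F W s = Y),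
          RL F X (fun _ => 1) (fun j => (P j : ℝ)) s (L + 1) ≤
      (Fintype.card (V ≃ Fin (Fintype.card V)) : ℝ) * CapT F W (fun K => (c K : ℝ)) Y

/-- the remaining case of the local inequality gives the one for the linear statistic -/
theorem mixedIneqL_of_mixedIneq (h : MixedIneq fun F W _ _ _ => NoPend F W) : MixedIneqL := by
  intro V β iF iV iβ F W L X P ν T B M c hloc hpend g hg Y hY h1 h2
  refine le_trans (mul_le_mul_of_nonneg_left (sum_le_sum fun s _ => RL_le_RM _ _ _ s _) ?_)
    (h V β iF iV iβ F W L X P ν T B M c hloc hpend g hg Y hY h1 h2)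
  exact mul_nonneg (by positivity) (prod_nonneg fun _ _ => Nat.cast_nonneg _)

theorem locIneqL_of_mixed (h : MixedIneqL) : LocIneqL := by
  classical
  intro V β iF iV iβ F W L X P ν T B M c hloc hpend g hg Y hY
  by_cases hmix : ∑ j ∈ range (L + 1), ν j < Y.card → L = 0 ∨ xY Y (levX X) ν (L - 1) = 0
  · refine le_trans (mul_le_mul_of_nonneg_left (sum_le_sum fun s _ => RL_le_RM _ _ _ s _) ?_)
      (hloc.ineq hY hmix hg.le)
    exact mul_nonneg (by positivity) (prod_nonneg fun _ _ => Nat.cast_nonneg _)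
  · push Not at hmix
    obtain ⟨h1, h2, h3⟩ := hmix
    obtain ⟨L, rfl⟩ : ∃ j, L = j + 1 := ⟨L - 1, by omega⟩
    exact h V β iF iV iβ F W L X P ν T B M c hloc hpend g hg Y hY h1
      (Nat.one_le_iff_ne_zero.2 h3)

/-- the lower bound given by the pointwise inequality for the linear statistic -/
theorem Loc.boundL {V β : Type} [Fintype V] [DecidableEq V] [DecidableEq β] {F : SimpleGraph V}
    {W : Finset V} {L : ℕ} {X : ℕ → Finset V} {P ν : ℕ → ℕ} {t : ℕ} {T : ℕ → ℕ} {B : Finset β}
    {M : V → Finset β} {c : Finset V → ℕ} (h : Loc F W L X P ν t T B M c) (g : ℕ)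
    (hloc : ∀ Y ∈ MIS F W,
      ((P 0 : ℝ) ^ g * ∏ j ∈ range L, (P j : ℝ)) *
        ∑ s ∈ univ.filter (fun s : V ≃ Fin (Fintype.card V) => gr F W s = Y),
          RL F X (fun _ => 1) (fun j => (P j : ℝ)) s L ≤
      (Fintype.card (V ≃ Fin (Fintype.card V)) : ℝ) * CapT F W (fun K => (c K : ℝ)) Y) :
    (P 0) ^ g ≤ ∑ K ∈ Ind F W, c K := by
  classical
  have hP : ∀ j, j ≤ L → 0 < P j := by
    intro j hj
    induction j with
    | zero => have := h.q2; omega
    | succ j ih =>
      have := h.Pmono j (by omega)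
      omega
  set P' : ℕ → ℝ := fun j => if j ≤ L then (P j : ℝ) else 1 with hP'
  have hP'pos : ∀ j, 0 < P' j := by
    intro j
    simp only [hP']
    split_ifs with hj
    · exact_mod_cast hP j hj
    · exact one_pos
  have h1 := reduceL (F := F) (W := W) (n := Fintype.card V) rfl X h.Xmono (fun _ => (1 : ℝ)) P'
    (fun _ => zero_le_one) hP'pos L (fun K => (c K : ℝ))
    ((P 0 : ℝ) ^ g * ∏ j ∈ range L, (P j : ℝ)) (by positivity) (by
      intro Y hY
      have h2 := hloc Y hY
      refine le_trans (le_of_eq ?_) h2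
      congr 1
      exact sum_congr rfl fun s _ => RL_congr (fun j hj => by
        simp only [hP', if_pos hj.le]) s)
  have h2 : ((P 0 : ℝ) ^ g * ∏ j ∈ range L, (P j : ℝ)) * ∏ j ∈ range L, 1 / P' j =
      (P 0 : ℝ) ^ g := by
    rw [mul_assoc, ← prod_mul_distrib]
    have h3 : ∏ j ∈ range L, (P j : ℝ) * (1 / P' j) = 1 := by
      refine prod_eq_one fun j hj => ?_
      rw [mem_range] at hj
      have h4 : (0 : ℝ) < P j := by exact_mod_cast hP j hj.le
      simp only [hP', if_pos hj.le]
      field_simp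
    rw [h3, mul_one]
  rw [h2] at h1
  exact_mod_cast h1

open Pool.Agent.MP76b19e in
/-- the lower bound for a profile, given the local inequality for the linear statistic -/
theorem buildL (hloc : LocIneqL) {α : Type} [Fintype α] [DecidableEq α] {G : SimpleGraph α}
    {U : Finset α} {P ν : ℕ → ℕ} {L : ℕ} (hq : 2 ≤ P 0) (hP : ∀ j < L, P j < P (j + 1))
    (hν : ∀ j, 1 ≤ ν j) (hC : C G U 0 (blkL P ν (L + 1))) (g : ℕ) (hg : GapOk P ν L g) :
    (P 0) ^ g ≤ (K G U ((∑ j ∈ range (L + 1), ν j) + 1)).card := by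
  have h := build_aux (G := G) (U := U) (t := 0) false g
    (fun V β _ _ _ F W X T B M c hL _ hf =>
      hL.boundL g (hloc V β _ _ _ F W L X P ν T B M c hL (hf rfl) g hg)) hq hP hν
    (fun j h1 h2 => absurd h1 (by omega)) hC
  rwa [add_zero] at h

open Pool.Agent.MP76b19e in
/-- from the lower bounds for the profiles to the lower bound for a sorted list -/
theorem listBound' {α : Type} [Fintype α] [DecidableEq α]
    (G : SimpleGraph α) (U : Finset α)
    (hb : ∀ (P ν : ℕ → ℕ) (L : ℕ), 2 ≤ P 0 → (∀ j < L, P j < P (j + 1)) → (∀ j, 1 ≤ ν j) →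
      C G U 0 (blkL P ν (L + 1)) → ∀ g, GapOk P ν L g →
      (P 0) ^ g ≤ (K G U ((∑ j ∈ range (L + 1), ν j) + 1)).card)
    (q : ℕ) (ps : List ℕ) (hq : 2 ≤ q) (hle : (q :: ps).Pairwise (· ≤ ·))
    (hC : C G U 0 (q :: ps)) (m J : ℕ) (hm : (q :: ps).sum < m) (hJ : J ≤ ps.length)
    (hmax : ∀ j, j ≤ ps.length → j * (j + 1) / 2 + (ps.length + 1) * q < m → j ≤ J) :
    q ^ (ps.length - J) ≤ (K G U (ps.length + 2)).card := by
  classical
  obtain ⟨N, P, ν, h1, h2, h3⟩ := rle _ hle
  obtain ⟨L, rfl⟩ : ∃ L, N = L + 1 := by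
    rcases N with _ | N
    · rw [blk_zero] at h1
      exact absurd h1 (by simp)
    · exact ⟨N, rfl⟩
  -- the first element
  have hP0 : P 0 = q := by
    obtain ⟨u, hu⟩ : ∃ u, ν 0 = u + 1 := ⟨ν 0 - 1, by have := h2 0; omega⟩
    rw [blk_succ', hu, List.replicate_succ, List.cons_append] at h1
    exact ((List.cons.injEq _ _ _ _).mp h1).1.symm
  have hlen : ps.length + 1 = ∑ j ∈ range (L + 1), ν j := by
    rw [← blk_length P ν (L + 1), ← h1, List.length_cons]
  have hsum : ∑ j ∈ range (L + 1), ν j * P j < m := by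
    rw [← blk_sum, ← h1]
    exact hm
  have hPge : ∀ j, j < L + 1 → q + j ≤ P j := by
    intro j
    induction j with
    | zero => intro _; omega
    | succ j ih =>
      intro hj
      have := ih (by omega)
      have := h3 j hj
      omega
  have hgauss : (∑ j ∈ range (L + 1), j) * 2 = (L + 1) * L := sum_range_id_mul_two (L + 1)
  -- the number of levels
  have hNJ : L ≤ J := by
    apply hmax
    · have h4 : ∑ j ∈ range (L + 1), 1 ≤ ∑ j ∈ range (L + 1), ν j := sum_le_sum fun j _ => h2 j
      rw [sum_const, card_range, smul_eq_mul, mul_one] at h4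
      omega
    · have h5 : ∑ j ∈ range (L + 1), (ν j * q + j) ≤ ∑ j ∈ range (L + 1), ν j * P j := by
        refine sum_le_sum fun j hj => ?_
        rw [mem_range] at hj
        have h6 := hPge j hj
        calc ν j * q + j ≤ ν j * q + ν j * j := by
              have := Nat.mul_le_mul_right j (h2 j)
              omega
          _ = ν j * (q + j) := by ring
          _ ≤ ν j * P j := Nat.mul_le_mul_left _ h6
      rw [sum_add_distrib, ← sum_mul, ← hlen] at h5
      have e : L * (L + 1) = (L + 1) * L := mul_comm _ _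
      omega
  set E : ℕ := ∑ j ∈ range (L + 1), (ν j - 1) with hE
  have hE1 : E + (L + 1) = ∑ j ∈ range (L + 1), ν j := by
    have h4 : ∑ j ∈ range (L + 1), ((ν j - 1) + 1) = ∑ j ∈ range (L + 1), ν j := by
      refine sum_congr rfl fun j _ => ?_
      have := h2 j
      omega
    rw [← h4, sum_add_distrib, sum_const, card_range, smul_eq_mul, mul_one, hE]
  rcases Nat.eq_zero_or_pos E with hE0 | hE0
  · -- the strict case
    have h5 : ps.length - J = 0 := by omega
    rw [h5, pow_zero]
    have h6 := greedy _ _ hC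
    rw [List.length_cons] at h6
    exact card_pos.2 h6
  have hClist : C G U 0 (blkL P ν (L + 1)) := by
    rw [← h1]
    exact hC
  have hfin : ps.length + 2 = (∑ j ∈ range (L + 1), ν j) + 1 := by omega
  have hbuild : ∀ g, GapOk P ν L g →
      (P 0) ^ g ≤ (K G U ((∑ j ∈ range (L + 1), ν j) + 1)).card := fun g hg =>
    hb P ν L (by omega) (fun j hj => h3 j (by omega)) h2 hClist g hg
  rcases Nat.eq_or_lt_of_le hNJ with hcase | hcase
  · -- as many levels as possible: no gaps up to the last repeated level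
    have hgap : (∑ j ∈ range (L + 1), (ν j - 1) * (P j - P 0)) +
        ∑ j ∈ range (L + 1), (P j - P 0 - j) ≤ L := by
      have h5 : ∑ j ∈ range (L + 1), (ν j * q + j + (ν j - 1) * (P j - P 0) + (P j - P 0 - j)) =
          ∑ j ∈ range (L + 1), ν j * P j := by
        refine sum_congr rfl fun j hj => ?_
        rw [mem_range] at hj
        have h6 := hPge j hj
        obtain ⟨u, hu⟩ : ∃ u, ν j = u + 1 := ⟨ν j - 1, by have := h2 j; omega⟩
        obtain ⟨x, hx⟩ : ∃ x, P j = q + j + x := ⟨P j - (q + j), by omega⟩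
        rw [hP0, hu, hx, Nat.add_sub_cancel, show q + j + x - q = j + x by omega,
          show j + x - j = x by omega]
        ring
      rw [sum_add_distrib, sum_add_distrib, sum_add_distrib, ← sum_mul, ← hlen] at h5
      -- the maximality of `J`
      have h8 : m ≤ (J + 1) * (J + 2) / 2 + (ps.length + 1) * q := by
        by_contra hcon
        push Not at hcon
        have h9 := hmax (J + 1) (by omega) hcon
        omega
      have e1 : (J + 1) * (J + 2) = (L + 1) * L + 2 * (L + 1) := by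
        rw [← hcase]; ring
      have e2 : (J + 1) * (J + 2) / 2 = (∑ j ∈ range (L + 1), j) + (L + 1) := by
        rw [e1, ← hgauss]
        omega
      omega
    have h4 := hbuild E (Or.inl ⟨hgap, rfl⟩)
    rw [hP0] at h4
    rw [hfin]
    refine le_trans (Nat.pow_le_pow_right (by omega) ?_) h4
    omega
  · have h4 := hbuild (E - 1) (Or.inr (by omega))
    rw [hP0] at h4
    rw [hfin]
    refine le_trans (Nat.pow_le_pow_right (by omega) ?_) h4
    omega

open Pool.Agent.MP76b19e in
/-- the lower bound for a sorted profile, given the remaining case for the linear statistic -/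
theorem listBoundL (hmix : MixedIneqL) {α : Type} [Fintype α] [DecidableEq α]
    (G : SimpleGraph α) (U : Finset α) (q : ℕ) (ps : List ℕ) (hq : 2 ≤ q)
    (hle : (q :: ps).Pairwise (· ≤ ·))
    (hC : C G U 0 (q :: ps)) (m J : ℕ) (hm : (q :: ps).sum < m) (hJ : J ≤ ps.length)
    (hmax : ∀ j, j ≤ ps.length → j * (j + 1) / 2 + (ps.length + 1) * q < m → j ≤ J) :
    q ^ (ps.length - J) ≤ (K G U (ps.length + 2)).card :=
  listBound' G U (fun _ _ _ hq hP hν hC g hg =>
    buildL (locIneqL_of_mixed hmix) hq hP hν hC g hg) q ps hq hle hC m J hm hJ hmax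

end MP76b19e.Rob
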