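import Pool.Agent.Lib.MP76b19e.Rob.Alpha
import Pool.Agent.Lib.MP76b19e.Rob.Loc

/-!
# The local inequality for the smallest maximal independent sets (problem MP_76b19e_co)

`Loc.alpha`: the local inequality for the sets `Y ∈ MIS F W` with `∑ ν j` elements.
`Ext`: the levels are continued beyond `L`, `levX` is the level of a vertex.
-/

set_option autoImplicit false

open Finset

namespace MP76b19e.Rob

/-- the caps, continued beyond `L` -/
def Pe (P : ℕ → ℕ) (L j : ℕ) : ℕ := if j ≤ L then P j else P L + (j - L)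

theorem Pe_of_le {P : ℕ → ℕ} {L j : ℕ} (h : j ≤ L) : Pe P L j = P j := if_pos h

theorem Pe_mono {P : ℕ → ℕ} {L : ℕ} (h : ∀ j < L, P j < P (j + 1)) (j : ℕ) :
    Pe P L j < Pe P L (j + 1) := by
  unfold Pe
  rcases Nat.lt_trichotomy j L with h1 | h1 | h1
  · rw [if_pos h1.le, if_pos (by omega)]
    exact h j h1
  · rw [if_pos h1.le, if_neg (by omega), h1]
    omega
  · rw [if_neg (by omega), if_neg (by omega)]
    omega

theorem Pe_pos {P : ℕ → ℕ} {L : ℕ} (h : ∀ j < L, P j < P (j + 1)) (h0 : 0 < P 0) (j : ℕ) :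
    0 < Pe P L j := by
  induction j with
  | zero =>
    rw [Pe_of_le (Nat.zero_le L)]
    exact h0
  | succ j _ =>
    have := Pe_mono h j
    omega

section

variable {V : Type} [Fintype V] [DecidableEq V] {F : SimpleGraph V} {n : ℕ}

/-- the statistic depends only on the caps below `m` -/
theorem RM_congr {X : ℕ → Finset V} {b p p' : ℕ → ℝ} {m : ℕ} (h : ∀ j, j < m → p j = p' j)
    (s : V ≃ Fin n) : RM F X b p s m = RM F X b p' s m := by
  have hb : ∀ j, j < m → bm F X b p s j = bm F X b p' s j := by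
    intro j
    induction j with
    | zero =>
      intro hj
      change (Dx F (X 0) s + b 0) / p 0 = (Dx F (X 0) s + b 0) / p' 0
      rw [h 0 hj]
    | succ j ih =>
      intro hj
      change (Dx F (X (j + 1)) s + b (j + 1)) / p (j + 1) + b (j + 1) / p (j + 1) *
        max (bm F X b p s j - 1) 0 = (Dx F (X (j + 1)) s + b (j + 1)) / p' (j + 1) +
        b (j + 1) / p' (j + 1) * max (bm F X b p' s j - 1) 0
      rw [h (j + 1) hj, ih (by omega)]
  rcases m with _ | m
  · rfl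
  · change max 0 (bm F X b p s m) * gm F X b p s m = max 0 (bm F X b p' s m) * gm F X b p' s m
    unfold gm
    rw [hb m (by omega)]
    congr 1
    refine prod_congr rfl fun i hi => ?_
    rw [hb i (by have := mem_range.1 hi; omega)]

/-- the level of a vertex -/
noncomputable def levX (X : ℕ → Finset V) (v : V) : ℕ := sInf {j | v ∈ X j}

omit [Fintype V] [DecidableEq V] in
theorem levX_spec {X : ℕ → Finset V} {v : V} {j : ℕ} (h : v ∈ X j) :
    v ∈ X (levX X v) ∧ levX X v ≤ j ∧ ∀ i < levX X v, v ∉ X i := by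
  have hne : {j | v ∈ X j}.Nonempty := ⟨j, h⟩
  refine ⟨Nat.sInf_mem hne, Nat.sInf_le h, fun i hi hv => ?_⟩
  exact absurd (Nat.sInf_le (s := {j | v ∈ X j}) hv) (not_le.2 hi)

omit [Fintype V] in
theorem Lv_of {W Y : Finset V} {X : ℕ → Finset V} {L : ℕ} (hX : Monotone X)
    (hXL : ∀ j, L ≤ j → X j = W) (hY : Y ∈ MIS F W) : Lv F W Y X (levX X) := by
  rw [mem_MIS] at hY
  refine ⟨fun j => ?_, hY.1.1, hY.1.2, fun v hv => ?_⟩
  · ext v
    rw [mem_filter]
    constructor
    · intro h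
      refine ⟨?_, (levX_spec h).2.1⟩
      rw [← hXL (max j L) (le_max_right _ _)]
      exact hX (le_max_left _ _) h
    · rintro ⟨h1, h2⟩
      rw [← hXL L le_rfl] at h1
      exact hX h2 (levX_spec h1).1
  · by_contra hcon
    rw [not_nonempty_iff_eq_empty] at hcon
    have h1 : v ∈ Und F W Y := by
      rw [mem_Und]
      refine ⟨hv, fun k hk => ⟨?_, ?_⟩⟩
      · rintro rfl
        have h2 : v ∈ dn F Y v := mem_dn.2 ⟨hk, Or.inl rfl⟩
        rw [hcon] at h2
        exact absurd h2 (notMem_empty _)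
      · intro h2
        have h3 : k ∈ dn F Y v := mem_dn.2 ⟨hk, Or.inr h2⟩
        rw [hcon] at h3
        exact absurd h3 (notMem_empty _)
    rw [hY.2] at h1
    exact absurd h1 (notMem_empty _)

/-- double counting -/
theorem sum_cn_inter (W Y : Finset V) :
    ∑ k ∈ Y, ((cn F k ∩ W).card : ℝ) = ∑ v ∈ W, ((dn F Y v).card : ℝ) := by
  classical
  have h1 : ∑ k ∈ Y, (cn F k ∩ W).card = ∑ v ∈ W, (dn F Y v).card := by
    have h2 : ∀ k ∈ Y, (cn F k ∩ W).card = (W.filter fun v => v = k ∨ F.Adj v k).card := by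
      intro k _
      congr 1
      ext v
      rw [mem_inter, mem_cn, mem_filter]
      exact and_comm
    have h3 : ∀ v ∈ W, (dn F Y v).card = (Y.filter fun k => v = k ∨ F.Adj v k).card := by
      intro v _
      congr 1
    rw [sum_congr rfl h2, sum_congr rfl h3]
    simp only [card_filter]
    exact sum_comm
  exact_mod_cast h1

end

variable {V β : Type} [Fintype V] [DecidableEq V] [DecidableEq β] {F : SimpleGraph V}
  {W Y : Finset V} {L : ℕ} {X : ℕ → Finset V} {P ν : ℕ → ℕ} {t : ℕ} {T : ℕ → ℕ} {B : Finset β}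
  {M : V → Finset β} {c : Finset V → ℕ}

theorem Loc.Ss (h : Loc F W L X P ν t T B M c) {j : ℕ} (hj : j ≤ L) :
    ((X j).card : ℝ) = Ss (Pe P L) ν j - Pe P L j + 1 := by
  have h1 := h.Xcard j hj
  have h2 : Rob.Ss (Pe P L) ν j = ((∑ i ∈ range (j + 1), ν i * P i : ℕ) : ℝ) := by
    unfold Rob.Ss
    push_cast
    refine sum_congr rfl fun i hi => ?_
    rw [Pe_of_le (by have := mem_range.1 hi; omega)]
  rw [h2, Pe_of_le hj]
  have h3 : (((X j).card + P j : ℕ) : ℝ) =
      (((∑ i ∈ range (j + 1), ν i * P i) + 1 : ℕ) : ℝ) := by exact_mod_cast h1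
  push_cast at h3 ⊢
  linarith

theorem Loc.cp (h : Loc F W L X P ν t T B M c) (hY : Y ⊆ W) :
    Cp F W Y (levX X) (Pe P L) L := by
  have hW : ∀ v ∈ W, v ∈ X L := fun v hv => by rw [h.XL L le_rfl]; exact hv
  refine ⟨fun v hv hlt => ?_, fun v hv hl => ?_, fun v hv => (levX_spec (hW v hv)).2.1,
    fun v hv => ?_⟩
  · have h1 := levX_spec (hW v hv)
    rw [Pe_of_le hlt.le]
    exact h.cap _ hlt v h1.1 h1.2.2 (cn F v) fun u => mem_cn
  · have h1 := levX_spec (hW v hv)
    rw [hl] at h1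
    have h2 := h.colW L le_rfl v h1.1 h1.2.2 (cn F v ∩ W) (fun u => by
      rw [mem_inter, mem_cn]
      exact and_comm)
    rw [Pe_of_le le_rfl]
    omega
  · rw [card_le_one]
    intro a ha b hb
    rw [mem_dn] at ha hb
    have ha' : F.Adj v a := by
      rcases ha.2 with h1 | h1
      · rw [← h1] at ha
        exact absurd (hY ha.1) hv
      · exact h1
    have hb' : F.Adj v b := by
      rcases hb.2 with h1 | h1
      · rw [← h1] at hb
        exact absurd (hY hb.1) hv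
      · exact h1
    exact h.pend v a b hv ha' hb'

/-- the number of colours missed by the elements of `Y` -/
theorem Loc.col (h : Loc F W L X P ν t T B M c) (hY : Y ⊆ W) :
    ((Y.biUnion M).card : ℝ) ≤ ∑ k ∈ Y, (Pe P L (levX X k) : ℝ) -
      ∑ v ∈ W, ((dn F Y v).card : ℝ) := by
  have hW : ∀ v ∈ W, v ∈ X L := fun v hv => by rw [h.XL L le_rfl]; exact hv
  rw [← sum_cn_inter (F := F) W Y, ← sum_sub_distrib]
  have h1 : ((Y.biUnion M).card : ℝ) ≤ ∑ k ∈ Y, ((M k).card : ℝ) := by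
    exact_mod_cast card_biUnion_le
  refine h1.trans (sum_le_sum fun k hk => ?_)
  have h2 := levX_spec (hW k (hY hk))
  have h3 := h.colW _ h2.2.1 k h2.1 h2.2.2 (cn F k ∩ W) (fun u => by
      rw [mem_inter, mem_cn]
      exact and_comm)
  rw [Pe_of_le h2.2.1]
  have h4 : (((cn F k ∩ W).card + (M k).card : ℕ) : ℝ) ≤ (P (levX X k) : ℝ) := by
    exact_mod_cast h3
  push_cast at h4
  linarith

omit [Fintype V] in
theorem CapT_nonneg (c : Finset V → ℕ) (Y : Finset V) :
    0 ≤ CapT F W (fun K => (c K : ℝ)) Y := by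
  classical
  unfold CapT
  refine sum_nonneg fun K _ => mul_nonneg (Nat.cast_nonneg _) ?_
  exact Ival_nonneg (fun D => mY_nonneg Y D) _

omit [Fintype V] in
theorem CapT_ge (c : Finset V → ℕ) (Y : Finset V) :
    (c Y : ℝ) ≤ CapT F W (fun K => (c K : ℝ)) Y := by
  classical
  unfold CapT
  have h1 : (c Y : ℝ) = (fun K => (c K : ℝ) * Ival (mY F W Y) (Y \ K)) Y := by
    simp only [Finset.sdiff_self, Ival_empty, mul_one]
  rw [h1]
  exact single_le_sum (f := fun K => (c K : ℝ) * Ival (mY F W Y) (Y \ K))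
    (fun K _ => mul_nonneg (Nat.cast_nonneg _) (Ival_nonneg (fun D => mY_nonneg Y D) _))
    (mem_powerset.2 (Subset.refl Y))

/-- the local inequality for the smallest maximal independent sets -/
theorem Loc.alpha (h : Loc F W L X P ν t T B M c) {n : ℕ} (hY : Y ∈ MIS F W)
    (hc : Y.card = ∑ j ∈ range (L + 1), ν j) {g : ℕ} (hg : g ≤ ∑ j ∈ range (L + 1), (ν j - 1)) :
    ((P 0 : ℝ) ^ g * ∏ j ∈ range L, (P j : ℝ)) *
        ∑ s ∈ univ.filter (fun s : V ≃ Fin n => gr F W s = Y),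
          RM F X (fun _ => 1) (fun j => (P j : ℝ)) s L ≤
      (Fintype.card (V ≃ Fin n) : ℝ) * CapT F W (fun K => (c K : ℝ)) Y := by
  classical
  have hLv := Lv_of h.Xmono h.XL hY
  have hcp := h.cp hLv.Y_sub
  have hP0 : 0 < P 0 := by have := h.q2; omega
  have hPp := Pe_pos h.Pmono hP0
  have hPm := Pe_mono h.Pmono
  have hXc : ∀ j, j < L → ((X j).card : ℝ) = Rob.Ss (Pe P L) ν j - Pe P L j + 1 :=
    fun j hj => h.Ss hj.le
  have hWc : (W.card : ℝ) = Rob.Ss (Pe P L) ν L - Pe P L L + 1 := by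
    rw [← h.Ss le_rfl, h.XL L le_rfl]
  have hcard : (0 : ℝ) ≤ (Fintype.card (V ≃ Fin n) : ℝ) := Nat.cast_nonneg _
  have hRM : ∀ s : V ≃ Fin n, RM F X (fun _ => 1) (fun j => (P j : ℝ)) s L =
      RM F X (fun _ => 1) (fun j => (Pe P L j : ℝ)) s L := fun s =>
    RM_congr (fun j hj => by rw [Pe_of_le hj.le]) s
  rw [sum_congr rfl fun s _ => hRM s]
  have hTg : (P 0 : ℝ) ^ g * ∏ j ∈ range L, (P j : ℝ) ≤
      (Pe P L 0 : ℝ) ^ (∑ i ∈ range (L + 1), (ν i - 1)) * ∏ i ∈ range L, (Pe P L i : ℝ) := by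
    rw [Pe_of_le (Nat.zero_le L)]
    have h1 : ∏ i ∈ range L, (Pe P L i : ℝ) = ∏ j ∈ range L, (P j : ℝ) :=
      prod_congr rfl fun i hi => by rw [Pe_of_le (mem_range.1 hi).le]
    rw [h1]
    refine mul_le_mul_of_nonneg_right ?_ (prod_nonneg fun _ _ => Nat.cast_nonneg _)
    exact pow_le_pow_right₀ (by exact_mod_cast hP0) hg
  have hS0 : 0 ≤ ∑ s ∈ univ.filter (fun s : V ≃ Fin n => gr F W s = Y),
      RM F X (fun _ => 1) (fun j => (Pe P L j : ℝ)) s L :=
    sum_nonneg fun s _ => RM_nonneg _ _ _ _ _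
  refine (mul_le_mul_of_nonneg_right hTg hS0).trans ?_
  by_cases hs : ∃ s : V ≃ Fin n, gr F W s = Y ∧
      0 < RM F X (fun _ => 1) (fun j => (Pe P L j : ℝ)) s L
  · obtain ⟨s0, hs0, hpos⟩ := hs
    have halpha := Rob.alpha (n := n) hLv hPp hPm (fun i hi => h.ν1 i hi) hcp hXc hWc hc
    refine halpha.trans (mul_le_mul_of_nonneg_left ?_ hcard)
    refine le_trans ?_ (CapT_ge c Y)
    have hKl : Kl Y (levX X) (L + 1) = Y := by
      unfold Kl
      rw [filter_true_of_mem]
      intro k hk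
      have := hcp.le k (hLv.Y_sub hk)
      omega
    have hx' : ∀ j, j ≤ L → Nn ν j ≤ (Kl Y (levX X) (j + 1)).card := by
      intro j hj
      rcases Nat.lt_or_ge j L with h1 | h1
      · exact (Tr_card hLv.X_eq hPp hPm hcp.lo hXc hpos j h1).trans
          (card_le_card (Tr_sub_Kl hLv hs0 j))
      · have : j = L := by omega
        rw [this, hKl, hc]
        exact le_rfl
    have hxl : xY Y (levX X) ν L = 0 := by
      unfold xY
      rw [hKl, hc]
      unfold Nn
      omega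
    have h1 := cap_Kl (P := Pe P L) (j := L) hx'
    rw [hKl, hxl] at h1
    have h2 := h.col hLv.Y_sub
    have h3 : (∑ v ∈ W, ((dn F Y v).card : ℝ)) =
        (W.card : ℝ) + ∑ v ∈ W \ Y, (((dn F Y v).card : ℝ) - 1) := by
      have h4 : ∑ v ∈ W, (((dn F Y v).card : ℝ) - 1) =
          ∑ v ∈ W \ Y, (((dn F Y v).card : ℝ) - 1) := by
        rw [← sum_sdiff hLv.Y_sub]
        have h5 : ∑ v ∈ Y, (((dn F Y v).card : ℝ) - 1) = 0 := by
          refine sum_eq_zero fun v hv => ?_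
          rw [dn_self hLv.indep hv, card_singleton]
          simp
        rw [h5, add_zero]
      rw [← h4, sum_sub_distrib, sum_const, nsmul_eq_mul, mul_one]
      ring
    have h4 := h.c1 Y (mem_Ind.2 ⟨hLv.Y_sub, hLv.indep⟩) 0 (Nat.zero_le t) (by rw [hc, add_zero])
    rw [h.T0, add_zero] at h4
    have h5 : (P L : ℝ) ≤ (c Y : ℝ) + ((Y.biUnion M).card : ℝ) := by exact_mod_cast h4
    rw [Pe_of_le le_rfl] at hWc h1
    push_cast at h1
    linarith
  · have h1 : ∑ s ∈ univ.filter (fun s : V ≃ Fin n => gr F W s = Y),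
          RM F X (fun _ => 1) (fun j => (Pe P L j : ℝ)) s L ≤ 0 := by
      refine sum_nonpos fun s hs' => ?_
      by_contra hcon
      push Not at hcon
      exact hs ⟨s, (mem_filter.1 hs').2, hcon⟩
    have h2 : 0 ≤ (Pe P L 0 : ℝ) ^ (∑ i ∈ range (L + 1), (ν i - 1)) *
        ∏ i ∈ range L, (Pe P L i : ℝ) :=
      mul_nonneg (by positivity) (prod_nonneg fun _ _ => Nat.cast_nonneg _)
    exact (mul_nonpos_of_nonneg_of_nonpos h2 h1).trans (mul_nonneg hcard (CapT_nonneg c Y))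

/-- a maximal independent set with fewer elements does not occur -/
theorem Loc.card_ge (h : Loc F W L X P ν t T B M c) {n : ℕ} {s : V ≃ Fin n}
    (hs : gr F W s = Y) (hpos : 0 < RM F X (fun _ => 1) (fun j => (P j : ℝ)) s L) :
    ∑ j ∈ range (L + 1), ν j ≤ Y.card := by
  classical
  have hY : Y ∈ MIS F W := by
    rw [← hs]
    exact gr_mem_MIS
  have hLv := Lv_of h.Xmono h.XL hY
  have hcp := h.cp hLv.Y_sub
  have hP0 : 0 < P 0 := by have := h.q2; omega
  have hPp := Pe_pos h.Pmono hP0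
  have hPm := Pe_mono h.Pmono
  have hXc : ∀ j, j < L → ((X j).card : ℝ) = Rob.Ss (Pe P L) ν j - Pe P L j + 1 :=
    fun j hj => h.Ss hj.le
  have hRM : RM F X (fun _ => 1) (fun j => (P j : ℝ)) s L =
      RM F X (fun _ => 1) (fun j => (Pe P L j : ℝ)) s L :=
    RM_congr (fun j hj => by rw [Pe_of_le hj.le]) s
  rw [hRM] at hpos
  by_contra hcon
  push Not at hcon
  have hKl : Kl Y (levX X) (L + 1) = Y := by
    unfold Kl
    rw [filter_true_of_mem]
    intro k hk
    have := hcp.le k (hLv.Y_sub hk)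
    omega
  have hx : ∀ j, j < L → Nn ν j ≤ (Kl Y (levX X) (j + 1)).card := fun j hj =>
    (Tr_card hLv.X_eq hPp hPm hcp.lo hXc hpos j hj).trans (card_le_card (Tr_sub_Kl hLv hs j))
  -- the caps of `Y`
  have h1 := cap_sum (Pe P L) (levX X) L Y (fun k hk => hcp.le k (hLv.Y_sub hk))
  have h2 : ∑ i ∈ range L, (Nn ν i : ℝ) * ((Pe P L (i + 1) : ℝ) - Pe P L i) ≤
      ∑ i ∈ range L, ((Y.filter fun k => levX X k ≤ i).card : ℝ) *
        ((Pe P L (i + 1) : ℝ) - Pe P L i) := by
    refine sum_le_sum fun i hi => ?_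
    rw [mem_range] at hi
    have h3 : (0 : ℝ) ≤ (Pe P L (i + 1) : ℝ) - Pe P L i := by
      have : (Pe P L i : ℝ) ≤ Pe P L (i + 1) := by exact_mod_cast (hPm i).le
      linarith
    refine mul_le_mul_of_nonneg_right ?_ h3
    have h4 : Kl Y (levX X) (i + 1) = Y.filter fun k => levX X k ≤ i := by
      ext k
      rw [mem_Kl, mem_filter]
      constructor
      · rintro ⟨h5, h6⟩
        exact ⟨h5, by omega⟩
      · rintro ⟨h5, h6⟩
        exact ⟨h5, by omega⟩
    rw [← h4]
    exact_mod_cast hx i hi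
  have h3 := Ss_eq (Pe P L) ν L
  have h4 : ((Y.card : ℝ) + 1) * Pe P L L ≤ (Nn ν L : ℝ) * Pe P L L := by
    refine mul_le_mul_of_nonneg_right ?_ (Nat.cast_nonneg _)
    have : Y.card + 1 ≤ Nn ν L := hcon
    exact_mod_cast this
  have hWc : (W.card : ℝ) = Rob.Ss (Pe P L) ν L - Pe P L L + 1 := by
    rw [← h.Ss le_rfl, h.XL L le_rfl]
  -- `Y` dominates `W`
  have h5 : (W.card : ℝ) ≤ ∑ k ∈ Y, (Pe P L (levX X k) : ℝ) := by
    have h6 := h.col hLv.Y_sub
    have h7 : (W.card : ℝ) ≤ ∑ v ∈ W, ((dn F Y v).card : ℝ) := by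
      have h8 : ∑ v ∈ W, (1 : ℝ) ≤ ∑ v ∈ W, ((dn F Y v).card : ℝ) := by
        refine sum_le_sum fun v hv => ?_
        have := card_pos.2 (hLv.max v hv)
        exact_mod_cast this
      rw [sum_const, nsmul_eq_mul, mul_one] at h8
      exact h8
    have h8 : (0 : ℝ) ≤ ((Y.biUnion M).card : ℝ) := Nat.cast_nonneg _
    linarith
  linarith

end MP76b19e.Rob
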