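import Pool.Agent.Lib.MP76b19e.Rob.VStar
import Pool.Agent.Lib.MP76b19e.Rob.LocA
import Pool.Agent.Lib.MP76b19e.CoreL

/-!
# The last block of one level (problem MP_76b19e_co)

`last_block`: the inequality of the sets with `k + 1` elements for the last block of one level.
-/

set_option autoImplicit false

open Finset

namespace MP76b19e.Rob

section

variable {V : Type} [DecidableEq V]

/-- the greedy weights are the values of `Ival` -/
theorem Ival_gw (K : Finset V) (m α : Finset V → ℝ) (hα : ∀ R ⊆ K, α R = pal m (K \ R)) :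
    Ival m K = Pool.Agent.MP76b19e.gw α K.card K := by
  induction hc : K.card generalizing K m α with
  | zero =>
    rw [card_eq_zero] at hc
    rw [hc, Ival_empty]
    rfl
  | succ c ih =>
    rw [Ival_expand m K 1 (by omega), powersetCard_one, sum_map]
    change _ = ∑ u ∈ K, Pool.Agent.MP76b19e.gw α c (K.erase u) / α (K.erase u)
    refine sum_congr rfl fun u hu => ?_
    simp only [Function.Embedding.coeFn_mk]
    have h1 : Ival m {u} = 1 / pal m {u} := by
      rw [Ival_pal m (singleton_nonempty u), sum_singleton, erase_singleton, Ival_empty]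
    have h2 : K \ {u} = K.erase u := sdiff_singleton_eq_erase u K
    have h3 : α (K.erase u) = pal m {u} := by
      rw [hα _ (erase_subset _ _), sdiff_erase hu, Finset.sdiff_self, insert_empty_eq]
    have h4 := card_erase_of_mem hu
    rw [h2, h1, h3, ih (K.erase u) (push m {u}) α ?_ (by omega)]
    · ring
    · intro R hR
      have hRK := hR.trans (erase_subset _ _)
      have huR : u ∉ R := fun h => notMem_erase u K (hR h)
      rw [pal_push, hα R hRK]
      · congr 1
        ext v
        simp only [mem_union, mem_sdiff, mem_erase, mem_singleton]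
        constructor
        · rintro ⟨h5, h6⟩
          by_cases h7 : v = u
          · exact Or.inr h7
          · exact Or.inl ⟨⟨h7, h5⟩, h6⟩
        · rintro (⟨⟨_, h5⟩, h6⟩ | h5)
          · exact ⟨h5, h6⟩
          · rw [h5]
            exact ⟨hu, huR⟩
      · rw [disjoint_singleton_right, mem_sdiff, mem_erase]
        exact fun h => h.1.1 rfl

omit [DecidableEq V] in
theorem bcol_le {β : Type} {B Z : Finset β} {M : V → Finset β} {R : Finset V}
    (h : ∀ b ∈ B, (∀ a ∈ R, b ∉ M a) → b ∈ Z) : Pool.Agent.MP76b19e.bcol B M R ≤ Z.card := by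
  classical
  unfold Pool.Agent.MP76b19e.bcol
  refine card_le_card fun b hb => ?_
  rw [mem_filter] at hb
  exact h b hb.1 hb.2

end

section

variable {V β : Type} [DecidableEq V] [DecidableEq β] [Fintype V] {F : SimpleGraph V}
  {W Y T K S : Finset V} {B : Finset β} {M : V → Finset β} {c : Finset V → ℕ}
  {m : Finset V → ℝ} {q : ℕ}

omit [Fintype V] in
/-- the total mass of a subset of `Y` -/
theorem pal_mY {A : Finset V} (hA : A ⊆ Y) :
    pal (mY F W Y) A = ((Und F W (Y \ A)).card : ℝ) := by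
  have h := sum_mY (F := F) (W := W) (Y := Y) (K := Y \ A) sdiff_subset
  rw [Finset.sdiff_sdiff_eq_self hA] at h
  exact h

/-- the mass seen by `v` is at most its closed neighbourhood -/
theorem Und_le_insert (K : Finset V) (v : V) :
    (Und F W K).card ≤ (Und F W (insert v K)).card + (cn F v ∩ W).card := by
  refine (card_le_card ?_).trans (card_union_le _ _)
  intro u hu
  rw [mem_Und] at hu
  rw [mem_union, mem_Und, mem_inter, mem_cn]
  by_cases h : u = v ∨ F.Adj u v
  · exact Or.inr ⟨h, hu.1⟩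
  · left
    push Not at h
    refine ⟨hu.1, fun k hk => ?_⟩
    rcases mem_insert.1 hk with h1 | h1
    · rw [h1]
      exact h
    · exact hu.2 k h1

/-- the colours: every colour is missed by none, one or at least two elements -/
theorem two_le_col (hK : 2 ≤ K.card) (b : β) :
    2 ≤ (K.filter fun j => ∀ a ∈ K.erase j, b ∉ M a).card + (K.filter fun a => b ∈ M a).card := by
  rcases Nat.lt_or_ge (K.filter fun a => b ∈ M a).card 2 with h | h
  · rcases Nat.eq_zero_or_pos (K.filter fun a => b ∈ M a).card with h0 | h0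
    · rw [card_eq_zero, filter_eq_empty_iff] at h0
      have h1 : (K.filter fun j => ∀ a ∈ K.erase j, b ∉ M a) = K := by
        rw [filter_true_of_mem]
        intro j _ a ha
        exact h0 (mem_of_mem_erase ha)
      rw [h1]
      omega
    · obtain ⟨a, ha⟩ := card_eq_one.1 (show (K.filter fun a => b ∈ M a).card = 1 by omega)
      have h1 : a ∈ K.filter fun j => ∀ a ∈ K.erase j, b ∉ M a := by
        have haK : a ∈ K.filter fun a => b ∈ M a := by
          rw [ha]
          exact mem_singleton_self a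
        rw [mem_filter] at haK ⊢
        refine ⟨haK.1, fun x hx hb => ?_⟩
        have h2 : x ∈ K.filter fun a => b ∈ M a := mem_filter.2 ⟨mem_of_mem_erase hx, hb⟩
        rw [ha, mem_singleton] at h2
        exact (ne_of_mem_erase hx) h2
      have h2 := card_pos.2 ⟨a, h1⟩
      omega
  · omega

/-- the sum of the numbers of free colours -/
theorem sum_col (hK : 2 ≤ K.card) (hB : B.card = q) (hMB : ∀ v, M v ⊆ B)
    {c' : V → ℕ} (hc : ∀ j ∈ K, q ≤ c' j + ((T ∪ K.erase j).biUnion M).card) :
    2 * q ≤ ∑ j ∈ K, c' j + ∑ v ∈ K, (M v).card + 2 * ∑ v ∈ T, (M v).card := by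
  set B' := B \ T.biUnion M with hB'
  have h1 : ∀ j ∈ K, (B'.filter fun b => ∀ a ∈ K.erase j, b ∉ M a).card ≤ c' j := by
    intro j hj
    have h2 := hc j hj
    have h3 : (B'.filter fun b => ∀ a ∈ K.erase j, b ∉ M a) ⊆ B \ (T ∪ K.erase j).biUnion M := by
      intro b hb
      rw [mem_filter, hB', mem_sdiff] at hb
      rw [mem_sdiff]
      refine ⟨hb.1.1, fun h4 => ?_⟩
      obtain ⟨a, ha, hba⟩ := mem_biUnion.1 h4
      rcases mem_union.1 ha with h5 | h5
      · exact hb.1.2 (mem_biUnion.2 ⟨a, h5, hba⟩)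
      · exact hb.2 a h5 hba
    have h4 := card_le_card h3
    rw [card_sdiff_of_subset (biUnion_subset.2 fun v _ => hMB v), hB] at h4
    omega
  have h2 : ∑ j ∈ K, (B'.filter fun b => ∀ a ∈ K.erase j, b ∉ M a).card =
      ∑ b ∈ B', (K.filter fun j => ∀ a ∈ K.erase j, b ∉ M a).card := by
    simp only [card_filter]
    exact sum_comm
  have h3 : ∑ b ∈ B', 2 ≤ ∑ b ∈ B', ((K.filter fun j => ∀ a ∈ K.erase j, b ∉ M a).card +
      (K.filter fun a => b ∈ M a).card) := sum_le_sum fun b _ => two_le_col hK b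
  have h4 : ∑ b ∈ B', (K.filter fun a => b ∈ M a).card ≤ ∑ v ∈ K, (M v).card := by
    have h5 : ∑ b ∈ B', (K.filter fun a => b ∈ M a).card =
        ∑ a ∈ K, (B'.filter fun b => b ∈ M a).card := by
      simp only [card_filter]
      exact sum_comm
    rw [h5]
    refine sum_le_sum fun a _ => card_le_card fun b hb => (mem_filter.1 hb).2
  have h5 : B.card ≤ B'.card + ∑ v ∈ T, (M v).card := by
    have h6 : B.card ≤ B'.card + (T.biUnion M).card := by
      have h7 := card_sdiff_add_card B (T.biUnion M)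
      rw [← hB'] at h7
      rw [h7]
      exact card_le_card subset_union_left
    have h7 : (T.biUnion M).card ≤ ∑ v ∈ T, (M v).card := card_biUnion_le
    omega
  rw [sum_const, smul_eq_mul, sum_add_distrib] at h3
  have h6 := sum_le_sum h1
  omega

/-- the last block -/
theorem last_block (hind : ∀ x ∈ Y, ∀ y ∈ Y, ¬ F.Adj x y) (hYW : Y ⊆ W)
    (hpm : PosM m) (hm : ∀ D ⊆ Y \ T, m D = mY F W Y D) (hT : T ⊆ Y) (hK : K ⊆ Y \ T)
    (hS : S = (Y \ T) \ K) {r : ℕ} (hr : 1 ≤ r) (hKc : K.card = r + 1)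
    (hq : 2 ≤ q) (hcol : ∀ v ∈ W, v ∉ T → (cn F v ∩ W).card + (M v).card ≤ q)
    (hB : B.card = q) (hMB : ∀ v, M v ⊆ B)
    (hc1 : ∀ j ∈ K, q ≤ c (Y \ insert j S) + ((Y \ insert j S).biUnion M).card)
    (hc2 : 1 ≤ c (Y \ S))
    {Q1 D : ℝ} (hD : D ≤ Q1) (hQ1 : 0 < Q1) (hQ1q : Q1 ≤ q)
    (hQ : Q1 + ∑ v ∈ T, ((M v).card : ℝ) ≤ ((Und F W T).card : ℝ) - ((r : ℝ) - 1) * q) :
    D * (q : ℝ) ^ (r - 1) * Ival (push m S) K ≤
      (c (Y \ S) : ℝ) + ∑ u ∈ Y \ S, (c (Y \ insert u S) : ℝ) / pal (mY F W Y) (insert u S) := by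
  classical
  have hqp : (0 : ℝ) < q := by
    have : 0 < q := by omega
    exact_mod_cast this
  -- the sets
  have hdKS : Disjoint K S := by
    rw [hS]
    exact disjoint_sdiff_self_right
  have hKS : K ∪ S = Y \ T := by
    rw [hS, union_sdiff_of_subset hK]
  have hKY : K ⊆ Y := hK.trans sdiff_subset
  have hdTK : Disjoint T K := (disjoint_sdiff_self_right : Disjoint T (Y \ T)).mono_right hK
  have hSYT : S ⊆ Y \ T := by
    rw [← hKS]
    exact subset_union_right
  have hcompl : ∀ A ⊆ K, Y \ (A ∪ S) = T ∪ (K \ A) := by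
    intro A hA
    ext v
    rw [mem_sdiff, mem_union, mem_union, mem_sdiff]
    constructor
    · rintro ⟨h1, h2⟩
      push Not at h2
      by_cases h3 : v ∈ T
      · exact Or.inl h3
      · right
        have h4 : v ∈ K ∪ S := by
          rw [hKS]
          exact mem_sdiff.2 ⟨h1, h3⟩
        rcases mem_union.1 h4 with h5 | h5
        · exact ⟨h5, h2.1⟩
        · exact absurd h5 h2.2
    · rintro (h1 | ⟨h1, h2⟩)
      · refine ⟨hT h1, ?_⟩
        rintro (h3 | h3)
        · exact (disjoint_left.1 hdTK h1) (hA h3)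
        · exact (mem_sdiff.1 (hSYT h3)).2 h1
      · refine ⟨hKY h1, ?_⟩
        rintro (h3 | h3)
        · exact h2 h3
        · exact (disjoint_left.1 hdKS h1) h3
  have hpal : ∀ A ⊆ K, pal (push m S) A = ((Und F W (T ∪ (K \ A))).card : ℝ) := by
    intro A hA
    rw [pal_push (hdKS.mono_left hA), ← hcompl A hA]
    have hAS : A ∪ S ⊆ Y \ T := by
      rw [← hKS]
      exact union_subset_union_left hA
    rw [← pal_mY (F := F) (W := W) (hAS.trans sdiff_subset)]
    unfold pal
    exact sum_congr rfl fun D hD => hm D ((mem_powerset.1 hD).trans hAS)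
  have hU : pal (push m S) K = ((Und F W T).card : ℝ) := by
    rw [hpal K Subset.rfl, Finset.sdiff_self, union_empty]
  have hpa : ∀ v ∈ K, pa (push m S) K v ≤ ((cn F v ∩ W).card : ℝ) := by
    intro v hv
    have h1 := pal_erase (m := push m S) (K := K) v
    rw [hU, hpal _ (erase_subset _ _), sdiff_erase hv, Finset.sdiff_self, insert_empty_eq,
      union_singleton] at h1
    have h2 := Und_le_insert (F := F) (W := W) T v
    have h3 : ((Und F W T).card : ℝ) ≤ (Und F W (insert v T)).card + (cn F v ∩ W).card := by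
      exact_mod_cast h2
    linarith
  have hMv : ∀ v ∈ K, ((M v).card : ℝ) ≤ q - pa (push m S) K v := by
    intro v hv
    have h1 := hcol v (hYW (hKY hv)) (disjoint_right.1 hdTK hv)
    have h2 : ((cn F v ∩ W).card : ℝ) + (M v).card ≤ q := by exact_mod_cast h1
    have := hpa v hv
    linarith
  have hden : ∀ u ∈ K, pal (mY F W Y) (insert u S) = pal (push m S) {u} := by
    intro u hu
    rw [hpal {u} (singleton_subset_iff.2 hu), ← hcompl {u} (singleton_subset_iff.2 hu),
      ← pal_mY (F := F) (W := W)]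
    · rw [← insert_eq]
    · rw [← insert_eq]
      exact insert_subset (hKY hu) (hSYT.trans sdiff_subset)
  have hsing : ∀ u, pal (push m S) {u} = push m S {u} + push m S ∅ := by
    intro u
    unfold pal
    rw [show ({u} : Finset V).powerset = {∅, {u}} from rfl, sum_pair (singleton_ne_empty u).symm,
      add_comm]
  -- the numbers of colours
  have hYj : ∀ j ∈ K, Y \ insert j S = T ∪ K.erase j := by
    intro j hj
    rw [insert_eq, hcompl {j} (singleton_subset_iff.2 hj), sdiff_singleton_eq_erase]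
  have hc1' : ∀ j ∈ K, q ≤ c (Y \ insert j S) + ((T ∪ K.erase j).biUnion M).card := by
    intro j hj
    rw [← hYj j hj]
    exact hc1 j hj
  -- the right side
  have hKsub : K ⊆ Y \ S := by
    intro v hv
    exact mem_sdiff.2 ⟨hKY hv, disjoint_left.1 hdKS hv⟩
  have hR : 1 + ∑ u ∈ K, (c (Y \ insert u S) : ℝ) / pal (push m S) {u} ≤
      (c (Y \ S) : ℝ) + ∑ u ∈ Y \ S, (c (Y \ insert u S) : ℝ) / pal (mY F W Y) (insert u S) := by
    have h1 : (1 : ℝ) ≤ (c (Y \ S) : ℝ) := by exact_mod_cast hc2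
    have h2 : ∑ u ∈ K, (c (Y \ insert u S) : ℝ) / pal (push m S) {u} ≤
        ∑ u ∈ Y \ S, (c (Y \ insert u S) : ℝ) / pal (mY F W Y) (insert u S) := by
      have h3 : ∑ u ∈ K, (c (Y \ insert u S) : ℝ) / pal (push m S) {u} =
          ∑ u ∈ K, (c (Y \ insert u S) : ℝ) / pal (mY F W Y) (insert u S) :=
        sum_congr rfl fun u hu => by rw [hden u hu]
      rw [h3]
      refine sum_le_sum_of_subset_of_nonneg hKsub fun u _ _ => ?_
      exact div_nonneg (Nat.cast_nonneg _) (sum_nonneg fun D _ => mY_nonneg Y D)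
    linarith
  refine le_trans ?_ hR
  have hpm' : PosM (push m S) := hpm.push S
  have hI0 : 0 ≤ Ival (push m S) K := (Ival_pos hpm' K).le
  have hpw : (0 : ℝ) < (q : ℝ) ^ (r - 1) := pow_pos hqp _
  have hSig0 : 0 ≤ ∑ u ∈ K, (c (Y \ insert u S) : ℝ) / pal (push m S) {u} := by
    refine sum_nonneg fun u _ => div_nonneg (Nat.cast_nonneg _) ?_
    exact sum_nonneg fun D _ => hpm'.1 D
  have hr1 : ((r - 1 : ℕ) : ℝ) = (r : ℝ) - 1 := by
    rw [Nat.cast_sub hr]
    simp
  have hTM0 : 0 ≤ ∑ v ∈ T, ((M v).card : ℝ) := sum_nonneg fun _ _ => Nat.cast_nonneg _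
  rcases Nat.lt_or_ge (Und F W T).card ((r - 1) * q + 2) with hlt | hge
  · -- `Q0 = 1`
    have hA : (Und F W T).card = (r - 1) * q + 1 := by
      have h1 : (0 : ℝ) < ((Und F W T).card : ℝ) - ((r : ℝ) - 1) * q := by linarith
      have h2 : (((r - 1) * q : ℕ) : ℝ) < ((Und F W T).card : ℝ) := by
        push_cast
        rw [hr1]
        linarith
      have h3 : (r - 1) * q < (Und F W T).card := by exact_mod_cast h2
      omega
    have hA' : ((Und F W T).card : ℝ) - ((r : ℝ) - 1) * q = 1 := by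
      rw [hA]
      push_cast
      rw [hr1]
      ring
    rw [hA'] at hQ
    have hM0 : ∀ v ∈ T, M v = ∅ := by
      have h1 : ∑ v ∈ T, (M v).card = 0 := by
        have h2 : ((∑ v ∈ T, (M v).card : ℕ) : ℝ) < 1 := by
          push_cast
          linarith
        have h3 : ∑ v ∈ T, (M v).card < 1 := by exact_mod_cast h2
        omega
      intro v hv
      rw [← card_eq_zero]
      exact (sum_eq_zero_iff.1 h1) v hv
    set A := Und F W T with hAdef
    have hcnA : ∀ v, Pool.Agent.MP76b19e.cn Fᶜ A v ⊆ cn F v ∩ W := by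
      intro v u hu
      rw [Pool.Agent.MP76b19e.mem_cn, SimpleGraph.compl_adj, hAdef, mem_Und] at hu
      rw [mem_inter, mem_cn]
      refine ⟨?_, hu.1.1⟩
      by_contra h1
      push Not at h1
      exact hu.2 ⟨fun h2 => h1.1 h2.symm, fun h2 => h1.2 h2.symm⟩
    have hex : ∀ v, ∃ N : Finset β, v ∈ A → M v ⊆ N ∧ N ⊆ B ∧
        (Pool.Agent.MP76b19e.cn Fᶜ A v).card + N.card = q := by
      intro v
      by_cases hv : v ∈ A
      · have h1 : v ∈ W ∧ v ∉ T := by
          rw [hAdef, mem_Und] at hv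
          exact ⟨hv.1, fun h2 => (hv.2 v h2).1 rfl⟩
        have h2 := hcol v h1.1 h1.2
        have h3 := card_le_card (hcnA v)
        obtain ⟨N, h4, h5, h6⟩ := exists_subsuperset_card_eq (hMB v)
          (show (M v).card ≤ q - (Pool.Agent.MP76b19e.cn Fᶜ A v).card by omega)
          (show q - (Pool.Agent.MP76b19e.cn Fᶜ A v).card ≤ B.card by omega)
        exact ⟨N, fun _ => ⟨h4, h5, by omega⟩⟩
      · exact ⟨∅, fun h => absurd h hv⟩
    choose M' hM' using hex
    have hset : Pool.Agent.MP76b19e.Setting Fᶜ A B M' q r :=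
      ⟨hq, hr, hA, hB, fun a ha => (hM' a ha).2.1, fun a ha => (hM' a ha).2.2⟩
    have hKA : K ∈ Pool.Agent.MP76b19e.K Fᶜ A (r + 1) := by
      rw [Pool.Agent.MP76b19e.mem_K]
      refine ⟨fun v hv => ?_, hKc, ?_⟩
      · rw [hAdef, mem_Und]
        refine ⟨hYW (hKY hv), fun k hk => ⟨?_, hind v (hKY hv) k (hT hk)⟩⟩
        rintro rfl
        exact disjoint_left.1 hdTK hk hv
      · intro x hx y hy hxy
        rw [SimpleGraph.compl_adj]
        exact ⟨hxy, hind x (hKY hx) y (hKY hy)⟩
    have hl1 := hset.local1 hKA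
    have hal : ∀ R ⊆ K, Pool.Agent.MP76b19e.al Fᶜ A R = pal (push m S) (K \ R) := by
      intro R hR
      rw [hpal _ sdiff_subset, Finset.sdiff_sdiff_eq_self hR]
      unfold Pool.Agent.MP76b19e.al
      congr 2
      ext v
      rw [Pool.Agent.MP76b19e.mem_cnb, hAdef, mem_Und, mem_Und]
      constructor
      · rintro ⟨⟨h1, h2⟩, h3⟩
        refine ⟨h1, fun k hk => ?_⟩
        rcases mem_union.1 hk with h4 | h4
        · exact h2 k h4
        · have h5 := h3 k h4
          rw [SimpleGraph.compl_adj] at h5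
          exact ⟨fun h6 => h5.1 h6.symm, fun h6 => h5.2 h6.symm⟩
      · rintro ⟨h1, h2⟩
        refine ⟨⟨h1, fun k hk => h2 k (mem_union_left _ hk)⟩, fun k hk => ?_⟩
        have h3 := h2 k (mem_union_right _ hk)
        rw [SimpleGraph.compl_adj]
        exact ⟨fun h6 => h3.1 h6.symm, fun h6 => h3.2 h6.symm⟩
    have hgw := Ival_gw K (push m S) (Pool.Agent.MP76b19e.al Fᶜ A) hal
    rw [hKc] at hgw
    rw [← hgw] at hl1
    have hb : ∀ u ∈ K, (Pool.Agent.MP76b19e.bcol B M' (K.erase u) : ℝ) ≤
        (c (Y \ insert u S) : ℝ) := by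
      intro u hu
      have h1 := hc1' u hu
      have h2 : Pool.Agent.MP76b19e.bcol B M' (K.erase u) ≤
          (B \ (T ∪ K.erase u).biUnion M).card := by
        refine bcol_le fun b hbB hbR => mem_sdiff.2 ⟨hbB, fun h3 => ?_⟩
        obtain ⟨a, ha, hba⟩ := mem_biUnion.1 h3
        rcases mem_union.1 ha with h4 | h4
        · rw [hM0 a h4] at hba
          exact absurd hba (notMem_empty b)
        · have haA : a ∈ A := (Pool.Agent.MP76b19e.mem_K.1 hKA).1 (mem_of_mem_erase h4)
          exact hbR a h4 ((hM' a haA).1 hba)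
      rw [card_sdiff_of_subset (biUnion_subset.2 fun v _ => hMB v), hB] at h2
      have h3 : Pool.Agent.MP76b19e.bcol B M' (K.erase u) ≤ c (Y \ insert u S) := by omega
      exact_mod_cast h3
    have hsum : ∑ u ∈ K, (Pool.Agent.MP76b19e.bcol B M' (K.erase u) : ℝ) /
        Pool.Agent.MP76b19e.al Fᶜ A (K.erase u) ≤
        ∑ u ∈ K, (c (Y \ insert u S) : ℝ) / pal (push m S) {u} := by
      refine sum_le_sum fun u hu => ?_
      rw [hal _ (erase_subset _ _), sdiff_erase hu, Finset.sdiff_self, insert_empty_eq]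
      exact div_le_div_of_nonneg_right (hb u hu) (sum_nonneg fun D _ => hpm'.1 D)
    have hD1 : D ≤ 1 := by linarith
    calc D * (q : ℝ) ^ (r - 1) * Ival (push m S) K
        = D * ((q : ℝ) ^ (r - 1) * Ival (push m S) K) := by ring
      _ ≤ 1 * ((q : ℝ) ^ (r - 1) * Ival (push m S) K) :=
          mul_le_mul_of_nonneg_right hD1 (mul_nonneg hpw.le hI0)
      _ ≤ _ := by
          rw [one_mul]
          exact hl1.trans (by linarith)
  · -- `Q0 ≥ 2`
    have hQ0 : 2 ≤ ((Und F W T).card : ℝ) - ((r : ℝ) - 1) * q := by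
      have h1 : (((r - 1) * q + 2 : ℕ) : ℝ) ≤ ((Und F W T).card : ℝ) := by exact_mod_cast hge
      push_cast at h1
      rw [hr1] at h1
      linarith
    set Q0 := ((Und F W T).card : ℝ) - ((r : ℝ) - 1) * q with hQ0def
    have hK2 : (K.card : ℝ) - 2 = (r : ℝ) - 1 := by
      rw [hKc]
      push_cast
      ring
    have hKr : K.card - 2 = r - 1 := by omega
    have hQ0e : pal (push m S) K - ((K.card : ℝ) - 2) * (q : ℝ) = Q0 := by
      rw [hU, hK2]
    have hspa := sum_pa (m := push m S) (K := K)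
    -- the lower bound for every element
    have hb1 : ∀ j ∈ K, Q1 + pom (push m S) K j - (push m S {j} + push m S ∅) ≤
        (c (Y \ insert j S) : ℝ) := by
      intro j hj
      have h1 := hc1' j hj
      have h2 : ((T ∪ K.erase j).biUnion M).card ≤
          ∑ v ∈ T, (M v).card + ∑ v ∈ K.erase j, (M v).card := by
        refine card_biUnion_le.trans (le_of_eq ?_)
        exact sum_union (hdTK.mono_right (erase_subset _ _))
      have h3 : (q : ℝ) ≤ (c (Y \ insert j S) : ℝ) + (∑ v ∈ T, ((M v).card : ℝ) +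
          ∑ v ∈ K.erase j, ((M v).card : ℝ)) := by
        have h4 : q ≤ c (Y \ insert j S) + (∑ v ∈ T, (M v).card +
          ∑ v ∈ K.erase j, (M v).card) := by omega
        exact_mod_cast h4
      have h4 : ∑ v ∈ K.erase j, ((M v).card : ℝ) ≤
          ∑ v ∈ K.erase j, ((q : ℝ) - pa (push m S) K v) :=
        sum_le_sum fun v hv => hMv v (mem_of_mem_erase hv)
      have h5 : ∑ v ∈ K.erase j, ((q : ℝ) - pa (push m S) K v) =
          (K.card : ℝ) * q - (pal (push m S) K - push m S ∅ + po (push m S) K) -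
            ((q : ℝ) - pa (push m S) K j) := by
        have h6 := sum_erase_add K (fun v => (q : ℝ) - pa (push m S) K v) hj
        have h7 : ∑ v ∈ K, ((q : ℝ) - pa (push m S) K v) =
            (K.card : ℝ) * q - (pal (push m S) K - push m S ∅ + po (push m S) K) := by
          rw [sum_sub_distrib, sum_const, nsmul_eq_mul, hspa]
        linarith
      have h6 := pa_add_pom (m := push m S) hj
      have h7 : (K.card : ℝ) * q = ((K.card : ℝ) - 2) * q + 2 * q := by ring
      rw [h5, h7] at h4
      linarith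
    have hb2 : 2 * Q1 - Q0 - (push m S ∅ - po (push m S) K) ≤
        ∑ j ∈ K, (c (Y \ insert j S) : ℝ) := by
      have h1 := sum_col (T := T) (K := K) (M := M) (by omega) hB hMB
        (c' := fun j => c (Y \ insert j S)) hc1'
      have h2 : 2 * (q : ℝ) ≤ ∑ j ∈ K, (c (Y \ insert j S) : ℝ) + ∑ v ∈ K, ((M v).card : ℝ) +
          2 * ∑ v ∈ T, ((M v).card : ℝ) := by exact_mod_cast h1
      have h3 : ∑ v ∈ K, ((M v).card : ℝ) ≤ ∑ v ∈ K, ((q : ℝ) - pa (push m S) K v) :=
        sum_le_sum fun v hv => hMv v hv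
      rw [sum_sub_distrib, sum_const, nsmul_eq_mul, hspa] at h3
      have h7 : (K.card : ℝ) * q = ((K.card : ℝ) - 2) * q + 2 * q := by ring
      rw [h7] at h3
      linarith
    have hv := vstar (b := fun j => (c (Y \ insert j S) : ℝ)) hpm' (by omega) hqp
      (fun k hk => (by
        have h1 := hMv k hk
        have h2 : (0 : ℝ) ≤ ((M k).card : ℝ) := Nat.cast_nonneg _
        linarith : pa (push m S) K k ≤ q)) (by rw [hQ0e]; linarith) hQ1q hQ1 hb1
      (by rw [hQ0e]; exact hb2)
    rw [hQ0e, hKr] at hv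
    have hSe : ∑ j ∈ K, (c (Y \ insert j S) : ℝ) / (push m S {j} + push m S ∅) =
        ∑ u ∈ K, (c (Y \ insert u S) : ℝ) / pal (push m S) {u} :=
      sum_congr rfl fun u _ => by rw [hsing u]
    rw [hSe] at hv
    set Sg := ∑ u ∈ K, (c (Y \ insert u S) : ℝ) / pal (push m S) {u} with hSg
    set I := (q : ℝ) ^ (r - 1) * Ival (push m S) K with hI
    have hI0' : 0 ≤ I := mul_nonneg hpw.le hI0
    have h1 : D * I ≤ Q1 * I := mul_le_mul_of_nonneg_right hD hI0'
    have h2 : 2 * (Q1 * I) ≤ Q0 * (Q1 * I) :=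
      mul_le_mul_of_nonneg_right hQ0 (mul_nonneg hQ1.le hI0')
    have h3 : Q1 * Q0 * I = Q0 * (Q1 * I) := by ring
    rw [h3] at hv
    have h4 : D * (q : ℝ) ^ (r - 1) * Ival (push m S) K = D * I := by
      rw [hI]
      ring
    rw [h4]
    linarith

end

end MP76b19e.Rob
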