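import Pool.Agent.Lib.MP76b19e.Rob.ExactD
import Pool.Agent.Lib.MP76b19e.Rob.Zero
import Pool.Agent.Lib.MP76b19e.Rob.Lin

/-!
# The inequality for the sets with `∑ ν j + 1` elements, two levels (problem MP_76b19e_co)

`KS`: the data of a set `K` with `ν 0 + ν 1 + 1` elements, tops `T`, caps `p` and `p + h`, base
`m ∅`. `KSt`: the inequality for all such sets. `mixed_ks`: it gives the local inequality for two
levels and at least two surplus low elements.
-/

set_option autoImplicit false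

open Finset

namespace MP76b19e.Rob

/-- the data of a set `K` of `ν 0 + ν 1 + 1` elements, `ν = ν 1`, the tops `T`, the number of
surplus lows is `ν + 1 - T.card` -/
structure KS {V : Type} [DecidableEq V] (K T : Finset V) (m : Finset V → ℝ) (b : V → ℝ)
    (p h ν : ℕ) : Prop where
  p2 : 2 ≤ p
  h1 : 1 ≤ h
  ν1 : 1 ≤ ν
  TK : T ⊆ K
  pos : PosM m
  int : ∀ D, ∃ k : ℕ, m D = k
  one : ∀ j ∈ K, 1 ≤ m {j}
  bint : ∀ j, ∃ k : ℕ, b j = k
  paL : ∀ j ∈ K, j ∉ T → pa m K j ≤ p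
  paT : ∀ j ∈ T, pa m K j ≤ (p : ℝ) + h
  Kc : ν + 2 ≤ K.card
  palK : pal m K = ((K.card : ℝ) - 2) * p + ((ν : ℝ) - 1) * h + 1
  base : (T.card : ℝ) + 1 ≤ ν + m ∅
  bL : ∀ j ∈ K, j ∉ T → 1 + ((ν : ℝ) - T.card) * h + pom m K j - (m {j} + m ∅) ≤ b j
  bT : ∀ j ∈ T, 1 + ((ν : ℝ) - T.card + 1) * h + pom m K j - (m {j} + m ∅) ≤ b j
  bsum : 1 + ((ν : ℝ) + 1 - T.card) * h + po m K - m ∅ ≤ ∑ j ∈ K, b j
  /-- the elements of `Z` miss no colour -/
  bsumZ : ∀ Z ⊆ K, 2 ≤ (K \ Z).card → (∀ v ∈ Z, v ∉ T → pa m K v = p) →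
    (∀ v ∈ Z, v ∈ T → pa m K v = (p : ℝ) + h) →
    1 + ((ν : ℝ) + 1 - T.card) * h + po m K - m ∅ ≤ ∑ j ∈ K \ Z, b j

/-- the inequality for all sets `K` -/
def KSt (p h ν : ℕ) (κ : ℝ) : Prop :=
  ∀ (V : Type) (_ : DecidableEq V) (K T : Finset V) (m : Finset V → ℝ) (b : V → ℝ),
    KS K T m b p h ν →
    0 < ((ν : ℝ) * p + ((ν : ℝ) - 1) * h + 1) * Ival m K - ∑ t ∈ T, Ival m (K.erase t) →
    (p : ℝ) ^ (K.card - 3) *
        (((ν : ℝ) * p + ((ν : ℝ) - 1) * h + 1) * Ival m K - ∑ t ∈ T, Ival m (K.erase t)) ≤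
      κ * (1 + ∑ j ∈ K, b j / (m {j} + m ∅))

section

variable {V : Type} [DecidableEq V]

/-- the linear functional in terms of the tops -/
theorem VL_eq_tops {m : Finset V → ℝ} (hm : PosM m) {K L : Finset V} (hK : K.Nonempty)
    (g p z : ℝ) :
    VL m K L g p z = (pal m K - ((((K ∩ L).card : ℝ) - g) * p + z)) * Ival m K -
      ∑ t ∈ K \ L, Ival m (K.erase t) := by
  have h1 : pal m K * Ival m K = ∑ u ∈ K, Ival m (K.erase u) := sum_mul_Ival hm hK
  have h2 : ∑ u ∈ K, Ival m (K.erase u) = ∑ u ∈ K ∩ L, Ival m (K.erase u) +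
      ∑ t ∈ K \ L, Ival m (K.erase t) := by
    rw [← sum_union (disjoint_sdiff_inter K L).symm, union_comm, sdiff_union_inter]
  unfold VL
  rw [h2] at h1
  linear_combination (-1 : ℝ) * h1

theorem VL_congr {m m' : Finset V → ℝ} {K L : Finset V} (h : ∀ D ⊆ K, m D = m' D) (g p z : ℝ) :
    VL m K L g p z = VL m' K L g p z := by
  unfold VL
  rw [Ival_congr h]
  congr 1
  exact sum_congr rfl fun u _ => Ival_congr fun D hD => h D (hD.trans (erase_subset _ _))

end

section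

variable {V β : Type} [Fintype V] [DecidableEq V] [DecidableEq β] {F : SimpleGraph V}
  {W Y : Finset V} {X : ℕ → Finset V} {P ν : ℕ → ℕ} {T : ℕ → ℕ} {B : Finset β}
  {M : V → Finset β} {c : Finset V → ℕ}

/-- the data of the set `Y \ R` -/
theorem Loc.ks (h : Loc F W 1 X P ν 0 T B M c) (hY : Y ∈ MIS F W) {d e : ℕ}
    (hc : Y.card = ν 0 + ν 1 + (d + 1)) (he : 2 ≤ e) {Lo : Finset V}
    (hLo : ∀ v ∈ Y, (v ∈ Lo ↔ levX X v = 0)) (hLc : (Y ∩ Lo).card = ν 0 + e)
    {R : Finset V} (hR : R ⊆ Y) (hRc : R.card = d) {m : Finset V → ℝ} (hm : PosM m)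
    (hmY : ∀ D ⊆ Y, m D = mY F W Y D) (hint : ∀ D, ∃ k : ℕ, m D = k) :
    KS (Y \ R) ((Y \ R) \ Lo) (push m R) (fun j => (c (Y \ insert j R) : ℝ)) (P 0) (P 1 - P 0)
      (ν 1) ∧ 1 + ∑ j ∈ Y \ R, (c (Y \ insert j R) : ℝ) / (push m R {j} + push m R ∅) ≤
        SK F W Y c R ∧
      (((Y \ R) \ Lo).card : ℝ) = (ν 1 : ℝ) + 1 - (e - (R ∩ Lo).card) ∧
      (((Y \ R) ∩ Lo).card : ℝ) = (ν 0 : ℝ) + (e - (R ∩ Lo).card) ∧
      (Y \ R).card = ν 0 + ν 1 + 1 := by
  classical
  have hLv := Lv_of h.Xmono h.XL hY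
  have hYW := hLv.Y_sub
  have hW : ∀ v ∈ W, v ∈ X 1 := fun v hv => by rw [h.XL 1 le_rfl]; exact hv
  have hP01 : P 0 < P 1 := h.Pmono 0 (by omega)
  have hh : ((P 1 - P 0 : ℕ) : ℝ) = (P 1 : ℝ) - P 0 := by
    rw [Nat.cast_sub hP01.le]
  set K := Y \ R with hK
  set T' := K \ Lo with hT'
  set μ := push m R with hμ
  have hpm : PosM μ := hm.push R
  have hKY : K ⊆ Y := sdiff_subset
  have hKR : Disjoint K R := sdiff_disjoint
  have hKc : K.card = ν 0 + ν 1 + 1 := by
    rw [hK, card_sdiff_of_subset hR, hRc, hc]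
    omega
  -- the numbers of lows and tops
  have hRL : (R ∩ Lo).card ≤ d := by
    rw [← hRc]
    exact card_le_card inter_subset_left
  have hRL' : (R ∩ Lo).card ≤ ν 0 + e := by
    rw [← hLc]
    exact card_le_card (inter_subset_inter_right hR)
  have hKL : (K ∩ Lo).card + (R ∩ Lo).card = ν 0 + e := by
    have h1 : K ∩ Lo = (Y ∩ Lo) \ (R ∩ Lo) := by
      ext v
      simp only [hK, mem_inter, mem_sdiff]
      tauto
    rw [h1, card_sdiff_of_subset (inter_subset_inter_right hR), hLc]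
    omega
  have hKT : (K ∩ Lo).card + T'.card = K.card := by
    rw [hT', add_comm]
    exact card_sdiff_add_card_inter K Lo
  have hKLr : ((K ∩ Lo).card : ℝ) = (ν 0 : ℝ) + (e - (R ∩ Lo).card) := by
    have h1 : ((K ∩ Lo).card : ℝ) + (R ∩ Lo).card = (ν 0 : ℝ) + e := by exact_mod_cast hKL
    linarith
  have hTr : (T'.card : ℝ) = (ν 1 : ℝ) + 1 - (e - (R ∩ Lo).card) := by
    have h1 : ((K ∩ Lo).card : ℝ) + T'.card = (ν 0 : ℝ) + ν 1 + 1 := by
      rw [← Nat.cast_add, hKT, hKc]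
      push_cast
      ring
    linarith
  -- the total masses
  have hpalY : ∀ A ⊆ Y, pal m A = ((Und F W (Y \ A)).card : ℝ) := by
    intro A hA
    rw [← pal_mY (F := F) (W := W) hA]
    unfold pal
    exact sum_congr rfl fun D hD => hmY D ((mem_powerset.1 hD).trans hA)
  have hpal : ∀ A ⊆ K, pal μ A = ((Und F W (Y \ (A ∪ R))).card : ℝ) := by
    intro A hA
    have h1 : Disjoint A R := hKR.mono_left hA
    rw [hμ, pal_push h1, hpalY _ (union_subset (hA.trans hKY) hR)]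
  have hUW : Und F W ∅ = W := by
    ext v
    rw [mem_Und]
    exact ⟨fun h1 => h1.1, fun h1 => ⟨h1, fun k hk => absurd hk (notMem_empty k)⟩⟩
  have hpalK : pal μ K = (W.card : ℝ) := by
    rw [hpal K Subset.rfl, hK, sdiff_union_of_subset hR, Finset.sdiff_self, hUW]
  have hWc : (W.card : ℝ) = (ν 0 : ℝ) * P 0 + ((ν 1 : ℝ) - 1) * P 1 + 1 := by
    have h1 := h.Xcard 1 le_rfl
    rw [h.XL 1 le_rfl, sum_range_succ, sum_range_succ, sum_range_zero, zero_add] at h1
    have h2 : (W.card : ℝ) + P 1 = (ν 0 : ℝ) * P 0 + ν 1 * P 1 + 1 := by exact_mod_cast h1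
    linarith
  -- the masses seen by an element
  have hpa : ∀ v ∈ K, pa μ K v + ((M v).card : ℝ) ≤ P (levX X v) := by
    intro v hv
    have hvY := hKY hv
    have h2 := levX_spec (hW v (hYW hvY))
    have h3 := h.colW _ h2.2.1 v h2.1 h2.2.2 (cn F v ∩ W) (fun u => by
      rw [mem_inter, mem_cn]
      exact and_comm)
    have h4 : pa μ K v = pal μ K - pal μ (K.erase v) := by
      rw [pal_erase]
      ring
    rw [hpal K Subset.rfl, hpal _ (erase_subset _ _)] at h4
    have h5 : Y \ (K ∪ R) = ∅ := by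
      rw [hK, sdiff_union_of_subset hR, Finset.sdiff_self]
    have h6 : Y \ (K.erase v ∪ R) = insert v ∅ := by
      ext w
      have hvR : v ∉ R := fun h7 => disjoint_left.1 hKR hv h7
      simp only [mem_sdiff, mem_union, mem_erase, hK, insert_empty_eq, mem_singleton]
      constructor
      · rintro ⟨h7, h8⟩
        by_contra h9
        apply h8
        by_cases h10 : w ∈ R
        · exact Or.inr h10
        · exact Or.inl ⟨h9, h7, h10⟩
      · rintro rfl
        exact ⟨hvY, fun h7 => h7.elim (fun h8 => h8.1 rfl) hvR⟩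
    rw [h5, h6] at h4
    have h7 := Und_le_insert (F := F) (W := W) ∅ v
    have h8 : ((Und F W ∅).card : ℝ) ≤ (Und F W (insert v ∅)).card + (cn F v ∩ W).card := by
      exact_mod_cast h7
    have h9 : ((cn F v ∩ W).card : ℝ) + (M v).card ≤ P (levX X v) := by exact_mod_cast h3
    linarith
  have hlev : ∀ v ∈ K, v ∉ T' → levX X v = 0 := by
    intro v hv hvT
    rw [hT', mem_sdiff] at hvT
    push Not at hvT
    exact (hLo v (hKY hv)).1 (hvT hv)
  have hlevT : ∀ v ∈ T', levX X v = 1 := by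
    intro v hv
    rw [hT', mem_sdiff] at hv
    have h1 : levX X v ≠ 0 := fun h2 => hv.2 ((hLo v (hKY hv.1)).2 h2)
    have h2 := (levX_spec (hW v (hYW (hKY hv.1)))).2.1
    omega
  have hMv : ∀ v ∈ K, ((M v).card : ℝ) ≤ (P (levX X v) : ℝ) - pa μ K v := fun v hv => by
    have := hpa v hv
    linarith
  have hsumP : ∑ v ∈ K, (P (levX X v) : ℝ) = (K.card : ℝ) * P 0 + (T'.card : ℝ) * (P 1 - P 0) := by
    have h1 : ∑ v ∈ K, (P (levX X v) : ℝ) =
        ∑ v ∈ K, ((P 0 : ℝ) + if v ∈ T' then ((P 1 : ℝ) - P 0) else 0) := by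
      refine sum_congr rfl fun v hv => ?_
      by_cases h2 : v ∈ T'
      · rw [hlevT v h2, if_pos h2]
        ring
      · rw [hlev v hv h2, if_neg h2, add_zero]
    have hTK : T' ⊆ K := sdiff_subset
    rw [h1, sum_add_distrib, sum_const, nsmul_eq_mul, ← sum_filter, filter_mem_eq_inter,
      inter_eq_right.2 hTK, sum_const, nsmul_eq_mul]
  have hspa := sum_pa (m := μ) (K := K)
  have hsumM : ∑ v ∈ K, ((P (levX X v) : ℝ) - pa μ K v) =
      (K.card : ℝ) * P 0 + (T'.card : ℝ) * (P 1 - P 0) - (pal μ K - μ ∅ + po μ K) := by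
    rw [sum_sub_distrib, hsumP, hspa]
  have hKcr : (K.card : ℝ) = (ν 0 : ℝ) + ν 1 + 1 := by
    rw [hKc]
    push_cast
    ring
  have hind : ∀ K ⊆ Y, K ∈ Ind F W := fun K hK =>
    mem_Ind.2 ⟨hK.trans hLv.Y_sub, fun x hx y hy => hLv.indep x (hK hx) y (hK hy)⟩
  have hB : B.card = P 1 := by rw [h.Bcard, h.T0, add_zero]
  have hsumν : ∑ j ∈ range 2, ν j = ν 0 + ν 1 := by
    rw [sum_range_succ, sum_range_succ, sum_range_zero, zero_add]
  have hins : ∀ j ∈ K, Y \ insert j R = K.erase j := by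
    intro j _
    ext v
    simp only [hK, mem_sdiff, mem_insert, mem_erase]
    tauto
  have hc1 : ∀ j ∈ K, P 1 ≤ c (Y \ insert j R) + ((K.erase j).biUnion M).card := by
    intro j hj
    have h1 := h.c1 (K.erase j) (hind _ ((erase_subset _ _).trans hKY)) 0 le_rfl (by
      rw [add_zero, hsumν, card_erase_of_mem hj, hKc]
      omega)
    rw [h.T0, add_zero] at h1
    rw [hins j hj]
    exact h1
  have hc2 : 1 ≤ c K := h.c2 K (hind K hKY) (by
    rw [hKc, hsumν])
  have hb : ∀ j ∈ K, 1 + ((ν 1 : ℝ) - T'.card) * ((P 1 : ℝ) - P 0) + (P (levX X j) - P 0) +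
      pom μ K j - (μ {j} + μ ∅) ≤ (c (Y \ insert j R) : ℝ) := by
    intro j hj
    have h1 := hc1 j hj
    have h2 : ((K.erase j).biUnion M).card ≤ ∑ v ∈ K.erase j, (M v).card := card_biUnion_le
    have h3 : (P 1 : ℝ) ≤ (c (Y \ insert j R) : ℝ) + ∑ v ∈ K.erase j, ((M v).card : ℝ) := by
      have h4 : P 1 ≤ c (Y \ insert j R) + ∑ v ∈ K.erase j, (M v).card := by omega
      exact_mod_cast h4
    have h4 : ∑ v ∈ K.erase j, ((M v).card : ℝ) ≤
        ∑ v ∈ K.erase j, ((P (levX X v) : ℝ) - pa μ K v) :=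
      sum_le_sum fun v hv => hMv v (mem_of_mem_erase hv)
    have h5 := sum_erase_add K (fun v => (P (levX X v) : ℝ) - pa μ K v) hj
    rw [hsumM] at h5
    have h6 := pa_add_pom (m := μ) hj
    rw [hpalK, hWc, hKcr] at h5
    nlinarith
  have hbZ : ∀ Z ⊆ K, 2 ≤ (K \ Z).card → (∀ v ∈ Z, v ∉ T' → pa μ K v = P 0) →
      (∀ v ∈ Z, v ∈ T' → pa μ K v = (P 0 : ℝ) + ((P 1 - P 0 : ℕ) : ℝ)) →
      1 + ((ν 1 : ℝ) + 1 - T'.card) * ((P 1 - P 0 : ℕ) : ℝ) + po μ K - μ ∅ ≤
        ∑ j ∈ K \ Z, (c (Y \ insert j R) : ℝ) := by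
    intro Z hZ hZ2 hZL hZT
    have hM0 : ∀ v ∈ Z, M v = ∅ := by
      intro v hv
      have h1 := hpa v (hZ hv)
      by_cases h2 : v ∈ T'
      · rw [hZT v hv h2, hlevT v h2, hh] at h1
        have h3 : ((M v).card : ℝ) ≤ 0 := by linarith
        have h4 : (M v).card = 0 := by
          have : ((M v).card : ℝ) = 0 := le_antisymm h3 (Nat.cast_nonneg _)
          exact_mod_cast this
        exact card_eq_zero.1 h4
      · rw [hZL v hv h2, hlev v (hZ hv) h2] at h1
        have h3 : ((M v).card : ℝ) ≤ 0 := by linarith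
        have h4 : (M v).card = 0 := by
          have : ((M v).card : ℝ) = 0 := le_antisymm h3 (Nat.cast_nonneg _)
          exact_mod_cast this
        exact card_eq_zero.1 h4
    have h1 := sum_col (T := ∅) (K := K \ Z) (M := M) (q := P 1) hZ2 hB h.MB
      (c' := fun j => c (Y \ insert j R)) (fun j hj => by
        rw [empty_union]
        have h2 := hc1 j (sdiff_subset hj)
        have h3 : (K.erase j).biUnion M ⊆ ((K \ Z).erase j).biUnion M := by
          intro x hx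
          obtain ⟨v, hv, hxv⟩ := mem_biUnion.1 hx
          have h4 : v ∉ Z := by
            intro h5
            rw [hM0 v h5] at hxv
            exact absurd hxv (notMem_empty x)
          refine mem_biUnion.2 ⟨v, ?_, hxv⟩
          rw [mem_erase] at hv ⊢
          exact ⟨hv.1, mem_sdiff.2 ⟨hv.2, h4⟩⟩
        have h4 := card_le_card h3
        omega)
    rw [sum_empty, mul_zero, add_zero] at h1
    have h2 : 2 * (P 1 : ℝ) ≤ ∑ j ∈ K \ Z, (c (Y \ insert j R) : ℝ) +
        ∑ v ∈ K \ Z, ((M v).card : ℝ) := by exact_mod_cast h1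
    have h3 : ∑ v ∈ K \ Z, ((M v).card : ℝ) ≤ ∑ v ∈ K, ((P (levX X v) : ℝ) - pa μ K v) := by
      refine (sum_le_sum_of_subset_of_nonneg sdiff_subset fun v _ _ =>
        Nat.cast_nonneg _).trans ?_
      exact sum_le_sum fun v hv => hMv v hv
    rw [hsumM, hpalK, hWc, hKcr] at h3
    rw [hh]
    nlinarith
  refine ⟨⟨h.q2, by omega, h.ν1 1 le_rfl, sdiff_subset, hpm, ?_, ?_, fun j => ⟨_, rfl⟩, ?_, ?_,
    ?_, ?_, ?_, ?_, ?_, ?_, hbZ⟩, ?_, hTr, hKLr, hKc⟩
  · -- integral masses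
    intro D
    choose f hf using hint
    refine ⟨∑ E ∈ R.powerset, f (D ∪ E), ?_⟩
    rw [hμ]
    unfold push
    push_cast
    exact sum_congr rfl fun E _ => hf _
  · intro j hj
    have h1 : 1 ≤ m {j} := by
      rw [hmY {j} (singleton_subset_iff.2 (hKY hj))]
      unfold mY
      have h2 : 1 ≤ (W.filter fun v => dn F Y v = {j}).card := by
        refine card_pos.2 ⟨j, ?_⟩
        rw [mem_filter]
        exact ⟨hYW (hKY hj), dn_self hLv.indep (hKY hj)⟩
      have h3 : ((1 : ℕ) : ℝ) ≤ ((W.filter fun v => dn F Y v = {j}).card : ℝ) := by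
        exact_mod_cast h2
      rw [Nat.cast_one] at h3
      convert h3
    exact h1.trans (le_push hm.1 R {j})
  · intro j hj hjT
    have h1 := hpa j hj
    rw [hlev j hj hjT] at h1
    have : (0 : ℝ) ≤ (M j).card := Nat.cast_nonneg _
    linarith
  · intro j hj
    have h1 := hpa j (sdiff_subset hj)
    rw [hlevT j hj] at h1
    have : (0 : ℝ) ≤ (M j).card := Nat.cast_nonneg _
    rw [hh]
    linarith
  · rw [hKc]
    have := h.ν1 0 (by omega)
    omega
  · rw [hpalK, hWc, hKcr, hh]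
    ring
  · -- the base
    have h1 : (d : ℝ) ≤ μ ∅ := by
      have h2 : μ ∅ = pal m R := by
        rw [hμ]
        unfold push pal
        exact sum_congr rfl fun E _ => by rw [empty_union]
      rw [h2, hpalY R hR]
      have h3 : R ⊆ Und F W (Y \ R) := by
        intro v hv
        rw [mem_Und]
        refine ⟨hYW (hR hv), fun k hk => ⟨?_, hLv.indep v (hR hv) k (mem_sdiff.1 hk).1⟩⟩
        rintro rfl
        exact (mem_sdiff.1 hk).2 hv
      have h4 := card_le_card h3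
      rw [hRc] at h4
      exact_mod_cast h4
    have h2 : ((R ∩ Lo).card : ℝ) ≤ d := by exact_mod_cast hRL
    have h3 : (2 : ℝ) ≤ e := by exact_mod_cast he
    rw [hTr]
    linarith
  · intro j hj hjT
    have h1 := hb j hj
    rw [hlev j hj hjT] at h1
    rw [hh]
    linarith
  · intro j hj
    have h1 := hb j (sdiff_subset hj)
    rw [hlevT j hj] at h1
    rw [hh]
    linarith
  · have h1 := sum_col (T := ∅) (K := K) (M := M) (q := P 1) (by
      rw [hKc]
      have := h.ν1 0 (by omega)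
      omega) hB h.MB (c' := fun j => c (Y \ insert j R)) (fun j hj => by
        rw [empty_union]
        exact hc1 j hj)
    rw [sum_empty, mul_zero, add_zero] at h1
    have h2 : 2 * (P 1 : ℝ) ≤ ∑ j ∈ K, (c (Y \ insert j R) : ℝ) + ∑ v ∈ K, ((M v).card : ℝ) := by
      exact_mod_cast h1
    have h3 : ∑ v ∈ K, ((M v).card : ℝ) ≤ ∑ v ∈ K, ((P (levX X v) : ℝ) - pa μ K v) :=
      sum_le_sum fun v hv => hMv v hv
    rw [hsumM, hpalK, hWc, hKcr] at h3
    rw [hh]
    nlinarith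
  · -- the capacity
    unfold SK
    have h1 : (1 : ℝ) ≤ (c K : ℝ) := by exact_mod_cast hc2
    have h2 : ∀ j ∈ K, μ {j} + μ ∅ = pal (mY F W Y) (insert j R) := by
      intro j hj
      have hjR : j ∉ R := (mem_sdiff.1 hj).2
      have h3 : pal μ {j} = pal m ({j} ∪ R) := pal_push (by
        rw [disjoint_singleton_left]
        exact hjR)
      have h4 : pal μ {j} = μ {j} + μ ∅ := by
        unfold pal
        rw [show ({j} : Finset V).powerset = {∅, {j}} from rfl,
          sum_pair (singleton_ne_empty j).symm, add_comm]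
      rw [← h4, h3, ← insert_eq]
      unfold pal
      exact sum_congr rfl fun D hD => hmY D ((mem_powerset.1 hD).trans
        (insert_subset (hKY hj) hR))
    have h3 : ∑ j ∈ K, (c (Y \ insert j R) : ℝ) / (μ {j} + μ ∅) =
        ∑ u ∈ K, (c (Y \ insert u R) : ℝ) / pal (mY F W Y) (insert u R) :=
      sum_congr rfl fun j hj => by rw [h2 j hj]
    linarith

/-- the local inequality, two levels, at least two surplus low elements -/
theorem Loc.mixed_ks (h : Loc F W 1 X P ν 0 T B M c) {n : ℕ} (hY : Y ∈ MIS F W) {d e : ℕ}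
    (hc : Y.card = ν 0 + ν 1 + (d + 1)) (hx : xY Y (levX X) ν 0 = e) (he : 2 ≤ e) {κ : ℝ}
    (hκ : 0 ≤ κ) (hst : KSt (P 0) (P 1 - P 0) (ν 1) κ) :
    ((P 0 : ℝ) ^ (∑ i ∈ range 2, (ν i - 1)) * ∏ i ∈ range 1, (P i : ℝ)) *
        ∑ s ∈ univ.filter (fun s : V ≃ Fin n => gr F W s = Y),
          RL F X (fun _ => 1) (fun j => (P j : ℝ)) s 1 ≤
      (Fintype.card (V ≃ Fin n) : ℝ) * (κ * CapT F W (fun K => (c K : ℝ)) Y) := by
  classical
  have hLv := Lv_of h.Xmono h.XL hY
  have hYW := hLv.Y_sub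
  have hcp := h.cp hLv.Y_sub
  have hP0 : 0 < P 0 := by have := h.q2; omega
  have hPp := Pe_pos h.Pmono hP0
  have hPm := Pe_mono h.Pmono
  have hXc : ∀ j, j < 1 → ((X j).card : ℝ) = Rob.Ss (Pe P 1) ν j - Pe P 1 j + 1 :=
    fun j hj => h.Ss hj.le
  have hW : ∀ v ∈ W, v ∈ X 1 := fun v hv => by rw [h.XL 1 le_rfl]; exact hv
  have hRL : ∀ s : V ≃ Fin n, RL F X (fun _ => 1) (fun j => (P j : ℝ)) s 1 =
      RL F X (fun _ => 1) (fun j => (Pe P 1 j : ℝ)) s 1 := fun s =>
    RL_congr (fun j hj => by rw [Pe_of_le hj.le]) s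
  rw [sum_congr rfl fun s _ => hRL s]
  have hPe0 : Pe P 1 0 = P 0 := Pe_of_le (Nat.zero_le 1)
  have hPe1 : Pe P 1 1 = P 1 := Pe_of_le le_rfl
  have hTw : (P 0 : ℝ) ^ (∑ i ∈ range 2, (ν i - 1)) * ∏ i ∈ range 1, (P i : ℝ) =
      (Pe P 1 0 : ℝ) ^ (∑ i ∈ range (1 + 1), (ν i - 1)) * ∏ i ∈ range 1, (Pe P 1 i : ℝ) := by
    rw [hPe0, prod_range_one, prod_range_one, hPe0]
  rw [hTw]
  have hNn : Nn ν 1 = ν 0 + ν 1 := by
    unfold Nn
    rw [sum_range_succ, sum_range_succ, sum_range_zero, zero_add]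
  refine mixed_all (n := n) (k := 0) (l := 1) hLv hPp hPm hcp (fun i hi => h.ν1 i hi) hXc
    (d := d) (e := e) (by rw [hc, hNn]) rfl (Or.inl rfl) hx (by omega) (M := M) ?_ hκ ?_
  · intro v hv
    have h2 := levX_spec (hW v hv)
    have h3 := h.colW _ h2.2.1 v h2.1 h2.2.2 (cn F v ∩ W) (fun u => by
      rw [mem_inter, mem_cn]
      exact and_comm)
    rw [Pe_of_le h2.2.1]
    exact h3
  · intro _ _ hLc _ hO0 _ _ D hD0 hD1 _ m hpm _ hmU R hR hRc hV
    -- the sets
    have hU : Bl Y (levX X) 0 (1 + 1) = Y := by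
      ext v
      rw [mem_Bl]
      constructor
      · exact fun h1 => h1.1
      · intro h1
        have h2 := (levX_spec (hW v (hYW h1))).2.1
        exact ⟨h1, Nat.zero_le _, by omega⟩
    set Lo := Bl Y (levX X) 0 1 with hLodef
    have hLo : ∀ v ∈ Y, (v ∈ Lo ↔ levX X v = 0) := by
      intro v hv
      rw [hLodef, mem_Bl]
      constructor
      · rintro ⟨_, _, h1⟩
        omega
      · intro h1
        exact ⟨hv, Nat.zero_le _, by omega⟩
    have hYLo : Y ∩ Lo = Lo := inter_eq_right.2 fun v hv => (mem_Bl.1 hv).1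
    rw [hU] at hmU hR hV
    rw [hU]
    -- integral masses
    set m' : Finset V → ℝ := fun D => if D ⊆ Y then mY F W Y D else 1 with hm'
    have hm'Y : ∀ D ⊆ Y, m' D = mY F W Y D := fun D hD => by
      rw [hm']
      simp only
      rw [if_pos hD]
    have hm'pos : PosM m' := by
      constructor
      · intro D
        rw [hm']
        simp only
        split_ifs
        · exact mY_nonneg Y D
        · exact zero_le_one
      · intro v
        rw [hm']
        simp only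
        split_ifs with h1
        · rw [← hmU {v} h1]
          exact hpm.2 v
        · exact one_pos
    have hm'int : ∀ D, ∃ k : ℕ, m' D = k := by
      intro D
      rw [hm']
      simp only
      split_ifs
      · exact ⟨_, rfl⟩
      · exact ⟨1, Nat.cast_one.symm⟩
    have hpush : ∀ D ⊆ Y \ R, push m R D = push m' R D := by
      intro D hD
      unfold push
      refine sum_congr rfl fun E hE => ?_
      have h1 : D ∪ E ⊆ Y := union_subset (hD.trans sdiff_subset)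
        ((mem_powerset.1 hE).trans hR)
      rw [hmU _ h1, hm'Y _ h1]
    obtain ⟨hks, hSK, hTr, hKLr, hKc⟩ := h.ks hY hc he hLo (by rw [hYLo]; exact hLc) hR hRc
      hm'pos hm'Y hm'int
    have hne : (Y \ R).Nonempty := card_pos.1 (by omega)
    rw [VL_congr hpush, VL_eq_tops (hm'pos.push R) hne] at hV
    rw [VL_congr hpush, VL_eq_tops (hm'pos.push R) hne]
    have hz : Xs (Pe P 1) (xY Y (levX X) ν) 0 +
        Gp (Pe P 1) ν (xY Y (levX X) ν) (CY F Y (levX X)) 0 = 0 := by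
      rw [Xs_zero, zero_add]
      rfl
    have hbr : pal (push m' R) (Y \ R) - ((((Y \ R) ∩ Lo).card : ℝ) -
        ((e : ℝ) + 1 - ((R ∩ Lo).card : ℝ))) * (Pe P 1 0 : ℝ) =
        (ν 1 : ℝ) * P 0 + ((ν 1 : ℝ) - 1) * ((P 1 - P 0 : ℕ) : ℝ) + 1 := by
      rw [hks.palK, hKLr, hPe0, hKc]
      push_cast
      ring
    rw [hz, add_zero, hbr] at hV
    rw [hz, add_zero, hbr]
    have h1 := hst V _ (Y \ R) ((Y \ R) \ Lo) (push m' R) _ hks hV
    have hD1' : D ≤ 1 := by
      have h2 : OT F W (Kl Y (levX X) 0) = 0 := by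
        unfold OT
        rw [Kl_zero, sum_empty, CN_empty]
        simp
      rw [Xs_zero, h2] at hD1
      linarith
    have hexp : ∑ j ∈ Ico 0 (1 + 1), (ν j - 1) = (Y \ R).card - 3 := by
      have h2 := h.ν1 0 (by omega)
      have h3 := h.ν1 1 le_rfl
      rw [hKc, ← range_eq_Ico, sum_range_succ, sum_range_succ, sum_range_zero]
      omega
    rw [hexp, hPe0, mul_assoc]
    have h2 : 0 ≤ (P 0 : ℝ) ^ ((Y \ R).card - 3) *
        (((ν 1 : ℝ) * P 0 + ((ν 1 : ℝ) - 1) * ((P 1 - P 0 : ℕ) : ℝ) + 1) *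
          Ival (push m' R) (Y \ R) - ∑ t ∈ (Y \ R) \ Lo, Ival (push m' R) ((Y \ R).erase t)) :=
      mul_nonneg (by positivity) hV.le
    refine (mul_le_mul_of_nonneg_right hD1' h2).trans ?_
    rw [one_mul]
    exact h1.trans (mul_le_mul_of_nonneg_left hSK hκ)

end

end MP76b19e.Rob
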