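import Pool.Agent.Lib.MP76b19e.Rob.PPb
import Pool.Agent.Lib.MP76b19e.Rob.KLev

/-!
# At least `ν + 2` tops (problem MP_76b19e_co)

`kst_d2`: the inequality for the sets `K` with at least `ν + 2` tops, constant `p`. The proof is a
level argument: `p ^ (|K| - 1) * vv m K T α ≤ G |T|`.
-/

set_option autoImplicit false

open Finset

namespace MP76b19e.Rob

variable {V : Type} [DecidableEq V] {m : Finset V → ℝ}

/-- no tops -/
theorem lev0 (h : PosM m) {p D : ℝ} (hp : 0 < p) (hD : 0 ≤ D) (N : ℕ) : ∀ (K : Finset V) (α : ℝ),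
    K.card ≤ N → K.Nonempty → (∀ l ∈ K, pa m K l ≤ p) → 0 ≤ α →
    p * (K.card + D) + α ≤ pal m K → p ^ (K.card - 1) * Ival m K * (p * (1 + D) + α) ≤ 1 := by
  induction N with
  | zero =>
    intro K α hN hne
    have := card_pos.2 hne
    omega
  | succ N ih =>
    intro K α hN hne ha hα hpal
    have hal0 : 0 < pal m K := h.sum_pos hne
    have hX : 0 < p * (1 + D) + α := by
      have : 0 < p * (1 + D) := mul_pos hp (by linarith)
      linarith
    have hc := card_pos.2 hne
    rcases Nat.lt_or_ge K.card 2 with hK | hK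
    · obtain ⟨j, hj⟩ := card_eq_one.1 (show K.card = 1 by omega)
      rw [hj, card_singleton] at hpal ⊢
      rw [hj] at hal0
      rw [Ival_single]
      push_cast at hpal
      rw [Nat.sub_self, pow_zero, one_mul, one_div, inv_mul_le_iff₀ hal0, mul_one]
      exact hpal
    · have h1 := pal_mul_Ival h hne
      have h2 : ∀ k ∈ K, p ^ (K.card - 2) * Ival m (K.erase k) * (p * (1 + D) + α) ≤ 1 := by
        intro k hk
        have hck := card_erase_of_mem hk
        have h3 := ih (K.erase k) α (by omega) (card_pos.1 (by omega))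
          (fun l hl => (pa_erase_le h.1 k l).trans (ha l (mem_of_mem_erase hl))) hα (by
            rw [pal_erase k, hck, Nat.cast_sub hc]
            have := ha k hk
            push_cast
            linarith)
        rw [hck] at h3
        have h4 : K.card - 1 - 1 = K.card - 2 := by omega
        rw [h4] at h3
        exact h3
      have h3 := sum_le_sum h2
      rw [← sum_mul, ← mul_sum, ← h1, sum_const, nsmul_eq_mul, mul_one] at h3
      have h4 : p ^ (K.card - 1) = p * p ^ (K.card - 2) := by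
        rw [← pow_succ']
        congr 1
        omega
      rw [h4]
      have h5 : pal m K * (p * p ^ (K.card - 2) * Ival m K * (p * (1 + D) + α)) ≤
          pal m K * 1 := by
        calc pal m K * (p * p ^ (K.card - 2) * Ival m K * (p * (1 + D) + α)) =
              p * (p ^ (K.card - 2) * (pal m K * Ival m K) * (p * (1 + D) + α)) := by ring
          _ ≤ p * K.card := mul_le_mul_of_nonneg_left h3 hp.le
          _ ≤ pal m K * 1 := by nlinarith [mul_nonneg hp.le hD]
      exact le_of_mul_le_mul_left h5 hal0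

theorem vv_all (h : PosM m) {K : Finset V} (hK : K.Nonempty) (α : ℝ) :
    vv m K K α = (α - pal m K) * Ival m K := by
  unfold vv
  rw [← pal_mul_Ival h hK]
  ring

/-- one top -/
theorem lev1 (h : PosM m) {p D : ℝ} (hp : 0 < p) (hD : 0 ≤ D) {t : V} (N : ℕ) :
    ∀ (K : Finset V) (α : ℝ), K.card ≤ N → t ∈ K → (∀ l ∈ K, l ≠ t → pa m K l ≤ p) →
    p * ((K.card : ℝ) - 1 + D) + α ≤ pal m K → p ^ (K.card - 1) * vv m K {t} α ≤ 1 := by
  induction N with
  | zero =>
    intro K α hN ht
    have := card_pos.2 ⟨t, ht⟩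
    omega
  | succ N ih =>
    intro K α hN ht ha hpal
    have hne : K.Nonempty := ⟨t, ht⟩
    have hal0 : 0 < pal m K := h.sum_pos hne
    have hc := card_pos.2 hne
    rcases le_or_gt α 0 with hα | hα
    · have h1 := vv_nonpos h (K := K) (T := {t}) hα
      have h2 : p ^ (K.card - 1) * vv m K {t} α ≤ 0 :=
        mul_nonpos_of_nonneg_of_nonpos (by positivity) h1
      linarith
    rcases Nat.lt_or_ge K.card 2 with hK | hK
    · obtain ⟨j, hj⟩ := card_eq_one.1 (show K.card = 1 by omega)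
      have hjt : K = {t} := by
        rw [hj, mem_singleton] at ht
        rw [ht]
        exact hj
      subst hjt
      rw [vv_all h hne, card_singleton, Nat.sub_self, pow_zero, one_mul]
      rw [card_singleton] at hpal
      push_cast at hpal
      have h1 : α - pal m {t} ≤ 0 := by
        have := mul_nonneg hp.le hD
        linarith
      have := mul_nonpos_of_nonpos_of_nonneg h1 (Ival_pos h {t}).le
      linarith
    · have hT : ({t} : Finset V) ⊆ K := singleton_subset_iff.2 ht
      have hrec := vv_rec h hK hT α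
      rw [sum_singleton, erase_singleton] at hrec
      have hL : ∀ l ∈ K \ {t}, p ^ (K.card - 2) * vv m (K.erase l) {t} α ≤ 1 := by
        intro l hl
        rw [mem_sdiff, mem_singleton] at hl
        have hck := card_erase_of_mem hl.1
        have h3 := ih (K.erase l) α (by omega) (mem_erase.2 ⟨Ne.symm hl.2, ht⟩)
          (fun l' hl' hl2 => (pa_erase_le h.1 l l').trans (ha l' (mem_of_mem_erase hl') hl2)) (by
            rw [pal_erase l, hck, Nat.cast_sub hc]
            have := ha l hl.1 hl.2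
            push_cast
            linarith)
        rw [hck] at h3
        have h4 : K.card - 1 - 1 = K.card - 2 := by omega
        rw [h4] at h3
        exact h3
      have hTt : p * (p ^ (K.card - 2) * vv m (K.erase t) ∅ (α - pa m K t)) ≤ α := by
        rcases le_or_gt (α - pa m K t) 0 with h1 | h1
        · have h2 := vv_nonpos h (K := K.erase t) (T := ∅) h1
          have h3 : p * (p ^ (K.card - 2) * vv m (K.erase t) ∅ (α - pa m K t)) ≤ 0 := by
            rw [← mul_assoc]
            exact mul_nonpos_of_nonneg_of_nonpos (by positivity) h2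
          linarith
        · have hck := card_erase_of_mem ht
          have h3 := lev0 h hp hD (K.erase t).card (K.erase t) (α - pa m K t) le_rfl
            (card_pos.1 (by omega)) (fun l hl => by
              rw [mem_erase] at hl
              exact (pa_erase_le h.1 t l).trans (ha l hl.2 hl.1)) h1.le (by
              rw [pal_erase t, hck, Nat.cast_sub hc]
              push_cast
              linarith)
          rw [hck] at h3
          have h4 : K.card - 1 - 1 = K.card - 2 := by omega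
          rw [h4] at h3
          unfold vv
          rw [sum_empty, sub_zero]
          have hpa : 0 ≤ pa m K t := (h.1 {t}).trans (le_pa h.1 ht)
          have hI := (Ival_pos h (K.erase t)).le
          have h5 : 0 ≤ p ^ (K.card - 2) * Ival m (K.erase t) := by positivity
          have h6 : p ^ (K.card - 2) * Ival m (K.erase t) * p ≤ 1 := by
            have h7 : p ^ (K.card - 2) * Ival m (K.erase t) * p ≤
                p ^ (K.card - 2) * Ival m (K.erase t) * (p * (1 + D) + (α - pa m K t)) := by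
              refine mul_le_mul_of_nonneg_left ?_ h5
              have := mul_nonneg hp.le hD
              linarith
            linarith
          calc p * (p ^ (K.card - 2) * ((α - pa m K t) * Ival m (K.erase t))) =
                (α - pa m K t) * (p ^ (K.card - 2) * Ival m (K.erase t) * p) := by ring
            _ ≤ (α - pa m K t) * 1 := mul_le_mul_of_nonneg_left h6 h1.le
            _ ≤ α := by linarith
      have h3 := sum_le_sum hL
      rw [← mul_sum, sum_const, nsmul_eq_mul, mul_one, card_sdiff_of_subset hT, card_singleton,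
        Nat.cast_sub hc] at h3
      push_cast at h3
      have h4 : p ^ (K.card - 1) = p * p ^ (K.card - 2) := by
        rw [← pow_succ']
        congr 1
        omega
      rw [h4]
      have h5 : pal m K * (p * p ^ (K.card - 2) * vv m K {t} α) ≤ pal m K * 1 := by
        have h6 : pal m K * (p * p ^ (K.card - 2) * vv m K {t} α) =
            p * (p ^ (K.card - 2) * ∑ l ∈ K \ {t}, vv m (K.erase l) {t} α) +
              p * (p ^ (K.card - 2) * vv m (K.erase t) ∅ (α - pa m K t)) := by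
          calc pal m K * (p * p ^ (K.card - 2) * vv m K {t} α) =
                p * p ^ (K.card - 2) * (pal m K * vv m K {t} α) := by ring
            _ = _ := by
              rw [hrec]
              ring
        rw [h6]
        have h7 := mul_le_mul_of_nonneg_left h3 hp.le
        have := mul_nonneg hp.le hD
        nlinarith
      exact le_of_mul_le_mul_left h5 hal0

theorem pa_nat {mn : Finset V → ℕ} (hmn : ∀ D, m D = mn D) (K : Finset V) (t : V) :
    ∃ k : ℕ, pa m K t = k := by
  refine ⟨∑ D ∈ K.powerset, if t ∈ D then mn D else 0, ?_⟩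
  unfold pa
  push_cast
  refine sum_congr rfl fun D _ => ?_
  split_ifs
  · exact hmn D
  · rfl

/-- at least one top -/
theorem levT (h : PosM m) {mn : Finset V → ℕ} (hmn : ∀ D, m D = mn D) {p hh : ℝ} {D : ℕ}
    (hp : 0 < p) {G : ℕ → ℝ} (hG0 : ∀ k, 0 ≤ G k) (hG1 : 1 ≤ G 1)
    (hG : ∀ (k : ℕ) (X : ℝ), 1 ≤ k → ((k : ℝ) + 2) + D * p ≤ X →
      ((k : ℝ) - 1) * p + ((k : ℝ) - D - 2) * hh + 1 ≤ X →
      p * (((k : ℝ) + 1) * G k) ≤ X * G (k + 1)) (N : ℕ) :
    ∀ (K T : Finset V) (z : ℤ), K.card ≤ N → T.Nonempty → T ⊆ K →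
    (∀ l ∈ K, l ∉ T → pa m K l ≤ p) → (∀ t ∈ T, pa m K t ≤ p + hh) → (∀ t ∈ K, 1 ≤ m {t}) →
    p * ((K.card : ℝ) - T.card + D) + z ≤ pal m K →
    p * ((K.card : ℝ) - 2) + ((T.card : ℝ) - D - 3) * hh + 1 ≤ pal m K →
    p ^ (K.card - 1) * vv m K T z ≤ G T.card := by
  induction N with
  | zero =>
    intro K T z hN hT0 hT
    have := card_pos.2 (hT0.mono hT)
    omega
  | succ N ih =>
    intro K T z hN hT0 hT hlow htop hone hI1 hI2
    have hne : K.Nonempty := hT0.mono hT
    have hal0 : 0 < pal m K := h.sum_pos hne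
    have hc := card_pos.2 hne
    have hcT := card_pos.2 hT0
    have hTK := card_le_card hT
    have hDp : 0 ≤ (D : ℝ) * p := by positivity
    have hGT := hG0 T.card
    by_cases hpos : vv m K T z ≤ 0
    · have h2 : p ^ (K.card - 1) * vv m K T z ≤ 0 :=
        mul_nonpos_of_nonneg_of_nonpos (by positivity) hpos
      linarith
    push Not at hpos
    -- `z ≥ |T| + 1`
    have hz : (T.card : ℝ) + 1 ≤ z := by
      have h1 := vv_le' h hT (α := z) (w := 1) (fun t ht => hone t (hT ht))
      have h2 : 0 < ((z : ℝ) - T.card * 1) := by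
        by_contra hcon
        push Not at hcon
        have := mul_nonpos_of_nonpos_of_nonneg hcon (Ival_pos h K).le
        linarith
      have h3 : (T.card : ℤ) < z := by
        have : ((T.card : ℤ) : ℝ) < z := by push_cast; linarith
        exact_mod_cast this
      have h4 : (T.card : ℤ) + 1 ≤ z := h3
      exact_mod_cast h4
    rcases Nat.lt_or_ge 1 T.card with hT2 | hT1
    swap
    · -- one top
      obtain ⟨t, ht⟩ := card_eq_one.1 (show T.card = 1 by omega)
      subst ht
      rw [card_singleton] at hI1 ⊢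
      push_cast at hI1
      refine (lev1 h hp (Nat.cast_nonneg D) K.card K z le_rfl (singleton_subset_iff.1 hT)
        (fun l hl hl2 => hlow l hl (by rwa [mem_singleton])) hI1).trans hG1
    -- at least two tops
    have hTne : T ≠ K := by
      intro h1
      subst h1
      rw [vv_all h hne] at hpos
      have h2 : (z : ℝ) - pal m T ≤ 0 := by
        rw [sub_self, zero_add] at hI1
        nlinarith
      have := mul_nonpos_of_nonpos_of_nonneg h2 (Ival_pos h T).le
      linarith
    have hlt : T.card < K.card := card_lt_card ⟨hT, fun h1 => hTne (subset_antisymm hT h1)⟩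
    have hrec := vv_rec h (by omega) hT (z : ℝ)
    obtain ⟨k, hk⟩ : ∃ k, T.card = k + 1 := ⟨T.card - 1, by omega⟩
    have hkr : (T.card : ℝ) = k + 1 := by rw [hk]; push_cast; ring
    have hL : ∀ l ∈ K \ T, p ^ (K.card - 2) * vv m (K.erase l) T z ≤ G T.card := by
      intro l hl
      rw [mem_sdiff] at hl
      have hck := card_erase_of_mem hl.1
      have h3 := ih (K.erase l) T z (by omega) hT0
        (fun t ht => mem_erase.2 ⟨fun h3 => hl.2 (h3 ▸ ht), hT ht⟩)
        (fun l' hl' hl2 => (pa_erase_le h.1 l l').trans (hlow l' (mem_of_mem_erase hl') hl2))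
        (fun t ht => (pa_erase_le h.1 l t).trans (htop t ht))
        (fun t ht => hone t (mem_of_mem_erase ht)) (by
          rw [pal_erase l, hck, Nat.cast_sub hc]
          have := hlow l hl.1 hl.2
          push_cast
          linarith) (by
          rw [pal_erase l, hck, Nat.cast_sub hc]
          have := hlow l hl.1 hl.2
          push_cast
          linarith)
      rw [hck] at h3
      have h4 : K.card - 1 - 1 = K.card - 2 := by omega
      rw [h4] at h3
      exact h3
    have hTt : ∀ t ∈ T, p ^ (K.card - 2) * vv m (K.erase t) (T.erase t) (z - pa m K t) ≤ G k := by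
      intro t ht
      have htK := hT ht
      have hck := card_erase_of_mem htK
      have hck2 : (T.erase t).card = k := by
        rw [card_erase_of_mem ht, hk]
        omega
      obtain ⟨a, ha⟩ := pa_nat hmn K t
      have h3 := ih (K.erase t) (T.erase t) (z - a) (by omega) (card_pos.1 (by omega))
        (erase_subset_erase t hT)
        (fun l hl hl2 => by
          rw [mem_erase] at hl
          exact (pa_erase_le h.1 t l).trans (hlow l hl.2 fun h3 => hl2 (mem_erase.2 ⟨hl.1, h3⟩)))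
        (fun t' ht' => (pa_erase_le h.1 t t').trans (htop t' (mem_of_mem_erase ht')))
        (fun t' ht' => hone t' (mem_of_mem_erase ht')) (by
          rw [pal_erase t, hck, hck2, Nat.cast_sub hc, ha]
          rw [hkr] at hI1
          push_cast
          linarith) (by
          rw [pal_erase t, hck, hck2, Nat.cast_sub hc]
          rw [hkr] at hI2
          have := htop t ht
          push_cast
          linarith)
      rw [hck, hck2] at h3
      have h4 : K.card - 1 - 1 = K.card - 2 := by omega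
      rw [h4] at h3
      push_cast at h3
      rw [ha]
      exact h3
    have h1 : p ^ (K.card - 2) * ∑ l ∈ K \ T, vv m (K.erase l) T z ≤
        ((K.card : ℝ) - T.card) * G T.card := by
      rw [mul_sum]
      refine (sum_le_card_nsmul _ _ _ hL).trans (le_of_eq ?_)
      rw [nsmul_eq_mul, card_sdiff_of_subset hT, Nat.cast_sub hTK]
    have h2 : p ^ (K.card - 2) * ∑ t ∈ T, vv m (K.erase t) (T.erase t) (z - pa m K t) ≤
        ((k : ℝ) + 1) * G k := by
      rw [mul_sum]
      refine (sum_le_card_nsmul _ _ _ hTt).trans (le_of_eq ?_)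
      rw [nsmul_eq_mul, hkr]
    have h3 := hG k (pal m K - p * ((K.card : ℝ) - T.card)) (by omega) (by
      rw [hkr] at hz hI1 ⊢
      linarith) (by
      rw [hkr] at hI2 ⊢
      linarith)
    have h4 : p ^ (K.card - 1) = p * p ^ (K.card - 2) := by
      rw [← pow_succ']
      congr 1
      omega
    rw [h4]
    have h5 : pal m K * (p * p ^ (K.card - 2) * vv m K T z) ≤ pal m K * G T.card := by
      have h6 : pal m K * (p * p ^ (K.card - 2) * vv m K T z) =
          p * (p ^ (K.card - 2) * ∑ l ∈ K \ T, vv m (K.erase l) T z) +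
            p * (p ^ (K.card - 2) * ∑ t ∈ T, vv m (K.erase t) (T.erase t) (z - pa m K t)) := by
        calc pal m K * (p * p ^ (K.card - 2) * vv m K T z) =
              p * p ^ (K.card - 2) * (pal m K * vv m K T z) := by ring
          _ = _ := by
            rw [hrec]
            ring
      rw [h6]
      have h7 := mul_le_mul_of_nonneg_left h1 hp.le
      have h8 := mul_le_mul_of_nonneg_left h2 hp.le
      rw [hk] at h7 ⊢
      have h9 : p * ((((K.card : ℝ) - ((k + 1 : ℕ) : ℝ))) * G (k + 1)) + (pal m K - p *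
          ((K.card : ℝ) - T.card)) * G (k + 1) = pal m K * G (k + 1) := by
        rw [hk]
        ring
      linarith
    exact le_of_mul_le_mul_left h5 hal0

/-! ### The constants -/

/-- `D = 0` -/
noncomputable def GA (p : ℝ) (k : ℕ) : ℝ :=
  if k ≤ 1 then 1 else p / 3 * (k * (k - 1)) /
    (1 + ((k : ℝ) - 2) / p + ((k : ℝ) - 2) * ((k : ℝ) - 3) / (2 * p ^ 2))

theorem ga_pos {p : ℝ} (hp : 0 < p) {k : ℕ} (hk : 2 ≤ k) :
    0 < 1 + ((k : ℝ) - 2) / p + ((k : ℝ) - 2) * ((k : ℝ) - 3) / (2 * p ^ 2) := by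
  have h1 : (0 : ℝ) ≤ (k : ℝ) - 2 := by
    have : (2 : ℝ) ≤ k := by exact_mod_cast hk
    linarith
  have h2 : (0 : ℝ) ≤ ((k : ℝ) - 2) * ((k : ℝ) - 3) := by
    rcases Nat.lt_or_ge k 3 with h3 | h3
    · have : k = 2 := by omega
      subst this
      norm_num
    · have : (3 : ℝ) ≤ k := by exact_mod_cast h3
      exact mul_nonneg h1 (by linarith)
  have h3 := div_nonneg h1 hp.le
  have h4 := div_nonneg h2 (by positivity : (0 : ℝ) ≤ 2 * p ^ 2)
  linarith

theorem GA_nonneg {p : ℝ} (hp : 0 < p) (k : ℕ) : 0 ≤ GA p k := by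
  unfold GA
  split_ifs with h1
  · exact zero_le_one
  · have h2 := ga_pos hp (show 2 ≤ k by omega)
    have h3 : (2 : ℝ) ≤ k := by exact_mod_cast (show 2 ≤ k by omega)
    exact div_nonneg (mul_nonneg (by positivity) (mul_nonneg (by linarith) (by linarith))) h2.le

theorem GA_le {p : ℝ} (hp : 2 ≤ p) (k : ℕ) : GA p k ≤ p ^ 3 := by
  unfold GA
  split_ifs with h1
  · nlinarith [sq_nonneg p]
  · have hp0 : 0 < p := by linarith
    have h2 := ga_pos hp0 (show 2 ≤ k by omega)
    have h3 : (2 : ℝ) ≤ k := by exact_mod_cast (show 2 ≤ k by omega)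
    rw [div_le_iff₀ h2]
    have h4 : p ^ 3 * (1 + ((k : ℝ) - 2) / p + ((k : ℝ) - 2) * ((k : ℝ) - 3) / (2 * p ^ 2)) =
        p * (p ^ 2 + ((k : ℝ) - 2) * p + ((k : ℝ) - 2) * ((k : ℝ) - 3) / 2) := by
      field_simp
    rw [h4]
    obtain ⟨N, hN⟩ : ∃ N : ℝ, N = (k : ℝ) - 2 := ⟨_, rfl⟩
    have hk : (k : ℝ) = N + 2 := by linarith
    have hN0 : 0 ≤ N := by linarith
    rw [hk]
    have h5 : (N + 2) * (N + 2 - 1) / 3 ≤ p ^ 2 + (N + 2 - 2) * p +
        (N + 2 - 2) * (N + 2 - 3) / 2 := by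
      have h6 : 2 * N ≤ N * p := by nlinarith
      nlinarith [sq_nonneg N]
    have h6 := mul_le_mul_of_nonneg_left h5 hp0.le
    linarith

theorem GA_step {p hh : ℝ} (hp : 2 ≤ p) (hh1 : 1 ≤ hh) (k : ℕ) (X : ℝ) (hk : 1 ≤ k)
    (hX : (k : ℝ) + 2 ≤ X) (hX2 : ((k : ℝ) - 1) * p + ((k : ℝ) - 2) * hh + 1 ≤ X) :
    p * (((k : ℝ) + 1) * GA p k) ≤ X * GA p (k + 1) := by
  have hp0 : 0 < p := by linarith
  rcases Nat.lt_or_ge k 2 with h1 | h1
  · have : k = 1 := by omega
    subst this
    unfold GA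
    norm_num at hX hX2 ⊢
    have h2 : 3 * (p / 3 * 2) ≤ X * (p / 3 * 2) := mul_le_mul_of_nonneg_right hX (by positivity)
    linarith
  · have h2 := ga_pos hp0 h1
    have h3 := ga_pos hp0 (show 2 ≤ k + 1 by omega)
    have hkr : (2 : ℝ) ≤ k := by exact_mod_cast h1
    unfold GA
    rw [if_neg (by omega), if_neg (by omega)]
    push_cast at h3 ⊢
    -- the lower bound of `X`
    have hX3 : ((k : ℝ) - 1) * (p + 1) ≤ X := by nlinarith
    have h4 : p * (1 + ((k : ℝ) + 1 - 2) / p + ((k : ℝ) + 1 - 2) * ((k : ℝ) + 1 - 3) / (2 * p ^ 2)) ≤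
        (p + 1) * (1 + ((k : ℝ) - 2) / p + ((k : ℝ) - 2) * ((k : ℝ) - 3) / (2 * p ^ 2)) := by
      have h5 : (p + 1) * (1 + ((k : ℝ) - 2) / p + ((k : ℝ) - 2) * ((k : ℝ) - 3) / (2 * p ^ 2)) -
          p * (1 + ((k : ℝ) + 1 - 2) / p + ((k : ℝ) + 1 - 2) * ((k : ℝ) + 1 - 3) / (2 * p ^ 2)) =
          ((k : ℝ) - 2) * ((k : ℝ) - 3) / (2 * p ^ 2) := by
        field_simp
        ring
      have h6 : (0 : ℝ) ≤ ((k : ℝ) - 2) * ((k : ℝ) - 3) / (2 * p ^ 2) := by
        refine div_nonneg ?_ (by positivity)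
        rcases Nat.lt_or_ge k 3 with h7 | h7
        · have : k = 2 := by omega
          subst this
          norm_num
        · have : (3 : ℝ) ≤ k := by exact_mod_cast h7
          exact mul_nonneg (by linarith) (by linarith)
      linarith
    have h5 : (0 : ℝ) ≤ p / 3 * (((k : ℝ) + 1) * (k : ℝ)) := by positivity
    rw [mul_div_assoc', mul_div_assoc', mul_div_assoc', div_le_div_iff₀ h2 h3]
    have h6 : (0 : ℝ) ≤ (k : ℝ) - 1 := by linarith
    calc p * (((k : ℝ) + 1) * (p / 3 * ((k : ℝ) * ((k : ℝ) - 1)))) *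
          (1 + ((k : ℝ) + 1 - 2) / p + ((k : ℝ) + 1 - 2) * ((k : ℝ) + 1 - 3) / (2 * p ^ 2)) =
          (p / 3 * (((k : ℝ) + 1) * (k : ℝ))) * ((k : ℝ) - 1) * (p * (1 + ((k : ℝ) + 1 - 2) / p +
            ((k : ℝ) + 1 - 2) * ((k : ℝ) + 1 - 3) / (2 * p ^ 2))) := by ring
      _ ≤ (p / 3 * (((k : ℝ) + 1) * (k : ℝ))) * ((k : ℝ) - 1) * ((p + 1) *
            (1 + ((k : ℝ) - 2) / p + ((k : ℝ) - 2) * ((k : ℝ) - 3) / (2 * p ^ 2))) :=
          mul_le_mul_of_nonneg_left h4 (mul_nonneg h5 h6)
      _ = (p / 3 * (((k : ℝ) + 1) * (k : ℝ))) *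
            (1 + ((k : ℝ) - 2) / p + ((k : ℝ) - 2) * ((k : ℝ) - 3) / (2 * p ^ 2)) *
              (((k : ℝ) - 1) * (p + 1)) := by ring
      _ ≤ (p / 3 * (((k : ℝ) + 1) * (k : ℝ))) *
            (1 + ((k : ℝ) - 2) / p + ((k : ℝ) - 2) * ((k : ℝ) - 3) / (2 * p ^ 2)) * X :=
          mul_le_mul_of_nonneg_left hX3 (mul_nonneg h5 h2.le)
      _ = X * (p / 3 * (((k : ℝ) + 1) * ((k : ℝ) + 1 - 1))) *
            (1 + ((k : ℝ) - 2) / p + ((k : ℝ) - 2) * ((k : ℝ) - 3) / (2 * p ^ 2)) := by ring

/-- `D ≥ 1` -/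
noncomputable def GB (p : ℝ) (D k : ℕ) : ℝ :=
  if k ≤ D then 1 else if k = D + 1 then p * (D + 1) / (D * p + D + 2) else
    p ^ 2 * min ((k : ℝ) * (k - 1)) ((2 * p + D + 2) * (2 * p + D + 1)) /
      ((D * p + D + 2) * (D * p + D + 3))

theorem GB_nonneg {p : ℝ} (hp : 0 < p) (D k : ℕ) : 0 ≤ GB p D k := by
  unfold GB
  split_ifs with h1 h2
  · exact zero_le_one
  · positivity
  · refine div_nonneg (mul_nonneg (by positivity) (le_min ?_ (by positivity))) (by positivity)
    have h3 : (2 : ℝ) ≤ k := by exact_mod_cast (show 2 ≤ k by omega)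
    exact mul_nonneg (by linarith) (by linarith)

theorem GB_le {p : ℝ} (hp : 2 ≤ p) {D : ℕ} (hD : 1 ≤ D) (k : ℕ) : GB p D k ≤ p ^ 3 := by
  have hp0 : 0 < p := by linarith
  have hDr : (1 : ℝ) ≤ D := by exact_mod_cast hD
  have hp3 : 1 ≤ p ^ 3 := by nlinarith [sq_nonneg p]
  unfold GB
  split_ifs with h1 h2
  · exact hp3
  · rw [div_le_iff₀ (by positivity)]
    have h3 : (1 : ℝ) ≤ p ^ 2 := by nlinarith
    have h4 : p * ((D : ℝ) + 1) ≤ p * (D * p + D + 2) := by
      refine mul_le_mul_of_nonneg_left ?_ hp0.le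
      have : 0 ≤ (D : ℝ) * p := by positivity
      linarith
    have h5 : 0 ≤ p * (D * p + D + 2) := by positivity
    nlinarith
  · have h3 : p ^ 2 * min ((k : ℝ) * (k - 1)) ((2 * p + D + 2) * (2 * p + D + 1)) ≤
        p ^ 2 * ((2 * p + D + 2) * (2 * p + D + 1)) :=
      mul_le_mul_of_nonneg_left (min_le_right _ _) (by positivity)
    rw [div_le_iff₀ (by positivity)]
    refine h3.trans ?_
    obtain ⟨d, hd⟩ : ∃ d : ℝ, d = (D : ℝ) - 1 := ⟨_, rfl⟩
    have hDd : (D : ℝ) = 1 + d := by linarith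
    have hd0 : 0 ≤ d := by linarith
    rw [hDd]
    have h4 : (2 * p + (1 + d) + 2) * (2 * p + (1 + d) + 1) ≤
        p * (((1 + d) * p + (1 + d) + 2) * ((1 + d) * p + (1 + d) + 3)) := by
      have h5 : p * ((p + 3 + d) * (p + 4 + d)) ≤
          p * (((1 + d) * p + (1 + d) + 2) * ((1 + d) * p + (1 + d) + 3)) := by
        refine mul_le_mul_of_nonneg_left ?_ hp0.le
        have h6 : 0 ≤ d * p := by positivity
        exact mul_le_mul (by linarith) (by linarith) (by positivity) (by positivity)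
      refine le_trans ?_ h5
      have h6 : p * ((p + 3 + d) * (p + 4 + d)) - (2 * p + (1 + d) + 2) * (2 * p + (1 + d) + 1) =
          (p ^ 3 + 3 * p ^ 2 + 2 * p - 6) + d * (2 * p ^ 2 + 3 * p - 5) + d ^ 2 * (p - 1) := by
        ring
      have h7 : 0 ≤ p ^ 3 + 3 * p ^ 2 + 2 * p - 6 := by nlinarith [sq_nonneg p]
      have h8 : 0 ≤ 2 * p ^ 2 + 3 * p - 5 := by nlinarith
      have h9 : 0 ≤ d * (2 * p ^ 2 + 3 * p - 5) := mul_nonneg hd0 h8
      have h10 : 0 ≤ d ^ 2 * (p - 1) := mul_nonneg (sq_nonneg d) (by linarith)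
      linarith
    have h5 := mul_le_mul_of_nonneg_left h4 (sq_nonneg p)
    calc _ ≤ p ^ 2 * (p * (((1 + d) * p + (1 + d) + 2) * ((1 + d) * p + (1 + d) + 3))) := h5
      _ = _ := by ring

theorem GB_step {p hh : ℝ} (hp : 2 ≤ p) (hh1 : 1 ≤ hh) {D : ℕ} (hD : 1 ≤ D) (k : ℕ) (X : ℝ)
    (hk : 1 ≤ k) (hX : (k : ℝ) + 2 + D * p ≤ X)
    (hX2 : ((k : ℝ) - 1) * p + ((k : ℝ) - D - 2) * hh + 1 ≤ X) :
    p * (((k : ℝ) + 1) * GB p D k) ≤ X * GB p D (k + 1) := by
  have hp0 : 0 < p := by linarith
  have hDr : (1 : ℝ) ≤ D := by exact_mod_cast hD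
  have hDp : 0 ≤ (D : ℝ) * p := by positivity
  rcases Nat.lt_or_ge k D with h1 | h1
  · -- `k + 1 ≤ D`
    have h2 : (k : ℝ) + 1 ≤ D := by exact_mod_cast h1
    unfold GB
    rw [if_pos h1.le, if_pos (by omega), mul_one, mul_one]
    nlinarith
  rcases Nat.eq_or_lt_of_le h1 with h2 | h2
  · -- `k = D`
    subst h2
    unfold GB
    rw [if_pos le_rfl, if_neg (by omega), if_pos rfl, mul_one, ← mul_div_assoc,
      le_div_iff₀ (by positivity)]
    have h3 : 0 ≤ p * ((D : ℝ) + 1) := by positivity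
    have h4 : p * ((D : ℝ) + 1) * (D * p + D + 2) ≤ p * ((D : ℝ) + 1) * X :=
      mul_le_mul_of_nonneg_left (by linarith) h3
    linarith
  rcases Nat.eq_or_lt_of_le (show D + 1 ≤ k from h2) with h3 | h3
  · -- `k = D + 1`
    subst h3
    unfold GB
    rw [if_neg (by omega), if_pos rfl, if_neg (by omega), if_neg (by omega)]
    push_cast at hX ⊢
    have h4 : ((D : ℝ) + 1 + 1) * ((D : ℝ) + 1 + 1 - 1) ≤ (2 * p + D + 2) * (2 * p + D + 1) := by
      refine mul_le_mul (by linarith) (by linarith) (by linarith) (by positivity)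
    rw [min_eq_left h4, ← mul_div_assoc, ← mul_div_assoc, ← mul_div_assoc,
      div_le_div_iff₀ (by positivity) (by positivity)]
    have h5 : 0 ≤ p ^ 2 * (((D : ℝ) + 1 + 1) * ((D : ℝ) + 1)) * (D * p + D + 2) := by positivity
    have h6 := mul_le_mul_of_nonneg_left (show D * p + D + 3 ≤ X by linarith) h5
    calc p * (((D : ℝ) + 1 + 1) * (p * ((D : ℝ) + 1))) * ((D * p + D + 2) * (D * p + D + 3)) =
          p ^ 2 * (((D : ℝ) + 1 + 1) * ((D : ℝ) + 1)) * (D * p + D + 2) * (D * p + D + 3) := by ring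
      _ ≤ p ^ 2 * (((D : ℝ) + 1 + 1) * ((D : ℝ) + 1)) * (D * p + D + 2) * X := h6
      _ = X * (p ^ 2 * (((D : ℝ) + 1 + 1) * ((D : ℝ) + 1 + 1 - 1))) * (D * p + D + 2) := by ring
  · -- `k ≥ D + 2`
    have hkr : (D : ℝ) + 2 ≤ k := by exact_mod_cast h3
    unfold GB
    rw [if_neg (by omega), if_neg (by omega), if_neg (by omega), if_neg (by omega)]
    push_cast
    have hX3 : ((k : ℝ) - 1) * p + ((k : ℝ) - D - 1) ≤ X := by nlinarith
    have hk1 : 0 ≤ (k : ℝ) - 1 := by linarith
    have hE : (0 : ℝ) < (D * p + D + 2) * (D * p + D + 3) := by positivity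
    rw [← mul_div_assoc, ← mul_div_assoc, ← mul_div_assoc, div_le_div_iff_of_pos_right hE]
    have hX0 : 0 ≤ X := by nlinarith [mul_nonneg hk1 hp0.le]
    have key : p * (((k : ℝ) + 1) * min ((k : ℝ) * (k - 1)) ((2 * p + D + 2) * (2 * p + D + 1))) ≤
        X * min (((k : ℝ) + 1) * ((k : ℝ) + 1 - 1)) ((2 * p + D + 2) * (2 * p + D + 1)) := by
      rcases le_total (((k : ℝ) + 1) * ((k : ℝ) + 1 - 1)) ((2 * p + D + 2) * (2 * p + D + 1))
        with h4 | h4
      · rw [min_eq_left h4]
        have h5 : p * (((k : ℝ) + 1) * min ((k : ℝ) * (k - 1))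
            ((2 * p + D + 2) * (2 * p + D + 1))) ≤ p * (((k : ℝ) + 1) * ((k : ℝ) * (k - 1))) :=
          mul_le_mul_of_nonneg_left (mul_le_mul_of_nonneg_left (min_le_left _ _) (by positivity))
            hp0.le
        refine h5.trans ?_
        have h6 : 0 ≤ ((k : ℝ) + 1) * (k : ℝ) := by positivity
        have h7 : ((k : ℝ) - 1) * p ≤ X := by linarith
        have h8 := mul_le_mul_of_nonneg_left h7 h6
        calc p * (((k : ℝ) + 1) * ((k : ℝ) * (k - 1))) =
              ((k : ℝ) + 1) * (k : ℝ) * (((k : ℝ) - 1) * p) := by ring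
          _ ≤ ((k : ℝ) + 1) * (k : ℝ) * X := h8
          _ = X * (((k : ℝ) + 1) * ((k : ℝ) + 1 - 1)) := by ring
      · rw [min_eq_right h4]
        have h5 : p * (((k : ℝ) + 1) * min ((k : ℝ) * (k - 1))
            ((2 * p + D + 2) * (2 * p + D + 1))) ≤
              p * (((k : ℝ) + 1) * ((2 * p + D + 2) * (2 * p + D + 1))) :=
          mul_le_mul_of_nonneg_left (mul_le_mul_of_nonneg_left (min_le_right _ _) (by positivity))
            hp0.le
        refine h5.trans ?_
        have h6 : 2 * p + D + 2 ≤ (k : ℝ) + 1 := by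
          by_contra hcon
          push Not at hcon
          have h7 : ((k : ℝ) + 1) * ((k : ℝ) + 1 - 1) < (2 * p + D + 2) * (2 * p + D + 1) := by
            have h8 : (0 : ℝ) ≤ (k : ℝ) + 1 - 1 := by linarith
            have h9 : (k : ℝ) + 1 - 1 < 2 * p + D + 1 := by linarith
            nlinarith
          linarith
        have h7 : p * ((k : ℝ) + 1) ≤ X := by linarith
        have h8 : (0 : ℝ) ≤ (2 * p + D + 2) * (2 * p + D + 1) := by positivity
        have h9 := mul_le_mul_of_nonneg_right h7 h8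
        linarith
    have h4 := mul_le_mul_of_nonneg_left key (sq_nonneg p)
    linarith

/-- at least `ν + 2` tops -/
theorem kst_d2 {K T : Finset V} {b : V → ℝ} {p h ν : ℕ} (hk : KS K T m b p h ν)
    (hc : ν + 2 ≤ T.card) :
    (p : ℝ) ^ (K.card - 3) *
        (((ν : ℝ) * p + ((ν : ℝ) - 1) * h + 1) * Ival m K - ∑ t ∈ T, Ival m (K.erase t)) ≤
      p * (1 + ∑ j ∈ K, b j / (m {j} + m ∅)) := by
  have hp2 : (2 : ℝ) ≤ p := by exact_mod_cast hk.p2
  have hh1 : (1 : ℝ) ≤ h := by exact_mod_cast hk.h1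
  have hν1' := hk.ν1
  have hp0 : (0 : ℝ) < p := by linarith
  obtain ⟨D, hD⟩ : ∃ D, T.card = ν + 2 + D := ⟨T.card - (ν + 2), by omega⟩
  have hDr : (T.card : ℝ) = ν + 2 + D := by rw [hD]; push_cast; ring
  have hTK := card_le_card hk.TK
  have hT0 : T.Nonempty := card_pos.1 (by omega)
  choose mn hmn using hk.int
  have hS : 0 ≤ ∑ j ∈ K, b j / (m {j} + m ∅) := by
    refine sum_nonneg fun j _ => div_nonneg ?_ (add_nonneg (hk.pos.1 _) (hk.pos.1 _))
    obtain ⟨k, hkb⟩ := hk.bint j
    rw [hkb]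
    exact Nat.cast_nonneg _
  have hz : (((ν : ℤ) * p + ((ν : ℤ) - 1) * h + 1 : ℤ) : ℝ) = (ν : ℝ) * p + ((ν : ℝ) - 1) * h + 1 := by
    push_cast
    ring
  have key : ∀ G : ℕ → ℝ, (∀ k, 0 ≤ G k) → 1 ≤ G 1 →
      (∀ (k : ℕ) (X : ℝ), 1 ≤ k → ((k : ℝ) + 2) + D * p ≤ X →
        ((k : ℝ) - 1) * p + ((k : ℝ) - D - 2) * h + 1 ≤ X →
        (p : ℝ) * (((k : ℝ) + 1) * G k) ≤ X * G (k + 1)) → G T.card ≤ (p : ℝ) ^ 3 →
      (p : ℝ) ^ (K.card - 3) *
        (((ν : ℝ) * p + ((ν : ℝ) - 1) * h + 1) * Ival m K - ∑ t ∈ T, Ival m (K.erase t)) ≤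
      p * (1 + ∑ j ∈ K, b j / (m {j} + m ∅)) := by
    intro G hG0 hG1 hG hfin
    have h1 := levT hk.pos hmn (hh := (h : ℝ)) (D := D) hp0 hG0 hG1 hG K.card K T
      ((ν : ℤ) * p + ((ν : ℤ) - 1) * h + 1) le_rfl hT0 hk.TK hk.paL hk.paT hk.one
      (by rw [hz, hk.palK, hDr]; linarith) (by rw [hk.palK, hDr]; linarith)
    rw [hz] at h1
    have h2 := h1.trans hfin
    unfold vv at h2
    have h4 : (p : ℝ) ^ (K.card - 1) = (p : ℝ) ^ (K.card - 3) * p ^ 2 := by
      rw [← pow_add]
      congr 1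
      omega
    rw [h4] at h2
    have h5 : (p : ℝ) ^ (K.card - 3) *
        (((ν : ℝ) * p + ((ν : ℝ) - 1) * h + 1) * Ival m K - ∑ t ∈ T, Ival m (K.erase t)) ≤ p := by
      have h6 : (0 : ℝ) < (p : ℝ) ^ 2 := by positivity
      have h7 : (p : ℝ) ^ (K.card - 3) *
          (((ν : ℝ) * p + ((ν : ℝ) - 1) * h + 1) * Ival m K - ∑ t ∈ T, Ival m (K.erase t)) * p ^ 2 ≤
            p * p ^ 2 := by
        calc _ = (p : ℝ) ^ (K.card - 3) * p ^ 2 * (((ν : ℝ) * p + ((ν : ℝ) - 1) * h + 1) *
              Ival m K - ∑ t ∈ T, Ival m (K.erase t)) := by ring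
          _ ≤ (p : ℝ) ^ 3 := h2
          _ = p * p ^ 2 := by ring
      exact le_of_mul_le_mul_right h7 h6
    refine h5.trans ?_
    nlinarith
  rcases Nat.eq_zero_or_pos D with hD0 | hD0
  · subst hD0
    refine key (GA p) (GA_nonneg hp0) (by unfold GA; simp) ?_ (GA_le hp2 _)
    intro k X hk1 hX hX2
    push_cast at hX hX2
    exact GA_step hp2 hh1 k X hk1 (by linarith) (by linarith)
  · refine key (GB p D) (GB_nonneg hp0 D) ?_ (fun k X hk1 hX hX2 =>
      GB_step hp2 hh1 hD0 k X hk1 hX hX2) (GB_le hp2 hD0 _)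
    unfold GB
    rw [if_pos (by omega)]

end MP76b19e.Rob
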