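import Pool.Agent.Lib.MP76b19e.Rob.Zero
import Pool.Agent.Lib.MP76b19e.CoreT

/-!
# The product bound for integer masses (problem MP_76b19e_co)

`mass_gw`: integer masses with `m {j} ≥ 1`, caps `q`, base `m ∅ = c ≥ c₀`, overlap `O`:
`q ^ |K| * Ival m K ≤ L ^ Δ * H ^ (O - (c - c₀)) * bq (q - 1) c₀ Δ`, `Δ = |K| q - pal m K + c₀`.
-/

set_option autoImplicit false

open Finset

namespace MP76b19e.Rob

open Pool.Agent.MP76b19e (gw aD transf bq ovl)

theorem gw_map {V W : Type} [DecidableEq V] [DecidableEq W] (f : V ↪ W) (α : Finset W → ℝ) :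
    ∀ (n : ℕ) (S : Finset V), gw α n (S.map f) = gw (fun T => α (T.map f)) n S
  | 0, _ => rfl
  | n + 1, S => by
    change ∑ u ∈ S.map f, gw α n ((S.map f).erase u) / α ((S.map f).erase u) =
      ∑ u ∈ S, gw (fun T => α (T.map f)) n (S.erase u) / α ((S.erase u).map f)
    rw [sum_map]
    refine sum_congr rfl fun u _ => ?_
    rw [← map_erase, gw_map f α n (S.erase u)]

section

variable {V : Type} [DecidableEq V]

/-- the embedding of the elements -/
private def fe : V ↪ V ⊕ (Finset V × ℕ) := ⟨Sum.inl, Sum.inl_injective⟩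

/-- the embedding of the copies of a set -/
private def ge (S : Finset V) : ℕ ↪ V ⊕ (Finset V × ℕ) :=
  ⟨fun i => Sum.inr (S, i), fun i j h => by simpa using h⟩

/-- the set of a copy -/
private def pr : V ⊕ (Finset V × ℕ) → Finset V
  | Sum.inl _ => ∅
  | Sum.inr (S, _) => S

/-- the copies -/
private def ind (K : Finset V) (a : Finset V → ℕ) : Finset (V ⊕ (Finset V × ℕ)) :=
  K.powerset.biUnion fun S => (range (a S)).map (ge S)

private theorem pr_ge (S : Finset V) (i : ℕ) : pr (ge S i) = S := rfl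

private theorem sum_ind (K : Finset V) (a : Finset V → ℕ) (φ : Finset V → ℕ) :
    ∑ v ∈ ind K a, φ (pr v) = ∑ S ∈ K.powerset, a S * φ S := by
  unfold ind
  rw [sum_biUnion]
  · refine sum_congr rfl fun S _ => ?_
    rw [sum_map]
    simp only [pr_ge, sum_const, card_range, smul_eq_mul]
  · intro S _ S' _ hne
    rw [Function.onFun, disjoint_left]
    intro v hv hv'
    rw [mem_map] at hv hv'
    obtain ⟨i, _, hi⟩ := hv
    obtain ⟨j, _, hj⟩ := hv'
    apply hne
    rw [← pr_ge S i, hi, ← hj, pr_ge]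

private theorem card_ind (K : Finset V) (a : Finset V → ℕ) (Q : Finset V → Prop)
    [DecidablePred Q] :
    ((ind K a).filter fun v => Q (pr v)).card = ∑ S ∈ K.powerset, if Q S then a S else 0 := by
  rw [card_filter, sum_ind K a (fun S => if Q S then 1 else 0)]
  refine sum_congr rfl fun S _ => ?_
  split_ifs
  · rw [mul_one]
  · rw [mul_zero]

private theorem mem_ind {K : Finset V} {a : Finset V → ℕ} {v : V ⊕ (Finset V × ℕ)}
    (hv : v ∈ ind K a) : pr v ⊆ K := by
  unfold ind at hv
  rw [mem_biUnion] at hv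
  obtain ⟨S, hS, hv⟩ := hv
  rw [mem_map] at hv
  obtain ⟨i, _, hi⟩ := hv
  rw [← hi, pr_ge]
  exact mem_powerset.1 hS

/-- the product bound for integer masses -/
theorem mass_gw {m : Finset V → ℝ} {K : Finset V} {q : ℕ} {L H : ℝ} (hq : 2 ≤ q) (hL : 0 < L)
    (hH : 0 < H) (hLq : L ^ (q - 1) = q) (hHq : H ^ (q - 1) = 2 * q / (q + 1))
    {mn : Finset V → ℕ} (hmn : ∀ D, m D = mn D) (h1 : ∀ j ∈ K, 1 ≤ mn {j})
    (hcap : ∀ k ∈ K, pa m K k ≤ q) {c0 On Δ : ℕ} (hc0 : c0 ≤ mn ∅) (hO : po m K = On)
    (hΔ : (Δ : ℝ) = K.card * q - pal m K + c0) :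
    (q : ℝ) ^ K.card * Ival m K ≤ L ^ Δ * H ^ (On - (mn ∅ - c0)) * bq (q - 1) c0 Δ := by
  -- the copies
  set a : Finset V → ℕ := fun S => mn S - (if S.card = 1 then 1 else 0) with ha
  have ham : ∀ S ⊆ K, (a S : ℝ) + (if S.card = 1 then (1 : ℝ) else 0) = m S := by
    intro S hS
    rw [ha, hmn S]
    simp only
    split_ifs with h2
    · obtain ⟨j, hj⟩ := card_eq_one.1 h2
      have h3 := h1 j (hS (by rw [hj]; exact mem_singleton_self j))
      rw [← hj] at h3
      rw [Nat.cast_sub h3]
      push_cast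
      ring
    · simp
  set I := ind K a with hI
  set K' : Finset (V ⊕ (Finset V × ℕ)) := K.map fe with hK'
  set D : V ⊕ (Finset V × ℕ) → Finset (V ⊕ (Finset V × ℕ)) := fun v => (pr v).map fe with hD
  have hDK : ∀ v ∈ I, D v ⊆ K' := fun v hv => map_subset_map.2 (mem_ind hv)
  have hfk : ∀ (k : V) (v : V ⊕ (Finset V × ℕ)), fe k ∈ D v ↔ k ∈ pr v := by
    intro k v
    rw [hD]
    simp only
    rw [mem_map' fe]
  -- the number of copies which contain `k`
  have hk : ∀ k ∈ K, ((I.filter fun v => fe k ∈ D v).card : ℝ) = pa m K k - 1 := by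
    intro k hk
    have h2 : (I.filter fun v => fe k ∈ D v) = I.filter fun v => k ∈ pr v :=
      filter_congr fun v _ => hfk k v
    rw [h2, hI, card_ind K a (fun S => k ∈ S)]
    unfold pa
    have h3 : ∑ S ∈ K.powerset, (if k ∈ S then m S else 0) =
        ∑ S ∈ K.powerset, (if k ∈ S then (a S : ℝ) else 0) +
          ∑ S ∈ K.powerset, (if S = {k} then (1 : ℝ) else 0) := by
      rw [← sum_add_distrib]
      refine sum_congr rfl fun S hS => ?_
      have h4 := ham S (mem_powerset.1 hS)
      by_cases h5 : k ∈ S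
      · rw [if_pos h5, if_pos h5, ← h4]
        congr 1
        by_cases h6 : S = {k}
        · rw [if_pos h6, h6, card_singleton, if_pos rfl]
        · rw [if_neg h6, if_neg]
          intro h7
          obtain ⟨j, hj⟩ := card_eq_one.1 h7
          rw [hj, mem_singleton] at h5
          rw [h5] at h6
          exact h6 hj
      · rw [if_neg h5, if_neg h5, if_neg, add_zero]
        rintro rfl
        exact h5 (mem_singleton_self k)
    rw [h3, sum_ite_eq' K.powerset {k}, if_pos (mem_powerset.2 (singleton_subset_iff.2 hk))]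
    push_cast
    ring
  -- deficits
  set δ : V ⊕ (Finset V × ℕ) → ℕ := fun k => q - 1 - (I.filter fun v => k ∈ D v).card with hδ
  have hle : ∀ k ∈ K, (I.filter fun v => fe k ∈ D v).card ≤ q - 1 := by
    intro k hkK
    have h2 := hk k hkK
    have h3 := hcap k hkK
    have h4 : ((I.filter fun v => fe k ∈ D v).card : ℝ) + 1 ≤ q := by linarith
    have h5 : (I.filter fun v => fe k ∈ D v).card + 1 ≤ q := by exact_mod_cast h4
    omega
  have hslot : ∀ k ∈ K', (I.filter (fun v => k ∈ D v)).card + δ k = q - 1 := by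
    intro k hkK
    rw [hK', mem_map] at hkK
    obtain ⟨k0, hk0, rfl⟩ := hkK
    have := hle k0 hk0
    rw [hδ]
    simp only
    omega
  have hemp : (I.filter (fun v => D v = ∅)).card = mn ∅ := by
    have h2 : (I.filter fun v => D v = ∅) = I.filter fun v => pr v = ∅ :=
      filter_congr fun v _ => by
        rw [hD]
        simp only
        rw [map_eq_empty]
    rw [h2, hI, card_ind K a (fun S => S = ∅), sum_ite_eq' K.powerset ∅,
      if_pos (empty_mem_powerset K), ha]
    simp
  have hovl : ((ovl I D : ℕ) : ℝ) = po m K := by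
    have h2 : ovl I D = ∑ v ∈ I, ((pr v).card - 1) := by
      unfold ovl
      refine sum_congr rfl fun v _ => ?_
      rw [hD]
      simp only
      rw [card_map]
    rw [h2, hI, sum_ind K a (fun S => S.card - 1)]
    unfold po
    push_cast
    refine sum_congr rfl fun S hS => ?_
    have h3 := ham S (mem_powerset.1 hS)
    rw [← h3]
    by_cases h4 : S.card = 1
    · rw [if_pos h4, h4]
      simp
    · rw [if_neg h4, add_zero, mul_comm]
  have hovn : ovl I D = On := by
    have : ((ovl I D : ℕ) : ℝ) = On := by rw [hovl, hO]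
    exact_mod_cast this
  -- the total waste
  have hsd : ((∑ k ∈ K', δ k : ℕ) : ℝ) = K.card * q - (pal m K - m ∅ + po m K) := by
    rw [hK', sum_map, Nat.cast_sum]
    have h2 : ∀ k ∈ K, ((δ (fe k) : ℕ) : ℝ) = q - pa m K k := by
      intro k hkK
      have h3 := hk k hkK
      have h4 := hle k hkK
      rw [hδ]
      simp only
      rw [Nat.cast_sub h4, h3, Nat.cast_sub (by omega)]
      push_cast
      ring
    rw [sum_congr rfl h2, sum_sub_distrib, sum_const, nsmul_eq_mul, sum_pa]
  have hme : m ∅ = (mn ∅ : ℝ) := hmn ∅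
  have hw : ∑ k ∈ K', δ k + ovl I D = Δ + (mn ∅ - c0) := by
    have h2 : ((∑ k ∈ K', δ k + ovl I D : ℕ) : ℝ) = ((Δ + (mn ∅ - c0) : ℕ) : ℝ) := by
      rw [Nat.cast_add, hsd, hovl]
      rw [Nat.cast_add, Nat.cast_sub hc0, hΔ, hme]
      ring
    exact_mod_cast h2
  have hmain := transf (K := K') (I := I) hq hL hH hLq hHq c0 (mn ∅ - c0) D δ hDK hslot
    (by rw [hemp]; omega) (by omega)
  rw [hw, Nat.add_sub_cancel, hovn] at hmain
  have hcard : K'.card = K.card := card_map _
  have hgw : gw (aD K' I D) K'.card K' = Ival m K := by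
    rw [hcard, hK', gw_map, Ival_gw K m (fun T => aD K' I D (T.map fe))]
    intro R hR
    unfold aD
    have h2 : (K' \ R.map fe).card = (K \ R).card := by
      rw [hK', ← Finset.map_sdiff, card_map]
    have h3 : (I.filter fun v => Disjoint (D v) (R.map fe)) =
        I.filter fun v => Disjoint (pr v) R :=
      filter_congr fun v _ => by
        rw [hD]
        simp only
        rw [disjoint_map]
    rw [h2, h3, hI, card_ind K a (fun S => Disjoint S R)]
    have h4 : K.powerset.filter (fun S => Disjoint S R) = (K \ R).powerset := by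
      ext S
      rw [mem_filter, mem_powerset, mem_powerset, subset_sdiff]
    rw [← sum_filter, h4]
    have h5 : pal m (K \ R) = ∑ S ∈ (K \ R).powerset, (a S : ℝ) +
        ∑ S ∈ (K \ R).powerset, (if S.card = 1 then (1 : ℝ) else 0) := by
      unfold pal
      rw [← sum_add_distrib]
      exact sum_congr rfl fun S hS =>
        (ham S ((mem_powerset.1 hS).trans sdiff_subset)).symm
    have h6 : ∑ S ∈ (K \ R).powerset, (if S.card = 1 then (1 : ℝ) else 0) = (K \ R).card := by
      rw [← sum_filter, sum_const, nsmul_eq_mul, mul_one]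
      congr 1
      rw [← powersetCard_eq_filter, card_powersetCard, Nat.choose_one_right]
    rw [h5, h6]
    push_cast
    ring
  rw [hgw, hcard] at hmain
  exact hmain

end

end MP76b19e.Rob
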