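import Pool.Agent.Lib.MP76b19e.Rob.StA3
import Pool.Agent.Lib.MP76b19e.Rob.MassGW
import Pool.Agent.Lib.MP76b19e.CoreL

/-!
# No top element, total mass `(n - 2) p + 1` (problem MP_76b19e_co)

`stA1`: `p ^ (n - 3) (p + 1) I(K) ≤ 1 + ∑ b_j / (m {j} + m ∅)`.
-/

set_option autoImplicit false

open Finset

namespace MP76b19e.Rob

open Pool.Agent.MP76b19e (num1 num2 H_pow_le H_ge_one exists_root bq)

/-- the numerical inequality for the base `3` -/
theorem num3L {p : ℕ} (hp : 2 ≤ p) {L : ℝ} (hL : 0 < L) (hLq : L ^ (p - 1) = p) :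
    ((p : ℝ) + 1) / p * L * (3 * ((p : ℝ) - 1) / (5 * p - 1)) ≤ 1 := by
  have hp2 : (2 : ℝ) ≤ p := by exact_mod_cast hp
  have hp0 : (0 : ℝ) < p := by linarith
  have h1 : 0 < (p : ℝ) - 1 := by linarith
  have h2 : 0 < 3 * ((p : ℝ) ^ 2 - 1) := by nlinarith
  have hL1 : L ≤ p * (5 * p - 1) / (3 * ((p : ℝ) ^ 2 - 1)) := by
    refine le_of_pow_le_pow_left₀ (n := p - 1) (by omega)
      (div_nonneg (mul_nonneg hp0.le (by linarith)) h2.le) ?_
    rw [hLq]
    rcases Nat.lt_or_ge p 4 with h3 | h3
    · interval_cases p <;> norm_num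
    · have h4 : (8 : ℝ) / 5 ≤ p * (5 * p - 1) / (3 * ((p : ℝ) ^ 2 - 1)) := by
        rw [div_le_div_iff₀ (by norm_num) h2]
        nlinarith [sq_nonneg ((p : ℝ) - 5 / 2)]
      refine le_trans ?_ (pow_le_pow_left₀ (by norm_num) h4 (p - 1))
      have h5 : ∀ k : ℕ, ((k : ℝ) + 4) ≤ (8 / 5) ^ (k + 3) := by
        intro k
        induction k with
        | zero => norm_num
        | succ k ih =>
          rw [show k + 1 + 3 = (k + 3) + 1 by ring, pow_succ]
          push_cast
          nlinarith [(Nat.cast_nonneg k : (0 : ℝ) ≤ k)]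
      have h6 := h5 (p - 4)
      rw [Nat.cast_sub h3, show p - 4 + 3 = p - 1 by omega] at h6
      push_cast at h6
      linarith
  have h5 : 0 < 5 * (p : ℝ) - 1 := by linarith
  calc ((p : ℝ) + 1) / p * L * (3 * ((p : ℝ) - 1) / (5 * p - 1))
      ≤ ((p : ℝ) + 1) / p * (p * (5 * p - 1) / (3 * ((p : ℝ) ^ 2 - 1))) *
        (3 * ((p : ℝ) - 1) / (5 * p - 1)) := by
        refine mul_le_mul_of_nonneg_right ?_ (div_nonneg (by linarith) h5.le)
        exact mul_le_mul_of_nonneg_left hL1 (by positivity)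
    _ = 1 := by
        have e1 : (p : ℝ) ^ 2 - 1 = (p + 1) * (p - 1) := by ring
        have e2 : (p : ℝ) + 1 ≠ 0 := by positivity
        rw [e1]
        field_simp
        exact div_self (by linarith)

variable {V : Type} [DecidableEq V] {m : Finset V → ℝ} {K : Finset V}

/-- no top element -/
theorem stA1 (h : PosM m) {mn : Finset V → ℕ} (hmn : ∀ D, m D = mn D)
    (hK : 3 ≤ K.card) {p : ℕ} (hp : 2 ≤ p) (hw : ∀ j ∈ K, 1 ≤ m {j})
    (ha : ∀ j ∈ K, pa m K j ≤ p) (hpal : pal m K = ((K.card : ℝ) - 2) * p + 1) {b : V → ℝ}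
    (hb0 : ∀ j ∈ K, 0 ≤ b j) (hb : ∀ j ∈ K, 2 + pom m K j - (m {j} + m ∅) ≤ b j)
    (hbs : 3 + po m K - m ∅ ≤ ∑ j ∈ K, b j) :
    (p : ℝ) ^ (K.card - 3) * (((p : ℝ) + 1) * Ival m K) ≤
      1 + ∑ j ∈ K, b j / (m {j} + m ∅) := by
  have hp2 : (2 : ℝ) ≤ p := by exact_mod_cast hp
  have hp0 : (0 : ℝ) < p := by linarith
  have hp1 : (0 : ℝ) < p - 1 := by linarith
  have hI := Ival_pos h K
  have hc0 : 0 ≤ m ∅ := h.1 ∅
  have hpo := po_eq (m := m) (K := K)
  have hpl := pal_eq (m := m) (K := K)
  have hsa := sum_pa (m := m) (K := K)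
  have hpt0 : 0 ≤ pt m K := sum_nonneg fun D _ => mul_nonneg (Nat.cast_nonneg _) (h.1 D)
  have hpN0 : 0 ≤ pN m K := sum_nonneg fun D _ => by
    split_ifs
    · exact h.1 D
    · exact le_rfl
  have hpom0 : ∀ j, 0 ≤ pom m K j := fun j =>
    sum_nonneg fun D _ => mul_nonneg (Nat.cast_nonneg _) (h.1 D)
  have hwp : ∀ j ∈ K, m {j} ≤ p := fun j hj => (le_pa h.1 hj).trans (ha j hj)
  have hy0 : ∀ j ∈ K, 0 < m {j} + m ∅ := fun j hj => by linarith [hw j hj]
  have hsx : ∑ j ∈ K, ((p : ℝ) - m {j}) = 2 * p - 1 + m ∅ + pN m K := by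
    rw [sum_sub_distrib, sum_const, nsmul_eq_mul]
    linarith
  have hn : 2 * p - 1 + m ∅ + pN m K ≤ K.card * ((p : ℝ) - 1) := by
    rw [← hsx]
    calc ∑ j ∈ K, ((p : ℝ) - m {j}) ≤ ∑ _j ∈ K, ((p : ℝ) - 1) :=
          sum_le_sum fun j hj => by linarith [hw j hj]
      _ = K.card * ((p : ℝ) - 1) := by rw [sum_const, nsmul_eq_mul]
  have hS0 : 0 ≤ ∑ j ∈ K, b j / (m {j} + m ∅) := sum_nonneg fun j hj =>
    div_nonneg (hb0 j hj) (hy0 j hj).le
  have hcast : m ∅ = (mn ∅ : ℝ) := hmn ∅
  have hint : ∀ D, ∃ k : ℕ, m D = k := fun D => ⟨mn D, hmn D⟩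
  obtain ⟨On, hOn⟩ := po_int hint K
  have hbj : ∀ j ∈ K, 2 + po m K - pa m K j - m ∅ ≤ b j := by
    intro j hj
    have h1 := pa_add_pom (m := m) hj
    have h2 := hb j hj
    linarith
  have hpw : (p : ℝ) ^ (K.card - 2) = p * p ^ (K.card - 3) := by
    rw [← pow_succ']
    congr 1
    omega
  obtain ⟨Fh, hFh⟩ : ∃ Fh, Fh = (p : ℝ) ^ (K.card - 2) * Ival m K := ⟨_, rfl⟩
  have hFh0 : 0 ≤ Fh := by rw [hFh]; positivity
  have hgoal : (p : ℝ) ^ (K.card - 3) * (((p : ℝ) + 1) * Ival m K) =
      ((p : ℝ) + 1) / p * Fh := by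
    rw [hFh, hpw]
    field_simp
  rw [hgoal]
  -- the linear bound
  have hQ : pal m K - ((K.card : ℝ) - 2) * p = 1 := by rw [hpal]; ring
  have hv := vstar (m := m) (K := K) h (by omega) (P := p) (Q1 := 2) hp0 ha
    (by rw [hQ]; norm_num) hp2 (by norm_num) (b := b) hb (by rw [hQ]; linarith)
  rw [hQ, ← hFh] at hv
  have hbig : 2 / ((p : ℝ) - 1) ≤ ∑ j ∈ K, b j / (m {j} + m ∅) →
      ((p : ℝ) + 1) / p * Fh ≤ 1 + ∑ j ∈ K, b j / (m {j} + m ∅) := by
    intro h1
    rw [div_le_iff₀ hp1] at h1
    rw [div_mul_eq_mul_div, div_le_iff₀ hp0]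
    nlinarith
  have hone : Fh ≤ 1 → 1 / (p : ℝ) ≤ ∑ j ∈ K, b j / (m {j} + m ∅) →
      ((p : ℝ) + 1) / p * Fh ≤ 1 + ∑ j ∈ K, b j / (m {j} + m ∅) := by
    intro h1 h2
    have h3 : ((p : ℝ) + 1) / p = 1 + 1 / p := by field_simp
    rw [h3]
    have h4 : (1 + 1 / (p : ℝ)) * Fh ≤ (1 + 1 / p) * 1 :=
      mul_le_mul_of_nonneg_left h1 (by positivity)
    linarith
  -- all elements
  have hsum : (∑ j ∈ K, b j) / (p + m ∅) ≤ ∑ j ∈ K, b j / (m {j} + m ∅) := by
    rw [sum_div]
    refine sum_le_sum fun j hj => ?_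
    exact div_le_div_of_nonneg_left (hb0 j hj) (hy0 j hj) (by linarith [hwp j hj])
  have hall : ∀ s : ℝ, (∀ j ∈ K, s ≤ b j) → 0 ≤ s →
      s / (p - 1) ≤ ∑ j ∈ K, b j / (m {j} + m ∅) := by
    intro s hs hs0
    refine le_trans ?_ hsum
    have h1 : (K.card : ℝ) * s ≤ ∑ j ∈ K, b j := by
      calc (K.card : ℝ) * s = ∑ _j ∈ K, s := by rw [sum_const, nsmul_eq_mul]
        _ ≤ _ := sum_le_sum hs
    rw [div_le_div_iff₀ hp1 (by linarith)]
    have h2 := mul_le_mul_of_nonneg_right h1 hp1.le
    have h3 : s * (p + m ∅) ≤ s * (K.card * ((p : ℝ) - 1)) :=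
      mul_le_mul_of_nonneg_left (by linarith) hs0
    nlinarith
  -- the roots
  obtain ⟨L, hL, hLq⟩ := exists_root (show 1 ≤ p - 1 by omega) hp0
  obtain ⟨H, hH, hHq⟩ := exists_root (show 1 ≤ p - 1 by omega)
    (show (0 : ℝ) < 2 * p / (p + 1) by positivity)
  have hH1 := H_ge_one hp hH hHq
  have hgw : ∀ (c0 Δ : ℕ), c0 ≤ mn ∅ → Δ = 2 * (p - 1) + (1 + c0) →
      Fh ≤ L ^ (1 + c0) * H ^ (On - (mn ∅ - c0)) * bq (p - 1) c0 Δ := by
    intro c0 Δ hc hΔ
    have h1 := mass_gw (m := m) (K := K) (q := p) (L := L) (H := H) hp hL hH hLq hHq hmn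
      (fun j hj => by
        have := hw j hj
        rw [hmn] at this
        exact_mod_cast this) ha (c0 := c0) (On := On) (Δ := Δ) hc hOn
      (by
        rw [hpal, hΔ]
        push_cast [Nat.cast_sub (show 1 ≤ p by omega)]
        ring)
    have h2 : (p : ℝ) ^ K.card * Ival m K = p ^ 2 * Fh := by
      rw [hFh, ← mul_assoc, ← pow_add]
      congr 2
      omega
    have h3 : L ^ Δ = p ^ 2 * L ^ (1 + c0) := by
      rw [hΔ, pow_add, mul_comm 2, pow_mul, hLq]
    rw [h2, h3] at h1
    have h4 : (0 : ℝ) < p ^ 2 := by positivity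
    refine le_of_mul_le_mul_left ?_ h4
    refine h1.trans (le_of_eq ?_)
    ring
  have hN : ((p - 1 : ℕ) : ℝ) = p - 1 := by
    rw [Nat.cast_sub (by omega), Nat.cast_one]
  -- the cases
  have hc4 : mn ∅ = 0 ∨ mn ∅ = 1 ∨ 2 ≤ mn ∅ := by omega
  rcases hc4 with hc | hc | hc
  · -- no base
    have hm0 : m ∅ = 0 := by rw [hcast, hc, Nat.cast_zero]
    apply hbig
    rcases Nat.lt_or_ge p 3 with h3 | h3
    · have hpe : (p : ℝ) = 2 := by
        have : p = 2 := by omega
        rw [this]
        norm_num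
      have h1 : ∑ j ∈ K, ((p : ℝ) - m {j}) ≤ ∑ j ∈ K, b j / (m {j} + m ∅) := by
        refine sum_le_sum fun j hj => ?_
        have h1 := hw j hj
        have h2 := hwp j hj
        rw [hpe] at h2
        rw [hmn {j}] at h1 h2
        have h3 : 1 ≤ mn {j} := by exact_mod_cast h1
        have h4 : mn {j} ≤ 2 := by exact_mod_cast h2
        rcases Nat.lt_or_ge (mn {j}) 2 with h5 | h5
        · have h6 : mn {j} = 1 := by omega
          have h7 : m {j} = 1 := by rw [hmn, h6, Nat.cast_one]
          have h8 := hb j hj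
          have h9 := hpom0 j
          rw [h7, hm0] at h8
          rw [h7, hm0, hpe, add_zero, div_one]
          linarith
        · have h6 : mn {j} = 2 := by omega
          have h7 : m {j} = 2 := by
            rw [hmn, h6]
            norm_num
          have h8 : 0 ≤ b j / (m {j} + m ∅) := div_nonneg (hb0 j hj) (hy0 j hj).le
          rw [hpe]
          linarith
      rw [hsx] at h1
      refine le_trans ?_ h1
      rw [hpe, hm0]
      norm_num
      linarith
    · have hp3 : (3 : ℝ) ≤ p := by exact_mod_cast h3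
      refine le_trans ?_ hsum
      rw [hm0, add_zero, div_le_div_iff₀ hp1 hp0]
      rw [hm0, sub_zero] at hbs
      have : 0 ≤ po m K := by linarith
      nlinarith
  · have hm0 : m ∅ = 1 := by rw [hcast, hc, Nat.cast_one]
    rcases Nat.lt_or_ge On p with h1 | h1
    · -- few overlaps
      have h2 := hgw 1 (2 * (p - 1) + (1 + 1)) (by omega) rfl
      rw [hc, Nat.sub_self, Nat.sub_zero] at h2
      have hbq : bq (p - 1) 1 (2 * (p - 1) + (1 + 1)) = ((p : ℝ) - 1) / (3 * p - 1) := by
        unfold bq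
        rw [prod_range_succ, prod_range_zero]
        push_cast
        rw [hN]
        have e1 : (0 + 1) * ((p : ℝ) - 1) + (2 * (p - 1) + 2) = 3 * p - 1 := by ring
        rw [e1]
        ring
      rw [hbq] at h2
      have h3 := num1 hp hL hLq
      have h4 : Fh ≤ H ^ On := by
        calc Fh ≤ L ^ (1 + 1) * H ^ On * (((p : ℝ) - 1) / (3 * p - 1)) := h2
          _ = (L ^ 2 * (((p : ℝ) - 1) / (3 * p - 1))) * H ^ On := by ring
          _ ≤ 1 * H ^ On := mul_le_mul_of_nonneg_right h3 (by positivity)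
          _ = H ^ On := one_mul _
      have h5 := H_pow_le hp hH hHq (j := On) (by omega)
      have h6 : ((p : ℝ) + 1) / p * Fh ≤ ((p : ℝ) + 1) / p * (1 + On / (p + 1)) :=
        mul_le_mul_of_nonneg_left (h4.trans h5) (by positivity)
      refine h6.trans ?_
      have h7 : (2 + (On : ℝ)) / (p + 1) ≤ ∑ j ∈ K, b j / (m {j} + m ∅) := by
        refine le_trans ?_ hsum
        rw [hm0]
        refine div_le_div_of_nonneg_right ?_ (by linarith)
        rw [hm0, hOn] at hbs
        linarith
      have h8 : ((p : ℝ) + 1) / p * (1 + On / (p + 1)) = 1 + (1 + On) / p := by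
        field_simp
        ring
      rw [h8]
      have h9 : (1 + (On : ℝ)) / p ≤ (2 + (On : ℝ)) / (p + 1) := by
        rw [div_le_div_iff₀ hp0 (by linarith)]
        have : (On : ℝ) + 1 ≤ p := by exact_mod_cast h1
        nlinarith
      linarith
    · apply hbig
      have hOp : (p : ℝ) ≤ po m K := by
        rw [hOn]
        exact_mod_cast h1
      refine le_trans ?_ hsum
      have h2 : (K.card : ℝ) + p ≤ ∑ j ∈ K, b j := by
        have h3 : ∑ j ∈ K, (2 + po m K - pa m K j - m ∅) ≤ ∑ j ∈ K, b j := sum_le_sum hbj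
        have h4 : ∑ j ∈ K, (2 + po m K - pa m K j - m ∅) =
            K.card * (2 + po m K - m ∅) - (pal m K - m ∅ + po m K) := by
          rw [← hsa]
          have : ∀ j ∈ K, 2 + po m K - pa m K j - m ∅ = (2 + po m K - m ∅) - pa m K j :=
            fun j _ => by ring
          rw [sum_congr rfl this, sum_sub_distrib, sum_const, nsmul_eq_mul]
        rw [h4, hpal, hm0] at h3
        have h5 : (3 : ℝ) ≤ K.card := by exact_mod_cast hK
        nlinarith [mul_nonneg (by linarith : 0 ≤ (K.card : ℝ) - 1) (sub_nonneg.2 hOp)]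
      rw [hm0, div_le_div_iff₀ hp1 (by linarith)]
      have h3 := mul_le_mul_of_nonneg_right h2 hp1.le
      rw [hm0] at hn
      nlinarith
  · have hc2 : (2 : ℝ) ≤ m ∅ := by
      rw [hcast]
      exact_mod_cast hc
    -- the bound with base two
    have h2 := hgw 2 (2 * (p - 1) + (1 + 2)) hc rfl
    have hbq : bq (p - 1) 2 (2 * (p - 1) + (1 + 2)) =
        2 * ((p : ℝ) - 1) ^ 2 / (3 * p * (4 * p - 1)) := by
      unfold bq
      rw [prod_range_succ, prod_range_succ, prod_range_zero]
      push_cast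
      rw [hN]
      have e1 : (4 : ℝ) * p - 1 ≠ 0 := by linarith
      have e2 : (0 + 1) * ((p : ℝ) - 1) + (2 * (p - 1) + 3) = 3 * p := by ring
      have e3 : (1 + 1) * ((p : ℝ) - 1) + (2 * (p - 1) + 3) = 4 * p - 1 := by ring
      rw [e2, e3]
      field_simp
      ring
    rw [hbq] at h2
    have h3 := num2 hp hL hH hLq hHq
    have hF1 : On - (mn ∅ - 2) ≤ p + 1 → Fh ≤ 1 := by
      intro h4
      have h5 : H ^ (On - (mn ∅ - 2)) ≤ H ^ (p + 1) := pow_le_pow_right₀ hH1 h4
      calc Fh ≤ L ^ (1 + 2) * H ^ (On - (mn ∅ - 2)) *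
            (2 * ((p : ℝ) - 1) ^ 2 / (3 * p * (4 * p - 1))) := h2
        _ ≤ L ^ (1 + 2) * H ^ (p + 1) * (2 * ((p : ℝ) - 1) ^ 2 / (3 * p * (4 * p - 1))) := by
            refine mul_le_mul_of_nonneg_right (mul_le_mul_of_nonneg_left h5 (by positivity)) ?_
            exact div_nonneg (by positivity) (mul_nonneg (by positivity) (by linarith))
        _ ≤ 1 := h3
    rcases Nat.lt_or_ge On (mn ∅ + p) with h4 | h4
    · rcases Nat.lt_or_ge On (mn ∅ + (p - 1)) with h5 | h5
      · rcases Nat.lt_or_ge (mn ∅) 3 with h6 | h6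
        · -- base two
          have hce : mn ∅ = 2 := by omega
          have hm0 : m ∅ = 2 := by
            rw [hcast, hce]
            norm_num
          have h7 : (1 + (On : ℝ)) / (p + 2) ≤ ∑ j ∈ K, b j / (m {j} + m ∅) := by
            refine le_trans ?_ hsum
            rw [hm0]
            refine div_le_div_of_nonneg_right ?_ (by linarith)
            rw [hm0, hOn] at hbs
            linarith
          rcases Nat.eq_zero_or_pos On with h8 | h8
          · -- no overlaps
            rw [h8, Nat.zero_sub, pow_zero, mul_one] at h2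
            have h9 : Fh * (2 * p / (p + 1)) ≤ 1 := by
              have h10 : (2 * (p : ℝ) / (p + 1)) ≤ H ^ (p + 1) := by
                rw [← hHq]
                exact pow_le_pow_right₀ hH1 (by omega)
              calc Fh * (2 * p / (p + 1))
                  ≤ (L ^ (1 + 2) * (2 * ((p : ℝ) - 1) ^ 2 / (3 * p * (4 * p - 1)))) *
                    H ^ (p + 1) := by
                    refine mul_le_mul h2 h10 (by positivity) ?_
                    exact hFh0.trans h2
                _ = L ^ 3 * H ^ (p + 1) * (2 * ((p : ℝ) - 1) ^ 2 / (3 * p * (4 * p - 1))) := by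
                    ring
                _ ≤ 1 := h3
            have h10 : Fh ≤ (p + 1) / (2 * p) := by
              rw [le_div_iff₀ (by positivity)]
              rw [← mul_div_assoc, div_le_one (by positivity)] at h9
              linarith
            have h11 : ((p : ℝ) + 1) / p * Fh ≤ ((p : ℝ) + 1) / p * ((p + 1) / (2 * p)) :=
              mul_le_mul_of_nonneg_left h10 (by positivity)
            have h12 : ((p : ℝ) + 1) / p * ((p + 1) / (2 * p)) ≤ 1 + 1 / (p + 2) := by
              have e1 : (1 : ℝ) + 1 / (p + 2) = (p + 3) / (p + 2) := by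
                field_simp
                ring
              rw [e1, div_mul_div_comm, div_le_div_iff₀ (by positivity) (by positivity)]
              nlinarith [mul_nonneg (sub_nonneg.2 hp2) hp0.le,
                mul_nonneg (mul_nonneg (sub_nonneg.2 hp2) hp0.le) hp0.le]
            rw [h8, Nat.cast_zero, add_zero] at h7
            linarith
          · refine hone (hF1 (by omega)) (le_trans ?_ h7)
            have h9 : (1 : ℝ) ≤ On := by exact_mod_cast h8
            rw [div_le_div_iff₀ hp0 (by linarith)]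
            nlinarith
        · -- base three
          have h7 := hgw 3 (2 * (p - 1) + (1 + 3)) h6 rfl
          have hbq3 : bq (p - 1) 3 (2 * (p - 1) + (1 + 3)) =
              ((p : ℝ) - 1) / (3 * p + 1) * (2 * (p - 1) / (4 * p)) *
                (3 * (p - 1) / (5 * p - 1)) := by
            unfold bq
            rw [prod_range_succ, prod_range_succ, prod_range_succ, prod_range_zero]
            push_cast
            rw [hN]
            have e1 : (0 + 1) * ((p : ℝ) - 1) + (2 * (p - 1) + 4) = 3 * p + 1 := by ring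
            have e2 : (1 + 1) * ((p : ℝ) - 1) + (2 * (p - 1) + 4) = 4 * p := by ring
            have e3 : (2 + 1) * ((p : ℝ) - 1) + (2 * (p - 1) + 4) = 5 * p - 1 := by ring
            rw [e1, e2, e3]
            ring
          rw [hbq3] at h7
          have h8 : H ^ (On - (mn ∅ - 3)) ≤ H ^ (p + 1) := pow_le_pow_right₀ hH1 (by omega)
          have h9 : ((p : ℝ) - 1) / (3 * p + 1) * (2 * (p - 1) / (4 * p)) ≤
              2 * ((p : ℝ) - 1) ^ 2 / (3 * p * (4 * p - 1)) := by
            rw [div_mul_div_comm]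
            have e1 : ((p : ℝ) - 1) * (2 * (p - 1)) = 2 * (p - 1) ^ 2 := by ring
            rw [e1]
            refine div_le_div_of_nonneg_left (by positivity)
              (mul_pos (by positivity) (by linarith)) ?_
            nlinarith
          have h10 : 0 ≤ 3 * ((p : ℝ) - 1) / (5 * p - 1) :=
            div_nonneg (by linarith) (by linarith)
          have h11 : Fh ≤ L * (3 * (p - 1) / (5 * p - 1)) := by
            calc Fh ≤ L ^ (1 + 3) * H ^ (On - (mn ∅ - 3)) *
                  (((p : ℝ) - 1) / (3 * p + 1) * (2 * (p - 1) / (4 * p)) *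
                    (3 * (p - 1) / (5 * p - 1))) := h7
              _ ≤ L ^ (1 + 3) * H ^ (p + 1) * (2 * ((p : ℝ) - 1) ^ 2 / (3 * p * (4 * p - 1)) *
                    (3 * (p - 1) / (5 * p - 1))) := by
                  refine mul_le_mul (mul_le_mul_of_nonneg_left h8 (by positivity))
                    (mul_le_mul_of_nonneg_right h9 h10) ?_ (by positivity)
                  exact mul_nonneg (mul_nonneg (div_nonneg hp1.le (by positivity))
                    (div_nonneg (by linarith) (by positivity))) h10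
              _ = (L ^ 3 * H ^ (p + 1) * (2 * ((p : ℝ) - 1) ^ 2 / (3 * p * (4 * p - 1)))) *
                    (L * (3 * (p - 1) / (5 * p - 1))) := by ring
              _ ≤ 1 * (L * (3 * (p - 1) / (5 * p - 1))) :=
                  mul_le_mul_of_nonneg_right h3 (mul_nonneg hL.le h10)
              _ = _ := one_mul _
          have h12 : ((p : ℝ) + 1) / p * Fh ≤
              ((p : ℝ) + 1) / p * (L * (3 * (p - 1) / (5 * p - 1))) :=
            mul_le_mul_of_nonneg_left h11 (by positivity)
          have h13 := num3L hp hL hLq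
          rw [mul_assoc] at h13
          linarith
      · -- `O = c + p - 1`
        have h6 : On = mn ∅ + (p - 1) := by omega
        have h7 : po m K = m ∅ + (p - 1) := by
          rw [hOn, hcast, h6]
          push_cast [Nat.cast_sub (show 1 ≤ p by omega)]
          ring
        refine hone (hF1 (by omega)) ?_
        refine le_trans ?_ (hall 1 (fun j hj => ?_) zero_le_one)
        · exact one_div_le_one_div_of_le hp1 (by linarith)
        · have h8 := hbj j hj
          have h9 := ha j hj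
          linarith
    · apply hbig
      have h6 : m ∅ + p ≤ po m K := by
        rw [hOn, hcast]
        exact_mod_cast h4
      refine hall 2 (fun j hj => ?_) (by norm_num)
      have h8 := hbj j hj
      have h9 := ha j hj
      linarith

end MP76b19e.Rob
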