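import Pool.Agent.Lib.MP76b19e.Rob.StA3
import Pool.Agent.Lib.MP76b19e.Rob.MassGW

/-!
# No top element, total mass `(n - 2) p + 2` (problem MP_76b19e_co)

`stA2`: `p ^ (n - 3) (2 p + 2) I(K) ≤ 1 + ∑ b_j / (m {j} + m ∅)`.
-/

set_option autoImplicit false

open Finset

namespace MP76b19e.Rob

variable {V : Type} [DecidableEq V] {m : Finset V → ℝ} {K : Finset V}

omit [DecidableEq V] in
/-- no shared mass, no overlaps -/
theorem po_eq_zero (h : ∀ D, 0 ≤ m D) (h0 : pN m K = 0) : po m K = 0 := by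
  unfold pN at h0
  unfold po
  have h1 := (sum_eq_zero_iff_of_nonneg (fun D _ => by
    split_ifs
    · exact h D
    · exact le_rfl)).1 h0
  refine sum_eq_zero fun D hD => ?_
  have h2 := h1 D hD
  by_cases h3 : 2 ≤ D.card
  · rw [if_pos h3] at h2
    rw [h2, mul_zero]
  · have h4 : D.card - 1 = 0 := by omega
    rw [h4, Nat.cast_zero, zero_mul]

omit [DecidableEq V] in
theorem pN_int (hint : ∀ D, ∃ k : ℕ, m D = k) (K : Finset V) : ∃ k : ℕ, pN m K = k := by
  refine sum_int _ _ fun D _ => ?_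
  split_ifs
  · exact hint D
  · exact ⟨0, by simp⟩

/-- the case `p = 2` -/
private theorem stA2_two (h : PosM m) {mn : Finset V → ℕ} (hmn : ∀ D, m D = mn D)
    (hK : 4 ≤ K.card) (hw : ∀ j ∈ K, 1 ≤ m {j})
    (ha : ∀ j ∈ K, pa m K j ≤ 2) (hpal : pal m K = ((K.card : ℝ) - 2) * 2 + 2) {b : V → ℝ}
    (hb0 : ∀ j ∈ K, 0 ≤ b j) (hb : ∀ j ∈ K, 3 + pom m K j - (m {j} + m ∅) ≤ b j)
    (hbs : 4 + po m K - m ∅ ≤ ∑ j ∈ K, b j) :
    3 * ((2 : ℝ) ^ (K.card - 2) * Ival m K) ≤ 1 + ∑ j ∈ K, b j / (m {j} + m ∅) := by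
  have hc0 : 0 ≤ m ∅ := h.1 ∅
  have hpo := po_eq (m := m) (K := K)
  have hpl := pal_eq (m := m) (K := K)
  have hsa := sum_pa (m := m) (K := K)
  have hpt0 : 0 ≤ pt m K := sum_nonneg fun D _ => mul_nonneg (Nat.cast_nonneg _) (h.1 D)
  have hpN0 : 0 ≤ pN m K := sum_nonneg fun D _ => by
    split_ifs
    · exact h.1 D
    · exact le_rfl
  have hpom0 : ∀ j, 0 ≤ pom m K j := fun j =>
    sum_nonneg fun D _ => mul_nonneg (Nat.cast_nonneg _) (h.1 D)
  have hwp : ∀ j ∈ K, m {j} ≤ 2 := fun j hj => (le_pa h.1 hj).trans (ha j hj)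
  have hy0 : ∀ j ∈ K, 0 < m {j} + m ∅ := fun j hj => by linarith [hw j hj]
  have hsx : ∑ j ∈ K, ((2 : ℝ) - m {j}) = 2 + m ∅ + pN m K := by
    rw [sum_sub_distrib, sum_const, nsmul_eq_mul]
    linarith
  have hn : 2 + m ∅ + pN m K ≤ K.card := by
    rw [← hsx]
    calc ∑ j ∈ K, ((2 : ℝ) - m {j}) ≤ ∑ _j ∈ K, (1 : ℝ) :=
          sum_le_sum fun j hj => by linarith [hw j hj]
      _ = K.card := by rw [sum_const, nsmul_eq_mul, mul_one]
  have hS0 : 0 ≤ ∑ j ∈ K, b j / (m {j} + m ∅) := sum_nonneg fun j hj =>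
    div_nonneg (hb0 j hj) (hy0 j hj).le
  have hcast : m ∅ = (mn ∅ : ℝ) := hmn ∅
  have hint : ∀ D, ∃ k : ℕ, m D = k := fun D => ⟨mn D, hmn D⟩
  obtain ⟨On, hOn⟩ := po_int hint K
  obtain ⟨Nn, hNn⟩ := pN_int hint K
  -- the linear bound
  have hv := vstar (m := m) (K := K) h (by omega) (P := 2) (Q1 := 2) (by norm_num) ha
    (by rw [hpal]; ring_nf; norm_num) le_rfl (by norm_num) (b := b)
    (fun j hj => by linarith [hb j hj]) (by rw [hpal]; ring_nf; linarith)
  have hQ : pal m K - ((K.card : ℝ) - 2) * 2 = 2 := by rw [hpal]; ring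
  rw [hQ] at hv
  have hbig : 2 ≤ ∑ j ∈ K, b j / (m {j} + m ∅) →
      3 * ((2 : ℝ) ^ (K.card - 2) * Ival m K) ≤ 1 + ∑ j ∈ K, b j / (m {j} + m ∅) := by
    intro h1
    linarith
  -- all elements
  have hall : ∀ s : ℝ, (∀ j ∈ K, s ≤ b j) → 0 ≤ s →
      s ≤ ∑ j ∈ K, b j / (m {j} + m ∅) := by
    intro s hs hs0
    have h6 : ∀ j ∈ K, s / (2 + m ∅) ≤ b j / (m {j} + m ∅) := by
      intro j hj
      have hyj := hy0 j hj
      have := hwp j hj
      calc s / (2 + m ∅) ≤ s / (m {j} + m ∅) :=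
            div_le_div_of_nonneg_left hs0 hyj (by linarith)
        _ ≤ _ := div_le_div_of_nonneg_right (hs j hj) hyj.le
    have h7 := sum_le_sum h6
    rw [sum_const, nsmul_eq_mul] at h7
    refine le_trans ?_ h7
    have h8 : 0 < 2 + m ∅ := by linarith
    rw [← mul_div_assoc, le_div_iff₀ h8, mul_comm]
    exact mul_le_mul_of_nonneg_right (by linarith) hs0
  have hbj : ∀ j ∈ K, 3 + po m K - pa m K j - m ∅ ≤ b j := by
    intro j hj
    have h1 := pa_add_pom (m := m) hj
    have h2 := hb j hj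
    linarith
  -- elements with private mass one
  have hone : ∀ s : ℝ, (∀ j ∈ K, m {j} = 1 → s ≤ b j / (m {j} + m ∅)) → 0 ≤ s →
      s * (2 + m ∅ + pN m K) ≤ ∑ j ∈ K, b j / (m {j} + m ∅) := by
    intro s hs hs0
    rw [← hsx, mul_sum]
    refine sum_le_sum fun j hj => ?_
    have h1 := hw j hj
    have h2 := hwp j hj
    rw [hmn {j}] at h1 h2
    have h3 : 1 ≤ mn {j} := by exact_mod_cast h1
    have h4 : mn {j} ≤ 2 := by exact_mod_cast h2
    rcases Nat.lt_or_ge (mn {j}) 2 with h5 | h5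
    · have h6 : mn {j} = 1 := by omega
      have h7 : m {j} = 1 := by rw [hmn, h6, Nat.cast_one]
      rw [h7]
      have h8 := hs j hj h7
      rw [h7] at h8
      linarith
    · have h6 : mn {j} = 2 := by omega
      have h7 : m {j} = 2 := by
        rw [hmn, h6]
        norm_num
      rw [h7, sub_self, mul_zero]
      exact div_nonneg (hb0 j hj) (by linarith)
  -- the product bound
  have hgw : ∀ (c0 Δ : ℕ), c0 ≤ mn ∅ → Δ = 2 + c0 →
      (2 : ℝ) ^ K.card * Ival m K ≤ 2 ^ Δ * (4 / 3) ^ (On - (mn ∅ - c0)) *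
        Pool.Agent.MP76b19e.bq 1 c0 Δ := by
    intro c0 Δ hc hΔ
    have h1 := mass_gw (m := m) (K := K) (q := 2) (L := 2) (H := 4 / 3) le_rfl (by norm_num)
      (by norm_num) (by norm_num) (by norm_num) hmn
      (fun j hj => by
        have := hw j hj
        rw [hmn] at this
        exact_mod_cast this)
      (fun k hk => by
        have := ha k hk
        push_cast
        exact this) (c0 := c0) (On := On) (Δ := Δ) hc hOn
      (by rw [hpal, hΔ]; push_cast; ring)
    simpa using h1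
  have hpw : (2 : ℝ) ^ K.card = 4 * (2 : ℝ) ^ (K.card - 2) := by
    have : (4 : ℝ) = (2 : ℝ) ^ 2 := by norm_num
    rw [this, ← pow_add]
    congr 1
    omega
  -- the cases
  have hc4 : mn ∅ = 0 ∨ mn ∅ = 1 ∨ mn ∅ = 2 ∨ 3 ≤ mn ∅ := by omega
  rcases hc4 with hc | hc | hc | hc
  · -- no base
    have hm0 : m ∅ = 0 := by rw [hcast, hc, Nat.cast_zero]
    apply hbig
    have h1 := hone 2 (fun j hj hj1 => by
      have h2 := hb j hj
      have h3 := hpom0 j
      rw [hj1, hm0] at h2 ⊢
      norm_num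
      linarith) (by norm_num)
    linarith
  · have hm0 : m ∅ = 1 := by rw [hcast, hc, Nat.cast_one]
    have h1 := hone (1 / 2) (fun j hj hj1 => by
      have h2 := hb j hj
      have h3 := hpom0 j
      rw [hj1, hm0] at h2 ⊢
      linarith) (by norm_num)
    rcases Nat.eq_zero_or_pos Nn with h2 | h2
    · have h3 : pN m K = 0 := by rw [hNn, h2, Nat.cast_zero]
      have h4 := po_eq_zero h.1 h3
      have h5 : On = 0 := by
        rw [hOn] at h4
        exact_mod_cast h4
      have h6 := hgw 1 3 (by omega) rfl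
      have hbq : Pool.Agent.MP76b19e.bq 1 1 3 = 1 / 4 := by
        unfold Pool.Agent.MP76b19e.bq
        rw [prod_range_succ, prod_range_zero]
        norm_num
      rw [hbq, h5, Nat.zero_sub, pow_zero, hpw] at h6
      linarith
    · apply hbig
      have h3 : (1 : ℝ) ≤ pN m K := by
        rw [hNn]
        exact_mod_cast h2
      linarith
  · have hm0 : m ∅ = 2 := by
      rw [hcast, hc]
      norm_num
    have h6 := hgw 2 4 (by omega) rfl
    have hbq : Pool.Agent.MP76b19e.bq 1 2 4 = 1 / 15 := by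
      unfold Pool.Agent.MP76b19e.bq
      rw [prod_range_succ, prod_range_succ, prod_range_zero]
      norm_num
    rw [hbq, hc, Nat.sub_self, Nat.sub_zero, hpw] at h6
    -- the total of the `b`
    have hsb : (2 + po m K) / 4 ≤ ∑ j ∈ K, b j / (m {j} + m ∅) := by
      have h7 : (∑ j ∈ K, b j) / 4 ≤ ∑ j ∈ K, b j / (m {j} + m ∅) := by
        rw [sum_div]
        refine sum_le_sum fun j hj => ?_
        exact div_le_div_of_nonneg_left (hb0 j hj) (hy0 j hj) (by linarith [hwp j hj])
      have h8 : (2 + po m K) / 4 ≤ (∑ j ∈ K, b j) / 4 :=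
        div_le_div_of_nonneg_right (by linarith) (by norm_num)
      exact h8.trans h7
    have hO3 : On = 0 ∨ On = 1 ∨ 2 ≤ On := by omega
    rcases hO3 with hO | hO | hO
    · rw [hO, pow_zero] at h6
      linarith
    · rw [hO, pow_one] at h6
      rw [hOn, hO, Nat.cast_one] at hsb
      linarith
    · apply hbig
      have hO2 : (2 : ℝ) ≤ po m K := by
        rw [hOn]
        exact_mod_cast hO
      -- `b_j ≥ O - (a_j - w_j)` for the elements with private mass one
      have h7 : ∑ j ∈ K, (po m K * (2 - m {j}) - (pa m K j - m {j})) / 3 ≤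
          ∑ j ∈ K, b j / (m {j} + m ∅) := by
        refine sum_le_sum fun j hj => ?_
        have h1 := hw j hj
        have h2 := hwp j hj
        have h9 := ha j hj
        have h10 := le_pa (K := K) h.1 hj
        rw [hmn {j}] at h1 h2
        have h3 : 1 ≤ mn {j} := by exact_mod_cast h1
        have h4 : mn {j} ≤ 2 := by exact_mod_cast h2
        rcases Nat.lt_or_ge (mn {j}) 2 with h5 | h5
        · have h6 : mn {j} = 1 := by omega
          have h7 : m {j} = 1 := by rw [hmn, h6, Nat.cast_one]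
          have h8 := hbj j hj
          rw [h7, hm0, show (1 : ℝ) + 2 = 3 by norm_num, div_le_div_iff_of_pos_right (by norm_num)]
          linarith
        · have h6 : mn {j} = 2 := by omega
          have h7 : m {j} = 2 := by
            rw [hmn, h6]
            norm_num
          have h8 : 0 ≤ b j / (m {j} + m ∅) := div_nonneg (hb0 j hj) (hy0 j hj).le
          refine le_trans ?_ h8
          rw [h7, sub_self, mul_zero, zero_sub]
          rw [h7] at h10
          apply div_nonpos_of_nonpos_of_nonneg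
          · linarith
          · norm_num
      have h8 : ∑ j ∈ K, (po m K * (2 - m {j}) - (pa m K j - m {j})) / 3 =
          (po m K * (2 + m ∅ + pN m K) - (po m K + pN m K)) / 3 := by
        rw [← sum_div, sum_sub_distrib, ← mul_sum, hsx, sum_sub_distrib, hsa]
        congr 1
        linarith
      rw [h8] at h7
      refine le_trans ?_ h7
      rw [hm0, le_div_iff₀ (by norm_num)]
      rcases Nat.eq_zero_or_pos Nn with h9 | h9
      · have h10 : pN m K = 0 := by rw [hNn, h9, Nat.cast_zero]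
        have h11 := po_eq_zero h.1 h10
        linarith
      · have h10 : (1 : ℝ) ≤ pN m K := by
          rw [hNn]
          exact_mod_cast h9
        nlinarith [mul_nonneg (by linarith : 0 ≤ po m K - 2) (by linarith : 0 ≤ pN m K - 1)]
  · have h6 := hgw 3 5 (by omega) rfl
    have hbq : Pool.Agent.MP76b19e.bq 1 3 5 = 1 / 56 := by
      unfold Pool.Agent.MP76b19e.bq
      rw [prod_range_succ, prod_range_succ, prod_range_succ, prod_range_zero]
      norm_num
    rw [hbq, hpw] at h6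
    rcases lt_trichotomy On (mn ∅) with h7 | h7 | h7
    · have h8 : ((4 : ℝ) / 3) ^ (On - (mn ∅ - 3)) ≤ (4 / 3) ^ 2 :=
        pow_le_pow_right₀ (by norm_num) (by omega)
      nlinarith
    · have h8 : On - (mn ∅ - 3) = 3 := by omega
      rw [h8] at h6
      have h9 : po m K = m ∅ := by rw [hOn, hcast, h7]
      have h10 := hall 1 (fun j hj => by
        have h11 := hbj j hj
        have h12 := ha j hj
        linarith) zero_le_one
      norm_num at h6
      linarith
    · apply hbig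
      have h9 : m ∅ + 1 ≤ po m K := by
        rw [hOn, hcast]
        exact_mod_cast h7
      refine hall 2 (fun j hj => ?_) (by norm_num)
      have h11 := hbj j hj
      have h12 := ha j hj
      linarith

/-- no top element -/
theorem stA2 (h : PosM m) {mn : Finset V → ℕ} (hmn : ∀ D, m D = mn D)
    (hK : 4 ≤ K.card) {p : ℕ} (hp : 2 ≤ p) (hw : ∀ j ∈ K, 1 ≤ m {j})
    (ha : ∀ j ∈ K, pa m K j ≤ p) (hpal : pal m K = ((K.card : ℝ) - 2) * p + 2) {b : V → ℝ}
    (hb0 : ∀ j ∈ K, 0 ≤ b j) (hb : ∀ j ∈ K, 3 + pom m K j - (m {j} + m ∅) ≤ b j)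
    (hbs : 4 + po m K - m ∅ ≤ ∑ j ∈ K, b j) :
    (p : ℝ) ^ (K.card - 3) * ((2 * p + 2) * Ival m K) ≤
      1 + ∑ j ∈ K, b j / (m {j} + m ∅) := by
  have hp2 : (2 : ℝ) ≤ p := by exact_mod_cast hp
  have hp0 : (0 : ℝ) < p := by linarith
  have hI := Ival_pos h K
  have hS0 : 0 ≤ ∑ j ∈ K, b j / (m {j} + m ∅) := sum_nonneg fun j hj =>
    div_nonneg (hb0 j hj) (by linarith [hw j hj, h.1 ∅])
  have hpw : (p : ℝ) ^ (K.card - 2) = p * p ^ (K.card - 3) := by
    rw [← pow_succ']
    congr 1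
    omega
  rcases Nat.lt_or_ge p 3 with h3 | h3
  · have hpe : p = 2 := by omega
    subst hpe
    push_cast at ha hpal hpw ⊢
    have h1 := stA2_two h hmn hK hw ha hpal hb0 hb hbs
    rw [hpw] at h1
    refine le_trans (le_of_eq ?_) h1
    ring
  · have hp3 : (3 : ℝ) ≤ p := by exact_mod_cast h3
    have hQ : pal m K - ((K.card : ℝ) - 2) * p = 2 := by rw [hpal]; ring
    have hv := vstar (m := m) (K := K) h (by omega) (P := p) (Q1 := 3) hp0 ha
      (by rw [hQ]; norm_num) hp3 (by norm_num) (b := b) hb (by rw [hQ]; linarith)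
    rw [hQ, hpw] at hv
    have h1 : (p : ℝ) ^ (K.card - 3) * ((2 * p + 2) * Ival m K) ≤
        8 / 3 * (p * p ^ (K.card - 3) * Ival m K) := by
      have h2 : 0 ≤ (p : ℝ) ^ (K.card - 3) * Ival m K := by positivity
      nlinarith
    linarith

end MP76b19e.Rob
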