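import Pool.Agent.Lib.MP76b19e.Rob.ScaleT

/-!
# One over-full top element (problem MP_76b19e_co)

`stA3o`: `p ^ (n - 3) ((2 p + 2) I(K) - I(K - t)) ≤ 1 + ∑ b_j / m {j}` if `t` owns the mass `p + 1`,
not all of it private, the others at most `p`, and the total mass is `(n - 2) p + 2`.
-/

set_option autoImplicit false

open Finset

namespace MP76b19e.Rob

private theorem num_g2 {p g x w lam : ℝ} (hp : 2 ≤ p) (hg : 2 ≤ g)
    (hw1 : 1 ≤ w) (hwp : w ≤ p) (hx : x = p + 1 - w) (hl : lam = 1 + x / (p + 1)) :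
    lam * (p - 3 + g) * x / (p ^ 2 * w) - g * (1 / w - 1 / p) ≤
      1 + (3 * g + p + 1) / p - lam * (5 / p + (g - 3) / p ^ 2) := by
  have hp0 : 0 < p := by linarith
  have hp1 : 0 < p + 1 := by linarith
  have hw0 : 0 < w := by linarith
  have hl1 : lam * (p + 1) = p + 1 + x := by
    rw [hl]
    field_simp
  have hl2 : lam ≤ 2 := by nlinarith
  have hl0 : 0 < lam := by nlinarith
  have hA : lam * (p - 3 + g) / p ≤ g := by
    rw [div_le_iff₀ hp0]
    nlinarith
  have h1 : lam * (p - 3 + g) * x / (p ^ 2 * w) - g * (1 / w - 1 / p) =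
      (lam * (p - 3 + g) / p * x - g * (p - w)) / (p * w) := by
    field_simp
  have h2 : lam * (p - 3 + g) / p * x - g * (p - w) ≤ g * w := by
    rw [hx]
    nlinarith
  have h3 : (lam * (p - 3 + g) / p * x - g * (p - w)) / (p * w) ≤ g / p := by
    rw [div_le_div_iff₀ (mul_pos hp0 hw0) hp0]
    nlinarith
  have h4 : 1 + (3 * g + p + 1) / p - lam * (5 / p + (g - 3) / p ^ 2) =
      g / p + (2 * p + 1 + 2 * g - lam * (5 + (g - 3) / p)) / p := by
    field_simp
    ring
  have h5 : 0 ≤ 2 * p + 1 + 2 * g - lam * (5 + (g - 3) / p) := by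
    have h6 : lam * (5 + (g - 3) / p) = (p + 1 + x) * (5 * p + g - 3) / (p * (p + 1)) := by
      rw [hl]
      field_simp
      ring
    rw [h6, sub_nonneg, div_le_iff₀ (mul_pos hp0 hp1)]
    have h7 : x ≤ p := by linarith
    have h8 : (p + 1 + x) * (5 * p + g - 3) ≤ (2 * p + 1) * (5 * p + g - 3) :=
      mul_le_mul_of_nonneg_right (by linarith) (by linarith)
    refine h8.trans ?_
    nlinarith [mul_nonneg (sub_nonneg.2 hg) (sub_nonneg.2 hp),
      mul_nonneg (mul_nonneg (sub_nonneg.2 hg) (sub_nonneg.2 hp)) hp0.le,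
      mul_nonneg (sub_nonneg.2 hp) (sub_nonneg.2 hp), mul_nonneg (mul_nonneg (sub_nonneg.2 hp) (sub_nonneg.2 hp)) hp0.le]
  rw [h1, h4]
  have h9 := div_nonneg h5 hp0.le
  linarith

private theorem num_g1 {p x w lam C : ℝ} (hp : 2 ≤ p) (hx1 : 1 ≤ x) (hxp : x ≤ p - 1)
    (hw : w = p + 1 - x) (hl : lam = 1 + x / (p + 1)) (hC : C = 0 ∨ C = lam * (1 - 1 / p) - 1) :
    C * ((2 * p - 2 - x) / p) + lam * (p - 2) * x / (p ^ 2 * w) - (1 / w - 1 / p) ≤
      1 + (p + 4) / p - lam * (5 / p - 2 / p ^ 2) := by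
  have hp0 : 0 < p := by linarith
  have hp1 : 0 < p + 1 := by linarith
  have hw2 : 2 ≤ w := by linarith
  have hw0 : 0 < w := by linarith
  -- the second part
  have hf : lam * (p - 2) * x / p - (x - 1) ≤ max 1 (p - 4) := by
    have h1 : lam * (p - 2) * x / p - (x - 1) =
        1 - 2 * x / p + (p - 2) * x ^ 2 / (p * (p + 1)) := by
      rw [hl]
      field_simp
      ring
    have h2 : (p - 2) * x ^ 2 / (p * (p + 1)) ≤ x * ((p - 2) * (p - 1) / (p * (p + 1))) := by
      rw [← mul_div_assoc, div_le_div_iff_of_pos_right (mul_pos hp0 hp1)]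
      nlinarith [mul_nonneg (mul_nonneg (sub_nonneg.2 hp) (by linarith : 0 ≤ x))
        (sub_nonneg.2 hxp)]
    have h3 : 1 - 2 * x / p + x * ((p - 2) * (p - 1) / (p * (p + 1))) =
        1 + x * (p - 5) / (p + 1) := by
      field_simp
      ring
    rw [h1]
    refine le_trans (by linarith) (le_trans h3.le ?_)
    rcases le_total p 5 with h5 | h5
    · refine le_trans ?_ (le_max_left _ _)
      have : x * (p - 5) / (p + 1) ≤ 0 := div_nonpos_of_nonpos_of_nonneg
        (mul_nonpos_of_nonneg_of_nonpos (by linarith) (by linarith)) hp1.le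
      linarith
    · refine le_trans ?_ (le_max_right _ _)
      have : x * (p - 5) / (p + 1) ≤ p - 5 := by
        rw [div_le_iff₀ hp1]
        nlinarith
      linarith
  have hm : max 1 (p - 4) ≤ p - 1 := max_le (by linarith) (by linarith)
  have h6 : lam * (p - 2) * x / (p ^ 2 * w) - (1 / w - 1 / p) =
      (lam * (p - 2) * x / p - (x - 1)) / (p * w) := by
    rw [show x - 1 = p - w by linarith]
    field_simp
  have h7 : (lam * (p - 2) * x / p - (x - 1)) / (p * w) ≤ max 1 (p - 4) / (2 * p) := by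
    have h8 : 0 ≤ max 1 (p - 4) := le_trans zero_le_one (le_max_left _ _)
    refine (div_le_div_of_nonneg_right hf (mul_pos hp0 hw0).le).trans ?_
    exact div_le_div_of_nonneg_left h8 (by positivity) (by nlinarith)
  -- the right side
  have h9 : (2 * p - 6 + 14 / (p + 1)) / p ≤ 1 + (p + 4) / p - lam * (5 / p - 2 / p ^ 2) := by
    have h10 : 1 + (p + 4) / p - lam * (5 / p - 2 / p ^ 2) =
        (2 * p + 4 - lam * (5 - 2 / p)) / p := by
      field_simp
      ring
    rw [h10, div_le_div_iff_of_pos_right hp0]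
    have h11 : lam * (5 - 2 / p) ≤ 2 * p / (p + 1) * (5 - 2 / p) := by
      refine mul_le_mul_of_nonneg_right ?_ ?_
      · rw [hl, show 1 + x / (p + 1) = (p + 1 + x) / (p + 1) by field_simp,
          div_le_div_iff_of_pos_right hp1]
        linarith
      · have : 2 / p ≤ 1 := by rwa [div_le_one hp0]
        linarith
    have h12 : 2 * p / (p + 1) * (5 - 2 / p) = 10 - 14 / (p + 1) := by
      field_simp
      ring
    linarith
  -- the first part
  have h13 : C * ((2 * p - 2 - x) / p) ≤ max 0 ((p - 1) * (p - 3) / (p + 1)) / p := by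
    rcases hC with hC | hC
    · rw [hC, zero_mul]
      exact div_nonneg (le_max_left _ _) hp0.le
    · have h14 : C = (x * (p - 1) - (p + 1)) / (p * (p + 1)) := by
        rw [hC, hl]
        field_simp
        ring
      have h15 : C * ((2 * p - 2 - x) / p) =
          ((x * (p - 1) - (p + 1)) * (2 * p - 2 - x) / p / (p + 1)) / p := by
        rw [h14]
        field_simp
      rw [h15, div_le_div_iff_of_pos_right hp0]
      refine le_trans ?_ (le_max_right _ _)
      rw [div_le_div_iff_of_pos_right hp1, div_le_iff₀ hp0]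
      nlinarith [mul_nonneg (sub_nonneg.2 hxp) (sub_nonneg.2 hxp),
        mul_nonneg (mul_nonneg (sub_nonneg.2 hxp) (sub_nonneg.2 hxp)) (by linarith : 0 ≤ p - 1),
        mul_nonneg (sub_nonneg.2 hxp) (by linarith : 0 ≤ p - 1)]
  have h16 : (max 0 ((p - 1) * (p - 3) / (p + 1)) + max 1 (p - 4) / 2) ≤
      2 * p - 6 + 14 / (p + 1) := by
    have h17 : (p - 1) * (p - 3) / (p + 1) = p - 5 + 8 / (p + 1) := by
      field_simp
      ring
    have h18 : 0 < 1 / (p + 1) := by positivity
    have h19 : 14 / (p + 1) = 14 * (1 / (p + 1)) := by ring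
    have h20 : 8 / (p + 1) = 8 * (1 / (p + 1)) := by ring
    have h22 : max 1 (p - 4) / 2 ≤ (p - 1) / 2 := by linarith
    rcases max_cases 0 ((p - 1) * (p - 3) / (p + 1)) with ⟨h, _⟩ | ⟨h, _⟩
    · rw [h]
      have h23 : max 1 (p - 4) / 2 ≤ 2 * p - 6 + 14 / (p + 1) := by
        have h24 : 11 - 3 * p ≤ 28 / (p + 1) := by
          rw [le_div_iff₀ hp1]
          nlinarith
        have h25 : 28 / (p + 1) = 2 * (14 / (p + 1)) := by ring
        linarith
      linarith
    · rw [h, h17, h19, h20]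
      linarith
  have h26 := div_le_div_of_nonneg_right h16 hp0.le
  rw [add_div] at h26
  have h27 : max 1 (p - 4) / 2 / p = max 1 (p - 4) / (2 * p) := by
    rw [div_div]
  rw [h27] at h26
  have h28 : C * ((2 * p - 2 - x) / p) + lam * (p - 2) * x / (p ^ 2 * w) - (1 / w - 1 / p) =
      C * ((2 * p - 2 - x) / p) + (lam * (p - 2) * x / (p ^ 2 * w) - (1 / w - 1 / p)) := by ring
  rw [h28, h6]
  linarith

private theorem num_M1 {p O x lam : ℝ} (hO1 : 0 ≤ O) (hOp : O ≤ p - 2) (hx0 : 0 ≤ x)
    (hxO : x ≤ O) (hl : lam = 1 + x / (p + 1)) :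
    (lam * (1 - 1 / p) - 1) / (O + 1) ≤ lam * (1 - 2 / p) / (O + 2) / 2 := by
  have hp0 : 0 < p := by linarith
  have hp1 : 0 < p + 1 := by linarith
  have h1 : lam * (1 - 1 / p) - 1 = (x * (p - 1) - (p + 1)) / (p * (p + 1)) := by
    rw [hl]
    field_simp
    ring
  have h2 : lam * (1 - 2 / p) = (p + 1 + x) * (p - 2) / (p * (p + 1)) := by
    rw [hl]
    field_simp
  rw [h1, h2, div_div, div_div, div_div, div_le_div_iff₀ (by positivity) (by positivity)]
  have h3 : (x * (p - 1) - (p + 1)) * ((O + 2) * 2) ≤ (p + 1 + x) * (p - 2) * (O + 1) := by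
    obtain ⟨i, hi⟩ : ∃ i, i = p - 2 - O := ⟨_, rfl⟩
    obtain ⟨r, hr⟩ : ∃ r, r = O - x := ⟨_, rfl⟩
    have hi0 : 0 ≤ i := by linarith
    have hr0 : 0 ≤ r := by linarith
    have e1 : p = O + 2 + i := by linarith
    have e2 : O = x + r := by linarith
    have : 0 ≤ (p + 1 + x) * (p - 2) * (O + 1) - (x * (p - 1) - (p + 1)) * ((O + 2) * 2) := by
      rw [e1, e2]
      ring_nf
      positivity
    linarith
  calc (x * (p - 1) - (p + 1)) * (p * (p + 1) * ((O + 2) * 2))
      = (x * (p - 1) - (p + 1)) * ((O + 2) * 2) * (p * (p + 1)) := by ring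
    _ ≤ (p + 1 + x) * (p - 2) * (O + 1) * (p * (p + 1)) :=
        mul_le_mul_of_nonneg_right h3 (by positivity)
    _ = (p + 1 + x) * (p - 2) * (p * (p + 1) * (O + 1)) := by ring

private theorem num_g0 {p O x w g lam : ℝ} (hOp : O ≤ p - 2) (hx1 : 1 ≤ x)
    (hxO : x = O ∨ x + 1 ≤ O) (hw : w = p + 1 - x) (hg : g = O + 2 - p)
    (hl : lam = 1 + x / (p + 1)) :
    lam * (1 - 2 / p) / (O + 2) * ((2 * p - 1 - O) / p + (2 * O - x) / 2) +
      lam * (p - 3 + g) * x / (p ^ 2 * w) ≤
      1 + (p + 1 + g) / p - lam * (5 / p + (g - 3) / p ^ 2) := by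
  have hxO' : x ≤ O := by rcases hxO with h | h <;> linarith
  have hp0 : 0 < p := by linarith
  have hp1 : 0 < p + 1 := by linarith
  have hO2 : 0 < O + 2 := by linarith
  have hw0 : 0 < w := by linarith
  have hl1 : lam * (p + 1) = p + 1 + x := by
    rw [hl]
    field_simp
  have hl2 : lam ≤ 2 := by nlinarith
  have hl0 : 0 < lam := by nlinarith
  have key : (p + 1) * (O - 1) * lam / (p * w) ≤
      (O - x) + lam * (p - 2) * x / (2 * (O + 2)) := by
    rcases hxO with h | h
    · rw [h, sub_self, zero_add, div_le_div_iff₀ (by positivity) (by positivity)]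
      obtain ⟨i, hi⟩ : ∃ i, i = p - 2 - O := ⟨_, rfl⟩
      have hi0 : 0 ≤ i := by linarith
      have e1 : p = O + 2 + i := by linarith
      have e2 : w = 3 + i := by linarith
      have h3 : 2 * (O + 3 + i) * (O - 1) ≤ 3 * (O + i) * O := by
        nlinarith [sq_nonneg (O - 2), mul_nonneg hi0 hO2.le]
      have h4 : (p + 1) * (O - 1) * (2 * (O + 2)) ≤ (p - 2) * O * (p * w) := by
        rw [e1, e2]
        have h5 : (O + 2 + i + 1) * (O - 1) * (2 * (O + 2)) ≤ 3 * (O + i) * O * (O + 2) := by
          calc (O + 2 + i + 1) * (O - 1) * (2 * (O + 2))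
              = 2 * (O + 3 + i) * (O - 1) * (O + 2) := by ring
            _ ≤ _ := mul_le_mul_of_nonneg_right h3 hO2.le
        refine h5.trans ?_
        have hO0 : 0 ≤ O := by linarith
        have : 0 ≤ (O + 2 + i - 2) * O * ((O + 2 + i) * (3 + i)) - 3 * (O + i) * O * (O + 2) := by
          ring_nf
          positivity
        linarith
      calc (p + 1) * (O - 1) * lam * (2 * (O + 2))
          = (p + 1) * (O - 1) * (2 * (O + 2)) * lam := by ring
        _ ≤ (p - 2) * O * (p * w) * lam := mul_le_mul_of_nonneg_right h4 hl0.le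
        _ = _ := by ring
    · have hp4 : 4 ≤ p := by linarith
      have hw4 : 4 ≤ w := by linarith
      have h1 : (p + 1) * (O - 1) * lam / (p * w) ≤ 5 / 16 * (O - 1) * lam := by
        rw [div_le_iff₀ (by positivity)]
        have h2 : (p + 1) ≤ 5 / 16 * (p * w) := by nlinarith
        have h3 := mul_le_mul_of_nonneg_right h2
          (mul_nonneg (by linarith : 0 ≤ O - 1) hl0.le)
        calc (p + 1) * (O - 1) * lam = (p + 1) * ((O - 1) * lam) := by ring
          _ ≤ 5 / 16 * (p * w) * ((O - 1) * lam) := h3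
          _ = _ := by ring
      have h2 : lam * (p - 2) * x / (2 * (O + 2)) ≥ lam / 2 * (O * x / (O + 2)) := by
        rw [ge_iff_le, div_mul_div_comm, div_le_div_iff_of_pos_right (by positivity)]
        have : 0 ≤ lam * x := mul_nonneg hl0.le (by linarith)
        nlinarith [mul_le_mul_of_nonneg_left (by linarith : O ≤ p - 2) this]
      have h3 : lam / 2 * (O - x) ≤ O - x := by nlinarith
      have h4 : 5 / 16 * (O - 1) ≤ 1 / 2 * (O - x + O * x / (O + 2)) := by
        have h5 : O - x + O * x / (O + 2) = (O ^ 2 + 2 * (O - x)) / (O + 2) := by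
          field_simp
          ring
        rw [h5, ← mul_div_assoc, le_div_iff₀ hO2]
        nlinarith [sq_nonneg (O - 1)]
      have h6 := mul_le_mul_of_nonneg_right h4 hl0.le
      nlinarith
  have hx2 : x / (p + 1) ≤ 1 := by
    rw [div_le_one hp1]
    linarith
  have h7 : 0 ≤ lam * (p - 2) * (1 + O) / (p * (O + 2)) :=
    div_nonneg (mul_nonneg (mul_nonneg hl0.le (by linarith)) (by linarith)) (by positivity)
  have h8 : 1 + (p + 1 + g) / p - lam * (5 / p + (g - 3) / p ^ 2) -
      (lam * (1 - 2 / p) / (O + 2) * ((2 * p - 1 - O) / p + (2 * O - x) / 2) +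
      lam * (p - 3 + g) * x / (p ^ 2 * w)) =
      ((1 - x / (p + 1)) + lam * (p - 2) * (1 + O) / (p * (O + 2)) +
        ((O - x) + lam * (p - 2) * x / (2 * (O + 2)) -
          (p + 1) * (O - 1) * lam / (p * w))) / p := by
    rw [hl, hg]
    have hw' : x = p + 1 - w := by linarith
    rw [hw']
    field_simp
    ring
  have h9 : 0 ≤ ((1 - x / (p + 1)) + lam * (p - 2) * (1 + O) / (p * (O + 2)) +
        ((O - x) + lam * (p - 2) * x / (2 * (O + 2)) -
          (p + 1) * (O - 1) * lam / (p * w))) / p :=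
    div_nonneg (by linarith) hp0.le
  linarith


/-- the three cases together -/
private theorem num_sum {V : Type} (L : Finset V) {p g x w lam SB : ℝ} {d ww : V → ℝ}
    (hp : 2 ≤ p) (hg : ∃ z : ℤ, g = z) (he : ∀ j ∈ L, ∃ z : ℤ, g + d j = z)
    (hd : ∀ j ∈ L, 0 ≤ d j) (hw1 : ∀ j ∈ L, 1 ≤ ww j) (hw2 : ∀ j ∈ L, 2 - (g + d j) ≤ ww j)
    (hwp : ∀ j ∈ L, ww j ≤ p - d j) (hD : ∑ j ∈ L, d j = p + 1 - g)
    (hm : ∑ j ∈ L, (p - d j - ww j) ≤ 2 * (p - 2 + g) - x) (hx1 : 1 ≤ x)
    (hxO : x = p - 2 + g ∨ x + 1 ≤ p - 2 + g) (hw : w = p + 1 - x) (hw1' : 1 ≤ w)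
    (hl : lam = 1 + x / (p + 1)) (hS1 : p + 1 + g ≤ SB) (hS2 : 3 * g + p + 1 ≤ SB) :
    ∑ j ∈ L, (lam * (p - 2 + (g + d j)) / p - max (g + d j) 0) * (1 / ww j - 1 / p) +
      (lam * (p - 3 + g) * x / (p ^ 2 * w) - max g 0 * (1 / w - 1 / p)) ≤
      1 + SB / p - lam * (5 / p + (g - 3) / p ^ 2) := by
  have hp0 : 0 < p := by linarith
  have hp1 : 0 < p + 1 := by linarith
  have hl1 : lam * (p + 1) = p + 1 + x := by
    rw [hl]
    field_simp
  have hl2 : lam ≤ 2 := by nlinarith
  have hl0 : 0 < lam := by nlinarith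
  have hy : ∀ j ∈ L, 0 ≤ 1 / ww j - 1 / p := by
    intro j hj
    have h1 := hw1 j hj
    have h2 := hwp j hj
    have h3 := hd j hj
    exact sub_nonneg.2 (one_div_le_one_div_of_le (by linarith) (by linarith))
  -- elements with `e ≥ 2`
  have hbig : ∀ j ∈ L, 2 ≤ g + d j →
      (lam * (p - 2 + (g + d j)) / p - max (g + d j) 0) * (1 / ww j - 1 / p) ≤ 0 := by
    intro j hj h2
    refine mul_nonpos_of_nonpos_of_nonneg ?_ (hy j hj)
    have h3 : lam * (p - 2 + (g + d j)) / p ≤ g + d j := by
      rw [div_le_iff₀ hp0]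
      nlinarith [mul_nonneg (sub_nonneg.2 h2) (sub_nonneg.2 hp),
        mul_le_mul_of_nonneg_right hl2 (by linarith : 0 ≤ p - 2 + (g + d j))]
    have h4 := le_max_left (g + d j) 0
    linarith
  -- elements with `e = 1`
  have hone : ∀ j, g + d j = 1 →
      lam * (p - 2 + (g + d j)) / p - max (g + d j) 0 = lam * (1 - 1 / p) - 1 := by
    intro j h1
    rw [h1, max_eq_left zero_le_one]
    field_simp
    ring
  obtain ⟨z, hz⟩ := hg
  rcases lt_trichotomy z 1 with h | h | h
  · -- `g ≤ 0`
    have hg0 : g ≤ 0 := by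
      rw [hz]
      exact_mod_cast (by omega : z ≤ 0)
    obtain ⟨O, hO⟩ : ∃ O, O = p - 2 + g := ⟨_, rfl⟩
    have hxO' : x ≤ O := by
      rcases hxO with h | h <;> linarith
    have hO1 : 1 ≤ O := by linarith
    have hO2 : 0 < O + 2 := by linarith
    have hM0 : 0 ≤ lam * (1 - 2 / p) / (O + 2) := by
      have : 2 / p ≤ 1 := by rwa [div_le_one hp0]
      exact div_nonneg (mul_nonneg hl0.le (by linarith)) hO2.le
    have hdec : ∀ j ∈ L, p - d j ≠ 0 → 1 / ww j - 1 / p =
        1 / (p - d j) * (d j / p + (p - d j - ww j) / ww j) := by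
      intro j hj h3
      have h4 : ww j ≠ 0 := by
        have := hw1 j hj
        linarith
      field_simp
      ring
    have hterm : ∀ j ∈ L,
        (lam * (p - 2 + (g + d j)) / p - max (g + d j) 0) * (1 / ww j - 1 / p) ≤
        lam * (1 - 2 / p) / (O + 2) * (d j / p + (p - d j - ww j) / 2) := by
      intro j hj
      have h1 := hw1 j hj
      have h2 := hwp j hj
      have h3 := hd j hj
      have h4 := hw2 j hj
      have h5 : 0 ≤ d j / p := div_nonneg h3 hp0.le
      have h6 : 0 ≤ p - d j - ww j := by linarith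
      have hR : 0 ≤ lam * (1 - 2 / p) / (O + 2) * (d j / p + (p - d j - ww j) / 2) :=
        mul_nonneg hM0 (by linarith)
      obtain ⟨y, hyj⟩ := he j hj
      rcases lt_trichotomy y 1 with h7 | h7 | h7
      · -- `e ≤ 0`
        have he0 : g + d j ≤ 0 := by
          rw [hyj]
          exact_mod_cast (by omega : y ≤ 0)
        have hpd : p - d j = O + 2 - (g + d j) := by
          rw [hO]
          ring
        rw [max_eq_right he0, sub_zero, hdec j hj (by linarith)]
        have h8 : (p - d j - ww j) / ww j ≤ (p - d j - ww j) / 2 :=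
          div_le_div_of_nonneg_left h6 (by norm_num) (by linarith)
        have h9 : 0 ≤ (p - d j - ww j) / ww j := div_nonneg h6 (by linarith)
        have h10 : 1 / (p - d j) ≤ 1 / (O + 2) :=
          one_div_le_one_div_of_le hO2 (by linarith)
        have h11 : lam * (p - 2 + (g + d j)) / p ≤ lam * (1 - 2 / p) := by
          rw [div_le_iff₀ hp0]
          have : lam * (1 - 2 / p) * p = lam * (p - 2) := by field_simp
          rw [this]
          nlinarith
        have h12 : 0 ≤ lam * (p - 2 + (g + d j)) / p :=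
          div_nonneg (mul_nonneg hl0.le (by linarith)) hp0.le
        have h13 : 0 < 1 / (p - d j) := by
          apply one_div_pos.2
          linarith
        calc lam * (p - 2 + (g + d j)) / p *
              (1 / (p - d j) * (d j / p + (p - d j - ww j) / ww j))
            ≤ lam * (1 - 2 / p) * (1 / (O + 2) * (d j / p + (p - d j - ww j) / 2)) := by
              refine mul_le_mul h11 ?_ (mul_nonneg h13.le (by linarith)) (h12.trans h11)
              exact mul_le_mul h10 (by linarith) (by linarith) (h13.le.trans h10)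
          _ = _ := by ring
      · -- `e = 1`
        have he1 : g + d j = 1 := by
          rw [hyj, h7]
          norm_num
        have hpd : p - d j = O + 1 := by
          rw [hO]
          linarith
        rw [hone j he1, hdec j hj (by linarith), hpd]
        rcases le_total (lam * (1 - 1 / p) - 1) 0 with h8 | h8
        · refine le_trans (mul_nonpos_of_nonpos_of_nonneg h8 ?_) (by rw [← hpd]; exact hR)
          refine mul_nonneg (one_div_pos.2 (by linarith)).le (add_nonneg h5 ?_)
          exact div_nonneg (by linarith) (by linarith)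
        · have h9 := num_M1 (p := p) (O := O) (x := x) (lam := lam) (by linarith) (by linarith)
            (by linarith) hxO' hl
          have h10 : (O + 1 - ww j) / ww j ≤ O + 1 - ww j := div_le_self (by linarith) h1
          have h11 : 0 ≤ (lam * (1 - 1 / p) - 1) / (O + 1) := div_nonneg h8 (by linarith)
          calc (lam * (1 - 1 / p) - 1) * (1 / (O + 1) * (d j / p + (O + 1 - ww j) / ww j))
              = (lam * (1 - 1 / p) - 1) / (O + 1) * (d j / p + (O + 1 - ww j) / ww j) := by
                ring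
            _ ≤ (lam * (1 - 1 / p) - 1) / (O + 1) * (2 * (d j / p) + (O + 1 - ww j)) :=
                mul_le_mul_of_nonneg_left (by linarith) h11
            _ ≤ lam * (1 - 2 / p) / (O + 2) / 2 * (2 * (d j / p) + (O + 1 - ww j)) := by
                refine mul_le_mul_of_nonneg_right h9 ?_
                linarith
            _ = _ := by ring
      · have he2 : 2 ≤ g + d j := by
          rw [hyj]
          exact_mod_cast (by omega : 2 ≤ y)
        exact (hbig j hj he2).trans hR
    have hsum := sum_le_sum hterm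
    rw [← mul_sum, sum_add_distrib, ← sum_div, ← sum_div, hD] at hsum
    have h1 : lam * (1 - 2 / p) / (O + 2) * ((p + 1 - g) / p +
        (∑ j ∈ L, (p - d j - ww j)) / 2) ≤
        lam * (1 - 2 / p) / (O + 2) * ((2 * p - 1 - O) / p + (2 * O - x) / 2) := by
      refine mul_le_mul_of_nonneg_left ?_ hM0
      rw [show p + 1 - g = 2 * p - 1 - O by linarith, hO]
      linarith
    have h2 := num_g0 (p := p) (O := O) (x := x) (w := w) (g := g) (lam := lam) (by linarith) hx1
      (by rw [hO]; exact hxO) hw (by linarith) hl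
    have h3 : (p + 1 + g) / p ≤ SB / p := div_le_div_of_nonneg_right hS1 hp0.le
    rw [max_eq_right hg0, zero_mul, sub_zero]
    linarith
  · -- `g = 1`
    have hg1 : g = 1 := by
      rw [hz, h]
      norm_num
    have hxp : x ≤ p - 1 := by
      rcases hxO with h | h <;> linarith
    obtain ⟨C, hC⟩ : ∃ C, C = max 0 (lam * (1 - 1 / p) - 1) := ⟨_, rfl⟩
    have hC0 : 0 ≤ C := by
      rw [hC]
      exact le_max_left _ _
    have hterm : ∀ j ∈ L,
        (lam * (p - 2 + (g + d j)) / p - max (g + d j) 0) * (1 / ww j - 1 / p) ≤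
        C * ((p - d j - ww j) / p) := by
      intro j hj
      have h1 := hw1 j hj
      have h2 := hwp j hj
      have h3 := hd j hj
      have hR : 0 ≤ C * ((p - d j - ww j) / p) :=
        mul_nonneg hC0 (div_nonneg (by linarith) hp0.le)
      obtain ⟨y, hyj⟩ := he j hj
      rcases lt_or_ge y 2 with h7 | h7
      · have he1 : g + d j = 1 := by
          refine le_antisymm ?_ (by linarith)
          rw [hyj]
          exact_mod_cast (by omega : y ≤ 1)
        have hd0 : d j = 0 := by linarith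
        rw [hone j he1, hd0, sub_zero]
        have h8 : 1 / ww j - 1 / p ≤ (p - ww j) / p := by
          have h9 : 1 / ww j - 1 / p = (p - ww j) / p / ww j := by
            have : ww j ≠ 0 := by linarith
            field_simp
          rw [h9]
          exact div_le_self (div_nonneg (by linarith) hp0.le) h1
        calc (lam * (1 - 1 / p) - 1) * (1 / ww j - 1 / p)
            ≤ C * (1 / ww j - 1 / p) :=
              mul_le_mul_of_nonneg_right (by rw [hC]; exact le_max_right _ _) (hy j hj)
          _ ≤ _ := mul_le_mul_of_nonneg_left h8 hC0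
      · have he2 : 2 ≤ g + d j := by
          rw [hyj]
          exact_mod_cast h7
        exact (hbig j hj he2).trans hR
    have hsum := sum_le_sum hterm
    rw [← mul_sum, ← sum_div] at hsum
    have h1 : C * ((∑ j ∈ L, (p - d j - ww j)) / p) ≤ C * ((2 * p - 2 - x) / p) := by
      refine mul_le_mul_of_nonneg_left ?_ hC0
      rw [div_le_div_iff_of_pos_right hp0]
      linarith
    have h2 := num_g1 (p := p) (x := x) (w := w) (lam := lam) (C := C) hp hx1 hxp hw hl (by
      rw [hC]
      rcases max_cases 0 (lam * (1 - 1 / p) - 1) with ⟨h, _⟩ | ⟨h, _⟩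
      · left
        exact h
      · right
        exact h)
    have h3 : (3 * g + p + 1) / p ≤ SB / p := div_le_div_of_nonneg_right hS2 hp0.le
    rw [hg1] at h3 ⊢
    rw [hg1] at hsum
    have h4 : (3 * 1 + p + 1) / p = (p + 4) / p := by ring
    rw [h4] at h3
    have h5 : lam * (p - 3 + 1) * x / (p ^ 2 * w) = lam * (p - 2) * x / (p ^ 2 * w) := by
      ring
    have h6 : lam * (5 / p + (1 - 3) / p ^ 2) = lam * (5 / p - 2 / p ^ 2) := by ring
    rw [max_eq_left (zero_le_one' ℝ), one_mul, h5, h6]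
    linarith
  · -- `g ≥ 2`
    have hg2 : 2 ≤ g := by
      rw [hz]
      exact_mod_cast (by omega : 2 ≤ z)
    have hsum : ∑ j ∈ L,
        (lam * (p - 2 + (g + d j)) / p - max (g + d j) 0) * (1 / ww j - 1 / p) ≤ 0 :=
      sum_nonpos fun j hj => hbig j hj (by
        have := hd j hj
        linarith)
    have h2 := num_g2 (p := p) (g := g) (x := x) (w := w) (lam := lam) hp hg2 hw1' (by linarith)
      (by linarith) hl
    have h3 : (3 * g + p + 1) / p ≤ SB / p := div_le_div_of_nonneg_right hS2 hp0.le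
    rw [max_eq_left (by linarith : 0 ≤ g)]
    linarith


variable {V : Type} [DecidableEq V] {m : Finset V → ℝ} {K : Finset V} {t : V}

/-- integer masses -/
theorem pa_int (hint : ∀ D, ∃ k : ℕ, m D = k) (K : Finset V) (j : V) :
    ∃ k : ℕ, pa m K j = k := by
  refine sum_int _ _ fun D _ => ?_
  split_ifs
  · exact hint D
  · exact ⟨0, by simp⟩

omit [DecidableEq V] in
theorem po_int (hint : ∀ D, ∃ k : ℕ, m D = k) (K : Finset V) : ∃ k : ℕ, po m K = k := by
  refine sum_int _ _ fun D _ => ?_
  obtain ⟨k, hk⟩ := hint D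
  exact ⟨(D.card - 1) * k, by rw [hk]; push_cast; ring⟩

/-- the value of `Ival` by the potential of the masses scaled at `t` -/
private theorem sc_bound (h : PosM m) (h0 : m ∅ = 0) (ht : t ∈ K) (hK : 4 ≤ K.card) {p : ℝ}
    (hp : 2 ≤ p) (ha : ∀ j ∈ K, j ≠ t → pa m K j ≤ p) (hat : pa m K t = p + 1)
    (hpal : pal m K = ((K.card : ℝ) - 2) * p + 2) :
    (p + 1) * (p ^ (K.card - 2) * Ival m K) ≤
      2 + pt m K / p + ∑ j ∈ K.erase t, (1 + pom m K j / p) * ((p - m {j}) / m {j}) +
        (1 + pom m K t / p) * ((p + 1 - m {t}) / m {t}) := by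
  have hp0 : 0 < p := by linarith
  have hp1 : 0 < p + 1 := by linarith
  have hσ : 1 ≤ (p + 1) / p := by
    rw [le_div_iff₀ hp0]
    linarith
  have hσ0 : 0 < (p + 1) / p := by linarith
  obtain ⟨s, hs⟩ : ∃ s, s = scM m t ((p + 1) / p) := ⟨_, rfl⟩
  obtain ⟨m', hm'⟩ : ∃ m' : Finset V → ℝ, m' = fun D => s D / p := ⟨_, rfl⟩
  have hsP : PosM s := by
    rw [hs]
    exact h.scM hσ0
  have hmP : PosM m' := by
    rw [hm']
    exact ⟨fun D => div_nonneg (hsP.1 D) hp0.le, fun k => div_pos (hsP.2 k) hp0⟩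
  have h1 : (p + 1) / p * Ival m K ≤ Ival s K := by
    rw [hs]
    exact Ival_scM h h0 ht hσ
  have hpaK : pa s K t = p := by
    rw [hs, pa_scM_self, hat]
    field_simp
  have hpals : pal s K = ((K.card : ℝ) - 2) * p + 1 := by
    rw [hs, pal_scM, hpal, hat]
    field_simp
    ring
  have hpQ : pQ m' K = 1 / p := by
    have h2 : pal m' K = pal s K / p := by
      rw [hm']
      unfold pal
      rw [sum_div]
    unfold pQ
    rw [h2, hpals]
    field_simp
    ring
  have hcap : ∀ k ∈ K, pa m' K k ≤ 1 := by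
    intro k hk
    rw [hm', pa_scale, div_le_one hp0]
    by_cases hkt : k = t
    · rw [hkt, hpaK]
    · rw [hs]
      exact (pa_scM_le h.1 hσ k).trans (ha k hk hkt)
  have h2 := pot hmP (by omega : 2 ≤ K.card) hcap (by rw [hpQ]; positivity)
  have hm0 : m' ∅ = 0 := by
    rw [hm', hs]
    simp only
    rw [scM_empty, h0, zero_div]
  rw [hm0, add_zero, one_mul, hpQ] at h2
  have h3 : Ival m' K = p ^ K.card * Ival s K := by
    rw [hm']
    exact Ival_scale s hp0.ne' K
  have h4 : p ^ K.card = p * p * p ^ (K.card - 2) := by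
    rw [mul_assoc, ← pow_succ', ← pow_succ']
    congr 1
    omega
  have h5 : (p + 1) * (p ^ (K.card - 2) * Ival m K) ≤ 1 / p * Ival m' K := by
    rw [h3, h4]
    calc (p + 1) * (p ^ (K.card - 2) * Ival m K)
        = p * p ^ (K.card - 2) * ((p + 1) / p * Ival m K) := by
          field_simp
      _ ≤ p * p ^ (K.card - 2) * Ival s K :=
          mul_le_mul_of_nonneg_left h1 (by positivity)
      _ = _ := by field_simp
  refine h5.trans (h2.trans ?_)
  unfold ph
  rw [← add_sum_erase K _ ht]
  have hpom : ∀ j, pom m' K j ≤ pom m K j / p := by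
    intro j
    rw [hm', pom_scale, hs]
    exact div_le_div_of_nonneg_right (pom_scM_le h.1 hσ j) hp0.le
  have hpt : pt m' K ≤ pt m K / p := by
    have h6 : pt m' K = pt s K / p := by
      rw [hm']
      unfold pt
      rw [sum_div]
      exact sum_congr rfl fun D _ => by ring
    rw [h6, hs]
    exact div_le_div_of_nonneg_right (pt_scM_le h.1 hσ) hp0.le
  have hgt : pg m' t = (p + 1 - m {t}) / m {t} := by
    have h6 : m' {t} = m {t} / (p + 1) := by
      rw [hm', hs]
      simp only
      rw [scM_mem (mem_singleton_self t)]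
      field_simp
    unfold pg
    rw [hm0, add_zero, h6]
    have := (h.2 t).ne'
    field_simp
  have hgj : ∀ j ∈ K.erase t, pg m' j = (p - m {j}) / m {j} := by
    intro j hj
    have h6 : m' {j} = m {j} / p := by
      rw [hm', hs]
      simp only
      rw [scM_notMem (by
        rw [mem_singleton]
        exact (ne_of_mem_erase hj).symm)]
    unfold pg
    rw [hm0, add_zero, h6]
    have := (h.2 j).ne'
    field_simp
  have h7 : (1 + pom m' K t) * pg m' t ≤ (1 + pom m K t / p) * ((p + 1 - m {t}) / m {t}) := by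
    rw [hgt]
    refine mul_le_mul_of_nonneg_right (by linarith [hpom t]) ?_
    refine div_nonneg ?_ (h.2 t).le
    have := le_pa (K := K) h.1 ht
    linarith
  have h8 : ∑ j ∈ K.erase t, (1 + pom m' K j) * pg m' j ≤
      ∑ j ∈ K.erase t, (1 + pom m K j / p) * ((p - m {j}) / m {j}) := by
    refine sum_le_sum fun j hj => ?_
    rw [hgj j hj]
    refine mul_le_mul_of_nonneg_right (by linarith [hpom j]) ?_
    refine div_nonneg ?_ (h.2 j).le
    have := le_pa (K := K) h.1 (mem_of_mem_erase hj)
    have := ha j (mem_of_mem_erase hj) (ne_of_mem_erase hj)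
    linarith
  linarith

/-- an over-full top element, not all of its mass private, no base -/
theorem stA3o (h : PosM m) (h0 : m ∅ = 0) (hint : ∀ D, ∃ k : ℕ, m D = k) (ht : t ∈ K)
    (hK : 4 ≤ K.card) {p : ℝ} (hp : 2 ≤ p) (hw : ∀ j ∈ K, 1 ≤ m {j})
    (ha : ∀ j ∈ K, j ≠ t → pa m K j ≤ p) (hat : pa m K t = p + 1) (hwt : m {t} ≤ p)
    (hpal : pal m K = ((K.card : ℝ) - 2) * p + 2) {b : V → ℝ} (hb0 : ∀ j ∈ K, 0 ≤ b j)
    (hb : ∀ j ∈ K, j ≠ t → 2 + pom m K j - m {j} ≤ b j) (hbt : 3 + pom m K t - m {t} ≤ b t)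
    (hbs : 3 + po m K ≤ ∑ j ∈ K, b j) :
    p ^ (K.card - 3) * ((2 * p + 2) * Ival m K - Ival m (K.erase t)) ≤
      1 + ∑ j ∈ K, b j / m {j} := by
  have hp0 : 0 < p := by linarith
  have hp1 : 0 < p + 1 := by linarith
  have hI := Ival_pos h K
  -- the parameters
  have hpom := fun j (hj : j ∈ K) => pa_add_pom (m := m) hj
  have hsa := sum_pa (m := m) (K := K)
  have hpo := po_eq (m := m) (K := K)
  have hpl := pal_eq (m := m) (K := K)
  have hpt0 : 0 ≤ pt m K := sum_nonneg fun D _ => mul_nonneg (Nat.cast_nonneg _) (h.1 D)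
  have hpom0 : ∀ j, 0 ≤ pom m K j := fun j =>
    sum_nonneg fun D _ => mul_nonneg (Nat.cast_nonneg _) (h.1 D)
  rw [h0, sub_zero, ← add_sum_erase K _ ht, hat] at hsa
  rw [h0, zero_add, ← add_sum_erase K _ ht] at hpl
  have hcard : ((K.erase t).card : ℝ) = (K.card : ℝ) - 1 := by
    rw [card_erase_of_mem ht, Nat.cast_sub (by omega : 1 ≤ K.card), Nat.cast_one]
  have hn4 : (4 : ℝ) ≤ K.card := by exact_mod_cast hK
  obtain ⟨g, hg⟩ : ∃ g, g = po m K + 2 - p := ⟨_, rfl⟩
  obtain ⟨x, hx⟩ : ∃ x, x = p + 1 - m {t} := ⟨_, rfl⟩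
  obtain ⟨lam, hl⟩ : ∃ lam, lam = 1 + x / (p + 1) := ⟨_, rfl⟩
  have hl1 : lam = (2 * p + 2 - m {t}) / (p + 1) := by
    rw [hl, hx]
    field_simp
    ring
  obtain ⟨kp, hkp⟩ := pa_int hint K t
  obtain ⟨ko, hko⟩ := po_int hint K
  obtain ⟨kt, hkt⟩ := hint {t}
  have hpk : p = (kp : ℝ) - 1 := by linarith
  have hpt1 := hpom t ht
  -- the elements below
  have hej : ∀ j ∈ K.erase t, g + (p - pa m K j) = 2 + pom m K j - m {j} := by
    intro j hj
    have := hpom j (mem_of_mem_erase hj)
    linarith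
  have hSB : ∑ j ∈ K, b j = b t + ∑ j ∈ K.erase t, b j := (add_sum_erase K b ht).symm
  have hsumd : ∑ j ∈ K.erase t, (p - pa m K j) = p + 1 - g := by
    rw [sum_sub_distrib, sum_const, nsmul_eq_mul, hcard]
    linarith
  have hnum := num_sum (K.erase t) (p := p) (g := g) (x := x) (w := m {t}) (lam := lam)
    (SB := ∑ j ∈ K, b j) (d := fun j => p - pa m K j) (ww := fun j => m {j}) hp
    ⟨(ko : ℤ) + 2 - (kp - 1), by rw [hg, hko, hpk]; push_cast; ring⟩
    (fun j hj => by
      obtain ⟨kj, hkj⟩ := pa_int hint K j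
      exact ⟨(ko : ℤ) + 2 - kj, by rw [hg, hko, hkj]; push_cast; ring⟩)
    (fun j hj => sub_nonneg.2 (ha j (mem_of_mem_erase hj) (ne_of_mem_erase hj)))
    (fun j hj => hw j (mem_of_mem_erase hj))
    (fun j hj => by
      rw [hej j hj]
      have := hpom0 j
      linarith)
    (fun j hj => by
      have := le_pa (K := K) h.1 (mem_of_mem_erase hj)
      linarith)
    hsumd
    (by
      have h1 : ∑ j ∈ K.erase t, (p - (p - pa m K j) - m {j}) =
          ∑ j ∈ K.erase t, pa m K j - ∑ j ∈ K.erase t, m {j} := by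
        rw [← sum_sub_distrib]
        exact sum_congr rfl fun j _ => by ring
      rw [h1]
      linarith)
    (by linarith)
    (by
      have h1 : kp ≤ kt + ko := by
        have h2 := hpom0 t
        have : (kp : ℝ) ≤ kt + ko := by linarith
        exact_mod_cast this
      rcases Nat.eq_or_lt_of_le h1 with h2 | h2
      · left
        have h3 : (kp : ℝ) = kt + ko := by exact_mod_cast h2
        linarith
      · right
        have h3 : (kp : ℝ) + 1 ≤ kt + ko := by exact_mod_cast h2
        linarith)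
    (by linarith) (hw t ht) hl (by linarith)
    (by
      rcases le_total g 0 with h1 | h1
      · linarith
      · have h2 : ∑ j ∈ K.erase t, (g + (p - pa m K j)) ≤ ∑ j ∈ K.erase t, b j := by
          refine sum_le_sum fun j hj => ?_
          rw [hej j hj]
          exact hb j (mem_of_mem_erase hj) (ne_of_mem_erase hj)
        rw [sum_add_distrib, hsumd, sum_const, nsmul_eq_mul, hcard] at h2
        rw [hSB]
        have h3 : g ≤ b t := by linarith
        nlinarith [mul_nonneg (sub_nonneg.2 hn4) h1])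
  -- the right side
  have hyK : ∀ j ∈ K, 0 ≤ 1 / m {j} - 1 / p := by
    intro j hj
    refine sub_nonneg.2 (one_div_le_one_div_of_le (h.2 j) ?_)
    by_cases hjt : j = t
    · rw [hjt]
      exact hwt
    · exact (le_pa h.1 hj).trans (ha j hj hjt)
  have hRHS : (∑ j ∈ K, b j) / p + ∑ j ∈ K.erase t, max (g + (p - pa m K j)) 0 *
      (1 / m {j} - 1 / p) + max g 0 * (1 / m {t} - 1 / p) ≤ ∑ j ∈ K, b j / m {j} := by
    have h1 : ∑ j ∈ K, b j / m {j} =
        (∑ j ∈ K, b j) / p + ∑ j ∈ K, b j * (1 / m {j} - 1 / p) := by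
      rw [sum_div, ← sum_add_distrib]
      exact sum_congr rfl fun j _ => by ring
    rw [h1, ← add_sum_erase K (fun j => b j * (1 / m {j} - 1 / p)) ht]
    have h2 : ∑ j ∈ K.erase t, max (g + (p - pa m K j)) 0 * (1 / m {j} - 1 / p) ≤
        ∑ j ∈ K.erase t, b j * (1 / m {j} - 1 / p) := by
      refine sum_le_sum fun j hj => ?_
      refine mul_le_mul_of_nonneg_right (max_le ?_ (hb0 j (mem_of_mem_erase hj)))
        (hyK j (mem_of_mem_erase hj))
      rw [hej j hj]
      exact hb j (mem_of_mem_erase hj) (ne_of_mem_erase hj)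
    have h3 : max g 0 * (1 / m {t} - 1 / p) ≤ b t * (1 / m {t} - 1 / p) :=
      mul_le_mul_of_nonneg_right (max_le (by linarith) (hb0 t ht)) (hyK t ht)
    linarith
  -- the left side
  have hPhi : lam / p * (2 + pt m K / p +
      ∑ j ∈ K.erase t, (1 + pom m K j / p) * ((p - m {j}) / m {j}) +
        (1 + pom m K t / p) * ((p + 1 - m {t}) / m {t})) =
      lam * (5 / p + (g - 3) / p ^ 2) +
        ∑ j ∈ K.erase t, lam * (p - 2 + (g + (p - pa m K j))) / p * (1 / m {j} - 1 / p) +
        lam * (p - 3 + g) * x / (p ^ 2 * m {t}) := by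
    have h1 : ∀ j ∈ K.erase t, (1 + pom m K j / p) * ((p - m {j}) / m {j}) =
        (p - 2 + (g + (p - pa m K j))) * (1 / m {j} - 1 / p) + (p - m {j}) / p := by
      intro j hj
      have h2 : pom m K j = g + (p - pa m K j) - 2 + m {j} := by
        have := hej j hj
        linarith
      have h3 := (h.2 j).ne'
      rw [h2]
      field_simp
      ring
    have h2 : ∑ j ∈ K.erase t, (p - m {j}) / p = (p - 2 + m {t} + pN m K) / p := by
      rw [← sum_div, sum_sub_distrib, sum_const, nsmul_eq_mul, hcard]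
      congr 1
      linarith
    have h3 : ∑ j ∈ K.erase t, lam * (p - 2 + (g + (p - pa m K j))) / p *
        (1 / m {j} - 1 / p) = lam / p *
        ∑ j ∈ K.erase t, (p - 2 + (g + (p - pa m K j))) * (1 / m {j} - 1 / p) := by
      rw [mul_sum]
      exact sum_congr rfl fun j _ => by ring
    have h4 : pom m K t = g - 3 + m {t} := by linarith
    have h5 : pt m K = g - 2 + p - pN m K := by linarith
    have h6 := (h.2 t).ne'
    rw [sum_congr rfl h1, sum_add_distrib, h2, h3, h4, h5, hx]
    field_simp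
    ring
  -- the value
  have hval : p ^ (K.card - 3) * ((2 * p + 2) * Ival m K - Ival m (K.erase t)) ≤
      lam / p * ((p + 1) * (p ^ (K.card - 2) * Ival m K)) := by
    have h1 := mul_Ival_le_erase h ht
    have h2 : p ^ (K.card - 2) = p * p ^ (K.card - 3) := by
      rw [← pow_succ']
      congr 1
      omega
    have h3 : lam / p * ((p + 1) * (p ^ (K.card - 2) * Ival m K)) =
        p ^ (K.card - 3) * ((2 * p + 2 - m {t}) * Ival m K) := by
      rw [h2, hl1]
      field_simp
    rw [h3]
    refine mul_le_mul_of_nonneg_left ?_ (by positivity)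
    linarith
  have hlam0 : 0 ≤ lam / p := by
    rw [hl1]
    exact div_nonneg (div_nonneg (by linarith) hp1.le) hp0.le
  have hsc := mul_le_mul_of_nonneg_left (sc_bound h h0 ht hK hp ha hat hpal) hlam0
  rw [hPhi] at hsc
  have hfin : ∑ j ∈ K.erase t, (lam * (p - 2 + (g + (p - pa m K j))) / p -
      max (g + (p - pa m K j)) 0) * (1 / m {j} - 1 / p) =
      ∑ j ∈ K.erase t, lam * (p - 2 + (g + (p - pa m K j))) / p * (1 / m {j} - 1 / p) -
      ∑ j ∈ K.erase t, max (g + (p - pa m K j)) 0 * (1 / m {j} - 1 / p) := by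
    rw [← sum_sub_distrib]
    exact sum_congr rfl fun j _ => by ring
  rw [hfin] at hnum
  linarith

end MP76b19e.Rob
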