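import Pool.Agent.Lib.MP76b19e.Rob.StA3
import Pool.Agent.Lib.MP76b19e.Rob.MassGW

/-!
# No over-full element (problem MP_76b19e_co)

`stA3n`: `p ^ (n - 3) ((2 p + 2) I(K) - I(K - t)) ≤ 1 + ∑ b_j / (m {j} + m ∅)` if all elements own
at most `p` and the total mass is `(n - 2) p + 2`. `stA3f`: the same if `t` owns exactly its private
mass `p + 1`.
-/

set_option autoImplicit false

open Finset

namespace MP76b19e.Rob

variable {V : Type} [DecidableEq V] {m : Finset V → ℝ} {K : Finset V} {t : V}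

/-- one element -/
private theorem el_bound {p c o y κ b f : ℝ} (hy : 1 + c ≤ y) (hκ : 0 ≤ κ) (hf : 0 ≤ f)
    (hb0 : 0 ≤ b) (hb : 2 + o - y ≤ b) (hκf : κ * f ≤ 1)
    (hfo : 1 + o / p ≤ f * max (2 + o) (1 + c)) : κ * (1 + o / p) - b ≤ κ * (f * y) := by
  have h1 := mul_le_mul_of_nonneg_left hfo hκ
  rcases le_total (2 + o) y with h | h
  · have h2 : max (2 + o) (1 + c) ≤ y := max_le h hy
    have h3 := mul_le_mul_of_nonneg_left (mul_le_mul_of_nonneg_left h2 hf) hκ
    linarith
  · rw [max_eq_left (hy.trans h)] at h1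
    have h2 : κ * f * (2 + o - y) ≤ 1 * (2 + o - y) :=
      mul_le_mul_of_nonneg_right hκf (by linarith)
    nlinarith

/-- the factor `1 / 2` -/
private theorem f_half {p c o : ℝ} (hp : 2 ≤ p) (ho : 0 ≤ o) :
    1 + o / p ≤ 1 / 2 * max (2 + o) (1 + c) := by
  have h1 : o / p ≤ o / 2 := div_le_div_of_nonneg_left ho (by norm_num) hp
  have h2 := le_max_left (2 + o) (1 + c)
  linarith

/-- the factor for a base -/
private theorem f_star {p c o : ℝ} (hp : 2 ≤ p) (hc : 1 ≤ c) :
    1 + o / p ≤ (p + c - 1) / (p * (c + 1)) * max (2 + o) (1 + c) := by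
  have hp0 : 0 < p := by linarith
  have h1 : 1 + o / p = (p + o) / p := by field_simp
  rw [h1, ← mul_div_right_comm, div_le_div_iff₀ hp0 (by positivity)]
  rcases le_total o (c - 1) with h | h
  · have h2 := le_max_right (2 + o) (1 + c)
    have h3 : (p + c - 1) * (1 + c) ≤ (p + c - 1) * max (2 + o) (1 + c) :=
      mul_le_mul_of_nonneg_left h2 (by linarith)
    have h4 : (p + o) * (c + 1) ≤ (p + c - 1) * (1 + c) := by nlinarith
    nlinarith
  · have h2 := le_max_left (2 + o) (1 + c)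
    have h3 : (p + c - 1) * (2 + o) ≤ (p + c - 1) * max (2 + o) (1 + c) :=
      mul_le_mul_of_nonneg_left h2 (by linarith)
    have h4 : (p + o) * (c + 1) ≤ (p + c - 1) * (2 + o) := by
      nlinarith [mul_nonneg (sub_nonneg.2 hp) (sub_nonneg.2 h)]
    nlinarith

/-- the sum of all elements -/
private theorem num_no {p O N κ SB : ℝ} {c : ℕ} {f : ℝ} (hp : 2 ≤ p) (hN : N ≤ O)
    (hO : 0 ≤ O) (hκ0 : 0 ≤ κ) (hκ : κ ≤ (2 * p + 1) / (2 * p)) (hS0 : 0 ≤ SB)
    (hS : 3 + O - c ≤ SB) (hpc : 3 ≤ p ∨ c ≤ 2)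
    (hf : f = if c ≤ 1 then 1 / 2 else (p + c - 1) / (p * (c + 1))) :
    κ * (2 + (O - N) / p + (2 * p - 2 + c + N) * f) ≤ p + c + SB := by
  have hp0 : 0 < p := by linarith
  have hκ1 : κ * (2 * p) ≤ 2 * p + 1 := by
    rwa [le_div_iff₀ (by positivity)] at hκ
  have hf1 : 1 / p ≤ f := by
    rw [hf]
    split_ifs with h
    · exact one_div_le_one_div_of_le (by norm_num) hp
    · rw [div_le_div_iff₀ hp0 (by positivity)]
      nlinarith [mul_nonneg (sub_nonneg.2 hp) hp0.le]
  have hf0 : 0 ≤ f := le_trans (by positivity) hf1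
  have hf2 : f ≤ 1 / 2 := by
    rw [hf]
    split_ifs with h
    · exact le_rfl
    · have hc2 : (2 : ℝ) ≤ c := by exact_mod_cast (by omega : 2 ≤ c)
      rw [div_le_div_iff₀ (by positivity) (by norm_num)]
      nlinarith [mul_nonneg (sub_nonneg.2 hp) (sub_nonneg.2 hc2)]
  have hκ2 : κ ≤ 5 / 4 := by
    refine hκ.trans ?_
    rw [div_le_div_iff₀ (by positivity) (by norm_num)]
    linarith
  have hκf : κ * f ≤ 1 := by
    calc κ * f ≤ 5 / 4 * (1 / 2) := mul_le_mul hκ2 hf2 hf0 (by norm_num)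
      _ ≤ 1 := by norm_num
  -- `N ≤ O`
  have h1 : (O - N) / p + (2 * p - 2 + c + N) * f ≤ (2 * p - 2 + c + O) * f := by
    have h2 : (O - N) * (1 / p) ≤ (O - N) * f := mul_le_mul_of_nonneg_left hf1 (by linarith)
    have h3 : (O - N) / p = (O - N) * (1 / p) := by ring
    rw [h3]
    nlinarith
  have h2 : κ * (2 + (O - N) / p + (2 * p - 2 + c + N) * f) ≤
      κ * (2 + (2 * p - 2 + c + O) * f) := mul_le_mul_of_nonneg_left (by linarith) hκ0
  refine h2.trans ?_
  -- the smallest `Z`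
  obtain ⟨Z, hZ⟩ : ∃ Z, Z = max O ((c : ℝ) - 3) := ⟨_, rfl⟩
  have hZO : O ≤ Z := by rw [hZ]; exact le_max_left _ _
  have hZc : (c : ℝ) - 3 ≤ Z := by rw [hZ]; exact le_max_right _ _
  have hSB : Z + 3 - c ≤ SB := by
    rw [hZ]
    rcases max_cases O ((c : ℝ) - 3) with ⟨h, _⟩ | ⟨h, _⟩ <;> rw [h] <;> linarith
  have h3 : κ * (2 + (2 * p - 2 + c + O) * f) ≤ κ * (2 + (2 * p - 2 + c) * f) + κ * f * Z := by
    have h4 : κ * f * O ≤ κ * f * Z := mul_le_mul_of_nonneg_left hZO (mul_nonneg hκ0 hf0)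
    nlinarith
  have hcases : κ * (2 + (2 * p - 2 + c) * f) + κ * f * Z ≤ p + 3 + Z := by
    have h5 : (κ * f) * (Z - max 0 ((c : ℝ) - 3)) ≤ 1 * (Z - max 0 ((c : ℝ) - 3)) :=
      mul_le_mul_of_nonneg_right hκf (by
        have : max 0 ((c : ℝ) - 3) ≤ Z := max_le (hO.trans hZO) hZc
        linarith)
    have h6 : κ * (2 + (2 * p - 2 + c) * f) + κ * f * max 0 ((c : ℝ) - 3) ≤
        p + 3 + max 0 ((c : ℝ) - 3) := by
      rcases Nat.lt_or_ge c 3 with h | h
      · have h7 : (c : ℝ) - 3 ≤ 0 := by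
          have : (c : ℝ) ≤ 2 := by exact_mod_cast (by omega : c ≤ 2)
          linarith
        rw [max_eq_left h7, mul_zero, add_zero, add_zero]
        have h8 : κ * (2 * p) * (2 + (2 * p - 2 + c) * f) ≤ (p + 3) * (2 * p) := by
          refine (mul_le_mul_of_nonneg_right hκ1 ?_).trans ?_
          · have : 0 ≤ (2 * p - 2 + c) * f :=
              mul_nonneg (by have : (0 : ℝ) ≤ c := Nat.cast_nonneg c; linarith) hf0
            linarith
          · interval_cases c
            · rw [hf, if_pos (by norm_num)]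
              push_cast
              nlinarith
            · rw [hf, if_pos (by norm_num)]
              push_cast
              nlinarith
            · rw [hf, if_neg (by norm_num)]
              have h9 : (2 * p - 2 + (2 : ℕ)) * ((p + (2 : ℕ) - 1) / (p * ((2 : ℕ) + 1))) =
                  2 * (p + 1) / 3 := by
                push_cast
                field_simp
                ring
              rw [h9]
              nlinarith
        have h9 : 0 < 2 * p := by linarith
        nlinarith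
      · have hp3 : 3 ≤ p := by
          rcases hpc with h7 | h7
          · exact h7
          · omega
        have hc3 : (3 : ℝ) ≤ c := by exact_mod_cast h
        have h7 : 0 ≤ (c : ℝ) - 3 := by linarith
        rw [max_eq_right h7]
        have h8 : κ * (2 + (2 * p - 2 + c) * f) + κ * f * ((c : ℝ) - 3) =
            κ * (2 + (2 * p - 5 + 2 * c) * f) := by ring
        rw [h8, hf, if_neg (by omega)]
        have h9 : κ * (2 + (2 * p - 5 + 2 * c) * ((p + c - 1) / (p * (c + 1)))) ≤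
            (2 * p + 1) / (2 * p) * (2 + (2 * p - 5 + 2 * c) * ((p + c - 1) / (p * (c + 1)))) := by
          refine mul_le_mul_of_nonneg_right hκ ?_
          have : 0 ≤ (2 * p - 5 + 2 * c) * ((p + c - 1) / (p * (c + 1))) :=
            mul_nonneg (by linarith) (div_nonneg (by linarith) (by positivity))
          linarith
        refine h9.trans ?_
        have h10 : (2 * p + 1) / (2 * p) *
            (2 + (2 * p - 5 + 2 * c) * ((p + c - 1) / (p * (c + 1)))) =
            (2 * p + 1) * (2 * p * (c + 1) + (2 * p - 5 + 2 * c) * (p + c - 1)) /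
              (2 * p * p * (c + 1)) := by
          have : (c : ℝ) + 1 ≠ 0 := by positivity
          field_simp
        rw [h10, div_le_iff₀ (by positivity)]
        obtain ⟨α, hα⟩ : ∃ α, α = p - 3 := ⟨_, rfl⟩
        obtain ⟨γ, hγ⟩ : ∃ γ, γ = (c : ℝ) - 3 := ⟨_, rfl⟩
        have hα0 : 0 ≤ α := by linarith
        have hγ0 : 0 ≤ γ := by linarith
        have e1 : p = 3 + α := by linarith
        have e2 : (c : ℝ) = 3 + γ := by linarith
        rw [e1, e2]
        have : 0 ≤ (3 + α + 3 + (3 + γ - 3)) * (2 * (3 + α) * (3 + α) * (3 + γ + 1)) -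
            (2 * (3 + α) + 1) * (2 * (3 + α) * (3 + γ + 1) +
              (2 * (3 + α) - 5 + 2 * (3 + γ)) * (3 + α + (3 + γ) - 1)) := by
          ring_nf
          positivity
        linarith
    nlinarith
  linarith


/-- the pieces of the scaled potential -/
private theorem ph_scale {p : ℝ} (hp : 0 < p) (h : PosM m) :
    ph (fun D => m D / p) K = 2 + pt m K / p +
      ∑ j ∈ K, (1 + pom m K j / p) * ((p - m {j}) / (m {j} + m ∅)) := by
  unfold ph
  have h1 : pt (fun D => m D / p) K = pt m K / p := by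
    unfold pt
    rw [sum_div]
    exact sum_congr rfl fun D _ => by ring
  rw [h1]
  congr 1
  refine sum_congr rfl fun j _ => ?_
  rw [pom_scale]
  congr 1
  unfold pg
  have h2 : 0 < m {j} + m ∅ := add_pos_of_pos_of_nonneg (h.2 j) (h.1 ∅)
  have h3 : m {j} / p + m ∅ / p = (m {j} + m ∅) / p := by ring
  rw [h3]
  field_simp

/-- no over-full element -/
theorem stA3n (h : PosM m) {mn : Finset V → ℕ} (hmn : ∀ D, m D = mn D) (ht : t ∈ K)
    (hK : 4 ≤ K.card) {p : ℕ} (hp : 2 ≤ p) (hw : ∀ j ∈ K, 1 ≤ m {j})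
    (ha : ∀ j ∈ K, pa m K j ≤ p) (hpal : pal m K = ((K.card : ℝ) - 2) * p + 2) {b : V → ℝ}
    (hb0 : ∀ j ∈ K, 0 ≤ b j) (hb : ∀ j ∈ K, 2 + pom m K j - (m {j} + m ∅) ≤ b j)
    (hbs : 3 + po m K - m ∅ ≤ ∑ j ∈ K, b j) :
    (p : ℝ) ^ (K.card - 3) * ((2 * p + 2) * Ival m K - Ival m (K.erase t)) ≤
      1 + ∑ j ∈ K, b j / (m {j} + m ∅) := by
  have hp2 : (2 : ℝ) ≤ p := by exact_mod_cast hp
  have hp0 : (0 : ℝ) < p := by linarith
  have hI := Ival_pos h K
  have hc0 : 0 ≤ m ∅ := h.1 ∅
  have hpo := po_eq (m := m) (K := K)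
  have hpl := pal_eq (m := m) (K := K)
  have hsa := sum_pa (m := m) (K := K)
  have hpt0 : 0 ≤ pt m K := sum_nonneg fun D _ => mul_nonneg (Nat.cast_nonneg _) (h.1 D)
  have hpN0 : 0 ≤ pN m K := sum_nonneg fun D _ => by
    split_ifs
    · exact h.1 D
    · exact le_rfl
  have hpom0 : ∀ j, 0 ≤ pom m K j := fun j =>
    sum_nonneg fun D _ => mul_nonneg (Nat.cast_nonneg _) (h.1 D)
  have hwp : ∀ j ∈ K, m {j} ≤ p := fun j hj => (le_pa h.1 hj).trans (ha j hj)
  have hy : ∀ j ∈ K, 1 + m ∅ ≤ m {j} + m ∅ := fun j hj => by linarith [hw j hj]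
  have hsx : ∑ j ∈ K, ((p : ℝ) - m {j}) = 2 * p - 2 + m ∅ + pN m K := by
    rw [sum_sub_distrib, sum_const, nsmul_eq_mul]
    linarith
  have hS0 : 0 ≤ ∑ j ∈ K, b j / (m {j} + m ∅) := sum_nonneg fun j hj =>
    div_nonneg (hb0 j hj) (by linarith [hy j hj])
  have hbb : 0 ≤ ∑ j ∈ K, b j := sum_nonneg hb0
  have hdrop : (p : ℝ) ^ (K.card - 3) * ((2 * p + 2) * Ival m K - Ival m (K.erase t)) ≤
      (p : ℝ) ^ (K.card - 3) * ((2 * p + 2 - m {t}) * Ival m K) := by
    refine mul_le_mul_of_nonneg_left ?_ (by positivity)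
    linarith [mul_Ival_le_erase h ht]
  by_cases hpc : (3 : ℝ) ≤ p ∨ mn ∅ ≤ 2
  · -- the potential
    obtain ⟨κ, hκ⟩ : ∃ κ : ℝ, κ = (2 * p + 2 - m {t}) / (2 * p) := ⟨_, rfl⟩
    obtain ⟨f, hf⟩ : ∃ f : ℝ, f = if mn ∅ ≤ 1 then 1 / 2 else
        (p + (mn ∅ : ℝ) - 1) / (p * ((mn ∅ : ℝ) + 1)) := ⟨_, rfl⟩
    have hκ0 : 0 ≤ κ := by
      rw [hκ]
      exact div_nonneg (by linarith [hwp t ht]) (by positivity)
    have hκ1 : κ ≤ (2 * p + 1) / (2 * p) := by
      rw [hκ]
      exact div_le_div_of_nonneg_right (by linarith [hw t ht]) (by positivity)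
    have hκ2 : κ ≤ 5 / 4 := by
      refine hκ1.trans ?_
      rw [div_le_div_iff₀ (by positivity) (by norm_num)]
      linarith
    have hf0 : 0 ≤ f := by
      rw [hf]
      split_ifs with h1
      · norm_num
      · exact div_nonneg (by
          have : (2 : ℝ) ≤ mn ∅ := by exact_mod_cast (by omega : 2 ≤ mn ∅)
          linarith) (by positivity)
    have hf2 : f ≤ 1 / 2 := by
      rw [hf]
      split_ifs with h1
      · exact le_rfl
      · have hc2 : (2 : ℝ) ≤ mn ∅ := by exact_mod_cast (by omega : 2 ≤ mn ∅)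
        rw [div_le_div_iff₀ (by positivity) (by norm_num)]
        nlinarith [mul_nonneg (sub_nonneg.2 hp2) (sub_nonneg.2 hc2)]
    have hκf : κ * f ≤ 1 := by
      calc κ * f ≤ 5 / 4 * (1 / 2) := mul_le_mul hκ2 hf2 hf0 (by norm_num)
        _ ≤ 1 := by norm_num
    have hfo : ∀ o : ℝ, 0 ≤ o → 1 + o / p ≤ f * max (2 + o) (1 + m ∅) := by
      intro o ho
      rw [hf, hmn ∅]
      split_ifs with h1
      · exact f_half hp2 ho
      · exact f_star hp2 (by exact_mod_cast (by omega : 1 ≤ mn ∅))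
    -- pot
    have h' : PosM (fun D => m D / (p : ℝ)) :=
      ⟨fun D => div_nonneg (h.1 D) hp0.le, fun k => div_pos (h.2 k) hp0⟩
    have hpQ : pQ (fun D => m D / (p : ℝ)) K = 2 / p := by
      have h2 : pal (fun D => m D / (p : ℝ)) K = pal m K / p := by
        unfold pal
        rw [sum_div]
      unfold pQ
      rw [h2, hpal]
      field_simp
      ring
    have h2 := pot h' (by omega : 2 ≤ K.card) (fun k hk => by
      rw [pa_scale, div_le_one hp0]
      exact ha k hk) (by rw [hpQ]; positivity)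
    rw [hpQ, ph_scale hp0 h, Ival_scale m hp0.ne' K] at h2
    have h4 : (p : ℝ) ^ K.card = p * p * (p * p ^ (K.card - 3)) := by
      rw [← pow_succ', mul_assoc, ← pow_succ', ← pow_succ']
      congr 1
      omega
    have h5 : (p + m ∅) * ((p : ℝ) ^ (K.card - 3) * ((2 * p + 2 - m {t}) * Ival m K)) =
        κ * ((1 + m ∅ / p) * (2 / p) * ((p : ℝ) ^ K.card * Ival m K)) := by
      rw [hκ, h4]
      field_simp
    have h6 := mul_le_mul_of_nonneg_left h2 hκ0
    -- elements
    have h7 : ∀ j ∈ K, κ * ((1 + pom m K j / p) * ((p - m {j}) / (m {j} + m ∅))) ≤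
        b j * ((p - m {j}) / (m {j} + m ∅)) + κ * f * (p - m {j}) := by
      intro j hj
      have hyj := hy j hj
      have hy0 : 0 < m {j} + m ∅ := by linarith
      have h8 := el_bound hyj hκ0 hf0 (hb0 j hj) (hb j hj) hκf (hfo _ (hpom0 j))
      have h9 : 0 ≤ (p - m {j}) / (m {j} + m ∅) :=
        div_nonneg (by linarith [hwp j hj]) hy0.le
      have h10 := mul_le_mul_of_nonneg_right h8 h9
      have h11 : κ * (f * (m {j} + m ∅)) * ((p - m {j}) / (m {j} + m ∅)) =
          κ * f * (p - m {j}) := by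
        field_simp
      rw [h11] at h10
      linarith
    have h8 : κ * (2 + pt m K / p +
        ∑ j ∈ K, (1 + pom m K j / p) * ((p - m {j}) / (m {j} + m ∅))) ≤
        κ * (2 + (po m K - pN m K) / p + (2 * p - 2 + m ∅ + pN m K) * f) +
          ∑ j ∈ K, b j * ((p - m {j}) / (m {j} + m ∅)) := by
      have h9 := sum_le_sum h7
      rw [← mul_sum, sum_add_distrib, ← mul_sum, hsx] at h9
      have h10 : pt m K = po m K - pN m K := by linarith
      rw [h10]
      nlinarith
    have h9 := num_no (p := p) (O := po m K) (N := pN m K) (κ := κ) (SB := ∑ j ∈ K, b j)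
      (c := mn ∅) (f := f) hp2 (by linarith) (by linarith) hκ0 hκ1 hbb
      (by rw [← hmn ∅]; exact hbs) hpc hf
    rw [← hmn ∅] at h9
    have h10 : (p + m ∅) * (1 + ∑ j ∈ K, b j / (m {j} + m ∅)) = p + m ∅ + ∑ j ∈ K, b j +
        ∑ j ∈ K, b j * ((p - m {j}) / (m {j} + m ∅)) := by
      rw [mul_add, mul_one, mul_sum, add_assoc (p + m ∅), ← sum_add_distrib]
      congr 1
      refine sum_congr rfl fun j hj => ?_
      have : 0 < m {j} + m ∅ := by linarith [hy j hj]
      field_simp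
      ring
    have hpc0 : 0 < (p : ℝ) + m ∅ := by linarith
    refine le_of_mul_le_mul_left ?_ hpc0
    refine (mul_le_mul_of_nonneg_left hdrop hpc0.le).trans ?_
    rw [h5, h10]
    linarith
  · -- `p = 2`, `m ∅ ≥ 3`
    push Not at hpc
    obtain ⟨hp3, hc3⟩ := hpc
    have hpe : p = 2 := by
      have : p < 3 := by exact_mod_cast hp3
      omega
    subst hpe
    obtain ⟨On, hOn⟩ := po_int (fun D => ⟨mn D, hmn D⟩) K
    have hgw := mass_gw (m := m) (K := K) (q := 2) (L := 2) (H := 4 / 3) le_rfl (by norm_num)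
      (by norm_num) (by norm_num) (by norm_num) hmn
      (fun j hj => by
        have := hw j hj
        rw [hmn] at this
        exact_mod_cast this)
      ha (c0 := 3) (On := On) (Δ := 5) (by omega) hOn (by rw [hpal]; push_cast; ring)
    have hbq : Pool.Agent.MP76b19e.bq (2 - 1) 3 5 = 1 / 56 := by
      unfold Pool.Agent.MP76b19e.bq
      rw [prod_range_succ, prod_range_succ, prod_range_succ, prod_range_zero]
      norm_num
    rw [hbq] at hgw
    obtain ⟨k, hk⟩ : ∃ k, k = On - (mn ∅ - 3) := ⟨_, rfl⟩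
    rw [← hk] at hgw
    have hpw : ((2 : ℕ) : ℝ) ^ K.card = 8 * ((2 : ℕ) : ℝ) ^ (K.card - 3) := by
      have : (8 : ℝ) = ((2 : ℕ) : ℝ) ^ 3 := by norm_num
      rw [this, ← pow_add]
      congr 1
      omega
    have hLHS : ((2 : ℕ) : ℝ) ^ (K.card - 3) * ((2 * (2 : ℕ) + 2 - m {t}) * Ival m K) ≤
        5 / 14 * (4 / 3) ^ k := by
      have h1 : ((2 : ℕ) : ℝ) ^ (K.card - 3) * ((2 * (2 : ℕ) + 2 - m {t}) * Ival m K) ≤
          5 / 8 * (((2 : ℕ) : ℝ) ^ K.card * Ival m K) := by
        rw [hpw]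
        have h2 : 0 ≤ ((2 : ℕ) : ℝ) ^ (K.card - 3) * Ival m K := by positivity
        have h3 := hw t ht
        push_cast at h2 ⊢
        nlinarith
      refine h1.trans ?_
      have h2 := mul_le_mul_of_nonneg_left hgw (by norm_num : (0 : ℝ) ≤ 5 / 8)
      refine h2.trans (le_of_eq ?_)
      norm_num
      ring
    have hcast : m ∅ = (mn ∅ : ℝ) := hmn ∅
    have hsx' : ∑ j ∈ K, ((2 : ℝ) - m {j}) = 2 + m ∅ + pN m K := by
      have := hsx
      push_cast at this
      rw [this]
      ring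
    -- bounds
    have hn : 2 + m ∅ + pN m K ≤ K.card := by
      rw [← hsx']
      calc ∑ j ∈ K, ((2 : ℝ) - m {j}) ≤ ∑ _j ∈ K, (1 : ℝ) :=
            sum_le_sum fun j hj => by linarith [hw j hj]
        _ = K.card := by rw [sum_const, nsmul_eq_mul, mul_one]
    have hOc : po m K ≤ 2 + m ∅ := by
      have h1 : ∑ j ∈ K, (pa m K j - m {j}) ≤ ∑ j ∈ K, ((2 : ℝ) - m {j}) :=
        sum_le_sum fun j hj => by
          have := ha j hj
          push_cast at this
          linarith
      rw [hsx', sum_sub_distrib] at h1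
      linarith
    have hOn2 : On ≤ 2 + mn ∅ := by
      have : (On : ℝ) ≤ 2 + mn ∅ := by
        rw [← hOn, ← hcast]
        exact hOc
      exact_mod_cast this
    refine hdrop.trans (hLHS.trans ?_)
    rcases Nat.lt_or_ge k 4 with h4 | h4
    · have h5 : ((4 : ℝ) / 3) ^ k ≤ (4 / 3) ^ 3 := pow_le_pow_right₀ (by norm_num) (by omega)
      have h6 : (5 : ℝ) / 14 * (4 / 3) ^ 3 ≤ 1 := by norm_num
      linarith
    · obtain ⟨s, hs⟩ : ∃ s : ℕ, On = mn ∅ + s := ⟨On - mn ∅, by omega⟩
      have hs1 : 1 ≤ s := by omega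
      have hs2 : s ≤ 2 := by omega
      have hks : k = s + 3 := by omega
      have hsr : po m K = m ∅ + s := by
        rw [hOn, hcast, hs]
        push_cast
        ring
      have h5 : (s : ℝ) ≤ ∑ j ∈ K, b j / (m {j} + m ∅) := by
        have h6 : ∀ j ∈ K, (s : ℝ) / (2 + m ∅) ≤ b j / (m {j} + m ∅) := by
          intro j hj
          have h7 := pa_add_pom (m := m) hj
          have h8 := hb j hj
          have h9 := ha j hj
          have h10 := hwp j hj
          push_cast at h9 h10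
          have hyj := hy j hj
          have hy0 : 0 < m {j} + m ∅ := by linarith
          have h11 : (s : ℝ) ≤ b j := by linarith
          calc (s : ℝ) / (2 + m ∅) ≤ s / (m {j} + m ∅) :=
                div_le_div_of_nonneg_left (Nat.cast_nonneg _) hy0 (by linarith)
            _ ≤ _ := div_le_div_of_nonneg_right h11 hy0.le
        have h7 := sum_le_sum h6
        rw [sum_const, nsmul_eq_mul] at h7
        refine le_trans ?_ h7
        have h8 : 0 < 2 + m ∅ := by linarith
        rw [← mul_div_assoc, le_div_iff₀ h8, mul_comm]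
        exact mul_le_mul_of_nonneg_right (by linarith) (Nat.cast_nonneg _)
      have h6 : (5 : ℝ) / 14 * (4 / 3) ^ (s + 3) ≤ 1 + s := by
        interval_cases s <;> norm_num
      rw [hks]
      linarith

/-- a top element with the private mass `p + 1` -/
theorem stA3f (h : PosM m) (ht : t ∈ K) (hK : 4 ≤ K.card) {p : ℝ} (hp : 2 ≤ p)
    (ha : ∀ j ∈ K, j ≠ t → pa m K j ≤ p) (hat : pa m K t ≤ p + 1) (hwt : m {t} = p + 1)
    (hpal : pal m K = ((K.card : ℝ) - 2) * p + 2) {b : V → ℝ} (hb0 : ∀ j ∈ K, 0 ≤ b j)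
    (hb : ∀ j ∈ K, j ≠ t → 2 + pom m K j - (m {j} + m ∅) ≤ b j)
    (hbs : 3 + po m (K.erase t) - m ∅ ≤ ∑ j ∈ K.erase t, b j) :
    p ^ (K.card - 3) * ((2 * p + 2) * Ival m K - Ival m (K.erase t)) ≤
      1 + ∑ j ∈ K, b j / (m {j} + m ∅) := by
  have hp0 : 0 < p := by linarith
  have h1 := mul_Ival_le_erase h ht
  rw [hwt] at h1
  have hat' : pa m K t = p + 1 := le_antisymm hat (by rw [← hwt]; exact le_pa h.1 ht)
  have hcard : (K.erase t).card = K.card - 1 := card_erase_of_mem ht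
  have hcardr : ((K.erase t).card : ℝ) = (K.card : ℝ) - 1 := by
    rw [hcard, Nat.cast_sub (by omega), Nat.cast_one]
  have hQ0 : pal m (K.erase t) - (((K.erase t).card : ℝ) - 2) * p = 1 := by
    rw [pal_erase, hat', hpal, hcardr]
    ring
  have hpom : ∀ j, pom m (K.erase t) j ≤ pom m K j := by
    intro j
    unfold pom
    exact sum_le_sum_of_subset_of_nonneg (powerset_mono.2 (erase_subset t K)) fun D _ _ =>
      mul_nonneg (Nat.cast_nonneg _) (h.1 D)
  have hv := vstar (m := m) (K := K.erase t) h (by omega) (P := p) (Q1 := 2) hp0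
    (fun k hk => (pa_erase_le h.1 t k).trans (ha k (mem_of_mem_erase hk) (ne_of_mem_erase hk)))
    (by rw [hQ0]; norm_num) hp (by norm_num) (b := b)
    (fun j hj => by
      have := hb j (mem_of_mem_erase hj) (ne_of_mem_erase hj)
      linarith [hpom j])
    (by rw [hQ0]; linarith)
  rw [hQ0, hcard] at hv
  have h2 : K.card - 1 - 2 = K.card - 3 := by omega
  rw [h2] at hv
  have h3 : ∑ j ∈ K.erase t, b j / (m {j} + m ∅) ≤ ∑ j ∈ K, b j / (m {j} + m ∅) := by
    refine sum_le_sum_of_subset_of_nonneg (erase_subset t K) fun j hj _ => ?_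
    exact div_nonneg (hb0 j hj) (add_nonneg (h.2 j).le (h.1 ∅))
  have h4 : 0 ≤ ∑ j ∈ K, b j / (m {j} + m ∅) := sum_nonneg fun j hj =>
    div_nonneg (hb0 j hj) (add_nonneg (h.2 j).le (h.1 ∅))
  have h5 : p ^ (K.card - 3) * ((2 * p + 2) * Ival m K - Ival m (K.erase t)) ≤
      p ^ (K.card - 3) * Ival m (K.erase t) := by
    refine mul_le_mul_of_nonneg_left ?_ (by positivity)
    linarith
  linarith

end MP76b19e.Rob
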