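import Pool.Agent.Lib.MP76b19e.Rob.PotP

/-!
# One top element: it is not over-full, or it is fat (problem MP_76b19e_co)

`stA3pf`: all the mass `p + 1` of the top `t` is private. `stA3pn`: the top owns at most `p`, and
`3 ≤ p` or the base is at most `2`.
-/

set_option autoImplicit false

open Finset

namespace MP76b19e.Rob

/-- the final inequality for the fat top -/
theorem num_fatP {p O N SL bt : ℝ} {c : ℕ} (hp : 2 ≤ p) (hN : 0 ≤ N) (hNO : N ≤ O) (hSL : 0 ≤ SL)
    (hbt : 0 ≤ bt) (hs : 3 + O - c ≤ SL + bt) {f : ℝ}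
    (hf : f = if c ≤ 1 then 1 / 2 else (p + c - 1) / (p * (c + 1))) :
    2 + (O - N) / p + f * (2 * p - 1 + c + N) ≤
      p + c + SL + (p + c) / (p + 1 + c) * bt := by
  have hp0 : 0 < p := by linarith
  have hc0 : (0 : ℝ) ≤ c := Nat.cast_nonneg c
  have hpc : 0 < p + 1 + c := by linarith
  have hr1 : (p + c) / (p + 1 + c) ≤ 1 := by
    rw [div_le_one hpc]
    linarith
  have hr2 : 2 / 3 ≤ (p + c) / (p + 1 + c) := by
    rw [div_le_div_iff₀ (by norm_num) hpc]
    linarith
  set r := (p + c) / (p + 1 + c) with hr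
  have hOp : (O - N) / p ≤ (O - N) / 2 :=
    div_le_div_of_nonneg_left (by linarith) (by norm_num) hp
  have hb1 : r * (SL + bt) ≤ SL + r * bt := by nlinarith
  have hb2 : r * (3 + O - c) ≤ r * (SL + bt) := mul_le_mul_of_nonneg_left hs (by linarith)
  have hb0 : 0 ≤ SL + r * bt := add_nonneg hSL (mul_nonneg (by linarith) hbt)
  rcases Nat.lt_or_ge c 2 with h1 | h1
  · rw [if_pos (by omega)] at hf
    have hc1 : (c : ℝ) ≤ 1 := by exact_mod_cast (by omega : c ≤ 1)
    rw [hf]
    have h2 : 2 / 3 * (3 + O - c) ≤ r * (3 + O - c) :=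
      mul_le_mul_of_nonneg_right hr2 (by linarith)
    linarith
  · rw [if_neg (by omega)] at hf
    have hc2 : (2 : ℝ) ≤ c := by exact_mod_cast h1
    have hD : 0 < p * (c + 1) := by positivity
    have hf2 : f ≤ 1 / 2 := by
      rw [hf, div_le_div_iff₀ hD (by norm_num)]
      nlinarith [mul_nonneg (sub_nonneg.2 hp) (sub_nonneg.2 hc2)]
    have hfp : 1 / p ≤ f := by
      rw [hf, div_le_div_iff₀ hp0 hD]
      nlinarith [mul_nonneg hp0.le (sub_nonneg.2 hp)]
    have hf0 : 0 ≤ f := by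
      have : 0 < 1 / p := by positivity
      linarith
    have hOf : (O - N) / p ≤ f * (O - N) := by
      rw [div_eq_mul_one_div, mul_comm]
      exact mul_le_mul_of_nonneg_right hfp (by linarith)
    have hmain : 2 + f * (2 * p - 4 + 2 * c) ≤ p + c := by
      have h3 : f * (2 * p - 4 + 2 * c) ≤ p + c - 2 := by
        rw [hf, div_mul_eq_mul_div, div_le_iff₀ hD]
        nlinarith [mul_nonneg (mul_nonneg (sub_nonneg.2 hp) (by linarith : (0 : ℝ) ≤ c - 1))
          (by linarith : 0 ≤ p + c - 2)]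
      linarith
    -- the left side is at most `2 + f (2 p - 1 + c) + f O`
    have hL : 2 + (O - N) / p + f * (2 * p - 1 + c + N) ≤ 2 + f * (2 * p - 1 + c) + f * O := by
      linarith
    rcases Nat.lt_or_ge c 3 with h3 | h3
    · have hc : (c : ℝ) = 2 := by exact_mod_cast (by omega : c = 2)
      have h4 : 2 + f * (2 * p + 1) ≤ p + 2 + r := by
        have h5 : f * (2 * p + 1) ≤ p + r := by
          have h6 : f * (2 * p + 1) = (p + 1) * (2 * p + 1) / (3 * p) := by
            rw [hf, hc]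
            field_simp
            ring
          have h7 : r = (p + 2) / (p + 3) := by
            rw [hr, hc]
            congr 1
            ring
          rw [h6, h7, div_le_iff₀ (by linarith)]
          have h8 : (p + (p + 2) / (p + 3)) * (3 * p) =
              (3 * p ^ 3 + 12 * p ^ 2 + 6 * p) / (p + 3) := by
            field_simp
            ring
          rw [h8, le_div_iff₀ (by linarith)]
          nlinarith [mul_nonneg hp0.le (sub_nonneg.2 hp),
            mul_nonneg (mul_nonneg hp0.le hp0.le) (sub_nonneg.2 hp)]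
        linarith
      have h5 : r * (3 + O - c) = r + r * O := by
        rw [hc]
        ring
      have h6 : f * O ≤ r * O := mul_le_mul_of_nonneg_right (by linarith) (by linarith)
      rw [hc] at hL ⊢
      linarith
    · have hc3 : (3 : ℝ) ≤ c := by exact_mod_cast h3
      rcases le_total O (c - 3) with h4 | h4
      · have h5 : f * O ≤ f * (c - 3) := mul_le_mul_of_nonneg_left h4 hf0
        linarith
      · have h5 : f * (O - (c - 3)) ≤ r * (O - (c - 3)) :=
          mul_le_mul_of_nonneg_right (by linarith) (by linarith)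
        linarith

/-- the final inequality for the top which is not over-full -/
theorem num_noP {p O N SB κ : ℝ} {c : ℕ} (hp : 2 ≤ p) (hpc : 3 ≤ p ∨ c ≤ 2) (hN : 0 ≤ N)
    (hNO : N ≤ O) (hSB : 0 ≤ SB) (hs : 3 + O - c ≤ SB)
    (hκ : κ ≤ (2 * p + 1) / (2 * p)) {f : ℝ}
    (hf : f = if c ≤ 1 then 1 / 2 else (p + c - 1) / (p * (c + 1))) :
    κ * (2 + (O - N) / p) + κ * f * (2 * p - 2 + c + N) ≤ p + c + SB := by
  have hp0 : 0 < p := by linarith
  have hc0 : (0 : ℝ) ≤ c := Nat.cast_nonneg c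
  have hκ2 : (2 * p + 1) / (2 * p) ≤ 5 / 4 := by
    rw [div_le_div_iff₀ (by linarith) (by norm_num)]
    linarith
  have hf0 : 0 ≤ f := by
    rw [hf]
    split_ifs with h
    · norm_num
    · have : (2 : ℝ) ≤ c := by exact_mod_cast (by omega : 2 ≤ c)
      exact div_nonneg (by linarith) (by positivity)
  -- monotone in `κ`
  have hmono : κ * (2 + (O - N) / p) + κ * f * (2 * p - 2 + c + N) ≤
      (2 * p + 1) / (2 * p) * ((2 + (O - N) / p) + f * (2 * p - 2 + c + N)) := by
    have h1 : 0 ≤ (2 + (O - N) / p) + f * (2 * p - 2 + c + N) := by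
      have : 0 ≤ (O - N) / p := div_nonneg (by linarith) hp0.le
      have : 0 ≤ f * (2 * p - 2 + c + N) := mul_nonneg hf0 (by linarith)
      linarith
    have h2 := mul_le_mul_of_nonneg_right hκ h1
    linarith
  refine hmono.trans ?_
  have hOp : (O - N) / p ≤ (O - N) / 2 :=
    div_le_div_of_nonneg_left (by linarith) (by norm_num) hp
  rcases Nat.lt_or_ge c 2 with h1 | h1
  · rw [if_pos (by omega)] at hf
    have hc1 : (c : ℝ) ≤ 1 := by exact_mod_cast (by omega : c ≤ 1)
    have h2 : (2 + (O - N) / p) + f * (2 * p - 2 + c + N) ≤ 1 + p + c / 2 + O / 2 := by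
      rw [hf]
      linarith
    have h3 : (2 * p + 1) / (2 * p) * (1 + p + c / 2 + O / 2) ≤ p + 3 + O := by
      rw [div_mul_eq_mul_div, div_le_iff₀ (by linarith)]
      nlinarith [mul_nonneg (sub_nonneg.2 hp) (by linarith : 0 ≤ O), mul_nonneg hp0.le hc0,
        mul_nonneg hp0.le (sub_nonneg.2 hc1)]
    have h4 := mul_le_mul_of_nonneg_left h2 (by positivity : 0 ≤ (2 * p + 1) / (2 * p))
    linarith
  · rw [if_neg (by omega)] at hf
    have hc2 : (2 : ℝ) ≤ c := by exact_mod_cast h1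
    have hD : 0 < p * (c + 1) := by positivity
    have hf2 : f ≤ 1 / 2 := by
      rw [hf, div_le_div_iff₀ hD (by norm_num)]
      nlinarith [mul_nonneg (sub_nonneg.2 hp) (sub_nonneg.2 hc2)]
    have hfp : 1 / p ≤ f := by
      rw [hf, div_le_div_iff₀ hp0 hD]
      nlinarith [mul_nonneg hp0.le (sub_nonneg.2 hp)]
    have hOf : (O - N) / p ≤ f * (O - N) := by
      rw [div_eq_mul_one_div, mul_comm]
      exact mul_le_mul_of_nonneg_right hfp (by linarith)
    set k := (2 * p + 1) / (2 * p) with hk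
    have hk0 : 0 < k := by positivity
    have hkf : k * f ≤ 1 := by nlinarith
    have hL : k * ((2 + (O - N) / p) + f * (2 * p - 2 + c + N)) ≤
        k * (2 + f * (2 * p - 2 + c)) + k * f * O := by
      have h2 : (2 + (O - N) / p) + f * (2 * p - 2 + c + N) ≤ 2 + f * (2 * p - 2 + c) + f * O := by
        linarith
      have h3 := mul_le_mul_of_nonneg_left h2 hk0.le
      linarith
    rcases Nat.lt_or_ge c 3 with h3 | h3
    · have hc : (c : ℝ) = 2 := by exact_mod_cast (by omega : c = 2)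
      have h4 : k * (2 + f * (2 * p)) ≤ p + 3 := by
        have h5 : k * (2 + f * (2 * p)) = (2 * p + 1) * (p + 4) / (3 * p) := by
          rw [hk, hf, hc]
          field_simp
          ring
        rw [h5, div_le_iff₀ (by linarith)]
        nlinarith [mul_nonneg (sub_nonneg.2 hp) (sub_nonneg.2 hp)]
      have h5 : k * f * O ≤ O := by nlinarith
      rw [hc] at hL ⊢
      have h6 : 2 * p - 2 + 2 = 2 * p := by ring
      rw [h6] at hL
      linarith
    · have hc3 : (3 : ℝ) ≤ c := by exact_mod_cast h3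
      have hp3 : 3 ≤ p := by
        rcases hpc with h | h
        · exact h
        · omega
      have hmain : k * (2 + f * (2 * p - 5 + 2 * c)) ≤ p + c := by
        have h5 : k * (2 + f * (2 * p - 5 + 2 * c)) =
            (2 * p + 1) * (2 * (p * (c + 1)) + (p + c - 1) * (2 * p - 5 + 2 * c)) /
              (2 * p * (p * (c + 1))) := by
          rw [hk, hf]
          field_simp
        rw [h5, div_le_iff₀ (by positivity)]
        obtain ⟨a, ha⟩ : ∃ a, a = p - 3 := ⟨_, rfl⟩
        obtain ⟨b, hb⟩ : ∃ b : ℝ, b = c - 3 := ⟨_, rfl⟩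
        have ha0 : 0 ≤ a := by linarith
        have hb0 : 0 ≤ b := by linarith
        have e1 : p = 3 + a := by linarith
        have e2 : (c : ℝ) = 3 + b := by linarith
        rw [e1, e2, ← sub_nonneg]
        ring_nf
        positivity
      rcases le_total O (c - 3) with h4 | h4
      · have h5 : k * f * O ≤ k * f * (c - 3) :=
          mul_le_mul_of_nonneg_left h4 (mul_nonneg hk0.le hf0)
        linarith
      · have h5 : k * f * (O - (c - 3)) ≤ 1 * (O - (c - 3)) :=
          mul_le_mul_of_nonneg_right hkf (by linarith)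
        linarith

variable {V : Type} [DecidableEq V] {m : Finset V → ℝ} {K : Finset V} {t : V}

theorem pN_le_poP (h : ∀ D, 0 ≤ m D) (K : Finset V) : pN m K ≤ po m K := by
  have := po_eq (m := m) (K := K)
  have := pt_nonneg (K := K) h
  linarith

/-- the factor `f` -/
theorem fac_okP {p x : ℝ} {c : ℕ} (hp : 2 ≤ p) (hx : 0 ≤ x) :
    1 + x / p ≤ (if c ≤ 1 then 1 / 2 else (p + c - 1) / (p * (c + 1))) *
      max (2 + x) (1 + (c : ℝ)) := by
  split_ifs with h
  · exact fac_half hp hx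
  · exact fac_c hp (by exact_mod_cast (by omega : 1 ≤ c)) hx

theorem fac_nonnegP {p : ℝ} {c : ℕ} (hp : 2 ≤ p) :
    0 ≤ if c ≤ 1 then (1 / 2 : ℝ) else (p + c - 1) / (p * (c + 1)) := by
  split_ifs with h
  · norm_num
  · have : (2 : ℝ) ≤ c := by exact_mod_cast (by omega : 2 ≤ c)
    exact div_nonneg (by linarith) (by positivity)

/-- one top, at most `p` units -/
theorem stA3pn (h : PosM m) {c : ℕ} (hc : m ∅ = c) (ht : t ∈ K) (hK : 4 ≤ K.card) {p : ℝ}
    (hp : 2 ≤ p) (hpc : 3 ≤ p ∨ c ≤ 2) (hw : ∀ j ∈ K, 1 ≤ m {j}) (ha : ∀ j ∈ K, pa m K j ≤ p)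
    (hpal : pal m K = ((K.card : ℝ) - 2) * p + 2) {b : V → ℝ} (hb0 : ∀ j ∈ K, 0 ≤ b j)
    (hb : ∀ j ∈ K, 2 + pom m K j - (m {j} + m ∅) ≤ b j)
    (hbs : 3 + po m K - m ∅ ≤ ∑ j ∈ K, b j) :
    p ^ (K.card - 3) * ((2 * p + 2) * Ival m K - Ival m (K.erase t)) ≤
      1 + ∑ j ∈ K, b j / (m {j} + m ∅) := by
  have hp0 : 0 < p := by linarith
  have hc0 : (0 : ℝ) ≤ c := Nat.cast_nonneg c
  have hwt : m {t} ≤ p := (le_pa h.1 ht).trans (ha t ht)
  have hwt1 := hw t ht
  have hpot := potP h (by omega : 2 ≤ K.card) hp0 ha (by rw [hpal]; linarith)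
  rw [hpal, add_sub_cancel_left] at hpot
  obtain ⟨κ, hκ⟩ : ∃ κ, κ = (2 * p + 2 - m {t}) / (2 * p) := ⟨_, rfl⟩
  have hκ0 : 0 ≤ κ := by
    rw [hκ]
    exact div_nonneg (by linarith) (by linarith)
  have hκ1 : κ ≤ (2 * p + 1) / (2 * p) := by
    rw [hκ]
    exact div_le_div_of_nonneg_right (by linarith) (by linarith)
  have hκ2 : κ ≤ 2 := by
    refine hκ1.trans ?_
    rw [div_le_iff₀ (by linarith)]
    linarith
  -- the left side
  have hI : 0 ≤ Ival m K := (Ival_pos h K).le
  have h1 := mul_Ival_le_erase h ht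
  have h2 : p ^ (K.card - 3) * ((2 * p + 2) * Ival m K - Ival m (K.erase t)) ≤
      p ^ (K.card - 3) * ((2 * p + 2 - m {t}) * Ival m K) :=
    mul_le_mul_of_nonneg_left (by linarith) (pow_nonneg hp0.le _)
  have hpow : p ^ (K.card - 2) = p * p ^ (K.card - 3) := by
    rw [← pow_succ']
    congr 1
    omega
  have h3 : (p + c) * (p ^ (K.card - 3) * ((2 * p + 2 - m {t}) * Ival m K)) =
      κ * ((p + m ∅) * 2 * (p ^ (K.card - 2) * Ival m K)) := by
    rw [hκ, hpow, hc]
    field_simp
  have h4 := mul_le_mul_of_nonneg_left hpot hκ0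
  have h5 := lin_pot K (fun j => m {j}) (pom m K) b (c := c) (T := pt m K) hp hc0 hw
    (fun j hj => (le_pa h.1 hj).trans (ha j hj)) (fun j _ => pom_nonneg h.1 j) hb0
    (fun j hj => by
      have := hb j hj
      rw [hc] at this
      exact this) hκ0 hκ2 (fun x hx => fac_okP (c := c) hp hx) (fac_nonnegP hp)
  have h6 : ∑ j ∈ K, (p - m {j}) = 2 * p - 2 + c + pN m K := by
    rw [sum_free, hpal, hc]
    ring
  have h7 : pt m K = po m K - pN m K := by
    have := po_eq (m := m) (K := K)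
    linarith
  rw [h6] at h5
  have h8 := num_noP (c := c) (O := po m K) (N := pN m K) (SB := ∑ j ∈ K, b j) hp hpc
    (pN_nonneg h.1) (pN_le_poP h.1 K) (sum_nonneg hb0) (by
      rw [hc] at hbs
      exact hbs) hκ1 rfl
  rw [h7] at h5 h4
  rw [hc] at h4
  rw [hc]
  have h9 : (p + c) * (p ^ (K.card - 3) * ((2 * p + 2) * Ival m K - Ival m (K.erase t))) ≤
      (p + c) * (1 + ∑ j ∈ K, b j / (m {j} + c)) := by
    have h10 := mul_le_mul_of_nonneg_left h2 (by linarith : (0 : ℝ) ≤ p + c)
    rw [h3, hc] at h10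
    linarith
  exact le_of_mul_le_mul_left h9 (by linarith)

/-- a fat top -/
theorem stA3pf (h : PosM m) {c : ℕ} (hc : m ∅ = c) (ht : t ∈ K) (hK : 4 ≤ K.card) {p : ℝ}
    (hp : 2 ≤ p) (hw : ∀ j ∈ K, 1 ≤ m {j}) (ha : ∀ j ∈ K, j ≠ t → pa m K j ≤ p)
    (hat : pa m K t = p + 1) (hwt : m {t} = p + 1)
    (hpal : pal m K = ((K.card : ℝ) - 2) * p + 2) {b : V → ℝ} (hb0 : ∀ j ∈ K, 0 ≤ b j)
    (hb : ∀ j ∈ K, j ≠ t → 2 + pom m K j - (m {j} + m ∅) ≤ b j)
    (hbs : 3 + po m K - m ∅ ≤ ∑ j ∈ K, b j) :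
    p ^ (K.card - 3) * ((2 * p + 2) * Ival m K - Ival m (K.erase t)) ≤
      1 + ∑ j ∈ K, b j / (m {j} + m ∅) := by
  have hp0 : 0 < p := by linarith
  have hc0 : (0 : ℝ) ≤ c := Nat.cast_nonneg c
  set K' := K.erase t with hK'
  have hK'c : K'.card = K.card - 1 := card_erase_of_mem ht
  have hK'r : (K'.card : ℝ) = (K.card : ℝ) - 1 := by
    rw [hK'c, Nat.cast_sub (by omega)]
    simp
  have hsub : K' ⊆ K := erase_subset _ _
  have hpal' : pal m K' = ((K'.card : ℝ) - 2) * p + 1 := by
    rw [hK', pal_erase, hat, hpal, ← hK', hK'r]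
    ring
  have ha' : ∀ j ∈ K', pa m K' j ≤ p := fun j hj =>
    (pa_erase_le h.1 t j).trans (ha j (mem_of_mem_erase hj) (ne_of_mem_erase hj))
  have hpot := potP h (by omega : 2 ≤ K'.card) hp0 ha' (by rw [hpal']; linarith)
  rw [hpal', add_sub_cancel_left] at hpot
  -- the overlaps of `K'`
  have hom : ∀ j ∈ K, pom m K' j ≤ pom m K j := by
    intro j _
    unfold pom
    refine sum_le_sum_of_subset_of_nonneg (powerset_mono.2 hsub) fun D _ _ => ?_
    exact mul_nonneg (Nat.cast_nonneg _) (h.1 D)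
  have hpo : po m K' ≤ po m K := by
    unfold po
    refine sum_le_sum_of_subset_of_nonneg (powerset_mono.2 hsub) fun D _ _ => ?_
    exact mul_nonneg (Nat.cast_nonneg _) (h.1 D)
  have hlin := lin_pot K' (fun j => m {j}) (pom m K') b (c := c) (T := pt m K') (κ := 1) hp hc0
    (fun j hj => hw j (hsub hj)) (fun j hj => (le_pa h.1 hj).trans (ha' j hj))
    (fun j _ => pom_nonneg h.1 j) (fun j hj => hb0 j (hsub hj))
    (fun j hj => by
      have h1 := hb j (hsub hj) (ne_of_mem_erase hj)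
      have h2 := hom j (hsub hj)
      rw [hc] at h1
      change 2 + pom m K' j - (m {j} + c) ≤ b j
      linarith) zero_le_one (by norm_num) (fun x hx => fac_okP (c := c) hp hx) (fac_nonnegP hp)
  have h6 : ∑ j ∈ K', (p - m {j}) = 2 * p - 1 + c + pN m K' := by
    rw [sum_free, hpal', hc]
    ring
  have h7 : pt m K' = po m K' - pN m K' := by
    have := po_eq (m := m) (K := K')
    linarith
  have hsb : ∑ j ∈ K, b j = ∑ j ∈ K', b j + b t := by
    rw [hK', sum_erase_add _ _ ht]
  have hsq : ∑ j ∈ K, b j / (m {j} + m ∅) = ∑ j ∈ K', b j / (m {j} + c) + b t / (p + 1 + c) := by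
    rw [hK', ← sum_erase_add _ _ ht, hwt, hc]
  have h8 := num_fatP (c := c) (O := po m K') (N := pN m K') (SL := ∑ j ∈ K', b j) (bt := b t) hp
    (pN_nonneg h.1) (pN_le_poP h.1 K') (sum_nonneg fun j hj => hb0 j (hsub hj)) (hb0 t ht) (by
      rw [hc, hsb] at hbs
      linarith) rfl
  rw [h6, h7] at hlin
  rw [h7, hc] at hpot
  -- the left side
  have hI : 0 ≤ Ival m K := (Ival_pos h K).le
  have h1 := mul_Ival_le_erase h ht
  rw [hwt] at h1
  have h2 : p ^ (K.card - 3) * ((2 * p + 2) * Ival m K - Ival m K') ≤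
      p ^ (K'.card - 2) * Ival m K' := by
    rw [show K'.card - 2 = K.card - 3 by omega]
    exact mul_le_mul_of_nonneg_left (by linarith) (pow_nonneg hp0.le _)
  rw [hsq]
  have hpc : 0 < p + 1 + c := by linarith
  have h9 : (p + c) * (p ^ (K.card - 3) * ((2 * p + 2) * Ival m K - Ival m K')) ≤
      (p + c) * (1 + (∑ j ∈ K', b j / (m {j} + c) + b t / (p + 1 + c))) := by
    have h10 := mul_le_mul_of_nonneg_left h2 (by linarith : (0 : ℝ) ≤ p + c)
    have h11 : (p + c) * (b t / (p + 1 + c)) = (p + c) / (p + 1 + c) * b t := by ring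
    have h12 : (p + c) * (1 + (∑ j ∈ K', b j / (m {j} + c) + b t / (p + 1 + c))) =
        (p + c) + (p + c) * ∑ j ∈ K', b j / (m {j} + c) + (p + c) / (p + 1 + c) * b t := by
      rw [← h11]
      ring
    rw [h12]
    linarith
  exact le_of_mul_le_mul_left h9 (by linarith)

end MP76b19e.Rob
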