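import Pool.Agent.Lib.MP76b19e.Rob.NumW
import Pool.Agent.Lib.MP76b19e.Rob.MassGW
import Pool.Agent.Lib.MP76b19e.Rob.StA3

/-!
# One over-full top, base at least one (problem MP_76b19e_co)

`stA3v`: the top `t` owns the mass `p + 1`, at most `p` of it private, base `m ∅ ≥ 1`.
-/

set_option autoImplicit false

open Finset

namespace MP76b19e.Rob

open Pool.Agent.MP76b19e (bq H_pow_le H_ge_one)

variable {V : Type} [DecidableEq V] {m : Finset V → ℝ} {K : Finset V} {t : V}

/-- the roots -/
theorem exists_LH {p : ℕ} (hp : 2 ≤ p) : ∃ L H : ℝ, 0 < L ∧ 0 < H ∧ L ^ (p - 1) = p ∧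
    H ^ (p - 1) = 2 * p / (p + 1) := by
  have hN : ((p - 1 : ℕ) : ℝ) ≠ 0 := by
    have : (p - 1 : ℕ) ≠ 0 := by omega
    exact_mod_cast this
  have hp0 : (0 : ℝ) < p := by
    have : 0 < p := by omega
    exact_mod_cast this
  have key : ∀ x : ℝ, 0 < x → 0 < x ^ (1 / ((p - 1 : ℕ) : ℝ)) ∧
      (x ^ (1 / ((p - 1 : ℕ) : ℝ))) ^ (p - 1) = x := by
    intro x hx
    refine ⟨Real.rpow_pos_of_pos hx _, ?_⟩
    rw [← Real.rpow_natCast, ← Real.rpow_mul hx.le, one_div_mul_cancel hN, Real.rpow_one]
  obtain ⟨h1, h2⟩ := key p hp0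
  obtain ⟨h3, h4⟩ := key (2 * p / (p + 1)) (by positivity)
  exact ⟨_, _, h1, h3, h2, h4⟩

/-- the shared mass at `t` -/
theorem pa_sub_le_pN (h : ∀ D, 0 ≤ m D) (K : Finset V) (t : V) : pa m K t ≤ m {t} + pN m K := by
  unfold pa pN
  have h1 : ∀ D ∈ K.powerset, (if t ∈ D then m D else 0) ≤
      (if D = {t} then m D else 0) + (if 2 ≤ D.card then m D else 0) := by
    intro D _
    have hD := h D
    by_cases ht : t ∈ D
    · rw [if_pos ht]
      rcases Nat.lt_or_ge D.card 2 with h2 | h2
      · have h3 : D = {t} := by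
          have h4 : 0 < D.card := card_pos.2 ⟨t, ht⟩
          obtain ⟨x, hx⟩ := card_eq_one.1 (show D.card = 1 by omega)
          rw [hx, mem_singleton] at ht
          rw [hx, ht]
        rw [if_pos h3]
        split_ifs <;> linarith
      · rw [if_pos h2]
        split_ifs <;> linarith
    · rw [if_neg ht]
      split_ifs <;> linarith
  refine (sum_le_sum h1).trans ?_
  rw [sum_add_distrib]
  refine add_le_add ?_ le_rfl
  rw [sum_ite_eq' K.powerset {t} m]
  split_ifs
  · exact le_rfl
  · exact h _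

/-- one over-full top, base at least one -/
theorem stA3v (h : PosM m) {mn : Finset V → ℕ} (hmn : ∀ D, m D = mn D) (ht : t ∈ K)
    (hK : 4 ≤ K.card) {p : ℕ} (hp : 2 ≤ p) (hw : ∀ j ∈ K, 1 ≤ m {j})
    (ha : ∀ j ∈ K, j ≠ t → pa m K j ≤ p) (hat : pa m K t = p + 1) (hwt : m {t} ≤ p)
    (hc : 1 ≤ mn ∅) (hpal : pal m K = ((K.card : ℝ) - 2) * p + 2) {b : V → ℝ}
    (hb0 : ∀ j ∈ K, 0 ≤ b j) (hb : ∀ j ∈ K, j ≠ t → 2 + pom m K j - (m {j} + m ∅) ≤ b j)
    (hbt : 3 + pom m K t - (m {t} + m ∅) ≤ b t)
    (hbs : 3 + po m K - m ∅ ≤ ∑ j ∈ K, b j) :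
    (p : ℝ) ^ (K.card - 3) * ((2 * p + 2) * Ival m K - Ival m (K.erase t)) ≤
      1 + ∑ j ∈ K, b j / (m {j} + m ∅) := by
  classical
  have hp2 : (2 : ℝ) ≤ p := by exact_mod_cast hp
  have hp0 : (0 : ℝ) < p := by linarith
  obtain ⟨L, H, hL, hH, hLq, hHq⟩ := exists_LH hp
  have hH1 := H_ge_one hp hH hHq
  obtain ⟨c, hcc⟩ : ∃ c, c = mn ∅ := ⟨_, rfl⟩
  have hcr : m ∅ = (c : ℝ) := by rw [hmn, hcc]
  have hc1 : 1 ≤ c := by omega
  have hc1r : (1 : ℝ) ≤ c := by exact_mod_cast hc1
  have hint : ∀ D, ∃ k : ℕ, m D = k := fun D => ⟨mn D, hmn D⟩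
  -- a shared unit of `t`
  obtain ⟨D0, hD0K, htD0, hD02, hD01⟩ : ∃ D0 ⊆ K, t ∈ D0 ∧ 2 ≤ D0.card ∧ 1 ≤ mn D0 := by
    by_contra hcon
    push Not at hcon
    have h1 : pa m K t ≤ m {t} := by
      unfold pa
      calc ∑ D ∈ K.powerset, (if t ∈ D then m D else 0)
          ≤ ∑ D ∈ K.powerset, (if D = {t} then m D else 0) := by
            refine sum_le_sum fun D hD => ?_
            by_cases h2 : t ∈ D
            · rw [if_pos h2]
              rcases Nat.lt_or_ge D.card 2 with h3 | h3
              · have h4 : 0 < D.card := card_pos.2 ⟨t, h2⟩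
                obtain ⟨x, hx⟩ := card_eq_one.1 (show D.card = 1 by omega)
                rw [hx, mem_singleton] at h2
                rw [hx, h2, if_pos rfl]
              · have h4 := hcon D (mem_powerset.1 hD) h2 h3
                have h5 : mn D = 0 := by omega
                rw [hmn D, h5]
                split_ifs <;> simp
            · rw [if_neg h2]
              split_ifs
              · exact h.1 D
              · exact le_rfl
        _ ≤ m {t} := by
            rw [sum_ite_eq' K.powerset {t} m]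
            split_ifs
            · exact le_rfl
            · exact h.1 _
    linarith
  -- the masses with this unit removed
  obtain ⟨m', hm'⟩ : ∃ m' : Finset V → ℝ, m' = Function.update m D0 (m D0 - 1) := ⟨_, rfl⟩
  obtain ⟨mn', hmn'⟩ : ∃ mn' : Finset V → ℕ, mn' = Function.update mn D0 (mn D0 - 1) := ⟨_, rfl⟩
  have hmm' : ∀ D, m' D = mn' D := by
    intro D
    rw [hm', hmn']
    by_cases hD : D = D0
    · rw [hD, Function.update_self, Function.update_self, Nat.cast_sub hD01, hmn]
      simp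
    · rw [Function.update_of_ne hD, Function.update_of_ne hD, hmn]
  have hne1 : ∀ j : V, ({j} : Finset V) ≠ D0 := by
    intro j hj
    rw [← hj, card_singleton] at hD02
    omega
  have hne0 : (∅ : Finset V) ≠ D0 := by
    intro hj
    rw [← hj, card_empty] at hD02
    omega
  have hm'1 : ∀ j : V, m' {j} = m {j} := fun j => by rw [hm', Function.update_of_ne (hne1 j)]
  have hm'0 : m' ∅ = m ∅ := by rw [hm', Function.update_of_ne hne0]
  have hm'P : PosM m' := ⟨fun D => by rw [hmm']; exact Nat.cast_nonneg _,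
    fun k => by rw [hm'1]; exact h.2 k⟩
  have hm'le : ∀ D, m' D ≤ m D := by
    intro D
    rw [hm']
    by_cases hD : D = D0
    · rw [hD, Function.update_self]
      linarith
    · rw [Function.update_of_ne hD]
  have hIval : Ival m K ≤ Ival m' K := Ival_anti hm'P fun D _ => hm'le D
  -- sums over the masses
  have hsum : ∀ φ : Finset V → ℝ, ∑ D ∈ K.powerset, φ D * m' D =
      ∑ D ∈ K.powerset, φ D * m D - φ D0 := by
    intro φ
    have hD0 : D0 ∈ K.powerset := mem_powerset.2 hD0K
    rw [← add_sum_erase _ _ hD0, ← add_sum_erase (K.powerset) (fun D => φ D * m D) hD0]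
    have h1 : ∑ D ∈ K.powerset.erase D0, φ D * m' D = ∑ D ∈ K.powerset.erase D0, φ D * m D :=
      sum_congr rfl fun D hD => by rw [hm', Function.update_of_ne (ne_of_mem_erase hD)]
    rw [h1, hm', Function.update_self]
    ring
  have hpal' : pal m' K = ((K.card : ℝ) - 2) * p + 1 := by
    have h1 := hsum fun _ => 1
    simp only [one_mul] at h1
    have h2 : pal m' K = pal m K - 1 := h1
    rw [h2, hpal]
    ring
  have hpa' : ∀ j, pa m' K j = pa m K j - if j ∈ D0 then 1 else 0 := by
    intro j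
    have h1 := hsum fun D => if j ∈ D then 1 else 0
    simp only [ite_mul, one_mul, zero_mul] at h1
    exact h1
  have hpo' : po m' K = po m K - ((D0.card - 1 : ℕ) : ℝ) := hsum fun D => ((D.card - 1 : ℕ) : ℝ)
  have hcap' : ∀ j ∈ K, pa m' K j ≤ p := by
    intro j hj
    rw [hpa']
    by_cases hjt : j = t
    · rw [hjt, if_pos htD0, hat]
      linarith
    · have := ha j hj hjt
      split_ifs <;> linarith
  obtain ⟨On, hOn⟩ := po_int hint K
  obtain ⟨On', hOn'⟩ := po_int (m := m') (fun D => ⟨mn' D, hmm' D⟩) K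
  have hOO : On' + 1 ≤ On := by
    have h1 : (1 : ℝ) ≤ ((D0.card - 1 : ℕ) : ℝ) := by exact_mod_cast (by omega : 1 ≤ D0.card - 1)
    have h2 : (On' : ℝ) + 1 ≤ On := by
      rw [← hOn', ← hOn, hpo']
      linarith
    exact_mod_cast h2
  -- `k`
  obtain ⟨k, hk⟩ : ∃ k : ℝ, k = p + 1 - m {t} := ⟨_, rfl⟩
  have hk1 : 1 ≤ k := by linarith
  have hkp : k ≤ p := by
    have := hw t ht
    linarith
  have hkO : k ≤ On := by
    have h1 := pa_add_pom (m := m) ht
    have h2 := pom_nonneg (K := K) h.1 t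
    rw [← hOn]
    linarith
  have hkN : k ≤ pN m K := by
    have := pa_sub_le_pN h.1 K t
    linarith
  have hO1 : 1 ≤ On := by
    have : (1 : ℝ) ≤ On := by linarith
    exact_mod_cast this
  -- the number of elements
  have hn : 2 * (p : ℝ) - 1 + c ≤ ((K.card : ℝ) - 1) * (p - 1) := by
    have h1 : ∑ j ∈ K, ((p : ℝ) - m {j}) = 2 * p - 2 + c + pN m K := by
      have h2 := pal_eq (m := m) (K := K)
      rw [sum_sub_distrib, sum_const, nsmul_eq_mul]
      rw [hcr, hpal] at h2
      linarith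
    rw [← sum_erase_add _ _ ht] at h1
    have h3 : ∑ j ∈ K.erase t, ((p : ℝ) - m {j}) ≤ ∑ _j ∈ K.erase t, ((p : ℝ) - 1) :=
      sum_le_sum fun j hj => by linarith [hw j (mem_of_mem_erase hj)]
    rw [sum_const, nsmul_eq_mul, card_erase_of_mem ht, Nat.cast_sub (by omega)] at h3
    push_cast at h3
    linarith
  -- the overlap
  have hspa : ∑ j ∈ K, pa m K j = ((K.card : ℝ) - 2) * p + 2 - c + On := by
    have h1 := sum_pa (m := m) (K := K)
    rw [hpal, hcr, hOn] at h1
    exact h1
  have hOle : (On : ℝ) - c ≤ 2 * p - 1 := by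
    have h1 : ∑ j ∈ K.erase t, pa m K j ≤ ∑ _j ∈ K.erase t, (p : ℝ) :=
      sum_le_sum fun j hj => ha j (mem_of_mem_erase hj) (ne_of_mem_erase hj)
    rw [sum_const, nsmul_eq_mul, card_erase_of_mem ht, Nat.cast_sub (by omega)] at h1
    push_cast at h1
    rw [← sum_erase_add _ _ ht, hat] at hspa
    linarith
  -- the right side
  obtain ⟨S, hS⟩ : ∃ S, S = 1 + ∑ j ∈ K, b j / (m {j} + m ∅) := ⟨_, rfl⟩
  have hpc : (0 : ℝ) < p + c := by linarith
  have hSb : ((p : ℝ) + c) + ∑ j ∈ K, b j ≤ S * (p + c) := by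
    have h1 : ∑ j ∈ K, b j ≤ (∑ j ∈ K, b j / (m {j} + m ∅)) * (p + c) := by
      rw [sum_mul]
      refine sum_le_sum fun j hj => ?_
      have h2 : m {j} ≤ p := by
        by_cases hjt : j = t
        · rw [hjt]
          exact hwt
        · exact (le_pa h.1 hj).trans (ha j hj hjt)
      have h3 := hw j hj
      have h4 : 0 < m {j} + m ∅ := by linarith
      rw [div_mul_eq_mul_div, le_div_iff₀ h4]
      exact mul_le_mul_of_nonneg_left (by linarith) (hb0 j hj)
    rw [hS, add_mul, one_mul]
    linarith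
  have hS1 : 1 ≤ S := by
    rw [hS]
    have : 0 ≤ ∑ j ∈ K, b j / (m {j} + m ∅) := sum_nonneg fun j hj =>
      div_nonneg (hb0 j hj) (add_nonneg (h.1 _) (h.1 _))
    linarith
  have hSa : ((p : ℝ) + c) + (3 + (On - c)) ≤ S * (p + c) := by
    rw [hOn, hcr] at hbs
    linarith
  have hSc : ((p : ℝ) + c) + ((K.card : ℝ) * (2 + (On - c)) - ((K.card : ℝ) - 2) * p - 1 -
      (On - c)) ≤ S * (p + c) := by
    have h1 : ∀ j ∈ K, (2 + (On - c) - pa m K j) + (if j = t then 1 else 0) ≤ b j := by
      intro j hj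
      have h2 := pa_add_pom (m := m) hj
      rw [hOn] at h2
      by_cases hjt : j = t
      · rw [if_pos hjt]
        rw [hjt] at h2 ⊢
        linarith
      · rw [if_neg hjt]
        have := hb j hj hjt
        linarith
    have h2 := sum_le_sum h1
    rw [sum_add_distrib, sum_sub_distrib, hspa, sum_const, nsmul_eq_mul,
      sum_ite_eq' K t fun _ => (1 : ℝ), if_pos ht] at h2
    linarith
  -- the left side
  have hI0 : 0 ≤ Ival m K := (Ival_pos h K).le
  have hI0' : 0 ≤ Ival m' K := (Ival_pos hm'P K).le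
  have hpow : (p : ℝ) ^ K.card = p ^ 2 * (p * (p : ℝ) ^ (K.card - 3)) := by
    rw [← pow_succ', ← pow_add]
    congr 1
    omega
  have hLHS : ∀ c0 : ℕ, c0 ≤ c →
      (p : ℝ) ^ (K.card - 3) * ((2 * p + 2) * Ival m K - Ival m (K.erase t)) ≤
        (p + 1 + k) / p * ovR L p c0 * H ^ ((On - 1) - (c - c0)) := by
    intro c0 hc0
    have hgw := mass_gw (m := m') (K := K) (q := p) hp hL hH hLq hHq hmm'
      (fun j hj => by
        have := hw j hj
        rw [← hm'1, hmm'] at this
        exact_mod_cast this)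
      hcap' (c0 := c0) (On := On') (Δ := 2 * (p - 1) + 1 + c0) (by
        have : mn' ∅ = mn ∅ := by rw [hmn', Function.update_of_ne hne0]
        omega) hOn' (by
        rw [hpal']
        push_cast
        rw [cast_pred' hp]
        ring)
    have he : mn' ∅ = c := by rw [hmn', Function.update_of_ne hne0, hcc]
    rw [he] at hgw
    have h1 := mul_Ival_le_erase h ht
    have h2 : (p : ℝ) ^ (K.card - 3) * ((2 * p + 2) * Ival m K - Ival m (K.erase t)) ≤
        (p : ℝ) ^ (K.card - 3) * ((p + 1 + k) * Ival m' K) := by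
      refine mul_le_mul_of_nonneg_left ?_ (by positivity)
      have h3 : (2 * (p : ℝ) + 2) * Ival m K - Ival m (K.erase t) ≤ (p + 1 + k) * Ival m K := by
        rw [hk]
        linarith
      exact h3.trans (mul_le_mul_of_nonneg_left hIval (by linarith))
    refine h2.trans ?_
    have h3 : (p : ℝ) ^ (K.card - 3) * ((p + 1 + k) * Ival m' K) =
        (p + 1 + k) / p * ((p : ℝ) ^ K.card * Ival m' K / p ^ 2) := by
      rw [hpow]
      field_simp
    rw [h3, mul_assoc]
    refine mul_le_mul_of_nonneg_left ?_ (by positivity)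
    rw [div_le_iff₀ (by positivity)]
    refine hgw.trans ?_
    have h4 : L ^ (2 * (p - 1) + 1 + c0) = p ^ 2 * L ^ (1 + c0) := by
      rw [add_assoc, pow_add, mul_comm 2 (p - 1), pow_mul, hLq]
    rw [h4]
    unfold ovR
    have h5 : H ^ (On' - (c - c0)) ≤ H ^ ((On - 1) - (c - c0)) :=
      pow_le_pow_right₀ hH1 (by omega)
    have hbq := (Pool.Agent.MP76b19e.bq_pos (N := p - 1) (by omega) c0
      (2 * (p - 1) + 1 + c0)).le
    calc (p : ℝ) ^ 2 * L ^ (1 + c0) * H ^ (On' - (c - c0)) * bq (p - 1) c0 (2 * (p - 1) + 1 + c0)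
        ≤ (p : ℝ) ^ 2 * L ^ (1 + c0) * H ^ ((On - 1) - (c - c0)) *
            bq (p - 1) c0 (2 * (p - 1) + 1 + c0) :=
          mul_le_mul_of_nonneg_right (mul_le_mul_of_nonneg_left h5 (by positivity)) hbq
      _ = _ := by ring
  rw [← hS]
  rcases Nat.lt_or_ge p 3 with hp3 | hp3
  · -- `p = 2`
    have hpe : p = 2 := by omega
    subst hpe
    refine (hLHS (min c 3) (min_le_left _ _)).trans ?_
    have hLe : L = 2 := by simpa using hLq
    have hHe : H = 4 / 3 := by
      have : H = 2 * ((2 : ℕ) : ℝ) / ((2 : ℕ) + 1) := by simpa using hHq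
      rw [this]
      norm_num
    push_cast at hn hSa hSc hOle hkp ⊢
    exact ovp2 (n := K.card) hLe hHe hc1 hO1 hkp hkO (by
      have : (On : ℝ) ≤ 3 + c := by linarith
      exact_mod_cast this) (by linarith) hS1 hSa hSc
  · have hcast1 : ((On - 1 : ℕ) : ℝ) = (On : ℝ) - 1 := by
      rw [Nat.cast_sub hO1]
      simp
    have hK4 : (4 : ℝ) ≤ K.card := by exact_mod_cast hK
    rcases Nat.lt_or_ge c 4 with hc4 | hc4
    · have hc123 : c = 1 ∨ c = 2 ∨ c = 3 := by omega
      rcases hc123 with hc' | hc' | hc'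
      · rw [hc'] at hLHS hSa hSc hOle
        refine (hLHS 1 le_rfl).trans ?_
        rw [Nat.sub_self, Nat.sub_zero]
        push_cast at hSa hSc hOle
        refine ov1 (n := K.card) hp3 hL hH hLq hHq (by linarith) hkp ?_ ?_ hK4 ?_ ?_
        · rw [hcast1]
          linarith
        · have : (On : ℝ) ≤ 2 * p := by linarith
          have : On ≤ 2 * p := by exact_mod_cast this
          omega
        · rw [hcast1]
          linarith
        · rw [hcast1]
          linarith
      · rw [hc'] at hLHS hSa hSc hOle hn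
        refine (hLHS 2 le_rfl).trans ?_
        rw [Nat.sub_self, Nat.sub_zero]
        push_cast at hSa hSc hOle hn
        refine ov2 (n := K.card) hp3 hL hH hLq hHq (by linarith) hkp ?_ ?_ hK ?_ ?_ ?_
        · rw [hcast1]
          linarith
        · have : (On : ℝ) ≤ 2 * p + 1 := by linarith
          have : On ≤ 2 * p + 1 := by exact_mod_cast this
          omega
        · linarith
        · rw [hcast1]
          linarith
        · rw [hcast1]
          linarith
      · rw [hc'] at hLHS hSa hSc hOle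
        refine (hLHS 3 le_rfl).trans ?_
        rw [Nat.sub_self, Nat.sub_zero]
        push_cast at hSa hSc hOle
        refine ov3 (n := K.card) hp3 hL hH hLq hHq (by linarith) hkp ?_ hK4 hS1 ?_ ?_
        · have : (On : ℝ) ≤ 2 * p + 2 := by linarith
          have : On ≤ 2 * p + 2 := by exact_mod_cast this
          omega
        · rw [hcast1]
          linarith
        · rw [hcast1]
          linarith
    · refine (hLHS 4 hc4).trans ?_
      refine ov4 (n := K.card) (O := On) hp3 hL hH hLq hHq hc4 (by linarith) hkp ?_ hOle hn hS1 ?_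
      · rcases Nat.lt_or_ge ((On - 1) - (c - 4)) (p + 2) with h1 | h1
        · left
          omega
        · right
          have h2 : (On - 1) - (c - 4) + c = On + 3 := by omega
          have h3 : (((On - 1) - (c - 4) : ℕ) : ℝ) + c = On + 3 := by exact_mod_cast h2
          linarith
      · exact hSc

end MP76b19e.Rob
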