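import Pool.Agent.Lib.MP76b19e.Rob.StA3v

/-!
# All caps at most `p`, total mass `(n - 2) p + 1`, base at least one (problem MP_76b19e_co)

`stB2`: `p ^ (n - 2) I(K) ≤ 1 + ∑ b_j / y_j` if `b_j ≥ 1 + O_{-j} - y_j`,
`∑ b_j ≥ 2 + O - c`, `c ≥ 1`.
-/

set_option autoImplicit false

open Finset

namespace MP76b19e.Rob

open Pool.Agent.MP76b19e (bq H_pow_le H_pow_le' H_ge_one)

section

variable {p : ℕ} {L H : ℝ}

theorem Hs3 (hp : 3 ≤ p) (hH : 0 < H) (hHq : H ^ (p - 1) = 2 * p / (p + 1)) : H ^ 3 ≤ 2 := by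
  have hp3 : (3 : ℝ) ≤ p := by exact_mod_cast hp
  have h1 := Hs2 hp hH hHq
  have h2 := Hs1 (by omega) hH hHq
  have h3 : H ^ 3 = H ^ 2 * H := by rw [pow_succ]
  rw [h3]
  refine (mul_le_mul h1 h2 hH.le (by positivity)).trans ?_
  rw [div_mul_div_comm, div_le_iff₀ (by positivity)]
  nlinarith

/-- `c ≥ 3` -/
theorem b2c3 (hp : 3 ≤ p) (hL : 0 < L) (hH : 0 < H) (hLq : L ^ (p - 1) = p)
    (hHq : H ^ (p - 1) = 2 * p / (p + 1)) {c e : ℕ} {s n S : ℝ} (hc : 3 ≤ c)
    (he : e ≤ p + 1 ∨ (e : ℝ) = s + 3) (hs : s ≤ 2 * p - 1)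
    (hn : 2 * p - 1 + c ≤ n * (p - 1)) (hS1 : 1 ≤ S)
    (hS : (p + c) + (n * (1 + s) - (n - 2) * p - 1 - s) ≤ S * (p + c)) :
    ovR L p 3 * H ^ e ≤ S := by
  have hp3 : (3 : ℝ) ≤ p := by exact_mod_cast hp
  have hp0 : (0 : ℝ) < p := by linarith
  have hH1 := H_ge_one (by omega) hH hHq
  have hR := ovR3 (by omega) hL hLq
  have hR0 := ovR_nonneg (by omega) hL (p := p) 3
  have hc3 : (3 : ℝ) ≤ c := by exact_mod_cast hc
  have hkey : ovR L p 3 * H ^ (p - 1) ≤ 1 / 2 := by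
    rw [hHq]
    calc ovR L p 3 * (2 * p / (p + 1)) ≤ (p + 1) / (2 * (2 * p + 1)) * (2 * p / (p + 1)) :=
          mul_le_mul_of_nonneg_right hR (by positivity)
      _ = p / (2 * p + 1) := by field_simp
      _ ≤ 1 / 2 := by
          rw [div_le_div_iff₀ (by positivity) (by norm_num)]
          linarith
  have hH3 := Hs3 hp hH hHq
  rcases Nat.lt_or_ge (p + 1) e with h1 | h1
  · have he' : (e : ℝ) = s + 3 := by
      rcases he with h | h
      · omega
      · exact h
    obtain ⟨m, hm⟩ : ∃ m, e = (p - 1) + (3 + m) := ⟨e - p - 2, by omega⟩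
    have hmr : s = p - 1 + m := by
      have : (e : ℝ) = ((p - 1 : ℕ) : ℝ) + (3 + m) := by exact_mod_cast hm
      rw [cast_pred' (by omega)] at this
      linarith
    have hmp : (m : ℝ) ≤ p := by linarith
    have hmp' : m ≤ p := by exact_mod_cast hmp
    have hm0 : (0 : ℝ) ≤ m := Nat.cast_nonneg m
    have h2 : ovR L p 3 * H ^ e ≤ H ^ m := by
      rw [hm, pow_add, pow_add, ← mul_assoc, ← mul_assoc]
      have h3 : ovR L p 3 * H ^ (p - 1) * H ^ 3 ≤ 1 := by
        have := mul_le_mul hkey hH3 (by positivity) (by norm_num : (0 : ℝ) ≤ 1 / 2)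
        linarith
      have := mul_le_mul_of_nonneg_right h3 (pow_pos hH m).le
      linarith
    refine h2.trans ((H_pow_le' (by omega) hH hHq hmp').trans ?_)
    have h3 : (0 : ℝ) < p + c := by linarith
    have h4 : (0 : ℝ) < p - 1 := by linarith
    rw [hmr] at hS
    have h5 : m ≤ (S - 1) * (p - 1) := by
      have h6 : n * m + p - m ≤ (S - 1) * (p + c) := by linarith
      have h7 := mul_le_mul_of_nonneg_right h6 h4.le
      have h8 : (m : ℝ) * (p + c) ≤ ((S - 1) * (p - 1)) * (p + c) := by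
        nlinarith [mul_le_mul_of_nonneg_left hn hm0, mul_nonneg (sub_nonneg.2 hmp) h4.le,
          mul_nonneg hm0 h4.le]
      exact le_of_mul_le_mul_right h8 h3
    have h6 : (m : ℝ) / (p - 1) ≤ S - 1 := by
      rw [div_le_iff₀ h4]
      exact h5
    have h7 : (m : ℝ) / p ≤ m / (p - 1) := div_le_div_of_nonneg_left hm0 h4 (by linarith)
    linarith
  · have h2 : H ^ e ≤ H ^ ((p - 1) + 2) := pow_le_pow_right₀ hH1 (by omega)
    have h3 := mul_le_mul_of_nonneg_left h2 hR0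
    have h4 : H ^ 2 ≤ 2 := by
      refine le_trans ?_ hH3
      exact pow_le_pow_right₀ hH1 (by norm_num)
    have h5 : ovR L p 3 * H ^ ((p - 1) + 2) ≤ 1 := by
      rw [pow_add, ← mul_assoc]
      have := mul_le_mul hkey h4 (by positivity) (by norm_num : (0 : ℝ) ≤ 1 / 2)
      linarith
    linarith

/-- `c = 2` -/
theorem b2c2 (hp : 3 ≤ p) (hL : 0 < L) (hH : 0 < H) (hLq : L ^ (p - 1) = p)
    (hHq : H ^ (p - 1) = 2 * p / (p + 1)) {e : ℕ} {n S : ℝ} (he : e ≤ 2 * p + 1) (hn : 3 ≤ n)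
    (hS1 : 1 ≤ S) (hSa : (p + 2) + e ≤ S * (p + 2))
    (hS : (p + 2) + (n * (e - 1) - (n - 2) * p - 1 - (e - 2)) ≤ S * (p + 2)) :
    ovR L p 2 * H ^ e ≤ S := by
  have hp3 : (3 : ℝ) ≤ p := by exact_mod_cast hp
  have hp0 : (0 : ℝ) < p := by linarith
  have hH1 := H_ge_one (by omega) hH hHq
  have hR := ovR2 (by omega) hL hLq
  have hR0 := ovR_nonneg (by omega) hL (p := p) 2
  have hp2' : (0 : ℝ) < (p : ℝ) + 2 := by linarith
  have hkey : ovR L p 2 * H ^ (p - 1) ≤ p / (p + 1) := by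
    rw [hHq]
    calc ovR L p 2 * (2 * p / (p + 1)) ≤ 1 / 2 * (2 * p / (p + 1)) :=
          mul_le_mul_of_nonneg_right hR (by positivity)
      _ = p / (p + 1) := by field_simp
  rcases Nat.lt_or_ge p e with h1 | h1
  · obtain ⟨m, hm⟩ : ∃ m, e = (p - 1) + (2 + m) := ⟨e - p - 1, by omega⟩
    have hmr : (e : ℝ) = p + 1 + m := by
      have : e = p + 1 + m := by omega
      exact_mod_cast this
    have hmp : m ≤ p := by omega
    have hm0 : (0 : ℝ) ≤ m := Nat.cast_nonneg m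
    have h2 : ovR L p 2 * H ^ e ≤ p / (p + 1) * ((p + 3) / (p + 1) * (1 + m / p)) := by
      rw [hm, pow_add, pow_add, ← mul_assoc]
      refine mul_le_mul hkey ?_ (by positivity) (by positivity)
      exact mul_le_mul (Hs2 hp hH hHq) (H_pow_le' (by omega) hH hHq hmp) (pow_pos hH m).le
        (by positivity)
    refine h2.trans ?_
    have h3 : (p : ℝ) / (p + 1) * ((p + 3) / (p + 1) * (1 + m / p)) =
        (p + 3) * (p + m) / (p + 1) ^ 2 := by
      field_simp
    rw [h3, div_le_iff₀ (by positivity)]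
    rw [hmr] at hS hSa
    have h4 : 2 * p + 3 + (if m = 0 then 0 else 2 * m - 1 : ℝ) ≤ S * (p + 2) := by
      split_ifs with h5
      · linarith
      · have h6 : (1 : ℝ) ≤ m := by exact_mod_cast Nat.one_le_iff_ne_zero.2 h5
        nlinarith [mul_nonneg (sub_nonneg.2 hn) hm0]
    have h5 : (p + 3) * (p + m) * (p + 2) ≤ (2 * p + 3 + (if m = 0 then 0 else 2 * m - 1 : ℝ)) *
        (p + 1) ^ 2 := by
      split_ifs with h6
      · rw [h6]
        push_cast
        nlinarith [mul_nonneg hp0.le hp0.le, mul_nonneg (mul_nonneg hp0.le hp0.le) hp0.le]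
      · have h7 : (1 : ℝ) ≤ m := by exact_mod_cast Nat.one_le_iff_ne_zero.2 h6
        obtain ⟨x, hx⟩ : ∃ x : ℝ, (m : ℝ) = 1 + x := ⟨m - 1, by ring⟩
        have hx0 : 0 ≤ x := by linarith
        obtain ⟨y, hy⟩ : ∃ y : ℝ, (p : ℝ) = 3 + y := ⟨p - 3, by ring⟩
        have hy0 : 0 ≤ y := by linarith
        rw [hx, hy, ← sub_nonneg]
        ring_nf
        positivity
    have h6 := mul_le_mul_of_nonneg_right h4 (by positivity : (0 : ℝ) ≤ ((p : ℝ) + 1) ^ 2)
    have h7 : (p + 3) * (p + m) * (p + 2) ≤ (S * (p + 1) ^ 2) * (p + 2) := by linarith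
    exact le_of_mul_le_mul_right h7 hp2'
  · have h2 : H ^ e ≤ H ^ ((p - 1) + 1) := pow_le_pow_right₀ hH1 (by omega)
    have h3 := mul_le_mul_of_nonneg_left h2 hR0
    have h5 : ovR L p 2 * H ^ ((p - 1) + 1) ≤ 1 := by
      rw [pow_add, pow_one, ← mul_assoc]
      refine (mul_le_mul hkey (Hs1 (by omega) hH hHq) hH.le (by positivity)).trans ?_
      rw [div_mul_div_comm, div_le_one (by positivity)]
      nlinarith
    linarith

/-- `c = 1` -/
theorem b2c1 (hp : 3 ≤ p) (hL : 0 < L) (hH : 0 < H) (hLq : L ^ (p - 1) = p)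
    (hHq : H ^ (p - 1) = 2 * p / (p + 1)) {e : ℕ} {n S : ℝ} (he : e ≤ 2 * p) (hn : 3 ≤ n)
    (hS1 : 1 ≤ S) (hSa : (p + 1) + (1 + e) ≤ S * (p + 1))
    (hS : (p + 1) + (n * e - (n - 2) * p - 1 - (e - 1)) ≤ S * (p + 1)) :
    ovR L p 1 * H ^ e ≤ S := by
  have hp3 : (3 : ℝ) ≤ p := by exact_mod_cast hp
  have hp0 : (0 : ℝ) < p := by linarith
  have hH1 := H_ge_one (by omega) hH hHq
  have hR := ovR1 hp hL hLq
  have hR0 := ovR_nonneg (by omega) hL (p := p) 1
  have hp1' : (0 : ℝ) < (p : ℝ) + 1 := by linarith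
  have h2p : (0 : ℝ) < 2 * p - 1 := by linarith
  have hR1 : ovR L p 1 ≤ 1 := by
    refine hR.trans ?_
    rw [div_le_one h2p]
    linarith
  rcases Nat.lt_or_ge (p - 1) e with h1 | h1
  · obtain ⟨m, hm⟩ : ∃ m, e = (p - 1) + (1 + m) := ⟨e - p, by omega⟩
    have hmr : (e : ℝ) = p + m := by
      have : e = p + m := by omega
      exact_mod_cast this
    have hmp : m ≤ p := by omega
    have hm0 : (0 : ℝ) ≤ m := Nat.cast_nonneg m
    rw [hmr] at hS hSa
    have hA : ovR L p 1 * H ^ (p - 1) ≤ 2 * p / (2 * p - 1) := by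
      rw [hHq]
      calc ovR L p 1 * (2 * p / (p + 1)) ≤ (p + 1) / (2 * p - 1) * (2 * p / (p + 1)) :=
            mul_le_mul_of_nonneg_right hR (by positivity)
        _ = 2 * p / (2 * p - 1) := by field_simp
    have hA0 : 0 ≤ ovR L p 1 * H ^ (p - 1) := mul_nonneg hR0 (by positivity)
    rcases Nat.eq_zero_or_pos m with h2 | h2
    · rw [h2] at hS hSa hm
      push_cast at hS hSa
      have h3 : ovR L p 1 * H ^ e ≤ 2 * p / (2 * p - 1) * ((p + 2) / (p + 1)) := by
        rw [hm, pow_add, ← mul_assoc]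
        refine mul_le_mul hA ?_ (by positivity) (by positivity)
        simpa using Hs1 (by omega) hH hHq
      refine h3.trans ?_
      have h4 : 2 ≤ S := by
        have h5 : 2 * (p + 1 : ℝ) ≤ S * (p + 1) := by linarith
        exact le_of_mul_le_mul_right h5 hp1'
      refine le_trans ?_ h4
      rw [div_mul_div_comm, div_le_iff₀ (by positivity)]
      nlinarith
    · have h2' : (1 : ℝ) ≤ m := by exact_mod_cast h2
      have h4 : 2 * p + 1 + 2 * m ≤ S * (p + 1) := by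
        nlinarith [mul_nonneg (sub_nonneg.2 hn) hm0]
      have h6 : (2 * p + 1 + 2 * m) / (p + 1) ≤ S := by
        rw [div_le_iff₀ hp1']
        exact h4
      refine le_trans ?_ h6
      rw [hm, pow_add, ← mul_assoc]
      rcases Nat.lt_or_ge m p with h5 | h5
      · have h7 := H_pow_le' (by omega) hH hHq (j := 1 + m) (by omega)
        refine (mul_le_mul hA h7 (by positivity) (by positivity)).trans ?_
        push_cast
        have h8 : 2 * (p : ℝ) / (2 * p - 1) * (1 + (1 + m) / p) =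
            2 * (p + 1 + m) / (2 * p - 1) := by
          field_simp
          ring
        rw [h8, div_le_div_iff₀ h2p hp1']
        nlinarith [mul_nonneg (sub_nonneg.2 h2') (sub_nonneg.2 hp3),
          mul_nonneg (sub_nonneg.2 h2') hp0.le, mul_nonneg (sub_nonneg.2 hp3) hp0.le]
      · have hme : m = p := le_antisymm hmp h5
        rw [hme]
        have h7 : H ^ (1 + p) ≤ 2 * p / (p + 1) * ((p + 3) / (p + 1)) := by
          rw [show 1 + p = (p - 1) + 2 by omega, pow_add, hHq]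
          exact mul_le_mul_of_nonneg_left (Hs2 hp hH hHq) (by positivity)
        refine (mul_le_mul hA h7 (by positivity) (by positivity)).trans ?_
        have h8 : 2 * (p : ℝ) / (2 * p - 1) * (2 * p / (p + 1) * ((p + 3) / (p + 1))) =
            4 * p ^ 2 * (p + 3) / ((2 * p - 1) * (p + 1) ^ 2) := by
          field_simp
          ring
        rw [h8, div_le_div_iff₀ (by positivity) hp1']
        obtain ⟨y, hy⟩ : ∃ y : ℝ, (p : ℝ) = 3 + y := ⟨p - 3, by ring⟩
        have hy0 : 0 ≤ y := by linarith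
        rw [hy, ← sub_nonneg]
        ring_nf
        positivity
  · have h2 := H_pow_le (by omega) hH hHq h1
    have h3 : ovR L p 1 * H ^ e ≤ 1 * (1 + e / (p + 1)) :=
      mul_le_mul hR1 h2 (by positivity) zero_le_one
    refine h3.trans ?_
    have h4 : (p + 1 + e) / (p + 1) ≤ S := by
      rw [div_le_iff₀ hp1']
      linarith
    refine le_trans (le_of_eq ?_) h4
    field_simp

end

/-- `p = 2` -/
theorem b2p2 {L H : ℝ} (hLe : L = 2) (hHe : H = 4 / 3) {c On : ℕ} {n S : ℝ} (hc : 1 ≤ c)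
    (hO : On ≤ 3 + c) (hn : 3 + (c : ℝ) ≤ n)
    (hS1 : 1 ≤ S) (hSa : (2 + (c : ℝ)) + (2 + (On - c)) ≤ S * (2 + c))
    (hS : (2 + (c : ℝ)) + (n * (1 + (On - c)) - (n - 2) * 2 - 1 - (On - c)) ≤ S * (2 + c)) :
    ovR L 2 (min c 3) * H ^ (On - (c - min c 3)) ≤ S := by
  have hR1 : ovR L 2 1 = 4 / 5 := by
    unfold ovR
    rw [hLe, show 2 - 1 = 1 by norm_num, show 2 * 1 + 1 + 1 = 2 * 1 + 2 by norm_num,
      bq1 (by norm_num)]
    norm_num
  have hR2 : ovR L 2 2 = 8 / 21 := by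
    unfold ovR
    rw [hLe, show 2 - 1 = 1 by norm_num, show 2 * 1 + 1 + 2 = 2 * 1 + 3 by norm_num,
      bq2 (by norm_num)]
    norm_num
  have hR3 : ovR L 2 3 = 4 / 21 := by
    unfold ovR
    rw [hLe, show 2 - 1 = 1 by norm_num, show 2 * 1 + 1 + 3 = 2 * 1 + 4 by norm_num,
      bq3 (by norm_num)]
    norm_num
  rcases Nat.lt_or_ge c 3 with h3 | h3
  · have hcc : c = 1 ∨ c = 2 := by omega
    rcases hcc with hcc | hcc
    · subst hcc
      rw [show min 1 3 = 1 by norm_num, hR1, Nat.sub_self, Nat.sub_zero, hHe]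
      push_cast at hSa hS hn
      interval_cases On <;> norm_num at hSa hS ⊢ <;> linarith
    · subst hcc
      rw [show min 2 3 = 2 by norm_num, hR2, Nat.sub_self, Nat.sub_zero, hHe]
      push_cast at hSa hS hn
      interval_cases On <;> norm_num at hSa hS ⊢ <;> linarith
  · rw [min_eq_right h3, hR3, hHe]
    have hc3 : (3 : ℝ) ≤ c := by exact_mod_cast h3
    obtain ⟨e, he⟩ : ∃ e, e = On - (c - 3) := ⟨_, rfl⟩
    rw [← he]
    rcases Nat.lt_or_ge e 6 with h2 | h2
    · have h4 : ((4 : ℝ) / 3) ^ e ≤ (4 / 3) ^ 5 := pow_le_pow_right₀ (by norm_num) (by omega)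
      have h5 : (4 : ℝ) / 21 * (4 / 3) ^ 5 ≤ 1 := by norm_num
      linarith
    · have he6 : e = 6 := by omega
      have hOe : (On : ℝ) - c = 3 := by
        have : On = c + 3 := by omega
        rw [this]
        push_cast
        ring
      rw [hOe] at hS
      have h4 : (2 : ℝ) ≤ S := by
        have h5 : (0 : ℝ) < 2 + c := by linarith
        have h6 : 2 * (2 + (c : ℝ)) ≤ S * (2 + c) := by nlinarith
        exact le_of_mul_le_mul_right h6 h5
      rw [he6]
      refine le_trans ?_ h4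
      norm_num

variable {V : Type} [DecidableEq V] {m : Finset V → ℝ} {K : Finset V}

/-- the product bound, total mass `(n - 2) p + 1` -/
theorem gw_one {mn : Finset V → ℕ} (hmn : ∀ D, m D = mn D) (hK : 2 ≤ K.card) {p : ℕ} (hp : 2 ≤ p)
    {L H : ℝ} (hL : 0 < L) (hH : 0 < H) (hLq : L ^ (p - 1) = p)
    (hHq : H ^ (p - 1) = 2 * p / (p + 1)) (hw : ∀ j ∈ K, 1 ≤ m {j})
    (ha : ∀ j ∈ K, pa m K j ≤ p) (hpal : pal m K = ((K.card : ℝ) - 2) * p + 1) {c0 On : ℕ}
    (hc0 : c0 ≤ mn ∅) (hOn : po m K = On) :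
    (p : ℝ) ^ (K.card - 2) * Ival m K ≤ ovR L p c0 * H ^ (On - (mn ∅ - c0)) := by
  have hp0 : (0 : ℝ) < p := by
    have : 0 < p := by omega
    exact_mod_cast this
  have hgw := mass_gw (m := m) (K := K) (q := p) hp hL hH hLq hHq hmn
    (fun j hj => by
      have := hw j hj
      rw [hmn] at this
      exact_mod_cast this)
    ha (c0 := c0) (On := On) (Δ := 2 * (p - 1) + 1 + c0) hc0 hOn (by
      rw [hpal]
      push_cast
      rw [cast_pred' hp]
      ring)
  have h4 : L ^ (2 * (p - 1) + 1 + c0) = p ^ 2 * L ^ (1 + c0) := by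
    rw [add_assoc, pow_add, mul_comm 2 (p - 1), pow_mul, hLq]
  rw [h4] at hgw
  have hpow : (p : ℝ) ^ K.card = p ^ 2 * (p : ℝ) ^ (K.card - 2) := by
    rw [← pow_add]
    congr 1
    omega
  rw [hpow] at hgw
  unfold ovR
  have h5 : (0 : ℝ) < (p : ℝ) ^ 2 := by positivity
  refine le_of_mul_le_mul_left ?_ h5
  refine le_trans (le_of_eq ?_) (hgw.trans (le_of_eq ?_)) <;> ring

/-- all caps at most `p`, base at least one -/
theorem stB2 (h : PosM m) {mn : Finset V → ℕ} (hmn : ∀ D, m D = mn D)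
    (hK : 3 ≤ K.card) {p : ℕ} (hp : 2 ≤ p) (hw : ∀ j ∈ K, 1 ≤ m {j})
    (ha : ∀ j ∈ K, pa m K j ≤ p)
    (hc : 1 ≤ mn ∅) (hpal : pal m K = ((K.card : ℝ) - 2) * p + 1) {b : V → ℝ}
    (hb0 : ∀ j ∈ K, 0 ≤ b j) (hb : ∀ j ∈ K, 1 + pom m K j - (m {j} + m ∅) ≤ b j)
    (hbs : 2 + po m K - m ∅ ≤ ∑ j ∈ K, b j) :
    (p : ℝ) ^ (K.card - 2) * Ival m K ≤ 1 + ∑ j ∈ K, b j / (m {j} + m ∅) := by
  have hp2 : (2 : ℝ) ≤ p := by exact_mod_cast hp
  have hp0 : (0 : ℝ) < p := by linarith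
  obtain ⟨L, H, hL, hH, hLq, hHq⟩ := exists_LH hp
  obtain ⟨c, hcc⟩ : ∃ c, c = mn ∅ := ⟨_, rfl⟩
  have hcr : m ∅ = (c : ℝ) := by rw [hmn, hcc]
  have hc1 : 1 ≤ c := by omega
  have hc1r : (1 : ℝ) ≤ c := by exact_mod_cast hc1
  have hint : ∀ D, ∃ k : ℕ, m D = k := fun D => ⟨mn D, hmn D⟩
  obtain ⟨On, hOn⟩ := po_int hint K
  -- the number of elements
  have hn : 2 * (p : ℝ) - 1 + c ≤ (K.card : ℝ) * (p - 1) := by
    have h2 := pal_eq (m := m) (K := K)
    have h3 := pN_nonneg (K := K) h.1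
    have h4 : ∑ j ∈ K, m {j} ≥ K.card := by
      have := sum_le_sum hw
      rwa [sum_const, nsmul_eq_mul, mul_one] at this
    rw [hcr, hpal] at h2
    linarith
  have hspa : ∑ j ∈ K, pa m K j = ((K.card : ℝ) - 2) * p + 1 - c + On := by
    have h1 := sum_pa (m := m) (K := K)
    rw [hpal, hcr, hOn] at h1
    exact h1
  have hOle : (On : ℝ) - c ≤ 2 * p - 1 := by
    have h1 := sum_le_sum ha
    rw [sum_const, nsmul_eq_mul, hspa] at h1
    linarith
  -- the right side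
  obtain ⟨S, hS⟩ : ∃ S, S = 1 + ∑ j ∈ K, b j / (m {j} + m ∅) := ⟨_, rfl⟩
  have hSb : ((p : ℝ) + c) + ∑ j ∈ K, b j ≤ S * (p + c) := by
    have h1 : ∑ j ∈ K, b j ≤ (∑ j ∈ K, b j / (m {j} + m ∅)) * (p + c) := by
      rw [sum_mul]
      refine sum_le_sum fun j hj => ?_
      have h2 : m {j} ≤ p := (le_pa h.1 hj).trans (ha j hj)
      have h3 := hw j hj
      have h4 : 0 < m {j} + m ∅ := by linarith
      rw [div_mul_eq_mul_div, le_div_iff₀ h4]
      exact mul_le_mul_of_nonneg_left (by linarith) (hb0 j hj)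
    rw [hS, add_mul, one_mul]
    linarith
  have hS1 : 1 ≤ S := by
    rw [hS]
    have : 0 ≤ ∑ j ∈ K, b j / (m {j} + m ∅) := sum_nonneg fun j hj =>
      div_nonneg (hb0 j hj) (add_nonneg (h.1 _) (h.1 _))
    linarith
  have hSa : ((p : ℝ) + c) + (2 + (On - c)) ≤ S * (p + c) := by
    rw [hOn, hcr] at hbs
    linarith
  have hSc : ((p : ℝ) + c) + ((K.card : ℝ) * (1 + (On - c)) - ((K.card : ℝ) - 2) * p - 1 -
      (On - c)) ≤ S * (p + c) := by
    have h1 : ∀ j ∈ K, (1 + (On - c) - pa m K j) ≤ b j := by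
      intro j hj
      have h2 := pa_add_pom (m := m) hj
      rw [hOn] at h2
      have := hb j hj
      linarith
    have h2 := sum_le_sum h1
    rw [sum_sub_distrib, hspa, sum_const, nsmul_eq_mul] at h2
    linarith
  rw [← hS]
  have hgw : ∀ c0 : ℕ, c0 ≤ c → (p : ℝ) ^ (K.card - 2) * Ival m K ≤
      ovR L p c0 * H ^ (On - (c - c0)) := by
    intro c0 hc0
    have := gw_one hmn (by omega) hp hL hH hLq hHq hw ha hpal (c0 := c0) (by omega) hOn
    rwa [← hcc] at this
  have hK3 : (3 : ℝ) ≤ K.card := by exact_mod_cast hK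
  rcases Nat.lt_or_ge p 3 with hp3 | hp3
  · have hpe : p = 2 := by omega
    subst hpe
    refine (hgw (min c 3) (min_le_left _ _)).trans ?_
    have hLe : L = 2 := by simpa using hLq
    have hHe : H = 4 / 3 := by
      have : H = 2 * ((2 : ℕ) : ℝ) / ((2 : ℕ) + 1) := by simpa using hHq
      rw [this]
      norm_num
    push_cast at hn hSa hSc hOle
    exact b2p2 (n := K.card) hLe hHe hc1 (by
      have : (On : ℝ) ≤ 3 + c := by linarith
      exact_mod_cast this) (by linarith) hS1 hSa hSc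
  · rcases Nat.lt_or_ge c 3 with hc3 | hc3
    · have hc12 : c = 1 ∨ c = 2 := by omega
      rcases hc12 with hc' | hc'
      · rw [hc'] at hgw hSa hSc hOle
        refine (hgw 1 le_rfl).trans ?_
        rw [Nat.sub_self, Nat.sub_zero]
        push_cast at hSa hSc hOle
        refine b2c1 (n := K.card) hp3 hL hH hLq hHq ?_ hK3 hS1 ?_ ?_
        · have : (On : ℝ) ≤ 2 * p := by linarith
          exact_mod_cast this
        · linarith
        · linarith
      · rw [hc'] at hgw hSa hSc hOle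
        refine (hgw 2 le_rfl).trans ?_
        rw [Nat.sub_self, Nat.sub_zero]
        push_cast at hSa hSc hOle
        refine b2c2 (n := K.card) hp3 hL hH hLq hHq ?_ hK3 hS1 ?_ ?_
        · have : (On : ℝ) ≤ 2 * p + 1 := by linarith
          exact_mod_cast this
        · linarith
        · linarith
    · refine (hgw 3 hc3).trans ?_
      refine b2c3 (n := K.card) (s := (On : ℝ) - c) hp3 hL hH hLq hHq hc3 ?_ hOle hn hS1 hSc
      rcases Nat.lt_or_ge (On - (c - 3)) (p + 2) with h1 | h1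
      · left
        omega
      · right
        have h2 : (On - (c - 3)) + c = On + 3 := by omega
        have h3 : ((On - (c - 3) : ℕ) : ℝ) + c = On + 3 := by exact_mod_cast h2
        linarith

end MP76b19e.Rob
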