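import Pool.Agent.Lib.MP76b19e.Rob.KLev
import Pool.Agent.Lib.MP76b19e.Rob.StA1
import Pool.Agent.Lib.MP76b19e.Rob.StA2
import Pool.Agent.Lib.MP76b19e.Rob.StA3
import Pool.Agent.Lib.MP76b19e.Rob.StA3n
import Pool.Agent.Lib.MP76b19e.Rob.StA3p
import Pool.Agent.Lib.MP76b19e.Rob.StA3v
import Pool.Agent.Lib.MP76b19e.Rob.StB2

/-!
# The inequality for the sets `K`, assembled from the cases (problem MP_76b19e_co)
-/

set_option autoImplicit false

open Finset

namespace MP76b19e.Rob

/-- the inequality for the sets `K` whose number of tops satisfies `C` -/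
def KSc (C : ℕ → Prop) (p h ν : ℕ) (κ : ℝ) : Prop :=
  ∀ (V : Type) (_ : DecidableEq V) (K T : Finset V) (m : Finset V → ℝ) (b : V → ℝ),
    KS K T m b p h ν → C T.card →
    0 < ((ν : ℝ) * p + ((ν : ℝ) - 1) * h + 1) * Ival m K - ∑ t ∈ T, Ival m (K.erase t) →
    (p : ℝ) ^ (K.card - 3) *
        (((ν : ℝ) * p + ((ν : ℝ) - 1) * h + 1) * Ival m K - ∑ t ∈ T, Ival m (K.erase t)) ≤
      κ * (1 + ∑ j ∈ K, b j / (m {j} + m ∅))

theorem kst_of {p h ν : ℕ} {κ : ℝ} (h0 : KSc (fun k => k = 0) p h ν κ)
    (h1 : KSc (fun k => k = 1) p h ν κ) (h2 : KSc (fun k => 2 ≤ k) p h ν κ) :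
    KSt p h ν κ := by
  intro V iV K T m b hk hpos
  rcases Nat.lt_or_ge T.card 2 with h3 | h3
  · rcases Nat.eq_zero_or_pos T.card with h4 | h4
    · exact h0 V iV K T m b hk h4 hpos
    · exact h1 V iV K T m b hk (by omega) hpos
  · exact h2 V iV K T m b hk h3 hpos

section

variable {V : Type} [DecidableEq V] {K T : Finset V} {m : Finset V → ℝ} {b : V → ℝ} {p h ν : ℕ}

theorem KS.b0 (hk : KS K T m b p h ν) (j : V) : 0 ≤ b j := by
  obtain ⟨k, hk⟩ := hk.bint j
  rw [hk]
  exact Nat.cast_nonneg _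

theorem KS.mn (hk : KS K T m b p h ν) : ∃ mn : Finset V → ℕ, ∀ D, m D = mn D := by
  choose f hf using hk.int
  exact ⟨f, hf⟩

theorem KS.h1r (hk : KS K T m b p h ν) : (1 : ℝ) ≤ h := by exact_mod_cast hk.h1

end

/-- `ν = 1`, no tops -/
theorem ksc_1_0 {p h : ℕ} : KSc (fun k => k = 0) p h 1 1 := by
  intro V iV K T m b hk hT _
  obtain ⟨mn, hmn⟩ := hk.mn
  have hT0 : T = ∅ := card_eq_zero.1 hT
  have hh := hk.h1r
  have h1 := hk.palK
  have h2 := hk.bsum
  rw [hT] at h2
  push_cast at h1 h2
  have h3 := stA1 hk.pos hmn hk.Kc hk.p2 hk.one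
    (fun j hj => hk.paL j hj (by rw [hT0]; exact notMem_empty j)) (by linarith)
    (fun j _ => hk.b0 j) (fun j hj => by
      have h4 := hk.bL j hj (by rw [hT0]; exact notMem_empty j)
      rw [hT] at h4
      push_cast at h4
      linarith) (by linarith)
  rw [hT0, sum_empty]
  push_cast
  rw [one_mul, one_mul, sub_self, zero_mul, add_zero, sub_zero]
  exact h3

/-- `ν = 2`, `h = 1`, no tops -/
theorem ksc_2_0 {p : ℕ} : KSc (fun k => k = 0) p 1 2 1 := by
  intro V iV K T m b hk hT _
  obtain ⟨mn, hmn⟩ := hk.mn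
  have hT0 : T = ∅ := card_eq_zero.1 hT
  have h1 := hk.palK
  have h2 := hk.bsum
  rw [hT] at h2
  push_cast at h1 h2
  have h3 := stA2 hk.pos hmn hk.Kc hk.p2 hk.one
    (fun j hj => hk.paL j hj (by rw [hT0]; exact notMem_empty j)) (by linarith)
    (fun j _ => hk.b0 j) (fun j hj => by
      have h4 := hk.bL j hj (by rw [hT0]; exact notMem_empty j)
      rw [hT] at h4
      push_cast at h4
      linarith) (by linarith)
  rw [hT0, sum_empty]
  push_cast
  have e1 : (2 : ℝ) * p + (2 - 1) * 1 + 1 = 2 * p + 2 := by ring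
  rw [one_mul, sub_zero, e1]
  exact h3

/-- `ν = 1`, one top which is not over-full -/
theorem ks_1_1 {V : Type} [DecidableEq V] {K T : Finset V} {m : Finset V → ℝ} {b : V → ℝ}
    {p h : ℕ} (hk : KS K T m b p h 1) {t : V} (hT : T = {t}) (hat : pa m K t ≤ p) :
    (p : ℝ) ^ (K.card - 3) *
        ((((1 : ℕ) : ℝ) * p + (((1 : ℕ) : ℝ) - 1) * h + 1) * Ival m K -
          ∑ t ∈ T, Ival m (K.erase t)) ≤
      1 * (1 + ∑ j ∈ K, b j / (m {j} + m ∅)) := by
  obtain ⟨mn, hmn⟩ := hk.mn
  have hTc : T.card = 1 := by rw [hT, card_singleton]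
  have ht : t ∈ K := hk.TK (by rw [hT]; exact mem_singleton_self t)
  have hh := hk.h1r
  have h1 := hk.palK
  have h2 := hk.bsum
  have hbase := hk.base
  rw [hTc] at h2 hbase
  push_cast at h1 h2 hbase
  have hc : 1 ≤ mn ∅ := by
    have h3 : (1 : ℝ) ≤ m ∅ := by linarith
    rw [hmn] at h3
    exact_mod_cast h3
  have hK3 : 3 ≤ K.card := hk.Kc
  have h3 := stB2 hk.pos hmn hK3 hk.p2 hk.one
    (fun j hj => by
      by_cases hjT : j ∈ T
      · rw [hT, mem_singleton] at hjT
        rw [hjT]
        exact hat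
      · exact hk.paL j hj hjT) hc (by linarith)
    (fun j _ => hk.b0 j) (fun j hj => by
      by_cases hjT : j ∈ T
      · have h4 := hk.bT j hjT
        rw [hTc] at h4
        push_cast at h4
        linarith
      · have h4 := hk.bL j hj hjT
        rw [hTc] at h4
        push_cast at h4
        linarith) (by linarith)
  rw [hT, sum_singleton]
  push_cast
  rw [one_mul, one_mul, sub_self, zero_mul, add_zero]
  refine le_trans ?_ h3
  have h4 := mul_Ival_le_erase hk.pos ht
  have h5 := hk.one t ht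
  have hI := (Ival_pos hk.pos K).le
  have h6 : Ival m K ≤ Ival m (K.erase t) := by nlinarith
  have h7 : (p : ℝ) ^ (K.card - 2) = (p : ℝ) ^ (K.card - 3) * p := by
    rw [← pow_succ]
    congr 1
    omega
  rw [h7, mul_assoc]
  refine mul_le_mul_of_nonneg_left ?_ (pow_nonneg (Nat.cast_nonneg _) _)
  linarith

/-- `ν = 2`, `h = 1`, one top -/
theorem ksc_2_1 {p : ℕ} : KSc (fun k => k = 1) p 1 2 1 := by
  intro V iV K T m b hk hT _
  obtain ⟨mn, hmn⟩ := hk.mn
  obtain ⟨t, hTt⟩ := card_eq_one.1 hT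
  have ht : t ∈ K := hk.TK (by rw [hTt]; exact mem_singleton_self t)
  have htT : t ∈ T := by rw [hTt]; exact mem_singleton_self t
  have hnT : ∀ j, j ≠ t → j ∉ T := fun j hj => by
    rw [hTt, mem_singleton]
    exact hj
  have h1 := hk.palK
  have h2 := hk.bsum
  rw [hT] at h2
  push_cast at h1 h2
  have hK4 : 4 ≤ K.card := hk.Kc
  have hpal : pal m K = ((K.card : ℝ) - 2) * p + 2 := by linarith
  have hlow : ∀ j ∈ K, j ≠ t → pa m K j ≤ p := fun j hj hjt => hk.paL j hj (hnT j hjt)
  have hbl : ∀ j ∈ K, j ≠ t → 2 + pom m K j - (m {j} + m ∅) ≤ b j := fun j hj hjt => by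
    have h4 := hk.bL j hj (hnT j hjt)
    rw [hT] at h4
    push_cast at h4
    linarith
  have hbt : 3 + pom m K t - (m {t} + m ∅) ≤ b t := by
    have h4 := hk.bT t htT
    rw [hT] at h4
    push_cast at h4
    linarith
  have hbs : 3 + po m K - m ∅ ≤ ∑ j ∈ K, b j := by linarith
  have hat : pa m K t ≤ (p : ℝ) + 1 := by
    have h4 := hk.paT t htT
    push_cast at h4
    exact h4
  have hgoal : (p : ℝ) ^ (K.card - 3) * ((2 * p + 2) * Ival m K - Ival m (K.erase t)) ≤
      1 + ∑ j ∈ K, b j / (m {j} + m ∅) := by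
    obtain ⟨a, ha⟩ := pa_int hk.int K t
    rcases le_or_gt (pa m K t) p with h3 | h3
    · refine stA3n hk.pos hmn ht hK4 hk.p2 hk.one (fun j hj => ?_) hpal (fun j _ => hk.b0 j)
        (fun j hj => ?_) hbs
      · by_cases hjt : j = t
        · rw [hjt]
          exact h3
        · exact hlow j hj hjt
      · by_cases hjt : j = t
        · rw [hjt]
          linarith
        · exact hbl j hj hjt
    · have h4 : pa m K t = (p : ℝ) + 1 := by
        rw [ha] at h3 hat ⊢
        have h5 : p < a := by exact_mod_cast h3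
        have h6 : a ≤ p + 1 := by exact_mod_cast hat
        have h7 : a = p + 1 := by omega
        rw [h7]
        push_cast
        ring
      rcases le_or_gt (m {t}) p with h5 | h5
      · rcases Nat.eq_zero_or_pos (mn ∅) with h6 | h6
        · have h7 : m ∅ = 0 := by rw [hmn, h6, Nat.cast_zero]
          have h8 := stA3o hk.pos h7 hk.int ht hK4 (p := (p : ℝ)) (by exact_mod_cast hk.p2)
            hk.one hlow h4 h5 hpal (fun j _ => hk.b0 j) (fun j hj hjt => by
              have := hbl j hj hjt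
              rw [h7] at this
              linarith) (by rw [h7] at hbt; linarith) (by rw [h7] at hbs; linarith)
          rw [h7]
          simpa using h8
        · exact stA3v hk.pos hmn ht hK4 hk.p2 hk.one hlow h4 h5 h6 hpal (fun j _ => hk.b0 j)
            hbl hbt hbs
      · -- fat
        have h6 : m {t} = (p : ℝ) + 1 := by
          refine le_antisymm ?_ ?_
          · rw [← h4]
            exact le_pa hk.pos.1 ht
          · rw [hmn] at h5 ⊢
            have h7 : p < mn {t} := by exact_mod_cast h5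
            exact_mod_cast h7
        refine stA3f hk.pos ht hK4 (by exact_mod_cast hk.p2) hlow h4.le h6 hpal
          (fun j _ => hk.b0 j) hbl ?_
        have h7 := hk.bsumZ {t} (singleton_subset_iff.2 ht) (by
          rw [sdiff_singleton_eq_erase, card_erase_of_mem ht]
          omega) (fun v hv hvT => by
            rw [mem_singleton] at hv
            rw [hv] at hvT
            exact absurd htT hvT) (fun v hv _ => by
            rw [mem_singleton] at hv
            rw [hv, h4]
            push_cast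
            rfl)
        rw [sdiff_singleton_eq_erase, hT] at h7
        push_cast at h7
        have h8 : po m (K.erase t) ≤ po m K := by
          unfold po
          refine sum_le_sum_of_subset_of_nonneg (powerset_mono.2 (erase_subset _ _)) ?_
          intro D _ _
          exact mul_nonneg (Nat.cast_nonneg _) (hk.pos.1 D)
        linarith
  rw [hTt, sum_singleton, one_mul]
  push_cast
  have e1 : (2 : ℝ) * p + (2 - 1) * 1 + 1 = 2 * p + 2 := by ring
  rw [e1]
  exact hgoal

end MP76b19e.Rob
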