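import Pool.Agent.Lib.MP76b19e.Rob.FinD1
import Pool.Agent.Lib.MP76b19e.Rob.CaseBA
import Pool.Agent.Lib.MP76b19e.Rob.Stat

/-!
# At least `ν + 1` tops, constant `p` (problem MP_76b19e_co)

`ksc_ge : KSc (fun k => ν + 1 ≤ k) p h ν p` for all `p`, `h`, `ν`; `kst_p` from the sets with at
most `ν` tops.
-/

set_option autoImplicit false

open Finset

namespace MP76b19e.Rob

/-- at least `ν + 1` tops -/
theorem ksc_ge (p h ν : ℕ) : KSc (fun k => ν + 1 ≤ k) p h ν p := by
  intro V iV K T m b hk hc hpos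
  rcases Nat.lt_or_ge T.card (ν + 2) with h1 | h1
  · have hT : T.card = ν + 1 := by omega
    by_cases h2 : ν = 1 ∨ (3 ≤ p ∧ p ≤ h) ∨ (p = 2 ∧ 3 ≤ h)
    · exact kst_d1 hk hT h2
    · push Not at h2
      have h3 := hk.ν1
      have h4 := hk.p2
      refine kst_d1s hk hT (by omega) ?_ hpos
      rcases Nat.lt_or_ge 2 p with h5 | h5
      · have := h2.2.1 h5
        omega
      · have := h2.2.2 (by omega)
        omega
  · exact kst_d2 hk h1

/-- all sets, from the sets with at most `ν` tops -/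
theorem kst_p {p h ν : ℕ} (h0 : KSc (fun k => k ≤ ν) p h ν p) : KSt p h ν p := by
  intro V iV K T m b hk hpos
  rcases Nat.lt_or_ge ν T.card with h1 | h1
  · exact ksc_ge p h ν V iV K T m b hk h1 hpos
  · exact h0 V iV K T m b hk h1 hpos

end MP76b19e.Rob
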