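import Pool.Agent.Lib.MP76b19e.Rob.Pot
import Pool.Agent.Lib.MP76b19e.Rob.CapT
import Pool.Agent.Lib.MP76b19e.CoreP

/-!
# Splitting by the last elements (problem MP_76b19e_co)

`push m S D = ∑_{E ⊆ S} m (D ∪ E)`. `Ival m Y = ∑_{S ⊆ Y, |S| = d} Ival (push m S) (Y \ S) Ival m S`,
and the capacity of `Y` splits in the same way.
-/

set_option autoImplicit false

open Finset

namespace MP76b19e.Rob

variable {V : Type} [DecidableEq V]

/-- the masses seen outside `S` -/
noncomputable def push (m : Finset V → ℝ) (S D : Finset V) : ℝ := ∑ E ∈ S.powerset, m (D ∪ E)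

theorem push_empty_set (m : Finset V → ℝ) (D : Finset V) : push m ∅ D = m D := by
  unfold push
  rw [powerset_empty, sum_singleton, union_empty]

theorem pal_push {m : Finset V → ℝ} {A S : Finset V} (h : Disjoint A S) :
    pal (push m S) A = pal m (A ∪ S) := by
  unfold pal push
  rw [← sum_product']
  refine sum_bij' (fun p _ => p.1 ∪ p.2) (fun D _ => (D ∩ A, D ∩ S)) ?_ ?_ ?_ ?_ ?_
  · rintro ⟨D, E⟩ hp
    rw [mem_product, mem_powerset, mem_powerset] at hp
    rw [mem_powerset]
    exact union_subset_union hp.1 hp.2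
  · intro D _
    rw [mem_product, mem_powerset, mem_powerset]
    exact ⟨inter_subset_right, inter_subset_right⟩
  · rintro ⟨D, E⟩ hp
    rw [mem_product, mem_powerset, mem_powerset] at hp
    have h1 : E ∩ A = ∅ := by
      rw [← disjoint_iff_inter_eq_empty]
      exact (h.mono_right hp.2).symm
    have h2 : D ∩ S = ∅ := by
      rw [← disjoint_iff_inter_eq_empty]
      exact h.mono_left hp.1
    simp only [Prod.mk.injEq]
    rw [union_inter_distrib_right, union_inter_distrib_right, h1, h2, union_empty, empty_union]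
    exact ⟨inter_eq_left.2 hp.1, inter_eq_left.2 hp.2⟩
  · intro D hD
    rw [mem_powerset] at hD
    simp only
    rw [← inter_union_distrib_left]
    exact inter_eq_left.2 hD
  · rintro ⟨D, E⟩ _
    rfl

theorem push_nonneg {m : Finset V → ℝ} (h : ∀ D, 0 ≤ m D) (S D : Finset V) : 0 ≤ push m S D :=
  sum_nonneg fun _ _ => h _

theorem le_push {m : Finset V → ℝ} (h : ∀ D, 0 ≤ m D) (S D : Finset V) : m D ≤ push m S D := by
  unfold push
  have h1 := single_le_sum (f := fun E => m (D ∪ E)) (fun E _ => h _)
    (empty_mem_powerset S)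
  rwa [union_empty] at h1

theorem PosM.push {m : Finset V → ℝ} (h : PosM m) (S : Finset V) : PosM (push m S) :=
  ⟨push_nonneg h.1 S, fun k => (h.2 k).trans_le (le_push h.1 S {k})⟩

/-- the recursion in terms of the total mass -/
theorem Ival_pal (m : Finset V → ℝ) {K : Finset V} (hK : K.Nonempty) :
    Ival m K = (∑ k ∈ K, Ival m (K.erase k)) / pal m K := Ival_eq m hK

/-- `Ival` depends only on the total masses of the subsets -/
theorem Ival_congr_pal {m m' : Finset V → ℝ} {K : Finset V}
    (h : ∀ A ⊆ K, A.Nonempty → pal m A = pal m' A) : Ival m K = Ival m' K := by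
  induction hc : K.card using Nat.strong_induction_on generalizing K with
  | _ c ih =>
    rcases K.eq_empty_or_nonempty with h0 | h0
    · rw [h0, Ival_empty, Ival_empty]
    · rw [Ival_pal m h0, Ival_pal m' h0, h K Subset.rfl h0]
      congr 1
      refine sum_congr rfl fun k hk => ?_
      exact ih _ (by rw [← hc]; exact card_erase_lt_of_mem hk)
        (fun A hA => h A (hA.trans (erase_subset _ _))) rfl

/-- splitting by the last `d` elements -/
theorem Ival_expand (m : Finset V → ℝ) (Y : Finset V) (d : ℕ) (hd : d ≤ Y.card) :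
    Ival m Y = ∑ S ∈ Y.powersetCard d, Ival (push m S) (Y \ S) * Ival m S := by
  induction hc : Y.card using Nat.strong_induction_on generalizing Y with
  | _ c ih =>
    rcases Nat.lt_or_ge d Y.card with h1 | h1
    · have hne : Y.Nonempty := card_pos.1 (by omega)
      have h2 : ∀ u ∈ Y, Ival m (Y.erase u) =
          ∑ S ∈ Y.powersetCard d, if u ∈ Y \ S then
            Ival (push m S) ((Y \ S).erase u) * Ival m S else 0 := by
        intro u hu
        have hcu := card_erase_of_mem hu
        rw [ih _ (by rw [← hc]; exact card_erase_lt_of_mem hu) (Y.erase u) (by omega) rfl,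
          ← sum_filter]
        refine sum_congr ?_ fun S hS => ?_
        · ext S
          rw [mem_powersetCard, mem_filter, mem_powersetCard, mem_sdiff, subset_erase]
          tauto
        · congr 2
          ext v
          simp only [mem_sdiff, mem_erase]
          tauto
      rw [Ival_pal m hne, sum_congr rfl h2, sum_comm, sum_div]
      refine sum_congr rfl fun S hS => ?_
      rw [mem_powersetCard] at hS
      have hne' : (Y \ S).Nonempty := by
        rw [← card_pos, card_sdiff_of_subset hS.1]
        omega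
      rw [← sum_filter]
      have h3 : Y.filter (fun u => u ∈ Y \ S) = Y \ S := by
        ext u
        rw [mem_filter]
        exact ⟨fun h => h.2, fun h => ⟨(mem_sdiff.1 h).1, h⟩⟩
      rw [h3, ← sum_mul, Ival_pal _ hne', pal_push disjoint_sdiff_self_left,
        sdiff_union_of_subset hS.1]
      ring
    · have h2 : d = Y.card := le_antisymm hd h1
      rw [h2, powersetCard_self, sum_singleton, Finset.sdiff_self, Ival_empty, one_mul]

/-- the sum over the `d + 1`-sets, split by the last element -/
theorem cap_expand (m : Finset V → ℝ) (Y : Finset V) (d : ℕ) (f : Finset V → ℝ) :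
    ∑ S ∈ Y.powersetCard (d + 1), f S * Ival m S =
      ∑ S ∈ Y.powersetCard d, Ival m S * ∑ u ∈ Y \ S, f (insert u S) / pal m (insert u S) := by
  have h1 : ∀ S ∈ Y.powersetCard (d + 1), f S * Ival m S =
      ∑ u ∈ S, (fun T v => Ival m T * (f (insert v T) / pal m (insert v T))) (S.erase u) u := by
    intro S hS
    rw [mem_powersetCard] at hS
    have hne : S.Nonempty := card_pos.1 (by omega)
    rw [Ival_pal m hne, mul_div_assoc', mul_sum, sum_div]
    refine sum_congr rfl fun u hu => ?_
    simp only
    rw [insert_erase hu]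
    ring
  rw [sum_congr rfl h1,
    Pool.Agent.MP76b19e.sum_powersetCard_erase Y d
      (fun T v => Ival m T * (f (insert v T) / pal m (insert v T)))]
  refine sum_congr rfl fun S _ => ?_
  rw [mul_sum]

variable {F : SimpleGraph V} {W : Finset V}

/-- the capacity in terms of the sets with `k` and `k + 1` elements -/
theorem le_CapT {c : Finset V → ℝ} (hc : ∀ K, 0 ≤ c K) {Y Yb : Finset V} {d : ℕ}
    (hb : Yb ⊆ Y) :
    ∑ S ∈ Yb.powersetCard d, Ival (mY F W Y) S *
        (c (Y \ S) + ∑ u ∈ Y \ S, c (Y \ insert u S) / pal (mY F W Y) (insert u S)) ≤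
      CapT F W c Y := by
  classical
  have hm : ∀ D, 0 ≤ mY F W Y D := mY_nonneg Y
  set m := mY F W Y with hmdef
  have h0 : ∀ S, 0 ≤ Ival m S := fun S => Ival_nonneg hm S
  -- the complement
  have h1 : CapT F W c Y = ∑ S ∈ Y.powerset, c (Y \ S) * Ival m S := by
    unfold CapT
    refine sum_bij' (fun K _ => Y \ K) (fun S _ => Y \ S) ?_ ?_ ?_ ?_ ?_
    · intro K _
      exact mem_powerset.2 sdiff_subset
    · intro K _
      exact mem_powerset.2 sdiff_subset
    · intro K hK
      exact Finset.sdiff_sdiff_eq_self (mem_powerset.1 hK)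
    · intro K hK
      exact Finset.sdiff_sdiff_eq_self (mem_powerset.1 hK)
    · intro K hK
      rw [Finset.sdiff_sdiff_eq_self (mem_powerset.1 hK)]
  have h2 : Disjoint (Y.powersetCard (d + 1)) (Y.powersetCard d) := by
    rw [disjoint_left]
    intro S hS hS'
    rw [mem_powersetCard] at hS hS'
    omega
  have h3 : Y.powersetCard (d + 1) ∪ Y.powersetCard d ⊆ Y.powerset := by
    intro S hS
    rw [mem_union, mem_powersetCard, mem_powersetCard] at hS
    rw [mem_powerset]
    rcases hS with h | h
    · exact h.1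
    · exact h.1
  have h4 : ∑ S ∈ Y.powersetCard (d + 1), c (Y \ S) * Ival m S +
      ∑ S ∈ Y.powersetCard d, c (Y \ S) * Ival m S ≤ CapT F W c Y := by
    rw [h1, ← sum_union h2]
    exact sum_le_sum_of_subset_of_nonneg h3 fun S _ _ => mul_nonneg (hc _) (h0 S)
  refine le_trans ?_ h4
  rw [cap_expand m Y d (fun S => c (Y \ S)), ← sum_add_distrib]
  refine le_trans (sum_le_sum_of_subset_of_nonneg (powersetCard_mono hb) fun S _ _ => ?_)
    (sum_le_sum fun S hS => ?_)
  · refine mul_nonneg (h0 S) (add_nonneg (hc _) (sum_nonneg fun u _ => ?_))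
    exact div_nonneg (hc _) (sum_nonneg fun D _ => hm D)
  · refine le_of_eq ?_
    ring

/-- the reduction to the sets with `k + 1` elements -/
theorem kwise {c : Finset V → ℝ} (hc : ∀ K, 0 ≤ c K) {Y Yb : Finset V} {d : ℕ}
    (hb : Yb ⊆ Y) (hd : d ≤ Yb.card)
    {m : Finset V → ℝ} (hpm : PosM m) {T : ℝ} (hT : 0 ≤ T)
    (hle : ∀ S ⊆ Yb, Ival m S ≤ Ival (mY F W Y) S)
    (h : ∀ S ⊆ Yb, S.card = d → T * Ival (push m S) (Yb \ S) ≤
      c (Y \ S) + ∑ u ∈ Y \ S, c (Y \ insert u S) / pal (mY F W Y) (insert u S)) :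
    T * Ival m Yb ≤ CapT F W c Y := by
  refine le_trans ?_ (le_CapT (d := d) hc hb)
  rw [Ival_expand m Yb d hd, mul_sum]
  refine sum_le_sum fun S hS => ?_
  rw [mem_powersetCard] at hS
  have h1 := h S hS.1 hS.2
  have h2 := hle S hS.1
  have h3 : 0 ≤ Ival m S := (Ival_pos hpm S).le
  have h4 : 0 ≤ T * Ival (push m S) (Yb \ S) :=
    mul_nonneg hT (Ival_pos (hpm.push S) _).le
  calc T * (Ival (push m S) (Yb \ S) * Ival m S)
      = Ival m S * (T * Ival (push m S) (Yb \ S)) := by ring
    _ ≤ Ival (mY F W Y) S * (T * Ival (push m S) (Yb \ S)) :=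
        mul_le_mul_of_nonneg_right h2 h4
    _ ≤ _ := mul_le_mul_of_nonneg_left h1 (h3.trans h2)

end MP76b19e.Rob
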