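import Pool.Agent.Lib.MP76b19e.Rob.PermEq
import Pool.Agent.Lib.MP76b19e.Rob.KW

/-!
# Clusters, with base (problem MP_76b19e_co)

`scale`: `(pal m A - m ∅) Ival m S ≤ ∑_{a ∈ A} Ival m (S - a)` for `A ⊆ S`.

`clus`: let `N A`, `A ∈ 𝒜`, be pairwise disjoint sets and `Qc A ⊆ N A` the set of the elements of `A` and
of the vertices `v` with `∅ ≠ D v ⊆ A`. The proportion of the orders with `Ev R D S` in which the first
element of `N A` is not in `Qc A`, for all `A ∈ 𝒜`, is at most
`∏_A (1 - |Qc A| / |N A|) Ival m S`. Vertices with `D v = ∅` are allowed.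
-/

set_option autoImplicit false

open Finset

namespace MP76b19e.Rob

section scale

variable {V : Type} [DecidableEq V] {m : Finset V → ℝ}

/-- the elements of `A` -/
theorem scale (h : PosM m) {A S : Finset V} (hA : A ⊆ S) :
    (pal m A - m ∅) * Ival m S ≤ ∑ a ∈ A, Ival m (S.erase a) := by
  induction hc : S.card using Nat.strong_induction_on generalizing A S with
  | _ c ih =>
    rcases S.eq_empty_or_nonempty with h0 | hne
    · subst h0
      have hA0 : A = ∅ := subset_empty.1 hA
      rw [hA0, sum_empty]
      unfold pal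
      rw [powerset_empty, sum_singleton, sub_self, zero_mul]
    · have hS : 0 < pal m S := h.sum_pos hne
      have hrec : pal m S * Ival m S = ∑ k ∈ S, Ival m (S.erase k) := sum_mul_Ival h hne
      have hpa0 : ∀ k, 0 ≤ pa m A k := by
        intro k
        unfold pa
        refine sum_nonneg fun D _ => ?_
        split_ifs
        · exact h.1 D
        · exact le_rfl
      have hpaS : ∀ k, pa m A k ≤ pa m S k := by
        intro k
        unfold pa
        refine sum_le_sum_of_subset_of_nonneg (powerset_mono.2 hA) fun D _ _ => ?_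
        split_ifs
        · exact h.1 D
        · exact le_rfl
      -- the elements outside `A`
      have h1 : ∑ k ∈ S \ A, (pal m A - m ∅) * Ival m (S.erase k) ≤
          ∑ k ∈ S \ A, ∑ a ∈ A, Ival m ((S.erase a).erase k) := by
        refine sum_le_sum fun k hk => ?_
        have hk' := mem_sdiff.1 hk
        have h2 := ih _ (by rw [← hc]; exact card_erase_lt_of_mem hk'.1) (S := S.erase k) (A := A)
          (fun a ha => mem_erase.2 ⟨by rintro rfl; exact hk'.2 ha, hA ha⟩) rfl
        refine h2.trans (le_of_eq (sum_congr rfl fun a _ => ?_))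
        rw [erase_right_comm]
      -- the elements of `A`
      have h2 : ∑ k ∈ A, (pal m A - m ∅) * Ival m (S.erase k) ≤
          ∑ k ∈ A, (pa m A k * Ival m (S.erase k) +
            ∑ a ∈ A.erase k, Ival m ((S.erase a).erase k)) := by
        refine sum_le_sum fun k hk => ?_
        have h3 := ih _ (by rw [← hc]; exact card_erase_lt_of_mem (hA hk)) (S := S.erase k)
          (A := A.erase k) (erase_subset_erase k hA) rfl
        rw [pal_erase] at h3
        have h4 : ∑ a ∈ A.erase k, Ival m ((S.erase k).erase a) =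
            ∑ a ∈ A.erase k, Ival m ((S.erase a).erase k) :=
          sum_congr rfl fun a _ => by rw [erase_right_comm]
        rw [h4] at h3
        linarith
      have h3 : ∑ k ∈ A, ∑ a ∈ A.erase k, Ival m ((S.erase a).erase k) =
          ∑ a ∈ A, ∑ k ∈ A.erase a, Ival m ((S.erase a).erase k) := by
        refine sum_comm' ?_
        intro x y
        simp only [mem_erase]
        tauto
      have h4 : ∑ k ∈ S \ A, ∑ a ∈ A, Ival m ((S.erase a).erase k) =
          ∑ a ∈ A, ∑ k ∈ S \ A, Ival m ((S.erase a).erase k) := sum_comm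
      have h5 : ∀ a ∈ A, pa m A a * Ival m (S.erase a) +
          (∑ k ∈ A.erase a, Ival m ((S.erase a).erase k) +
            ∑ k ∈ S \ A, Ival m ((S.erase a).erase k)) ≤ pal m S * Ival m (S.erase a) := by
        intro a ha
        have haS := hA ha
        have h6 : ∑ k ∈ A.erase a, Ival m ((S.erase a).erase k) +
            ∑ k ∈ S \ A, Ival m ((S.erase a).erase k) =
              ∑ k ∈ S.erase a, Ival m ((S.erase a).erase k) := by
          rw [← sum_union]
          · refine sum_congr ?_ fun _ _ => rfl
            ext k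
            rw [mem_union, mem_erase, mem_sdiff, mem_erase]
            constructor
            · rintro (⟨h7, h8⟩ | ⟨h7, h8⟩)
              · exact ⟨h7, hA h8⟩
              · refine ⟨?_, h7⟩
                rintro rfl
                exact h8 ha
            · rintro ⟨h7, h8⟩
              by_cases h9 : k ∈ A
              · exact Or.inl ⟨h7, h9⟩
              · exact Or.inr ⟨h8, h9⟩
          · rw [disjoint_left]
            intro k hk hk'
            exact (mem_sdiff.1 hk').2 (mem_of_mem_erase hk)
        have h7 : ∑ k ∈ S.erase a, Ival m ((S.erase a).erase k) ≤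
            (pal m S - pa m S a) * Ival m (S.erase a) := by
          rcases (S.erase a).eq_empty_or_nonempty with h8 | h8
          · rw [h8, sum_empty]
            have h9 : pal m S - pa m S a = pal m (S.erase a) := (pal_erase a).symm
            rw [h9, h8, Ival_empty, mul_one]
            unfold pal
            exact sum_nonneg fun D _ => h.1 D
          · rw [← pal_erase]
            exact (sum_mul_Ival h h8).ge
        rw [h6]
        have h8 := hpaS a
        have h9 := (Ival_pos h (S.erase a)).le
        nlinarith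
      have h6 := sum_le_sum h5
      rw [sum_add_distrib, sum_add_distrib, ← mul_sum] at h6
      have h7 : pal m S * ((pal m A - m ∅) * Ival m S) ≤
          pal m S * ∑ a ∈ A, Ival m (S.erase a) := by
        calc pal m S * ((pal m A - m ∅) * Ival m S)
            = (pal m A - m ∅) * ∑ k ∈ S, Ival m (S.erase k) := by
              rw [← hrec]
              ring
          _ = ∑ k ∈ S \ A, (pal m A - m ∅) * Ival m (S.erase k) +
              ∑ k ∈ A, (pal m A - m ∅) * Ival m (S.erase k) := by
              rw [← mul_sum, ← mul_sum, ← mul_add, sum_sdiff hA]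
          _ ≤ _ := by
              rw [sum_add_distrib] at h2
              linarith
      exact le_of_mul_le_mul_left h7 hS

end scale

section clus

variable {V : Type} [Fintype V] [DecidableEq V] {n : ℕ}

/-- the vertices that cannot come first -/
def Qc (R : Finset V) (D : V → Finset V) (A : Finset V) : Finset V :=
  A ∪ R.filter fun v => (D v).Nonempty ∧ D v ⊆ A

/-- the event of the clusters -/
def Fo (R : Finset V) (D : V → Finset V) (N : Finset V → Finset V) (𝒜 : Finset (Finset V))
    (s : V ≃ Fin n) : Prop :=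
  ∀ A ∈ 𝒜, ∃ v ∈ N A, ∀ u ∈ Qc R D A, s v < s u

omit [Fintype V] in
theorem mem_Qc {R : Finset V} {D : V → Finset V} {A : Finset V} {v : V} :
    v ∈ Qc R D A ↔ v ∈ A ∨ (v ∈ R ∧ (D v).Nonempty ∧ D v ⊆ A) := by
  unfold Qc
  rw [mem_union, mem_filter]

omit [Fintype V] in
/-- moving an element which is not involved to a later place -/
theorem ev_fo_sw {R : Finset V} {D : V → Finset V} {N : Finset V → Finset V}
    {𝒜 : Finset (Finset V)} {S U : Finset V} {k u : V} {s : V ≃ Fin n}
    (hsu : IsSucc s U k u) (h1 : ∀ v ∈ S, v ∈ U ∧ v ≠ k)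
    (h2 : ∀ v ∈ R, D v ⊆ S → v ∈ U ∧ v ≠ k) (h3 : ∀ A ∈ 𝒜, ∀ v ∈ N A, v ∈ U ∧ v ≠ k)
    (h4 : ∀ A ∈ 𝒜, Qc R D A ⊆ N A) (h : Ev R D S s ∧ Fo R D N 𝒜 s) :
    Ev R D S (sw s k u) ∧ Fo R D N 𝒜 (sw s k u) := by
  have key : ∀ a b : V, (a ∈ U ∧ a ≠ k) → (b ∈ U ∧ b ≠ k) →
      (sw s k u a < sw s k u b ↔ s a < s b) := fun a b ha hb =>
    sw_lt_iff hsu ha.1 hb.1 ha.2 hb.2
  refine ⟨fun v hv hDv => ?_, fun A hA => ?_⟩
  · obtain ⟨h5, h6⟩ := h.1 v hv hDv
    refine ⟨fun h7 k' hk' => (key _ _ (h1 k' hk') (h2 v hv hDv)).2 (h5 h7 k' hk'), fun h7 => ?_⟩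
    obtain ⟨k', hk', h8⟩ := h6 h7
    exact ⟨k', hk', (key _ _ (h1 k' (hDv hk')) (h2 v hv hDv)).2 h8⟩
  · obtain ⟨v, hv, h5⟩ := h.2 A hA
    exact ⟨v, hv, fun w hw => (key _ _ (h3 A hA v hv) (h3 A hA w (h4 A hA hw))).2 (h5 w hw)⟩

open Classical in
/-- disjoint clusters -/
theorem clus (R : Finset V) (D : V → Finset V) (N : Finset V → Finset V) {m : Finset V → ℝ}
    (hpm : PosM m) (S : Finset V) (𝒜 : Finset (Finset V)) (hR : Disjoint R S)
    (hA : ∀ A ∈ 𝒜, A ⊆ S ∧ A.Nonempty) (hQ : ∀ A ∈ 𝒜, Qc R D A ⊆ N A)
    (hS : ∀ A ∈ 𝒜, N A ∩ S ⊆ A) (hd : (𝒜 : Set (Finset V)).PairwiseDisjoint N)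
    (hm : ∀ B ⊆ S, ((R.filter fun v => D v = B).card : ℝ) + (if B.card = 1 then 1 else 0) = m B) :
    (∏ A ∈ 𝒜, ((N A).card : ℝ)) *
        ((univ.filter fun s : V ≃ Fin n => Ev R D S s ∧ Fo R D N 𝒜 s).card : ℝ) ≤
      (Fintype.card (V ≃ Fin n) : ℝ) *
        ((∏ A ∈ 𝒜, (((N A).card : ℝ) - ((Qc R D A).card : ℝ))) * Ival m S) := by
  induction hc : S.card + 𝒜.card using Nat.strong_induction_on generalizing S 𝒜 with
  | _ c ih =>
    rcases S.eq_empty_or_nonempty with h0 | hne
    · -- no elements
      have h𝒜 : 𝒜 = ∅ := by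
        rw [Finset.eq_empty_iff_forall_notMem]
        intro A hA'
        obtain ⟨h1, h2⟩ := hA A hA'
        rw [h0] at h1
        exact h2.ne_empty (subset_empty.1 h1)
      rw [h𝒜, h0, prod_empty, prod_empty, one_mul, one_mul, Ival_empty, mul_one]
      exact_mod_cast card_le_univ _
    · set U0 : Finset V := S ∪ R.filter fun v => D v ⊆ S with hU0
      set z : Finset V → Finset V := fun A => N A \ U0 with hz
      set U : Finset V := U0 ∪ 𝒜.biUnion N with hU
      -- the sizes
      have hU0card : (U0.card : ℝ) = pal m S := by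
        have h1 : pal m S =
            ∑ B ∈ S.powerset, ((R.filter fun v => D v = B).card : ℝ) +
              ∑ B ∈ S.powerset, (if B.card = 1 then (1 : ℝ) else 0) := by
          unfold pal
          rw [← sum_add_distrib]
          exact sum_congr rfl fun B hB => (hm B (mem_powerset.1 hB)).symm
        have h2 : ∑ B ∈ S.powerset, (if B.card = 1 then (1 : ℝ) else 0) = S.card := by
          rw [← sum_filter, sum_const, nsmul_eq_mul, mul_one]
          congr 1
          rw [← powersetCard_eq_filter, card_powersetCard, Nat.choose_one_right]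
        have h3 : ∑ B ∈ S.powerset, ((R.filter fun v => D v = B).card : ℝ) =
            ((R.filter fun v => D v ⊆ S).card : ℝ) := by
          rw [← Nat.cast_sum]
          congr 1
          rw [card_eq_sum_card_fiberwise (f := D) (t := S.powerset)]
          · refine sum_congr rfl fun B hB => ?_
            congr 1
            ext v
            rw [mem_filter, mem_filter, mem_filter]
            constructor
            · rintro ⟨h4, h5⟩
              exact ⟨⟨h4, by rw [h5]; exact mem_powerset.1 hB⟩, h5⟩
            · rintro ⟨⟨h4, _⟩, h5⟩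
              exact ⟨h4, h5⟩
          · intro v hv
            exact mem_coe.2 (mem_powerset.2 (mem_filter.1 (mem_coe.1 hv)).2)
        have h4 : Disjoint S (R.filter fun v => D v ⊆ S) :=
          (hR.mono_left (filter_subset _ _)).symm
        rw [h1, h2, h3, hU0, card_union_of_disjoint h4]
        push_cast
        ring
      have hUcard : (U.card : ℝ) = pal m S + ∑ A ∈ 𝒜, ((z A).card : ℝ) := by
        have h1 : U = U0 ∪ 𝒜.biUnion z := by
          rw [hU]
          ext v
          simp only [mem_union, mem_biUnion, hz, mem_sdiff]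
          constructor
          · rintro (h2 | ⟨A, hA', h2⟩)
            · exact Or.inl h2
            · by_cases h3 : v ∈ U0
              · exact Or.inl h3
              · exact Or.inr ⟨A, hA', h2, h3⟩
          · rintro (h2 | ⟨A, hA', h2, _⟩)
            · exact Or.inl h2
            · exact Or.inr ⟨A, hA', h2⟩
        rw [h1, card_union_of_disjoint, card_biUnion]
        · push_cast
          rw [hU0card]
        · intro A hA' B hB hAB
          exact (hd (mem_coe.2 hA') (mem_coe.2 hB) hAB).mono sdiff_subset sdiff_subset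
        · rw [disjoint_left]
          intro v hv hv'
          obtain ⟨A, _, h2⟩ := mem_biUnion.1 hv'
          exact (mem_sdiff.1 h2).2 hv
      have hSU0 : S ⊆ U0 := subset_union_left
      have hU0U : U0 ⊆ U := subset_union_left
      have hNU : ∀ A ∈ 𝒜, N A ⊆ U := fun A hA' v hv =>
        mem_union_right _ (mem_biUnion.2 ⟨A, hA', hv⟩)
      have hUpos : (0 : ℝ) < (U.card : ℝ) := by
        have : 0 < U.card := card_pos.2 (hne.mono (hSU0.trans hU0U))
        exact_mod_cast this
      have hAQ : ∀ A ∈ 𝒜, A ⊆ N A := fun A hA' => subset_union_left.trans (hQ A hA')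
      set 𝒰 : Finset V := 𝒜.biUnion id with h𝒰
      -- the decomposition by the first element
      set E : Finset V → Finset (Finset V) → Finset (V ≃ Fin n) := fun S 𝒜 =>
        univ.filter fun s => Ev R D S s ∧ Fo R D N 𝒜 s with hE
      have hdec : E S 𝒜 ⊆
          ((S \ 𝒰).biUnion fun k => univ.filter fun s : V ≃ Fin n =>
            (∀ u ∈ U, u ≠ k → s k < s u) ∧ (Ev R D (S.erase k) s ∧ Fo R D N 𝒜 s)) ∪
          (𝒜.biUnion fun A => (z A).biUnion fun k => univ.filter fun s : V ≃ Fin n =>
            (∀ u ∈ U, u ≠ k → s k < s u) ∧ (Ev R D S s ∧ Fo R D N (𝒜.erase A) s)) := by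
        intro s hs
        obtain ⟨_, hs1, hs2⟩ := mem_filter.1 hs
        obtain ⟨x, hxU, hmin⟩ := exists_min_image U (fun u => s u)
          (hne.mono (hSU0.trans hU0U))
        have hxlt : ∀ u ∈ U, u ≠ x → s x < s u := fun u hu hux =>
          lt_of_le_of_ne (hmin u hu) fun h => hux (s.injective h.symm)
        have hx0 : x ∉ R.filter fun v => D v ⊆ S := by
          intro h1
          rw [mem_filter] at h1
          obtain ⟨h2, h3⟩ := hs1 x h1.1 h1.2
          by_cases h4 : D x = ∅
          · obtain ⟨k, hk⟩ := hne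
            exact absurd (h2 h4 k hk) (not_lt.2 (hmin k (hU0U (hSU0 hk))))
          · obtain ⟨k, hk, h5⟩ := h3 h4
            exact absurd h5 (not_lt.2 (hmin k (hU0U (hSU0 (h1.2 hk)))))
        -- the first element is not in the forbidden sets
        have hxQ : ∀ A ∈ 𝒜, x ∉ Qc R D A := by
          intro A hA' h1
          obtain ⟨v, hv, h2⟩ := hs2 A hA'
          exact absurd (h2 x h1) (not_lt.2 (hmin v (hNU A hA' hv)))
        rw [mem_union, mem_biUnion, mem_biUnion]
        by_cases hxS : x ∈ S
        · left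
          refine ⟨x, mem_sdiff.2 ⟨hxS, fun h1 => ?_⟩, mem_filter.2 ⟨mem_univ _, hxlt, ?_, hs2⟩⟩
          · obtain ⟨A, hA', h2⟩ := mem_biUnion.1 h1
            exact hxQ A hA' (mem_Qc.2 (Or.inl h2))
          · intro v hv hDv
            obtain ⟨h2, h3⟩ := hs1 v hv (hDv.trans (erase_subset _ _))
            exact ⟨fun h4 k hk => h2 h4 k (mem_of_mem_erase hk), h3⟩
        · right
          have hxU0 : x ∉ U0 := by
            rw [hU0, mem_union]
            rintro (h1 | h1)
            · exact hxS h1
            · exact hx0 h1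
          rcases mem_union.1 hxU with h1 | h1
          · exact absurd h1 hxU0
          · obtain ⟨A, hA', h2⟩ := mem_biUnion.1 h1
            refine ⟨A, hA', mem_biUnion.2 ⟨x, mem_sdiff.2 ⟨h2, hxU0⟩,
              mem_filter.2 ⟨mem_univ _, hxlt, hs1, fun B hB => hs2 B (mem_of_mem_erase hB)⟩⟩⟩
      -- the bounds of the parts
      have hk1 : ∀ k ∈ S \ 𝒰, (U.card : ℝ) * ((univ.filter fun s : V ≃ Fin n =>
            (∀ u ∈ U, u ≠ k → s k < s u) ∧ (Ev R D (S.erase k) s ∧ Fo R D N 𝒜 s)).card : ℝ) ≤
          ((E (S.erase k) 𝒜).card : ℝ) := by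
        intro k hk
        obtain ⟨hkS, hk𝒰⟩ := mem_sdiff.1 hk
        have h1 := first_le (n := n) U (hU0U (hSU0 hkS))
          (fun s => Ev R D (S.erase k) s ∧ Fo R D N 𝒜 s) (by
            intro s u hsu hev
            refine ev_fo_sw hsu (fun v hv => ?_) (fun v hv hDv => ?_) (fun A hA' v hv => ?_) hQ hev
            · exact ⟨hU0U (hSU0 (mem_of_mem_erase hv)), ne_of_mem_erase hv⟩
            · refine ⟨hU0U (mem_union_right _ (mem_filter.2
                ⟨hv, hDv.trans (erase_subset _ _)⟩)), ?_⟩
              rintro rfl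
              exact disjoint_left.1 hR hv hkS
            · refine ⟨hNU A hA' hv, ?_⟩
              rintro rfl
              exact hk𝒰 (mem_biUnion.2 ⟨A, hA', hS A hA' (mem_inter.2 ⟨hv, hkS⟩)⟩))
        have h1' : U.card * (univ.filter fun s : V ≃ Fin n =>
            (∀ u ∈ U, u ≠ k → s k < s u) ∧ (Ev R D (S.erase k) s ∧ Fo R D N 𝒜 s)).card ≤
          (E (S.erase k) 𝒜).card := by
          convert h1
        exact_mod_cast h1'
      have hk2 : ∀ A ∈ 𝒜, ∀ k ∈ z A, (U.card : ℝ) * ((univ.filter fun s : V ≃ Fin n =>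
            (∀ u ∈ U, u ≠ k → s k < s u) ∧ (Ev R D S s ∧ Fo R D N (𝒜.erase A) s)).card : ℝ) ≤
          ((E S (𝒜.erase A)).card : ℝ) := by
        intro A hA' k hk
        obtain ⟨hkN, hkU0⟩ := mem_sdiff.1 hk
        have h1 := first_le (n := n) U (hNU A hA' hkN)
          (fun s => Ev R D S s ∧ Fo R D N (𝒜.erase A) s) (by
            intro s u hsu hev
            refine ev_fo_sw hsu (fun v hv => ?_) (fun v hv hDv => ?_) (fun B hB v hv => ?_)
              (fun B hB => hQ B (mem_of_mem_erase hB)) hev
            · refine ⟨hU0U (hSU0 hv), ?_⟩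
              rintro rfl
              exact hkU0 (hSU0 hv)
            · have h2 : v ∈ U0 := mem_union_right _ (mem_filter.2 ⟨hv, hDv⟩)
              refine ⟨hU0U h2, ?_⟩
              rintro rfl
              exact hkU0 h2
            · refine ⟨hNU B (mem_of_mem_erase hB) hv, ?_⟩
              rintro rfl
              exact disjoint_left.1 (hd (mem_coe.2 (mem_of_mem_erase hB)) (mem_coe.2 hA')
                (ne_of_mem_erase hB)) hv hkN)
        have h1' : U.card * (univ.filter fun s : V ≃ Fin n =>
            (∀ u ∈ U, u ≠ k → s k < s u) ∧ (Ev R D S s ∧ Fo R D N (𝒜.erase A) s)).card ≤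
          (E S (𝒜.erase A)).card := by
          convert h1
        exact_mod_cast h1'
      have hmain : (U.card : ℝ) * ((E S 𝒜).card : ℝ) ≤
          ∑ k ∈ S \ 𝒰, ((E (S.erase k) 𝒜).card : ℝ) +
            ∑ A ∈ 𝒜, ((z A).card : ℝ) * ((E S (𝒜.erase A)).card : ℝ) := by
        have h1 : ((E S 𝒜).card : ℝ) ≤
            ∑ k ∈ S \ 𝒰, ((univ.filter fun s : V ≃ Fin n =>
              (∀ u ∈ U, u ≠ k → s k < s u) ∧
                (Ev R D (S.erase k) s ∧ Fo R D N 𝒜 s)).card : ℝ) +
            ∑ A ∈ 𝒜, ∑ k ∈ z A, ((univ.filter fun s : V ≃ Fin n =>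
              (∀ u ∈ U, u ≠ k → s k < s u) ∧
                (Ev R D S s ∧ Fo R D N (𝒜.erase A) s)).card : ℝ) := by
          have h2 := (card_le_card hdec).trans (card_union_le _ _)
          have h3 : ((S \ 𝒰).biUnion fun k => univ.filter fun s : V ≃ Fin n =>
            (∀ u ∈ U, u ≠ k → s k < s u) ∧ (Ev R D (S.erase k) s ∧ Fo R D N 𝒜 s)).card ≤
              ∑ k ∈ S \ 𝒰, (univ.filter fun s : V ≃ Fin n =>
            (∀ u ∈ U, u ≠ k → s k < s u) ∧ (Ev R D (S.erase k) s ∧ Fo R D N 𝒜 s)).card :=
            card_biUnion_le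
          have h4 : (𝒜.biUnion fun A => (z A).biUnion fun k => univ.filter fun s : V ≃ Fin n =>
            (∀ u ∈ U, u ≠ k → s k < s u) ∧
              (Ev R D S s ∧ Fo R D N (𝒜.erase A) s)).card ≤
              ∑ A ∈ 𝒜, ∑ k ∈ z A, (univ.filter fun s : V ≃ Fin n =>
            (∀ u ∈ U, u ≠ k → s k < s u) ∧
              (Ev R D S s ∧ Fo R D N (𝒜.erase A) s)).card :=
            card_biUnion_le.trans (sum_le_sum fun A _ => card_biUnion_le)
          have h5 := h2.trans (add_le_add h3 h4)
          exact_mod_cast h5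
        have h2 := mul_le_mul_of_nonneg_left h1 hUpos.le
        refine h2.trans ?_
        rw [mul_add, mul_sum, mul_sum]
        refine add_le_add (sum_le_sum hk1) (sum_le_sum fun A hA' => ?_)
        rw [mul_sum]
        refine (sum_le_sum (hk2 A hA')).trans ?_
        rw [sum_const, nsmul_eq_mul]
      -- the induction hypotheses
      set PN : ℝ := ∏ A ∈ 𝒜, ((N A).card : ℝ) with hPN
      set PT : ℝ := ∏ A ∈ 𝒜, (((N A).card : ℝ) - ((Qc R D A).card : ℝ)) with hPT
      set C : ℝ := (Fintype.card (V ≃ Fin n) : ℝ) with hC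
      have hC0 : 0 ≤ C := Nat.cast_nonneg _
      have hτ : ∀ A ∈ 𝒜, 0 ≤ ((N A).card : ℝ) - ((Qc R D A).card : ℝ) := by
        intro A hA'
        have : ((Qc R D A).card : ℝ) ≤ ((N A).card : ℝ) := by exact_mod_cast card_le_card (hQ A hA')
        linarith
      have hPT0 : 0 ≤ PT := prod_nonneg hτ
      have hPN0 : 0 ≤ PN := prod_nonneg fun _ _ => Nat.cast_nonneg _
      have hih1 : ∀ k ∈ S \ 𝒰, PN * ((E (S.erase k) 𝒜).card : ℝ) ≤
          C * (PT * Ival m (S.erase k)) := by
        intro k hk
        obtain ⟨hkS, hk𝒰⟩ := mem_sdiff.1 hk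
        refine ih _ (by rw [← hc]; have := card_erase_lt_of_mem hkS; omega) (S.erase k) 𝒜
          (hR.mono_right (erase_subset _ _)) (fun A hA' => ⟨fun a ha => mem_erase.2 ⟨?_,
            (hA A hA').1 ha⟩, (hA A hA').2⟩) hQ
          (fun A hA' => (inter_subset_inter_left (erase_subset _ _)).trans (hS A hA')) hd
          (fun B hB => hm B (hB.trans (erase_subset _ _))) rfl
        rintro rfl
        exact hk𝒰 (mem_biUnion.2 ⟨A, hA', ha⟩)
      have hih2 : ∀ A ∈ 𝒜, PN * (((z A).card : ℝ) * ((E S (𝒜.erase A)).card : ℝ)) ≤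
          C * (PT * ((((Qc R D A).card : ℝ) + ((z A).card : ℝ)) * Ival m S)) := by
        intro A hA'
        have h1 := ih _ (by rw [← hc]; have := card_erase_lt_of_mem hA'; omega) S (𝒜.erase A)
          hR (fun B hB => hA B (mem_of_mem_erase hB)) (fun B hB => hQ B (mem_of_mem_erase hB))
          (fun B hB => hS B (mem_of_mem_erase hB))
          (hd.subset (coe_subset.2 (erase_subset _ _))) hm rfl
        have h2 : PN = ((N A).card : ℝ) * ∏ B ∈ 𝒜.erase A, ((N B).card : ℝ) :=
          (mul_prod_erase 𝒜 (fun B => ((N B).card : ℝ)) hA').symm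
        have h3 : PT = (((N A).card : ℝ) - ((Qc R D A).card : ℝ)) *
            ∏ B ∈ 𝒜.erase A, (((N B).card : ℝ) - ((Qc R D B).card : ℝ)) :=
          (mul_prod_erase 𝒜 (fun B => ((N B).card : ℝ) - ((Qc R D B).card : ℝ)) hA').symm
        have h4 : 0 ≤ ∏ B ∈ 𝒜.erase A, (((N B).card : ℝ) - ((Qc R D B).card : ℝ)) :=
          prod_nonneg fun B hB => hτ B (mem_of_mem_erase hB)
        -- the zombies are not in the forbidden set
        have h5 : ((z A).card : ℝ) ≤ ((N A).card : ℝ) - ((Qc R D A).card : ℝ) := by
          have h6 : (z A).card + (Qc R D A).card ≤ (N A).card := by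
            rw [← card_union_of_disjoint]
            · exact card_le_card (union_subset sdiff_subset (hQ A hA'))
            · rw [disjoint_left]
              intro v hv hv'
              refine (mem_sdiff.1 hv).2 ?_
              rcases mem_Qc.1 hv' with h7 | ⟨h7, _, h8⟩
              · exact hSU0 ((hA A hA').1 h7)
              · exact mem_union_right _ (mem_filter.2 ⟨h7, h8.trans (hA A hA').1⟩)
          have h7 : ((z A).card : ℝ) + ((Qc R D A).card : ℝ) ≤ ((N A).card : ℝ) := by
            exact_mod_cast h6
          linarith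
        have hz0 : (0 : ℝ) ≤ ((z A).card : ℝ) := Nat.cast_nonneg _
        have hN0 : (0 : ℝ) ≤ ((N A).card : ℝ) := Nat.cast_nonneg _
        have hQ0 : (0 : ℝ) ≤ ((Qc R D A).card : ℝ) := Nat.cast_nonneg _
        have h6 : ((z A).card : ℝ) * ((N A).card : ℝ) ≤
            (((N A).card : ℝ) - ((Qc R D A).card : ℝ)) *
              (((Qc R D A).card : ℝ) + ((z A).card : ℝ)) := by
          nlinarith [mul_le_mul_of_nonneg_left h5 hQ0]
        have h7 : 0 ≤ C * ((∏ B ∈ 𝒜.erase A, (((N B).card : ℝ) - ((Qc R D B).card : ℝ))) *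
            Ival m S) := mul_nonneg hC0 (mul_nonneg h4 (Ival_pos hpm S).le)
        calc PN * (((z A).card : ℝ) * ((E S (𝒜.erase A)).card : ℝ))
            = (((z A).card : ℝ) * ((N A).card : ℝ)) *
              ((∏ B ∈ 𝒜.erase A, ((N B).card : ℝ)) * ((E S (𝒜.erase A)).card : ℝ)) := by
              rw [h2]
              ring
          _ ≤ (((z A).card : ℝ) * ((N A).card : ℝ)) * (C *
              ((∏ B ∈ 𝒜.erase A, (((N B).card : ℝ) - ((Qc R D B).card : ℝ))) * Ival m S)) :=
              mul_le_mul_of_nonneg_left h1 (mul_nonneg hz0 hN0)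
          _ ≤ ((((N A).card : ℝ) - ((Qc R D A).card : ℝ)) *
              (((Qc R D A).card : ℝ) + ((z A).card : ℝ))) * (C *
              ((∏ B ∈ 𝒜.erase A, (((N B).card : ℝ) - ((Qc R D B).card : ℝ))) * Ival m S)) :=
              mul_le_mul_of_nonneg_right h6 h7
          _ = _ := by
              rw [h3]
              ring
      -- the elements of the clusters
      have hcl : ∑ k ∈ S \ 𝒰, Ival m (S.erase k) + ∑ A ∈ 𝒜, ((Qc R D A).card : ℝ) * Ival m S ≤
          pal m S * Ival m S := by
        have h1 : ∑ A ∈ 𝒜, ((Qc R D A).card : ℝ) * Ival m S ≤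
            ∑ k ∈ 𝒰, Ival m (S.erase k) := by
          rw [h𝒰, sum_biUnion]
          · refine sum_le_sum fun A hA' => ?_
            have h2 := scale hpm (hA A hA').1
            have h3 : ((Qc R D A).card : ℝ) ≤ pal m A - m ∅ := by
              have h4 : (Qc R D A).card ≤ A.card +
                  (R.filter fun v => (D v).Nonempty ∧ D v ⊆ A).card := card_union_le _ _
              have h5 : ((R.filter fun v => (D v).Nonempty ∧ D v ⊆ A).card : ℝ) =
                  ∑ B ∈ A.powerset.erase ∅, ((R.filter fun v => D v = B).card : ℝ) := by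
                rw [← Nat.cast_sum]
                congr 1
                rw [card_eq_sum_card_fiberwise (f := D) (t := A.powerset.erase ∅)]
                · refine sum_congr rfl fun B hB => ?_
                  congr 1
                  ext v
                  rw [mem_erase, mem_powerset] at hB
                  rw [mem_filter, mem_filter, mem_filter]
                  constructor
                  · rintro ⟨⟨h5, _⟩, h6⟩
                    exact ⟨h5, h6⟩
                  · rintro ⟨h5, h6⟩
                    refine ⟨⟨h5, ?_, ?_⟩, h6⟩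
                    · rw [h6]
                      exact nonempty_iff_ne_empty.2 hB.1
                    · rw [h6]
                      exact hB.2
                · intro v hv
                  have h5 := (mem_filter.1 (mem_coe.1 hv)).2
                  exact mem_coe.2 (mem_erase.2 ⟨h5.1.ne_empty, mem_powerset.2 h5.2⟩)
              have h6 : (A.card : ℝ) = ∑ B ∈ A.powerset.erase ∅,
                  (if B.card = 1 then (1 : ℝ) else 0) := by
                rw [← sum_filter, sum_const, nsmul_eq_mul, mul_one]
                congr 1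
                have h7 : (A.powerset.erase ∅).filter (fun B => B.card = 1) =
                    A.powersetCard 1 := by
                  ext B
                  rw [mem_filter, mem_erase, mem_powerset, mem_powersetCard]
                  constructor
                  · rintro ⟨⟨_, h8⟩, h9⟩
                    exact ⟨h8, h9⟩
                  · rintro ⟨h8, h9⟩
                    refine ⟨⟨?_, h8⟩, h9⟩
                    rintro rfl
                    exact absurd h9 (by simp)
                rw [h7, card_powersetCard, Nat.choose_one_right]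
              have h7 : pal m A - m ∅ = ∑ B ∈ A.powerset.erase ∅, m B := by
                unfold pal
                rw [← add_sum_erase A.powerset m (empty_mem_powerset A)]
                ring
              have h8 : ∑ B ∈ A.powerset.erase ∅, m B =
                  ∑ B ∈ A.powerset.erase ∅, ((R.filter fun v => D v = B).card : ℝ) +
                    ∑ B ∈ A.powerset.erase ∅, (if B.card = 1 then (1 : ℝ) else 0) := by
                rw [← sum_add_distrib]
                refine sum_congr rfl fun B hB => ?_
                rw [mem_erase, mem_powerset] at hB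
                exact (hm B (hB.2.trans (hA A hA').1)).symm
              rw [h7, h8, ← h5, ← h6]
              have h9 : ((Qc R D A).card : ℝ) ≤ (A.card : ℝ) +
                  ((R.filter fun v => (D v).Nonempty ∧ D v ⊆ A).card : ℝ) := by
                exact_mod_cast h4
              linarith
            exact (mul_le_mul_of_nonneg_right h3 (Ival_pos hpm S).le).trans h2
          · intro A hA' B hB hAB
            exact (hd hA' hB hAB).mono (hAQ A hA') (hAQ B hB)
        have h𝒰S : 𝒰 ⊆ S := biUnion_subset.2 fun A hA' => (hA A hA').1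
        have h2 : pal m S * Ival m S = ∑ k ∈ S, Ival m (S.erase k) := sum_mul_Ival hpm hne
        rw [h2, ← sum_sdiff h𝒰S]
        linarith
      -- the conclusion
      have h1 : (U.card : ℝ) * (PN * ((E S 𝒜).card : ℝ)) ≤
          (U.card : ℝ) * (C * (PT * Ival m S)) := by
        calc (U.card : ℝ) * (PN * ((E S 𝒜).card : ℝ))
            = PN * ((U.card : ℝ) * ((E S 𝒜).card : ℝ)) := by ring
          _ ≤ PN * (∑ k ∈ S \ 𝒰, ((E (S.erase k) 𝒜).card : ℝ) +
            ∑ A ∈ 𝒜, ((z A).card : ℝ) * ((E S (𝒜.erase A)).card : ℝ)) :=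
              mul_le_mul_of_nonneg_left hmain hPN0
          _ = ∑ k ∈ S \ 𝒰, PN * ((E (S.erase k) 𝒜).card : ℝ) +
            ∑ A ∈ 𝒜, PN * (((z A).card : ℝ) * ((E S (𝒜.erase A)).card : ℝ)) := by
              rw [mul_add, mul_sum, mul_sum]
          _ ≤ ∑ k ∈ S \ 𝒰, C * (PT * Ival m (S.erase k)) +
            ∑ A ∈ 𝒜, C * (PT * ((((Qc R D A).card : ℝ) + ((z A).card : ℝ)) * Ival m S)) :=
              add_le_add (sum_le_sum hih1) (sum_le_sum hih2)
          _ = C * PT * ((∑ k ∈ S \ 𝒰, Ival m (S.erase k) +
            ∑ A ∈ 𝒜, ((Qc R D A).card : ℝ) * Ival m S) +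
              (∑ A ∈ 𝒜, ((z A).card : ℝ)) * Ival m S) := by
              have e1 : ∑ k ∈ S \ 𝒰, C * (PT * Ival m (S.erase k)) =
                  C * PT * ∑ k ∈ S \ 𝒰, Ival m (S.erase k) := by
                rw [mul_sum]
                exact sum_congr rfl fun k _ => by ring
              have e2 : ∑ A ∈ 𝒜, C * (PT * ((((Qc R D A).card : ℝ) + ((z A).card : ℝ)) *
                  Ival m S)) = C * PT * (∑ A ∈ 𝒜, ((Qc R D A).card : ℝ) * Ival m S) +
                    C * PT * ((∑ A ∈ 𝒜, ((z A).card : ℝ)) * Ival m S) := by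
                rw [mul_sum, sum_mul, mul_sum, ← sum_add_distrib]
                exact sum_congr rfl fun k _ => by ring
              rw [e1, e2]
              ring
          _ ≤ C * PT * (pal m S * Ival m S + (∑ A ∈ 𝒜, ((z A).card : ℝ)) * Ival m S) :=
              mul_le_mul_of_nonneg_left (by linarith) (mul_nonneg hC0 hPT0)
          _ = (U.card : ℝ) * (C * (PT * Ival m S)) := by
              rw [hUcard]
              ring
      exact le_of_mul_le_mul_left h1 hUpos

end clus

end MP76b19e.Rob
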