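import Pool.Agent.Lib.MP76b19e.Rob.Ival

/-!
# Bounds for one block (problem MP_76b19e_co)

`aK m K k` is the size of the cluster of `k`, `oK m K` the number of overlaps, `gK m c K` the loss
`∑ c k - ∑ m D`. `Ival_core`: if all caps are at least `Q` and the loss is at most `Q - 1`, then
`Ival m K * ∏ c ≤ Q / (Q - g) * (1 + o / (Q + 1))`.
-/

set_option autoImplicit false

open Finset

namespace MP76b19e.Rob

variable {V : Type} [DecidableEq V]

/-- the size of the cluster of `k` -/
noncomputable def aK (m : Finset V → ℝ) (K : Finset V) (k : V) : ℝ :=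
  ∑ D ∈ K.powerset.filter (fun D => k ∈ D), m D

/-- the number of overlaps -/
noncomputable def oK (m : Finset V → ℝ) (K : Finset V) : ℝ :=
  ∑ D ∈ K.powerset, ((D.card : ℝ) - 1) * m D

/-- the overlaps at `k` -/
noncomputable def wK (m : Finset V → ℝ) (K : Finset V) (k : V) : ℝ :=
  ∑ D ∈ K.powerset.filter (fun D => k ∈ D), ((D.card : ℝ) - 1) * m D

/-- the loss -/
noncomputable def gK (m : Finset V → ℝ) (c : V → ℝ) (K : Finset V) : ℝ :=
  ∑ k ∈ K, c k - ∑ D ∈ K.powerset, m D

theorem filter_notMem_powerset (K : Finset V) (k : V) :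
    K.powerset.filter (fun D => ¬ k ∈ D) = (K.erase k).powerset := by
  ext D
  rw [mem_filter, mem_powerset, mem_powerset, subset_erase]

/-- splitting off the sets containing `k` -/
theorem sum_split (f : Finset V → ℝ) (K : Finset V) (k : V) :
    ∑ D ∈ K.powerset.filter (fun D => k ∈ D), f D + ∑ D ∈ (K.erase k).powerset, f D =
      ∑ D ∈ K.powerset, f D := by
  rw [← filter_notMem_powerset]
  exact sum_filter_add_sum_filter_not _ _ _

theorem sum_dbl (f : Finset V → ℝ) (K : Finset V) :
    ∑ k ∈ K, ∑ D ∈ K.powerset.filter (fun D => k ∈ D), f D =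
      ∑ D ∈ K.powerset, (D.card : ℝ) * f D := by
  have h1 : ∀ k ∈ K, ∑ D ∈ K.powerset.filter (fun D => k ∈ D), f D =
      ∑ D ∈ K.powerset, if k ∈ D then f D else 0 := fun k _ => sum_filter _ _
  rw [sum_congr rfl h1, sum_comm]
  refine sum_congr rfl fun D hD => ?_
  rw [mem_powerset] at hD
  rw [← sum_filter, sum_const, nsmul_eq_mul]
  congr 3
  ext x
  rw [mem_filter]
  exact ⟨fun h => h.2, fun h => ⟨hD h, h⟩⟩

theorem sum_aK {m : Finset V → ℝ} (K : Finset V) :
    ∑ k ∈ K, aK m K k = ∑ D ∈ K.powerset, m D + oK m K := by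
  unfold aK oK
  rw [sum_dbl, ← sum_add_distrib]
  exact sum_congr rfl fun D _ => by ring

omit [DecidableEq V] in
theorem card_term_nonneg {m : Finset V → ℝ} (h : PosM m) (h0 : m ∅ = 0) (D : Finset V) :
    0 ≤ ((D.card : ℝ) - 1) * m D := by
  rcases D.eq_empty_or_nonempty with h1 | h1
  · rw [h1, h0, mul_zero]
  · have h2 : (1 : ℝ) ≤ (D.card : ℝ) := by exact_mod_cast card_pos.2 h1
    exact mul_nonneg (by linarith) (h.1 D)

omit [DecidableEq V] in
theorem oK_nonneg {m : Finset V → ℝ} (h : PosM m) (h0 : m ∅ = 0) (K : Finset V) :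
    0 ≤ oK m K := sum_nonneg fun D _ => card_term_nonneg h h0 D

theorem wK_nonneg {m : Finset V → ℝ} (h : PosM m) (h0 : m ∅ = 0) (K : Finset V) (k : V) :
    0 ≤ wK m K k := sum_nonneg fun D _ => card_term_nonneg h h0 D

theorem wK_add {m : Finset V → ℝ} (K : Finset V) (k : V) :
    wK m K k + oK m (K.erase k) = oK m K := sum_split _ K k

theorem aK_add {m : Finset V → ℝ} (K : Finset V) (k : V) :
    aK m K k + ∑ D ∈ (K.erase k).powerset, m D = ∑ D ∈ K.powerset, m D := sum_split _ K k

theorem sum_wK {m : Finset V → ℝ} (h : PosM m) (h0 : m ∅ = 0) (K : Finset V) :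
    2 * oK m K ≤ ∑ k ∈ K, wK m K k := by
  unfold wK
  rw [sum_dbl, oK, mul_sum]
  refine sum_le_sum fun D _ => ?_
  rcases Nat.lt_or_ge D.card 2 with h1 | h1
  · have h3 := card_term_nonneg h h0 D
    interval_cases hc : D.card
    · rw [card_eq_zero] at hc
      rw [hc, h0]
      simp
    · simp
  · have h2 : (2 : ℝ) ≤ (D.card : ℝ) := by exact_mod_cast h1
    exact mul_le_mul_of_nonneg_right h2 (card_term_nonneg h h0 D)

theorem aK_erase_le {m : Finset V → ℝ} (h : PosM m) (K : Finset V) (k j : V) :
    aK m (K.erase k) j ≤ aK m K j := by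
  unfold aK
  refine sum_le_sum_of_subset_of_nonneg ?_ fun D _ _ => h.1 D
  exact filter_subset_filter _ (powerset_erase_subset K k)

theorem gK_erase {m : Finset V → ℝ} {c : V → ℝ} {K : Finset V} {k : V} (hk : k ∈ K) :
    gK m c (K.erase k) = gK m c K - (c k - aK m K k) := by
  unfold gK
  have h1 := add_sum_erase K c hk
  have h2 := aK_add (m := m) K k
  linarith

/-- the inequality of one step -/
theorem phi_step {Q A δ ω o : ℝ} (hQ : 0 < Q) (hA : 0 < A) (hδ : 0 ≤ δ) (hω : 0 ≤ ω)
    (hωo : ω ≤ o) (ho : δ + o ≤ Q - A) (hA1 : 1 ≤ A) :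
    Q / (A + δ) * (1 + (o - ω) / (Q + 1)) ≤
      (1 - (δ + ω / 2) / Q) * (Q / A * (1 + o / (Q + 1))) := by
  have hAd : 0 < A + δ := by linarith
  have hQ1 : 0 < Q + 1 := by linarith
  have e1 : Q / (A + δ) * (1 + (o - ω) / (Q + 1)) =
      Q * (Q + 1 + o - ω) / ((A + δ) * (Q + 1)) := by
    field_simp
    ring
  have e2 : (1 - (δ + ω / 2) / Q) * (Q / A * (1 + o / (Q + 1))) =
      (2 * Q - 2 * δ - ω) * (Q + 1 + o) / (2 * A * (Q + 1)) := by
    field_simp
    ring
  rw [e1, e2, div_le_div_iff₀ (by positivity) (by positivity)]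
  have h1 : 0 ≤ (Q + 1 + o) * δ * (2 * (Q - A - δ) - ω) := by
    apply mul_nonneg (mul_nonneg (by linarith) hδ)
    linarith
  have h2 : 0 ≤ ω * (A * (Q - 1 - o)) := by
    apply mul_nonneg hω (mul_nonneg hA.le _)
    linarith
  have h3 : 0 ≤ (Q + 1) * ((Q + 1 + o) * δ * (2 * (Q - A - δ) - ω) + ω * (A * (Q - 1 - o))) :=
    mul_nonneg hQ1.le (by linarith)
  nlinarith [h3]

/-- one block with loss at most `Q - 1` -/
theorem Ival_core {m : Finset V → ℝ} (h : PosM m) (h0 : m ∅ = 0) {Q : ℝ} (hQ : 1 ≤ Q)
    {c : V → ℝ} {K : Finset V} (hc : ∀ k ∈ K, Q ≤ c k) (ha : ∀ k ∈ K, aK m K k ≤ c k)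
    (hg : gK m c K ≤ Q - 1) :
    Ival m K * ∏ k ∈ K, c k ≤ Q / (Q - gK m c K) * (1 + oK m K / (Q + 1)) := by
  induction hcard : K.card using Nat.strong_induction_on generalizing K with
  | _ N ih =>
    have hQ0 : 0 < Q := by linarith
    have ho := oK_nonneg h h0 K
    -- the loss is at least the number of overlaps
    have hgo : oK m K ≤ gK m c K := by
      have h1 := sum_aK (m := m) K
      have h2 : ∑ k ∈ K, aK m K k ≤ ∑ k ∈ K, c k := sum_le_sum ha
      unfold gK
      linarith
    rcases K.eq_empty_or_nonempty with hK | hK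
    · subst hK
      rw [Ival_empty, prod_empty, one_mul]
      have hA : 0 < Q - gK m c (∅ : Finset V) := by linarith
      have h1 : 1 ≤ Q / (Q - gK m c (∅ : Finset V)) := by
        rw [le_div_iff₀ hA]
        linarith
      have h2 : 1 ≤ 1 + oK m (∅ : Finset V) / (Q + 1) := by
        have : 0 ≤ oK m (∅ : Finset V) / (Q + 1) := div_nonneg ho (by linarith)
        linarith
      nlinarith
    · set S : ℝ := ∑ D ∈ K.powerset, m D with hS
      have hSpos : 0 < S := h.sum_pos hK
      set g := gK m c K with hgdef
      set o := oK m K with hodef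
      set Φ : ℝ := Q / (Q - g) * (1 + o / (Q + 1)) with hΦ
      have hA : 1 ≤ Q - g := by linarith
      have hΦ0 : 0 ≤ Φ := by
        apply mul_nonneg (div_nonneg hQ0.le (by linarith))
        have : 0 ≤ o / (Q + 1) := div_nonneg ho (by linarith)
        linarith
      have step : ∀ k ∈ K, c k * (Ival m (K.erase k) * ∏ j ∈ K.erase k, c j) ≤
          c k * Φ - (c k - aK m K k + wK m K k / 2) * Φ := by
        intro k hk
        have hδ : 0 ≤ c k - aK m K k := by linarith [ha k hk]
        have hw := wK_nonneg h h0 K k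
        have hwo : wK m K k ≤ o := by
          have h1 := wK_add (m := m) K k
          have h2 := oK_nonneg h h0 (K.erase k)
          linarith
        have h1 : gK m c (K.erase k) = g - (c k - aK m K k) := gK_erase hk
        have h2 : oK m (K.erase k) = o - wK m K k := by
          have := wK_add (m := m) K k
          linarith
        have h3 := ih (K.erase k).card (by rw [← hcard]; exact card_erase_lt_of_mem hk)
          (K := K.erase k) (fun j hj => hc j (mem_of_mem_erase hj))
          (fun j hj => (aK_erase_le h K k j).trans (ha j (mem_of_mem_erase hj)))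
          (by rw [h1]; linarith) rfl
        rw [h1, h2] at h3
        have h4 : (c k - aK m K k) + o ≤ Q - (Q - g) := by
          -- `δ_k + o ≤ g`
          have h5 := sum_aK (m := m) K
          have h6 : ∑ j ∈ K, (c j - aK m K j) = g - o := by
            rw [sum_sub_distrib, h5, hgdef, gK, hodef]
            ring
          have h7 : c k - aK m K k ≤ ∑ j ∈ K, (c j - aK m K j) :=
            single_le_sum (f := fun j => c j - aK m K j) (fun j hj => sub_nonneg.2 (ha j hj)) hk
          linarith
        have h5 := phi_step (Q := Q) (A := Q - g) (δ := c k - aK m K k) (ω := wK m K k) (o := o)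
          hQ0 (by linarith) hδ hw hwo h4 hA
        have h6 : Q - (g - (c k - aK m K k)) = Q - g + (c k - aK m K k) := by ring
        rw [h6] at h3
        have hck : Q ≤ c k := hc k hk
        have h7 := h3.trans h5
        rw [← hΦ] at h7
        have h8 : c k * (Ival m (K.erase k) * ∏ j ∈ K.erase k, c j) ≤
            c k * ((1 - (c k - aK m K k + wK m K k / 2) / Q) * Φ) :=
          mul_le_mul_of_nonneg_left h7 (by linarith)
        refine h8.trans ?_
        have h9 : (c k - aK m K k + wK m K k / 2) ≤
            c k * ((c k - aK m K k + wK m K k / 2) / Q) := by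
          rw [← mul_div_assoc, le_div_iff₀ hQ0]
          have : 0 ≤ (c k - aK m K k + wK m K k / 2) := by linarith
          nlinarith
        have h10 := mul_le_mul_of_nonneg_right h9 hΦ0
        nlinarith
      have hsum : ∑ k ∈ K, c k * (Ival m (K.erase k) * ∏ j ∈ K.erase k, c j) ≤ S * Φ := by
        refine (sum_le_sum step).trans ?_
        rw [sum_sub_distrib, ← sum_mul, ← sum_mul, ← sub_mul]
        refine mul_le_mul_of_nonneg_right ?_ hΦ0
        rw [sum_add_distrib, sum_sub_distrib, sum_aK, ← sum_div]
        have h1 := sum_wK h h0 K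
        linarith
      have hI : Ival m K * ∏ k ∈ K, c k =
          (∑ k ∈ K, c k * (Ival m (K.erase k) * ∏ j ∈ K.erase k, c j)) / S := by
        rw [Ival_eq m hK, ← hS, div_mul_eq_mul_div, sum_mul]
        congr 1
        refine sum_congr rfl fun k hk => ?_
        rw [← mul_prod_erase K c hk]
        ring
      rw [hI, div_le_iff₀ hSpos]
      linarith

/-- the inequality of one step at the boundary, `δ ≥ 1` -/
theorem phiQ_step {Q c δ ω o : ℝ} (hQ : 1 ≤ Q) (hδ : 1 ≤ δ) (hω : 0 ≤ ω) (hωo : ω ≤ o)
    (ho : δ + o ≤ Q) (hc : Q ≤ c) (ha : 1 ≤ c - δ) (hcase : ω = 0 ∨ (1 ≤ ω ∧ 2 ≤ c - δ)) :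
    c * (Q / δ * (1 + (o - ω) / (Q + 1))) ≤ (c - δ - ω / 2) * (Q * (2 + o)) := by
  have hδ0 : 0 < δ := by linarith
  have hQ1 : 0 < Q + 1 := by linarith
  have e1 : c * (Q / δ * (1 + (o - ω) / (Q + 1))) = c * Q * (Q + 1 + o - ω) / (δ * (Q + 1)) := by
    field_simp
    ring
  rw [e1, div_le_iff₀ (by positivity)]
  -- `c (Q + 1 + o - ω) ≤ (c - δ - ω / 2) (2 + o) δ (Q + 1)`
  have key : c * (Q + 1 + o - ω) ≤ (c - δ - ω / 2) * (2 + o) * (δ * (Q + 1)) := by
    set a := c - δ with hadef
    have hca : c = a + δ := by rw [hadef]; ring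
    have hprod : 0 ≤ (a - 1) * (δ - 1) := mul_nonneg (by linarith) (by linarith)
    have h1 : c ≤ a * δ + 1 := by
      rw [hca]
      nlinarith
    have ho0 : 0 ≤ o := hω.trans hωo
    have haδ : 1 ≤ a * δ := by nlinarith
    rcases hcase with h0 | ⟨hω1, ha2⟩
    · rw [h0, sub_zero, zero_div, sub_zero]
      have h2 : c * (Q + 1 + o) ≤ (a * δ + 1) * (Q + 1 + o) :=
        mul_le_mul_of_nonneg_right h1 (by linarith)
      refine h2.trans ?_
      have h3 : 0 ≤ (a * δ - 1) * (Q + (o * Q)) := mul_nonneg (by linarith) (by positivity)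
      have h4 : 0 ≤ o * (Q - 1) := mul_nonneg ho0 (by linarith)
      nlinarith
    · have hao : o ≤ a := by rw [hadef]; linarith
      have h2 : a / 2 ≤ a - ω / 2 := by linarith
      have h3 : a / 2 * (2 + o) * (δ * (Q + 1)) ≤ (a - ω / 2) * (2 + o) * (δ * (Q + 1)) := by
        apply mul_le_mul_of_nonneg_right _ (by positivity)
        exact mul_le_mul_of_nonneg_right h2 (by linarith)
      refine le_trans ?_ h3
      have h4 : c * (Q + 1 + o - ω) ≤ (a * δ + 1) * (Q + o) := by
        have h5 : Q + 1 + o - ω ≤ Q + o := by linarith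
        calc c * (Q + 1 + o - ω) ≤ c * (Q + o) :=
              mul_le_mul_of_nonneg_left h5 (by linarith)
          _ ≤ (a * δ + 1) * (Q + o) := mul_le_mul_of_nonneg_right h1 (by linarith)
      refine h4.trans ?_
      have haδ2 : 2 ≤ a * δ := by nlinarith
      have ho1 : 1 ≤ o := hω1.trans hωo
      have hQ2 : 2 ≤ Q := by linarith
      have h6 : 0 ≤ (a * δ - 2) * (Q + o) := mul_nonneg (by linarith) (by linarith)
      have h7 : 0 ≤ a * δ * ((o - 1) * (Q - 2)) := by
        apply mul_nonneg (by linarith)
        exact mul_nonneg (by linarith) (by linarith)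
      nlinarith
  calc c * Q * (Q + 1 + o - ω) = Q * (c * (Q + 1 + o - ω)) := by ring
    _ ≤ Q * ((c - δ - ω / 2) * (2 + o) * (δ * (Q + 1))) :=
      mul_le_mul_of_nonneg_left key (by linarith)
    _ = (c - δ - ω / 2) * (Q * (2 + o)) * (δ * (Q + 1)) := by ring

theorem sum_int {ι : Type} (s : Finset ι) (f : ι → ℝ) (hf : ∀ i ∈ s, ∃ n : ℕ, f i = n) :
    ∃ n : ℕ, ∑ i ∈ s, f i = n := by
  classical
  induction s using Finset.induction_on with
  | empty => exact ⟨0, by simp⟩
  | insert a s ha ih =>
    obtain ⟨n, hn⟩ := ih fun i hi => hf i (mem_insert_of_mem hi)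
    obtain ⟨k, hk⟩ := hf a (mem_insert_self a s)
    exact ⟨k + n, by rw [sum_insert ha, hn, hk]; push_cast; ring⟩

/-- one block with loss exactly `Q` -/
theorem Ival_coreQ {m : Finset V → ℝ} (h : PosM m) (h0 : m ∅ = 0) {Q : ℝ} (hQ : 1 ≤ Q)
    (hmi : ∀ D, ∃ n : ℕ, m D = n)
    {c : V → ℝ} (hci : ∀ k, ∃ n : ℕ, c k = n)
    {K : Finset V} (hc : ∀ k ∈ K, Q ≤ c k) (ha : ∀ k ∈ K, aK m K k ≤ c k)
    (hg : gK m c K = Q) :
    Ival m K * ∏ k ∈ K, c k ≤ Q * (2 + oK m K) := by
  induction hcard : K.card using Nat.strong_induction_on generalizing K with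
  | _ N ih =>
    have hQ0 : 0 < Q := by linarith
    have ho := oK_nonneg h h0 K
    have hgo : oK m K ≤ Q := by
      have h1 := sum_aK (m := m) K
      have h2 : ∑ k ∈ K, aK m K k ≤ ∑ k ∈ K, c k := sum_le_sum ha
      rw [← hg]
      unfold gK
      linarith
    rcases K.eq_empty_or_nonempty with hK | hK
    · exfalso
      subst hK
      unfold gK at hg
      rw [sum_empty, powerset_empty, sum_singleton, h0] at hg
      linarith
    · set S : ℝ := ∑ D ∈ K.powerset, m D with hS
      have hSpos : 0 < S := h.sum_pos hK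
      set o := oK m K with hodef
      set C : ℝ := Q * (2 + o) with hC
      have hC0 : 0 ≤ C := mul_nonneg hQ0.le (by linarith)
      have hδsum : ∑ j ∈ K, (c j - aK m K j) = Q - o := by
        have h5 := sum_aK (m := m) K
        rw [sum_sub_distrib, h5, ← hg, gK, hodef]
        ring
      have step : ∀ k ∈ K, c k * (Ival m (K.erase k) * ∏ j ∈ K.erase k, c j) ≤
          c k * C - (c k - aK m K k + wK m K k / 2) * C := by
        intro k hk
        have hδ : 0 ≤ c k - aK m K k := by linarith [ha k hk]
        have hw := wK_nonneg h h0 K k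
        have hck : Q ≤ c k := hc k hk
        have hwo : wK m K k ≤ o := by
          have h1 := wK_add (m := m) K k
          have h2 := oK_nonneg h h0 (K.erase k)
          linarith
        have h1 : gK m c (K.erase k) = Q - (c k - aK m K k) := by rw [gK_erase hk, hg]
        have h2 : oK m (K.erase k) = o - wK m K k := by
          have := wK_add (m := m) K k
          linarith
        have hca : ∀ j ∈ K.erase k, aK m (K.erase k) j ≤ c j := fun j hj =>
          (aK_erase_le h K k j).trans (ha j (mem_of_mem_erase hj))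
        have hcQ : ∀ j ∈ K.erase k, Q ≤ c j := fun j hj => hc j (mem_of_mem_erase hj)
        have h4 : (c k - aK m K k) + o ≤ Q := by
          have h7 : c k - aK m K k ≤ ∑ j ∈ K, (c j - aK m K j) :=
            single_le_sum (f := fun j => c j - aK m K j)
              (fun j hj => sub_nonneg.2 (ha j hj)) hk
          linarith
        -- integrality
        have haint : ∃ n : ℕ, aK m K k = n := sum_int _ _ fun D _ => hmi D
        have hwint : wK m K k = 0 ∨ 1 ≤ wK m K k := by
          have h5 : ∃ n : ℕ, wK m K k = n := by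
            refine sum_int _ _ fun D hD => ?_
            obtain ⟨n, hn⟩ := hmi D
            rw [mem_filter] at hD
            have h6 : 1 ≤ D.card := card_pos.2 ⟨k, hD.2⟩
            refine ⟨(D.card - 1) * n, ?_⟩
            rw [hn]
            push_cast [h6]
            ring
          obtain ⟨n, hn⟩ := h5
          rcases Nat.eq_zero_or_pos n with h6 | h6
          · left
            rw [hn, h6]
            simp
          · right
            rw [hn]
            exact_mod_cast h6
        have hsing : {k} ∈ K.powerset.filter (fun D => k ∈ D) := by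
          rw [mem_filter, mem_powerset, singleton_subset_iff]
          exact ⟨hk, mem_singleton_self k⟩
        have hmk : 1 ≤ m {k} := by
          obtain ⟨n, hn⟩ := hmi {k}
          have h5 := h.2 k
          rw [hn] at h5 ⊢
          have : 0 < n := by exact_mod_cast h5
          exact_mod_cast this
        have ha1 : 1 ≤ aK m K k := by
          refine hmk.trans ?_
          exact single_le_sum (f := m) (fun D _ => h.1 D) hsing
        have ha2 : 1 ≤ wK m K k → 2 ≤ aK m K k := by
          intro hw1
          have h5 : ∃ D ∈ K.powerset.filter (fun D => k ∈ D), ((D.card : ℝ) - 1) * m D ≠ 0 := by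
            by_contra hcon
            push Not at hcon
            have : wK m K k = 0 := sum_eq_zero hcon
            linarith
          obtain ⟨D, hD, hne⟩ := h5
          have hDk : D ≠ {k} := by
            rintro rfl
            apply hne
            simp
          have hmD : 1 ≤ m D := by
            obtain ⟨n, hn⟩ := hmi D
            rw [hn] at hne ⊢
            have : n ≠ 0 := by
              rintro rfl
              apply hne
              simp
            exact_mod_cast Nat.one_le_iff_ne_zero.2 this
          have h6 : ∑ E ∈ ({{k}, D} : Finset (Finset V)), m E ≤ aK m K k := by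
            refine sum_le_sum_of_subset_of_nonneg ?_ fun E _ _ => h.1 E
            intro E hE
            rcases mem_insert.1 hE with h7 | h7
            · rw [h7]
              exact hsing
            · rw [mem_singleton.1 h7]
              exact hD
          rw [sum_pair (Ne.symm hDk)] at h6
          linarith
        rcases eq_or_lt_of_le hδ with hd | hd
        · -- `δ = 0`
          have h3 := ih (K.erase k).card (by rw [← hcard]; exact card_erase_lt_of_mem hk)
            (K := K.erase k) hcQ hca (by rw [h1, ← hd]; ring) rfl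
          rw [h2] at h3
          have h8 : c k * (Ival m (K.erase k) * ∏ j ∈ K.erase k, c j) ≤
              c k * (Q * (2 + (o - wK m K k))) := mul_le_mul_of_nonneg_left h3 (by linarith)
          refine h8.trans ?_
          rw [← hd, zero_add, hC]
          have h9 : 0 ≤ Q * wK m K k * (c k - (2 + o) / 2) := by
            rcases hwint with h10 | h10
            · rw [h10]
              simp
            · have h11 := ha2 h10
              apply mul_nonneg (mul_nonneg hQ0.le hw)
              rcases le_total o 2 with h12 | h12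
              · linarith
              · linarith
          nlinarith
        · -- `δ ≥ 1`
          have hd1 : 1 ≤ c k - aK m K k := by
            obtain ⟨n, hn⟩ := hci k
            obtain ⟨n', hn'⟩ := haint
            rw [hn, hn'] at hd ⊢
            have : n' < n := by
              have : (n' : ℝ) < n := by linarith
              exact_mod_cast this
            have h5 : ((n' + 1 : ℕ) : ℝ) ≤ (n : ℝ) := by exact_mod_cast this
            push_cast at h5
            linarith
          have h3 := Ival_core h h0 (Q := Q) (by linarith) (c := c) (K := K.erase k) hcQ hca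
            (by rw [h1]; linarith)
          rw [h1, h2] at h3
          have h6 : Q - (Q - (c k - aK m K k)) = c k - aK m K k := by ring
          rw [h6] at h3
          have h7 := phiQ_step (Q := Q) (c := c k) (δ := c k - aK m K k) (ω := wK m K k) (o := o)
            hQ hd1 hw hwo h4 hck (by linarith) (by
              rcases hwint with h8 | h8
              · exact Or.inl h8
              · exact Or.inr ⟨h8, by linarith [ha2 h8]⟩)
          have h8 : c k * (Ival m (K.erase k) * ∏ j ∈ K.erase k, c j) ≤
              c k * (Q / (c k - aK m K k) * (1 + (o - wK m K k) / (Q + 1))) :=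
            mul_le_mul_of_nonneg_left h3 (by linarith)
          refine (h8.trans h7).trans (le_of_eq ?_)
          rw [hC]
          ring
      have hsum : ∑ k ∈ K, c k * (Ival m (K.erase k) * ∏ j ∈ K.erase k, c j) ≤ S * C := by
        refine (sum_le_sum step).trans ?_
        rw [sum_sub_distrib, ← sum_mul, ← sum_mul, ← sub_mul]
        refine mul_le_mul_of_nonneg_right ?_ hC0
        rw [sum_add_distrib, hδsum, ← sum_div]
        have h1 := sum_wK h h0 K
        have h2 : ∑ k ∈ K, c k = Q + S := by
          rw [← hg, gK]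
          ring
        linarith
      have hI : Ival m K * ∏ k ∈ K, c k =
          (∑ k ∈ K, c k * (Ival m (K.erase k) * ∏ j ∈ K.erase k, c j)) / S := by
        rw [Ival_eq m hK, ← hS, div_mul_eq_mul_div, sum_mul]
        congr 1
        refine sum_congr rfl fun k hk => ?_
        rw [← mul_prod_erase K c hk]
        ring
      rw [hI, div_le_iff₀ hSpos]
      linarith

end MP76b19e.Rob
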