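import Pool.Agent.Lib.MP76b19e.Rob.Ival

/-!
# Extra private mass (problem MP_76b19e_co)

`fill m S g` adds the mass `g u` to `{u}` for `u ∈ S`. `Ival_cost`: the cost of the extra private
mass is at most `∏ (1 + g u / m {u})`.
-/

set_option autoImplicit false

open Finset

namespace MP76b19e.Rob

variable {V : Type} [DecidableEq V]

/-- extra private mass `g u` for the elements `u ∈ S` -/
noncomputable def fill (m : Finset V → ℝ) (S : Finset V) (g : V → ℝ) (D : Finset V) : ℝ :=
  m D + ∑ u ∈ S, if D = {u} then g u else 0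

theorem fill_empty (m : Finset V → ℝ) (g : V → ℝ) : fill m ∅ g = m := by
  funext D
  simp [fill]

theorem fill_single {m : Finset V → ℝ} {S : Finset V} {g : V → ℝ} {u : V} (hu : u ∈ S) :
    fill m S g {u} = m {u} + g u := by
  unfold fill
  congr 1
  rw [sum_eq_single u]
  · rw [if_pos rfl]
  · intro v _ hv
    rw [if_neg]
    intro h
    exact hv (singleton_injective h).symm
  · intro h
    exact absurd hu h

theorem fill_single_not {m : Finset V → ℝ} {S : Finset V} {g : V → ℝ} {u : V} (hu : u ∉ S) :
    fill m S g {u} = m {u} := by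
  unfold fill
  rw [add_eq_left]
  refine sum_eq_zero fun v hv => ?_
  rw [if_neg]
  intro h
  exact hu ((singleton_injective h) ▸ hv)

theorem fill_of_card {m : Finset V → ℝ} {S : Finset V} {g : V → ℝ} {D : Finset V}
    (hD : D.card ≠ 1) : fill m S g D = m D := by
  unfold fill
  rw [add_eq_left]
  refine sum_eq_zero fun v _ => ?_
  rw [if_neg]
  intro h
  exact hD (by rw [h, card_singleton])

theorem fill_pos {m : Finset V → ℝ} (h : PosM m) {S : Finset V} {g : V → ℝ}
    (hg : ∀ u ∈ S, 0 ≤ g u) : PosM (fill m S g) := by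
  have h1 : ∀ D : Finset V, 0 ≤ ∑ u ∈ S, (if D = {u} then g u else 0) := fun D =>
    sum_nonneg fun u hu => by
      split_ifs
      · exact hg u hu
      · exact le_rfl
  exact ⟨fun D => add_nonneg (h.1 D) (h1 D), fun k => add_pos_of_pos_of_nonneg (h.2 k) (h1 _)⟩

theorem fill_insert (m : Finset V → ℝ) {S : Finset V} (g : V → ℝ) {a : V} (ha : a ∉ S) :
    fill m (insert a S) g = Function.update (fill m S g) {a} (fill m S g {a} + g a) := by
  funext D
  by_cases hD : D = {a}
  · rw [hD, Function.update_self, fill_single (mem_insert_self a S), fill_single_not ha]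
  · rw [Function.update_of_ne hD]
    unfold fill
    rw [sum_insert ha, if_neg hD, zero_add]

/-- the cost of extra private mass -/
theorem Ival_cost {m : Finset V → ℝ} (h : PosM m) {K S : Finset V} (hS : S ⊆ K) {g : V → ℝ}
    (hg : ∀ u ∈ S, 0 ≤ g u) :
    Ival m K ≤ (∏ u ∈ S, (1 + g u / m {u})) * Ival (fill m S g) K := by
  induction S using Finset.induction_on with
  | empty => rw [prod_empty, one_mul, fill_empty]
  | insert a S ha ih =>
    have hSK : S ⊆ K := (subset_insert a S).trans hS
    have haK : a ∈ K := hS (mem_insert_self a S)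
    have hgS : ∀ u ∈ S, 0 ≤ g u := fun u hu => hg u (mem_insert_of_mem hu)
    have hga : 0 ≤ g a := hg a (mem_insert_self a S)
    have h1 := ih hSK hgS
    have h2 := Ival_exact (fill_pos h hgS) haK hga
    rw [← fill_insert m g ha, fill_single_not ha] at h2
    have hma := h.2 a
    have h3 : Ival (fill m S g) K ≤ (1 + g a / m {a}) * Ival (fill m (insert a S) g) K := by
      have h4 : (1 + g a / m {a}) * Ival (fill m (insert a S) g) K =
          ((m {a} + g a) * Ival (fill m (insert a S) g) K) / m {a} := by
        field_simp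
      rw [h4, le_div_iff₀ hma]
      linarith
    rw [prod_insert ha]
    have h5 : 0 ≤ ∏ u ∈ S, (1 + g u / m {u}) := prod_nonneg fun u hu =>
      add_nonneg zero_le_one (div_nonneg (hgS u hu) (h.2 u).le)
    calc Ival m K ≤ (∏ u ∈ S, (1 + g u / m {u})) * Ival (fill m S g) K := h1
      _ ≤ (∏ u ∈ S, (1 + g u / m {u})) *
          ((1 + g a / m {a}) * Ival (fill m (insert a S) g) K) :=
        mul_le_mul_of_nonneg_left h3 h5
      _ = _ := by ring

end MP76b19e.Rob
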