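import Pool.Agent.Lib.MP76b19e.Rob.Basic

/-!
# The correlation inequality for robust sets (problem MP_76b19e_co)

`cov_lemma`: for `X ⊆ X'` and a nonnegative function `G` of the order that does not decrease when
vertices that are neither robust for `X` nor adjacent to such vertices are permuted,
`∑_s G s (|C(S_{X'}(s) ∩ X)| - |X|) ≥ 0`.
-/

set_option autoImplicit false

open Finset

namespace MP76b19e.Rob

theorem iter_inj {P : Type} (f : P → P) (Dom Bad : Set P) (hinj : Set.InjOn f Dom)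
    (hB : ∀ p ∈ Dom, f p ∉ Bad) {b₁ b₂ : P} (h₁ : b₁ ∈ Bad) (h₂ : b₂ ∈ Bad) (k₁ k₂ : ℕ)
    (d₁ : ∀ j < k₁, f^[j] b₁ ∈ Dom) (d₂ : ∀ j < k₂, f^[j] b₂ ∈ Dom)
    (h : f^[k₁] b₁ = f^[k₂] b₂) : b₁ = b₂ := by
  induction k₁ generalizing k₂ with
  | zero =>
    cases k₂ with
    | zero => exact h
    | succ m =>
      rw [Function.iterate_succ_apply', Function.iterate_zero, id] at h
      exact absurd (h ▸ h₁) (hB _ (d₂ m (Nat.lt_succ_self m)))
  | succ k ih =>
    cases k₂ with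
    | zero =>
      rw [Function.iterate_succ_apply', Function.iterate_zero, id] at h
      exact absurd (h.symm ▸ h₂) (hB _ (d₁ k (Nat.lt_succ_self k)))
    | succ m =>
      rw [Function.iterate_succ_apply', Function.iterate_succ_apply'] at h
      exact ih m (fun j hj => d₁ j (Nat.lt_succ_of_lt hj))
        (fun j hj => d₂ j (Nat.lt_succ_of_lt hj))
        (hinj (d₁ k (Nat.lt_succ_self k)) (d₂ m (Nat.lt_succ_self m)) h)

variable {V : Type} [Fintype V] [DecidableEq V] {n : ℕ} {F : SimpleGraph V}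
  {s s' t : V ≃ Fin n} {X X' : Finset V}

open Classical in
variable (F) in
/-- the closed neighbourhood of the vertices of `X` that are robust for `X'` -/
noncomputable def cov (s : V ≃ Fin n) (X' X : Finset V) : Finset V :=
  univ.filter fun u => ∃ z ∈ X, rob F s X' z ∧ (u = z ∨ F.Adj z u)

theorem mem_cov {u : V} :
    u ∈ cov F s X' X ↔ ∃ z ∈ X, rob F s X' z ∧ (u = z ∨ F.Adj z u) := by
  unfold cov
  simp only [mem_filter, mem_univ, true_and]

open Classical in
variable (F) in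
private noncomputable def stp (X' : Finset V) (p : (V ≃ Fin n) × V) : (V ≃ Fin n) × V :=
  if h : ∃ z, IsNext F p.1 X' p.2 z then (sw p.1 p.2 h.choose, h.choose) else p

private theorem stp_eq {w z : V} (h : IsNext F s X' w z) :
    stp F X' (s, w) = (sw s w z, z) := by
  unfold stp
  have h1 : ∃ z, IsNext F (s, w).1 X' (s, w).2 z := ⟨z, h⟩
  rw [dif_pos h1]
  have h2 : h1.choose = z := next_unique h1.choose_spec h
  rw [h2]

/-- the invariant of the chain that starts at the order `s` -/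
private structure Inv (F : SimpleGraph V) (s : V ≃ Fin n) (X X' : Finset V) (t : V ≃ Fin n)
    (v : V) : Prop where
  q : ∀ y, t y ≠ s y → ¬ rob F s X y ∧ ∀ x, rob F s X x → ¬ F.Adj x y
  vq : ¬ rob F s X v ∧ ∀ x, rob F s X x → ¬ F.Adj x v
  pre : ∀ y, s y < s v → t y = s y
  le : s v ≤ t v
  nb : ∀ z, F.Adj v z → s z < s v → z ∈ X → ¬ rob F s X' z
  nr : v ∈ X → ¬ rob F s X' v

omit [Fintype V] in
private theorem Inv.step (hX : X ⊆ X') {v : V} (h : Inv F s X X' t v) (hv : v ∈ X) :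
    ∃ z, s z < s v ∧ IsNext F t X' v z ∧ Inv F s X X' (sw t v z) z := by
  obtain ⟨z, hz⟩ := exists_next_of_not_rob (hX hv) (h.nr hv)
  have hzt : t z = s z := h.pre z hz.2.1
  have hnt : IsNext F t X' v z := by
    refine ⟨hz.1, ?_, ?_, ?_⟩
    · rw [hzt]
      exact lt_of_lt_of_le hz.2.1 h.le
    · rw [← killed_prefix h.pre hz.2.1]
      exact hz.2.2.1
    · intro y hy hlt
      rw [hzt] at hlt
      have hyp : t y < s v := lt_trans hlt hz.2.1
      have hy' := prefix_symm h.pre y hyp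
      rw [← hy'] at hlt hyp
      exact (killed_prefix h.pre hyp).1 (hz.2.2.2 y hy hlt)
  have hzq : ¬ rob F s X z ∧ ∀ x, rob F s X x → ¬ F.Adj x z := by
    refine ⟨fun hr => ?_, fun x hx hadj => ?_⟩
    · exact h.nb z hz.1 hz.2.1 hr.mem (rob_mono hX hr)
    · exact hz.2.2.1 (killed_mono hX (killed_of_adj hx hadj))
  refine ⟨z, hz.2.1, hnt, ?_, hzq, ?_, ?_, ?_, ?_⟩
  · intro y hy
    by_cases h1 : y = v
    · rw [h1]; exact h.vq
    · by_cases h2 : y = z
      · rw [h2]; exact hzq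
      · rw [sw_ne h1 h2] at hy
        exact h.q y hy
  · intro y hy
    have h1 : y ≠ v := by
      rintro rfl
      exact absurd (lt_trans hy hz.2.1) (lt_irrefl _)
    have h2 : y ≠ z := by
      rintro rfl
      exact absurd hy (lt_irrefl _)
    rw [sw_ne h1 h2]
    exact h.pre y (lt_trans hy hz.2.1)
  · rw [sw_right]
    exact (lt_of_lt_of_le hz.2.1 h.le).le
  · intro z' hz' hlt _ hr
    exact hz.2.2.1 ⟨z', hz', hlt, hr⟩
  · intro hzX
    exact h.nb z hz.1 hz.2.1 hzX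

private theorem chain (hX : X ⊆ X') {v : V} (h : Inv F s X X' t v) (hv : v ∈ X) :
    ∃ k : ℕ, (∀ j < k, (stp F X')^[j] (t, v) ∈
        {p : (V ≃ Fin n) × V | p.2 ∈ X ∧ ∃ z, IsNext F p.1 X' p.2 z}) ∧
      ((stp F X')^[k] (t, v)).2 ∉ X ∧
      ((stp F X')^[k] (t, v)).2 ∈ cov F ((stp F X')^[k] (t, v)).1 X' X ∧
      ∀ y, ((stp F X')^[k] (t, v)).1 y ≠ s y →
        ¬ rob F s X y ∧ ∀ x, rob F s X x → ¬ F.Adj x y := by
  induction hk : (s v).val using Nat.strong_induction_on generalizing t v with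
  | _ m ih =>
    obtain ⟨z, hlt, hz, hinv⟩ := h.step hX hv
    have hstp := stp_eq hz
    by_cases hzX : z ∈ X
    · obtain ⟨k, h1, h2, h3, h4⟩ := ih (s z).val (by rw [← hk]; exact hlt) hinv hzX rfl
      refine ⟨k + 1, ?_, ?_, ?_, ?_⟩
      · intro j hj
        cases j with
        | zero => exact ⟨hv, z, hz⟩
        | succ j =>
          rw [Function.iterate_succ_apply, hstp]
          exact h1 j (Nat.lt_of_succ_lt_succ hj)
      · rw [Function.iterate_succ_apply, hstp]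
        exact h2
      · rw [Function.iterate_succ_apply, hstp]
        exact h3
      · rw [Function.iterate_succ_apply, hstp]
        exact h4
    · refine ⟨1, ?_, ?_, ?_, ?_⟩
      · intro j hj
        have hj0 : j = 0 := Nat.lt_one_iff.1 hj
        subst hj0
        exact ⟨hv, z, hz⟩
      · rw [Function.iterate_one, hstp]
        exact hzX
      · rw [Function.iterate_one, hstp, mem_cov]
        exact ⟨v, hv, rob_sw (hX hv) hz, Or.inr hz.1⟩
      · rw [Function.iterate_one, hstp]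
        exact hinv.q

/-- THE LEMMA -/
theorem cov_lemma (F : SimpleGraph V) {X X' : Finset V} (hX : X ⊆ X') (G : (V ≃ Fin n) → ℝ)
    (hG0 : ∀ s, 0 ≤ G s)
    (hG : ∀ s s' : V ≃ Fin n, (∀ y, s' y ≠ s y →
      ¬ rob F s X y ∧ ∀ x, rob F s X x → ¬ F.Adj x y) → G s ≤ G s') :
    0 ≤ ∑ s : V ≃ Fin n, G s * (((cov F s X' X).card : ℝ) - (X.card : ℝ)) := by
  classical
  set Dom : Set ((V ≃ Fin n) × V) := {p | p.2 ∈ X ∧ ∃ z, IsNext F p.1 X' p.2 z} with hDom
  set Bad : Set ((V ≃ Fin n) × V) := {p | p.2 ∈ X ∧ p.2 ∉ cov F p.1 X' X} with hBad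
  have hinj : Set.InjOn (stp F X') Dom := by
    rintro ⟨s₁, w₁⟩ ⟨hw₁, z₁, hz₁⟩ ⟨s₂, w₂⟩ ⟨hw₂, z₂, hz₂⟩ h
    rw [stp_eq hz₁, stp_eq hz₂] at h
    have hz : z₁ = z₂ := congrArg Prod.snd h
    subst hz
    obtain ⟨h1, h2⟩ := sw_inj (hX hw₁) (hX hw₂) hz₁ hz₂ (congrArg Prod.fst h)
    exact Prod.ext h1 h2
  have hB : ∀ p ∈ Dom, stp F X' p ∉ Bad := by
    rintro ⟨s, w⟩ ⟨hw, z, hz⟩ ⟨_, h2⟩
    rw [stp_eq hz] at h2
    apply h2
    rw [mem_cov]
    exact ⟨w, hw, rob_sw (hX hw) hz, Or.inr hz.1⟩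
  have hstart : ∀ p : (V ≃ Fin n) × V, p ∈ Bad → Inv F p.1 X X' p.1 p.2 := by
    rintro ⟨s, v⟩ ⟨hv, hc⟩
    rw [mem_cov] at hc
    refine ⟨fun y hy => absurd rfl hy, ⟨fun hr => ?_, fun x hx hadj => ?_⟩,
      fun y _ => rfl, le_refl _, fun z hz _ hzX hr => ?_, fun _ hr => ?_⟩
    · exact hc ⟨v, hv, rob_mono hX hr, Or.inl rfl⟩
    · exact hc ⟨x, hx.mem, rob_mono hX hx, Or.inr hadj⟩
    · exact hc ⟨z, hzX, hr, Or.inr hz.symm⟩
    · exact hc ⟨v, hv, hr, Or.inl rfl⟩
  have hex : ∀ p : (V ≃ Fin n) × V, ∃ k : ℕ, p ∈ Bad →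
      (∀ j < k, (stp F X')^[j] p ∈ Dom) ∧ ((stp F X')^[k] p).2 ∉ X ∧
      ((stp F X')^[k] p).2 ∈ cov F ((stp F X')^[k] p).1 X' X ∧
      ∀ y, ((stp F X')^[k] p).1 y ≠ p.1 y →
        ¬ rob F p.1 X y ∧ ∀ x, rob F p.1 X x → ¬ F.Adj x y := by
    intro p
    by_cases hp : p ∈ Bad
    · obtain ⟨k, hk⟩ := chain hX (hstart p hp) hp.1
      exact ⟨k, fun _ => hk⟩
    · exact ⟨0, fun h => absurd h hp⟩
  choose K hK using hex
  set BadF : Finset ((V ≃ Fin n) × V) := univ.filter fun p => p ∈ Bad with hBadF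
  set GoodF : Finset ((V ≃ Fin n) × V) :=
    univ.filter fun p => p.2 ∈ cov F p.1 X' X \ X with hGoodF
  have hmain : ∑ p ∈ BadF, G p.1 ≤ ∑ p ∈ GoodF, G p.1 := by
    calc ∑ p ∈ BadF, G p.1 ≤ ∑ p ∈ BadF, G ((stp F X')^[K p] p).1 := by
          refine Finset.sum_le_sum fun p hp => ?_
          have hp' : p ∈ Bad := (mem_filter.1 hp).2
          exact hG _ _ (hK p hp').2.2.2
      _ = ∑ p ∈ BadF.image (fun p => (stp F X')^[K p] p), G p.1 := by
          rw [Finset.sum_image]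
          intro p hp q hq h
          have hp' : p ∈ Bad := (mem_filter.1 hp).2
          have hq' : q ∈ Bad := (mem_filter.1 hq).2
          exact iter_inj (stp F X') Dom Bad hinj hB hp' hq' (K p) (K q) (hK p hp').1
            (hK q hq').1 h
      _ ≤ ∑ p ∈ GoodF, G p.1 := by
          refine Finset.sum_le_sum_of_subset_of_nonneg ?_ fun p _ _ => hG0 p.1
          intro q hq
          obtain ⟨p, hp, rfl⟩ := mem_image.1 hq
          have hp' : p ∈ Bad := (mem_filter.1 hp).2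
          rw [hGoodF, mem_filter, mem_sdiff]
          exact ⟨mem_univ _, (hK p hp').2.2.1, (hK p hp').2.1⟩
  have e1 : ∑ p ∈ GoodF, G p.1 =
      ∑ s : V ≃ Fin n, G s * ((cov F s X' X \ X).card : ℝ) := by
    rw [hGoodF, Finset.sum_filter, Fintype.sum_prod_type]
    refine Finset.sum_congr rfl fun s _ => ?_
    rw [← Finset.sum_filter]
    have hf : (univ.filter fun a : V => (s, a).2 ∈ cov F (s, a).1 X' X \ X) =
        cov F s X' X \ X := by
      ext u
      simp
    rw [hf]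
    change ∑ a ∈ cov F s X' X \ X, G s = _
    rw [Finset.sum_const, nsmul_eq_mul, mul_comm]
  have e2 : ∑ p ∈ BadF, G p.1 =
      ∑ s : V ≃ Fin n, G s * ((X \ cov F s X' X).card : ℝ) := by
    rw [hBadF, Finset.sum_filter, Fintype.sum_prod_type]
    refine Finset.sum_congr rfl fun s _ => ?_
    rw [← Finset.sum_filter]
    have hf : (univ.filter fun a : V => (s, a) ∈ Bad) = X \ cov F s X' X := by
      ext u
      rw [mem_filter, mem_sdiff]
      exact ⟨fun h => h.2, fun h => ⟨mem_univ _, h⟩⟩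
    rw [hf]
    change ∑ a ∈ X \ cov F s X' X, G s = _
    rw [Finset.sum_const, nsmul_eq_mul, mul_comm]
  have e3 : ∀ s : V ≃ Fin n, G s * (((cov F s X' X).card : ℝ) - (X.card : ℝ)) =
      G s * ((cov F s X' X \ X).card : ℝ) - G s * ((X \ cov F s X' X).card : ℝ) := by
    intro s
    have h1 := Finset.card_sdiff_add_card_inter (cov F s X' X) X
    have h2 := Finset.card_sdiff_add_card_inter X (cov F s X' X)
    rw [Finset.inter_comm] at h2
    have h1' : ((cov F s X' X \ X).card : ℝ) + ((cov F s X' X ∩ X).card : ℝ) =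
        ((cov F s X' X).card : ℝ) := by exact_mod_cast h1
    have h2' : ((X \ cov F s X' X).card : ℝ) + ((cov F s X' X ∩ X).card : ℝ) =
        (X.card : ℝ) := by exact_mod_cast h2
    rw [← h1', ← h2']
    ring
  rw [Finset.sum_congr rfl fun s _ => e3 s, Finset.sum_sub_distrib, ← e1, ← e2]
  linarith

end MP76b19e.Rob
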