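import Pool.Agent.Lib.MP76b19e.Rob.NumV
import Pool.Agent.Lib.MP76b19e.CoreI

/-!
# The final inequality for one over-full top and base at least one (problem MP_76b19e_co)

`ovnum`: there is a `c₀ ≤ c` such that the product bound is at most `S`.
-/

set_option autoImplicit false

open Finset

namespace MP76b19e.Rob

open Pool.Agent.MP76b19e (bq H_pow_le H_pow_le' H_ge_one)

/-- the value for one `c₀` -/
noncomputable def ovR (L : ℝ) (p c0 : ℕ) : ℝ := L ^ (1 + c0) * bq (p - 1) c0 (2 * (p - 1) + 1 + c0)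

section

variable {p : ℕ} {L H : ℝ}

theorem ovR_nonneg (hp : 2 ≤ p) (hL : 0 < L) (c0 : ℕ) : 0 ≤ ovR L p c0 :=
  mul_nonneg (pow_nonneg hL.le _) (Pool.Agent.MP76b19e.bq_pos (by omega) _ _).le

theorem cast_pred' (hp : 2 ≤ p) : ((p - 1 : ℕ) : ℝ) = (p : ℝ) - 1 := by
  rw [Nat.cast_sub (by omega)]
  simp

theorem ovR1 (hp : 3 ≤ p) (hL : 0 < L) (hLq : L ^ (p - 1) = p) :
    ovR L p 1 ≤ (p + 1) / (2 * p - 1) := by
  have h := nv1 (N := p - 1) (by omega) hL (by rw [hLq, cast_pred' (by omega)]; ring)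
  rw [cast_pred' (by omega)] at h
  unfold ovR
  refine h.trans (le_of_eq ?_)
  congr 1 <;> ring

theorem ovR2 (hp : 2 ≤ p) (hL : 0 < L) (hLq : L ^ (p - 1) = p) : ovR L p 2 ≤ 1 / 2 :=
  nv2 (N := p - 1) (by omega) hL (by rw [hLq, cast_pred' (by omega)]; ring)

theorem ovR3 (hp : 2 ≤ p) (hL : 0 < L) (hLq : L ^ (p - 1) = p) :
    ovR L p 3 ≤ (p + 1) / (2 * (2 * p + 1)) := by
  have h := nv3 (N := p - 1) (by omega) hL (by rw [hLq, cast_pred' (by omega)]; ring)
  rw [cast_pred' (by omega)] at h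
  unfold ovR
  refine h.trans (le_of_eq ?_)
  congr 1 <;> ring

theorem ovR4 (hp : 3 ≤ p) (hL : 0 < L) (hLq : L ^ (p - 1) = p) :
    ovR L p 4 ≤ (p + 1) ^ 2 / (2 * (2 * p + 1) * (p + 3)) := by
  have h := nv4 (N := p - 1) (by omega) hL (by rw [hLq, cast_pred' (by omega)]; ring)
  rw [cast_pred' (by omega)] at h
  unfold ovR
  refine h.trans (le_of_eq ?_)
  congr 1 <;> ring

theorem Hs1 (hp : 2 ≤ p) (hH : 0 < H) (hHq : H ^ (p - 1) = 2 * p / (p + 1)) :
    H ≤ (p + 2) / (p + 1) := by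
  have h := H_pow_le hp hH hHq (j := 1) (by omega)
  have hp1 : (0 : ℝ) < (p : ℝ) + 1 := by positivity
  rw [pow_one] at h
  refine h.trans (le_of_eq ?_)
  push_cast
  field_simp
  ring

theorem Hs2 (hp : 3 ≤ p) (hH : 0 < H) (hHq : H ^ (p - 1) = 2 * p / (p + 1)) :
    H ^ 2 ≤ (p + 3) / (p + 1) := by
  have h := H_pow_le (by omega) hH hHq (j := 2) (by omega)
  have hp1 : (0 : ℝ) < (p : ℝ) + 1 := by positivity
  refine h.trans (le_of_eq ?_)
  push_cast
  field_simp
  ring

/-- `c ≥ 4` -/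
theorem ov4 (hp : 3 ≤ p) (hL : 0 < L) (hH : 0 < H) (hLq : L ^ (p - 1) = p)
    (hHq : H ^ (p - 1) = 2 * p / (p + 1)) {c e : ℕ} {O k n S : ℝ} (hc : 4 ≤ c)
    (hk0 : 0 ≤ k) (hk : k ≤ p) (he : e ≤ p + 1 ∨ (e : ℝ) = O - c + 3)
    (hO : O - c ≤ 2 * p - 1) (hn : 2 * p - 1 + c ≤ (n - 1) * (p - 1)) (hS1 : 1 ≤ S)
    (hS : (p + c) + (n * (2 + (O - c)) - (n - 2) * p - 1 - (O - c)) ≤ S * (p + c)) :
    (p + 1 + k) / p * ovR L p 4 * H ^ e ≤ S := by
  have hp3 : (3 : ℝ) ≤ p := by exact_mod_cast hp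
  have hp0 : (0 : ℝ) < p := by linarith
  have hH1 := H_ge_one (by omega) hH hHq
  have hR := ovR4 hp hL hLq
  have hR0 := ovR_nonneg (by omega) hL (p := p) 4
  have hc4 : (4 : ℝ) ≤ c := by exact_mod_cast hc
  have hκ : (p + 1 + k) / p ≤ (2 * p + 1) / p := div_le_div_of_nonneg_right (by linarith) hp0.le
  have hκ0 : 0 ≤ (p + 1 + k) / p := by positivity
  -- `κ R H ^ (p + 1) ≤ 1`
  have hHp : H ^ (p + 1) ≤ 2 * p / (p + 1) * ((p + 3) / (p + 1)) := by
    rw [show p + 1 = (p - 1) + 2 by omega, pow_add, hHq]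
    exact mul_le_mul_of_nonneg_left (Hs2 hp hH hHq) (by positivity)
  have hkey : (p + 1 + k) / p * ovR L p 4 * H ^ (p + 1) ≤ 1 := by
    calc (p + 1 + k) / p * ovR L p 4 * H ^ (p + 1)
        ≤ (2 * p + 1) / p * ((p + 1) ^ 2 / (2 * (2 * p + 1) * (p + 3))) *
          (2 * p / (p + 1) * ((p + 3) / (p + 1))) := by
          refine mul_le_mul (mul_le_mul hκ hR hR0 (by positivity)) hHp (by positivity)
            (by positivity)
      _ = 1 := by field_simp
  rcases Nat.lt_or_ge (p + 1) e with h1 | h1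
  · have he' : (e : ℝ) = O - c + 3 := by
      rcases he with h | h
      · omega
      · exact h
    obtain ⟨m, hm⟩ : ∃ m, e = (p + 1) + (m + 1) := ⟨e - p - 2, by omega⟩
    have hmr : O - c = p - 1 + m := by
      have : (e : ℝ) = (p + 1) + (m + 1) := by exact_mod_cast hm
      linarith
    have hmp : (m : ℝ) ≤ p := by linarith
    have hmp' : m ≤ p := by exact_mod_cast hmp
    have hm0 : (0 : ℝ) ≤ m := Nat.cast_nonneg m
    rw [hm, pow_add, ← mul_assoc]
    have hHm0 : 0 < H ^ (m + 1) := by positivity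
    have h2 : (p + 1 + k) / p * ovR L p 4 * H ^ (p + 1) * H ^ (m + 1) ≤ H ^ (m + 1) := by
      have := mul_le_mul_of_nonneg_right hkey hHm0.le
      linarith
    refine h2.trans ?_
    have hS' : 1 + (m + 1) / (p - 1) ≤ S := by
      have h3 : (0 : ℝ) < p + c := by linarith
      have h4 : (0 : ℝ) < p - 1 := by linarith
      rw [hmr] at hS
      have h5 : (m + 1) * (p + c) ≤ (S - 1) * (p + c) * (p - 1) := by
        have h6 : n * (m + 1) + p - m ≤ (S - 1) * (p + c) := by linarith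
        have h7 := mul_le_mul_of_nonneg_right h6 h4.le
        refine le_trans ?_ h7
        nlinarith [mul_le_mul_of_nonneg_left hn (by linarith : (0 : ℝ) ≤ (m : ℝ) + 1),
          mul_nonneg (sub_nonneg.2 hmp) h4.le, mul_nonneg hm0 h4.le, mul_nonneg hm0 hp0.le]
      have h6 : (m + 1) ≤ (S - 1) * (p - 1) := by
        have h7 : (m + 1 : ℝ) * (p + c) ≤ ((S - 1) * (p - 1)) * (p + c) := by linarith
        exact le_of_mul_le_mul_right h7 h3
      rw [← sub_nonneg, show S - (1 + (m + 1) / (p - 1)) = S - 1 - (m + 1) / (p - 1) by ring,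
        sub_nonneg, div_le_iff₀ h4]
      exact h6
    refine le_trans ?_ hS'
    have h4 : (0 : ℝ) < p - 1 := by linarith
    rcases Nat.lt_or_ge m p with h3 | h3
    · refine (H_pow_le' (by omega) hH hHq (j := m + 1) h3).trans ?_
      push_cast
      have := div_le_div_of_nonneg_left (by linarith : (0 : ℝ) ≤ (m : ℝ) + 1) h4
        (by linarith : (p : ℝ) - 1 ≤ p)
      linarith
    · have hme : m = p := le_antisymm hmp' h3
      rw [hme]
      refine hHp.trans ?_
      rw [div_mul_div_comm, show 1 + ((p : ℝ) + 1) / (p - 1) = 2 * p / (p - 1) by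
        field_simp; ring, div_le_div_iff₀ (by positivity) h4]
      nlinarith
  · have h2 : H ^ e ≤ H ^ (p + 1) := pow_le_pow_right₀ hH1 h1
    have h3 := mul_le_mul_of_nonneg_left h2 (mul_nonneg hκ0 hR0)
    linarith

/-- `c = 3` -/
theorem ov3 (hp : 3 ≤ p) (hL : 0 < L) (hH : 0 < H) (hLq : L ^ (p - 1) = p)
    (hHq : H ^ (p - 1) = 2 * p / (p + 1)) {e : ℕ} {k n S : ℝ}
    (hk0 : 0 ≤ k) (hk : k ≤ p) (hO : e ≤ 2 * p + 1) (hn : 4 ≤ n) (hS1 : 1 ≤ S)
    (hSa : (p + 3) + (1 + e) ≤ S * (p + 3))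
    (hS : (p + 3) + (n * e - (n - 2) * p - 1 - (e - 2)) ≤ S * (p + 3)) :
    (p + 1 + k) / p * ovR L p 3 * H ^ e ≤ S := by
  have hp3 : (3 : ℝ) ≤ p := by exact_mod_cast hp
  have hp0 : (0 : ℝ) < p := by linarith
  have hH1 := H_ge_one (by omega) hH hHq
  have hR := ovR3 (by omega) hL hLq
  have hR0 := ovR_nonneg (by omega) hL (p := p) 3
  have hκ : (p + 1 + k) / p ≤ (2 * p + 1) / p := div_le_div_of_nonneg_right (by linarith) hp0.le
  have hκ0 : 0 ≤ (p + 1 + k) / p := by positivity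
  have hkey : (p + 1 + k) / p * ovR L p 3 * H ^ (p - 1) ≤ 1 := by
    rw [hHq]
    calc (p + 1 + k) / p * ovR L p 3 * (2 * p / (p + 1))
        ≤ (2 * p + 1) / p * ((p + 1) / (2 * (2 * p + 1))) * (2 * p / (p + 1)) := by
          refine mul_le_mul_of_nonneg_right (mul_le_mul hκ hR hR0 (by positivity)) (by positivity)
      _ = 1 := by field_simp
  have hp3' : (0 : ℝ) < (p : ℝ) + 3 := by linarith
  have hstep : ∀ j : ℕ, (p + 1 + k) / p * ovR L p 3 * H ^ ((p - 1) + j) ≤ H ^ j := by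
    intro j
    rw [pow_add, ← mul_assoc]
    have := mul_le_mul_of_nonneg_right hkey (pow_pos hH j).le
    linarith
  rcases Nat.lt_or_ge (p - 1) e with h1 | h1
  · rcases Nat.lt_or_ge p e with h2 | h2
    · obtain ⟨m, hm⟩ : ∃ m, e = (p - 1) + (2 + m) := ⟨e - p - 1, by omega⟩
      have hmr : (e : ℝ) = p + 1 + m := by
        have : e = p + 1 + m := by omega
        exact_mod_cast this
      have hmp : m ≤ p := by omega
      have hmp' : (m : ℝ) ≤ p := by exact_mod_cast hmp
      have hm0 : (0 : ℝ) ≤ m := Nat.cast_nonneg m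
      have h3 := hstep (2 + m)
      rw [hm]
      refine h3.trans ?_
      rw [pow_add]
      have h4 := mul_le_mul (Hs2 hp hH hHq) (H_pow_le' (by omega) hH hHq hmp)
        (pow_pos hH m).le (by positivity)
      refine h4.trans ?_
      rw [hmr] at hS
      have h5 : 2 * p + 7 + 3 * m ≤ S * (p + 3) := by
        nlinarith [mul_nonneg (sub_nonneg.2 hn) (by linarith : (0 : ℝ) ≤ m + 1)]
      have h6 : (2 * p + 7 + 3 * m) / (p + 3) ≤ S := by
        rw [div_le_iff₀ hp3']
        exact h5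
      refine le_trans ?_ h6
      rw [show (1 : ℝ) + (m : ℝ) / p = (p + m) / p by field_simp, div_mul_div_comm,
        div_le_div_iff₀ (by positivity) hp3']
      nlinarith [mul_nonneg (mul_nonneg hm0 hp0.le) (sub_nonneg.2 hp3),
        mul_nonneg hm0 (sub_nonneg.2 hp3), mul_nonneg hp0.le (sub_nonneg.2 hp3),
        mul_nonneg (mul_nonneg hp0.le hp0.le) (sub_nonneg.2 hp3)]
    · have hep : e = (p - 1) + 1 := by omega
      rw [hep]
      refine (hstep 1).trans ?_
      rw [pow_one]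
      refine (Hs1 (by omega) hH hHq).trans ?_
      have h3 : (e : ℝ) = p := by exact_mod_cast (by omega : e = p)
      rw [h3] at hSa
      have h4 : (2 * p + 4) / (p + 3) ≤ S := by
        rw [div_le_iff₀ hp3']
        linarith
      refine le_trans ?_ h4
      rw [div_le_div_iff₀ (by positivity) hp3']
      nlinarith
  · have h2 : H ^ e ≤ H ^ (p - 1) := pow_le_pow_right₀ hH1 h1
    have h3 := mul_le_mul_of_nonneg_left h2 (mul_nonneg hκ0 hR0)
    linarith

/-- `c = 2` -/
theorem ov2 (hp : 3 ≤ p) (hL : 0 < L) (hH : 0 < H) (hLq : L ^ (p - 1) = p)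
    (hHq : H ^ (p - 1) = 2 * p / (p + 1)) {e : ℕ} {k : ℝ} {n : ℕ} {S : ℝ}
    (_hk0 : 0 ≤ k) (hk : k ≤ p) (hke : k ≤ e + 1) (hO : e ≤ 2 * p) (hn : 4 ≤ n)
    (hn3 : 2 * (p : ℝ) + 1 ≤ (n - 1) * (p - 1))
    (hSa : (p + 2) + (2 + e) ≤ S * (p + 2))
    (hS : (p + 2) + (n * (1 + e) - (n - 2) * p - 1 - (e - 1)) ≤ S * (p + 2)) :
    (p + 1 + k) / p * ovR L p 2 * H ^ e ≤ S := by
  have hp3 : (3 : ℝ) ≤ p := by exact_mod_cast hp
  have hp0 : (0 : ℝ) < p := by linarith
  have hH1 := H_ge_one (by omega) hH hHq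
  have hR := ovR2 (by omega) hL hLq
  have hR0 := ovR_nonneg (by omega) hL (p := p) 2
  have he0 : (0 : ℝ) ≤ e := Nat.cast_nonneg e
  have hp2' : (0 : ℝ) < (p : ℝ) + 2 := by linarith
  rcases Nat.lt_or_ge (p - 1) e with h1 | h1
  · have hκ : (p + 1 + k) / p ≤ (2 * p + 1) / p := div_le_div_of_nonneg_right (by linarith) hp0.le
    obtain ⟨m, hm⟩ : ∃ m, e = (p - 1) + (1 + m) := ⟨e - p, by omega⟩
    have hmr : (e : ℝ) = p + m := by
      have : e = p + m := by omega
      exact_mod_cast this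
    have hmp : m ≤ p := by omega
    have hmp' : (m : ℝ) ≤ p := by exact_mod_cast hmp
    have hm0 : (0 : ℝ) ≤ m := Nat.cast_nonneg m
    have h2 : (p + 1 + k) / p * ovR L p 2 * H ^ e ≤
        (2 * p + 1) / p * (1 / 2) * (2 * p / (p + 1) * ((p + 2) / (p + 1) * (1 + m / p))) := by
      refine mul_le_mul (mul_le_mul hκ hR hR0 (by positivity)) ?_ (pow_pos hH e).le
        (by positivity)
      rw [hm, pow_add, hHq, pow_add, pow_one]
      refine mul_le_mul_of_nonneg_left ?_ (by positivity)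
      exact mul_le_mul (Hs1 (by omega) hH hHq) (H_pow_le' (by omega) hH hHq hmp)
        (pow_pos hH m).le (by positivity)
    refine h2.trans ?_
    have h3 : (2 * (p : ℝ) + 1) / p * (1 / 2) *
        (2 * p / (p + 1) * ((p + 2) / (p + 1) * (1 + m / p))) =
        (2 * p + 1) * (p + 2) * (p + m) / (p * (p + 1) ^ 2) := by
      field_simp
    rw [h3]
    rw [hmr] at hS
    rcases Nat.lt_or_ge p 4 with h4 | h4
    · have hpe : p = 3 := by omega
      subst hpe
      have hn5 : (5 : ℝ) ≤ n := by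
        have : (4 : ℝ) < n := by push_cast at hn3; linarith
        exact_mod_cast (by exact_mod_cast this : 4 < n)
      push_cast at hS hmp' ⊢
      have h5 : 13 + 4 * m ≤ S * 5 := by nlinarith
      rw [div_le_iff₀ (by norm_num)]
      nlinarith
    · have hp4 : (4 : ℝ) ≤ p := by exact_mod_cast h4
      have hn4 : (4 : ℝ) ≤ n := by exact_mod_cast hn
      have h5 : 2 * p + 6 + 3 * m ≤ S * (p + 2) := by
        nlinarith [mul_nonneg (sub_nonneg.2 hn4) (by linarith : (0 : ℝ) ≤ m + 1)]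
      have h6 : (2 * p + 6 + 3 * m) / (p + 2) ≤ S := by
        rw [div_le_iff₀ hp2']
        exact h5
      refine le_trans ?_ h6
      rw [div_le_div_iff₀ (by positivity) hp2']
      rcases Nat.lt_or_ge p 5 with h7 | h7
      · have hpe : p = 4 := by omega
        subst hpe
        push_cast at hmp' ⊢
        nlinarith
      · have hp5 : (5 : ℝ) ≤ p := by exact_mod_cast h7
        obtain ⟨x, hx⟩ : ∃ x : ℝ, (p : ℝ) = 5 + x := ⟨p - 5, by ring⟩
        have hx0 : 0 ≤ x := by linarith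
        rw [hx, ← sub_nonneg]
        ring_nf
        positivity
  · have hep : (e : ℝ) ≤ p - 1 := by
      have := (Nat.cast_le (α := ℝ)).2 h1
      rw [cast_pred' (by omega)] at this
      exact this
    have hκ : (p + 1 + k) / p ≤ (p + 2 + e) / p :=
      div_le_div_of_nonneg_right (by linarith) hp0.le
    have h2 : (p + 1 + k) / p * ovR L p 2 * H ^ e ≤
        (p + 2 + e) / p * (1 / 2) * (1 + e / (p + 1)) :=
      mul_le_mul (mul_le_mul hκ hR hR0 (by positivity)) (H_pow_le (by omega) hH hHq h1)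
        (pow_pos hH e).le (by positivity)
    refine h2.trans ?_
    have h3 : ((p : ℝ) + 2 + e) / p * (1 / 2) * (1 + e / (p + 1)) =
        (p + 2 + e) * (p + 1 + e) / (2 * p * (p + 1)) := by
      field_simp
    rw [h3]
    have h6 : (p + 4 + e) / (p + 2) ≤ S := by
      rw [div_le_iff₀ hp2']
      linarith
    refine le_trans ?_ h6
    rw [div_le_div_iff₀ (by positivity) hp2']
    obtain ⟨x, hx⟩ : ∃ x : ℝ, (p : ℝ) = 1 + e + x := ⟨p - 1 - e, by ring⟩
    have hx0 : 0 ≤ x := by linarith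
    rw [hx, ← sub_nonneg]
    ring_nf
    positivity

/-- `c = 1` -/
theorem ov1 (hp : 3 ≤ p) (hL : 0 < L) (hH : 0 < H) (hLq : L ^ (p - 1) = p)
    (hHq : H ^ (p - 1) = 2 * p / (p + 1)) {e : ℕ} {k n S : ℝ}
    (hk0 : 0 ≤ k) (hk : k ≤ p) (hke : k ≤ e + 1) (hO : e ≤ 2 * p - 1) (hn : 4 ≤ n)
    (hSa : (p + 1) + (3 + e) ≤ S * (p + 1))
    (hS : (p + 1) + (n * (2 + e) - (n - 2) * p - 1 - e) ≤ S * (p + 1)) :
    (p + 1 + k) / p * ovR L p 1 * H ^ e ≤ S := by
  have hp3 : (3 : ℝ) ≤ p := by exact_mod_cast hp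
  have hp0 : (0 : ℝ) < p := by linarith
  have hH1 := H_ge_one (by omega) hH hHq
  have hR := ovR1 hp hL hLq
  have hR0 := ovR_nonneg (by omega) hL (p := p) 1
  have he0 : (0 : ℝ) ≤ e := Nat.cast_nonneg e
  have hp1' : (0 : ℝ) < (p : ℝ) + 1 := by linarith
  have h2p : (0 : ℝ) < 2 * p - 1 := by linarith
  rcases Nat.lt_or_ge (p - 2) e with h1 | h1
  · have hκ : (p + 1 + k) / p ≤ (2 * p + 1) / p := div_le_div_of_nonneg_right (by linarith) hp0.le
    obtain ⟨m, hm⟩ : ∃ m, e = (p - 1) + m := ⟨e - (p - 1), by omega⟩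
    have hmr : (e : ℝ) = p - 1 + m := by
      rw [hm, Nat.cast_add, cast_pred' (by omega)]
    have hmp : m ≤ p := by omega
    have hmp' : (m : ℝ) ≤ p := by exact_mod_cast hmp
    have hm0 : (0 : ℝ) ≤ m := Nat.cast_nonneg m
    have h2 : (p + 1 + k) / p * ovR L p 1 * H ^ e ≤
        (2 * p + 1) / p * ovR L p 1 * (2 * p / (p + 1) * H ^ m) := by
      rw [hm, pow_add, hHq]
      exact mul_le_mul_of_nonneg_right (mul_le_mul_of_nonneg_right hκ hR0)
        (mul_nonneg (by positivity) (pow_pos hH m).le)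
    refine h2.trans ?_
    rw [hmr] at hS
    have h5 : 2 * p + 5 + 3 * m ≤ S * (p + 1) := by
      nlinarith [mul_nonneg (sub_nonneg.2 hn) (by linarith : (0 : ℝ) ≤ m + 1)]
    have h6 : (2 * p + 5 + 3 * m) / (p + 1) ≤ S := by
      rw [div_le_iff₀ hp1']
      exact h5
    refine le_trans ?_ h6
    rcases Nat.lt_or_ge p 5 with h7 | h7
    · rcases Nat.lt_or_ge p 4 with h8 | h8
      · -- `p = 3`
        have hpe : p = 3 := by omega
        subst hpe
        have hL2 : L ^ 2 = 3 := by simpa using hLq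
        have hH2 : H ^ 2 = 3 / 2 := by
          have : H ^ 2 = 2 * ((3 : ℕ) : ℝ) / ((3 : ℕ) + 1) := by simpa using hHq
          rw [this]
          norm_num
        have hR' : ovR L 3 1 = 3 / 4 := by
          unfold ovR
          rw [show 1 + 1 = 2 by norm_num, hL2]
          have := bq1 (N := 2) (by norm_num)
          rw [show 2 * (3 - 1) + 1 + 1 = 2 * 2 + 2 by norm_num, show 3 - 1 = 2 by norm_num, this]
          norm_num
        have hHb : H ≤ 49 / 40 := by nlinarith
        rw [hR']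
        push_cast
        interval_cases m
        · norm_num
        · norm_num
          linarith
        · rw [hH2]
          norm_num
        · have hH3 : H ^ 3 = 3 / 2 * H := by rw [pow_succ, hH2]
          rw [hH3]
          norm_num
          linarith
      · -- `p = 4`
        have hpe : p = 4 := by omega
        subst hpe
        have hL3 : L ^ 3 = 4 := by simpa using hLq
        have hLb : L ^ 2 ≤ 2.52 := by
          refine Lpow_le (N := 3) (by norm_num) hL (by rw [hL3]; norm_num) (by norm_num) ?_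
          norm_num
        have hR' : ovR L 4 1 ≤ 2.52 * (3 / 11) := by
          unfold ovR
          rw [show 1 + 1 = 2 by norm_num]
          have := bq1 (N := 3) (by norm_num)
          rw [show 2 * (4 - 1) + 1 + 1 = 2 * 3 + 2 by norm_num, show 4 - 1 = 3 by norm_num, this]
          have h9 := mul_le_mul_of_nonneg_right hLb (by norm_num : (0 : ℝ) ≤ 3 / 11)
          refine le_trans (le_of_eq ?_) h9
          norm_num
        have hHm := H_pow_le' (by norm_num) hH hHq hmp
        push_cast at hHm hmp' ⊢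
        have h10 : (2 * (4 : ℝ) + 1) / 4 * ovR L 4 1 * (2 * 4 / (4 + 1) * H ^ m) ≤
            (2 * (4 : ℝ) + 1) / 4 * (2.52 * (3 / 11)) * (2 * 4 / (4 + 1) * (1 + m / 4)) := by
          refine mul_le_mul (mul_le_mul_of_nonneg_left hR' (by norm_num)) ?_
            (by positivity) (by norm_num)
          exact mul_le_mul_of_nonneg_left hHm (by norm_num)
        refine h10.trans ?_
        norm_num
        linarith
    · have hp5 : (5 : ℝ) ≤ p := by exact_mod_cast h7
      have h8 : (2 * (p : ℝ) + 1) / p * ovR L p 1 * (2 * p / (p + 1) * H ^ m) ≤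
          (2 * p + 1) / p * ((p + 1) / (2 * p - 1)) * (2 * p / (p + 1) * (1 + m / p)) := by
        refine mul_le_mul (mul_le_mul_of_nonneg_left hR (by positivity)) ?_
          (by positivity) (by positivity)
        exact mul_le_mul_of_nonneg_left (H_pow_le' (by omega) hH hHq hmp) (by positivity)
      refine h8.trans ?_
      have h9 : (2 * (p : ℝ) + 1) / p * ((p + 1) / (2 * p - 1)) * (2 * p / (p + 1) * (1 + m / p)) =
          2 * (2 * p + 1) * (p + m) / (p * (2 * p - 1)) := by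
        field_simp
      rw [h9, div_le_div_iff₀ (by positivity) hp1']
      obtain ⟨x, hx⟩ : ∃ x : ℝ, (p : ℝ) = 5 + x := ⟨p - 5, by ring⟩
      have hx0 : 0 ≤ x := by linarith
      rw [hx, ← sub_nonneg]
      ring_nf
      positivity
  · have hep : (e : ℝ) ≤ p - 2 := by
      have : e + 2 ≤ p := by omega
      have : (e : ℝ) + 2 ≤ p := by exact_mod_cast this
      linarith
    have hκ : (p + 1 + k) / p ≤ (p + 2 + e) / p :=
      div_le_div_of_nonneg_right (by linarith) hp0.le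
    have h2 : (p + 1 + k) / p * ovR L p 1 * H ^ e ≤
        (p + 2 + e) / p * ((p + 1) / (2 * p - 1)) * (1 + e / (p + 1)) :=
      mul_le_mul (mul_le_mul hκ hR hR0 (by positivity)) (H_pow_le (by omega) hH hHq (by omega))
        (pow_pos hH e).le (by positivity)
    refine h2.trans ?_
    have h3 : ((p : ℝ) + 2 + e) / p * ((p + 1) / (2 * p - 1)) * (1 + e / (p + 1)) =
        (p + 2 + e) * (p + 1 + e) / (p * (2 * p - 1)) := by
      field_simp
    rw [h3]
    have h6 : (p + 4 + e) / (p + 1) ≤ S := by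
      rw [div_le_iff₀ hp1']
      linarith
    refine le_trans ?_ h6
    rw [div_le_div_iff₀ (by positivity) hp1']
    have hx : ∃ x : ℝ, (p : ℝ) = 2 + e + x := ⟨p - 2 - e, by ring⟩
    obtain ⟨x, hx⟩ := hx
    have hx0 : 0 ≤ x := by linarith
    rcases Nat.eq_zero_or_pos e with h7 | h7
    · rw [h7] at hx ⊢
      push_cast at hx ⊢
      obtain ⟨y, hy⟩ : ∃ y : ℝ, (p : ℝ) = 3 + y := ⟨p - 3, by ring⟩
      have hy0 : 0 ≤ y := by linarith
      rw [hy, ← sub_nonneg]
      ring_nf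
      positivity
    · obtain ⟨z, hz⟩ : ∃ z : ℝ, (e : ℝ) = 1 + z := ⟨e - 1, by ring⟩
      have hz0 : 0 ≤ z := by
        have : (1 : ℝ) ≤ e := by exact_mod_cast h7
        linarith
      rw [hx, hz, ← sub_nonneg]
      ring_nf
      positivity

end

/-- `p = 2` -/
theorem ovp2 {L H : ℝ} (hLe : L = 2) (hHe : H = 4 / 3) {c On : ℕ} {k n S : ℝ} (hc : 1 ≤ c)
    (hO1 : 1 ≤ On) (hk : k ≤ 2) (hkO : k ≤ On) (hO : On ≤ 3 + c) (hn : 4 + (c : ℝ) ≤ n)
    (hS1 : 1 ≤ S) (hSa : (2 + (c : ℝ)) + (3 + (On - c)) ≤ S * (2 + c))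
    (hS : (2 + (c : ℝ)) + (n * (2 + (On - c)) - (n - 2) * 2 - 1 - (On - c)) ≤ S * (2 + c)) :
    (2 + 1 + k) / 2 * ovR L 2 (min c 3) * H ^ ((On - 1) - (c - min c 3)) ≤ S := by
  have hR1 : ovR L 2 1 = 4 / 5 := by
    unfold ovR
    rw [hLe, show 2 - 1 = 1 by norm_num, show 2 * 1 + 1 + 1 = 2 * 1 + 2 by norm_num,
      bq1 (by norm_num)]
    norm_num
  have hR2 : ovR L 2 2 = 8 / 21 := by
    unfold ovR
    rw [hLe, show 2 - 1 = 1 by norm_num, show 2 * 1 + 1 + 2 = 2 * 1 + 3 by norm_num,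
      bq2 (by norm_num)]
    norm_num
  have hR3 : ovR L 2 3 = 4 / 21 := by
    unfold ovR
    rw [hLe, show 2 - 1 = 1 by norm_num, show 2 * 1 + 1 + 3 = 2 * 1 + 4 by norm_num,
      bq3 (by norm_num)]
    norm_num
  rcases Nat.lt_or_ge c 3 with h3 | h3
  · have hcc : c = 1 ∨ c = 2 := by omega
    rcases hcc with hcc | hcc
    · subst hcc
      rw [show min 1 3 = 1 by norm_num, hR1, Nat.sub_self, Nat.sub_zero, hHe]
      push_cast at hSa hS hn
      interval_cases On
      · norm_num at hSa hkO ⊢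
        linarith
      · norm_num at hS hk ⊢
        linarith
      · norm_num at hS hk ⊢
        linarith
      · norm_num at hS hk ⊢
        linarith
    · subst hcc
      rw [show min 2 3 = 2 by norm_num, hR2, Nat.sub_self, Nat.sub_zero, hHe]
      push_cast at hSa hS hn
      interval_cases On
      · norm_num at hkO ⊢
        linarith
      · norm_num at hSa hk ⊢
        linarith
      · norm_num at hS hk ⊢
        linarith
      · norm_num at hS hk ⊢
        linarith
      · norm_num at hS hk ⊢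
        linarith
  · rw [min_eq_right h3, hR3, hHe]
    have hc3 : (3 : ℝ) ≤ c := by exact_mod_cast h3
    obtain ⟨e, he⟩ : ∃ e, e = (On - 1) - (c - 3) := ⟨_, rfl⟩
    rw [← he]
    have he5 : e ≤ 5 := by omega
    have h1 : (2 + 1 + k) / 2 * (4 / 21) * (4 / 3) ^ e ≤ 10 / 21 * (4 / 3) ^ e := by
      refine mul_le_mul_of_nonneg_right ?_ (by positivity)
      linarith
    refine h1.trans ?_
    rcases Nat.lt_or_ge e 3 with h2 | h2
    · have h4 : ((4 : ℝ) / 3) ^ e ≤ (4 / 3) ^ 2 := pow_le_pow_right₀ (by norm_num) (by omega)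
      have h5 : (10 : ℝ) / 21 * (4 / 3) ^ 2 ≤ 1 := by norm_num
      linarith
    · have hOe : (On : ℝ) - c = e - 2 := by
        have : On + 2 = e + c := by omega
        have : (On : ℝ) + 2 = e + c := by exact_mod_cast this
        linarith
      rw [hOe] at hS
      have h4 : (1 : ℝ) + (e - 2) ≤ S := by
        have h5 : (0 : ℝ) < 2 + c := by linarith
        have he2 : (3 : ℝ) ≤ e := by exact_mod_cast h2
        have he5' : (e : ℝ) ≤ 5 := by exact_mod_cast he5
        have h6 : (1 + ((e : ℝ) - 2)) * (2 + c) ≤ S * (2 + c) := by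
          nlinarith [mul_nonneg (by linarith : (0 : ℝ) ≤ n - 4 - c)
            (by linarith : (0 : ℝ) ≤ (e : ℝ) - 2)]
        exact le_of_mul_le_mul_right h6 h5
      refine le_trans ?_ h4
      interval_cases e <;> norm_num

end MP76b19e.Rob
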