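import Pool.Agent.Lib.MP76b19e.Rob.StepM
import Pool.Agent.Lib.MP76b19e.Rob.StA3v
import Pool.Agent.Lib.MP76b19e.Rob.NumW

/-!
# Dropping shared units of over-full elements (problem MP_76b19e_co)

`drop_all`: if the elements of `U` have `p + 1` units and the others at most `p`, then at most `|U|`
shared units can be dropped such that all elements have at most `p` units. `gwU`: the product bound.
-/

set_option autoImplicit false

open Finset

namespace MP76b19e.Rob

open Pool.Agent.MP76b19e (bq)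

variable {V : Type} [DecidableEq V]

/-- one unit of `D` dropped -/
noncomputable def drM (m : Finset V → ℝ) (D E : Finset V) : ℝ := m E - (if E = D then 1 else 0)

section

variable {m : Finset V → ℝ} {K D : Finset V} {t : V}

theorem drM_le (E : Finset V) : drM m D E ≤ m E := by
  unfold drM
  split_ifs <;> linarith

theorem drM_single (hD : 2 ≤ D.card) (j : V) : drM m D {j} = m {j} := by
  unfold drM
  rw [if_neg, sub_zero]
  rintro rfl
  rw [card_singleton] at hD
  omega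

theorem drM_empty (hD : 2 ≤ D.card) : drM m D ∅ = m ∅ := by
  unfold drM
  rw [if_neg, sub_zero]
  rintro rfl
  rw [card_empty] at hD
  omega

theorem PosM.drM (h : PosM m) (hD : 2 ≤ D.card) (h1 : 1 ≤ m D) : PosM (drM m D) := by
  refine ⟨fun E => ?_, fun j => ?_⟩
  · unfold Rob.drM
    by_cases h2 : E = D
    · rw [if_pos h2, h2]
      linarith
    · rw [if_neg h2, sub_zero]
      exact h.1 E
  · rw [drM_single hD]
    exact h.2 j

theorem drM_int (hint : ∀ E, ∃ k : ℕ, m E = k) (h1 : 1 ≤ m D) (E : Finset V) :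
    ∃ k : ℕ, drM m D E = k := by
  obtain ⟨k, hk⟩ := hint E
  unfold drM
  by_cases h2 : E = D
  · subst h2
    rw [if_pos rfl, hk]
    rw [hk] at h1
    have h3 : 1 ≤ k := by exact_mod_cast h1
    exact ⟨k - 1, by rw [Nat.cast_sub h3]; push_cast; ring⟩
  · rw [if_neg h2, sub_zero]
    exact ⟨k, hk⟩

theorem sum_drM (f : Finset V → ℝ) (hD : D ⊆ K) :
    ∑ E ∈ K.powerset, f E * drM m D E = ∑ E ∈ K.powerset, f E * m E - f D := by
  unfold drM
  simp only [mul_sub, sum_sub_distrib, mul_ite, mul_one, mul_zero, sum_ite_eq', mem_powerset, hD,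
    if_true]

theorem pal_drM (hD : D ⊆ K) : pal (drM m D) K = pal m K - 1 := by
  have h1 := sum_drM (m := m) (fun _ => (1 : ℝ)) hD
  simp only [one_mul] at h1
  exact h1

theorem pa_drM (hD : D ⊆ K) (v : V) :
    pa (drM m D) K v = pa m K v - (if v ∈ D then 1 else 0) := by
  rw [pa_eq_sum, pa_eq_sum, sum_drM _ hD]

theorem po_drM (hD : D ⊆ K) : po (drM m D) K = po m K - ((D.card - 1 : ℕ) : ℝ) := by
  unfold po
  exact sum_drM (fun E => ((E.card - 1 : ℕ) : ℝ)) hD

theorem Ival_le_drM (h : PosM m) (hD : 2 ≤ D.card) (h1 : 1 ≤ m D) :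
    Ival m K ≤ Ival (drM m D) K :=
  Ival_anti_pal (h.drM hD h1) fun _ _ => sum_le_sum fun E _ => drM_le E

/-- a set which shares a unit with `t` -/
theorem exists_shared (hint : ∀ E, ∃ k : ℕ, m E = k) (ht : t ∈ K) (hlt : m {t} < pa m K t) :
    ∃ D ⊆ K, t ∈ D ∧ 2 ≤ D.card ∧ 1 ≤ m D := by
  have h1 := sum_shS_one (m := m) (K := K) hint ht
  rcases (shS m K t).eq_empty_or_nonempty with h0 | ⟨D, hD⟩
  · rw [h0, sum_empty] at h1
    linarith
  · exact ⟨D, mem_shS.1 hD⟩

/-- dropping shared units until nothing is over-full -/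
theorem drop_all {p : ℝ} (h : PosM m) (hint : ∀ E, ∃ k : ℕ, m E = k) {U : Finset V}
    (hU : U ⊆ K) (hle : ∀ j ∈ K, j ∉ U → pa m K j ≤ p) (heq : ∀ j ∈ U, pa m K j = p + 1)
    (hw : ∀ j ∈ U, m {j} ≤ p) :
    ∃ m' : Finset V → ℝ, PosM m' ∧ (∀ E, ∃ k : ℕ, m' E = k) ∧ (∀ j, m' {j} = m {j}) ∧
      m' ∅ = m ∅ ∧ (∀ j ∈ K, pa m' K j ≤ p) ∧ ∃ d : ℕ, d ≤ U.card ∧ (1 ≤ U.card → 1 ≤ d) ∧
        pal m' K = pal m K - d ∧ po m' K ≤ po m K - d ∧ Ival m K ≤ Ival m' K := by
  induction hn : U.card using Nat.strong_induction_on generalizing U m with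
  | _ n ih =>
    rcases U.eq_empty_or_nonempty with h0 | ⟨t, ht⟩
    · subst h0
      rw [card_empty] at hn
      refine ⟨m, h, hint, fun _ => rfl, rfl, fun j hj => hle j hj (notMem_empty j), 0, by omega,
        by omega, ?_, ?_, le_rfl⟩
      · rw [Nat.cast_zero, sub_zero]
      · rw [Nat.cast_zero, sub_zero]
    · obtain ⟨D, hD, htD, hD2, hD1⟩ := exists_shared hint (hU ht) (by
        rw [heq t ht]
        linarith [hw t ht])
      have hlt : (U \ D).card < n := by
        rw [← hn]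
        refine card_lt_card ⟨sdiff_subset, fun h1 => ?_⟩
        exact (mem_sdiff.1 (h1 ht)).2 htD
      have h1 := pa_drM (m := m) (K := K) hD
      obtain ⟨m', hm1, hm2, hm3, hm4, hm5, d, hd1, hd2, hd3, hd4, hd5⟩ := ih (U \ D).card hlt
        (h.drM hD2 hD1) (drM_int hint hD1) (U := U \ D) (sdiff_subset.trans hU)
        (fun j hj hjU => by
          rw [h1]
          by_cases h2 : j ∈ D
          · rw [if_pos h2]
            by_cases h3 : j ∈ U
            · rw [heq j h3]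
              linarith
            · have := hle j hj h3
              linarith
          · rw [if_neg h2, sub_zero]
            exact hle j hj fun h3 => hjU (mem_sdiff.2 ⟨h3, h2⟩))
        (fun j hj => by
          rw [mem_sdiff] at hj
          rw [h1, if_neg hj.2, sub_zero]
          exact heq j hj.1)
        (fun j hj => by
          rw [drM_single hD2]
          exact hw j (mem_sdiff.1 hj).1) rfl
      refine ⟨m', hm1, hm2, fun j => (hm3 j).trans (drM_single hD2 j), hm4.trans (drM_empty hD2),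
        hm5, d + 1, by omega, by omega, ?_, ?_, (Ival_le_drM h hD2 hD1).trans hd5⟩
      · rw [hd3, pal_drM hD]
        push_cast
        ring
      · rw [po_drM hD] at hd4
        have h2 : (1 : ℝ) ≤ ((D.card - 1 : ℕ) : ℝ) := by
          exact_mod_cast (by omega : 1 ≤ D.card - 1)
        push_cast
        linarith

/-- the value for one `c₀` and `d` dropped units -/
noncomputable def rhoV (L : ℝ) (p c0 d : ℕ) : ℝ :=
  L ^ (1 + c0 + d) * bq (p - 1) c0 (2 * (p - 1) + 1 + c0 + d)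

theorem rhoV_nonneg {L : ℝ} {p : ℕ} (hp : 2 ≤ p) (hL : 0 < L) (c0 d : ℕ) : 0 ≤ rhoV L p c0 d :=
  mul_nonneg (pow_nonneg hL.le _) (Pool.Agent.MP76b19e.bq_pos (by omega) _ _).le

theorem rhoV_zero (L : ℝ) (p c0 : ℕ) : rhoV L p c0 0 = ovR L p c0 := rfl

/-- the product bound with `k` elements with `p + 1` units -/
theorem gwU {p : ℕ} {L H : ℝ} (hp : 2 ≤ p) (hL : 0 < L) (hH : 0 < H) (hLq : L ^ (p - 1) = p)
    (hHq : H ^ (p - 1) = 2 * p / (p + 1)) (h : PosM m) (hint : ∀ E, ∃ k : ℕ, m E = k)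
    (hK : 2 ≤ K.card) (hone : ∀ j ∈ K, 1 ≤ m {j}) {U : Finset V}
    (hU : U ⊆ K) (hle : ∀ j ∈ K, j ∉ U → pa m K j ≤ p) (heq : ∀ j ∈ U, pa m K j = (p : ℝ) + 1)
    (hw : ∀ j ∈ U, m {j} ≤ p) (hpal : pal m K = ((K.card : ℝ) - 2) * p + 1) :
    ∃ d e : ℕ, d ≤ U.card ∧ (1 ≤ U.card → 1 ≤ d) ∧
      (∀ c0 c : ℕ, m ∅ = c → c0 ≤ c →
        (p : ℝ) ^ (K.card - 2) * Ival m K ≤ rhoV L p c0 d * H ^ (e - (c - c0))) ∧
      (e : ℝ) ≤ po m K - d ∧ (e : ℝ) ≤ 2 * p - 1 + d + m ∅ := by
  obtain ⟨m', hm1, hm2, hm3, hm4, hm5, d, hd1, hd2, hd3, hd4, hd5⟩ :=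
    drop_all h hint hU hle heq hw
  obtain ⟨On, hOn⟩ := po_int hm2 K
  choose mn hmn using hm2
  refine ⟨d, On, hd1, hd2, ?_, by rw [← hOn]; exact hd4, ?_⟩
  · intro c0 c hc hc0
    have hmn0 : mn ∅ = c := by
      have h1 := hmn ∅
      rw [hm4, hc] at h1
      exact_mod_cast h1.symm
    have h1 := mass_gw (m := m') (K := K) hp hL hH hLq hHq hmn (fun j hj => by
      have h2 := hone j hj
      rw [← hm3 j, hmn] at h2
      exact_mod_cast h2) hm5 (c0 := c0) (On := On) (Δ := 2 * (p - 1) + 1 + c0 + d)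
      (by rw [hmn0]; exact hc0) hOn (by
        rw [hd3, hpal]
        push_cast [Nat.cast_sub (by omega : 1 ≤ p)]
        ring)
    rw [hmn0] at h1
    have hp0 : (0 : ℝ) < p := by
      have : 0 < p := by omega
      exact_mod_cast this
    have hLp : L ^ (2 * (p - 1) + 1 + c0 + d) = (p : ℝ) ^ 2 * L ^ (1 + c0 + d) := by
      have h4 : 2 * (p - 1) + 1 + c0 + d = (p - 1) * 2 + (1 + c0 + d) := by ring
      rw [h4, pow_add, pow_mul, hLq]
    have hpw : (p : ℝ) ^ K.card = p ^ 2 * p ^ (K.card - 2) := by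
      rw [← pow_add]
      congr 1
      omega
    rw [hLp, hpw] at h1
    have h5 : (p : ℝ) ^ 2 * ((p : ℝ) ^ (K.card - 2) * Ival m' K) ≤
        (p : ℝ) ^ 2 * (rhoV L p c0 d * H ^ (On - (c - c0))) := by
      unfold rhoV
      refine le_trans (le_of_eq ?_) (h1.trans (le_of_eq ?_)) <;> ring
    have h6 := le_of_mul_le_mul_left h5 (by positivity)
    refine le_trans ?_ h6
    exact mul_le_mul_of_nonneg_left hd5 (by positivity)
  · have h1 := sum_pa (m := m') (K := K)
    have h2 : ∑ j ∈ K, pa m' K j ≤ ∑ _j ∈ K, (p : ℝ) := sum_le_sum fun j hj => hm5 j hj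
    rw [sum_const, nsmul_eq_mul] at h2
    rw [h1, hd3, hpal, hm4, hOn] at h2
    linarith

end

end MP76b19e.Rob
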