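import Pool.Agent.Lib.MP76b19e.Rob.DropU

/-!
# Over-full elements: dropping shared units or removing the element (problem MP_76b19e_co)

`gwAll`: the product bound if the elements of `U` have at most `p + 1` units, total mass
`(n - 2) p + 2 - s`.
-/

set_option autoImplicit false

open Finset

namespace MP76b19e.Rob

open Pool.Agent.MP76b19e (bq H_ge_one)

/-- the value for one `c₀`, total mass `(n - 2) p + 2 - s` -/
noncomputable def rhoG (L : ℝ) (p c0 s : ℕ) : ℝ :=
  L ^ (c0 + s) * bq (p - 1) c0 (2 * (p - 1) + c0 + s)

theorem rhoG_nonneg {L : ℝ} {p : ℕ} (hp : 2 ≤ p) (hL : 0 < L) (c0 s : ℕ) : 0 ≤ rhoG L p c0 s :=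
  mul_nonneg (pow_nonneg hL.le _) (Pool.Agent.MP76b19e.bq_pos (by omega) _ _).le

theorem rhoG_eq (L : ℝ) (p c0 d : ℕ) : rhoG L p c0 (1 + d) = rhoV L p c0 d := by
  unfold rhoG rhoV
  rw [show c0 + (1 + d) = 1 + c0 + d by ring, show 2 * (p - 1) + c0 + (1 + d) =
    2 * (p - 1) + 1 + c0 + d by ring]

theorem rhoG_eq' (L : ℝ) {p c0 d : ℕ} (hd : 1 ≤ d) : rhoG L p c0 d = rhoV L p c0 (d - 1) := by
  rw [← rhoG_eq]
  congr 1
  omega

variable {V : Type} [DecidableEq V] {m : Finset V → ℝ} {K U : Finset V}

omit [DecidableEq V] in
theorem po_mono (h : ∀ D, 0 ≤ m D) {A : Finset V} (hA : A ⊆ K) : po m A ≤ po m K := by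
  unfold po
  refine sum_le_sum_of_subset_of_nonneg (powerset_mono.2 hA) fun D _ _ => ?_
  exact mul_nonneg (Nat.cast_nonneg _) (h D)

/-- over-full elements are dropped or removed -/
theorem gwAll {p : ℕ} {L H : ℝ} (hp : 2 ≤ p) (hL : 0 < L) (hH : 0 < H) (hLq : L ^ (p - 1) = p)
    (hHq : H ^ (p - 1) = 2 * p / (p + 1)) (h : PosM m) (hint : ∀ E, ∃ k : ℕ, m E = k)
    (hK : 2 ≤ K.card) (hone : ∀ j ∈ K, 1 ≤ m {j}) (hU : U ⊆ K)
    (hle : ∀ j ∈ K, j ∉ U → pa m K j ≤ p) (hleU : ∀ j ∈ U, pa m K j ≤ (p : ℝ) + 1) {s : ℕ}
    (hpal : pal m K = ((K.card : ℝ) - 2) * p + 2 - s) :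
    ∃ d e : ℕ, d ≤ U.card ∧ ((∃ t ∈ U, (p : ℝ) < pa m K t) → 1 ≤ d) ∧
      (∀ c0 c : ℕ, m ∅ = c → c0 ≤ c →
        (p : ℝ) ^ (K.card - 2) * Ival m K ≤ rhoG L p c0 (s + d) * H ^ (e - (c - c0))) ∧
      (e = 0 ∨ (e : ℝ) ≤ po m K - d) := by
  have hp2 : (2 : ℝ) ≤ p := by exact_mod_cast hp
  have hp0 : (0 : ℝ) < p := by linarith
  induction hn : U.card using Nat.strong_induction_on generalizing U m K s with
  | _ n ih =>
    rcases U.eq_empty_or_nonempty with h0 | ⟨t, ht⟩
    · -- nothing over-full
      subst h0
      rw [card_empty] at hn
      obtain ⟨On, hOn⟩ := po_int hint K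
      choose mn hmn using hint
      refine ⟨0, On, by omega, fun ⟨t, ht, _⟩ => absurd ht (notMem_empty t), ?_, Or.inr ?_⟩
      · intro c0 c hc hc0
        have hmn0 : mn ∅ = c := by
          have h1 := hmn ∅
          rw [hc] at h1
          exact_mod_cast h1.symm
        have h1 := mass_gw (m := m) (K := K) hp hL hH hLq hHq hmn (fun j hj => by
          have h2 := hone j hj
          rw [hmn] at h2
          exact_mod_cast h2) (fun j hj => hle j hj (notMem_empty j)) (c0 := c0) (On := On)
          (Δ := 2 * (p - 1) + c0 + s) (by rw [hmn0]; exact hc0) hOn (by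
            rw [hpal]
            push_cast [Nat.cast_sub (by omega : 1 ≤ p)]
            ring)
        rw [hmn0] at h1
        have hLp : L ^ (2 * (p - 1) + c0 + s) = (p : ℝ) ^ 2 * L ^ (c0 + s) := by
          have h4 : 2 * (p - 1) + c0 + s = (p - 1) * 2 + (c0 + s) := by ring
          rw [h4, pow_add, pow_mul, hLq]
        have hpw : (p : ℝ) ^ K.card = p ^ 2 * p ^ (K.card - 2) := by
          rw [← pow_add]
          congr 1
          omega
        rw [hLp, hpw] at h1
        have h5 : (p : ℝ) ^ 2 * ((p : ℝ) ^ (K.card - 2) * Ival m K) ≤
            (p : ℝ) ^ 2 * (rhoG L p c0 (s + 0) * H ^ (On - (c - c0))) := by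
          unfold rhoG
          rw [add_zero]
          refine le_trans (le_of_eq ?_) (h1.trans (le_of_eq ?_)) <;> ring
        exact le_of_mul_le_mul_left h5 (by positivity)
      · rw [hOn, Nat.cast_zero, sub_zero]
    · have htK := hU ht
      have hlt : (U.erase t).card < n := by
        rw [← hn]
        exact card_erase_lt_of_mem ht
      have hcard : (U.erase t).card + 1 = U.card := card_erase_add_one ht
      rcases le_or_gt (pa m K t) p with htp | htp
      · -- `t` is not over-full
        obtain ⟨d, e, h1, h2, h3, h4⟩ := ih (U.erase t).card hlt h hint hK hone (U := U.erase t)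
          ((erase_subset _ _).trans hU) (fun j hj hjU => by
            by_cases hjt : j = t
            · rw [hjt]; exact htp
            · exact hle j hj fun h5 => hjU (mem_erase.2 ⟨hjt, h5⟩))
          (fun j hj => hleU j (mem_of_mem_erase hj)) hpal rfl
        refine ⟨d, e, by omega, ?_, h3, h4⟩
        rintro ⟨v, hv, hvp⟩
        refine h2 ⟨v, mem_erase.2 ⟨?_, hv⟩, hvp⟩
        rintro rfl
        linarith
      · -- `t` is over-full
        have hpt : pa m K t = (p : ℝ) + 1 := by
          obtain ⟨a, ha⟩ := pa_int hint K t
          have h1 := hleU t ht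
          rw [ha] at h1 htp ⊢
          have h2 : p < a := by exact_mod_cast htp
          have h3 : a ≤ p + 1 := by exact_mod_cast h1
          have h4 : a = p + 1 := by omega
          rw [h4]
          push_cast
          ring
        rcases lt_or_ge (m {t}) (pa m K t) with hsh | hsh
        · -- a shared unit is dropped
          obtain ⟨D, hD, htD, hD2, hD1⟩ := exists_shared hint htK hsh
          have hpd := pa_drM (m := m) (K := K) hD
          obtain ⟨d, e, h1, h2, h3, h4⟩ := ih (U.erase t).card hlt (h.drM hD2 hD1)
            (drM_int hint hD1) hK (fun j hj => by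
              rw [drM_single hD2]
              exact hone j hj) (U := U.erase t) ((erase_subset _ _).trans hU)
            (fun j hj hjU => by
              rw [hpd]
              by_cases hjt : j = t
              · rw [hjt, if_pos htD, hpt]
                linarith
              · have := hle j hj fun h5 => hjU (mem_erase.2 ⟨hjt, h5⟩)
                split_ifs <;> linarith)
            (fun j hj => by
              rw [hpd]
              have := hleU j (mem_of_mem_erase hj)
              split_ifs <;> linarith) (s := s + 1) (by
              rw [pal_drM hD, hpal]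
              push_cast
              ring) rfl
          refine ⟨d + 1, e, by omega, fun _ => by omega, ?_, ?_⟩
          · intro c0 c hc hc0
            have h5 := h3 c0 c ((drM_empty hD2).trans hc) hc0
            rw [show s + 1 + d = s + (d + 1) by ring] at h5
            exact (mul_le_mul_of_nonneg_left (Ival_le_drM h hD2 hD1) (by positivity)).trans h5
          · rcases h4 with h4 | h4
            · exact Or.inl h4
            · right
              rw [po_drM hD] at h4
              have h5 : (1 : ℝ) ≤ ((D.card - 1 : ℕ) : ℝ) := by
                exact_mod_cast (by omega : 1 ≤ D.card - 1)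
              push_cast
              linarith
        · -- `t` is removed
          have hmt : (p : ℝ) + 1 ≤ m {t} := by rw [← hpt]; exact hsh
          have hK3 : 3 ≤ K.card := by
            by_contra hcon
            have hK2 : K.card = 2 := by omega
            rw [hK2] at hpal
            have h5 := pal_eq (m := m) (K := K)
            have h6 := pN_nonneg (K := K) h.1
            have h7 := h.1 ∅
            have h8 : m {t} ≤ ∑ j ∈ K, m {j} :=
              single_le_sum (f := fun j => m {j}) (fun j _ => h.1 {j}) htK
            have h9 : (0 : ℝ) ≤ s := Nat.cast_nonneg s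
            push_cast at hpal
            linarith
          have hKe : (K.erase t).card + 1 = K.card := card_erase_add_one htK
          have hKr : ((K.erase t).card : ℝ) = K.card - 1 := by
            have : (((K.erase t).card + 1 : ℕ) : ℝ) = K.card := by exact_mod_cast hKe
            push_cast at this
            linarith
          obtain ⟨d, e, h1, h2, h3, h4⟩ := ih (U.erase t).card hlt h hint
            (K := K.erase t) (by omega) (fun j hj => hone j (mem_of_mem_erase hj))
            (U := U.erase t) (erase_subset_erase t hU)
            (fun j hj hjU => by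
              rw [mem_erase] at hj
              exact (pa_erase_le h.1 t j).trans (hle j hj.2 fun h5 =>
                hjU (mem_erase.2 ⟨hj.1, h5⟩)))
            (fun j hj => (pa_erase_le h.1 t j).trans (hleU j (mem_of_mem_erase hj)))
            (s := s + 1) (by
              rw [pal_erase t, hpal, hpt, hKr]
              push_cast
              ring) rfl
          refine ⟨d + 1, e - 1, by omega, fun _ => by omega, ?_, ?_⟩
          · intro c0 c hc hc0
            have h5 := h3 c0 c hc hc0
            rw [show s + 1 + d = s + (d + 1) by ring] at h5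
            have h6 : ((p : ℝ) + 1) * Ival m K ≤ Ival m (K.erase t) :=
              (mul_le_mul_of_nonneg_right hmt (Ival_pos h K).le).trans (mul_Ival_le_erase h htK)
            have hpw : (p : ℝ) ^ (K.card - 2) = p * p ^ ((K.erase t).card - 2) := by
              rw [← pow_succ']
              congr 1
              omega
            have hR := rhoG_nonneg hp hL c0 (s + (d + 1))
            have hH1 := H_ge_one hp hH hHq
            have h7 : H ^ (e - (c - c0)) ≤ H * H ^ (e - 1 - (c - c0)) := by
              rw [← pow_succ']
              exact pow_le_pow_right₀ hH1 (by omega)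
            have h8 : H * p ≤ p + 1 := by
              have h9 := Hs1 hp hH hHq
              have h10 := mul_le_mul_of_nonneg_right h9 hp0.le
              refine h10.trans ?_
              rw [div_mul_eq_mul_div, div_le_iff₀ (by positivity)]
              nlinarith
            have h9 : ((p : ℝ) + 1) * ((p : ℝ) ^ (K.card - 2) * Ival m K) ≤
                (p + 1) * (rhoG L p c0 (s + (d + 1)) * H ^ (e - 1 - (c - c0))) := by
              calc ((p : ℝ) + 1) * ((p : ℝ) ^ (K.card - 2) * Ival m K)
                  = p * (p ^ ((K.erase t).card - 2) * (((p : ℝ) + 1) * Ival m K)) := by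
                    rw [hpw]
                    ring
                _ ≤ p * (p ^ ((K.erase t).card - 2) * Ival m (K.erase t)) := by
                    refine mul_le_mul_of_nonneg_left ?_ hp0.le
                    exact mul_le_mul_of_nonneg_left h6 (by positivity)
                _ ≤ p * (rhoG L p c0 (s + (d + 1)) * H ^ (e - (c - c0))) :=
                    mul_le_mul_of_nonneg_left h5 hp0.le
                _ ≤ p * (rhoG L p c0 (s + (d + 1)) * (H * H ^ (e - 1 - (c - c0)))) := by
                    refine mul_le_mul_of_nonneg_left ?_ hp0.le
                    exact mul_le_mul_of_nonneg_left h7 hR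
                _ = (H * p) * (rhoG L p c0 (s + (d + 1)) * H ^ (e - 1 - (c - c0))) := by ring
                _ ≤ (p + 1) * (rhoG L p c0 (s + (d + 1)) * H ^ (e - 1 - (c - c0))) :=
                    mul_le_mul_of_nonneg_right h8 (by positivity)
            exact le_of_mul_le_mul_left h9 (by linarith)
          · rcases h4 with h4 | h4
            · left
              omega
            · rcases Nat.eq_zero_or_pos e with h5 | h5
              · left
                omega
              · right
                have h6 := po_mono h.1 (erase_subset t K)
                rw [Nat.cast_sub h5]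
                push_cast
                linarith

end MP76b19e.Rob
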