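import Mathlib

/-!
# One slot in the top level: the numerical inequality (problem MP_76b19e_co)

`nF1c`: the inequality used for one slot and a positive base.
-/

set_option autoImplicit false

namespace MP76b19e.Rob.NE1

/-- `R ≥ c + 2`, `p ≥ 4` -/
theorem nA {p w c R : ℝ} (hp : 4 ≤ p) (hc : 1 ≤ c) (hcw : c + 1 ≤ w) (hwR : w ≤ R)
    (hR : c + 2 ≤ R) :
    w + R - 1 + c / (w + 1) * (p + R - 1) + (3 * p - c) / 2 ≤ p * R := by
  have hw1 : 0 < w + 1 := by linarith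
  have h1 : c / (w + 1) * (p + R - 1) = c * (p + R - 1) / (w + 1) := by ring
  rw [h1]
  have hG1 : 0 ≤ 2 * R ^ 2 - 3 * R - 5 - c * (R + 5) / 2 := by nlinarith
  have hG2 : 0 ≤ R * (2 * c + 6) - 10 * c - 12 - c ^ 2 / 2 := by nlinarith
  -- the value for `p = 4`
  have hG : 0 ≤ (w + 1) * (3 * R - w - 5 + c / 2) - c * (R + 3) := by
    have hd : 0 < R - c - 1 := by linarith
    have e1 : (R - c - 1) * ((w + 1) * (3 * R - w - 5 + c / 2) - c * (R + 3)) =
        (R - c - 1) * ((w - c - 1) * (R - w)) +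
        (w - c - 1) * (2 * R ^ 2 - 3 * R - 5 - c * (R + 5) / 2) +
        (R - w) * (R * (2 * c + 6) - 10 * c - 12 - c ^ 2 / 2) := by ring
    have e2 : 0 ≤ (R - c - 1) * ((w + 1) * (3 * R - w - 5 + c / 2) - c * (R + 3)) := by
      rw [e1]
      have a1 := mul_nonneg (show 0 ≤ w - c - 1 by linarith) (show 0 ≤ R - w by linarith)
      have a2 := mul_nonneg hd.le a1
      have a3 := mul_nonneg (show 0 ≤ w - c - 1 by linarith) hG1
      have a4 := mul_nonneg (show 0 ≤ R - w by linarith) hG2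
      linarith
    exact nonneg_of_mul_nonneg_right e2 hd
  have hp' : 0 ≤ (p - 4) * ((R - 3 / 2) * (w + 1) - c) := by
    refine mul_nonneg (by linarith) ?_
    nlinarith
  have key : (w + R - 1 + (3 * p - c) / 2 - p * R) * (w + 1) + c * (p + R - 1) ≤ 0 := by
    nlinarith
  have h2 : c * (p + R - 1) / (w + 1) ≤ -(w + R - 1 + (3 * p - c) / 2 - p * R) := by
    rw [div_le_iff₀ hw1]
    linarith
  linarith

/-- the product of the overlaps -/
theorem nX {p D O : ℝ} (hD : 0 ≤ D) (hO : 0 ≤ O) (hE : D + O ≤ p) :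
    D * (p + O) * (p + O - D) ≤ p ^ 2 * (D + O) := by
  have h1 : p ^ 2 * (D + O) - D * (p + O) * (p + O - D) =
      O * (p - D) ^ 2 + D * (p * D - O ^ 2) := by ring
  have h2 : O * O ≤ O * (p - D) := mul_le_mul_of_nonneg_left (by linarith) hO
  have h3 : 0 ≤ O * (p - D) ^ 2 + D * (p * D - O ^ 2) := by
    rcases le_total (2 * D) p with h | h
    · have h4 : O * O * (p - D) ≤ O * (p - D) * (p - D) :=
        mul_le_mul_of_nonneg_right h2 (by linarith)
      have h5 : 0 ≤ O ^ 2 * (p - 2 * D) := mul_nonneg (sq_nonneg O) (by linarith)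
      have h6 : 0 ≤ p * D ^ 2 := mul_nonneg (by linarith) (sq_nonneg D)
      nlinarith
    · have h4 : O ≤ D := by linarith
      have h5 : O ^ 2 ≤ p * D := by nlinarith
      have h6 : 0 ≤ D * (p * D - O ^ 2) := mul_nonneg hD (by linarith)
      have h7 : 0 ≤ O * (p - D) ^ 2 := mul_nonneg hO (sq_nonneg _)
      linarith
  linarith

/-- `R < c + 2`: the crude bound is enough -/
theorem nB {p c R : ℝ} (hc : 1 ≤ c) (hp : 5 ≤ p ∨ (4 ≤ p ∧ 2 ≤ c)) (hcR : c + 1 ≤ R)
    (hR : R ≤ c + 2) :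
    (R - 1) * (3 + 2 * p / (c + 2) + (p - c) / (2 * (c + 1))) ≤ p * R := by
  have h1 : 3 + 2 * p / (c + 2) + (p - c) / (2 * (c + 1)) =
      (6 * (c + 1) * (c + 2) + 4 * p * (c + 1) + (p - c) * (c + 2)) / (2 * (c + 1) * (c + 2)) := by
    field_simp
    ring
  rw [h1, ← mul_div_assoc, div_le_iff₀ (by positivity)]
  set N := 6 * (c + 1) * (c + 2) + 4 * p * (c + 1) + (p - c) * (c + 2) with hN
  -- the two endpoints
  have e1 : c * N ≤ p * (c + 1) * (2 * (c + 1) * (c + 2)) := by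
    have h2 : 0 ≤ c ^ 3 + 3 / 2 * c ^ 2 + 2 * c + 2 := by positivity
    have h3 : 5 / 2 * c ^ 3 + 8 * c ^ 2 + 6 * c ≤ p * (c ^ 3 + 3 / 2 * c ^ 2 + 2 * c + 2) := by
      rcases hp with h4 | ⟨h4, h5⟩
      · have h5 := mul_le_mul_of_nonneg_right h4 h2
        nlinarith [mul_nonneg (show 0 ≤ c by linarith) (sq_nonneg (c - 1)), sq_nonneg c]
      · have h6 := mul_le_mul_of_nonneg_right h4 h2
        nlinarith [mul_nonneg (show 0 ≤ c by linarith) (sq_nonneg (c - 1)), sq_nonneg c]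
    nlinarith
  have e2 : (c + 1) * N ≤ p * (c + 2) * (2 * (c + 1) * (c + 2)) := by
    have h2 : 0 ≤ c ^ 2 + 3 / 2 * c + 1 := by positivity
    have h3 : 5 / 2 * c ^ 2 + 8 * c + 6 ≤ p * (c ^ 2 + 3 / 2 * c + 1) := by
      rcases hp with h4 | ⟨h4, h5⟩
      · have h5 := mul_le_mul_of_nonneg_right h4 h2
        nlinarith
      · have h6 := mul_le_mul_of_nonneg_right h4 h2
        nlinarith
    have h4 : N ≤ p * (c + 2) * (2 * (c + 2)) := by nlinarith
    have h5 := mul_le_mul_of_nonneg_left h4 (show 0 ≤ c + 1 by linarith)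
    linarith
  -- linear in `R`
  have h3 := mul_le_mul_of_nonneg_left e1 (show 0 ≤ c + 2 - R by linarith)
  have h4 := mul_le_mul_of_nonneg_left e2 (show 0 ≤ R - (c + 1) by linarith)
  have h5 : (R - 1) * N = (c + 2 - R) * (c * N) + (R - (c + 1)) * ((c + 1) * N) := by ring
  have h6 : p * R * (2 * (c + 1) * (c + 2)) = (c + 2 - R) * (p * (c + 1) * (2 * (c + 1) * (c + 2))) +
      (R - (c + 1)) * (p * (c + 2) * (2 * (c + 1) * (c + 2))) := by ring
  rw [h5, h6]
  linarith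

/-- `R ≥ c + 2`, `p ≥ 4`: the inequality -/
theorem nGA {p w c D O h R th g : ℝ} (hp : 4 ≤ p) (hc : 1 ≤ c) (hcw : c + 1 ≤ w) (hwp : w ≤ p)
    (hD : 0 ≤ D) (hDp : D ≤ p) (hO : 0 ≤ O) (hh : 0 ≤ h) (hwR : w ≤ R) (hR : c + 2 ≤ R)
    (hER : D + O + 1 ≤ R) (hhR : D + h + O ≤ R) (ht1 : th ≤ 1) (hg0 : 0 ≤ g)
    (hg1 : g ≤ 1 / 2) (hgp : g * p ≤ (p - c) / 2) :
    2 * D + th * (w + (1 + c / (w + 1)) * (p - D + O) + g * (p + h - w + c)) ≤ p * R := by
  have hk0 : 0 ≤ c / (w + 1) := div_nonneg (by linarith) (by linarith)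
  set k := c / (w + 1) with hk
  have hA := nA hp hc hcw hwR hR
  rw [← hk] at hA
  have h1 : 0 ≤ w + (1 + k) * (p - D + O) + g * (p + h - w + c) := by
    have h2 : 0 ≤ (1 + k) * (p - D + O) := mul_nonneg (by linarith) (by linarith)
    have h3 : 0 ≤ g * (p + h - w + c) := mul_nonneg hg0 (by linarith)
    linarith
  have h2 : th * (w + (1 + k) * (p - D + O) + g * (p + h - w + c)) ≤
      w + (1 + k) * (p - D + O) + g * (p + h - w + c) := by nlinarith
  have h3 : g * (p + h - w + c) ≤ g * (p + (R - (D + O)) - w + c) :=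
    mul_le_mul_of_nonneg_left (by linarith) hg0
  have h4 : 0 ≤ k * D := mul_nonneg hk0 hD
  have h5 : 0 ≤ (1 + k - g) * (R - 1 - (D + O)) := mul_nonneg (by linarith) (by linarith)
  have h6 : 0 ≤ g * (w - c - 1) := mul_nonneg hg0 (by linarith)
  nlinarith

/-- `R ≤ c + 2`, `w = c + 1` -/
theorem nGB {p c D O h R th g : ℝ} (hp : 5 ≤ p ∨ (4 ≤ p ∧ 2 ≤ c)) (hc : 1 ≤ c) (hcp : c + 1 ≤ p)
    (hD : 0 ≤ D) (hO : 0 ≤ O) (hh : 0 ≤ h) (hcR : c + 1 ≤ R) (hR : R ≤ c + 2)
    (hER : D + O + 1 ≤ R) (hhR : D + h + O ≤ R) (ht0 : 0 ≤ th)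
    (htx : th * (1 + c) ≤ D * (1 + O / p)) (hg0 : 0 ≤ g) (hgp : g * p ≤ (p - c) / 2) :
    2 * D + th * (c + 1 + (1 + c / (c + 1 + 1)) * (p - D + O) + g * (p + h - (c + 1) + c)) ≤
      p * R := by
  have hp4 : 4 ≤ p := by rcases hp with h1 | ⟨h1, _⟩ <;> linarith
  have hp0 : 0 < p := by linarith
  have hEp : D + O ≤ p := by linarith
  have hE0 : 0 ≤ D + O := add_nonneg hD hO
  have hx := nX hD hO hEp
  -- `y = D (1 + O / p)`
  set y := D * (1 + O / p) with hy
  have hyp : y * p = D * (p + O) := by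
    rw [hy]
    field_simp
  have hyE : y ≤ D + O := by
    have h1 : D * O ≤ p * O := mul_le_mul_of_nonneg_right (by linarith) hO
    have h2 : y * p ≤ (D + O) * p := by
      rw [hyp]
      linarith
    exact le_of_mul_le_mul_right h2 hp0
  have hyx : y * (p - D + O) ≤ p * (D + O) := by
    have h1 : p * (y * (p - D + O)) ≤ p * (p * (D + O)) := by
      calc p * (y * (p - D + O)) = (y * p) * (p + O - D) := by ring
        _ = D * (p + O) * (p + O - D) := by rw [hyp]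
        _ ≤ p ^ 2 * (D + O) := hx
        _ = _ := by ring
    exact le_of_mul_le_mul_left h1 hp0
  have hc1 : 0 < 1 + c := by linarith
  have hth : th ≤ y / (1 + c) := by
    rw [le_div_iff₀ hc1]
    exact htx
  have hBk : 0 ≤ c + 1 + (1 + c / (c + 1 + 1)) * (p - D + O) + g * (p + h - (c + 1) + c) := by
    have h2 : 0 ≤ (1 + c / (c + 1 + 1)) * (p - D + O) :=
      mul_nonneg (by positivity) (by linarith)
    have h3 : 0 ≤ g * (p + h - (c + 1) + c) := mul_nonneg hg0 (by linarith)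
    linarith
  have h1 := mul_le_mul_of_nonneg_right hth hBk
  have h2 : y / (1 + c) * (c + 1 + (1 + c / (c + 1 + 1)) * (p - D + O) +
      g * (p + h - (c + 1) + c)) = y + 2 / (c + 2) * (y * (p - D + O)) +
      y / (1 + c) * (g * (p + h - 1)) := by
    field_simp
    ring
  rw [h2] at h1
  have h3 : 2 / (c + 2) * (y * (p - D + O)) ≤ 2 / (c + 2) * (p * (D + O)) :=
    mul_le_mul_of_nonneg_left hyx (by positivity)
  have h4 : y / (1 + c) * (g * (p + h - 1)) ≤ (D + O) / (1 + c) * (g * (p + (R - (D + O)) - 1)) := by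
    refine mul_le_mul (div_le_div_of_nonneg_right hyE hc1.le) ?_ ?_ ?_
    · exact mul_le_mul_of_nonneg_left (by linarith) hg0
    · exact mul_nonneg hg0 (by linarith)
    · exact div_nonneg hE0 hc1.le
  -- the function of `E = D + O`
  set E := D + O with hE
  have h5 : E / (1 + c) * (g * (p + (R - E) - 1)) ≤ (R - 1) / (1 + c) * (g * p) := by
    have h6 : E * (p + (R - E) - 1) ≤ (R - 1) * p := by nlinarith
    have h7 := mul_le_mul_of_nonneg_left h6 (div_nonneg hg0 hc1.le)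
    calc E / (1 + c) * (g * (p + (R - E) - 1)) = g / (1 + c) * (E * (p + (R - E) - 1)) := by ring
      _ ≤ g / (1 + c) * ((R - 1) * p) := h7
      _ = _ := by ring
  have h6 : (R - 1) / (1 + c) * (g * p) ≤ (R - 1) / (1 + c) * ((p - c) / 2) :=
    mul_le_mul_of_nonneg_left hgp (div_nonneg (by linarith) hc1.le)
  have h7 : 2 / (c + 2) * (p * E) ≤ 2 / (c + 2) * (p * (R - 1)) :=
    mul_le_mul_of_nonneg_left (mul_le_mul_of_nonneg_left (by linarith) hp0.le) (by positivity)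
  have hB := nB hc hp hcR hR
  have h8 : (R - 1) * (3 + 2 * p / (c + 2) + (p - c) / (2 * (c + 1))) =
      3 * (R - 1) + 2 / (c + 2) * (p * (R - 1)) + (R - 1) / (1 + c) * ((p - c) / 2) := by
    field_simp
    ring
  rw [h8] at hB
  linarith

/-- `p = 4`, `w = 2`, `c = 1`, `R ≤ 3` -/
theorem n42 {D O h R th g : ℝ}
    (hD : 0 ≤ D) (hO : 0 ≤ O) (hh : 0 ≤ h) (hR2 : 2 ≤ R) (hR : R ≤ 3)
    (hER : D + O + 1 ≤ R) (hhR : D + h + O ≤ R) (ht0 : 0 ≤ th)
    (htx : th * (1 + 1) ≤ D * (1 + O / 4)) (hg : g ≤ 2 / 9) (hg0 : 0 ≤ g) :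
    2 * D + th * (2 + (1 + 1 / (2 + 1)) * (4 - D + O) + g * (4 + h - 2 + 1)) ≤ 4 * R := by
  have hE : D + O ≤ 2 := by linarith
  have h1 : D * (1 + O / 4) ≤ D + O := by nlinarith
  have hth : th ≤ (D + O) / 2 := by linarith
  have h2 : g * (4 + h - 2 + 1) ≤ 2 / 9 * (4 + (R - (D + O)) - 2 + 1) := by
    have h3 : g * (4 + h - 2 + 1) ≤ 2 / 9 * (4 + h - 2 + 1) :=
      mul_le_mul_of_nonneg_right hg (by linarith)
    linarith
  have h3 : 0 ≤ 2 + (1 + 1 / (2 + 1)) * (4 - D + O) + g * (4 + h - 2 + 1) := by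
    have : 0 ≤ g * (4 + h - 2 + 1) := mul_nonneg hg0 (by linarith)
    have h4 : (0:ℝ) ≤ (1 + 1 / (2 + 1)) * (4 - D + O) := mul_nonneg (by norm_num) (by linarith)
    linarith
  have h4 := mul_le_mul_of_nonneg_right hth h3
  have h5 : (D + O) / 2 * (2 + (1 + 1 / (2 + 1)) * (4 - D + O) + g * (4 + h - 2 + 1)) ≤
      (D + O) / 2 * (2 + (1 + 1 / (2 + 1)) * (4 - D + O) + 2 / 9 * (4 + (R - (D + O)) - 2 + 1)) :=
    mul_le_mul_of_nonneg_left (by linarith) (by linarith)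
  nlinarith [mul_nonneg hD hO, mul_nonneg hD (show 0 ≤ 2 - (D + O) by linarith),
    mul_nonneg hO (show 0 ≤ 2 - (D + O) by linarith)]

/-- `p = 3`, `w = 3`, `c = 2` -/
theorem n332 {D O R th : ℝ}
    (hD : 0 ≤ D) (hDp : D ≤ 3) (hO : 0 ≤ O) (hR3 : 3 ≤ R)
    (hER : D + O + 1 ≤ R) (ht0 : 0 ≤ th) (ht1 : th ≤ 1)
    (htx : th * (1 + 2) ≤ D * (1 + O / 3)) :
    2 * D + th * (3 + (1 + 2 / (3 + 1)) * (3 - D + O)) ≤ 3 * R := by
  have h3 : 0 ≤ 3 + (1 + 2 / (3 + 1)) * (3 - D + O) := by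
    have h4 : (0:ℝ) ≤ (1 + 2 / (3 + 1)) * (3 - D + O) := mul_nonneg (by norm_num) (by linarith)
    linarith
  rcases le_total 3 (D + O) with hE | hE
  · have h1 := mul_le_mul_of_nonneg_right ht1 h3
    linarith
  · have h1 : D * (1 + O / 3) ≤ D + O := by nlinarith
    have hth : th ≤ (D + O) / 3 := by linarith
    have h2 := mul_le_mul_of_nonneg_right hth h3
    rcases le_total (D + O) 2 with hE2 | hE2
    · nlinarith [mul_nonneg hD hO, mul_nonneg hD (show 0 ≤ 2 - (D + O) by linarith),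
        mul_nonneg hO (show 0 ≤ 2 - (D + O) by linarith)]
    · nlinarith [mul_nonneg hD hO, mul_nonneg hD (show 0 ≤ (D + O) - 2 by linarith),
        mul_nonneg (show 0 ≤ 3 - (D + O) by linarith) (show 0 ≤ (D + O) - 2 by linarith)]

/-- `p = 3`, `w = 3`, `c = 1` -/
theorem n331 {D O h R th g : ℝ}
    (hD : 0 ≤ D) (hDp : D ≤ 3) (hO : 0 ≤ O) (hh : 0 ≤ h) (hR3 : 3 ≤ R)
    (hER : D + O + 1 ≤ R) (hhR : D + h + O ≤ R) (ht0 : 0 ≤ th) (ht1 : th ≤ 1)
    (htx : th * (1 + 1) ≤ D * (1 + O / 3)) (hg : g ≤ 1 / 4) (hg0 : 0 ≤ g) :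
    2 * D + th * (3 + (1 + 1 / (3 + 1)) * (3 - D + O) + g * (3 + h - 3 + 1)) ≤ 3 * R := by
  have h2 : g * (3 + h - 3 + 1) ≤ 1 / 4 * (3 + (R - (D + O)) - 3 + 1) := by
    have h3 : g * (3 + h - 3 + 1) ≤ 1 / 4 * (3 + h - 3 + 1) :=
      mul_le_mul_of_nonneg_right hg (by linarith)
    linarith
  have hB : 3 + (1 + 1 / (3 + 1)) * (3 - D + O) + g * (3 + h - 3 + 1) ≤
      7 - 3 / 2 * D + O + R / 4 := by linarith
  have hB0 : 0 ≤ 3 + (1 + 1 / (3 + 1)) * (3 - D + O) + g * (3 + h - 3 + 1) := by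
    have : 0 ≤ g * (3 + h - 3 + 1) := mul_nonneg hg0 (by linarith)
    have h4 : (0:ℝ) ≤ (1 + 1 / (3 + 1)) * (3 - D + O) := mul_nonneg (by norm_num) (by linarith)
    linarith
  have hB' : 0 ≤ 7 - 3 / 2 * D + O + R / 4 := hB0.trans hB
  have h4 := mul_le_mul_of_nonneg_left hB ht0
  refine (add_le_add le_rfl h4).trans ?_
  rcases le_total 17 (9 * D + 7 * O) with hE | hE
  · have h1 := mul_le_mul_of_nonneg_right ht1 hB'
    linarith
  · have h1 : D * (1 + O / 3) ≤ D + 2 / 3 * O := by nlinarith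
    have hth : th ≤ (D + 2 / 3 * O) / 2 := by linarith
    have h5 := mul_le_mul_of_nonneg_right hth hB'
    have h6 : th * (7 - 3 / 2 * D + O + R / 4) ≤
      (D + 2 / 3 * O) / 2 * (7 - 3 / 2 * D + O + R / 4) := h5
    have hDO : D + 2 / 3 * O ≤ 2 := by linarith
    rcases le_total (D + O) 2 with hE2 | hE2
    · have h7 : 2 * D + (D + 2 / 3 * O) / 2 * (7 - 3 / 2 * D + O + 3 / 4) ≤ 9 := by
        nlinarith [mul_nonneg hD hO, mul_nonneg hD (show 0 ≤ 2 - (D + O) by linarith),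
          mul_nonneg hO (show 0 ≤ 2 - (D + O) by linarith), mul_nonneg hD (show 0 ≤ 17 - 9 * D - 7 * O by linarith), mul_nonneg hO (show 0 ≤ 17 - 9 * D - 7 * O by linarith)]
      nlinarith
    · have h7 : 2 * D + (D + 2 / 3 * O) / 2 * (7 - 3 / 2 * D + O + (D + O + 1) / 4) ≤
          3 * (D + O + 1) := by
        nlinarith [mul_nonneg hD hO, mul_nonneg hD (show 0 ≤ (D + O) - 2 by linarith),
          mul_nonneg hO (show 0 ≤ (D + O) - 2 by linarith), mul_nonneg hD (show 0 ≤ 17 - 9 * D - 7 * O by linarith), mul_nonneg hO (show 0 ≤ 17 - 9 * D - 7 * O by linarith)]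
      nlinarith

/-- `p = 3`, `w = 2`, `c = 1` -/
theorem n321 {D O h R th g : ℝ}
    (hD : 0 ≤ D) (hDp : D ≤ 3) (hO : 0 ≤ O) (hh : 0 ≤ h) (hR3 : 2 ≤ R)
    (hER : D + O + 1 ≤ R) (hhR : D + h + O ≤ R) (ht0 : 0 ≤ th) (ht1 : th ≤ 1)
    (htx : th * (1 + 1) ≤ D * (1 + O / 3)) (hg : g ≤ 1 / 5) (hg0 : 0 ≤ g) :
    2 * D + th * (2 + (1 + 1 / (2 + 1)) * (3 - D + O) + g * (3 + h - 2 + 1)) ≤ 3 * R := by
  have h2 : g * (3 + h - 2 + 1) ≤ 1 / 5 * (3 + (R - (D + O)) - 2 + 1) := by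
    have h3 : g * (3 + h - 2 + 1) ≤ 1 / 5 * (3 + h - 2 + 1) :=
      mul_le_mul_of_nonneg_right hg (by linarith)
    linarith
  have hB : 2 + (1 + 1 / (2 + 1)) * (3 - D + O) + g * (3 + h - 2 + 1) ≤
      32 / 5 - 23 / 15 * D + 17 / 15 * O + R / 5 := by linarith
  have hB0 : 0 ≤ 2 + (1 + 1 / (2 + 1)) * (3 - D + O) + g * (3 + h - 2 + 1) := by
    have : 0 ≤ g * (3 + h - 2 + 1) := mul_nonneg hg0 (by linarith)
    have h4 : (0:ℝ) ≤ (1 + 1 / (2 + 1)) * (3 - D + O) := mul_nonneg (by norm_num) (by linarith)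
    linarith
  have hB' : 0 ≤ 32 / 5 - 23 / 15 * D + 17 / 15 * O + R / 5 := hB0.trans hB
  have h4 := mul_le_mul_of_nonneg_left hB ht0
  refine (add_le_add le_rfl h4).trans ?_
  rcases le_total 54 (35 * D + 25 * O) with hE | hE
  · have h1 := mul_le_mul_of_nonneg_right ht1 hB'
    linarith
  · have h1 : D * (1 + O / 3) ≤ D + 11 / 20 * O := by nlinarith
    have hth : th ≤ (D + 11 / 20 * O) / 2 := by linarith
    have h5 := mul_le_mul_of_nonneg_right hth hB'
    have hDO : D + 11 / 20 * O ≤ 2 := by linarith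
    have h7 : 2 * D + (D + 11 / 20 * O) / 2 * (32 / 5 - 23 / 15 * D + 17 / 15 * O +
        (D + O + 1) / 5) ≤ 3 * (D + O + 1) := by
      nlinarith [mul_nonneg hD hO, mul_nonneg hD (show 0 ≤ 54 - 35 * D - 25 * O by linarith),
        mul_nonneg hO (show 0 ≤ 54 - 35 * D - 25 * O by linarith)]
    nlinarith

/-- `p = 2`, `w = 2`, `c = 1` -/
theorem n221 {D O R th : ℝ}
    (hD : 0 ≤ D) (hD1 : D ≤ 1) (hO : 0 ≤ O)
    (hER : D + O + 1 ≤ R) (ht0 : 0 ≤ th) (ht1 : th ≤ 1)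
    (htx : th * (1 + 1) ≤ D * (1 + O / 2)) :
    2 * D + th * (2 + (1 + 1 / (2 + 1)) * (2 - D + O)) ≤ 2 * R := by
  have hB0 : (0:ℝ) ≤ 2 + (1 + 1 / (2 + 1)) * (2 - D + O) := by
    have h4 : (0:ℝ) ≤ (1 + 1 / (2 + 1)) * (2 - D + O) := mul_nonneg (by norm_num) (by linarith)
    linarith
  rcases le_total 4 (2 * D + O) with hE | hE
  · have h1 := mul_le_mul_of_nonneg_right ht1 hB0
    linarith
  · have hth : th ≤ D * (1 + O / 2) / 2 := by linarith
    have h5 := mul_le_mul_of_nonneg_right hth hB0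
    have key : D * (2 + O) * (7 + 2 * O - 2 * D) ≤ 12 * (1 + O) := by
      rcases le_total O 2 with h2 | h2
      · have h3 : D * (7 + 2 * O - 2 * D) ≤ 5 + 2 * O := by nlinarith
        have h4 : (2 + O) * (D * (7 + 2 * O - 2 * D)) ≤ (2 + O) * (5 + 2 * O) :=
          mul_le_mul_of_nonneg_left h3 (by linarith)
        nlinarith
      · have h3 : D * (7 + 2 * O - 2 * D) ≤ (4 - O) / 2 * (3 + 3 * O) := by nlinarith
        have h4 : (2 + O) * (D * (7 + 2 * O - 2 * D)) ≤ (2 + O) * ((4 - O) / 2 * (3 + 3 * O)) :=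
          mul_le_mul_of_nonneg_left h3 (by linarith)
        nlinarith [mul_nonneg hO (show 0 ≤ O - 2 by linarith), mul_nonneg (mul_nonneg hO hO) (show 0 ≤ O - 2 by linarith)]
    nlinarith

/-- the numerical inequality for one slot and a positive base -/
theorem nF1c {p w c : ℕ} (hp : 2 ≤ p) (hc : 1 ≤ c) (hcw : c + 1 ≤ w) (hwp : w ≤ p)
    {D O h R : ℝ} (hD : 0 ≤ D) (hDp : D ≤ p) (hp2 : p = 2 → D ≤ 1) (hO : 0 ≤ O) (hh : 1 ≤ h)
    (hwR : (w : ℝ) ≤ R) (hhR : D + h + O ≤ R) :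
    2 * D + min 1 (D * (1 + O / p) / (1 + c)) * (w + (1 + (c : ℝ) / (w + 1)) * (p - D + O) +
      (w : ℝ) / (w + p) * (((p : ℝ) - 1 - c) / (p - 1)) * (p + h - w + c)) ≤ p * R := by
  have hpr : (2 : ℝ) ≤ p := by exact_mod_cast hp
  have hcr : (1 : ℝ) ≤ c := by exact_mod_cast hc
  have hcwr : (c : ℝ) + 1 ≤ w := by exact_mod_cast hcw
  have hwpr : (w : ℝ) ≤ p := by exact_mod_cast hwp
  have hx0 : 0 ≤ D * (1 + O / p) := mul_nonneg hD (by positivity)
  have hc1 : (0 : ℝ) < 1 + c := by linarith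
  set th := min 1 (D * (1 + O / p) / (1 + c)) with hth
  have ht0 : 0 ≤ th := le_min zero_le_one (div_nonneg hx0 hc1.le)
  have ht1 : th ≤ 1 := min_le_left _ _
  have htx : th * (1 + c) ≤ D * (1 + O / p) := by
    rw [← le_div_iff₀ hc1]
    exact min_le_right _ _
  set g := (w : ℝ) / (w + p) * (((p : ℝ) - 1 - c) / (p - 1)) with hg
  have hg1 : (w : ℝ) / (w + p) ≤ 1 / 2 := by
    rw [div_le_div_iff₀ (by linarith) (by norm_num)]
    linarith
  have hg2 : (0 : ℝ) ≤ ((p : ℝ) - 1 - c) / (p - 1) := div_nonneg (by linarith) (by linarith)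
  have hg3 : ((p : ℝ) - 1 - c) / (p - 1) ≤ 1 := by
    rw [div_le_one (by linarith)]
    linarith
  have hgw : (0 : ℝ) ≤ (w : ℝ) / (w + p) := div_nonneg (by linarith) (by linarith)
  have hg0 : 0 ≤ g := mul_nonneg hgw hg2
  have hg4 : g ≤ 1 / 2 * (((p : ℝ) - 1 - c) / (p - 1)) := mul_le_mul_of_nonneg_right hg1 hg2
  have hgh : g ≤ 1 / 2 := by linarith
  have hgp : g * p ≤ (p - c) / 2 := by
    have h1 : ((p : ℝ) - 1 - c) / (p - 1) * p ≤ p - c := by
      rw [div_mul_eq_mul_div, div_le_iff₀ (by linarith)]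
      nlinarith
    have h2 := mul_le_mul_of_nonneg_right hg4 (show (0 : ℝ) ≤ p by linarith)
    linarith
  have hER : D + O + 1 ≤ R := by linarith
  rcases Nat.lt_or_ge p 4 with h4 | h4
  · have hcases : (p = 2 ∧ w = 2 ∧ c = 1) ∨ (p = 3 ∧ w = 2 ∧ c = 1) ∨ (p = 3 ∧ w = 3 ∧ c = 1) ∨
        (p = 3 ∧ w = 3 ∧ c = 2) := by omega
    rcases hcases with ⟨rfl, rfl, rfl⟩ | ⟨rfl, rfl, rfl⟩ | ⟨rfl, rfl, rfl⟩ | ⟨rfl, rfl, rfl⟩
    · have hg5 : g = 0 := by
        rw [hg]
        norm_num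
      rw [hg5]
      have h1 := n221 (R := R) hD (hp2 rfl) hO hER ht0 ht1 (by push_cast at htx; exact htx)
      push_cast
      linarith
    · have hg5 : g ≤ 1 / 5 := by
        rw [hg]
        norm_num
      have h1 := n321 (R := R) (h := h) (g := g) hD (by push_cast at hDp; exact hDp) hO
        (by linarith) (by push_cast at hwR; exact hwR) hER hhR ht0 ht1
        (by push_cast at htx; exact htx) hg5 hg0
      push_cast
      linarith
    · have hg5 : g ≤ 1 / 4 := by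
        rw [hg]
        norm_num
      have h1 := n331 (R := R) (h := h) (g := g) hD (by push_cast at hDp; exact hDp) hO
        (by linarith) (by push_cast at hwR; exact hwR) hER hhR ht0 ht1
        (by push_cast at htx; exact htx) hg5 hg0
      push_cast
      linarith
    · have hg5 : g = 0 := by
        rw [hg]
        norm_num
      rw [hg5]
      have h1 := n332 (R := R) hD (by push_cast at hDp; exact hDp) hO
        (by push_cast at hwR; exact hwR) hER ht0 ht1 (by push_cast at htx; exact htx)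
      push_cast
      linarith
  · have hp4 : (4 : ℝ) ≤ p := by exact_mod_cast h4
    rcases le_total ((c : ℝ) + 2) R with hR | hR
    · exact nGA hp4 hcr hcwr hwpr hD hDp hO (by linarith) hwR hR hER hhR ht1 hg0 hgh hgp
    · rcases hR.eq_or_lt with hR | hR
      · exact nGA hp4 hcr hcwr hwpr hD hDp hO (by linarith) hwR hR.ge hER hhR ht1 hg0 hgh hgp
      · have hw : w = c + 1 := by
          have h1 : (w : ℝ) < (c : ℝ) + 2 := by linarith
          have h2 : w < c + 2 := by exact_mod_cast h1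
          omega
        by_cases h5 : 5 ≤ p ∨ 2 ≤ c
        · have h6 : 5 ≤ (p : ℝ) ∨ (4 ≤ (p : ℝ) ∧ 2 ≤ (c : ℝ)) := by
            rcases h5 with h5 | h5
            · left
              exact_mod_cast h5
            · right
              exact ⟨hp4, by exact_mod_cast h5⟩
          have hwc : (w : ℝ) = (c : ℝ) + 1 := by
            rw [hw]
            push_cast
            ring
          have h1 := nGB (p := p) (c := c) (D := D) (O := O) (h := h) (R := R) (th := th) (g := g)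
            h6 hcr (by linarith) hD hO (by linarith) (by linarith) hR.le hER hhR ht0 htx hg0 hgp
          rw [hwc]
          exact h1
        · have hp4' : p = 4 := by omega
          have hc1' : c = 1 := by omega
          subst hc1'
          subst hp4'
          have hw2 : w = 2 := by omega
          subst hw2
          have hg5 : g ≤ 2 / 9 := by
            rw [hg]
            norm_num
          have h1 := n42 (R := R) (h := h) (g := g) hD hO (by linarith)
            (by push_cast at hwR; exact hwR) (by push_cast at hR; linarith) hER hhR ht0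
            (by push_cast at htx; exact htx) hg5 hg0
          push_cast
          linarith

end MP76b19e.Rob.NE1
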