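import Pool.Agent.Lib.MP76b19e.Rob.EB3
import Pool.Agent.Lib.MP76b19e.Rob.NumE1

/-!
# The final inequality of one low level, one slot in the top level (problem MP_76b19e_co)

`OL.facts1`: masses and colours for one slot. `OL.top1`: the inequality for the sets of tops.
-/

set_option autoImplicit false

open Finset

namespace MP76b19e.Rob

open NE1

section

variable {V : Type} [DecidableEq V] {m : Finset V → ℝ}

theorem pal_sing (m : Finset V → ℝ) (z : V) : pal m {z} = m {z} + m ∅ := by
  unfold pal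
  rw [show ({z} : Finset V).powerset = {∅, {z}} from rfl, sum_pair (singleton_ne_empty z).symm,
    add_comm]

theorem Ival_sing (m : Finset V → ℝ) (z : V) : Ival m {z} = 1 / (m {z} + m ∅) := by
  rw [Ival_pal m (singleton_nonempty z), sum_singleton, erase_singleton, Ival_empty, pal_sing]

theorem push_sing (m : Finset V → ℝ) (z u : V) : push m {z} {u} = m {u} + m {u, z} := by
  unfold push
  rw [show ({z} : Finset V).powerset = {∅, {z}} from rfl, sum_pair (singleton_ne_empty z).symm,
    union_empty]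
  rfl

/-- two elements -/
theorem Ival_pair (m : Finset V → ℝ) {z u : V} (huz : u ≠ z) :
    Ival m {u, z} = (1 / (m {z} + m ∅) + 1 / (m {u} + m ∅)) /
      (m {z} + m ∅ + push m {z} {u}) := by
  have h1 : pal m {u, z} = m {z} + m ∅ + push m {z} {u} := by
    have h2 : pal (push m {z}) {u} = pal m ({u} ∪ {z}) :=
      pal_push (disjoint_singleton.2 huz)
    rw [pal_sing, push_base, pal_sing] at h2
    have h3 : ({u} ∪ {z} : Finset V) = {u, z} := rfl
    rw [h3] at h2
    linarith
  rw [Ival_pal m (insert_nonempty u {z}), h1, sum_pair huz]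
  have e1 : ({u, z} : Finset V).erase u = {z} := by
    rw [erase_insert]
    simpa using huz
  have e2 : ({u, z} : Finset V).erase z = {u} := by
    rw [pair_comm, erase_insert]
    simpa using huz.symm
  rw [e1, e2, Ival_sing, Ival_sing]

end

section

variable {V β : Type} [DecidableEq V] [DecidableEq β] [Fintype V] {F : SimpleGraph V}
  {W Y T0 L A S K : Finset V} {m : Finset V → ℝ} {M : V → Finset β} {B : Finset β}
  {c : Finset V → ℕ} {p q P νk t d : ℕ} {X O G D : ℝ}

/-- the masses seen by the other lows -/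
theorem OL.sum_pa_erase (h : OL F W Y T0 L A m M B c p q P νk t d X O G D) {u : V} (hu : u ∈ L) :
    ∑ v ∈ L.erase u, pa m (L ∪ A) v =
      pal m (L ∪ A) - (push m A {u} + pal m A) + pom (push m A) L u := by
  have h1 := sum_pa (m := push m A) (K := L)
  have h2 := pa_add_pom (m := push m A) hu
  have h3 := sum_erase_add L (fun v => pa (push m A) L v) hu
  have h4 : ∑ v ∈ L.erase u, pa m (L ∪ A) v = ∑ v ∈ L.erase u, pa (push m A) L v :=
    sum_congr rfl fun v hv => (pa_push m h.dL (disjoint_left.1 h.dL (mem_of_mem_erase hv))).symm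
  have h5 : pal (push m A) L = pal m (L ∪ A) := pal_push h.dL
  have h6 : push m A ∅ = pal m A := push_base m A
  rw [h4]
  linarith

/-- the facts for one slot -/
theorem OL.facts1 (h : OL F W Y T0 L A m M B c p q P νk 1 d X O G D) (hSA : S ⊆ A)
    (hSd : S.card = d) {z : V} (hz : A \ S = {z}) :
    (∑ u ∈ L, ((p : ℝ) - push m A {u}) = push m S {z} + push m S ∅ + p - 1 - (X + G) +
      pN (push m A) L) ∧
    (∀ u ∈ L, D + pom (push m A) L u - (push m S {u} + push m S ∅) ≤
      (c (Y \ insert u S) : ℝ)) ∧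
    (D + ((P : ℝ) - p) + po (push m A) L - (push m S {z} + push m S ∅) ≤
      (c (Y \ insert z S) : ℝ)) ∧
    (1 + ((P : ℝ) - p) + (X + G) - 2 * ∑ v ∈ T0, ((M v).card : ℝ) + po (push m A) L +
      ∑ u ∈ L, (push m A {u} - push m S {u}) - push m S ∅ ≤
        (c (Y \ insert z S) : ℝ) + ∑ u ∈ L, (c (Y \ insert u S) : ℝ)) ∧
    (∑ u ∈ L, (push m A {u} - push m S {u}) ≤ P - push m S {z}) ∧
    (push m S {z} + push m S ∅ ≤ p) := by
  have hzA : z ∈ A := (mem_sdiff.1 (hz ▸ mem_singleton_self z)).1
  have hzS : z ∉ S := (mem_sdiff.1 (hz ▸ mem_singleton_self z)).2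
  have hzL : z ∉ L := disjoint_right.1 h.dL hzA
  have hTS : {z} ∪ S = A := by rw [← hz, sdiff_union_of_subset hSA]
  have hdzS : Disjoint ({z} : Finset V) S := disjoint_singleton_left.2 hzS
  have hLS : Disjoint L S := h.dL.mono_right hSA
  have hdLz : Disjoint L {z} := disjoint_singleton_right.2 hzL
  have hSU : S ⊆ L ∪ A := hSA.trans subset_union_right
  set m' := push m S with hm'
  have hp' : PosM m' := h.pos.push S
  set w := m' {z} + m' ∅ with hw
  set Om := po (push m A) L with hOm
  set om := pN (push m A) L with hom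
  set ΓM := ∑ v ∈ T0, ((M v).card : ℝ) with hΓM
  have hpalA : pal m A = w := by
    rw [← hTS, ← pal_push hdzS, pal_sing]
  have hpush : ∀ u, push m A {u} = push m' {z} {u} := fun u => by
    rw [hm', push_push m hdzS, hTS]
  have hLc : (L.card : ℝ) = (νk : ℝ) + 1 := by
    rw [h.Lc]
    push_cast
    ring
  have hpalU : pal m (L ∪ A) = (νk : ℝ) * p + 1 + X + G := by
    rw [h.palU]
    push_cast
    ring
  have hX0 := h.X0
  have hO0 := h.O0
  have hOG := h.OG
  rw [← hΓM] at hOG
  have hD1 := h.D1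
  have hΓM0 : 0 ≤ ΓM := sum_nonneg fun _ _ => Nat.cast_nonneg _
  have hsumL := sum_pa_low m h.dL
  rw [← hOm, hpalA] at hsumL
  have hs0 : ∀ u, 0 ≤ push m A {u} - m' {u} := by
    intro u
    rw [hpush]
    have := push_mono hp'.1 (empty_subset {z}) {u}
    rw [push_empty_set] at this
    linarith
  set s := ∑ u ∈ L, (push m A {u} - m' {u}) with hs
  -- the part of the top
  have hpaz : pa m' (L ∪ {z}) z = pa m (L ∪ A) z := by
    rw [hm', pa_push m (disjoint_union_left.2 ⟨hLS, hdzS⟩) hzS, union_assoc, hTS]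
  have hpaz1 : pa m' {z} z = m' {z} := by
    have h1 := pa_add_pom (m := m') (K := {z}) (mem_singleton_self z)
    have h2 : pom m' {z} z = 0 := by
      unfold pom
      refine sum_eq_zero fun E hE => ?_
      have h3 : (E.erase z).card - 1 = 0 := by
        have h4 := card_le_card (erase_subset_erase z (mem_powerset.1 hE))
        rw [erase_singleton, card_empty] at h4
        omega
      rw [h3, Nat.cast_zero, zero_mul]
    have h3 : po m' {z} = 0 := by
      unfold po
      refine sum_eq_zero fun E hE => ?_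
      have h3 : E.card - 1 = 0 := by
        have h4 := card_le_card (mem_powerset.1 hE)
        rw [card_singleton] at h4
        omega
      rw [h3, Nat.cast_zero, zero_mul]
    linarith
  have hsle : s ≤ pa m (L ∪ A) z - m' {z} := by
    have h1 := sum_shared_le (m := m') hp'.1 hdLz
    rw [sum_singleton, hpaz, hpaz1] at h1
    refine le_trans (le_of_eq ?_) h1
    exact sum_congr rfl fun u _ => by rw [hpush]
  have hMz := h.paA (mem_union_right L hzA)
  have hMz0 : (0 : ℝ) ≤ ((M z).card : ℝ) := Nat.cast_nonneg _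
  have hsumML : ∑ v ∈ L, ((M v).card : ℝ) ≤ w + p - 1 - (X + G) - Om := by
    have h1 : ∑ v ∈ L, ((M v).card : ℝ) ≤ ∑ v ∈ L, ((p : ℝ) - pa m (L ∪ A) v) :=
      sum_le_sum fun v hv => by linarith [h.paL hv]
    rw [sum_sub_distrib, sum_const, nsmul_eq_mul, hLc] at h1
    linarith
  have hdT0 : Disjoint T0 (L ∪ {z}) := h.dT.mono_right
    (union_subset_union_right (singleton_subset_iff.2 hzA))
  have hLK : L ∪ {z} = (L ∪ A) \ S := by
    rw [union_sdiff_distrib, sdiff_eq_self_of_disjoint hLS, hz]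
  -- the colours of the sets
  have hc1 : ∀ j ∈ L ∪ {z}, P ≤ c (Y \ insert j S) +
      ((T0 ∪ (L ∪ {z}).erase j).biUnion M).card := by
    intro j hj
    have h1 := h.c1T (L' := ∅) (K := L ∪ {z}) hSU hSd (by rw [empty_union, hLK])
      (disjoint_empty_left _) hj
    rwa [union_empty] at h1
  refine ⟨?_, ?_, ?_, ?_, ?_, ?_⟩
  · have h1 := sum_pa_sub m h.dL
    rw [sum_sub_distrib] at h1
    rw [sum_sub_distrib, sum_const, nsmul_eq_mul, hLc]
    linarith
  · intro u hu
    have huz : u ≠ z := fun h1 => hzL (h1 ▸ hu)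
    have h1 := hc1 u (mem_union_left _ hu)
    have e1 : (L ∪ {z}).erase u = L.erase u ∪ {z} := by
      rw [erase_union_distrib, erase_eq_of_notMem (s := {z}) (by simpa using huz)]
    rw [e1] at h1
    have h2 : ((T0 ∪ (L.erase u ∪ {z})).biUnion M).card ≤
        ∑ v ∈ T0, (M v).card + (∑ v ∈ L.erase u, (M v).card + (M z).card) := by
      refine card_biUnion_le.trans (le_of_eq ?_)
      rw [sum_union (hdT0.mono_right (union_subset_union_left (erase_subset _ _))),
        sum_union (hdLz.mono_left (erase_subset _ _)), sum_singleton]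
    have h3 : (P : ℝ) ≤ (c (Y \ insert u S) : ℝ) + (ΓM +
        (∑ v ∈ L.erase u, ((M v).card : ℝ) + (M z).card)) := by
      rw [hΓM]
      have h4 : P ≤ c (Y \ insert u S) + (∑ v ∈ T0, (M v).card +
        (∑ v ∈ L.erase u, (M v).card + (M z).card)) := by omega
      exact_mod_cast h4
    have h4 : ∑ v ∈ L.erase u, ((M v).card : ℝ) ≤
        ∑ v ∈ L.erase u, ((p : ℝ) - pa m (L ∪ A) v) :=
      sum_le_sum fun v hv => by linarith [h.paL (mem_of_mem_erase hv)]
    have h5 : ((L.erase u).card : ℝ) = νk := by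
      rw [card_erase_of_mem hu, h.Lc, Nat.add_sub_cancel]
    rw [sum_sub_distrib, sum_const, nsmul_eq_mul, h5, h.sum_pa_erase hu, hpalA, hpalU] at h4
    have h6 : push m A {u} - m' {u} ≤ s :=
      single_le_sum (f := fun u => push m A {u} - m' {u}) (fun v _ => hs0 v) hu
    linarith
  · have h1 := hc1 z (mem_union_right _ (mem_singleton_self z))
    have e1 : (L ∪ {z}).erase z = L := by
      rw [erase_union_distrib, erase_eq_of_notMem hzL, erase_singleton, union_empty]
    rw [e1] at h1
    have h2 : ((T0 ∪ L).biUnion M).card ≤ ∑ v ∈ T0, (M v).card + ∑ v ∈ L, (M v).card := by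
      refine card_biUnion_le.trans (le_of_eq ?_)
      rw [sum_union (hdT0.mono_right subset_union_left)]
    have h3 : (P : ℝ) ≤ (c (Y \ insert z S) : ℝ) + (ΓM + ∑ v ∈ L, ((M v).card : ℝ)) := by
      rw [hΓM]
      have h4 : P ≤ c (Y \ insert z S) + (∑ v ∈ T0, (M v).card + ∑ v ∈ L, (M v).card) := by omega
      exact_mod_cast h4
    linarith
  · have hK2 : 2 ≤ (L ∪ {z}).card := by
      rw [card_union_of_disjoint hdLz, card_singleton, h.Lc]
      have := h.ν1
      omega
    have h1 := sum_col (T := T0) (K := L ∪ {z}) (M := M) hK2 h.Bc h.MB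
      (c' := fun j => c (Y \ insert j S)) hc1
    rw [sum_union hdLz, sum_union hdLz, sum_singleton, sum_singleton] at h1
    have h2 : 2 * (P : ℝ) ≤ (∑ j ∈ L, (c (Y \ insert j S) : ℝ) + (c (Y \ insert z S) : ℝ)) +
        (∑ v ∈ L, ((M v).card : ℝ) + (M z).card) + 2 * ΓM := by
      rw [hΓM]
      exact_mod_cast h1
    linarith
  · linarith
  · have hext := h.ext
    rw [hpalA, hpalU] at hext
    linarith

end

/-! ### Numbers -/

/-- one low, no base -/
theorem t0_term {p w mu D o Fu β : ℝ} (hp : 0 < p) (hw : 0 < w) (hmu : 0 < mu) (hmp : mu ≤ p)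
    (hD : 0 ≤ D) (hDp : D ≤ p) (ho : 0 ≤ o) (hF : mu * Fu ≤ 1 / w)
    (hβ : D + o - mu ≤ β) :
    w * (D * ((1 + o / p) * (p * Fu - 1 / w))) ≤ (p - mu) + p * (β / mu) - β := by
  have h1 : D * (1 + o / p) ≤ mu + β := by
    have h2 : D * (o / p) ≤ o := by
      rw [mul_div_assoc', div_le_iff₀ hp]
      have := mul_le_mul_of_nonneg_right hDp ho
      linarith
    linarith
  have h0 : 0 ≤ D * (1 + o / p) := mul_nonneg hD (by positivity)
  have h2 : w * (p * Fu - 1 / w) ≤ (p - mu) / mu := by
    have h3 : w * (mu * Fu) ≤ 1 := by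
      have h4 := mul_le_mul_of_nonneg_left hF hw.le
      rwa [mul_one_div_cancel hw.ne'] at h4
    have h5 : w * (p * Fu - 1 / w) = p / mu * (w * (mu * Fu)) - 1 := by
      field_simp
    have h6 : p / mu * (w * (mu * Fu)) ≤ p / mu * 1 :=
      mul_le_mul_of_nonneg_left h3 (by positivity)
    have h7 : (p - mu) / mu = p / mu * 1 - 1 := by
      field_simp
    rw [h5, h7]
    linarith
  have h3 : 0 ≤ (p - mu) / mu := div_nonneg (by linarith) hmu.le
  calc w * (D * ((1 + o / p) * (p * Fu - 1 / w)))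
      = D * (1 + o / p) * (w * (p * Fu - 1 / w)) := by ring
    _ ≤ D * (1 + o / p) * ((p - mu) / mu) := mul_le_mul_of_nonneg_left h2 h0
    _ ≤ (mu + β) * ((p - mu) / mu) := mul_le_mul_of_nonneg_right h1 h3
    _ = _ := by
        field_simp
        ring

/-- the numbers of the case without base -/
theorem t0_num {p w h G ΓM D Om om s bz Bt Et : ℝ} (hp : 2 ≤ p) (hw : 1 ≤ w) (hwp : w ≤ p)
    (hh : 1 ≤ h) (hD1 : D ≤ 1 + G - ΓM) (hDp : D ≤ p) (homO : om ≤ Om)
    (hbz : 0 ≤ bz) (hBt : 0 ≤ Bt) (hEt : 0 ≤ Et)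
    (htot : 1 + h + G - 2 * ΓM + Om + s ≤ bz + Bt + Et) :
    D * (2 + (Om - om) / p) + (w + p - 1 - G + om + s) - Bt ≤
      p * w + p * bz + (w - 1) * Bt + w * Et := by
  have hp0 : 0 < p := by linarith
  have h1 : D * ((Om - om) / p) ≤ Om - om := by
    rw [mul_div_assoc', div_le_iff₀ hp0]
    have := mul_le_mul_of_nonneg_right hDp (show 0 ≤ Om - om by linarith)
    linarith
  set Θ := D * (2 + (Om - om) / p) + (w - 1 - G + om + s) - Bt with hΘ
  have he : Θ + h - w ≤ bz + Et := by
    rw [hΘ]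
    linarith
  have h0 : 0 ≤ (w - 1) * Bt := mul_nonneg (by linarith) hBt
  rcases le_total Θ (p * (w - 1)) with h2 | h2
  · have h3 : 0 ≤ p * bz := mul_nonneg hp0.le hbz
    have h4 : 0 ≤ w * Et := mul_nonneg (by linarith) hEt
    linarith
  · have h3 : w * (Θ + h - w) ≤ w * (bz + Et) := mul_le_mul_of_nonneg_left he (by linarith)
    have h4 : w * bz ≤ p * bz := mul_le_mul_of_nonneg_right hwp hbz
    have h5 : (w - 1) * (p * (w - 1)) ≤ (w - 1) * Θ := mul_le_mul_of_nonneg_left h2 (by linarith)
    have h6 : 0 ≤ w * (p * (w - 1) + h - w) := by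
      refine mul_nonneg (by linarith) ?_
      nlinarith
    nlinarith

/-- one low, with a base: the bound of `X` -/
theorem t1_X {p w mu su c V : ℝ} (hp : 2 ≤ p) (hw : 0 < w) (hmu : 1 ≤ mu) (hsu : 0 ≤ su)
    (hcp : mu + su ≤ p) (hc : 0 ≤ c) (hc1 : c ≤ p - 1) (hV : V = w + (mu + su)) :
    p * (w + (mu + c)) / V - (mu + c) ≤
      (p - (mu + su)) + c / (w + 1) * max 0 (p - (mu + su) - w) +
        w / (w + p) * ((p - 1 - c) / (p - 1)) * su := by
  have hV0 : 0 < V := by linarith
  have e1 : p * (w + (mu + c)) / V - (mu + c) =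
      (p - (mu + su)) + (c - su) * ((p - (mu + su) - w) / V) := by
    rw [hV]
    have : w + (mu + su) ≠ 0 := by linarith
    field_simp
    ring
  rw [e1]
  have hg0 : 0 ≤ (p - 1 - c) / (p - 1) := div_nonneg (by linarith) (by linarith)
  have hgw : 0 ≤ w / (w + p) := div_nonneg hw.le (by linarith)
  have hk0 : 0 ≤ c / (w + 1) := div_nonneg hc (by linarith)
  rcases le_total w (p - (mu + su)) with h1 | h1
  · have h2 : max 0 (p - (mu + su) - w) = p - (mu + su) - w := max_eq_right (by linarith)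
    rw [h2]
    have h3 : 0 ≤ (p - (mu + su) - w) / V := div_nonneg (by linarith) hV0.le
    have h4 : (c - su) * ((p - (mu + su) - w) / V) ≤ c * ((p - (mu + su) - w) / V) :=
      mul_le_mul_of_nonneg_right (by linarith) h3
    have h5 : c * ((p - (mu + su) - w) / V) ≤ c / (w + 1) * (p - (mu + su) - w) := by
      have h6 : (p - (mu + su) - w) / V ≤ (p - (mu + su) - w) / (w + 1) :=
        div_le_div_of_nonneg_left (by linarith) (by linarith) (by linarith)
      have h7 := mul_le_mul_of_nonneg_left h6 hc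
      calc _ ≤ _ := h7
        _ = _ := by ring
    have h6 : 0 ≤ w / (w + p) * ((p - 1 - c) / (p - 1)) * su :=
      mul_nonneg (mul_nonneg hgw hg0) hsu
    linarith
  · have h2 : 0 ≤ c / (w + 1) * max 0 (p - (mu + su) - w) := mul_nonneg hk0 (le_max_left _ _)
    have h3 : (c - su) * ((p - (mu + su) - w) / V) ≤
        w / (w + p) * ((p - 1 - c) / (p - 1)) * su := by
      have h4 : (c - su) * ((p - (mu + su) - w) / V) = (su - c) * ((w - (p - (mu + su))) / V) := by
        ring
      rw [h4]
      have h5 : 0 ≤ (w - (p - (mu + su))) / V := div_nonneg (by linarith) hV0.le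
      have h6 : (w - (p - (mu + su))) / V ≤ w / (w + p) := by
        rw [div_le_div_iff₀ hV0 (by linarith), hV]
        nlinarith
      have h7 : su - c ≤ (p - 1 - c) / (p - 1) * su := by
        rw [div_mul_eq_mul_div, le_div_iff₀ (by linarith)]
        nlinarith
      have h8 : 0 ≤ (p - 1 - c) / (p - 1) * su := mul_nonneg hg0 hsu
      calc (su - c) * ((w - (p - (mu + su))) / V)
          ≤ (p - 1 - c) / (p - 1) * su * ((w - (p - (mu + su))) / V) :=
            mul_le_mul_of_nonneg_right h7 h5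
        _ ≤ (p - 1 - c) / (p - 1) * su * (w / (w + p)) := mul_le_mul_of_nonneg_left h6 h8
        _ = _ := by ring
    linarith

/-- one low, with a base -/
theorem t1_term {p w mu su c D o Om Bu Fu β th : ℝ} (hp : 2 ≤ p) (hmu : 1 ≤ mu)
    (hsu : 0 ≤ su) (hc : 1 ≤ c) (hcw : c + 1 ≤ w) (hD : 0 ≤ D) (hDp : D ≤ p)
    (ho : 0 ≤ o) (hoO : o ≤ Om)
    (hF : Fu = (1 / w + 1 / (mu + c)) / (w + (mu + su)))
    (hB : p * (w + (mu + c)) / (w + (mu + su)) - (mu + c) ≤ Bu) (hB0 : 0 ≤ Bu)
    (hβ0 : 0 ≤ β) (hβ : D + o - (mu + c) ≤ β)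
    (hth : th = min 1 (D * (1 + Om / p) / (1 + c))) :
    w * (D * ((1 + o / p) * (p * Fu - 1 / w))) ≤ th * Bu + p * w * (β / (mu + c)) := by
  have hp0 : 0 < p := by linarith
  have hw0 : 0 < w := by linarith
  have hwu : 0 < mu + c := by linarith
  have hV : 0 < w + (mu + su) := by linarith
  set X := p * (w + (mu + c)) / (w + (mu + su)) - (mu + c) with hX
  have e1 : w * (p * Fu - 1 / w) = X / (mu + c) := by
    rw [hF, hX]
    field_simp
    ring
  set δ := D * (1 + o / p) with hδ
  have hδ0 : 0 ≤ δ := mul_nonneg hD (by positivity)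
  have hδ1 : δ ≤ D + o := by
    have h2 : D * (o / p) ≤ o := by
      rw [mul_div_assoc', div_le_iff₀ hp0]
      have := mul_le_mul_of_nonneg_right hDp ho
      linarith
    rw [hδ]
    linarith
  have hδ2 : δ ≤ D * (1 + Om / p) := by
    refine mul_le_mul_of_nonneg_left ?_ hD
    have := div_le_div_of_nonneg_right hoO hp0.le
    linarith
  have e2 : w * (D * ((1 + o / p) * (p * Fu - 1 / w))) = δ * (X / (mu + c)) := by
    rw [← e1, hδ]
    ring
  rw [e2]
  have hlast : 0 ≤ p * w * (β / (mu + c)) :=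
    mul_nonneg (mul_nonneg hp0.le hw0.le) (div_nonneg hβ0 hwu.le)
  rcases le_total δ (mu + c) with h1 | h1
  · have h2 : δ / (mu + c) ≤ th := by
      rw [hth]
      refine le_min ((div_le_one hwu).2 h1) ?_
      refine div_le_div₀ (hδ0.trans hδ2) hδ2 (by linarith) (by linarith)
    have h3 : 0 ≤ δ / (mu + c) := div_nonneg hδ0 hwu.le
    calc δ * (X / (mu + c)) = δ / (mu + c) * X := by ring
      _ ≤ δ / (mu + c) * Bu := mul_le_mul_of_nonneg_left hB h3
      _ ≤ th * Bu := mul_le_mul_of_nonneg_right h2 hB0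
      _ ≤ _ := by linarith
  · have h2 : th = 1 := by
      rw [hth]
      refine min_eq_left ?_
      rw [le_div_iff₀ (by linarith)]
      linarith
    have h3 : X ≤ p * w := by
      have h4 : p * (w + (mu + c)) / (w + (mu + su)) ≤ p * w := by
        rw [div_le_iff₀ hV]
        have h5 : w + (mu + c) ≤ w * (w + (mu + su)) := by nlinarith
        have h6 := mul_le_mul_of_nonneg_left h5 hp0.le
        linarith
      rw [hX]
      linarith
    have h4 : (δ - (mu + c)) * (X / (mu + c)) ≤ (δ - (mu + c)) * (p * w / (mu + c)) :=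
      mul_le_mul_of_nonneg_left (div_le_div_of_nonneg_right h3 hwu.le) (by linarith)
    have h5 : (δ - (mu + c)) * (p * w / (mu + c)) ≤ β * (p * w / (mu + c)) :=
      mul_le_mul_of_nonneg_right (by linarith) (by positivity)
    have h6 : δ * (X / (mu + c)) = X + (δ - (mu + c)) * (X / (mu + c)) := by
      field_simp
      ring
    rw [h2, h6]
    have h7 : β * (p * w / (mu + c)) = p * w * (β / (mu + c)) := by ring
    linarith

/-- at most one low has a large share -/
theorem sum_max_le {ι : Type*} [DecidableEq ι] (L : Finset ι) (y : ι → ℝ) {w Z : ℝ} (hw : 0 ≤ w)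
    (hy : ∀ u ∈ L, 0 ≤ y u) (hZ : 0 ≤ Z) (hs : ∑ u ∈ L, y u ≤ w + Z) :
    ∑ u ∈ L, max 0 (y u - w) ≤ Z := by
  by_cases hex : ∃ v ∈ L, w < y v
  · obtain ⟨v, hv, hvw⟩ := hex
    rw [← add_sum_erase L _ hv]
    rw [← add_sum_erase L _ hv] at hs
    have h1 : ∑ u ∈ L.erase v, max 0 (y u - w) ≤ ∑ u ∈ L.erase v, y u :=
      sum_le_sum fun u hu => max_le (hy u (mem_of_mem_erase hu)) (by linarith)
    have h2 : max 0 (y v - w) = y v - w := max_eq_right (by linarith)
    linarith
  · push Not at hex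
    refine le_trans (le_of_eq (sum_eq_zero fun u hu => max_eq_left ?_)) hZ
    linarith [hex u hu]

/-! ### The inequality -/

section

variable {V β : Type} [DecidableEq V] [DecidableEq β] [Fintype V] {F : SimpleGraph V}
  {W Y T0 L A S K : Finset V} {m : Finset V → ℝ} {M : V → Finset β} {B : Finset β}
  {c : Finset V → ℕ} {p q P νk t d : ℕ} {X O G D : ℝ}

/-- the inequality for the sets of tops, one slot -/
theorem OL.top1_aux (h : OL F W Y T0 L A m M B c p q P νk 1 d X O G D) (hSA : S ⊆ A)
    (hSd : S.card = d) : D * brkS m L A S p ≤ p * SK F W Y c S := by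
  classical
  have hpr : (2 : ℝ) ≤ p := by exact_mod_cast h.q2.trans h.qp
  have hPr : (p : ℝ) + 1 ≤ P := by exact_mod_cast h.pP
  have hp0 : (0 : ℝ) < p := by linarith
  obtain ⟨z, hz⟩ : ∃ z, A \ S = {z} := by
    rw [← card_eq_one, card_sdiff_of_subset hSA, h.Ac, hSd]
    omega
  have hzA : z ∈ A := (mem_sdiff.1 (hz ▸ mem_singleton_self z)).1
  have hzS : z ∉ S := (mem_sdiff.1 (hz ▸ mem_singleton_self z)).2
  have hzL : z ∉ L := disjoint_right.1 h.dL hzA
  have hTS : {z} ∪ S = A := by rw [← hz, sdiff_union_of_subset hSA]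
  have hdzS : Disjoint ({z} : Finset V) S := disjoint_singleton_left.2 hzS
  have hLS : Disjoint L S := h.dL.mono_right hSA
  have hSU : S ⊆ L ∪ A := hSA.trans subset_union_right
  obtain ⟨f1, f2, f3, f4, f5, f6⟩ := h.facts1 hSA hSd hz
  have hKU : L ∪ {z} ⊆ (L ∪ A) \ S := by
    rw [union_sdiff_distrib, sdiff_eq_self_of_disjoint hLS, hz]
  have hSK := h.SK_ge hSU hSd hKU
  rw [sum_union (disjoint_singleton_right.2 hzL), sum_singleton] at hSK
  rw [brkS_top h.dL hSA, hz]
  set m' := push m S with hm'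
  have hp' : PosM m' := h.pos.push S
  set cc := m' ∅ with hcc
  set w := m' {z} + cc with hw
  set Om := po (push m A) L with hOm
  set om := pN (push m A) L with hom
  set ΓM := ∑ v ∈ T0, ((M v).card : ℝ) with hΓM
  set s := ∑ u ∈ L, (push m A {u} - m' {u}) with hs
  set b : V → ℝ := fun u => (c (Y \ insert u S) : ℝ) with hb
  have hb0 : ∀ u, 0 ≤ b u := fun u => Nat.cast_nonneg _
  have hpA : ∀ D, 0 ≤ push m A D := push_nonneg h.pos.1 A
  have hcc0 : 0 ≤ cc := hp'.1 ∅
  have hpush : ∀ u, push m A {u} = push m' {z} {u} := fun u => by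
    rw [hm', push_push m hdzS, hTS]
  have hle : ∀ u, m {u} ≤ m' {u} := fun u => le_push h.pos.1 S {u}
  have hmu1 : ∀ u ∈ L, 1 ≤ m' {u} := fun u hu => (h.one (mem_union_left A hu)).trans (hle u)
  have hz1 : 1 ≤ m' {z} := (h.one (mem_union_right L hzA)).trans (hle z)
  have hw1 : 1 ≤ w := by linarith
  have hw0 : 0 < w := by linarith
  have hs0 : ∀ u, 0 ≤ push m A {u} - m' {u} := by
    intro u
    rw [hpush]
    have := le_push hp'.1 {z} {u}
    linarith
  have hcp : ∀ u ∈ L, push m A {u} ≤ p := by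
    intro u hu
    have h1 := le_pa hpA hu
    rw [pa_push m h.dL (disjoint_left.1 h.dL hu)] at h1
    have h2 := h.paL hu
    have h3 : (0 : ℝ) ≤ ((M u).card : ℝ) := Nat.cast_nonneg _
    linarith
  have hΓM0 : 0 ≤ ΓM := sum_nonneg fun _ _ => Nat.cast_nonneg _
  have hD0 := h.D0
  have hDp := h.Dp
  have hD1 := h.D1
  have hOG := h.OG
  rw [← hΓM] at hOG
  have hX0 := h.X0
  have hO0 := h.O0
  have hpt : pt (push m A) L = Om - om := by
    have := po_eq (m := push m A) (K := L)
    rw [← hOm, ← hom] at this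
    linarith
  have homO : om ≤ Om := pN_le_po hpA L
  have hom0 : 0 ≤ om := pN_nonneg hpA
  rw [hpt, Ival_sing]
  -- multiply by `w`
  refine le_of_mul_le_mul_left ?_ hw0
  have hlhs : w * (D * ((2 + (Om - om) / p) * (1 / w) +
      ∑ u ∈ L, (1 + pom (push m A) L u / p) * (p * Ival m' (insert u {z}) - 1 / w))) =
      D * (2 + (Om - om) / p) +
        ∑ u ∈ L, w * (D * ((1 + pom (push m A) L u / p) *
          (p * Ival m' (insert u {z}) - 1 / w))) := by
    rw [mul_add, mul_add, mul_sum, mul_sum]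
    congr 1
    field_simp
  rw [hlhs]
  have hrhs : p * w + p * b z + p * w * ∑ u ∈ L, b u / (m' {u} + cc) ≤
      w * (p * SK F W Y c S) := by
    have h1 : w * (p * (1 + (∑ u ∈ L, b u / (m' {u} + cc) + b z / w))) ≤
        w * (p * SK F W Y c S) :=
      mul_le_mul_of_nonneg_left (mul_le_mul_of_nonneg_left hSK hp0.le) hw0.le
    refine le_trans (le_of_eq ?_) h1
    field_simp
    ring
  refine le_trans ?_ hrhs
  rcases Nat.eq_zero_or_pos d with hd0 | hd0
  · -- no base
    have hS0 : S = ∅ := by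
      rw [← card_eq_zero, hSd, hd0]
    have hm'm : m' = m := by
      funext E
      rw [hm', hS0, push_empty_set]
    have hc0 : cc = 0 := by
      rw [hcc, hm'm, h.base]
    have hmup : ∀ u ∈ L, m' {u} ≤ p := fun u hu => by linarith [hcp u hu, hs0 u]
    set bt : V → ℝ := fun u => max 0 (D + pom (push m A) L u - m' {u}) with hbt
    have hbt0 : ∀ u, 0 ≤ bt u := fun u => le_max_left _ _
    have hbtb : ∀ u ∈ L, bt u ≤ b u := fun u hu => by
      refine max_le (hb0 u) ?_
      have h1 := f2 u hu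
      rw [hc0, add_zero] at h1
      exact h1
    have hterm : ∀ u ∈ L, w * (D * ((1 + pom (push m A) L u / p) *
        (p * Ival m' (insert u {z}) - 1 / w))) ≤
        ((p : ℝ) - push m A {u}) + (push m A {u} - m' {u}) + p * (bt u / m' {u}) - bt u := by
      intro u hu
      have huz : u ∉ ({z} : Finset V) := by
        rw [mem_singleton]
        exact fun h1 => hzL (h1 ▸ hu)
      have hmu : 0 < m' {u} := by linarith [hmu1 u hu]
      have hF : m' {u} * Ival m' (insert u {z}) ≤ 1 / w := by
        have h1 := mul_Ival_le_erase hp' (mem_insert_self u {z})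
        rwa [erase_insert huz, Ival_sing] at h1
      have h1 := t0_term hp0 hw0 hmu (hmup u hu) hD0 hDp (pom_nonneg hpA u) hF
        (le_max_right 0 (D + pom (push m A) L u - m' {u}))
      linarith
    have hsum := sum_le_sum hterm
    have hsum' : ∑ u ∈ L, (((p : ℝ) - push m A {u}) + (push m A {u} - m' {u}) +
        p * (bt u / m' {u}) - bt u) = (w + p - 1 - (X + G) + om) + s +
        p * ∑ u ∈ L, bt u / m' {u} - ∑ u ∈ L, bt u := by
      rw [sum_sub_distrib, sum_add_distrib, sum_add_distrib, f1, ← hs, mul_sum]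
    rw [hsum'] at hsum
    set Bt := ∑ u ∈ L, bt u with hBt
    set Et := ∑ u ∈ L, (b u - bt u) with hEt
    have hnum := t0_num (p := (p : ℝ)) (w := w) (h := (P : ℝ) - p) (G := X + G) (ΓM := ΓM) (D := D)
      (Om := Om) (om := om) (s := s) (bz := b z) (Bt := Bt) (Et := Et) hpr hw1 f6 (by linarith)
      (by linarith) hDp homO (hb0 z) (sum_nonneg fun u _ => hbt0 u)
      (sum_nonneg fun u hu => by linarith [hbtb u hu])
      (by
        have h1 : Bt + Et = ∑ u ∈ L, b u := by
          rw [hBt, hEt, ← sum_add_distrib]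
          exact sum_congr rfl fun u _ => by ring
        rw [hc0] at f4
        linarith)
    -- the reward of the lows
    have hrew : (w - 1) * Bt + w * Et + p * ∑ u ∈ L, bt u / m' {u} ≤
        p * w * ∑ u ∈ L, b u / (m' {u} + cc) := by
      rw [hBt, hEt, mul_sum, mul_sum, mul_sum, mul_sum, ← sum_add_distrib, ← sum_add_distrib]
      refine sum_le_sum fun u hu => ?_
      rw [hc0, add_zero]
      have hmu : 0 < m' {u} := by linarith [hmu1 u hu]
      have hR : 1 ≤ p / m' {u} := (one_le_div hmu).2 (hmup u hu)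
      have h1 : p * w * (b u / m' {u}) = p * (bt u / m' {u}) + (w - 1) * bt u * (p / m' {u}) +
          w * (b u - bt u) * (p / m' {u}) := by
        field_simp
        ring
      rw [h1]
      have h2 : (w - 1) * bt u * 1 ≤ (w - 1) * bt u * (p / m' {u}) :=
        mul_le_mul_of_nonneg_left hR (mul_nonneg (by linarith) (hbt0 u))
      have h3 : w * (b u - bt u) * 1 ≤ w * (b u - bt u) * (p / m' {u}) :=
        mul_le_mul_of_nonneg_left hR (mul_nonneg hw0.le (by linarith [hbtb u hu]))
      linarith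
    linarith
  · -- a base
    obtain ⟨i, hi⟩ : S.Nonempty := by
      rw [← card_pos, hSd]
      exact hd0
    have hccp : cc = pal m S := push_base m S
    obtain ⟨cn, hcn⟩ : ∃ n : ℕ, cc = n := ⟨_, by rw [hccp, h.pal_eq hSU]⟩
    have hwA : w = pal m A := by
      rw [← hTS, ← pal_push hdzS, pal_sing]
    obtain ⟨wn, hwn⟩ : ∃ n : ℕ, w = n := ⟨_, by rw [hwA, h.pal_eq subset_union_right]⟩
    have hcc1 : 1 ≤ cc := by
      rw [hccp]
      refine (h.one (hSU hi)).trans ?_
      unfold pal
      exact single_le_sum (f := m) (fun D _ => h.pos.1 D)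
        (mem_powerset.2 (singleton_subset_iff.2 hi))
    have hcw : cc + 1 ≤ w := by linarith
    have hcn1 : 1 ≤ cn := by
      rw [hcn] at hcc1
      exact_mod_cast hcc1
    have hcwn : cn + 1 ≤ wn := by
      rw [hcn, hwn] at hcw
      exact_mod_cast hcw
    have hwpn : wn ≤ p := by
      have h1 := f6
      rw [hwn] at h1
      exact_mod_cast h1
    set th := min 1 (D * (1 + Om / p) / (1 + cc)) with hth
    set k := cc / (w + 1) with hk
    set g := w / (w + p) * (((p : ℝ) - 1 - cc) / (p - 1)) with hg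
    have hk0 : 0 ≤ k := div_nonneg hcc0 (by linarith)
    have hO0' : 0 ≤ Om := hom0.trans homO
    have ht0 : 0 ≤ th := le_min zero_le_one (div_nonneg (mul_nonneg hD0 (by positivity))
      (by linarith))
    have hccp1 : cc ≤ p - 1 := by linarith
    have hg0 : 0 ≤ g := mul_nonneg (div_nonneg hw0.le (by linarith))
      (div_nonneg (by linarith) (by linarith))
    set Bu : V → ℝ := fun u => ((p : ℝ) - push m A {u}) +
      k * max 0 ((p : ℝ) - push m A {u} - w) + g * (push m A {u} - m' {u}) with hBu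
    have hBu0 : ∀ u ∈ L, 0 ≤ Bu u := by
      intro u hu
      have h1 : 0 ≤ k * max 0 ((p : ℝ) - push m A {u} - w) := mul_nonneg hk0 (le_max_left _ _)
      have h2 : 0 ≤ g * (push m A {u} - m' {u}) := mul_nonneg hg0 (hs0 u)
      have h3 := hcp u hu
      simp only [hBu]
      linarith
    set bt : V → ℝ := fun u => max 0 (D + pom (push m A) L u - (m' {u} + cc)) with hbt
    have hterm : ∀ u ∈ L, w * (D * ((1 + pom (push m A) L u / p) *
        (p * Ival m' (insert u {z}) - 1 / w))) ≤
        th * Bu u + p * w * (bt u / (m' {u} + cc)) := by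
      intro u hu
      have huz : u ≠ z := fun h1 => hzL (h1 ▸ hu)
      have e1 : push m A {u} = m' {u} + (push m A {u} - m' {u}) := by ring
      refine t1_term (su := push m A {u} - m' {u}) (Om := Om) hpr (hmu1 u hu) (hs0 u) hcc1 hcw hD0
        hDp (pom_nonneg hpA u) (pom_le_po hpA L u) ?_ ?_ (hBu0 u hu) (le_max_left _ _)
        (le_max_right _ _) hth
      · rw [Ival_pair m' huz, ← e1, ← hpush]
      · have h1 := t1_X (p := (p : ℝ)) (w := w) (mu := m' {u}) (su := push m A {u} - m' {u})
          (c := cc) hpr hw0 (hmu1 u hu) (hs0 u) (by rw [← e1]; exact hcp u hu) hcc0 hccp1 rfl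
        rw [← e1] at h1
        rw [← e1]
        exact h1
    have hsum := sum_le_sum hterm
    have hsum' : ∑ u ∈ L, (th * Bu u + p * w * (bt u / (m' {u} + cc))) =
        th * ∑ u ∈ L, Bu u + p * w * ∑ u ∈ L, bt u / (m' {u} + cc) := by
      rw [sum_add_distrib, mul_sum, mul_sum]
    rw [hsum'] at hsum
    -- the sum of the bounds
    set Z := (p : ℝ) - D + om with hZ
    have hZ0 : 0 ≤ Z := by linarith
    have hyle : ∑ u ∈ L, ((p : ℝ) - push m A {u}) ≤ w + Z := by
      rw [f1]
      linarith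
    have hmax := sum_max_le L (fun u => (p : ℝ) - push m A {u}) hw0.le
      (fun u hu => by linarith [hcp u hu]) hZ0 hyle
    have hBsum : ∑ u ∈ L, Bu u ≤ w + (1 + k) * Z + g * (P - w + cc) := by
      simp only [hBu]
      rw [sum_add_distrib, sum_add_distrib, ← mul_sum, ← mul_sum]
      have h1 := mul_le_mul_of_nonneg_left hmax hk0
      have h2 : g * s ≤ g * (P - w + cc) := mul_le_mul_of_nonneg_left (by linarith) hg0
      linarith
    have hbsum : ∑ u ∈ L, bt u / (m' {u} + cc) ≤ ∑ u ∈ L, b u / (m' {u} + cc) := by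
      refine sum_le_sum fun u hu => ?_
      refine div_le_div_of_nonneg_right (max_le (hb0 u) (f2 u hu)) ?_
      linarith [hmu1 u hu]
    have h6 : p * w * ∑ u ∈ L, bt u / (m' {u} + cc) ≤ p * w * ∑ u ∈ L, b u / (m' {u} + cc) :=
      mul_le_mul_of_nonneg_left hbsum (mul_nonneg hp0.le hw0.le)
    have h7 : th * ∑ u ∈ L, Bu u ≤ th * (w + (1 + k) * Z + g * (P - w + cc)) :=
      mul_le_mul_of_nonneg_left hBsum ht0
    -- the numerical inequality
    set R := max w (D + ((P : ℝ) - p) + Om) with hR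
    have hRz : R ≤ w + b z := by
      refine max_le (by linarith [hb0 z]) ?_
      linarith
    have hp2 : p = 2 → D ≤ 1 := by
      intro hp2
      rcases h.k0 with ⟨_, h1, h2, _, _⟩ | h1
      · linarith
      · have := h.q2
        omega
    have hnum := nF1c (p := p) (w := wn) (c := cn) (h.q2.trans h.qp) hcn1 hcwn hwpn hD0 hDp hp2
      hO0' (h := (P : ℝ) - p) (by linarith) (R := R) (by rw [← hwn]; exact le_max_left _ _)
      (le_max_right _ _)
    rw [← hwn, ← hcn, ← hth, ← hk, ← hg] at hnum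
    have h8 : D * ((Om - om) / p) ≤ th * ((1 + k) * (Om - om)) := by
      have h9 : D / p ≤ th := by
        rw [hth]
        refine le_min ((div_le_one hp0).2 hDp) ?_
        have h10 : D * 1 ≤ D * (1 + Om / p) :=
          mul_le_mul_of_nonneg_left (by
            have : 0 ≤ Om / p := by positivity
            linarith) hD0
        rw [mul_one] at h10
        exact div_le_div₀ (hD0.trans h10) h10 (by linarith) (by linarith)
      have h10 : 0 ≤ Om - om := by linarith
      calc D * ((Om - om) / p) = D / p * (Om - om) := by ring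
        _ ≤ th * (Om - om) := mul_le_mul_of_nonneg_right h9 h10
        _ ≤ th * ((1 + k) * (Om - om)) := by
            refine mul_le_mul_of_nonneg_left ?_ ht0
            nlinarith
    have h9 : p * R ≤ p * (w + b z) := mul_le_mul_of_nonneg_left hRz hp0.le
    have h10 : th * (w + (1 + k) * (p - D + Om) + g * (p + (P - p) - w + cc)) =
        th * (w + (1 + k) * Z + g * (P - w + cc)) + th * ((1 + k) * (Om - om)) := by
      rw [hZ]
      ring
    rw [h10] at hnum
    linarith

/-- the inequality for the sets of tops, one slot -/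
theorem OL.top1 (h : OL F W Y T0 L A m M B c p q P νk 1 d X O G D) (hSA : S ⊆ A)
    (hSd : S.card = d) {κ : ℝ} (hκ : 1 ≤ κ) :
    D * (q : ℝ) ^ ((νk - 1) + (1 - 1)) * brkS m L A S p ≤ κ * (p : ℝ) ^ νk * SK F W Y c S := by
  have hqr : (2 : ℝ) ≤ q := by exact_mod_cast h.q2
  have hqp : (q : ℝ) ≤ p := by exact_mod_cast h.qp
  have hp0 : (0 : ℝ) < p := by linarith
  have hSK1 := h.SK_one (hSA.trans subset_union_right) hSd
  have hpν : 0 < (p : ℝ) ^ νk := pow_pos hp0 _
  have h1 := h.top1_aux hSA hSd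
  have e1 : (q : ℝ) ^ (νk - 1) ≤ (p : ℝ) ^ (νk - 1) := pow_le_pow_left₀ (by linarith) hqp _
  have e4 : (p : ℝ) ^ νk = (p : ℝ) ^ (νk - 1) * p := by
    rw [← pow_succ]
    congr 1
    have := h.ν1
    omega
  have h6 : 0 ≤ (p : ℝ) * SK F W Y c S := mul_nonneg hp0.le (by linarith)
  calc D * (q : ℝ) ^ ((νk - 1) + (1 - 1)) * brkS m L A S p
      = (q : ℝ) ^ (νk - 1) * (D * brkS m L A S p) := by
        rw [Nat.sub_self, add_zero]
        ring
    _ ≤ (q : ℝ) ^ (νk - 1) * (p * SK F W Y c S) := mul_le_mul_of_nonneg_left h1 (by positivity)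
    _ ≤ (p : ℝ) ^ (νk - 1) * (p * SK F W Y c S) := mul_le_mul_of_nonneg_right e1 h6
    _ = 1 * ((p : ℝ) ^ νk * SK F W Y c S) := by
        rw [e4]
        ring
    _ ≤ κ * ((p : ℝ) ^ νk * SK F W Y c S) :=
        mul_le_mul_of_nonneg_right hκ (mul_nonneg hpν.le (by linarith))
    _ = _ := by ring

end

end MP76b19e.Rob
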