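import Pool.Agent.Lib.MP76b19e.Rob.NumF2

/-!
# Two slots in the top level, the factor `1`: the sums over the lows (problem MP_76b19e_co)

`caseA1`, `caseA23`: no base, `D = 1` and `D = 2, 3`. `caseB1`, `caseB23`: with a base.
-/

set_option autoImplicit false

open Finset

namespace MP76b19e.Rob.NE2

variable {ι : Type*} {L : Finset ι}

/-- no base, `D = 1` -/
theorem caseA1 {x y W p Om om l n : ℝ} {t A mu s1 s2 s12 o : ι → ℝ} (hp : p = 2 ∨ 3 ≤ p)
    (hx : 1 ≤ x) (hy : 1 ≤ y) (hn : n = x + y) (hnW : n ≤ W) (hW : 2 + l ≤ W)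
    (hlp : l ≤ 2 * p - 1)
    (hom0 : 0 ≤ om) (homO : om ≤ Om) (hOl : Om ≤ l) (hOn : Om = 0 ∨ 1 ≤ Om)
    (hmu : ∀ u ∈ L, 1 ≤ mu u) (hA : ∀ u ∈ L, 0 ≤ A u) (h1 : ∀ u ∈ L, 0 ≤ s1 u)
    (h2 : ∀ u ∈ L, 0 ≤ s2 u) (h12 : ∀ u ∈ L, 0 ≤ s12 u)
    (ho : ∀ u ∈ L, 0 ≤ o u) (hoO : ∀ u ∈ L, o u ≤ Om) (hAs : ∑ u ∈ L, A u = l + om)
    (hlow : ∀ u ∈ L, ∃ Z : ℝ, 0 ≤ Z ∧ t u ≤ A u * n / (W * (W + 1)) + Z / mu u ∧
      Z ≤ A u * n / (W + 1) + x / (x + 2) * (s1 u + s12 u) + y / (y + 2) * (s2 u + s12 u) ∧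
      Z ≤ n) :
    (2 + (Om - om) / p) * (n / W) + ∑ u ∈ L, (1 + o u / p) * t u ≤
      y * max x (2 + Om + ∑ u ∈ L, (s2 u + s12 u)) + x * max y (2 + Om +
        ∑ u ∈ L, (s1 u + s12 u)) - x * y := by
  choose! Z hZ using hlow
  have hp2 : 2 ≤ p := by rcases hp with h | h <;> linarith
  have hp0 : 0 < p := by linarith
  have hn0 : 0 < n := by linarith
  have hW0 : 0 < W := by linarith
  have hOm0 : 0 ≤ Om := hom0.trans homO
  set f := 1 + Om / p with hf
  have hf1 : 1 ≤ f := by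
    have : 0 ≤ Om / p := by positivity
    linarith
  have hfO : f ≤ 1 + Om / 2 := by
    have : Om / p ≤ Om / 2 := div_le_div_of_nonneg_left hOm0 (by norm_num) hp2
    linarith
  have hf3 : f ≤ 3 := by
    have h1 : Om / p ≤ 2 := by
      rw [div_le_iff₀ hp0]
      linarith
    linarith
  set S1 := ∑ u ∈ L, (s2 u + s12 u) with hS1
  set S2 := ∑ u ∈ L, (s1 u + s12 u) with hS2
  have hS10 : 0 ≤ S1 := sum_nonneg fun u hu => add_nonneg (h2 u hu) (h12 u hu)
  have hS20 : 0 ≤ S2 := sum_nonneg fun u hu => add_nonneg (h1 u hu) (h12 u hu)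
  have hφ1 : 0 ≤ y / (y + 2) := div_nonneg (by linarith) (by linarith)
  have hφ2 : 0 ≤ x / (x + 2) := div_nonneg (by linarith) (by linarith)
  have hφ1' : y / (y + 2) ≤ 1 := (div_le_one (by linarith)).2 (by linarith)
  have hφ2' : x / (x + 2) ≤ 1 := (div_le_one (by linarith)).2 (by linarith)
  have hterm : ∀ u ∈ L, (1 + o u / p) * t u ≤
      f * (A u * (n / W) + x / (x + 2) * (s1 u + s12 u) + y / (y + 2) * (s2 u + s12 u)) := by
    intro u hu
    obtain ⟨a1, a2, a3, a4⟩ := hZ u hu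
    have h3 : Z u / mu u ≤ Z u := div_le_self a1 (hmu u hu)
    have h4 : A u * n / (W * (W + 1)) + A u * n / (W + 1) = A u * (n / W) := by
      field_simp
      ring
    have h5 : 0 ≤ A u * (n / W) + x / (x + 2) * (s1 u + s12 u) + y / (y + 2) * (s2 u + s12 u) := by
      have b1 : 0 ≤ A u * (n / W) := mul_nonneg (hA u hu) (by positivity)
      have b2 := mul_nonneg hφ2 (add_nonneg (h1 u hu) (h12 u hu))
      have b3 := mul_nonneg hφ1 (add_nonneg (h2 u hu) (h12 u hu))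
      linarith
    have h6 : t u ≤ A u * (n / W) + x / (x + 2) * (s1 u + s12 u) +
        y / (y + 2) * (s2 u + s12 u) := by linarith
    have h7 : 0 ≤ 1 + o u / p := by
      have := div_nonneg (ho u hu) hp0.le
      linarith
    have h8 : 1 + o u / p ≤ f := by
      have := div_le_div_of_nonneg_right (hoO u hu) hp0.le
      linarith
    exact (mul_le_mul_of_nonneg_left h6 h7).trans (mul_le_mul_of_nonneg_right h8 h5)
  have hsum := sum_le_sum hterm
  rw [← mul_sum, sum_add_distrib, sum_add_distrib, ← sum_mul, ← mul_sum, ← mul_sum, hAs,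
    ← hS1, ← hS2] at hsum
  set N0 := 1 + f * (2 + l - 1 + Om) with hN0
  have hna := na0 (p := p) (O := Om) (m := 2 + l) hp hOn (by linarith) (by linarith)
  rw [← hf, ← hN0] at hna
  have hN00 : 0 ≤ N0 := by
    have : 0 ≤ f * (2 + l - 1 + Om) := mul_nonneg (by linarith) (by linarith)
    linarith
  set κ := (2 + (Om - om) / p + f * (l + om)) / W with hκ
  have hκN : κ ≤ N0 / W := by
    refine div_le_div_of_nonneg_right ?_ hW0.le
    have h1 : (Om - om) / p ≤ Om - om := div_le_self (by linarith) (by linarith)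
    have h2 : Om - om ≤ f * (Om - om) := by nlinarith
    rw [hN0]
    nlinarith
  have hal := na0' (m := 2 + l) (g := 2 + Om) (n := n) (W := W) (κ := κ) (by linarith) hn0
    hW hnW hN00 hκN hna
  have hl2 := l2t (x := x) (y := y) (g := 2 + Om) (κ := κ) (φ1 := f * (y / (y + 2)))
    (φ2 := f * (x / (x + 2))) (S1 := S1) (S2 := S2) (by linarith) (by linarith) (by linarith)
    hS10 hS20 (mul_nonneg (by linarith) hφ1) (mul_nonneg (by linarith) hφ2)
    (by
      rw [mul_div_assoc', div_le_iff₀ (by linarith)]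
      nlinarith)
    (by
      have := mul_le_mul_of_nonneg_left hφ1' (show 0 ≤ f by linarith)
      linarith)
    (by
      rw [mul_div_assoc', div_le_iff₀ (by linarith)]
      nlinarith)
    (by
      have := mul_le_mul_of_nonneg_left hφ2' (show 0 ≤ f by linarith)
      linarith)
    (by rw [← hn]; exact hal)
  have hκn : κ * (x + y) = (2 + (Om - om) / p) * (n / W) + f * ((l + om) * (n / W)) := by
    rw [hκ, ← hn]
    field_simp
  rw [mul_add, mul_add, ← mul_assoc f (x / (x + 2)), ← mul_assoc f (y / (y + 2))] at hsum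
  linarith

/-- no base, `D = 2, 3` -/
theorem caseA23 {x y W D Om l n R : ℝ} {t A mu s1 s2 s12 b : ι → ℝ}
    (hD : D = 2 ∨ D = 3) (hLc : L.card = 2)
    (hx : x = 1 ∨ 2 ≤ x) (hy : y = 1 ∨ 2 ≤ y) (hn : n = x + y) (hW : D + 1 + l ≤ W)
    (hOm0 : 0 ≤ Om) (hOl : Om ≤ l) (hOn : Om = 0 ∨ 1 ≤ Om)
    (hmu : ∀ u ∈ L, 1 ≤ mu u) (h1 : ∀ u ∈ L, 0 ≤ s1 u)
    (h2 : ∀ u ∈ L, 0 ≤ s2 u) (h12 : ∀ u ∈ L, 0 ≤ s12 u) (hAs : ∑ u ∈ L, A u = l + Om)
    (hb0 : ∀ u ∈ L, 0 ≤ b u) (hb : ∀ u ∈ L, D - mu u ≤ b u)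
    (hR : R = ∑ u ∈ L, b u / mu u)
    (hlow : ∀ u ∈ L, ∃ Z : ℝ, 0 ≤ Z ∧ t u ≤ A u * n / (W * (W + 1)) + Z / mu u ∧
      Z ≤ A u * n / (W + 1) + x / (x + 2) * (s1 u + s12 u) + y / (y + 2) * (s2 u + s12 u) ∧
      Z ≤ n) :
    D * (2 * (n / W)) + ∑ u ∈ L, D * t u ≤
      y * max x (D + 1 + Om + ∑ u ∈ L, (s2 u + s12 u)) + x * max y (D + 1 + Om +
        ∑ u ∈ L, (s1 u + s12 u)) - x * y + x * y * R := by
  choose! Z hZ using hlow
  have hD2 : 2 ≤ D := by rcases hD with h1 | h1 <;> linarith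
  have hx1 : 1 ≤ x := by rcases hx with h1 | h1 <;> linarith
  have hy1 : 1 ≤ y := by rcases hy with h1 | h1 <;> linarith
  have hn0 : 0 < n := by linarith
  have hl0 : 0 ≤ l := by linarith
  have hW0 : 0 < W := by linarith
  set S1 := ∑ u ∈ L, (s2 u + s12 u) with hS1
  set S2 := ∑ u ∈ L, (s1 u + s12 u) with hS2
  have hS10 : 0 ≤ S1 := sum_nonneg fun u hu => add_nonneg (h2 u hu) (h12 u hu)
  have hS20 : 0 ≤ S2 := sum_nonneg fun u hu => add_nonneg (h1 u hu) (h12 u hu)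
  have hφ1 : 0 ≤ y / (y + 2) := div_nonneg (by linarith) (by linarith)
  have hφ2 : 0 ≤ x / (x + 2) := div_nonneg (by linarith) (by linarith)
  have hφ1' : y / (y + 2) ≤ 1 := (div_le_one (by linarith)).2 (by linarith)
  have hφ2' : x / (x + 2) ≤ 1 := (div_le_one (by linarith)).2 (by linarith)
  set r : ι → ℝ := fun u => max 0 (D - mu u) / mu u with hr
  have hr0 : ∀ u ∈ L, 0 ≤ r u := fun u hu =>
    div_nonneg (le_max_left _ _) (by linarith [hmu u hu])
  have hrb : ∀ u ∈ L, r u ≤ b u / mu u := fun u hu =>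
    div_le_div_of_nonneg_right (max_le (hb0 u hu) (hb u hu)) (by linarith [hmu u hu])
  have hrD : ∀ u ∈ L, r u ≤ D - 1 := by
    intro u hu
    have h1 := hmu u hu
    have h2 : max 0 (D - mu u) ≤ D - 1 := max_le (by linarith) (by linarith)
    exact (div_le_self (le_max_left _ _) h1).trans h2
  have hDr : ∀ u ∈ L, D / mu u ≤ 1 + r u := by
    intro u hu
    have h1 := hmu u hu
    have h2 : D - mu u ≤ max 0 (D - mu u) := le_max_right _ _
    have h3 : D / mu u = 1 + (D - mu u) / mu u := by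
      field_simp
      ring
    rw [h3]
    have := div_le_div_of_nonneg_right h2 (show 0 ≤ mu u by linarith)
    linarith
  have hterm : ∀ u ∈ L, D * t u ≤
      (D * (n / (W * (W + 1))) + n / (W + 1)) * A u +
      (x / (x + 2) * (s1 u + s12 u) + y / (y + 2) * (s2 u + s12 u)) + r u * n := by
    intro u hu
    obtain ⟨a1, a2, a3, a4⟩ := hZ u hu
    have h1 := mul_le_mul_of_nonneg_left a2 (show 0 ≤ D by linarith)
    have h2 : D * (Z u / mu u) ≤ (1 + r u) * Z u := by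
      have := mul_le_mul_of_nonneg_right (hDr u hu) a1
      calc D * (Z u / mu u) = D / mu u * Z u := by ring
        _ ≤ _ := this
    have h3 : r u * Z u ≤ r u * n := mul_le_mul_of_nonneg_left a4 (hr0 u hu)
    have h4 : D * (A u * n / (W * (W + 1))) = D * (n / (W * (W + 1))) * A u := by ring
    have h5 : A u * n / (W + 1) = n / (W + 1) * A u := by ring
    rw [h5] at a3
    linarith
  have hsum := sum_le_sum hterm
  have hRs : ∑ u ∈ L, ((D * (n / (W * (W + 1))) + n / (W + 1)) * A u +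
      (x / (x + 2) * (s1 u + s12 u) + y / (y + 2) * (s2 u + s12 u)) + r u * n) =
      (D * (n / (W * (W + 1))) + n / (W + 1)) * (l + Om) +
      (x / (x + 2) * S2 + y / (y + 2) * S1) + (∑ u ∈ L, r u) * n := by
    rw [sum_add_distrib, sum_add_distrib, sum_add_distrib, ← mul_sum, ← mul_sum, ← mul_sum,
      ← sum_mul, hAs]
  rw [hRs] at hsum
  set κ := 2 * D / W + (l + Om) * ((1 + D / W) / (W + 1)) with hκ
  have hκn : κ * (x + y) = D * (2 * (n / W)) +
      (D * (n / (W * (W + 1))) + n / (W + 1)) * (l + Om) := by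
    rw [hκ, ← hn]
    field_simp
    ring
  have hκ' := na3k (κ := κ) hD hOn hOl hl0 hW (by rw [hκ])
  have hr1 : (∑ u ∈ L, r u) ≤ R := by
    rw [hR]
    exact sum_le_sum hrb
  have hr00 : 0 ≤ ∑ u ∈ L, r u := sum_nonneg hr0
  have hr2 : (∑ u ∈ L, r u) ≤ 2 * (D - 1) := by
    refine (sum_le_sum hrD).trans (le_of_eq ?_)
    rw [sum_const, nsmul_eq_mul, hLc]
    push_cast
    ring
  have h1 : x * y * (∑ u ∈ L, r u) ≤ x * y * R := mul_le_mul_of_nonneg_left hr1 (by positivity)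
  set g := D + 1 + Om with hg
  rcases hx with hx2' | hx2'
  · -- the first mass is one
    have h2 := na3 (D := D) (O := Om) (x := x) (y := y) (g := g) (κ := κ) (S1 := S1)
      (S2 := S2) hD hOm0 hx2' hy1 hg hκ' hS10 hS20
    have h3 : n = x * y + 1 := by
      rw [hn, hx2']
      ring
    have h4 : (∑ u ∈ L, r u) * n = x * y * (∑ u ∈ L, r u) + ∑ u ∈ L, r u := by
      rw [h3]
      ring
    linarith
  · rcases hy with hy2' | hy2'
    · -- the second mass is one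
      have h2 := na3 (D := D) (O := Om) (x := y) (y := x) (g := g) (κ := κ) (S1 := S2)
        (S2 := S1) hD hOm0 hy2' hx1 hg hκ' hS20 hS10
      have h3 : n = x * y + 1 := by
        rw [hn, hy2']
        ring
      have h4 : (∑ u ∈ L, r u) * n = x * y * (∑ u ∈ L, r u) + ∑ u ∈ L, r u := by
        rw [h3]
        ring
      have h5 : κ * (y + x) = κ * (x + y) := by ring
      have h6 : y * x = x * y := by ring
      rw [h5, h6] at h2
      linarith
    · -- both masses at least two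
      have h2 : n ≤ x * y := by
        rw [hn]
        nlinarith
      have h3 : (∑ u ∈ L, r u) * n ≤ (∑ u ∈ L, r u) * (x * y) :=
        mul_le_mul_of_nonneg_left h2 hr00
      have hl2 := l2t (x := x) (y := y) (g := g) (κ := κ) (φ1 := y / (y + 2))
        (φ2 := x / (x + 2)) (S1 := S1) (S2 := S2) (by linarith) (by linarith) (by linarith)
        hS10 hS20 hφ1 hφ2 (by linarith) (by linarith) (by linarith) (by linarith)
        (by
          left
          refine hκ'.trans ?_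
          rw [hg]
          rcases hD with h4 | h4 <;> rw [h4] <;> norm_num <;> linarith)
      linarith

/-- a base: the sum over the lows -/
theorem caseB {W n τ l om S1 S2 : ℝ} {A s1 s2 s12 : ι → ℝ} (hn0 : 0 ≤ n) (hW0 : 0 < W)
    (hτ0 : 0 ≤ τ) (h12 : ∀ u ∈ L, 0 ≤ s12 u) (hAs : ∑ u ∈ L, A u = l + om)
    (hS1 : S1 = ∑ u ∈ L, (s2 u + s12 u)) (hS2 : S2 = ∑ u ∈ L, (s1 u + s12 u)) :
    ∑ u ∈ L, n * (A u * ((1 + τ * W) / (W * (W + 1))) +
      τ * (s1 u + s2 u + s12 u) / (W + 1)) ≤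
      n * ((l + om) * ((1 + τ * W) / (W * (W + 1)))) + τ * n / (W + 1) * (S1 + S2) := by
  have h1 : ∑ u ∈ L, (s1 u + s2 u + s12 u) ≤ S1 + S2 := by
    rw [hS1, hS2, ← sum_add_distrib]
    refine sum_le_sum fun u hu => ?_
    have := h12 u hu
    linarith
  have h2 : ∑ u ∈ L, n * (A u * ((1 + τ * W) / (W * (W + 1))) +
      τ * (s1 u + s2 u + s12 u) / (W + 1)) = n * ((l + om) * ((1 + τ * W) / (W * (W + 1)))) +
      τ * n / (W + 1) * ∑ u ∈ L, (s1 u + s2 u + s12 u) := by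
    rw [← mul_sum, sum_add_distrib, ← sum_mul, hAs, mul_add, mul_sum, mul_sum]
    congr 1
    exact sum_congr rfl fun u _ => by ring
  rw [h2]
  have h3 : 0 ≤ τ * n / (W + 1) := by positivity
  have := mul_le_mul_of_nonneg_left h1 h3
  linarith

/-- a base, `D = 1` -/
theorem caseB1 {x y cc W p Om om l n τ : ℝ} {t A s1 s2 s12 o : ι → ℝ} (hp : p = 2 ∨ 3 ≤ p)
    (hc : 1 ≤ cc) (hx : cc + 1 ≤ x) (hy : cc + 1 ≤ y) (hn : n = x + y) (hnW : n ≤ W + cc)
    (hWc : cc + 2 ≤ W) (hW : 2 + l ≤ W) (hlp : l ≤ 2 * p - 1)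
    (hτ : τ = max 0 (2 - cc / (p - 1)) / (cc + 2))
    (hom0 : 0 ≤ om) (homO : om ≤ Om) (hOl : Om ≤ l)
    (hA : ∀ u ∈ L, 0 ≤ A u) (h1 : ∀ u ∈ L, 0 ≤ s1 u)
    (h2 : ∀ u ∈ L, 0 ≤ s2 u) (h12 : ∀ u ∈ L, 0 ≤ s12 u)
    (ho : ∀ u ∈ L, 0 ≤ o u) (hoO : ∀ u ∈ L, o u ≤ Om) (hAs : ∑ u ∈ L, A u = l + om)
    (hlow : ∀ u ∈ L, t u ≤ n * (A u * ((1 + τ * W) / (W * (W + 1))) +
      τ * (s1 u + s2 u + s12 u) / (W + 1))) :
    (2 + (Om - om) / p) * (n / W) + ∑ u ∈ L, (1 + o u / p) * t u ≤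
      y * max x (2 + Om + ∑ u ∈ L, (s2 u + s12 u)) + x * max y (2 + Om +
        ∑ u ∈ L, (s1 u + s12 u)) - x * y := by
  have hp2 : 2 ≤ p := by rcases hp with h | h <;> linarith
  have hp0 : 0 < p := by linarith
  have hn0 : 0 < n := by linarith
  have hW0 : 0 < W := by linarith
  have hOm0 : 0 ≤ Om := hom0.trans homO
  obtain ⟨hτ0, hτ2, hτ3, _⟩ := tau_le hp2 hc hτ
  set f := 1 + Om / p with hf
  have hf1 : 1 ≤ f := by
    have : 0 ≤ Om / p := by positivity
    linarith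
  have hfO : f ≤ 1 + Om / 2 := by
    have : Om / p ≤ Om / 2 := div_le_div_of_nonneg_left hOm0 (by norm_num) hp2
    linarith
  have hf3 : f ≤ 3 := by
    have h1 : Om / p ≤ 2 := by
      rw [div_le_iff₀ hp0]
      linarith
    linarith
  set S1 := ∑ u ∈ L, (s2 u + s12 u) with hS1
  set S2 := ∑ u ∈ L, (s1 u + s12 u) with hS2
  have hS10 : 0 ≤ S1 := sum_nonneg fun u hu => add_nonneg (h2 u hu) (h12 u hu)
  have hS20 : 0 ≤ S2 := sum_nonneg fun u hu => add_nonneg (h1 u hu) (h12 u hu)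
  have hRs := caseB (W := W) (n := n) (τ := τ) (l := l) (om := om) hn0.le hW0 hτ0 h12 hAs hS1 hS2
  set R : ι → ℝ := fun u => n * (A u * ((1 + τ * W) / (W * (W + 1))) +
          τ * (s1 u + s2 u + s12 u) / (W + 1)) with hR
  have hR0 : ∀ u ∈ L, 0 ≤ R u := by
    intro u hu
    have h4 := hA u hu
    have h5 := h1 u hu
    have h6 := h2 u hu
    have h7 := h12 u hu
    simp only [hR]
    positivity
  have hterm : ∀ u ∈ L, (1 + o u / p) * t u ≤ f * R u := by
    intro u hu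
    have h7 : 0 ≤ 1 + o u / p := by
      have := div_nonneg (ho u hu) hp0.le
      linarith
    have h8 : 1 + o u / p ≤ f := by
      have := div_le_div_of_nonneg_right (hoO u hu) hp0.le
      linarith
    exact (mul_le_mul_of_nonneg_left (hlow u hu) h7).trans
      (mul_le_mul_of_nonneg_right h8 (hR0 u hu))
  have hsum := sum_le_sum hterm
  rw [← mul_sum] at hsum
  have hfR := mul_le_mul_of_nonneg_left hRs (show 0 ≤ f by linarith)
  set κ := (2 + (Om - om) / p) / W + f * (l + om) * ((1 + τ * W) / (W * (W + 1))) with hκ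
  have hκ' : κ ≤ (2 + Om) / 2 := by
    have h1 := na1 (p := p) (O := Om) (l := l) (c := cc) (W := W) (τ := τ) hp hOm0
      hOl hc hW hWc hτ
    rw [← hf] at h1
    refine le_trans (add_le_add ?_ ?_) h1
    · refine div_le_div_of_nonneg_right ?_ hW0.le
      have : (Om - om) / p ≤ Om / p := div_le_div_of_nonneg_right (by linarith) hp0.le
      linarith
    · refine mul_le_mul_of_nonneg_right ?_ (by positivity)
      exact mul_le_mul_of_nonneg_left (by linarith) (by linarith)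
  have hφ := nphi (f := f) (c := cc) (W := W) (τ := τ) (n := n) (by linarith) hc hτ0 hτ2
    hWc hnW
  have hφ0 : 0 ≤ f * τ * n / (W + 1) := by positivity
  have hl2 := l2t (x := x) (y := y) (g := 2 + Om) (κ := κ) (φ1 := f * τ * n / (W + 1))
    (φ2 := f * τ * n / (W + 1)) (S1 := S1) (S2 := S2) (by linarith) (by linarith) (by linarith)
    hS10 hS20 hφ0 hφ0 (by linarith) (by linarith) (by linarith) (by linarith)
    (by
      left
      exact hκ')
  have hκn : κ * (x + y) = (2 + (Om - om) / p) * (n / W) +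
      f * (n * ((l + om) * ((1 + τ * W) / (W * (W + 1))))) := by
    rw [hκ, ← hn]
    ring
  have hφn : f * (τ * n / (W + 1) * (S1 + S2)) =
      f * τ * n / (W + 1) * S1 + f * τ * n / (W + 1) * S2 := by ring
  rw [mul_add, hφn] at hfR
  linarith

/-- a base, `D = 2, 3` -/
theorem caseB23 {x y cc W D Om l n τ : ℝ} {t A s1 s2 s12 : ι → ℝ} (hD2 : 2 ≤ D) (hD3 : D ≤ 3)
    (hc : 1 ≤ cc) (hx : cc + 1 ≤ x) (hy : cc + 1 ≤ y) (hn : n = x + y) (hnW : n ≤ W + cc)
    (hWc : cc + 2 ≤ W) (hW : D + 1 + l ≤ W) (hτ0 : 0 ≤ τ) (hτ2 : τ * (cc + 2) ≤ 2)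
    (hOm0 : 0 ≤ Om) (hOl : Om ≤ l) (h1 : ∀ u ∈ L, 0 ≤ s1 u)
    (h2 : ∀ u ∈ L, 0 ≤ s2 u) (h12 : ∀ u ∈ L, 0 ≤ s12 u) (hAs : ∑ u ∈ L, A u = l + Om)
    (hlow : ∀ u ∈ L, t u ≤ n * (A u * ((1 + τ * W) / (W * (W + 1))) +
      τ * (s1 u + s2 u + s12 u) / (W + 1))) :
    D * (2 * (n / W)) + ∑ u ∈ L, D * t u ≤
      y * max x (D + 1 + Om + ∑ u ∈ L, (s2 u + s12 u)) + x * max y (D + 1 + Om +
        ∑ u ∈ L, (s1 u + s12 u)) - x * y := by
  have hn0 : 0 < n := by linarith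
  have hW0 : 0 < W := by linarith
  have hD0 : 0 ≤ D := by linarith
  set S1 := ∑ u ∈ L, (s2 u + s12 u) with hS1
  set S2 := ∑ u ∈ L, (s1 u + s12 u) with hS2
  have hS10 : 0 ≤ S1 := sum_nonneg fun u hu => add_nonneg (h2 u hu) (h12 u hu)
  have hS20 : 0 ≤ S2 := sum_nonneg fun u hu => add_nonneg (h1 u hu) (h12 u hu)
  have hRs := caseB (W := W) (n := n) (τ := τ) (l := l) (om := Om) hn0.le hW0 hτ0 h12 hAs hS1 hS2
  set R : ι → ℝ := fun u => n * (A u * ((1 + τ * W) / (W * (W + 1))) +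
          τ * (s1 u + s2 u + s12 u) / (W + 1)) with hR
  have hterm : ∀ u ∈ L, D * t u ≤ D * R u := fun u hu =>
    mul_le_mul_of_nonneg_left (hlow u hu) hD0
  have hsum := sum_le_sum hterm
  rw [← mul_sum (f := R)] at hsum
  have hDR := mul_le_mul_of_nonneg_left hRs hD0
  have hτ3 : τ ≤ 2 / 3 := by nlinarith
  set κ := D * (2 / W + (l + Om) * ((1 + τ * W) / (W * (W + 1)))) with hκ
  have hκ' : κ ≤ (D + 1 + Om) / 2 := na2 hD2 hD3 hOm0 hOl hW hτ3
  have hφ := nphi (f := D) (c := cc) (W := W) (τ := τ) (n := n) hD0 hc hτ0 hτ2 hWc hnW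
  have hφ0 : 0 ≤ D * τ * n / (W + 1) := by positivity
  have hl2 := l2t (x := x) (y := y) (g := D + 1 + Om) (κ := κ) (φ1 := D * τ * n / (W + 1))
    (φ2 := D * τ * n / (W + 1)) (S1 := S1) (S2 := S2) (by linarith) (by linarith) (by linarith)
    hS10 hS20 hφ0 hφ0 (by linarith) (by linarith) (by linarith) (by linarith)
    (by
      left
      exact hκ')
  have hκn : κ * (x + y) = D * (2 * (n / W)) +
      D * (n * ((l + Om) * ((1 + τ * W) / (W * (W + 1))))) := by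
    rw [hκ, ← hn]
    ring
  have hφn : D * (τ * n / (W + 1) * (S1 + S2)) =
      D * τ * n / (W + 1) * S1 + D * τ * n / (W + 1) * S2 := by ring
  rw [mul_add, hφn] at hDR
  linarith

end MP76b19e.Rob.NE2
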