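import Pool.Agent.Lib.MP76b19e.Rob.EB1
import Pool.Agent.Lib.MP76b19e.Rob.NumG2

/-!
# The final inequality of one low level, two slots in the top level, the factor `1`
(problem MP_76b19e_co)

`shared_top`: the masses that a top shares with the lows. `OL.facts2`: masses and colours for two
slots. `OL.top2`: the inequality for the sets of tops, two slots, the caps `p` and `p + 1`.
-/

set_option autoImplicit false

open Finset

namespace MP76b19e.Rob

open NE2

section

variable {V : Type} [DecidableEq V] {m : Finset V → ℝ} {L T S : Finset V}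

/-- the masses that a top shares with exactly one low -/
theorem shared_top (h : ∀ D, 0 ≤ m D) (hLT : Disjoint L T) (k : V) (hk : k ∈ T) :
    ∑ j ∈ L, ∑ E ∈ T.powerset, (if k ∈ E then m ({j} ∪ E) else 0) ≤
      pa m (L ∪ T) k - pa m T k := by
  classical
  unfold pa
  have hsub : T.powerset ⊆ (L ∪ T).powerset := powerset_mono.2 subset_union_right
  rw [← sum_sdiff hsub, add_sub_cancel_right, ← sum_product']
  refine le_trans (le_of_eq ?_) (sum_le_sum_of_subset_of_nonneg
    (s := (L ×ˢ T.powerset).image fun x => {x.1} ∪ x.2) ?_ ?_)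
  · rw [sum_image]
    · refine sum_congr rfl fun x hx => ?_
      rw [mem_product] at hx
      have hxk : k ∉ ({x.1} : Finset V) := by
        rw [mem_singleton]
        rintro rfl
        exact disjoint_left.1 hLT hx.1 hk
      by_cases hkE : k ∈ x.2
      · rw [if_pos hkE, if_pos (mem_union_right _ hkE)]
      · rw [if_neg hkE, if_neg]
        intro h5
        rcases mem_union.1 h5 with h6 | h6
        · exact hxk h6
        · exact hkE h6
    · intro x hx y hy hxy
      rw [mem_coe, mem_product, mem_powerset] at hx hy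
      change {x.1} ∪ x.2 = {y.1} ∪ y.2 at hxy
      have e1 : x.1 ∈ {y.1} ∪ y.2 := by
        rw [← hxy]
        exact mem_union_left _ (mem_singleton_self _)
      have hx1 : x.1 ∉ y.2 := fun h5 => disjoint_left.1 hLT hx.1 (hy.2 h5)
      have e2 : x.1 = y.1 := by
        rcases mem_union.1 e1 with h5 | h5
        · exact mem_singleton.1 h5
        · exact absurd h5 hx1
      have e3 : x.2 = y.2 := by
        ext v
        constructor
        · intro hv
          have h5 : v ∈ {y.1} ∪ y.2 := by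
            rw [← hxy]
            exact mem_union_right _ hv
          rcases mem_union.1 h5 with h6 | h6
          · rw [mem_singleton] at h6
            rw [h6, ← e2] at hv
            exact absurd (hx.2 hv) (disjoint_left.1 hLT hx.1)
          · exact h6
        · intro hv
          have h5 : v ∈ {x.1} ∪ x.2 := by
            rw [hxy]
            exact mem_union_right _ hv
          rcases mem_union.1 h5 with h6 | h6
          · rw [mem_singleton] at h6
            rw [h6, e2] at hv
            exact absurd (hy.2 hv) (disjoint_left.1 hLT hy.1)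
          · exact h6
      exact Prod.ext e2 e3
  · intro D hD
    rw [mem_image] at hD
    obtain ⟨x, hx, rfl⟩ := hD
    rw [mem_product, mem_powerset] at hx
    rw [mem_sdiff, mem_powerset, mem_powerset]
    refine ⟨union_subset (singleton_subset_iff.2 (mem_union_left _ hx.1))
      (hx.2.trans subset_union_right), fun h5 => ?_⟩
    exact disjoint_left.1 hLT hx.1 (h5 (mem_union_left _ (mem_singleton_self _)))
  · intro D _ _
    split_ifs
    · exact h D
    · exact le_rfl

theorem sum_powerset_pair {z1 z2 : V} (hne : z1 ≠ z2) (f : Finset V → ℝ) :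
    ∑ E ∈ ({z1, z2} : Finset V).powerset, f E = f ∅ + f {z1} + f {z2} + f {z1, z2} := by
  have h1 : z1 ∉ ({z2} : Finset V) := by simpa using hne
  rw [sum_powerset_insert h1, show ({z2} : Finset V).powerset = {∅, {z2}} from rfl,
    sum_pair (singleton_ne_empty z2).symm, sum_pair (singleton_ne_empty z2).symm]
  rw [insert_empty]
  ring

theorem pal_pair (m : Finset V → ℝ) {z1 z2 : V} (hne : z1 ≠ z2) :
    pal m {z1, z2} = m ∅ + m {z1} + m {z2} + m {z1, z2} := by
  unfold pal
  exact sum_powerset_pair hne m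

theorem push_pair (m : Finset V → ℝ) {z1 z2 : V} (hne : z1 ≠ z2) (u : V) :
    push m {z1, z2} {u} = m {u} + m {u, z1} + m {u, z2} + m {u, z1, z2} := by
  unfold push
  rw [sum_powerset_pair hne fun E => m ({u} ∪ E)]
  rfl

/-- three elements -/
theorem Ival_triple (m : Finset V → ℝ) {z1 z2 u : V} (h1 : u ≠ z1) (h2 : u ≠ z2) (h3 : z1 ≠ z2) :
    Ival m {u, z1, z2} = (Ival m {z1, z2} + Ival m {u, z1} + Ival m {u, z2}) /
      (pal m {z1, z2} + push m {z1, z2} {u}) := by
  have huT : u ∉ ({z1, z2} : Finset V) := by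
    rw [mem_insert, mem_singleton]
    rintro (h | h)
    · exact h1 h
    · exact h2 h
  have h4 : pal m {u, z1, z2} = pal m {z1, z2} + push m {z1, z2} {u} := by
    have h5 : pal (push m {z1, z2}) {u} = pal m ({u} ∪ {z1, z2}) :=
      pal_push (disjoint_singleton_left.2 huT)
    rw [pal_sing, push_base] at h5
    have h6 : ({u} ∪ {z1, z2} : Finset V) = {u, z1, z2} := rfl
    rw [h6] at h5
    linarith
  have e1 : ({u, z1, z2} : Finset V).erase u = {z1, z2} := erase_insert huT
  have e2 : ({u, z1, z2} : Finset V).erase z1 = {u, z2} := by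
    rw [erase_insert_of_ne h1, erase_insert]
    simpa using h3
  have e3 : ({u, z1, z2} : Finset V).erase z2 = {u, z1} := by
    rw [pair_comm z1 z2, erase_insert_of_ne h2, erase_insert]
    simpa using h3.symm
  rw [Ival_pal m (insert_nonempty u _), h4, sum_insert huT, sum_pair h3, e1, e2, e3]
  ring

end

section

variable {V β : Type} [DecidableEq V] [DecidableEq β] [Fintype V] {F : SimpleGraph V}
  {W Y T0 L A S K : Finset V} {m : Finset V → ℝ} {M : V → Finset β} {B : Finset β}
  {c : Finset V → ℕ} {p q P νk t d : ℕ} {X O G D : ℝ}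

/-- the facts for two slots -/
theorem OL.facts2 (h : OL F W Y T0 L A m M B c p q P νk 2 d X O G D) (hSA : S ⊆ A)
    (hSd : S.card = d) {z1 z2 : V} (hne : z1 ≠ z2) (hz : A \ S = {z1, z2}) :
    (∑ u ∈ L, ((p : ℝ) - push m A {u}) = pal m A - 1 - ((P : ℝ) - p) - (X + G) +
      pN (push m A) L) ∧
    (∀ u ∈ L, D + pom (push m A) L u - (push m S {u} + push m S ∅) ≤
      (c (Y \ insert u S) : ℝ)) ∧
    (D + ((P : ℝ) - p) + po (push m A) L +
        ∑ u ∈ L, (push m S {u, z2} + push m S {u, z1, z2}) - (push m S {z1} + push m S ∅) ≤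
      (c (Y \ insert z1 S) : ℝ)) ∧
    (D + ((P : ℝ) - p) + po (push m A) L +
        ∑ u ∈ L, (push m S {u, z1} + push m S {u, z1, z2}) - (push m S {z2} + push m S ∅) ≤
      (c (Y \ insert z2 S) : ℝ)) ∧
    (po (push m A) L ≤ pal m A - 1 - ((P : ℝ) - p) - (X + G)) := by
  have hz1m : z1 ∈ A \ S := by
    rw [hz]
    exact mem_insert_self _ _
  have hz2m : z2 ∈ A \ S := by
    rw [hz]
    exact mem_insert_of_mem (mem_singleton_self _)
  have hz1A : z1 ∈ A := (mem_sdiff.1 hz1m).1
  have hz2A : z2 ∈ A := (mem_sdiff.1 hz2m).1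
  set T : Finset V := {z1, z2} with hT
  have hTS : T ∪ S = A := by rw [← hz, sdiff_union_of_subset hSA]
  have hdTS : Disjoint T S := by
    rw [← hz]
    exact sdiff_disjoint
  have hTA : T ⊆ A := by
    rw [← hz]
    exact sdiff_subset
  have hLS : Disjoint L S := h.dL.mono_right hSA
  have hLT : Disjoint L T := h.dL.mono_right hTA
  have hSU : S ⊆ L ∪ A := hSA.trans subset_union_right
  have hTc : T.card = 2 := card_pair hne
  have hz1T : z1 ∈ T := mem_insert_self _ _
  have hz2T : z2 ∈ T := mem_insert_of_mem (mem_singleton_self _)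
  set m' := push m S with hm'
  have hp' : PosM m' := h.pos.push S
  set Om := po (push m A) L with hOm
  set om := pN (push m A) L with hom
  set ΓM := ∑ v ∈ T0, ((M v).card : ℝ) with hΓM
  have hLc : (L.card : ℝ) = (νk : ℝ) + 1 := by
    rw [h.Lc]
    push_cast
    ring
  have hpalU : pal m (L ∪ A) = (νk : ℝ) * p + P + 1 + X + G := by
    rw [h.palU]
    push_cast
    ring
  have hX0 := h.X0
  have hO0 := h.O0
  have hOG := h.OG
  rw [← hΓM] at hOG
  have hD1 := h.D1
  have hΓM0 : 0 ≤ ΓM := sum_nonneg fun _ _ => Nat.cast_nonneg _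
  have hsumL := sum_pa_low m h.dL
  rw [← hOm] at hsumL
  have hLK : L ∪ T = (L ∪ A) \ S := by
    rw [union_sdiff_distrib, sdiff_eq_self_of_disjoint hLS, hz]
  have hdT0 : Disjoint T0 (L ∪ T) := h.dT.mono_right (by rw [hLK]; exact sdiff_subset)
  -- the tops
  have hpaU : ∀ i ∈ T, pa m' (L ∪ T) i = pa m (L ∪ A) i := by
    intro i hi
    rw [hm', pa_push m (disjoint_union_left.2 ⟨hLS, hdTS⟩) (disjoint_left.1 hdTS hi),
      union_assoc, hTS]
  have hsh1 : ∑ u ∈ L, (m' {u, z1} + m' {u, z1, z2}) ≤ pa m (L ∪ A) z1 - pa m' T z1 := by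
    rw [← hpaU z1 hz1T]
    refine le_trans (le_of_eq ?_) (shared_top hp'.1 hLT z1 hz1T)
    refine sum_congr rfl fun u _ => ?_
    rw [hT, sum_powerset_pair hne fun E => if z1 ∈ E then m' ({u} ∪ E) else 0,
      if_neg (notMem_empty z1), if_pos (mem_singleton_self z1),
      if_neg (by simpa using hne), if_pos (mem_insert_self _ _)]
    have e1 : ({u} ∪ {z1} : Finset V) = {u, z1} := rfl
    have e2 : ({u} ∪ {z1, z2} : Finset V) = {u, z1, z2} := rfl
    rw [e1, e2]
    ring
  have hsh2 : ∑ u ∈ L, (m' {u, z2} + m' {u, z1, z2}) ≤ pa m (L ∪ A) z2 - pa m' T z2 := by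
    rw [← hpaU z2 hz2T]
    refine le_trans (le_of_eq ?_) (shared_top hp'.1 hLT z2 hz2T)
    refine sum_congr rfl fun u _ => ?_
    rw [hT, sum_powerset_pair hne fun E => if z2 ∈ E then m' ({u} ∪ E) else 0,
      if_neg (notMem_empty z2), if_pos (mem_singleton_self z2),
      if_neg (by simpa using hne.symm), if_pos (mem_insert_of_mem (mem_singleton_self _))]
    have e1 : ({u} ∪ {z2} : Finset V) = {u, z2} := rfl
    have e2 : ({u} ∪ {z1, z2} : Finset V) = {u, z1, z2} := rfl
    rw [e1, e2]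
    ring
  have hc1 : ∀ j ∈ T, P ≤ c (Y \ insert j S) + (((T0 ∪ L) ∪ T.erase j).biUnion M).card :=
    fun j hj => h.c1T hSU hSd hLK hLT hj
  obtain ⟨hcl, _⟩ := col_low (m := m) (L := L) (T := T) (S := S) (T0 := T0) (B := B) (M := M)
    (p := p) (P := P) (c' := fun j => c (Y \ insert j S)) hLT hLS hdTS hdT0 (by rw [hTc])
    (fun v hv => by rw [hTS]; exact h.paL hv)
    (fun v hv => by rw [hTS]; exact h.paA (mem_union_right L (hTA hv)))
    h.Bc h.MB hc1 (Q0 := pal m A) (Om := Om)
    (l := pal m A - 1 - ((P : ℝ) - p) - (X + G)) (ΓM := ΓM)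
    (by rw [hTS, hTc]; push_cast; ring) (by rw [hTS])
    (by rw [hTS, hLc, hpalU]; ring) hΓM
  rw [hTS] at hcl
  refine ⟨?_, ?_, ?_, ?_, ?_⟩
  · have h1 := sum_pa_sub m h.dL
    rw [sum_sub_distrib] at h1
    rw [sum_sub_distrib, sum_const, nsmul_eq_mul, hLc]
    linarith
  · intro u hu
    have hc1u : P ≤ c (Y \ insert u S) + ((T0 ∪ (L ∪ T).erase u).biUnion M).card := by
      have h1 := h.c1T (L' := ∅) (K := L ∪ T) hSU hSd (by rw [empty_union, hLK])
        (disjoint_empty_left _) (mem_union_left _ hu)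
      rwa [union_empty] at h1
    have huT : u ∉ T := disjoint_left.1 hLT hu
    have e1 : (L ∪ T).erase u = L.erase u ∪ T := by
      rw [erase_union_distrib, erase_eq_of_notMem huT]
    rw [e1] at hc1u
    have h2 : ((T0 ∪ (L.erase u ∪ T)).biUnion M).card ≤
        ∑ v ∈ T0, (M v).card + (∑ v ∈ L.erase u, (M v).card + ∑ v ∈ T, (M v).card) := by
      refine card_biUnion_le.trans (le_of_eq ?_)
      rw [sum_union (hdT0.mono_right (union_subset_union_left (erase_subset _ _))),
        sum_union (hLT.mono_left (erase_subset _ _))]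
    have h3 : (P : ℝ) ≤ (c (Y \ insert u S) : ℝ) + (ΓM +
        (∑ v ∈ L.erase u, ((M v).card : ℝ) + ∑ v ∈ T, ((M v).card : ℝ))) := by
      rw [hΓM]
      have h4 : P ≤ c (Y \ insert u S) + (∑ v ∈ T0, (M v).card +
        (∑ v ∈ L.erase u, (M v).card + ∑ v ∈ T, (M v).card)) := by omega
      exact_mod_cast h4
    have h4 : ∑ v ∈ L.erase u, ((M v).card : ℝ) ≤
        ∑ v ∈ L.erase u, ((p : ℝ) - pa m (L ∪ A) v) :=
      sum_le_sum fun v hv => by linarith [h.paL (mem_of_mem_erase hv)]
    have h5 : ((L.erase u).card : ℝ) = νk := by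
      rw [card_erase_of_mem hu, h.Lc, Nat.add_sub_cancel]
    rw [sum_sub_distrib, sum_const, nsmul_eq_mul, h5, h.sum_pa_erase hu, hpalU] at h4
    have h6 : ∑ v ∈ T, ((M v).card : ℝ) ≤ ∑ v ∈ T, ((P : ℝ) - pa m (L ∪ A) v) :=
      sum_le_sum fun v hv => by linarith [h.paA (mem_union_right L (hTA hv))]
    have h7 : ∑ v ∈ T, ((P : ℝ) - pa m (L ∪ A) v) =
        2 * P - (∑ v ∈ T, pa m' T v) - ((pa m (L ∪ A) z1 - pa m' T z1) +
          (pa m (L ∪ A) z2 - pa m' T z2)) := by
      rw [hT, sum_pair hne, sum_pair hne]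
      ring
    rw [h7] at h6
    have h8 : ∑ i ∈ T, pa m' T i = pal m A - m' ∅ + po m' T := by
      have h9 : pal m' T = pal m (T ∪ S) := pal_push hdTS
      rw [hTS] at h9
      rw [← h9]
      exact sum_pa
    have h9 : push m A {u} - m' {u} ≤ m' {u, z1} + m' {u, z1, z2} +
        (m' {u, z2} + m' {u, z1, z2}) := by
      have h10 : push m A {u} = push m' T {u} := by rw [hm', push_push m hdTS, hTS]
      rw [h10, hT, push_pair m' hne]
      have := hp'.1 {u, z1, z2}
      linarith
    have h10 : m' {u, z1} + m' {u, z1, z2} ≤ ∑ u ∈ L, (m' {u, z1} + m' {u, z1, z2}) :=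
      single_le_sum (f := fun u => m' {u, z1} + m' {u, z1, z2})
        (fun v _ => add_nonneg (hp'.1 _) (hp'.1 _)) hu
    have h11 : m' {u, z2} + m' {u, z1, z2} ≤ ∑ u ∈ L, (m' {u, z2} + m' {u, z1, z2}) :=
      single_le_sum (f := fun u => m' {u, z2} + m' {u, z1, z2})
        (fun v _ => add_nonneg (hp'.1 _) (hp'.1 _)) hu
    have h12 : 0 ≤ po m' T := po_nonneg hp'.1
    rw [h8] at h6
    linarith
  · have h1 := hcl z1 hz1T
    have e1 : T.erase z1 = {z2} := by
      rw [hT, erase_insert]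
      simpa using hne
    rw [e1, sum_singleton] at h1
    have h2 : 0 ≤ pom m' T z1 := pom_nonneg hp'.1 z1
    linarith
  · have h1 := hcl z2 hz2T
    have e1 : T.erase z2 = {z1} := by
      rw [hT, pair_comm, erase_insert]
      simpa using hne.symm
    rw [e1, sum_singleton] at h1
    have h2 : 0 ≤ pom m' T z2 := pom_nonneg hp'.1 z2
    linarith
  · have h1 : ∑ v ∈ L, pa m (L ∪ A) v ≤ ∑ v ∈ L, (p : ℝ) :=
      sum_le_sum fun v hv => by
        have h2 := h.paL hv
        have h3 : (0 : ℝ) ≤ ((M v).card : ℝ) := Nat.cast_nonneg _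
        linarith
    rw [hsumL, sum_const, nsmul_eq_mul, hLc] at h1
    linarith

/-- the masses are natural numbers -/
theorem OL.push_nat (h : OL F W Y T0 L A m M B c p q P νk t d X O G D) {E : Finset V}
    (hS : S ⊆ L ∪ A) (hE : E ⊆ L ∪ A) : ∃ n : ℕ, push m S E = n := by
  classical
  unfold push
  refine ⟨∑ E' ∈ S.powerset, (W.filter fun v => dn F Y v = E ∪ E').card, ?_⟩
  rw [Nat.cast_sum]
  refine sum_congr rfl fun E' hE' => ?_
  rw [h.m_eq _ (union_subset hE ((mem_powerset.1 hE').trans hS))]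
  unfold mY
  congr!

theorem OL.po_nat (h : OL F W Y T0 L A m M B c p q P νk t d X O G D) :
    ∃ n : ℕ, po (push m A) L = n := by
  classical
  have h1 : ∀ E ∈ L.powerset, ∃ n : ℕ, push m A E = n := fun E hE =>
    h.push_nat subset_union_right ((mem_powerset.1 hE).trans subset_union_left)
  choose! f hf using h1
  refine ⟨∑ E ∈ L.powerset, (E.card - 1) * f E, ?_⟩
  unfold po
  rw [Nat.cast_sum]
  refine sum_congr rfl fun E hE => ?_
  rw [hf E hE, Nat.cast_mul]

omit [DecidableEq V] [Fintype V] in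
theorem pt_zero (m : Finset V → ℝ) {K : Finset V} (hK : K.card ≤ 2) : pt m K = 0 := by
  unfold pt
  refine sum_eq_zero fun D hD => ?_
  have h1 := card_le_card (mem_powerset.1 hD)
  rw [show D.card - 2 = 0 by omega, Nat.cast_zero, zero_mul]

omit [Fintype V] in
theorem pom_zero (m : Finset V → ℝ) {K : Finset V} (hK : K.card ≤ 2) {j : V} (hj : j ∈ K) :
    pom m K j = 0 := by
  unfold pom
  refine sum_eq_zero fun D hD => ?_
  have h1 := card_le_card (erase_subset_erase j (mem_powerset.1 hD))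
  rw [card_erase_of_mem hj] at h1
  rw [show (D.erase j).card - 1 = 0 by omega, Nat.cast_zero, zero_mul]

/-- the inequality for the sets of tops, two slots, `D = 1, 2, 3` -/
theorem OL.top2_small (h : OL F W Y T0 L A m M B c p q P νk 2 d X O G D) (hPp : P = p + 1)
    (hD : D = 1 ∨ ((D = 2 ∨ D = 3) ∧ νk = 1)) (hSA : S ⊆ A) (hSd : S.card = d) :
    D * brkS m L A S p ≤ SK F W Y c S := by
  classical
  have hp2 : 2 ≤ p := h.q2.trans h.qp
  have hpr : (2 : ℝ) ≤ p := by exact_mod_cast hp2
  have hp23 : (p : ℝ) = 2 ∨ (3 : ℝ) ≤ p := by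
    rcases hp2.eq_or_lt with h1 | h1
    · left
      rw [← h1]
      norm_num
    · right
      exact_mod_cast h1
  have hPr : (P : ℝ) = p + 1 := by
    rw [hPp]
    push_cast
    ring
  have hp0 : (0 : ℝ) < p := by linarith
  obtain ⟨z1, z2, hne, hz⟩ : ∃ z1 z2, z1 ≠ z2 ∧ A \ S = {z1, z2} := by
    rw [← card_eq_two, card_sdiff_of_subset hSA, h.Ac, hSd]
    omega
  have hz1m : z1 ∈ A \ S := by
    rw [hz]
    exact mem_insert_self _ _
  have hz2m : z2 ∈ A \ S := by
    rw [hz]
    exact mem_insert_of_mem (mem_singleton_self _)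
  have hz1A : z1 ∈ A := (mem_sdiff.1 hz1m).1
  have hz2A : z2 ∈ A := (mem_sdiff.1 hz2m).1
  have hLS : Disjoint L S := h.dL.mono_right hSA
  have hSU : S ⊆ L ∪ A := hSA.trans subset_union_right
  obtain ⟨f1, f2, f3, f4, f5⟩ := h.facts2 hSA hSd hne hz
  set T : Finset V := {z1, z2} with hT
  have hTS : T ∪ S = A := by rw [← hz, sdiff_union_of_subset hSA]
  have hdTS : Disjoint T S := by
    rw [← hz]
    exact sdiff_disjoint
  have hTA : T ⊆ A := by
    rw [← hz]
    exact sdiff_subset
  have hLT : Disjoint L T := h.dL.mono_right hTA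
  have hKU : L ∪ T ⊆ (L ∪ A) \ S := by
    rw [union_sdiff_distrib, sdiff_eq_self_of_disjoint hLS, hz]
  have hSK := h.SK_ge hSU hSd hKU
  rw [sum_union hLT, hT, sum_pair hne] at hSK
  rw [brkS_top h.dL hSA, hz]
  set m' := push m S with hm'
  have hp' : PosM m' := h.pos.push S
  set cc := m' ∅ with hcc
  set x := m' {z1} + cc with hx
  set y := m' {z2} + cc with hy
  set e := m' {z1, z2} with he
  set Wt := pal m A with hWt
  set Om := po (push m A) L with hOm
  set om := pN (push m A) L with hom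
  set b : V → ℝ := fun u => (c (Y \ insert u S) : ℝ) with hb
  have hb0 : ∀ u, 0 ≤ b u := fun u => Nat.cast_nonneg _
  have hpA : ∀ D, 0 ≤ push m A D := push_nonneg h.pos.1 A
  have hcc0 : 0 ≤ cc := hp'.1 ∅
  have he0 : 0 ≤ e := hp'.1 _
  have hpush : ∀ u, push m A {u} = push m' T {u} := fun u => by
    rw [hm', push_push m hdTS, hTS]
  have hle : ∀ u, m {u} ≤ m' {u} := fun u => le_push h.pos.1 S {u}
  have hmu1 : ∀ u ∈ L, 1 ≤ m' {u} := fun u hu => (h.one (mem_union_left A hu)).trans (hle u)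
  have hz11 : 1 ≤ m' {z1} := (h.one (mem_union_right L hz1A)).trans (hle z1)
  have hz21 : 1 ≤ m' {z2} := (h.one (mem_union_right L hz2A)).trans (hle z2)
  have hcx : cc + 1 ≤ x := by linarith
  have hcy : cc + 1 ≤ y := by linarith
  have hx0 : 0 < x := by linarith
  have hy0 : 0 < y := by linarith
  have hWe : Wt = x + y - cc + e := by
    have h1 : pal m' T = pal m (T ∪ S) := pal_push hdTS
    rw [hTS, hT, pal_pair m' hne] at h1
    rw [hWt, ← h1]
    ring
  have hD0 := h.D0
  have hDp := h.Dp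
  have hD1 := h.D1
  have hOG := h.OG
  have hΓM0 : 0 ≤ ∑ v ∈ T0, ((M v).card : ℝ) := sum_nonneg fun _ _ => Nat.cast_nonneg _
  have hX0 := h.X0
  have hO0 := h.O0
  have hpt : pt (push m A) L = Om - om := by
    have := po_eq (m := push m A) (K := L)
    rw [← hOm, ← hom] at this
    linarith
  have homO : om ≤ Om := pN_le_po hpA L
  have hom0 : 0 ≤ om := pN_nonneg hpA
  have hOm0 : 0 ≤ Om := hom0.trans homO
  set l := Wt - 2 - (X + G) with hl
  have f1' : ∑ u ∈ L, ((p : ℝ) - push m A {u}) = l + om := by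
    rw [f1, hPr]
    ring
  have hOl : Om ≤ l := by
    rw [hPr] at f5
    linarith
  have hl0 : 0 ≤ l := hOm0.trans hOl
  have hWDl : D + 1 + l ≤ Wt := by linarith
  have hcp : ∀ u ∈ L, push m A {u} ≤ p := by
    intro u hu
    have h1 := le_pa hpA hu
    rw [pa_push m h.dL (disjoint_left.1 h.dL hu)] at h1
    have h2 := h.paL hu
    have h3 : (0 : ℝ) ≤ ((M u).card : ℝ) := Nat.cast_nonneg _
    linarith
  have hW2p : Wt ≤ 2 * p + 1 := by
    have h1 := h.ext
    have h2 := h.palU
    push_cast at h2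
    rw [hPr] at h2
    linarith
  have hW0 : 0 < Wt := by linarith
  have hLK2 : T ⊆ L ∪ A := hTA.trans subset_union_right
  -- natural numbers
  obtain ⟨xn, hxn⟩ : ∃ n : ℕ, x = n := by
    obtain ⟨n1, h1⟩ := h.push_nat (S := S) (E := {z1}) hSU
      (singleton_subset_iff.2 (mem_union_right L hz1A))
    obtain ⟨n2, h2⟩ := h.push_nat (S := S) (E := ∅) hSU (empty_subset _)
    refine ⟨n1 + n2, ?_⟩
    rw [hx, hcc, hm', h1, h2, Nat.cast_add]
  obtain ⟨yn, hyn⟩ : ∃ n : ℕ, y = n := by
    obtain ⟨n1, h1⟩ := h.push_nat (S := S) (E := {z2}) hSU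
      (singleton_subset_iff.2 (mem_union_right L hz2A))
    obtain ⟨n2, h2⟩ := h.push_nat (S := S) (E := ∅) hSU (empty_subset _)
    refine ⟨n1 + n2, ?_⟩
    rw [hy, hcc, hm', h1, h2, Nat.cast_add]
  have hcn : cc = 0 ∨ 1 ≤ cc := by
    obtain ⟨n2, h2⟩ := h.push_nat (S := S) (E := ∅) hSU (empty_subset _)
    rw [← hm', ← hcc] at h2
    rw [h2]
    rcases Nat.eq_zero_or_pos n2 with h3 | h3
    · left
      rw [h3, Nat.cast_zero]
    · right
      exact_mod_cast h3
  have hOn : Om = 0 ∨ 1 ≤ Om := by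
    obtain ⟨n2, h2⟩ := h.po_nat
    rw [hOm, h2]
    rcases Nat.eq_zero_or_pos n2 with h3 | h3
    · left
      rw [h3, Nat.cast_zero]
    · right
      exact_mod_cast h3
  have hsn : ∀ u ∈ L, ∀ E ⊆ T, (m' (insert u E) = 0 ∨ 1 ≤ m' (insert u E)) := by
    intro u hu E hE
    obtain ⟨n2, h2⟩ := h.push_nat (S := S) (E := insert u E) hSU
      (insert_subset (mem_union_left A hu) (hE.trans hLK2))
    rw [← hm'] at h2
    rw [h2]
    rcases Nat.eq_zero_or_pos n2 with h3 | h3
    · left
      rw [h3, Nat.cast_zero]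
    · right
      exact_mod_cast h3
  set S1 := ∑ u ∈ L, (m' {u, z2} + m' {u, z1, z2}) with hS1
  set S2 := ∑ u ∈ L, (m' {u, z1} + m' {u, z1, z2}) with hS2
  have hS10 : 0 ≤ S1 := sum_nonneg fun u _ => add_nonneg (hp'.1 _) (hp'.1 _)
  have hS20 : 0 ≤ S2 := sum_nonneg fun u _ => add_nonneg (hp'.1 _) (hp'.1 _)
  set g := D + 1 + Om with hg
  -- the right-hand side
  have hxy : 0 < x * y := mul_pos hx0 hy0
  have hrhs : y * max x (g + S1) + x * max y (g + S2) - x * y +
      x * y * ∑ u ∈ L, b u / (m' {u} + cc) ≤ x * y * SK F W Y c S := by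
    have h1 : max x (g + S1) ≤ x + b z1 := by
      refine max_le (by linarith [hb0 z1]) ?_
      rw [hPr] at f3
      linarith
    have h2 : max y (g + S2) ≤ y + b z2 := by
      refine max_le (by linarith [hb0 z2]) ?_
      rw [hPr] at f4
      linarith
    have h3 := mul_le_mul_of_nonneg_left h1 hy0.le
    have h4 := mul_le_mul_of_nonneg_left h2 hx0.le
    have h5 := mul_le_mul_of_nonneg_left hSK hxy.le
    have h6 : x * y * (1 + (∑ u ∈ L, b u / (m' {u} + cc) + (b z1 / x + b z2 / y))) =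
        x * y + y * b z1 + x * b z2 + x * y * ∑ u ∈ L, b u / (m' {u} + cc) := by
      field_simp
      ring
    rw [h6] at h5
    linarith
  have hbs0 : 0 ≤ x * y * ∑ u ∈ L, b u / (m' {u} + cc) :=
    mul_nonneg hxy.le (sum_nonneg fun u hu => div_nonneg (hb0 u) (by linarith [hmu1 u hu]))
  -- the left-hand side
  have hF12 : Ival m' T = (1 / x + 1 / y) / Wt := by
    have h1 := Ival_pair m' hne.symm
    rw [pair_comm] at h1
    rw [hT, h1, push_sing, hWe]
    have h2 : m' {z2, z1} = e := by rw [he, pair_comm]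
    rw [h2, ← hcc, ← hx, ← hy]
    congr 1
    rw [hy]
    ring
  have hFu1 : ∀ u ∈ L, Ival m' {u, z1} =
      (1 / x + 1 / (m' {u} + cc)) / (x + (m' {u} + m' {u, z1})) := by
    intro u hu
    have hu1 : u ≠ z1 := fun h1 => disjoint_left.1 h.dL hu (h1 ▸ hz1A)
    rw [Ival_pair m' hu1, push_sing, ← hcc, ← hx]
  have hFu2 : ∀ u ∈ L, Ival m' {u, z2} =
      (1 / y + 1 / (m' {u} + cc)) / (y + (m' {u} + m' {u, z2})) := by
    intro u hu
    have hu2 : u ≠ z2 := fun h1 => disjoint_left.1 h.dL hu (h1 ▸ hz2A)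
    rw [Ival_pair m' hu2, push_sing, ← hcc, ← hy]
  have hcu : ∀ u, push m A {u} = m' {u} + m' {u, z1} + m' {u, z2} + m' {u, z1, z2} := fun u => by
    rw [hpush, hT, push_pair m' hne]
  have hFu : ∀ u ∈ L, Ival m' (insert u T) =
      (Ival m' T + Ival m' {u, z1} + Ival m' {u, z2}) / (Wt + push m A {u}) := by
    intro u hu
    have hu1 : u ≠ z1 := fun h1 => disjoint_left.1 h.dL hu (h1 ▸ hz1A)
    have hu2 : u ≠ z2 := fun h1 => disjoint_left.1 h.dL hu (h1 ▸ hz2A)
    rw [hT, Ival_triple m' hu1 hu2 hne, ← hT, hpush]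
    congr 2
    have h1 : pal m' T = pal m (T ∪ S) := pal_push hdTS
    rw [hTS] at h1
    exact h1
  have hWcu : ∀ u ∈ L, (p : ℝ) ≤ Wt + push m A {u} := by
    intro u hu
    have h1 := h.sum_pa_erase hu
    have h2 : ∑ v ∈ L.erase u, pa m (L ∪ A) v ≤ ∑ v ∈ L.erase u, (p : ℝ) :=
      sum_le_sum fun v hv => by
        have h2 := h.paL (mem_of_mem_erase hv)
        have h3 : (0 : ℝ) ≤ ((M v).card : ℝ) := Nat.cast_nonneg _
        linarith
    rw [h1, sum_const, nsmul_eq_mul, card_erase_of_mem hu, h.Lc, Nat.add_sub_cancel] at h2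
    have h3 := h.palU
    push_cast at h3
    rw [hPr] at h3
    have h4 := pom_nonneg (K := L) hpA u
    linarith
  refine le_of_mul_le_mul_left ?_ hxy
  set n := x + y with hn
  have hn0 : 0 < n := by linarith
  have hxyF : x * y * Ival m' T = n / Wt := by
    rw [hF12, hn]
    field_simp
    ring
  have hlhs : x * y * (D * ((2 + pt (push m A) L / p) * Ival m' T +
      ∑ u ∈ L, (1 + pom (push m A) L u / p) * (p * Ival m' (insert u T) - Ival m' T))) =
      D * ((2 + (Om - om) / p) * (n / Wt)) + ∑ u ∈ L, (1 + pom (push m A) L u / p) *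
        (D * (x * y * (p * Ival m' (insert u T) - Ival m' T))) := by
    rw [← hxyF, hpt, mul_add D, mul_add (x * y), mul_sum, mul_sum]
    congr 1
    · ring
    · exact sum_congr rfl fun u _ => by ring
  rw [hlhs]
  refine le_trans ?_ hrhs
  set t : V → ℝ := fun u => x * y * (p * Ival m' (insert u T) - Ival m' T) with ht
  have hA0 : ∀ u ∈ L, 0 ≤ (p : ℝ) - push m A {u} := fun u hu => sub_nonneg.2 (hcp u hu)
  have hs1 : ∀ u ∈ L, 0 ≤ m' {u, z1} := fun u _ => hp'.1 _
  have hs2 : ∀ u ∈ L, 0 ≤ m' {u, z2} := fun u _ => hp'.1 _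
  have hs12 : ∀ u ∈ L, 0 ≤ m' {u, z1, z2} := fun u _ => hp'.1 _
  have ho0 : ∀ u ∈ L, 0 ≤ pom (push m A) L u := fun u _ => pom_nonneg hpA u
  have hoO : ∀ u ∈ L, pom (push m A) L u ≤ Om := fun u _ => pom_le_po hpA L u
  have hlp : l ≤ 2 * p - 1 := by linarith only [hl, hW2p, hX0, hO0, hOG, hΓM0]
  have hl2W : 2 + l ≤ Wt := by linarith only [hl, hX0, hO0, hOG, hΓM0]
  have hν2 : νk = 1 → L.card = 2 := fun hν => by rw [h.Lc, hν]
  have hνo : νk = 1 → om = Om := fun hν => by
    have h1 := pt_zero (push m A) (hν2 hν).le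
    rw [hpt] at h1
    linarith only [h1]
  rcases hcn with hc0 | hc1
  · -- no base
    have hx1 : 1 ≤ x := by linarith only [hcx, hcc0]
    have hy1 : 1 ≤ y := by linarith only [hcy, hcc0]
    have hnW : n ≤ Wt := by linarith only [hWe, hc0, he0, hn]
    have hlow : ∀ u ∈ L, ∃ Z : ℝ, 0 ≤ Z ∧ t u ≤
        (p - push m A {u}) * n / (Wt * (Wt + 1)) + Z / m' {u} ∧
        Z ≤ (p - push m A {u}) * n / (Wt + 1) + x / (x + 2) * (m' {u, z1} + m' {u, z1, z2}) +
          y / (y + 2) * (m' {u, z2} + m' {u, z1, z2}) ∧ Z ≤ n := by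
      intro u hu
      have e1 := hFu1 u hu
      have e2 := hFu2 u hu
      rw [hc0, add_zero] at e1 e2
      obtain ⟨Z, a1, a2, a3, a4⟩ := lowA (e := e) hx1 hy1 he0 (hmu1 u hu)
        (hsn u hu {z1} (by rw [hT]; exact singleton_subset_iff.2 (mem_insert_self _ _)))
        (hsn u hu {z2} (by
          rw [hT]
          exact singleton_subset_iff.2 (mem_insert_of_mem (mem_singleton_self _))))
        (hsn u hu {z1, z2} Subset.rfl) (by rw [hWe, hc0, sub_zero]) (hcu u) (hcp u hu) hF12
        e1 e2 (hFu u hu)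
      exact ⟨Z, a1, a2, a3, a4 (hWcu u hu)⟩
    rcases hD with hD | ⟨hD, hν⟩
    · -- `D = 1`
      have h1 := caseA1 (p := (p : ℝ)) hp23 hx1 hy1 hn hnW hl2W hlp hom0 homO hOl hOn hmu1 hA0
        hs1 hs2 hs12 ho0 hoO f1' hlow
      rw [hg, hD]
      simp only [one_mul]
      have h2 : (1 : ℝ) + 1 + Om = 2 + Om := by ring
      rw [h2]
      exact h1.trans (le_add_of_nonneg_right hbs0)
    · -- `D = 2, 3`
      have hb2 : ∀ u ∈ L, D - m' {u} ≤ b u := by
        intro u hu
        have h1 := f2 u hu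
        rw [pom_zero _ (hν2 hν).le hu, hc0] at h1
        linarith only [h1]
      rw [hνo hν] at f1'
      have h1 := caseA23 (R := ∑ u ∈ L, b u / (m' {u} + cc)) hD (hν2 hν)
        (by
          rw [hxn] at hx1 ⊢
          have h2 : 1 ≤ xn := by exact_mod_cast hx1
          rcases h2.eq_or_lt with h3 | h3
          · left
            rw [← h3, Nat.cast_one]
          · right
            exact_mod_cast h3)
        (by
          rw [hyn] at hy1 ⊢
          have h2 : 1 ≤ yn := by exact_mod_cast hy1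
          rcases h2.eq_or_lt with h3 | h3
          · left
            rw [← h3, Nat.cast_one]
          · right
            exact_mod_cast h3)
        hn hWDl hOm0 hOl hOn hmu1 hs1 hs2 hs12 f1' (fun u _ => hb0 u) hb2
        (sum_congr rfl fun u _ => by rw [hc0, add_zero]) hlow
      rw [hνo hν, sub_self, zero_div, add_zero]
      refine le_trans (le_of_eq ?_) h1
      congr 1
      refine sum_congr rfl fun u hu => ?_
      rw [pom_zero _ (hν2 hν).le hu, zero_div, add_zero, one_mul]
  · -- a base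
    set τ := max 0 (2 - cc / ((p : ℝ) - 1)) / (cc + 2) with hτ
    obtain ⟨hτ0, hτ2, hτ3, _⟩ := tau_le hpr hc1 hτ
    have hWc : cc + 2 ≤ Wt := by linarith only [hWe, hcx, hcy, he0]
    have hnWc : n ≤ Wt + cc := by linarith only [hWe, hn, he0]
    have hlow : ∀ u ∈ L, t u ≤
        n * ((p - push m A {u}) * ((1 + τ * Wt) / (Wt * (Wt + 1))) +
          τ * (m' {u, z1} + m' {u, z2} + m' {u, z1, z2}) / (Wt + 1)) := by
      intro u hu
      exact lowB hpr hc1 hcx hcy (hmu1 u hu) (hp'.1 _) (hp'.1 _) (hp'.1 _) hW0 (hcu u)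
        (hcp u hu) hτ hF12 (hFu1 u hu) (hFu2 u hu) (hFu u hu)
    refine le_trans ?_ (le_add_of_nonneg_right hbs0)
    rcases hD with hD | ⟨hD, hν⟩
    · -- `D = 1`
      have h1 := caseB1 (p := (p : ℝ)) hp23 hc1 hcx hcy hn hnWc hWc hl2W hlp hτ hom0 homO hOl
        hA0 hs1 hs2 hs12 ho0 hoO f1' hlow
      rw [hg, hD]
      simp only [one_mul]
      have h2 : (1 : ℝ) + 1 + Om = 2 + Om := by ring
      rw [h2]
      exact h1
    · -- `D = 2, 3`
      rw [hνo hν] at f1'
      have h1 := caseB23 (D := D) (by rcases hD with h1 | h1 <;> rw [h1]; norm_num)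
        (by rcases hD with h1 | h1 <;> rw [h1]; norm_num) hc1 hcx hcy hn hnWc hWc hWDl hτ0 hτ2
        hOm0 hOl hs1 hs2 hs12 f1' hlow
      rw [hνo hν, sub_self, zero_div, add_zero]
      refine le_trans (le_of_eq ?_) h1
      congr 1
      refine sum_congr rfl fun u hu => ?_
      rw [pom_zero _ (hν2 hν).le hu, zero_div, add_zero, one_mul]

/-- the inequality for the sets of tops, two slots, one slot in the low level, `4 ≤ D` -/
theorem OL.top2_big (h : OL F W Y T0 L A m M B c p q P νk 2 d X O G D) (hν : νk = 1)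
    (hD : 4 ≤ D) (hSA : S ⊆ A) (hSd : S.card = d) :
    D * brkS m L A S p ≤ SK F W Y c S := by
  classical
  have hp2 : 2 ≤ p := h.q2.trans h.qp
  have hpr : (2 : ℝ) ≤ p := by exact_mod_cast hp2
  have hPr : (p : ℝ) + 1 ≤ P := by exact_mod_cast h.pP
  have hp0 : (0 : ℝ) < p := by linarith
  have hLc : L.card = 2 := by rw [h.Lc, hν]
  set T := A \ S with hT
  have hTS : T ∪ S = A := sdiff_union_of_subset hSA
  have hdTS : Disjoint T S := sdiff_disjoint
  have hTA : T ⊆ A := sdiff_subset
  have hLT : Disjoint L T := h.dL.mono_right hTA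
  have hLS : Disjoint L S := h.dL.mono_right hSA
  have hSU : S ⊆ L ∪ A := hSA.trans subset_union_right
  have hTc : T.card = 2 := by
    rw [hT, card_sdiff_of_subset hSA, h.Ac, hSd]
    omega
  have hLK : L ∪ T = (L ∪ A) \ S := by
    rw [union_sdiff_distrib, sdiff_eq_self_of_disjoint hLS]
  have hSK := h.SK_ge hSU hSd (K := L ∪ T) (by rw [hLK])
  have hSK1 := h.SK_one hSU hSd
  rw [sum_union hLT] at hSK
  rw [brkS_top h.dL hSA]
  set m' := push m S with hm'
  have hp' : PosM m' := h.pos.push S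
  have hpA : ∀ D, 0 ≤ push m A D := push_nonneg h.pos.1 A
  set w : V → ℝ := fun j => (c (Y \ insert j S) : ℝ) / (m' {j} + m' ∅) with hw
  have hw0 : ∀ j, 0 ≤ w j := fun j => div_nonneg (Nat.cast_nonneg _)
    (add_nonneg (hp'.1 _) (hp'.1 _))
  -- the bracket
  have hbr : (2 + pt (push m A) L / p) * Ival m' T + ∑ u ∈ L, (1 + pom (push m A) L u / p) *
      (p * Ival m' (insert u T) - Ival m' T) = p * ∑ u ∈ L, Ival m' (insert u T) := by
    have h1 : ∑ u ∈ L, (1 + pom (push m A) L u / p) *
      (p * Ival m' (insert u T) - Ival m' T) =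
        ∑ u ∈ L, (p * Ival m' (insert u T) - Ival m' T) := by
      refine sum_congr rfl fun u hu => ?_
      rw [pom_zero _ hLc.le hu, zero_div, add_zero, one_mul]
    rw [h1, pt_zero _ hLc.le, sum_sub_distrib, sum_const, nsmul_eq_mul, hLc, mul_sum]
    push_cast
    ring
  rw [hbr]
  have hterm : ∀ u ∈ L, D * (P * Ival m' (insert u T)) ≤ (2 + (w u + ∑ j ∈ T, w j)) / 4 := by
    intro u hu
    have huA : u ∉ A := disjoint_left.1 h.dL hu
    have huT : u ∉ T := fun h1 => huA (hTA h1)
    set L' := L.erase u with hL'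
    set K := insert u T with hK
    have hKc : K.card = 3 := by
      rw [hK, card_insert_of_notMem huT, hTc]
    have hL'K : Disjoint L' K := by
      rw [hK, disjoint_insert_right]
      exact ⟨notMem_erase u L, hLT.mono_left (erase_subset _ _)⟩
    have hLK' : L' ∪ K = (L ∪ A) \ S := by
      rw [← hLK, hK, hL', union_insert, ← insert_union, insert_erase hu]
    have hKU : K ⊆ (L ∪ A) \ S := by
      rw [← hLK']
      exact subset_union_right
    have hdTK : Disjoint (T0 ∪ L') K :=
      disjoint_union_left.2 ⟨h.dT.mono_right (hKU.trans sdiff_subset), hL'K⟩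
    have hdKS : Disjoint K S := by
      rw [hK, disjoint_insert_left]
      exact ⟨fun h1 => huA (hSA h1), hdTS⟩
    have hKS : K ∪ S = insert u A := by
      rw [hK, insert_union, hTS]
    have huU : insert u A ⊆ L ∪ A := insert_subset (mem_union_left A hu) subset_union_right
    have hpal : pal m' K = push m A {u} + pal m A := by
      have h1 : pal m' K = pal m (K ∪ S) := pal_push hdKS
      have h2 : pal (push m A) {u} = pal m ({u} ∪ A) := pal_push (disjoint_singleton_left.2 huA)
      rw [pal_sing, push_base] at h2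
      rw [h1, hKS, insert_eq, ← h2]
    have hsum := h.sum_pa_erase hu
    rw [pom_zero _ hLc.le hu, add_zero] at hsum
    have hsM : ∑ v ∈ L', ((M v).card : ℝ) ≤ p - (pal m (L ∪ A) - (push m A {u} + pal m A)) := by
      have h1 : ∑ v ∈ L', ((M v).card : ℝ) ≤ ∑ v ∈ L', ((p : ℝ) - pa m (L ∪ A) v) :=
        sum_le_sum fun v hv => by linarith [h.paL (mem_of_mem_erase hv)]
      rw [sum_sub_distrib, sum_const, nsmul_eq_mul, hsum, hL', card_erase_of_mem hu, hLc] at h1
      push_cast at h1
      linarith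
    have hpalU := h.palU
    rw [hν] at hpalU
    push_cast at hpalU
    have hD1 := h.D1
    have hDp := h.Dp
    have hOG := h.OG
    have hdT0L : Disjoint T0 L' := h.dT.mono_right
      ((erase_subset _ _).trans subset_union_left)
    set Q0 := pal m' K - ((K.card : ℝ) - 2) * P with hQ0
    have hQ0' : Q0 = push m A {u} + pal m A - P := by
      rw [hQ0, hKc, hpal]
      push_cast
      ring
    have hQ : D + ∑ v ∈ T0 ∪ L', ((M v).card : ℝ) ≤ Q0 := by
      rw [sum_union hdT0L, hQ0']
      linarith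
    have hv := vstar_col (m := m') (T := T0 ∪ L') (K := K) (M := M) (q := P)
      (c' := fun j => c (Y \ insert j S)) hp' (by rw [hKc]; omega) hdTK
      (by have := h.pP; omega) h.Bc h.MB
      (by
        intro v hv
        have h1 := h.paA (mem_sdiff.1 (hKU hv)).1
        have h2 : pa m' K v ≤ pa m (L ∪ A) v := by
          rw [hm', pa_push m hdKS (disjoint_left.1 hdKS hv), hKS]
          exact pa_mono h.pos.1 huU v
        linarith)
      (fun j hj => h.c1T hSU hSd hLK' hL'K hj) (Q1 := D) (by linarith)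
      (by linarith) hQ
    rw [← hQ0, hKc, show 3 - 2 = 1 from rfl, pow_one, hK, sum_insert huT, ← hK] at hv
    have hF : 0 ≤ (P : ℝ) * Ival m' K := mul_nonneg (Nat.cast_nonneg _) (Ival_pos hp' K).le
    have hM0 : 0 ≤ ∑ v ∈ T0 ∪ L', ((M v).card : ℝ) := sum_nonneg fun _ _ => Nat.cast_nonneg _
    have h1 : D * 4 * ((P : ℝ) * Ival m' K) ≤ D * Q0 * ((P : ℝ) * Ival m' K) :=
      mul_le_mul_of_nonneg_right (mul_le_mul_of_nonneg_left (by linarith) (by linarith)) hF
    have h2 : D * 4 * ((P : ℝ) * Ival m' K) ≤ 2 + (w u + ∑ j ∈ T, w j) := h1.trans hv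
    linarith
  have hsum := sum_le_sum hterm
  have hRs : ∑ u ∈ L, (2 + (w u + ∑ j ∈ T, w j)) / 4 =
      (4 + ∑ u ∈ L, w u + 2 * ∑ j ∈ T, w j) / 4 := by
    rw [← sum_div, sum_add_distrib, sum_add_distrib, sum_const, sum_const, nsmul_eq_mul,
      nsmul_eq_mul, hLc]
    push_cast
    ring
  rw [hRs, ← mul_sum, ← mul_sum] at hsum
  have hF0 : 0 ≤ ∑ u ∈ L, Ival m' (insert u T) := sum_nonneg fun u _ => (Ival_pos hp' _).le
  have h1 : D * (p * ∑ u ∈ L, Ival m' (insert u T)) ≤
      D * (P * ∑ u ∈ L, Ival m' (insert u T)) :=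
    mul_le_mul_of_nonneg_left (mul_le_mul_of_nonneg_right (by linarith) hF0) (by linarith)
  have h2 : 0 ≤ ∑ u ∈ L, w u := sum_nonneg fun u _ => hw0 u
  have hSK' : 1 + (∑ j ∈ L, w j + ∑ j ∈ T, w j) ≤ SK F W Y c S := hSK
  linarith

/-- the same data for the largest `D` -/
theorem OL.changeD (h : OL F W Y T0 L A m M B c p q P νk t d X O G D) {D' : ℝ} (h0 : 0 ≤ D')
    (h1 : D' ≤ 1 + X + O) (h2 : D' ≤ p) : OL F W Y T0 L A m M B c p q P νk t d X O G D' :=
  { h with D0 := h0, D1 := h1, Dp := h2 }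

/-- the inequality for the sets of tops, two slots, the caps `p` and `p + 1` -/
theorem OL.top2 (h : OL F W Y T0 L A m M B c p q P νk 2 d X O G D) (hPp : P = p + 1)
    (hq : q = p ∨ νk = 1) (hSA : S ⊆ A) (hSd : S.card = d) {κ : ℝ}
    (hκ : 1 ≤ κ) :
    D * (q : ℝ) ^ ((νk - 1) + (2 - 1)) * brkS m L A S p ≤ κ * (p : ℝ) ^ νk * SK F W Y c S := by
  have hqr : (2 : ℝ) ≤ q := by exact_mod_cast h.q2
  have hqp : (q : ℝ) ≤ p := by exact_mod_cast h.qp
  have hp2 : 2 ≤ p := h.q2.trans h.qp
  have hpr : (2 : ℝ) ≤ p := by exact_mod_cast hp2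
  have hp0 : (0 : ℝ) < p := by linarith
  have hSK1 := h.SK_one (hSA.trans subset_union_right) hSd
  have hpν : 0 < (p : ℝ) ^ νk := pow_pos hp0 _
  have hX0 := h.X0
  have hO0 := h.O0
  have hD0 := h.D0
  have hD1 := h.D1
  have hDp := h.Dp
  have key : D * brkS m L A S p ≤ SK F W Y c S := by
    rcases le_total (brkS m L A S p) 0 with hb | hb
    · have : D * brkS m L A S p ≤ 0 := mul_nonpos_of_nonneg_of_nonpos hD0 hb
      linarith
    · -- the largest value of `D`
      obtain ⟨z, hz⟩ := h.XO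
      have hz0 : 0 ≤ z := by
        have h1 : (0 : ℝ) ≤ (z : ℝ) := by rw [← hz]; linarith
        exact_mod_cast h1
      obtain ⟨k, rfl⟩ := Int.eq_ofNat_of_zero_le hz0
      set D' : ℕ := min p (1 + k) with hD'
      have hD'1 : (D' : ℝ) ≤ 1 + X + O := by
        have h1 : D' ≤ 1 + k := min_le_right _ _
        have h2 : (D' : ℝ) ≤ 1 + k := by exact_mod_cast h1
        have h3 : X + O = (k : ℝ) := by
          rw [hz]
          norm_cast
        linarith
      have hD'p : (D' : ℝ) ≤ p := by exact_mod_cast min_le_left p (1 + k)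
      have hDD' : D ≤ D' := by
        have h3 : X + O = (k : ℝ) := by
          rw [hz]
          norm_cast
        rw [hD', Nat.cast_min]
        push_cast
        exact le_min hDp (by linarith)
      have hOL := h.changeD (D' := D') (Nat.cast_nonneg _) hD'1 hD'p
      refine (mul_le_mul_of_nonneg_right hDD' hb).trans ?_
      have hD'pos : 1 ≤ D' := le_min (by omega) (by omega)
      rcases Nat.lt_or_ge D' 4 with h4 | h4
      · refine hOL.top2_small hPp ?_ hSA hSd
        rcases hD'pos.eq_or_lt with h5 | h5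
        · left
          rw [← h5, Nat.cast_one]
        · right
          refine ⟨?_, ?_⟩
          · have h6 : D' = 2 ∨ D' = 3 := by omega
            rcases h6 with h6 | h6 <;> rw [h6]
            · left
              norm_num
            · right
              norm_num
          · rcases hq with h6 | h6
            · exfalso
              rcases h.k0 with ⟨_, h7, h8, _, _⟩ | h7
              · have h9 : (D' : ℝ) ≤ 1 := by linarith
                have h10 : D' ≤ 1 := by exact_mod_cast h9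
                omega
              · omega
            · exact h6
      · have h6 : νk = 1 := by
          rcases hq with h6 | h6
          · exfalso
            rcases h.k0 with ⟨_, h7, h8, _, _⟩ | h7
            · have h9 : (D' : ℝ) ≤ 1 := by linarith
              have h10 : D' ≤ 1 := by exact_mod_cast h9
              omega
            · omega
          · exact h6
        exact hOL.top2_big h6 (by exact_mod_cast h4) hSA hSd
  have e1 : (q : ℝ) ^ ((νk - 1) + (2 - 1)) ≤ (p : ℝ) ^ νk := by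
    have h1 : (νk - 1) + (2 - 1) = νk := by
      have := h.ν1
      omega
    rw [h1]
    exact pow_le_pow_left₀ (by linarith) hqp _
  have h6 : 0 ≤ SK F W Y c S := by linarith
  have hq0 : 0 ≤ (q : ℝ) ^ ((νk - 1) + (2 - 1)) := pow_nonneg (by linarith) _
  calc D * (q : ℝ) ^ ((νk - 1) + (2 - 1)) * brkS m L A S p
      = (q : ℝ) ^ ((νk - 1) + (2 - 1)) * (D * brkS m L A S p) := by ring
    _ ≤ (q : ℝ) ^ ((νk - 1) + (2 - 1)) * SK F W Y c S := mul_le_mul_of_nonneg_left key hq0
    _ ≤ (p : ℝ) ^ νk * SK F W Y c S := mul_le_mul_of_nonneg_right e1 h6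
    _ = 1 * ((p : ℝ) ^ νk * SK F W Y c S) := (one_mul _).symm
    _ ≤ κ * ((p : ℝ) ^ νk * SK F W Y c S) :=
        mul_le_mul_of_nonneg_right hκ (mul_nonneg hpν.le h6)
    _ = _ := by ring

end

end MP76b19e.Rob
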