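import Mathlib

/-!
# The numerical inequality for one low level and at least two tops (problem MP_76b19e_co)

`nE3`: the bounds for `Q₁ = 2 (D / p) (q / P) ^ (t - 2) N / Q₀` which are needed in `vstarX`.
-/

set_option autoImplicit false

namespace MP76b19e.Rob.NE3

theorem nDO {p D O : ℝ} (hDp : D ≤ p) (hO : 0 ≤ O) : D * (p + O) ≤ p * (D + O) := by
  nlinarith

/-- base inequality -/
theorem nB {p P D R l O : ℝ} (hp : 2 ≤ p) (hP : p + 1 ≤ P) (hD0 : 0 ≤ D) (hDp : D ≤ p)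
    (hR1 : 1 + (P - p) ≤ R) (hRD : D + (P - p) ≤ R) (hc : D ≤ 1 ∨ p = 3 ∨ 4 ≤ p)
    (hO : 0 ≤ O) (hOl : O ≤ l) (hlD : l + D ≤ 2 * p) (hl : l + 1 ≤ 2 * p) :
    2 * D * (2 * p + (p + O) * (l + O + P - 1)) ≤ p ^ 2 * (R + l) * (R + O) := by
  have hl0 : 0 ≤ l := hO.trans hOl
  obtain ⟨h, rfl⟩ : ∃ h, P = p + h := ⟨P - p, by ring⟩
  have hh : 1 ≤ h := by linarith
  have e1 : p + h - p = h := by ring
  rw [e1] at hR1 hRD
  have hR0 : 0 ≤ R := by linarith
  rcases le_or_gt D 1 with hD1 | hD1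
  · have h1 : 2 * D * (2 * p + (p + O) * (l + O + (p + h) - 1)) ≤
        2 * 1 * (2 * p + (p + O) * (l + O + (p + h) - 1)) := by
      refine mul_le_mul_of_nonneg_right (by linarith) ?_
      have : 0 ≤ (p + O) * (l + O + (p + h) - 1) := mul_nonneg (by linarith) (by linarith)
      linarith
    have h2 : p ^ 2 * (1 + h + l) * (1 + h + O) ≤ p ^ 2 * (R + l) * (R + O) := by
      refine mul_le_mul (mul_le_mul_of_nonneg_left (by linarith) (sq_nonneg p)) (by linarith)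
        (by linarith) (mul_nonneg (sq_nonneg p) (by linarith))
    refine h1.trans (le_trans ?_ h2)
    -- coefficients
    have c1 : 0 ≤ p ^ 2 * (1 + h) ^ 2 - 2 * p * (1 + h) - 2 * p ^ 2 := by
      nlinarith [mul_nonneg (sub_nonneg.2 hp) (sub_nonneg.2 hh), sq_nonneg (h - 1),
        mul_nonneg (mul_nonneg (by linarith : 0 ≤ p) (by linarith : 0 ≤ p)) (sub_nonneg.2 hh),
        mul_nonneg (by linarith : (0:ℝ) ≤ p) (sub_nonneg.2 hp)]
    have c2 : 0 ≤ p ^ 2 * (1 + h) - 2 * p := by nlinarith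
    have c3 : 0 ≤ p ^ 2 * (1 + h) - (4 * p - 4 + 2 * (1 + h)) := by
      have h3 : 0 ≤ (h - 1) * (p ^ 2 - 2) := mul_nonneg (by linarith) (by nlinarith)
      have h4 : 0 ≤ p * (p - 2) := mul_nonneg (by linarith) (by linarith)
      nlinarith
    have c4 : 0 ≤ p ^ 2 - 4 := by nlinarith
    have hlO : O * O ≤ l * O := mul_le_mul_of_nonneg_right hOl hO
    nlinarith [mul_nonneg c2 hl0, mul_nonneg c3 hO, mul_nonneg c4 (mul_nonneg hl0 hO)]
  · have h2 : p ^ 2 * (D + h + l) * (D + h + O) ≤ p ^ 2 * (R + l) * (R + O) := by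
      refine mul_le_mul (mul_le_mul_of_nonneg_left (by linarith) (sq_nonneg p)) (by linarith)
        (by linarith) (mul_nonneg (sq_nonneg p) (by linarith))
    refine le_trans ?_ h2
    have hp3 : 3 ≤ p := by
      rcases hc with h3 | h3 | h3 <;> linarith
    have c1 : 2 * D * p * (p + h + 1) ≤ p ^ 2 * (D + h) ^ 2 := by
      have h3 : 4 * D * h ≤ (D + h) ^ 2 := by nlinarith [sq_nonneg (D - h)]
      have h4 : p + h + 1 ≤ 2 * p * h := by nlinarith
      calc 2 * D * p * (p + h + 1) ≤ 2 * D * p * (2 * p * h) :=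
            mul_le_mul_of_nonneg_left h4 (by positivity)
        _ = p ^ 2 * (4 * D * h) := by ring
        _ ≤ _ := mul_le_mul_of_nonneg_left h3 (sq_nonneg p)
    have c3 : 0 ≤ p ^ 2 * (D + h) - 2 * D * p - 2 * D * (p + h - 1) := by
      rcases hc with h3 | h3 | h3
      · linarith
      · subst h3
        nlinarith
      · nlinarith [mul_nonneg (mul_nonneg (by linarith : 0 ≤ p) hD0) (by linarith : 0 ≤ p - 4),
          mul_nonneg hD0 (by linarith : 0 ≤ h - 1), mul_nonneg (by linarith : (0:ℝ) ≤ p - D)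
          (by linarith : 0 ≤ h - 1)]
    have hlO : O * O ≤ l * O := mul_le_mul_of_nonneg_right hOl hO
    have c4 : 0 ≤ (p ^ 2 - 4 * D) * (l * O) + (p ^ 2 * (D + h) - 2 * D * p) * l := by
      have h5 : (p ^ 2 - 4 * D) * (l * O) + (p ^ 2 * (D + h) - 2 * D * p) * l =
          l * ((p ^ 2 - 4 * D) * O + p * (p * (D + h) - 2 * D)) := by ring
      rw [h5]
      refine mul_nonneg hl0 ?_
      rcases hc with h3 | h3 | h3
      · linarith
      · subst h3
        nlinarith [mul_nonneg hO (by linarith : (0:ℝ) ≤ 3 - D)]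
      · have h6 : 0 ≤ p ^ 2 - 4 * D := by nlinarith
        have h7 : 0 ≤ p * (p * (D + h) - 2 * D) := mul_nonneg (by linarith) (by nlinarith)
        nlinarith [mul_nonneg h6 hO]
    nlinarith [mul_nonneg c3 hO, mul_nonneg hD0 (by linarith : 0 ≤ l * O - O * O)]


/-- the slope -/
theorem nS {p q P D R l O : ℝ} (hp : 2 ≤ p) (hqp : q ≤ p) (hP : p + 1 ≤ P)
    (hD0 : 0 ≤ D) (hDp : D ≤ p)
    (hR1 : 1 + (P - p) ≤ R) (hRD : D + (P - p) ≤ R) (hc : D ≤ 1 ∨ (q ≤ p - 1 ∧ 3 ≤ p))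
    (hO : 0 ≤ O) (hOl : O ≤ l) :
    6 * q * D * (p + O) ≤ p ^ 2 * P * (R + l) := by
  have hl0 : 0 ≤ l := hO.trans hOl
  have hp0 : (0 : ℝ) ≤ p := by linarith
  rcases hc with hD1 | ⟨hq1, hp3⟩
  · have h1 : 6 * q * D * (p + O) ≤ 6 * p * 1 * (p + O) := by
      refine mul_le_mul_of_nonneg_right ?_ (by linarith)
      exact mul_le_mul (by linarith) hD1 hD0 (by linarith)
    have h2 : p ^ 2 * P * (2 + l) ≤ p ^ 2 * P * (R + l) :=
      mul_le_mul_of_nonneg_left (by linarith) (mul_nonneg (sq_nonneg p) (by linarith))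
    refine h1.trans (le_trans ?_ h2)
    have h3 : 6 * (p + O) ≤ p * P * (2 + l) := by
      have h4 : 6 ≤ p * P := by nlinarith
      nlinarith [mul_nonneg (by linarith : 0 ≤ p * P - 6) hl0, mul_nonneg hp0
        (by linarith : 0 ≤ P - 3)]
    calc 6 * p * 1 * (p + O) = p * (6 * (p + O)) := by ring
      _ ≤ p * (p * P * (2 + l)) := mul_le_mul_of_nonneg_left h3 hp0
      _ = _ := by ring
  · have h1 : 6 * q * D * (p + O) ≤ 6 * (p - 1) * (p * (D + O)) := by
      rw [mul_assoc (6 * q) D]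
      exact mul_le_mul (by linarith) (nDO hDp hO) (mul_nonneg hD0 (by linarith)) (by linarith)
    have h2 : p ^ 2 * (p + 1) * (D + O + 1) ≤ p ^ 2 * P * (R + l) :=
      mul_le_mul (mul_le_mul_of_nonneg_left hP (sq_nonneg p)) (by linarith) (by linarith)
        (mul_nonneg (sq_nonneg p) (by linarith))
    refine h1.trans (le_trans ?_ h2)
    have h5 := mul_nonneg (by linarith : 0 ≤ p - 2) (by linarith : 0 ≤ p - 3)
    have h4 : 6 * (p - 1) * (D + O) ≤ p * (p + 1) * (D + O + 1) := by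
      nlinarith [mul_nonneg h5 (by linarith : 0 ≤ D + O),
        mul_nonneg hp0 (by linarith : 0 ≤ p + 1)]
    calc 6 * (p - 1) * (p * (D + O)) = p * (6 * (p - 1) * (D + O)) := by ring
      _ ≤ p * (p * (p + 1) * (D + O + 1)) := mul_le_mul_of_nonneg_left h4 hp0
      _ = _ := by ring

/-- two tops more, `s = P - 1` -/
theorem nC {p q P D R l O : ℝ} (hp : 2 ≤ p) (hqp : q ≤ p) (hP : p + 1 ≤ P)
    (hD0 : 0 ≤ D) (hDp : D ≤ p)
    (hR1 : 1 + (P - p) ≤ R) (hRD : D + (P - p) ≤ R) (hc : D ≤ 1 ∨ (q ≤ p - 1 ∧ 3 ≤ p))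
    (hO : 0 ≤ O) (hOl : O ≤ l) (hlD : l + D ≤ 2 * p) (hl : l + 1 ≤ 2 * p) :
    4 * q * D * (2 * p + (p + O) * (l + O + P - 1)) ≤ p ^ 2 * P * (R + l) * (R + O + P) := by
  have hl0 : 0 ≤ l := hO.trans hOl
  have hp0 : (0 : ℝ) ≤ p := by linarith
  have hP0 : (0 : ℝ) ≤ P := by linarith
  have hlO : O * O ≤ l * O := mul_le_mul_of_nonneg_right hOl hO
  have hZ : 0 ≤ (p + O) * (l + O + P - 1) := mul_nonneg (by linarith) (by linarith)
  have hsmall : D ≤ 1 → 4 * q * D * (2 * p + (p + O) * (l + O + P - 1)) ≤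
      p ^ 2 * P * (R + l) * (R + O + P) := by
    intro hD1
    have h1 : 4 * q * D * (2 * p + (p + O) * (l + O + P - 1)) ≤
        4 * p * 1 * (2 * p + (p + O) * (l + O + P - 1)) := by
      refine mul_le_mul_of_nonneg_right ?_ (by linarith)
      exact mul_le_mul (by linarith) hD1 hD0 (by linarith)
    have h2 : p ^ 2 * P * (2 + l) * (2 + O + P) ≤ p ^ 2 * P * (R + l) * (R + O + P) := by
      refine mul_le_mul (mul_le_mul_of_nonneg_left (by linarith) (mul_nonneg (sq_nonneg p) hP0))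
        (by linarith) (by linarith)
        (mul_nonneg (mul_nonneg (sq_nonneg p) hP0) (by linarith))
    refine h1.trans (le_trans ?_ h2)
    have h3 : 4 * (2 * p + (p + O) * (l + O + P - 1)) ≤ p * P * ((2 + l) * (2 + O + P)) := by
      -- coefficients
      have c0 : 4 * p + 4 * p * P ≤ p * P * (4 + 2 * P) := by nlinarith [mul_nonneg hp0 hP0]
      have hP3 : 3 ≤ P := by linarith
      have c1 : 22 ≤ p * P * (2 + P) - 4 * p := by
        have : p * 3 * (2 + 3) ≤ p * P * (2 + P) := by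
          refine mul_le_mul (mul_le_mul_of_nonneg_left hP3 hp0) (by linarith) (by norm_num)
            (mul_nonneg hp0 hP0)
        linarith
      have c2 : -4 ≤ 2 * p * P - 4 * p - 4 * P + 4 := by
        nlinarith [mul_nonneg (by linarith : 0 ≤ p - 2) (by linarith : 0 ≤ P - 2)]
      have c3 : 0 ≤ (p * P - 8) * (l * O) + 10 * l := by
        rcases le_or_gt 8 (p * P) with h8 | h8
        · have := mul_nonneg (by linarith : 0 ≤ p * P - 8) (mul_nonneg hl0 hO)
          linarith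
        · have hp3' : p < 3 := by nlinarith
          have hO3 : O ≤ 5 := by linarith
          have h6 : 6 ≤ p * P := by nlinarith
          have h7 : 0 ≤ l * (5 - O) := mul_nonneg hl0 (by linarith)
          have h9 : 0 ≤ (p * P - 6) * (l * O) := mul_nonneg (by linarith) (mul_nonneg hl0 hO)
          nlinarith
      nlinarith [mul_nonneg (by linarith : 0 ≤ p * P * (2 + P) - 4 * p - 22) hl0,
        mul_nonneg (by linarith : 0 ≤ 2 * p * P - 4 * p - 4 * P + 8) hO]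
    calc 4 * p * 1 * (2 * p + (p + O) * (l + O + P - 1)) =
        p * (4 * (2 * p + (p + O) * (l + O + P - 1))) := by ring
      _ ≤ p * (p * P * ((2 + l) * (2 + O + P))) := mul_le_mul_of_nonneg_left h3 hp0
      _ = _ := by ring
  rcases hc with hD1 | ⟨hq1, hp3⟩
  · exact hsmall hD1
  · rcases le_or_gt D 1 with hD1 | hD1
    · -- as before, `D ≤ 1`
      exact hsmall hD1
    have h1 : 4 * q * D * (2 * p + (p + O) * (l + O + P - 1)) ≤
        4 * (p - 1) * (p * (2 * D + (D + O) * (l + O + P - 1))) := by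
      have h2 : D * (2 * p + (p + O) * (l + O + P - 1)) ≤
          p * (2 * D + (D + O) * (l + O + P - 1)) := by
        have := mul_le_mul_of_nonneg_right (nDO hDp hO) (by linarith : 0 ≤ l + O + P - 1)
        linarith
      rw [mul_assoc (4 * q) D]
      exact mul_le_mul (by linarith) h2 (mul_nonneg hD0 (by linarith)) (by linarith)
    have h2 : p ^ 2 * (p + 1) * (D + 1 + l) * (D + O + 1 + P) ≤
        p ^ 2 * P * (R + l) * (R + O + P) := by
      refine mul_le_mul (mul_le_mul (mul_le_mul_of_nonneg_left hP (sq_nonneg p)) (by linarith)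
        (by linarith) (mul_nonneg (sq_nonneg p) hP0)) (by linarith) (by linarith)
        (mul_nonneg (mul_nonneg (sq_nonneg p) hP0) (by linarith))
    refine h1.trans (le_trans ?_ h2)
    have hu : 0 ≤ D + O := by linarith
    have hA : 0 ≤ D + 1 + l - (D + O) - 1 := by linarith
    have hT : 0 ≤ 2 * D + (D + O) * (l + O + P - 1) := by
      have := mul_nonneg hu (by linarith : 0 ≤ l + O + P - 1)
      linarith
    have h3 : 4 * (p - 1) * (2 * D + (D + O) * (l + O + P - 1)) ≤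
        p * (p + 1) * ((D + 1 + l) * (D + O + 1 + P)) := by
      rcases le_or_gt 7 p with h7 | h7
      · have h8 : 8 * (p - 1) ≤ p * (p + 1) := by nlinarith
        have h9 : 2 * D + (D + O) * (l + O + P - 1) ≤ 2 * ((D + 1 + l) * (D + O + 1 + P)) := by
          nlinarith [mul_nonneg hu (by linarith : 0 ≤ l - O), mul_nonneg hA hP0,
            mul_nonneg hu hl0, mul_nonneg hu hP0, mul_nonneg hu hO, mul_nonneg hl0 hP0,
            mul_nonneg hD0 hu]
        have h10 : 0 ≤ (D + 1 + l) * (D + O + 1 + P) := mul_nonneg (by linarith) (by linarith)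
        nlinarith [mul_le_mul_of_nonneg_left h9 (by linarith : 0 ≤ 4 * (p - 1)),
          mul_le_mul_of_nonneg_right h8 h10]
      · have h8 : 6 * (p - 1) ≤ p * (p + 1) := by
          nlinarith [mul_nonneg (by linarith : 0 ≤ p - 2) (by linarith : 0 ≤ p - 3)]
        have h9 : 2 * (2 * D + (D + O) * (l + O + P - 1)) ≤
            3 * ((D + 1 + l) * (D + O + 1 + P)) := by
          nlinarith [mul_nonneg hu (by linarith : 0 ≤ l - O), mul_nonneg hA hP0,
            mul_nonneg hu hl0, mul_nonneg hu hP0, mul_nonneg hu hO, mul_nonneg hl0 hP0,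
            mul_nonneg hD0 hu, mul_nonneg hu (by linarith : 0 ≤ 3 * D + 5 + P - O),
            mul_nonneg hA hu]
        have h10 : 0 ≤ (D + 1 + l) * (D + O + 1 + P) := mul_nonneg (by linarith) (by linarith)
        nlinarith [mul_le_mul_of_nonneg_left h9 (by linarith : 0 ≤ 2 * (p - 1)),
          mul_le_mul_of_nonneg_right h8 h10]
    calc 4 * (p - 1) * (p * (2 * D + (D + O) * (l + O + P - 1))) =
        p * (4 * (p - 1) * (2 * D + (D + O) * (l + O + P - 1))) := by ring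
      _ ≤ p * (p * (p + 1) * ((D + 1 + l) * (D + O + 1 + P))) :=
          mul_le_mul_of_nonneg_left h3 hp0
      _ = _ := by ring


/-- Bernoulli -/
theorem nBern {a b : ℝ} (ha : 0 < a) (hab : a ≤ b) (n : ℕ) :
    a ^ n * (a + ((n : ℝ) + 1) * (b - a)) ≤ b ^ (n + 1) := by
  induction n with
  | zero =>
    simp
  | succ n ih =>
    have h1 : 0 ≤ b - a := by linarith
    have h2 : (0 : ℝ) ≤ n := Nat.cast_nonneg n
    calc a ^ (n + 1) * (a + (((n + 1 : ℕ) : ℝ) + 1) * (b - a))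
        = a ^ n * (a * (a + ((n : ℝ) + 2) * (b - a))) := by push_cast; ring
      _ ≤ a ^ n * (b * (a + ((n : ℝ) + 1) * (b - a))) := by
          refine mul_le_mul_of_nonneg_left ?_ (pow_nonneg ha.le n)
          nlinarith [mul_nonneg h1 (mul_nonneg (by linarith : 0 ≤ (n : ℝ) + 1) h1)]
      _ = b * (a ^ n * (a + ((n : ℝ) + 1) * (b - a))) := by ring
      _ ≤ b * b ^ (n + 1) := mul_le_mul_of_nonneg_left ih (by linarith)
      _ = _ := by ring

theorem nT1 {P : ℝ} (hP : 4 ≤ P) (n : ℕ) :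
    2 * (P - 2) ^ (n + 2) * ((n : ℝ) + 4 + 5 / 2) ≤ P ^ (n + 3) := by
  have h1 := nBern (a := P - 2) (b := P) (by linarith) (by linarith) n
  have h2 : (0 : ℝ) ≤ n := Nat.cast_nonneg n
  have h3 : (P - 2) ^ 2 * (2 * (n : ℝ) + 13) ≤ P ^ 2 * (P + 2 * n) := by
    have h4 : 0 ≤ P ^ 3 - 13 * (P - 2) ^ 2 := by
      nlinarith [mul_nonneg (by linarith : 0 ≤ P + 1) (sq_nonneg (P - 11 / 2)),
        sq_nonneg (P - 11 / 2)]
    have h5 : 0 ≤ n * (P ^ 2 - (P - 2) ^ 2) := mul_nonneg h2 (by nlinarith)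
    nlinarith
  calc 2 * (P - 2) ^ (n + 2) * ((n : ℝ) + 4 + 5 / 2)
      = (P - 2) ^ n * ((P - 2) ^ 2 * (2 * (n : ℝ) + 13)) := by ring
    _ ≤ (P - 2) ^ n * (P ^ 2 * (P + 2 * n)) :=
        mul_le_mul_of_nonneg_left h3 (pow_nonneg (by linarith) n)
    _ = P ^ 2 * ((P - 2) ^ n * (P - 2 + ((n : ℝ) + 1) * (P - (P - 2)))) := by ring
    _ ≤ P ^ 2 * P ^ (n + 1) := mul_le_mul_of_nonneg_left h1 (sq_nonneg P)
    _ = _ := by ring

theorem nT2 {P N : ℝ} (hP : 2 ≤ P) (n : ℕ)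
    (h : (P - 1) * (2 * N + ((n : ℝ) + 4) * (P - 1)) ≤ P ^ 2 * (P + n)) :
    2 * (P - 1) ^ (n + 1) * (N + ((n : ℝ) + 4) * (P - 1) / 2) ≤ P ^ (n + 3) := by
  have h1 := nBern (a := P - 1) (b := P) (by linarith) (by linarith) n
  calc 2 * (P - 1) ^ (n + 1) * (N + ((n : ℝ) + 4) * (P - 1) / 2)
      = (P - 1) ^ n * ((P - 1) * (2 * N + ((n : ℝ) + 4) * (P - 1))) := by ring
    _ ≤ (P - 1) ^ n * (P ^ 2 * (P + n)) :=
        mul_le_mul_of_nonneg_left h (pow_nonneg (by linarith) n)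
    _ = P ^ 2 * ((P - 1) ^ n * (P - 1 + ((n : ℝ) + 1) * (P - (P - 1)))) := by ring
    _ ≤ P ^ 2 * P ^ (n + 1) := mul_le_mul_of_nonneg_left h1 (sq_nonneg P)
    _ = _ := by ring

/-- `D > 1`: the part without `s` -/
theorem nN1 {p D l O h : ℝ} (hp : 3 ≤ p) (hh : 1 ≤ h) (hD0 : 0 ≤ D) (hDp : D ≤ p)
    (hO : 0 ≤ O) (hOl : O ≤ l) (hlD : l + D ≤ 2 * p) :
    D * (2 * p + (p + O) * (l + O)) ≤ 5 / 2 * p ^ 2 * (D + h + l) := by
  have hl0 : 0 ≤ l := hO.trans hOl
  have hp0 : (0 : ℝ) ≤ p := by linarith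
  have h1 : D * (2 * p + (p + O) * (l + O)) ≤ D * (2 * p + (p + l) * (2 * l)) := by
    refine mul_le_mul_of_nonneg_left ?_ hD0
    have := mul_le_mul (by linarith : p + O ≤ p + l) (by linarith : l + O ≤ 2 * l) (by linarith)
      (by linarith : 0 ≤ p + l)
    linarith
  refine h1.trans ?_
  have h2 : D * (2 * p) ≤ 5 / 2 * p ^ 2 * h := by nlinarith [mul_nonneg hp0 (by linarith : 0 ≤ p - D)]
  have h3 : D * ((p + l) * (2 * l)) ≤ 5 / 2 * p ^ 2 * (D + l) := by
    have g1 : 0 ≤ 10 * p ^ 3 - 24 * p ^ 2 * D + 20 * p * D ^ 2 - 4 * D ^ 3 := by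
      nlinarith [mul_nonneg (by linarith : 0 ≤ 16 * p - 4 * D) (sq_nonneg (D - 3 / 4 * p)),
        mul_nonneg hp0 (sq_nonneg (D - 3 / 4 * p)), mul_nonneg (sq_nonneg p) (by linarith : 0 ≤ p - D),
        mul_nonneg hD0 (sq_nonneg (p - D)), pow_nonneg hp0 3]
    have h4 : 0 ≤ (2 * p - D) * (5 * p ^ 2 * (D + l) - 4 * D * (p + l) * l) := by
      have h5 : (2 * p - D) * (5 * p ^ 2 * (D + l) - 4 * D * (p + l) * l) =
          (2 * p - D - l) * (5 * p ^ 2 * D) +
            l * (10 * p ^ 3 - 24 * p ^ 2 * D + 20 * p * D ^ 2 - 4 * D ^ 3) +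
            4 * D * l * (2 * p - D - l) * (2 * p - D) := by ring
      rw [h5]
      have e1 : 0 ≤ 2 * p - D - l := by linarith
      have e2 : 0 ≤ 2 * p - D := by linarith
      have := mul_nonneg e1 (by positivity : 0 ≤ 5 * p ^ 2 * D)
      have := mul_nonneg hl0 g1
      have := mul_nonneg (mul_nonneg (by positivity : 0 ≤ 4 * D * l) e1) e2
      linarith
    have h6 : 0 ≤ 5 * p ^ 2 * (D + l) - 4 * D * (p + l) * l :=
      nonneg_of_mul_nonneg_right h4 (by linarith)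
    linarith
  nlinarith

/-- three tops, the sum -/
theorem nC2 {p q P D R l O : ℝ} (hp : 2 ≤ p) (hqp : q ≤ p) (hP : p + 1 ≤ P)
    (hD0 : 0 ≤ D) (hDp : D ≤ p)
    (hR1 : 1 + (P - p) ≤ R) (hRD : D + (P - p) ≤ R) (hc : D ≤ 1 ∨ (q ≤ p - 1 ∧ 3 ≤ p))
    (hO : 0 ≤ O) (hOl : O ≤ l) :
    6 * q * D * (2 * p + (p + O) * (l + O)) ≤ p ^ 2 * P * (R + l) * (2 * R + 2 * O + P) := by
  have hl0 : 0 ≤ l := hO.trans hOl
  have hp0 : (0 : ℝ) ≤ p := by linarith
  have hP0 : (0 : ℝ) ≤ P := by linarith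
  have hlO : O * O ≤ l * O := mul_le_mul_of_nonneg_right hOl hO
  have hZ : 0 ≤ (p + O) * (l + O) := mul_nonneg (by linarith) (by linarith)
  rcases hc with hD1 | ⟨hq1, hp3⟩
  · have h1 : 6 * q * D * (2 * p + (p + O) * (l + O)) ≤
        6 * p * 1 * (2 * p + (p + O) * (l + O)) := by
      refine mul_le_mul_of_nonneg_right ?_ (by linarith)
      exact mul_le_mul (by linarith) hD1 hD0 (by linarith)
    have h2 : p ^ 2 * P * (2 + l) * (4 + 2 * O + P) ≤
        p ^ 2 * P * (R + l) * (2 * R + 2 * O + P) := by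
      refine mul_le_mul (mul_le_mul_of_nonneg_left (by linarith) (mul_nonneg (sq_nonneg p) hP0))
        (by linarith) (by linarith)
        (mul_nonneg (mul_nonneg (sq_nonneg p) hP0) (by linarith))
    refine h1.trans (le_trans ?_ h2)
    have h3 : 6 * (2 * p + (p + O) * (l + O)) ≤ p * P * ((2 + l) * (4 + 2 * O + P)) := by
      have hP3 : 3 ≤ P := by linarith
      have h6 : 6 ≤ p * P := by nlinarith
      nlinarith [mul_nonneg hp0 hP0, mul_nonneg hp0 (by linarith : 0 ≤ P - 3),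
        mul_nonneg (mul_nonneg hp0 (by linarith : 0 ≤ P - 3)) hl0,
        mul_nonneg (mul_nonneg hp0 (by linarith : 0 ≤ P - 3)) hO,
        mul_nonneg (by linarith : 0 ≤ p * P - 6) (mul_nonneg hl0 hO),
        mul_nonneg (mul_nonneg hp0 hP0) (mul_nonneg hl0 hP0),
        mul_nonneg (mul_nonneg hp0 hP0) hP0, mul_nonneg hp0 hl0, mul_nonneg hp0 hO]
    calc 6 * p * 1 * (2 * p + (p + O) * (l + O)) =
        p * (6 * (2 * p + (p + O) * (l + O))) := by ring
      _ ≤ p * (p * P * ((2 + l) * (4 + 2 * O + P))) := mul_le_mul_of_nonneg_left h3 hp0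
      _ = _ := by ring
  · have h1 : 6 * q * D * (2 * p + (p + O) * (l + O)) ≤
        6 * (p - 1) * (p * (2 * D + (D + O) * (l + O))) := by
      have h2 : D * (2 * p + (p + O) * (l + O)) ≤ p * (2 * D + (D + O) * (l + O)) := by
        have := mul_le_mul_of_nonneg_right (nDO hDp hO) (by linarith : 0 ≤ l + O)
        linarith
      rw [mul_assoc (6 * q) D]
      exact mul_le_mul (by linarith) h2 (mul_nonneg hD0 (by linarith)) (by linarith)
    have h2 : p ^ 2 * (p + 1) * (D + 1 + l) * (2 * (D + O + 1) + P) ≤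
        p ^ 2 * P * (R + l) * (2 * R + 2 * O + P) := by
      refine mul_le_mul (mul_le_mul (mul_le_mul_of_nonneg_left hP (sq_nonneg p)) (by linarith)
        (by linarith) (mul_nonneg (sq_nonneg p) hP0)) (by linarith) (by linarith)
        (mul_nonneg (mul_nonneg (sq_nonneg p) hP0) (by linarith))
    refine h1.trans (le_trans ?_ h2)
    have hu : 0 ≤ D + O := by linarith
    have h8 : 6 * (p - 1) ≤ p * (p + 1) := by
      nlinarith [mul_nonneg (by linarith : 0 ≤ p - 2) (by linarith : 0 ≤ p - 3)]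
    have h9 : 2 * D + (D + O) * (l + O) ≤ (D + 1 + l) * (2 * (D + O + 1) + P) := by
      nlinarith [mul_nonneg hu (by linarith : 0 ≤ l - O), mul_nonneg hu hl0, mul_nonneg hl0 hP0,
        mul_nonneg hD0 hu, mul_nonneg hD0 hP0]
    have h10 : 0 ≤ 2 * D + (D + O) * (l + O) := by
      have := mul_nonneg hu (by linarith : 0 ≤ l + O)
      linarith
    calc 6 * (p - 1) * (p * (2 * D + (D + O) * (l + O))) =
        p * (6 * (p - 1) * (2 * D + (D + O) * (l + O))) := by ring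
      _ ≤ p * (p * (p + 1) * ((D + 1 + l) * (2 * (D + O + 1) + P))) :=
          mul_le_mul_of_nonneg_left (mul_le_mul h8 h9 h10
            (mul_nonneg hp0 (by linarith))) hp0
      _ = _ := by ring

/-- at least four tops, `D > 1` -/
theorem nTd1 {p q P D R l O s : ℝ} (hp : 3 ≤ p) (hq : 0 ≤ q) (hqp : q ≤ p - 1) (hP : p + 1 ≤ P)
    (hD0 : 0 ≤ D) (hDp : D ≤ p) (hRD : D + (P - p) ≤ R)
    (hO : 0 ≤ O) (hOl : O ≤ l) (hlD : l + D ≤ 2 * p) (n : ℕ) (hs0 : 0 ≤ s)
    (hs : s ≤ ((n : ℝ) + 4) * (P - 1)) :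
    2 * D * q ^ (n + 2) * (2 * p + (p + O) * (l + O + s)) ≤ p ^ 2 * P ^ (n + 3) * (R + l) := by
  have hl0 : 0 ≤ l := hO.trans hOl
  have hp0 : (0 : ℝ) ≤ p := by linarith
  have hn : (0 : ℝ) ≤ n := Nat.cast_nonneg n
  have hA : 0 ≤ R + l := by linarith
  have h1 := nN1 (h := P - p) hp (by linarith) hD0 hDp hO hOl hlD
  have h2 : D * (2 * p + (p + O) * (l + O + s)) ≤ p * (R + l) * (5 / 2 * p + s) := by
    have h3 := mul_le_mul_of_nonneg_right (nDO hDp hO) hs0
    have h4 : p * (D + O) * s ≤ p * (R + l) * s :=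
      mul_le_mul_of_nonneg_right (mul_le_mul_of_nonneg_left (by linarith) hp0) hs0
    have h5 : 5 / 2 * p ^ 2 * (D + (P - p) + l) ≤ 5 / 2 * p ^ 2 * (R + l) :=
      mul_le_mul_of_nonneg_left (by linarith) (by positivity)
    nlinarith
  have h3 : q * (5 / 2 * p + s) ≤ p * (P - 2) * ((n : ℝ) + 4 + 5 / 2) := by
    have h4 : q * (5 / 2 * p + s) ≤ (p - 1) * (5 / 2 * p + ((n : ℝ) + 4) * (P - 1)) :=
      mul_le_mul hqp (by linarith) (by linarith) (by linarith)
    refine h4.trans ?_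
    have h5 : 0 ≤ p * (P - 2) - (p - 1) * (P - 1) := by nlinarith
    nlinarith [mul_nonneg h5 (by linarith : 0 ≤ (n : ℝ) + 4), mul_nonneg hp0
      (by linarith : 0 ≤ P - 2 - (p - 1))]
  have h4 : q ^ (n + 1) ≤ (P - 2) ^ (n + 1) := pow_le_pow_left₀ hq (by linarith) _
  have h5 := nT1 (P := P) (by linarith) n
  have hq1 : 0 ≤ q ^ (n + 1) := pow_nonneg hq _
  calc 2 * D * q ^ (n + 2) * (2 * p + (p + O) * (l + O + s))
      = 2 * q ^ (n + 2) * (D * (2 * p + (p + O) * (l + O + s))) := by ring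
    _ ≤ 2 * q ^ (n + 2) * (p * (R + l) * (5 / 2 * p + s)) :=
        mul_le_mul_of_nonneg_left h2 (mul_nonneg (by norm_num) (pow_nonneg hq _))
    _ = 2 * (p * (R + l)) * (q ^ (n + 1) * (q * (5 / 2 * p + s))) := by ring
    _ ≤ 2 * (p * (R + l)) * ((P - 2) ^ (n + 1) * (p * (P - 2) * ((n : ℝ) + 4 + 5 / 2))) := by
        refine mul_le_mul_of_nonneg_left ?_ (by positivity)
        exact mul_le_mul h4 h3 (mul_nonneg hq (by linarith)) (pow_nonneg (by linarith) _)
    _ = p ^ 2 * (R + l) * (2 * (P - 2) ^ (n + 2) * ((n : ℝ) + 4 + 5 / 2)) := by ring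
    _ ≤ p ^ 2 * (R + l) * P ^ (n + 3) := mul_le_mul_of_nonneg_left h5 (by positivity)
    _ = _ := by ring

/-- at least four tops, `D ≤ 1` -/
theorem nTd2 {p q P D R l O s N : ℝ} (hp : 2 ≤ p) (hq : 0 ≤ q) (hqp : q ≤ p) (hP : p + 1 ≤ P)
    (hD1 : D ≤ 1) (hR1 : 1 + (P - p) ≤ R)
    (hO : 0 ≤ O) (hOl : O ≤ l) (n : ℕ) (hs0 : 0 ≤ s)
    (hs : s ≤ ((n : ℝ) + 4) * (P - 1))
    (hN : 2 * p + (p + O) * (l + O) ≤ N * (p * (2 + l)))
    (h : (P - 1) * (2 * N + ((n : ℝ) + 4) * (P - 1)) ≤ P ^ 2 * (P + n)) :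
    2 * D * q ^ (n + 2) * (2 * p + (p + O) * (l + O + s)) ≤ p ^ 2 * P ^ (n + 3) * (R + l) := by
  have hl0 : 0 ≤ l := hO.trans hOl
  have hp0 : (0 : ℝ) ≤ p := by linarith
  have hn : (0 : ℝ) ≤ n := Nat.cast_nonneg n
  have hA : 0 ≤ p * (2 + l) := mul_nonneg hp0 (by linarith)
  have hT0 : 0 ≤ 2 * p + (p + O) * (l + O + s) := by
    have := mul_nonneg (by linarith : 0 ≤ p + O) (by linarith : 0 ≤ l + O + s)
    linarith
  have h1 : 2 * p + (p + O) * (l + O + s) ≤ p * (2 + l) * (N + ((n : ℝ) + 4) * (P - 1) / 2) := by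
    have h2 : 2 * (p + O) ≤ p * (2 + l) := by nlinarith
    have h3 : 2 * (p + O) * s ≤ p * (2 + l) * (((n : ℝ) + 4) * (P - 1)) :=
      mul_le_mul h2 hs hs0 hA
    nlinarith
  have h2 : q ^ (n + 2) ≤ (P - 1) ^ (n + 1) * p := by
    rw [pow_succ]
    exact mul_le_mul (pow_le_pow_left₀ hq (by linarith) _) hqp hq (pow_nonneg (by linarith) _)
  have h3 := nT2 (P := P) (N := N) (by linarith) n h
  have hq1 : 0 ≤ q ^ (n + 2) := pow_nonneg hq _
  calc 2 * D * q ^ (n + 2) * (2 * p + (p + O) * (l + O + s))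
      ≤ 2 * 1 * ((P - 1) ^ (n + 1) * p) *
          (p * (2 + l) * (N + ((n : ℝ) + 4) * (P - 1) / 2)) := by
        refine mul_le_mul (mul_le_mul (by linarith) h2 hq1 (by norm_num)) h1 hT0 ?_
        exact mul_nonneg (by norm_num) (mul_nonneg (pow_nonneg (by linarith) _) hp0)
    _ = p ^ 2 * (2 + l) * (2 * (P - 1) ^ (n + 1) * (N + ((n : ℝ) + 4) * (P - 1) / 2)) := by ring
    _ ≤ p ^ 2 * (2 + l) * P ^ (n + 3) := mul_le_mul_of_nonneg_left h3
        (mul_nonneg (sq_nonneg p) (by linarith))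
    _ ≤ p ^ 2 * P ^ (n + 3) * (R + l) := by
        have h4 : 0 ≤ p ^ 2 * P ^ (n + 3) := mul_nonneg (sq_nonneg p) (pow_nonneg (by linarith) _)
        have h5 : p ^ 2 * P ^ (n + 3) * (2 + l) ≤ p ^ 2 * P ^ (n + 3) * (R + l) :=
          mul_le_mul_of_nonneg_left (by linarith) h4
        linarith

theorem nSp1 {l O x : ℝ} (hO : 0 ≤ O) (hOl : O ≤ l) (hl : l ≤ 3) (hx : 0 ≤ x) :
    14 / 27 * (4 + (2 + O) * (l + O + 2 + x)) ≤ (2 + l) * (6 + O + x) := by
  have hl0 : 0 ≤ l := hO.trans hOl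
  have h1 : 14 / 27 * (2 + O) * x ≤ (2 + l) * x := mul_le_mul_of_nonneg_right (by linarith) hx
  have h2 : O * O ≤ l * O := mul_le_mul_of_nonneg_right hOl hO
  have h3 : l * O ≤ l * 3 := mul_le_mul_of_nonneg_left (by linarith) hl0
  nlinarith

theorem nSp2 {l O x : ℝ} (hO : 0 ≤ O) (hOl : O ≤ l) (hx : 0 ≤ x) :
    20 / 27 * (4 + (2 + O) * (l + O + x)) ≤ (2 + l) * (8 + 2 * O + x) := by
  have hl0 : 0 ≤ l := hO.trans hOl
  have h1 : 20 / 27 * (2 + O) * x ≤ (2 + l) * x := mul_le_mul_of_nonneg_right (by linarith) hx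
  have h2 : O * O ≤ l * O := mul_le_mul_of_nonneg_right hOl hO
  nlinarith [mul_nonneg hl0 hO]

/-- the case `P = 3`, four tops -/
theorem nSp {A Q T R l O s s' y y' : ℝ} (hO : 0 ≤ O) (hOl : O ≤ l) (hl3 : l ≤ 3) (hs'0 : 0 ≤ s')
    (hs0 : 0 ≤ s) (hs2 : s ≤ s' + 2) (hA : A = R + l) (hR2 : 2 ≤ R)
    (hT : T = 4 + (2 + O) * (l + O + s)) (hQ4 : 9 * A * Q ≤ 2 * T) (hQ : 3 < Q)
    (hy : y ≤ 4) (hy' : y' ≤ 4) :
    Q + (Q / 3 - 1) * y ≤ R + O + s' ∧ 2 * Q + (Q / 3 - 1) * y' ≤ 2 * R + 2 * O + s := by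
  have hl0 : 0 ≤ l := hO.trans hOl
  have hA2 : 2 + l ≤ A := by linarith
  have hA0 : 0 < A := by linarith
  have hcor : ∀ z : ℝ, z ≤ 4 → (Q / 3 - 1) * z ≤ 4 / 3 * Q - 4 := by
    intro z hz
    have := mul_le_mul_of_nonneg_left hz (by linarith : 0 ≤ Q / 3 - 1)
    linarith
  have h1 := hcor y hy
  have h2 := hcor y' hy'
  have h3 : A * (7 / 3 * Q) ≤ A * (R + O + s' + 4) := by
    have h4 : (2 + l) * (6 + O + s') ≤ A * (R + O + s' + 4) :=
      mul_le_mul hA2 (by linarith) (by linarith) hA0.le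
    have h6 : T ≤ 4 + (2 + O) * (l + O + 2 + s') := by
      rw [hT]
      have := mul_le_mul_of_nonneg_left (by linarith : l + O + s ≤ l + O + 2 + s')
        (by linarith : 0 ≤ 2 + O)
      linarith
    have h5 := nSp1 hO hOl hl3 hs'0
    linarith
  have h4 := le_of_mul_le_mul_left h3 hA0
  have h5 : A * (10 / 3 * Q) ≤ A * (2 * R + 2 * O + s + 4) := by
    have h6 : (2 + l) * (8 + 2 * O + s) ≤ A * (2 * R + 2 * O + s + 4) :=
      mul_le_mul hA2 (by linarith) (by linarith) hA0.le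
    have h7 := nSp2 hO hOl hs0
    rw [← hT] at h7
    linarith
  have h6 := le_of_mul_le_mul_left h5 hA0
  constructor <;> linarith

theorem nP5 {P k : ℝ} (hP : 5 ≤ P) (hk : 0 ≤ k) :
    (P - 1) * (2 * 6 + (k + 4) * (P - 1)) ≤ P ^ 2 * (P + k) := by
  have h1 : 0 ≤ P * P * (P - 5) := mul_nonneg (mul_nonneg (by linarith) (by linarith)) (by linarith)
  have h2 : 0 ≤ k * (2 * P - 1) := mul_nonneg hk (by linarith)
  have h3 : 0 ≤ P * (P - 5) := mul_nonneg (by linarith) (by linarith)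
  nlinarith

theorem nN6 {p l : ℝ} (hp : 0 ≤ p) (hl0 : 0 ≤ l) (hl : l ≤ 2 * p) :
    2 * p + (p + l) * (2 * l) ≤ 6 * (p * (2 + l)) := by
  have h1 : 0 ≤ l * (2 * p - l) := mul_nonneg hl0 (by linarith)
  nlinarith

theorem nN3 {l : ℝ} (hl0 : 0 ≤ l) (hl : l ≤ 5) :
    2 * 3 + (3 + l) * (2 * l) ≤ 14 / 3 * (3 * (2 + l)) := by
  have h1 : 0 ≤ l * (5 - l) := mul_nonneg hl0 (by linarith)
  nlinarith

theorem nN2 {l : ℝ} (hl0 : 0 ≤ l) (hl : l ≤ 3) :
    2 * 2 + (2 + l) * (2 * l) ≤ 4 * (2 * (2 + l)) := by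
  have h1 : 0 ≤ l * (3 - l) := mul_nonneg hl0 (by linarith)
  nlinarith

theorem nOl {p l O : ℝ} (hp : 0 ≤ p) (hO : 0 ≤ O) (hOl : O ≤ l) :
    2 * p + (p + O) * (l + O) ≤ 2 * p + (p + l) * (2 * l) := by
  have := mul_le_mul (by linarith : p + O ≤ p + l) (by linarith : l + O ≤ 2 * l) (by linarith)
    (by linarith)
  linarith

theorem nS2 {p D O A : ℝ} (hp : 2 ≤ p) (hDp : D ≤ p) (hO : 0 ≤ O) (hA : 0 ≤ A)
    (h : D + O ≤ A) : 2 * D * (p + O) ≤ p ^ 2 * A := by
  have h1 := nDO hDp hO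
  have h2 : p * (D + O) ≤ p * A := mul_le_mul_of_nonneg_left h (by linarith)
  have h3 : 0 ≤ p * A * (p - 2) := mul_nonneg (mul_nonneg (by linarith) hA) (by linarith)
  nlinarith

theorem nQ2 {p P D A R O l s x : ℝ} (hD : 0 ≤ D) (hpO : 0 ≤ p + O) (hx0 : 0 ≤ x)
    (hx : s ≤ x + (P - 1)) (hS2 : 2 * D * (p + O) ≤ p ^ 2 * A)
    (hB : 2 * D * (2 * p + (p + O) * (l + O + P - 1)) ≤ p ^ 2 * A * (R + O)) :
    2 * D * (2 * p + (p + O) * (l + O + s)) ≤ p ^ 2 * A * (R + O + x) := by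
  have h1 : 2 * p + (p + O) * (l + O + s) ≤
      2 * p + (p + O) * (l + O + P - 1) + (p + O) * x := by
    have := mul_le_mul_of_nonneg_left (by linarith : l + O + s ≤ l + O + P - 1 + x) hpO
    linarith
  have h2 := mul_le_mul_of_nonneg_left h1 (by linarith : 0 ≤ 2 * D)
  have h3 := mul_le_mul_of_nonneg_right hS2 hx0
  linarith

theorem nE2 {p q P D A R O l s z Q : ℝ} (hD : 0 ≤ D) (hpO : 0 ≤ p + O) (hP : 1 ≤ P)
    (hqP : q ≤ P) (hl : 0 ≤ l + O)
    (hp : 0 ≤ p) (hA : 0 ≤ A) (hR : 0 ≤ R + O)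
    (hS2 : 2 * D * (p + O) ≤ p ^ 2 * A)
    (hB : 2 * D * (2 * p + (p + O) * (l + O + P - 1)) ≤ p ^ 2 * A * (R + O))
    (hS4 : 4 * q * D * (p + O) * z ≤ p ^ 2 * P * A * z)
    (hs : s = z + 2 * (P - 1))
    (hQ : p ^ 2 * P * A * Q ≤ 2 * D * q * (2 * p + (p + O) * (l + O + s))) :
    p ^ 2 * P * A * (2 * Q) ≤ p ^ 2 * P * A * (2 * R + 2 * O + s) := by
  have h2 : 2 * D * (2 * p + (p + O) * (l + O + 2 * (P - 1))) ≤ p ^ 2 * A * (R + O + (P - 1)) := by
    have h4 := mul_le_mul_of_nonneg_right hS2 (by linarith : 0 ≤ P - 1)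
    linarith
  have hT'0 : 0 ≤ 2 * p + (p + O) * (l + O + 2 * (P - 1)) := by
    have := mul_nonneg hpO (by linarith : 0 ≤ l + O + 2 * (P - 1))
    linarith
  have h0 : 0 ≤ 2 * D * (2 * p + (p + O) * (l + O + 2 * (P - 1))) :=
    mul_nonneg (by linarith) hT'0
  have h4 : q * (2 * D * (2 * p + (p + O) * (l + O + 2 * (P - 1)))) ≤
      P * (p ^ 2 * A * (R + O + (P - 1))) :=
    (mul_le_mul_of_nonneg_right hqP h0).trans (mul_le_mul_of_nonneg_left h2 (by linarith))
  rw [hs] at hQ ⊢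
  nlinarith

theorem nE3a {p q P D A R O l s x Q : ℝ} (hq : 0 ≤ q) (hD : 0 ≤ D) (hpO : 0 ≤ p + O)
    (hx : s ≤ x + (P - 1))
    (hC : 4 * q * D * (2 * p + (p + O) * (l + O + P - 1)) ≤ p ^ 2 * P * A * (R + O + P))
    (hS4 : 4 * q * D * (p + O) * x ≤ p ^ 2 * P * A * x)
    (hQ : p ^ 2 * P * A * Q ≤ 2 * D * q * (2 * p + (p + O) * (l + O + s))) :
    p ^ 2 * P * A * (2 * Q) ≤ p ^ 2 * P * A * (R + O + x + P) := by
  have h4 : 2 * p + (p + O) * (l + O + s) ≤
      2 * p + (p + O) * (l + O + P - 1) + (p + O) * x := by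
    have := mul_le_mul_of_nonneg_left (by linarith : l + O + s ≤ l + O + P - 1 + x) hpO
    linarith
  have h5 := mul_le_mul_of_nonneg_left h4 (by positivity : 0 ≤ 4 * q * D)
  linarith

theorem nE3b {p q P D A R O l s Q : ℝ}
    (hC : 6 * q * D * (2 * p + (p + O) * (l + O)) ≤ p ^ 2 * P * A * (2 * R + 2 * O + P))
    (hS : 6 * q * D * (p + O) * s ≤ p ^ 2 * P * A * s)
    (hQ : p ^ 2 * P * A * Q ≤ 2 * D * q * (2 * p + (p + O) * (l + O + s))) :
    p ^ 2 * P * A * (3 * Q) ≤ p ^ 2 * P * A * (2 * R + 2 * O + s + P) := by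
  linarith

/-- the bound for `Q₁` -/
noncomputable def qh (p q P D R l O s : ℝ) (t : ℕ) : ℝ :=
  2 * D * q ^ (t - 2) * (2 * p + (p + O) * (l + O + s)) / (p ^ 2 * P ^ (t - 2) * (R + l))

theorem qh_ge {p q P D R l O w s Q0 : ℝ} {t : ℕ} (hp : 1 ≤ p) (hq : 0 ≤ q) (hP : 0 < P)
    (hD0 : 0 ≤ D) (hR : 0 < R) (hw : 0 ≤ w) (hwO : w ≤ O) (hl : 0 ≤ l)
    (hs : 0 ≤ s) (hQ0 : R + l ≤ Q0) :
    2 * (D / p) * (q / P) ^ (t - 2) * (2 + (O - w) / p + (1 + O / p) * (l + w + s)) / Q0 ≤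
      qh p q P D R l O s t := by
  have hp0 : 0 < p := by linarith
  have hA : 0 < R + l := by linarith
  have hO : 0 ≤ O := hw.trans hwO
  have h2 : (2 + (O - w) / p + (1 + O / p) * (l + w + s)) * p =
      2 * p + (O - w) + (p + O) * (l + w + s) := by
    field_simp
  have h1 : 2 + (O - w) / p + (1 + O / p) * (l + w + s) ≤
      (2 * p + (p + O) * (l + O + s)) / p := by
    rw [le_div_iff₀ hp0, h2]
    nlinarith [mul_nonneg hO (by linarith : 0 ≤ O - w),
      mul_nonneg (by linarith : 0 ≤ p - 1) (by linarith : 0 ≤ O - w)]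
  have h0 : 0 ≤ 2 + (O - w) / p + (1 + O / p) * (l + w + s) := by
    have h3 : 0 ≤ (O - w) / p := div_nonneg (by linarith) hp0.le
    have h4 : 0 ≤ O / p := div_nonneg hO hp0.le
    have h5 : 0 ≤ (1 + O / p) * (l + w + s) := mul_nonneg (by linarith) (by linarith)
    linarith
  have hc : 0 ≤ 2 * (D / p) * (q / P) ^ (t - 2) := by positivity
  calc 2 * (D / p) * (q / P) ^ (t - 2) * (2 + (O - w) / p + (1 + O / p) * (l + w + s)) / Q0
      ≤ 2 * (D / p) * (q / P) ^ (t - 2) * ((2 * p + (p + O) * (l + O + s)) / p) / (R + l) := by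
        refine div_le_div₀ ?_ (mul_le_mul_of_nonneg_left h1 hc) hA hQ0
        exact mul_nonneg hc (h0.trans h1)
    _ = qh p q P D R l O s t := by
        unfold qh
        rw [div_pow]
        field_simp

/-- the numerical inequality for at least two tops -/
theorem nE3 {t p q P : ℕ} (ht : 2 ≤ t) (hp : 2 ≤ p) (hqp : q ≤ p) (hP : p + 1 ≤ P)
    {D R l O s s' y y' : ℝ} (hD0 : 0 ≤ D) (hDp : D ≤ p)
    (hR1 : 1 + ((P : ℝ) - p) ≤ R) (hRD : D + ((P : ℝ) - p) ≤ R)
    (hc : D ≤ 1 ∨ (q + 1 ≤ p ∧ 3 ≤ p))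
    (hO : 0 ≤ O) (hOl : O ≤ l) (hlD : l + D ≤ 2 * p) (hl : l + 1 ≤ 2 * p)
    (hs0 : 0 ≤ s) (hs : s ≤ t * ((P : ℝ) - 1)) (hs' : s ≤ s' + (P - 1)) (hs'0 : 0 ≤ s')
    (hy : y ≤ ((t : ℝ) - 2) * (P - 1)) (hy' : y' ≤ ((t : ℝ) - 2) * (P - 1)) :
    qh p q P D R l O s t + max 0 (qh p q P D R l O s t / P - 1) * y ≤ R + O + s' ∧
    2 * qh p q P D R l O s t + max 0 (qh p q P D R l O s t / P - 1) * y' ≤
      2 * R + 2 * O + s := by
  -- casts
  have hp2 : (2 : ℝ) ≤ p := by exact_mod_cast hp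
  have hqp' : (q : ℝ) ≤ p := by exact_mod_cast hqp
  have hP' : (p : ℝ) + 1 ≤ P := by exact_mod_cast hP
  have hq0 : (0 : ℝ) ≤ q := Nat.cast_nonneg q
  have hc' : D ≤ 1 ∨ ((q : ℝ) ≤ p - 1 ∧ (3 : ℝ) ≤ p) := by
    rcases hc with h | ⟨h1, h2⟩
    · exact Or.inl h
    · right
      have h3 : (q : ℝ) + 1 ≤ p := by exact_mod_cast h1
      exact ⟨by linarith, by exact_mod_cast h2⟩
  have hl0 : 0 ≤ l := hO.trans hOl
  have hp0 : (0 : ℝ) < p := by linarith
  have hP0 : (0 : ℝ) < P := by linarith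
  have hA : 0 < R + l := by linarith
  set A := R + l with hAdef
  set Q := qh p q P D R l O s t with hQdef
  -- the case of two tops
  have hcB : D ≤ 1 ∨ (p : ℝ) = 3 ∨ (4 : ℝ) ≤ p := by
    rcases hc with h | ⟨_, h2⟩
    · exact Or.inl h
    · right
      rcases Nat.lt_or_ge p 4 with h3 | h3
      · left
        have : p = 3 := by omega
        rw [this]
        norm_num
      · right
        exact_mod_cast h3
  have hB := nB (P := P) hp2 hP' hD0 hDp hR1 hRD hcB hO hOl hlD hl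
  have hS := nS (q := q) hp2 hqp' hP' hD0 hDp hR1 hRD hc' hO hOl
  have hC := nC (q := q) hp2 hqp' hP' hD0 hDp hR1 hRD hc' hO hOl hlD hl
  have hC2 := nC2 (q := q) hp2 hqp' hP' hD0 hDp hR1 hRD hc' hO hOl
  have hpO : (0 : ℝ) ≤ p + O := by linarith
  have hDpO : 0 ≤ D * (p + O) := mul_nonneg hD0 hpO
  have hS2 : 2 * D * (p + O) ≤ (p : ℝ) ^ 2 * A := nS2 hp2 hDp hO hA.le (by linarith)
  -- `T`
  set T := 2 * (p : ℝ) + (p + O) * (l + O + s) with hT
  have hT0 : 0 ≤ T := by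
    have := mul_nonneg hpO (by linarith : 0 ≤ l + O + s)
    linarith
  -- the value for two tops
  have hQ2 : ∀ x : ℝ, 0 ≤ x → s ≤ x + (P - 1) → 2 * D * T ≤ (p : ℝ) ^ 2 * A * (R + O + x) := by
    intro x hx0 hx
    exact nQ2 hD0 hpO hx0 hx hS2 hB
  -- `Q` in terms of `T`
  have hden : 0 < (p : ℝ) ^ 2 * (P : ℝ) ^ (t - 2) * A := by positivity
  have hQle : Q ≤ 2 * D * T / ((p : ℝ) ^ 2 * A) := by
    rw [hQdef]
    unfold qh
    rw [← hAdef, ← hT, div_le_div_iff₀ hden (by positivity)]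
    have h1 : (q : ℝ) ^ (t - 2) ≤ (P : ℝ) ^ (t - 2) := pow_le_pow_left₀ hq0 (by linarith) _
    have h2 : 0 ≤ 2 * D * T * ((p : ℝ) ^ 2 * A) := by positivity
    nlinarith [mul_le_mul_of_nonneg_left h1 h2]
  have hQ0 : 0 ≤ Q := by
    rw [hQdef]
    unfold qh
    rw [← hAdef, ← hT]
    positivity
  have hpA : 0 < (p : ℝ) ^ 2 * A := by positivity
  -- first inequality without correction
  have hx : ∀ x : ℝ, 0 ≤ x → s ≤ x + (P - 1) → Q ≤ R + O + x := by
    intro x h1 h2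
    refine hQle.trans ?_
    rw [div_le_iff₀ hpA]
    have := hQ2 x h1 h2
    linarith
  have e1 : Q ≤ R + O + s' := hx s' hs'0 hs'
  have e2s : s ≤ 2 * (P - 1) → 2 * Q ≤ 2 * R + 2 * O + s := by
    intro h1
    rcases le_total s (P - 1) with h2 | h2
    · have := hx 0 le_rfl (by linarith)
      linarith
    · have := hx (s - (P - 1)) (by linarith) (by linarith)
      linarith
  rcases Nat.lt_or_ge t 3 with ht3 | ht3
  · have h2 : t = 2 := by omega
    rw [h2] at hy hy' hs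
    have hy0 : y ≤ 0 := by
      have : ((2 : ℕ) : ℝ) - 2 = 0 := by norm_num
      rw [this, zero_mul] at hy
      exact hy
    have hy0' : y' ≤ 0 := by
      have : ((2 : ℕ) : ℝ) - 2 = 0 := by norm_num
      rw [this, zero_mul] at hy'
      exact hy'
    have h3 : (0 : ℝ) ≤ max 0 (Q / P - 1) := le_max_left _ _
    have h4 := e2s (by push_cast at hs; linarith)
    constructor
    · nlinarith
    · nlinarith
  -- at least three tops
  obtain ⟨n, rfl⟩ : ∃ n, t = n + 3 := ⟨t - 3, by omega⟩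
  have hn : (0 : ℝ) ≤ n := Nat.cast_nonneg n
  have ht2 : n + 3 - 2 = n + 1 := by omega
  have hQ3 : Q ≤ 2 * D * q * T / ((p : ℝ) ^ 2 * P * A) := by
    rw [hQdef]
    unfold qh
    rw [← hAdef, ← hT, ht2, div_le_div_iff₀ (by positivity) (by positivity)]
    have h1 : (q : ℝ) ^ n ≤ (P : ℝ) ^ n := pow_le_pow_left₀ hq0 (by linarith) _
    have h2 : 0 ≤ 2 * D * T * ((p : ℝ) ^ 2 * A) * q * P := by positivity
    have h3 := mul_le_mul_of_nonneg_left h1 h2
    calc 2 * D * (q : ℝ) ^ (n + 1) * T * ((p : ℝ) ^ 2 * P * A)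
        = 2 * D * T * ((p : ℝ) ^ 2 * A) * q * P * (q : ℝ) ^ n := by ring
      _ ≤ 2 * D * T * ((p : ℝ) ^ 2 * A) * q * P * (P : ℝ) ^ n := h3
      _ = _ := by ring
  have hpPA : 0 < (p : ℝ) ^ 2 * P * A := by positivity
  have hQ3' : (p : ℝ) ^ 2 * P * A * Q ≤ 2 * D * q * T := by
    rw [le_div_iff₀ hpPA] at hQ3
    linarith
  -- the slope
  have hS4 : ∀ x : ℝ, 0 ≤ x → 4 * q * D * (p + O) * x ≤ (p : ℝ) ^ 2 * P * A * x := by
    intro x hx0
    refine mul_le_mul_of_nonneg_right ?_ hx0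
    have : 0 ≤ 2 * q * D * (p + O) := by positivity
    linarith
  have e2 : 2 * Q ≤ 2 * R + 2 * O + s := by
    rcases le_total s (2 * (P - 1)) with h1 | h1
    · exact e2s h1
    · have h5 := nE2 (z := s - 2 * (P - 1)) (R := R) hD0 hpO (by linarith) (by linarith)
        (by linarith) hp0.le hA.le (by linarith) hS2 hB (hS4 _ (by linarith)) (by ring) hQ3'
      exact le_of_mul_le_mul_left h5 hpPA
  rcases le_or_gt Q P with hQP | hQP
  · have h1 : max 0 (Q / P - 1) = 0 := by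
      refine max_eq_left ?_
      rw [sub_nonpos, div_le_one hP0]
      exact hQP
    rw [h1, zero_mul, zero_mul, add_zero, add_zero]
    exact ⟨e1, e2⟩
  have hm : max 0 (Q / P - 1) = Q / P - 1 := by
    refine max_eq_right ?_
    rw [sub_nonneg, one_le_div hP0]
    exact hQP.le
  rw [hm]
  have hQP1 : 0 ≤ Q / P - 1 := by
    rw [sub_nonneg, one_le_div hP0]
    exact hQP.le
  have hQP2 : (Q / P - 1) * P = Q - P := by
    field_simp
  rcases Nat.eq_zero_or_pos n with hn0 | hn0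
  · -- three tops
    subst hn0
    have hcor : ∀ z : ℝ, z ≤ (((0 + 3 : ℕ) : ℝ) - 2) * (P - 1) → (Q / P - 1) * z ≤ Q - P := by
      intro z hz
      have h1 : z ≤ P := by
        push_cast at hz
        linarith
      have := mul_le_mul_of_nonneg_left h1 hQP1
      linarith
    have h1 := hcor y hy
    have h2 := hcor y' hy'
    have h3 := nE3a hq0 hD0 hpO hs' hC (hS4 s' hs'0) hQ3'
    have h4 := le_of_mul_le_mul_left h3 hpPA
    have h5 := nE3b hC2 (mul_le_mul_of_nonneg_right hS hs0) hQ3'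
    have h6 := le_of_mul_le_mul_left h5 hpPA
    constructor <;> linarith
  · obtain ⟨k, rfl⟩ : ∃ k, n = k + 1 := ⟨n - 1, by omega⟩
    have hk : (0 : ℝ) ≤ k := Nat.cast_nonneg k
    have hs4 : s ≤ ((k : ℝ) + 4) * (P - 1) := by
      push_cast at hs
      linarith
    have hno : 2 * D * (q : ℝ) ^ (k + 2) * T ≤ (p : ℝ) ^ 2 * (P : ℝ) ^ (k + 3) * A → False := by
      intro h
      have h1 : Q ≤ P := by
        rw [hQdef]
        unfold qh
        rw [← hAdef, ← hT, div_le_iff₀ (by positivity)]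
        have e : k + 1 + 3 - 2 = k + 2 := by omega
        rw [e]
        calc 2 * D * (q : ℝ) ^ (k + 2) * T ≤ (p : ℝ) ^ 2 * (P : ℝ) ^ (k + 3) * A := h
          _ = _ := by ring
      linarith
    rcases lt_or_ge 1 D with hD1 | hD1
    · rcases hc' with h | ⟨h1, h2⟩
      · linarith
      · exact (hno (nTd1 h2 hq0 h1 hP' hD0 hDp hRD hO hOl hlD k hs0 hs4)).elim
    · have hk1 : (P : ℝ) ^ 2 ≥ (P - 1) ^ 2 := by nlinarith
      rcases Nat.lt_or_ge P 5 with hP5 | hP5
      · rcases Nat.lt_or_ge P 4 with hP4 | hP4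
        · -- `P = 3`, `p = 2`
          have hP3 : P = 3 := by omega
          have hp22 : p = 2 := by omega
          subst hP3
          subst hp22
          rcases Nat.eq_zero_or_pos k with hk0 | hk0
          · subst hk0
            have hq2 : (q : ℝ) ≤ 2 := by exact_mod_cast hqp
            have hl3 : l ≤ 3 := by
              push_cast at hl
              linarith
            have hQ4 : 9 * A * Q ≤ 2 * T := by
              have h1 : Q * (((2 : ℕ) : ℝ) ^ 2 * ((3 : ℕ) : ℝ) ^ (0 + 1 + 3 - 2) * A) =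
                  2 * D * (q : ℝ) ^ (0 + 1 + 3 - 2) * T := by
                rw [hQdef]
                unfold qh
                rw [← hAdef, ← hT]
                exact div_mul_cancel₀ _ hden.ne'
              have e0 : 0 + 1 + 3 - 2 = 2 := by norm_num
              rw [e0] at h1
              push_cast at h1
              have h2 : D * (q : ℝ) ^ 2 ≤ 1 * 2 ^ 2 :=
                mul_le_mul hD1 (pow_le_pow_left₀ hq0 hq2 2) (sq_nonneg _) (by norm_num)
              have h3 := mul_le_mul_of_nonneg_right h2 hT0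
              linarith
            have h9 := nSp (A := A) (Q := Q) (T := T) (R := R) (l := l) (O := O) (s := s)
              (s' := s') (y := y) (y' := y') hO hOl hl3 hs'0 hs0
              (by push_cast at hs'; linarith) hAdef (by push_cast at hR1; linarith)
              (by rw [hT]; push_cast; ring) hQ4 (by push_cast at hQP; exact hQP)
              (by push_cast at hy; linarith) (by push_cast at hy'; linarith)
            push_cast
            exact h9
          · exfalso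
            refine hno (nTd2 (N := 4) hp2 hq0 hqp' hP' hD1 hR1 hO hOl k hs0 hs4 ?_
              ?_)
            · have hl3 : l ≤ 3 := by
                push_cast at hl
                linarith
              refine (nOl hp0.le hO hOl).trans ?_
              push_cast
              exact nN2 hl0 hl3
            · have hk1 : (1 : ℝ) ≤ k := by exact_mod_cast hk0
              push_cast
              linarith
        · have hP4' : P = 4 := by omega
          subst hP4'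
          exfalso
          refine hno (nTd2 (N := 14 / 3) hp2 hq0 hqp' hP' hD1 hR1 hO hOl k hs0 hs4 ?_ ?_)
          · refine (nOl hp0.le hO hOl).trans ?_
            have hp3 : p = 2 ∨ p = 3 := by omega
            rcases hp3 with rfl | rfl
            · have hl3 : l ≤ 3 := by
                push_cast at hl
                linarith
              push_cast
              have h1 := nN2 hl0 hl3
              linarith
            · have hl5 : l ≤ 5 := by
                push_cast at hl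
                linarith
              push_cast
              exact nN3 hl0 hl5
          · push_cast
            linarith
      · exfalso
        have hP5' : (5 : ℝ) ≤ P := by exact_mod_cast hP5
        refine hno (nTd2 (N := 6) hp2 hq0 hqp' hP' hD1 hR1 hO hOl k hs0 hs4 ?_
          ?_)
        · exact (nOl hp0.le hO hOl).trans (nN6 hp0.le hl0 (by linarith))
        · exact nP5 hP5' hk

end MP76b19e.Rob.NE3
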