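import Pool.Agent.Lib.MP76b19e.Rob.OneLow
import Pool.Agent.Lib.MP76b19e.Rob.NumE3

/-!
# The final inequality of one low level, at least two tops more than needed (problem MP_76b19e_co)

`brk_le`: the bracket of (T1-top) for a set without lows is at most a multiple of `Ival` of the tops.
`eb3_core`: the inequality of the sets of tops, masses and colours, at least two slots.
`OL.top3`: the same in the setting of `OneLow.lean`, with the factor `q`.
-/

set_option autoImplicit false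

open Finset

namespace MP76b19e.Rob

open NE3

section

variable {V : Type} [DecidableEq V] {m : Finset V → ℝ} {L T S : Finset V}

theorem push_push (m : Finset V → ℝ) (h : Disjoint T S) (D : Finset V) :
    push (push m S) T D = push m (T ∪ S) D := by
  have h1 := pal_push (m := fun E => m (D ∪ E)) (A := T) (S := S) h
  unfold pal push at h1
  unfold push
  rw [← h1]
  refine sum_congr rfl fun E _ => sum_congr rfl fun E' _ => ?_
  rw [union_assoc]

theorem brk_one {p w pw F Fu Om s : ℝ} (hw1 : 1 ≤ w) (hwp : w ≤ p)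
    (hFu : w * Fu ≤ F) (hF : 0 ≤ F) (hpw : pw ≤ Om) (hpw0 : 0 ≤ pw) (hs : s = p - w) :
    (1 + pw / p) * (p * Fu - F) ≤ (1 + Om / p) * (s * F) := by
  have hp : 0 < p := by linarith
  have h1 : p * Fu - F ≤ s * F := by
    rw [hs]
    have h2 : Fu ≤ F / w := by
      rw [le_div_iff₀ (by linarith)]
      linarith
    have h3 : p * Fu ≤ p * (F / w) := mul_le_mul_of_nonneg_left h2 hp.le
    have h4 : p * (F / w) - F = (p - w) * F / w := by
      field_simp
    have h5 : (p - w) * F / w ≤ (p - w) * F := div_le_self (by nlinarith) hw1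
    linarith
  have h2 : 0 ≤ s * F := by
    rw [hs]
    exact mul_nonneg (by linarith) hF
  have h3 : 1 + pw / p ≤ 1 + Om / p := by
    have := div_le_div_of_nonneg_right hpw hp.le
    linarith
  have h4 : 0 ≤ 1 + pw / p := by positivity
  calc (1 + pw / p) * (p * Fu - F) ≤ (1 + pw / p) * (s * F) := mul_le_mul_of_nonneg_left h1 h4
    _ ≤ _ := mul_le_mul_of_nonneg_right h3 h2

/-- the bracket of a set without lows -/
theorem brk_le (h : PosM m) (hLT : Disjoint L T) (hLS : Disjoint L S)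
    (hTS : Disjoint T S) {p : ℝ} (ha : ∀ u ∈ L, pa m (L ∪ (T ∪ S)) u ≤ p)
    (h1 : ∀ u ∈ L, 1 ≤ m {u}) :
    (2 + pt (push m (T ∪ S)) L / p) * Ival (push m S) T +
        ∑ u ∈ L, (1 + pom (push m (T ∪ S)) L u / p) *
          (p * Ival (push m S) (insert u T) - Ival (push m S) T) ≤
      (2 + (po (push m (T ∪ S)) L - pN (push m (T ∪ S)) L) / p +
        (1 + po (push m (T ∪ S)) L / p) *
          (((L.card : ℝ) * p - pal m (L ∪ (T ∪ S)) + pal m (T ∪ S)) + pN (push m (T ∪ S)) L +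
            ∑ u ∈ L, (push (push m S) T {u} - push m S {u}))) * Ival (push m S) T := by
  set m' := push m S with hm'
  have hp' : PosM m' := h.push S
  set Om := po (push m (T ∪ S)) L with hOm
  set om := pN (push m (T ∪ S)) L with hom
  have hpA : ∀ D, 0 ≤ push m (T ∪ S) D := push_nonneg h.1 (T ∪ S)
  have hdLA : Disjoint L (T ∪ S) := disjoint_union_right.2 ⟨hLT, hLS⟩
  have hF : 0 ≤ Ival m' T := (Ival_pos hp' T).le
  have hpt : pt (push m (T ∪ S)) L = Om - om := by
    have := po_eq (m := push m (T ∪ S)) (K := L)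
    rw [← hOm, ← hom] at this
    linarith
  have hw : ∀ u ∈ L, m' {u} ≤ p := by
    intro u hu
    refine le_trans ?_ (ha u hu)
    rw [← pa_push m hdLA (disjoint_left.1 hdLA hu)]
    refine le_trans ?_ (le_pa hpA hu)
    exact push_mono h.1 subset_union_right {u}
  have hterm : ∀ u ∈ L, (1 + pom (push m (T ∪ S)) L u / p) *
      (p * Ival m' (insert u T) - Ival m' T) ≤ (1 + Om / p) * ((p - m' {u}) * Ival m' T) := by
    intro u hu
    have huT : u ∉ T := disjoint_left.1 hLT hu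
    refine brk_one (w := m' {u}) ?_ (hw u hu) ?_ hF (pom_le_po hpA L u) (pom_nonneg hpA u) rfl
    · refine (h1 u hu).trans ?_
      have := push_mono h.1 (empty_subset S) {u}
      rwa [push_empty_set] at this
    · have := mul_Ival_le_erase hp' (mem_insert_self u T)
      rwa [erase_insert huT] at this
  have hsum := sum_le_sum hterm
  rw [← mul_sum, ← sum_mul] at hsum
  have hsp : ∑ u ∈ L, (p - m' {u}) = ((L.card : ℝ) * p - pal m (L ∪ (T ∪ S)) + pal m (T ∪ S)) +
      om + ∑ u ∈ L, (push m' T {u} - m' {u}) := by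
    have e1 := sum_pa_low m hdLA
    have e2 := sum_pa_sub m hdLA
    have e3 : ∑ u ∈ L, (push m' T {u} - m' {u}) =
        ∑ u ∈ L, push m (T ∪ S) {u} - ∑ u ∈ L, m' {u} := by
      rw [sum_sub_distrib]
      congr 1
      exact sum_congr rfl fun u _ => by rw [hm', push_push m hTS]
    rw [sum_sub_distrib] at e2
    rw [e3, sum_sub_distrib, sum_const, nsmul_eq_mul]
    linarith
  rw [hsp] at hsum
  rw [hpt]
  calc _ ≤ (2 + (Om - om) / p) * Ival m' T + (1 + Om / p) *
        ((((L.card : ℝ) * p - pal m (L ∪ (T ∪ S)) + pal m (T ∪ S)) +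
      om + ∑ u ∈ L, (push m' T {u} - m' {u})) * Ival m' T) := by linarith
    _ = _ := by ring

end

section

variable {V β : Type} [DecidableEq V] [DecidableEq β] [Fintype V] {m : Finset V → ℝ}
  {L T S T0 : Finset V}
  {B : Finset β} {M : V → Finset β} {p q P : ℕ}

/-- colours and masses: the lower bounds for the capacities of the sets without lows -/
theorem col_low (hLT : Disjoint L T) (hLS : Disjoint L S) (hTS : Disjoint T S)
    (hT0 : Disjoint T0 (L ∪ T)) (hT2 : 2 ≤ T.card)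
    (haL : ∀ v ∈ L, pa m (L ∪ (T ∪ S)) v + (M v).card ≤ p)
    (haT : ∀ v ∈ T, pa m (L ∪ (T ∪ S)) v + (M v).card ≤ P)
    (hB : B.card = P) (hMB : ∀ v, M v ⊆ B) {c' : V → ℕ}
    (hc1 : ∀ j ∈ T, P ≤ c' j + (((T0 ∪ L) ∪ T.erase j).biUnion M).card)
    {Q0 Om l ΓM : ℝ}
    (hQ0 : Q0 = pal m (T ∪ S) - ((T.card : ℝ) - 2) * P)
    (hOm : Om = po (push m (T ∪ S)) L)
    (hl : l = (L.card : ℝ) * p - pal m (L ∪ (T ∪ S)) + pal m (T ∪ S))
    (hΓM : ΓM = ∑ v ∈ T0, ((M v).card : ℝ)) :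
    (∀ j ∈ T, Q0 - ΓM - l + Om + pom (push m S) T j - (push m S {j} + push m S ∅) +
      ∑ i ∈ T.erase j, (pa m (L ∪ (T ∪ S)) i - pa (push m S) T i) ≤ (c' j : ℝ)) ∧
    Q0 - push m S ∅ + po (push m S) T + ∑ i ∈ T, (pa m (L ∪ (T ∪ S)) i - pa (push m S) T i) -
      2 * ΓM - 2 * l + 2 * Om ≤ ∑ j ∈ T, (c' j : ℝ) := by
  set U := L ∪ (T ∪ S) with hU
  set m' := push m S with hm'
  have hdLA : Disjoint L (T ∪ S) := disjoint_union_right.2 ⟨hLT, hLS⟩
  have hpal : pal m' T = pal m (T ∪ S) := pal_push hTS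
  have hsumL : ∑ v ∈ L, ((M v).card : ℝ) ≤ l - Om := by
    have h1 : ∑ v ∈ L, ((M v).card : ℝ) ≤ ∑ v ∈ L, ((p : ℝ) - pa m U v) :=
      sum_le_sum fun v hv => by linarith [haL v hv]
    have h2 := sum_pa_low m hdLA
    rw [sum_sub_distrib, sum_const, nsmul_eq_mul] at h1
    rw [hl, hOm]
    linarith
  have hdT0L : Disjoint T0 L := hT0.mono_right subset_union_left
  have hdT0T : Disjoint (T0 ∪ L) T :=
    disjoint_union_left.2 ⟨hT0.mono_right subset_union_right, hLT⟩
  have hspa : ∑ i ∈ T, pa m' T i = pal m (T ∪ S) - m' ∅ + po m' T := by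
    rw [← hpal]
    exact sum_pa
  constructor
  · intro j hj
    have h1 := hc1 j hj
    have h2 : (((T0 ∪ L) ∪ T.erase j).biUnion M).card ≤
        (∑ v ∈ T0, (M v).card + ∑ v ∈ L, (M v).card) + ∑ v ∈ T.erase j, (M v).card := by
      refine card_biUnion_le.trans (le_of_eq ?_)
      rw [sum_union (hdT0T.mono_right (erase_subset _ _)), sum_union hdT0L]
    have h3 : (P : ℝ) ≤ (c' j : ℝ) + ((∑ v ∈ T0, ((M v).card : ℝ) + ∑ v ∈ L, ((M v).card : ℝ)) +
        ∑ v ∈ T.erase j, ((M v).card : ℝ)) := by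
      have h4 : P ≤ c' j + ((∑ v ∈ T0, (M v).card + ∑ v ∈ L, (M v).card) +
        ∑ v ∈ T.erase j, (M v).card) := by omega
      exact_mod_cast h4
    have h4 : ∑ v ∈ T.erase j, ((M v).card : ℝ) ≤ ∑ v ∈ T.erase j, ((P : ℝ) - pa m U v) :=
      sum_le_sum fun v hv => by linarith [haT v (mem_of_mem_erase hv)]
    have h5 : ∑ v ∈ T.erase j, ((P : ℝ) - pa m U v) = ((T.card : ℝ) - 1) * P -
        (∑ i ∈ T.erase j, (pa m U i - pa m' T i) + ∑ i ∈ T.erase j, pa m' T i) := by
      rw [← sum_add_distrib, sum_sub_distrib, sum_const, nsmul_eq_mul, card_erase_of_mem hj,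
        Nat.cast_sub (by omega), Nat.cast_one]
      congr 1
      exact sum_congr rfl fun i _ => by ring
    have h6 := sum_erase_add T (fun v => pa m' T v) hj
    have h7 := pa_add_pom (m := m') hj
    rw [hspa] at h6
    rw [h5] at h4
    rw [← hΓM] at h3
    rw [hQ0]
    nlinarith
  · have h1 := sum_col (T := T0 ∪ L) (K := T) (M := M) hT2 hB hMB (c' := c') hc1
    have h2 : 2 * (P : ℝ) ≤ ∑ j ∈ T, (c' j : ℝ) + ∑ v ∈ T, ((M v).card : ℝ) +
        2 * (∑ v ∈ T0, ((M v).card : ℝ) + ∑ v ∈ L, ((M v).card : ℝ)) := by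
      rw [sum_union hdT0L] at h1
      exact_mod_cast h1
    have h3 : ∑ v ∈ T, ((M v).card : ℝ) ≤ ∑ v ∈ T, ((P : ℝ) - pa m U v) :=
      sum_le_sum fun v hv => by linarith [haT v hv]
    have h4 : ∑ v ∈ T, ((P : ℝ) - pa m U v) = (T.card : ℝ) * P -
        (∑ i ∈ T, (pa m U i - pa m' T i) + ∑ i ∈ T, pa m' T i) := by
      rw [← sum_add_distrib, sum_sub_distrib, sum_const, nsmul_eq_mul]
      congr 1
      exact sum_congr rfl fun i _ => by ring
    rw [h4, hspa] at h3
    rw [← hΓM] at h2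
    rw [hQ0]
    nlinarith

/-- at least two slots, no lows in `S` -/
theorem eb3_core (h : PosM m) (hLT : Disjoint L T) (hLS : Disjoint L S) (hTS : Disjoint T S)
    (hT0 : Disjoint T0 (L ∪ T)) (hT2 : 2 ≤ T.card)
    (h1L : ∀ u ∈ L, 1 ≤ m {u}) (h1T : ∀ u ∈ T, 1 ≤ m {u})
    (haL : ∀ v ∈ L, pa m (L ∪ (T ∪ S)) v + (M v).card ≤ p)
    (haT : ∀ v ∈ T, pa m (L ∪ (T ∪ S)) v + (M v).card ≤ P)
    (hB : B.card = P) (hMB : ∀ v, M v ⊆ B) {c' : V → ℕ}
    (hc1 : ∀ j ∈ T, P ≤ c' j + (((T0 ∪ L) ∪ T.erase j).biUnion M).card)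
    (hp : 2 ≤ p) (hqp : q ≤ p) (hP : p + 1 ≤ P) (hq : 0 < q)
    {Q0 l ΓM D R : ℝ}
    (hQ0 : Q0 = pal m (T ∪ S) - ((T.card : ℝ) - 2) * P)
    (hl : l = (L.card : ℝ) * p - pal m (L ∪ (T ∪ S)) + pal m (T ∪ S))
    (hΓM : ΓM = ∑ v ∈ T0, ((M v).card : ℝ)) (hR : R = Q0 - l - ΓM)
    (hD0 : 0 < D) (hDp : D ≤ p)
    (hR1 : 1 + ((P : ℝ) - p) ≤ R) (hRD : D + ((P : ℝ) - p) ≤ R)
    (hc : D ≤ 1 ∨ (q + 1 ≤ p ∧ 3 ≤ p)) (hlD : l + D ≤ 2 * p) (hl1 : l + 1 ≤ 2 * p) :
    2 * (D * (q : ℝ) ^ (T.card - 2) *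
      ((2 + pt (push m (T ∪ S)) L / p) * Ival (push m S) T +
        ∑ u ∈ L, (1 + pom (push m (T ∪ S)) L u / p) *
          (p * Ival (push m S) (insert u T) - Ival (push m S) T))) ≤
      p * (2 + ∑ j ∈ T, (c' j : ℝ) / (push m S {j} + push m S ∅)) := by
  set U := L ∪ (T ∪ S) with hU
  set m' := push m S with hm'
  set Om := po (push m (T ∪ S)) L with hOm
  set om := pN (push m (T ∪ S)) L with hom
  set s := ∑ u ∈ L, (push m' T {u} - m' {u}) with hs
  have hp' : PosM m' := h.push S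
  have hdLA : Disjoint L (T ∪ S) := disjoint_union_right.2 ⟨hLT, hLS⟩
  have hpr : (2 : ℝ) ≤ p := by exact_mod_cast hp
  have hPr : (p : ℝ) + 1 ≤ P := by exact_mod_cast hP
  have hqr : (0 : ℝ) < q := by exact_mod_cast hq
  have hpal : pal m' T = pal m (T ∪ S) := pal_push hTS
  have hM0 : ∀ v, (0 : ℝ) ≤ ((M v).card : ℝ) := fun v => Nat.cast_nonneg _
  have hΓM0 : 0 ≤ ΓM := by
    rw [hΓM]
    exact sum_nonneg fun v _ => hM0 v
  have hpA : ∀ D, 0 ≤ push m (T ∪ S) D := push_nonneg h.1 (T ∪ S)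
  have hom0 : 0 ≤ om := by
    rw [hom]
    unfold pN
    refine sum_nonneg fun D _ => ?_
    split_ifs
    · exact hpA D
    · exact le_rfl
  have homO : om ≤ Om := pN_le_po hpA L
  have hO0 : 0 ≤ Om := hom0.trans homO
  -- `Om ≤ l`
  have hOl : Om ≤ l := by
    have h1 : ∑ v ∈ L, pa m U v ≤ ∑ v ∈ L, (p : ℝ) :=
      sum_le_sum fun v hv => by linarith [haL v hv, hM0 v]
    rw [sum_pa_low m hdLA, sum_const, nsmul_eq_mul] at h1
    rw [hl]
    linarith
  have hs0 : 0 ≤ s := by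
    refine sum_nonneg fun u _ => ?_
    have := push_mono hp'.1 (empty_subset T) {u}
    rw [push_empty_set] at this
    linarith
  -- the masses of the tops
  have h1T' : ∀ i ∈ T, 1 ≤ m' {i} := by
    intro i hi
    refine (h1T i hi).trans ?_
    have := push_mono h.1 (empty_subset S) {i}
    rwa [push_empty_set] at this
  have hpaU : ∀ i ∈ T, pa m' (L ∪ T) i = pa m U i := by
    intro i hi
    rw [hm', pa_push m (disjoint_union_left.2 ⟨hLS, hTS⟩) (disjoint_left.1 hTS hi), hU,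
      union_assoc]
  have hpaT : ∀ i ∈ T, pa m' T i ≤ pa m U i := by
    intro i hi
    rw [← hpaU i hi]
    exact pa_mono hp'.1 subset_union_right i
  have hpaP : ∀ i ∈ T, pa m' T i ≤ P := fun i hi => by
    linarith [hpaT i hi, haT i hi, hM0 i]
  have hshare : s ≤ ∑ i ∈ T, (pa m U i - pa m' T i) := by
    refine (sum_shared_le hp'.1 hLT).trans (le_of_eq ?_)
    exact sum_congr rfl fun i hi => by rw [hpaU i hi]
  have hdiff : ∀ i ∈ T, pa m U i - pa m' T i ≤ P - 1 := by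
    intro i hi
    have h1 := le_pa hp'.1 hi
    linarith [haT i hi, hM0 i, h1T' i hi]
  have hsT : s ≤ T.card * ((P : ℝ) - 1) := by
    refine hshare.trans ?_
    rw [← nsmul_eq_mul, ← sum_const]
    exact sum_le_sum hdiff
  have hBc : ∀ i ∈ T, pa m' T i - m' {i} ≤ (P : ℝ) - 1 := fun i hi => by
    linarith [hpaP i hi, h1T' i hi]
  obtain ⟨hcl, hcs⟩ := col_low hLT hLS hTS hT0 hT2 haL haT hB hMB hc1 hQ0 hOm hl hΓM
  have hRl : R + l ≤ Q0 := by linarith
  have hl0 : 0 ≤ l := hO0.trans hOl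
  have hR0 : 0 < R := by linarith
  have hQ0p : 0 < Q0 := by linarith
  set Q := qh p q P D R l Om s T.card with hQ
  have hQp : 0 < Q := by
    rw [hQ]
    unfold qh
    have h1 : 0 < 2 * (p : ℝ) + (p + Om) * (l + Om + s) := by
      have h2 : 0 ≤ ((p : ℝ) + Om) * (l + Om + s) := mul_nonneg (by linarith) (by linarith)
      linarith
    have h3 : (0 : ℝ) < P := by linarith
    positivity
  have hv := vstarX (m := m') (K := T) (P := (P : ℝ)) (Q1 := Q) hp' hT2 (by linarith) hpaP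
    (by rw [hpal, ← hQ0]; exact hQ0p) hQp (b := fun j => (c' j : ℝ))
    (by
      intro j hj
      have h1 := hcl j hj
      have hs'0 : 0 ≤ ∑ i ∈ T.erase j, (pa m U i - pa m' T i) :=
        sum_nonneg fun i hi => by linarith [hpaT i (mem_of_mem_erase hi)]
      have hs' : s ≤ ∑ i ∈ T.erase j, (pa m U i - pa m' T i) + ((P : ℝ) - 1) := by
        have h2 := sum_erase_add T (fun i => pa m U i - pa m' T i) hj
        have h3 := hdiff j hj
        linarith
      have hy := pom_le_crude hp'.1 hj hT2 hBc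
      have hN := (nE3 (y' := 0) hT2 hp hqp hP hD0.le hDp hR1 hRD hc hO0 hOl hlD hl1 hs0 hsT hs'
        hs'0 hy (mul_nonneg (by
          have : (2 : ℝ) ≤ (T.card : ℝ) := by exact_mod_cast hT2
          linarith) (by linarith))).1
      have h4 : max 1 (Q / P) = 1 + max 0 (Q / P - 1) := by
        rw [← max_add_add_left]
        congr 1 <;> ring
      rw [h4]
      rw [← hQ] at hN
      linarith)
    (by
      have hy' := pt_le_crude hp'.1 hT2 hBc
      have hN := (nE3 (y := 0) (s' := s) hT2 hp hqp hP hD0.le hDp hR1 hRD hc hO0 hOl hlD hl1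
        hs0 hsT (by linarith) hs0 (mul_nonneg (by
          have : (2 : ℝ) ≤ (T.card : ℝ) := by exact_mod_cast hT2
          linarith) (by linarith)) hy').2
      rw [← hQ] at hN
      rw [hpal, ← hQ0]
      linarith)
  rw [hpal, ← hQ0] at hv
  have hbr := brk_le h hLT hLS hTS (p := (p : ℝ))
    (fun u hu => by linarith [haL u hu, hM0 u]) h1L
  rw [← hl, ← hOm, ← hom, ← hm', ← hs] at hbr
  have hqg := qh_ge (p := (p : ℝ)) (q := (q : ℝ)) (P := (P : ℝ)) (D := D) (R := R) (l := l)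
    (O := Om) (w := om) (s := s) (Q0 := Q0) (t := T.card) (by linarith) hqr.le (by linarith)
    hD0.le hR0 hom0 homO hl0 hs0 hRl
  rw [← hQ] at hqg
  set N := 2 + (Om - om) / p + (1 + Om / p) * (l + om + s) with hNdef
  have hF : 0 ≤ Ival m' T := (Ival_pos hp' T).le
  have hqt : 0 ≤ D * (q : ℝ) ^ (T.card - 2) := mul_nonneg hD0.le (pow_nonneg hqr.le _)
  have hPt : 0 < (P : ℝ) ^ (T.card - 2) := pow_pos (by linarith) _
  have hp0 : (0 : ℝ) < p := by linarith
  have h5 : 2 * (D * (q : ℝ) ^ (T.card - 2) * N) ≤ p * (Q * Q0 * (P : ℝ) ^ (T.card - 2)) := by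
    rw [div_le_iff₀ hQ0p] at hqg
    have h6 : 2 * (D * (q : ℝ) ^ (T.card - 2) * N) = p * (2 * (D / p) * (q / P) ^ (T.card - 2) *
        N) * (P : ℝ) ^ (T.card - 2) := by
      rw [div_pow]
      field_simp
    rw [h6]
    have h7 := mul_le_mul_of_nonneg_left hqg (mul_nonneg hp0.le hPt.le)
    calc _ = p * (P : ℝ) ^ (T.card - 2) * (2 * (D / p) * (q / P) ^ (T.card - 2) * N) := by ring
      _ ≤ _ := h7
      _ = _ := by ring
  calc _ ≤ 2 * (D * (q : ℝ) ^ (T.card - 2) * (N * Ival m' T)) := by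
        have := mul_le_mul_of_nonneg_left hbr hqt
        linarith
    _ = 2 * (D * (q : ℝ) ^ (T.card - 2) * N) * Ival m' T := by ring
    _ ≤ p * (Q * Q0 * (P : ℝ) ^ (T.card - 2)) * Ival m' T := mul_le_mul_of_nonneg_right h5 hF
    _ = p * (Q * Q0 * ((P : ℝ) ^ (T.card - 2) * Ival m' T)) := by ring
    _ ≤ _ := mul_le_mul_of_nonneg_left hv hp0.le

end

section

variable {V β : Type} [DecidableEq V] [DecidableEq β] [Fintype V] {F : SimpleGraph V}
  {W Y T0 L A S K : Finset V} {m : Finset V → ℝ} {M : V → Finset β} {B : Finset β}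
  {c : Finset V → ℕ} {p q P νk t d : ℕ} {X O G D : ℝ}

omit [Fintype V] in
/-- the bracket of a set of tops -/
theorem brkS_top (hdL : Disjoint L A) (hSA : S ⊆ A) (p : ℝ) :
    brkS m L A S p = (2 + pt (push m A) L / p) * Ival (push m S) (A \ S) +
      ∑ u ∈ L, (1 + pom (push m A) L u / p) *
        (p * Ival (push m S) (insert u (A \ S)) - Ival (push m S) (A \ S)) := by
  unfold brkS
  rw [if_pos hSA]
  congr 1
  refine sum_congr rfl fun u hu => ?_
  have huS : u ∉ S := fun h1 => disjoint_left.1 hdL hu (hSA h1)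
  rw [if_pos (hSA.trans (subset_insert u A)), insert_sdiff_of_notMem _ huS]

/-- the inequality for the sets of tops, at least two slots, with the factor `q` -/
theorem OL.top3 (h : OL F W Y T0 L A m M B c p q P νk t d X O G D) (hSA : S ⊆ A)
    (hSd : S.card = d) (ht : 2 ≤ t) {κ : ℝ} (hκ : (q : ℝ) ≤ κ) :
    D * (q : ℝ) ^ ((νk - 1) + (t - 1)) * brkS m L A S p ≤ κ * (p : ℝ) ^ νk * SK F W Y c S := by
  have hpr : (2 : ℝ) ≤ p := by exact_mod_cast h.q2.trans h.qp
  have hPr : (p : ℝ) + 1 ≤ P := by exact_mod_cast h.pP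
  have hqr : (2 : ℝ) ≤ q := by exact_mod_cast h.q2
  have hqp : (q : ℝ) ≤ p := by exact_mod_cast h.qp
  have hp0 : (0 : ℝ) < p := by linarith
  have hSU : S ⊆ L ∪ A := hSA.trans subset_union_right
  have hSK1 := h.SK_one hSU hSd
  have hpν : 0 < (p : ℝ) ^ νk := pow_pos hp0 _
  have hR : (q : ℝ) * (p : ℝ) ^ νk * SK F W Y c S ≤ κ * (p : ℝ) ^ νk * SK F W Y c S := by
    have h1 : 0 ≤ (p : ℝ) ^ νk * SK F W Y c S := mul_nonneg hpν.le (by linarith)
    nlinarith
  refine le_trans ?_ hR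
  rcases h.D0.eq_or_lt with hD | hD
  · rw [← hD, zero_mul, zero_mul]
    exact mul_nonneg (mul_nonneg (by linarith) hpν.le) (by linarith)
  set T := A \ S with hT
  have hTS : T ∪ S = A := sdiff_union_of_subset hSA
  have hdTS : Disjoint T S := sdiff_disjoint
  have hTA : T ⊆ A := sdiff_subset
  have hLT : Disjoint L T := h.dL.mono_right hTA
  have hLS : Disjoint L S := h.dL.mono_right hSA
  have hTc : T.card = t := by
    rw [hT, card_sdiff_of_subset hSA, h.Ac, hSd]
    omega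
  have hLK : L ∪ T = (L ∪ A) \ S := by
    rw [union_sdiff_distrib, sdiff_eq_self_of_disjoint hLS]
  have hc1 : ∀ j ∈ T, P ≤ c (Y \ insert j S) + (((T0 ∪ L) ∪ T.erase j).biUnion M).card :=
    fun j hj => h.c1T hSU hSd hLK hLT hj
  have hTU : T ⊆ (L ∪ A) \ S := by
    rw [← hLK]
    exact subset_union_right
  have hSK := h.SK_ge hSU hSd hTU
  set ΓM := ∑ v ∈ T0, ((M v).card : ℝ) with hΓM
  have hLc : (L.card : ℝ) = (νk : ℝ) + 1 := by
    rw [h.Lc]
    push_cast
    ring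
  have hX0 := h.X0
  have hO0 := h.O0
  have hOG := h.OG
  rw [← hΓM] at hOG
  have hΓM0 : 0 ≤ ΓM := sum_nonneg fun _ _ => Nat.cast_nonneg _
  have hpalU := h.palU
  have hext := h.ext
  have hD1 := h.D1
  set l := (L.card : ℝ) * p - pal m (L ∪ A) + pal m A with hl
  set Q0 := pal m A - ((t : ℝ) - 2) * P with hQ0
  have hQ0l : Q0 - l = 1 + ((P : ℝ) - p) + X + G := by
    rw [hQ0, hl, hLc]
    linarith
  have hl1 : l + X + G + 1 ≤ 2 * p := by
    rw [hl, hLc]
    linarith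
  have hc : D ≤ 1 ∨ (q + 1 ≤ p ∧ 3 ≤ p) := by
    rcases h.k0 with ⟨_, h1, h2, _, _⟩ | h1
    · left
      linarith
    · right
      have := h.q2
      exact ⟨h1, by omega⟩
  have hcore := eb3_core (m := m) (L := L) (T := T) (S := S) (T0 := T0) (B := B) (M := M) (p := p)
    (q := q) (P := P) (c' := fun j => c (Y \ insert j S)) h.pos hLT hLS hdTS
    (h.dT.mono_right (by rw [hLK]; exact sdiff_subset)) (by rw [hTc]; exact ht)
    (fun u hu => h.one (mem_union_left A hu))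
    (fun u hu => h.one (mem_union_right L (hTA hu)))
    (fun v hv => by rw [hTS]; exact h.paL hv)
    (fun v hv => by rw [hTS]; exact h.paA (mem_union_right L (hTA hv)))
    h.Bc h.MB hc1 (h.q2.trans h.qp) h.qp h.pP (by have := h.q2; omega)
    (Q0 := Q0) (l := l) (ΓM := ΓM) (D := D) (R := Q0 - l - ΓM)
    (by rw [hTS, hTc]) (by rw [hTS]) hΓM rfl hD h.Dp (by linarith) (by linarith) hc
    (by linarith) (by linarith)
  rw [hTS, hTc] at hcore
  rw [brkS_top h.dL hSA]
  set br := (2 + pt (push m A) L / p) * Ival (push m S) T +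
      ∑ u ∈ L, (1 + pom (push m A) L u / p) *
        (p * Ival (push m S) (insert u T) - Ival (push m S) T) with hbr
  set Sg := ∑ j ∈ T, (c (Y \ insert j S) : ℝ) / (push m S {j} + push m S ∅) with hSg
  have hpm' : PosM (push m S) := h.pos.push S
  have hSg0 : 0 ≤ Sg := sum_nonneg fun j _ => div_nonneg (Nat.cast_nonneg _)
    (add_nonneg (hpm'.1 _) (hpm'.1 _))
  have e1 : (q : ℝ) ^ (νk - 1) ≤ (p : ℝ) ^ (νk - 1) := pow_le_pow_left₀ (by linarith) hqp _
  have e4 : (p : ℝ) ^ νk = (p : ℝ) ^ (νk - 1) * p := by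
    rw [← pow_succ]
    congr 1
    have := h.ν1
    omega
  have e5 : (q : ℝ) ^ (t - 1) = (q : ℝ) ^ (t - 2) * q := by
    rw [← pow_succ]
    congr 1
    omega
  have h5 : D * (q : ℝ) ^ (t - 2) * br ≤ p * SK F W Y c S := by
    have h6 : (p : ℝ) * (2 + Sg) ≤ p * (2 * SK F W Y c S) :=
      mul_le_mul_of_nonneg_left (by linarith) hp0.le
    linarith
  have h6 : 0 ≤ (p : ℝ) * SK F W Y c S := mul_nonneg hp0.le (by linarith)
  calc D * (q : ℝ) ^ ((νk - 1) + (t - 1)) * br
      = (q : ℝ) * ((q : ℝ) ^ (νk - 1) * (D * (q : ℝ) ^ (t - 2) * br)) := by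
        rw [pow_add, e5]
        ring
    _ ≤ (q : ℝ) * ((q : ℝ) ^ (νk - 1) * (p * SK F W Y c S)) := by
        refine mul_le_mul_of_nonneg_left ?_ (by linarith)
        exact mul_le_mul_of_nonneg_left h5 (by positivity)
    _ ≤ (q : ℝ) * ((p : ℝ) ^ (νk - 1) * (p * SK F W Y c S)) := by
        refine mul_le_mul_of_nonneg_left ?_ (by linarith)
        exact mul_le_mul_of_nonneg_right e1 h6
    _ = _ := by
        rw [e4]
        ring

end

end MP76b19e.Rob
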