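import Pool.Agent.Lib.MP76b19e.Rob.StopD

/-!
# The exact decomposition over the last elements (problem MP_76b19e_co)

`mixed_all` is the local inequality for one low level and any number of surplus low elements,
reduced to one inequality for each set `S` of the last `d` elements (no stopping).
-/

set_option autoImplicit false

open Finset

namespace MP76b19e.Rob

section

variable {V : Type} [DecidableEq V]

private theorem push_push_union (m : Finset V → ℝ) {R S : Finset V} (h : Disjoint R S) :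
    push (push m R) S = push m (R ∪ S) := by
  funext D
  have h1 := pal_push (m := fun E => m (D ∪ E)) (A := S) (S := R) h.symm
  unfold pal push at h1
  unfold push
  rw [union_comm R S, ← h1]
  refine sum_congr rfl fun E _ => sum_congr rfl fun E' _ => ?_
  rw [union_assoc]

/-- a shift of the parameter of the linear functional -/
theorem VL_shift (m : Finset V → ℝ) (K L : Finset V) (g a p z : ℝ) :
    VL m K L (g + a) p (z + a * p) = VL m K L g p z := by
  unfold VL
  ring

/-- the decomposition over all the sets of the last `d` elements -/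
theorem stop_all {m : Finset V → ℝ} (hm : PosM m) {U L : Finset V} {d : ℕ} {q g p z : ℝ}
    (f : Finset V → ℝ) (hU : d + 1 ≤ U.card)
    (hS : ∀ R ⊆ U, R.card = d →
      q * VL (push m R) (U \ R) L (g - ((R ∩ L).card : ℝ)) p z ≤ f R) :
    q * VL m U L g p z ≤ ∑ S ∈ U.powersetCard d, Ival m S * f S := by
  have h1 := stop (m := m) hm (U := U) (L := L) (d := d) (e := d + 2) (q := q) (p := p)
    (z := z + ((d : ℝ) + 3 - g) * p) f hU
    (fun R hR d' hd hRe => by
      exfalso
      have h2 : (R ∩ L).card ≤ R.card := card_le_card inter_subset_left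
      omega)
    (fun R hR hd hRe => by
      have h2 : (((d + 2 : ℕ) : ℝ) + 1 - ((R ∩ L).card : ℝ)) =
          (g - ((R ∩ L).card : ℝ)) + ((d : ℝ) + 3 - g) := by
        push_cast
        ring
      rw [h2, VL_shift]
      exact hS R hR hd) (by omega)
  have h2 : (((d + 2 : ℕ) : ℝ) + 1) = g + ((d : ℝ) + 3 - g) := by
    push_cast
    ring
  rwa [h2, VL_shift] at h1

end

section

variable {V β : Type} [DecidableEq V] [DecidableEq β] [Fintype V] {F : SimpleGraph V}
  {W Y : Finset V} {X : ℕ → Finset V} {lev : V → ℕ} {P ν : ℕ → ℕ} {l n k : ℕ}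

omit [DecidableEq β] in
/-- the local inequality for the linear statistic, one low level in the last block, `e` low
elements more than slots: reduction to the sets of the last `d` elements -/
theorem mixed_all (h : Lv F W Y X lev) (hP : ∀ j, 0 < P j) (hm : ∀ j, P j < P (j + 1))
    (hcap : Cp F W Y lev P l) (hν : ∀ i, i ≤ l → 1 ≤ ν i)
    (hXc : ∀ j, j < l → ((X j).card : ℝ) = Ss P ν j - P j + 1) {d e : ℕ}
    (hY : Y.card = Nn ν l + (d + 1))
    (hkl : l = k + 1) (hk : k = 0 ∨ xY Y lev ν (k - 1) = 0) (hxk : xY Y lev ν k = e)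
    (he : 1 ≤ e)
    {M : V → Finset β} {c : Finset V → ℕ}
    (hcol : ∀ v ∈ W, (cn F v ∩ W).card + (M v).card ≤ P (lev v)) {κ : ℝ} (hκ : 0 ≤ κ)
    (hnum : (∀ j, j < l → Nn ν j ≤ (Kl Y lev (j + 1)).card) →
      (Kl Y lev k).card = ∑ j ∈ range k, ν j → (Bl Y lev k l).card = ν k + e →
      (Bl Y lev l (l + 1)).card + e = ν l + (d + 1) →
      0 ≤ OT F W (Kl Y lev k) →
      OT F W (Kl Y lev k) + ∑ v ∈ Kl Y lev k, ((M v).card : ℝ) ≤ GT F W lev P (Kl Y lev k) →
      0 ≤ Gp P ν (xY Y lev ν) (CY F Y lev) k →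
      ∀ D : ℝ, 0 ≤ D → D ≤ 1 + Xs P (xY Y lev ν) k + OT F W (Kl Y lev k) → D ≤ P k →
      ∀ m : Finset V → ℝ, PosM m → m ∅ = 0 → (∀ A ⊆ Bl Y lev k (l + 1), m A = mY F W Y A) →
      ∀ R ⊆ Bl Y lev k (l + 1), R.card = d →
        0 < VL (push m R) (Bl Y lev k (l + 1) \ R) (Bl Y lev k l)
            ((e : ℝ) + 1 - ((R ∩ Bl Y lev k l).card : ℝ)) (P k)
            (Xs P (xY Y lev ν) k + Gp P ν (xY Y lev ν) (CY F Y lev) k) →
        D * (P 0 : ℝ) ^ (∑ j ∈ Ico k (l + 1), (ν j - 1)) *
          VL (push m R) (Bl Y lev k (l + 1) \ R) (Bl Y lev k l)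
            ((e : ℝ) + 1 - ((R ∩ Bl Y lev k l).card : ℝ)) (P k)
            (Xs P (xY Y lev ν) k + Gp P ν (xY Y lev ν) (CY F Y lev) k) ≤
          κ * SK F W Y c R) :
    ((P 0 : ℝ) ^ (∑ i ∈ range (l + 1), (ν i - 1)) * ∏ i ∈ range l, (P i : ℝ)) *
        ∑ s ∈ univ.filter (fun s : V ≃ Fin n => gr F W s = Y),
          RL F X (fun _ => 1) (fun j => (P j : ℝ)) s l ≤
      (Fintype.card (V ≃ Fin n) : ℝ) * (κ * CapT F W (fun K => (c K : ℝ)) Y) := by
  classical
  refine mixed_stop h hP hm hcap hν hXc hY hkl hk hxk he hcol hκ ?_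
  intro hx hTc hLc hAc hO0 hOGT hG0 D hD0 hD1 hDP m hpm hm0 hmY
  have hall := hnum hx hTc hLc hAc hO0 hOGT hG0 D hD0 hD1 hDP m hpm hm0 hmY
  refine ⟨?_, fun R hR hRd _ => hall R hR hRd⟩
  intro R hR d' hd' hRe _
  set U := Bl Y lev k (l + 1) with hUdef
  set L := Bl Y lev k l with hLdef
  set Z := Xs P (xY Y lev ν) k + Gp P ν (xY Y lev ν) (CY F Y lev) k with hZ
  set Dq := D * (P 0 : ℝ) ^ (∑ j ∈ Ico k (l + 1), (ν j - 1)) with hDq
  have hDq0 : 0 ≤ Dq := mul_nonneg hD0 (by positivity)
  have hUc : d + 1 ≤ U.card := by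
    have hl := hcap.le
    have hKl : Kl Y lev (l + 1) = Y := by
      unfold Kl
      rw [filter_true_of_mem]
      intro v hv
      have := hl v (h.Y_sub hv)
      omega
    have h1 : (Kl Y lev k).card + (Bl Y lev k (l + 1)).card = (Kl Y lev (l + 1)).card := by
      rw [← Kl_union (Y := Y) (lev := lev) (show k ≤ l + 1 by omega),
        card_union_of_disjoint Kl_disj]
    rw [hKl, hY, hTc, ← hUdef] at h1
    have h3 : ∑ j ∈ range k, ν j ≤ Nn ν l := by
      unfold Nn
      exact sum_le_sum_of_subset (range_mono (by omega))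
    omega
  have hSK : ∀ S, 0 ≤ SK F W Y c S := by
    intro S
    unfold SK
    refine add_nonneg (Nat.cast_nonneg _) (sum_nonneg fun u _ => ?_)
    exact div_nonneg (Nat.cast_nonneg _) (sum_nonneg fun D _ => mY_nonneg Y D)
  have h1 : (U \ R).card = U.card - R.card := card_sdiff_of_subset hR
  have h2 := stop_all (m := push m R) (hpm.push R) (U := U \ R) (L := L) (d := d') (q := Dq)
    (g := 2) (p := (P k : ℝ)) (z := Z) (fun S => κ * SK F W Y c (R ∪ S)) (by omega)
    (fun S hS' hSd => by
      have h3 : Disjoint R S := by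
        rw [disjoint_left]
        intro v hv hv'
        exact (mem_sdiff.1 (hS' hv')).2 hv
      have h4 : push (push m R) S = push m (R ∪ S) := push_push_union m h3
      have h5 : (U \ R) \ S = U \ (R ∪ S) := by
        rw [sdiff_sdiff]
        rfl
      have h6 : (2 : ℝ) - ((S ∩ L).card : ℝ) = (e : ℝ) + 1 - (((R ∪ S) ∩ L).card : ℝ) := by
        have h7 : ((R ∪ S) ∩ L).card = (R ∩ L).card + (S ∩ L).card := by
          rw [union_inter_distrib_right]
          exact card_union_of_disjoint (h3.mono inter_subset_left inter_subset_left)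
        rw [h7, ← hRe]
        push_cast
        ring
      have h8 : R ∪ S ⊆ U := union_subset hR (hS'.trans sdiff_subset)
      have h9 : (R ∪ S).card = d := by
        rw [card_union_of_disjoint h3]
        omega
      rw [h4, h5, h6]
      rcases lt_or_ge 0 (VL (push m (R ∪ S)) (U \ (R ∪ S)) L
        ((e : ℝ) + 1 - (((R ∪ S) ∩ L).card : ℝ)) (P k) Z) with h10 | h10
      · exact hall (R ∪ S) h8 h9 h10
      · exact (mul_nonpos_of_nonneg_of_nonpos hDq0 h10).trans (mul_nonneg hκ (hSK _)))
  exact h2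

end

end MP76b19e.Rob
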