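import Pool.Agent.Lib.MP76b19e.Rob.Zero

/-!
# Filling the caps (problem MP_76b19e_co)

`vstar_col`: (V**) for masses and colours. `fillM m γ K`: the masses `m` with `γ u` more private
vertices for every `u ∈ K`. `Ival_fill`: the price of the filling. `fill_block`: (V**) for the
filled system in the setting of `last_block`.
-/

set_option autoImplicit false

open Finset

namespace MP76b19e.Rob

section

variable {V β : Type} [DecidableEq V] [DecidableEq β] [Fintype V] {m : Finset V → ℝ}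
  {T K : Finset V} {B : Finset β} {M : V → Finset β} {q : ℕ}

/-- (V**) with colours -/
theorem vstar_col (h : PosM m) (hK : 2 ≤ K.card) (hdTK : Disjoint T K) (hq : 0 < q)
    (hB : B.card = q) (hMB : ∀ v, M v ⊆ B) (hMv : ∀ v ∈ K, ((M v).card : ℝ) ≤ q - pa m K v)
    {c' : V → ℕ} (hc1 : ∀ j ∈ K, q ≤ c' j + ((T ∪ K.erase j).biUnion M).card)
    {Q1 : ℝ} (hQ1 : 0 < Q1) (hQ1q : Q1 ≤ q)
    (hQ : Q1 + ∑ v ∈ T, ((M v).card : ℝ) ≤ pal m K - ((K.card : ℝ) - 2) * q) :
    Q1 * (pal m K - ((K.card : ℝ) - 2) * q) * ((q : ℝ) ^ (K.card - 2) * Ival m K) ≤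
      2 + ∑ j ∈ K, (c' j : ℝ) / (m {j} + m ∅) := by
  classical
  have hqp : (0 : ℝ) < q := by exact_mod_cast hq
  set Q0 := pal m K - ((K.card : ℝ) - 2) * q with hQ0def
  have hTM0 : 0 ≤ ∑ v ∈ T, ((M v).card : ℝ) := sum_nonneg fun _ _ => Nat.cast_nonneg _
  have hspa := sum_pa (m := m) (K := K)
  -- the lower bound for every element
  have hb1 : ∀ j ∈ K, Q1 + pom m K j - (m {j} + m ∅) ≤ (c' j : ℝ) := by
    intro j hj
    have h1 := hc1 j hj
    have h2 : ((T ∪ K.erase j).biUnion M).card ≤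
        ∑ v ∈ T, (M v).card + ∑ v ∈ K.erase j, (M v).card := by
      refine card_biUnion_le.trans (le_of_eq ?_)
      exact sum_union (hdTK.mono_right (erase_subset _ _))
    have h3 : (q : ℝ) ≤ (c' j : ℝ) + (∑ v ∈ T, ((M v).card : ℝ) +
        ∑ v ∈ K.erase j, ((M v).card : ℝ)) := by
      have h4 : q ≤ c' j + (∑ v ∈ T, (M v).card + ∑ v ∈ K.erase j, (M v).card) := by omega
      exact_mod_cast h4
    have h4 : ∑ v ∈ K.erase j, ((M v).card : ℝ) ≤ ∑ v ∈ K.erase j, ((q : ℝ) - pa m K v) :=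
      sum_le_sum fun v hv => hMv v (mem_of_mem_erase hv)
    have h5 : ∑ v ∈ K.erase j, ((q : ℝ) - pa m K v) =
        (K.card : ℝ) * q - (pal m K - m ∅ + po m K) - ((q : ℝ) - pa m K j) := by
      have h6 := sum_erase_add K (fun v => (q : ℝ) - pa m K v) hj
      have h7 : ∑ v ∈ K, ((q : ℝ) - pa m K v) =
          (K.card : ℝ) * q - (pal m K - m ∅ + po m K) := by
        rw [sum_sub_distrib, sum_const, nsmul_eq_mul, hspa]
      linarith
    have h6 := pa_add_pom (m := m) hj
    have h7 : (K.card : ℝ) * q = ((K.card : ℝ) - 2) * q + 2 * q := by ring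
    rw [h5, h7] at h4
    linarith
  have hb2 : 2 * Q1 - Q0 - (m ∅ - po m K) ≤ ∑ j ∈ K, (c' j : ℝ) := by
    have h1 := sum_col (T := T) (K := K) (M := M) hK hB hMB (c' := c') hc1
    have h2 : 2 * (q : ℝ) ≤ ∑ j ∈ K, (c' j : ℝ) + ∑ v ∈ K, ((M v).card : ℝ) +
        2 * ∑ v ∈ T, ((M v).card : ℝ) := by exact_mod_cast h1
    have h3 : ∑ v ∈ K, ((M v).card : ℝ) ≤ ∑ v ∈ K, ((q : ℝ) - pa m K v) :=
      sum_le_sum fun v hv => hMv v hv
    rw [sum_sub_distrib, sum_const, nsmul_eq_mul, hspa] at h3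
    have h7 : (K.card : ℝ) * q = ((K.card : ℝ) - 2) * q + 2 * q := by ring
    rw [h7] at h3
    linarith
  exact vstar (b := fun j => (c' j : ℝ)) h hK hqp
    (fun k hk => (by
      have h1 := hMv k hk
      have h2 : (0 : ℝ) ≤ ((M k).card : ℝ) := Nat.cast_nonneg _
      linarith : pa m K k ≤ q)) (by rw [← hQ0def]; linarith) hQ1q hQ1 hb1 hb2

end

section

variable {V : Type} [DecidableEq V] {m : Finset V → ℝ}

/-- `γ u` more private vertices for every `u ∈ A` -/
noncomputable def fillM (m : Finset V → ℝ) (γ : V → ℝ) (A D : Finset V) : ℝ :=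
  m D + ∑ u ∈ A, if D = {u} then γ u else 0

theorem fillM_sing (m : Finset V → ℝ) (γ : V → ℝ) {A : Finset V} {u : V} (hu : u ∈ A) :
    fillM m γ A {u} = m {u} + γ u := by
  unfold fillM
  congr 1
  rw [sum_eq_single_of_mem u hu fun v _ hv => if_neg (fun h => hv (singleton_injective h).symm),
    if_pos rfl]

theorem fillM_of_notMem (m : Finset V → ℝ) (γ : V → ℝ) {A : Finset V} {u : V} (hu : u ∉ A) :
    fillM m γ A {u} = m {u} := by
  unfold fillM
  rw [sum_eq_zero fun v hv => if_neg fun h => hu (by rwa [singleton_injective h]), add_zero]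

theorem fillM_ne (m : Finset V → ℝ) (γ : V → ℝ) (A : Finset V) {D : Finset V}
    (hD : D.card ≠ 1) : fillM m γ A D = m D := by
  unfold fillM
  rw [sum_eq_zero fun v _ => if_neg (fun h => hD (by rw [h, card_singleton])), add_zero]

theorem fillM_empty (m : Finset V → ℝ) (γ : V → ℝ) (A : Finset V) : fillM m γ A ∅ = m ∅ :=
  fillM_ne m γ A (by simp)

theorem PosM.fillM (h : PosM m) {γ : V → ℝ} {A : Finset V} (hγ : ∀ u ∈ A, 0 ≤ γ u) :
    PosM (fillM m γ A) := by
  have h1 : ∀ D : Finset V, 0 ≤ ∑ u ∈ A, (if D = {u} then γ u else 0) := fun D =>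
    sum_nonneg fun u hu => by
      split_ifs
      · exact hγ u hu
      · exact le_rfl
  exact ⟨fun D => add_nonneg (h.1 D) (h1 D), fun k => add_pos_of_pos_of_nonneg (h.2 k) (h1 _)⟩

/-- the price of the filling -/
theorem Ival_fill (h : PosM m) {K : Finset V} {γ : V → ℝ} {A : Finset V} (hA : A ⊆ K)
    (hγ : ∀ u ∈ A, 0 ≤ γ u) :
    Ival m K ≤ (∏ u ∈ A, (1 + γ u / m {u})) * Ival (fillM m γ A) K := by
  induction A using Finset.induction_on with
  | empty =>
    rw [prod_empty, one_mul]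
    refine (Ival_congr fun D _ => ?_).le
    unfold fillM
    rw [sum_empty, add_zero]
  | insert a A ha ih =>
    have hAK : A ⊆ K := (subset_insert _ _).trans hA
    have haK : a ∈ K := hA (mem_insert_self _ _)
    have hγA : ∀ u ∈ A, 0 ≤ γ u := fun u hu => hγ u (mem_insert_of_mem hu)
    have hγa := hγ a (mem_insert_self _ _)
    have h1 := ih hAK hγA
    have h' := h.fillM hγA
    have h2 := Ival_exact h' haK hγa
    rw [fillM_of_notMem m γ ha] at h2
    have hma := h.2 a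
    have h3 : Ival (Function.update (fillM m γ A) {a} (m {a} + γ a)) K =
        Ival (fillM m γ (insert a A)) K := by
      refine Ival_congr fun D _ => ?_
      by_cases hD : D = {a}
      · rw [hD, Function.update_self, fillM_sing _ _ (mem_insert_self _ _)]
      · rw [Function.update_of_ne hD]
        unfold fillM
        rw [sum_insert ha, if_neg hD, zero_add]
    rw [h3] at h2
    have h4 : Ival (fillM m γ A) K ≤ (1 + γ a / m {a}) * Ival (fillM m γ (insert a A)) K := by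
      rw [show (1 + γ a / m {a}) * Ival (fillM m γ (insert a A)) K =
        ((m {a} + γ a) * Ival (fillM m γ (insert a A)) K) / m {a} by field_simp,
        le_div_iff₀ hma, mul_comm]
      exact h2
    have hP : 0 ≤ ∏ u ∈ A, (1 + γ u / m {u}) := prod_nonneg fun u hu => by
      have := div_nonneg (hγA u hu) (h.2 u).le
      linarith
    rw [prod_insert ha]
    calc Ival m K ≤ (∏ u ∈ A, (1 + γ u / m {u})) * Ival (fillM m γ A) K := h1
      _ ≤ (∏ u ∈ A, (1 + γ u / m {u})) *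
          ((1 + γ a / m {a}) * Ival (fillM m γ (insert a A)) K) :=
          mul_le_mul_of_nonneg_left h4 hP
      _ = _ := by ring

theorem pal_fillM {K : Finset V} (γ : V → ℝ) {A : Finset V} (hA : A ⊆ K) :
    pal (fillM m γ A) K = pal m K + ∑ u ∈ A, γ u := by
  unfold pal fillM
  rw [sum_add_distrib, sum_comm]
  congr 1
  refine sum_congr rfl fun u hu => ?_
  rw [sum_ite_eq', if_pos]
  rw [mem_powerset, singleton_subset_iff]
  exact hA hu

theorem pa_fillM {K : Finset V} (γ : V → ℝ) {A : Finset V} (hA : A ⊆ K) {v : V} (hv : v ∈ A) :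
    pa (fillM m γ A) K v = pa m K v + γ v := by
  unfold pa fillM
  have h1 : ∀ D ∈ K.powerset, (if v ∈ D then m D + ∑ u ∈ A, (if D = {u} then γ u else 0) else 0) =
      (if v ∈ D then m D else 0) + (if D = {v} then γ v else 0) := by
    intro D _
    by_cases hvD : v ∈ D
    · rw [if_pos hvD, if_pos hvD]
      congr 1
      by_cases hD : D = {v}
      · rw [if_pos hD, sum_eq_single_of_mem v hv, if_pos hD]
        intro u _ huv
        rw [if_neg]
        rintro rfl
        exact huv (mem_singleton.1 hvD).symm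
      · rw [if_neg hD]
        refine sum_eq_zero fun u _ => if_neg ?_
        rintro rfl
        rw [mem_singleton] at hvD
        exact hD (by rw [hvD])
    · rw [if_neg hvD, if_neg hvD, zero_add, if_neg]
      rintro rfl
      exact hvD (mem_singleton_self v)
  rw [sum_congr rfl h1, sum_add_distrib, sum_ite_eq', if_pos]
  rw [mem_powerset, singleton_subset_iff]
  exact hA hv

end

section

variable {V β : Type} [DecidableEq V] [DecidableEq β] [Fintype V] {F : SimpleGraph V}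
  {W Y T K S : Finset V} {B : Finset β} {M : V → Finset β} {c : Finset V → ℕ}
  {m : Finset V → ℝ} {q : ℕ}

/-- (V**) for the filled system: caps `pc v ≤ q` -/
theorem fill_block (hpm : PosM m) (hm : ∀ D ⊆ Y \ T, m D = mY F W Y D) (hT : T ⊆ Y) (hK : K ⊆ Y \ T)
    (hS : S = (Y \ T) \ K) {r : ℕ} (hr : 1 ≤ r) (hKc : K.card = r + 1)
    (hq : 2 ≤ q) {pc : V → ℕ} (hpc : ∀ v ∈ K, pc v ≤ q)
    (hcol : ∀ v ∈ K, (cn F v ∩ W).card + (M v).card ≤ pc v)
    (hB : B.card = q) (hMB : ∀ v, M v ⊆ B)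
    (hc1 : ∀ j ∈ K, q ≤ c (Y \ insert j S) + ((Y \ insert j S).biUnion M).card)
    {Q0 Q1 : ℝ} (hQ0 : Q0 = ((Und F W T).card : ℝ) + ∑ u ∈ K, ((q : ℝ) - pc u) -
      ((r : ℝ) - 1) * q) (hQ1 : 0 < Q1) (hQ1q : Q1 ≤ q)
    (hQ : Q1 + ∑ v ∈ T, ((M v).card : ℝ) ≤ Q0) :
    Q1 * Q0 * ((q : ℝ) ^ (r - 1) * Ival (fillM (push m S) (fun u => (q : ℝ) - pc u) K) K) ≤
      2 + ∑ u ∈ K, (c (Y \ insert u S) : ℝ) / pal (mY F W Y) (insert u S) := by
  classical
  -- the sets
  have hdKS : Disjoint K S := by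
    rw [hS]
    exact disjoint_sdiff_self_right
  have hKS : K ∪ S = Y \ T := by
    rw [hS, union_sdiff_of_subset hK]
  have hKY : K ⊆ Y := hK.trans sdiff_subset
  have hdTK : Disjoint T K := (disjoint_sdiff_self_right : Disjoint T (Y \ T)).mono_right hK
  have hSYT : S ⊆ Y \ T := by
    rw [← hKS]
    exact subset_union_right
  have hcompl : ∀ A ⊆ K, Y \ (A ∪ S) = T ∪ (K \ A) := by
    intro A hA
    ext v
    rw [mem_sdiff, mem_union, mem_union, mem_sdiff]
    constructor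
    · rintro ⟨h1, h2⟩
      push Not at h2
      by_cases h3 : v ∈ T
      · exact Or.inl h3
      · right
        have h4 : v ∈ K ∪ S := by
          rw [hKS]
          exact mem_sdiff.2 ⟨h1, h3⟩
        rcases mem_union.1 h4 with h5 | h5
        · exact ⟨h5, h2.1⟩
        · exact absurd h5 h2.2
    · rintro (h1 | ⟨h1, h2⟩)
      · refine ⟨hT h1, ?_⟩
        rintro (h3 | h3)
        · exact (disjoint_left.1 hdTK h1) (hA h3)
        · exact (mem_sdiff.1 (hSYT h3)).2 h1
      · refine ⟨hKY h1, ?_⟩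
        rintro (h3 | h3)
        · exact h2 h3
        · exact (disjoint_left.1 hdKS h1) h3
  have hpal : ∀ A ⊆ K, pal (push m S) A = ((Und F W (T ∪ (K \ A))).card : ℝ) := by
    intro A hA
    rw [pal_push (hdKS.mono_left hA), ← hcompl A hA]
    have hAS : A ∪ S ⊆ Y \ T := by
      rw [← hKS]
      exact union_subset_union_left hA
    rw [← pal_mY (F := F) (W := W) (hAS.trans sdiff_subset)]
    unfold pal
    exact sum_congr rfl fun D hD => hm D ((mem_powerset.1 hD).trans hAS)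
  have hU : pal (push m S) K = ((Und F W T).card : ℝ) := by
    rw [hpal K Subset.rfl, Finset.sdiff_self, union_empty]
  have hpa : ∀ v ∈ K, pa (push m S) K v ≤ ((cn F v ∩ W).card : ℝ) := by
    intro v hv
    have h1 := pal_erase (m := push m S) (K := K) v
    rw [hU, hpal _ (erase_subset _ _), sdiff_erase hv, Finset.sdiff_self, insert_empty_eq,
      union_singleton] at h1
    have h2 := Und_le_insert (F := F) (W := W) T v
    have h3 : ((Und F W T).card : ℝ) ≤ (Und F W (insert v T)).card + (cn F v ∩ W).card := by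
      exact_mod_cast h2
    linarith
  have hden : ∀ u ∈ K, pal (mY F W Y) (insert u S) = pal (push m S) {u} := by
    intro u hu
    rw [hpal {u} (singleton_subset_iff.2 hu), ← hcompl {u} (singleton_subset_iff.2 hu),
      ← pal_mY (F := F) (W := W)]
    · rw [← insert_eq]
    · rw [← insert_eq]
      exact insert_subset (hKY hu) (hSYT.trans sdiff_subset)
  have hsing : ∀ u, pal (push m S) {u} = push m S {u} + push m S ∅ := by
    intro u
    unfold pal
    rw [show ({u} : Finset V).powerset = {∅, {u}} from rfl, sum_pair (singleton_ne_empty u).symm,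
      add_comm]
  have hYj : ∀ j ∈ K, Y \ insert j S = T ∪ K.erase j := by
    intro j hj
    rw [insert_eq, hcompl {j} (singleton_subset_iff.2 hj), sdiff_singleton_eq_erase]
  have hc1' : ∀ j ∈ K, q ≤ c (Y \ insert j S) + ((T ∪ K.erase j).biUnion M).card := by
    intro j hj
    rw [← hYj j hj]
    exact hc1 j hj
  have hpm' : PosM (push m S) := hpm.push S
  -- the filled system
  have hγ : ∀ u ∈ K, (0 : ℝ) ≤ (q : ℝ) - pc u := by
    intro u hu
    have : (pc u : ℝ) ≤ q := by exact_mod_cast hpc u hu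
    linarith
  have hpf : PosM (fillM (push m S) (fun u => (q : ℝ) - pc u) K) := hpm'.fillM hγ
  have hK2 : (K.card : ℝ) - 2 = (r : ℝ) - 1 := by
    rw [hKc]
    push_cast
    ring
  have hKr : K.card - 2 = r - 1 := by omega
  have hQ0e : pal (fillM (push m S) (fun u => (q : ℝ) - pc u) K) K -
      ((K.card : ℝ) - 2) * (q : ℝ) = Q0 := by
    rw [pal_fillM _ Subset.rfl, hU, hK2, hQ0]
  have hv := vstar_col (T := T) (M := M) hpf (by omega) hdTK (show 0 < q by omega) hB hMB
    (fun v hv => by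
      rw [pa_fillM _ Subset.rfl hv]
      have h1 := hcol v hv
      have h2 : ((cn F v ∩ W).card : ℝ) + (M v).card ≤ pc v := by exact_mod_cast h1
      have := hpa v hv
      linarith) hc1' hQ1 hQ1q (by rw [hQ0e]; exact hQ)
  rw [hQ0e, hKr] at hv
  refine hv.trans ?_
  have h1 : ∑ j ∈ K, (c (Y \ insert j S) : ℝ) /
      (fillM (push m S) (fun u => (q : ℝ) - pc u) K {j} +
        fillM (push m S) (fun u => (q : ℝ) - pc u) K ∅) ≤
      ∑ u ∈ K, (c (Y \ insert u S) : ℝ) / pal (mY F W Y) (insert u S) := by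
    refine sum_le_sum fun u hu => ?_
    rw [hden u hu, hsing u, fillM_sing _ _ hu, fillM_empty]
    refine div_le_div_of_nonneg_left (Nat.cast_nonneg _) ?_ ?_
    · exact add_pos_of_pos_of_nonneg (hpm'.2 u) (hpm'.1 ∅)
    · have := hγ u hu
      linarith
  linarith

/-- the filled system and the price of the filling -/
theorem fill_block' (hpm : PosM m) (hm : ∀ D ⊆ Y \ T, m D = mY F W Y D) (hT : T ⊆ Y) (hK : K ⊆ Y \ T)
    (hS : S = (Y \ T) \ K) {r : ℕ} (hr : 1 ≤ r) (hKc : K.card = r + 1)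
    (hq : 2 ≤ q) {pc : V → ℕ} (hpc : ∀ v ∈ K, pc v ≤ q)
    (hcol : ∀ v ∈ K, (cn F v ∩ W).card + (M v).card ≤ pc v)
    (hB : B.card = q) (hMB : ∀ v, M v ⊆ B)
    (hc1 : ∀ j ∈ K, q ≤ c (Y \ insert j S) + ((Y \ insert j S).biUnion M).card)
    (hc2 : 1 ≤ c (Y \ S))
    {Q0 Q1 : ℝ} (hQ0 : Q0 = ((Und F W T).card : ℝ) + ∑ u ∈ K, ((q : ℝ) - pc u) -
      ((r : ℝ) - 1) * q) (hQ1 : 0 < Q1) (hQ1q : Q1 ≤ q)
    (hQ : Q1 + ∑ v ∈ T, ((M v).card : ℝ) ≤ Q0) :
    Q1 * Q0 * ((q : ℝ) ^ (r - 1) * Ival (push m S) K) ≤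
      (∏ u ∈ K, (1 + ((q : ℝ) - pc u) / push m S {u})) *
        (1 + ((c (Y \ S) : ℝ) + ∑ u ∈ Y \ S, (c (Y \ insert u S) : ℝ) /
          pal (mY F W Y) (insert u S))) := by
  have h1 := fill_block hpm hm hT hK hS hr hKc hq hpc hcol hB hMB hc1 hQ0 hQ1 hQ1q hQ
  have hpm' : PosM (push m S) := hpm.push S
  have hγ : ∀ u ∈ K, (0 : ℝ) ≤ (q : ℝ) - pc u := by
    intro u hu
    have : (pc u : ℝ) ≤ q := by exact_mod_cast hpc u hu
    linarith
  have h2 := Ival_fill hpm' (Subset.refl K) hγ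
  have hP : 0 ≤ ∏ u ∈ K, (1 + ((q : ℝ) - pc u) / push m S {u}) := prod_nonneg fun u hu => by
    have := div_nonneg (hγ u hu) (hpm'.2 u).le
    linarith
  have hTM0 : 0 ≤ ∑ v ∈ T, ((M v).card : ℝ) := sum_nonneg fun _ _ => Nat.cast_nonneg _
  have hQQ : 0 ≤ Q1 * Q0 := mul_nonneg hQ1.le (by linarith)
  have hKsub : K ⊆ Y \ S := by
    intro v hv
    refine mem_sdiff.2 ⟨(mem_sdiff.1 (hK hv)).1, fun h => ?_⟩
    rw [hS] at h
    exact (mem_sdiff.1 h).2 hv
  have h3 : 2 + ∑ u ∈ K, (c (Y \ insert u S) : ℝ) / pal (mY F W Y) (insert u S) ≤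
      1 + ((c (Y \ S) : ℝ) + ∑ u ∈ Y \ S, (c (Y \ insert u S) : ℝ) /
          pal (mY F W Y) (insert u S)) := by
    have h4 : (1 : ℝ) ≤ (c (Y \ S) : ℝ) := by exact_mod_cast hc2
    have h5 : ∑ u ∈ K, (c (Y \ insert u S) : ℝ) / pal (mY F W Y) (insert u S) ≤
        ∑ u ∈ Y \ S, (c (Y \ insert u S) : ℝ) / pal (mY F W Y) (insert u S) := by
      refine sum_le_sum_of_subset_of_nonneg hKsub fun u _ _ => ?_
      exact div_nonneg (Nat.cast_nonneg _) (sum_nonneg fun D _ => mY_nonneg Y D)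
    linarith
  calc Q1 * Q0 * ((q : ℝ) ^ (r - 1) * Ival (push m S) K)
      ≤ Q1 * Q0 * ((q : ℝ) ^ (r - 1) * ((∏ u ∈ K, (1 + ((q : ℝ) - pc u) / push m S {u})) *
          Ival (fillM (push m S) (fun u => (q : ℝ) - pc u) K) K)) :=
        mul_le_mul_of_nonneg_left (mul_le_mul_of_nonneg_left h2 (by positivity)) hQQ
    _ = (∏ u ∈ K, (1 + ((q : ℝ) - pc u) / push m S {u})) * (Q1 * Q0 * ((q : ℝ) ^ (r - 1) *
          Ival (fillM (push m S) (fun u => (q : ℝ) - pc u) K) K)) := by ring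
    _ ≤ _ := mul_le_mul_of_nonneg_left (h1.trans h3) hP

end

end MP76b19e.Rob
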