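import Mathlib

/-!
# The final comparison of the one-level case (problem MP_76b19e_co)

Masses `m D ≥ 0` of the nonempty sets `D ⊆ K` (`m ∅` is not used, the constant is `c ≥ 0`).
`PO m K = ∑ (|D| - 1) m D` (overlap), `POm m K j = ∑_{|D| ≥ 2} (|D - j| - 1) m D`,
`PA m K j = ∑_{D ∋ j} m D`, `Py m c j = m {j} + c`, `Pe m c K = c - PO m K`,
`PQ m c K = c + ∑_{D ≠ ∅} m D - |K| + 2`, `Px m c K j = 1 + POm m K j - Py m c j`,
`PH m c K = 2 + ∑_{j ∈ K} Px j / Py j + (|K| - 2) Pe / (1 + c)`.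

`fin_core`: the inequality `R H ≤ 2 + ∑ b_j / y_j` for abstract numbers.
`fin_main`: the same for masses.
-/

set_option autoImplicit false

open Finset

namespace MP76b19e.Rob.FIN

/-- the comparison, abstract numbers -/
theorem fin_core {ι : Type*} (K : Finset ι) (hn : 2 ≤ K.card) (y om x b : ι → ℝ)
    (c o e Q R : ℝ) (hc : 0 ≤ c) (he : e = c - o)
    (hx : ∀ j ∈ K, x j = 1 + om j - y j)
    (hsx : ∑ j ∈ K, x j = 2 - Q - ((K.card : ℝ) - 1) * e)
    (hom0 : ∀ j ∈ K, 0 ≤ om j) (hom : ((K.card : ℝ) - 2) * o ≤ ∑ j ∈ K, om j)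
    (hy : ∀ j ∈ K, 0 < y j) (hy1 : ∀ j ∈ K, y j ≤ 1 + c) (hR : R ≤ 1)
    (hb : ∀ j ∈ K, R + om j - y j ≤ b j)
    (hbs : 2 * R - Q - e ≤ ∑ j ∈ K, b j) :
    R * (2 + ∑ j ∈ K, x j / y j + ((K.card : ℝ) - 2) * e / (1 + c)) ≤
      2 + ∑ j ∈ K, b j / y j := by
  have hc1 : 0 < 1 + c := by linarith
  set lam : ℝ := 1 / (1 + c) with hlam
  have hlam0 : 0 < lam := by rw [hlam]; exact one_div_pos.mpr hc1
  have hlam1 : lam * (1 + c) = 1 := by rw [hlam]; field_simp
  set n : ℝ := (K.card : ℝ) with hnn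
  have hn2 : (2 : ℝ) ≤ n := by rw [hnn]; exact_mod_cast hn
  -- termwise
  have hterm : ∀ j ∈ K, R * (x j / y j) ≤
      b j / y j - lam * (b j - (x j - (1 - R))) + (1 - R) - lam * ((1 - R) * om j) := by
    intro j hj
    have hyj := hy j hj
    have hyl : lam ≤ 1 / y j := by
      rw [hlam]
      exact one_div_le_one_div_of_le hyj (hy1 j hj)
    have h1 : R * (x j / y j) = (x j - (1 - R)) * (1 / y j) + (1 - R) -
        (1 - R) * om j * (1 / y j) := by
      rw [hx j hj]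
      field_simp
      ring
    rw [h1]
    have h2 : (1 - R) * om j * lam ≤ (1 - R) * om j * (1 / y j) :=
      mul_le_mul_of_nonneg_left hyl (mul_nonneg (by linarith) (hom0 j hj))
    have hbx : x j - (1 - R) ≤ b j := by
      rw [hx j hj]
      have := hb j hj
      linarith
    have h3 : (b j - (x j - (1 - R))) * lam ≤ (b j - (x j - (1 - R))) * (1 / y j) :=
      mul_le_mul_of_nonneg_left hyl (by linarith)
    have h4 : b j / y j = b j * (1 / y j) := by ring
    rw [h4]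
    nlinarith
  have hsum : R * ∑ j ∈ K, x j / y j ≤ ∑ j ∈ K, (b j / y j -
      lam * (b j - (x j - (1 - R))) + (1 - R) - lam * ((1 - R) * om j)) := by
    rw [mul_sum]
    exact sum_le_sum hterm
  have hexp : ∑ j ∈ K, (b j / y j - lam * (b j - (x j - (1 - R))) + (1 - R) -
      lam * ((1 - R) * om j)) = ∑ j ∈ K, b j / y j - lam * (∑ j ∈ K, b j - ∑ j ∈ K, x j +
        n * (1 - R)) + n * (1 - R) - lam * ((1 - R) * ∑ j ∈ K, om j) := by
    rw [sum_sub_distrib, sum_add_distrib, sum_sub_distrib, ← mul_sum, sum_sub_distrib,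
      sum_sub_distrib, ← mul_sum, ← mul_sum, sum_const, nsmul_eq_mul]
    ring
  rw [hexp] at hsum
  rw [hsx] at hsum
  have h5 : ((K.card : ℝ) - 2) * e / (1 + c) = lam * ((n - 2) * e) := by
    rw [hlam]
    ring
  have h6 : R * (2 + ∑ j ∈ K, x j / y j + (n - 2) * e / (1 + c)) =
      2 * R + R * ∑ j ∈ K, x j / y j + R * (lam * ((n - 2) * e)) := by
    rw [← h5]
    ring
  rw [h6]
  -- lam * (slack)
  have h7 : lam * (2 * R - Q - e) ≤ lam * ∑ j ∈ K, b j := mul_le_mul_of_nonneg_left hbs hlam0.le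
  have h8 : lam * ((1 - R) * ((n - 2) * o)) ≤ lam * ((1 - R) * ∑ j ∈ K, om j) :=
    mul_le_mul_of_nonneg_left (mul_le_mul_of_nonneg_left hom (by linarith)) hlam0.le
  have h9 : lam * ((1 - R) * (n - 2) * (1 + c)) = (1 - R) * (n - 2) := by
    rw [show lam * ((1 - R) * (n - 2) * (1 + c)) = (lam * (1 + c)) * ((1 - R) * (n - 2)) by ring,
      hlam1, one_mul]
  subst he
  nlinarith

section masses

variable {V : Type*} [DecidableEq V]

/-- overlap -/
def PO (m : Finset V → ℝ) (K : Finset V) : ℝ :=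
  ∑ D ∈ K.powerset with D.Nonempty, ((D.card : ℝ) - 1) * m D

/-- overlap without `j` -/
def POm (m : Finset V → ℝ) (K : Finset V) (j : V) : ℝ :=
  ∑ D ∈ K.powerset with 2 ≤ D.card, (((D.erase j).card : ℝ) - 1) * m D

/-- private mass and `c` -/
def Py (m : Finset V → ℝ) (c : ℝ) (j : V) : ℝ := m {j} + c

def Pe (m : Finset V → ℝ) (c : ℝ) (K : Finset V) : ℝ := c - PO m K

def PQ (m : Finset V → ℝ) (c : ℝ) (K : Finset V) : ℝ :=
  c + ∑ D ∈ K.powerset with D.Nonempty, m D - (K.card : ℝ) + 2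

def Px (m : Finset V → ℝ) (c : ℝ) (K : Finset V) (j : V) : ℝ := 1 + POm m K j - Py m c j

noncomputable def PH (m : Finset V → ℝ) (c : ℝ) (K : Finset V) : ℝ :=
  2 + ∑ j ∈ K, Px m c K j / Py m c j + ((K.card : ℝ) - 2) * Pe m c K / (1 + c)

theorem POm_nonneg {m : Finset V → ℝ} (hm : ∀ D, 0 ≤ m D) (K : Finset V) (j : V) :
    0 ≤ POm m K j := by
  unfold POm
  refine sum_nonneg fun D hD => mul_nonneg ?_ (hm D)
  have h1 : 2 ≤ D.card := (mem_filter.1 hD).2
  have h2 : 1 ≤ (D.erase j).card := by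
    have := pred_card_le_card_erase (s := D) (a := j)
    omega
  have h3 : (1 : ℝ) ≤ ((D.erase j).card : ℝ) := by exact_mod_cast h2
  linarith

/-- double counting -/
theorem sum_mem_mass (g : Finset V → ℝ) (K : Finset V) (p : Finset V → Prop) [DecidablePred p] :
    ∑ j ∈ K, ∑ D ∈ K.powerset with (p D ∧ j ∈ D), g D =
      ∑ D ∈ K.powerset with p D, (D.card : ℝ) * g D := by
  rw [sum_comm' (s' := fun D => D) (t' := K.powerset.filter p)]
  · refine sum_congr rfl fun D _ => ?_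
    rw [sum_const, nsmul_eq_mul]
  · intro j D
    rw [mem_filter, mem_powerset, mem_filter, mem_powerset]
    constructor
    · rintro ⟨_, h1, h2, h3⟩
      exact ⟨h3, h1, h2⟩
    · rintro ⟨h1, h2, h3⟩
      exact ⟨h2 h1, h2, h3, h1⟩

theorem sum_POm (m : Finset V → ℝ) (K : Finset V) : ∑ j ∈ K, POm m K j =
    ∑ D ∈ K.powerset with 2 ≤ D.card,
      ((K.card : ℝ) * ((D.card : ℝ) - 1) - (D.card : ℝ)) * m D := by
  have h1 : ∀ j ∈ K, POm m K j = ∑ D ∈ K.powerset with 2 ≤ D.card, ((D.card : ℝ) - 1) * m D -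
      ∑ D ∈ K.powerset with (2 ≤ D.card ∧ j ∈ D), m D := by
    intro j _
    unfold POm
    rw [← filter_filter, sum_filter (fun D => j ∈ D), ← sum_sub_distrib]
    refine sum_congr rfl fun D hD => ?_
    by_cases hj : j ∈ D
    · rw [if_pos hj, card_erase_of_mem hj]
      have h2 : 2 ≤ D.card := (mem_filter.1 hD).2
      rw [Nat.cast_sub (by omega)]
      push_cast
      ring
    · rw [if_neg hj, erase_eq_of_notMem hj]
      ring
  rw [sum_congr rfl h1, sum_sub_distrib, sum_const, nsmul_eq_mul, sum_mem_mass, mul_sum,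
    ← sum_sub_distrib]
  exact sum_congr rfl fun D _ => by ring

theorem PO_eq (m : Finset V → ℝ) (K : Finset V) :
    PO m K = ∑ D ∈ K.powerset with 2 ≤ D.card, ((D.card : ℝ) - 1) * m D := by
  unfold PO
  symm
  refine sum_subset_zero_on_sdiff ?_ ?_ (fun _ _ => rfl)
  · intro D hD
    rw [mem_filter] at hD ⊢
    exact ⟨hD.1, card_pos.1 (by omega)⟩
  · intro D hD
    rw [mem_sdiff, mem_filter, mem_filter] at hD
    have h1 : 1 ≤ D.card := card_pos.2 hD.1.2
    have h2 : ¬ 2 ≤ D.card := fun h => hD.2 ⟨hD.1.1, h⟩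
    have h3 : D.card = 1 := by omega
    rw [h3]
    simp

theorem mul_PO_le {m : Finset V → ℝ} (hm : ∀ D, 0 ≤ m D) (K : Finset V) :
    ((K.card : ℝ) - 2) * PO m K ≤ ∑ j ∈ K, POm m K j := by
  rw [sum_POm, PO_eq, mul_sum]
  refine sum_le_sum fun D hD => ?_
  have h1 : 2 ≤ D.card := (mem_filter.1 hD).2
  have h2 : (2 : ℝ) ≤ (D.card : ℝ) := by exact_mod_cast h1
  have h3 := hm D
  nlinarith

/-- the mass of the sets which contain `j` -/
def PA (m : Finset V → ℝ) (K : Finset V) (j : V) : ℝ := ∑ D ∈ K.powerset with j ∈ D, m D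

theorem PA_eq (m : Finset V → ℝ) {K : Finset V} {j : V} (hj : j ∈ K) :
    PA m K j = PO m K + m {j} - POm m K j := by
  have h1 : PO m K - POm m K j = ∑ D ∈ K.powerset with (2 ≤ D.card ∧ j ∈ D), m D := by
    rw [PO_eq]
    unfold POm
    rw [← filter_filter, sum_filter (fun D => j ∈ D), ← sum_sub_distrib]
    refine sum_congr rfl fun D hD => ?_
    by_cases hj : j ∈ D
    · rw [if_pos hj, card_erase_of_mem hj]
      have h2 : 2 ≤ D.card := (mem_filter.1 hD).2
      rw [Nat.cast_sub (by omega)]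
      push_cast
      ring
    · rw [if_neg hj, erase_eq_of_notMem hj]
      ring
  have h2 : PA m K j = m {j} + ∑ D ∈ K.powerset with (2 ≤ D.card ∧ j ∈ D), m D := by
    unfold PA
    have h3 : K.powerset.filter (fun D => j ∈ D) =
        insert {j} (K.powerset.filter (fun D => 2 ≤ D.card ∧ j ∈ D)) := by
      ext D
      rw [mem_filter, mem_insert, mem_filter, mem_powerset]
      constructor
      · rintro ⟨h4, h5⟩
        by_cases h6 : 2 ≤ D.card
        · exact Or.inr ⟨h4, h6, h5⟩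
        · left
          have h7 : D.card = 1 := by
            have := card_pos.2 ⟨j, h5⟩
            omega
          obtain ⟨a, ha⟩ := card_eq_one.1 h7
          rw [ha, mem_singleton] at h5
          rw [ha, h5]
      · rintro (h4 | h4)
        · rw [h4]
          exact ⟨singleton_subset_iff.2 hj, mem_singleton_self j⟩
        · exact ⟨h4.1, h4.2.2⟩
    rw [h3, sum_insert]
    rw [mem_filter, card_singleton]
    omega
  rw [h2, ← h1]
  ring

/-- the sum of the `x_j` -/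
theorem sum_Px (m : Finset V → ℝ) (c : ℝ) (K : Finset V) :
    ∑ j ∈ K, Px m c K j = 2 - PQ m c K - ((K.card : ℝ) - 1) * Pe m c K := by
  have h1 : ∀ j ∈ K, Px m c K j = 1 - PA m K j - Pe m c K := by
    intro j hj
    rw [PA_eq m hj]
    unfold Px Py Pe
    ring
  rw [sum_congr rfl h1, sum_sub_distrib, sum_sub_distrib, sum_const, sum_const, nsmul_eq_mul,
    nsmul_eq_mul]
  have h2 : ∑ j ∈ K, PA m K j = ∑ D ∈ K.powerset with D.Nonempty, (D.card : ℝ) * m D := by
    rw [← sum_mem_mass m K (fun D => D.Nonempty)]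
    refine sum_congr rfl fun j _ => ?_
    unfold PA
    refine sum_congr ?_ fun _ _ => rfl
    ext D
    rw [mem_filter, mem_filter]
    constructor
    · rintro ⟨h3, h4⟩
      exact ⟨h3, ⟨j, h4⟩, h4⟩
    · rintro ⟨h3, _, h4⟩
      exact ⟨h3, h4⟩
  have h3 : ∑ D ∈ K.powerset with D.Nonempty, (D.card : ℝ) * m D =
      PO m K + ∑ D ∈ K.powerset with D.Nonempty, m D := by
    unfold PO
    rw [← sum_add_distrib]
    exact sum_congr rfl fun D _ => by ring
  rw [h2, h3]
  unfold PQ Pe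
  ring

/-- THEOREM 2 (FIN) -/
theorem fin_main {m : Finset V → ℝ} (hm : ∀ D, 0 ≤ m D) {c : ℝ} (hc : 0 ≤ c) {K : Finset V}
    (hK : 2 ≤ K.card) (hy : ∀ j ∈ K, 0 < Py m c j) (hy1 : ∀ j ∈ K, m {j} ≤ 1) {R : ℝ}
    (hR : R ≤ 1) {b : V → ℝ}
    (hb : ∀ j ∈ K, R + POm m K j - Py m c j ≤ b j)
    (hbs : 2 * R - PQ m c K - Pe m c K ≤ ∑ j ∈ K, b j) :
    R * PH m c K ≤ 2 + ∑ j ∈ K, b j / Py m c j :=
  fin_core K hK (Py m c) (POm m K) (Px m c K) b c (PO m K) (Pe m c K) (PQ m c K) R hc rfl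
    (fun _ _ => rfl) (sum_Px m c K) (fun j _ => POm_nonneg hm K j) (mul_PO_le hm K) hy
    (fun j hj => by have := hy1 j hj; unfold Py; linarith) hR hb hbs

end masses

end MP76b19e.Rob.FIN
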