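import Pool.Agent.Lib.MP76b19e.Rob.EB2
import Pool.Agent.Lib.MP76b19e.Rob.Lin

/-!
# One low level, one low element more than slots: the local inequality (problem MP_76b19e_co)

`mixed_e1`: the local inequality for the linear statistic, if the last block of `Y` has one low
level, with one element more than slots, and any number `d` of surplus elements in the top level.
`Loc.mixed_e1`: the same for the local data, with the exponent `g` of `GapOk`.
-/

set_option autoImplicit false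

open Finset

namespace MP76b19e.Rob

section

variable {V β : Type} [DecidableEq V] [DecidableEq β] [Fintype V] {F : SimpleGraph V}
  {W Y : Finset V} {X : ℕ → Finset V} {lev : V → ℕ} {P ν : ℕ → ℕ} {l n k : ℕ}

/-- one low level in the last block, one low element more than slots -/
theorem mixed_e1 (h : Lv F W Y X lev) (hP : ∀ j, 0 < P j) (hm : ∀ j, P j < P (j + 1))
    (hcap : Cp F W Y lev P l) (hν : ∀ i, i ≤ l → 1 ≤ ν i)
    (hXc : ∀ j, j < l → ((X j).card : ℝ) = Ss P ν j - P j + 1)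
    (hWc : (W.card : ℝ) = Ss P ν l - P l + 1) {d : ℕ}
    (hY : Y.card = Nn ν l + (d + 1))
    (hkl : l = k + 1) (hk : k = 0 ∨ xY Y lev ν (k - 1) = 0) (hxk : xY Y lev ν k = 1)
    (hP2 : 2 ≤ P 0) (hpend : NoPend F W)
    {B : Finset β} {M : V → Finset β} {c : Finset V → ℕ}
    (hB : B.card = P l) (hMB : ∀ v, M v ⊆ B)
    (hcol : ∀ v ∈ W, (cn F v ∩ W).card + (M v).card ≤ P (lev v))
    (hc1 : ∀ K ⊆ Y, K.card = Nn ν l → P l ≤ c K + (K.biUnion M).card)
    (hc2 : ∀ K ⊆ Y, K.card = Nn ν l + 1 → 1 ≤ c K) {κ : ℝ} (hκ : 1 ≤ κ)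
    (hκ' : ν l = 1 ∨ (ν l = 2 ∧ P l = P k + 1 ∧ (P 0 = P k ∨ ν k = 1)) ∨ (P 0 : ℝ) ≤ κ) :
    ((P 0 : ℝ) ^ (∑ i ∈ range (l + 1), (ν i - 1)) * ∏ i ∈ range l, (P i : ℝ)) *
        ∑ s ∈ univ.filter (fun s : V ≃ Fin n => gr F W s = Y),
          RL F X (fun _ => 1) (fun j => (P j : ℝ)) s l ≤
      (Fintype.card (V ≃ Fin n) : ℝ) * (κ * CapT F W (fun K => (c K : ℝ)) Y) := by
  refine mixed_ol h hP hm hcap hν hXc hWc hY hkl hk hxk hP2 hpend hB hMB hcol hc1 hc2 hκ ?_
  intro T0 L A m X' O G D hol S hSA hSd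
  rcases Nat.lt_or_ge (ν l) 2 with h1 | h1
  · have h2 : ν l = 1 := by
      have := hν l le_rfl
      omega
    rw [h2] at hol ⊢
    exact hol.top1 hSA hSd hκ
  · rcases hκ' with h2 | h2 | h2
    · omega
    · obtain ⟨h3, h4, h5⟩ := h2
      rw [h3] at hol ⊢
      exact hol.top2 h4 h5 hSA hSd hκ
    · exact hol.top3 hSA hSd h1 h2

end

section

variable {V β : Type} [Fintype V] [DecidableEq V] [DecidableEq β] {F : SimpleGraph V}
  {W Y : Finset V} {L : ℕ} {X : ℕ → Finset V} {P ν : ℕ → ℕ} {T : ℕ → ℕ} {B : Finset β}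
  {M : V → Finset β} {c : Finset V → ℕ}

/-- the profiles of the first alternative of `GapOk`: at most two slots in the last level -/
theorem gap_profile (hPm : ∀ j < L + 1, P j < P (j + 1)) (hν : ∀ j ≤ L + 1, 1 ≤ ν j)
    (hg : (∑ j ∈ range (L + 1 + 1), (ν j - 1) * (P j - P 0)) +
      ∑ j ∈ range (L + 1 + 1), (P j - P 0 - j) ≤ L + 1) :
    ν (L + 1) = 1 ∨ (ν (L + 1) = 2 ∧ P (L + 1) = P L + 1 ∧ (P 0 = P L ∨ ν L = 1)) := by
  have hPj : ∀ j, j ≤ L + 1 → P 0 + j ≤ P j := by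
    intro j
    induction j with
    | zero => intro _; omega
    | succ j ih =>
      intro hj
      have h1 := ih (by omega)
      have h2 := hPm j (by omega)
      omega
  have h0 := hν (L + 1) le_rfl
  rcases Nat.lt_or_ge (ν (L + 1)) 2 with h1 | h1
  · left
    omega
  right
  have h2 := hPj (L + 1) le_rfl
  have h3 : (ν (L + 1) - 1) * (P (L + 1) - P 0) ≤
      ∑ j ∈ range (L + 1 + 1), (ν j - 1) * (P j - P 0) :=
    single_le_sum (f := fun j => (ν j - 1) * (P j - P 0)) (fun _ _ => Nat.zero_le _)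
      (mem_range.2 (by omega))
  have h4 : (P (L + 1) - P 0 - (L + 1)) ≤ ∑ j ∈ range (L + 1 + 1), (P j - P 0 - j) :=
    single_le_sum (f := fun j => P j - P 0 - j) (fun _ _ => Nat.zero_le _)
      (mem_range.2 (by omega))
  have h5 : L + 1 ≤ P (L + 1) - P 0 := by omega
  have h6 : (ν (L + 1) - 1) * (L + 1) ≤ (ν (L + 1) - 1) * (P (L + 1) - P 0) :=
    Nat.mul_le_mul_left _ h5
  have h7 : (ν (L + 1) - 1) * (L + 1) ≤ 1 * (L + 1) := by omega
  have h8 : ν (L + 1) - 1 ≤ 1 := Nat.le_of_mul_le_mul_right h7 (by omega)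
  have h9 : ν (L + 1) = 2 := by omega
  have h10 : P (L + 1) = P 0 + (L + 1) := by
    rw [h9] at h3
    omega
  refine ⟨h9, ?_, ?_⟩
  · have h11 := hPj L (by omega)
    have h12 := hPm L (by omega)
    omega
  · rcases Nat.eq_zero_or_pos L with h11 | h11
    · left
      rw [h11]
    · right
      have h12 := hν L (by omega)
      by_contra h13
      have h14 : 1 ≤ ν L - 1 := by omega
      have h15 := hPj L (by omega)
      have h16 : (ν L - 1) * (P L - P 0) + (ν (L + 1) - 1) * (P (L + 1) - P 0) ≤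
          ∑ j ∈ range (L + 1 + 1), (ν j - 1) * (P j - P 0) := by
        rw [sum_range_succ, sum_range_succ]
        omega
      have h17 : 1 * 1 ≤ (ν L - 1) * (P L - P 0) := Nat.mul_le_mul h14 (by omega)
      rw [h9] at h16
      omega

/-- the local inequality for the linear statistic, one low level, one low element more than slots -/
theorem Loc.mixed_e1 (h : Loc F W (L + 1) X P ν 0 T B M c) (hpend : NoPend F W) {g : ℕ}
    (hg : GapOk P ν (L + 1) g) {n : ℕ} (hY : Y ∈ MIS F W)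
    (hcard : ∑ j ∈ range (L + 2), ν j < Y.card) (hx : xY Y (levX X) ν L = 1)
    (hz : L = 0 ∨ xY Y (levX X) ν (L - 1) = 0) :
    ((P 0 : ℝ) ^ g * ∏ j ∈ range (L + 1), (P j : ℝ)) *
        ∑ s ∈ univ.filter (fun s : V ≃ Fin n => gr F W s = Y),
          RL F X (fun _ => 1) (fun j => (P j : ℝ)) s (L + 1) ≤
      (Fintype.card (V ≃ Fin n) : ℝ) * CapT F W (fun K => (c K : ℝ)) Y := by
  classical
  have hLv := Lv_of h.Xmono h.XL hY
  have hcp := h.cp hLv.Y_sub
  have hP0 : 0 < P 0 := by have := h.q2; omega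
  have hPp := Pe_pos h.Pmono hP0
  have hPm := Pe_mono h.Pmono
  have hXc : ∀ j, j < L + 1 → ((X j).card : ℝ) =
      Rob.Ss (Pe P (L + 1)) ν j - Pe P (L + 1) j + 1 := fun j hj => h.Ss hj.le
  have hWc : (W.card : ℝ) = Rob.Ss (Pe P (L + 1)) ν (L + 1) - Pe P (L + 1) (L + 1) + 1 := by
    rw [← h.Ss le_rfl, h.XL (L + 1) le_rfl]
  have hW : ∀ v ∈ W, v ∈ X (L + 1) := fun v hv => by rw [h.XL (L + 1) le_rfl]; exact hv
  have hRL : ∀ s : V ≃ Fin n, RL F X (fun _ => 1) (fun j => (P j : ℝ)) s (L + 1) =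
      RL F X (fun _ => 1) (fun j => (Pe P (L + 1) j : ℝ)) s (L + 1) := fun s =>
    RL_congr (fun j hj => by rw [Pe_of_le hj.le]) s
  rw [sum_congr rfl fun s _ => hRL s]
  have hprod : ∏ j ∈ range (L + 1), (P j : ℝ) = ∏ i ∈ range (L + 1), (Pe P (L + 1) i : ℝ) :=
    prod_congr rfl fun i hi => by rw [Pe_of_le (mem_range.1 hi).le]
  rw [hprod]
  have hcard' : Nn ν (L + 1) < Y.card := hcard
  obtain ⟨d, hd⟩ : ∃ d, Y.card = Nn ν (L + 1) + (d + 1) :=
    ⟨Y.card - Nn ν (L + 1) - 1, by omega⟩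
  have hind : ∀ K ⊆ Y, K ∈ Ind F W := fun K hK =>
    mem_Ind.2 ⟨hK.trans hLv.Y_sub, fun x hx y hy => hLv.indep x (hK hx) y (hK hy)⟩
  have hq2 : 2 ≤ Pe P (L + 1) 0 := by
    rw [Pe_of_le (Nat.zero_le _)]
    exact h.q2
  have key : ∀ κ : ℝ, 1 ≤ κ → (ν (L + 1) = 1 ∨ (ν (L + 1) = 2 ∧
      Pe P (L + 1) (L + 1) = Pe P (L + 1) L + 1 ∧ (Pe P (L + 1) 0 = Pe P (L + 1) L ∨ ν L = 1)) ∨
        (Pe P (L + 1) 0 : ℝ) ≤ κ) →
      ((Pe P (L + 1) 0 : ℝ) ^ (∑ i ∈ range (L + 1 + 1), (ν i - 1)) *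
        ∏ i ∈ range (L + 1), (Pe P (L + 1) i : ℝ)) *
        ∑ s ∈ univ.filter (fun s : V ≃ Fin n => gr F W s = Y),
          RL F X (fun _ => 1) (fun j => (Pe P (L + 1) j : ℝ)) s (L + 1) ≤
      (Fintype.card (V ≃ Fin n) : ℝ) * (κ * CapT F W (fun K => (c K : ℝ)) Y) := by
    intro κ hκ hκ'
    refine Rob.mixed_e1 (n := n) hLv hPp hPm hcp (fun i hi => h.ν1 i hi) hXc hWc hd rfl hz hx
      hq2 hpend (B := B) (M := M) ?_ h.MB ?_ ?_ ?_ hκ hκ'
    · rw [Pe_of_le le_rfl, h.Bcard, h.T0, add_zero]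
    · intro v hv
      have h2 := levX_spec (hW v hv)
      have h3 := h.colW _ h2.2.1 v h2.1 h2.2.2 (cn F v ∩ W) (fun u => by
        rw [mem_inter, mem_cn]
        exact and_comm)
      rw [Pe_of_le h2.2.1]
      exact h3
    · intro K hK hKc
      have h1 := h.c1 K (hind K hK) 0 le_rfl (by rw [add_zero]; exact hKc)
      rw [h.T0, add_zero] at h1
      rw [Pe_of_le le_rfl]
      exact h1
    · intro K hK hKc
      exact h.c2 K (hind K hK) (by rw [hKc]; rfl)
  rcases hg with ⟨h1, h2⟩ | h2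
  · have h3 := key 1 le_rfl (by
      rcases gap_profile h.Pmono h.ν1 h1 with h4 | h4
      · exact Or.inl h4
      · right
        left
        rw [Pe_of_le le_rfl, Pe_of_le (show L ≤ L + 1 by omega), Pe_of_le (Nat.zero_le _)]
        exact h4)
    rw [one_mul, Pe_of_le (Nat.zero_le _)] at h3
    rw [h2]
    exact h3
  · have hP0r : (0 : ℝ) < Pe P (L + 1) 0 := by exact_mod_cast hPp 0
    have h3 := key (Pe P (L + 1) 0 : ℝ) (by exact_mod_cast hPp 0) (Or.inr (Or.inr le_rfl))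
    rw [← h2] at h3
    have h4 : (P 0 : ℝ) = Pe P (L + 1) 0 := by rw [Pe_of_le (Nat.zero_le _)]
    rw [h4]
    refine le_of_mul_le_mul_left ?_ hP0r
    calc _ = ((Pe P (L + 1) 0 : ℝ) ^ (g + 1) * ∏ i ∈ range (L + 1), (Pe P (L + 1) i : ℝ)) *
        ∑ s ∈ univ.filter (fun s : V ≃ Fin n => gr F W s = Y),
          RL F X (fun _ => 1) (fun j => (Pe P (L + 1) j : ℝ)) s (L + 1) := by
          rw [pow_succ]
          ring
      _ ≤ _ := h3
      _ = _ := by ring

end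

end MP76b19e.Rob
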