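import Pool.Agent.Lib.MP76b19e.Rob.KLev
import Pool.Agent.Lib.MP76b19e.Rob.OneEx

/-!
# From the inequality for the sets `K` to the formula, two levels (problem MP_76b19e_co)

`locP`: the local inequality for the linear statistic for the profiles with at most two levels.
`listBoundP`: from the lower bounds for the profile of a sorted list to the bound for the list.
`small3`: the bound for the lists with `∑ (p_i - q) ≤ 2`.
-/

set_option autoImplicit false

open Finset

namespace MP76b19e.Rob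

/-- the local inequality for the linear statistic for one profile -/
def LocP (P ν : ℕ → ℕ) (L g : ℕ) : Prop :=
  ∀ (V β : Type) (_ : Fintype V) (_ : DecidableEq V) (_ : DecidableEq β) (F : SimpleGraph V)
    (W : Finset V) (X : ℕ → Finset V) (T : ℕ → ℕ) (B : Finset β)
    (M : V → Finset β) (c : Finset V → ℕ), Loc F W L X P ν 0 T B M c → NoPend F W →
    ∀ Y ∈ MIS F W,
      ((P 0 : ℝ) ^ g * ∏ j ∈ range L, (P j : ℝ)) *
        ∑ s ∈ univ.filter (fun s : V ≃ Fin (Fintype.card V) => gr F W s = Y),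
          RL F X (fun _ => 1) (fun j => (P j : ℝ)) s L ≤
      (Fintype.card (V ≃ Fin (Fintype.card V)) : ℝ) * CapT F W (fun K => (c K : ℝ)) Y

/-- the local inequality for one profile, given the case of an excess at level `L - 1` -/
theorem locP_of_mixed {P ν : ℕ → ℕ} {L g : ℕ} (hg : g ≤ ∑ j ∈ range (L + 1), (ν j - 1))
    (hm : ∀ (V β : Type) (_ : Fintype V) (_ : DecidableEq V) (_ : DecidableEq β)
      (F : SimpleGraph V) (W : Finset V) (X : ℕ → Finset V) (T : ℕ → ℕ) (B : Finset β)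
      (M : V → Finset β) (c : Finset V → ℕ), Loc F W L X P ν 0 T B M c → NoPend F W →
      ∀ Y ∈ MIS F W, ∑ j ∈ range (L + 1), ν j < Y.card → 1 ≤ L →
        1 ≤ xY Y (levX X) ν (L - 1) →
        ((P 0 : ℝ) ^ g * ∏ j ∈ range L, (P j : ℝ)) *
          ∑ s ∈ univ.filter (fun s : V ≃ Fin (Fintype.card V) => gr F W s = Y),
            RL F X (fun _ => 1) (fun j => (P j : ℝ)) s L ≤
        (Fintype.card (V ≃ Fin (Fintype.card V)) : ℝ) * CapT F W (fun K => (c K : ℝ)) Y) :
    LocP P ν L g := by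
  classical
  intro V β iF iV iβ F W X T B M c hloc hpend Y hY
  by_cases hmix : ∑ j ∈ range (L + 1), ν j < Y.card → L = 0 ∨ xY Y (levX X) ν (L - 1) = 0
  · refine le_trans (mul_le_mul_of_nonneg_left (sum_le_sum fun s _ => RL_le_RM _ _ _ s _) ?_)
      (hloc.ineq hY hmix hg)
    exact mul_nonneg (by positivity) (prod_nonneg fun _ _ => Nat.cast_nonneg _)
  · push Not at hmix
    obtain ⟨h1, h2, h3⟩ := hmix
    exact hm V β iF iV iβ F W X T B M c hloc hpend Y hY h1 (Nat.one_le_iff_ne_zero.2 h2)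
      (Nat.one_le_iff_ne_zero.2 h3)

/-- one level -/
theorem locP_zero {P ν : ℕ → ℕ} {g : ℕ} (hg : g ≤ ∑ j ∈ range 1, (ν j - 1)) :
    LocP P ν 0 g := by
  refine locP_of_mixed hg ?_
  intro V β iF iV iβ F W X T B M c hloc hpend Y hY h1 h2
  omega

/-- two levels, given the inequality for the sets `K` -/
theorem locP_one {P ν : ℕ → ℕ} {g : ℕ} (hg : GapOk P ν 1 g) (hP : 2 ≤ P 0) {κ : ℝ}
    (hκ : 0 < κ)
    (hκg : (P 0 : ℝ) ^ g * κ = (P 0 : ℝ) ^ (∑ j ∈ range 2, (ν j - 1)))
    (hst : KSt (P 0) (P 1 - P 0) (ν 1) κ) : LocP P ν 1 g := by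
  refine locP_of_mixed hg.le ?_
  intro V β iF iV iβ F W X T B M c hloc hpend Y hY h1 _ h3
  have h3' : 1 ≤ xY Y (levX X) ν 0 := h3
  rcases Nat.lt_or_ge (xY Y (levX X) ν 0) 2 with h4 | h4
  · exact hloc.mixed_e1 (L := 0) hpend hg hY h1 (by omega) (Or.inl rfl)
  · have hs : ∑ j ∈ range 2, ν j = ν 0 + ν 1 := by
      rw [sum_range_succ, sum_range_succ, sum_range_zero, zero_add]
    have h1' : ∑ j ∈ range 2, ν j < Y.card := h1
    rw [hs] at h1'
    obtain ⟨d, hd⟩ : ∃ d, Y.card = ν 0 + ν 1 + (d + 1) := ⟨Y.card - (ν 0 + ν 1) - 1, by omega⟩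
    have h5 := hloc.mixed_ks (n := Fintype.card V) hY hd rfl h4 hκ.le hst
    rw [← hκg] at h5
    have h6 : κ * (((P 0 : ℝ) ^ g * ∏ j ∈ range 1, (P j : ℝ)) *
        ∑ s ∈ univ.filter (fun s : V ≃ Fin (Fintype.card V) => gr F W s = Y),
          RL F X (fun _ => 1) (fun j => (P j : ℝ)) s 1) ≤
        κ * ((Fintype.card (V ≃ Fin (Fintype.card V)) : ℝ) *
          CapT F W (fun K => (c K : ℝ)) Y) := by
      calc _ = ((P 0 : ℝ) ^ g * κ * ∏ j ∈ range 1, (P j : ℝ)) *
            ∑ s ∈ univ.filter (fun s : V ≃ Fin (Fintype.card V) => gr F W s = Y),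
              RL F X (fun _ => 1) (fun j => (P j : ℝ)) s 1 := by ring
        _ ≤ _ := h5
        _ = _ := by ring
    exact le_of_mul_le_mul_left h6 hκ

open Pool.Agent.MP76b19e in
/-- the lower bound for a profile, given the local inequality -/
theorem buildP {P ν : ℕ → ℕ} {L g : ℕ} (hloc : LocP P ν L g) {α : Type} [Fintype α]
    [DecidableEq α] {G : SimpleGraph α} {U : Finset α} (hq : 2 ≤ P 0)
    (hP : ∀ j < L, P j < P (j + 1)) (hν : ∀ j, 1 ≤ ν j) (hC : C G U 0 (blkL P ν (L + 1))) :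
    (P 0) ^ g ≤ (K G U ((∑ j ∈ range (L + 1), ν j) + 1)).card := by
  have h := build_aux (G := G) (U := U) (t := 0) false g
    (fun V β _ _ _ F W X T B M c hL _ hf =>
      hL.boundL g (hloc V β _ _ _ F W X T B M c hL (hf rfl))) hq hP hν
    (fun j h1 h2 => absurd h1 (by omega)) hC
  rwa [add_zero] at h

open Pool.Agent.MP76b19e in
/-- from the lower bounds for the profile of a sorted list to the lower bound for the list -/
theorem listBoundP {α : Type} [Fintype α] [DecidableEq α]
    (G : SimpleGraph α) (U : Finset α) (q : ℕ) (ps : List ℕ) (hq : 2 ≤ q)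
    (hb : ∀ (P ν : ℕ → ℕ) (L : ℕ), 2 ≤ P 0 → (∀ j < L, P j < P (j + 1)) → (∀ j, 1 ≤ ν j) →
      q :: ps = blkL P ν (L + 1) → C G U 0 (blkL P ν (L + 1)) → ∀ g, GapOk P ν L g →
      (P 0) ^ g ≤ (K G U ((∑ j ∈ range (L + 1), ν j) + 1)).card)
    (hle : (q :: ps).Pairwise (· ≤ ·))
    (hC : C G U 0 (q :: ps)) (m J : ℕ) (hm : (q :: ps).sum < m) (hJ : J ≤ ps.length)
    (hmax : ∀ j, j ≤ ps.length → j * (j + 1) / 2 + (ps.length + 1) * q < m → j ≤ J) :
    q ^ (ps.length - J) ≤ (K G U (ps.length + 2)).card := by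
  classical
  obtain ⟨N, P, ν, h1, h2, h3⟩ := rle _ hle
  obtain ⟨L, rfl⟩ : ∃ L, N = L + 1 := by
    rcases N with _ | N
    · rw [blk_zero] at h1
      exact absurd h1 (by simp)
    · exact ⟨N, rfl⟩
  -- the first element
  have hP0 : P 0 = q := by
    obtain ⟨u, hu⟩ : ∃ u, ν 0 = u + 1 := ⟨ν 0 - 1, by have := h2 0; omega⟩
    rw [blk_succ', hu, List.replicate_succ, List.cons_append] at h1
    exact ((List.cons.injEq _ _ _ _).mp h1).1.symm
  have hlen : ps.length + 1 = ∑ j ∈ range (L + 1), ν j := by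
    rw [← blk_length P ν (L + 1), ← h1, List.length_cons]
  have hsum : ∑ j ∈ range (L + 1), ν j * P j < m := by
    rw [← blk_sum, ← h1]
    exact hm
  have hPge : ∀ j, j < L + 1 → q + j ≤ P j := by
    intro j
    induction j with
    | zero => intro _; omega
    | succ j ih =>
      intro hj
      have := ih (by omega)
      have := h3 j hj
      omega
  have hgauss : (∑ j ∈ range (L + 1), j) * 2 = (L + 1) * L := sum_range_id_mul_two (L + 1)
  -- the number of levels
  have hNJ : L ≤ J := by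
    apply hmax
    · have h4 : ∑ j ∈ range (L + 1), 1 ≤ ∑ j ∈ range (L + 1), ν j := sum_le_sum fun j _ => h2 j
      rw [sum_const, card_range, smul_eq_mul, mul_one] at h4
      omega
    · have h5 : ∑ j ∈ range (L + 1), (ν j * q + j) ≤ ∑ j ∈ range (L + 1), ν j * P j := by
        refine sum_le_sum fun j hj => ?_
        rw [mem_range] at hj
        have h6 := hPge j hj
        calc ν j * q + j ≤ ν j * q + ν j * j := by
              have := Nat.mul_le_mul_right j (h2 j)
              omega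
          _ = ν j * (q + j) := by ring
          _ ≤ ν j * P j := Nat.mul_le_mul_left _ h6
      rw [sum_add_distrib, ← sum_mul, ← hlen] at h5
      have e : L * (L + 1) = (L + 1) * L := mul_comm _ _
      omega
  set E : ℕ := ∑ j ∈ range (L + 1), (ν j - 1) with hE
  have hE1 : E + (L + 1) = ∑ j ∈ range (L + 1), ν j := by
    have h4 : ∑ j ∈ range (L + 1), ((ν j - 1) + 1) = ∑ j ∈ range (L + 1), ν j := by
      refine sum_congr rfl fun j _ => ?_
      have := h2 j
      omega
    rw [← h4, sum_add_distrib, sum_const, card_range, smul_eq_mul, mul_one, hE]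
  rcases Nat.eq_zero_or_pos E with hE0 | hE0
  · -- the strict case
    have h5 : ps.length - J = 0 := by omega
    rw [h5, pow_zero]
    have h6 := greedy _ _ hC
    rw [List.length_cons] at h6
    exact card_pos.2 h6
  have hClist : C G U 0 (blkL P ν (L + 1)) := by
    rw [← h1]
    exact hC
  have hfin : ps.length + 2 = (∑ j ∈ range (L + 1), ν j) + 1 := by omega
  have hbuild : ∀ g, GapOk P ν L g →
      (P 0) ^ g ≤ (K G U ((∑ j ∈ range (L + 1), ν j) + 1)).card := fun g hg =>
    hb P ν L (by omega) (fun j hj => h3 j (by omega)) h2 h1 hClist g hg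
  rcases Nat.eq_or_lt_of_le hNJ with hcase | hcase
  · -- as many levels as possible: no gaps up to the last repeated level
    have hgap : (∑ j ∈ range (L + 1), (ν j - 1) * (P j - P 0)) +
        ∑ j ∈ range (L + 1), (P j - P 0 - j) ≤ L := by
      have h5 : ∑ j ∈ range (L + 1), (ν j * q + j + (ν j - 1) * (P j - P 0) + (P j - P 0 - j)) =
          ∑ j ∈ range (L + 1), ν j * P j := by
        refine sum_congr rfl fun j hj => ?_
        rw [mem_range] at hj
        have h6 := hPge j hj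
        obtain ⟨u, hu⟩ : ∃ u, ν j = u + 1 := ⟨ν j - 1, by have := h2 j; omega⟩
        obtain ⟨x, hx⟩ : ∃ x, P j = q + j + x := ⟨P j - (q + j), by omega⟩
        rw [hP0, hu, hx, Nat.add_sub_cancel, show q + j + x - q = j + x by omega,
          show j + x - j = x by omega]
        ring
      rw [sum_add_distrib, sum_add_distrib, sum_add_distrib, ← sum_mul, ← hlen] at h5
      -- the maximality of `J`
      have h8 : m ≤ (J + 1) * (J + 2) / 2 + (ps.length + 1) * q := by
        by_contra hcon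
        push Not at hcon
        have h9 := hmax (J + 1) (by omega) hcon
        omega
      have e1 : (J + 1) * (J + 2) = (L + 1) * L + 2 * (L + 1) := by
        rw [← hcase]; ring
      have e2 : (J + 1) * (J + 2) / 2 = (∑ j ∈ range (L + 1), j) + (L + 1) := by
        rw [e1, ← hgauss]
        omega
      omega
    have h4 := hbuild E (Or.inl ⟨hgap, rfl⟩)
    rw [hP0] at h4
    rw [hfin]
    refine le_trans (Nat.pow_le_pow_right (by omega) ?_) h4
    omega
  · have h4 := hbuild (E - 1) (Or.inr (by omega))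
    rw [hP0] at h4
    rw [hfin]
    refine le_trans (Nat.pow_le_pow_right (by omega) ?_) h4
    omega

/-- the profiles of the lists with `∑ (p_i - q) ≤ 2` -/
theorem profile2 {P ν : ℕ → ℕ} {L : ℕ} (hP : ∀ j < L, P j < P (j + 1)) (hν : ∀ j, 1 ≤ ν j)
    (hs : ∑ j ∈ range (L + 1), ν j * P j ≤ (∑ j ∈ range (L + 1), ν j) * P 0 + 2) :
    L = 0 ∨ (L = 1 ∧ ν 1 * (P 1 - P 0) ≤ 2) := by
  have hPge : ∀ j, j ≤ L → P 0 + j ≤ P j := by
    intro j
    induction j with
    | zero => intro _; omega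
    | succ j ih =>
      intro hj
      have := ih (by omega)
      have := hP j (by omega)
      omega
  have h1 : ∑ j ∈ range (L + 1), ν j * P j =
      ∑ j ∈ range (L + 1), ν j * (P j - P 0) + (∑ j ∈ range (L + 1), ν j) * P 0 := by
    rw [sum_mul, ← sum_add_distrib]
    refine sum_congr rfl fun j hj => ?_
    rw [mem_range] at hj
    have h2 := hPge j (by omega)
    rw [← mul_add, Nat.sub_add_cancel (by omega)]
  rw [h1] at hs
  have h2 : ∑ j ∈ range (L + 1), ν j * (P j - P 0) ≤ 2 := by omega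
  have h3 : ∀ j, j ≤ L → j ≤ ν j * (P j - P 0) := by
    intro j hj
    have h4 := hPge j hj
    calc j ≤ P j - P 0 := by omega
      _ = 1 * (P j - P 0) := (one_mul _).symm
      _ ≤ _ := Nat.mul_le_mul_right _ (hν j)
  rcases Nat.lt_or_ge L 2 with h4 | h4
  · rcases Nat.eq_zero_or_pos L with h5 | h5
    · exact Or.inl h5
    · right
      have h6 : L = 1 := by omega
      subst h6
      refine ⟨rfl, ?_⟩
      rw [sum_range_succ, sum_range_succ, sum_range_zero] at h2
      omega
  · exfalso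
    have h5 : ∑ j ∈ range 3, ν j * (P j - P 0) ≤ ∑ j ∈ range (L + 1), ν j * (P j - P 0) :=
      sum_le_sum_of_subset (range_mono (by omega))
    rw [sum_range_succ, sum_range_succ, sum_range_succ, sum_range_zero] at h5
    have h6 := h3 1 (by omega)
    have h7 := h3 2 (by omega)
    omega

open Pool.Agent.MP76b19e in
/-- the lower bound for the lists with `∑ (p_i - q) ≤ 2` -/
theorem small3 (hA1 : ∀ p : ℕ, 2 ≤ p → KSt p 1 1 1) (hA2 : ∀ p : ℕ, 2 ≤ p → KSt p 2 1 1)
    (hA3 : ∀ p : ℕ, 2 ≤ p → KSt p 1 2 1) {α : Type} [Fintype α] [DecidableEq α]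
    (G : SimpleGraph α) (U : Finset α) (q : ℕ) (ps : List ℕ) (hq : 2 ≤ q)
    (hle : (q :: ps).Pairwise (· ≤ ·)) (hC : C G U 0 (q :: ps)) (m J : ℕ)
    (hm : (q :: ps).sum < m) (hJ : J ≤ ps.length)
    (hmax : ∀ j, j ≤ ps.length → j * (j + 1) / 2 + (ps.length + 1) * q < m → j ≤ J)
    (hsmall : (q :: ps).sum ≤ (ps.length + 1) * q + 2) :
    q ^ (ps.length - J) ≤ (K G U (ps.length + 2)).card := by
  refine listBoundP G U q ps hq ?_ hle hC m J hm hJ hmax
  intro P ν L hP0 hP hν hlist hCP g hg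
  have hPq : P 0 = q := by
    obtain ⟨u, hu⟩ : ∃ u, ν 0 = u + 1 := ⟨ν 0 - 1, by have := hν 0; omega⟩
    rw [blk_succ', hu, List.replicate_succ, List.cons_append] at hlist
    exact ((List.cons.injEq _ _ _ _).mp hlist).1.symm
  have hlen : ps.length + 1 = ∑ j ∈ range (L + 1), ν j := by
    rw [← blk_length P ν (L + 1), ← hlist, List.length_cons]
  have hs : ∑ j ∈ range (L + 1), ν j * P j ≤ (∑ j ∈ range (L + 1), ν j) * P 0 + 2 := by
    rw [← blk_sum, ← hlist, ← hlen, hPq]
    exact hsmall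
  refine buildP ?_ hP0 hP hν hCP
  rcases profile2 hP hν hs with rfl | ⟨rfl, h2⟩
  · exact locP_zero hg.le
  · have hP1 : P 0 < P 1 := hP 0 (by omega)
    have hν1 := hν 1
    have hst : KSt (P 0) (P 1 - P 0) (ν 1) 1 := by
      obtain ⟨h, hh⟩ : ∃ h, P 1 - P 0 = h + 1 := ⟨P 1 - P 0 - 1, by omega⟩
      obtain ⟨w, hw⟩ : ∃ w, ν 1 = w + 1 := ⟨ν 1 - 1, by omega⟩
      rw [hh, hw] at h2 ⊢
      have h3 : (w + 1) * (h + 1) = w * h + w + h + 1 := by ring
      rw [h3] at h2
      have h4 : (w = 0 ∧ h = 0) ∨ (w = 0 ∧ h = 1) ∨ (w = 1 ∧ h = 0) := by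
        have h5 : w ≤ 1 := by omega
        have h6 : h ≤ 1 := by omega
        interval_cases w <;> interval_cases h <;> simp_all
      rcases h4 with ⟨rfl, rfl⟩ | ⟨rfl, rfl⟩ | ⟨rfl, rfl⟩
      · exact hA1 _ hP0
      · exact hA2 _ hP0
      · exact hA3 _ hP0
    -- the first alternative of `GapOk` holds
    have hg' : GapOk P ν 1 (∑ j ∈ range 2, (ν j - 1)) := by
      left
      refine ⟨?_, rfl⟩
      rw [sum_range_succ, sum_range_succ, sum_range_zero, sum_range_succ, sum_range_succ,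
        sum_range_zero]
      have e1 : (ν 1 - 1) * (P 1 - P 0) + (P 1 - P 0) = ν 1 * (P 1 - P 0) := by
        obtain ⟨w, hw⟩ : ∃ w, ν 1 = w + 1 := ⟨ν 1 - 1, by omega⟩
        rw [hw, Nat.add_sub_cancel]
        ring
      rw [Nat.sub_self, mul_zero]
      have h2' : ν 1 * (P 1 - P 0) ≤ 2 := h2
      omega
    have h5 := locP_one hg' hP0 one_pos (by rw [mul_one]) hst
    -- a smaller exponent
    intro V β iF iV iβ F W X T B M c hloc hpend Y hY
    rcases le_total 0 (∑ s ∈ univ.filter (fun s : V ≃ Fin (Fintype.card V) => gr F W s = Y),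
          RL F X (fun _ => 1) (fun j => (P j : ℝ)) s 1) with h6 | h6
    · refine le_trans (mul_le_mul_of_nonneg_right (mul_le_mul_of_nonneg_right ?_ ?_) h6)
        (h5 V β iF iV iβ F W X T B M c hloc hpend Y hY)
      · exact pow_le_pow_right₀ (by exact_mod_cast (by omega : 1 ≤ P 0)) hg.le
      · exact prod_nonneg fun _ _ => Nat.cast_nonneg _
    · refine (mul_nonpos_of_nonneg_of_nonpos ?_ h6).trans
        (mul_nonneg (Nat.cast_nonneg _) (CapT_nonneg c Y))
      exact mul_nonneg (by positivity) (prod_nonneg fun _ _ => Nat.cast_nonneg _)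

end MP76b19e.Rob
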