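import Pool.Agent.Lib.MP76b19e.Rob.KW
import Pool.Agent.Lib.MP76b19e.Rob.Fin

/-!
# The bound (V**) (problem MP_76b19e_co)

`vstar`: `P ^ (n - 2) Q₀ Q₁ Ival m K ≤ 2 + ∑ b_j / (m {j} + m ∅)`.
-/

set_option autoImplicit false

open Finset

namespace MP76b19e.Rob

variable {V : Type} [DecidableEq V] {m : Finset V → ℝ} {K : Finset V}

theorem POm_eq_pom (m : Finset V → ℝ) (K : Finset V) (j : V) : FIN.POm m K j = pom m K j := by
  unfold FIN.POm pom
  rw [sum_filter]
  refine sum_congr rfl fun D _ => ?_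
  split_ifs with h
  · have h1 : 1 ≤ (D.erase j).card := by
      have := pred_card_le_card_erase (s := D) (a := j)
      omega
    rw [Nat.cast_sub h1]
    push_cast
    ring
  · have h1 : (D.erase j).card - 1 = 0 := by
      have := card_erase_le (s := D) (a := j)
      omega
    rw [h1]
    simp

omit [DecidableEq V] in
theorem PO_eq_po (m : Finset V → ℝ) (K : Finset V) : FIN.PO m K = po m K := by
  unfold FIN.PO po
  rw [sum_filter]
  refine sum_congr rfl fun D _ => ?_
  split_ifs with h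
  · have h1 : 1 ≤ D.card := card_pos.2 h
    rw [Nat.cast_sub h1]
    push_cast
    ring
  · rw [not_nonempty_iff_eq_empty] at h
    rw [h]
    simp

omit [DecidableEq V] in
theorem pt_eq (m : Finset V → ℝ) (K : Finset V) :
    pt m K = ∑ D ∈ K.powerset with 2 ≤ D.card, ((D.card : ℝ) - 2) * m D := by
  unfold pt
  rw [sum_filter]
  refine sum_congr rfl fun D _ => ?_
  split_ifs with h
  · rw [Nat.cast_sub h]
    push_cast
    ring
  · have h1 : D.card - 2 = 0 := by omega
    rw [h1]
    simp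

omit [DecidableEq V] in
theorem PQ_eq_pQ (m : Finset V → ℝ) (K : Finset V) : FIN.PQ m (m ∅) K = pQ m K := by
  unfold FIN.PQ pQ pal
  have h1 : ∑ D ∈ K.powerset, m D = m ∅ + ∑ D ∈ K.powerset with D.Nonempty, m D := by
    rw [← sum_filter_add_sum_filter_not K.powerset (fun D => D.Nonempty) m, add_comm]
    congr 1
    have h2 : K.powerset.filter (fun D => ¬ D.Nonempty) = {∅} := by
      ext D
      rw [mem_filter, mem_singleton, not_nonempty_iff_eq_empty, mem_powerset]
      exact ⟨fun h => h.2, fun h => ⟨h ▸ empty_subset _, h⟩⟩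
    rw [h2, sum_singleton]
  rw [h1]

/-- the two forms of the potential -/
theorem PH_eq_ph (h : PosM m) (K : Finset V) : (1 + m ∅) * FIN.PH m (m ∅) K = ph m K := by
  have hc : (0 : ℝ) ≤ m ∅ := h.1 ∅
  have hc1 : (1 : ℝ) + m ∅ ≠ 0 := by linarith
  have h1 : ∀ j ∈ K, (1 + m ∅) * (FIN.Px m (m ∅) K j / FIN.Py m (m ∅) j) =
      (1 + pom m K j) * pg m j - m ∅ + pom m K j := by
    intro j _
    have h2 : 0 < m {j} + m ∅ := by
      have := h.2 j
      linarith
    unfold FIN.Px FIN.Py pg
    rw [POm_eq_pom]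
    field_simp
    ring
  have h2 : ∑ j ∈ K, pom m K j = ((K.card : ℝ) - 2) * po m K + pt m K := by
    have h3 : ∑ j ∈ K, pom m K j = ∑ j ∈ K, FIN.POm m K j :=
      sum_congr rfl fun j _ => (POm_eq_pom m K j).symm
    rw [h3, FIN.sum_POm, ← PO_eq_po, FIN.PO_eq, pt_eq, mul_sum, ← sum_add_distrib]
    refine sum_congr rfl fun D _ => ?_
    ring
  unfold FIN.PH FIN.Pe ph
  rw [PO_eq_po, mul_add, mul_add, mul_sum, sum_congr rfl h1, mul_div_cancel₀ _ hc1,
    sum_add_distrib, sum_sub_distrib, sum_const, nsmul_eq_mul, h2]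
  ring

/-- scaling -/
theorem Ival_scale (m : Finset V → ℝ) {r : ℝ} (hr : r ≠ 0) (K : Finset V) :
    Ival (fun D => m D / r) K = r ^ K.card * Ival m K := by
  induction hc : K.card using Nat.strong_induction_on generalizing K with
  | _ c ih =>
    rcases K.eq_empty_or_nonempty with h0 | h0
    · rw [← hc, h0, Ival_empty, Ival_empty]
      simp
    · rw [Ival_pal _ h0, Ival_pal m h0]
      have h1 : pal (fun D => m D / r) K = pal m K / r := by
        unfold pal
        rw [sum_div]
      have h2 : ∑ k ∈ K, Ival (fun D => m D / r) (K.erase k) =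
          r ^ (c - 1) * ∑ k ∈ K, Ival m (K.erase k) := by
        rw [mul_sum]
        refine sum_congr rfl fun k hk => ?_
        have h3 := card_erase_of_mem hk
        rw [ih (c - 1) (by have := card_pos.2 h0; omega) (K.erase k) (by omega)]
      have h4 : r ^ c = r * r ^ (c - 1) := by
        rw [← pow_succ']
        congr 1
        have := card_pos.2 h0
        omega
      rw [h1, h2, h4]
      rcases eq_or_ne (pal m K) 0 with h5 | h5
      · rw [h5]
        simp
      · field_simp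

theorem pom_scale (m : Finset V → ℝ) (r : ℝ) (K : Finset V) (j : V) :
    pom (fun D => m D / r) K j = pom m K j / r := by
  unfold pom
  rw [sum_div]
  exact sum_congr rfl fun D _ => by ring

omit [DecidableEq V] in
theorem po_scale (m : Finset V → ℝ) (r : ℝ) (K : Finset V) :
    po (fun D => m D / r) K = po m K / r := by
  unfold po
  rw [sum_div]
  exact sum_congr rfl fun D _ => by ring

theorem pa_scale (m : Finset V → ℝ) (r : ℝ) (K : Finset V) (j : V) :
    pa (fun D => m D / r) K j = pa m K j / r := by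
  unfold pa
  rw [sum_div]
  refine sum_congr rfl fun D _ => ?_
  split_ifs
  · rfl
  · simp

/-- (V**): masses in units, cap `P`, `Q0` the excess, `Q1 ≤ P` -/
theorem vstar (h : PosM m) (hK : 2 ≤ K.card) {P Q1 : ℝ} (hP : 0 < P)
    (ha : ∀ k ∈ K, pa m K k ≤ P) (hQ0 : 0 < pal m K - ((K.card : ℝ) - 2) * P) (hQ1 : Q1 ≤ P)
    (hQ1p : 0 < Q1)
    {b : V → ℝ} (hb : ∀ j ∈ K, Q1 + pom m K j - (m {j} + m ∅) ≤ b j)
    (hbs : 2 * Q1 - (pal m K - ((K.card : ℝ) - 2) * P) - (m ∅ - po m K) ≤ ∑ j ∈ K, b j) :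
    Q1 * (pal m K - ((K.card : ℝ) - 2) * P) * (P ^ (K.card - 2) * Ival m K) ≤
      2 + ∑ j ∈ K, b j / (m {j} + m ∅) := by
  set m' : Finset V → ℝ := fun D => m D / P with hm'
  have hPne := hP.ne'
  have h' : PosM m' := ⟨fun D => div_nonneg (h.1 D) hP.le, fun k => div_pos (h.2 k) hP⟩
  have hpal : pal m' K = pal m K / P := by
    unfold pal
    rw [sum_div]
  have hpQ : pQ m' K = (pal m K - ((K.card : ℝ) - 2) * P) / P := by
    unfold pQ
    rw [hpal]
    field_simp
    ring
  have hpQ0 : 0 < pQ m' K := by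
    rw [hpQ]
    exact div_pos hQ0 hP
  have ha' : ∀ k ∈ K, pa m' K k ≤ 1 := by
    intro k hk
    rw [hm', pa_scale, div_le_one hP]
    exact ha k hk
  have h1 := pot h' hK ha' hpQ0
  rw [← PH_eq_ph h'] at h1
  have hc1 : 0 < 1 + m' ∅ := by
    have := h'.1 ∅
    linarith
  have h2 : pQ m' K * Ival m' K ≤ FIN.PH m' (m' ∅) K := by
    have h3 : (1 + m' ∅) * (pQ m' K * Ival m' K) ≤ (1 + m' ∅) * FIN.PH m' (m' ∅) K := by
      rw [← mul_assoc]
      exact h1
    exact le_of_mul_le_mul_left h3 hc1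
  have h4 := FIN.fin_main (m := m') (c := m' ∅) h'.1 (h'.1 ∅) hK
    (fun j _ => by
      have h5 := h'.2 j
      have h6 := h'.1 ∅
      unfold FIN.Py
      linarith)
    (fun j hj => (le_pa h'.1 hj).trans (ha' j hj)) (R := Q1 / P) ((div_le_one hP).2 hQ1)
    (b := fun j => b j / P)
    (fun j hj => by
      unfold FIN.Py
      rw [POm_eq_pom, hm', pom_scale]
      have h5 := div_le_div_of_nonneg_right (hb j hj) hP.le
      refine le_trans (le_of_eq ?_) h5
      ring)
    (by
      rw [PQ_eq_pQ, hpQ, ← sum_div]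
      unfold FIN.Pe
      rw [PO_eq_po, hm', po_scale]
      have h5 := div_le_div_of_nonneg_right hbs hP.le
      refine le_trans (le_of_eq ?_) h5
      ring)
  have h5 : ∑ j ∈ K, b j / P / FIN.Py m' (m' ∅) j = ∑ j ∈ K, b j / (m {j} + m ∅) := by
    refine sum_congr rfl fun j _ => ?_
    unfold FIN.Py
    rw [hm', ← add_div, div_div_div_cancel_right₀ hPne]
  rw [h5] at h4
  have h6 : Q1 / P * (pQ m' K * Ival m' K) ≤ 2 + ∑ j ∈ K, b j / (m {j} + m ∅) :=
    (mul_le_mul_of_nonneg_left h2 (div_pos hQ1p hP).le).trans h4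
  refine le_trans (le_of_eq ?_) h6
  rw [hpQ, hm', Ival_scale m hPne K]
  have h7 : P ^ K.card = P * P * P ^ (K.card - 2) := by
    rw [mul_assoc, ← pow_succ', ← pow_succ']
    congr 1
    omega
  rw [h7]
  field_simp

end MP76b19e.Rob
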