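import Pool.Agent.Lib.MP76b19e.Rob.PushR
import Pool.Agent.Lib.MP76b19e.Rob.VStar

/-!
# The potential theorem with tops (problem MP_76b19e_co)

`vv m K T α = α * Ival m K - ∑ t ∈ T, Ival m (K.erase t)` with lows (`pa ≤ 1`) and tops
(`pa ≤ 1 + H`), `pQ = μ H + x`, `α = μ (1 + H) + a'`, `a' ≤ 1 + x`:
`(1 + m ∅) * vv m K T α ≤ ψ * phg m g K` if `a' - k w ≤ ψ x` and
`μ (1 + H) + a' - k w ≤ ψ (μ H + x)`, where `w ≤ m {t}` on `T` and `μ + k ≤ |T|` (or `k = 0`).
-/

set_option autoImplicit false

open Finset

namespace MP76b19e.Rob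

variable {V : Type} [DecidableEq V] {m : Finset V → ℝ} {g : V → ℝ}

/-- the functional of the tops -/
noncomputable def vv (m : Finset V → ℝ) (K T : Finset V) (α : ℝ) : ℝ :=
  α * Ival m K - ∑ t ∈ T, Ival m (K.erase t)

theorem pal_mul_Ival (h : PosM m) {K : Finset V} (hK : K.Nonempty) :
    pal m K * Ival m K = ∑ k ∈ K, Ival m (K.erase k) := sum_mul_Ival h hK

/-- the recursion -/
theorem vv_rec (h : PosM m) {K T : Finset V} (hK : 2 ≤ K.card) (hT : T ⊆ K) (α : ℝ) :
    pal m K * vv m K T α = ∑ l ∈ K \ T, vv m (K.erase l) T α +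
      ∑ t ∈ T, vv m (K.erase t) (T.erase t) (α - pa m K t) := by
  have hne : K.Nonempty := card_pos.1 (by omega)
  have h1 : ∀ t ∈ T, pal m K * Ival m (K.erase t) =
      pa m K t * Ival m (K.erase t) + (∑ l ∈ K \ T, Ival m ((K.erase t).erase l) +
        ∑ u ∈ T.erase t, Ival m ((K.erase t).erase u)) := by
    intro t ht
    have h2 : (K.erase t).Nonempty := by
      rw [← card_pos, card_erase_of_mem (hT ht)]
      omega
    have h3 := pal_mul_Ival h h2
    rw [pal_erase] at h3
    have h4 : K.erase t = (K \ T) ∪ T.erase t := by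
      ext x
      simp only [mem_erase, mem_union, mem_sdiff]
      constructor
      · rintro ⟨h5, h6⟩
        by_cases h7 : x ∈ T
        · exact Or.inr ⟨h5, h7⟩
        · exact Or.inl ⟨h6, h7⟩
      · rintro (⟨h5, h6⟩ | ⟨h5, h6⟩)
        · exact ⟨fun h7 => h6 (by rw [h7]; exact ht), h5⟩
        · exact ⟨h5, hT h6⟩
    have h5 : Disjoint (K \ T) (T.erase t) := by
      rw [disjoint_left]
      intro x hx hx2
      exact (mem_sdiff.1 hx).2 (mem_of_mem_erase hx2)
    have h6 : ∑ k ∈ K.erase t, Ival m ((K.erase t).erase k) =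
        ∑ l ∈ K \ T, Ival m ((K.erase t).erase l) +
          ∑ u ∈ T.erase t, Ival m ((K.erase t).erase u) := by
      rw [← sum_union h5]
      exact sum_congr h4 fun _ _ => rfl
    rw [← h6, ← h3]
    ring
  have h2 : ∑ t ∈ T, pal m K * Ival m (K.erase t) = ∑ t ∈ T, pa m K t * Ival m (K.erase t) +
      (∑ t ∈ T, ∑ l ∈ K \ T, Ival m ((K.erase t).erase l) +
        ∑ t ∈ T, ∑ u ∈ T.erase t, Ival m ((K.erase t).erase u)) := by
    rw [sum_congr rfl h1, sum_add_distrib, sum_add_distrib]
  have h3 := pal_mul_Ival h hne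
  rw [← sum_sdiff hT] at h3
  have h4 : ∑ l ∈ K \ T, vv m (K.erase l) T α = α * ∑ l ∈ K \ T, Ival m (K.erase l) -
      ∑ t ∈ T, ∑ l ∈ K \ T, Ival m ((K.erase t).erase l) := by
    unfold vv
    rw [sum_sub_distrib, mul_sum, sum_comm]
    congr 1
    refine sum_congr rfl fun t _ => sum_congr rfl fun l _ => ?_
    rw [erase_right_comm]
  have h5 : ∑ t ∈ T, vv m (K.erase t) (T.erase t) (α - pa m K t) =
      α * ∑ t ∈ T, Ival m (K.erase t) - ∑ t ∈ T, pa m K t * Ival m (K.erase t) -
        ∑ t ∈ T, ∑ u ∈ T.erase t, Ival m ((K.erase t).erase u) := by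
    unfold vv
    have h6 : ∀ t ∈ T, (α - pa m K t) * Ival m (K.erase t) -
        ∑ u ∈ T.erase t, Ival m ((K.erase t).erase u) = α * Ival m (K.erase t) -
          pa m K t * Ival m (K.erase t) - ∑ u ∈ T.erase t, Ival m ((K.erase t).erase u) :=
      fun t _ => by ring
    rw [sum_congr rfl h6, sum_sub_distrib, sum_sub_distrib, mul_sum]
  rw [h4, h5]
  unfold vv
  rw [mul_sub, mul_left_comm, h3, mul_sum, h2]
  ring

/-- dropping a top -/
theorem vv_drop (h : PosM m) {K T : Finset V} {t : V} (ht : t ∈ T) (hT : T ⊆ K) {α w : ℝ}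
    (hw : w ≤ m {t}) : vv m K T α ≤ vv m K (T.erase t) (α - w) := by
  unfold vv
  rw [← add_sum_erase T _ ht]
  have h1 := mul_Ival_le_erase h (hT ht)
  have h2 := (Ival_pos h K).le
  have h3 := mul_le_mul_of_nonneg_right hw h2
  linarith

theorem vv_nonpos (h : PosM m) {K T : Finset V} {α : ℝ} (hα : α ≤ 0) : vv m K T α ≤ 0 := by
  unfold vv
  have h1 := (Ival_pos h K).le
  have h2 : 0 ≤ ∑ t ∈ T, Ival m (K.erase t) := sum_nonneg fun t _ => (Ival_pos h _).le
  nlinarith

theorem vv_le (h : PosM m) {K T : Finset V} {α : ℝ} : vv m K T α ≤ α * Ival m K := by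
  unfold vv
  have h2 : 0 ≤ ∑ t ∈ T, Ival m (K.erase t) := sum_nonneg fun t _ => (Ival_pos h _).le
  linarith

theorem vv_le' (h : PosM m) {K T : Finset V} (hT : T ⊆ K) {α w : ℝ} (hw : ∀ t ∈ T, w ≤ m {t}) :
    vv m K T α ≤ (α - T.card * w) * Ival m K := by
  unfold vv
  have h1 := (Ival_pos h K).le
  have h2 : (T.card : ℝ) * w * Ival m K ≤ ∑ t ∈ T, Ival m (K.erase t) := by
    rw [mul_assoc, ← nsmul_eq_mul]
    refine card_nsmul_le_sum _ _ _ fun t ht => ?_
    exact (mul_le_mul_of_nonneg_right (hw t ht) h1).trans (mul_Ival_le_erase h (hT ht))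
  linarith

theorem phg_nonneg (h : PosM m) (hg : ∀ j, 0 ≤ g j) (K : Finset V) : 0 ≤ phg m g K := by
  unfold phg
  have h1 := pt_nonneg (K := K) h.1
  have h2 : 0 ≤ ∑ j ∈ K, (1 + pom m K j) * g j := sum_nonneg fun j _ =>
    mul_nonneg (by linarith [pom_nonneg (K := K) h.1 j]) (hg j)
  linarith

/-- two elements -/
theorem pot_two (h : PosM m) (hg : ∀ j, 0 ≤ g j)
    (hg1 : ∀ j, 1 - m {j} ≤ g j * (m {j} + m ∅)) {K : Finset V} (hK : K.card = 2) :
    (1 + m ∅) * pQ m K * Ival m K ≤ phg m g K := by
  have hc0 : 0 ≤ m ∅ := h.1 ∅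
  obtain ⟨i, j, hij, hKij⟩ := card_eq_two.1 hK
  have hne : K.Nonempty := card_pos.1 (by omega)
  have hi : K.erase i = {j} := by
    rw [hKij]
    ext x
    simp only [mem_erase, mem_insert, mem_singleton]
    constructor
    · rintro ⟨h1, h2⟩
      exact h2.resolve_left h1
    · rintro rfl
      exact ⟨hij.symm, Or.inr rfl⟩
  have hj : K.erase j = {i} := by
    rw [hKij]
    ext x
    simp only [mem_erase, mem_insert, mem_singleton]
    constructor
    · rintro ⟨h1, h2⟩
      exact h2.resolve_right h1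
    · rintro rfl
      exact ⟨hij, Or.inl rfl⟩
  have hs : ∀ x, Ival m {x} = 1 / (m {x} + m ∅) := by
    intro x
    rw [Ival_eq m (singleton_nonempty x), sum_singleton, erase_singleton, Ival_empty]
    congr 1
    have hp : ({x} : Finset V).powerset = {∅, {x}} := by
      ext D
      rw [mem_powerset, subset_singleton_iff, mem_insert, mem_singleton]
    rw [hp, sum_pair (singleton_ne_empty x).symm, add_comm]
  have hI : pal m K * Ival m K = 1 / (m {i} + m ∅) + 1 / (m {j} + m ∅) := by
    have h1 := sum_mul_Ival h hne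
    unfold pal
    rw [h1]
    conv_lhs => rw [hKij]
    rw [sum_pair hij]
    rw [← hKij, hi, hj, hs, hs]
    ring
  have hQ2 : pQ m K = pal m K := by
    unfold pQ
    rw [hK]
    push_cast
    ring
  have hpt : 0 ≤ pt m K := pt_nonneg h.1
  have hph : 2 + (g i + g j) ≤ phg m g K := by
    unfold phg
    have h1 : ∑ x ∈ K, g x ≤ ∑ x ∈ K, (1 + pom m K x) * g x := by
      refine sum_le_sum fun x _ => ?_
      have h2 := hg x
      have h3 := pom_nonneg (K := K) h.1 x
      nlinarith
    have h2 : ∑ x ∈ K, g x = g i + g j := by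
      conv_lhs => rw [hKij]
      exact sum_pair hij
    rw [h2] at h1
    linarith
  have hyi : 0 < m {i} + m ∅ := add_pos_of_pos_of_nonneg (h.2 i) hc0
  have hyj : 0 < m {j} + m ∅ := add_pos_of_pos_of_nonneg (h.2 j) hc0
  have h1 : ∀ x, 0 < m {x} + m ∅ → (1 + m ∅) * (1 / (m {x} + m ∅)) ≤ 1 + g x := by
    intro x hx
    rw [mul_one_div, div_le_iff₀ hx]
    have := hg1 x
    linarith
  rw [hQ2, mul_assoc, hI, mul_add]
  have h2 := h1 i hyi
  have h3 := h1 j hyj
  linarith

/-- THE POTENTIAL THEOREM WITH TOPS -/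
theorem ptp (h : PosM m) (hg : ∀ j, 0 ≤ g j)
    (hg1 : ∀ j, 1 - m {j} ≤ g j * (m {j} + m ∅)) {H w : ℝ} (hH : 0 ≤ H) (hw0 : 0 ≤ w)
    (hw1 : w ≤ 1) (N : ℕ) : ∀ (K T : Finset V) (μ k : ℕ) (x a ψ : ℝ), K.card + T.card ≤ N →
      T ⊆ K → 2 ≤ K.card → 0 < x → (∀ l ∈ K, l ∉ T → pa m K l ≤ 1) →
      (∀ t ∈ T, pa m K t ≤ 1 + H) → (∀ t ∈ T, w ≤ m {t}) → pQ m K = μ * H + x → a ≤ 1 + x →
      (k = 0 ∨ μ + k ≤ T.card) → 0 ≤ ψ → a - k * w ≤ ψ * x →
      μ * (1 + H) + a - k * w ≤ ψ * (μ * H + x) →
      (1 + m ∅) * vv m K T (μ * (1 + H) + a) ≤ ψ * phg m g K := by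
  induction N with
  | zero =>
    intro K T μ k x a ψ hN _ hK
    omega
  | succ N ih =>
    intro K T μ k x a ψ hN hTK hK hx hlow htop hw hQe ha hk hψ0 hψ1 hψ2
    have hc0 : 0 ≤ m ∅ := h.1 ∅
    have hc1 : 0 ≤ 1 + m ∅ := by linarith
    have hφ := phg_nonneg h hg K
    have hμH : 0 ≤ (μ : ℝ) * H := mul_nonneg (Nat.cast_nonneg _) hH
    have hQ : 0 < pQ m K := by rw [hQe]; linarith
    rcases Nat.lt_or_ge 2 K.card with hK3 | hK2
    swap
    · -- two elements
      have hK2' : K.card = 2 := by omega
      have h1 := pot_two h hg hg1 hK2'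
      have h2 := vv_le' h hTK hw (α := μ * (1 + H) + a)
      have h3 : (μ * (1 + H) + a - T.card * w) ≤ μ * (1 + H) + a - k * w := by
        have h4 : (k : ℝ) * w ≤ T.card * w := by
          refine mul_le_mul_of_nonneg_right ?_ hw0
          have : k ≤ T.card := by omega
          exact_mod_cast this
        linarith
      have hI := Ival_pos h K
      have h5 : vv m K T (μ * (1 + H) + a) ≤ ψ * pQ m K * Ival m K := by
        refine h2.trans ?_
        refine mul_le_mul_of_nonneg_right ?_ hI.le
        rw [hQe]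
        linarith
      calc (1 + m ∅) * vv m K T (μ * (1 + H) + a) ≤ (1 + m ∅) * (ψ * pQ m K * Ival m K) :=
            mul_le_mul_of_nonneg_left h5 hc1
        _ = ψ * ((1 + m ∅) * pQ m K * Ival m K) := by ring
        _ ≤ ψ * phg m g K := mul_le_mul_of_nonneg_left h1 hψ0
    by_cases hex : ∃ t ∈ T, pa m K t ≤ 1
    · -- drop a top which is not over-full
      obtain ⟨t, ht, hta⟩ := hex
      have hcT : (T.erase t).card = T.card - 1 := card_erase_of_mem ht
      have hcT1 : 1 ≤ T.card := card_pos.2 ⟨t, ht⟩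
      have hlow' : ∀ l ∈ K, l ∉ T.erase t → pa m K l ≤ 1 := by
        intro l hl hl2
        by_cases h3 : l = t
        · rw [h3]
          exact hta
        · exact hlow l hl fun h4 => hl2 (mem_erase.2 ⟨h3, h4⟩)
      have htop' : ∀ t' ∈ T.erase t, pa m K t' ≤ 1 + H := fun t' ht' =>
        htop t' (mem_of_mem_erase ht')
      have hw' : ∀ t' ∈ T.erase t, w ≤ m {t'} := fun t' ht' => hw t' (mem_of_mem_erase ht')
      rcases Nat.eq_zero_or_pos k with hk0 | hk0
      · subst hk0
        have h1 := vv_drop h ht hTK (α := μ * (1 + H) + a) (h.1 {t})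
        rw [sub_zero] at h1
        have h2 := ih K (T.erase t) μ 0 x a ψ (by omega) ((erase_subset _ _).trans hTK) hK hx
          hlow' htop' hw' hQe ha (Or.inl rfl) hψ0 hψ1 hψ2
        exact (mul_le_mul_of_nonneg_left h1 hc1).trans h2
      · obtain ⟨k', rfl⟩ : ∃ k', k = k' + 1 := ⟨k - 1, by omega⟩
        have h1 := vv_drop h ht hTK (α := μ * (1 + H) + a) (hw t ht)
        push_cast at hψ1 hψ2
        have h2 := ih K (T.erase t) μ k' x (a - w) ψ (by omega) ((erase_subset _ _).trans hTK) hK
          hx hlow' htop' hw' hQe (by linarith) (by omega) hψ0 (by linarith) (by linarith)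
        have h3 : (μ : ℝ) * (1 + H) + (a - w) = μ * (1 + H) + a - w := by ring
        rw [h3] at h2
        exact (mul_le_mul_of_nonneg_left h1 hc1).trans h2
    · -- the step
      push Not at hex
      have hne : K.Nonempty := card_pos.1 (by omega)
      have hal0 : 0 < pal m K := h.sum_pos hne
      have hstar := star (K := K) h hQ hg hg1
      unfold rs at hstar
      have hrec := vv_rec h hK hTK (μ * (1 + H) + a)
      -- lows
      have hL : ∀ l ∈ K \ T, (1 + m ∅) * vv m (K.erase l) T (μ * (1 + H) + a) ≤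
          ψ * (th m K l * phg m g (K.erase l)) := by
        intro l hl
        rw [mem_sdiff] at hl
        have hal := hlow l hl.1 hl.2
        have hd0 : 0 ≤ 1 - pa m K l := by linarith
        have hQd : 0 < μ * H + x + (1 - pa m K l) := by linarith
        have hth : th m K l = (μ * H + x) / (μ * H + x + (1 - pa m K l)) := by
          unfold th
          rw [max_eq_right hd0, hQe]
        have hTl : T ⊆ K.erase l := fun t ht => mem_erase.2 ⟨fun h3 => hl.2 (h3 ▸ ht), hTK ht⟩
        have h2 := ih (K.erase l) T μ k (x + (1 - pa m K l)) a (ψ * th m K l)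
          (by rw [card_erase_of_mem hl.1]; omega) hTl
          (by rw [card_erase_of_mem hl.1]; omega) (by linarith)
          (fun l' hl' hl2 => (pa_erase_le h.1 l l').trans (hlow l' (mem_of_mem_erase hl') hl2))
          (fun t ht => (pa_erase_le h.1 l t).trans (htop t ht)) hw
          (by rw [pQ_erase hl.1, hQe]; ring) (by linarith) hk
          (mul_nonneg hψ0 (by rw [hth]; exact div_nonneg (by linarith) hQd.le))
          (by
            rw [hth]
            have h3 : x * (μ * H + x + (1 - pa m K l)) ≤ (μ * H + x) * (x + (1 - pa m K l)) := by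
              nlinarith [mul_nonneg hμH hd0]
            have h4 : x ≤ (μ * H + x) / (μ * H + x + (1 - pa m K l)) * (x + (1 - pa m K l)) := by
              rw [div_mul_eq_mul_div, le_div_iff₀ hQd]
              exact h3
            have h5 := mul_le_mul_of_nonneg_left h4 hψ0
            rw [← mul_assoc] at h5
            linarith)
          (by
            rw [hth, ← add_assoc, mul_assoc, div_mul_cancel₀ _ hQd.ne']
            exact hψ2)
        rw [mul_assoc] at h2
        exact h2
      -- tops
      have hTt : ∀ t ∈ T, (1 + m ∅) * vv m (K.erase t) (T.erase t)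
          (μ * (1 + H) + a - pa m K t) ≤ ψ * (th m K t * phg m g (K.erase t)) := by
        intro t ht
        have hta := hex t ht
        have hta2 := htop t ht
        have htK := hTK ht
        have hth : th m K t = 1 := by
          unfold th
          rw [max_eq_left (by linarith), add_zero, div_self hQ.ne']
        have hcT : (T.erase t).card = T.card - 1 := card_erase_of_mem ht
        have hcT1 : 1 ≤ T.card := card_pos.2 ⟨t, ht⟩
        have hcK : (K.erase t).card = K.card - 1 := card_erase_of_mem htK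
        have hsub : T.erase t ⊆ K.erase t := erase_subset_erase t hTK
        have hlow' : ∀ l ∈ K.erase t, l ∉ T.erase t → pa m (K.erase t) l ≤ 1 := by
          intro l hl hl2
          rw [mem_erase] at hl
          refine (pa_erase_le h.1 t l).trans (hlow l hl.2 fun h3 => hl2 (mem_erase.2 ⟨hl.1, h3⟩))
        have htop' : ∀ t' ∈ T.erase t, pa m (K.erase t) t' ≤ 1 + H := fun t' ht' =>
          (pa_erase_le h.1 t t').trans (htop t' (mem_of_mem_erase ht'))
        have hw' : ∀ t' ∈ T.erase t, w ≤ m {t'} := fun t' ht' => hw t' (mem_of_mem_erase ht')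
        have hφt := phg_nonneg h hg (K.erase t)
        have hwt : w ≤ pa m K t := (hw t ht).trans (le_pa h.1 htK)
        rw [hth, one_mul]
        obtain ⟨e, he⟩ : ∃ e, e = pa m K t - 1 := ⟨_, rfl⟩
        have hpa : pa m K t = 1 + e := by linarith
        have he0 : 0 < e := by linarith
        have heH : e ≤ H := by linarith
        have hQt : pQ m (K.erase t) = μ * H + x - e := by
          rw [pQ_erase htK, hQe]
          linarith
        rw [hpa]
        rcases Nat.eq_zero_or_pos μ with hμ | hμ
        · -- `μ = 0`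
          subst hμ
          push_cast at hψ2 hQt hQe ⊢
          rw [zero_mul, zero_add]
          rcases le_or_gt (a - (1 + e)) 0 with h3 | h3
          · have h4 := vv_nonpos h (K := K.erase t) (T := T.erase t) h3
            have h5 : (1 + m ∅) * vv m (K.erase t) (T.erase t) (a - (1 + e)) ≤ 0 :=
              mul_nonpos_of_nonneg_of_nonpos hc1 h4
            exact h5.trans (mul_nonneg hψ0 hφt)
          · have hxe : 0 < x - e := by linarith
            have hx2 : a - (1 + e) ≤ x - e := by linarith
            have hgoal : ∀ k' : ℕ, (k' = 0 ∨ 0 + k' ≤ (T.erase t).card) →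
                a - (1 + e) - k' * w ≤ ψ * (x - e) →
                (1 + m ∅) * vv m (K.erase t) (T.erase t) (a - (1 + e)) ≤
                  ψ * phg m g (K.erase t) := by
              intro k' hk' h4
              have h5 := ih (K.erase t) (T.erase t) 0 k' (x - e) (a - (1 + e)) ψ (by omega) hsub
                (by omega) hxe hlow' htop' hw' (by rw [hQt]; push_cast; ring) (by linarith) hk'
                hψ0 h4 (by push_cast; linarith)
              push_cast at h5
              rw [zero_mul, zero_add] at h5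
              exact h5
            rcases Nat.eq_zero_or_pos k with hk0 | hk0
            · subst hk0
              refine hgoal 0 (Or.inl rfl) ?_
              push_cast at hψ1 ⊢
              rcases le_total (ψ * e) (1 + e) with h4 | h4
              · nlinarith
              · have h5 : 1 ≤ ψ := by
                  by_contra hcon
                  push Not at hcon
                  nlinarith
                nlinarith
            · obtain ⟨k', rfl⟩ : ∃ k', k = k' + 1 := ⟨k - 1, by omega⟩
              refine hgoal k' (by omega) ?_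
              push_cast at hψ1
              have hk'w : 0 ≤ (k' : ℝ) * w := mul_nonneg (Nat.cast_nonneg _) hw0
              rcases le_total (ψ * e) (1 + e - w) with h4 | h4
              · nlinarith
              · rcases le_total 1 ψ with h5 | h5
                · nlinarith
                · have h6 : ψ * e ≤ 1 * e := mul_le_mul_of_nonneg_right h5 he0.le
                  nlinarith
        · -- `μ ≥ 1`
          obtain ⟨μ', rfl⟩ : ∃ μ', μ = μ' + 1 := ⟨μ - 1, by omega⟩
          push_cast at hψ2 hQt hQe hμH ⊢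
          have h3 : (μ' + 1 : ℝ) * (1 + H) + a - (1 + e) = μ' * (1 + H) + (a + (H - e)) := by ring
          have hμ0 : (0 : ℝ) ≤ μ' := Nat.cast_nonneg _
          have hμH' : (0 : ℝ) ≤ μ' * H := mul_nonneg hμ0 hH
          rw [h3]
          refine ih (K.erase t) (T.erase t) μ' k (x + (H - e)) (a + (H - e)) ψ (by omega) hsub
            (by omega) (by linarith) hlow' htop' hw' (by rw [hQt]; ring) (by linarith)
            (by omega) hψ0 ?_ ?_
          · -- `A' + g ≤ ψ (x + g)`
            rcases le_total 1 ψ with h5 | h5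
            · nlinarith
            · have h6 : 0 ≤ (1 - ψ) * (1 + e) := mul_nonneg (by linarith) (by linarith)
              have h7 : 0 ≤ (1 - ψ) * (μ' * H) := mul_nonneg (by linarith) hμH'
              nlinarith
          · rcases le_total (ψ * e) (1 + e) with h4 | h4
            · nlinarith
            · -- `ψ e ≥ 1 + e`
              have h5 : (1 + H) * e ≤ ψ * e * H := by nlinarith
              have h6 : 0 ≤ (μ' : ℝ) * H + (H - e) := by linarith
              -- `(μ' + 1)(1 + H) - 1 - e ≤ ψ ((μ' + 1) H - e)`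
              have h7 : ((μ' + 1 : ℝ) * (1 + H) - 1 - e) * e ≤ ψ * ((μ' + 1) * H - e) * e := by
                have h8 : (1 + e) * ((μ' + 1 : ℝ) * H - e) ≤ ψ * e * ((μ' + 1) * H - e) :=
                  mul_le_mul_of_nonneg_right h4 (by linarith)
                have h9 : ((μ' + 1 : ℝ) * (1 + H) - 1 - e) * e ≤ (1 + e) * ((μ' + 1) * H - e) := by
                  have h10 : 0 ≤ (μ' + 1 : ℝ) * (H - e) := mul_nonneg (by linarith) (by linarith)
                  nlinarith
                nlinarith
              have h8 := le_of_mul_le_mul_right h7 he0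
              nlinarith
      have hsum : (1 + m ∅) * (pal m K * vv m K T (μ * (1 + H) + a)) ≤
          ψ * ∑ k ∈ K, th m K k * phg m g (K.erase k) := by
        have hs1 := sum_le_sum hL
        have hs2 := sum_le_sum hTt
        rw [← mul_sum, ← mul_sum] at hs1 hs2
        have hs3 : ψ * ∑ k ∈ K, th m K k * phg m g (K.erase k) =
            ψ * ∑ k ∈ K \ T, th m K k * phg m g (K.erase k) +
              ψ * ∑ k ∈ T, th m K k * phg m g (K.erase k) := by
          rw [← sum_sdiff hTK]
          ring
        have hs4 : (1 + m ∅) * (pal m K * vv m K T (μ * (1 + H) + a)) =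
            (1 + m ∅) * ∑ l ∈ K \ T, vv m (K.erase l) T (μ * (1 + H) + a) +
              (1 + m ∅) * ∑ t ∈ T, vv m (K.erase t) (T.erase t)
                (μ * (1 + H) + a - pa m K t) := by
          rw [hrec]
          ring
        rw [hs3, hs4]
        exact add_le_add hs1 hs2
      have h1 : pal m K * ((1 + m ∅) * vv m K T (μ * (1 + H) + a)) ≤
          pal m K * (ψ * phg m g K) := by
        have h2 : ψ * ∑ k ∈ K, th m K k * phg m g (K.erase k) ≤
            ψ * (pal m K * phg m g K) := mul_le_mul_of_nonneg_left (by linarith) hψ0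
        calc pal m K * ((1 + m ∅) * vv m K T (μ * (1 + H) + a)) =
              (1 + m ∅) * (pal m K * vv m K T (μ * (1 + H) + a)) := by ring
          _ ≤ ψ * ∑ k ∈ K, th m K k * phg m g (K.erase k) := hsum
          _ ≤ ψ * (pal m K * phg m g K) := h2
          _ = pal m K * (ψ * phg m g K) := by ring
      exact le_of_mul_le_mul_left h1 hal0

omit [DecidableEq V] in
private theorem pt_sc (m : Finset V → ℝ) (r : ℝ) (K : Finset V) :
    pt (fun D => m D / r) K = pt m K / r := by
  unfold pt
  rw [sum_div]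
  exact sum_congr rfl fun D _ => by ring

/-- THE POTENTIAL THEOREM WITH TOPS, masses in units, cap `p` -/
theorem ptpP (h : PosM m) {K T : Finset V} (hTK : T ⊆ K) (hK : 2 ≤ K.card)
    {p hh x a ψ : ℝ} {μ k : ℕ} (hp : 1 ≤ p) (hh0 : 0 ≤ hh) (hx : 0 < x)
    (hlow : ∀ l ∈ K, l ∉ T → pa m K l ≤ p) (htop : ∀ t ∈ T, pa m K t ≤ p + hh)
    (hw : ∀ t ∈ T, 1 ≤ m {t}) (hpal : pal m K = ((K.card : ℝ) - 2) * p + μ * hh + x)
    (ha : a ≤ p + x) (hk : k = 0 ∨ μ + k ≤ T.card) (hψ0 : 0 ≤ ψ) (hψ1 : a - k ≤ ψ * x)
    (hψ2 : μ * (p + hh) + a - k ≤ ψ * (μ * hh + x)) :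
    (p + m ∅) * (p ^ (K.card - 2) * vv m K T (μ * (p + hh) + a)) ≤
      ψ * (2 + pt m K / p + ∑ j ∈ K, (1 + pom m K j / p) *
        (max 0 (p - m {j}) / (m {j} + m ∅))) := by
  have hp0 : 0 < p := by linarith
  have hpne := hp0.ne'
  set m' : Finset V → ℝ := fun D => m D / p with hm'
  have h' : PosM m' := ⟨fun D => div_nonneg (h.1 D) hp0.le, fun k => div_pos (h.2 k) hp0⟩
  have hpal' : pal m' K = pal m K / p := by
    unfold pal
    rw [sum_div]
  have hy : ∀ j, 0 < m {j} + m ∅ := fun j => add_pos_of_pos_of_nonneg (h.2 j) (h.1 ∅)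
  have hg0 : ∀ j, 0 ≤ max 0 (p - m {j}) / (m {j} + m ∅) := fun j =>
    div_nonneg (le_max_left _ _) (hy j).le
  have hg1 : ∀ j, 1 - m' {j} ≤ max 0 (p - m {j}) / (m {j} + m ∅) * (m' {j} + m' ∅) := by
    intro j
    have h1 : max 0 (p - m {j}) / (m {j} + m ∅) * (m' {j} + m' ∅) = max 0 (p - m {j}) / p := by
      simp only [hm']
      rw [← add_div]
      have := (hy j).ne'
      field_simp
    rw [h1, le_div_iff₀ hp0]
    have h2 : (1 - m' {j}) * p = p - m {j} := by
      simp only [hm']
      field_simp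
    rw [h2]
    exact le_max_right _ _
  have h1 := ptp (g := fun j => max 0 (p - m {j}) / (m {j} + m ∅)) h' hg0 hg1 (H := hh / p)
    (w := 1 / p) (div_nonneg hh0 hp0.le) (by positivity) (by rw [div_le_one hp0]; exact hp)
    (K.card + T.card) K T μ k (x / p) (a / p) ψ le_rfl hTK hK (div_pos hx hp0)
    (fun l hl hl2 => by rw [hm', pa_scale, div_le_one hp0]; exact hlow l hl hl2)
    (fun t ht => by
      rw [hm', pa_scale, div_le_iff₀ hp0, add_mul, div_mul_cancel₀ _ hpne]
      linarith [htop t ht])
    (fun t ht => by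
      simp only [hm']
      exact div_le_div_of_nonneg_right (hw t ht) hp0.le)
    (by
      unfold pQ
      rw [hpal', hpal]
      field_simp
      ring)
    (by
      rw [div_le_iff₀ hp0, add_mul, div_mul_cancel₀ _ hpne]
      linarith)
    hk hψ0
    (by
      have h2 : a / p - k * (1 / p) = (a - k) / p := by ring
      rw [h2, ← mul_div_assoc]
      exact div_le_div_of_nonneg_right hψ1 hp0.le)
    (by
      have h2 : μ * (1 + hh / p) + a / p - k * (1 / p) = (μ * (p + hh) + a - k) / p := by
        field_simp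
      have h3 : ψ * (μ * (hh / p) + x / p) = ψ * (μ * hh + x) / p := by
        field_simp
      rw [h2, h3]
      exact div_le_div_of_nonneg_right hψ2 hp0.le)
  have h2 : phg m' (fun j => max 0 (p - m {j}) / (m {j} + m ∅)) K =
      2 + pt m K / p + ∑ j ∈ K, (1 + pom m K j / p) * (max 0 (p - m {j}) / (m {j} + m ∅)) := by
    unfold phg
    rw [hm', pt_sc]
    congr 1
    refine sum_congr rfl fun j _ => ?_
    rw [pom_scale]
  rw [h2] at h1
  refine le_trans (le_of_eq ?_) h1
  have hn : K.card = (K.card - 2) + 2 := by omega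
  have hI : Ival m' K = p ^ (K.card - 2) * p * p * Ival m K := by
    rw [hm', Ival_scale m hpne K]
    have : p ^ K.card = p ^ (K.card - 2) * p * p := by
      conv_lhs => rw [hn]
      ring
    rw [this]
  have hIt : ∀ t ∈ T, Ival m' (K.erase t) = p ^ (K.card - 2) * p * Ival m (K.erase t) := by
    intro t ht
    rw [hm', Ival_scale m hpne (K.erase t), card_erase_of_mem (hTK ht)]
    have : p ^ (K.card - 1) = p ^ (K.card - 2) * p := by
      rw [← pow_succ]
      congr 1
      omega
    rw [this]
  unfold vv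
  rw [hI, sum_congr rfl hIt, ← mul_sum]
  have h3 : (μ : ℝ) * (1 + hh / p) + a / p = (μ * (p + hh) + a) / p := by
    field_simp
  rw [h3]
  have h4 : m' ∅ = m ∅ / p := rfl
  rw [h4]
  field_simp

end MP76b19e.Rob
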