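import Pool.Agent.Lib.MP76b19e.Rob.NO2
import Pool.Agent.Lib.MP76b19e.Rob.PtPlus
import Pool.Agent.Lib.MP76b19e.Rob.KLev

/-!
# The inequality for the sets with `ν + 2` elements or more, few tops (problem MP_76b19e_co)

`finB_core`: from the potential theorem with tops to the inequality.
-/

set_option autoImplicit false

open Finset

namespace MP76b19e.Rob

/-! ### Scalar inequalities -/

/-- from the three corners to all overlaps -/
theorem si_core {κ f P ρ B0 u0 X0 o : ℝ} (hκ : 0 ≤ κ) (hf : 0 ≤ f) (hκf : κ * f ≤ 1)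
    (hρ0 : 0 ≤ ρ) (hρ1 : ρ ≤ 1) (ho : 0 ≤ o)
    (E1 : B0 ≤ 0 → κ * (2 + f * (X0 - B0)) ≤ P)
    (E2 : 0 ≤ B0 → κ * (2 + f * X0) ≤ P + ρ * B0)
    (E3 : κ * (2 + f * (X0 + u0)) ≤ P + ρ * (B0 + u0)) :
    κ * (2 + f * (X0 + o)) ≤ P + ρ * max 0 (B0 + o) + (1 - ρ) * max 0 (o - u0) := by
  have hκf0 : 0 ≤ κ * f := mul_nonneg hκ hf
  have h1 : ρ * (B0 + o) ≤ ρ * max 0 (B0 + o) := mul_le_mul_of_nonneg_left (le_max_right _ _) hρ0
  have h0 : 0 ≤ ρ * max 0 (B0 + o) := mul_nonneg hρ0 (le_max_left _ _)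
  have h2 : (1 - ρ) * (o - u0) ≤ (1 - ρ) * max 0 (o - u0) :=
    mul_le_mul_of_nonneg_left (le_max_right _ _) (by linarith)
  have h3 : 0 ≤ (1 - ρ) * max 0 (o - u0) := mul_nonneg (by linarith) (le_max_left _ _)
  rcases le_total u0 o with hu | hu
  · have h4 : κ * f * (o - u0) ≤ 1 * (o - u0) := mul_le_mul_of_nonneg_right hκf (by linarith)
    nlinarith
  · rcases le_total (B0 + o) 0 with hB | hB
    · have h4 := E1 (by linarith)
      have h5 : κ * f * o ≤ κ * f * (-B0) := mul_le_mul_of_nonneg_left (by linarith) hκf0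
      nlinarith
    · rcases le_total (κ * f) ρ with hg | hg
      · rcases le_total B0 0 with hB0 | hB0
        · have h4 := E1 hB0
          have h5 : κ * f * (o + B0) ≤ ρ * (o + B0) := mul_le_mul_of_nonneg_right hg (by linarith)
          nlinarith
        · have h4 := E2 hB0
          have h5 : κ * f * o ≤ ρ * o := mul_le_mul_of_nonneg_right hg ho
          nlinarith
      · have h5 : ρ * (u0 - o) ≤ κ * f * (u0 - o) := mul_le_mul_of_nonneg_right hg (by linarith)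
        nlinarith

/-- clearing denominators -/
theorem poly_red {ψ p c h A X Y : ℝ} (hp : 0 < p) (hc : 0 ≤ c) (hh : 0 ≤ h)
    (hE : ψ * (2 * p * (1 + c) + A * X) * (p + h + c) ≤
      (p + c) * (p + h + c + Y) * (p ^ 3 * (1 + c))) :
    ψ / p ^ 2 * (2 + A / (p * (1 + c)) * X) ≤ p + c + (p + c) / (p + h + c) * Y := by
  have h1 : ψ / p ^ 2 * (2 + A / (p * (1 + c)) * X) =
      ψ * (2 * p * (1 + c) + A * X) / (p ^ 3 * (1 + c)) := by
    field_simp
  have h2 : p + c + (p + c) / (p + h + c) * Y = (p + c) * (p + h + c + Y) / (p + h + c) := by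
    have : p + h + c ≠ 0 := by positivity
    field_simp
  rw [h1, h2, div_le_div_iff₀ (by positivity) (by positivity)]
  exact hE

/-- clearing denominators, no second term -/
theorem poly_red0 {ψ p c A X : ℝ} (hp : 0 < p) (hc : 0 ≤ c)
    (hE : ψ * (2 * p * (1 + c) + A * X) ≤ (p + c) * (p ^ 3 * (1 + c))) :
    ψ / p ^ 2 * (2 + A / (p * (1 + c)) * X) ≤ p + c := by
  have h1 : ψ / p ^ 2 * (2 + A / (p * (1 + c)) * X) =
      ψ * (2 * p * (1 + c) + A * X) / (p ^ 3 * (1 + c)) := by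
    field_simp
  rw [h1, div_le_iff₀ (by positivity)]
  exact hE

/-- one element, over-full or not -/
theorem lin_k {p c h o w b f κ a : ℝ} (hp : 0 < p) (hc : 0 ≤ c) (hw1 : 1 ≤ w)
    (hwT : p < w → w ≤ p + h) (hb0 : 0 ≤ b) (hb : a + o - (w + c) ≤ b) (hκ : 0 ≤ κ)
    (hκf : κ * f ≤ 1) (hf : 1 + o / p ≤ f * max (a + o) (1 + c)) (hf0 : 0 ≤ f) :
    κ * ((1 + o / p) * (max 0 (p - w) / (w + c))) ≤
      κ * f * max 0 (p - w) + ((p + c) * (b / (w + c)) -
        (if p < w then (p + c) / (p + h + c) * b else b)) := by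
  have hy0 : 0 < w + c := by linarith
  split_ifs with hpw
  · rw [max_eq_left (by linarith), zero_div, mul_zero, mul_zero, mul_zero]
    have h1 : (p + c) / (p + h + c) ≤ (p + c) / (w + c) :=
      div_le_div_of_nonneg_left (by linarith) hy0 (by linarith [hwT hpw])
    have h2 := mul_le_mul_of_nonneg_right h1 hb0
    have h3 : (p + c) * (b / (w + c)) = (p + c) / (w + c) * b := by ring
    linarith
  · rw [max_eq_right (by linarith)]
    have h4 := lin_one' (p := p) (show 1 + c ≤ w + c by linarith) hy0 hb0 hb hκ hκf hf hf0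
    have h5 := mul_le_mul_of_nonneg_right h4 (sub_nonneg.2 (not_lt.1 hpw))
    have h6 : (κ * f + b / (w + c)) * (p - w) =
        κ * f * (p - w) + ((p + c) * (b / (w + c)) - b) := by
      field_simp
      ring
    rw [h6] at h5
    refine le_trans (le_of_eq ?_) h5
    ring

section

variable {V : Type} [DecidableEq V] {m : Finset V → ℝ}

/-- the functional and the masses of the tops -/
theorem vv_tops (h : PosM m) {K T : Finset V} (hT : T ⊆ K) {α : ℝ} :
    vv m K T α ≤ (α - ∑ t ∈ T, m {t}) * Ival m K := by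
  unfold vv
  have h2 : (∑ t ∈ T, m {t}) * Ival m K ≤ ∑ t ∈ T, Ival m (K.erase t) := by
    rw [sum_mul]
    exact sum_le_sum fun t ht => mul_Ival_le_erase h (hT ht)
  linarith

/-- from the potential to the inequality -/
theorem finB_core {K : Finset V} {b : V → ℝ} {p h a B0 ψ W : ℝ} {l0 : V} (hm : PosM m)
    (hp : 2 ≤ p) (hh : 0 ≤ h) (hK : 3 ≤ K.card) (hw1 : ∀ j ∈ K, 1 ≤ m {j})
    (hwT : ∀ j ∈ K, p < m {j} → m {j} ≤ p + h) (hb0 : ∀ j ∈ K, 0 ≤ b j)
    (hb : ∀ j ∈ K, a + pom m K j - (m {j} + m ∅) ≤ b j) (hbs : B0 + po m K ≤ ∑ j ∈ K, b j)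
    (hl : l0 ∈ K) (hl0 : pa m K l0 ≤ p)
    (hsum : ∑ j ∈ K, max 0 (p - m {j}) ≤ 2 * p - 1 + m ∅ + pN m K) (ha : a ≤ p) (hψ : 0 ≤ ψ)
    (hV : (p + m ∅) * (p ^ (K.card - 2) * W) ≤
      ψ * (2 + pt m K / p + ∑ j ∈ K, (1 + pom m K j / p) *
        (max 0 (p - m {j}) / (m {j} + m ∅))))
    (E4 : ψ * (p + 1 + m ∅ - a) ≤ p ^ 3 * (1 + m ∅))
    (E1 : B0 ≤ 0 → ψ * (2 * p * (1 + m ∅) + (p + 1 + m ∅ - a) * (2 * p - 1 + m ∅ - B0)) ≤
      (p + m ∅) * (p ^ 3 * (1 + m ∅)))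
    (E2 : 0 ≤ B0 → ψ * (2 * p * (1 + m ∅) + (p + 1 + m ∅ - a) * (2 * p - 1 + m ∅)) *
      (p + h + m ∅) ≤ (p + m ∅) * (p + h + m ∅ + B0) * (p ^ 3 * (1 + m ∅)))
    (E3 : ψ * (2 * p * (1 + m ∅) + (p + 1 + m ∅ - a) * (2 * p - 1 + m ∅ + (p + m ∅ - a))) *
      (p + h + m ∅) ≤ (p + m ∅) * (p + h + m ∅ + (B0 + (p + m ∅ - a))) * (p ^ 3 * (1 + m ∅))) :
    p ^ (K.card - 3) * W ≤ p * (1 + ∑ j ∈ K, b j / (m {j} + m ∅)) := by
  have hp0 : 0 < p := by linarith
  have hc0 : 0 ≤ m ∅ := hm.1 ∅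
  have hD : 0 < p * (1 + m ∅) := by positivity
  set f : ℝ := (p + 1 + m ∅ - a) / (p * (1 + m ∅)) with hf
  set κ : ℝ := ψ / p ^ 2 with hκ
  set ρ : ℝ := (p + m ∅) / (p + h + m ∅) with hρ
  have hκ0 : 0 ≤ κ := by positivity
  have hf0 : 0 ≤ f := div_nonneg (by linarith) hD.le
  have hκf : κ * f ≤ 1 := by
    have h1 : κ * f = ψ * (p + 1 + m ∅ - a) / (p ^ 3 * (1 + m ∅)) := by
      rw [hκ, hf]
      field_simp
    rw [h1, div_le_one (by positivity)]
    exact E4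
  have hfp : 1 / p ≤ f := by
    rw [hf, div_le_div_iff₀ hp0 hD]
    nlinarith
  have hρ0 : 0 ≤ ρ := by positivity
  have hρ1 : ρ ≤ 1 := by
    rw [hρ, div_le_one (by positivity)]
    linarith
  have hT0 : 0 ≤ pt m K := pt_nonneg hm.1
  have hpo := po_eq (m := m) (K := K)
  have hpo0 : 0 ≤ po m K := po_nonneg hm.1
  -- the terms
  have hterm : ∑ j ∈ K, κ * ((1 + pom m K j / p) * (max 0 (p - m {j}) / (m {j} + m ∅))) ≤
      ∑ j ∈ K, (κ * f * max 0 (p - m {j}) + ((p + m ∅) * (b j / (m {j} + m ∅)) -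
        (if p < m {j} then ρ * b j else b j))) :=
    sum_le_sum fun j hj => lin_k hp0 hc0 (hw1 j hj) (hwT j hj) (hb0 j hj) (hb j hj) hκ0 hκf
      (fac_gen hp0 hc0 ha (pom_nonneg hm.1 j)) hf0
  rw [← mul_sum, sum_add_distrib, ← mul_sum, sum_sub_distrib, ← mul_sum] at hterm
  -- the surplus
  have hsur : ρ * ∑ j ∈ K, b j + (1 - ρ) * b l0 ≤
      ∑ j ∈ K, (if p < m {j} then ρ * b j else b j) := by
    have h1 : ∀ j ∈ K, ρ * b j ≤ if p < m {j} then ρ * b j else b j := by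
      intro j hj
      split_ifs
      · exact le_rfl
      · have := mul_le_mul_of_nonneg_right hρ1 (hb0 j hj)
        linarith
    have h2 : ¬ p < m {l0} := not_lt.2 ((le_pa hm.1 hl).trans hl0)
    rw [mul_sum, ← add_sum_erase K (fun j => ρ * b j) hl,
      ← add_sum_erase K (fun j => if p < m {j} then ρ * b j else b j) hl, if_neg h2]
    have h3 : ∑ j ∈ K.erase l0, ρ * b j ≤
        ∑ j ∈ K.erase l0, (if p < m {j} then ρ * b j else b j) :=
      sum_le_sum fun j hj => h1 j (mem_of_mem_erase hj)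
    linarith
  have hB : max 0 (B0 + po m K) ≤ ∑ j ∈ K, b j := max_le (sum_nonneg hb0) hbs
  have hu : max 0 (po m K - (p + m ∅ - a)) ≤ b l0 := by
    refine max_le (hb0 l0 hl) ?_
    have h1 := pa_add_pom (m := m) hl
    have h2 := hb l0 hl
    linarith
  have hsi := si_core (κ := κ) (f := f) (P := p + m ∅) (ρ := ρ) (B0 := B0) (u0 := p + m ∅ - a)
    (X0 := 2 * p - 1 + m ∅) (o := po m K) hκ0 hf0 hκf hρ0 hρ1 hpo0
    (fun hB0 => poly_red0 hp0 hc0 (E1 hB0)) (fun hB0 => poly_red hp0 hc0 hh (E2 hB0))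
    (poly_red hp0 hc0 hh E3)
  have h1 : κ * (2 + pt m K / p) + κ * f * ∑ j ∈ K, max 0 (p - m {j}) ≤
      κ * (2 + f * (2 * p - 1 + m ∅ + po m K)) := by
    have h2 : pt m K / p ≤ f * pt m K := by
      rw [div_eq_mul_one_div, mul_comm]
      exact mul_le_mul_of_nonneg_right hfp hT0
    have h3 : κ * (2 + pt m K / p) ≤ κ * (2 + f * pt m K) :=
      mul_le_mul_of_nonneg_left (by linarith) hκ0
    have h4 := mul_le_mul_of_nonneg_left hsum (mul_nonneg hκ0 hf0)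
    rw [hpo]
    nlinarith
  have h2 : ρ * max 0 (B0 + po m K) + (1 - ρ) * max 0 (po m K - (p + m ∅ - a)) ≤
      ρ * ∑ j ∈ K, b j + (1 - ρ) * b l0 :=
    add_le_add (mul_le_mul_of_nonneg_left hB hρ0) (mul_le_mul_of_nonneg_left hu (by linarith))
  have h3 : κ * (2 + pt m K / p + ∑ j ∈ K, (1 + pom m K j / p) *
        (max 0 (p - m {j}) / (m {j} + m ∅))) ≤
      (p + m ∅) * (1 + ∑ j ∈ K, b j / (m {j} + m ∅)) := by
    rw [mul_add]
    linarith
  have h4 : (p + m ∅) * (p ^ (K.card - 3) * W) ≤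
      (p + m ∅) * (p * (1 + ∑ j ∈ K, b j / (m {j} + m ∅))) := by
    have h5 : (p : ℝ) ^ (K.card - 2) = p * p ^ (K.card - 3) := by
      rw [← pow_succ']
      congr 1
      omega
    rw [h5] at hV
    have h6 := mul_le_mul_of_nonneg_left h3 (sq_nonneg p)
    have h7 : p ^ 2 * (κ * (2 + pt m K / p + ∑ j ∈ K, (1 + pom m K j / p) *
        (max 0 (p - m {j}) / (m {j} + m ∅)))) =
        ψ * (2 + pt m K / p + ∑ j ∈ K, (1 + pom m K j / p) *
        (max 0 (p - m {j}) / (m {j} + m ∅))) := by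
      rw [hκ]
      field_simp
    rw [h7] at h6
    have h8 := hV.trans h6
    have h9 : p * ((p + m ∅) * (p ^ (K.card - 3) * W)) ≤
        p * ((p + m ∅) * (p * (1 + ∑ j ∈ K, b j / (m {j} + m ∅)))) := by
      calc _ = (p + m ∅) * (p * p ^ (K.card - 3) * W) := by ring
        _ ≤ _ := h8
        _ = _ := by ring
    exact le_of_mul_le_mul_left h9 hp0
  exact le_of_mul_le_mul_left h4 (by linarith)

end

end MP76b19e.Rob
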