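import Pool.Agent.Lib.MP76b19e.Rob.FinB

/-!
# The inequality for at most `ν` tops (problem MP_76b19e_co)

`kst_dn`: the inequality of `KSt` for at most `ν` tops, all caps.
-/

set_option autoImplicit false

open Finset

namespace MP76b19e.Rob

/-! ### Polynomial inequalities -/

theorem n_e1 {p c h : ℝ} (hp : 2 ≤ p) (hh : 1 ≤ h) (hc : 1 + 2 * h ≤ c) :
    (p + 1) * (2 * p * (1 + c) + (p + 1 + c - 2) * (2 * p - 1 + c - (1 + 2 * h - c))) ≤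
      (p + c) * (p ^ 3 * (1 + c)) := by
  obtain ⟨d, hd, rfl⟩ : ∃ d, 0 ≤ d ∧ c = 1 + 2 * h + d := ⟨c - (1 + 2 * h), by linarith, by ring⟩
  obtain ⟨g, hg, rfl⟩ : ∃ g, 0 ≤ g ∧ h = 1 + g := ⟨h - (1), by linarith, by ring⟩
  obtain ⟨e, he, rfl⟩ : ∃ e, 0 ≤ e ∧ p = 2 + e := ⟨p - (2), by linarith, by ring⟩
  have h : 0 ≤ 40 + 60 * (g) + 18 * (d) + 166 * (e) + 20 * (g ^ 2) + 14 * (d * g) + 2 * (d ^ 2) +
      174 * (e * g) + 80 * (e * d) + 140 * (e ^ 2) + 44 * (e * g ^ 2) + 42 * (e * d * g) +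
      10 * (e * d ^ 2) + 122 * (e ^ 2 * g) + 60 * (e ^ 2 * d) + 42 * (e ^ 3) +
      24 * (e ^ 2 * g ^ 2) + 24 * (e ^ 2 * d * g) + 6 * (e ^ 2 * d ^ 2) + 30 * (e ^ 3 * g) +
      15 * (e ^ 3 * d) + 4 * (e ^ 4) + 4 * (e ^ 3 * g ^ 2) + 4 * (e ^ 3 * d * g) +
      e ^ 3 * d ^ 2 + 2 * (e ^ 4 * g) + e ^ 4 * d := by
    positivity
  nlinarith [h]

theorem n_e2z {p h : ℝ} (hp : 2 ≤ p) (hh : 1 ≤ h) :
    (p + 1) * (2 * p * (1 + 0) + (p + 1 + 0 - 2) * (2 * p - 1 + 0)) * (p + h + 0) ≤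
      (p + 0) * (p + h + 0 + (1 + 2 * h - 0)) * (p ^ 3 * (1 + 0)) := by
  obtain ⟨g, hg, rfl⟩ : ∃ g, 0 ≤ g ∧ h = 1 + g := ⟨h - (1), by linarith, by ring⟩
  obtain ⟨e, he, rfl⟩ : ∃ e, 0 ≤ e ∧ p = 2 + e := ⟨p - (2), by linarith, by ring⟩
  have h : 0 ≤ 33 + 27 * (g) + 103 * (e) + 68 * (e * g) + 109 * (e ^ 2) + 59 * (e ^ 2 * g) +
      53 * (e ^ 3) + 22 * (e ^ 3 * g) + 12 * (e ^ 4) + 3 * (e ^ 4 * g) + e ^ 5 := by
    positivity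
  nlinarith [h]

theorem n_e2 {p c : ℝ} (hp : 2 ≤ p) (hc : 1 ≤ c) :
    (p + 1) * (2 * p * (1 + c) + (p + 1 + c - 2) * (2 * p - 1 + c)) ≤ (p + c) * (p ^ 3 * (1 + c)) := by
  obtain ⟨d, hd, rfl⟩ : ∃ d, 0 ≤ d ∧ c = 1 + d := ⟨c - (1), by linarith, by ring⟩
  obtain ⟨e, he, rfl⟩ : ∃ e, 0 ≤ e ∧ p = 2 + e := ⟨p - (2), by linarith, by ring⟩
  have h : 0 ≤ 10 * (d) + 36 * (e) + 5 * (d ^ 2) + 43 * (e * d) + 42 * (e ^ 2) + 11 * (e * d ^ 2) +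
      37 * (e ^ 2 * d) + 16 * (e ^ 3) + 6 * (e ^ 2 * d ^ 2) + 11 * (e ^ 3 * d) + 2 * (e ^ 4) +
      e ^ 3 * d ^ 2 + e ^ 4 * d := by
    positivity
  nlinarith [h]

theorem n_e3 {p d h : ℝ} (hp : 2 ≤ p) (hh : 1 ≤ h) (hd : 0 ≤ d) :
    (p + 1) * (2 * p * (1 + d) + (p + 1 + d - 2) * (2 * p - 1 + d + (p + d - 2))) * (p + h + d) ≤
      (p + d) * (p + h + d + (1 + 2 * h - d + (p + d - 2))) * (p ^ 3 * (1 + d)) := by
  obtain ⟨g, hg, rfl⟩ : ∃ g, 0 ≤ g ∧ h = 1 + g := ⟨h - (1), by linarith, by ring⟩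
  obtain ⟨e, he, rfl⟩ : ∃ e, 0 ≤ e ∧ p = 2 + e := ⟨p - (2), by linarith, by ring⟩
  have h : 0 ≤ 33 + 27 * (g) + 58 * (d) + 110 * (e) + 45 * (d * g) + 27 * (d ^ 2) + 65 * (e * g) +
      196 * (e * d) + 126 * (e ^ 2) + 18 * (d ^ 2 * g) + 2 * (d ^ 3) + 102 * (e * d * g) +
      90 * (e * d ^ 2) + 55 * (e ^ 2 * g) + 224 * (e ^ 2 * d) + 70 * (e ^ 3) +
      34 * (e * d ^ 2 * g) + 10 * (e * d ^ 3) + 83 * (e ^ 2 * d * g) + 81 * (e ^ 2 * d ^ 2) +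
      21 * (e ^ 3 * g) + 112 * (e ^ 3 * d) + 19 * (e ^ 4) + 18 * (e ^ 2 * d ^ 2 * g) +
      6 * (e ^ 2 * d ^ 3) + 27 * (e ^ 3 * d * g) + 27 * (e ^ 3 * d ^ 2) + 3 * (e ^ 4 * g) +
      25 * (e ^ 4 * d) + 2 * (e ^ 5) + 3 * (e ^ 3 * d ^ 2 * g) + e ^ 3 * d ^ 3 +
      3 * (e ^ 4 * d * g) + 3 * (e ^ 4 * d ^ 2) + 2 * (e ^ 5 * d) := by
    positivity
  nlinarith [h]

theorem z_e1 {p c h : ℝ} (hp : 2 ≤ p) (hh : 2 ≤ h) (hc : 1 + h ≤ c) :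
    p * (2 * p * (1 + c) + (p + 1 + c - 1) * (2 * p - 1 + c - (1 + h - c))) ≤
      (p + c) * (p ^ 3 * (1 + c)) := by
  obtain ⟨d, hd, rfl⟩ : ∃ d, 0 ≤ d ∧ c = 1 + h + d := ⟨c - (1 + h), by linarith, by ring⟩
  obtain ⟨g, hg, rfl⟩ : ∃ g, 0 ≤ g ∧ h = 2 + g := ⟨h - (2), by linarith, by ring⟩
  obtain ⟨e, he, rfl⟩ : ∃ e, 0 ≤ e ∧ p = 2 + e := ⟨p - (2), by linarith, by ring⟩
  have h : 0 ≤ 68 + 42 * (g) + 32 * (d) + 178 * (e) + 6 * (g ^ 2) + 10 * (d * g) + 4 * (d ^ 2) +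
      91 * (e * g) + 84 * (e * d) + 140 * (e ^ 2) + 11 * (e * g ^ 2) + 21 * (e * d * g) +
      10 * (e * d ^ 2) + 61 * (e ^ 2 * g) + 60 * (e ^ 2 * d) + 42 * (e ^ 3) +
      6 * (e ^ 2 * g ^ 2) + 12 * (e ^ 2 * d * g) + 6 * (e ^ 2 * d ^ 2) + 15 * (e ^ 3 * g) +
      15 * (e ^ 3 * d) + 4 * (e ^ 4) + e ^ 3 * g ^ 2 + 2 * (e ^ 3 * d * g) + e ^ 3 * d ^ 2 +
      e ^ 4 * g + e ^ 4 * d := by
    positivity
  nlinarith [h]

theorem z_e2 {p c : ℝ} (hp : 2 ≤ p) (hc : 1 ≤ c) :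
    p * (2 * p * (1 + c) + (p + 1 + c - 1) * (2 * p - 1 + c)) ≤ (p + c) * (p ^ 3 * (1 + c)) := by
  obtain ⟨d, hd, rfl⟩ : ∃ d, 0 ≤ d ∧ c = 1 + d := ⟨c - (1), by linarith, by ring⟩
  obtain ⟨e, he, rfl⟩ : ∃ e, 0 ≤ e ∧ p = 2 + e := ⟨p - (2), by linarith, by ring⟩
  have h : 0 ≤ 8 + 18 * (d) + 40 * (e) + 6 * (d ^ 2) + 47 * (e * d) + 42 * (e ^ 2) + 11 * (e * d ^ 2) +
      37 * (e ^ 2 * d) + 16 * (e ^ 3) + 6 * (e ^ 2 * d ^ 2) + 11 * (e ^ 3 * d) + 2 * (e ^ 4) +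
      e ^ 3 * d ^ 2 + e ^ 4 * d := by
    positivity
  nlinarith [h]

theorem z_e3 {p c h : ℝ} (hp : 2 ≤ p) (hh : 2 ≤ h) (hc : 1 ≤ c) :
    p * (2 * p * (1 + c) + (p + 1 + c - 1) * (2 * p - 1 + c + (p + c - 1))) * (p + h + c) ≤
      (p + c) * (p + h + c + (1 + h - c + (p + c - 1))) * (p ^ 3 * (1 + c)) := by
  obtain ⟨d, hd, rfl⟩ : ∃ d, 0 ≤ d ∧ c = 1 + d := ⟨c - (1), by linarith, by ring⟩
  obtain ⟨g, hg, rfl⟩ : ∃ g, 0 ≤ g ∧ h = 2 + g := ⟨h - (2), by linarith, by ring⟩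
  obtain ⟨e, he, rfl⟩ : ∃ e, 0 ≤ e ∧ p = 2 + e := ⟨p - (2), by linarith, by ring⟩
  have h : 0 ≤ 172 + 44 * (g) + 196 * (d) + 516 * (e) + 48 * (d * g) + 60 * (d ^ 2) + 112 * (e * g) +
      534 * (e * d) + 527 * (e ^ 2) + 12 * (d ^ 2 * g) + 4 * (d ^ 3) + 106 * (e * d * g) +
      148 * (e * d ^ 2) + 95 * (e ^ 2 * g) + 484 * (e ^ 2 * d) + 242 * (e ^ 3) +
      22 * (e * d ^ 2 * g) + 10 * (e * d ^ 3) + 77 * (e ^ 2 * d * g) + 111 * (e ^ 2 * d ^ 2) +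
      33 * (e ^ 3 * g) + 191 * (e ^ 3 * d) + 51 * (e ^ 4) + 12 * (e ^ 2 * d ^ 2 * g) +
      6 * (e ^ 2 * d ^ 3) + 22 * (e ^ 3 * d * g) + 32 * (e ^ 3 * d ^ 2) + 4 * (e ^ 4 * g) +
      33 * (e ^ 4 * d) + 4 * (e ^ 5) + 2 * (e ^ 3 * d ^ 2 * g) + e ^ 3 * d ^ 3 +
      2 * (e ^ 4 * d * g) + 3 * (e ^ 4 * d ^ 2) + 2 * (e ^ 5 * d) := by
    positivity
  nlinarith [h]

theorem o_e1 {p c : ℝ} (hp : 2 ≤ p) (hc : 2 ≤ c) :
    (p + 1) * (2 * p * (1 + c) + (p + 1 + c - 1) * (2 * p - 1 + c - (1 + 1 - c))) ≤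
      (p + c) * (p ^ 3 * (1 + c)) := by
  obtain ⟨d, hd, rfl⟩ : ∃ d, 0 ≤ d ∧ c = 2 + d := ⟨c - (2), by linarith, by ring⟩
  obtain ⟨e, he, rfl⟩ : ∃ e, 0 ≤ e ∧ p = 2 + e := ⟨p - (2), by linarith, by ring⟩
  have h : 0 ≤ 5 * (d) + 79 * (e) + 2 * (d ^ 2) + 57 * (e * d) + 83 * (e ^ 2) + 10 * (e * d ^ 2) +
      48 * (e ^ 2 * d) + 28 * (e ^ 3) + 6 * (e ^ 2 * d ^ 2) + 13 * (e ^ 3 * d) + 3 * (e ^ 4) +
      e ^ 3 * d ^ 2 + e ^ 4 * d := by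
    positivity
  nlinarith [h]

theorem o_e2 {p : ℝ} (hp : 2 ≤ p) :
    (p + 1) * (2 * p * (1 + 1) + (p + 1 + 1 - 1) * (2 * p - 1 + 1)) * (p + 1 + 1) ≤
      (p + 1) * (p + 1 + 1 + (1 + 1 - 1)) * (p ^ 3 * (1 + 1)) := by
  obtain ⟨e, he, rfl⟩ : ∃ e, 0 ≤ e ∧ p = 2 + e := ⟨p - (2), by linarith, by ring⟩
  have h : 0 ≤ 180 * (e) + 246 * (e ^ 2) + 122 * (e ^ 3) + 26 * (e ^ 4) + 2 * (e ^ 5) := by
    positivity
  nlinarith [h]

theorem o_e3 {p c : ℝ} (hp : 2 ≤ p) (hc : 1 ≤ c) :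
    (p + 1) * (2 * p * (1 + c) + (p + 1 + c - 1) * (2 * p - 1 + c + (p + c - 1))) * (p + 1 + c) ≤
      (p + c) * (p + 1 + c + (1 + 1 - c + (p + c - 1))) * (p ^ 3 * (1 + c)) := by
  obtain ⟨d, hd, rfl⟩ : ∃ d, 0 ≤ d ∧ c = 1 + d := ⟨c - (1), by linarith, by ring⟩
  obtain ⟨e, he, rfl⟩ : ∃ e, 0 ≤ e ∧ p = 2 + e := ⟨p - (2), by linarith, by ring⟩
  have h : 0 ≤ 24 + 58 * (d) + 302 * (e) + 24 * (d ^ 2) + 365 * (e * d) + 401 * (e ^ 2) + 2 * (d ^ 3) +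
      117 * (e * d ^ 2) + 397 * (e ^ 2 * d) + 206 * (e ^ 3) + 10 * (e * d ^ 3) +
      99 * (e ^ 2 * d ^ 2) + 169 * (e ^ 3 * d) + 47 * (e ^ 4) + 6 * (e ^ 2 * d ^ 3) +
      30 * (e ^ 3 * d ^ 2) + 31 * (e ^ 4 * d) + 4 * (e ^ 5) + e ^ 3 * d ^ 3 +
      3 * (e ^ 4 * d ^ 2) + 2 * (e ^ 5 * d) := by
    positivity
  nlinarith [h]

/-- restoring the second term -/
theorem e_two {ψ p c h A X B0 : ℝ} (hp : 0 ≤ p) (hc : 0 ≤ c) (hh : 0 ≤ h) (hB : 0 ≤ B0)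
    (h0 : ψ * (2 * p * (1 + c) + A * X) ≤ (p + c) * (p ^ 3 * (1 + c))) :
    ψ * (2 * p * (1 + c) + A * X) * (p + h + c) ≤
      (p + c) * (p + h + c + B0) * (p ^ 3 * (1 + c)) := by
  have h1 := mul_le_mul_of_nonneg_right h0 (by positivity : 0 ≤ p + h + c)
  have h2 : 0 ≤ (p + c) * B0 * (p ^ 3 * (1 + c)) := by positivity
  nlinarith [h1, h2]

section

variable {V : Type} [DecidableEq V] {m : Finset V → ℝ}

/-- the free masses -/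
theorem free_le {K T : Finset V} {b : V → ℝ} {p h ν : ℕ} (hk : KS K T m b p h ν)
    (hc : T.card ≤ ν)
    (hV : 0 < ((ν : ℝ) * p + ((ν : ℝ) - 1) * h + 1) * Ival m K - ∑ t ∈ T, Ival m (K.erase t)) :
    ∑ j ∈ K, max 0 ((p : ℝ) - m {j}) ≤ 2 * p - 1 + m ∅ + pN m K := by
  have hν1 := hk.ν1
  have hν1r : (1 : ℝ) ≤ ν := by exact_mod_cast hν1
  have hsplit : ∑ j ∈ K, max 0 ((p : ℝ) - m {j}) =
      ∑ j ∈ K, ((p : ℝ) - m {j}) + ∑ j ∈ K, max 0 (m {j} - (p : ℝ)) := by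
    rw [← sum_add_distrib]
    refine sum_congr rfl fun j _ => ?_
    rcases le_total (m {j}) (p : ℝ) with h1 | h1
    · rw [max_eq_right (by linarith), max_eq_left (by linarith)]
      ring
    · rw [max_eq_left (by linarith), max_eq_right (by linarith)]
      ring
  have hW : ∑ j ∈ K, max 0 (m {j} - (p : ℝ)) ≤ ((ν : ℝ) - 1) * h := by
    have h1 : ∑ j ∈ K, max 0 (m {j} - (p : ℝ)) = ∑ j ∈ T, max 0 (m {j} - (p : ℝ)) := by
      refine (sum_subset hk.TK fun j hj hjT => ?_).symm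
      exact max_eq_left (by linarith [le_pa hk.pos.1 hj, hk.paL j hj hjT])
    rw [h1]
    have h2 : ∀ t ∈ T, max 0 (m {t} - (p : ℝ)) ≤ h := fun t ht =>
      max_le (Nat.cast_nonneg _) (by linarith [le_pa hk.pos.1 (hk.TK ht), hk.paT t ht])
    by_cases hex : ∃ t ∈ T, m {t} ≤ (p : ℝ)
    · obtain ⟨t, ht, htp⟩ := hex
      rw [← add_sum_erase T _ ht, max_eq_left (by linarith), zero_add]
      have h3 := sum_le_card_nsmul (T.erase t) (fun j => max 0 (m {j} - (p : ℝ))) h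
        fun j hj => h2 j (mem_of_mem_erase hj)
      rw [nsmul_eq_mul, card_erase_of_mem ht] at h3
      refine h3.trans (mul_le_mul_of_nonneg_right ?_ (Nat.cast_nonneg _))
      have h4 : T.card - 1 ≤ ν - 1 := by omega
      have h5 : ((T.card - 1 : ℕ) : ℝ) ≤ ((ν - 1 : ℕ) : ℝ) := by exact_mod_cast h4
      rw [Nat.cast_sub hν1] at h5
      push_cast at h5
      exact h5
    · push Not at hex
      rcases Nat.lt_or_ge T.card ν with hlt | hge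
      · have h3 := sum_le_card_nsmul T (fun j => max 0 (m {j} - (p : ℝ))) h h2
        rw [nsmul_eq_mul] at h3
        refine h3.trans (mul_le_mul_of_nonneg_right ?_ (Nat.cast_nonneg _))
        have h4 : (T.card : ℝ) + 1 ≤ ν := by exact_mod_cast hlt
        linarith
      · have hcc : T.card = ν := le_antisymm hc hge
        have h3 : ∑ j ∈ T, max 0 (m {j} - (p : ℝ)) = ∑ t ∈ T, m {t} - ν * p := by
          rw [sum_congr rfl fun t ht => max_eq_right (by linarith [hex t ht] :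
            0 ≤ m {t} - (p : ℝ)), sum_sub_distrib, sum_const, nsmul_eq_mul, hcc]
        rw [h3]
        have h4 := vv_tops hk.pos hk.TK (α := (ν : ℝ) * p + ((ν : ℝ) - 1) * h + 1)
        unfold vv at h4
        have h5 : 0 < ((ν : ℝ) * p + ((ν : ℝ) - 1) * h + 1 - ∑ t ∈ T, m {t}) * Ival m K :=
          lt_of_lt_of_le hV h4
        have h6 : 0 < (ν : ℝ) * p + ((ν : ℝ) - 1) * h + 1 - ∑ t ∈ T, m {t} :=
          pos_of_mul_pos_left h5 (Ival_pos hk.pos K).le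
        choose mn hmn using hk.int
        have h7 : ∑ t ∈ T, m {t} = ((∑ t ∈ T, mn {t} : ℕ) : ℝ) := by
          push_cast
          exact sum_congr rfl fun t _ => hmn _
        obtain ⟨q, rfl⟩ : ∃ q, ν = q + 1 := ⟨ν - 1, by omega⟩
        rw [h7] at h6 ⊢
        push_cast at h6 ⊢
        have h8 : ((∑ t ∈ T, mn {t} : ℕ) : ℝ) < ((q + 1) * p + q * h + 1 : ℕ) := by
          push_cast
          linarith
        have h9 : ∑ t ∈ T, mn {t} ≤ (q + 1) * p + q * h := by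
          have : ∑ t ∈ T, mn {t} < (q + 1) * p + q * h + 1 := by exact_mod_cast h8
          omega
        have h10 : ((∑ t ∈ T, mn {t} : ℕ) : ℝ) ≤ ((q + 1) * p + q * h : ℕ) := by exact_mod_cast h9
        push_cast at h10
        linarith
  rw [hsplit, sum_free, hk.palK]
  linarith

/-- the general reduction for at most `ν` tops -/
theorem kst_core {K T : Finset V} {b : V → ℝ} {p h ν k : ℕ} {ψ a B0 : ℝ}
    (hk : KS K T m b p h ν) (hc : T.card ≤ ν)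
    (hV : 0 < ((ν : ℝ) * p + ((ν : ℝ) - 1) * h + 1) * Ival m K - ∑ t ∈ T, Ival m (K.erase t))
    (hkT : k = 0 ∨ ν - 1 + k ≤ T.card) (hψ0 : 0 ≤ ψ) (hψ1 : (p : ℝ) + 1 - k ≤ ψ)
    (hψ2 : ((ν : ℝ) - 1) * (p + h) + (p + 1) - k ≤ ψ * (((ν : ℝ) - 1) * h + 1))
    (ha : a ≤ p) (ha1 : a ≤ 1 + ((ν : ℝ) - T.card) * h)
    (hB : B0 ≤ 1 + ((ν : ℝ) + 1 - T.card) * h - m ∅)
    (E4 : ψ * (p + 1 + m ∅ - a) ≤ p ^ 3 * (1 + m ∅))
    (E1 : B0 ≤ 0 → ψ * (2 * p * (1 + m ∅) + (p + 1 + m ∅ - a) * (2 * p - 1 + m ∅ - B0)) ≤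
      (p + m ∅) * (p ^ 3 * (1 + m ∅)))
    (E2 : 0 ≤ B0 → ψ * (2 * p * (1 + m ∅) + (p + 1 + m ∅ - a) * (2 * p - 1 + m ∅)) *
      (p + h + m ∅) ≤ (p + m ∅) * (p + h + m ∅ + B0) * (p ^ 3 * (1 + m ∅)))
    (E3 : ψ * (2 * p * (1 + m ∅) + (p + 1 + m ∅ - a) * (2 * p - 1 + m ∅ + (p + m ∅ - a))) *
      (p + h + m ∅) ≤ (p + m ∅) * (p + h + m ∅ + (B0 + (p + m ∅ - a))) * (p ^ 3 * (1 + m ∅))) :
    (p : ℝ) ^ (K.card - 3) *
        (((ν : ℝ) * p + ((ν : ℝ) - 1) * h + 1) * Ival m K - ∑ t ∈ T, Ival m (K.erase t)) ≤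
      p * (1 + ∑ j ∈ K, b j / (m {j} + m ∅)) := by
  have hp2 : (2 : ℝ) ≤ p := by exact_mod_cast hk.p2
  have hh0 : (0 : ℝ) ≤ h := Nat.cast_nonneg _
  have hν1 := hk.ν1
  have hKc := hk.Kc
  have hμ : ((ν - 1 : ℕ) : ℝ) = (ν : ℝ) - 1 := by
    rw [Nat.cast_sub hν1]
    push_cast
    ring
  have hb0 : ∀ j ∈ K, 0 ≤ b j := by
    intro j _
    obtain ⟨i, hi⟩ := hk.bint j
    rw [hi]
    exact Nat.cast_nonneg _
  obtain ⟨l0, hl0⟩ : (K \ T).Nonempty := by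
    rw [← card_pos, card_sdiff_of_subset hk.TK]
    omega
  rw [mem_sdiff] at hl0
  have hpt := ptpP hk.pos hk.TK (by omega) (p := (p : ℝ)) (hh := (h : ℝ)) (x := 1)
    (a := (p : ℝ) + 1) (ψ := ψ) (μ := ν - 1) (k := k) (by linarith) hh0 one_pos
    (fun l hl hlT => hk.paL l hl hlT) (fun t ht => hk.paT t ht)
    (fun t ht => hk.one t (hk.TK ht)) (by rw [hk.palK, hμ]) le_rfl hkT hψ0
    (by linarith) (by rw [hμ]; linarith)
  rw [hμ, show ((ν : ℝ) - 1) * (p + h) + (p + 1) = (ν : ℝ) * p + ((ν : ℝ) - 1) * h + 1 by ring]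
    at hpt
  unfold vv at hpt
  refine finB_core (h := (h : ℝ)) (a := a) (B0 := B0) hk.pos hp2 hh0 (by omega) hk.one ?_ hb0 ?_
    ?_ hl0.1 (hk.paL l0 hl0.1 hl0.2) (free_le hk hc hV) ha hψ0 hpt E4 E1 E2 E3
  · intro j hj _
    by_cases hjT : j ∈ T
    · exact (le_pa hk.pos.1 hj).trans (hk.paT j hjT)
    · linarith [le_pa hk.pos.1 hj, hk.paL j hj hjT]
  · intro j hj
    by_cases hjT : j ∈ T
    · have := hk.bT j hjT
      nlinarith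
    · have := hk.bL j hj hjT
      linarith
  · have := hk.bsum
    linarith

/-- THE INEQUALITY FOR AT MOST `ν` TOPS -/
theorem kst_dn {K T : Finset V} {b : V → ℝ} {p h ν : ℕ} (hk : KS K T m b p h ν)
    (hc : T.card ≤ ν)
    (hV : 0 < ((ν : ℝ) * p + ((ν : ℝ) - 1) * h + 1) * Ival m K - ∑ t ∈ T, Ival m (K.erase t)) :
    (p : ℝ) ^ (K.card - 3) *
        (((ν : ℝ) * p + ((ν : ℝ) - 1) * h + 1) * Ival m K - ∑ t ∈ T, Ival m (K.erase t)) ≤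
      p * (1 + ∑ j ∈ K, b j / (m {j} + m ∅)) := by
  have hp2 : (2 : ℝ) ≤ p := by exact_mod_cast hk.p2
  have hh1 : (1 : ℝ) ≤ h := by exact_mod_cast hk.h1
  have hν1 := hk.ν1
  have hν1r : (1 : ℝ) ≤ ν := by exact_mod_cast hν1
  have hc0 : 0 ≤ m ∅ := hk.pos.1 ∅
  have hp3 : (p : ℝ) + 1 ≤ p ^ 3 := by nlinarith [sq_nonneg ((p : ℝ) - 1)]
  have hp3' : (p : ℝ) ^ 2 + p ≤ p ^ 3 := by nlinarith [sq_nonneg ((p : ℝ) - 1)]
  obtain ⟨cn, hcn⟩ := hk.int ∅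
  rcases Nat.lt_or_ge T.card ν with hlt | hge
  · -- fewer than `ν` tops
    have h4 : (T.card : ℝ) + 1 ≤ ν := by exact_mod_cast hlt
    refine kst_core (k := 0) (ψ := (p : ℝ) + 1) (a := 2) (B0 := 1 + 2 * h - m ∅) hk hc hV
      (Or.inl rfl) (by linarith) (by simp) ?_ hp2 (by nlinarith) (by nlinarith) ?_ ?_ ?_ ?_
    · have h5 : 0 ≤ ((ν : ℝ) - 1) * (p * (h - 1)) :=
        mul_nonneg (by linarith) (mul_nonneg (by linarith) (by linarith))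
      push_cast
      nlinarith
    · nlinarith [mul_nonneg hc0 (by linarith : (0 : ℝ) ≤ p ^ 3 - (p + 1))]
    · intro hB
      exact n_e1 hp2 hh1 (by linarith)
    · intro hB
      rcases Nat.eq_zero_or_pos cn with h0 | h0
      · have h1 : m ∅ = 0 := by rw [hcn, h0]; simp
        rw [h1]
        exact n_e2z hp2 hh1
      · have h1 : 1 ≤ m ∅ := by rw [hcn]; exact_mod_cast h0
        exact e_two (by linarith) hc0 (by linarith) hB (n_e2 hp2 h1)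
    · exact n_e3 hp2 hh1 hc0
  · have hcc : T.card = ν := le_antisymm hc hge
    have hcr : (T.card : ℝ) = ν := by rw [hcc]
    have hb := hk.base
    have hc1 : 1 ≤ m ∅ := by linarith
    rcases Nat.lt_or_ge h 2 with hh | hh
    · -- `h = 1`
      have he : h = 1 := by have := hk.h1; omega
      subst he
      refine kst_core (k := 1) (ψ := (p : ℝ) + 1) (a := 1) (B0 := 1 + 1 - m ∅) hk hc hV
        (Or.inr (by omega)) (by linarith) (by simp) ?_ (by linarith) (by rw [hcr]; simp)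
        (by rw [hcr]; simp) ?_ ?_ ?_ ?_
      · push_cast
        nlinarith
      · nlinarith [mul_nonneg hc0 (by linarith : (0 : ℝ) ≤ p ^ 3 - (p + 1))]
      · intro hB
        exact o_e1 hp2 (by linarith)
      · intro hB
        have h1 : cn = 1 ∨ cn = 2 := by
          rw [hcn] at hB hc1
          have h2 : (cn : ℝ) ≤ 2 := by linarith
          have h3 : 1 ≤ cn := by exact_mod_cast hc1
          have h4 : cn ≤ 2 := by exact_mod_cast h2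
          omega
        rcases h1 with h1 | h1
        · have h2 : m ∅ = 1 := by rw [hcn, h1]; simp
          rw [h2]
          push_cast
          exact o_e2 hp2
        · have h2 : m ∅ = 2 := by rw [hcn, h1]; simp
          refine e_two (by linarith) hc0 (by simp) hB ?_
          have h3 := o_e1 (p := (p : ℝ)) (c := m ∅) hp2 h2.ge
          rw [h2] at h3 ⊢
          norm_num at h3 ⊢
          linarith
      · push_cast
        exact o_e3 hp2 hc1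
    · have hh2 : (2 : ℝ) ≤ h := by exact_mod_cast hh
      refine kst_core (k := 1) (ψ := (p : ℝ)) (a := 1) (B0 := 1 + h - m ∅) hk hc hV
        (Or.inr (by omega)) (by linarith) (by simp) ?_ (by linarith) (by rw [hcr]; simp)
        (by rw [hcr]; linarith) ?_ ?_ ?_ ?_
      · have h5 : 0 ≤ ((ν : ℝ) - 1) * ((p - 1) * (h - 1) - 1) :=
          mul_nonneg (by linarith) (by nlinarith)
        push_cast
        nlinarith
      · nlinarith [mul_nonneg hc0 (by linarith : (0 : ℝ) ≤ p ^ 3 - (p ^ 2 + p)),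
          mul_nonneg hc0 (sq_nonneg (p : ℝ))]
      · intro hB
        exact z_e1 hp2 hh2 (by linarith)
      · intro hB
        exact e_two (by linarith) hc0 (by linarith) hB (z_e2 hp2 hc1)
      · exact z_e3 hp2 hh2 hc1

end

end MP76b19e.Rob
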