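import Pool.Agent.Lib.MP76b19e.Rob.VStar

/-!
# The bound (V**) for `Q₁ > P` (problem MP_76b19e_co)

`fin_coreX`: the comparison `R H ≤ 2 + ∑ b_j / y_j` for `R ≥ 1`. `vstarX`: the same as `vstar`, with
any `Q₁ > 0`.
-/

set_option autoImplicit false

open Finset

namespace MP76b19e.Rob.FIN

/-- the comparison for `R ≥ 1`, abstract numbers -/
theorem fin_coreX {ι : Type*} (K : Finset ι) (y om x b : ι → ℝ)
    (c o e Q R : ℝ) (hc : 0 ≤ c) (he : e = c - o)
    (hx : ∀ j ∈ K, x j = 1 + om j - y j)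
    (hsx : ∑ j ∈ K, x j = 2 - Q - ((K.card : ℝ) - 1) * e)
    (hy : ∀ j ∈ K, 0 < y j) (hy1 : ∀ j ∈ K, y j ≤ 1 + c)
    (hb : ∀ j ∈ K, R * (1 + om j) - y j ≤ b j)
    (hbs : 2 * R - Q - e + (R - 1) * (∑ j ∈ K, om j - ((K.card : ℝ) - 2) * o) ≤ ∑ j ∈ K, b j) :
    R * (2 + ∑ j ∈ K, x j / y j + ((K.card : ℝ) - 2) * e / (1 + c)) ≤
      2 + ∑ j ∈ K, b j / y j := by
  have hc1 : 0 < 1 + c := by linarith
  set lam : ℝ := 1 / (1 + c) with hlam
  have hlam0 : 0 < lam := by rw [hlam]; exact one_div_pos.mpr hc1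
  have hlam1 : lam * (1 + c) = 1 := by rw [hlam]; field_simp
  set n : ℝ := (K.card : ℝ) with hnn
  -- termwise
  have hterm : ∀ j ∈ K, R * (x j / y j) ≤
      b j / y j - lam * (b j - (R * (1 + om j) - y j)) + (1 - R) := by
    intro j hj
    have hyj := hy j hj
    have hyl : lam ≤ 1 / y j := by
      rw [hlam]
      exact one_div_le_one_div_of_le hyj (hy1 j hj)
    have h1 : R * (x j / y j) = (R * (1 + om j) - y j) * (1 / y j) + (1 - R) := by
      rw [hx j hj]
      field_simp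
      ring
    rw [h1]
    have hbx := hb j hj
    have h3 : (b j - (R * (1 + om j) - y j)) * lam ≤
        (b j - (R * (1 + om j) - y j)) * (1 / y j) :=
      mul_le_mul_of_nonneg_left hyl (by linarith)
    have h4 : b j / y j = b j * (1 / y j) := by ring
    rw [h4]
    nlinarith
  have hsum : R * ∑ j ∈ K, x j / y j ≤ ∑ j ∈ K, (b j / y j -
      lam * (b j - (R * (1 + om j) - y j)) + (1 - R)) := by
    rw [mul_sum]
    exact sum_le_sum hterm
  have hexp : ∑ j ∈ K, (b j / y j - lam * (b j - (R * (1 + om j) - y j)) + (1 - R)) =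
      ∑ j ∈ K, b j / y j - lam * (∑ j ∈ K, b j - (n * R + R * ∑ j ∈ K, om j - ∑ j ∈ K, y j)) +
        n * (1 - R) := by
    have h1 : ∑ j ∈ K, (R * (1 + om j) - y j) = n * R + R * ∑ j ∈ K, om j - ∑ j ∈ K, y j := by
      rw [sum_sub_distrib, ← mul_sum, sum_add_distrib, sum_const, nsmul_eq_mul]
      ring
    rw [sum_add_distrib, sum_sub_distrib, ← mul_sum, sum_sub_distrib, h1, sum_const, nsmul_eq_mul]
  rw [hexp] at hsum
  have hsy : ∑ j ∈ K, y j = n + ∑ j ∈ K, om j - (2 - Q - (n - 1) * e) := by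
    have h1 : ∑ j ∈ K, x j = n + ∑ j ∈ K, om j - ∑ j ∈ K, y j := by
      rw [sum_congr rfl hx, sum_sub_distrib, sum_add_distrib, sum_const, nsmul_eq_mul]
      ring
    linarith
  have h5 : ((K.card : ℝ) - 2) * e / (1 + c) = lam * ((n - 2) * e) := by
    rw [hlam]
    ring
  have h6 : R * (2 + ∑ j ∈ K, x j / y j + (n - 2) * e / (1 + c)) =
      2 * R + R * ∑ j ∈ K, x j / y j + R * (lam * ((n - 2) * e)) := by
    rw [← h5]
    ring
  rw [h6]
  rw [hsy] at hsum
  -- lam * (slack)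
  have h7 : lam * (2 * R - Q - e + (R - 1) * (∑ j ∈ K, om j - (n - 2) * o)) ≤
      lam * ∑ j ∈ K, b j := mul_le_mul_of_nonneg_left hbs hlam0.le
  have h9 : lam * ((R - 1) * (n - 2) * (1 + c)) = (R - 1) * (n - 2) := by
    rw [show lam * ((R - 1) * (n - 2) * (1 + c)) = (lam * (1 + c)) * ((R - 1) * (n - 2)) by ring,
      hlam1, one_mul]
  subst he
  nlinarith

/-- THEOREM 2 (FIN), `R ≥ 1` -/
theorem fin_mainX {V : Type*} [DecidableEq V] {m : Finset V → ℝ} {c : ℝ}
    (hc : 0 ≤ c) {K : Finset V} (hy : ∀ j ∈ K, 0 < Py m c j) (hy1 : ∀ j ∈ K, m {j} ≤ 1) {R : ℝ}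
    {b : V → ℝ}
    (hb : ∀ j ∈ K, R * (1 + POm m K j) - Py m c j ≤ b j)
    (hbs : 2 * R - PQ m c K - Pe m c K +
      (R - 1) * (∑ j ∈ K, POm m K j - ((K.card : ℝ) - 2) * PO m K) ≤ ∑ j ∈ K, b j) :
    R * PH m c K ≤ 2 + ∑ j ∈ K, b j / Py m c j :=
  fin_coreX K (Py m c) (POm m K) (Px m c K) b c (PO m K) (Pe m c K) (PQ m c K) R hc rfl
    (fun _ _ => rfl) (sum_Px m c K) hy
    (fun j hj => by have := hy1 j hj; unfold Py; linarith) hb hbs

end MP76b19e.Rob.FIN

namespace MP76b19e.Rob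

variable {V : Type} [DecidableEq V] {m : Finset V → ℝ} {K : Finset V}

omit [DecidableEq V] in
theorem pt_scale (m : Finset V → ℝ) (r : ℝ) (K : Finset V) :
    pt (fun D => m D / r) K = pt m K / r := by
  unfold pt
  rw [sum_div]
  exact sum_congr rfl fun D _ => by ring

/-- the sum of the overlaps without one element -/
theorem sum_pom (m : Finset V → ℝ) (K : Finset V) :
    ∑ j ∈ K, pom m K j = ((K.card : ℝ) - 2) * po m K + pt m K := by
  have h3 : ∑ j ∈ K, pom m K j = ∑ j ∈ K, FIN.POm m K j :=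
    sum_congr rfl fun j _ => (POm_eq_pom m K j).symm
  rw [h3, FIN.sum_POm, ← PO_eq_po, FIN.PO_eq, pt_eq, mul_sum, ← sum_add_distrib]
  exact sum_congr rfl fun D _ => by ring

/-- (V**) without the condition `Q₁ ≤ P` -/
theorem vstarX (h : PosM m) (hK : 2 ≤ K.card) {P Q1 : ℝ} (hP : 0 < P)
    (ha : ∀ k ∈ K, pa m K k ≤ P) (hQ0 : 0 < pal m K - ((K.card : ℝ) - 2) * P) (hQ1p : 0 < Q1)
    {b : V → ℝ} (hb : ∀ j ∈ K, Q1 + max 1 (Q1 / P) * pom m K j - (m {j} + m ∅) ≤ b j)
    (hbs : 2 * Q1 - (pal m K - ((K.card : ℝ) - 2) * P) - (m ∅ - po m K) +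
      max 0 (Q1 / P - 1) * pt m K ≤ ∑ j ∈ K, b j) :
    Q1 * (pal m K - ((K.card : ℝ) - 2) * P) * (P ^ (K.card - 2) * Ival m K) ≤
      2 + ∑ j ∈ K, b j / (m {j} + m ∅) := by
  rcases le_total Q1 P with hle | hge
  · refine vstar h hK hP ha hQ0 hle hQ1p (fun j hj => ?_) ?_
    · refine le_trans ?_ (hb j hj)
      have h1 : (1 : ℝ) ≤ max 1 (Q1 / P) := le_max_left _ _
      have h2 := pom_nonneg (K := K) h.1 j
      nlinarith
    · refine le_trans ?_ hbs
      have h1 : (0 : ℝ) ≤ max 0 (Q1 / P - 1) * pt m K :=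
        mul_nonneg (le_max_left _ _) (pt_nonneg h.1)
      linarith
  · have hPne := hP.ne'
    have hR1 : 1 ≤ Q1 / P := (one_le_div hP).2 hge
    have hm1 : max 1 (Q1 / P) = Q1 / P := max_eq_right hR1
    have hm0 : max 0 (Q1 / P - 1) = Q1 / P - 1 := max_eq_right (by linarith)
    rw [hm0] at hbs
    set m' : Finset V → ℝ := fun D => m D / P with hm'
    have h' : PosM m' := ⟨fun D => div_nonneg (h.1 D) hP.le, fun k => div_pos (h.2 k) hP⟩
    have hpal : pal m' K = pal m K / P := by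
      unfold pal
      rw [sum_div]
    have hpQ : pQ m' K = (pal m K - ((K.card : ℝ) - 2) * P) / P := by
      unfold pQ
      rw [hpal]
      field_simp
      ring
    have hpQ0 : 0 < pQ m' K := by
      rw [hpQ]
      exact div_pos hQ0 hP
    have ha' : ∀ k ∈ K, pa m' K k ≤ 1 := by
      intro k hk
      rw [hm', pa_scale, div_le_one hP]
      exact ha k hk
    have h1 := pot h' hK ha' hpQ0
    rw [← PH_eq_ph h'] at h1
    have hc1 : 0 < 1 + m' ∅ := by
      have := h'.1 ∅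
      linarith
    have h2 : pQ m' K * Ival m' K ≤ FIN.PH m' (m' ∅) K := by
      have h3 : (1 + m' ∅) * (pQ m' K * Ival m' K) ≤ (1 + m' ∅) * FIN.PH m' (m' ∅) K := by
        rw [← mul_assoc]
        exact h1
      exact le_of_mul_le_mul_left h3 hc1
    have h4 := FIN.fin_mainX (m := m') (c := m' ∅) (h'.1 ∅) (K := K)
      (fun j _ => by
        have h5 := h'.2 j
        have h6 := h'.1 ∅
        unfold FIN.Py
        linarith)
      (fun j hj => (le_pa h'.1 hj).trans (ha' j hj)) (R := Q1 / P)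
      (b := fun j => b j / P)
      (fun j hj => by
        unfold FIN.Py
        rw [POm_eq_pom, hm', pom_scale]
        have h5 := div_le_div_of_nonneg_right (hb j hj) hP.le
        rw [hm1] at h5
        refine le_trans (le_of_eq ?_) h5
        field_simp)
      (by
        have h6 : ∑ j ∈ K, FIN.POm m' K j - ((K.card : ℝ) - 2) * FIN.PO m' K = pt m K / P := by
          have h7 : ∑ j ∈ K, FIN.POm m' K j = ∑ j ∈ K, pom m' K j :=
            sum_congr rfl fun j _ => POm_eq_pom m' K j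
          rw [h7, sum_pom, PO_eq_po, hm', pt_scale]
          ring
        rw [h6, PQ_eq_pQ, hpQ, ← sum_div]
        unfold FIN.Pe
        rw [PO_eq_po, hm', po_scale]
        have h5 := div_le_div_of_nonneg_right hbs hP.le
        refine le_trans (le_of_eq ?_) h5
        field_simp)
    have h5 : ∑ j ∈ K, b j / P / FIN.Py m' (m' ∅) j = ∑ j ∈ K, b j / (m {j} + m ∅) := by
      refine sum_congr rfl fun j _ => ?_
      unfold FIN.Py
      rw [hm', ← add_div, div_div_div_cancel_right₀ hPne]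
    rw [h5] at h4
    have h6 : Q1 / P * (pQ m' K * Ival m' K) ≤ 2 + ∑ j ∈ K, b j / (m {j} + m ∅) :=
      (mul_le_mul_of_nonneg_left h2 (div_pos hQ1p hP).le).trans h4
    refine le_trans (le_of_eq ?_) h6
    rw [hpQ, hm', Ival_scale m hPne K]
    have h7 : P ^ K.card = P * P * P ^ (K.card - 2) := by
      rw [mul_assoc, ← pow_succ', ← pow_succ']
      congr 1
      omega
    rw [h7]
    field_simp

end MP76b19e.Rob
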