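import Pool.Agent.Lib.MP76b19e.Rob.VStar
import Pool.Agent.Lib.MP76b19e.Rob.FinX

/-!
# The potential in units, cap `p` (problem MP_76b19e_co)

`potP`: `(p + c) Q0 p ^ (n - 2) I(K) ≤ 2 + pt / p + ∑ (1 + pom j / p) (p - m {j}) / (m {j} + c)`.
`lin_pot`: the comparison of the potential with the sum of the `b j / (m {j} + c)`, element by
element.
-/

set_option autoImplicit false

open Finset

namespace MP76b19e.Rob

variable {V : Type} [DecidableEq V] {m : Finset V → ℝ} {K : Finset V}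

/-- the potential, masses in units, cap `p` -/
theorem potP (h : PosM m) (hK : 2 ≤ K.card) {p : ℝ} (hp : 0 < p) (ha : ∀ k ∈ K, pa m K k ≤ p)
    (hQ0 : 0 < pal m K - ((K.card : ℝ) - 2) * p) :
    (p + m ∅) * (pal m K - ((K.card : ℝ) - 2) * p) * (p ^ (K.card - 2) * Ival m K) ≤
      2 + pt m K / p + ∑ j ∈ K, (1 + pom m K j / p) * ((p - m {j}) / (m {j} + m ∅)) := by
  set m' : Finset V → ℝ := fun D => m D / p with hm'
  have hpne := hp.ne'
  have h' : PosM m' := ⟨fun D => div_nonneg (h.1 D) hp.le, fun k => div_pos (h.2 k) hp⟩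
  have hpal : pal m' K = pal m K / p := by
    unfold pal
    rw [sum_div]
  have hpQ : pQ m' K = (pal m K - ((K.card : ℝ) - 2) * p) / p := by
    unfold pQ
    rw [hpal]
    field_simp
    ring
  have hpQ0 : 0 < pQ m' K := by
    rw [hpQ]
    exact div_pos hQ0 hp
  have ha' : ∀ k ∈ K, pa m' K k ≤ 1 := by
    intro k hk
    rw [hm', pa_scale, div_le_one hp]
    exact ha k hk
  have h1 := pot h' hK ha' hpQ0
  have h2 : ph m' K =
      2 + pt m K / p + ∑ j ∈ K, (1 + pom m K j / p) * ((p - m {j}) / (m {j} + m ∅)) := by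
    unfold ph
    rw [hm', pt_scale]
    congr 1
    refine sum_congr rfl fun j _ => ?_
    rw [pom_scale]
    congr 1
    unfold pg
    have h3 : m {j} + m ∅ ≠ 0 := by
      have := h.2 j
      have := h.1 ∅
      linarith
    have h4 : m {j} / p + m ∅ / p ≠ 0 := by
      rw [← add_div]
      exact div_ne_zero h3 hpne
    rw [div_eq_div_iff h4 h3]
    field_simp
  rw [h2] at h1
  refine le_trans (le_of_eq ?_) h1
  rw [hpQ, hm', Ival_scale m hpne K]
  have h7 : p ^ K.card = p * p * p ^ (K.card - 2) := by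
    rw [mul_assoc, ← pow_succ', ← pow_succ']
    congr 1
    omega
  rw [h7]
  field_simp

/-- one element: `κ (1 + o / p) / y ≤ κ f + b / y` -/
theorem lin_one {p c o y b f κ : ℝ} (hc : 0 ≤ c) (ho : 0 ≤ o) (hy : 1 + c ≤ y) (hb0 : 0 ≤ b)
    (hb : 2 + o - y ≤ b) (hκ : 0 ≤ κ) (hκo : κ * (1 + o / p) ≤ 2 + o)
    (hf : 1 + o / p ≤ f * max (2 + o) (1 + c)) (hf0 : 0 ≤ f) :
    κ * (1 + o / p) / y ≤ κ * f + b / y := by
  have hy0 : 0 < y := by linarith
  rw [div_le_iff₀ hy0, add_mul, div_mul_cancel₀ _ hy0.ne']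
  rcases le_total (2 + o) y with h1 | h1
  · have h2 : max (2 + o) (1 + c) ≤ y := max_le h1 hy
    have h3 : 1 + o / p ≤ f * y := hf.trans (mul_le_mul_of_nonneg_left h2 hf0)
    have h4 := mul_le_mul_of_nonneg_left h3 hκ
    rw [← mul_assoc] at h4
    linarith
  · have h2 : max (2 + o) (1 + c) = 2 + o := max_eq_left (hy.trans h1)
    rw [h2] at hf
    have h3 : 0 < 2 + o := by linarith
    -- `κ f y ≥ κ (1 + o / p) y / (2 + o)`
    have h4 : κ * (1 + o / p) * y / (2 + o) ≤ κ * f * y := by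
      rw [div_le_iff₀ h3]
      have h5 := mul_le_mul_of_nonneg_left hf (mul_nonneg hκ hy0.le)
      linarith
    have h5 : κ * (1 + o / p) ≤ κ * (1 + o / p) * y / (2 + o) + (2 + o - y) := by
      have h6 : κ * (1 + o / p) * (2 + o - y) / (2 + o) ≤ 2 + o - y := by
        rw [div_le_iff₀ h3]
        have := mul_le_mul_of_nonneg_right hκo (sub_nonneg.2 h1)
        linarith
      have h7 : κ * (1 + o / p) * (2 + o - y) / (2 + o) =
          κ * (1 + o / p) - κ * (1 + o / p) * y / (2 + o) := by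
        field_simp
      linarith
    linarith

/-- the potential and the sum of the `b j / y j` -/
theorem lin_pot {ι : Type*} (K : Finset ι) {p c T f κ : ℝ} (w o b : ι → ℝ) (hp : 2 ≤ p)
    (hc : 0 ≤ c) (hw1 : ∀ j ∈ K, 1 ≤ w j) (hwp : ∀ j ∈ K, w j ≤ p) (ho : ∀ j ∈ K, 0 ≤ o j)
    (hb0 : ∀ j ∈ K, 0 ≤ b j) (hb : ∀ j ∈ K, 2 + o j - (w j + c) ≤ b j) (hκ : 0 ≤ κ) (hκ2 : κ ≤ 2)
    (hf : ∀ x, 0 ≤ x → 1 + x / p ≤ f * max (2 + x) (1 + c)) (hf0 : 0 ≤ f) :
    κ * (2 + T / p + ∑ j ∈ K, (1 + o j / p) * ((p - w j) / (w j + c))) ≤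
      κ * (2 + T / p) + κ * f * ∑ j ∈ K, (p - w j) +
        ((p + c) * ∑ j ∈ K, b j / (w j + c) - ∑ j ∈ K, b j) := by
  have hp0 : 0 < p := by linarith
  have key : ∀ j ∈ K, κ * ((1 + o j / p) * ((p - w j) / (w j + c))) ≤
      κ * f * (p - w j) + ((p + c) * (b j / (w j + c)) - b j) := by
    intro j hj
    have h1 := hw1 j hj
    have h2 := hwp j hj
    have h3 := ho j hj
    have hy0 : 0 < w j + c := by linarith
    have h4 := lin_one (p := p) hc h3 (show 1 + c ≤ w j + c by linarith) (hb0 j hj) (hb j hj) hκ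
      (by
        have h5 : o j / p ≤ o j / 2 := div_le_div_of_nonneg_left h3 (by norm_num) hp
        have h6 : 0 ≤ o j / p := div_nonneg h3 hp0.le
        nlinarith) (hf _ h3) hf0
    have h5 := mul_le_mul_of_nonneg_right h4 (sub_nonneg.2 h2)
    have h6 : (κ * f + b j / (w j + c)) * (p - w j) =
        κ * f * (p - w j) + ((p + c) * (b j / (w j + c)) - b j) := by
      field_simp
      ring
    rw [h6] at h5
    refine le_trans (le_of_eq ?_) h5
    ring
  have hs := sum_le_sum key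
  have e1 : ∑ j ∈ K, (κ * f * (p - w j) + ((p + c) * (b j / (w j + c)) - b j)) =
      κ * f * ∑ j ∈ K, (p - w j) + ((p + c) * ∑ j ∈ K, b j / (w j + c) - ∑ j ∈ K, b j) := by
    rw [sum_add_distrib, ← mul_sum]
    congr 1
    rw [mul_sum, ← sum_sub_distrib]
  rw [← mul_sum, e1] at hs
  rw [mul_add]
  linarith

/-- the sum of the free masses -/
theorem sum_free (p : ℝ) : ∑ j ∈ K, (p - m {j}) =
    (K.card : ℝ) * p - pal m K + m ∅ + pN m K := by
  have h1 := pal_eq (m := m) (K := K)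
  rw [sum_sub_distrib, sum_const, nsmul_eq_mul]
  linarith

/-- the factor `f`, base at most `1` -/
theorem fac_half {p c x : ℝ} (hp : 2 ≤ p) (hx : 0 ≤ x) : 1 + x / p ≤ 1 / 2 * max (2 + x) (1 + c) := by
  have h1 : x / p ≤ x / 2 := div_le_div_of_nonneg_left hx (by norm_num) hp
  have h2 := le_max_left (2 + x) (1 + c)
  linarith

/-- the factor `f`, base at least `1` -/
theorem fac_c {p c x : ℝ} (hp : 2 ≤ p) (hc : 1 ≤ c) (hx : 0 ≤ x) :
    1 + x / p ≤ (p + c - 1) / (p * (c + 1)) * max (2 + x) (1 + c) := by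
  have hp0 : 0 < p := by linarith
  have hD : 0 < p * (c + 1) := by positivity
  rw [div_mul_eq_mul_div, le_div_iff₀ hD]
  have h0 : (1 + x / p) * (p * (c + 1)) = (p + x) * (c + 1) := by
    field_simp
  rw [h0]
  rcases le_total x (c - 1) with h1 | h1
  · have h2 := le_max_right (2 + x) (1 + c)
    have h3 : (p + c - 1) * (1 + c) ≤ (p + c - 1) * max (2 + x) (1 + c) :=
      mul_le_mul_of_nonneg_left h2 (by linarith)
    nlinarith
  · have h2 := le_max_left (2 + x) (1 + c)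
    have h3 : (p + c - 1) * (2 + x) ≤ (p + c - 1) * max (2 + x) (1 + c) :=
      mul_le_mul_of_nonneg_left h2 (by linarith)
    nlinarith [mul_nonneg (sub_nonneg.2 h1) (sub_nonneg.2 hp)]

end MP76b19e.Rob
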