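import Pool.Agent.Lib.MP76b19e.Rob.Red1
import Pool.Agent.Lib.MP76b19e.Rob.PotP

/-!
# The inequality for at least two tops, nothing over-full, `ν = 1`, `h = 1` (problem MP_76b19e_co)

`no2 : NO2 p`. Small overlaps: the product bound. Large overlaps: the potential.
-/

set_option autoImplicit false

open Finset

namespace MP76b19e.Rob

open Pool.Agent.MP76b19e (bq num2)

/-- one element, general lower bound `a + o - y` -/
theorem lin_one' {p c o y b f κ a : ℝ} (hy : 1 + c ≤ y) (hy0 : 0 < y) (hb0 : 0 ≤ b)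
    (hb : a + o - y ≤ b) (hκ : 0 ≤ κ) (hκf : κ * f ≤ 1)
    (hf : 1 + o / p ≤ f * max (a + o) (1 + c)) (hf0 : 0 ≤ f) :
    κ * (1 + o / p) / y ≤ κ * f + b / y := by
  rw [div_le_iff₀ hy0, add_mul, div_mul_cancel₀ _ hy0.ne']
  rcases le_total (a + o) y with h1 | h1
  · have h2 : max (a + o) (1 + c) ≤ y := max_le h1 hy
    have h3 : 1 + o / p ≤ f * y := hf.trans (mul_le_mul_of_nonneg_left h2 hf0)
    have h4 := mul_le_mul_of_nonneg_left h3 hκ
    rw [← mul_assoc] at h4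
    linarith
  · have h2 : max (a + o) (1 + c) = a + o := max_eq_left (hy.trans h1)
    rw [h2] at hf
    have h4 := mul_le_mul_of_nonneg_left hf hκ
    have h5 : (1 - κ * f) * y ≤ (1 - κ * f) * (a + o) :=
      mul_le_mul_of_nonneg_left h1 (by linarith)
    nlinarith

/-- the potential and the sum of the `b j / y j`, general lower bound `a + o - y` -/
theorem lin_pot' {ι : Type*} (K : Finset ι) {p c T f κ a : ℝ} (w o b : ι → ℝ)
    (hc : 0 ≤ c) (hw1 : ∀ j ∈ K, 1 ≤ w j) (hwp : ∀ j ∈ K, w j ≤ p) (ho : ∀ j ∈ K, 0 ≤ o j)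
    (hb0 : ∀ j ∈ K, 0 ≤ b j) (hb : ∀ j ∈ K, a + o j - (w j + c) ≤ b j) (hκ : 0 ≤ κ)
    (hκf : κ * f ≤ 1) (hf : ∀ x, 0 ≤ x → 1 + x / p ≤ f * max (a + x) (1 + c)) (hf0 : 0 ≤ f) :
    κ * (T + ∑ j ∈ K, (1 + o j / p) * ((p - w j) / (w j + c))) ≤
      κ * T + κ * f * ∑ j ∈ K, (p - w j) +
        ((p + c) * ∑ j ∈ K, b j / (w j + c) - ∑ j ∈ K, b j) := by
  have key : ∀ j ∈ K, κ * ((1 + o j / p) * ((p - w j) / (w j + c))) ≤
      κ * f * (p - w j) + ((p + c) * (b j / (w j + c)) - b j) := by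
    intro j hj
    have h1 := hw1 j hj
    have h2 := hwp j hj
    have h3 := ho j hj
    have hy0 : 0 < w j + c := by linarith
    have h4 := lin_one' (p := p) (show 1 + c ≤ w j + c by linarith) hy0 (hb0 j hj) (hb j hj) hκ
      hκf (hf _ h3) hf0
    have h5 := mul_le_mul_of_nonneg_right h4 (sub_nonneg.2 h2)
    have h6 : (κ * f + b j / (w j + c)) * (p - w j) =
        κ * f * (p - w j) + ((p + c) * (b j / (w j + c)) - b j) := by
      field_simp
      ring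
    rw [h6] at h5
    refine le_trans (le_of_eq ?_) h5
    ring
  have hs := sum_le_sum key
  have e1 : ∑ j ∈ K, (κ * f * (p - w j) + ((p + c) * (b j / (w j + c)) - b j)) =
      κ * f * ∑ j ∈ K, (p - w j) + ((p + c) * ∑ j ∈ K, b j / (w j + c) - ∑ j ∈ K, b j) := by
    rw [sum_add_distrib, ← mul_sum]
    congr 1
    rw [mul_sum, ← sum_sub_distrib]
  rw [← mul_sum, e1] at hs
  rw [mul_add]
  linarith

/-- the factor `f` -/
theorem fac_gen {p c a x : ℝ} (hp : 0 < p) (hc : 0 ≤ c) (hap : a ≤ p)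
    (hx : 0 ≤ x) : 1 + x / p ≤ (p + 1 + c - a) / (p * (1 + c)) * max (a + x) (1 + c) := by
  have hD : 0 < p * (1 + c) := by positivity
  rw [div_mul_eq_mul_div, le_div_iff₀ hD]
  have h0 : (1 + x / p) * (p * (1 + c)) = (p + x) * (1 + c) := by
    field_simp
  rw [h0]
  have h3 : 0 ≤ p + 1 + c - a := by linarith
  rcases le_total x (1 + c - a) with h1 | h1
  · have h2 := mul_le_mul_of_nonneg_left (le_max_right (a + x) (1 + c)) h3
    nlinarith
  · have h2 := mul_le_mul_of_nonneg_left (le_max_left (a + x) (1 + c)) h3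
    nlinarith [mul_nonneg (sub_nonneg.2 h1) (sub_nonneg.2 hap)]

/-- the polynomial inequality -/
theorem no2_poly {p c u : ℝ} (hu : 1 ≤ u) (hc : u + 1 ≤ c) (hp : u + 1 ≤ p) :
    (p - u) * (2 * p * (1 + c) + (p + c + u) * (3 * p - 1 + 2 * c)) ≤
      p ^ 2 * (1 + c) * (2 * p + c + 2 - u) := by
  obtain ⟨v, hv, rfl⟩ : ∃ v, 0 ≤ v ∧ u = v + 1 := ⟨u - 1, by linarith, by ring⟩
  obtain ⟨d, hd, rfl⟩ : ∃ d, 0 ≤ d ∧ c = v + 1 + 1 + d := ⟨c - (v + 1 + 1), by linarith, by ring⟩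
  obtain ⟨e, he, rfl⟩ : ∃ e, 0 ≤ e ∧ p = v + 1 + 1 + e := ⟨p - (v + 1 + 1), by linarith, by ring⟩
  have h : 0 ≤ 27 + 17 * d + 21 * e + 74 * v + 18 * (d * e) + 39 * (d * v) + 2 * d ^ 2 +
      48 * (e * v) + 12 * e ^ 2 + 64 * v ^ 2 + 27 * (d * e * v) + 11 * (d * e ^ 2) +
      22 * (d * v ^ 2) + 2 * (d ^ 2 * e) + 4 * (d ^ 2 * v) + 31 * (e * v ^ 2) +
      17 * (e ^ 2 * v) + 3 * e ^ 3 + 21 * v ^ 3 + 8 * (d * e * v ^ 2) + 7 * (d * e ^ 2 * v) +
      2 * (d * e ^ 3) + 3 * (d * v ^ 3) + 2 * (d ^ 2 * e * v) + d ^ 2 * e ^ 2 + d ^ 2 * v ^ 2 +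
      6 * (e * v ^ 3) + 6 * (e ^ 2 * v ^ 2) + 2 * (e ^ 3 * v) + 2 * v ^ 4 := by positivity
  nlinarith [h]

section

variable {V : Type} [DecidableEq V] {K : Finset V} {m : Finset V → ℝ} {b : V → ℝ}

/-- small overlaps -/
theorem gw_small (h : PosM m) (hint : ∀ D, ∃ k : ℕ, m D = k) (hK : 2 ≤ K.card) {p : ℕ}
    (hp : 2 ≤ p) (hw : ∀ j ∈ K, 1 ≤ m {j}) (ha : ∀ j ∈ K, pa m K j ≤ p) (hc : 2 ≤ m ∅)
    (hpal : pal m K = ((K.card : ℝ) - 2) * p + 1) (hE : po m K ≤ m ∅ + p - 1) :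
    (p : ℝ) ^ (K.card - 2) * Ival m K ≤ 1 := by
  obtain ⟨L, H, hL, hH, hLq, hHq⟩ := exists_LH hp
  choose mn hmn using hint
  obtain ⟨On, hOn⟩ := po_int (fun D => ⟨mn D, hmn D⟩ : ∀ D, ∃ k : ℕ, m D = k) K
  have hp0 : (0 : ℝ) < p := by
    have : 0 < p := by omega
    exact_mod_cast this
  have hc' : 2 ≤ mn ∅ := by
    rw [hmn] at hc
    exact_mod_cast hc
  have h1 := mass_gw (m := m) (K := K) hp hL hH hLq hHq hmn (fun j hj => by
    have := hw j hj
    rw [hmn] at this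
    exact_mod_cast this) ha (c0 := 2) (On := On) (Δ := 2 * p + 1) hc' hOn (by
      rw [hpal]
      push_cast
      ring)
  have hOn' : On - (mn ∅ - 2) ≤ p + 1 := by
    rw [hOn, hmn] at hE
    have h2 : (On : ℝ) + 1 ≤ mn ∅ + p := by linarith
    have h3 : On + 1 ≤ mn ∅ + p := by exact_mod_cast h2
    omega
  have hH1 := Pool.Agent.MP76b19e.H_ge_one hp hH hHq
  have h2 : H ^ (On - (mn ∅ - 2)) ≤ H ^ (p + 1) := pow_le_pow_right₀ hH1 hOn'
  have hbq : bq (p - 1) 2 (2 * p + 1) = 2 * ((p : ℝ) - 1) ^ 2 / (3 * p * (4 * p - 1)) := by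
    have h3 := bq2 (N := p - 1) (by omega)
    rw [show 2 * (p - 1) + 3 = 2 * p + 1 by omega] at h3
    rw [h3, cast_pred' hp]
    have h4 : 3 * ((p : ℝ) - 1) + 3 = 3 * p := by ring
    have h5 : 4 * ((p : ℝ) - 1) + 3 = 4 * p - 1 := by ring
    rw [h4, h5, div_mul_div_comm]
    congr 1
    ring
  rw [hbq] at h1
  have h3 := num2 hp hL hH hLq hHq
  have hX : 0 ≤ 2 * ((p : ℝ) - 1) ^ 2 / (3 * p * (4 * p - 1)) := by
    have : (2 : ℝ) ≤ p := by exact_mod_cast hp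
    have h4 : 0 < 4 * (p : ℝ) - 1 := by linarith
    positivity
  have hLp : L ^ (2 * p + 1) = (p : ℝ) ^ 2 * L ^ 3 := by
    have h4 : 2 * p + 1 = 2 * (p - 1) + 3 := by omega
    rw [h4, pow_add, mul_comm 2, pow_mul, hLq]
  have hpw : (p : ℝ) ^ K.card = p ^ 2 * p ^ (K.card - 2) := by
    rw [← pow_add]
    congr 1
    omega
  rw [hLp, hpw] at h1
  have h4 : (p : ℝ) ^ 2 * ((p : ℝ) ^ (K.card - 2) * Ival m K) ≤ (p : ℝ) ^ 2 * 1 := by
    calc (p : ℝ) ^ 2 * ((p : ℝ) ^ (K.card - 2) * Ival m K)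
        = (p : ℝ) ^ 2 * p ^ (K.card - 2) * Ival m K := by ring
      _ ≤ (p : ℝ) ^ 2 * L ^ 3 * H ^ (On - (mn ∅ - 2)) *
          (2 * ((p : ℝ) - 1) ^ 2 / (3 * p * (4 * p - 1))) := h1
      _ ≤ (p : ℝ) ^ 2 * L ^ 3 * H ^ (p + 1) *
          (2 * ((p : ℝ) - 1) ^ 2 / (3 * p * (4 * p - 1))) := by
          refine mul_le_mul_of_nonneg_right ?_ hX
          exact mul_le_mul_of_nonneg_left h2 (by positivity)
      _ = (p : ℝ) ^ 2 * (L ^ 3 * H ^ (p + 1) *
          (2 * ((p : ℝ) - 1) ^ 2 / (3 * p * (4 * p - 1)))) := by ring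
      _ ≤ (p : ℝ) ^ 2 * 1 := mul_le_mul_of_nonneg_left h3 (by positivity)
  exact le_of_mul_le_mul_left h4 (by positivity)

end

/-- the inequality for at least two tops, nothing over-full -/
theorem no2 {p : ℕ} (hp : 2 ≤ p) : NO2 p := by
  intro V _ K m b σ h hint hK hw ha hσ hσp hc hpal hb0 hb hbs
  have hp2 : (2 : ℝ) ≤ p := by exact_mod_cast hp
  have hp0 : (0 : ℝ) < p := by linarith
  have hσ2 : (2 : ℝ) ≤ σ := by exact_mod_cast hσ
  have hσpr : (σ : ℝ) ≤ p := by exact_mod_cast hσp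
  have hc0 : 0 ≤ m ∅ := h.1 ∅
  have hF := (Ival_pos h K).le
  have hy : ∀ j ∈ K, 0 < m {j} + m ∅ := fun j hj => by linarith [hw j hj]
  have hS : 0 ≤ ∑ j ∈ K, b j / (m {j} + m ∅) := sum_nonneg fun j hj =>
    div_nonneg (hb0 j hj) (hy j hj).le
  have hpw : (p : ℝ) ^ (K.card - 2) = p * p ^ (K.card - 3) := by
    rw [← pow_succ']
    congr 1
    omega
  rcases le_or_gt (po m K) (m ∅ + p - 1) with hE | hE
  · have h1 := gw_small h hint (by omega) hp hw ha (by linarith) hpal hE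
    rw [hpw] at h1
    have h2 : (p : ℝ) ^ (K.card - 3) * (((p : ℝ) + 1 - σ) * Ival m K) ≤
        p * p ^ (K.card - 3) * Ival m K := by
      have h3 : 0 ≤ (p : ℝ) ^ (K.card - 3) * Ival m K := by positivity
      nlinarith
    linarith
  · -- large overlaps
    obtain ⟨Op, hOp⟩ := po_int hint K
    obtain ⟨c, hcn⟩ := hint ∅
    have hE' : m ∅ + p ≤ po m K := by
      rw [hOp, hcn] at hE ⊢
      have h1 : (c : ℝ) + p < Op + 1 := by linarith
      have h2 : c + p < Op + 1 := by exact_mod_cast h1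
      exact_mod_cast (by omega : c + p ≤ Op)
    have hQ : pal m K - ((K.card : ℝ) - 2) * p = 1 := by
      rw [hpal]
      ring
    have hpot := potP h (by omega) hp0 ha (by rw [hQ]; norm_num)
    rw [hQ, mul_one] at hpot
    set u : ℝ := σ - 1 with hu
    set κ : ℝ := (p - u) / p with hκ
    set f : ℝ := (p + 1 + m ∅ - (2 - σ)) / (p * (1 + m ∅)) with hf
    have hD : 0 < (p : ℝ) * (1 + m ∅) := by positivity
    have hu1 : 1 ≤ u := by linarith
    have hup : u + 1 ≤ p := by linarith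
    have huc : u + 1 ≤ m ∅ := by linarith
    have hκ0 : 0 ≤ κ := div_nonneg (by linarith) hp0.le
    have hf0 : 0 ≤ f := div_nonneg (by linarith) hD.le
    have hfe : f = (p + m ∅ + u) / (p * (1 + m ∅)) := by
      rw [hf, hu]
      congr 1
      ring
    have hκf : κ * f ≤ 1 := by
      rw [hfe, hκ, div_mul_div_comm, div_le_one (by positivity)]
      nlinarith [mul_nonneg hc0 hp0.le, mul_nonneg hc0 (mul_nonneg hp0.le hp0.le), mul_nonneg hc0
        (by linarith : (0 : ℝ) ≤ u), mul_nonneg (by linarith : (0 : ℝ) ≤ u)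
        (by linarith : (0 : ℝ) ≤ u), mul_nonneg hc0 (mul_nonneg hp0.le (by linarith :
        (0 : ℝ) ≤ p - 1))]
    have hfp : 1 / p ≤ f := by
      rw [hfe, div_le_div_iff₀ hp0 hD]
      nlinarith
    have hl := lin_pot' K (p := p) (c := m ∅) (T := 2 + pt m K / p) (f := f) (κ := κ)
      (a := 2 - σ) (fun j => m {j}) (fun j => pom m K j) b hc0 hw
      (fun j hj => (le_pa h.1 hj).trans (ha j hj)) (fun j _ => pom_nonneg h.1 j) hb0 hb hκ0 hκf
      (fun x hx => fac_gen hp0 hc0 (by linarith) hx) hf0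
    have hfree := sum_free (m := m) (K := K) (p : ℝ)
    have hpo := po_eq (m := m) (K := K)
    have hN0 := pN_nonneg (K := K) h.1
    have hT0 : 0 ≤ pt m K := pt_nonneg h.1
    rw [hfree, hpal] at hl
    -- the final inequality
    have hfin : κ * (2 + pt m K / p) + κ * f * ((K.card : ℝ) * p -
        (((K.card : ℝ) - 2) * p + 1) + m ∅ + pN m K) ≤ p + m ∅ + ∑ j ∈ K, b j := by
      have h1 : pt m K / p ≤ f * pt m K := by
        rw [div_eq_mul_one_div, mul_comm]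
        exact mul_le_mul_of_nonneg_right hfp hT0
      have h2 : κ * (2 + pt m K / p) ≤ κ * (2 + f * pt m K) :=
        mul_le_mul_of_nonneg_left (by linarith) hκ0
      have h3 : κ * (2 + f * pt m K) + κ * f * ((K.card : ℝ) * p -
          (((K.card : ℝ) - 2) * p + 1) + m ∅ + pN m K) =
          κ * (2 + f * (3 * p - 1 + 2 * m ∅)) + κ * f * (po m K - m ∅ - p) := by
        rw [hpo]
        ring
      have h4 : κ * f * (po m K - m ∅ - p) ≤ po m K - m ∅ - p := by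
        have := mul_le_mul_of_nonneg_right hκf (by linarith : 0 ≤ po m K - m ∅ - p)
        linarith
      have h5 : κ * (2 + f * (3 * p - 1 + 2 * m ∅)) ≤ 2 * p + m ∅ + 2 - u := by
        have h6 : κ * (2 + f * (3 * p - 1 + 2 * m ∅)) =
            (p - u) * (2 * p * (1 + m ∅) + (p + m ∅ + u) * (3 * p - 1 + 2 * m ∅)) /
              (p ^ 2 * (1 + m ∅)) := by
          rw [hfe, hκ]
          field_simp
        rw [h6, div_le_iff₀ (by positivity)]
        have := no2_poly (p := (p : ℝ)) hu1 huc hup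
        linarith
      linarith
    have h1 := mul_le_mul_of_nonneg_left hpot hκ0
    have h2 : κ * ((p + m ∅) * ((p : ℝ) ^ (K.card - 2) * Ival m K)) ≤
        (p + m ∅) * (1 + ∑ j ∈ K, b j / (m {j} + m ∅)) := by
      refine h1.trans ?_
      refine hl.trans ?_
      linarith
    have h3 : κ * ((p + m ∅) * ((p : ℝ) ^ (K.card - 2) * Ival m K)) =
        (p + m ∅) * ((p : ℝ) ^ (K.card - 3) * (((p : ℝ) + 1 - σ) * Ival m K)) := by
      rw [hpw, hκ, hu]
      field_simp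
      ring
    rw [h3] at h2
    exact le_of_mul_le_mul_left h2 (by linarith)

end MP76b19e.Rob
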