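import Pool.Agent.Lib.MP76b19e.Rob.PtB
import Pool.Agent.Lib.MP76b19e.Rob.NO2

/-!
# `ν + 1` tops, small `h`, from the potential (problem MP_76b19e_co)

`kst_d1s`: `|T| = ν + 1`, `2 ≤ ν`, `h ≤ 2 (p - 1)`.
-/

set_option autoImplicit false

open Finset

namespace MP76b19e.Rob

variable {V : Type} [DecidableEq V] {m : Finset V → ℝ}

/-- the private masses of the tops -/
theorem sum_tops_lt (h : PosM m) {K T : Finset V} (hT : T ⊆ K) {α : ℝ}
    (hV : 0 < α * Ival m K - ∑ t ∈ T, Ival m (K.erase t)) : ∑ t ∈ T, m {t} < α := by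
  have hI := Ival_pos h K
  have h1 : (∑ t ∈ T, m {t}) * Ival m K ≤ ∑ t ∈ T, Ival m (K.erase t) := by
    rw [sum_mul]
    exact sum_le_sum fun t ht => mul_Ival_le_erase h (hT ht)
  exact lt_of_mul_lt_mul_right (lt_of_le_of_lt h1 (by linarith)) hI.le

omit [DecidableEq V] in
/-- the mass above `p` -/
theorem heavy_le {T : Finset V} {w : V → ℝ} {p h : ℝ} {μ : ℕ} (hp : 0 ≤ p) (hh : 0 ≤ h)
    (hw0 : ∀ t ∈ T, 0 ≤ w t) (hw : ∀ t ∈ T, w t ≤ p + h)
    (hs : ∑ t ∈ T, w t ≤ ((μ : ℝ) + 1) * p + μ * h) :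
    ∑ t ∈ T.filter (fun t => p < w t), (w t - p) ≤ μ * h := by
  set F := T.filter (fun t => p < w t) with hF
  have hFT : F ⊆ T := filter_subset _ _
  rcases Nat.lt_or_ge μ F.card with h1 | h1
  · have h2 : ∑ t ∈ F, w t ≤ ∑ t ∈ T, w t :=
      sum_le_sum_of_subset_of_nonneg hFT fun t ht _ => hw0 t ht
    rw [sum_sub_distrib, sum_const, nsmul_eq_mul]
    have h3 : (μ : ℝ) + 1 ≤ F.card := by exact_mod_cast h1
    have h4 := mul_le_mul_of_nonneg_right h3 hp
    linarith
  · have h2 : ∑ t ∈ F, (w t - p) ≤ F.card • h :=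
      sum_le_card_nsmul _ _ _ fun t ht => by linarith [hw t (hFT ht)]
    rw [nsmul_eq_mul] at h2
    have h3 : (F.card : ℝ) ≤ μ := by exact_mod_cast h1
    exact h2.trans (mul_le_mul_of_nonneg_right h3 hh)

/-- the final comparison with heavy elements: general form -/
theorem fin_heavy (h : PosM m) {K T : Finset V} {b : V → ℝ} {p hh κ a X Y : ℝ} (hT : T ⊆ K)
    (hp : 1 ≤ p) (hh0 : 0 ≤ hh) (hw1 : ∀ j ∈ K, 1 ≤ m {j})
    (hwL : ∀ j ∈ K, j ∉ T → m {j} ≤ p) (hwT : ∀ t ∈ T, m {t} ≤ p + hh)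
    (hb0 : ∀ j ∈ K, 0 ≤ b j) (hb : ∀ j ∈ K, a + pom m K j - (m {j} + m ∅) ≤ b j)
    (hκ : 0 ≤ κ) (ha : a ≤ p)
    (hκf : κ * (p + 1 + m ∅ - a) ≤ p * (1 + m ∅))
    (hW : ∑ t ∈ T.filter (fun t => p < m {t}), (m {t} - p) ≤ X)
    (hfin : κ * (2 + pt m K / p) + κ * ((p + 1 + m ∅ - a) / (p * (1 + m ∅))) *
      ((K.card : ℝ) * p - pal m K + m ∅ + pN m K + X) ≤
        p + m ∅ + (p + m ∅) / (p + hh + m ∅) * Y) (hY : Y ≤ ∑ j ∈ K, b j) :
    κ * (2 + pt m K / p + ∑ j ∈ K, (1 + pom m K j / p) *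
      (max 0 (p - m {j}) / (m {j} + m ∅))) ≤
        (p + m ∅) * (1 + ∑ j ∈ K, b j / (m {j} + m ∅)) := by
  have hc0 : 0 ≤ m ∅ := h.1 ∅
  have hp0 : 0 < p := by linarith
  have hD : 0 < p * (1 + m ∅) := by positivity
  set f : ℝ := (p + 1 + m ∅ - a) / (p * (1 + m ∅)) with hf
  have hf0 : 0 ≤ f := div_nonneg (by linarith) hD.le
  set F := T.filter (fun t => p < m {t}) with hF
  have hFT : F ⊆ T := filter_subset _ _
  have hFK : F ⊆ K := hFT.trans hT
  set G := K \ F with hG
  have hGK : G ⊆ K := sdiff_subset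
  have hGp : ∀ j ∈ G, m {j} ≤ p := by
    intro j hj
    rw [hG, mem_sdiff] at hj
    by_cases h1 : j ∈ T
    · by_contra hcon
      push Not at hcon
      exact hj.2 (mem_filter.2 ⟨h1, hcon⟩)
    · exact hwL j hj.1 h1
  have hl := lin_pot' G (p := p) (c := m ∅) (T := 2 + pt m K / p) (f := f) (κ := κ)
      (a := a) (fun j => m {j}) (fun j => pom m K j) b hc0 (fun j hj => hw1 j (hGK hj))
      hGp (fun j _ => pom_nonneg h.1 j) (fun j hj => hb0 j (hGK hj)) (fun j hj => hb j (hGK hj))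
      hκ (by rw [hf, ← mul_div_assoc, div_le_one hD]; exact hκf)
      (fun x hx => fac_gen hp0 hc0 ha hx) hf0
  -- the heavy elements have no term
  have e1 : ∑ j ∈ K, (1 + pom m K j / p) * (max 0 (p - m {j}) / (m {j} + m ∅)) =
      ∑ j ∈ G, (1 + pom m K j / p) * ((p - m {j}) / (m {j} + m ∅)) := by
    rw [← sum_sdiff hFK]
    have h1 : ∑ j ∈ F, (1 + pom m K j / p) * (max 0 (p - m {j}) / (m {j} + m ∅)) = 0 := by
      refine sum_eq_zero fun j hj => ?_
      have h2 := (mem_filter.1 hj).2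
      rw [max_eq_left (by linarith), zero_div, mul_zero]
    rw [h1, add_zero]
    refine sum_congr rfl fun j hj => ?_
    rw [max_eq_right (by linarith [hGp j hj])]
  have e2 : ∑ j ∈ G, (p - m {j}) = (K.card : ℝ) * p - pal m K + m ∅ + pN m K +
      ∑ t ∈ F, (m {t} - p) := by
    rw [← sum_free (m := m) (K := K) p, ← sum_sdiff hFK, add_assoc, ← sum_add_distrib]
    have h1 : ∑ x ∈ F, (p - m {x} + (m {x} - p)) = 0 := sum_eq_zero fun x _ => by ring
    rw [h1, add_zero]
  have e3 : ∑ j ∈ K, b j / (m {j} + m ∅) = ∑ j ∈ G, b j / (m {j} + m ∅) +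
      ∑ j ∈ F, b j / (m {j} + m ∅) := (sum_sdiff hFK).symm
  have e4 : ∑ j ∈ K, b j = ∑ j ∈ G, b j + ∑ j ∈ F, b j := (sum_sdiff hFK).symm
  set θ : ℝ := (p + m ∅) / (p + hh + m ∅) with hθ
  have hθ0 : 0 ≤ θ := by positivity
  have hθ1 : θ ≤ 1 := by
    rw [hθ, div_le_one (by positivity)]
    linarith
  have e5 : θ * ∑ j ∈ F, b j ≤ (p + m ∅) * ∑ j ∈ F, b j / (m {j} + m ∅) := by
    rw [mul_sum, mul_sum]
    refine sum_le_sum fun j hj => ?_
    have h1 := hwT j (hFT hj)
    have h2 := hw1 j (hFK hj)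
    have h3 := hb0 j (hFK hj)
    have hy0 : 0 < m {j} + m ∅ := by linarith
    rw [hθ, div_mul_eq_mul_div, ← mul_div_assoc]
    exact div_le_div_of_nonneg_left (by positivity) hy0 (by linarith)
  have hbG : 0 ≤ ∑ j ∈ G, b j := sum_nonneg fun j hj => hb0 j (hGK hj)
  have e6 : θ * ∑ j ∈ G, b j ≤ ∑ j ∈ G, b j := by
    have := mul_le_mul_of_nonneg_right hθ1 hbG
    linarith
  have e7 : θ * Y ≤ θ * ∑ j ∈ G, b j + θ * ∑ j ∈ F, b j := by
    rw [← mul_add, ← e4]
    exact mul_le_mul_of_nonneg_left hY hθ0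
  rw [e1, e3]
  refine hl.trans ?_
  rw [e2]
  have e8 : κ * f * ((K.card : ℝ) * p - pal m K + m ∅ + pN m K + ∑ t ∈ F, (m {t} - p)) ≤
      κ * f * ((K.card : ℝ) * p - pal m K + m ∅ + pN m K + X) :=
    mul_le_mul_of_nonneg_left (by linarith) (mul_nonneg hκ hf0)
  rw [mul_add, mul_add]
  linarith

/-- `ν + 1` tops, small `h` -/
theorem kst_d1s {K T : Finset V} {b : V → ℝ} {p h ν : ℕ} (hk : KS K T m b p h ν)
    (hc : T.card = ν + 1) (hν : 2 ≤ ν) (hh : h + 2 ≤ 2 * p)
    (hV : 0 < ((ν : ℝ) * p + ((ν : ℝ) - 1) * h + 1) * Ival m K - ∑ t ∈ T, Ival m (K.erase t)) :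
    (p : ℝ) ^ (K.card - 3) *
        (((ν : ℝ) * p + ((ν : ℝ) - 1) * h + 1) * Ival m K - ∑ t ∈ T, Ival m (K.erase t)) ≤
      p * (1 + ∑ j ∈ K, b j / (m {j} + m ∅)) := by
  have hpos := hk.pos
  have hp2 : (2 : ℝ) ≤ p := by exact_mod_cast hk.p2
  have hh1 : (1 : ℝ) ≤ h := by exact_mod_cast hk.h1
  have hp0 : (0 : ℝ) < p := by linarith
  have hK2 := hk.Kc
  obtain ⟨μ, rfl⟩ : ∃ μ, ν = μ + 1 := ⟨ν - 1, by omega⟩
  have hμ1 : 1 ≤ μ := by omega
  have hμr : (1 : ℝ) ≤ μ := by exact_mod_cast hμ1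
  have hcr : (T.card : ℝ) = μ + 2 := by rw [hc]; push_cast; ring
  have hhr : (h : ℝ) + 2 ≤ 2 * p := by exact_mod_cast hh
  have hpal := hk.palK
  have hbase := hk.base
  have hbL := hk.bL
  have hbT := hk.bT
  have hbs := hk.bsum
  rw [hcr] at hbase hbs
  push_cast at hpal hbase hbs hV ⊢
  have hc2 : 2 ≤ m ∅ := by linarith
  have hα : ((μ : ℝ) + 1) * p + ((μ : ℝ) + 1 - 1) * h + 1 = μ * (p + h) + (p + 1) := by ring
  rw [hα] at hV ⊢
  have hvv : (μ * (p + h) + (p + 1)) * Ival m K - ∑ t ∈ T, Ival m (K.erase t) =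
      vv m K T (μ * (p + h) + (p + 1)) := rfl
  have hsT := sum_tops_lt hpos hk.TK hV
  rw [hvv]
  -- the potential
  have hpot : (p + m ∅) * ((p : ℝ) ^ (K.card - 2) * vv m K T (μ * (p + h) + (p + 1))) ≤
      p * (2 + pt m K / p + ∑ j ∈ K, (1 + pom m K j / p) *
        (max 0 (p - m {j}) / (m {j} + m ∅))) := by
    rcases Nat.lt_or_ge 1 h with h2 | h2
    · -- `2 ≤ h`
      have h2r : (2 : ℝ) ≤ h := by exact_mod_cast h2
      refine ptpP hpos hk.TK (by omega) (hh := (h : ℝ)) (x := 1) (a := p + 1) (μ := μ) (k := 2)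
        (by linarith) (by linarith) one_pos hk.paL hk.paT (fun t ht => hk.one t (hk.TK ht))
        (by rw [hpal]; ring) le_rfl (Or.inr (by omega)) hp0.le (by push_cast; linarith) ?_
      push_cast
      have h3 : (p : ℝ) + h ≤ p * h := by nlinarith
      have h4 := mul_le_mul_of_nonneg_left h3 (by linarith : (0 : ℝ) ≤ μ)
      nlinarith
    · -- `h = 1`
      have h1 : h = 1 := by have := hk.h1; omega
      subst h1
      push_cast at *
      refine scaleP hpos hk.TK (by omega) hp0 fun hg0 hg1 h' => ?_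
      have hpQ : pQ (fun D => m D / (p : ℝ)) K = (μ + 1) / p := by
        have hpal' : pal (fun D => m D / (p : ℝ)) K = pal m K / p := by
          unfold pal
          rw [sum_div]
        unfold pQ
        rw [hpal', hpal]
        field_simp
        ring
      have hφ := phg_nonneg h' hg0 K
      have h3 := ptb h' hg0 hg1 (H := 1 / (p : ℝ)) (w := 1 / (p : ℝ)) (x0 := 1 / (p : ℝ))
        (by positivity) (by rw [div_le_one hp0]; linarith) (by positivity) K.card K T
        ((μ * (p + 1) + (p + 1)) / (p : ℝ)) le_rfl hk.TK (by omega)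
        (fun l hl hl2 => by rw [pa_scale, div_le_one hp0]; exact hk.paL l hl hl2)
        (fun t ht => by
          rw [pa_scale, div_le_iff₀ hp0, add_mul, div_mul_cancel₀ _ hp0.ne']
          have := hk.paT t ht
          push_cast at this
          linarith)
        (fun t ht => div_le_div_of_nonneg_right (hk.one t (hk.TK ht)) hp0.le)
        (by rw [hpQ]; positivity)
        (by
          rw [hpQ, hcr]
          refine le_of_eq ?_
          field_simp
          ring)
        (by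
          rw [hpQ, hcr]
          have e1 : 1 / (p : ℝ) * (μ + 2 - 1 - (μ + 2) * (1 / p)) =
              (p * (μ + 1) - (μ + 2)) / (p ^ 2) := by
            field_simp
            ring
          have e2 : ((μ : ℝ) + 1) / p * (1 - 1 / p) = ((μ + 1) * (p - 1)) / (p ^ 2) := by
            field_simp
          rw [e1, e2]
          exact div_le_div_of_nonneg_right (by linarith) (by positivity))
        (by
          rw [hpQ, hcr]
          refine le_of_eq ?_
          field_simp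
          ring)
      refine h3.trans ?_
      refine mul_le_mul_of_nonneg_right ?_ hφ
      rw [hpQ, hcr, div_le_iff₀ (by positivity)]
      refine max_le (by positivity) ?_
      have e3 : (μ * (p + 1) + (p + 1)) / (p : ℝ) - (μ + 2) * (1 / p) =
          (μ * (p + 1) + (p + 1) - (μ + 2)) / p := by
        field_simp
      rw [e3, mul_div_assoc']
      exact div_le_div_of_nonneg_right (by nlinarith) hp0.le
  -- the comparison
  have hb0 : ∀ j ∈ K, 0 ≤ b j := fun j _ => by
    obtain ⟨k, hkb⟩ := hk.bint j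
    rw [hkb]
    exact Nat.cast_nonneg _
  have hbs0 : 0 ≤ ∑ j ∈ K, b j := sum_nonneg hb0
  have hs' : ∑ t ∈ T, m {t} ≤ ((μ : ℝ) + 1) * p + μ * h := by
    obtain ⟨k, hkk⟩ := sum_int T (fun t => m {t}) fun t _ => hk.int {t}
    rw [hkk] at hsT ⊢
    have h1 : (k : ℝ) < ((μ * (p + h) + (p + 1) : ℕ) : ℝ) := by
      push_cast
      exact hsT
    have h2 : k < μ * (p + h) + (p + 1) := by exact_mod_cast h1
    have h3 : (k : ℝ) + 1 ≤ μ * (p + h) + (p + 1) := by exact_mod_cast h2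
    nlinarith
  have hW := heavy_le (T := T) (w := fun t => m {t}) (μ := μ) hp0.le (by linarith : (0 : ℝ) ≤ h)
    (fun t _ => hpos.1 _) (fun t ht => (le_pa hpos.1 (hk.TK ht)).trans (hk.paT t ht)) hs'
  set c : ℝ := m ∅ with hcdef
  set A : ℝ := p + c + h with hA
  have hA0 : 0 < A := by positivity
  have hpc : (p : ℝ) + 1 + c - (1 - h) = A := by rw [hA]; ring
  have hA1 : A ≤ p * (1 + c) := by
    have h5 : (0 : ℝ) ≤ ((p : ℝ) - 1) * (c - 2) := mul_nonneg (by linarith) (by linarith)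
    nlinarith
  have hA2 : A ≤ p * (p + c) := by
    have h5 : (0 : ℝ) ≤ ((p : ℝ) - 1) * (c - 2) := mul_nonneg (by linarith) (by linarith)
    nlinarith
  have hD : (0 : ℝ) < p * (1 + c) := by positivity
  have hfin := fin_heavy (K := K) (T := T) (b := b) (p := (p : ℝ)) (hh := (h : ℝ))
    (κ := 1 / (p : ℝ)) (a := 1 - h) (X := μ * h) (Y := max 0 (1 + po m K - c)) hpos hk.TK
    (by linarith) (by linarith) hk.one
    (fun j hj hj2 => (le_pa hpos.1 hj).trans (hk.paL j hj hj2))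
    (fun t ht => (le_pa hpos.1 (hk.TK ht)).trans (hk.paT t ht)) hb0
    (fun j hj => by
      by_cases hjT : j ∈ T
      · have h1 := hbT j hjT
        rw [hcr] at h1
        push_cast at h1
        linarith
      · have h1 := hbL j hj hjT
        rw [hcr] at h1
        push_cast at h1
        linarith)
    (by positivity) (by linarith)
    (by
      rw [← hcdef, hpc, one_div_mul_eq_div, div_le_iff₀ hp0]
      nlinarith)
    hW
    (by
      rw [← hcdef, hpc, hpal]
      set f : ℝ := A / (p * (1 + c)) with hf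
      set θ : ℝ := (p + c) / (p + h + c) with hθ
      have hf0 : 0 ≤ f := by positivity
      have hθ0 : 0 ≤ θ := by positivity
      have hκf0 : 0 ≤ 1 / (p : ℝ) * f := by positivity
      have hfp : 1 / (p : ℝ) ≤ f := by
        rw [hf, div_le_div_iff₀ hp0 hD, one_mul]
        nlinarith
      have hpt := pt_nonneg (K := K) hpos.1
      have h1 : pt m K / p ≤ f * pt m K := by
        rw [div_eq_mul_one_div, mul_comm]
        exact mul_le_mul_of_nonneg_right hfp hpt
      have h2 : 1 / (p : ℝ) * (2 + pt m K / p) ≤ 1 / (p : ℝ) * (2 + f * pt m K) :=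
        mul_le_mul_of_nonneg_left (by linarith) (by positivity)
      have hpo := po_eq (m := m) (K := K)
      have h3 : 1 / (p : ℝ) * (2 + f * pt m K) + 1 / (p : ℝ) * f *
          ((K.card : ℝ) * p - (((K.card : ℝ) - 2) * p + ((μ : ℝ) + 1 - 1) * h + 1) + c +
            pN m K + μ * h) = 1 / (p : ℝ) * (2 + f * (2 * (p + c - 1))) +
              1 / (p : ℝ) * f * (1 + po m K - c) := by
        rw [hpo]
        ring
      have h4 : f ≤ 1 := by rw [hf, div_le_one hD]; exact hA1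
      have h5 : 1 / (p : ℝ) * (2 + f * (2 * (p + c - 1))) ≤ p + c := by
        have h6 : f * (2 * (p + c - 1)) ≤ 1 * (2 * (p + c - 1)) :=
          mul_le_mul_of_nonneg_right h4 (by linarith)
        rw [one_div_mul_eq_div, div_le_iff₀ hp0]
        nlinarith
      have h6 : 1 / (p : ℝ) * f ≤ θ := by
        rw [hf, hθ, div_mul_div_comm, one_mul, div_le_div_iff₀ (by positivity) (by positivity)]
        have e1 : (p : ℝ) + h + c = A := by rw [hA]; ring
        rw [e1]
        calc A * A ≤ (p * (1 + c)) * (p * (p + c)) :=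
              mul_le_mul hA1 hA2 hA0.le (by positivity)
          _ = (p + c) * (p * (p * (1 + c))) := by ring
      have h7 : 1 / (p : ℝ) * f * (1 + po m K - c) ≤ θ * max 0 (1 + po m K - c) :=
        (mul_le_mul_of_nonneg_left (le_max_right _ _) hκf0).trans
          (mul_le_mul_of_nonneg_right h6 (le_max_left _ _))
      linarith)
    (max_le hbs0 (by linarith))
  rw [← hcdef] at hfin
  -- conclusion
  have h1 : (p + c) * ((p : ℝ) ^ (K.card - 2) * vv m K T (μ * (p + h) + (p + 1))) ≤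
      p ^ 2 * ((p + c) * (1 + ∑ j ∈ K, b j / (m {j} + c))) := by
    refine hpot.trans ?_
    have h2 := mul_le_mul_of_nonneg_left hfin (by positivity : (0 : ℝ) ≤ p ^ 2)
    refine le_trans (le_of_eq ?_) h2
    field_simp
  have h3 : (p : ℝ) ^ (K.card - 2) = p ^ (K.card - 3) * p := by
    rw [← pow_succ]
    congr 1
    omega
  rw [h3] at h1
  have h4 : (p * (p + c)) * ((p : ℝ) ^ (K.card - 3) * vv m K T (μ * (p + h) + (p + 1))) ≤
      (p * (p + c)) * (p * (1 + ∑ j ∈ K, b j / (m {j} + c))) := by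
    refine le_trans (le_of_eq ?_) (h1.trans (le_of_eq ?_))
    · ring
    · ring
  exact le_of_mul_le_mul_left h4 (by positivity)

end MP76b19e.Rob
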