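import Pool.Agent.Lib.MP76b19e.Rob.KW

/-!
# Free composition of the set of the last elements (problem MP_76b19e_co)

`A`, `B` are disjoint and no mass meets both. Then `Ival m (A ∪ B) = Ival m A * Ival m B` can be
split by the last `a` elements of `A` and the last `b` elements of `B`, for any numbers `a`, `b`.
-/

set_option autoImplicit false

open Finset

namespace MP76b19e.Rob

variable {V : Type} [DecidableEq V]

/-- no mass meets both `A` and `B` and there is no base -/
def Sep (m : Finset V → ℝ) (A B : Finset V) : Prop :=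
  m ∅ = 0 ∧ ∀ D ⊆ A ∪ B, (D ∩ A).Nonempty → (D ∩ B).Nonempty → m D = 0

theorem Sep.union {m : Finset V → ℝ} (h : PosM m) {A B : Finset V} (hAB : Disjoint A B)
    (hs : Sep m A B) : Ival m (A ∪ B) = Ival m A * Ival m B := by
  refine Ival_union h hAB ?_ hs.1
  intro D hD hD0
  refine ⟨fun h0 => hD0 (by rw [h0]; exact hs.1), ?_⟩
  by_contra hcon
  push Not at hcon
  obtain ⟨x, hx, hxA⟩ := not_subset.1 hcon.1
  obtain ⟨y, hy, hyB⟩ := not_subset.1 hcon.2
  have hxB : x ∈ B := (mem_union.1 (hD hx)).resolve_left hxA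
  have hyA : y ∈ A := (mem_union.1 (hD hy)).resolve_right hyB
  exact hD0 (hs.2 D hD ⟨y, mem_inter.2 ⟨hy, hyA⟩⟩ ⟨x, mem_inter.2 ⟨hx, hxB⟩⟩)

theorem Sep.mono {m : Finset V → ℝ} {A B A' B' : Finset V} (hs : Sep m A B) (hA : A' ⊆ A)
    (hB : B' ⊆ B) : Sep m A' B' :=
  ⟨hs.1, fun D hD h1 h2 => hs.2 D (hD.trans (union_subset_union hA hB))
    (h1.mono (inter_subset_inter_left hA)) (h2.mono (inter_subset_inter_left hB))⟩

/-- the total masses of subsets -/
theorem Sep.pal_union {m : Finset V → ℝ} {A B : Finset V} (hAB : Disjoint A B) (hs : Sep m A B) :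
    pal m (A ∪ B) = pal m A + pal m B := by
  have h1 : pal m A + pal m B = ∑ D ∈ A.powerset ∪ B.powerset, m D +
      ∑ D ∈ A.powerset ∩ B.powerset, m D := (sum_union_inter).symm
  have h2 : ∑ D ∈ A.powerset ∩ B.powerset, m D = 0 := by
    refine sum_eq_zero fun D hD => ?_
    rw [mem_inter, mem_powerset, mem_powerset] at hD
    have h3 : D = ∅ := le_bot_iff.1 (hAB hD.1 hD.2)
    rw [h3, hs.1]
  rw [h1, h2, add_zero]
  unfold MP76b19e.Rob.pal
  refine (sum_subset ?_ ?_).symm
  · exact union_subset (powerset_mono.2 subset_union_left) (powerset_mono.2 subset_union_right)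
  · intro D hD hD'
    rw [mem_union, mem_powerset, mem_powerset, not_or] at hD'
    rw [mem_powerset] at hD
    obtain ⟨x, hx, hxA⟩ := not_subset.1 hD'.1
    obtain ⟨y, hy, hyB⟩ := not_subset.1 hD'.2
    have hxB : x ∈ B := (mem_union.1 (hD hx)).resolve_left hxA
    have hyA : y ∈ A := (mem_union.1 (hD hy)).resolve_right hyB
    exact hs.2 D hD ⟨y, mem_inter.2 ⟨hy, hyA⟩⟩ ⟨x, mem_inter.2 ⟨hx, hxB⟩⟩

/-- free composition: the last `a` elements of `A` and the last `b` elements of `B` -/
theorem Ival_free {m : Finset V → ℝ} (h : PosM m) {A B : Finset V} (hAB : Disjoint A B)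
    (hs : Sep m A B) {a b : ℕ} (ha : a ≤ A.card) (hb : b ≤ B.card) :
    Ival m (A ∪ B) = ∑ S ∈ A.powersetCard a, ∑ S' ∈ B.powersetCard b,
      Ival m (S ∪ S') * (Ival (push m S) (A \ S) * Ival (push m S') (B \ S')) := by
  rw [hs.union h hAB, Ival_expand m A a ha, Ival_expand m B b hb, sum_mul_sum]
  refine sum_congr rfl fun S hS => sum_congr rfl fun S' hS' => ?_
  rw [mem_powersetCard] at hS hS'
  rw [(hs.mono hS.1 hS'.1).union h (hAB.mono hS.1 hS'.1)]
  ring

/-- the same as one sum over the sets `R = S ∪ S'` -/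
theorem Ival_free' {m : Finset V → ℝ} (h : PosM m) {A B : Finset V} (hAB : Disjoint A B)
    (hs : Sep m A B) {a b : ℕ} (ha : a ≤ A.card) (hb : b ≤ B.card) :
    Ival m (A ∪ B) = ∑ R ∈ ((A ∪ B).powersetCard (a + b)).filter (fun R => (R ∩ A).card = a),
      Ival m R * (Ival (push m (R ∩ A)) (A \ R) * Ival (push m (R ∩ B)) (B \ R)) := by
  rw [Ival_free h hAB hs ha hb, ← sum_product']
  refine sum_bij' (fun p _ => p.1 ∪ p.2) (fun R _ => (R ∩ A, R ∩ B)) ?_ ?_ ?_ ?_ ?_
  · rintro ⟨S, S'⟩ hp
    rw [mem_product, mem_powersetCard, mem_powersetCard] at hp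
    obtain ⟨⟨h1, h2⟩, h3, h4⟩ := hp
    have hd : Disjoint S S' := hAB.mono h1 h3
    simp only
    rw [mem_filter, mem_powersetCard]
    refine ⟨⟨union_subset_union h1 h3, by rw [card_union_of_disjoint hd, h2, h4]⟩, ?_⟩
    rw [union_inter_distrib_right, inter_eq_left.2 h1, (disjoint_iff_inter_eq_empty.1
      (hAB.symm.mono_left h3)), union_empty, h2]
  · intro R hR
    rw [mem_filter, mem_powersetCard] at hR
    obtain ⟨⟨h1, h2⟩, h3⟩ := hR
    rw [mem_product, mem_powersetCard, mem_powersetCard]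
    refine ⟨⟨inter_subset_right, h3⟩, inter_subset_right, ?_⟩
    have h4 : R = (R ∩ A) ∪ (R ∩ B) := by
      rw [← inter_union_distrib_left, inter_eq_left.2 h1]
    have h5 : (R ∩ A).card + (R ∩ B).card = a + b := by
      rw [← card_union_of_disjoint (hAB.mono inter_subset_right inter_subset_right), ← h4, h2]
    simp only
    omega
  · rintro ⟨S, S'⟩ hp
    rw [mem_product, mem_powersetCard, mem_powersetCard] at hp
    obtain ⟨⟨h1, h2⟩, h3, h4⟩ := hp
    simp only [Prod.mk.injEq]
    constructor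
    · rw [union_inter_distrib_right, inter_eq_left.2 h1, (disjoint_iff_inter_eq_empty.1
        (hAB.symm.mono_left h3)), union_empty]
    · rw [union_inter_distrib_right, inter_eq_left.2 h3, (disjoint_iff_inter_eq_empty.1
        (hAB.mono_left h1)), empty_union]
  · intro R hR
    rw [mem_filter, mem_powersetCard] at hR
    simp only
    rw [← inter_union_distrib_left, inter_eq_left.2 hR.1.1]
  · rintro ⟨S, S'⟩ hp
    rw [mem_product, mem_powersetCard, mem_powersetCard] at hp
    obtain ⟨⟨h1, h2⟩, h3, h4⟩ := hp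
    have e1 : (S ∪ S') ∩ A = S := by
      rw [union_inter_distrib_right, inter_eq_left.2 h1, (disjoint_iff_inter_eq_empty.1
        (hAB.symm.mono_left h3)), union_empty]
    have e2 : (S ∪ S') ∩ B = S' := by
      rw [union_inter_distrib_right, inter_eq_left.2 h3, (disjoint_iff_inter_eq_empty.1
        (hAB.mono_left h1)), empty_union]
    have e3 : A \ (S ∪ S') = A \ S := by
      ext v
      simp only [mem_sdiff, mem_union, not_or]
      constructor
      · exact fun hv => ⟨hv.1, hv.2.1⟩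
      · exact fun hv => ⟨hv.1, hv.2, fun hv' => disjoint_left.1 hAB hv.1 (h3 hv')⟩
    have e4 : B \ (S ∪ S') = B \ S' := by
      ext v
      simp only [mem_sdiff, mem_union, not_or]
      constructor
      · exact fun hv => ⟨hv.1, hv.2.2⟩
      · exact fun hv => ⟨hv.1, fun hv' => disjoint_left.1 hAB (h1 hv') hv.1, hv.2⟩
    simp only
    rw [e1, e2, e3, e4]

/-- with a product of two functions, each bounded by a convex combination -/
theorem free_le {m : Finset V → ℝ} (h : PosM m) {A B : Finset V} (hAB : Disjoint A B)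
    (hs : Sep m A B) {a b : ℕ} (ha : a ≤ A.card) (hb : b ≤ B.card) {T : ℝ}
    (f : Finset V → ℝ)
    (hf : ∀ S ⊆ A, S.card = a → ∀ S' ⊆ B, S'.card = b →
      T * (Ival (push m S) (A \ S) * Ival (push m S') (B \ S')) ≤ f (S ∪ S')) :
    T * Ival m (A ∪ B) ≤
      ∑ R ∈ ((A ∪ B).powersetCard (a + b)).filter (fun R => (R ∩ A).card = a),
        Ival m R * f R := by
  rw [Ival_free' h hAB hs ha hb, mul_sum]
  refine sum_le_sum fun R hR => ?_
  rw [mem_filter, mem_powersetCard] at hR
  obtain ⟨⟨h1, h2⟩, h3⟩ := hR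
  have h4 : R = (R ∩ A) ∪ (R ∩ B) := by
    rw [← inter_union_distrib_left, inter_eq_left.2 h1]
  have h5 : (R ∩ A).card + (R ∩ B).card = a + b := by
    rw [← card_union_of_disjoint (hAB.mono inter_subset_right inter_subset_right), ← h4, h2]
  have h6 := hf (R ∩ A) inter_subset_right h3 (R ∩ B) inter_subset_right (by omega)
  rw [← h4, sdiff_inter_self_right, sdiff_inter_self_right] at h6
  calc T * (Ival m R * (Ival (push m (R ∩ A)) (A \ R) * Ival (push m (R ∩ B)) (B \ R)))
      = Ival m R * (T * (Ival (push m (R ∩ A)) (A \ R) * Ival (push m (R ∩ B)) (B \ R))) := by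
        ring
    _ ≤ Ival m R * f R := mul_le_mul_of_nonneg_left h6 (Ival_pos h R).le

end MP76b19e.Rob
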