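import Pool.Agent.Lib.MP76b19e.Rob.PermEq

/-!
# Independence of relative orders (problem MP_76b19e_co)

`indep`: if `G` does not change when two elements of `Q` are interchanged and `f` depends only on the
relative order of the elements of `Q`, then `f` and `G` are independent.
-/

set_option autoImplicit false

open Finset

namespace MP76b19e.Rob

variable {V : Type} [Fintype V] [DecidableEq V] {n : ℕ}

omit [Fintype V] [DecidableEq V] in
/-- a permutation of `Q` that changes the relative order of `s'` to that of `s` -/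
theorem exists_reorder (Q : Finset V) (s s' : V ≃ Fin n) :
    ∃ τ : Equiv.Perm {v // v ∈ Q}, ∀ a b : {v // v ∈ Q},
      (s a < s b ↔ s' (τ a).1 < s' (τ b).1) := by
  classical
  have key : ∀ s : V ≃ Fin n, ∃ e : {v // v ∈ Q} ≃ Fin Q.card,
      ∀ a b : {v // v ∈ Q}, (s a < s b ↔ e a < e b) := by
    intro s
    have hc : (Q.map s.toEmbedding).card = Q.card := card_map _
    set o := (Q.map s.toEmbedding).orderIsoOfFin hc with ho
    set g : {v // v ∈ Q} ≃ {v // v ∈ Q.map s.toEmbedding} :=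
      s.subtypeEquiv (fun a => by
        rw [mem_map]
        constructor
        · intro h
          exact ⟨a, h, rfl⟩
        · rintro ⟨b, hb, h⟩
          have : b = a := s.injective h
          rw [← this]
          exact hb) with hg
    refine ⟨g.trans o.symm.toEquiv, fun a b => ?_⟩
    change _ ↔ o.symm (g a) < o.symm (g b)
    rw [OrderIso.lt_iff_lt]
    rfl
  obtain ⟨e, he⟩ := key s
  obtain ⟨e', he'⟩ := key s'
  refine ⟨e.trans e'.symm, fun a b => ?_⟩
  rw [he a b, he' ((e.trans e'.symm) a) ((e.trans e'.symm) b)]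
  simp

/-- the order after a permutation of `Q` -/
def act (Q : Finset V) (σ : Equiv.Perm {v // v ∈ Q}) (s : V ≃ Fin n) : V ≃ Fin n :=
  (Equiv.Perm.ofSubtype σ).trans s

omit [Fintype V] in
theorem act_mem {Q : Finset V} (σ : Equiv.Perm {v // v ∈ Q}) (s : V ≃ Fin n)
    (a : {v // v ∈ Q}) : act Q σ s a = s (σ a).1 := by
  unfold act
  rw [Equiv.trans_apply, Equiv.Perm.ofSubtype_apply_coe]

omit [Fintype V] in
theorem G_act {Q : Finset V} {G : (V ≃ Fin n) → ℝ}
    (hG : ∀ s : V ≃ Fin n, ∀ a ∈ Q, ∀ b ∈ Q, G (sw s a b) = G s)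
    (σ : Equiv.Perm {v // v ∈ Q}) (s : V ≃ Fin n) : G (act Q σ s) = G s := by
  classical
  induction σ using Equiv.Perm.swap_induction_on generalizing s with
  | one =>
    unfold act
    rw [map_one]
    rfl
  | swap_mul f x y _ ih =>
    have h1 : act Q (Equiv.swap x y * f) s = act Q f (sw s x y) := by
      unfold act sw
      rw [map_mul, Equiv.Perm.ofSubtype_swap_eq]
      rfl
    rw [h1, ih, hG s x x.2 y y.2]

/-- the independence of the relative order of `Q` -/
theorem indep (Q : Finset V) (f G : (V ≃ Fin n) → ℝ)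
    (hG : ∀ s : V ≃ Fin n, ∀ a ∈ Q, ∀ b ∈ Q, G (sw s a b) = G s)
    (hf : ∀ s s' : V ≃ Fin n, (∀ a ∈ Q, ∀ b ∈ Q, (s a < s b ↔ s' a < s' b)) → f s = f s') :
    (Fintype.card (V ≃ Fin n) : ℝ) * ∑ s : V ≃ Fin n, f s * G s =
      (∑ s : V ≃ Fin n, f s) * ∑ s : V ≃ Fin n, G s := by
  classical
  set H := Equiv.Perm {v // v ∈ Q}
  -- the action is a bijection
  have hbij : ∀ (σ : H) (g : (V ≃ Fin n) → ℝ),
      ∑ s : V ≃ Fin n, g (act Q σ s) = ∑ s : V ≃ Fin n, g s := by
    intro σ g
    have h1 : Function.Bijective (act Q σ : (V ≃ Fin n) → (V ≃ Fin n)) := by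
      refine Function.bijective_iff_has_inverse.2
        ⟨fun s => (Equiv.Perm.ofSubtype σ).symm.trans s, fun s => ?_, fun s => ?_⟩
      · unfold act
        ext x
        simp
      · unfold act
        ext x
        simp
    exact h1.sum_comp g
  -- the number of rearrangements does not depend on `s`
  have hconst : ∀ s s' : V ≃ Fin n, ∑ σ : H, f (act Q σ s) = ∑ σ : H, f (act Q σ s') := by
    intro s s'
    obtain ⟨τ, hτ⟩ := exists_reorder Q s s'
    rw [← Equiv.sum_comp (Equiv.mulLeft τ) (fun σ : H => f (act Q σ s'))]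
    refine sum_congr rfl fun σ _ => hf _ _ fun a ha b hb => ?_
    have h1 := act_mem σ s ⟨a, ha⟩
    have h2 := act_mem σ s ⟨b, hb⟩
    have h3 := act_mem (τ * σ) s' ⟨a, ha⟩
    have h4 := act_mem (τ * σ) s' ⟨b, hb⟩
    change act Q σ s a < act Q σ s b ↔ act Q (τ * σ) s' a < act Q (τ * σ) s' b
    change act Q σ s a = _ at h1
    change act Q σ s b = _ at h2
    change act Q (τ * σ) s' a = _ at h3
    change act Q (τ * σ) s' b = _ at h4
    rw [h1, h2, h3, h4]
    exact hτ (σ ⟨a, ha⟩) (σ ⟨b, hb⟩)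
  rcases isEmpty_or_nonempty (V ≃ Fin n) with he | ⟨⟨s0⟩⟩
  · simp
  set c := ∑ σ : H, f (act Q σ s0) with hc
  have hH : (0 : ℝ) < (Fintype.card H : ℝ) := by exact_mod_cast Fintype.card_pos
  have e1 : ∀ g : (V ≃ Fin n) → ℝ, (∀ s : V ≃ Fin n, ∀ a ∈ Q, ∀ b ∈ Q, g (sw s a b) = g s) →
      (Fintype.card H : ℝ) * ∑ s : V ≃ Fin n, f s * g s = c * ∑ s : V ≃ Fin n, g s := by
    intro g hg
    calc (Fintype.card H : ℝ) * ∑ s : V ≃ Fin n, f s * g s
        = ∑ σ : H, ∑ s : V ≃ Fin n, f s * g s := by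
          rw [sum_const, card_univ, nsmul_eq_mul]
      _ = ∑ σ : H, ∑ s : V ≃ Fin n, f (act Q σ s) * g s := by
          refine sum_congr rfl fun σ _ => ?_
          rw [← hbij σ (fun s => f s * g s)]
          refine sum_congr rfl fun s _ => ?_
          rw [G_act hg]
      _ = ∑ s : V ≃ Fin n, (∑ σ : H, f (act Q σ s)) * g s := by
          rw [sum_comm]
          refine sum_congr rfl fun s _ => ?_
          rw [sum_mul]
      _ = ∑ s : V ≃ Fin n, c * g s := by
          refine sum_congr rfl fun s _ => ?_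
          rw [hconst s s0]
      _ = c * ∑ s : V ≃ Fin n, g s := by rw [mul_sum]
  have e2 := e1 G hG
  have e3 := e1 (fun _ => 1) (fun _ _ _ _ _ => rfl)
  simp only [mul_one] at e3
  rw [sum_const, card_univ, nsmul_eq_mul, mul_one] at e3
  refine mul_left_cancel₀ hH.ne' ?_
  calc (Fintype.card H : ℝ) * ((Fintype.card (V ≃ Fin n) : ℝ) * ∑ s : V ≃ Fin n, f s * G s)
      = (Fintype.card (V ≃ Fin n) : ℝ) *
          ((Fintype.card H : ℝ) * ∑ s : V ≃ Fin n, f s * G s) := by ring
    _ = (Fintype.card (V ≃ Fin n) : ℝ) * (c * ∑ s : V ≃ Fin n, G s) := by rw [e2]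
    _ = (c * (Fintype.card (V ≃ Fin n) : ℝ)) * ∑ s : V ≃ Fin n, G s := by ring
    _ = ((Fintype.card H : ℝ) * ∑ s : V ≃ Fin n, f s) * ∑ s : V ≃ Fin n, G s := by rw [e3]
    _ = _ := by ring

end MP76b19e.Rob
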