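import Pool.Agent.Lib.MP76b19e.Rob.Perm

/-!
# The recursion `Ival` (problem MP_76b19e_co)

`Ival m K = ∫ exp(-∑_{∅ ≠ D ⊆ K} m D min_{k ∈ D} t_k - m ∅ max_K t) dt`. Basic properties, proved from
the recursion: products, monotonicity, the exact mode, log-convexity (`Ival_holder`).
-/

set_option autoImplicit false

open Finset

namespace MP76b19e.Rob

variable {V : Type} [DecidableEq V]

/-- all denominators are positive -/
def PosM (m : Finset V → ℝ) : Prop := (∀ D, 0 ≤ m D) ∧ ∀ k, 0 < m {k}

theorem PosM.sum_pos {m : Finset V → ℝ} (h : PosM m) {K : Finset V} (hK : K.Nonempty) :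
    0 < ∑ D ∈ K.powerset, m D := by
  obtain ⟨k, hk⟩ := hK
  refine lt_of_lt_of_le (h.2 k) ?_
  exact single_le_sum (f := m) (fun D _ => h.1 D)
    (mem_powerset.2 (singleton_subset_iff.2 hk))

theorem Ival_pos {m : Finset V → ℝ} (h : PosM m) (K : Finset V) : 0 < Ival m K := by
  induction hc : K.card using Nat.strong_induction_on generalizing K with
  | _ c ih =>
    rcases K.eq_empty_or_nonempty with h0 | h0
    · rw [h0, Ival_empty]
      exact zero_lt_one
    · rw [Ival_eq m h0]
      refine div_pos (sum_pos (fun k hk => ?_) h0) (h.sum_pos h0)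
      exact ih _ (by rw [← hc]; exact card_erase_lt_of_mem hk) _ rfl

theorem Ival_congr {m m' : Finset V → ℝ} {K : Finset V} (h : ∀ D ⊆ K, m D = m' D) :
    Ival m K = Ival m' K := by
  induction hc : K.card using Nat.strong_induction_on generalizing K with
  | _ c ih =>
    rcases K.eq_empty_or_nonempty with h0 | h0
    · rw [h0, Ival_empty, Ival_empty]
    · rw [Ival_eq m h0, Ival_eq m' h0]
      congr 1
      · refine sum_congr rfl fun k hk => ?_
        exact ih _ (by rw [← hc]; exact card_erase_lt_of_mem hk)
          (fun D hD => h D (hD.trans (erase_subset _ _))) rfl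
      · exact sum_congr rfl fun D hD => h D (mem_powerset.1 hD)

/-- the recursion, multiplied out -/
theorem sum_mul_Ival {m : Finset V → ℝ} (h : PosM m) {K : Finset V} (hK : K.Nonempty) :
    (∑ D ∈ K.powerset, m D) * Ival m K = ∑ k ∈ K, Ival m (K.erase k) := by
  rw [Ival_eq m hK, mul_div_cancel₀ _ (h.sum_pos hK).ne']

/-- monotonicity -/
theorem Ival_anti {m m' : Finset V → ℝ} (h : PosM m) {K : Finset V}
    (hmm : ∀ D ⊆ K, m D ≤ m' D) : Ival m' K ≤ Ival m K := by
  induction hc : K.card using Nat.strong_induction_on generalizing K with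
  | _ c ih =>
    rcases K.eq_empty_or_nonempty with h0 | h0
    · rw [h0, Ival_empty, Ival_empty]
    · rw [Ival_eq m h0, Ival_eq m' h0]
      refine div_le_div₀ (sum_nonneg fun k _ => (Ival_pos h _).le)
        (sum_le_sum fun k hk => ?_) (h.sum_pos h0)
        (sum_le_sum fun D hD => hmm D (mem_powerset.1 hD))
      exact ih _ (by rw [← hc]; exact card_erase_lt_of_mem hk)
        (fun D hD => hmm D (hD.trans (erase_subset _ _))) rfl

theorem powerset_erase_subset (K : Finset V) (u : V) : (K.erase u).powerset ⊆ K.powerset :=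
  powerset_mono.2 (erase_subset _ _)

theorem sum_powerset_erase_add {m : Finset V → ℝ} (h : PosM m) {K : Finset V} {u : V}
    (hu : u ∈ K) : ∑ D ∈ (K.erase u).powerset, m D + m {u} ≤ ∑ D ∈ K.powerset, m D := by
  have h1 : {u} ∉ (K.erase u).powerset := by
    rw [mem_powerset, singleton_subset_iff]
    exact notMem_erase u K
  rw [add_comm, ← sum_insert h1]
  refine sum_le_sum_of_subset_of_nonneg ?_ fun D _ _ => h.1 D
  intro D hD
  rcases mem_insert.1 hD with h2 | h2
  · rw [h2, mem_powerset, singleton_subset_iff]
    exact hu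
  · exact powerset_erase_subset K u h2

/-- removing an element -/
theorem mul_Ival_le_erase {m : Finset V → ℝ} (h : PosM m) {K : Finset V} {u : V} (hu : u ∈ K) :
    m {u} * Ival m K ≤ Ival m (K.erase u) := by
  induction hc : K.card using Nat.strong_induction_on generalizing K with
  | _ c ih =>
    have hne : K.Nonempty := ⟨u, hu⟩
    have hS := h.sum_pos hne
    have hSe := sum_powerset_erase_add h hu
    have hI := Ival_pos h (K.erase u)
    have key : m {u} * ∑ k ∈ K, Ival m (K.erase k) ≤
        (∑ D ∈ K.powerset, m D) * Ival m (K.erase u) := by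
      rw [← add_sum_erase K _ hu, mul_add]
      have h1 : m {u} * ∑ k ∈ K.erase u, Ival m (K.erase k) ≤
          (∑ D ∈ (K.erase u).powerset, m D) * Ival m (K.erase u) := by
        rcases (K.erase u).eq_empty_or_nonempty with h0 | h0
        · rw [h0, sum_empty, mul_zero]
          exact mul_nonneg (sum_nonneg fun D _ => h.1 D) (Ival_pos h _).le
        · rw [sum_mul_Ival h h0, mul_sum]
          refine sum_le_sum fun k hk => ?_
          have hku : k ≠ u := ne_of_mem_erase hk
          have hkK : k ∈ K := mem_of_mem_erase hk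
          rw [erase_right_comm]
          exact ih _ (by rw [← hc]; exact card_erase_lt_of_mem hkK)
            (mem_erase.2 ⟨hku.symm, hu⟩) rfl
      nlinarith
    rw [Ival_eq m hne, ← mul_div_assoc, div_le_iff₀ hS]
    linarith

/-- exact mode: `m {u} I(m)` does not decrease when `m {u}` grows -/
theorem Ival_exact {m : Finset V → ℝ} (h : PosM m) {K : Finset V} {u : V} (hu : u ∈ K) {x : ℝ}
    (hx : 0 ≤ x) :
    m {u} * Ival m K ≤ (m {u} + x) * Ival (Function.update m {u} (m {u} + x)) K := by
  induction hc : K.card using Nat.strong_induction_on generalizing K with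
  | _ c ih =>
    set m' := Function.update m {u} (m {u} + x) with hm'
    have h' : PosM m' := by
      refine ⟨fun D => ?_, fun k => ?_⟩
      · rw [hm']
        by_cases hD : D = {u}
        · rw [hD, Function.update_self]
          exact add_nonneg (h.1 _) hx
        · rw [Function.update_of_ne hD]
          exact h.1 D
      · rw [hm']
        by_cases hD : ({k} : Finset V) = {u}
        · rw [hD, Function.update_self]
          exact add_pos_of_pos_of_nonneg (h.2 u) hx
        · rw [Function.update_of_ne hD]
          exact h.2 k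
    have hne : K.Nonempty := ⟨u, hu⟩
    have hS := h.sum_pos hne
    have hS' : ∑ D ∈ K.powerset, m' D = ∑ D ∈ K.powerset, m D + x := by
      have h1 : {u} ∈ K.powerset := by
        rw [mem_powerset, singleton_subset_iff]
        exact hu
      rw [hm', sum_update_of_mem h1, ← add_sum_erase K.powerset m h1, sdiff_singleton_eq_erase]
      ring
    have hB : Ival m' (K.erase u) = Ival m (K.erase u) := by
      refine Ival_congr fun D hD => ?_
      rw [hm', Function.update_of_ne]
      rintro rfl
      exact notMem_erase u K (singleton_subset_iff.1 hD)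
    have hA : m {u} * ∑ k ∈ K.erase u, Ival m (K.erase k) ≤
        (m {u} + x) * ∑ k ∈ K.erase u, Ival m' (K.erase k) := by
      rw [mul_sum, mul_sum]
      refine sum_le_sum fun k hk => ?_
      have hku : k ≠ u := ne_of_mem_erase hk
      have hkK : k ∈ K := mem_of_mem_erase hk
      exact ih _ (by rw [← hc]; exact card_erase_lt_of_mem hkK)
        (mem_erase.2 ⟨hku.symm, hu⟩) rfl
    have hE := mul_Ival_le_erase h hu
    have hrec := sum_mul_Ival h hne
    have hrec' := sum_mul_Ival h' hne
    rw [← add_sum_erase K _ hu] at hrec hrec'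
    rw [hS', hB] at hrec'
    have hSx : 0 < ∑ D ∈ K.powerset, m D + x := by linarith
    -- multiply by the denominators
    set S := ∑ D ∈ K.powerset, m D
    set A := ∑ k ∈ K.erase u, Ival m (K.erase k)
    set A' := ∑ k ∈ K.erase u, Ival m' (K.erase k)
    set B := Ival m (K.erase u)
    set I := Ival m K
    set I' := Ival m' K
    have h3 : (S + x) * (m {u} * I) ≤ (S + x) * ((m {u} + x) * I') := by
      calc (S + x) * (m {u} * I) = m {u} * (S * I) + x * (m {u} * I) := by ring
        _ ≤ m {u} * (S * I) + x * B := by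
            have := mul_le_mul_of_nonneg_left hE hx
            linarith
        _ = m {u} * A + (m {u} + x) * B := by rw [hrec]; ring
        _ ≤ (m {u} + x) * A' + (m {u} + x) * B := by linarith
        _ = (m {u} + x) * ((S + x) * I') := by rw [hrec']; ring
        _ = (S + x) * ((m {u} + x) * I') := by ring
    exact le_of_mul_le_mul_left h3 hSx

/-- products -/
theorem Ival_union {m : Finset V → ℝ} (h : PosM m) {K L : Finset V} (hKL : Disjoint K L)
    (hm : ∀ D ⊆ K ∪ L, m D ≠ 0 → D ≠ ∅ ∧ (D ⊆ K ∨ D ⊆ L)) (h0 : m ∅ = 0) :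
    Ival m (K ∪ L) = Ival m K * Ival m L := by
  induction hc : (K ∪ L).card using Nat.strong_induction_on generalizing K L with
  | _ c ih =>
    rcases K.eq_empty_or_nonempty with hK | hK
    · rw [hK, empty_union, Ival_empty, one_mul]
    rcases L.eq_empty_or_nonempty with hL | hL
    · rw [hL, union_empty, Ival_empty, mul_one]
    have hne : (K ∪ L).Nonempty := hK.mono subset_union_left
    have hsum : ∑ D ∈ (K ∪ L).powerset, m D =
        ∑ D ∈ K.powerset, m D + ∑ D ∈ L.powerset, m D := by
      have h1 : ∑ D ∈ K.powerset, m D + ∑ D ∈ L.powerset, m D =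
          ∑ D ∈ K.powerset ∪ L.powerset, m D + ∑ D ∈ K.powerset ∩ L.powerset, m D :=
        (sum_union_inter).symm
      have h2 : ∑ D ∈ K.powerset ∩ L.powerset, m D = 0 := by
        refine sum_eq_zero fun D hD => ?_
        rw [mem_inter, mem_powerset, mem_powerset] at hD
        have h3 : D = ∅ := by
          have := hKL hD.1 hD.2
          exact le_bot_iff.1 this
        rw [h3, h0]
      rw [h1, h2, add_zero]
      refine (sum_subset ?_ ?_).symm
      · exact union_subset (powerset_mono.2 subset_union_left) (powerset_mono.2 subset_union_right)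
      · intro D hD hD'
        by_contra hne0
        obtain ⟨_, h4⟩ := hm D (mem_powerset.1 hD) hne0
        apply hD'
        rw [mem_union, mem_powerset, mem_powerset]
        exact h4
    have hSK := h.sum_pos hK
    have hSL := h.sum_pos hL
    have hrK := sum_mul_Ival h hK
    have hrL := sum_mul_Ival h hL
    have hr := sum_mul_Ival h hne
    rw [hsum, sum_union hKL] at hr
    have e1 : ∑ k ∈ K, Ival m ((K ∪ L).erase k) = (∑ k ∈ K, Ival m (K.erase k)) * Ival m L := by
      rw [sum_mul]
      refine sum_congr rfl fun k hk => ?_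
      have hkL : k ∉ L := disjoint_left.1 hKL hk
      rw [erase_union_distrib, erase_eq_of_notMem hkL]
      refine ih _ ?_ (hKL.mono_left (erase_subset _ _)) ?_ rfl
      · rw [← hc]
        refine card_lt_card ⟨union_subset_union_left (erase_subset _ _), fun hsub => ?_⟩
        have := hsub (mem_union_left _ hk)
        rcases mem_union.1 this with h5 | h5
        · exact notMem_erase k K h5
        · exact hkL h5
      · intro D hD hD0
        obtain ⟨h5, h6⟩ := hm D (hD.trans (union_subset_union_left (erase_subset _ _))) hD0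
        refine ⟨h5, ?_⟩
        rcases h6 with h6 | h6
        · left
          intro x hx
          rcases mem_union.1 (hD hx) with h7 | h7
          · exact h7
          · exact absurd (h6 hx) (disjoint_right.1 hKL h7)
        · right; exact h6
    have e2 : ∑ k ∈ L, Ival m ((K ∪ L).erase k) = Ival m K * ∑ k ∈ L, Ival m (L.erase k) := by
      rw [mul_sum]
      refine sum_congr rfl fun k hk => ?_
      have hkK : k ∉ K := disjoint_right.1 hKL hk
      rw [erase_union_distrib, erase_eq_of_notMem hkK]
      refine ih _ ?_ (hKL.mono_right (erase_subset _ _)) ?_ rfl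
      · rw [← hc]
        refine card_lt_card ⟨union_subset_union_right (erase_subset _ _), fun hsub => ?_⟩
        have := hsub (mem_union_right _ hk)
        rcases mem_union.1 this with h5 | h5
        · exact hkK h5
        · exact notMem_erase k L h5
      · intro D hD hD0
        obtain ⟨h5, h6⟩ := hm D (hD.trans (union_subset_union_right (erase_subset _ _))) hD0
        refine ⟨h5, ?_⟩
        rcases h6 with h6 | h6
        · left; exact h6
        · right
          intro x hx
          rcases mem_union.1 (hD hx) with h7 | h7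
          · exact absurd (h6 hx) (disjoint_left.1 hKL h7)
          · exact h7
    rw [e1, e2, ← hrK, ← hrL] at hr
    have h7 : (∑ D ∈ K.powerset, m D + ∑ D ∈ L.powerset, m D) * Ival m (K ∪ L) =
        (∑ D ∈ K.powerset, m D + ∑ D ∈ L.powerset, m D) * (Ival m K * Ival m L) := by
      rw [hr]; ring
    exact mul_left_cancel₀ (by positivity) h7

theorem Ival_singleton {m : Finset V → ℝ} (k : V) (h0 : m ∅ = 0) :
    Ival m {k} = 1 / m {k} := by
  rw [Ival_eq m (singleton_nonempty k), sum_singleton, erase_singleton, Ival_empty]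
  congr 1
  have h1 : (({k} : Finset V)).powerset = {∅, {k}} := by
    ext D
    rw [mem_powerset, subset_singleton_iff, mem_insert, mem_singleton]
  rw [h1, sum_pair (by
    intro h
    exact absurd (h ▸ mem_singleton_self k) (notMem_empty k)), h0, zero_add]

/-- no overlaps -/
theorem Ival_prod {m : Finset V → ℝ} (h : PosM m) {K : Finset V}
    (hm : ∀ D ⊆ K, D.card ≠ 1 → m D = 0) : Ival m K = ∏ k ∈ K, (1 / m {k}) := by
  have h0 : m ∅ = 0 := hm ∅ (empty_subset _) (by simp)
  induction K using Finset.induction_on with
  | empty => rw [Ival_empty, prod_empty]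
  | insert a K ha ih =>
    rw [insert_eq, Ival_union h (disjoint_singleton_left.2 ha) ?_ h0, Ival_singleton a h0,
      ← insert_eq, prod_insert ha, ih fun D hD => hm D (hD.trans (subset_insert _ _))]
    intro D hD hD0
    have h1 : D.card = 1 := by
      by_contra h2
      exact hD0 (hm D hD h2)
    obtain ⟨x, hx⟩ := card_eq_one.1 h1
    refine ⟨fun h2 => by rw [h2] at h1; exact absurd h1 (by simp), ?_⟩
    rw [hx] at hD ⊢
    rcases mem_union.1 (singleton_subset_iff.1 hD) with h2 | h2
    · left
      exact singleton_subset_iff.2 h2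
    · right
      exact singleton_subset_iff.2 h2

/-- log-convexity -/
theorem Ival_holder {ι : Type} (s : Finset ι) (w : ι → ℝ) (hw : ∀ i ∈ s, 0 ≤ w i)
    (hw1 : ∑ i ∈ s, w i = 1) (m : ι → Finset V → ℝ) (h : ∀ i ∈ s, PosM (m i)) (K : Finset V) :
    Ival (fun D => ∑ i ∈ s, w i * m i D) K ≤ ∏ i ∈ s, Ival (m i) K ^ w i := by
  induction hc : K.card using Nat.strong_induction_on generalizing K with
  | _ c ih =>
    rcases K.eq_empty_or_nonempty with h0 | h0
    · subst h0
      rw [Ival_empty]
      refine le_of_eq (prod_eq_one fun i _ => ?_).symm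
      rw [Ival_empty, Real.one_rpow]
    · rw [Ival_eq _ h0]
      have hA : ∀ i ∈ s, 0 < ∑ k ∈ K, Ival (m i) (K.erase k) := fun i hi =>
        sum_pos (fun k _ => Ival_pos (h i hi) _) h0
      have hS : ∀ i ∈ s, 0 < ∑ D ∈ K.powerset, m i D := fun i hi => (h i hi).sum_pos h0
      -- the numerator
      have h1 : ∑ k ∈ K, Ival (fun D => ∑ i ∈ s, w i * m i D) (K.erase k) ≤
          ∏ i ∈ s, (∑ k ∈ K, Ival (m i) (K.erase k)) ^ w i := by
        have hP : 0 < ∏ i ∈ s, (∑ k ∈ K, Ival (m i) (K.erase k)) ^ w i :=
          prod_pos fun i hi => Real.rpow_pos_of_pos (hA i hi) _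
        have h2 : ∀ k ∈ K, Ival (fun D => ∑ i ∈ s, w i * m i D) (K.erase k) ≤
            (∏ i ∈ s, (∑ k ∈ K, Ival (m i) (K.erase k)) ^ w i) *
              ∑ i ∈ s, w i * (Ival (m i) (K.erase k) / ∑ k ∈ K, Ival (m i) (K.erase k)) := by
          intro k hk
          refine (ih _ (by rw [← hc]; exact card_erase_lt_of_mem hk) (K.erase k) rfl).trans ?_
          have h3 := Real.geom_mean_le_arith_mean_weighted s w
            (fun i => Ival (m i) (K.erase k) / ∑ k ∈ K, Ival (m i) (K.erase k)) hw hw1
            (fun i hi => div_nonneg (Ival_pos (h i hi) _).le (hA i hi).le)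
          have h4 : ∏ i ∈ s, Ival (m i) (K.erase k) ^ w i =
              (∏ i ∈ s, (∑ k ∈ K, Ival (m i) (K.erase k)) ^ w i) *
                ∏ i ∈ s, (Ival (m i) (K.erase k) / ∑ k ∈ K, Ival (m i) (K.erase k)) ^ w i := by
            rw [← prod_mul_distrib]
            refine prod_congr rfl fun i hi => ?_
            rw [← Real.mul_rpow (hA i hi).le
              (div_nonneg (Ival_pos (h i hi) _).le (hA i hi).le),
              mul_div_cancel₀ _ (hA i hi).ne']
          rw [h4]
          exact mul_le_mul_of_nonneg_left h3 hP.le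
        refine (sum_le_sum h2).trans (le_of_eq ?_)
        rw [← mul_sum, sum_comm]
        have h5 : ∀ i ∈ s, ∑ k ∈ K, w i * (Ival (m i) (K.erase k) /
            ∑ k ∈ K, Ival (m i) (K.erase k)) = w i := by
          intro i hi
          rw [← mul_sum, ← sum_div, div_self (hA i hi).ne', mul_one]
        rw [sum_congr rfl h5, hw1, mul_one]
      -- the denominator
      have h6 : ∏ i ∈ s, (∑ D ∈ K.powerset, m i D) ^ w i ≤
          ∑ D ∈ K.powerset, ∑ i ∈ s, w i * m i D := by
        have h7 := Real.geom_mean_le_arith_mean_weighted s w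
          (fun i => ∑ D ∈ K.powerset, m i D) hw hw1 (fun i hi => (hS i hi).le)
        refine h7.trans (le_of_eq ?_)
        rw [sum_comm]
        exact sum_congr rfl fun i _ => mul_sum _ _ _
      have h8 : 0 < ∏ i ∈ s, (∑ D ∈ K.powerset, m i D) ^ w i :=
        prod_pos fun i hi => Real.rpow_pos_of_pos (hS i hi) _
      have h9 : ∏ i ∈ s, Ival (m i) K ^ w i =
          (∏ i ∈ s, (∑ k ∈ K, Ival (m i) (K.erase k)) ^ w i) /
            ∏ i ∈ s, (∑ D ∈ K.powerset, m i D) ^ w i := by
        rw [← prod_div_distrib]
        refine prod_congr rfl fun i hi => ?_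
        rw [Ival_eq _ h0, Real.div_rpow (hA i hi).le (hS i hi).le]
      rw [h9]
      refine div_le_div₀ (prod_nonneg fun i hi => Real.rpow_nonneg (hA i hi).le _) h1 h8 h6

end MP76b19e.Rob
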