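import Pool.Agent.Lib.MP76b19e.Rob.LinkL

/-!
# The decomposition by the element that is not robust (problem MP_76b19e_co)

`A` is an independent set, `A = A0 ∪ T`. `mA F A D` is the number of vertices outside `A` whose
neighbours in `A` are the elements of `D`, plus one if `D` is a singleton. `tr_iff`: the orders in
which all elements of `A` are robust. `jsum`: for a statistic `Φ` that depends only on the robust
sets of subsets of `A0` and vanishes if two elements of `A0` are not robust, the sum over these orders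
is a sum over the element of `A0` that is not robust.
-/

set_option autoImplicit false

open Finset

namespace MP76b19e.Rob

section

variable {V : Type} [DecidableEq V] [Fintype V] {n : ℕ} (F : SimpleGraph V) (A : Finset V)

open Classical in
/-- the vertices dominated by `A` -/
noncomputable def RA : Finset V := univ.filter fun v => v ∉ A ∧ (dn F A v).Nonempty

/-- the multiplicities -/
noncomputable def mA (D : Finset V) : ℝ :=
  (((RA F A).filter fun v => dn F A v = D).card : ℝ) + if D.card = 1 then 1 else 0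

variable {F A} {s : V ≃ Fin n}

theorem mem_RA {v : V} : v ∈ RA F A ↔ v ∉ A ∧ (dn F A v).Nonempty := by
  classical
  unfold RA
  rw [mem_filter]
  exact ⟨fun h => h.2, fun h => ⟨mem_univ v, h⟩⟩

theorem mA_pos : PosM (mA F A) := by
  refine ⟨fun D => ?_, fun k => ?_⟩
  · unfold mA
    refine add_nonneg (Nat.cast_nonneg _) ?_
    split_ifs <;> norm_num
  · unfold mA
    rw [if_pos (card_singleton k)]
    have : (0 : ℝ) ≤ (((RA F A).filter fun v => dn F A v = {k}).card : ℝ) := Nat.cast_nonneg _
    linarith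

theorem mA_empty : mA F A ∅ = 0 := by
  unfold mA
  rw [if_neg (by simp), add_zero, Nat.cast_eq_zero, card_eq_zero, filter_eq_empty_iff]
  intro v hv h
  have := (mem_RA.1 hv).2
  rw [h] at this
  exact absurd this (by simp)

/-- all elements of `A` are robust if and only if all other vertices are preceded by one of their
neighbours in `A` -/
theorem tr_iff (hA : ∀ x ∈ A, ∀ y ∈ A, ¬ F.Adj x y) :
    Tr F s A = A ↔ Ev (RA F A) (dn F A) A s := by
  constructor
  · intro h v hv _
    obtain ⟨hvA, k, hk⟩ := mem_RA.1 hv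
    refine ⟨fun h0 => absurd hk (by rw [h0]; exact notMem_empty k), fun _ => ?_⟩
    rw [mem_dn] at hk
    have hadj : F.Adj v k := by
      rcases hk.2 with h1 | h1
      · rw [h1] at hvA
        exact absurd hk.1 hvA
      · exact h1
    have hkT : k ∈ Tr F s A := by
      rw [h]
      exact hk.1
    obtain ⟨w, hw, hvw, hlt⟩ := Tr_first hkT hadj
    rw [h] at hw
    exact ⟨w, mem_dn.2 ⟨hw, Or.inr hvw⟩, hlt⟩
  · intro h
    refine Subset.antisymm Tr_subset fun v hv => mem_Tr.2 ?_
    induction hc : (s v).val using Nat.strong_induction_on generalizing v with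
    | _ c ih =>
      rw [rob_iff]
      refine ⟨hv, fun y hy hlt => ?_⟩
      have hyA : y ∉ A := fun h1 => hA v hv y h1 hy
      have hyR : y ∈ RA F A := mem_RA.2 ⟨hyA, v, mem_dn.2 ⟨hv, Or.inr hy.symm⟩⟩
      obtain ⟨k, hk, hlt2⟩ := (h y hyR (dn_subset A y)).2 (mem_RA.1 hyR).2.ne_empty
      rw [mem_dn] at hk
      rcases hk.2 with h1 | h1
      · rw [h1] at hyA
        exact absurd hk.1 hyA
      · exact ⟨k, h1, hlt2, ih (s k).val (by rw [← hc]; exact lt_trans hlt2 hlt) k hk.1 rfl⟩

/-- a vertex outside `A` dominated by `B ⊆ A` -/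
theorem mem_CN_iff {B : Finset V} (hB : B ⊆ A) {v : V} (hv : v ∉ A) :
    v ∈ CN F B ↔ ∃ k ∈ B, F.Adj v k := by
  rw [mem_CN]
  constructor
  · rintro ⟨k, hk, h1⟩
    refine ⟨k, hk, ?_⟩
    rcases h1 with h1 | h1
    · rw [h1] at hv
      exact absurd (hB hk) hv
    · exact h1
  · rintro ⟨k, hk, h1⟩
    exact ⟨k, hk, Or.inr h1⟩

/-- the neighbours in `A` of a vertex that is not dominated by `B` -/
theorem dn_sub_iff {B S : Finset V} (hAB : A = B ∪ S) (hd : Disjoint B S) (v : V) :
    dn F A v ⊆ S ↔ v ∉ CN F B := by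
  constructor
  · intro h h1
    obtain ⟨k, hk, h2⟩ := mem_CN.1 h1
    have h3 : k ∈ dn F A v := mem_dn.2 ⟨by rw [hAB]; exact mem_union_left _ hk, h2⟩
    exact disjoint_left.1 hd hk (h h3)
  · intro h k hk
    rw [mem_dn, hAB] at hk
    rcases mem_union.1 hk.1 with h1 | h1
    · exact absurd (mem_CN.2 ⟨k, h1, hk.2⟩) h
    · exact h1

/-- splitting the event that all elements of `A` are robust -/
theorem tr_split (hA : ∀ x ∈ A, ∀ y ∈ A, ¬ F.Adj x y) {B S : Finset V} (hAB : A = B ∪ S)
    (hd : Disjoint B S) :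
    (Tr F s A = A ∧ Tr F s B = B) ↔ (Tr F s B = B ∧ Ev (RA F A) (dn F A) S s) := by
  have hBA : B ⊆ A := by
    rw [hAB]
    exact subset_union_left
  have hSA : S ⊆ A := by
    rw [hAB]
    exact subset_union_right
  constructor
  · rintro ⟨h1, h2⟩
    refine ⟨h2, fun v hv hDv => ?_⟩
    rw [tr_iff hA] at h1
    obtain ⟨h3, h4⟩ := h1 v hv (hDv.trans hSA)
    exact ⟨fun h0 => absurd h0 (mem_RA.1 hv).2.ne_empty, h4⟩
  · rintro ⟨h1, h2⟩
    refine ⟨?_, h1⟩
    rw [tr_iff hA]
    intro v hv _
    have hne := (mem_RA.1 hv).2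
    refine ⟨fun h0 => absurd h0 hne.ne_empty, fun _ => ?_⟩
    by_cases hvB : v ∈ CN F B
    · obtain ⟨k, hk, hvk⟩ := (mem_CN_iff hBA (mem_RA.1 hv).1).1 hvB
      have hkT : k ∈ Tr F s B := by
        rw [h1]
        exact hk
      obtain ⟨w, hw, hvw, hlt⟩ := Tr_first hkT hvk
      exact ⟨w, mem_dn.2 ⟨hBA (Tr_subset hw), Or.inr hvw⟩, hlt⟩
    · exact (h2 v hv ((dn_sub_iff hAB hd v).2 hvB)).2 hne.ne_empty

open Classical in
/-- the weighted number of orders -/
theorem perm_A (hA : ∀ x ∈ A, ∀ y ∈ A, ¬ F.Adj x y) {B S : Finset V} (hAB : A = B ∪ S)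
    (hd : Disjoint B S) (G : (V ≃ Fin n) → ℝ)
    (hG : ∀ s : V ≃ Fin n, ∀ a b, a ∉ CN F B → b ∉ CN F B → G (sw s a b) = G s)
    {S' : Finset V} (hS' : S' ⊆ S) :
    ∑ s ∈ univ.filter (fun s : V ≃ Fin n => Ev (RA F A) (dn F A) S' s), G s =
      Ival (mA F A) S' * ∑ s : V ≃ Fin n, G s := by
  have hBA : B ⊆ A := by
    rw [hAB]
    exact subset_union_left
  have hSA : S ⊆ A := by
    rw [hAB]
    exact subset_union_right
  refine perm_eq (RA F A) (univ.filter fun v => v ∉ CN F B) (dn F A) (mA F A) G ?_ S' ?_ ?_ ?_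
    (fun _ _ => rfl)
  · intro s a ha b hb
    exact hG s a b (mem_filter.1 ha).2 (mem_filter.1 hb).2
  · intro v hv
    refine mem_filter.2 ⟨mem_univ _, fun h1 => ?_⟩
    obtain ⟨k, hk, h2⟩ := mem_CN.1 h1
    rcases h2 with h2 | h2
    · rw [h2] at hv
      exact disjoint_left.1 hd hk (hS' hv)
    · exact hA v (hSA (hS' hv)) k (hBA hk) h2
  · rw [disjoint_left]
    intro v hv hv'
    exact (mem_RA.1 hv).1 (hSA (hS' hv'))
  · intro v hv hDv
    exact ⟨mem_filter.2 ⟨mem_univ _, (dn_sub_iff hAB hd v).1 (hDv.trans hS')⟩, (mem_RA.1 hv).2⟩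

/-- all but `u` are robust -/
theorem tr_one (hA : ∀ x ∈ A, ∀ y ∈ A, ¬ F.Adj x y) {A0 T : Finset V} (hAT : A = A0 ∪ T)
    (hd : Disjoint A0 T) {u : V} (hu : u ∈ A0) :
    (Tr F s A = A ∧ Tr F s A0 = A0.erase u) ↔
      ((Tr F s (A0.erase u) = A0.erase u ∧ Ev (RA F A) (dn F A) (insert u T) s) ∧
        ¬ ∀ y ∈ CN F A0 \ CN F (A0.erase u), y ≠ u → s u < s y) := by
  have hA0A : A0 ⊆ A := by
    rw [hAT]
    exact subset_union_left
  have huA : u ∈ A := hA0A hu
  have huT : u ∉ T := disjoint_left.1 hd hu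
  have hAB : A = A0.erase u ∪ insert u T := by
    rw [hAT]
    ext v
    simp only [mem_union, mem_erase, mem_insert]
    constructor
    · rintro (h | h)
      · by_cases h1 : v = u
        · exact Or.inr (Or.inl h1)
        · exact Or.inl ⟨h1, h⟩
      · exact Or.inr (Or.inr h)
    · rintro (h | h | h)
      · exact Or.inl h.2
      · rw [h]
        exact Or.inl hu
      · exact Or.inr h
  have hd' : Disjoint (A0.erase u) (insert u T) := by
    rw [disjoint_left]
    intro v hv hv'
    rw [mem_erase] at hv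
    rcases mem_insert.1 hv' with h | h
    · exact hv.1 h
    · exact disjoint_left.1 hd hv.2 h
  have hB : A0.erase u ⊆ A := (erase_subset _ _).trans hA0A
  rw [← tr_split hA hAB hd']
  constructor
  · rintro ⟨h1, h2⟩
    have h3 : Tr F s (A0.erase u) = A0.erase u := by
      rw [Tr_restrict (X := A0) (by rw [h2]) (erase_subset _ _), h2]
    refine ⟨⟨h1, h3⟩, fun hall => ?_⟩
    -- `u` would be robust
    have h4 : rob F s A0 u := by
      rw [rob_iff]
      refine ⟨hu, fun y hy hlt => ?_⟩
      by_cases hyB : y ∈ CN F (A0.erase u)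
      · have hyA : y ∉ A := fun h5 => hA u huA y h5 hy
        obtain ⟨k, hk, hyk⟩ := (mem_CN_iff hB hyA).1 hyB
        have hkT : k ∈ Tr F s (A0.erase u) := by
          rw [h3]
          exact hk
        obtain ⟨w, hw, hyw, hlt2⟩ := Tr_first hkT hyk
        exact ⟨w, hyw, hlt2, rob_mono (erase_subset _ _) (mem_Tr.1 hw)⟩
      · exfalso
        have h5 := hall y (mem_sdiff.2 ⟨mem_CN.2 ⟨u, hu, Or.inr hy.symm⟩, hyB⟩) hy.ne'
        exact absurd (lt_trans h5 hlt) (lt_irrefl _)
    have h5 : u ∈ Tr F s A0 := mem_Tr.2 h4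
    rw [h2] at h5
    exact absurd h5 (notMem_erase u A0)
  · rintro ⟨⟨h1, h3⟩, h4⟩
    refine ⟨h1, ?_⟩
    push Not at h4
    obtain ⟨y, hy, hyu, hle⟩ := h4
    rw [mem_sdiff] at hy
    obtain ⟨k, hk, hyk⟩ := mem_CN.1 hy.1
    have hku : k = u := by
      by_contra h5
      exact hy.2 (mem_CN.2 ⟨k, mem_erase.2 ⟨h5, hk⟩, hyk⟩)
    rw [hku] at hyk
    have hadj : F.Adj y u := hyk.resolve_left hyu
    have hlt : s y < s u := lt_of_le_of_ne hle fun h5 => hyu (s.injective h5)
    apply Subset.antisymm
    · intro v hv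
      rw [mem_erase]
      refine ⟨?_, Tr_subset hv⟩
      rintro rfl
      obtain ⟨z, hyz, hlt2, hr⟩ := (rob_iff.1 (mem_Tr.1 hv)).2 y hadj.symm hlt
      have hzv : z = v := by
        by_contra h5
        exact hy.2 (mem_CN.2 ⟨z, mem_erase.2 ⟨h5, hr.mem⟩, Or.inr hyz⟩)
      rw [hzv] at hlt2
      exact absurd (lt_trans hlt2 hlt) (lt_irrefl _)
    · rw [← h3]
      exact Tr_mono (erase_subset _ _)

open Classical in
/-- the decomposition by the element that is not robust -/
theorem jsum (hA : ∀ x ∈ A, ∀ y ∈ A, ¬ F.Adj x y) {A0 T : Finset V} (hAT : A = A0 ∪ T)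
    (hd : Disjoint A0 T) (Φ : Finset V → (V ≃ Fin n) → ℝ)
    (hΦ : ∀ B ⊆ A0, ∀ s : V ≃ Fin n, ∀ a b, a ∉ CN F B → b ∉ CN F B → Φ B (sw s a b) = Φ B s)
    (hΦB : ∀ B ⊆ A0, ∀ s : V ≃ Fin n, Tr F s A0 = B → Φ A0 s = Φ B s)
    (hΦ0 : ∀ s : V ≃ Fin n, (Tr F s A0).card + 1 < A0.card → Φ A0 s = 0) :
    ∑ s ∈ univ.filter (fun s : V ≃ Fin n => Tr F s A = A), Φ A0 s =
      Ival (mA F A) T * ∑ s ∈ univ.filter (fun s : V ≃ Fin n => Tr F s A0 = A0), Φ A0 s +
        ∑ u ∈ A0, (Ival (mA F A) (insert u T) -
            Ival (mA F A) T / ((CN F A0 \ CN F (A0.erase u)).card : ℝ)) *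
          ∑ s ∈ univ.filter (fun s : V ≃ Fin n => Tr F s (A0.erase u) = A0.erase u),
            Φ (A0.erase u) s := by
  have hA0A : A0 ⊆ A := by
    rw [hAT]
    exact subset_union_left
  have hTA : T ⊆ A := by
    rw [hAT]
    exact subset_union_right
  -- the weight
  set G : Finset V → (V ≃ Fin n) → ℝ := fun B s => if Tr F s B = B then Φ B s else 0 with hG
  have hGsw : ∀ B ⊆ A0, ∀ s : V ≃ Fin n, ∀ a b, a ∉ CN F B → b ∉ CN F B →
      G B (sw s a b) = G B s := by
    intro B hB s a b ha hb
    simp only [hG]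
    rw [Tr_sw ha hb Subset.rfl, hΦ B hB s a b ha hb]
  have hGsum : ∀ B, ∑ s : V ≃ Fin n, G B s =
      ∑ s ∈ univ.filter (fun s : V ≃ Fin n => Tr F s B = B), Φ B s := by
    intro B
    rw [sum_filter]
  -- the term of the event that all elements are robust
  have h0 : ∑ s ∈ univ.filter (fun s : V ≃ Fin n => Tr F s A = A ∧ Tr F s A0 = A0), Φ A0 s =
      Ival (mA F A) T * ∑ s ∈ univ.filter (fun s : V ≃ Fin n => Tr F s A0 = A0), Φ A0 s := by
    rw [← hGsum, ← perm_A hA hAT hd (G A0) (hGsw A0 Subset.rfl) (Subset.refl T)]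
    have h1 : univ.filter (fun s : V ≃ Fin n => Tr F s A = A ∧ Tr F s A0 = A0) =
        (univ.filter (fun s : V ≃ Fin n => Ev (RA F A) (dn F A) T s)).filter
          (fun s => Tr F s A0 = A0) := by
      ext s
      rw [mem_filter, mem_filter, mem_filter, tr_split hA hAT hd]
      constructor
      · rintro ⟨h2, h3, h4⟩
        exact ⟨⟨h2, h4⟩, h3⟩
      · rintro ⟨⟨h2, h4⟩, h3⟩
        exact ⟨h2, h3, h4⟩
    rw [h1, sum_filter]
  -- the term of the event that all elements but `u` are robust
  have hone : ∀ u ∈ A0, ∑ s ∈ univ.filter (fun s : V ≃ Fin n => Tr F s A = A ∧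
      Tr F s A0 = A0.erase u), Φ A0 s = (Ival (mA F A) (insert u T) -
            Ival (mA F A) T / ((CN F A0 \ CN F (A0.erase u)).card : ℝ)) *
          ∑ s ∈ univ.filter (fun s : V ≃ Fin n => Tr F s (A0.erase u) = A0.erase u),
            Φ (A0.erase u) s := by
    intro u hu
    have huT : u ∉ T := disjoint_left.1 hd hu
    set B := A0.erase u with hBdef
    set N := CN F A0 \ CN F B with hN
    have hBA0 : B ⊆ A0 := erase_subset _ _
    have hAB : A = B ∪ insert u T := by
      rw [hAT]
      ext v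
      simp only [hBdef, mem_union, mem_erase, mem_insert]
      constructor
      · rintro (h | h)
        · by_cases h1 : v = u
          · exact Or.inr (Or.inl h1)
          · exact Or.inl ⟨h1, h⟩
        · exact Or.inr (Or.inr h)
      · rintro (h | h | h)
        · exact Or.inl h.2
        · rw [h]
          exact Or.inl hu
        · exact Or.inr h
    have hd' : Disjoint B (insert u T) := by
      rw [disjoint_left]
      intro v hv hv'
      rw [hBdef, mem_erase] at hv
      rcases mem_insert.1 hv' with h | h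
      · exact hv.1 h
      · exact disjoint_left.1 hd hv.2 h
    have huC : u ∉ CN F B := by
      intro h1
      obtain ⟨k, hk, h2⟩ := mem_CN.1 h1
      rw [hBdef, mem_erase] at hk
      rcases h2 with h2 | h2
      · exact hk.1 h2.symm
      · exact hA u (hA0A hu) k (hA0A hk.2) h2
    have huN : u ∈ N := mem_sdiff.2 ⟨mem_CN.2 ⟨u, hu, Or.inl rfl⟩, huC⟩
    have hNpos : (0 : ℝ) < N.card := by
      have : 0 < N.card := card_pos.2 ⟨u, huN⟩
      exact_mod_cast this
    have hGB := hGsw B hBA0
    -- all orders with `B` robust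
    have e1 := perm_A hA hAB hd' (G B) hGB (Subset.refl (insert u T))
    -- `u` is the first vertex of `N`
    have e2 : (N.card : ℝ) * ∑ s ∈ univ.filter (fun s : V ≃ Fin n =>
        ∀ y ∈ N, y ≠ u → s u < s y), (if Ev (RA F A) (dn F A) T s then G B s else 0) =
        Ival (mA F A) T * ∑ s : V ≃ Fin n, G B s := by
      rw [first_eq N huN, ← sum_filter]
      · exact perm_A hA hAB hd' (G B) hGB (subset_insert u T)
      · intro s y hy
        have hyN := mem_sdiff.1 hy.1
        rw [hGB s u y huC hyN.2]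
        have hfix : ∀ v, v ∉ N → sw s u y v = s v := by
          intro v hv
          apply sw_ne
          · rintro rfl
            exact hv huN
          · rintro rfl
            exact hv hy.1
        have hTN : ∀ t ∈ T, t ∉ N := by
          intro t ht h1
          obtain ⟨k, hk, h2⟩ := mem_CN.1 (mem_sdiff.1 h1).1
          rcases h2 with h2 | h2
          · rw [h2] at ht
            exact disjoint_left.1 hd hk ht
          · exact hA t (hTA ht) k (hA0A hk) h2
        have hvN : ∀ v, dn F A v ⊆ T → v ∉ N := by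
          intro v hv h1
          exact (dn_sub_iff hAT hd v).1 hv (mem_sdiff.1 h1).1
        have hiff : Ev (RA F A) (dn F A) T (sw s u y) ↔ Ev (RA F A) (dn F A) T s := by
          unfold Ev
          refine forall_congr' fun v => forall_congr' fun hv => forall_congr' fun hDv => ?_
          rw [hfix v (hvN v hDv)]
          refine and_congr ?_ ?_
          · refine forall_congr' fun _ => forall_congr' fun k => forall_congr' fun hk => ?_
            rw [hfix k (hTN k hk)]
          · refine forall_congr' fun _ => exists_congr fun k => and_congr_right fun hk => ?_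
            rw [hfix k (hTN k (hDv hk))]
        simp only [hiff]
    -- if `u` is the first vertex of `N`, then the condition on `insert u T` is the one on `T`
    have e3 : ∑ s ∈ univ.filter (fun s : V ≃ Fin n => ∀ y ∈ N, y ≠ u → s u < s y),
        (if Ev (RA F A) (dn F A) T s then G B s else 0) =
        ∑ s ∈ univ.filter (fun s : V ≃ Fin n => ∀ y ∈ N, y ≠ u → s u < s y),
          (if Ev (RA F A) (dn F A) (insert u T) s then G B s else 0) := by
      refine sum_congr rfl fun s hs => ?_
      have hfst := (mem_filter.1 hs).2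
      have hiff : Ev (RA F A) (dn F A) T s ↔ Ev (RA F A) (dn F A) (insert u T) s := by
        constructor
        · intro h v hv hDv
          have hne := (mem_RA.1 hv).2
          refine ⟨fun h0 => absurd h0 hne.ne_empty, fun _ => ?_⟩
          by_cases huD : u ∈ dn F A v
          · have hvu : v ≠ u := by
              rintro rfl
              exact (mem_RA.1 hv).1 (hA0A hu)
            refine ⟨u, huD, hfst v (mem_sdiff.2 ⟨?_, (dn_sub_iff hAB hd' v).1 hDv⟩) hvu⟩
            exact mem_CN.2 ⟨u, hu, (mem_dn.1 huD).2⟩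
          · refine (h v hv fun k hk => ?_).2 hne.ne_empty
            rcases mem_insert.1 (hDv hk) with h1 | h1
            · rw [h1] at hk
              exact absurd hk huD
            · exact h1
        · intro h v hv hDv
          have hne := (mem_RA.1 hv).2
          exact ⟨fun h0 => absurd h0 hne.ne_empty,
            (h v hv (hDv.trans (subset_insert _ _))).2⟩
      simp only [hiff]
    -- the sum
    have e4 : ∑ s ∈ univ.filter (fun s : V ≃ Fin n => Tr F s A = A ∧ Tr F s A0 = B), Φ A0 s =
        ∑ s ∈ univ.filter (fun s : V ≃ Fin n => Ev (RA F A) (dn F A) (insert u T) s), G B s -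
        ∑ s ∈ univ.filter (fun s : V ≃ Fin n => ∀ y ∈ N, y ≠ u → s u < s y),
          (if Ev (RA F A) (dn F A) (insert u T) s then G B s else 0) := by
      have h1 : ∀ s ∈ univ.filter (fun s : V ≃ Fin n => Tr F s A = A ∧ Tr F s A0 = B),
          Φ A0 s = G B s := by
        intro s hs
        rw [mem_filter] at hs
        have h2 := (tr_one hA hAT hd hu).1 hs.2
        simp only [hG]
        rw [if_pos h2.1.1]
        exact hΦB B hBA0 s hs.2.2
      rw [sum_congr rfl h1, sum_filter, sum_filter, sum_filter, ← sum_sub_distrib]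
      refine sum_congr rfl fun s _ => ?_
      have h2 := tr_one (s := s) hA hAT hd hu
      rw [← hBdef, ← hN] at h2
      by_cases h3 : Tr F s B = B
      · by_cases h4 : Ev (RA F A) (dn F A) (insert u T) s
        · by_cases h5 : ∀ y ∈ N, y ≠ u → s u < s y
          · rw [if_neg fun h6 => (h2.1 h6).2 h5, if_pos h4, if_pos h5, sub_self]
          · rw [if_pos (h2.2 ⟨⟨h3, h4⟩, h5⟩), if_pos h4, if_neg h5, sub_zero]
        · rw [if_neg fun h6 => h4 (h2.1 h6).1.2]
          simp [h4]
      · have h4 : G B s = 0 := by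
          simp only [hG]
          rw [if_neg h3]
        rw [if_neg fun h6 => h3 (h2.1 h6).1.1, h4]
        simp
    rw [e4, e1, ← e3, sub_mul, ← hGsum]
    congr 1
    rw [div_mul_eq_mul_div, eq_div_iff hNpos.ne', ← e2]
    ring
  -- all orders
  have hpart : ∑ s ∈ univ.filter (fun s : V ≃ Fin n => Tr F s A = A), Φ A0 s =
      ∑ s ∈ univ.filter (fun s : V ≃ Fin n => Tr F s A = A ∧ Tr F s A0 = A0), Φ A0 s +
        ∑ u ∈ A0, ∑ s ∈ univ.filter (fun s : V ≃ Fin n => Tr F s A = A ∧
          Tr F s A0 = A0.erase u), Φ A0 s := by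
    rw [sum_filter, sum_filter]
    have h1 : ∀ u ∈ A0, ∑ s ∈ univ.filter (fun s : V ≃ Fin n => Tr F s A = A ∧
          Tr F s A0 = A0.erase u), Φ A0 s = ∑ s : V ≃ Fin n,
            if Tr F s A = A ∧ Tr F s A0 = A0.erase u then Φ A0 s else 0 := fun u _ => by
      rw [sum_filter]
    rw [sum_congr rfl h1, sum_comm, ← sum_add_distrib]
    refine sum_congr rfl fun s _ => ?_
    by_cases h2 : Tr F s A = A
    · rw [if_pos h2]
      by_cases h3 : Tr F s A0 = A0
      · rw [if_pos ⟨h2, h3⟩, sum_eq_zero, add_zero]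
        intro u hu
        rw [if_neg]
        rintro ⟨_, h4⟩
        rw [h3] at h4
        exact notMem_erase u A0 (by rw [← h4]; exact hu)
      · rw [if_neg fun h4 => h3 h4.2, zero_add]
        by_cases h4 : (Tr F s A0).card + 1 < A0.card
        · rw [hΦ0 s h4]
          simp
        · have h5 : Tr F s A0 ⊆ A0 := Tr_subset
          have h6 : (Tr F s A0).card ≠ A0.card := fun h6 =>
            h3 (eq_of_subset_of_card_le h5 h6.ge)
          have h7 := card_le_card h5
          obtain ⟨u, hu⟩ : ∃ u, A0 \ Tr F s A0 = {u} := by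
            rw [← card_eq_one, card_sdiff_of_subset h5]
            omega
          have huA : u ∈ A0 ∧ u ∉ Tr F s A0 := by
            rw [← mem_sdiff, hu]
            exact mem_singleton_self u
          have h8 : Tr F s A0 = A0.erase u := by
            refine eq_of_subset_of_card_le (fun v hv => mem_erase.2 ⟨?_, h5 hv⟩) ?_
            · rintro rfl
              exact huA.2 hv
            · rw [card_erase_of_mem huA.1]
              omega
          rw [sum_eq_single u]
          · rw [if_pos ⟨h2, h8⟩]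
          · intro w hw hwu
            rw [if_neg]
            rintro ⟨_, h9⟩
            rw [h8] at h9
            have h10 : w ∈ A0.erase u := mem_erase.2 ⟨hwu, hw⟩
            rw [h9] at h10
            exact notMem_erase w A0 h10
          · intro h9
            exact absurd huA.1 h9
    · rw [if_neg h2, if_neg fun h3 => h2 h3.1, zero_add]
      refine (sum_eq_zero fun u _ => ?_).symm
      rw [if_neg fun h3 => h2 h3.1]
  rw [hpart, h0, sum_congr rfl hone]

end

end MP76b19e.Rob
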