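import Pool.Agent.Lib.MP76b19e.Rob.NO2
import Pool.Agent.Lib.MP76b19e.Rob.Stat

/-!
# `KSt p 1 1 1` (problem MP_76b19e_co)
-/

set_option autoImplicit false

open Finset

namespace MP76b19e.Rob

private theorem ksc_1_pos {p : ℕ} {C : ℕ → Prop} (hC : ∀ k, C k → 1 ≤ k) : KSc C p 1 1 1 := by
  intro V iV K T m b hk hT _
  have h1 := KS.one_one (no2 hk.p2) hk (hC _ hT)
  push_cast
  rw [one_mul, one_mul, sub_self, zero_mul, add_zero]
  exact h1

/-- `ν = 1`, `h = 1` -/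
theorem kst_1_1 (p : ℕ) : KSt p 1 1 1 :=
  kst_of ksc_1_0 (ksc_1_pos fun k hk => hk.ge) (ksc_1_pos fun k hk => by omega)

end MP76b19e.Rob
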