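import Pool.Agent.Lib.MP76b19e.CoreT

/-!
# Numerical bounds for one over-full top (problem MP_76b19e_co)

`L ^ N = N + 1`, `H ^ N = 2 (N + 1) / (N + 2)`: bounds for `L ^ (c + 1) * bq N c (2 N + 1 + c)`,
`c ≤ 4`.
-/

set_option autoImplicit false

open Finset

namespace MP76b19e.Rob

/-- `L ^ a ≤ r` from `(N + 1) ^ a ≤ r ^ N` -/
theorem Lpow_le {N : ℕ} (hN : 1 ≤ N) {L : ℝ} (hL : 0 < L) (hLN : L ^ N = N + 1) {a : ℕ} {r : ℝ}
    (hr : 0 ≤ r) (h : ((N : ℝ) + 1) ^ a ≤ r ^ N) : L ^ a ≤ r := by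
  refine le_of_pow_le_pow_left₀ (n := N) (by omega) hr ?_
  rw [← pow_mul, mul_comm, pow_mul, hLN]
  exact h

theorem big2 {N : ℕ} (hN : 14 ≤ N) : ((N : ℝ) + 1) ^ 2 ≤ (3 / 2) ^ N := by
  induction N, hN using Nat.le_induction with
  | base => norm_num
  | succ n hn ih =>
    have hn' : (14 : ℝ) ≤ n := by exact_mod_cast hn
    rw [pow_succ]
    have h1 := mul_le_mul_of_nonneg_right ih (by norm_num : (0 : ℝ) ≤ 3 / 2)
    refine le_trans ?_ h1
    push_cast
    nlinarith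

theorem big3 {N : ℕ} (hN : 5 ≤ N) : ((N : ℝ) + 1) ^ 3 ≤ 3 ^ N := by
  induction N, hN using Nat.le_induction with
  | base => norm_num
  | succ n hn ih =>
    have hn' : (5 : ℝ) ≤ n := by exact_mod_cast hn
    rw [pow_succ]
    have h1 := mul_le_mul_of_nonneg_right ih (by norm_num : (0 : ℝ) ≤ 3)
    refine le_trans ?_ h1
    obtain ⟨x, hx⟩ : ∃ x : ℝ, (n : ℝ) = 5 + x := ⟨n - 5, by ring⟩
    have hx0 : 0 ≤ x := by linarith
    push_cast
    rw [hx, ← sub_nonneg]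
    ring_nf
    positivity

theorem big4 {N : ℕ} (hN : 11 ≤ N) : ((N : ℝ) + 1) ^ 4 ≤ (5 / 2) ^ N := by
  induction N, hN using Nat.le_induction with
  | base => norm_num
  | succ n hn ih =>
    have hn' : (11 : ℝ) ≤ n := by exact_mod_cast hn
    rw [pow_succ]
    have h1 := mul_le_mul_of_nonneg_right ih (by norm_num : (0 : ℝ) ≤ 5 / 2)
    refine le_trans ?_ h1
    obtain ⟨x, hx⟩ : ∃ x : ℝ, (n : ℝ) = 11 + x := ⟨n - 11, by ring⟩
    have hx0 : 0 ≤ x := by linarith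
    push_cast
    rw [hx, ← sub_nonneg]
    ring_nf
    positivity

theorem big5 {N : ℕ} (hN : 9 ≤ N) : ((N : ℝ) + 1) ^ 5 ≤ (15 / 4) ^ N := by
  induction N, hN using Nat.le_induction with
  | base => norm_num
  | succ n hn ih =>
    have hn' : (9 : ℝ) ≤ n := by exact_mod_cast hn
    rw [pow_succ]
    have h1 := mul_le_mul_of_nonneg_right ih (by norm_num : (0 : ℝ) ≤ 15 / 4)
    refine le_trans ?_ h1
    obtain ⟨x, hx⟩ : ∃ x : ℝ, (n : ℝ) = 9 + x := ⟨n - 9, by ring⟩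
    have hx0 : 0 ≤ x := by linarith
    push_cast
    rw [hx, ← sub_nonneg]
    ring_nf
    positivity

section

variable {N : ℕ} {L : ℝ}

open Pool.Agent.MP76b19e (bq)

theorem bq1 (hN : 1 ≤ N) : bq N 1 (2 * N + 2) = N / (3 * N + 2) := by
  unfold bq
  rw [prod_range_succ, prod_range_zero]
  push_cast
  ring

theorem bq2 (hN : 1 ≤ N) : bq N 2 (2 * N + 3) = N / (3 * N + 3) * (2 * N / (4 * N + 3)) := by
  unfold bq
  rw [prod_range_succ, prod_range_succ, prod_range_zero]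
  push_cast
  ring

theorem bq3 (hN : 1 ≤ N) :
    bq N 3 (2 * N + 4) = N / (3 * N + 4) * (2 * N / (4 * N + 4)) * (3 * N / (5 * N + 4)) := by
  unfold bq
  rw [prod_range_succ, prod_range_succ, prod_range_succ, prod_range_zero]
  push_cast
  ring

theorem bq4 (hN : 1 ≤ N) :
    bq N 4 (2 * N + 5) = N / (3 * N + 5) * (2 * N / (4 * N + 5)) * (3 * N / (5 * N + 5)) *
      (4 * N / (6 * N + 5)) := by
  unfold bq
  rw [prod_range_succ, prod_range_succ, prod_range_succ, prod_range_succ, prod_range_zero]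
  push_cast
  ring

/-- `c₀ = 1` -/
theorem nv1 (hN : 2 ≤ N) (hL : 0 < L) (hLN : L ^ N = N + 1) :
    L ^ 2 * bq N 1 (2 * N + 2) ≤ (N + 2) / (2 * N + 1) := by
  have hN2 : (2 : ℝ) ≤ N := by exact_mod_cast hN
  have h1 : L ^ 2 ≤ (3 * N + 2) * (N + 2) / (N * (2 * N + 1)) := by
    refine Lpow_le (by omega) hL hLN (by positivity) ?_
    rcases Nat.lt_or_ge N 14 with h | h
    · interval_cases N <;> norm_num
    · refine (big2 h).trans (pow_le_pow_left₀ (by norm_num) ?_ _)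
      rw [le_div_iff₀ (by positivity)]
      nlinarith
  rw [bq1 (by omega)]
  have h2 := mul_le_mul_of_nonneg_right h1 (by positivity : (0 : ℝ) ≤ N / (3 * N + 2))
  refine h2.trans (le_of_eq ?_)
  field_simp

/-- `c₀ = 2` -/
theorem nv2 (hN : 1 ≤ N) (hL : 0 < L) (hLN : L ^ N = N + 1) :
    L ^ 3 * bq N 2 (2 * N + 3) ≤ 1 / 2 := by
  have hN2 : (1 : ℝ) ≤ N := by exact_mod_cast hN
  have h1 : L ^ 3 ≤ (3 * N + 3) * (4 * N + 3) / (4 * N ^ 2) := by
    refine Lpow_le (by omega) hL hLN (by positivity) ?_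
    rcases Nat.lt_or_ge N 5 with h | h
    · interval_cases N <;> norm_num
    · refine (big3 h).trans (pow_le_pow_left₀ (by norm_num) ?_ _)
      rw [le_div_iff₀ (by positivity)]
      nlinarith
  rw [bq2 hN]
  have h2 := mul_le_mul_of_nonneg_right h1
    (by positivity : (0 : ℝ) ≤ N / (3 * N + 3) * (2 * N / (4 * N + 3)))
  refine h2.trans (le_of_eq ?_)
  field_simp
  ring

/-- `c₀ = 3` -/
theorem nv3 (hN : 1 ≤ N) (hL : 0 < L) (hLN : L ^ N = N + 1) :
    L ^ 4 * bq N 3 (2 * N + 4) ≤ (N + 2) / (2 * (2 * N + 3)) := by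
  have hN2 : (1 : ℝ) ≤ N := by exact_mod_cast hN
  have h1 : L ^ 4 ≤ (3 * N + 4) * (4 * N + 4) * (5 * N + 4) * (N + 2) /
      (12 * N ^ 3 * (2 * N + 3)) := by
    refine Lpow_le (by omega) hL hLN (by positivity) ?_
    rcases Nat.lt_or_ge N 11 with h | h
    · interval_cases N <;> norm_num
    · refine (big4 h).trans (pow_le_pow_left₀ (by norm_num) ?_ _)
      rw [le_div_iff₀ (by positivity), ← sub_nonneg]
      ring_nf
      positivity
  rw [bq3 hN]
  have h2 := mul_le_mul_of_nonneg_right h1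
    (by positivity : (0 : ℝ) ≤ N / (3 * N + 4) * (2 * N / (4 * N + 4)) * (3 * N / (5 * N + 4)))
  refine h2.trans (le_of_eq ?_)
  field_simp
  ring

/-- `c₀ = 4` -/
theorem nv4 (hN : 2 ≤ N) (hL : 0 < L) (hLN : L ^ N = N + 1) :
    L ^ 5 * bq N 4 (2 * N + 5) ≤ (N + 2) ^ 2 / (2 * (2 * N + 3) * (N + 4)) := by
  have hN2 : (2 : ℝ) ≤ N := by exact_mod_cast hN
  have h1 : L ^ 5 ≤ (3 * N + 5) * (4 * N + 5) * (5 * N + 5) * (6 * N + 5) * (N + 2) ^ 2 /
      (48 * N ^ 4 * (2 * N + 3) * (N + 4)) := by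
    refine Lpow_le (by omega) hL hLN (by positivity) ?_
    rcases Nat.lt_or_ge N 9 with h | h
    · interval_cases N <;> norm_num
    · refine (big5 h).trans (pow_le_pow_left₀ (by norm_num) ?_ _)
      rw [le_div_iff₀ (by positivity), ← sub_nonneg]
      ring_nf
      positivity
  rw [bq4 (by omega)]
  have h2 := mul_le_mul_of_nonneg_right h1
    (by positivity : (0 : ℝ) ≤ N / (3 * N + 5) * (2 * N / (4 * N + 5)) * (3 * N / (5 * N + 5)) *
      (4 * N / (6 * N + 5)))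
  refine h2.trans (le_of_eq ?_)
  field_simp
  ring

end

end MP76b19e.Rob
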