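import Pool.Agent.Lib.MP76b19e.Rob.NumH
import Pool.Agent.Lib.MP76b19e.Rob.NumV

/-!
# Numerical inequalities for two tops and base one (problem MP_76b19e_co)
-/

set_option autoImplicit false

namespace MP76b19e.Rob

open Pool.Agent.MP76b19e (H_pow_le H_ge_one)

/-- the value for `c₀ = 1`, nothing dropped -/
noncomputable def rv0 (L : ℝ) (p : ℕ) : ℝ := L * (((p : ℝ) - 1) / (3 * p - 2))

/-- the value for `c₀ = 1`, one unit dropped -/
noncomputable def rv1 (L : ℝ) (p : ℕ) : ℝ := L ^ 2 * (((p : ℝ) - 1) / (3 * p - 1))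

section

variable {p : ℕ} {L H : ℝ}

private theorem L_le (hp : 2 ≤ p) (hL : 0 < L) (hLq : L ^ (p - 1) = p) {a : ℕ} {r : ℝ}
    (hr : 0 ≤ r) (h : (p : ℝ) ^ a ≤ r ^ (p - 1)) : L ^ a ≤ r := by
  refine le_of_pow_le_pow_left₀ (n := p - 1) (by omega) hr ?_
  rw [← pow_mul, mul_comm, pow_mul, hLq]
  exact h

private theorem bigp2 (hp : 15 ≤ p) : (p : ℝ) ^ 2 ≤ (3 / 2) ^ (p - 1) := by
  have h1 := big2 (N := p - 1) (by omega)
  rw [Nat.cast_sub (by omega : 1 ≤ p)] at h1
  push_cast at h1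
  rw [show (p : ℝ) - 1 + 1 = p by ring] at h1
  exact h1

theorem rv0_nonneg (hp : 2 ≤ p) (hL : 0 < L) : 0 ≤ rv0 L p := by
  have hp2 : (2 : ℝ) ≤ p := by exact_mod_cast hp
  exact mul_nonneg hL.le (div_nonneg (by linarith) (by linarith))

theorem rv1_nonneg (hp : 2 ≤ p) (hL : 0 < L) : 0 ≤ rv1 L p := by
  have hp2 : (2 : ℝ) ≤ p := by exact_mod_cast hp
  exact mul_nonneg (by positivity) (div_nonneg (by linarith) (by linarith))

theorem rv1_le_a (hp : 2 ≤ p) (hL : 0 < L) (hLq : L ^ (p - 1) = p) :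
    rv1 L p ≤ (p + 3) / (2 * (p + 1)) := by
  have hp2 : (2 : ℝ) ≤ p := by exact_mod_cast hp
  have h1 : (0 : ℝ) < p - 1 := by linarith
  have h3 : (0 : ℝ) < 3 * p - 1 := by linarith
  have h4 : (0 : ℝ) < p + 1 := by linarith
  have hb : L ^ 2 ≤ (3 * p - 1) * (p + 3) / (2 * (p - 1) * (p + 1)) := by
    refine L_le hp hL hLq (by positivity) ?_
    rcases Nat.lt_or_ge p 15 with h | h
    · interval_cases p <;> norm_num
    · refine (bigp2 h).trans (pow_le_pow_left₀ (by norm_num) ?_ _)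
      rw [le_div_iff₀ (by positivity)]
      nlinarith
  unfold rv1
  calc L ^ 2 * (((p : ℝ) - 1) / (3 * p - 1))
      ≤ (3 * p - 1) * (p + 3) / (2 * (p - 1) * (p + 1)) * (((p : ℝ) - 1) / (3 * p - 1)) :=
        mul_le_mul_of_nonneg_right hb (by positivity)
    _ = (p + 3) / (2 * (p + 1)) := by field_simp

theorem rv1_le_b (hp : 2 ≤ p) (hL : 0 < L) (hLq : L ^ (p - 1) = p) :
    rv1 L p ≤ (p + 1) / (2 * p - 1) := by
  have hp2 : (2 : ℝ) ≤ p := by exact_mod_cast hp
  have h1 : (0 : ℝ) < p - 1 := by linarith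
  have h2 : (0 : ℝ) < 2 * p - 1 := by linarith
  have h3 : (0 : ℝ) < 3 * p - 1 := by linarith
  have hb : L ^ 2 ≤ (3 * p - 1) * (p + 1) / ((p - 1) * (2 * p - 1)) := by
    refine L_le hp hL hLq (by positivity) ?_
    rcases Nat.lt_or_ge p 15 with h | h
    · interval_cases p <;> norm_num
    · refine (bigp2 h).trans (pow_le_pow_left₀ (by norm_num) ?_ _)
      rw [le_div_iff₀ (by positivity)]
      nlinarith
  unfold rv1
  calc L ^ 2 * (((p : ℝ) - 1) / (3 * p - 1))
      ≤ (3 * p - 1) * (p + 1) / ((p - 1) * (2 * p - 1)) * (((p : ℝ) - 1) / (3 * p - 1)) :=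
        mul_le_mul_of_nonneg_right hb (by positivity)
    _ = (p + 1) / (2 * p - 1) := by field_simp

theorem rv1_le_one (hp : 2 ≤ p) (hL : 0 < L) (hLq : L ^ (p - 1) = p) : rv1 L p ≤ 1 := by
  have hp2 : (2 : ℝ) ≤ p := by exact_mod_cast hp
  refine (rv1_le_b hp hL hLq).trans ?_
  rw [div_le_one (by linarith)]
  linarith

private theorem big1 : ∀ k : ℕ, ((k : ℝ) + 5) ≤ (3 / 2) ^ (k + 4) := by
  intro k
  induction k with
  | zero => norm_num
  | succ k ih =>
    rw [show k + 1 + 4 = (k + 4) + 1 by ring, pow_succ]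
    push_cast
    nlinarith [(Nat.cast_nonneg k : (0 : ℝ) ≤ k)]

theorem rv0_le (hp : 2 ≤ p) (hL : 0 < L) (hLq : L ^ (p - 1) = p) :
    rv0 L p ≤ (p + 1) * (p - 1) / (p * (2 * p - 1)) := by
  have hp2 : (2 : ℝ) ≤ p := by exact_mod_cast hp
  have hp0 : (0 : ℝ) < p := by linarith
  have h1 : (0 : ℝ) < p - 1 := by linarith
  have h2 : (0 : ℝ) < 2 * p - 1 := by linarith
  have h3 : (0 : ℝ) < 3 * p - 2 := by linarith
  have hb : L ^ 1 ≤ (p + 1) * (3 * p - 2) / (p * (2 * p - 1)) := by
    refine L_le hp hL hLq (by positivity) ?_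
    rcases Nat.lt_or_ge p 5 with h | h
    · interval_cases p <;> norm_num
    · rw [pow_one]
      have h4 : (p : ℝ) ≤ (3 / 2) ^ (p - 1) := by
        have h5 := big1 (p - 5)
        rw [Nat.cast_sub h, show p - 5 + 4 = p - 1 by omega] at h5
        push_cast at h5
        linarith
      refine h4.trans (pow_le_pow_left₀ (by norm_num) ?_ _)
      rw [le_div_iff₀ (by positivity)]
      nlinarith
  rw [pow_one] at hb
  unfold rv0
  calc L * (((p : ℝ) - 1) / (3 * p - 2))
      ≤ (p + 1) * (3 * p - 2) / (p * (2 * p - 1)) * (((p : ℝ) - 1) / (3 * p - 2)) :=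
        mul_le_mul_of_nonneg_right hb (by positivity)
    _ = (p + 1) * (p - 1) / (p * (2 * p - 1)) := by
        have e1 := h3.ne'
        have e2 := h2.ne'
        rw [div_mul_div_comm, div_eq_div_iff (by positivity) (by positivity)]
        ring

theorem rv_sum (hp : 2 ≤ p) (hL : 0 < L) (hLq : L ^ (p - 1) = p) :
    rv1 L p + rv0 L p ≤ (p + 1) / p := by
  have hp2 : (2 : ℝ) ≤ p := by exact_mod_cast hp
  have hp0 : (0 : ℝ) < p := by linarith
  have h2 : (0 : ℝ) < 2 * p - 1 := by linarith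
  have h3 := rv1_le_b hp hL hLq
  have h4 := rv0_le hp hL hLq
  have e1 : ((p : ℝ) + 1) / (2 * p - 1) + (p + 1) * (p - 1) / (p * (2 * p - 1)) = (p + 1) / p := by
    rw [div_add_div _ _ h2.ne' (by positivity), div_eq_div_iff (by positivity) (by positivity)]
    ring
  linarith

theorem H_lower (hp : 2 ≤ p) (hH : 0 < H) (hHq : H ^ (p - 1) = 2 * p / (p + 1)) :
    2 * p / (2 * p - 1) ≤ H := by
  have hp2 : (2 : ℝ) ≤ p := by exact_mod_cast hp
  have hp0 : (0 : ℝ) < p := by linarith
  have h2 : (0 : ℝ) < 2 * p - 1 := by linarith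
  refine le_of_pow_le_pow_left₀ (n := p - 1) (by omega) hH.le ?_
  rw [hHq, div_pow, div_le_div_iff₀ (by positivity) (by positivity)]
  -- Bernoulli
  have h3 := one_add_mul_le_pow (show (-2 : ℝ) ≤ -(1 / (2 * p)) by
    have : 1 / (2 * (p : ℝ)) ≤ 1 := by
      rw [div_le_one (by positivity)]
      linarith
    linarith) (p - 1)
  have e1 : 1 + -(1 / (2 * (p : ℝ))) = (2 * p - 1) / (2 * p) := by
    field_simp
    ring
  rw [e1, Nat.cast_sub (by omega : 1 ≤ p), Nat.cast_one, div_pow] at h3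
  have e2 : 1 + ((p : ℝ) - 1) * -(1 / (2 * p)) = (p + 1) / (2 * p) := by
    field_simp
    ring
  rw [e2, div_le_div_iff₀ (by positivity) (by positivity)] at h3
  linarith

/-- `H ^ j` for `j ≤ p + 1` -/
theorem H_three_half (hp : 2 ≤ p) (hH : 0 < H) (hHq : H ^ (p - 1) = 2 * p / (p + 1)) {j : ℕ}
    (hj : j ≤ p + 1) : H ^ j ≤ 1 + 3 / 2 * j / (p + 1) := by
  have hp2 : (2 : ℝ) ≤ p := by exact_mod_cast hp
  have hp0 : (0 : ℝ) < p := by linarith
  have h1 := Hs1 hp hH hHq
  rcases Nat.lt_or_ge (p - 1) j with h | h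
  · rcases Nat.lt_or_ge p j with h2 | h2
    · have h3 : j = (p - 1) + 2 := by omega
      rw [h3, pow_add, hHq]
      have h4 : H ^ 2 ≤ ((p + 2) / (p + 1)) ^ 2 := pow_le_pow_left₀ hH.le h1 2
      refine (mul_le_mul_of_nonneg_left h4 (by positivity)).trans ?_
      push_cast [Nat.cast_sub (by omega : 1 ≤ p)]
      rw [div_pow, div_mul_div_comm, show 1 + 3 / 2 * ((p : ℝ) - 1 + 2) / (p + 1) = 5 / 2 by
        field_simp
        ring, div_le_div_iff₀ (by positivity) (by norm_num)]
      nlinarith [mul_nonneg (sub_nonneg.2 hp2) (sq_nonneg (p : ℝ)), sq_nonneg ((p : ℝ) - 1)]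
    · have h3 : j = (p - 1) + 1 := by omega
      rw [h3, pow_succ, hHq]
      refine (mul_le_mul_of_nonneg_left h1 (by positivity)).trans ?_
      push_cast [Nat.cast_sub (by omega : 1 ≤ p)]
      rw [div_mul_div_comm, show 1 + 3 / 2 * ((p : ℝ) - 1 + 1) / (p + 1) =
        (5 * p + 2) / (2 * (p + 1)) by
          field_simp
          ring, div_le_div_iff₀ (by positivity) (by positivity)]
      nlinarith [mul_nonneg (sub_nonneg.2 hp2) (sq_nonneg (p : ℝ)), sq_nonneg ((p : ℝ) - 1)]
  · refine (H_pow_le hp hH hHq h).trans ?_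
    have h3 : (0 : ℝ) ≤ j := Nat.cast_nonneg j
    have h4 : (j : ℝ) / (p + 1) ≤ 3 / 2 * j / (p + 1) :=
      div_le_div_of_nonneg_right (by linarith) (by positivity)
    linarith

/-- one over-full top -/
theorem num_c1A (hp : 2 ≤ p) (hL : 0 < L) (hLq : L ^ (p - 1) = p) (hH : 0 < H)
    (hHq : H ^ (p - 1) = 2 * p / (p + 1)) {k : ℕ} (hk : k ≤ 2 * p) {S : ℝ}
    (h1 : 1 + ((k : ℝ) + 2) / (p + 1) ≤ S)
    (h2 : p - 1 ≤ k → 1 + (3 * (k : ℝ) + 4 - 2 * p) / (p + 1) ≤ S) :
    (rv1 L p + rv0 L p) * H ^ k ≤ S := by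
  have hp2 : (2 : ℝ) ≤ p := by exact_mod_cast hp
  have hp0 : (0 : ℝ) < p := by linarith
  have hR := rv_sum hp hL hLq
  have hk0 : (0 : ℝ) ≤ k := Nat.cast_nonneg k
  rcases Nat.lt_or_ge (p - 1) k with h | h
  · obtain ⟨j, hj⟩ : ∃ j, k = (p - 1) + j := ⟨k - (p - 1), by omega⟩
    have h3 := h2 (by omega)
    have h4 := H_three_half hp hH hHq (j := j) (by omega)
    rw [hj, pow_add, hHq]
    have hkr : (k : ℝ) = p - 1 + j := by
      rw [hj]
      push_cast [Nat.cast_sub (by omega : 1 ≤ p)]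
      ring
    rw [hkr] at h3
    have hHj : 0 ≤ H ^ j := by positivity
    calc (rv1 L p + rv0 L p) * (2 * p / (p + 1) * H ^ j)
        ≤ (p + 1) / p * (2 * p / (p + 1) * H ^ j) :=
          mul_le_mul_of_nonneg_right hR (by positivity)
      _ = 2 * H ^ j := by field_simp
      _ ≤ 2 * (1 + 3 / 2 * j / (p + 1)) := by linarith
      _ = 1 + (3 * ((p : ℝ) - 1 + j) + 4 - 2 * p) / (p + 1) := by
          field_simp
          ring
      _ ≤ S := h3
  · have h4 := H_pow_le hp hH hHq h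
    have hkp : (k : ℝ) ≤ p - 1 := by
      have : (k : ℝ) ≤ ((p - 1 : ℕ) : ℝ) := by exact_mod_cast h
      rwa [Nat.cast_sub (by omega : 1 ≤ p), Nat.cast_one] at this
    calc (rv1 L p + rv0 L p) * H ^ k
        ≤ (p + 1) / p * (1 + k / (p + 1)) := mul_le_mul hR h4 (by positivity) (by positivity)
      _ = (p + 1 + k) / p := by field_simp
      _ ≤ 1 + ((k : ℝ) + 2) / (p + 1) := by
          rw [show 1 + ((k : ℝ) + 2) / (p + 1) = (p + 3 + k) / (p + 1) by
            field_simp
            ring, div_le_div_iff₀ hp0 (by positivity)]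
          nlinarith
      _ ≤ S := h1

/-- two over-full tops -/
theorem num_c1B (hp : 2 ≤ p) (hL : 0 < L) (hLq : L ^ (p - 1) = p) (hH : 0 < H)
    (hHq : H ^ (p - 1) = 2 * p / (p + 1)) {O : ℕ} (hO1 : 1 ≤ O) (hO : O ≤ 2 * p + 1) {S : ℝ}
    (h1 : 1 + ((O : ℝ) + 1) / (p + 1) ≤ S)
    (h2 : p ≤ O → 1 + (3 * (O : ℝ) - 2 * p + 1) / (p + 1) ≤ S) :
    2 * rv1 L p * H ^ (O - 2) ≤ S := by
  have hp2 : (2 : ℝ) ≤ p := by exact_mod_cast hp
  have hp0 : (0 : ℝ) < p := by linarith
  have h2p : (0 : ℝ) < 2 * p - 1 := by linarith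
  have ha := rv1_le_a hp hL hLq
  have hb := rv1_le_b hp hL hLq
  have hr := rv1_nonneg hp hL
  have hH1 := H_ge_one hp hH hHq
  have ha2 : 2 * rv1 L p ≤ (p + 3) / (p + 1) := by
    have e1 : ((p : ℝ) + 3) / (p + 1) = 2 * ((p + 3) / (2 * (p + 1))) := by field_simp
    rw [e1]
    linarith
  rcases Nat.lt_or_ge O 2 with h | h
  · have h3 : O = 1 := by omega
    subst h3
    rw [show 1 - 2 = 0 from rfl, pow_zero, mul_one]
    refine ha2.trans (le_trans (le_of_eq ?_) h1)
    push_cast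
    field_simp
    ring
  · rcases Nat.lt_or_ge p O with h3 | h3
    · -- `O ≥ p + 1`
      obtain ⟨i, hi⟩ : ∃ i, O = p + 1 + i := ⟨O - (p + 1), by omega⟩
      have h4 := h2 (by omega)
      have h5 : O - 2 = (p - 1) + i := by omega
      rw [h5, pow_add, hHq]
      have hOr : (O : ℝ) = p + 1 + i := by
        rw [hi]
        push_cast
        ring
      rw [hOr] at h4
      have hi0 : (0 : ℝ) ≤ i := Nat.cast_nonneg i
      have h6 : 2 * rv1 L p * (2 * p / (p + 1) * H ^ i) ≤ 4 * p / (2 * p - 1) * H ^ i := by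
        have h7 : 2 * rv1 L p * (2 * p / (p + 1)) ≤ 4 * p / (2 * p - 1) := by
          calc 2 * rv1 L p * (2 * p / (p + 1))
              ≤ 2 * ((p + 1) / (2 * p - 1)) * (2 * p / (p + 1)) :=
                mul_le_mul_of_nonneg_right (by linarith) (by positivity)
            _ = 4 * p / (2 * p - 1) := by
                field_simp
                ring
        have h8 := mul_le_mul_of_nonneg_right h7 (by positivity : (0 : ℝ) ≤ H ^ i)
        linarith
      refine h6.trans (le_trans ?_ h4)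
      have e2 : 1 + (3 * ((p : ℝ) + 1 + i) - 2 * p + 1) / (p + 1) = (2 * p + 5 + 3 * i) / (p + 1) := by
        field_simp
        ring
      rw [e2]
      rcases Nat.lt_or_ge (p - 1) i with h7 | h7
      · have h8 : i = (p - 1) + 1 := by omega
        have h9 := Hs1 hp hH hHq
        have hir : (i : ℝ) = p := by
          rw [h8]
          push_cast [Nat.cast_sub (by omega : 1 ≤ p)]
          ring
        have h10 : H ^ i ≤ 2 * p / (p + 1) * ((p + 2) / (p + 1)) := by
          rw [h8, pow_succ, hHq]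
          exact mul_le_mul_of_nonneg_left h9 (by positivity)
        refine (mul_le_mul_of_nonneg_left h10 (by positivity)).trans ?_
        rw [hir, div_mul_div_comm, div_mul_div_comm, div_le_div_iff₀ (by positivity) (by positivity)]
        have h11 : 0 ≤ 2 * (p : ℝ) ^ 3 - p ^ 2 - 5 := by
          nlinarith [mul_nonneg (sub_nonneg.2 hp2) (sq_nonneg (p : ℝ)), sq_nonneg ((p : ℝ) - 2)]
        have h12 : 0 ≤ ((p : ℝ) + 1) * (2 * (p : ℝ) ^ 3 - p ^ 2 - 5) :=
          mul_nonneg (by linarith) h11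
        nlinarith
      · have h8 := H_pow_le hp hH hHq h7
        refine (mul_le_mul_of_nonneg_left h8 (by positivity)).trans ?_
        rw [show 1 + (i : ℝ) / (p + 1) = (p + 1 + i) / (p + 1) by field_simp, div_mul_div_comm,
          div_le_div_iff₀ (by positivity) (by positivity)]
        have h9 : 4 * (p : ℝ) * (p + 1 + i) ≤ (2 * p + 5 + 3 * i) * (2 * p - 1) := by nlinarith
        have h10 := mul_le_mul_of_nonneg_right h9 (by linarith : (0 : ℝ) ≤ p + 1)
        nlinarith
    · -- `2 ≤ O ≤ p`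
      have hOr : (O : ℝ) = ((O - 2 : ℕ) : ℝ) + 2 := by
        rw [Nat.cast_sub h]
        push_cast
        ring
      have h4 := pow_affine (x := H) (a := 2 * rv1 L p) (α := 1 + 3 / ((p : ℝ) + 1))
        (β := 1 / ((p : ℝ) + 1)) (u := O - 2) (M := p - 2) hH1 (by linarith) (by omega) (by
          refine ha2.trans ?_
          rw [show 1 + 3 / ((p : ℝ) + 1) = (p + 4) / (p + 1) by
            field_simp
            ring]
          exact div_le_div_of_nonneg_right (by linarith) (by positivity)) (by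
          have h5 : H ^ (p - 2) * H = 2 * p / (p + 1) := by
            rw [← pow_succ, show p - 2 + 1 = p - 1 by omega, hHq]
          have h6 := H_lower hp hH hHq
          have h7 : 0 ≤ H ^ (p - 2) := by positivity
          have h8 : rv1 L p * H ^ (p - 2) ≤ 1 := by
            have h9 : (p + 1) / (2 * p - 1) * H ^ (p - 2) * (2 * p / (2 * p - 1)) ≤
                (p + 1) / (2 * p - 1) * (2 * p / (p + 1)) := by
              rw [← h5, mul_assoc]
              exact mul_le_mul_of_nonneg_left (mul_le_mul_of_nonneg_left h6 h7) (by positivity)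
            have e3 : ((p : ℝ) + 1) / (2 * p - 1) * (2 * p / (p + 1)) = 2 * p / (2 * p - 1) := by
              field_simp
            rw [e3] at h9
            have h10 : 0 < 2 * (p : ℝ) / (2 * p - 1) := by positivity
            have h11 : (p + 1) / (2 * p - 1) * H ^ (p - 2) ≤ 1 := by
              by_contra hcon
              push Not at hcon
              have := mul_lt_mul_of_pos_right hcon h10
              linarith
            exact (mul_le_mul_of_nonneg_right hb h7).trans h11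
          have h9 : 1 + 3 / ((p : ℝ) + 1) + 1 / ((p : ℝ) + 1) * ((p - 2 : ℕ) : ℝ) = 2 := by
            rw [Nat.cast_sub hp]
            push_cast
            field_simp
            ring
          rw [h9]
          linarith)
      refine h4.trans (le_trans (le_of_eq ?_) h1)
      rw [hOr]
      field_simp
      ring

/-- a fat top -/
theorem num_fat (hp : 2 ≤ p) (hL : 0 < L) (hLq : L ^ (p - 1) = p) (hH : 0 < H)
    (hHq : H ^ (p - 1) = 2 * p / (p + 1)) {k : ℕ} (hk : k ≤ 2 * p) {S : ℝ}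
    (h1 : 1 + ((k : ℝ) + 1) / (p + 1) ≤ S) :
    (p : ℝ) / (p + 1) * (rv1 L p * H ^ k) ≤ S := by
  have hp2 : (2 : ℝ) ≤ p := by exact_mod_cast hp
  have hp0 : (0 : ℝ) < p := by linarith
  have h2p : (0 : ℝ) < 2 * p - 1 := by linarith
  have hb := rv1_le_b hp hL hLq
  have hk0 : (0 : ℝ) ≤ k := Nat.cast_nonneg k
  rcases Nat.lt_or_ge (p - 1) k with h | h
  · obtain ⟨j, hj⟩ : ∃ j, k = (p - 1) + j := ⟨k - (p - 1), by omega⟩
    have h4 := H_three_half hp hH hHq (j := j) (by omega)
    have hj1 : j ≤ p + 1 := by omega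
    have hj1r : (j : ℝ) ≤ p + 1 := by exact_mod_cast hj1
    have hj0 : (0 : ℝ) ≤ j := Nat.cast_nonneg j
    rw [hj, pow_add, hHq]
    have hkr : (k : ℝ) = p - 1 + j := by
      rw [hj]
      push_cast [Nat.cast_sub (by omega : 1 ≤ p)]
      ring
    rw [hkr] at h1
    have hHj : 0 ≤ H ^ j := by positivity
    calc (p : ℝ) / (p + 1) * (rv1 L p * (2 * p / (p + 1) * H ^ j))
        ≤ (p : ℝ) / (p + 1) * ((p + 1) / (2 * p - 1) * (2 * p / (p + 1) * H ^ j)) := by
          refine mul_le_mul_of_nonneg_left ?_ (by positivity)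
          exact mul_le_mul_of_nonneg_right hb (by positivity)
      _ = 2 * p ^ 2 / ((2 * p - 1) * (p + 1)) * H ^ j := by
          have := h2p.ne'
          field_simp
      _ ≤ 2 * p ^ 2 / ((2 * p - 1) * (p + 1)) * (1 + 3 / 2 * j / (p + 1)) :=
          mul_le_mul_of_nonneg_left h4 (by positivity)
      _ ≤ 1 + (((p : ℝ) - 1 + j) + 1) / (p + 1) := by
          have e1 : 1 + (((p : ℝ) - 1 + j) + 1) / (p + 1) = (2 * p + 1 + j) / (p + 1) := by
            field_simp
            ring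
          have e2 : 1 + 3 / 2 * (j : ℝ) / (p + 1) = (2 * (p + 1) + 3 * j) / (2 * (p + 1)) := by
            field_simp
          rw [e1, e2, div_mul_div_comm, div_le_div_iff₀ (by positivity) (by positivity)]
          have h5 : 2 * (p : ℝ) ^ 2 * (2 * (p + 1) + 3 * j) ≤
              (2 * p + 1 + j) * ((2 * p - 1) * (2 * (p + 1))) := by
            nlinarith [mul_nonneg hj0 (by linarith : (0 : ℝ) ≤ p + 1 - j), mul_nonneg hp0.le
              (by linarith : (0 : ℝ) ≤ p + 1 - j), mul_nonneg (mul_nonneg hp0.le hp0.le)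
              (by linarith : (0 : ℝ) ≤ p + 1 - j), mul_nonneg (mul_nonneg hp0.le hp0.le) hj0,
              mul_nonneg hp0.le hj0, mul_nonneg hp0.le (by linarith : (0 : ℝ) ≤ p - 2)]
          have h6 := mul_le_mul_of_nonneg_right h5 (by linarith : (0 : ℝ) ≤ p + 1)
          nlinarith
      _ ≤ S := h1
  · have h4 := H_pow_le hp hH hHq h
    have h5 := rv1_le_one hp hL hLq
    have h6 := rv1_nonneg hp hL (p := p)
    calc (p : ℝ) / (p + 1) * (rv1 L p * H ^ k)
        ≤ 1 * (1 * (1 + k / (p + 1))) := by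
          refine mul_le_mul ?_ ?_ (by positivity) (by norm_num)
          · rw [div_le_one (by positivity)]
            linarith
          · exact mul_le_mul h5 h4 (by positivity) (by norm_num)
      _ ≤ 1 + ((k : ℝ) + 1) / (p + 1) := by
          rw [one_mul, one_mul, add_div]
          have : 0 ≤ 1 / ((p : ℝ) + 1) := by positivity
          linarith
      _ ≤ S := h1

end

end MP76b19e.Rob
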