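import Pool.Agent.Lib.MP76b19e.Rob.Kst21
import Pool.Agent.Lib.MP76b19e.Rob.NO2
import Pool.Agent.Lib.MP76b19e.Rob.NumL

/-!
# `KSt p 1 2 1` for two tops and base one (problem MP_76b19e_co)
-/

set_option autoImplicit false

open Finset

namespace MP76b19e.Rob

open Pool.Agent.MP76b19e (bq H_ge_one H_pow_le)

variable {V : Type} [DecidableEq V]

private theorem bq1a {N : ℕ} : bq N 1 (2 * N + 1) = N / (3 * N + 1) := by
  unfold bq
  rw [prod_range_succ, prod_range_zero]
  push_cast
  ring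

section

variable {K : Finset V} {m : Finset V → ℝ} {p : ℕ} {L H : ℝ} {t : V}

/-- the product bound, base one -/
private theorem gw_gen (hp : 2 ≤ p) (hL : 0 < L) (hH : 0 < H) (hLq : L ^ (p - 1) = p)
    (hHq : H ^ (p - 1) = 2 * p / (p + 1)) (hint : ∀ E, ∃ k : ℕ, m E = k)
    (hK : 2 ≤ K.card) (hone : ∀ j ∈ K, 1 ≤ m {j}) (hc : m ∅ = 1)
    (ha : ∀ j ∈ K, pa m K j ≤ p) {On d : ℕ} (hOn : po m K = On)
    (hpal : pal m K = ((K.card : ℝ) - 2) * p + 2 - d) :
    (p : ℝ) ^ (K.card - 2) * Ival m K ≤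
      L ^ (1 + d) * bq (p - 1) 1 (2 * (p - 1) + 1 + d) * H ^ On := by
  choose mn hmn using hint
  have hmn0 : mn ∅ = 1 := by
    have h1 := hmn ∅
    rw [hc] at h1
    exact_mod_cast h1.symm
  have h1 := mass_gw (m := m) (K := K) hp hL hH hLq hHq hmn (fun j hj => by
      have h2 := hone j hj
      rw [hmn] at h2
      exact_mod_cast h2) ha (c0 := 1) (On := On) (Δ := 2 * (p - 1) + 1 + d)
      (by rw [hmn0]) hOn (by
        rw [hpal]
        push_cast [Nat.cast_sub (by omega : 1 ≤ p)]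
        ring)
  rw [hmn0, Nat.sub_self, Nat.sub_zero] at h1
  have hp0 : (0 : ℝ) < p := by
    have : 0 < p := by omega
    exact_mod_cast this
  have hLp : L ^ (2 * (p - 1) + 1 + d) = (p : ℝ) ^ 2 * L ^ (1 + d) := by
    have h4 : 2 * (p - 1) + 1 + d = (p - 1) * 2 + (1 + d) := by ring
    rw [h4, pow_add, pow_mul, hLq]
  have hpw : (p : ℝ) ^ K.card = p ^ 2 * p ^ (K.card - 2) := by
    rw [← pow_add]
    congr 1
    omega
  rw [hLp, hpw] at h1
  have h5 : (p : ℝ) ^ 2 * ((p : ℝ) ^ (K.card - 2) * Ival m K) ≤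
      (p : ℝ) ^ 2 * (L ^ (1 + d) * bq (p - 1) 1 (2 * (p - 1) + 1 + d) * H ^ On) := by
    refine le_trans (le_of_eq ?_) (h1.trans (le_of_eq ?_)) <;> ring
  exact le_of_mul_le_mul_left h5 (by positivity)

private theorem cast_pred'' (hp : 2 ≤ p) : ((p - 1 : ℕ) : ℝ) = p - 1 := by
  rw [Nat.cast_sub (by omega), Nat.cast_one]

/-- nothing over-full -/
private theorem gG0 (hp : 2 ≤ p) (hL : 0 < L) (hH : 0 < H) (hLq : L ^ (p - 1) = p)
    (hHq : H ^ (p - 1) = 2 * p / (p + 1)) (hint : ∀ E, ∃ k : ℕ, m E = k)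
    (hK : 2 ≤ K.card) (hone : ∀ j ∈ K, 1 ≤ m {j}) (hc : m ∅ = 1)
    (ha : ∀ j ∈ K, pa m K j ≤ p) {On : ℕ} (hOn : po m K = On)
    (hpal : pal m K = ((K.card : ℝ) - 2) * p + 2) :
    (p : ℝ) ^ (K.card - 2) * Ival m K ≤ rv0 L p * H ^ On := by
  have h1 := gw_gen hp hL hH hLq hHq hint hK hone hc ha (d := 0) hOn (by
    rw [hpal]
    push_cast
    ring)
  rw [add_zero, add_zero, bq1a, pow_one, cast_pred'' hp] at h1
  unfold rv0
  have e1 : 3 * ((p : ℝ) - 1) + 1 = 3 * p - 2 := by ring
  rw [e1] at h1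
  exact h1

private theorem gG1' (hp : 2 ≤ p) (hL : 0 < L) (hH : 0 < H) (hLq : L ^ (p - 1) = p)
    (hHq : H ^ (p - 1) = 2 * p / (p + 1)) (hint : ∀ E, ∃ k : ℕ, m E = k)
    (hK : 2 ≤ K.card) (hone : ∀ j ∈ K, 1 ≤ m {j}) (hc : m ∅ = 1)
    (ha : ∀ j ∈ K, pa m K j ≤ p) {On : ℕ} (hOn : po m K = On)
    (hpal : pal m K = ((K.card : ℝ) - 2) * p + 1) :
    (p : ℝ) ^ (K.card - 2) * Ival m K ≤ rv1 L p * H ^ On := by
  have h1 := gw_gen hp hL hH hLq hHq hint hK hone hc ha (d := 1) hOn (by
    rw [hpal]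
    push_cast
    ring)
  rw [show 2 * (p - 1) + 1 + 1 = 2 * (p - 1) + 2 by ring, bq1 (by omega), cast_pred'' hp] at h1
  unfold rv1
  have e1 : 3 * ((p : ℝ) - 1) + 2 = 3 * p - 1 := by ring
  rw [e1] at h1
  exact h1

/-- a fat element -/
private theorem gGf (hp : 2 ≤ p) (hL : 0 < L) (hH : 0 < H) (hLq : L ^ (p - 1) = p)
    (hHq : H ^ (p - 1) = 2 * p / (p + 1)) (h : PosM m) (hint : ∀ E, ∃ k : ℕ, m E = k)
    (hK : 4 ≤ K.card) (hone : ∀ j ∈ K, 1 ≤ m {j}) (hc : m ∅ = 1) (ht : t ∈ K)
    (ha : ∀ j ∈ K, j ≠ t → pa m K j ≤ p) (hat : pa m K t = (p : ℝ) + 1)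
    (hf : m {t} = (p : ℝ) + 1) {On : ℕ} (hOn : po m K = On)
    (hpal : pal m K = ((K.card : ℝ) - 2) * p + 2) :
    (p : ℝ) ^ (K.card - 2) * Ival m K ≤ p / (p + 1) * (rv1 L p * H ^ On) := by
  have hp0 : (0 : ℝ) < p := by
    have : 0 < p := by omega
    exact_mod_cast this
  obtain ⟨On', hOn'⟩ := po_int hint (K.erase t)
  have hcard : (K.erase t).card = K.card - 1 := card_erase_of_mem ht
  have hcr : ((K.erase t).card : ℝ) = K.card - 1 := by
    rw [hcard, Nat.cast_sub (by omega), Nat.cast_one]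
  have hle : On' ≤ On := by
    have h1 := po_erase (m := m) (K := K) t
    have h2 : 0 ≤ ∑ D ∈ K.powerset, if t ∈ D then ((D.card - 1 : ℕ) : ℝ) * m D else 0 :=
      sum_nonneg fun D _ => by
        split_ifs
        · exact mul_nonneg (Nat.cast_nonneg _) (h.1 D)
        · exact le_rfl
    have h3 : (On' : ℝ) ≤ On := by
      rw [← hOn, ← hOn', h1]
      linarith
    exact_mod_cast h3
  have h1 := gG1' (m := m) (K := K.erase t) hp hL hH hLq hHq hint (by omega)
    (fun j hj => hone j (mem_of_mem_erase hj)) hc (fun j hj => by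
      rw [mem_erase] at hj
      exact (pa_erase_le h.1 t j).trans (ha j hj.2 hj.1)) hOn' (by
      rw [pal_erase, hpal, hat, hcr]
      ring)
  have hH1 := H_ge_one hp hH hHq
  have h2 : H ^ On' ≤ H ^ On := pow_le_pow_right₀ hH1 hle
  have h3 := mul_le_mul_of_nonneg_left h2 (rv1_nonneg hp hL)
  have h4 := mul_Ival_le_erase h ht
  rw [hf] at h4
  have hpw : (p : ℝ) ^ (K.card - 2) = p * p ^ ((K.erase t).card - 2) := by
    rw [← pow_succ', hcard]
    congr 1
    omega
  have h5 : (p : ℝ) ^ ((K.erase t).card - 2) * (((p : ℝ) + 1) * Ival m K) ≤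
      rv1 L p * H ^ On :=
    (mul_le_mul_of_nonneg_left h4 (by positivity)).trans (h1.trans h3)
  rw [hpw, div_mul_eq_mul_div, le_div_iff₀ (by positivity)]
  have h6 := mul_le_mul_of_nonneg_left h5 hp0.le
  refine le_trans (le_of_eq ?_) h6
  ring

private theorem H_p (hp : 2 ≤ p) (hH : 0 < H) (hHq : H ^ (p - 1) = 2 * p / (p + 1)) :
    (p : ℝ) / (p + 1) * H ≤ 1 := by
  have hp0 : (0 : ℝ) < p := by
    have : 0 < p := by omega
    exact_mod_cast this
  have h1 := Hs1 hp hH hHq
  have h2 := mul_le_mul_of_nonneg_left h1 (by positivity : 0 ≤ (p : ℝ) / (p + 1))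
  refine h2.trans ?_
  rw [div_mul_div_comm, div_le_one (by positivity)]
  nlinarith

/-- one over-full element -/
private theorem gG1 (hp : 2 ≤ p) (hL : 0 < L) (hH : 0 < H) (hLq : L ^ (p - 1) = p)
    (hHq : H ^ (p - 1) = 2 * p / (p + 1)) (h : PosM m) (hint : ∀ E, ∃ k : ℕ, m E = k)
    (hK : 4 ≤ K.card) (hone : ∀ j ∈ K, 1 ≤ m {j}) (hc : m ∅ = 1) (ht : t ∈ K)
    (ha : ∀ j ∈ K, j ≠ t → pa m K j ≤ p) (hat : pa m K t = (p : ℝ) + 1)
    {On : ℕ} (hOn : po m K = On) (hpal : pal m K = ((K.card : ℝ) - 2) * p + 2) :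
    (p : ℝ) ^ (K.card - 2) * Ival m K ≤ rv1 L p * H ^ (On - 1) := by
  have hp0 : (0 : ℝ) < p := by
    have : 0 < p := by omega
    exact_mod_cast this
  have hr := rv1_nonneg hp hL (p := p)
  have hH1 := H_ge_one hp hH hHq
  rcases lt_or_ge (m {t}) (pa m K t) with h1 | h1
  · obtain ⟨D, hD, htD, hD2, hD1⟩ := exists_shared hint ht h1
    obtain ⟨On', hOn'⟩ := po_int (drM_int hint hD1) K
    have h2 := gG1' (m := drM m D) (K := K) hp hL hH hLq hHq (drM_int hint hD1) (by omega)
      (fun j hj => by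
        rw [drM_single hD2]
        exact hone j hj) ((drM_empty hD2).trans hc) (fun j hj => by
        rw [pa_drM hD]
        by_cases hjt : j = t
        · rw [hjt, if_pos htD, hat]
          linarith
        · have h3 := ha j hj hjt
          split_ifs <;> linarith) hOn' (by
        rw [pal_drM hD, hpal]
        ring)
    have h3 : On' ≤ On - 1 := by
      rw [po_drM hD, hOn] at hOn'
      have h4 : (1 : ℝ) ≤ ((D.card - 1 : ℕ) : ℝ) := by
        exact_mod_cast (by omega : 1 ≤ D.card - 1)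
      have h5 : (On' : ℝ) + 1 ≤ On := by linarith
      have h6 : On' + 1 ≤ On := by exact_mod_cast h5
      omega
    have h4 : H ^ On' ≤ H ^ (On - 1) := pow_le_pow_right₀ hH1 h3
    have h5 := Ival_le_drM (K := K) h hD2 hD1
    have h6 := mul_le_mul_of_nonneg_left h5 (by positivity : 0 ≤ (p : ℝ) ^ (K.card - 2))
    exact h6.trans (h2.trans (mul_le_mul_of_nonneg_left h4 hr))
  · have hf : m {t} = (p : ℝ) + 1 := by
      rw [← hat]
      exact le_antisymm (le_pa h.1 ht) h1
    have h2 := gGf hp hL hH hLq hHq h hint hK hone hc ht ha hat hf hOn hpal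
    refine h2.trans ?_
    rcases Nat.eq_zero_or_pos On with h3 | h3
    · rw [h3]
      simp only [pow_zero, mul_one, Nat.zero_sub]
      have h4 : (p : ℝ) / (p + 1) ≤ 1 := by
        rw [div_le_one (by positivity)]
        linarith
      exact mul_le_of_le_one_left hr h4
    · have h4 : H ^ On = H ^ (On - 1) * H := by
        rw [← pow_succ]
        congr 1
        omega
      rw [h4]
      have h5 := H_p hp hH hHq
      have h6 := mul_le_mul_of_nonneg_right h5
        (by positivity : 0 ≤ rv1 L p * H ^ (On - 1))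
      refine le_trans (le_of_eq ?_) (h6.trans (le_of_eq (one_mul _)))
      ring

end

/-- two tops `s`, `t` and base one -/
structure C1 (K : Finset V) (m : Finset V → ℝ) (b : V → ℝ) (p : ℕ) (s t : V) : Prop where
  hp : 2 ≤ p
  pos : PosM m
  int : ∀ D, ∃ k : ℕ, m D = k
  one : ∀ j ∈ K, 1 ≤ m {j}
  b0 : ∀ j, 0 ≤ b j
  hs : s ∈ K
  ht : t ∈ K
  hst : s ≠ t
  hc : m ∅ = 1
  paL : ∀ j ∈ K, j ≠ s → j ≠ t → pa m K j ≤ p
  paS : pa m K s ≤ p ∨ pa m K s = (p : ℝ) + 1
  paT : pa m K t ≤ p ∨ pa m K t = (p : ℝ) + 1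
  K4 : 4 ≤ K.card
  palE : pal m K = ((K.card : ℝ) - 2) * p + 2
  bL : ∀ j ∈ K, 1 + pom m K j - (m {j} + m ∅) ≤ b j
  bS : 2 + pom m K s - (m {s} + m ∅) ≤ b s
  bT : 2 + pom m K t - (m {t} + m ∅) ≤ b t
  bsum : 1 + po m K ≤ ∑ j ∈ K, b j
  bfS : pa m K s = (p : ℝ) + 1 → 1 + po m K ≤ ∑ j ∈ K.erase s, b j
  bfT : pa m K t = (p : ℝ) + 1 → 1 + po m K ≤ ∑ j ∈ K.erase t, b j

namespace C1

variable {K : Finset V} {m : Finset V → ℝ} {b : V → ℝ} {p : ℕ} {s t : V}

private theorem symm (h : C1 K m b p s t) : C1 K m b p t s :=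
  ⟨h.hp, h.pos, h.int, h.one, h.b0, h.ht, h.hs, h.hst.symm, h.hc, fun j hj h1 h2 =>
    h.paL j hj h2 h1, h.paT, h.paS, h.K4, h.palE, h.bL, h.bT, h.bS, h.bsum, h.bfT, h.bfS⟩

private theorem p0 (h : C1 K m b p s t) : (2 : ℝ) ≤ p := by exact_mod_cast h.hp

private theorem y0 (h : C1 K m b p s t) : ∀ j ∈ K, 0 < m {j} + m ∅ := fun j hj => by
  linarith [h.one j hj, h.hc]

private theorem sA (h : C1 K m b p s t) (hw : ∀ j ∈ K, m {j} ≤ p) :
    1 + (po m K + 1) / (p + 1) ≤ 1 + ∑ j ∈ K, b j / (m {j} + m ∅) := by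
  have hp := h.p0
  have h1 := sum_div_ge' (K := K) (b := b) (y := fun j => m {j} + m ∅) (g := po m K + 1)
    (Y := (p : ℝ) + 1) (by linarith) h.y0 (fun j hj => by
      have := hw j hj
      have := h.hc
      linarith) (by linarith [h.bsum]) (fun j _ => h.b0 j)
  linarith

private theorem sB (h : C1 K m b p s t) (hw : ∀ j ∈ K, m {j} ≤ p) (hO : (p : ℝ) ≤ po m K) :
    1 + (3 * po m K + 1 - 2 * p) / (p + 1) ≤ 1 + ∑ j ∈ K, b j / (m {j} + m ∅) := by
  have hp := h.p0
  have hc := h.hc
  have h1 := sum_div_ge' (K := K) (b := b) (y := fun j => m {j} + m ∅)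
    (g := 3 * po m K + 1 - 2 * p)
    (Y := (p : ℝ) + 1) (by linarith) h.y0 (fun j hj => by
      have := hw j hj
      linarith) (by
      -- the sum of the lower bounds
      have h2 : ∑ j ∈ K, (po m K - pa m K j + ((if j = s then 1 else 0) +
          (if j = t then 1 else 0))) ≤ ∑ j ∈ K, b j := by
        refine sum_le_sum fun j hj => ?_
        have h3 := pa_add_pom (m := m) hj
        by_cases hjs : j = s
        · have h4 := h.bS
          rw [if_pos hjs, if_neg (fun h5 => h.hst (hjs.symm.trans h5)), add_zero]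
          rw [← hjs] at h4
          linarith
        · by_cases hjt : j = t
          · have h4 := h.bT
            rw [if_neg hjs, if_pos hjt, zero_add]
            rw [← hjt] at h4
            linarith
          · have h4 := h.bL j hj
            rw [if_neg hjs, if_neg hjt, add_zero]
            linarith
      rw [sum_add_distrib, sum_add_distrib, sum_ite_eq' K s, sum_ite_eq' K t, if_pos h.hs,
        if_pos h.ht, sum_sub_distrib, sum_const, nsmul_eq_mul, sum_pa, h.palE, hc] at h2
      have h3 : (4 : ℝ) ≤ K.card := by exact_mod_cast h.K4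
      have h4 := mul_nonneg (sub_nonneg.2 h3) (sub_nonneg.2 hO)
      nlinarith) (fun j _ => h.b0 j)
  linarith

private theorem sF (h : C1 K m b p s t) (hat : pa m K t = (p : ℝ) + 1)
    (hw : ∀ j ∈ K, j ≠ t → m {j} ≤ p) :
    1 + (po m K + 1) / (p + 1) ≤ 1 + ∑ j ∈ K, b j / (m {j} + m ∅) := by
  have hp := h.p0
  have hc := h.hc
  have h1 := sum_div_ge' (K := K.erase t) (b := b) (y := fun j => m {j} + m ∅)
    (g := po m K + 1) (Y := (p : ℝ) + 1) (by linarith) (fun j hj => h.y0 j (mem_of_mem_erase hj))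
    (fun j hj => by
      rw [mem_erase] at hj
      have := hw j hj.2 hj.1
      linarith) (by linarith [h.bfT hat]) (fun j _ => h.b0 j)
  have h2 : ∑ j ∈ K.erase t, b j / (m {j} + m ∅) + b t / (m {t} + m ∅) =
      ∑ j ∈ K, b j / (m {j} + m ∅) := sum_erase_add _ _ h.ht
  have h3 : 0 ≤ b t / (m {t} + m ∅) := div_nonneg (h.b0 t) (h.y0 t h.ht).le
  linarith

private theorem S0 (h : C1 K m b p s t) : 1 ≤ 1 + ∑ j ∈ K, b j / (m {j} + m ∅) := by
  have : 0 ≤ ∑ j ∈ K, b j / (m {j} + m ∅) :=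
    sum_nonneg fun j hj => div_nonneg (h.b0 j) (h.y0 j hj).le
  linarith

/-- the total overlap -/
private theorem cap (h : C1 K m b p s t) {x y : ℝ} (_ : 0 ≤ x) (hy : 0 ≤ y)
    (hs : pa m K s ≤ p + x) (ht : pa m K t ≤ p + y) : po m K ≤ 2 * p - 1 + x + y := by
  have h2 := sum_pa (m := m) (K := K)
  have h3 : ∑ j ∈ K, pa m K j ≤ ∑ j ∈ K, ((p : ℝ) + ((if j = s then x else 0) +
      (if j = t then y else 0))) := by
    refine sum_le_sum fun j hj => ?_
    by_cases hjs : j = s
    · rw [if_pos hjs, hjs]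
      split_ifs <;> linarith
    · rw [if_neg hjs]
      by_cases hjt : j = t
      · rw [if_pos hjt, hjt]
        linarith
      · rw [if_neg hjt]
        have := h.paL j hj hjs hjt
        linarith
  rw [sum_add_distrib, sum_add_distrib, sum_const, nsmul_eq_mul, sum_ite_eq' K s,
    sum_ite_eq' K t, if_pos h.hs, if_pos h.ht, h2, h.palE, h.hc] at h3
  linarith

/-- a top which is not over-full -/
private theorem partN (h : C1 K m b p s t) {v : V} (hv : v ∈ K) :
    ((p : ℝ) + 1) * Ival m K - Ival m (K.erase v) ≤ p * Ival m K := by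
  have h1 := mul_Ival_le_erase h.pos hv
  have h2 := mul_le_mul_of_nonneg_right (h.one v hv) (Ival_pos h.pos K).le
  linarith

/-- a fat top -/
private theorem partF (h : C1 K m b p s t) {v : V} (hv : v ∈ K) (hf : m {v} = (p : ℝ) + 1) :
    ((p : ℝ) + 1) * Ival m K - Ival m (K.erase v) ≤ 0 := by
  have h1 := mul_Ival_le_erase h.pos hv
  rw [hf] at h1
  linarith

/-- an over-full top -/
private theorem partO (h : C1 K m b p s t) {v : V} (hv : v ∈ K) (hav : pa m K v = (p : ℝ) + 1) :
    ((p : ℝ) + 1) * Ival m K - Ival m (K.erase v) ≤ 0 ∨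
      ∃ D ⊆ K, v ∈ D ∧ 2 ≤ D.card ∧ 1 ≤ m D ∧
        ((p : ℝ) + 1) * Ival m K - Ival m (K.erase v) ≤ p * Ival (mvM m D v) K := by
  rcases stepM h.pos h.int hv ∅ hav.ge with h1 | ⟨D, hD, hvD, hD2, hD1, h1⟩
  · left
    rw [sum_empty, sub_zero] at h1
    exact h1
  · right
    refine ⟨D, hD, hvD, hD2, hD1, ?_⟩
    rw [sum_empty, sum_empty, sub_zero, sub_zero] at h1
    have h2 := h.one v hv
    have h3 := (Ival_pos (h.pos.mvM hvD hD2 hD1) K).le
    refine h1.trans (mul_le_mul_of_nonneg_right ?_ h3)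
    linarith

private theorem pw (h : C1 K m b p s t) : (p : ℝ) ^ (K.card - 2) = p ^ (K.card - 3) * p := by
  have := h.K4
  rw [← pow_succ]
  congr 1
  omega

/-- from a part to the product bound -/
private theorem conv (h : C1 K m b p s t) {x F R : ℝ} (h1 : x ≤ p * F)
    (h2 : (p : ℝ) ^ (K.card - 2) * F ≤ R) : (p : ℝ) ^ (K.card - 3) * x ≤ R := by
  have h3 := mul_le_mul_of_nonneg_left h1
    (by positivity : 0 ≤ (p : ℝ) ^ (K.card - 3))
  refine h3.trans ((le_of_eq ?_).trans h2)
  rw [h.pw]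
  ring

private theorem conv0 {x : ℝ} {n : ℕ} (h1 : x ≤ 0) : (p : ℝ) ^ n * x ≤ 0 :=
  mul_nonpos_of_nonneg_of_nonpos (by positivity) h1

/-- the goal -/
private def Goal (K : Finset V) (m : Finset V → ℝ) (b : V → ℝ) (p : ℕ) (s t : V) : Prop :=
  (p : ℝ) ^ (K.card - 3) * (((p : ℝ) + 1) * Ival m K - Ival m (K.erase s)) +
    (p : ℝ) ^ (K.card - 3) * (((p : ℝ) + 1) * Ival m K - Ival m (K.erase t)) ≤
    1 + ∑ j ∈ K, b j / (m {j} + m ∅)

private theorem goal_symm (h : Goal K m b p s t) : Goal K m b p t s := by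
  unfold Goal at h ⊢
  linarith

/-- one top is fat -/
private theorem fat (h : C1 K m b p s t) (hf : m {t} = (p : ℝ) + 1) : Goal K m b p s t := by
  obtain ⟨L, H, hL, hH, hLq, hHq⟩ := exists_LH h.hp
  have hp2 := h.p0
  have hp0 : (0 : ℝ) < p := by linarith
  have hat : pa m K t = (p : ℝ) + 1 := by
    have h1 := le_pa h.pos.1 h.ht
    rcases h.paT with h2 | h2
    · linarith
    · exact h2
  have h0 := conv0 (p := p) (n := K.card - 3) (h.partF h.ht hf)
  have hS0 := h.S0
  obtain ⟨On, hOn⟩ := po_int h.int K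
  unfold Goal
  rcases h.paS with hs | hs
  · -- `s` is not over-full
    have ha : ∀ j ∈ K, j ≠ t → pa m K j ≤ p := fun j hj hjt => by
      by_cases hjs : j = s
      · rw [hjs]
        exact hs
      · exact h.paL j hj hjs hjt
    have h1 := gGf h.hp hL hH hLq hHq h.pos h.int h.K4 h.one h.hc h.ht ha hat hf hOn h.palE
    have h2 := h.conv (h.partN h.hs) h1
    have h3 := h.sF hat fun j hj hjt => (le_pa h.pos.1 hj).trans (ha j hj hjt)
    have h4 := h.cap (x := 0) (y := 1) le_rfl zero_le_one (by linarith) hat.le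
    rw [hOn] at h3 h4
    have h5 := num_fat h.hp hL hLq hH hHq (k := On) (by
      have h6 : (On : ℝ) ≤ 2 * p := by linarith
      exact_mod_cast h6) h3
    linarith
  · rcases h.partO h.hs hs with h1 | ⟨D, hD, hsD, hD2, hD1, h1⟩
    · have h2 := conv0 (p := p) (n := K.card - 3) h1
      linarith
    · -- `s` is over-full and not fat
      have hm' := h.pos.mvM hsD hD2 hD1
      have hpat : pa (mvM m D s) K t = (p : ℝ) + 1 := by
        rw [pa_mvM_ne hD h.hst.symm, hat]
      have hpo' : po (mvM m D s) K = po m K - 1 := po_mvM hD hsD hD2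
      obtain ⟨Op, hOp⟩ := po_int (mvM_int h.int hD1) K
      have hfat : mvM m D s {t} = (p : ℝ) + 1 := by
        refine le_antisymm ?_ ?_
        · rw [← hpat]
          exact le_pa hm'.1 h.ht
        · rw [← hf]
          exact le_mvM_single hD2 t
      have h2 := gGf (m := mvM m D s) h.hp hL hH hLq hHq hm' (mvM_int h.int hD1) h.K4
        (fun j hj => (h.one j hj).trans (le_mvM_single hD2 j))
        ((mvM_empty hsD hD2).trans h.hc) h.ht (fun j hj hjt => by
          by_cases hjs : j = s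
          · rw [hjs, pa_mvM_self hD hsD, hs]
            linarith
          · rw [pa_mvM_ne hD hjs]
            exact h.paL j hj hjs hjt) hpat hfat hOp (by
          rw [pal_mvM hD]
          exact h.palE)
      have h3 := h.conv h1 h2
      have hws : m {s} ≤ p := by
        have h4 : m {s} + m D ≤ pa m K s := by
          have h5 := sum_shS_one (m := m) (K := K) h.int h.hs
          have h6 : m D ≤ ∑ E ∈ shS m K s, m E :=
            single_le_sum (f := m) (fun E _ => h.pos.1 E) (mem_shS.2 ⟨hD, hsD, hD2, hD1⟩)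
          linarith
        rw [hs] at h4
        linarith
      have h4 := h.sF hat fun j hj hjt => by
        by_cases hjs : j = s
        · rw [hjs]
          exact hws
        · exact (le_pa h.pos.1 hj).trans (h.paL j hj hjs hjt)
      have h5 := h.cap (x := 1) (y := 1) zero_le_one zero_le_one hs.le hat.le
      rw [hOp] at hpo'
      have h6 := num_fat h.hp hL hLq hH hHq (k := Op) (by
        have h7 : (Op : ℝ) ≤ 2 * p := by linarith
        exact_mod_cast h7) (le_trans (by
          have h7 : ((Op : ℝ) + 1) / (p + 1) ≤ (po m K + 1) / (p + 1) :=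
            div_le_div_of_nonneg_right (by linarith) (by linarith)
          linarith) h4)
      linarith

/-- exactly one over-full top -/
private theorem over1 (h : C1 K m b p s t) (hs : pa m K s ≤ p) (ht : pa m K t = (p : ℝ) + 1)
    (hwt : m {t} ≤ p) : Goal K m b p s t := by
  obtain ⟨L, H, hL, hH, hLq, hHq⟩ := exists_LH h.hp
  have hp2 := h.p0
  have hp0 : (0 : ℝ) < p := by linarith
  have ha : ∀ j ∈ K, j ≠ t → pa m K j ≤ p := fun j hj hjt => by
    by_cases hjs : j = s
    · rw [hjs]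
      exact hs
    · exact h.paL j hj hjs hjt
  have hw : ∀ j ∈ K, m {j} ≤ p := fun j hj => by
    by_cases hjt : j = t
    · rw [hjt]
      exact hwt
    · exact (le_pa h.pos.1 hj).trans (ha j hj hjt)
  obtain ⟨On, hOn⟩ := po_int h.int K
  have hO1 : 1 ≤ On := by
    obtain ⟨D, hD, htD, hD2, hD1⟩ := exists_shared (K := K) h.int h.ht (by
      rw [ht]
      linarith)
    have h1 := po_mvM (m := m) hD htD hD2
    have h2 := po_nonneg (m := mvM m D t) (K := K) (h.pos.mvM htD hD2 hD1).1
    rw [h1, hOn] at h2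
    have h3 : (1 : ℝ) ≤ On := by linarith
    exact_mod_cast h3
  have h1 := gG1 h.hp hL hH hLq hHq h.pos h.int h.K4 h.one h.hc h.ht ha ht hOn h.palE
  have h2 := h.conv (h.partN h.hs) h1
  have hr := rv0_nonneg h.hp hL
  -- the part of `t`
  have h3 : (p : ℝ) ^ (K.card - 3) * (((p : ℝ) + 1) * Ival m K - Ival m (K.erase t)) ≤
      rv0 L p * H ^ (On - 1) := by
    rcases h.partO h.ht ht with h4 | ⟨D, hD, htD, hD2, hD1, h4⟩
    · exact (conv0 (p := p) h4).trans (by positivity)
    · have hpo' : po (mvM m D t) K = ((On - 1 : ℕ) : ℝ) := by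
        rw [po_mvM hD htD hD2, hOn, Nat.cast_sub hO1, Nat.cast_one]
      refine h.conv h4 (gG0 h.hp hL hH hLq hHq (mvM_int h.int hD1) (by have := h.K4; omega)
        (fun j hj => (h.one j hj).trans (le_mvM_single hD2 j))
        ((mvM_empty htD hD2).trans h.hc) (fun j hj => ?_) hpo' (by
          rw [pal_mvM hD]
          exact h.palE))
      by_cases hjt : j = t
      · rw [hjt, pa_mvM_self hD htD, ht]
        linarith
      · rw [pa_mvM_ne hD hjt]
        exact ha j hj hjt
  have h4 := h.cap (x := 0) (y := 1) le_rfl zero_le_one (by linarith) ht.le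
  have hA := h.sA hw
  rw [hOn] at h4 hA
  have hkr : ((On - 1 : ℕ) : ℝ) = On - 1 := by rw [Nat.cast_sub hO1, Nat.cast_one]
  have h5 := num_c1A h.hp hL hLq hH hHq (k := On - 1) (by
    have h6 : (On : ℝ) ≤ 2 * p := by linarith
    have h7 : On ≤ 2 * p := by exact_mod_cast h6
    omega) (S := 1 + ∑ j ∈ K, b j / (m {j} + m ∅)) (by
      rw [hkr]
      refine le_trans (le_of_eq ?_) hA
      ring) (fun h6 => by
      have h7 : p ≤ On := by
        have := h.hp
        omega
      have h8 : (p : ℝ) ≤ On := by exact_mod_cast h7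
      have hB := h.sB hw (by rw [hOn]; exact h8)
      rw [hOn] at hB
      rw [hkr]
      refine le_trans (le_of_eq ?_) hB
      ring)
  unfold Goal
  linarith

/-- two over-full tops -/
private theorem over2 (h : C1 K m b p s t) (hs : pa m K s = (p : ℝ) + 1)
    (ht : pa m K t = (p : ℝ) + 1) (hws : m {s} ≤ p) (hwt : m {t} ≤ p) : Goal K m b p s t := by
  obtain ⟨L, H, hL, hH, hLq, hHq⟩ := exists_LH h.hp
  have hp2 := h.p0
  have hp0 : (0 : ℝ) < p := by linarith
  have hw : ∀ j ∈ K, m {j} ≤ p := fun j hj => by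
    by_cases hjt : j = t
    · rw [hjt]
      exact hwt
    · by_cases hjs : j = s
      · rw [hjs]
        exact hws
      · exact (le_pa h.pos.1 hj).trans (h.paL j hj hjs hjt)
  obtain ⟨On, hOn⟩ := po_int h.int K
  have hO1 : 1 ≤ On := by
    obtain ⟨D, hD, htD, hD2, hD1⟩ := exists_shared (K := K) h.int h.ht (by
      rw [ht]
      linarith)
    have h1 := po_mvM (m := m) hD htD hD2
    have h2 := po_nonneg (m := mvM m D t) (K := K) (h.pos.mvM htD hD2 hD1).1
    rw [h1, hOn] at h2
    have h3 : (1 : ℝ) ≤ On := by linarith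
    exact_mod_cast h3
  have hr := rv1_nonneg h.hp hL
  -- one part
  have key : ∀ u v : V, u ≠ v → u ∈ K → v ∈ K → pa m K u = (p : ℝ) + 1 →
      pa m K v = (p : ℝ) + 1 → (∀ j ∈ K, j ≠ u → j ≠ v → pa m K j ≤ p) →
      (p : ℝ) ^ (K.card - 3) * (((p : ℝ) + 1) * Ival m K - Ival m (K.erase v)) ≤
      rv1 L p * H ^ (On - 2) := by
    intro u v huv huK hvK hu hv hle
    rcases h.partO hvK hv with h4 | ⟨D, hD, hvD, hD2, hD1, h4⟩
    · exact (conv0 (p := p) h4).trans (by positivity)
    · have hpo' : po (mvM m D v) K = ((On - 1 : ℕ) : ℝ) := by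
        rw [po_mvM hD hvD hD2, hOn, Nat.cast_sub hO1, Nat.cast_one]
      have h5 := gG1 (m := mvM m D v) h.hp hL hH hLq hHq (h.pos.mvM hvD hD2 hD1)
        (mvM_int h.int hD1) h.K4
        (fun j hj => (h.one j hj).trans (le_mvM_single hD2 j))
        ((mvM_empty hvD hD2).trans h.hc) huK (fun j hj hju => by
          by_cases hjv : j = v
          · rw [hjv, pa_mvM_self hD hvD, hv]
            linarith
          · rw [pa_mvM_ne hD hjv]
            exact hle j hj hju hjv) (by
          rw [pa_mvM_ne hD huv]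
          exact hu) hpo' (by
          rw [pal_mvM hD]
          exact h.palE)
      rw [show On - 1 - 1 = On - 2 by omega] at h5
      exact h.conv h4 h5
  have h2 := key t s h.hst.symm h.ht h.hs ht hs fun j hj h1 h2 => h.paL j hj h2 h1
  have h3 := key s t h.hst h.hs h.ht hs ht fun j hj h1 h2 => h.paL j hj h1 h2
  have h4 := h.cap (x := 1) (y := 1) zero_le_one zero_le_one hs.le ht.le
  have hA := h.sA hw
  rw [hOn] at h4 hA
  have h5 := num_c1B h.hp hL hLq hH hHq (O := On) hO1 (by
    have h6 : (On : ℝ) ≤ 2 * p + 1 := by linarith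
    exact_mod_cast h6) (S := 1 + ∑ j ∈ K, b j / (m {j} + m ∅)) hA (fun h6 => by
      have h8 : (p : ℝ) ≤ On := by exact_mod_cast h6
      have hB := h.sB hw (by rw [hOn]; exact h8)
      rw [hOn] at hB
      refine le_trans (le_of_eq ?_) hB
      ring)
  unfold Goal
  linarith

/-- nothing over-full -/
private theorem over0 (h : C1 K m b p s t) (hs : pa m K s ≤ p) (ht : pa m K t ≤ p) :
    Goal K m b p s t := by
  have hp2 := h.p0
  have hp0 : (0 : ℝ) < p := by linarith
  have hc := h.hc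
  have ha : ∀ j ∈ K, pa m K j ≤ p := fun j hj => by
    by_cases hjs : j = s
    · rw [hjs]
      exact hs
    · by_cases hjt : j = t
      · rw [hjt]
        exact ht
      · exact h.paL j hj hjs hjt
  have hw : ∀ j ∈ K, m {j} ≤ p := fun j hj => (le_pa h.pos.1 hj).trans (ha j hj)
  have hQ : pal m K - ((K.card : ℝ) - 2) * p = 2 := by
    rw [h.palE]
    ring
  have hK4 := h.K4
  have hpot := potP h.pos (by omega) hp0 ha (by rw [hQ]; norm_num)
  rw [hQ] at hpot
  have hfree := sum_free (m := m) (K := K) (p : ℝ)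
  rw [h.palE] at hfree
  have hpo := po_eq (m := m) (K := K)
  have hN0 := pN_nonneg (K := K) h.pos.1
  have hT0 : 0 ≤ pt m K := pt_nonneg h.pos.1
  -- the potential is at most `(p + 1) S`
  have hfin : 2 + pt m K / p + ∑ j ∈ K, (1 + pom m K j / p) * ((p - m {j}) / (m {j} + m ∅)) ≤
      (p + 1) * (1 + ∑ j ∈ K, b j / (m {j} + m ∅)) := by
    obtain ⟨On, hOn⟩ := po_int h.int K
    rcases Nat.eq_zero_or_pos On with h0 | h0
    · rw [h0, Nat.cast_zero] at hOn
      have h1 : pt m K = 0 := by linarith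
      have h2 : pN m K = 0 := by linarith
      have hpom : ∀ j ∈ K, pom m K j = 0 := by
        intro j hj
        have h3 := pa_add_pom (m := m) hj
        have h4 := le_pa h.pos.1 hj
        have h5 := pom_nonneg (K := K) h.pos.1 j
        linarith
      have h3 : ∑ j ∈ K, (1 + pom m K j / p) * ((p - m {j}) / (m {j} + m ∅)) ≤
          ∑ j ∈ K, 1 / 2 * ((p : ℝ) - m {j}) := by
        refine sum_le_sum fun j hj => ?_
        rw [hpom j hj, zero_div, add_zero, one_mul]
        have h4 := h.one j hj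
        have h5 := hw j hj
        rw [div_le_iff₀ (h.y0 j hj), hc]
        have h6 := mul_nonneg (by linarith : (0 : ℝ) ≤ p - m {j})
          (by linarith : (0 : ℝ) ≤ m {j} - 1)
        linarith
      rw [← mul_sum, hfree, h2, hc] at h3
      have h4 := h.sA hw
      rw [hOn, zero_add] at h4
      have h5 := mul_le_mul_of_nonneg_left h4 (by linarith : (0 : ℝ) ≤ (p : ℝ) + 1)
      have h6 : ((p : ℝ) + 1) * (1 + 1 / (p + 1)) = p + 2 := by
        field_simp
        ring
      rw [h6, hc] at h5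
      rw [h1, zero_div, hc]
      linarith
    · have hO1 : (1 : ℝ) ≤ On := by exact_mod_cast h0
      obtain ⟨f, hf⟩ : ∃ f : ℝ, f = (p + 1) / (2 * p) := ⟨_, rfl⟩
      have hfe : ((p : ℝ) + 1 + m ∅ - 1) / (p * (1 + m ∅)) = f := by
        rw [hf, hc]
        congr 1 <;> ring
      have hf0 : 0 ≤ f := by
        rw [hf]
        positivity
      have hl := lin_pot' K (p := (p : ℝ)) (c := m ∅) (T := 2 + pt m K / p) (f := f) (κ := 1)
        (a := 1) (fun j => m {j}) (fun j => pom m K j) b (by linarith) h.one hw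
        (fun j _ => pom_nonneg h.pos.1 j) (fun j _ => h.b0 j) h.bL zero_le_one (by
          rw [one_mul, hf, div_le_one (by positivity)]
          linarith)
        (fun x hx => by
          have := fac_gen (p := (p : ℝ)) (c := m ∅) (a := 1) hp0 (by linarith) (by linarith) hx
          rw [hfe] at this
          exact this) hf0
      rw [one_mul, one_mul, one_mul, hfree, hc] at hl
      rw [hc]
      have h5 := h.bsum
      have h6 : f * ((K.card : ℝ) * p - (((K.card : ℝ) - 2) * p + 2) + 1 + pN m K) =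
          (p + 1) / (2 * p) * (2 * p - 1 + pN m K) := by
        rw [hf]
        ring
      rw [h6] at hl
      have h7 : 2 + pt m K / p + (p + 1) / (2 * p) * (2 * p - 1 + pN m K) ≤
          (p : ℝ) + 2 + po m K := by
        have h8 : pN m K ≤ po m K := by linarith
        have h9 : pt m K = po m K - pN m K := by linarith
        rw [h9, hOn] at *
        have e1 : 2 + ((On : ℝ) - pN m K) / p + (p + 1) / (2 * p) * (2 * p - 1 + pN m K) =
            (2 * (2 * p) + 2 * ((On : ℝ) - pN m K) + (p + 1) * (2 * p - 1 + pN m K)) /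
              (2 * p) := by
          field_simp
        rw [e1, div_le_iff₀ (by positivity)]
        have h10 := mul_nonneg (by linarith : (0 : ℝ) ≤ p - 1)
          (by linarith : (0 : ℝ) ≤ (On : ℝ) - pN m K)
        have h11 := mul_nonneg (by linarith : (0 : ℝ) ≤ p - 1)
          (by linarith : (0 : ℝ) ≤ (On : ℝ) - 1)
        nlinarith
      linarith
  have h1 : 2 * ((p : ℝ) ^ (K.card - 2) * Ival m K) ≤ 1 + ∑ j ∈ K, b j / (m {j} + m ∅) := by
    have h2 := hpot.trans hfin
    rw [hc] at h2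
    have h3 : ((p : ℝ) + 1) * (2 * ((p : ℝ) ^ (K.card - 2) * Ival m K)) ≤
        (p + 1) * (1 + ∑ j ∈ K, b j / (m {j} + 1)) := by
      refine le_trans (le_of_eq ?_) h2
      ring
    rw [hc]
    exact le_of_mul_le_mul_left h3 (by linarith)
  unfold Goal
  have h2 := h.conv (h.partN h.hs) le_rfl
  have h3 := h.conv (h.partN h.ht) le_rfl
  linarith

/-- all cases -/
private theorem all (h : C1 K m b p s t) : Goal K m b p s t := by
  have hint_le : ∀ v ∈ K, pa m K v = (p : ℝ) + 1 → m {v} ≤ p ∨ m {v} = (p : ℝ) + 1 := by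
    intro v hv hav
    have h1 := le_pa h.pos.1 hv
    rw [hav] at h1
    obtain ⟨k, hk⟩ := h.int {v}
    rw [hk] at h1 ⊢
    have h2 : k ≤ p + 1 := by exact_mod_cast h1
    rcases Nat.lt_or_ge k (p + 1) with h3 | h3
    · left
      exact_mod_cast (by omega : k ≤ p)
    · right
      have h4 : k = p + 1 := by omega
      rw [h4]
      push_cast
      ring
  rcases h.paT with ht | ht
  · rcases h.paS with hs | hs
    · exact h.over0 hs ht
    · rcases hint_le s h.hs hs with h1 | h1
      · exact goal_symm (h.symm.over1 ht hs h1)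
      · exact goal_symm (h.symm.fat h1)
  · rcases hint_le t h.ht ht with h1 | h1
    · rcases h.paS with hs | hs
      · exact h.over1 hs ht h1
      · rcases hint_le s h.hs hs with h2 | h2
        · exact h.over2 hs ht h2 h1
        · exact goal_symm (h.symm.fat h2)
    · exact h.fat h1

end C1

/-- `ν = 2`, `h = 1`, two tops, base one -/
theorem KS.two_c1 {K T : Finset V} {m : Finset V → ℝ} {b : V → ℝ} {p : ℕ}
    (h : KS K T m b p 1 2) (hT : T.card = 2) (hc : m ∅ = 1) :
    (p : ℝ) ^ (K.card - 3) *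
        ((((2 : ℕ) : ℝ) * p + (((2 : ℕ) : ℝ) - 1) * ((1 : ℕ) : ℝ) + 1) * Ival m K -
          ∑ t ∈ T, Ival m (K.erase t)) ≤
      1 + ∑ j ∈ K, b j / (m {j} + m ∅) := by
  obtain ⟨s, t, hst, hTst⟩ := card_eq_two.1 hT
  have hsT : s ∈ T := by rw [hTst]; exact mem_insert_self s {t}
  have htT : t ∈ T := by rw [hTst]; exact mem_insert_of_mem (mem_singleton_self t)
  have hnT : ∀ j, j ≠ s → j ≠ t → j ∉ T := fun j h1 h2 => by
    rw [hTst, mem_insert, mem_singleton]
    tauto
  have hK4 : 4 ≤ K.card := h.Kc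
  have hTr : (T.card : ℝ) = 2 := by rw [hT]; norm_num
  have hpaT : ∀ v ∈ T, pa m K v ≤ p ∨ pa m K v = (p : ℝ) + 1 := by
    intro v hv
    have h1 := h.paT v hv
    obtain ⟨a, ha⟩ := pa_int h.int K v
    rw [ha] at h1 ⊢
    push_cast at h1
    have h2 : a ≤ p + 1 := by exact_mod_cast h1
    rcases Nat.lt_or_ge a (p + 1) with h3 | h3
    · left
      exact_mod_cast (by omega : a ≤ p)
    · right
      have h4 : a = p + 1 := by omega
      rw [h4]
      push_cast
      ring
  have hbT : ∀ v ∈ T, 2 + pom m K v - (m {v} + m ∅) ≤ b v := by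
    intro v hv
    have h1 := h.bT v hv
    rw [hTr] at h1
    push_cast at h1
    linarith
  have hbf : ∀ v ∈ T, pa m K v = (p : ℝ) + 1 → 1 + po m K ≤ ∑ j ∈ K.erase v, b j := by
    intro v hv hav
    have hvK := h.TK hv
    have h7 := h.bsumZ {v} (singleton_subset_iff.2 hvK) (by
      rw [sdiff_singleton_eq_erase, card_erase_of_mem hvK]
      omega) (fun u hu huT => by
      rw [mem_singleton] at hu
      rw [hu] at huT
      exact absurd hv huT) (fun u hu _ => by
      rw [mem_singleton] at hu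
      rw [hu, hav]
      push_cast
      rfl)
    rw [sdiff_singleton_eq_erase, hTr, hc] at h7
    push_cast at h7
    linarith
  have hC : C1 K m b p s t := by
    refine ⟨h.p2, h.pos, h.int, h.one, fun j => h.b0 j, h.TK hsT, h.TK htT, hst, hc,
      fun j hj h1 h2 => h.paL j hj (hnT j h1 h2), hpaT s hsT, hpaT t htT, hK4, ?_, ?_,
      hbT s hsT, hbT t htT, ?_, hbf s hsT, hbf t htT⟩
    · have h1 := h.palK
      push_cast at h1
      linarith
    · intro j hj
      by_cases hjT : j ∈ T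
      · have := hbT j hjT
        linarith
      · have h1 := h.bL j hj hjT
        rw [hTr] at h1
        push_cast at h1
        linarith
    · have h1 := h.bsum
      rw [hTr, hc] at h1
      push_cast at h1
      linarith
  have h1 := hC.all
  unfold C1.Goal at h1
  rw [hTst, sum_pair hst]
  push_cast
  refine le_trans (le_of_eq ?_) h1
  ring

end MP76b19e.Rob
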