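import Pool.Agent.Lib.MP76b19e.Rob.Kst12A
import Pool.Agent.Lib.MP76b19e.Rob.Kst12B

/-!
# `ν = 2`, `h = 1` (problem MP_76b19e_co)
-/

set_option autoImplicit false

open Finset

namespace MP76b19e.Rob

private theorem ksc_2_2 {p : ℕ} : KSc (fun k => 2 ≤ k) p 1 2 1 := by
  intro V iV K T m b hk hT hV
  rcases le_or_gt 2 (m ∅) with hc | hc
  · have e1 : ((2 : ℕ) : ℝ) * p + (((2 : ℕ) : ℝ) - 1) * ((1 : ℕ) : ℝ) + 1 = 2 * p + 2 := by
      push_cast
      ring
    rw [e1] at hV ⊢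
    rw [one_mul]
    exact hk.one_two hT hV hc
  · obtain ⟨c, hcc⟩ := hk.int ∅
    have hbase := hk.base
    push_cast at hbase
    have h1 : (c : ℝ) < 2 := by rw [← hcc]; exact hc
    have h2 : c < 2 := by exact_mod_cast h1
    have h3 : (T.card : ℝ) ≤ c + 1 := by rw [← hcc]; linarith
    have h4 : T.card ≤ c + 1 := by exact_mod_cast h3
    have h5 : c = 1 := by omega
    have h6 : m ∅ = 1 := by rw [hcc, h5]; exact Nat.cast_one
    rw [one_mul]
    exact hk.two_c1 (by omega) h6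

/-- `ν = 2`, `h = 1` -/
theorem kst_1_2 (p : ℕ) : KSt p 1 2 1 :=
  kst_of ksc_2_0 ksc_2_1 ksc_2_2

end MP76b19e.Rob
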