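import Pool.Agent.Lib.MP76b19e.Rob.NumI

/-!
# Dropped units, base one and two (problem MP_76b19e_co)
-/

set_option autoImplicit false

open Finset

namespace MP76b19e.Rob

open Pool.Agent.MP76b19e (bq H_pow_le H_pow_le' H_ge_one)

section

variable {p : ℕ} {L H : ℝ}

/-- `c₀ = 2`, `d = 1` -/
theorem c2_1 (hp : 2 ≤ p) (hL : 0 < L) (hLq : L ^ (p - 1) = p) : rhoV L p 2 1 ≤ 3 / 5 := by
  obtain ⟨N, rfl⟩ : ∃ N, p = N + 1 := ⟨p - 1, by omega⟩
  have hN : 1 ≤ N := by omega
  have hN1 : (1 : ℝ) ≤ N := by exact_mod_cast hN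
  simp only [Nat.add_sub_cancel] at hLq
  have h1 : L ^ 4 ≤ 6 * (3 * N + 4) * (N + 1) / (5 * N ^ 2) := by
    refine Lpow_le hN hL (by rw [hLq]; push_cast; ring) (by positivity) ?_
    rcases Nat.lt_or_ge N 7 with h | h
    · interval_cases N <;> norm_num
    · refine (big_of (r := 10 / 3) (by norm_num) (by norm_num) (by norm_num) (by norm_num) h).trans
        (pow_le_pow_left₀ (by norm_num) ?_ _)
      rw [div_le_div_iff₀ (by norm_num) (by positivity)]
      nlinarith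
  unfold rhoV bq
  simp only [Nat.add_sub_cancel]
  rw [prod_range_succ, prod_range_succ, prod_range_zero]
  have h2 := mul_le_mul_of_nonneg_right h1 (by positivity : (0 : ℝ) ≤
    N / (3 * N + 4) * (2 * N / (4 * N + 4)))
  have e1 : 6 * (3 * (N : ℝ) + 4) * (N + 1) / (5 * N ^ 2) *
      (N / (3 * N + 4) * (2 * N / (4 * N + 4))) = 3 / 5 := by
    have : (N : ℝ) ≠ 0 := by positivity
    field_simp
    ring
  rw [e1] at h2
  refine le_trans (le_of_eq ?_) h2
  push_cast
  field_simp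
  ring

/-- `c₀ = 2`, `d = 1`, two tops -/
theorem c2_1' (hp : 2 ≤ p) (hL : 0 < L) (hLq : L ^ (p - 1) = p) :
    ((p : ℝ) - 1) * rhoV L p 2 1 ≤ 3 / 7 * p := by
  obtain ⟨N, rfl⟩ : ∃ N, p = N + 1 := ⟨p - 1, by omega⟩
  have hN : 1 ≤ N := by omega
  have hN1 : (1 : ℝ) ≤ N := by exact_mod_cast hN
  simp only [Nat.add_sub_cancel] at hLq
  have h1 : L ^ 4 ≤ 6 * (3 * N + 4) * (N + 1) ^ 2 / (7 * N ^ 3) := by
    refine Lpow_le hN hL (by rw [hLq]; push_cast; ring) (by positivity) ?_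
    rcases Nat.lt_or_ge N 11 with h | h
    · interval_cases N <;> norm_num
    · refine (big4 h).trans (pow_le_pow_left₀ (by norm_num) ?_ _)
      rw [div_le_div_iff₀ (by norm_num) (by positivity)]
      nlinarith [sq_nonneg ((N : ℝ) ^ 2), mul_nonneg (by linarith : (0 : ℝ) ≤ N)
        (by positivity : (0 : ℝ) ≤ (N : ℝ) ^ 2)]
  unfold rhoV bq
  simp only [Nat.add_sub_cancel]
  rw [prod_range_succ, prod_range_succ, prod_range_zero]
  have h2 := mul_le_mul_of_nonneg_right h1 (by positivity : (0 : ℝ) ≤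
    N * (N / (3 * N + 4) * (2 * N / (4 * N + 4))))
  have e1 : 6 * (3 * (N : ℝ) + 4) * (N + 1) ^ 2 / (7 * N ^ 3) *
      (N * (N / (3 * N + 4) * (2 * N / (4 * N + 4)))) = 3 / 7 * (N + 1) := by
    have : (N : ℝ) ≠ 0 := by positivity
    field_simp
    ring
  rw [e1] at h2
  push_cast
  refine le_trans (le_of_eq ?_) h2
  field_simp
  ring

/-- `c₀ = 2`, `d = 2`, two tops -/
theorem c2_2' (hp : 2 ≤ p) (hL : 0 < L) (hLq : L ^ (p - 1) = p) :
    ((p : ℝ) - 1) * rhoV L p 2 2 ≤ 3 / 5 * p := by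
  obtain ⟨N, rfl⟩ : ∃ N, p = N + 1 := ⟨p - 1, by omega⟩
  have hN : 1 ≤ N := by omega
  have hN1 : (1 : ℝ) ≤ N := by exact_mod_cast hN
  simp only [Nat.add_sub_cancel] at hLq
  have h1 : L ^ 5 ≤ 3 * (3 * N + 5) * (4 * N + 5) * (N + 1) / (10 * N ^ 3) := by
    refine Lpow_le hN hL (by rw [hLq]; push_cast; ring) (by positivity) ?_
    rcases Nat.lt_or_ge N 9 with h | h
    · interval_cases N <;> norm_num
    · refine (big_of (r := 18 / 5) (by norm_num) (by norm_num) (by norm_num) (by norm_num) h).trans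
        (pow_le_pow_left₀ (by norm_num) ?_ _)
      rw [div_le_div_iff₀ (by norm_num) (by positivity)]
      nlinarith [sq_nonneg ((N : ℝ) ^ 2), mul_nonneg (by linarith : (0 : ℝ) ≤ N)
        (by positivity : (0 : ℝ) ≤ (N : ℝ) ^ 2)]
  unfold rhoV bq
  simp only [Nat.add_sub_cancel]
  rw [prod_range_succ, prod_range_succ, prod_range_zero]
  have h2 := mul_le_mul_of_nonneg_right h1 (by positivity : (0 : ℝ) ≤
    N * (N / (3 * N + 5) * (2 * N / (4 * N + 5))))
  have e1 : 3 * (3 * (N : ℝ) + 5) * (4 * N + 5) * (N + 1) / (10 * N ^ 3) *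
      (N * (N / (3 * N + 5) * (2 * N / (4 * N + 5)))) = 3 / 5 * (N + 1) := by
    have : (N : ℝ) ≠ 0 := by positivity
    field_simp
    ring
  rw [e1] at h2
  push_cast
  refine le_trans (le_of_eq ?_) h2
  field_simp
  ring

/-- `c₀ = 1`, `d = 1` -/
theorem c1_1 (hp : 2 ≤ p) (hL : 0 < L) (hLq : L ^ (p - 1) = p) :
    rhoV L p 1 1 ≤ (3 * p + 4) * (p + 1) ^ 2 / (4 * p ^ 2 * (p + 2)) := by
  obtain ⟨N, rfl⟩ : ∃ N, p = N + 1 := ⟨p - 1, by omega⟩
  have hN : 1 ≤ N := by omega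
  have hN1 : (1 : ℝ) ≤ N := by exact_mod_cast hN
  simp only [Nat.add_sub_cancel] at hLq
  have h1 : L ^ 3 ≤ 3 * (3 * N + 7) * (N + 2) ^ 2 / (4 * N * (N + 1) * (N + 3)) := by
    refine Lpow_le hN hL (by rw [hLq]; push_cast; ring) (by positivity) ?_
    rcases Nat.lt_or_ge N 9 with h | h
    · interval_cases N <;> norm_num
    · refine (big_of (r := 9 / 4) (by norm_num) (by norm_num) (by norm_num) (by norm_num) h).trans
        (pow_le_pow_left₀ (by norm_num) ?_ _)
      rw [div_le_div_iff₀ (by norm_num) (by positivity)]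
      nlinarith [sq_nonneg ((N : ℝ) ^ 2), mul_nonneg (by linarith : (0 : ℝ) ≤ N)
        (by positivity : (0 : ℝ) ≤ (N : ℝ) ^ 2)]
  unfold rhoV bq
  simp only [Nat.add_sub_cancel]
  rw [prod_range_succ, prod_range_zero]
  have h2 := mul_le_mul_of_nonneg_right h1 (by positivity : (0 : ℝ) ≤ N / (3 * N + 3))
  push_cast
  refine le_trans (le_of_eq ?_) (h2.trans (le_of_eq ?_))
  · field_simp
    ring
  · field_simp
    ring

/-- base one -/
theorem fin_c1 (hp : 2 ≤ p) (hL : 0 < L) (hH : 0 < H) (hLq : L ^ (p - 1) = p)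
    (hHq : H ^ (p - 1) = 2 * p / (p + 1)) {u : ℕ} (hu : u ≤ 2 * p) {S : ℝ}
    (h1 : 1 + ((u : ℝ) + 4) / (p + 1) ≤ S) (h2 : 1 + 3 * ((u : ℝ) + 2 - p) / (p + 1) ≤ S) :
    rhoV L p 1 1 * H ^ u ≤ S := by
  have hp2 : (2 : ℝ) ≤ p := by exact_mod_cast hp
  have hp0 : (0 : ℝ) < p := by linarith
  have hR := c1_1 hp hL hLq
  have hR0 := rhoV_nonneg hp hL (p := p) 1 1
  have hH1 := H_ge_one hp hH hHq
  have hA : rhoV L p 1 1 * H ^ (2 * p - 1) ≤ (3 * p + 4) / (p + 1) := by
    have h3 := H_2p hp hH hHq 1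
    rw [show 2 * (p - 1) + 1 = 2 * p - 1 by omega] at h3
    refine (mul_le_mul hR h3 (by positivity) (by positivity)).trans (le_of_eq ?_)
    field_simp
    ring
  rcases Nat.lt_or_ge (2 * p - 1) u with h | h
  · have hue : u = (2 * p - 1) + 1 := by omega
    rw [hue, pow_add, pow_one, ← mul_assoc]
    have h3 := mul_le_mul hA (Hs1 hp hH hHq) hH.le (by positivity)
    refine h3.trans (le_trans ?_ h2)
    have hur : (u : ℝ) = 2 * p := by
      have : u = 2 * p := by omega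
      rw [this]
      push_cast
      ring
    rw [hur]
    rw [div_mul_div_comm, one_add_div (by positivity), div_le_div_iff₀ (by positivity)
      (by positivity)]
    nlinarith [mul_nonneg hp0.le hp0.le, mul_nonneg (mul_nonneg hp0.le hp0.le) hp0.le]
  · refine le_trans ?_ h1
    have h3 := pow_affine (x := H) (a := rhoV L p 1 1) (α := (p + 5) / (p + 1))
      (β := 1 / (p + 1)) hH1 hR0 h (by
        refine hR.trans ?_
        rw [div_le_div_iff₀ (by positivity) (by positivity)]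
        obtain ⟨x, hx⟩ : ∃ x : ℝ, (p : ℝ) = 2 + x := ⟨p - 2, by ring⟩
        have hx0 : 0 ≤ x := by linarith
        rw [hx, ← sub_nonneg]
        ring_nf
        positivity) (by
        refine hA.trans (le_of_eq ?_)
        rw [Nat.cast_sub (by omega)]
        push_cast
        field_simp
        ring)
    refine h3.trans (le_of_eq ?_)
    field_simp
    ring

/-- base two, `a ≤ 3 / 5` -/
theorem fin_c2a (hp : 2 ≤ p) (hH : 0 < H) (hHq : H ^ (p - 1) = 2 * p / (p + 1)) {u : ℕ}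
    (hu : u ≤ 2 * p + 1) : 3 / 5 * H ^ u ≤ 1 + ((u : ℝ) + 3) / (p + 2) := by
  have hp2 : (2 : ℝ) ≤ p := by exact_mod_cast hp
  have hp0 : (0 : ℝ) < p := by linarith
  have h3 := pow_affine (x := H) (a := 3 / 5) (α := (p + 5) / (p + 2)) (β := 1 / (p + 2))
    (H_ge_one hp hH hHq) (by norm_num) hu (by
      rw [div_le_div_iff₀ (by norm_num) (by positivity)]
      linarith) (by
      have h4 := H_2p hp hH hHq 3
      rw [show 2 * (p - 1) + 3 = 2 * p + 1 by omega] at h4
      refine (mul_le_mul_of_nonneg_left h4 (by norm_num)).trans ?_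
      have e1 : (3 : ℝ) / 5 * ((2 * p / (p + 1)) ^ 2 * ((p + 2) / (p + 1)) ^ 3) =
          12 * p ^ 2 * (p + 2) ^ 3 / (5 * (p + 1) ^ 5) := by
        field_simp
        ring
      have e2 : ((p : ℝ) + 5) / (p + 2) + 1 / (p + 2) * ((2 * p + 1 : ℕ) : ℝ) = 3 := by
        push_cast
        field_simp
        ring
      rw [e1, e2, div_le_iff₀ (by positivity)]
      obtain ⟨x, hx⟩ : ∃ x : ℝ, (p : ℝ) = 2 + x := ⟨p - 2, by ring⟩
      have hx0 : 0 ≤ x := by linarith
      rw [hx, ← sub_nonneg]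
      ring_nf
      positivity)
  refine h3.trans (le_of_eq ?_)
  field_simp
  ring

/-- base two, `a ≤ 3 / 7` -/
theorem fin_c2b (hp : 2 ≤ p) (hH : 0 < H) (hHq : H ^ (p - 1) = 2 * p / (p + 1)) {u : ℕ}
    (hu : u ≤ 2 * p + 2) : 3 / 7 * H ^ u ≤ 1 + (u : ℝ) / (p + 2) := by
  have hp2 : (2 : ℝ) ≤ p := by exact_mod_cast hp
  have hp0 : (0 : ℝ) < p := by linarith
  have h3 := pow_affine (x := H) (a := 3 / 7) (α := 1) (β := 1 / (p + 2))
    (H_ge_one hp hH hHq) (by norm_num) hu (by norm_num) (by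
      have h4 := H_2p hp hH hHq 4
      rw [show 2 * (p - 1) + 4 = 2 * p + 2 by omega] at h4
      refine (mul_le_mul_of_nonneg_left h4 (by norm_num)).trans ?_
      have e1 : (3 : ℝ) / 7 * ((2 * p / (p + 1)) ^ 2 * ((p + 2) / (p + 1)) ^ 4) =
          12 * p ^ 2 * (p + 2) ^ 4 / (7 * (p + 1) ^ 6) := by
        field_simp
        ring
      have e2 : (1 : ℝ) + 1 / (p + 2) * ((2 * p + 2 : ℕ) : ℝ) = (3 * p + 4) / (p + 2) := by
        push_cast
        field_simp
        ring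
      rw [e1, e2, div_le_div_iff₀ (by positivity) (by positivity)]
      obtain ⟨x, hx⟩ : ∃ x : ℝ, (p : ℝ) = 2 + x := ⟨p - 2, by ring⟩
      have hx0 : 0 ≤ x := by linarith
      rw [hx, ← sub_nonneg]
      ring_nf
      positivity)
  refine h3.trans (le_of_eq ?_)
  ring

/-- base two, nothing dropped -/
theorem fin_c2c (hp : 2 ≤ p) (hH : 0 < H) (hHq : H ^ (p - 1) = 2 * p / (p + 1)) {u : ℕ}
    (hu : u ≤ 2 * p + 1) {S : ℝ} (h1 : 1 ≤ S) (h2 : 1 + ((u : ℝ) - 1) / (p + 2) ≤ S) :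
    (p - 1) / (2 * p) * H ^ u ≤ S := by
  have hp2 : (2 : ℝ) ≤ p := by exact_mod_cast hp
  have hp0 : (0 : ℝ) < p := by linarith
  rcases Nat.eq_zero_or_pos u with h | h
  · rw [h, pow_zero, mul_one]
    refine le_trans ?_ h1
    rw [div_le_one (by positivity)]
    linarith
  · obtain ⟨v, rfl⟩ : ∃ v, u = v + 1 := ⟨u - 1, by omega⟩
    have h3 := pow_affine (x := H) (a := 1 / 2) (α := 1) (β := 1 / (p + 2)) (u := v)
      (M := 2 * p) (H_ge_one hp hH hHq) (by norm_num) (by omega) (by norm_num) (by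
        have h4 := H_2p hp hH hHq 2
        rw [show 2 * (p - 1) + 2 = 2 * p by omega] at h4
        refine (mul_le_mul_of_nonneg_left h4 (by norm_num)).trans ?_
        have e1 : (1 : ℝ) / 2 * ((2 * p / (p + 1)) ^ 2 * ((p + 2) / (p + 1)) ^ 2) =
            2 * p ^ 2 * (p + 2) ^ 2 / (p + 1) ^ 4 := by
          field_simp
        have e2 : (1 : ℝ) + 1 / (p + 2) * ((2 * p : ℕ) : ℝ) = (3 * p + 2) / (p + 2) := by
          push_cast
          field_simp
          ring
        rw [e1, e2, div_le_div_iff₀ (by positivity) (by positivity)]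
        obtain ⟨x, hx⟩ : ∃ x : ℝ, (p : ℝ) = 2 + x := ⟨p - 2, by ring⟩
        have hx0 : 0 ≤ x := by linarith
        rw [hx, ← sub_nonneg]
        ring_nf
        positivity)
    push_cast at h2
    have h5 : ((p : ℝ) - 1) / (2 * p) * H ≤ 1 / 2 := by
      refine (mul_le_mul_of_nonneg_left (Hs1 hp hH hHq)
        (div_nonneg (by linarith) (by linarith))).trans ?_
      rw [div_mul_div_comm, div_le_div_iff₀ (by positivity) (by norm_num)]
      nlinarith
    rw [pow_succ]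
    have h6 : 0 ≤ H ^ v := by positivity
    have h7 := mul_le_mul_of_nonneg_right h5 h6
    have e3 : (1 : ℝ) + 1 / (p + 2) * v = 1 + (v + 1 - 1) / (p + 2) := by ring
    rw [e3] at h3
    linarith

end

end MP76b19e.Rob
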