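import Pool.Agent.Lib.MP76b19e.Rob.StepM
import Pool.Agent.Lib.MP76b19e.Rob.VStar

/-!
# One step for every over-full top (problem MP_76b19e_co)

`stepAll`: `β I(K) - ∑_{t ∈ T} I(K - t)` is at most `(β - ∑_T m {t}) I'(K)`, where for every element
of `U ⊆ T` one unit has been moved.
-/

set_option autoImplicit false

open Finset

namespace MP76b19e.Rob

variable {V : Type} [DecidableEq V]

section

variable {m : Finset V → ℝ} {D : Finset V} {t : V}

theorem mvM_single_self (hD : 2 ≤ D.card) : mvM m D t {t} = m {t} := by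
  unfold mvM
  rw [if_neg, if_neg]
  · ring
  · intro h1
    rw [← h1, card_singleton] at hD
    omega
  · intro h1
    exact notMem_erase t D (h1 ▸ mem_singleton_self t)

theorem mvM_single_le (hD : 2 ≤ D.card) (j : V) : mvM m D t {j} ≤ m {j} + 1 := by
  unfold mvM
  have h2 : ({j} : Finset V) ≠ D := fun h3 => by
    rw [← h3, card_singleton] at hD
    omega
  rw [if_neg h2]
  split_ifs <;> linarith

end

section

variable {m : Finset V → ℝ} {K U T : Finset V}

/-- what does not change -/
structure Moved (m m' : Finset V → ℝ) (K U : Finset V) : Prop where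
  pos : PosM m'
  int : ∀ E, ∃ k : ℕ, m' E = k
  emp : m' ∅ = m ∅
  sing : ∀ j, m {j} ≤ m' {j}
  sing' : ∀ j, m' {j} ≤ m {j} + (U.erase j).card
  paU : ∀ j ∈ U, pa m' K j = pa m K j - 1
  paN : ∀ j, j ∉ U → pa m' K j = pa m K j
  pal : pal m' K = pal m K
  po : po m' K = po m K - U.card

theorem stepAll_aux (h : PosM m) (hint : ∀ E, ∃ k : ℕ, m E = k) (hU : U ⊆ K) {β : ℝ}
    (hUT : Disjoint U T) (hβ : ∀ t ∈ U, β ≤ pa m K t) (hone : ∀ t ∈ U, 1 ≤ m {t}) :
    β * Ival m K - ∑ t ∈ U, Ival m (K.erase t) - ∑ v ∈ T, Ival m (K.erase v) ≤ 0 ∨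
      ∃ m' : Finset V → ℝ, Moved m m' K U ∧
        β * Ival m K - ∑ t ∈ U, Ival m (K.erase t) - ∑ v ∈ T, Ival m (K.erase v) ≤
          (β - ∑ t ∈ U, m {t}) * Ival m' K - ∑ v ∈ T, Ival m' (K.erase v) := by
  induction hn : U.card generalizing U m β with
  | zero =>
    rw [card_eq_zero] at hn
    subst hn
    right
    refine ⟨m, ⟨h, hint, rfl, fun _ => le_rfl, fun j => ?_,
      fun j hj => absurd hj (notMem_empty j), fun _ _ => rfl, rfl, ?_⟩, ?_⟩
    · rw [erase_empty, card_empty, Nat.cast_zero, add_zero]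
    · rw [card_empty, Nat.cast_zero, sub_zero]
    · rw [sum_empty, sum_empty, sub_zero, sub_zero]
  | succ n ih =>
    obtain ⟨t, ht⟩ : U.Nonempty := card_pos.1 (by omega)
    have htK := hU ht
    have hUT' : Disjoint (U.erase t) T := hUT.mono_left (erase_subset _ _)
    have h3 : ∀ m' : Finset V → ℝ, ∑ v ∈ U.erase t, Ival m' (K.erase v) + Ival m' (K.erase t) =
        ∑ v ∈ U, Ival m' (K.erase v) := fun m' => sum_erase_add _ _ ht
    have h2 : ∀ m' : Finset V → ℝ, ∑ v ∈ U.erase t ∪ T, Ival m' (K.erase v) =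
        ∑ v ∈ U.erase t, Ival m' (K.erase v) + ∑ v ∈ T, Ival m' (K.erase v) := fun m' =>
      sum_union hUT'
    have h6 := h3 m
    rcases stepM h hint htK (U.erase t ∪ T) (hβ t ht) with h4 | ⟨D, hD, htD, hD2, hD1, h4⟩
    · left
      rw [h2] at h4
      linarith
    · rw [h2, h2] at h4
      have hm' := h.mvM htD hD2 hD1
      have h1t := hone t ht
      have hpaN : ∀ v, v ≠ t → pa (mvM m D t) K v = pa m K v := fun v hv => pa_mvM_ne hD hv
      have h5 := ih hm' (mvM_int hint hD1) (U := U.erase t) ((erase_subset _ _).trans hU)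
        (β := β - m {t}) hUT' (fun v hv => by
          rw [mem_erase] at hv
          rw [hpaN v hv.1]
          have := hβ v hv.2
          linarith) (fun v hv => (hone v (mem_of_mem_erase hv)).trans (le_mvM_single hD2 v)) (by
          rw [card_erase_of_mem ht, hn]
          rfl)
      rcases h5 with h5 | ⟨m', hM, h5⟩
      · left
        linarith
      · right
        refine ⟨m', ⟨hM.pos, hM.int, hM.emp.trans (mvM_empty htD hD2),
          fun j => (le_mvM_single hD2 j).trans (hM.sing j), ?_, ?_, ?_,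
          hM.pal.trans (pal_mvM hD), ?_⟩, ?_⟩
        · intro j
          have h7 := hM.sing' j
          by_cases hjt : j = t
          · subst hjt
            rw [erase_idem] at h7
            have h8 := mvM_single_self (m := m) (t := j) hD2
            linarith
          · have h8 := mvM_single_le (m := m) (t := t) hD2 j
            have h9 : ((U.erase t).erase j).card + 1 = (U.erase j).card := by
              rw [erase_right_comm]
              exact card_erase_add_one (mem_erase.2 ⟨fun h10 => hjt h10.symm, ht⟩)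
            have h10 : (((U.erase t).erase j).card : ℝ) + 1 = (U.erase j).card := by
              exact_mod_cast h9
            linarith
        · intro j hj
          by_cases hjt : j = t
          · subst hjt
            rw [hM.paN j (notMem_erase j U), pa_mvM_self hD htD]
          · rw [hM.paU j (mem_erase.2 ⟨hjt, hj⟩), hpaN j hjt]
        · intro j hj
          rw [hM.paN j fun h6 => hj (mem_of_mem_erase h6), hpaN j fun h6 => hj (h6 ▸ ht)]
        · rw [hM.po, po_mvM hD htD hD2, card_erase_of_mem ht, hn]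
          push_cast
          ring
        · have h7 : ∑ v ∈ U.erase t, m {v} ≤ ∑ v ∈ U.erase t, mvM m D t {v} :=
            sum_le_sum fun v _ => le_mvM_single hD2 v
          have h8 : ∑ v ∈ U.erase t, m {v} + m {t} = ∑ v ∈ U, m {v} := sum_erase_add _ _ ht
          have h9 := mul_le_mul_of_nonneg_right h7 (Ival_pos hM.pos K).le
          rw [← h8]
          linarith

/-- the step for all over-full tops and the trivial bound for the other tops -/
theorem stepAll (h : PosM m) (hint : ∀ E, ∃ k : ℕ, m E = k) (hT : T ⊆ K) (hU : U ⊆ T) {β : ℝ}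
    (hβ : ∀ t ∈ U, β ≤ pa m K t) (hone : ∀ t ∈ T, 1 ≤ m {t}) :
    β * Ival m K - ∑ t ∈ T, Ival m (K.erase t) ≤ 0 ∨
      ∃ m' : Finset V → ℝ, Moved m m' K U ∧
        β * Ival m K - ∑ t ∈ T, Ival m (K.erase t) ≤ (β - ∑ t ∈ T, m {t}) * Ival m' K := by
  have h1 := stepAll_aux (T := T \ U) h hint (hU.trans hT) disjoint_sdiff hβ fun t ht =>
    hone t (hU ht)
  have h2 : ∀ f : V → ℝ, ∑ t ∈ U, f t + ∑ t ∈ T \ U, f t = ∑ t ∈ T, f t := fun f => by
    rw [add_comm]
    exact sum_sdiff hU
  have h3 := h2 fun t => Ival m (K.erase t)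
  rcases h1 with h1 | ⟨m', hM, h1⟩
  · left
    linarith
  · right
    refine ⟨m', hM, ?_⟩
    have h4 : ∑ v ∈ T \ U, m {v} * Ival m' K ≤ ∑ v ∈ T \ U, Ival m' (K.erase v) := by
      refine sum_le_sum fun v hv => ?_
      have h5 := mul_Ival_le_erase hM.pos (hT (mem_sdiff.1 hv).1)
      have h6 := mul_le_mul_of_nonneg_right (hM.sing v) (Ival_pos hM.pos K).le
      linarith
    rw [← sum_mul] at h4
    have h5 := h2 fun t => m {t}
    rw [← h5, ← h3]
    linarith

end

end MP76b19e.Rob
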