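import Pool.Agent.Lib.MP76b19e.Rob.NumJ
import Pool.Agent.Lib.MP76b19e.Rob.NumK
import Pool.Agent.Lib.MP76b19e.Rob.StepAll
import Pool.Agent.Lib.MP76b19e.Rob.Stat

/-!
# `KSt p 2 1 1` (problem MP_76b19e_co)
-/

set_option autoImplicit false

open Finset

namespace MP76b19e.Rob

open Pool.Agent.MP76b19e (bq H_pow_le H_pow_le' H_ge_one)

/-- the sum of the quotients, all numerators at least `g` -/
theorem sum_div_ge {V : Type} {K : Finset V} {b y : V → ℝ} {g Y : ℝ} (hY : 0 < Y)
    (hy0 : ∀ j ∈ K, 0 < y j) (hyY : ∀ j ∈ K, y j ≤ Y) (hb : ∀ j ∈ K, g ≤ b j)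
    (hb0 : ∀ j ∈ K, 0 ≤ b j) : K.card * (g / Y) ≤ ∑ j ∈ K, b j / y j := by
  rw [← nsmul_eq_mul, ← sum_const]
  refine sum_le_sum fun j hj => ?_
  refine (div_le_div_of_nonneg_right (hb j hj) hY.le).trans ?_
  exact div_le_div_of_nonneg_left (hb0 j hj) (hy0 j hj) (hyY j hj)

/-- the sum of the quotients, the sum of the numerators -/
theorem sum_div_ge' {V : Type} {K : Finset V} {b y : V → ℝ} {g Y : ℝ} (hY : 0 < Y)
    (hy0 : ∀ j ∈ K, 0 < y j) (hyY : ∀ j ∈ K, y j ≤ Y) (hb : g ≤ ∑ j ∈ K, b j)
    (hb0 : ∀ j ∈ K, 0 ≤ b j) : g / Y ≤ ∑ j ∈ K, b j / y j := by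
  refine (div_le_div_of_nonneg_right hb hY.le).trans ?_
  rw [sum_div]
  refine sum_le_sum fun j hj => ?_
  exact div_le_div_of_nonneg_left (hb0 j hj) (hy0 j hj) (hyY j hj)

section

variable {V : Type} [DecidableEq V] {K T : Finset V} {m : Finset V → ℝ} {b : V → ℝ} {p : ℕ}

/-- base at least three -/
theorem fin_c3 {L H : ℝ} (hp : 2 ≤ p) (hL : 0 < L) (hH : 0 < H) (hLq : L ^ (p - 1) = p)
    (hHq : H ^ (p - 1) = 2 * p / (p + 1)) {c d e τ : ℕ} (hc : 3 ≤ c) (hdc : d ≤ c) (hdτ : d ≤ τ)
    (hτp : τ ≤ p) (he : (e : ℝ) ≤ 2 * p - 1 + c + (τ - d)) {F S : ℝ}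
    (hF : ∀ c0 : ℕ, c0 ≤ c → F ≤ rhoV L p c0 d * H ^ (e - (c - c0))) (hS1 : 1 ≤ S)
    (hS : 1 + (3 - 2 * ((τ : ℝ) - d) + (e - c) - p) / (p - 1) ≤ S) :
    ((p : ℝ) + 1 - τ) * F ≤ p * S := by
  have hp2 : (2 : ℝ) ≤ p := by exact_mod_cast hp
  have hp1 : (0 : ℝ) < p - 1 := by linarith
  have hH1 := H_ge_one hp hH hHq
  have hτr : (τ : ℝ) ≤ p := by exact_mod_cast hτp
  -- the choice of `c0`
  obtain ⟨c0, hc0c, hc0, hth⟩ : ∃ c0 : ℕ, c0 ≤ c ∧ 3 ≤ c0 ∧
      ((p : ℝ) + 1 - d) * (rhoV L p c0 d * H ^ (c0 + p - 3)) ≤ 2 / 3 * p := by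
    rcases Nat.lt_or_ge d 3 with h | h
    · refine ⟨3, hc, le_rfl, ?_⟩
      rw [show 3 + p - 3 = p by omega]
      interval_cases d
      · exact th3_0 hp hL hH hLq hHq
      · exact th3_1 hp hL hH hLq hHq
      · exact th3_2 hp hL hH hLq hHq
    · exact ⟨d, hdc, h, thd hL hH hLq hHq h (hdτ.trans hτp)⟩
  have hR0 := rhoV_nonneg hp hL (p := p) c0 d
  obtain ⟨j, hj⟩ : ∃ j, τ = j + d := ⟨τ - d, by omega⟩
  have hjr : (τ : ℝ) = j + d := by exact_mod_cast hj
  obtain ⟨m, hm⟩ : ∃ m, m = (e - (c - c0)) - (c0 + p - 3) := ⟨_, rfl⟩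
  have h1 : H ^ (e - (c - c0)) ≤ H ^ (c0 + p - 3) * H ^ m := by
    rw [← pow_add]
    exact pow_le_pow_right₀ hH1 (by omega)
  -- the facts about `m`
  have hmr : m = 0 ∨ (m : ℝ) = e - c + 3 - p := by
    rcases Nat.eq_zero_or_pos m with h | h
    · exact Or.inl h
    · right
      have h2 : m + c + p = e + 3 := by omega
      have h3 : (m : ℝ) + c + p = e + 3 := by exact_mod_cast h2
      linarith
  have hmj : m ≤ p + 2 + j := by
    rcases hmr with h | h
    · omega
    · have h3 : (m : ℝ) ≤ p + 2 + j := by linarith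
      exact_mod_cast h3
  have hSm : 1 + ((m : ℝ) - 2 * j) / (p - 1) ≤ S := by
    rcases hmr with h | h
    · have h3 : ((m : ℝ) - 2 * j) / (p - 1) ≤ 0 := by
        rw [h, Nat.cast_zero]
        refine div_nonpos_of_nonpos_of_nonneg ?_ hp1.le
        have : (0 : ℝ) ≤ j := Nat.cast_nonneg j
        linarith
      linarith
    · refine le_trans (le_of_eq ?_) hS
      rw [h, hjr]
      ring
  have h2 := star hp hH hHq (d := d) (j := j) (m := m) (by omega) hmj hS1 hSm
  have h3 := hF c0 hc0c
  have h4 : F ≤ rhoV L p c0 d * H ^ (c0 + p - 3) * H ^ m := by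
    refine h3.trans ?_
    have := mul_le_mul_of_nonneg_left h1 hR0
    linarith
  have h5 := mul_le_mul_of_nonneg_left h4 (by linarith : (0 : ℝ) ≤ (p : ℝ) + 1 - τ)
  refine h5.trans ?_
  have hR : 0 ≤ rhoV L p c0 d * H ^ (c0 + p - 3) := by positivity
  have h6 := mul_le_mul_of_nonneg_right h2 hR
  have h7 := mul_le_mul_of_nonneg_right hth (by linarith : (0 : ℝ) ≤ S)
  rw [hjr]
  nlinarith

/-- `ν = 1`, `h = 2`, at least one top -/
theorem KS.two_one (h : KS K T m b p 2 1) (hT : 1 ≤ T.card)
    (hV : 0 < ((p : ℝ) + 1) * Ival m K - ∑ t ∈ T, Ival m (K.erase t))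
    (hN : ¬ (T.card = 1 ∧ ∀ t ∈ T, pa m K t ≤ p)) :
    (p : ℝ) ^ (K.card - 3) * (((p : ℝ) + 1) * Ival m K - ∑ t ∈ T, Ival m (K.erase t)) ≤
      1 + ∑ j ∈ K, b j / (m {j} + m ∅) := by
  classical
  have hp := h.p2
  have hp2 : (2 : ℝ) ≤ p := by exact_mod_cast hp
  have hp0 : (0 : ℝ) < p := by linarith
  have hp1 : (0 : ℝ) < p - 1 := by linarith
  have hbase := h.base
  have hpal := h.palK
  have hbsum := h.bsum
  push_cast at hbase hpal hbsum
  have hb0 : ∀ j ∈ K, 0 ≤ b j := fun j _ => h.b0 j
  have hm0 : 0 ≤ m ∅ := h.pos.1 ∅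
  have hy0 : ∀ j ∈ K, 0 < m {j} + m ∅ := fun j hj => by linarith [h.one j hj]
  have hKc : 3 ≤ K.card := h.Kc
  obtain ⟨c, hc⟩ := h.int ∅
  obtain ⟨S, hSdef⟩ : ∃ S, S = 1 + ∑ j ∈ K, b j / (m {j} + m ∅) := ⟨_, rfl⟩
  have hS1 : 1 ≤ S := by
    rw [hSdef]
    have : 0 ≤ ∑ j ∈ K, b j / (m {j} + m ∅) :=
      sum_nonneg fun j hj => div_nonneg (hb0 j hj) (hy0 j hj).le
    linarith
  set U := T.filter fun v => (p : ℝ) < pa m K v with hU
  have hUT : U ⊆ T := filter_subset _ _
  have hUK : U ⊆ K := hUT.trans h.TK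
  -- the values on `U`
  have hpaU : ∀ t ∈ U, pa m K t = (p : ℝ) + 1 ∨ pa m K t = (p : ℝ) + 2 := by
    intro t ht
    obtain ⟨htT, htp⟩ := mem_filter.1 ht
    have h1 := h.paT t htT
    obtain ⟨a, ha⟩ := pa_int h.int K t
    rw [ha] at h1 htp ⊢
    push_cast at h1
    have h2 : p < a := by exact_mod_cast htp
    have h3 : a ≤ p + 2 := by exact_mod_cast h1
    rcases (by omega : a = p + 1 ∨ a = p + 2) with h4 | h4
    · left; rw [h4]; push_cast; ring
    · right; rw [h4]; push_cast; ring
  have hpaN : ∀ j ∈ K, j ∉ U → pa m K j ≤ p := by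
    intro j hj hjU
    by_cases hjT : j ∈ T
    · by_contra hcon
      push Not at hcon
      exact hjU (mem_filter.2 ⟨hjT, hcon⟩)
    · exact h.paL j hj hjT
  have hone : ∀ t ∈ T, 1 ≤ m {t} := fun t ht => h.one t (h.TK ht)
  rcases stepAll h.pos h.int h.TK hUT (β := (p : ℝ) + 1) (fun t ht => by
    rcases hpaU t ht with h1 | h1 <;> rw [h1]
    linarith) hone with h1 | ⟨m', hM, h1⟩
  · linarith
  obtain ⟨W, hW⟩ : ∃ W, W = ∑ t ∈ T, m {t} := ⟨_, rfl⟩
  rw [← hW] at h1
  have hF' := Ival_pos hM.pos K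
  have hWp : W < p + 1 := by
    by_contra hcon
    push Not at hcon
    have := mul_nonpos_of_nonpos_of_nonneg (by linarith : (p : ℝ) + 1 - W ≤ 0) hF'.le
    linarith
  have hWτ : (T.card : ℝ) ≤ W := by
    rw [hW]
    have h2 := sum_le_sum hone
    rw [sum_const, nsmul_eq_mul, mul_one] at h2
    exact h2
  have hτp : T.card ≤ p := by
    have h2 : (T.card : ℝ) < p + 1 := by linarith
    have h3 : T.card < p + 1 := by exact_mod_cast h2
    omega
  have hUτ : U.card ≤ T.card := card_le_card hUT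
  -- the private masses of tops
  have hwT : ∀ t ∈ T, m {t} + (T.card - 1) ≤ W := by
    intro t ht
    rw [hW, ← add_sum_erase T (fun t => m {t}) ht]
    have h2 := sum_le_sum fun v (hv : v ∈ T.erase t) => hone v (mem_of_mem_erase hv)
    rw [sum_const, nsmul_eq_mul, mul_one, card_erase_of_mem ht, Nat.cast_sub (by omega)] at h2
    push_cast at h2
    linarith
  have hint_le : ∀ x : ℝ, (∃ k : ℕ, x = k) → x < p + 1 → x ≤ p := by
    rintro x ⟨k, rfl⟩ hx
    have : k < p + 1 := by exact_mod_cast hx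
    exact_mod_cast (by omega : k ≤ p)
  have hwTp : ∀ t ∈ T, m {t} ≤ p := fun t ht => hint_le _ (h.int {t}) (by
    have := hwT t ht
    have h2 : (1 : ℝ) ≤ T.card := by exact_mod_cast hT
    linarith)
  have hyp : ∀ j ∈ K, m {j} + m ∅ ≤ p + m ∅ := by
    intro j hj
    by_cases hjT : j ∈ T
    · linarith [hwTp j hjT]
    · linarith [(le_pa h.pos.1 hj).trans (h.paL j hj hjT)]
  -- the second set of over-full tops
  set U2 := U.filter fun v => pa m K v = (p : ℝ) + 2 with hU2
  have hU2U : U2 ⊆ U := filter_subset _ _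
  have hk : U2.card ≤ U.card := card_le_card hU2U
  have hle' : ∀ j ∈ K, j ∉ U2 → pa m' K j ≤ p := by
    intro j hj hjU2
    by_cases hjU : j ∈ U
    · rw [hM.paU j hjU]
      rcases hpaU j hjU with h2 | h2
      · rw [h2]; linarith
      · exact absurd (mem_filter.2 ⟨hjU, h2⟩) hjU2
    · rw [hM.paN j hjU]
      exact hpaN j hj hjU
  have heq' : ∀ j ∈ U2, pa m' K j = (p : ℝ) + 1 := by
    intro j hj
    obtain ⟨h2, h3⟩ := mem_filter.1 hj
    rw [hM.paU j h2, h3]
    ring
  have hw' : ∀ j ∈ U2, m' {j} ≤ p := by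
    intro j hj
    refine hint_le _ (hM.int {j}) ?_
    have h2 := hM.sing' j
    have h3 := hwT j (hUT (hU2U hj))
    have h4 : (U.erase j).card + 1 ≤ T.card := by
      rw [card_erase_add_one (hU2U hj)]
      exact hUτ
    have h5 : ((U.erase j).card : ℝ) + 1 ≤ T.card := by exact_mod_cast h4
    linarith
  have hpal' : pal m' K = ((K.card : ℝ) - 2) * p + 1 := by
    rw [hM.pal, hpal]
    ring
  -- the final step from `F'`
  have hpw : (p : ℝ) ^ (K.card - 2) = p * p ^ (K.card - 3) := by
    rw [← pow_succ']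
    congr 1
    omega
  obtain ⟨F, hFdef⟩ : ∃ F, F = (p : ℝ) ^ (K.card - 2) * Ival m' K := ⟨_, rfl⟩
  have hF0 : 0 ≤ F := by rw [hFdef]; positivity
  have hfinal : ((p : ℝ) + 1 - T.card) * F ≤ p * S →
      (p : ℝ) ^ (K.card - 3) * (((p : ℝ) + 1) * Ival m K - ∑ t ∈ T, Ival m (K.erase t)) ≤
      1 + ∑ j ∈ K, b j / (m {j} + m ∅) := by
    intro h2
    rw [← hSdef]
    have h3 : (p : ℝ) * ((p : ℝ) ^ (K.card - 3) * (((p : ℝ) + 1 - W) * Ival m' K)) ≤ p * S := by
      calc (p : ℝ) * ((p : ℝ) ^ (K.card - 3) * (((p : ℝ) + 1 - W) * Ival m' K))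
          = ((p : ℝ) + 1 - W) * F := by rw [hFdef, hpw]; ring
        _ ≤ ((p : ℝ) + 1 - T.card) * F := mul_le_mul_of_nonneg_right (by linarith) hF0
        _ ≤ p * S := h2
    have h4 := le_of_mul_le_mul_left h3 hp0
    exact (mul_le_mul_of_nonneg_left h1 (by positivity)).trans h4
  -- the bounds for the `b j`
  have hbg : ∀ j ∈ K, 3 - 2 * (T.card : ℝ) + (po m K - m ∅) - p ≤ b j := by
    intro j hj
    have h5 := pa_add_pom (m := m) hj
    by_cases hjT : j ∈ T
    · have h6 := h.bT j hjT
      have h7 := h.paT j hjT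
      push_cast at h6 h7
      linarith
    · have h6 := h.bL j hj hjT
      have h7 := h.paL j hj hjT
      push_cast at h6
      linarith
  have hScard : K.card * ((3 - 2 * (T.card : ℝ) + (po m K - m ∅) - p) / (p + m ∅)) ≤ S - 1 := by
    rw [hSdef, add_sub_cancel_left]
    exact sum_div_ge (by linarith) hy0 hyp hbg hb0
  have hSsum : (5 - 2 * (T.card : ℝ) + (po m K - m ∅)) / (p + m ∅) ≤ S - 1 := by
    rw [hSdef, add_sub_cancel_left]
    refine sum_div_ge' (by linarith) hy0 hyp ?_ hb0
    linarith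
  -- the number of elements
  have hn : 2 * (p : ℝ) - 1 + m ∅ ≤ K.card * (p - 1) := by
    have h2 := pal_eq (m := m) (K := K)
    have h3 := sum_le_sum h.one
    rw [sum_const, nsmul_eq_mul, mul_one] at h3
    have h4 := pN_nonneg (K := K) h.pos.1
    linarith
  have hSn : 1 + (3 - 2 * (T.card : ℝ) + (po m K - m ∅) - p) / (p - 1) ≤ S := by
    rcases le_or_gt (3 - 2 * (T.card : ℝ) + (po m K - m ∅) - p) 0 with h2 | h2
    · have := div_nonpos_of_nonpos_of_nonneg h2 hp1.le
      linarith
    · have h3 : (3 - 2 * (T.card : ℝ) + (po m K - m ∅) - p) / (p - 1) ≤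
          K.card * ((3 - 2 * (T.card : ℝ) + (po m K - m ∅) - p) / (p + m ∅)) := by
        rw [mul_div_assoc', div_le_div_iff₀ hp1 (by linarith)]
        nlinarith
      linarith
  -- the total overlap
  have hcap : po m K - m ∅ ≤ 2 * p - 1 + U.card + U2.card := by
    have h2 := sum_pa (m := m) (K := K)
    have h3 : ∑ j ∈ K, pa m K j ≤ ∑ j ∈ K, ((p : ℝ) + (if j ∈ U then 1 else 0) +
        (if j ∈ U2 then 1 else 0)) := by
      refine sum_le_sum fun j hj => ?_
      by_cases hjU : j ∈ U
      · rw [if_pos hjU]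
        by_cases hj2 : j ∈ U2
        · rw [if_pos hj2, (mem_filter.1 hj2).2]
          linarith
        · rw [if_neg hj2]
          rcases hpaU j hjU with h4 | h4
          · rw [h4]; linarith
          · exact absurd (mem_filter.2 ⟨hjU, h4⟩) hj2
      · rw [if_neg hjU, if_neg fun h4 => hjU (hU2U h4)]
        have := hpaN j hj hjU
        linarith
    rw [sum_add_distrib, sum_add_distrib, sum_const, nsmul_eq_mul, sum_ite_mem, sum_ite_mem,
      inter_eq_right.2 hUK, inter_eq_right.2 (hU2U.trans hUK), sum_const, sum_const, nsmul_eq_mul,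
      nsmul_eq_mul, mul_one, mul_one] at h3
    rw [h2] at h3
    linarith
  have hpo' := hM.po
  obtain ⟨L, H, hL, hH, hLq, hHq⟩ := exists_LH hp
  obtain ⟨d, e, hd1, hd2, hg1, hg2, _⟩ := gwU hp hL hH hLq hHq hM.pos hM.int (by omega)
    (fun j hj => (h.one j hj).trans (hM.sing j)) (hU2U.trans hUK) hle' heq' hw' hpal'
  rw [← hFdef, hM.emp] at hg1
  have hH1 := H_ge_one hp hH hHq
  have hF1 : ∀ c0 : ℕ, c0 ≤ c → F ≤ rhoV L p c0 d * H ^ (e - (c - c0)) := fun c0 hc0 =>
    hg1 c0 c hc hc0
  -- everything in numbers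
  obtain ⟨E, hE⟩ : ∃ E, E = po m K - m ∅ := ⟨_, rfl⟩
  rw [← hE] at hSn hScard hSsum hcap
  rw [hpo'] at hg2
  have hE1 : (e : ℝ) - c + U.card + d ≤ E := by rw [hE, ← hc]; linarith
  have hUr : (U2.card : ℝ) ≤ U.card := by exact_mod_cast hk
  have hUτr : (U.card : ℝ) ≤ T.card := by exact_mod_cast hUτ
  have hdr : (d : ℝ) ≤ U2.card := by exact_mod_cast hd1
  have hcτ : T.card ≤ c := by
    rw [hc] at hbase
    have h2 : (T.card : ℝ) ≤ c := by linarith
    exact_mod_cast h2
  have he2 : (e : ℝ) ≤ 2 * p - 1 + c + (U2.card - d) := by linarith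
  rcases Nat.lt_or_ge c 3 with hc3 | hc3
  · -- base one or two
    have hYc : (p : ℝ) + m ∅ = p + c := by rw [hc]
    rw [hYc] at hScard hSsum
    by_cases hτ1 : T.card = 1
    · -- one top
      rw [hτ1] at hN hUτ hScard hSsum hSn
      push_cast at hScard hSsum hSn
      have hU1 : 1 ≤ U.card := by
        by_contra hcon
        have h2 : U = ∅ := card_eq_zero.1 (by omega)
        refine hN ⟨rfl, fun t ht => ?_⟩
        exact hpaN t (h.TK ht) (by rw [h2]; exact notMem_empty t)
      have hUc : U.card = 1 := by omega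
      rcases Nat.eq_zero_or_pos U2.card with hk0 | hk0
      · -- (V*)
        have hU20 : U2 = ∅ := card_eq_zero.1 hk0
        have hUeq : U = T := by
          refine eq_of_subset_of_card_le hUT ?_
          omega
        have hQ : pal m' K - ((K.card : ℝ) - 2) * p = 1 := by
          rw [hpal']
          ring
        have hUcr : (U.card : ℝ) = 1 := by rw [hUc, Nat.cast_one]
        have h2 := vstar (m := m') (K := K) hM.pos (by omega) (P := p) (Q1 := 2) hp0
          (fun j hj => hle' j hj (by rw [hU20]; exact notMem_empty j)) (by rw [hQ]; norm_num) hp2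
          (by norm_num) (b := b) (fun j hj => by
            have h5 := pa_add_pom (m := m) hj
            have h6 := pa_add_pom (m := m') hj
            rw [hM.emp]
            rw [hpo', hUcr] at h6
            by_cases hjT : j ∈ T
            · have h7 := h.bT j hjT
              rw [hτ1] at h7
              push_cast at h7
              rw [hM.paU j (by rw [hUeq]; exact hjT)] at h6
              linarith
            · have h7 := h.bL j hj hjT
              rw [hτ1] at h7
              push_cast at h7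
              rw [hM.paN j (fun h8 => hjT (hUT h8))] at h6
              linarith) (by
            rw [hQ, hM.emp, hpo', hUcr]
            rw [hτ1] at hbsum
            push_cast at hbsum
            linarith)
        rw [hQ, ← hFdef] at h2
        have h3 : ∑ j ∈ K, b j / (m' {j} + m' ∅) ≤ S - 1 := by
          rw [hSdef, add_sub_cancel_left, hM.emp]
          refine sum_le_sum fun j hj => ?_
          exact div_le_div_of_nonneg_left (hb0 j hj) (hy0 j hj) (by linarith [hM.sing j])
        have hFS : F ≤ S := by linarith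
        refine hfinal ?_
        rw [hτ1]
        push_cast
        have h4 : (p : ℝ) + 1 - 1 = p := by ring
        rw [h4]
        exact mul_le_mul_of_nonneg_left hFS hp0.le
      · have hk1 : U2.card = 1 := by omega
        have hdd : d = 1 := by
          have := hd2 (by omega)
          omega
        subst hdd
        rw [hk1] at he2 hcap
        rw [hUc] at hE1
        push_cast at he2 hE1
        refine hfinal ?_
        rw [hτ1]
        push_cast
        have h2 : (p : ℝ) + 1 - 1 = p := by ring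
        rw [h2]
        refine mul_le_mul_of_nonneg_left ?_ hp0.le
        rcases (by omega : c = 1 ∨ c = 2) with hc1 | hc1
        · subst hc1
          refine (hF1 1 le_rfl).trans ?_
          rw [Nat.sub_self, Nat.sub_zero]
          push_cast at *
          refine fin_c1 hp hL hH hLq hHq ?_ ?_ ?_
          · have h3 : (e : ℝ) ≤ 2 * p := by linarith
            exact_mod_cast h3
          · have h3 : ((e : ℝ) + 4) / (p + 1) ≤ (5 - 2 * 1 + E) / (p + 1) :=
              div_le_div_of_nonneg_right (by linarith) (by linarith)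
            linarith
          · rcases le_or_gt ((e : ℝ) + 2 - p) 0 with h3 | h3
            · have : 3 * ((e : ℝ) + 2 - p) / (p + 1) ≤ 0 :=
                div_nonpos_of_nonpos_of_nonneg (by linarith) (by linarith)
              linarith
            · have h4 : ((e : ℝ) + 2 - p) / (p + 1) ≤ (3 - 2 * 1 + E - p) / (p + 1) :=
                div_le_div_of_nonneg_right (by linarith) (by linarith)
              have h5 : 0 < ((e : ℝ) + 2 - p) / (p + 1) := div_pos h3 (by linarith)
              have h6 : (3 : ℝ) ≤ K.card := by exact_mod_cast hKc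
              have h7 : 3 * ((e : ℝ) + 2 - p) / (p + 1) = 3 * (((e : ℝ) + 2 - p) / (p + 1)) := by
                ring
              rw [h7]
              nlinarith
        · subst hc1
          refine (hF1 2 le_rfl).trans ?_
          rw [Nat.sub_self, Nat.sub_zero]
          push_cast at *
          have h3 := fin_c2a hp hH hHq (u := e) (by
            have h3 : (e : ℝ) ≤ 2 * p + 1 := by linarith
            exact_mod_cast h3)
          have h4 := mul_le_mul_of_nonneg_right (c2_1 hp hL hLq) (by positivity : 0 ≤ H ^ e)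
          have h5 : ((e : ℝ) + 3) / (p + 2) ≤ (5 - 2 * 1 + E) / (p + 2) :=
            div_le_div_of_nonneg_right (by linarith) (by linarith)
          linarith
    · -- two tops, base two
      have hc2 : c = 2 := by omega
      have hτ2 : T.card = 2 := by omega
      subst hc2
      rw [hτ2] at hSsum hUτ
      refine hfinal ?_
      rw [hτ2]
      have hF2 := hF1 2 le_rfl
      rw [Nat.sub_self, Nat.sub_zero] at hF2
      push_cast at *
      have h2 : (p : ℝ) + 1 - 2 = p - 1 := by ring
      rw [h2]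
      have hHe : 0 ≤ H ^ e := by positivity
      have h3 := mul_le_mul_of_nonneg_left hF2 hp1.le
      have hsum : ∀ x : ℝ, x ≤ 1 + E → 1 + x / (p + 2) ≤ S := by
        intro x hx
        have h4 : x / (p + 2) ≤ (5 - 2 * 2 + E) / (p + 2) :=
          div_le_div_of_nonneg_right (by linarith) (by linarith)
        linarith
      have hU0 : (0 : ℝ) ≤ U.card := Nat.cast_nonneg _
      rcases Nat.lt_or_ge d 1 with hd0 | hd0
      · have hdz : d = 0 := by omega
        have hkz : U2.card = 0 := by
          by_contra hcon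
          have := hd2 (by omega)
          omega
        subst hdz
        rw [hkz] at he2
        push_cast at *
        have h4 := ovR2 hp hL hLq
        have h5 := fin_c2c hp hH hHq (u := e) (S := S) (by
          have h5 : (e : ℝ) ≤ 2 * p + 1 := by linarith
          exact_mod_cast h5) hS1 (hsum _ (by linarith))
        have h6 := mul_le_mul_of_nonneg_left h5 hp0.le
        have h7 : (p : ℝ) * (((p : ℝ) - 1) / (2 * p) * H ^ e) = (p - 1) * (1 / 2 * H ^ e) := by
          field_simp
        rw [h7] at h6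
        refine h3.trans (le_trans ?_ h6)
        refine mul_le_mul_of_nonneg_left ?_ hp1.le
        exact mul_le_mul_of_nonneg_right h4 hHe
      · rcases (by omega : d = 1 ∨ d = 2) with hd' | hd'
        · subst hd'
          have h4 := c2_1' hp hL hLq
          have h5 := fin_c2b hp hH hHq (u := e) (by
            have h6 : (U2.card : ℝ) ≤ 2 := by
              have : U2.card ≤ 2 := by omega
              exact_mod_cast this
            have h5 : (e : ℝ) ≤ 2 * p + 2 := by push_cast at he2; linarith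
            exact_mod_cast h5)
          have h6 := h5.trans (hsum _ (by
            have h7 : (1 : ℝ) ≤ U.card := by
              have : 1 ≤ U.card := by omega
              exact_mod_cast this
            push_cast at hE1
            linarith))
          have h7 := mul_le_mul_of_nonneg_left h6 hp0.le
          have h8 := mul_le_mul_of_nonneg_right h4 hHe
          refine h3.trans ?_
          linarith
        · subst hd'
          have hU2c : U.card = 2 := by omega
          have hk2 : U2.card = 2 := by omega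
          rw [hk2] at he2
          rw [hU2c] at hE1
          push_cast at *
          have h4 := c2_2' hp hL hLq
          have h5 := fin_c2a hp hH hHq (u := e) (by
            have h5 : (e : ℝ) ≤ 2 * p + 1 := by linarith
            exact_mod_cast h5)
          have h6 := h5.trans (hsum _ (by linarith))
          have h7 := mul_le_mul_of_nonneg_left h6 hp0.le
          have h8 := mul_le_mul_of_nonneg_right h4 hHe
          refine h3.trans ?_
          linarith
  · -- base at least three
    refine hfinal (fin_c3 hp hL hH hLq hHq hc3 (by omega) (by omega) hτp (by linarith) hF1 hS1 ?_)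
    refine le_trans ?_ hSn
    have h2 : (3 - 2 * ((T.card : ℝ) - d) + (e - c) - p) / (p - 1) ≤
        (3 - 2 * (T.card : ℝ) + E - p) / (p - 1) :=
      div_le_div_of_nonneg_right (by linarith) hp1.le
    linarith

end

private theorem ksc_2_pos {p : ℕ} {C : ℕ → Prop} (hC : ∀ k, C k → 1 ≤ k) : KSc C p 2 1 1 := by
  intro V iV K T m b hk hT hV
  by_cases hN : T.card = 1 ∧ ∀ t ∈ T, pa m K t ≤ p
  · obtain ⟨t, ht⟩ := card_eq_one.1 hN.1
    exact ks_1_1 hk ht (hN.2 t (by rw [ht]; exact mem_singleton_self t))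
  · have e1 : ((1 : ℕ) : ℝ) * p + (((1 : ℕ) : ℝ) - 1) * ((2 : ℕ) : ℝ) + 1 = p + 1 := by
      push_cast
      ring
    rw [e1] at hV ⊢
    rw [one_mul]
    exact hk.two_one (hC _ hT) hV hN

/-- `ν = 1`, `h = 2` -/
theorem kst_2_1 (p : ℕ) : KSt p 2 1 1 :=
  kst_of ksc_1_0 (ksc_2_pos fun k hk => hk.ge) (ksc_2_pos fun k hk => by omega)

end MP76b19e.Rob
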