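import Pool.Agent.Lib.MP76b19e.Rob.StepAll

/-!
# One step for every pair of over-full tops (problem MP_76b19e_co)

`stepPair`: if `β ≤ pa m K t₁ + pa m K t₂`, then one unit of `t₁` or `t₂` can be moved.
`stepPairs`: `β ≤ 2 p + 2`, the elements of `U` have `p + 1` units: half of them are moved.
-/

set_option autoImplicit false

open Finset

namespace MP76b19e.Rob

variable {V : Type} [DecidableEq V] {m : Finset V → ℝ} {K T : Finset V}

/-- the shared mass in the terms of `shS` -/
theorem shM_eq (hint : ∀ E, ∃ k : ℕ, m E = k) (t : V) :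
    shM m K t = ∑ D ∈ shS m K t, m D * Ival (mvM m D t) K := by
  classical
  unfold shM shS
  rw [sum_filter]
  refine sum_congr rfl fun D _ => ?_
  by_cases h1 : t ∈ D ∧ 2 ≤ D.card
  · rw [if_pos h1]
    obtain ⟨k, hk⟩ := hint D
    rcases Nat.eq_zero_or_pos k with h0 | h0
    · rw [hk, h0, Nat.cast_zero, zero_mul]
      simp
    · have h2 : 1 ≤ m D := by
        rw [hk]
        exact_mod_cast h0
      rw [if_pos ⟨h1.1, h1.2, h2⟩]
  · rw [if_neg h1, if_neg fun h2 => h1 ⟨h2.1, h2.2.1⟩]

/-- the step for two elements -/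
theorem stepPair (h : PosM m) (hint : ∀ E, ∃ k : ℕ, m E = k) {t1 t2 : V} (ht1 : t1 ∈ K)
    (ht2 : t2 ∈ K) (T : Finset V) {β : ℝ} (hβ : β ≤ pa m K t1 + pa m K t2) :
    β * Ival m K - Ival m (K.erase t1) - Ival m (K.erase t2) -
        ∑ v ∈ T, Ival m (K.erase v) ≤ 0 ∨
      ∃ t, (t = t1 ∨ t = t2) ∧ ∃ D ⊆ K, t ∈ D ∧ 2 ≤ D.card ∧ 1 ≤ m D ∧
        β * Ival m K - Ival m (K.erase t1) - Ival m (K.erase t2) -
            ∑ v ∈ T, Ival m (K.erase v) ≤
          (β - m {t1} - m {t2}) * Ival (mvM m D t) K -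
            ∑ v ∈ T, Ival (mvM m D t) (K.erase v) := by
  classical
  have h1 := lemM h hint ht1
  have h2 := lemM h hint ht2
  rw [shM_eq hint] at h1 h2
  have hx1 := sum_shS_one (m := m) (K := K) hint ht1
  have hx2 := sum_shS_one (m := m) (K := K) hint ht2
  have hF := (Ival_pos h K).le
  set R := ∑ v ∈ T, Ival m (K.erase v) with hR
  have hR0 : 0 ≤ R := sum_nonneg fun v _ => (Ival_pos h _).le
  by_contra hcon
  push Not at hcon
  obtain ⟨h3, h4⟩ := hcon
  set X := β * Ival m K - Ival m (K.erase t1) - Ival m (K.erase t2) - R with hX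
  -- the terms
  have key : ∀ t, (t = t1 ∨ t = t2) → ∑ D ∈ shS m K t, m D * ((β - m {t1} - m {t2}) *
      Ival (mvM m D t) K - ∑ v ∈ T, Ival (mvM m D t) (K.erase v)) ≤
        ∑ D ∈ shS m K t, m D * X := by
    intro t ht
    refine sum_le_sum fun D hD => ?_
    obtain ⟨h5, h6, h7, h8⟩ := mem_shS.1 hD
    exact mul_le_mul_of_nonneg_left (h4 t ht D h5 h6 h7 h8).le (by linarith)
  have keyl : ∀ t, (t = t1 ∨ t = t2) → (shS m K t).Nonempty → ∑ D ∈ shS m K t, m D *
      ((β - m {t1} - m {t2}) * Ival (mvM m D t) K -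
        ∑ v ∈ T, Ival (mvM m D t) (K.erase v)) < ∑ D ∈ shS m K t, m D * X := by
    intro t ht hne
    refine sum_lt_sum_of_nonempty hne fun D hD => ?_
    obtain ⟨h5, h6, h7, h8⟩ := mem_shS.1 hD
    exact mul_lt_mul_of_pos_left (h4 t ht D h5 h6 h7 h8) (by linarith)
  obtain ⟨Y, hY⟩ : ∃ Y, Y = pa m K t1 - m {t1} + (pa m K t2 - m {t2}) := ⟨_, rfl⟩
  obtain ⟨δ, hδ⟩ : ∃ δ, δ = pa m K t1 + pa m K t2 - β := ⟨_, rfl⟩
  have hδ0 : 0 ≤ δ := by rw [hδ]; linarith
  have hlow : ∀ t, (t = t1 ∨ t = t2) → ∑ D ∈ shS m K t, m D * (Y * Ival (mvM m D t) K -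
      δ * Ival m K - R) ≤ ∑ D ∈ shS m K t, m D * ((β - m {t1} - m {t2}) *
        Ival (mvM m D t) K - ∑ v ∈ T, Ival (mvM m D t) (K.erase v)) := by
    intro t _
    refine sum_le_sum fun D hD => ?_
    obtain ⟨h8, h9, h10, h11⟩ := mem_shS.1 hD
    refine mul_le_mul_of_nonneg_left ?_ (by linarith)
    have h12 : Ival (mvM m D t) K ≤ Ival m K := Ival_mvM_le h
    have h13 : ∑ v ∈ T, Ival (mvM m D t) (K.erase v) ≤ R :=
      sum_le_sum fun v _ => Ival_mvM_le h
    have h14 := mul_le_mul_of_nonneg_left h12 hδ0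
    have h15 : β - m {t1} - m {t2} = Y - δ := by rw [hY, hδ]; ring
    rw [h15]
    linarith
  -- both sums together
  have hA : ∀ t, ∑ D ∈ shS m K t, m D * (Y * Ival (mvM m D t) K - δ * Ival m K - R) =
      Y * ∑ D ∈ shS m K t, m D * Ival (mvM m D t) K -
        (∑ D ∈ shS m K t, m D) * (δ * Ival m K + R) := by
    intro t
    rw [mul_sum, sum_mul, ← sum_sub_distrib]
    exact sum_congr rfl fun D _ => by ring
  have hB1 := hlow t1 (Or.inl rfl)
  have hB2 := hlow t2 (Or.inr rfl)
  rw [hA, hx1] at hB1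
  rw [hA, hx2] at hB2
  have hY0 : 0 ≤ Y := by
    rw [hY, ← hx1, ← hx2]
    exact add_nonneg (sum_nonneg fun D hD => by linarith [(mem_shS.1 hD).2.2.2])
      (sum_nonneg fun D hD => by linarith [(mem_shS.1 hD).2.2.2])
  have hXle : X ≤ ∑ D ∈ shS m K t1, m D * Ival (mvM m D t1) K +
      ∑ D ∈ shS m K t2, m D * Ival (mvM m D t2) K - δ * Ival m K - R := by
    rw [hX, hδ]
    linarith
  have hYX := mul_le_mul_of_nonneg_left hXle hY0
  rcases (shS m K t1).eq_empty_or_nonempty with hn1 | hn1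
  · rcases (shS m K t2).eq_empty_or_nonempty with hn2 | hn2
    · rw [hn1, hn2, sum_empty, sum_empty] at hXle
      have := mul_nonneg hδ0 hF
      linarith
    · have h5 := keyl t2 (Or.inr rfl) hn2
      have h6 := key t1 (Or.inl rfl)
      rw [← sum_mul] at h5 h6
      rw [hx2] at h5
      rw [hx1] at h6
      rw [hY] at hYX hB1 hB2
      nlinarith
  · have h5 := keyl t1 (Or.inl rfl) hn1
    have h6 := key t2 (Or.inr rfl)
    rw [← sum_mul] at h5 h6
    rw [hx1] at h5
    rw [hx2] at h6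
    rw [hY] at hYX hB1 hB2
    nlinarith

/-- one more move in front -/
theorem Moved.cons {m' : Finset V → ℝ} {U D : Finset V} {t : V}
    (hM : Moved (mvM m D t) m' K U) (ht : t ∉ U) (hD : D ⊆ K) (htD : t ∈ D) (hD2 : 2 ≤ D.card) :
    Moved m m' K (insert t U) := by
  have hpaN : ∀ v, v ≠ t → pa (mvM m D t) K v = pa m K v := fun v hv => pa_mvM_ne hD hv
  refine ⟨hM.pos, hM.int, hM.emp.trans (mvM_empty htD hD2),
    fun j => (le_mvM_single hD2 j).trans (hM.sing j), ?_, ?_, ?_,
    hM.pal.trans (pal_mvM hD), ?_⟩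
  · intro j
    have h7 := hM.sing' j
    by_cases hjt : j = t
    · subst hjt
      have h8 := mvM_single_self (m := m) (t := j) hD2
      rw [erase_insert ht]
      rw [erase_eq_of_notMem ht] at h7
      linarith
    · have h8 := mvM_single_le (m := m) (t := t) hD2 j
      have h9 : ((insert t U).erase j).card = (U.erase j).card + 1 := by
        rw [erase_insert_of_ne fun h10 => hjt h10.symm, card_insert_of_notMem]
        exact fun h10 => ht (mem_of_mem_erase h10)
      rw [h9]
      push_cast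
      linarith
  · intro j hj
    rcases mem_insert.1 hj with h1 | h1
    · rw [h1, hM.paN t ht, pa_mvM_self hD htD]
    · have hjt : j ≠ t := fun h2 => ht (h2 ▸ h1)
      rw [hM.paU j h1, hpaN j hjt]
  · intro j hj
    rw [mem_insert, not_or] at hj
    rw [hM.paN j hj.2, hpaN j hj.1]
  · rw [hM.po, po_mvM hD htD hD2, card_insert_of_notMem ht]
    push_cast
    ring

theorem Moved.refl (h : PosM m) (hint : ∀ E, ∃ k : ℕ, m E = k) : Moved m m K ∅ := by
  refine ⟨h, hint, rfl, fun _ => le_rfl, fun j => ?_, fun j hj => absurd hj (notMem_empty j),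
    fun _ _ => rfl, rfl, ?_⟩
  · rw [erase_empty, card_empty, Nat.cast_zero, add_zero]
  · rw [card_empty, Nat.cast_zero, sub_zero]

/-- half of the over-full tops are moved -/
theorem stepPairs_aux {p : ℝ} (h : PosM m) (hint : ∀ E, ∃ k : ℕ, m E = k) {U : Finset V}
    (hU : U ⊆ K) {β : ℝ} (hβ : β ≤ 2 * p + 2) (hUT : Disjoint U T)
    (hpa : ∀ t ∈ U, pa m K t = p + 1) :
    β * Ival m K - ∑ t ∈ U, Ival m (K.erase t) - ∑ v ∈ T, Ival m (K.erase v) ≤ 0 ∨
      ∃ U1 ⊆ U, U1.card = U.card / 2 ∧ ∃ m' : Finset V → ℝ, Moved m m' K U1 ∧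
        β * Ival m K - ∑ t ∈ U, Ival m (K.erase t) - ∑ v ∈ T, Ival m (K.erase v) ≤
          (β - ∑ t ∈ U, m {t}) * Ival m' K - ∑ v ∈ T, Ival m' (K.erase v) := by
  induction hn : U.card using Nat.strong_induction_on generalizing U m β with
  | _ n ih =>
    rcases Nat.lt_or_ge U.card 2 with hc | hc
    · -- at most one element
      right
      refine ⟨∅, empty_subset _, by rw [card_empty]; omega, m, Moved.refl h hint, ?_⟩
      have h1 : ∑ t ∈ U, m {t} * Ival m K ≤ ∑ t ∈ U, Ival m (K.erase t) :=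
        sum_le_sum fun t ht => mul_Ival_le_erase h (hU ht)
      rw [← sum_mul] at h1
      linarith
    · obtain ⟨t1, ht1⟩ : U.Nonempty := card_pos.1 (by omega)
      obtain ⟨t2, ht2⟩ : (U.erase t1).Nonempty := by
        rw [← card_pos, card_erase_of_mem ht1]
        omega
      have ht2U := mem_of_mem_erase ht2
      have ht21 : t2 ≠ t1 := ne_of_mem_erase ht2
      set U' := (U.erase t1).erase t2 with hU'
      have hU'U : U' ⊆ U := (erase_subset _ _).trans (erase_subset _ _)
      have hU'c : U'.card + 2 = U.card := by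
        have h1 := card_erase_add_one ht1
        have h2 := card_erase_add_one ht2
        rw [← hU'] at h2
        omega
      have hUT' : Disjoint U' T := hUT.mono_left hU'U
      have hs : ∀ f : V → ℝ, ∑ v ∈ U, f v = f t1 + f t2 + ∑ v ∈ U', f v := fun f => by
        rw [← add_sum_erase U f ht1, ← add_sum_erase (U.erase t1) f ht2]
        ring
      have hs2 : ∀ m' : Finset V → ℝ, ∑ v ∈ U' ∪ T, Ival m' (K.erase v) =
          ∑ v ∈ U', Ival m' (K.erase v) + ∑ v ∈ T, Ival m' (K.erase v) := fun m' =>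
        sum_union hUT'
      have hsm := hs fun v => Ival m (K.erase v)
      have hsw := hs fun v => m {v}
      rcases stepPair h hint (hU ht1) (hU ht2U) (U' ∪ T) (β := β) (by
        rw [hpa t1 ht1, hpa t2 ht2U]
        linarith) with h4 | ⟨t, ht, D, hD, htD, hD2, hD1, h4⟩
      · left
        rw [hs2] at h4
        linarith
      · rw [hs2, hs2] at h4
        have htU : t ∈ U := by
          rcases ht with h5 | h5 <;> rw [h5]
          · exact ht1
          · exact ht2U
        have htU' : t ∉ U' := by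
          rcases ht with h5 | h5 <;> rw [h5, hU']
          · exact fun h6 => notMem_erase t1 U (mem_of_mem_erase h6)
          · exact notMem_erase t2 _
        have hm' := h.mvM htD hD2 hD1
        have h5 := ih U'.card (by omega) hm' (mvM_int hint hD1) (U := U')
          (hU'U.trans hU) (β := β - m {t1} - m {t2}) (by
            have := h.1 {t1}
            have := h.1 {t2}
            linarith) hUT' (fun v hv => by
            have hvt : v ≠ t := by
              rintro rfl
              exact htU' hv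
            rw [pa_mvM_ne hD hvt]
            exact hpa v (hU'U hv)) rfl
        rcases h5 with h5 | ⟨U1, hU1, hU1c, m', hM, h5⟩
        · left
          linarith
        · right
          have htU1 : t ∉ U1 := fun h6 => htU' (hU1 h6)
          refine ⟨insert t U1, insert_subset htU (hU1.trans hU'U), ?_, m',
            hM.cons htU1 hD htD hD2, ?_⟩
          · rw [card_insert_of_notMem htU1, hU1c]
            omega
          · have h7 : ∑ v ∈ U', m {v} ≤ ∑ v ∈ U', mvM m D t {v} :=
              sum_le_sum fun v _ => le_mvM_single hD2 v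
            have h9 := mul_le_mul_of_nonneg_right h7 (Ival_pos hM.pos K).le
            rw [hsw]
            linarith

/-- the steps for the pairs of over-full tops and the trivial bound for the other tops -/
theorem stepPairs {p : ℝ} (h : PosM m) (hint : ∀ E, ∃ k : ℕ, m E = k) (hT : T ⊆ K)
    {U : Finset V} (hU : U ⊆ T) (hpa : ∀ t ∈ U, pa m K t = p + 1) :
    (2 * p + 2) * Ival m K - ∑ t ∈ T, Ival m (K.erase t) ≤ 0 ∨
      ∃ U1 ⊆ U, U1.card = U.card / 2 ∧ ∃ m' : Finset V → ℝ, Moved m m' K U1 ∧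
        (2 * p + 2) * Ival m K - ∑ t ∈ T, Ival m (K.erase t) ≤
          (2 * p + 2 - ∑ t ∈ T, m {t}) * Ival m' K := by
  have h1 := stepPairs_aux (T := T \ U) h hint (hU.trans hT) (β := 2 * p + 2) le_rfl
    disjoint_sdiff hpa
  have h2 : ∀ f : V → ℝ, ∑ t ∈ U, f t + ∑ t ∈ T \ U, f t = ∑ t ∈ T, f t := fun f => by
    rw [add_comm]
    exact sum_sdiff hU
  have h3 := h2 fun t => Ival m (K.erase t)
  rcases h1 with h1 | ⟨U1, hU1, hU1c, m', hM, h1⟩
  · left
    linarith
  · right
    refine ⟨U1, hU1, hU1c, m', hM, ?_⟩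
    have h4 : ∑ v ∈ T \ U, m {v} * Ival m' K ≤ ∑ v ∈ T \ U, Ival m' (K.erase v) := by
      refine sum_le_sum fun v hv => ?_
      have h5 := mul_Ival_le_erase hM.pos (hT (mem_sdiff.1 hv).1)
      have h6 := mul_le_mul_of_nonneg_right (hM.sing v) (Ival_pos hM.pos K).le
      linarith
    rw [← sum_mul] at h4
    have h5 := h2 fun t => m {t}
    rw [← h5, ← h3]
    linarith

end MP76b19e.Rob
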