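import Pool.Agent.Lib.MP76b19e.Rob.NumR
import Pool.Agent.Lib.MP76b19e.Rob.StepPair
import Pool.Agent.Lib.MP76b19e.Rob.Kst21

/-!
# `ν = 2`, `h = 1`, at least two tops, except two tops and base one (problem MP_76b19e_co)
-/

set_option autoImplicit false

open Finset

namespace MP76b19e.Rob

open Pool.Agent.MP76b19e (bq H_pow_le H_pow_le' H_ge_one)

variable {V : Type} [DecidableEq V] {K T : Finset V} {m : Finset V → ℝ} {b : V → ℝ} {p : ℕ}

/-- the three cases of the base together -/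
theorem finC {L H : ℝ} (hp : 2 ≤ p) (hL : 0 < L) (hH : 0 < H) (hLq : L ^ (p - 1) = p)
    (hHq : H ^ (p - 1) = 2 * p / (p + 1)) {c τ r d J e : ℕ} (hc : 2 ≤ c) (hcτ : τ ≤ c + 1)
    (hτ2 : 2 ≤ τ) (hτ : τ ≤ 2 * p + 1) (hr : r ≤ τ) (hd : d ≤ r - r / 2) (hd1 : 1 ≤ r → 1 ≤ d)
    (hJ : J + r / 2 + d = τ) (he : e + 2 ≤ 2 * p + c + (r - r / 2 - d)) {F S : ℝ} (hF0 : 0 ≤ F)
    (hF : ∀ c0 ≤ c, F ≤ rhoG L p c0 d * H ^ (e - (c - c0))) (hS1 : 1 ≤ S)
    (h1 : 1 ≤ e → 1 + ((e : ℝ) + 4 - c - J) / (p + c) ≤ S)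
    (h2 : 1 ≤ e → 1 + 4 * ((e : ℝ) - c + 3 - J - p) / (p + c) ≤ S)
    (h3 : 1 ≤ e → 1 + ((e : ℝ) - c + 3 - J - p) / (p - 1) ≤ S) :
    (2 * (p : ℝ) + 2 - τ) * F ≤ p * S := by
  rcases Nat.lt_or_ge c 4 with h4 | h4
  · rcases (by omega : c = 2 ∨ c = 3) with h5 | h5
    · subst h5
      have h6 := hF 2 le_rfl
      rw [Nat.sub_self, Nat.sub_zero] at h6
      push_cast at h1 h2
      refine finC2 hp hL hH hLq hHq hτ2 (by omega) hr hd hd1 hJ (by omega) hF0 h6 hS1
        (fun h7 => ?_) (fun h7 => ?_)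
      · have h8 := h1 h7
        rw [show (e : ℝ) + 4 - 2 - J = e + 2 - J by ring] at h8
        exact h8
      · have h8 := h2 h7
        rw [show (e : ℝ) - 2 + 3 - J - p = e + 1 - J - p by ring] at h8
        exact h8
    · subst h5
      have h6 := hF 3 le_rfl
      rw [Nat.sub_self, Nat.sub_zero] at h6
      push_cast at h1 h2
      refine finC3 hp hL hH hLq hHq hτ2 (by omega) hr hd hd1 hJ (by omega) hF0 h6 hS1
        (fun h7 => ?_) (fun h7 => ?_)
      · have h8 := h1 h7
        rw [show (e : ℝ) + 4 - 3 - J = e + 1 - J by ring] at h8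
        exact h8
      · have h8 := h2 h7
        rw [show (e : ℝ) - 3 + 3 - J - p = e - J - p by ring] at h8
        exact h8
  · exact finC4 hp hL hH hLq hHq h4 hcτ hτ hr hd hd1 hJ he hF0 hF hS1 h3

/-- `ν = 2`, `h = 1` -/
theorem KS.one_two (h : KS K T m b p 1 2) (hT : 2 ≤ T.card)
    (hV : 0 < (2 * (p : ℝ) + 2) * Ival m K - ∑ t ∈ T, Ival m (K.erase t))
    (hc2 : 2 ≤ m ∅) :
    (p : ℝ) ^ (K.card - 3) * ((2 * (p : ℝ) + 2) * Ival m K - ∑ t ∈ T, Ival m (K.erase t)) ≤
      1 + ∑ j ∈ K, b j / (m {j} + m ∅) := by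
  classical
  have hp := h.p2
  have hp2 : (2 : ℝ) ≤ p := by exact_mod_cast hp
  have hp0 : (0 : ℝ) < p := by linarith
  have hp1 : (0 : ℝ) < p - 1 := by linarith
  have hbase := h.base
  have hpal := h.palK
  have hbsum := h.bsum
  push_cast at hbase hpal hbsum
  have hb0 : ∀ j ∈ K, 0 ≤ b j := fun j _ => h.b0 j
  have hy0 : ∀ j ∈ K, 0 < m {j} + m ∅ := fun j hj => by linarith [h.one j hj]
  have hKc : 4 ≤ K.card := h.Kc
  obtain ⟨c, hc⟩ := h.int ∅
  have hcn : 2 ≤ c := by
    rw [hc] at hc2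
    exact_mod_cast hc2
  obtain ⟨S, hSdef⟩ : ∃ S, S = 1 + ∑ j ∈ K, b j / (m {j} + m ∅) := ⟨_, rfl⟩
  have hS1 : 1 ≤ S := by
    rw [hSdef]
    have : 0 ≤ ∑ j ∈ K, b j / (m {j} + m ∅) :=
      sum_nonneg fun j hj => div_nonneg (hb0 j hj) (hy0 j hj).le
    linarith
  set U := T.filter fun v => (p : ℝ) < pa m K v with hU
  have hUT : U ⊆ T := filter_subset _ _
  have hUK : U ⊆ K := hUT.trans h.TK
  have hpaU : ∀ t ∈ U, pa m K t = (p : ℝ) + 1 := by
    intro t ht
    obtain ⟨htT, htp⟩ := mem_filter.1 ht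
    have h1 := h.paT t htT
    obtain ⟨a, ha⟩ := pa_int h.int K t
    rw [ha] at h1 htp ⊢
    push_cast at h1
    have h2 : p < a := by exact_mod_cast htp
    have h3 : a ≤ p + 1 := by exact_mod_cast h1
    have h4 : a = p + 1 := by omega
    rw [h4]
    push_cast
    ring
  have hpaN : ∀ j ∈ K, j ∉ U → pa m K j ≤ p := by
    intro j hj hjU
    by_cases hjT : j ∈ T
    · by_contra hcon
      push Not at hcon
      exact hjU (mem_filter.2 ⟨hjT, hcon⟩)
    · exact h.paL j hj hjT
  have hone : ∀ t ∈ T, 1 ≤ m {t} := fun t ht => h.one t (h.TK ht)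
  rcases stepPairs h.pos h.int h.TK hUT hpaU with h1 | ⟨U1, hU1, hU1c, m', hM, h1⟩
  · linarith
  obtain ⟨W, hW⟩ : ∃ W, W = ∑ t ∈ T, m {t} := ⟨_, rfl⟩
  rw [← hW] at h1
  have hF' := Ival_pos hM.pos K
  have hWp : W < 2 * p + 2 := by
    by_contra hcon
    push Not at hcon
    have := mul_nonpos_of_nonpos_of_nonneg (by linarith : 2 * (p : ℝ) + 2 - W ≤ 0) hF'.le
    linarith
  have hWτ : (T.card : ℝ) ≤ W := by
    rw [hW]
    have h2 := sum_le_sum hone
    rw [sum_const, nsmul_eq_mul, mul_one] at h2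
    exact h2
  have hτp : T.card ≤ 2 * p + 1 := by
    have h2 : (T.card : ℝ) < 2 * p + 2 := by linarith
    have h3 : T.card < 2 * p + 2 := by exact_mod_cast h2
    omega
  have hτr : (T.card : ℝ) ≤ 2 * p + 1 := by exact_mod_cast hτp
  have hUτ : U.card ≤ T.card := card_le_card hUT
  have hwT : ∀ t ∈ T, m {t} + (T.card - 1) ≤ W := by
    intro t ht
    rw [hW, ← add_sum_erase T (fun t => m {t}) ht]
    have h2 := sum_le_sum fun v (hv : v ∈ T.erase t) => hone v (mem_of_mem_erase hv)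
    rw [sum_const, nsmul_eq_mul, mul_one, card_erase_of_mem ht, Nat.cast_sub (by omega)] at h2
    push_cast at h2
    linarith
  -- the remaining over-full tops
  set U2 := U \ U1 with hU2
  have hU2U : U2 ⊆ U := sdiff_subset
  have hk : U2.card = U.card - U.card / 2 := by
    rw [hU2, card_sdiff_of_subset hU1, hU1c]
  have hle' : ∀ j ∈ K, j ∉ U2 → pa m' K j ≤ p := by
    intro j hj hjU2
    by_cases hjU1 : j ∈ U1
    · rw [hM.paU j hjU1, hpaU j (hU1 hjU1)]
      linarith
    · rw [hM.paN j hjU1]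
      exact hpaN j hj fun h2 => hjU2 (mem_sdiff.2 ⟨h2, hjU1⟩)
  have heq' : ∀ j ∈ U2, pa m' K j = (p : ℝ) + 1 := by
    intro j hj
    obtain ⟨h2, h3⟩ := mem_sdiff.1 hj
    rw [hM.paN j h3, hpaU j h2]
  have hpal' : pal m' K = ((K.card : ℝ) - 2) * p + 2 - ((0 : ℕ) : ℝ) := by
    rw [hM.pal, hpal]
    push_cast
    ring
  obtain ⟨L, H, hL, hH, hLq, hHq⟩ := exists_LH hp
  obtain ⟨d, e, hd1, hd2, hg1, hg2⟩ := gwAll hp hL hH hLq hHq hM.pos hM.int (by omega)
    (fun j hj => (h.one j hj).trans (hM.sing j)) (hU2U.trans hUK) hle'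
    (fun j hj => (heq' j hj).le) hpal'
  have hpw : (p : ℝ) ^ (K.card - 2) = p * p ^ (K.card - 3) := by
    rw [← pow_succ']
    congr 1
    omega
  obtain ⟨F, hFdef⟩ : ∃ F, F = (p : ℝ) ^ (K.card - 2) * Ival m' K := ⟨_, rfl⟩
  have hF0 : 0 ≤ F := by rw [hFdef]; positivity
  rw [← hFdef, hM.emp] at hg1
  have hF1 : ∀ c0 ≤ c, F ≤ rhoG L p c0 d * H ^ (e - (c - c0)) := fun c0 hc0 => by
    have h2 := hg1 c0 c hc hc0
    rw [zero_add] at h2
    exact h2
  have hfinal : (2 * (p : ℝ) + 2 - W) * F ≤ p * S →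
      (p : ℝ) ^ (K.card - 3) * ((2 * (p : ℝ) + 2) * Ival m K - ∑ t ∈ T, Ival m (K.erase t)) ≤
      1 + ∑ j ∈ K, b j / (m {j} + m ∅) := by
    intro h2
    rw [← hSdef]
    have h3 : (p : ℝ) * ((p : ℝ) ^ (K.card - 3) * ((2 * (p : ℝ) + 2 - W) * Ival m' K)) ≤
        p * S := by
      calc (p : ℝ) * ((p : ℝ) ^ (K.card - 3) * ((2 * (p : ℝ) + 2 - W) * Ival m' K))
          = (2 * (p : ℝ) + 2 - W) * F := by rw [hFdef, hpw]; ring
        _ ≤ p * S := h2
    have h4 := le_of_mul_le_mul_left h3 hp0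
    exact (mul_le_mul_of_nonneg_left h1 (by positivity)).trans h4
  -- the numbers
  obtain ⟨E, hE⟩ : ∃ E, E = po m K - m ∅ := ⟨_, rfl⟩
  have hcap : E ≤ 2 * p - 2 + U.card := by
    have h2 := sum_pa (m := m) (K := K)
    have h3 : ∑ j ∈ K, pa m K j ≤ ∑ j ∈ K, ((p : ℝ) + (if j ∈ U then 1 else 0)) := by
      refine sum_le_sum fun j hj => ?_
      by_cases hjU : j ∈ U
      · rw [if_pos hjU, hpaU j hjU]
      · rw [if_neg hjU]
        have := hpaN j hj hjU
        linarith
    rw [sum_add_distrib, sum_const, nsmul_eq_mul, sum_ite_mem, inter_eq_right.2 hUK, sum_const,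
      nsmul_eq_mul, mul_one] at h3
    rw [h2] at h3
    rw [hE]
    linarith
  have hdk : d ≤ U.card - U.card / 2 := by omega
  have hd1' : 1 ≤ U.card → 1 ≤ d := by
    intro h2
    have h3 : 0 < U2.card := by omega
    obtain ⟨t, ht⟩ := card_pos.1 h3
    refine hd2 ⟨t, ht, ?_⟩
    rw [heq' t ht]
    linarith
  obtain ⟨J, hJ⟩ : ∃ J, J + U.card / 2 + d = T.card := ⟨T.card - U.card / 2 - d, by omega⟩
  have hJr : (J : ℝ) + ((U.card / 2 : ℕ) : ℝ) + d = T.card := by exact_mod_cast hJ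
  have hcτ : T.card ≤ c + 1 := by
    rw [hc] at hbase
    have h2 : (T.card : ℝ) ≤ c + 1 := by linarith
    exact_mod_cast h2
  -- the overlap after the steps
  have hEe : 1 ≤ e → (e : ℝ) - c + ((U.card / 2 : ℕ) : ℝ) + d ≤ E := by
    intro he1
    rcases hg2 with h2 | h2
    · omega
    · rw [hM.po, hU1c] at h2
      rw [hE, ← hc]
      linarith
  have he : e + 2 ≤ 2 * p + c + (U.card - U.card / 2 - d) := by
    rcases Nat.eq_zero_or_pos e with h2 | h2
    · omega
    · have h3 := hEe h2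
      have h4 : (e : ℝ) + 2 + ((U.card / 2 : ℕ) : ℝ) + d ≤ 2 * p + c + U.card := by linarith
      have h5 : e + 2 + U.card / 2 + d ≤ 2 * p + c + U.card := by exact_mod_cast h4
      omega
  -- the bounds for the `b j`
  have hbg : ∀ j ∈ K, 3 - (T.card : ℝ) + E - p ≤ b j := by
    intro j hj
    have h5 := pa_add_pom (m := m) hj
    by_cases hjT : j ∈ T
    · have h6 := h.bT j hjT
      have h7 := h.paT j hjT
      push_cast at h6 h7
      linarith
    · have h6 := h.bL j hj hjT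
      have h7 := h.paL j hj hjT
      push_cast at h6
      linarith
  -- the number of elements
  have hn : 2 * (p : ℝ) - 2 + c ≤ K.card * (p - 1) := by
    have h2 := pal_eq (m := m) (K := K)
    have h3 := sum_le_sum h.one
    rw [sum_const, nsmul_eq_mul, mul_one] at h3
    have h4 := pN_nonneg (K := K) h.pos.1
    linarith
  have hc0r : (2 : ℝ) ≤ c := by exact_mod_cast hcn
  have hK4 : (4 : ℝ) ≤ K.card := by exact_mod_cast hKc
  -- the numerical inequality for any `S'`
  have hnum : ∀ S' : ℝ, 1 ≤ S' → 1 + (4 - (T.card : ℝ) + E) / (p + c) ≤ S' →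
      1 + 4 * (3 - (T.card : ℝ) + E - p) / (p + c) ≤ S' →
      1 + (3 - (T.card : ℝ) + E - p) / (p - 1) ≤ S' →
      (2 * (p : ℝ) + 2 - T.card) * F ≤ p * S' := by
    intro S' hS' h2 h3 h4
    refine finC hp hL hH hLq hHq hcn hcτ hT hτp hUτ hdk hd1' hJ he hF0 hF1 hS'
      (fun he1 => ?_) (fun he1 => ?_) (fun he1 => ?_)
    · have h5 := hEe he1
      have h6 : ((e : ℝ) + 4 - c - J) / (p + c) ≤ (4 - (T.card : ℝ) + E) / (p + c) :=
        div_le_div_of_nonneg_right (by linarith) (by linarith)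
      linarith
    · have h5 := hEe he1
      have h6 : 4 * ((e : ℝ) - c + 3 - J - p) / (p + c) ≤
          4 * (3 - (T.card : ℝ) + E - p) / (p + c) :=
        div_le_div_of_nonneg_right (by linarith) (by linarith)
      linarith
    · have h5 := hEe he1
      have h6 : ((e : ℝ) - c + 3 - J - p) / (p - 1) ≤ (3 - (T.card : ℝ) + E - p) / (p - 1) :=
        div_le_div_of_nonneg_right (by linarith) hp1.le
      linarith
  by_cases hwp : ∀ t ∈ T, m {t} ≤ p
  · -- no private mass `p + 1`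
    have hyp : ∀ j ∈ K, m {j} + m ∅ ≤ p + c := by
      intro j hj
      rw [hc]
      by_cases hjT : j ∈ T
      · linarith [hwp j hjT]
      · linarith [(le_pa h.pos.1 hj).trans (h.paL j hj hjT)]
    have hScard : K.card * ((3 - (T.card : ℝ) + E - p) / (p + c)) ≤ S - 1 := by
      rw [hSdef, add_sub_cancel_left]
      exact sum_div_ge (by linarith) hy0 hyp hbg hb0
    have hSsum : (4 - (T.card : ℝ) + E) / (p + c) ≤ S - 1 := by
      rw [hSdef, add_sub_cancel_left]
      refine sum_div_ge' (by linarith) hy0 hyp ?_ hb0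
      linarith
    have h2 := hnum S hS1 (by linarith) (by
      rcases le_or_gt (3 - (T.card : ℝ) + E - p) 0 with h2 | h2
      · have := div_nonpos_of_nonpos_of_nonneg
          (by linarith : 4 * (3 - (T.card : ℝ) + E - p) ≤ 0) (by linarith : (0 : ℝ) ≤ p + c)
        linarith
      · have h3 : 0 < (3 - (T.card : ℝ) + E - p) / (p + c) := div_pos h2 (by linarith)
        have h4 := mul_le_mul_of_nonneg_right hK4 h3.le
        rw [mul_div_assoc]
        linarith) (by
      rcases le_or_gt (3 - (T.card : ℝ) + E - p) 0 with h2 | h2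
      · have := div_nonpos_of_nonpos_of_nonneg h2 hp1.le
        linarith
      · have h3 : (3 - (T.card : ℝ) + E - p) / (p - 1) ≤
            K.card * ((3 - (T.card : ℝ) + E - p) / (p + c)) := by
          rw [mul_div_assoc', div_le_div_iff₀ hp1 (by linarith)]
          have h5 : (p : ℝ) + c ≤ K.card * (p - 1) := by linarith
          have h6 := mul_le_mul_of_nonneg_left h5 h2.le
          linarith
        linarith)
    refine hfinal (le_trans ?_ h2)
    exact mul_le_mul_of_nonneg_right (by linarith) hF0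
  · -- a top with private mass `p + 1`
    push Not at hwp
    obtain ⟨t0, ht0, hwt0⟩ := hwp
    have hwt0' : (p : ℝ) + 1 ≤ m {t0} := by
      obtain ⟨a, ha⟩ := h.int {t0}
      rw [ha] at hwt0 ⊢
      have h2 : p < a := by exact_mod_cast hwt0
      exact_mod_cast (by omega : p + 1 ≤ a)
    have hWbig := hwT t0 ht0
    have hyp : ∀ j ∈ K, m {j} + m ∅ ≤ p + 1 + c := by
      intro j hj
      rw [hc]
      by_cases hjT : j ∈ T
      · have h6 := h.paT j hjT
        have h7 := le_pa h.pos.1 hj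
        push_cast at h6
        linarith
      · linarith [(le_pa h.pos.1 hj).trans (h.paL j hj hjT)]
    have hScard : K.card * ((3 - (T.card : ℝ) + E - p) / (p + 1 + c)) ≤ S - 1 := by
      rw [hSdef, add_sub_cancel_left]
      exact sum_div_ge (by linarith) hy0 hyp hbg hb0
    have hSsum : (4 - (T.card : ℝ) + E) / (p + 1 + c) ≤ S - 1 := by
      rw [hSdef, add_sub_cancel_left]
      refine sum_div_ge' (by linarith) hy0 hyp ?_ hb0
      linarith
    have h2 := hnum (2 * S) (by linarith) (by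
      rcases le_or_gt (4 - (T.card : ℝ) + E) 0 with h2 | h2
      · have := div_nonpos_of_nonpos_of_nonneg h2 (by linarith : (0 : ℝ) ≤ p + c)
        linarith
      · have h3 : (4 - (T.card : ℝ) + E) / (p + c) ≤
            2 * ((4 - (T.card : ℝ) + E) / (p + 1 + c)) := by
          rw [mul_div_assoc', div_le_div_iff₀ (by linarith) (by linarith)]
          have h5 : (p : ℝ) + 1 + c ≤ 2 * (p + c) := by linarith
          have h6 := mul_le_mul_of_nonneg_left h5 h2.le
          linarith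
        linarith) (by
      rcases le_or_gt (3 - (T.card : ℝ) + E - p) 0 with h2 | h2
      · have := div_nonpos_of_nonpos_of_nonneg
          (by linarith : 4 * (3 - (T.card : ℝ) + E - p) ≤ 0) (by linarith : (0 : ℝ) ≤ p + c)
        linarith
      · have h3 : 0 < (3 - (T.card : ℝ) + E - p) / (p + 1 + c) := div_pos h2 (by linarith)
        have h4 : 4 * (3 - (T.card : ℝ) + E - p) / (p + c) ≤
            8 * ((3 - (T.card : ℝ) + E - p) / (p + 1 + c)) := by
          rw [mul_div_assoc', div_le_div_iff₀ (by linarith) (by linarith)]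
          have h5 : (p : ℝ) + 1 + c ≤ 2 * (p + c) := by linarith
          have h6 := mul_le_mul_of_nonneg_left h5 h2.le
          linarith
        have h5 := mul_le_mul_of_nonneg_right hK4 h3.le
        linarith) (by
      rcases le_or_gt (3 - (T.card : ℝ) + E - p) 0 with h2 | h2
      · have := div_nonpos_of_nonpos_of_nonneg h2 hp1.le
        linarith
      · have h3 : (3 - (T.card : ℝ) + E - p) / (p - 1) ≤
            2 * (K.card * ((3 - (T.card : ℝ) + E - p) / (p + 1 + c))) := by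
          rw [mul_div_assoc', mul_div_assoc', div_le_div_iff₀ hp1 (by linarith)]
          have h5 : (p : ℝ) + 1 + c ≤ 2 * (K.card * (p - 1)) := by linarith
          have h6 := mul_le_mul_of_nonneg_left h5 h2.le
          linarith
        linarith)
    have hT2 : (2 : ℝ) ≤ T.card := by exact_mod_cast hT
    refine hfinal ?_
    have h3 : (2 * (p : ℝ) + 2 - W) * F ≤ 1 / 2 * ((2 * p + 2 - T.card) * F) := by
      rw [← mul_assoc]
      exact mul_le_mul_of_nonneg_right (by linarith) hF0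
    linarith

end MP76b19e.Rob
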