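import Pool.Agent.Lib.MP76b19e.Rob.Pot

/-!
# Moving one unit away from an element (problem MP_76b19e_co)

`lemM`: `pa m K t * I(K) - I(K - t) ≤ ∑_{D ∋ t, |D| ≥ 2} m D * I'_D(K)`, where `I'_D` belongs to the
masses in which one unit of `D` has been moved to `D \ {t}`.
-/

set_option autoImplicit false

open Finset

namespace MP76b19e.Rob

variable {V : Type} [DecidableEq V]

/-- one unit of `D` moved to `D \ {t}` -/
noncomputable def mvM (m : Finset V → ℝ) (D : Finset V) (t : V) (E : Finset V) : ℝ :=
  m E + (if E = D.erase t then 1 else 0) - (if E = D then 1 else 0)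

section

variable {m : Finset V → ℝ} {K D : Finset V} {t : V}

theorem PosM.mvM (h : PosM m) (ht : t ∈ D) (hD : 2 ≤ D.card) (h1 : 1 ≤ m D) :
    PosM (mvM m D t) := by
  have hne : D.erase t ≠ D := fun h2 => by
    rw [← h2] at ht
    exact notMem_erase t D ht
  constructor
  · intro E
    unfold Rob.mvM
    by_cases h2 : E = D
    · rw [if_neg (by rw [h2]; exact hne.symm), if_pos h2, h2]
      linarith
    · rw [if_neg h2]
      have := h.1 E
      split_ifs <;> linarith
  · intro k
    unfold Rob.mvM
    have h2 : ({k} : Finset V) ≠ D := fun h3 => by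
      rw [← h3, card_singleton] at hD
      omega
    rw [if_neg h2]
    have := h.2 k
    split_ifs <;> linarith

theorem sum_mvM (f : Finset V → ℝ) (s : Finset (Finset V)) (h1 : D ∈ s) (h2 : D.erase t ∈ s) :
    ∑ E ∈ s, mvM m D t E * f E = ∑ E ∈ s, m E * f E + f (D.erase t) - f D := by
  unfold mvM
  simp only [sub_mul, add_mul, sum_sub_distrib, sum_add_distrib, ite_mul, one_mul, zero_mul,
    sum_ite_eq', h1, h2, if_true]

theorem pal_mvM (hD : D ⊆ K) : pal (mvM m D t) K = pal m K := by
  unfold pal
  have h1 := sum_mvM (m := m) (D := D) (t := t) (fun _ => (1 : ℝ)) K.powerset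
    (mem_powerset.2 hD) (mem_powerset.2 ((erase_subset _ _).trans hD))
  simp only [mul_one] at h1
  rw [h1]
  ring

/-- subsets which do not contain an element `u ≠ t` of `D` do not see the move -/
theorem Ival_mvM_erase {u : V} (hu : u ∈ D) (hut : u ≠ t) :
    Ival (mvM m D t) (K.erase u) = Ival m (K.erase u) := by
  refine Ival_congr fun E hE => ?_
  have h1 : u ∉ E := fun h2 => notMem_erase u K (hE h2)
  unfold mvM
  rw [if_neg, if_neg]
  · ring
  · rintro rfl
    exact h1 hu
  · rintro rfl
    exact h1 (mem_erase.2 ⟨hut, hu⟩)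

/-- the sum over the shared units of `t` -/
noncomputable def shM (m : Finset V → ℝ) (K : Finset V) (t : V) : ℝ :=
  ∑ D ∈ K.powerset, if t ∈ D ∧ 2 ≤ D.card then m D * Ival (mvM m D t) K else 0

theorem pal_pos (h : PosM m) (hK : K.Nonempty) : 0 < pal m K := h.sum_pos hK

/-- LEMMA M -/
theorem lemM (h : PosM m) (hint : ∀ D, ∃ k : ℕ, m D = k) (ht : t ∈ K) :
    pa m K t * Ival m K - Ival m (K.erase t) ≤ shM m K t := by
  induction hc : K.card using Nat.strong_induction_on generalizing K with
  | _ c ih =>
  have hne : K.Nonempty := ⟨t, ht⟩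
  have hpK := pal_pos h hne
  have hsh0 : ∀ D ⊆ K, t ∈ D → 2 ≤ D.card → 0 ≤ m D * Ival (mvM m D t) K := by
    intro D hD htD hD2
    obtain ⟨k, hk⟩ := hint D
    rcases Nat.eq_zero_or_pos k with h0 | h0
    · rw [hk, h0, Nat.cast_zero, zero_mul]
    · have h1 : 1 ≤ m D := by
        rw [hk]
        exact_mod_cast h0
      exact mul_nonneg (h.1 D) (Ival_pos (h.mvM htD hD2 h1) K).le
  rcases (K.erase t).eq_empty_or_nonempty with he | he
  · -- `K = {t}`
    have hKt : K = {t} := by
      rw [← insert_erase ht, he]
      rfl
    have h1 : 0 ≤ shM m K t := by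
      unfold shM
      refine sum_nonneg fun D hD => ?_
      split_ifs with h2
      · exact hsh0 D (mem_powerset.1 hD) h2.1 h2.2
      · exact le_rfl
    have h2 : pa m K t ≤ pal m K := by
      unfold pa pal
      refine sum_le_sum fun D _ => ?_
      split_ifs
      · exact le_rfl
      · exact h.1 D
    have h3 : pal m K * Ival m K = Ival m (K.erase t) := by
      have h4 := sum_mul_Ival h hne
      unfold pal
      rw [h4, hKt, sum_singleton]
    have h4 := mul_le_mul_of_nonneg_right h2 (Ival_pos h K).le
    linarith
  · refine le_of_mul_le_mul_left ?_ hpK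
    -- the left side
    have hL : pal m K * (pa m K t * Ival m K - Ival m (K.erase t)) =
        ∑ u ∈ K.erase t, (pa m (K.erase u) t * Ival m (K.erase u) -
          Ival m ((K.erase u).erase t) + (pa m K t - pa m (K.erase u) t) *
            Ival m (K.erase u)) := by
      have h1 : pal m K * Ival m K = Ival m (K.erase t) + ∑ u ∈ K.erase t, Ival m (K.erase u) := by
        rw [add_sum_erase K (fun u => Ival m (K.erase u)) ht]
        exact sum_mul_Ival h hne
      have h2 : pal m (K.erase t) * Ival m (K.erase t) =
          ∑ u ∈ K.erase t, Ival m ((K.erase t).erase u) := sum_mul_Ival h he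
      have h3 : pal m K = pal m (K.erase t) + pa m K t := by
        rw [pal_erase]
        ring
      have h4 : ∑ u ∈ K.erase t, (pa m (K.erase u) t * Ival m (K.erase u) -
          Ival m ((K.erase u).erase t) + (pa m K t - pa m (K.erase u) t) *
            Ival m (K.erase u)) = pa m K t * ∑ u ∈ K.erase t, Ival m (K.erase u) -
          ∑ u ∈ K.erase t, Ival m ((K.erase t).erase u) := by
        rw [mul_sum, ← sum_sub_distrib]
        refine sum_congr rfl fun u _ => ?_
        rw [erase_right_comm]
        ring
      rw [h4, ← h2]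
      calc pal m K * (pa m K t * Ival m K - Ival m (K.erase t))
          = pa m K t * (pal m K * Ival m K) - pal m K * Ival m (K.erase t) := by ring
        _ = _ := by
          rw [h1]
          linear_combination (-Ival m (K.erase t)) * h3
    rw [hL]
    -- the right side
    have hR : ∑ u ∈ K.erase t, ∑ D ∈ K.powerset, (if t ∈ D ∧ 2 ≤ D.card then
        m D * Ival (mvM m D t) (K.erase u) else 0) ≤ pal m K * shM m K t := by
      unfold shM
      rw [mul_sum, sum_comm]
      refine sum_le_sum fun D hD => ?_
      rw [mem_powerset] at hD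
      by_cases h2 : t ∈ D ∧ 2 ≤ D.card
      · simp only [if_pos h2]
        obtain ⟨k, hk⟩ := hint D
        rcases Nat.eq_zero_or_pos k with h0 | h0
        · rw [hk, h0, Nat.cast_zero]
          simp
        · have h1 : 1 ≤ m D := by
            rw [hk]
            exact_mod_cast h0
          have hp := h.mvM h2.1 h2.2 h1
          have h3 : pal m K * Ival (mvM m D t) K = ∑ u ∈ K, Ival (mvM m D t) (K.erase u) := by
            rw [← pal_mvM (m := m) (t := t) hD]
            exact sum_mul_Ival hp hne
          have h4 := add_sum_erase K (fun u => Ival (mvM m D t) (K.erase u)) ht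
          have h5 := (Ival_pos hp (K.erase t)).le
          rw [← mul_sum]
          have h6 : ∑ u ∈ K.erase t, Ival (mvM m D t) (K.erase u) ≤
              pal m K * Ival (mvM m D t) K := by
            rw [h3, ← h4]
            linarith
          have h7 := mul_le_mul_of_nonneg_left h6 (h.1 D)
          linarith
      · simp only [if_neg h2]
        simp
    refine le_trans (sum_le_sum fun u hu => ?_) hR
    rw [mem_erase] at hu
    have h1 := ih _ (by rw [← hc]; exact card_erase_lt_of_mem hu.2)
      (mem_erase.2 ⟨fun h2 => hu.1 h2.symm, ht⟩) (K := K.erase u) rfl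
    -- split the sum over `D`
    have h2 : ∑ D ∈ K.powerset, (if t ∈ D ∧ 2 ≤ D.card then
        m D * Ival (mvM m D t) (K.erase u) else 0) =
        shM m (K.erase u) t + (pa m K t - pa m (K.erase u) t) * Ival m (K.erase u) := by
      have h3 : ∀ D ∈ K.powerset, (if t ∈ D ∧ 2 ≤ D.card then
          m D * Ival (mvM m D t) (K.erase u) else 0) =
          (if u ∈ D then (if t ∈ D then m D else 0) * Ival m (K.erase u) else
            (if t ∈ D ∧ 2 ≤ D.card then m D * Ival (mvM m D t) (K.erase u) else 0)) := by
        intro D _
        by_cases h4 : u ∈ D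
        · rw [if_pos h4]
          by_cases h5 : t ∈ D
          · rw [if_pos ⟨h5, one_lt_card.2 ⟨u, h4, t, h5, hu.1⟩⟩, if_pos h5,
              Ival_mvM_erase h4 hu.1]
          · rw [if_neg (fun h6 => h5 h6.1), if_neg h5, zero_mul]
        · rw [if_neg h4]
      rw [sum_congr rfl h3]
      have h4 : ∑ D ∈ K.powerset, (if u ∈ D then (if t ∈ D then m D else 0) * Ival m (K.erase u)
          else (if t ∈ D ∧ 2 ≤ D.card then m D * Ival (mvM m D t) (K.erase u) else 0)) =
          ∑ D ∈ K.powerset.filter (fun D => u ∈ D), (if t ∈ D then m D else 0) *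
            Ival m (K.erase u) +
          ∑ D ∈ K.powerset.filter (fun D => ¬ u ∈ D), (if t ∈ D ∧ 2 ≤ D.card then
            m D * Ival (mvM m D t) (K.erase u) else 0) := by
        rw [sum_ite]
      have h5 : K.powerset.filter (fun D => ¬ u ∈ D) = (K.erase u).powerset := by
        ext D
        rw [mem_filter, mem_powerset, mem_powerset, subset_erase]
      rw [h4, h5, ← sum_mul]
      have h6 : ∑ D ∈ K.powerset.filter (fun D => u ∈ D), (if t ∈ D then m D else 0) =
          pa m K t - pa m (K.erase u) t := by
        have h7 := sum_filter_add_sum_filter_not K.powerset (fun D => u ∈ D)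
          (fun D => if t ∈ D then m D else 0)
        rw [h5] at h7
        unfold pa
        linarith
      rw [h6]
      unfold shM
      ring
    rw [h2]
    linarith

end

end MP76b19e.Rob
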