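import Pool.Agent.Lib.MP76b19e.Rob.Bridge
import Pool.Agent.Lib.MP76b19e.Rob.CoreB

/-!
# The multiplicities `mZ` (problem MP_76b19e_co)

Sums over the multiplicities of the stage-wise dominating sets as sums over vertices, positivity,
integrality, caps, additivity over blocks.
-/

set_option autoImplicit false

open Finset

namespace MP76b19e.Rob

variable {V : Type} [DecidableEq V]

/-- sums over the subsets of a union of two disjoint sets -/
theorem sum_powerset_union {f : Finset V → ℝ} {K L : Finset V} (hKL : Disjoint K L)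
    (hf : ∀ D ⊆ K ∪ L, f D ≠ 0 → D ⊆ K ∨ D ⊆ L) (h0 : f ∅ = 0) :
    ∑ D ∈ (K ∪ L).powerset, f D = ∑ D ∈ K.powerset, f D + ∑ D ∈ L.powerset, f D := by
  have h1 : ∑ D ∈ K.powerset, f D + ∑ D ∈ L.powerset, f D =
      ∑ D ∈ K.powerset ∪ L.powerset, f D + ∑ D ∈ K.powerset ∩ L.powerset, f D :=
    (sum_union_inter).symm
  have h2 : ∑ D ∈ K.powerset ∩ L.powerset, f D = 0 := by
    refine sum_eq_zero fun D hD => ?_
    rw [mem_inter, mem_powerset, mem_powerset] at hD
    have h3 : D = ∅ := by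
      have := hKL hD.1 hD.2
      exact le_bot_iff.1 this
    rw [h3, h0]
  rw [h1, h2, add_zero]
  refine (sum_subset ?_ ?_).symm
  · exact union_subset (powerset_mono.2 subset_union_left) (powerset_mono.2 subset_union_right)
  · intro D hD hD'
    by_contra hne0
    have h4 := hf D (mem_powerset.1 hD) hne0
    apply hD'
    rw [mem_union, mem_powerset, mem_powerset]
    exact h4

/-- overlaps are at most the loss -/
theorem oK_le_gK {m : Finset V → ℝ} {c : V → ℝ} {K : Finset V} (ha : ∀ k ∈ K, aK m K k ≤ c k) :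
    oK m K ≤ gK m c K := by
  have h1 := sum_aK (m := m) K
  have h2 : ∑ k ∈ K, aK m K k ≤ ∑ k ∈ K, c k := sum_le_sum ha
  unfold gK
  linarith

variable [Fintype V] {F : SimpleGraph V} {W Y : Finset V} {X : ℕ → Finset V} {Z : Finset ℕ}

theorem mZ_nonneg (D : Finset V) : 0 ≤ mZ F W X Z Y D := by
  classical
  unfold mZ
  refine add_nonneg (Nat.cast_nonneg _) ?_
  split_ifs <;> norm_num

theorem mZ_int (D : Finset V) : ∃ k : ℕ, mZ F W X Z Y D = k := by
  classical
  unfold mZ
  split_ifs with h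
  · exact ⟨_ + 1, by push_cast; rfl⟩
  · exact ⟨_, by rw [add_zero]⟩

theorem mZ_pos : PosM (mZ F W X Z Y) := by
  classical
  refine ⟨mZ_nonneg, fun k => ?_⟩
  unfold mZ
  rw [if_pos (card_singleton k)]
  have : (0 : ℝ) ≤ (((Rst F W X Z Y).filter fun v => Dst F X Z Y v = {k}).card : ℝ) :=
    Nat.cast_nonneg _
  linarith

/-- the stage-wise dominating sets are not empty -/
theorem Dst_nonempty (hmax : ∀ v ∈ W, (dn F Y v).Nonempty) {v : V} (hv : v ∈ Rst F W X Z Y) :
    (Dst F X Z Y v).Nonempty := by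
  rcases first_or_none (F := F) (X := X) (Z := Z) (Y := Y) v with ⟨z, hz, h1, h2⟩ | h
  · rw [Dst_of_first hz h1 h2]
    exact h1
  · rw [Dst_of_none h]
    rw [mem_Rst] at hv
    rcases hv.2 with h3 | ⟨z, hz, h3⟩
    · exact hmax v h3
    · exact absurd h3 (h z hz)

theorem mZ_empty (hmax : ∀ v ∈ W, (dn F Y v).Nonempty) : mZ F W X Z Y ∅ = 0 := by
  classical
  unfold mZ
  rw [if_neg (by simp), add_zero]
  rw [Nat.cast_eq_zero, card_eq_zero, filter_eq_empty_iff]
  intro v hv h
  have := Dst_nonempty hmax hv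
  rw [h] at this
  exact absurd this (by simp)

/-- sums over the multiplicities -/
theorem sum_mZ (f : Finset V → ℝ) (K : Finset V) :
    ∑ D ∈ K.powerset, f D * mZ F W X Z Y D =
      ∑ v ∈ (Rst F W X Z Y).filter (fun v => Dst F X Z Y v ⊆ K), f (Dst F X Z Y v) +
        ∑ k ∈ K, f {k} := by
  classical
  have h1 : ∀ D ∈ K.powerset, f D * mZ F W X Z Y D =
      ∑ v ∈ ((Rst F W X Z Y).filter (fun v => Dst F X Z Y v ⊆ K)).filter
        (fun v => Dst F X Z Y v = D), f (Dst F X Z Y v) + if D.card = 1 then f D else 0 := by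
    intro D hD
    have h2 : ((Rst F W X Z Y).filter (fun v => Dst F X Z Y v ⊆ K)).filter
        (fun v => Dst F X Z Y v = D) = (Rst F W X Z Y).filter (fun v => Dst F X Z Y v = D) := by
      ext v
      rw [mem_filter, mem_filter, mem_filter]
      constructor
      · rintro ⟨⟨h3, _⟩, h5⟩
        exact ⟨h3, h5⟩
      · rintro ⟨h3, h5⟩
        exact ⟨⟨h3, by rw [h5]; exact mem_powerset.1 hD⟩, h5⟩
    rw [h2]
    have h3 : ∑ v ∈ (Rst F W X Z Y).filter (fun v => Dst F X Z Y v = D), f (Dst F X Z Y v) =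
        ∑ v ∈ (Rst F W X Z Y).filter (fun v => Dst F X Z Y v = D), f D :=
      sum_congr rfl fun v hv => by rw [(mem_filter.1 hv).2]
    rw [h3, sum_const, nsmul_eq_mul]
    unfold mZ
    split_ifs
    · ring
    · ring
  rw [sum_congr rfl h1, sum_add_distrib]
  congr 1
  · refine sum_fiberwise_of_maps_to (fun v hv => ?_) _
    rw [mem_powerset]
    exact (mem_filter.1 hv).2
  · rw [← sum_filter]
    symm
    refine sum_bij (fun k _ => ({k} : Finset V)) ?_ ?_ ?_ ?_
    · intro k hk
      rw [mem_filter, mem_powerset, singleton_subset_iff]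
      exact ⟨hk, card_singleton k⟩
    · intro a _ b _ h
      exact singleton_injective h
    · intro D hD
      rw [mem_filter, mem_powerset] at hD
      obtain ⟨k, hk⟩ := card_eq_one.1 hD.2
      refine ⟨k, ?_, hk.symm⟩
      rw [hk] at hD
      exact singleton_subset_iff.1 hD.1
    · intro k _
      rfl

/-- the total multiplicity -/
theorem sum_mZ_one (K : Finset V) :
    ∑ D ∈ K.powerset, mZ F W X Z Y D =
      (((Rst F W X Z Y).filter (fun v => Dst F X Z Y v ⊆ K)).card : ℝ) + K.card := by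
  have h := sum_mZ (F := F) (W := W) (X := X) (Z := Z) (Y := Y) (fun _ => (1 : ℝ)) K
  simp only [one_mul, sum_const, nsmul_eq_mul, mul_one] at h
  exact h

/-- the number of overlaps -/
theorem oK_mZ (K : Finset V) :
    oK (mZ F W X Z Y) K =
      ∑ v ∈ (Rst F W X Z Y).filter (fun v => Dst F X Z Y v ⊆ K),
        (((Dst F X Z Y v).card : ℝ) - 1) := by
  unfold oK
  rw [sum_mZ (fun D => (D.card : ℝ) - 1) K]
  simp

open Classical in
/-- the closed neighbourhood -/
noncomputable def cn (F : SimpleGraph V) (k : V) : Finset V :=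
  univ.filter fun u => u = k ∨ F.Adj u k

theorem mem_cn {k u : V} : u ∈ cn F k ↔ u = k ∨ F.Adj u k := by
  classical
  unfold cn
  rw [mem_filter]
  exact ⟨fun h => h.2, fun h => ⟨mem_univ u, h⟩⟩

/-- the clusters are contained in the closed neighbourhoods -/
theorem aK_mZ_le' {K N : Finset V} {k : V} (hk : k ∈ K) (_hkY : k ∈ Y) (hkN : k ∈ N)
    (hN : ∀ v ∈ Rst F W X Z Y, k ∈ Dst F X Z Y v → v ∈ N) :
    aK (mZ F W X Z Y) K k ≤ (N.card : ℝ) := by
  classical
  have h1 : aK (mZ F W X Z Y) K k =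
      ∑ D ∈ K.powerset, (if k ∈ D then (1 : ℝ) else 0) * mZ F W X Z Y D := by
    unfold aK
    rw [sum_filter]
    refine sum_congr rfl fun D _ => ?_
    split_ifs <;> ring
  rw [h1, sum_mZ (fun D => if k ∈ D then (1 : ℝ) else 0) K]
  have h2 : ∑ j ∈ K, (if k ∈ ({j} : Finset V) then (1 : ℝ) else 0) = 1 := by
    have h3 : ∀ j ∈ K, (if k ∈ ({j} : Finset V) then (1 : ℝ) else 0) =
        if j = k then (1 : ℝ) else 0 := by
      intro j _
      congr 1
      rw [mem_singleton]
      exact propext eq_comm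
    rw [sum_congr rfl h3, sum_ite_eq' K k, if_pos hk]
  rw [h2, ← sum_filter, sum_const, nsmul_eq_mul, mul_one]
  have h4 : (((Rst F W X Z Y).filter (fun v => Dst F X Z Y v ⊆ K)).filter
      (fun v => k ∈ Dst F X Z Y v)) ⊆ N.erase k := by
    intro v hv
    rw [mem_filter, mem_filter] at hv
    have h5 := mem_dn.1 (Dst_subset v hv.2)
    have h6 : v ≠ k := by
      rintro rfl
      exact (mem_Rst.1 hv.1.1).1 h5.1
    exact mem_erase.2 ⟨h6, hN v hv.1.1 hv.2⟩
  have h5 := card_le_card h4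
  rw [card_erase_of_mem hkN] at h5
  have h7 : 1 ≤ N.card := card_pos.2 ⟨k, hkN⟩
  have h8 : (((Rst F W X Z Y).filter (fun v => Dst F X Z Y v ⊆ K)).filter
      (fun v => k ∈ Dst F X Z Y v)).card + 1 ≤ N.card := by omega
  exact_mod_cast h8

end MP76b19e.Rob
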