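import Pool.Agent.Lib.MP76b19e.Rob.NumB

/-!
# Numerical part, third half (problem MP_76b19e_co)

`start_bound`: at every start index `i` of a block the partial product `Dv i` is at most
`1 + Xs i + O i` and at most `P i`. `final_bound`: the bound for a maximal independent set of
size `r`.
-/

set_option autoImplicit false

open Finset

namespace MP76b19e.Rob

/-- the partial product at a start index -/
noncomputable def Dv (P ν x C : ℕ → ℕ) (I : ℕ → ℝ) (i : ℕ) : ℝ :=
  Ex P ν x i * I i * gn P ν C i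

theorem int_le_of_lt {a b : ℝ} (ha : ∃ n : ℤ, a = n) (hb : ∃ n : ℤ, b = n) (h : a < b) :
    a + 1 ≤ b := by
  obtain ⟨n, hn⟩ := ha
  obtain ⟨k, hk⟩ := hb
  rw [hn, hk] at h ⊢
  have : n < k := by exact_mod_cast h
  have h2 : n + 1 ≤ k := this
  exact_mod_cast h2

section

variable {P ν x C : ℕ → ℕ} {I : ℕ → ℝ}

theorem Dv_nonneg (hP : ∀ j, 0 < P j) (hI : ∀ i, 0 ≤ I i) (i : ℕ) : 0 ≤ Dv P ν x C I i :=
  mul_nonneg (mul_nonneg (Ex_pos hP i).le (hI i)) (gn_nonneg P ν C i)

/-- one step of the recursion -/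
theorem Dv_le (hP : ∀ j, 0 < P j) (hI : ∀ i, 0 ≤ I i) {i z : ℕ} {e φ β : ℝ}
    (he : Ex P ν x (z + 1) ≤ Ex P ν x i * e) (hφ : I (z + 1) ≤ I i * φ)
    (hβ : gn P ν C (z + 1) ≤ gn P ν C i * β) :
    Dv P ν x C I (z + 1) ≤ Dv P ν x C I i * e * φ * β := by
  unfold Dv
  have h1 := Ex_pos (P := P) (ν := ν) (x := x) hP (z + 1)
  have h2 := gn_nonneg P ν C (z + 1)
  calc Ex P ν x (z + 1) * I (z + 1) * gn P ν C (z + 1)
      ≤ (Ex P ν x i * e) * (I i * φ) * (gn P ν C i * β) := by
        refine mul_le_mul (mul_le_mul he hφ (hI _) (h1.le.trans he)) hβ h2 ?_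
        exact mul_nonneg (h1.le.trans he) ((hI _).trans hφ)
    _ = _ := by ring

/-- a block of one level -/
theorem step_single (hP : ∀ j, 0 < P j) (hm : ∀ j, P j < P (j + 1)) (hI : ∀ i, 0 ≤ I i) {i : ℕ}
    (hi : i = 0 ∨ x (i - 1) = 0) (hz : x i = 0) (hG : ∀ j, j ≤ i → 0 ≤ Gp P ν x C (j + 1))
    (hG0 : 0 ≤ Gp P ν x C i) (hb : 0 < bn P ν C i) {o : ℝ} (ho : 0 ≤ o)
    (hD : Dv P ν x C I i ≤ P i)
    (h1 : Gp P ν x C (i + 1) - Gp P ν x C i ≤ (P i : ℝ) - 1 →
      I (i + 1) ≤ I i * Phi (P i) (Gp P ν x C (i + 1) - Gp P ν x C i) o) :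
    Xs P x i + Gp P ν x C (i + 1) + 1 ≤ P i ∧ Dv P ν x C I (i + 1) ≤ Dv P ν x C I i + o := by
  have hQ : (0 : ℝ) < P i := by exact_mod_cast hP i
  have hX := Xs_nonneg (x := x) hm i
  have hbn := bn_single hP hm i hi hz hG
  have hlt : 0 < (P i : ℝ) - Xs P x i - Gp P ν x C (i + 1) := by
    have h2 := hb.trans_le hbn
    rcases lt_or_ge 0 ((P i : ℝ) - Xs P x i - Gp P ν x C (i + 1)) with h3 | h3
    · exact h3
    · exact absurd h2 (not_lt.2 (div_nonpos_of_nonpos_of_nonneg h3 hQ.le))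
  have hint : Xs P x i + Gp P ν x C (i + 1) + 1 ≤ P i := by
    refine int_le_of_lt ?_ ⟨P i, by simp⟩ (by linarith)
    obtain ⟨a, ha⟩ := Xs_int P x i
    obtain ⟨b, hb'⟩ := Gp_int (P := P) (ν := ν) (x := x) (C := C) (i + 1)
    exact ⟨a + b, by rw [ha, hb']; push_cast; ring⟩
  refine ⟨hint, ?_⟩
  set g := Gp P ν x C (i + 1) - Gp P ν x C i with hg
  have hgQ : g ≤ (P i : ℝ) - 1 := by
    rw [hg]
    linarith
  have hE : Ex P ν x (i + 1) ≤ Ex P ν x i * 1 := by
    have h2 := Ex_block (ν := ν) hP hm i 0 hi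
    exact h2
  have hβ0 : 0 ≤ ((P i : ℝ) - (Xs P x i + Gp P ν x C i) - g) / P i := by
    apply div_nonneg _ hQ.le
    rw [hg]
    linarith
  have hβ : gn P ν C (i + 1) ≤ gn P ν C i * (((P i : ℝ) - (Xs P x i + Gp P ν x C i) - g) / P i) := by
    refine gn_close P ν C le_rfl hβ0 (hbn.trans (le_of_eq ?_))
    rw [hg]
    ring
  have h3 := Dv_le (x := x) hP hI hE (h1 hgQ) hβ
  rw [mul_one] at h3
  exact h3.trans (block_single hQ (Dv_nonneg hP hI i) hD (by linarith) ho (by linarith))

/-- a longer block -/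
theorem step_long (hP : ∀ j, 0 < P j) (hm : ∀ j, P j < P (j + 1)) (hI : ∀ i, 0 ≤ I i) {i d : ℕ}
    (hi : i = 0 ∨ x (i - 1) = 0) (hz : x (i + d + 1) = 0)
    (hx : ∀ j, i ≤ j → j < i + d + 1 → 1 ≤ x j) (hν : x (i + d) ≤ ν (i + d + 1))
    (hG : ∀ j, j ≤ i + d + 1 → 0 ≤ Gp P ν x C (j + 1)) (hG0 : 0 ≤ Gp P ν x C i)
    (hb : 0 < bn P ν C (i + d + 1)) {o : ℝ} (ho : 0 ≤ o)
    (hog : o ≤ Gp P ν x C (i + d + 2) - Gp P ν x C i)
    (hD : Dv P ν x C I i ≤ P i) (hD1 : Dv P ν x C I i ≤ 1 + Xs P x i + Gp P ν x C i)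
    (h1 : Gp P ν x C (i + d + 2) - Gp P ν x C i ≤ (P i : ℝ) - 1 →
      I (i + d + 2) ≤ I i * Phi (P i) (Gp P ν x C (i + d + 2) - Gp P ν x C i) o)
    (h2 : Gp P ν x C (i + d + 2) - Gp P ν x C i = (P i : ℝ) →
      I (i + d + 2) ≤ I i * (P i * (2 + o))) :
    Xs P x (i + d) + Gp P ν x C (i + d + 2) ≤ P (i + d) ∧
      (Dv P ν x C I (i + d + 2) ≤ Dv P ν x C I i + o ∨
        (Xs P x i = 0 ∧ Gp P ν x C i = 0 ∧ Dv P ν x C I (i + d + 2) ≤ 2 + o)) := by
  have hmono : ∀ a b, a ≤ b → P a ≤ P b := fun a b h =>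
    monotone_nat_of_le_succ (fun j => (hm j).le) h
  have hD0 := Dv_nonneg (ν := ν) (x := x) (C := C) hP hI i
  have hX := Xs_nonneg (x := x) hm i
  have hXi := Xs_mono (x := x) hm (show i ≤ i + d by omega)
  have hF := Fx_le hP hm i d fun j h3 h4 => hx j h3 (by omega)
  have hF0 := Fx_pos (x := x) hP i d
  obtain ⟨n, hn, hFe⟩ := Fx_exp hP hm i d fun j h3 h4 => hx j h3 (by omega)
  have hcl := Ex_close (P := P) (ν := ν) (x := x) hP hm i d hi (hx _ (by omega) (by omega)) hν
  have hbn := bn_long hP hm (i + d) hz (hx _ (by omega) (by omega)) hG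
  obtain ⟨aX, haX⟩ := Xs_int P x i
  obtain ⟨aX', haX'⟩ := Xs_int P x (i + d)
  obtain ⟨aG, haG⟩ := Gp_int (P := P) (ν := ν) (x := x) (C := C) i
  obtain ⟨aG', haG'⟩ := Gp_int (P := P) (ν := ν) (x := x) (C := C) (i + d + 2)
  have hQ1 : (1 : ℝ) ≤ P i := by exact_mod_cast hP i
  have hp'0 : (0 : ℝ) < P (i + d + 1) := by exact_mod_cast hP _
  have hp0 : (0 : ℝ) < P (i + d) := by exact_mod_cast hP _
  have hGi2 : Gp P ν x C (i + d + 2) = Gp P ν x C ((i + d + 1) + 1) := rfl
  set Q : ℝ := ((P i : ℕ) : ℝ) with hQ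
  set p : ℝ := ((P (i + d) : ℕ) : ℝ) with hp
  set p' : ℝ := ((P (i + d + 1) : ℕ) : ℝ) with hp'
  set Gi : ℝ := Gp P ν x C i with hGi
  set Gz : ℝ := Gp P ν x C (i + d + 2) with hGz
  set X0 : ℝ := Xs P x i with hX0
  set X1 : ℝ := Xs P x (i + d) with hX1
  have hlt : 0 < p - X1 + 1 - Gz := by
    have h3 := hb.trans_le hbn
    rcases lt_or_ge 0 (p - X1 + 1 - Gz) with h4 | h4
    · exact h4
    · exact absurd h3 (not_lt.2 (div_nonpos_of_nonpos_of_nonneg h4 hp'0.le))
  have hint : X1 + Gz ≤ p := by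
    have h3 : (X1 + Gz) < (p + 1) := by linarith
    have h4 := int_le_of_lt ⟨aX' + aG', by rw [haX', haG']; push_cast; ring⟩
      ⟨(P (i + d) : ℤ) + 1, by push_cast; rfl⟩ h3
    linarith
  refine ⟨hint, ?_⟩
  have hQ0 : 0 < Q := by linarith
  set M : ℝ := p - (X1 - X0) with hM
  set g : ℝ := Gz - Gi with hg
  set R : ℝ := X0 + Gi with hR
  have hR0 : 0 ≤ R := by linarith
  have hMQ : M ≤ Q := by
    have h3 : (0 : ℝ) ≤ n := Nat.cast_nonneg n
    rw [hn] at h3
    linarith
  have hgM : g + R ≤ M := by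
    rw [hg, hR, hM]
    linarith
  have hg0 : 0 ≤ g := ho.trans hog
  have hβ0 : 0 ≤ (M + 1 - g - R) / p' := div_nonneg (by linarith) hp'0.le
  have hβ : gn P ν C (i + d + 2) ≤ gn P ν C i * ((M + 1 - g - R) / p') := by
    refine gn_close P ν C (z := i + d + 1) (by omega) hβ0 (hbn.trans (le_of_eq ?_))
    rw [hM, hg, hR]
    congr 1
    ring
  -- the weight
  have hE : 0 < M → Ex P ν x (i + d + 2) ≤ Ex P ν x i * (p' / M) := by
    intro hM0
    refine hcl.trans ?_
    have h3 : Fx P x i d ≤ p / M := by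
      rw [le_div_iff₀ hM0]
      exact hF
    calc Ex P ν x i * Fx P x i d * (p' / p)
        = Ex P ν x i * (Fx P x i d * (p' / p)) := by ring
      _ ≤ Ex P ν x i * (p / M * (p' / p)) := by
          refine mul_le_mul_of_nonneg_left ?_ (Ex_pos hP i).le
          exact mul_le_mul_of_nonneg_right h3 (div_nonneg hp'0.le hp0.le)
      _ = Ex P ν x i * (p' / M) := by
          congr 1
          field_simp
  have hRint : R = 0 ∨ 1 ≤ R := by
    rcases eq_or_lt_of_le hR0 with h3 | h3
    · exact Or.inl h3.symm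
    · right
      have h4 := int_le_of_lt (a := 0) ⟨0, by simp⟩ ⟨aX + aG, by
        rw [hR, haX, haG]; push_cast; ring⟩ h3
      linarith
  have hgint : ∃ n : ℤ, g = n := ⟨aG' - aG, by rw [hg, haG, haG']; push_cast; ring⟩
  have hMint : ∃ n : ℤ, M = n := ⟨P (i + d) - (aX' - aX), by
    rw [hM, haX, haX']; push_cast; rfl⟩
  have hg01 : g = 0 ∨ 1 ≤ g := by
    rcases eq_or_lt_of_le hg0 with h3 | h3
    · exact Or.inl h3.symm
    · right
      have h4 := int_le_of_lt (a := 0) ⟨0, by simp⟩ hgint h3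
      linarith
  rcases hRint with hR' | hR'
  · -- no earlier losses
    right
    have hX00 : X0 = 0 := by linarith
    have hGi0 : Gi = 0 := by linarith
    refine ⟨hX00, hGi0, ?_⟩
    have hD1' : Dv P ν x C I i ≤ 1 := by linarith
    rw [hR', sub_zero] at hβ
    rcases eq_or_lt_of_le (by linarith : (0 : ℝ) ≤ M) with hM0 | hM0
    · -- `M = 0`
      have hg00 : g = 0 := by linarith
      rw [← hM0, hg00] at hβ
      have hφ := h1 (by rw [hg00]; linarith)
      have ho0 : o = 0 := by linarith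
      rw [hg00, ho0] at hφ
      have hΦ : Phi Q 0 0 = 1 := by
        unfold Phi
        rw [sub_zero, div_self hQ0.ne', zero_div]
        ring
      rw [hΦ] at hφ
      have hnQ : n = P i := by
        have h3 : (n : ℝ) = Q := by
          rw [hn]
          rw [hM] at hM0
          linarith
        rw [hQ] at h3
        exact_mod_cast h3
      have hE0 : Ex P ν x (i + d + 2) ≤ Ex P ν x i * (2 * p') := by
        refine hcl.trans ?_
        have h3 : Fx P x i d ≤ 2 * p := by
          have h4 := pow_le_two_mul (hP i)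
          rw [← hQ, ← hnQ] at h4
          refine hFe.trans ?_
          calc p / Q * (1 + 1 / Q) ^ n ≤ p / Q * (2 * Q) := by
                exact mul_le_mul_of_nonneg_left h4 (div_nonneg hp0.le hQ0.le)
            _ = 2 * p := by field_simp
        calc Ex P ν x i * Fx P x i d * (p' / p)
            = Ex P ν x i * (Fx P x i d * (p' / p)) := by ring
          _ ≤ Ex P ν x i * (2 * p * (p' / p)) := by
              refine mul_le_mul_of_nonneg_left ?_ (Ex_pos hP i).le
              exact mul_le_mul_of_nonneg_right h3 (div_nonneg hp'0.le hp0.le)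
          _ = Ex P ν x i * (2 * p') := by
              congr 1
              field_simp
      have h5 := Dv_le (x := x) (z := i + d + 1) hP hI hE0 hφ hβ
      refine h5.trans ?_
      have h6 : Dv P ν x C I i * (2 * p') * 1 * ((0 + 1 - 0) / p') = Dv P ν x C I i * 2 := by
        field_simp
        ring
      rw [h6]
      linarith
    · -- `M ≥ 1`
      have hM1 : 1 ≤ M := by
        have h4 := int_le_of_lt (a := 0) ⟨0, by simp⟩ hMint hM0
        linarith
      rcases eq_or_lt_of_le (by linarith : g ≤ Q) with hgQ | hgQ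
      · -- `g = Q = M`
        have hMQ' : M = Q := by linarith
        have hφ := h2 hgQ
        have hE' := hE hM0
        rw [hMQ'] at hE'
        rw [hMQ', hgQ] at hβ
        have h5 := Dv_le (x := x) (z := i + d + 1) hP hI hE' hφ hβ
        refine h5.trans ?_
        have h6 : Dv P ν x C I i * (p' / Q) * (Q * (2 + o)) * ((Q + 1 - Q) / p') =
            Dv P ν x C I i * (2 + o) := by
          field_simp
          ring
        rw [h6]
        exact mul_le_of_le_one_left (by linarith) hD1'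
      · have hgQ1 : g ≤ Q - 1 := by
          have h4 := int_le_of_lt hgint ⟨(P i : ℤ), by push_cast; rfl⟩ hgQ
          linarith
        have h5 := Dv_le (x := x) (z := i + d + 1) hP hI (hE hM0) (h1 hgQ1) hβ
        exact h5.trans (block_fresh hQ1 hD1' ho hg01 hM1 hMQ hgQ1 hp'0 (by linarith))
  · -- earlier losses
    left
    have hM0 : 0 < M := by linarith
    have h5 := Dv_le (x := x) (z := i + d + 1) hP hI (hE hM0) (h1 (by linarith)) hβ
    exact h5.trans (block_long hQ0 hD0 hD hR' ho hg0 hM0 hMQ (by linarith) hp'0)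

/-- every level lies in a block -/
theorem exists_start (x : ℕ → ℕ) (z : ℕ) :
    ∃ i ≤ z, (i = 0 ∨ x (i - 1) = 0) ∧ ∀ j, i ≤ j → j < z → 1 ≤ x j := by
  induction z with
  | zero => exact ⟨0, le_rfl, Or.inl rfl, fun j _ h => absurd h (Nat.not_lt_zero j)⟩
  | succ z ih =>
    rcases Nat.eq_zero_or_pos (x z) with h | h
    · exact ⟨z + 1, le_rfl, Or.inr (by simpa using h), fun j h1 h2 => by omega⟩
    · obtain ⟨i, hi, h1, h2⟩ := ih
      refine ⟨i, by omega, h1, fun j h3 h4 => ?_⟩
      rcases Nat.lt_or_ge j z with h5 | h5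
      · exact h2 j h3 h5
      · have : j = z := by omega
        rw [this]
        exact h

variable {l : ℕ} {O : ℕ → ℝ}

/-- the properties of the blocks below `l` which are used: `i` is a start index, `z` the next
zero; `I` the product of the probabilities and caps, `O` the number of overlaps -/
structure Blk (P ν x C : ℕ → ℕ) (I O : ℕ → ℝ) (l : ℕ) : Prop where
  I0 : I 0 = 1
  O0 : O 0 = 0
  Inn : ∀ i, 0 ≤ I i
  nu : ∀ j, j + 1 < l → x (j + 1) = 0 → x j ≤ ν (j + 1)
  G : ∀ j, j < l → 0 ≤ Gp P ν x C (j + 1)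
  O_le : ∀ i z, i ≤ z → z < l → (i = 0 ∨ x (i - 1) = 0) → x z = 0 →
    (∀ j, i ≤ j → j < z → 1 ≤ x j) →
    0 ≤ O (z + 1) - O i ∧ O (z + 1) - O i ≤ Gp P ν x C (z + 1) - Gp P ν x C i
  I_le : ∀ i z, i ≤ z → z < l → (i = 0 ∨ x (i - 1) = 0) → x z = 0 →
    (∀ j, i ≤ j → j < z → 1 ≤ x j) →
    Gp P ν x C (z + 1) - Gp P ν x C i ≤ (P i : ℝ) - 1 →
      I (z + 1) ≤ I i * Phi (P i) (Gp P ν x C (z + 1) - Gp P ν x C i) (O (z + 1) - O i)
  I_leQ : ∀ i z, i ≤ z → z < l → (i = 0 ∨ x (i - 1) = 0) → x z = 0 →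
    (∀ j, i ≤ j → j < z → 1 ≤ x j) →
    Gp P ν x C (z + 1) - Gp P ν x C i = (P i : ℝ) →
      I (z + 1) ≤ I i * (P i * (2 + (O (z + 1) - O i)))

/-- the bound at the start indices -/
theorem start_bound (hP : ∀ j, 0 < P j) (hm : ∀ j, P j < P (j + 1)) (hB : Blk P ν x C I O l)
    (hb : ∀ j, j < l → 0 < bn P ν C j) (i : ℕ) (hil : i ≤ l) (hi : i = 0 ∨ x (i - 1) = 0) :
    0 ≤ O i ∧ O i ≤ Gp P ν x C i ∧ Dv P ν x C I i ≤ 1 + Xs P x i + O i ∧
      Dv P ν x C I i ≤ P i := by
  induction i using Nat.strong_induction_on with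
  | _ i ih =>
    rcases i with _ | z
    · have hD : Dv P ν x C I 0 = 1 := by
        change 1 * I 0 * gn P ν C 0 = 1
        rw [hB.I0]
        unfold gn
        simp
      have hP1 : (1 : ℝ) ≤ P 0 := by exact_mod_cast hP 0
      rw [hD, hB.O0, Xs_zero]
      refine ⟨le_rfl, le_rfl, by norm_num, hP1⟩
    · have hz : x z = 0 := by
        rcases hi with h | h
        · omega
        · simpa using h
      have hzl : z < l := hil
      obtain ⟨i, hiz, his, hix⟩ := exists_start x z
      obtain ⟨hO0, hOG, hD1, hDP⟩ := ih i (by omega) (by omega) his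
      obtain ⟨ho, hog⟩ := hB.O_le i z hiz hzl his hz hix
      have hI1 := hB.I_le i z hiz hzl his hz hix
      have hI2 := hB.I_leQ i z hiz hzl his hz hix
      have hXm := Xs_mono (x := x) hm (show i ≤ z + 1 by omega)
      have hX := Xs_nonneg (x := x) hm i
      have hPz : (P z : ℝ) + 1 ≤ P (z + 1) := by
        have : P z + 1 ≤ P (z + 1) := hm z
        exact_mod_cast this
      have hGi0 : 0 ≤ Gp P ν x C i := hO0.trans hOG
      rcases Nat.eq_or_lt_of_le hiz with h | h
      · subst h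
        obtain ⟨h1, h2⟩ := step_single hP hm hB.Inn his hz (fun j hj => hB.G j (by omega)) hGi0
          (hb i hzl) ho hDP hI1
        refine ⟨by linarith, by linarith, by linarith, ?_⟩
        linarith
      · obtain ⟨d, hd⟩ : ∃ d, z = i + d + 1 := ⟨z - i - 1, by omega⟩
        subst hd
        have hxd : 1 ≤ x (i + d) := hix _ (by omega) (by omega)
        obtain ⟨h1, h2⟩ := step_long hP hm hB.Inn his hz hix
          (hB.nu (i + d) hzl hz) (fun j hj => hB.G j (by omega)) hGi0
          (hb _ hzl) ho hog hDP (by linarith) hI1 hI2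
        have hX1 := Xs_mono (x := x) hm (show i ≤ i + d by omega)
        have hPd : (P (i + d) : ℝ) + 1 ≤ P (i + d + 1) := by
          have : P (i + d) + 1 ≤ P (i + d + 1) := hm (i + d)
          exact_mod_cast this
        refine ⟨by linarith, by linarith, ?_, ?_⟩
        · rcases h2 with h2 | ⟨h3, h4, h2⟩
          · change Dv P ν x C I (i + d + 2) ≤ _
            linarith
          · change Dv P ν x C I (i + d + 2) ≤ _
            have hX2 : 1 ≤ Xs P x (i + d + 1 + 1) := by
              have h5 := Xs_mono (x := x) hm (show i + d + 1 ≤ i + d + 1 + 1 by omega)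
              have h6 := Xs_succ P x (i + d)
              have h7 : (1 : ℝ) ≤ x (i + d) := by exact_mod_cast hxd
              have h8 := Xs_nonneg (x := x) hm (i + d)
              nlinarith
            linarith
        · have h2' : Dv P ν x C I (i + d + 1 + 1) ≤ Dv P ν x C I i +
              (O (i + d + 1 + 1) - O i) ∨ Dv P ν x C I (i + d + 1 + 1) ≤ 2 +
              (O (i + d + 1 + 1) - O i) := by
            rcases h2 with h2 | ⟨_, _, h2⟩
            · exact Or.inl h2
            · exact Or.inr h2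
          have h1' : Xs P x (i + d) + Gp P ν x C (i + d + 1 + 1) ≤ P (i + d) := h1
          have hXid := Xs_nonneg (x := x) hm (i + d)
          rcases h2' with h2 | h2
          · linarith
          · linarith

/-- the final bound -/
theorem final_bound (hP : ∀ j, 0 < P j) (hm : ∀ j, P j < P (j + 1)) (hB : Blk P ν x C I O l)
    (hb : ∀ j, j < l → 0 < bn P ν C j) {i : ℕ} (hil : i ≤ l) (hi : i = 0 ∨ x (i - 1) = 0)
    (hx : ∀ j, i ≤ j → j < l → 1 ≤ x j) (hν : ∀ j, j + 1 = l → x j ≤ ν (j + 1))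
    {It g o rn : ℝ} (hI0 : 0 ≤ It) (ho : 0 ≤ o) (hog : o ≤ g)
    (hg : g ≤ (P l : ℝ) - 1 - Xs P x l - Gp P ν x C i)
    (hI : g ≤ (P i : ℝ) - 1 → It ≤ I i * Phi (P i) g o) (hrn0 : 0 ≤ rn)
    (hrn : (i = l → rn ≤ gn P ν C l) ∧ ∀ j, i ≤ j → j + 1 = l → rn ≤ (1 + x j) * gn P ν C i) :
    1 / (P l : ℝ) * Ex P ν x (l + 1) * It * rn ≤ 1 + Xs P x l + O i + o := by
  obtain ⟨hO0, hOG, hD1, hDP⟩ := start_bound hP hm hB hb i hil hi
  have hD0 := Dv_nonneg (ν := ν) (x := x) (C := C) hP hB.Inn i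
  have hX := Xs_nonneg (x := x) hm i
  have hXl := Xs_mono (x := x) hm hil
  have hQ1 : (1 : ℝ) ≤ P i := by exact_mod_cast hP i
  have hPl : (1 : ℝ) ≤ P l := by exact_mod_cast hP l
  have hg0 : 0 ≤ g := ho.trans hog
  have hex := Ex_pos (P := P) (ν := ν) (x := x) hP
  rcases Nat.eq_or_lt_of_le hil with h | h
  · subst h
    set Q : ℝ := ((P i : ℕ) : ℝ) with hQ
    have hQ0 : 0 < Q := by linarith
    have hgQ : g ≤ Q - 1 := by linarith
    have hφ := hI hgQ
    have hΦ0 := Phi_nonneg (Q := Q) (g := g) (o := o) hQ0 (by linarith) ho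
    have hE : Ex P ν x (i + 1) ≤ Ex P ν x i * 1 := Ex_block (ν := ν) hP hm i 0 hi
    rw [mul_one] at hE
    have h1 : 1 / Q * Ex P ν x (i + 1) * It * rn ≤ 1 / Q * (Dv P ν x C I i * Phi Q g o) := by
      unfold Dv
      calc 1 / Q * Ex P ν x (i + 1) * It * rn
          ≤ 1 / Q * Ex P ν x i * (I i * Phi Q g o) * gn P ν C i := by
            refine mul_le_mul (mul_le_mul ?_ hφ hI0 ?_) (hrn.1 rfl) hrn0 ?_
            · exact mul_le_mul_of_nonneg_left hE (by positivity)
            · exact mul_nonneg (by positivity) (hex i).le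
            · exact mul_nonneg (mul_nonneg (by positivity) (hex i).le)
                (mul_nonneg (hB.Inn i) hΦ0)
        _ = _ := by ring
    refine h1.trans ?_
    -- `1/Q * D * Phi ≤ 1 + o`
    have hQg : 0 < Q - g := by linarith
    have h2 : 1 / Q * (Dv P ν x C I i * Phi Q g o) =
        Dv P ν x C I i / (Q - g) * (1 + o / (Q + 1)) := by
      unfold Phi
      field_simp
    have h3 : Dv P ν x C I i / (Q - g) ≤ 1 := by
      rw [div_le_one hQg]
      linarith
    have h4 : 1 + o / (Q + 1) ≤ 1 + o := by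
      have : o / (Q + 1) ≤ o := div_le_self ho (by linarith)
      linarith
    have h5 : 0 ≤ 1 + o / (Q + 1) := by
      have : 0 ≤ o / (Q + 1) := div_nonneg ho (by linarith)
      linarith
    rw [h2]
    have h6 := mul_le_mul_of_nonneg_right h3 h5
    rw [one_mul] at h6
    linarith
  · obtain ⟨d, hd⟩ : ∃ d, l = i + d + 1 := ⟨l - i - 1, by omega⟩
    subst hd
    have hxd : 1 ≤ x (i + d) := hx _ (by omega) (by omega)
    have hF := Fx_le hP hm i d fun j h3 h4 => hx j h3 (by omega)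
    have hF0 := Fx_pos (x := x) hP i d
    obtain ⟨n, hn, _⟩ := Fx_exp hP hm i d fun j h3 h4 => hx j h3 (by omega)
    have hcl := Ex_close (P := P) (ν := ν) (x := x) hP hm i d hi hxd (hν _ rfl)
    have hrn' := hrn.2 (i + d) (by omega) rfl
    have hXs := Xs_succ P x (i + d)
    have hXm := Xs_mono (x := x) hm (show i ≤ i + d by omega)
    have hp1 : (1 : ℝ) ≤ P (i + d) := by exact_mod_cast hP _
    have hpp : (P (i + d) : ℝ) + 1 ≤ P (i + d + 1) := by
      have : P (i + d) + 1 ≤ P (i + d + 1) := hm (i + d)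
      exact_mod_cast this
    have hX1' : (1 : ℝ) ≤ x (i + d) := by exact_mod_cast hxd
    set Q : ℝ := ((P i : ℕ) : ℝ) with hQ
    set p : ℝ := ((P (i + d) : ℕ) : ℝ) with hp
    set p' : ℝ := ((P (i + d + 1) : ℕ) : ℝ) with hp'
    set X0 : ℝ := Xs P x i with hX0
    set X1 : ℝ := Xs P x (i + d) with hX1
    set X2 : ℝ := Xs P x (i + d + 1) with hX2
    set t : ℝ := ((x (i + d) : ℕ) : ℝ) with ht
    set G : ℝ := Gp P ν x C i with hG
    set D : ℝ := Dv P ν x C I i with hD
    set M : ℝ := p - (X1 - X0) with hM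
    have hQ0 : 0 < Q := by linarith
    have hth : 0 ≤ (t - 1) * (p' - p - 1) := mul_nonneg (by linarith) (by linarith)
    have hMQ : M ≤ Q := by
      have h3 : (0 : ℝ) ≤ n := Nat.cast_nonneg n
      rw [hn] at h3
      linarith
    have hQg : 1 + (X0 + G) + (t - 1) * (p' - p) + (Q - M) ≤ Q - g := by
      rw [hXs] at hg
      rw [hM]
      linarith
    have ht1 : 0 ≤ (t - 1) * (p' - p) := mul_nonneg (by linarith) (by linarith)
    have hgQ : g ≤ Q - 1 := by linarith
    have hM1 : 1 + (X0 + G) + (t - 1) * (p' - p) ≤ M := by linarith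
    have hM0 : 0 < M := by linarith
    have htM : t ≤ M := by linarith
    have hφ := hI hgQ
    have hΦ0 := Phi_nonneg (Q := Q) (g := g) (o := o) hQ0 (by linarith) ho
    have hE : Ex P ν x (i + d + 2) ≤ Ex P ν x i * (p' / M) := by
      refine hcl.trans ?_
      have h3 : Fx P x i d ≤ p / M := by
        rw [le_div_iff₀ hM0]
        exact hF
      calc Ex P ν x i * Fx P x i d * (p' / p)
          = Ex P ν x i * (Fx P x i d * (p' / p)) := by ring
        _ ≤ Ex P ν x i * (p / M * (p' / p)) := by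
            refine mul_le_mul_of_nonneg_left ?_ (Ex_pos hP i).le
            exact mul_le_mul_of_nonneg_right h3 (div_nonneg (by linarith) (by linarith))
        _ = Ex P ν x i * (p' / M) := by
            congr 1
            field_simp
    have hp'0 : 0 < p' := by linarith
    have h1 : 1 / p' * Ex P ν x (i + d + 2) * It * rn ≤
        (1 + t) * (D / M * Phi Q g o) := by
      calc 1 / p' * Ex P ν x (i + d + 2) * It * rn
          ≤ 1 / p' * (Ex P ν x i * (p' / M)) * (I i * Phi Q g o) *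
              ((1 + t) * gn P ν C i) := by
            have h3 : 0 ≤ 1 / p' * (Ex P ν x i * (p' / M)) :=
              mul_nonneg (by positivity) (mul_nonneg (hex i).le (by positivity))
            refine mul_le_mul (mul_le_mul ?_ hφ hI0 h3) hrn' hrn0 ?_
            · exact mul_le_mul_of_nonneg_left hE (by positivity)
            · exact mul_nonneg h3 (mul_nonneg (hB.Inn i) hΦ0)
        _ = _ := by
            rw [hD]
            unfold Dv
            field_simp
    refine h1.trans ?_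
    have hQg0 : 0 < Q - g := by linarith
    have h2 : D / M * Phi Q g o = D * Q / (M * (Q - g)) * (1 + o / (Q + 1)) := by
      unfold Phi
      field_simp
    have h3 : D * Q / (M * (Q - g)) ≤ 1 := by
      rw [div_le_one (by positivity)]
      have h4 : D ≤ 1 + (X0 + G) := by linarith
      have h5 : D * Q ≤ (1 + (X0 + G)) * Q := mul_le_mul_of_nonneg_right h4 hQ0.le
      have h6 : M * (1 + (X0 + G) + (Q - M)) ≤ M * (Q - g) :=
        mul_le_mul_of_nonneg_left (by linarith) hM0.le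
      have h7 : 0 ≤ (Q - M) * (M - (1 + (X0 + G))) := mul_nonneg (by linarith) (by linarith)
      have h8 : M * (1 + (X0 + G) + (Q - M)) - (1 + (X0 + G)) * Q =
          (Q - M) * (M - (1 + (X0 + G))) := by ring
      linarith
    have h5 : 0 ≤ 1 + o / (Q + 1) := by
      have : 0 ≤ o / (Q + 1) := div_nonneg ho (by linarith)
      linarith
    have h6 := mul_le_mul_of_nonneg_right h3 h5
    rw [one_mul] at h6
    have h7 : (1 + t) * (D / M * Phi Q g o) ≤ (1 + t) * (1 + o / (Q + 1)) := by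
      rw [h2]
      exact mul_le_mul_of_nonneg_left h6 (by linarith)
    refine h7.trans ?_
    have h8 : (1 + t) * (o / (Q + 1)) ≤ o := by
      rw [← mul_div_assoc, div_le_iff₀ (by linarith)]
      have h11 : o * (1 + t) ≤ o * (Q + 1) := mul_le_mul_of_nonneg_left (by linarith) ho
      linarith
    have h9 : t ≤ X2 := by
      rw [hXs]
      have h10 : 0 ≤ t * (p' - p - 1) := mul_nonneg (by linarith) (by linarith)
      linarith
    have h12 : (1 + t) * (1 + o / (Q + 1)) = 1 + t + (1 + t) * (o / (Q + 1)) := by ring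
    rw [h12]
    linarith

end

end MP76b19e.Rob
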