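import Pool.Agent.Lib.MP76b19e.Rob.LinkA
import Pool.Agent.Lib.MP76b19e.Rob.NumC

/-!
# Levels and the statistic (problem MP_76b19e_co)

`lev v` is the level of `v`, `X j = {v ∈ W : lev v ≤ j}`. Sums of caps, the relation between the
running minimum statistic and its numerical version, the sizes of the robust sets.
-/

set_option autoImplicit false

open Finset

namespace MP76b19e.Rob

/-- the number of slots up to level `j` -/
def Nn (ν : ℕ → ℕ) (j : ℕ) : ℕ := ∑ i ∈ range (j + 1), ν i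

theorem Nn_succ (ν : ℕ → ℕ) (j : ℕ) : Nn ν (j + 1) = Nn ν j + ν (j + 1) := by
  unfold Nn
  rw [sum_range_succ]

theorem Ss_eq (P ν : ℕ → ℕ) (j : ℕ) :
    Ss P ν j = (Nn ν j : ℝ) * P j - ∑ i ∈ range j, (Nn ν i : ℝ) * ((P (i + 1) : ℝ) - P i) := by
  induction j with
  | zero =>
    unfold Ss Nn
    simp
  | succ j ih =>
    have h1 : Ss P ν (j + 1) = Ss P ν j + (ν (j + 1) : ℝ) * P (j + 1) := by
      unfold Ss
      rw [sum_range_succ]
    rw [h1, ih, sum_range_succ, Nn_succ]
    push_cast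
    ring

/-- the sum of the caps in terms of the excess -/
theorem cap_excess {P ν t e : ℕ → ℕ} {j : ℕ} (h : ∀ i, i ≤ j → t i = Nn ν i + e i) :
    (t j : ℝ) * P j - ∑ i ∈ range j, (t i : ℝ) * ((P (i + 1) : ℝ) - P i) =
      Ss P ν j + (e j : ℝ) * P j - Xs P e j := by
  rw [Ss_eq, h j le_rfl]
  have h1 : ∑ i ∈ range j, (t i : ℝ) * ((P (i + 1) : ℝ) - P i) =
      ∑ i ∈ range j, (Nn ν i : ℝ) * ((P (i + 1) : ℝ) - P i) + Xs P e j := by
    unfold Xs
    rw [← sum_add_distrib]
    refine sum_congr rfl fun i hi => ?_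
    rw [h i (mem_range.1 hi).le]
    push_cast
    ring
  rw [h1]
  push_cast
  ring

/-- a positive statistic forces the sizes -/
theorem t_ge {P ν t C : ℕ → ℕ} (hP : ∀ j, 0 < P j) (hm : ∀ j, P j < P (j + 1)) {l : ℕ}
    (hC : ∀ j, j < l → (C j : ℝ) ≤ (t j : ℝ) * P j -
      ∑ i ∈ range j, (t i : ℝ) * ((P (i + 1) : ℝ) - P i))
    (hb : ∀ j, j < l → 0 < bn P ν C j) (j : ℕ) (hj : j < l) : Nn ν j ≤ t j := by
  induction j using Nat.strong_induction_on with
  | _ j ih =>
    by_contra hlt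
    push Not at hlt
    set e : ℕ → ℕ := fun i => t i - Nn ν i with he
    have hte : ∀ i, i < j → t i = Nn ν i + e i := by
      intro i hi
      have := ih i hi (by omega)
      rw [he]
      simp only
      omega
    have hCi := hC j hj
    have h1 : ∑ i ∈ range j, (t i : ℝ) * ((P (i + 1) : ℝ) - P i) =
        ∑ i ∈ range j, (Nn ν i : ℝ) * ((P (i + 1) : ℝ) - P i) + Xs P e j := by
      unfold Xs
      rw [← sum_add_distrib]
      refine sum_congr rfl fun i hi => ?_
      rw [hte i (mem_range.1 hi)]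
      push_cast
      ring
    have hS := Ss_eq P ν j
    have hpj : (0 : ℝ) < P j := by exact_mod_cast hP j
    have h2 : ((t j : ℝ) + 1) * P j ≤ (Nn ν j : ℝ) * P j := by
      refine mul_le_mul_of_nonneg_right ?_ hpj.le
      exact_mod_cast hlt
    have h3 : (C j : ℝ) - Ss P ν j + P j ≤ - Xs P e j := by
      rw [hS]
      rw [h1] at hCi
      linarith
    have hbj := hb j hj
    rcases j with _ | j
    · change 0 < ((C 0 : ℝ) - Ss P ν 0 + P 0) / P 0 at hbj
      rw [Xs_zero, neg_zero] at h3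
      exact absurd hbj (not_lt.2 (div_nonpos_of_nonpos_of_nonneg h3 hpj.le))
    · change 0 < ((C (j + 1) : ℝ) - Ss P ν (j + 1) + P (j + 1)) / P (j + 1) +
        1 / P (j + 1) * max (bn P ν C j - 1) 0 at hbj
      have h4 := bn_le (ν := ν) (x := e) (C := C) hP hm j (by
        intro i hi
        have h5 := hC i (by omega)
        rw [cap_excess (fun i' hi' => hte i' (by omega))] at h5
        change 0 ≤ Ss P ν i + (e i : ℝ) * P i - Xs P e i - C i
        linarith)
      have h5 : max (bn P ν C j - 1) 0 ≤ e j := max_le (by linarith) (Nat.cast_nonneg _)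
      have h6 : (e j : ℝ) ≤ Xs P e (j + 1) := by
        rw [Xs_succ]
        have h7 := Xs_nonneg (x := e) hm j
        have h8 : (1 : ℝ) ≤ (P (j + 1) : ℝ) - P j := by
          have : P j + 1 ≤ P (j + 1) := hm j
          have h9 : ((P j + 1 : ℕ) : ℝ) ≤ (P (j + 1) : ℝ) := by exact_mod_cast this
          push_cast at h9
          linarith
        have h9 : (e j : ℝ) * 1 ≤ (e j : ℝ) * ((P (j + 1) : ℝ) - P j) :=
          mul_le_mul_of_nonneg_left h8 (Nat.cast_nonneg _)
        linarith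
      have e1 : ((C (j + 1) : ℝ) - Ss P ν (j + 1) + P (j + 1)) / P (j + 1) +
        1 / P (j + 1) * max (bn P ν C j - 1) 0 =
        ((C (j + 1) : ℝ) - Ss P ν (j + 1) + P (j + 1) + max (bn P ν C j - 1) 0) / P (j + 1) := by
        ring
      rw [e1] at hbj
      exact absurd hbj (not_lt.2 (div_nonpos_of_nonpos_of_nonneg (by linarith) hpj.le))

/-- monotonicity of the statistic -/
theorem bn_mono {P ν C C' : ℕ → ℕ} (j : ℕ) (h : ∀ i, i ≤ j → C i ≤ C' i) :
    bn P ν C j ≤ bn P ν C' j := by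
  induction j with
  | zero =>
    change ((C 0 : ℝ) - Ss P ν 0 + P 0) / P 0 ≤ ((C' 0 : ℝ) - Ss P ν 0 + P 0) / P 0
    have h1 : (C 0 : ℝ) ≤ C' 0 := by exact_mod_cast h 0 le_rfl
    exact div_le_div_of_nonneg_right (by linarith) (Nat.cast_nonneg _)
  | succ j ih =>
    have ih' := ih fun i hi => h i (by omega)
    change ((C (j + 1) : ℝ) - Ss P ν (j + 1) + P (j + 1)) / P (j + 1) +
        1 / P (j + 1) * max (bn P ν C j - 1) 0 ≤
      ((C' (j + 1) : ℝ) - Ss P ν (j + 1) + P (j + 1)) / P (j + 1) +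
        1 / P (j + 1) * max (bn P ν C' j - 1) 0
    have h1 : (C (j + 1) : ℝ) ≤ C' (j + 1) := by exact_mod_cast h (j + 1) le_rfl
    refine add_le_add (div_le_div_of_nonneg_right (by linarith) (Nat.cast_nonneg _)) ?_
    refine mul_le_mul_of_nonneg_left ?_ (by positivity)
    exact max_le_max (by linarith) le_rfl

variable {V : Type} [DecidableEq V]

omit [DecidableEq V] in
/-- sums of caps -/
theorem cap_sum (P : ℕ → ℕ) (lev : V → ℕ) (j : ℕ) (T : Finset V) (hT : ∀ k ∈ T, lev k ≤ j) :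
    ∑ k ∈ T, (P (lev k) : ℝ) = (T.card : ℝ) * P j -
      ∑ i ∈ range j, ((T.filter fun k => lev k ≤ i).card : ℝ) * ((P (i + 1) : ℝ) - P i) := by
  induction j generalizing T with
  | zero =>
    rw [range_zero, sum_empty, sub_zero]
    have h1 : ∀ k ∈ T, (P (lev k) : ℝ) = P 0 := by
      intro k hk
      rw [Nat.le_zero.1 (hT k hk)]
    rw [sum_congr rfl h1, sum_const, nsmul_eq_mul]
  | succ j ih =>
    have h1 := sum_filter_add_sum_filter_not T (fun k => lev k ≤ j) (fun k => (P (lev k) : ℝ))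
    have h2 := ih (T.filter fun k => lev k ≤ j) (fun k hk => (mem_filter.1 hk).2)
    have h3 : ∑ k ∈ T.filter (fun k => ¬ lev k ≤ j), (P (lev k) : ℝ) =
        ((T.filter fun k => ¬ lev k ≤ j).card : ℝ) * P (j + 1) := by
      have h4 : ∀ k ∈ T.filter (fun k => ¬ lev k ≤ j), (P (lev k) : ℝ) = P (j + 1) := by
        intro k hk
        rw [mem_filter] at hk
        have := hT k hk.1
        rw [show lev k = j + 1 by omega]
      rw [sum_congr rfl h4, sum_const, nsmul_eq_mul]
    have h4 : ((T.filter fun k => lev k ≤ j).card : ℝ) +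
        ((T.filter fun k => ¬ lev k ≤ j).card : ℝ) = T.card := by
      exact_mod_cast card_filter_add_card_filter_not (s := T) (fun k => lev k ≤ j)
    have h5 : ∀ i ∈ range j, (((T.filter fun k => lev k ≤ j).filter fun k => lev k ≤ i).card : ℝ) *
        ((P (i + 1) : ℝ) - P i) = ((T.filter fun k => lev k ≤ i).card : ℝ) *
        ((P (i + 1) : ℝ) - P i) := by
      intro i hi
      rw [mem_range] at hi
      congr 3
      rw [filter_filter]
      refine filter_congr fun k _ => ?_
      constructor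
      · exact fun h => h.2
      · exact fun h => ⟨by omega, h⟩
    rw [sum_congr rfl h5] at h2
    rw [← h1, h2, h3, sum_range_succ, ← h4]
    ring

variable [Fintype V] {F : SimpleGraph V}

open Classical in
/-- the closed neighbourhood of a set -/
noncomputable def CN (F : SimpleGraph V) (T : Finset V) : Finset V :=
  univ.filter fun u => ∃ z ∈ T, u = z ∨ F.Adj u z

theorem mem_CN {T : Finset V} {u : V} : u ∈ CN F T ↔ ∃ z ∈ T, u = z ∨ F.Adj u z := by
  classical
  unfold CN
  rw [mem_filter]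
  exact ⟨fun h => h.2, fun h => ⟨mem_univ u, h⟩⟩

theorem CN_mono {T T' : Finset V} (h : T ⊆ T') : CN F T ⊆ CN F T' := by
  intro u hu
  rw [mem_CN] at hu ⊢
  obtain ⟨z, hz, h1⟩ := hu
  exact ⟨z, h hz, h1⟩

theorem CN_empty : CN F (∅ : Finset V) = ∅ := by
  rw [Finset.eq_empty_iff_forall_notMem]
  intro u hu
  rw [mem_CN] at hu
  obtain ⟨z, hz, _⟩ := hu
  exact absurd hz (notMem_empty z)

theorem card_CN_le (T : Finset V) : ((CN F T).card : ℝ) ≤ ∑ k ∈ T, ((cn F k).card : ℝ) := by
  classical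
  have h1 : CN F T ⊆ T.biUnion fun k => cn F k := by
    intro u hu
    rw [mem_CN] at hu
    obtain ⟨z, hz, h2⟩ := hu
    exact mem_biUnion.2 ⟨z, hz, mem_cn.2 h2⟩
  have h2 := (card_le_card h1).trans card_biUnion_le
  exact_mod_cast h2

variable {n : ℕ} {s : V ≃ Fin n}

theorem cov_eq (X : Finset V) : cov F s X X = CN F (Tr F s X) := by
  ext u
  rw [mem_cov_Tr, mem_CN]

/-- the running minimum statistic is the numerical one -/
theorem bm_eq {P ν : ℕ → ℕ} {X : ℕ → Finset V} {l : ℕ}
    (hX : ∀ j, j < l → ((X j).card : ℝ) = Ss P ν j - P j + 1) (j : ℕ) (hj : j < l) :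
    bm F X (fun _ => 1) (fun j => (P j : ℝ)) s j =
      bn P ν (fun i => (CN F (Tr F s (X i))).card) j := by
  induction j with
  | zero =>
    change (Dx F (X 0) s + 1) / (P 0 : ℝ) =
      (((CN F (Tr F s (X 0))).card : ℝ) - Ss P ν 0 + P 0) / P 0
    unfold Dx
    rw [cov_eq, hX 0 hj]
    congr 1
    ring
  | succ j ih =>
    have ih' := ih (by omega)
    change (Dx F (X (j + 1)) s + 1) / (P (j + 1) : ℝ) + 1 / (P (j + 1) : ℝ) *
        max (bm F X (fun _ => 1) (fun j => (P j : ℝ)) s j - 1) 0 =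
      (((CN F (Tr F s (X (j + 1)))).card : ℝ) - Ss P ν (j + 1) + P (j + 1)) / P (j + 1) +
        1 / P (j + 1) * max (bn P ν (fun i => (CN F (Tr F s (X i))).card) j - 1) 0
    rw [ih']
    unfold Dx
    rw [cov_eq, hX (j + 1) hj]
    congr 2
    ring

end MP76b19e.Rob
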