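import Pool.Agent.Lib.MP76b19e.Rob.LinkB

/-!
# The blocks of a maximal independent set (problem MP_76b19e_co)

`Kl Y lev i = {k ∈ Y : lev k < i}`, `Bl Y lev i j = {k ∈ Y : i ≤ lev k < j}`. If `i = 0` or
`i - 1 ∈ Z`, then the stage-wise dominating sets are contained in `Kl i` or disjoint from it.
-/

set_option autoImplicit false

open Finset

namespace MP76b19e.Rob

variable {V : Type} [DecidableEq V]

/-- the elements of level less than `i` -/
def Kl (Y : Finset V) (lev : V → ℕ) (i : ℕ) : Finset V := Y.filter fun k => lev k < i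

/-- the elements of level at least `i` and less than `j` -/
def Bl (Y : Finset V) (lev : V → ℕ) (i j : ℕ) : Finset V :=
  Y.filter fun k => i ≤ lev k ∧ lev k < j

variable {Y : Finset V} {lev : V → ℕ} {i j : ℕ}

omit [DecidableEq V] in
theorem mem_Kl {k : V} : k ∈ Kl Y lev i ↔ k ∈ Y ∧ lev k < i := by
  unfold Kl
  rw [mem_filter]

omit [DecidableEq V] in
theorem mem_Bl {k : V} : k ∈ Bl Y lev i j ↔ k ∈ Y ∧ i ≤ lev k ∧ lev k < j := by
  unfold Bl
  rw [mem_filter]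

omit [DecidableEq V] in
theorem Kl_zero : Kl Y lev 0 = ∅ := by
  rw [Finset.eq_empty_iff_forall_notMem]
  intro k hk
  rw [mem_Kl] at hk
  omega

omit [DecidableEq V] in
theorem Kl_disj : Disjoint (Kl Y lev i) (Bl Y lev i j) := by
  rw [disjoint_left]
  intro k hk hk'
  rw [mem_Kl] at hk
  rw [mem_Bl] at hk'
  omega

theorem Kl_union (h : i ≤ j) : Kl Y lev i ∪ Bl Y lev i j = Kl Y lev j := by
  ext k
  rw [mem_union, mem_Kl, mem_Bl, mem_Kl]
  constructor
  · rintro (h1 | h1)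
    · exact ⟨h1.1, by omega⟩
    · exact ⟨h1.1, h1.2.2⟩
  · rintro ⟨h1, h2⟩
    rcases Nat.lt_or_ge (lev k) i with h3 | h3
    · exact Or.inl ⟨h1, h3⟩
    · exact Or.inr ⟨h1, h3, h2⟩

omit [DecidableEq V] in
theorem Kl_mono (h : i ≤ j) : Kl Y lev i ⊆ Kl Y lev j := by
  intro k hk
  rw [mem_Kl] at hk ⊢
  exact ⟨hk.1, by omega⟩

variable [Fintype V] {F : SimpleGraph V} {W : Finset V} {X : ℕ → Finset V} {Z : Finset ℕ}

/-- the standing assumptions -/
structure Lv (F : SimpleGraph V) (W Y : Finset V) (X : ℕ → Finset V) (lev : V → ℕ) : Prop where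
  X_eq : ∀ j, X j = W.filter fun v => lev v ≤ j
  Y_sub : Y ⊆ W
  indep : ∀ x ∈ Y, ∀ y ∈ Y, ¬ F.Adj x y
  max : ∀ v ∈ W, (dn F Y v).Nonempty

omit [Fintype V] in
theorem Lv.mem_X (h : Lv F W Y X lev) {k : V} (hk : k ∈ Y) {j : ℕ} : k ∈ X j ↔ lev k ≤ j := by
  rw [h.X_eq, mem_filter]
  exact ⟨fun h1 => h1.2, fun h1 => ⟨h.Y_sub hk, h1⟩⟩

/-- low vertices -/
theorem Dst_low (h : Lv F W Y X lev) (hi : i = 0 ∨ i - 1 ∈ Z) {v : V}
    (hv : v ∈ CN F (Kl Y lev i)) :
    Dst F X Z Y v ⊆ Kl Y lev i ∧ (Dst F X Z Y v).Nonempty := by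
  rw [mem_CN] at hv
  obtain ⟨k, hk, hvk⟩ := hv
  rw [mem_Kl] at hk
  have hi1 : 1 ≤ i := by omega
  have hiZ : i - 1 ∈ Z := by
    rcases hi with h1 | h1
    · omega
    · exact h1
  have hne : (dn F Y v ∩ X (i - 1)).Nonempty :=
    ⟨k, mem_inter.2 ⟨mem_dn.2 ⟨hk.1, hvk⟩, (h.mem_X hk.1).2 (by omega)⟩⟩
  rcases first_or_none (F := F) (X := X) (Z := Z) (Y := Y) v with ⟨z, hz, h1, h2⟩ | h1
  · rw [Dst_of_first hz h1 h2]
    refine ⟨fun y hy => ?_, h1⟩
    rw [mem_inter, mem_dn] at hy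
    rw [mem_Kl]
    refine ⟨hy.1.1, ?_⟩
    have h3 := (h.mem_X hy.1.1).1 hy.2
    by_contra h4
    exact h2 (i - 1) hiZ (by omega) hne
  · exact absurd hne (h1 _ hiZ)

/-- high vertices -/
theorem Dst_high {v : V} (hv : v ∉ CN F (Kl Y lev i)) {k : V} (hk : k ∈ Dst F X Z Y v) :
    i ≤ lev k := by
  by_contra hlt
  push Not at hlt
  have h1 := mem_dn.1 (Dst_subset v hk)
  exact hv (mem_CN.2 ⟨k, mem_Kl.2 ⟨h1.1, hlt⟩, h1.2⟩)

theorem mZ_ne_zero {D : Finset V} (h : mZ F W X Z Y D ≠ 0) :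
    D.card = 1 ∨ ∃ v ∈ Rst F W X Z Y, Dst F X Z Y v = D := by
  classical
  by_contra hcon
  push Not at hcon
  apply h
  unfold mZ
  rw [if_neg hcon.1, add_zero, Nat.cast_eq_zero, card_eq_zero, filter_eq_empty_iff]
  exact fun v hv => hcon.2 v hv

/-- the split -/
theorem mZ_split (h : Lv F W Y X lev) (hi : i = 0 ∨ i - 1 ∈ Z) {D : Finset V}
    (hD : D ⊆ Kl Y lev i ∪ Bl Y lev i j) (h0 : mZ F W X Z Y D ≠ 0) :
    D ≠ ∅ ∧ (D ⊆ Kl Y lev i ∨ D ⊆ Bl Y lev i j) := by
  refine ⟨fun h1 => h0 (by rw [h1]; exact mZ_empty h.max), ?_⟩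
  rcases mZ_ne_zero h0 with h1 | ⟨v, hv, h1⟩
  · obtain ⟨k, hk⟩ := card_eq_one.1 h1
    rw [hk] at hD ⊢
    rcases mem_union.1 (singleton_subset_iff.1 hD) with h2 | h2
    · exact Or.inl (singleton_subset_iff.2 h2)
    · exact Or.inr (singleton_subset_iff.2 h2)
  · by_cases hv2 : v ∈ CN F (Kl Y lev i)
    · left
      rw [← h1]
      exact (Dst_low h hi hv2).1
    · right
      intro k hk
      have h2 : i ≤ lev k := by
        rw [← h1] at hk
        exact Dst_high hv2 hk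
      rcases mem_union.1 (hD hk) with h3 | h3
      · rw [mem_Kl] at h3
        omega
      · exact h3

theorem Ival_Kl (h : Lv F W Y X lev) (hi : i = 0 ∨ i - 1 ∈ Z) (hij : i ≤ j) :
    Ival (mZ F W X Z Y) (Kl Y lev j) =
      Ival (mZ F W X Z Y) (Kl Y lev i) * Ival (mZ F W X Z Y) (Bl Y lev i j) := by
  rw [← Kl_union hij]
  exact Ival_union mZ_pos Kl_disj (fun D hD h0 => mZ_split h hi hD h0) (mZ_empty h.max)

theorem oK_Kl (h : Lv F W Y X lev) (hi : i = 0 ∨ i - 1 ∈ Z) (hij : i ≤ j) :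
    oK (mZ F W X Z Y) (Kl Y lev j) =
      oK (mZ F W X Z Y) (Kl Y lev i) + oK (mZ F W X Z Y) (Bl Y lev i j) := by
  rw [← Kl_union hij]
  unfold oK
  refine sum_powerset_union Kl_disj (fun D hD h0 => ?_) (by rw [mZ_empty h.max, mul_zero])
  exact (mZ_split h hi hD fun h1 => h0 (by rw [h1, mul_zero])).2

/-- the total multiplicity of a block -/
theorem sum_Bl (h : Lv F W Y X lev) (hi : i = 0 ∨ i - 1 ∈ Z) {z : ℕ} (hiz : i ≤ z) (hz : z ∈ Z) :
    ∑ D ∈ (Bl Y lev i (z + 1)).powerset, mZ F W X Z Y D =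
      ((CN F (Kl Y lev (z + 1))).card : ℝ) - (CN F (Kl Y lev i)).card := by
  classical
  rw [sum_mZ_one]
  have hsub : CN F (Kl Y lev i) ⊆ CN F (Kl Y lev (z + 1)) := CN_mono (Kl_mono (by omega))
  have hdisj : Disjoint ((Rst F W X Z Y).filter fun v => Dst F X Z Y v ⊆ Bl Y lev i (z + 1))
      (Bl Y lev i (z + 1)) := by
    rw [disjoint_left]
    intro v hv hv'
    rw [mem_filter, mem_Rst] at hv
    rw [mem_Bl] at hv'
    exact hv.1.1 hv'.1
  have heq : ((Rst F W X Z Y).filter fun v => Dst F X Z Y v ⊆ Bl Y lev i (z + 1)) ∪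
      Bl Y lev i (z + 1) = CN F (Kl Y lev (z + 1)) \ CN F (Kl Y lev i) := by
    ext v
    rw [mem_union, mem_filter, mem_sdiff, mem_Bl]
    constructor
    · rintro (⟨h1, h2⟩ | ⟨h1, h2, h3⟩)
      · have h4 := Dst_nonempty h.max h1
        constructor
        · obtain ⟨k, hk⟩ := h4
          have h5 := mem_Bl.1 (h2 hk)
          exact mem_CN.2 ⟨k, mem_Kl.2 ⟨h5.1, h5.2.2⟩, (mem_dn.1 (Dst_subset v hk)).2⟩
        · intro h5
          obtain ⟨k, hk⟩ := h4
          have h6 := mem_Kl.1 ((Dst_low h hi h5).1 hk)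
          have h7 := mem_Bl.1 (h2 hk)
          omega
      · constructor
        · exact mem_CN.2 ⟨v, mem_Kl.2 ⟨h1, h3⟩, Or.inl rfl⟩
        · intro h5
          obtain ⟨k, hk, h6⟩ := mem_CN.1 h5
          rw [mem_Kl] at hk
          rcases h6 with h6 | h6
          · rw [h6] at h2
            omega
          · exact h.indep v h1 k hk.1 h6
    · rintro ⟨h1, h2⟩
      obtain ⟨k, hk, h3⟩ := mem_CN.1 h1
      rw [mem_Kl] at hk
      by_cases hvY : v ∈ Y
      · right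
        have h4 : v = k := by
          rcases h3 with h3 | h3
          · exact h3
          · exact absurd h3 (h.indep v hvY k hk.1)
        refine ⟨hvY, ?_, by rw [h4]; exact hk.2⟩
        by_contra h5
        push Not at h5
        exact h2 (mem_CN.2 ⟨v, mem_Kl.2 ⟨hvY, h5⟩, Or.inl rfl⟩)
      · left
        have hne : (dn F Y v ∩ X z).Nonempty :=
          ⟨k, mem_inter.2 ⟨mem_dn.2 ⟨hk.1, h3⟩, (h.mem_X hk.1).2 (by omega)⟩⟩
        refine ⟨mem_Rst.2 ⟨hvY, Or.inr ⟨z, hz, hne⟩⟩, fun y hy => ?_⟩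
        have h4 := Dst_high h2 hy
        have h5 := mem_dn.1 (Dst_subset v hy)
        rw [mem_Bl]
        refine ⟨h5.1, h4, ?_⟩
        rcases first_or_none (F := F) (X := X) (Z := Z) (Y := Y) v with ⟨z', hz', h6, h7⟩ | h6
        · rw [Dst_of_first hz' h6 h7, mem_inter] at hy
          have h8 := (h.mem_X h5.1).1 hy.2
          have h9 : z' ≤ z := by
            by_contra h10
            exact h7 z hz (by omega) hne
          omega
        · exact absurd hne (h6 z hz)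
  have hcard := card_union_of_disjoint hdisj
  rw [heq, card_sdiff_of_subset hsub] at hcard
  have hle := card_le_card hsub
  have h1 : (((Rst F W X Z Y).filter fun v => Dst F X Z Y v ⊆ Bl Y lev i (z + 1)).card : ℝ) +
      (Bl Y lev i (z + 1)).card =
      (((CN F (Kl Y lev (z + 1))).card - (CN F (Kl Y lev i)).card : ℕ) : ℝ) := by
    rw [hcard]
    push_cast
    ring
  rw [h1, Nat.cast_sub hle]

/-- the total multiplicity of the last block -/
theorem sum_Bl_last (h : Lv F W Y X lev) {l : ℕ} (hl : ∀ v ∈ W, lev v ≤ l) :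
    (W.card : ℝ) - (CN F (Kl Y lev i)).card ≤
      ∑ D ∈ (Bl Y lev i (l + 1)).powerset, mZ F W X Z Y D := by
  classical
  rw [sum_mZ_one]
  have hdisj : Disjoint ((Rst F W X Z Y).filter fun v => Dst F X Z Y v ⊆ Bl Y lev i (l + 1))
      (Bl Y lev i (l + 1)) := by
    rw [disjoint_left]
    intro v hv hv'
    rw [mem_filter, mem_Rst] at hv
    rw [mem_Bl] at hv'
    exact hv.1.1 hv'.1
  have hsub : W ⊆ CN F (Kl Y lev i) ∪
      (((Rst F W X Z Y).filter fun v => Dst F X Z Y v ⊆ Bl Y lev i (l + 1)) ∪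
      Bl Y lev i (l + 1)) := by
    intro v hv
    rw [mem_union, mem_union, mem_filter, mem_Bl]
    by_cases h2 : v ∈ CN F (Kl Y lev i)
    · exact Or.inl h2
    · right
      by_cases hvY : v ∈ Y
      · right
        refine ⟨hvY, ?_, by have := hl v hv; omega⟩
        by_contra h5
        push Not at h5
        exact h2 (mem_CN.2 ⟨v, mem_Kl.2 ⟨hvY, h5⟩, Or.inl rfl⟩)
      · left
        refine ⟨mem_Rst.2 ⟨hvY, Or.inl hv⟩, fun y hy => ?_⟩
        have h4 := Dst_high h2 hy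
        have h5 := mem_dn.1 (Dst_subset v hy)
        have h6 := hl y (h.Y_sub h5.1)
        exact mem_Bl.2 ⟨h5.1, h4, by omega⟩
  have h1 := (card_le_card hsub).trans (card_union_le _ _)
  rw [card_union_of_disjoint hdisj] at h1
  have h2 : (W.card : ℝ) ≤ ((CN F (Kl Y lev i)).card : ℝ) +
      ((((Rst F W X Z Y).filter fun v => Dst F X Z Y v ⊆ Bl Y lev i (l + 1)).card : ℝ) +
      (Bl Y lev i (l + 1)).card) := by
    exact_mod_cast h1
  linarith

/-- the overlaps are at most the overlaps in `W` -/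
theorem oK_le (h : Lv F W Y X lev) (hp : ∀ v, v ∉ W → (dn F Y v).card ≤ 1) (K : Finset V) :
    oK (mZ F W X Z Y) K ≤ ∑ v ∈ W \ Y, (((dn F Y v).card : ℝ) - 1) := by
  classical
  rw [oK_mZ]
  have h1 : ∀ v ∈ (Rst F W X Z Y).filter (fun v => Dst F X Z Y v ⊆ K),
      (((Dst F X Z Y v).card : ℝ) - 1) ≤ if v ∈ W \ Y then ((dn F Y v).card : ℝ) - 1 else 0 := by
    intro v hv
    rw [mem_filter, mem_Rst] at hv
    have h2 : ((Dst F X Z Y v).card : ℝ) ≤ (dn F Y v).card := by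
      exact_mod_cast card_le_card (Dst_subset v)
    split_ifs with h3
    · linarith
    · have h4 : v ∉ W := fun h5 => h3 (mem_sdiff.2 ⟨h5, hv.1.1⟩)
      have h5 : ((dn F Y v).card : ℝ) ≤ 1 := by exact_mod_cast hp v h4
      linarith
  refine (sum_le_sum h1).trans ?_
  rw [← sum_filter]
  refine sum_le_sum_of_subset_of_nonneg (fun v hv => (mem_filter.1 hv).2) fun v hv _ => ?_
  have h2 : 1 ≤ (dn F Y v).card := card_pos.2 (h.max v (mem_sdiff.1 hv).1)
  have h3 : (1 : ℝ) ≤ ((dn F Y v).card : ℝ) := by exact_mod_cast h2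
  linarith

end MP76b19e.Rob
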