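import Pool.Agent.Lib.MP76b19e.Rob.Zero

/-!
# The link for a zero before the last level (problem MP_76b19e_co)

`zero`: the local inequality for the maximal independent sets with more than `Nn ν l` elements and
exactly `Nn ν (l - 1)` elements of level less than `l`.
-/

set_option autoImplicit false

open Finset

namespace MP76b19e.Rob

variable {V β : Type} [DecidableEq V] [DecidableEq β] [Fintype V] {F : SimpleGraph V}
  {W Y : Finset V} {X : ℕ → Finset V} {lev : V → ℕ} {P ν : ℕ → ℕ} {l n : ℕ} {Z : Finset ℕ}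

/-- the multiplicities after the last zero -/
theorem mZ_eq_mY (h : Lv F W Y X lev) {i j : ℕ} (hi : i = 0 ∨ i - 1 ∈ Z) (hZ : ∀ z ∈ Z, z < i)
    {D : Finset V} (hD : D ⊆ Bl Y lev i j) : mZ F W X Z Y D = mY F W Y D := by
  classical
  rcases D.eq_empty_or_nonempty with h0 | h0
  · rw [h0, mZ_empty h.max]
    unfold mY
    symm
    rw [Nat.cast_eq_zero, card_eq_zero, filter_eq_empty_iff]
    intro v hv hv'
    have := h.max v hv
    rw [hv'] at this
    exact absurd this (by simp)
  · have hlev : ∀ k ∈ D, k ∈ Y ∧ i ≤ lev k := fun k hk =>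
      ⟨(mem_Bl.1 (hD hk)).1, (mem_Bl.1 (hD hk)).2.1⟩
    have hnone : ∀ v, dn F Y v = D → ∀ z ∈ Z, ¬ (dn F Y v ∩ X z).Nonempty := by
      rintro v hv z hz ⟨k, hk⟩
      rw [mem_inter, hv] at hk
      have h1 := hlev k hk.1
      have h2 := (h.mem_X h1.1).1 hk.2
      have h3 := hZ z hz
      omega
    have hst : ∀ v ∈ Rst F W X Z Y, Dst F X Z Y v = D → dn F Y v = D ∧ v ∈ W := by
      intro v hv hvD
      have hvC : v ∉ CN F (Kl Y lev i) := by
        intro h1
        have h2 := Dst_low h hi h1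
        rw [hvD] at h2
        obtain ⟨k, hk⟩ := h2.2
        have h3 := mem_Kl.1 (h2.1 hk)
        have h4 := hlev k hk
        omega
      have h1 : ∀ z ∈ Z, ¬ (dn F Y v ∩ X z).Nonempty := by
        rintro z hz ⟨k, hk⟩
        rw [mem_inter, mem_dn] at hk
        refine hvC (mem_CN.2 ⟨k, mem_Kl.2 ⟨hk.1.1, ?_⟩, hk.1.2⟩)
        have h2 := (h.mem_X hk.1.1).1 hk.2
        have h3 := hZ z hz
        omega
      rw [Dst_of_none h1] at hvD
      refine ⟨hvD, ?_⟩
      rcases (mem_Rst.1 hv).2 with h2 | ⟨z, hz, h2⟩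
      · exact h2
      · exact absurd h2 (h1 z hz)
    have key : W.filter (fun v => dn F Y v = D) =
        ((Rst F W X Z Y).filter fun v => Dst F X Z Y v = D) ∪
          (if D.card = 1 then D else ∅) := by
      ext v
      rw [mem_filter, mem_union, mem_filter]
      constructor
      · rintro ⟨h1, h2⟩
        by_cases hvY : v ∈ Y
        · right
          have h3 := dn_self h.indep hvY
          rw [h2] at h3
          rw [h3, if_pos (card_singleton v)]
          exact mem_singleton_self v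
        · left
          have h3 := hnone v h2
          refine ⟨mem_Rst.2 ⟨hvY, Or.inl h1⟩, ?_⟩
          rw [Dst_of_none h3]
          exact h2
      · rintro (⟨h1, h2⟩ | h1)
        · have h3 := hst v h1 h2
          exact ⟨h3.2, h3.1⟩
        · split_ifs at h1 with h2
          · have hvY := (hlev v h1).1
            refine ⟨h.Y_sub hvY, ?_⟩
            rw [dn_self h.indep hvY]
            obtain ⟨k, hk⟩ := card_eq_one.1 h2
            rw [hk, mem_singleton] at h1
            rw [hk, h1]
          · exact absurd h1 (notMem_empty v)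
    have hdisj : Disjoint ((Rst F W X Z Y).filter fun v => Dst F X Z Y v = D)
        (if D.card = 1 then D else ∅) := by
      rw [disjoint_left]
      intro v hv hv'
      rw [mem_filter, mem_Rst] at hv
      split_ifs at hv' with h2
      · exact hv.1.1 (hlev v hv').1
      · exact absurd hv' (notMem_empty v)
    unfold mY mZ
    rw [key, card_union_of_disjoint hdisj]
    push_cast
    congr 1
    split_ifs with h2
    · rw [h2]
      simp
    · simp

/-- the overlaps of a subset of `Y` -/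
theorem oK_le_cn (h : Lv F W Y X lev) (hp : ∀ v, v ∉ W → (dn F Y v).card ≤ 1) (K : Finset V) :
    oK (mZ F W X Z Y) K ≤ ∑ k ∈ K, ((cn F k ∩ W).card : ℝ) - ((CN F K ∩ W).card : ℝ) := by
  classical
  rw [oK_mZ, sum_cn_inter W K]
  have h1 : ((CN F K ∩ W).card : ℝ) = ∑ v ∈ W, if (dn F K v).Nonempty then (1 : ℝ) else 0 := by
    rw [sum_ite, sum_const_zero, add_zero, sum_const, nsmul_eq_mul, mul_one]
    congr 2
    ext v
    rw [mem_inter, mem_filter, mem_CN]
    constructor
    · rintro ⟨⟨k, hk, h2⟩, h3⟩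
      exact ⟨h3, k, mem_dn.2 ⟨hk, h2⟩⟩
    · rintro ⟨h3, k, hk⟩
      rw [mem_dn] at hk
      exact ⟨⟨k, hk.1, hk.2⟩, h3⟩
  rw [h1, ← sum_sub_distrib]
  have h2 : ∀ v ∈ (Rst F W X Z Y).filter (fun v => Dst F X Z Y v ⊆ K),
      (((Dst F X Z Y v).card : ℝ) - 1) ≤ if v ∈ W then
        (((dn F K v).card : ℝ) - if (dn F K v).Nonempty then (1 : ℝ) else 0) else 0 := by
    intro v hv
    rw [mem_filter] at hv
    split_ifs with h3 h4
    · have h5 : Dst F X Z Y v ⊆ dn F K v := fun k hk =>
        mem_dn.2 ⟨hv.2 hk, (mem_dn.1 (Dst_subset v hk)).2⟩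
      have h6 : ((Dst F X Z Y v).card : ℝ) ≤ ((dn F K v).card : ℝ) := by
        exact_mod_cast card_le_card h5
      linarith
    · exfalso
      obtain ⟨k, hk⟩ := Dst_nonempty h.max hv.1
      exact h4 ⟨k, mem_dn.2 ⟨hv.2 hk, (mem_dn.1 (Dst_subset v hk)).2⟩⟩
    · have h5 : ((Dst F X Z Y v).card : ℝ) ≤ 1 := by
        exact_mod_cast (card_le_card (Dst_subset v)).trans (hp v h3)
      linarith
  refine (sum_le_sum h2).trans ?_
  rw [← sum_filter]
  refine sum_le_sum_of_subset_of_nonneg (fun v hv => (mem_filter.1 hv).2) fun v _ _ => ?_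
  split_ifs with h3
  · have : 1 ≤ (dn F K v).card := card_pos.2 h3
    have h4 : (1 : ℝ) ≤ ((dn F K v).card : ℝ) := by exact_mod_cast this
    linarith
  · have h4 : (0 : ℝ) ≤ ((dn F K v).card : ℝ) := Nat.cast_nonneg _
    linarith

/-- the undominated part -/
theorem card_Und (K : Finset V) :
    ((Und F W K).card : ℝ) = (W.card : ℝ) - ((CN F K ∩ W).card : ℝ) := by
  classical
  have h1 : Und F W K = W \ (CN F K ∩ W) := by
    ext v
    rw [mem_Und, mem_sdiff, mem_inter, mem_CN]
    constructor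
    · rintro ⟨h1, h2⟩
      refine ⟨h1, ?_⟩
      rintro ⟨⟨k, hk, h3⟩, _⟩
      rcases h3 with h3 | h3
      · exact (h2 k hk).1 h3
      · exact (h2 k hk).2 h3
    · rintro ⟨h1, h2⟩
      refine ⟨h1, fun k hk => ⟨fun h3 => h2 ⟨⟨k, hk, Or.inl h3⟩, h1⟩,
        fun h3 => h2 ⟨⟨k, hk, Or.inr h3⟩, h1⟩⟩⟩
  rw [h1, card_sdiff_of_subset inter_subset_right, Nat.cast_sub (card_le_card inter_subset_right)]

/-- the local inequality, a zero before the last level -/
theorem zero (h : Lv F W Y X lev) (hP : ∀ j, 0 < P j) (hm : ∀ j, P j < P (j + 1))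
    (hν : ∀ i, i ≤ l → 1 ≤ ν i) (hcap : Cp F W Y lev P l)
    (hXc : ∀ j, j < l → ((X j).card : ℝ) = Ss P ν j - P j + 1)
    (hWc : (W.card : ℝ) = Ss P ν l - P l + 1) {d : ℕ} (hY : Y.card = Nn ν l + (d + 1))
    (hz : l = 0 ∨ xY Y lev ν (l - 1) = 0) (hP2 : 2 ≤ P 0)
    {B : Finset β} {M : V → Finset β} {c : Finset V → ℕ}
    (hB : B.card = P l) (hMB : ∀ v, M v ⊆ B)
    (hcol : ∀ v ∈ W, (cn F v ∩ W).card + (M v).card ≤ P (lev v))
    (hc1 : ∀ K ⊆ Y, K.card = Nn ν l → P l ≤ c K + (K.biUnion M).card)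
    (hc2 : ∀ K ⊆ Y, K.card = Nn ν l + 1 → 1 ≤ c K) :
    ((P 0 : ℝ) ^ (∑ i ∈ range (l + 1), (ν i - 1)) * ∏ i ∈ range l, (P i : ℝ)) *
        ∑ s ∈ univ.filter (fun s : V ≃ Fin n => gr F W s = Y),
          RM F X (fun _ => 1) (fun j => (P j : ℝ)) s l ≤
      (Fintype.card (V ≃ Fin n) : ℝ) * CapT F W (fun K => (c K : ℝ)) Y := by
  classical
  have hl := hcap.le
  have hmono : ∀ a b, a ≤ b → P a ≤ P b := fun a b h =>
    monotone_nat_of_le_succ (fun j => (hm j).le) h
  have hTw : 0 ≤ (P 0 : ℝ) ^ (∑ i ∈ range (l + 1), (ν i - 1)) * ∏ i ∈ range l, (P i : ℝ) :=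
    mul_nonneg (by positivity) (prod_nonneg fun _ _ => Nat.cast_nonneg _)
  have hcard : (0 : ℝ) ≤ (Fintype.card (V ≃ Fin n) : ℝ) := Nat.cast_nonneg _
  by_cases hs : ∃ s : V ≃ Fin n, gr F W s = Y ∧
      0 < RM F X (fun _ => 1) (fun j => (P j : ℝ)) s l
  · obtain ⟨s0, hs0, hpos⟩ := hs
    have hx : ∀ j, j < l → Nn ν j ≤ (Kl Y lev (j + 1)).card := fun j hj =>
      (Tr_card h.X_eq hP hm hcap.lo hXc hpos j hj).trans (card_le_card (Tr_sub_Kl h hs0 j))
    have hb : ∀ j, j < l → 0 < bn P ν (CY F Y lev) j := by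
      intro j hj
      refine (bm_pos hpos j hj).trans_le ?_
      rw [bm_eq (X := X) (s := s0) hXc j hj]
      exact bn_mono j fun i _ => card_le_card (CN_mono (Tr_sub_Kl h hs0 i))
    have hKl : Kl Y lev (l + 1) = Y := by
      unfold Kl
      rw [filter_true_of_mem]
      intro k hk
      have := hl k (h.Y_sub hk)
      omega
    have hi' := start_mem (l := l) (Y := Y) (lev := lev) (ν := ν) le_rfl hz
    set m := mZ F W X (ZY Y lev ν l) Y with hmdef
    set T := Kl Y lev l with hTdef
    set Yb := Bl Y lev l (l + 1) with hYbdef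
    have hTYb : T ∪ Yb = Y := by
      rw [hTdef, hYbdef, Kl_union (by omega), hKl]
    have hdTY : Disjoint T Yb := Kl_disj
    have hTY : T ⊆ Y := by
      rw [← hTYb]
      exact subset_union_left
    have hYbY : Yb = Y \ T := by
      rw [← hTYb, union_sdiff_left, sdiff_eq_self_of_disjoint hdTY.symm]
    -- the numbers of elements
    have hTc : T.card + ν l = Nn ν l := by
      rcases Nat.eq_zero_or_pos l with h0 | h0
      · rw [hTdef, h0, Kl_zero, card_empty]
        unfold Nn
        simp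
      · obtain ⟨j, rfl⟩ : ∃ j, l = j + 1 := ⟨l - 1, by omega⟩
        have h1 := xY_eq (hx j (by omega))
        have h2 : xY Y lev ν j = 0 := by
          rcases hz with h3 | h3
          · omega
          · simpa using h3
        rw [hTdef, h1, h2, Nn_succ]
        omega
    have hYbc : Yb.card = ν l + (d + 1) := by
      have h1 := card_union_of_disjoint hdTY
      rw [hTYb] at h1
      omega
    -- the caps of `T`
    have hXs0 : Xs P (xY Y lev ν) l = Ss P ν l - (ν l : ℝ) * P l -
        ∑ k ∈ T, (P (lev k) : ℝ) := by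
      rcases Nat.eq_zero_or_pos l with h0 | h0
      · rw [hTdef, h0, Kl_zero, sum_empty, Xs_zero]
        unfold Ss
        simp
      · obtain ⟨j, rfl⟩ : ∃ j, l = j + 1 := ⟨l - 1, by omega⟩
        have h2 : xY Y lev ν j = 0 := by
          rcases hz with h3 | h3
          · omega
          · simpa using h3
        have h1 := cap_Kl (P := P) (j := j) (fun i hi => hx i (by omega))
        rw [hTdef, h1, h2, Xs_succ, h2]
        have h3 : Ss P ν (j + 1) = Ss P ν j + (ν (j + 1) : ℝ) * P (j + 1) := by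
          unfold Ss
          rw [sum_range_succ]
        rw [h3]
        push_cast
        ring
    obtain ⟨hO0, hOG, hD1, hDP⟩ := low_bound h hP hm hcap hx hb l le_rfl hz
    have hD0 : 0 ≤ Dv P ν (xY Y lev ν) (CY F Y lev) (IY F W Y X lev P ν l) l :=
      Dv_nonneg hP (blk h hP hm hcap hx).Inn l
    set D := Dv P ν (xY Y lev ν) (CY F Y lev) (IY F W Y X lev P ν l) l with hDdef
    have hOle : OY F W Y X lev ν l l ≤
        ∑ k ∈ T, ((cn F k ∩ W).card : ℝ) - ((CN F T ∩ W).card : ℝ) :=
      oK_le_cn h hcap.pen T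
    set O := ∑ k ∈ T, ((cn F k ∩ W).card : ℝ) - ((CN F T ∩ W).card : ℝ) with hOdef
    have hX0 := Xs_nonneg (x := xY Y lev ν) hm l
    have hPl : (0 : ℝ) < P l := by exact_mod_cast hP l
    have hP0 : (0 : ℝ) < P 0 := by exact_mod_cast hP 0
    have hP0l : (P 0 : ℝ) ≤ P l := by exact_mod_cast hmono 0 l (Nat.zero_le l)
    have hνl := hν l le_rfl
    -- the excess
    have hU : 1 + Xs P (xY Y lev ν) l + O + ∑ v ∈ T, ((M v).card : ℝ) ≤
        ((Und F W T).card : ℝ) - ((ν l : ℝ) - 1) * P l := by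
      rw [card_Und, hWc]
      have h1 : ∑ v ∈ T, ((cn F v ∩ W).card : ℝ) + ∑ v ∈ T, ((M v).card : ℝ) ≤
          ∑ v ∈ T, (P (lev v) : ℝ) := by
        rw [← sum_add_distrib]
        refine sum_le_sum fun v hv => ?_
        have := hcol v (h.Y_sub (hTY hv))
        exact_mod_cast this
      rw [hXs0]
      linarith
    have hmY : ∀ D ⊆ Y \ T, m D = mY F W Y D := by
      intro D hD
      rw [← hYbY] at hD
      exact mZ_eq_mY h hi' ZY_lt hD
    have hpm : PosM m := mZ_pos
    -- the capacity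
    have hk := kwise (F := F) (W := W) (c := fun K => (c K : ℝ)) (fun K => Nat.cast_nonneg _)
      (Y := Y) (Yb := Yb) (d := d) (by rw [hYbY]; exact sdiff_subset) (by omega) hpm
      (T := D * (P 0 : ℝ) ^ (ν l - 1)) (mul_nonneg hD0 (by positivity))
      (fun S hS => by
        rw [hYbY] at hS
        exact le_of_eq (Ival_congr fun D hD => hmY D (hD.trans hS)))
      (by
        intro S hS hSd
        have hSd' : S = (Y \ T) \ (Yb \ S) := by
          rw [← hYbY, Finset.sdiff_sdiff_eq_self hS]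
        have hSY : S ⊆ Y := by
          rw [hYbY] at hS
          exact hS.trans sdiff_subset
        have hKc : (Yb \ S).card = ν l + 1 := by
          rw [card_sdiff_of_subset hS]
          omega
        have hmain := last_block (F := F) (W := W) (Y := Y) (T := T) (K := Yb \ S) (S := S)
          (B := B) (M := M) (c := c) (m := m) (q := P l) h.indep h.Y_sub hpm hmY hTY
          (by rw [← hYbY]; exact sdiff_subset) hSd' (r := ν l) hνl hKc
          (hP2.trans (hmono 0 l (Nat.zero_le l)))
          (fun v hv _ => (hcol v hv).trans (hmono _ _ (hl v hv))) hB hMB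
          (by
            intro j hj
            rw [mem_sdiff] at hj
            refine hc1 _ sdiff_subset ?_
            have hjY : insert j S ⊆ Y := by
              refine insert_subset ?_ hSY
              have h1 := hj.1
              rw [hYbY] at h1
              exact (mem_sdiff.1 h1).1
            rw [card_sdiff_of_subset hjY, card_insert_of_notMem hj.2, hY, hSd]
            omega)
          (by
            refine hc2 _ sdiff_subset ?_
            rw [card_sdiff_of_subset hSY, hY, hSd]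
            omega)
          (Q1 := min (1 + Xs P (xY Y lev ν) l + O) (P l)) (D := D)
          (le_min (hD1.trans (by linarith)) hDP)
          (lt_min (by linarith) hPl) (min_le_right _ _)
          (by
            have h1 := min_le_left (1 + Xs P (xY Y lev ν) l + O) (P l : ℝ)
            linarith)
        refine le_trans ?_ hmain
        refine mul_le_mul_of_nonneg_right ?_ (Ival_pos (hpm.push S) _).le
        refine mul_le_mul_of_nonneg_left ?_ hD0
        exact pow_le_pow_left₀ hP0.le hP0l _)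
    -- the weight
    have hEx : Ex P ν (xY Y lev ν) l * ∏ k ∈ T, (P (lev k) : ℝ) =
        (P 0 : ℝ) ^ (∑ i ∈ range l, (ν i - 1)) * ∏ i ∈ range l, (P i : ℝ) := by
      rcases Nat.eq_zero_or_pos l with h0 | h0
      · rw [hTdef, h0, Kl_zero, prod_empty]
        simp [Ex]
      · obtain ⟨j, rfl⟩ : ∃ j, l = j + 1 := ⟨l - 1, by omega⟩
        have h2 : xY Y lev ν j = 0 := by
          rcases hz with h3 | h3
          · omega
          · simpa using h3
        have h1 := Ex_prod (Y := Y) (lev := lev) (ν := ν) hP (j := j) (fun i hi => hν i (by omega))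
          (fun i hi => hx i (by omega))
        rw [h2, pow_zero, mul_one] at h1
        exact h1
    have hIv : Ival m Y = Ival m T * Ival m Yb := by
      have h1 := Ival_Kl (Z := ZY Y lev ν l) h hi' (show l ≤ l + 1 by omega)
      rw [hKl] at h1
      exact h1
    have hsum := sum_RM_le (n := n) (ν := ν) (l := l) h hP hm hcap.lo hXc
    rw [← hmdef] at hsum
    have hrn : rn P ν (CY F Y lev) l ≤ gn P ν (CY F Y lev) l :=
      (rn_le (x := xY Y lev ν) hP hm (fun j hj => (blk h hP hm hcap hx).G j hj)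
        hz).1 rfl
    have hI0 : 0 ≤ Ival m Y := (Ival_pos hpm Y).le
    have hrn2 : (Fintype.card (V ≃ Fin n) : ℝ) * Ival m Y * rn P ν (CY F Y lev) l ≤
        (Fintype.card (V ≃ Fin n) : ℝ) * Ival m Y * gn P ν (CY F Y lev) l :=
      mul_le_mul_of_nonneg_left hrn (mul_nonneg hcard hI0)
    calc ((P 0 : ℝ) ^ (∑ i ∈ range (l + 1), (ν i - 1)) * ∏ i ∈ range l, (P i : ℝ)) *
        ∑ s ∈ univ.filter (fun s : V ≃ Fin n => gr F W s = Y),
          RM F X (fun _ => 1) (fun j => (P j : ℝ)) s l
        ≤ ((P 0 : ℝ) ^ (∑ i ∈ range (l + 1), (ν i - 1)) * ∏ i ∈ range l, (P i : ℝ)) *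
          ((Fintype.card (V ≃ Fin n) : ℝ) * Ival m Y * rn P ν (CY F Y lev) l) :=
          mul_le_mul_of_nonneg_left hsum hTw
      _ ≤ ((P 0 : ℝ) ^ (∑ i ∈ range (l + 1), (ν i - 1)) * ∏ i ∈ range l, (P i : ℝ)) *
          ((Fintype.card (V ≃ Fin n) : ℝ) * Ival m Y * gn P ν (CY F Y lev) l) :=
          mul_le_mul_of_nonneg_left hrn2 hTw
      _ = (Fintype.card (V ≃ Fin n) : ℝ) * (D * (P 0 : ℝ) ^ (ν l - 1) * Ival m Yb) := by
          rw [hIv, sum_range_succ, pow_add, hDdef]
          unfold Dv IY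
          rw [← hmdef, ← hTdef]
          have h1 : (P 0 : ℝ) ^ (∑ i ∈ range l, (ν i - 1)) * (P 0 : ℝ) ^ (ν l - 1) *
              ∏ i ∈ range l, (P i : ℝ) = (Ex P ν (xY Y lev ν) l * ∏ k ∈ T, (P (lev k) : ℝ)) *
                (P 0 : ℝ) ^ (ν l - 1) := by
            rw [hEx]
            ring
          rw [h1]
          ring
      _ ≤ _ := mul_le_mul_of_nonneg_left hk hcard
  · have h1 : ∑ s ∈ univ.filter (fun s : V ≃ Fin n => gr F W s = Y),
          RM F X (fun _ => 1) (fun j => (P j : ℝ)) s l ≤ 0 := by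
      refine sum_nonpos fun s hs' => ?_
      by_contra hcon
      push Not at hcon
      exact hs ⟨s, (mem_filter.1 hs').2, hcon⟩
    have h2 := mul_nonpos_of_nonneg_of_nonpos hTw h1
    exact h2.trans (mul_nonneg hcard (CapT_nonneg c Y))

end MP76b19e.Rob
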