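import Pool.Agent.Lib.MP76b19e.Rob.PermEq
import Pool.Agent.Lib.MP76b19e.Rob.Lin
import Pool.Agent.Lib.MP76b19e.Rob.ZeroL

/-!
# The linear last factor and `Ival` (problem MP_76b19e_co)

`link_lin`: if the last block has one low level `k`, then the sum of the linear statistic over the
orders with greedy set `Y` is at most the bound for the lower blocks times
`∑_u Ival (U - u) - ((ν_k - 1) P_k + ...) Ival U`, `u` in the elements of level `k`, `U` the elements
of level at least `k`.
-/

set_option autoImplicit false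

open Finset

namespace MP76b19e.Rob

section basic

variable {V : Type} {n : ℕ} {F : SimpleGraph V} {s s' : V ≃ Fin n} {X X' : Finset V}

/-- the robust vertices of a smaller set that contains all robust vertices -/
theorem rob_restrict (h : ∀ v, rob F s X v → v ∈ X') {v : V}
    (hv : rob F s X v) : rob F s X' v := by
  induction hk : (s v).val using Nat.strong_induction_on generalizing v with
  | _ k ih =>
    rw [rob_iff]
    refine ⟨h v hv, fun y hy hlt => ?_⟩
    obtain ⟨z, hz, hlt2, hr⟩ := (rob_iff.1 hv).2 y hy hlt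
    exact ⟨z, hz, hlt2, ih (s z).val (by rw [← hk]; exact lt_trans hlt2 hlt) hr rfl⟩

theorem Tr_restrict (h1 : Tr F s X ⊆ X') (h2 : X' ⊆ X) : Tr F s X' = Tr F s X := by
  refine Subset.antisymm (Tr_mono h2) fun v hv => ?_
  exact mem_Tr.2 (rob_restrict (fun w hw => h1 (mem_Tr.2 hw)) (mem_Tr.1 hv))

/-- the robust vertices depend only on the order of the closed neighbourhood -/
theorem rob_loc {N : Finset V} (hN : ∀ v ∈ X, v ∈ N ∧ ∀ y, F.Adj v y → y ∈ N)
    (h : ∀ v ∈ N, s' v = s v) {v : V} (hv : rob F s X v) : rob F s' X v := by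
  induction hk : (s v).val using Nat.strong_induction_on generalizing v with
  | _ k ih =>
    rw [rob_iff] at hv ⊢
    refine ⟨hv.1, fun y hy hlt => ?_⟩
    have h1 := hN v hv.1
    rw [h v h1.1, h y (h1.2 y hy)] at hlt
    obtain ⟨z, hz, hlt2, hr⟩ := hv.2 y hy hlt
    refine ⟨z, hz, ?_, ih (s z).val (by rw [← hk]; exact lt_trans hlt2 hlt) hr rfl⟩
    rw [h z (hN z hr.mem).1, h y (h1.2 y hy)]
    exact hlt2

variable [DecidableEq V] [Fintype V]

theorem Tr_sw {T : Finset V} {a b : V} (ha : a ∉ CN F T) (hb : b ∉ CN F T) (hX : X ⊆ T) :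
    Tr F (sw s a b) X = Tr F s X := by
  have hN : ∀ v ∈ X, v ∈ CN F T ∧ ∀ y, F.Adj v y → y ∈ CN F T := fun v hv =>
    ⟨mem_CN.2 ⟨v, hX hv, Or.inl rfl⟩, fun y hy => mem_CN.2 ⟨v, hX hv, Or.inr hy.symm⟩⟩
  have hne : ∀ v ∈ CN F T, sw s a b v = s v := by
    intro v hv
    apply sw_ne
    · rintro rfl
      exact ha hv
    · rintro rfl
      exact hb hv
  ext v
  rw [mem_Tr, mem_Tr]
  exact ⟨fun h => rob_loc hN (fun w hw => (hne w hw).symm) h, fun h => rob_loc hN hne h⟩

end basic

section

variable {V : Type} [DecidableEq V] [Fintype V] {F : SimpleGraph V} {W Y : Finset V}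
  {X : ℕ → Finset V} {lev : V → ℕ} {P ν : ℕ → ℕ} {l n i : ℕ} {Z : Finset ℕ} {s : V ≃ Fin n}

/-- vertices not dominated by the lower blocks -/
theorem Dst_out (h : Lv F W Y X lev) (hZ : ∀ z ∈ Z, z < i) {v : V}
    (hv : v ∉ CN F (Kl Y lev i)) : Dst F X Z Y v = dn F Y v ∧ (v ∈ Rst F W X Z Y → v ∈ W) := by
  have hnone : ∀ z ∈ Z, ¬ (dn F Y v ∩ X z).Nonempty := by
    rintro z hz ⟨k, hk⟩
    rw [mem_inter, mem_dn] at hk
    refine hv (mem_CN.2 ⟨k, mem_Kl.2 ⟨hk.1.1, ?_⟩, hk.1.2⟩)
    have h2 := (h.mem_X hk.1.1).1 hk.2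
    have h3 := hZ z hz
    omega
  refine ⟨Dst_of_none hnone, fun h1 => ?_⟩
  rcases (mem_Rst.1 h1).2 with h2 | ⟨z, hz, h2⟩
  · exact h2
  · exact absurd h2 (hnone z hz)

omit [Fintype V] in
theorem X_inter_Kl (h : Lv F W Y X lev) (j : ℕ) : X j ∩ Kl Y lev i ⊆ Kl Y lev (j + 1) := by
  intro v hv
  rw [mem_inter, mem_Kl] at hv
  have := (h.mem_X hv.2.1).1 hv.1
  exact mem_Kl.2 ⟨hv.2.1, by omega⟩

/-- the event of the blocks -/
theorem ev_iff (h : Lv F W Y X lev) (hl : ∀ v ∈ W, lev v ≤ l) (hi : i = 0 ∨ i - 1 ∈ Z)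
    (hZ : ∀ z ∈ Z, z < i) (s : V ≃ Fin n) :
    (gr F W s = Y ∧ ∀ z ∈ Z, Tr F s (X z) = Y ∩ X z) ↔
      ((∀ z ∈ Z, Tr F s (X z ∩ Kl Y lev i) = Y ∩ X z) ∧
        Ev (Rst F W X Z Y) (Dst F X Z Y) (Bl Y lev i (l + 1)) s) := by
  constructor
  · rintro ⟨hg, ht⟩
    constructor
    · intro z hz
      rw [Tr_restrict (X := X z) ?_ inter_subset_left]
      · exact ht z hz
      · rw [ht z hz]
        refine subset_inter inter_subset_right ?_
        rw [Y_inter h z]
        exact Kl_mono (hZ z hz)
    · intro v hv hDv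
      have hne := Dst_nonempty h.max hv
      refine ⟨fun h0 => absurd h0 hne.ne_empty, fun _ => ?_⟩
      have hvC : v ∉ CN F (Kl Y lev i) := by
        intro h1
        obtain ⟨h2, k, hk⟩ := Dst_low h hi h1
        have h3 := mem_Kl.1 (h2 hk)
        have h4 := mem_Bl.1 (hDv hk)
        omega
      obtain ⟨h1, h2⟩ := Dst_out (W := W) h hZ hvC
      rw [h1]
      have h3 := gr_first (F := F) (s := s) (h2 hv) (by rw [hg]; exact (mem_Rst.1 hv).1)
      rw [hg] at h3
      exact h3
  · rintro ⟨hE, hEv⟩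
    have hYr : ∀ v ∈ Y, rob (FW F W) s W v := by
      intro v hv
      induction hc : (s v).val using Nat.strong_induction_on generalizing v with
      | _ c ih =>
        rw [rob_iff]
        refine ⟨h.Y_sub hv, fun y hy hlt => ?_⟩
        have hyY : y ∉ Y := fun h1 => h.indep v hv y h1 hy.1
        have hadj : ∀ k ∈ Y, (y = k ∨ F.Adj y k) → s k < s y → killed (FW F W) s W y := by
          intro k hk h1 h2
          rcases h1 with h1 | h1
          · rw [← h1] at hk
            exact absurd hk hyY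
          · exact ⟨k, ⟨h1, hy.2.2, h.Y_sub hk⟩, h2,
              ih (s k).val (by rw [← hc]; exact lt_trans h2 hlt) k hk rfl⟩
        by_cases hyC : y ∈ CN F (Kl Y lev i)
        · obtain ⟨t, ht, hyt⟩ := mem_CN.1 hyC
          have hti := mem_Kl.1 ht
          have hiZ : i - 1 ∈ Z := by
            rcases hi with h1 | h1
            · omega
            · exact h1
          have hTt : t ∈ Tr F s (X (i - 1) ∩ Kl Y lev i) := by
            rw [hE _ hiZ, mem_inter]
            exact ⟨hti.1, (h.mem_X hti.1).2 (by omega)⟩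
          have hyt' : F.Adj y t := by
            rcases hyt with h1 | h1
            · rw [h1] at hyY
              exact absurd hti.1 hyY
            · exact h1
          obtain ⟨w, hw, hyw, hlt2⟩ := Tr_first hTt hyt'
          have hwY : w ∈ Y := (mem_Kl.1 (mem_inter.1 (Tr_subset hw)).2).1
          exact hadj w hwY (Or.inr hyw) hlt2
        · have hyR : y ∈ Rst F W X Z Y := mem_Rst.2 ⟨hyY, Or.inl hy.2.2⟩
          obtain ⟨h1, _⟩ := Dst_out (W := W) h hZ hyC
          have hsub : Dst F X Z Y y ⊆ Bl Y lev i (l + 1) := by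
            intro k hk
            have h2 := Dst_high hyC hk
            rw [h1, mem_dn] at hk
            have h3 := hl k (h.Y_sub hk.1)
            exact mem_Bl.2 ⟨hk.1, h2, by omega⟩
          obtain ⟨k, hk, hlt2⟩ := (hEv y hyR hsub).2 (Dst_nonempty h.max hyR).ne_empty
          rw [h1, mem_dn] at hk
          exact hadj k hk.1 hk.2 hlt2
    have hgr : gr F W s = Y := by
      apply Subset.antisymm
      · intro w hw
        by_contra hwY
        obtain ⟨k, hk⟩ := h.max w (gr_subset hw)
        rw [mem_dn] at hk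
        rcases hk.2 with h1 | h1
        · rw [h1] at hwY
          exact hwY hk.1
        · exact rob_indep (mem_gr.1 hw) (hYr k hk.1) ⟨h1, gr_subset hw, h.Y_sub hk.1⟩
      · intro v hv
        exact mem_gr.2 (hYr v hv)
    refine ⟨hgr, fun z hz => Subset.antisymm ?_ ?_⟩
    · rw [Y_inter h z]
      exact Tr_sub_Kl h hgr z
    · rw [← hE z hz]
      exact Tr_mono inter_subset_left

/-- the part of the statistic below the block -/
noncomputable def Gz (F : SimpleGraph V) (X : ℕ → Finset V) (P ν : ℕ → ℕ) (T : Finset V) (i : ℕ)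
    (s : V ≃ Fin n) : ℝ :=
  ∏ j ∈ range i, min 1 (max 0 (bn P ν (fun j => (CN F (Tr F s (X j ∩ T))).card) j))

theorem Gz_nonneg (T : Finset V) : 0 ≤ Gz F X P ν T i s :=
  prod_nonneg fun _ _ => le_min zero_le_one (le_max_left _ _)

theorem bn_congr {P ν C C' : ℕ → ℕ} (j : ℕ) (h : ∀ i, i ≤ j → C i = C' i) :
    bn P ν C j = bn P ν C' j :=
  le_antisymm (bn_mono j fun i hi => (h i hi).le) (bn_mono j fun i hi => (h i hi).ge)

theorem Gz_le (h : Lv F W Y X lev) :
    Gz F X P ν (Kl Y lev i) i s ≤ gn P ν (CY F Y lev) i := by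
  unfold Gz gn
  refine prod_le_prod (fun _ _ => le_min zero_le_one (le_max_left _ _)) fun j _ => ?_
  refine min_le_min le_rfl (max_le_max le_rfl (bn_mono j fun i' _ => ?_))
  exact card_le_card (CN_mono (Tr_subset.trans (X_inter_Kl h i')))

theorem gm_eq_Gz (h : Lv F W Y X lev)
    (hXc : ∀ j, j < l → ((X j).card : ℝ) = Ss P ν j - P j + 1) (hil : i ≤ l)
    (hs : gr F W s = Y) :
    gm F X (fun _ => 1) (fun j => (P j : ℝ)) s i = Gz F X P ν (Kl Y lev i) i s := by
  unfold gm Gz
  refine prod_congr rfl fun j hj => ?_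
  rw [mem_range] at hj
  rw [bm_eq (X := X) (s := s) hXc j (by omega)]
  congr 2
  refine bn_congr j fun i' hi' => ?_
  rw [Tr_restrict (X := X i') ?_ inter_subset_left]
  refine subset_inter Tr_subset ((Tr_sub_Kl h hs i').trans (Kl_mono ?_))
  omega

open Classical in
/-- the number of orders with the right robust sets below the block -/
theorem count_low (h : Lv F W Y X lev) (hi : i = 0 ∨ i - 1 ∈ Z) :
    ((univ.filter fun s : V ≃ Fin n => ∀ z ∈ Z, Tr F s (X z ∩ Kl Y lev i) = Y ∩ X z).card : ℝ) ≤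
      (Fintype.card (V ≃ Fin n) : ℝ) * Ival (mZ F W X Z Y) (Kl Y lev i) := by
  have h1 := perm_le (n := n) (Rst F W X Z Y) (Dst F X Z Y) (Kl Y lev i)
    (disjoint_left.2 fun v hv hv' => (mem_Rst.1 hv).1 (mem_Kl.1 hv').1) (mZ F W X Z Y)
    (fun _ _ => rfl)
  refine le_trans ?_ h1
  have h2 : (univ.filter fun s : V ≃ Fin n =>
      ∀ z ∈ Z, Tr F s (X z ∩ Kl Y lev i) = Y ∩ X z) ⊆
      univ.filter fun s : V ≃ Fin n => Ev (Rst F W X Z Y) (Dst F X Z Y) (Kl Y lev i) s := by
    intro s hs
    rw [mem_filter] at hs ⊢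
    refine ⟨mem_univ s, fun v hv hDv => ?_⟩
    have hne := Dst_nonempty h.max hv
    refine ⟨fun h0 => absurd h0 hne.ne_empty, fun _ => ?_⟩
    rcases first_or_none (F := F) (X := X) (Z := Z) (Y := Y) v with ⟨z, hz, h3, h4⟩ | h3
    · rw [Dst_of_first hz h3 h4]
      obtain ⟨k, hk⟩ := h3
      rw [mem_inter, mem_dn] at hk
      have hkT : k ∈ Tr F s (X z ∩ Kl Y lev i) := by
        rw [hs.2 z hz, mem_inter]
        exact ⟨hk.1.1, hk.2⟩
      have hadj : F.Adj v k := by
        rcases hk.1.2 with h5 | h5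
        · rw [← h5] at hk
          exact absurd hk.1.1 (mem_Rst.1 hv).1
        · exact h5
      obtain ⟨w, hw, hvw, hlt⟩ := Tr_first hkT hadj
      rw [hs.2 z hz, mem_inter] at hw
      exact ⟨w, mem_inter.2 ⟨mem_dn.2 ⟨hw.1, Or.inr hvw⟩, hw.2⟩, hlt⟩
    · exfalso
      obtain ⟨k, hk⟩ := hne
      have h4 := mem_Kl.1 (hDv hk)
      have hiZ : i - 1 ∈ Z := by
        rcases hi with h5 | h5
        · omega
        · exact h5
      exact h3 _ hiZ ⟨k, mem_inter.2 ⟨Dst_subset v hk, (h.mem_X h4.1).2 (by omega)⟩⟩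
  exact_mod_cast card_le_card h2

/-- the first factor of the block -/
theorem bm_start (h : Lv F W Y X lev) (hP : ∀ j, 0 < P j) (hm : ∀ j, P j < P (j + 1))
    (hcap : Cp F W Y lev P l)
    (hXc : ∀ j, j < l → ((X j).card : ℝ) = Ss P ν j - P j + 1) (hil : i < l)
    (hi : i = 0 ∨ xY Y lev ν (i - 1) = 0)
    (hx : ∀ j, j < l → Nn ν j ≤ (Kl Y lev (j + 1)).card) (hs : gr F W s = Y) :
    bm F X (fun _ => 1) (fun j => (P j : ℝ)) s i =
      (((CN F (Tr F s (X i))).card : ℝ) - Ss P ν i + P i) / P i := by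
  rw [bm_eq (X := X) (s := s) hXc i hil]
  rcases i with _ | j
  · rfl
  · change (((CN F (Tr F s (X (j + 1)))).card : ℝ) - Ss P ν (j + 1) + P (j + 1)) / P (j + 1) +
      1 / P (j + 1) * max (bn P ν (fun i => (CN F (Tr F s (X i))).card) j - 1) 0 = _
    have h0 : xY Y lev ν j = 0 := by
      rcases hi with h1 | h1
      · omega
      · simpa using h1
    have h1 : bn P ν (fun i => (CN F (Tr F s (X i))).card) j ≤ bn P ν (CY F Y lev) j :=
      bn_mono j fun i _ => card_le_card (CN_mono (Tr_sub_Kl h hs i))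
    have h2 := bn_le (ν := ν) (C := CY F Y lev) (x := xY Y lev ν) hP hm j (fun j' hj' =>
      (blk h hP hm hcap hx).G j' (by omega))
    rw [h0] at h2
    push_cast at h2
    rw [max_eq_right (by linarith), mul_zero, add_zero]

end

section

variable {V : Type} [DecidableEq V] [Fintype V] {F : SimpleGraph V} {W Y : Finset V}
  {X : ℕ → Finset V} {lev : V → ℕ} {P ν : ℕ → ℕ} {l n k : ℕ}

/-- the linear last factor, one low level -/
theorem link_lin (h : Lv F W Y X lev) (hP : ∀ j, 0 < P j) (hm : ∀ j, P j < P (j + 1))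
    (hcap : Cp F W Y lev P l)
    (hXc : ∀ j, j < l → ((X j).card : ℝ) = Ss P ν j - P j + 1) (hkl : l = k + 1)
    (hk : k = 0 ∨ xY Y lev ν (k - 1) = 0) (hxk : xY Y lev ν k ≠ 0)
    (hx : ∀ j, j < l → Nn ν j ≤ (Kl Y lev (j + 1)).card) :
    ∑ s ∈ univ.filter (fun s : V ≃ Fin n => gr F W s = Y),
        RL F X (fun _ => 1) (fun j => (P j : ℝ)) s l ≤
      (Fintype.card (V ≃ Fin n) : ℝ) *
        (gn P ν (CY F Y lev) k * Ival (mZ F W X (ZY Y lev ν l) Y) (Kl Y lev k)) *
        (max 0 (∑ u ∈ Bl Y lev k l,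
            Ival (mZ F W X (ZY Y lev ν l) Y) ((Bl Y lev k (l + 1)).erase u) +
          (((CN F (Kl Y lev k)).card : ℝ) - Ss P ν k + P k) *
            Ival (mZ F W X (ZY Y lev ν l) Y) (Bl Y lev k (l + 1))) / P k) := by
  classical
  have hl := hcap.le
  have hPk : (0 : ℝ) < P k := by exact_mod_cast hP k
  have hkl' : k < l := by omega
  set Z := ZY Y lev ν l with hZdef
  have hZ : ∀ z ∈ Z, z < k := by
    intro z hz
    rw [hZdef] at hz
    unfold ZY at hz
    rw [mem_filter, mem_range] at hz
    rcases Nat.lt_or_ge z k with h1 | h1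
    · exact h1
    · have : z = k := by omega
      rw [this] at hz
      exact absurd hz.2 hxk
  have hi' : k = 0 ∨ k - 1 ∈ Z := start_mem (l := l) hkl'.le hk
  set T := Kl Y lev k with hT
  set U := Bl Y lev k (l + 1) with hU
  set m := mZ F W X Z Y with hmdef
  set R := Rst F W X Z Y with hR
  set D := Dst F X Z Y with hD
  set κ : ℝ := ((CN F T).card : ℝ) - Ss P ν k + P k with hκ
  set E : (V ≃ Fin n) → Prop := fun s => ∀ z ∈ Z, Tr F s (X z ∩ T) = Y ∩ X z with hE
  set G : (V ≃ Fin n) → ℝ := fun s => if E s then Gz F X P ν T k s else 0 with hG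
  have hG0 : ∀ s, 0 ≤ G s := by
    intro s
    simp only [hG]
    split_ifs
    · exact Gz_nonneg T
    · exact le_rfl
  -- the weight does not depend on the places of the other vertices
  have hGsw : ∀ s : V ≃ Fin n, ∀ a b, a ∉ CN F T → b ∉ CN F T → G (sw s a b) = G s := by
    intro s a b ha hb
    have h1 : ∀ j, Tr F (sw s a b) (X j ∩ T) = Tr F s (X j ∩ T) := fun j =>
      Tr_sw ha hb inter_subset_right
    simp only [hG, hE, Gz, h1]
  have hUT : ∀ u ∈ U, u ∉ CN F T := by
    intro u hu hu'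
    obtain ⟨t, ht, h1⟩ := mem_CN.1 hu'
    rw [hU, mem_Bl] at hu
    rw [hT, mem_Kl] at ht
    rcases h1 with h1 | h1
    · rw [h1] at hu
      omega
    · exact h.indep u hu.1 t ht.1 h1
  set Q : Finset V := univ.filter fun v => v ∉ CN F T with hQdef
  -- the weighted number of orders
  have hperm : ∀ A ⊆ U, ∑ s ∈ univ.filter (fun s : V ≃ Fin n => Ev R D A s), G s =
      Ival m A * ∑ s : V ≃ Fin n, G s := by
    intro A hA
    refine perm_eq R Q D m G ?_ A ?_ ?_ ?_ (fun _ _ => rfl)
    · intro s a ha b hb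
      rw [hQdef, mem_filter] at ha hb
      exact hGsw s a b ha.2 hb.2
    · intro v hv
      rw [hQdef, mem_filter]
      exact ⟨mem_univ _, hUT v (hA hv)⟩
    · rw [disjoint_left]
      intro v hv hv'
      have h1 := hA hv'
      rw [hU, mem_Bl] at h1
      exact (mem_Rst.1 hv).1 h1.1
    · intro v hv hDv
      have hne := Dst_nonempty h.max hv
      refine ⟨?_, hne⟩
      rw [hQdef, mem_filter]
      refine ⟨mem_univ _, fun h1 => ?_⟩
      obtain ⟨h2, w, hw⟩ := Dst_low h hi' h1
      have h3 := mem_Kl.1 (h2 hw)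
      have h4 := hA (hDv hw)
      rw [hU, mem_Bl] at h4
      omega
  -- the number of vertices
  set C : (V ≃ Fin n) → Finset V := fun s => CN F (Tr F s (X k)) \ CN F T with hC
  have hmain : ∑ s ∈ univ.filter (fun s : V ≃ Fin n => gr F W s = Y),
        RL F X (fun _ => 1) (fun j => (P j : ℝ)) s l ≤
      (∑ s : V ≃ Fin n, (if Ev R D U s then G s else 0) * ((C s).card : ℝ) +
        κ * ∑ s ∈ univ.filter (fun s : V ≃ Fin n => Ev R D U s), G s) / P k := by
    have h1 : ∀ s ∈ univ.filter (fun s : V ≃ Fin n => gr F W s = Y),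
        RL F X (fun _ => 1) (fun j => (P j : ℝ)) s l ≤
          if (∀ z ∈ Z, Tr F s (X z) = Y ∩ X z) then
            Gz F X P ν T k s * ((((C s).card : ℝ) + κ) / P k) else 0 := by
      intro s hs
      have hs' := (mem_filter.1 hs).2
      split_ifs with h2
      · rw [hkl]
        change bm F X (fun _ => 1) (fun j => (P j : ℝ)) s k *
          gm F X (fun _ => 1) (fun j => (P j : ℝ)) s k ≤ _
        rw [gm_eq_Gz h hXc hkl'.le hs', bm_start h hP hm hcap hXc hkl' hk hx hs', mul_comm]
        refine le_of_eq ?_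
        congr 2
        have hTs : T ⊆ Tr F s (X k) := by
          rcases Nat.eq_zero_or_pos k with h0 | h0
          · rw [hT, h0, Kl_zero]
            exact empty_subset _
          · have hkZ : k - 1 ∈ Z := by
              rcases hi' with h3 | h3
              · omega
              · exact h3
            have h3 := h2 _ hkZ
            rw [Y_inter h, show k - 1 + 1 = k by omega] at h3
            rw [hT, ← h3]
            refine Tr_mono ?_
            intro v hv
            rw [h.X_eq, mem_filter] at hv ⊢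
            exact ⟨hv.1, by omega⟩
        have h3 : ((C s).card : ℝ) = ((CN F (Tr F s (X k))).card : ℝ) - (CN F T).card := by
          have h4 := CN_mono (F := F) hTs
          simp only [hC]
          rw [card_sdiff_of_subset h4, Nat.cast_sub (card_le_card h4)]
        rw [h3, hκ]
        ring
      · refine (RL_le_RM _ _ _ _ _).trans ?_
        by_contra hcon
        push Not at hcon
        apply h2
        intro z hz
        rw [hZdef] at hz
        unfold ZY at hz
        rw [mem_filter, mem_range] at hz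
        have h3 := Tr_card h.X_eq hP hm hcap.lo hXc hcon z hz.1
        rw [Y_inter h z]
        refine eq_of_subset_of_card_le (Tr_sub_Kl h hs' z) ?_
        have h4 := card_le_card (Tr_sub_Kl h hs' z)
        have h5 := xY_eq (Y := Y) (lev := lev) (ν := ν) (j := z) (h3.trans h4)
        omega
    refine (sum_le_sum h1).trans (le_of_eq ?_)
    rw [← sum_filter, filter_filter]
    have h2 : univ.filter (fun s : V ≃ Fin n => gr F W s = Y ∧ ∀ z ∈ Z, Tr F s (X z) = Y ∩ X z) =
        univ.filter (fun s : V ≃ Fin n => E s ∧ Ev R D U s) := by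
      ext s
      rw [mem_filter, mem_filter]
      refine and_congr_right fun _ => ?_
      exact ev_iff h hl hi' hZ s
    rw [h2, sum_filter]
    have h3 : ∀ s : V ≃ Fin n, (if E s ∧ Ev R D U s then
        Gz F X P ν T k s * ((((C s).card : ℝ) + κ) / P k) else 0) =
        ((if Ev R D U s then G s else 0) * ((C s).card : ℝ) +
          κ * (if Ev R D U s then G s else 0)) / P k := by
      intro s
      simp only [hG]
      by_cases h4 : E s
      · by_cases h5 : Ev R D U s
        · rw [if_pos ⟨h4, h5⟩, if_pos h5, if_pos h4]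
          ring
        · rw [if_neg fun h6 => h5 h6.2, if_neg h5]
          ring
      · rw [if_neg fun h6 => h4 h6.1, if_neg h4]
        simp
    rw [sum_congr rfl fun s _ => h3 s, ← sum_div, sum_add_distrib, ← mul_sum, ← sum_filter]
  -- the interchange
  have hinj : ∑ s : V ≃ Fin n, (if Ev R D U s then G s else 0) * ((C s).card : ℝ) ≤
      ∑ u ∈ Bl Y lev k l, ∑ s : V ≃ Fin n, if Ev R D (U.erase u) s then G s else 0 := by
    refine robust_inj (F := F) (X k) (Bl Y lev k l) C ?_ _
      (fun u s => if Ev R D (U.erase u) s then G s else 0) ?_ ?_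
    · intro s z hz
      simp only [hC] at hz
      obtain ⟨w, hw, h1⟩ := mem_CN.1 (mem_sdiff.1 hz).1
      exact ⟨w, mem_Tr.1 hw, h1⟩
    · intro u s
      split_ifs
      · exact hG0 s
      · exact le_rfl
    · intro s z hz u hu hne
      simp only [hC] at hz
      have hzT := (mem_sdiff.1 hz).2
      have hEvs : Ev R D U s := by
        by_contra hcon
        rw [if_neg hcon] at hne
        exact hne rfl
      rw [if_pos hEvs] at hne
      have hEs : E s := by
        by_contra hcon
        simp only [hG] at hne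
        rw [if_neg hcon] at hne
        exact hne rfl
      obtain ⟨hgr, htr⟩ := (ev_iff h hl hi' hZ s).2 ⟨hEs, hEvs⟩
      -- `u` is an element of level `k`
      have huK : u ∈ Kl Y lev (k + 1) := Tr_sub_Kl h hgr k (mem_Tr.2 hu.1)
      have huz : z = u ∨ F.Adj z u := hu.2.imp id fun h => h.1
      have huT : u ∉ T := fun h1 => hzT (mem_CN.2 ⟨u, h1, huz⟩)
      have huk : u ∈ Bl Y lev k l := by
        rw [mem_Kl] at huK
        rw [hT, mem_Kl] at huT
        rw [mem_Bl]
        refine ⟨huK.1, ?_, by omega⟩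
        by_contra h1
        exact huT ⟨huK.1, by omega⟩
      have huU : u ∈ U := by
        rw [mem_Bl] at huk
        rw [hU, mem_Bl]
        exact ⟨huk.1, huk.2.1, by omega⟩
      refine ⟨huk, ?_⟩
      have huY : u ∈ Y := (mem_Bl.1 huk).1
      have hEv' : Ev R D (U.erase u) (sw s u z) := by
        intro v hv hDv
        have hne' := Dst_nonempty h.max hv
        refine ⟨fun h0 => absurd h0 hne'.ne_empty, fun _ => ?_⟩
        obtain ⟨w, hw, hlt⟩ := (hEvs v hv (hDv.trans (erase_subset _ _))).2 hne'.ne_empty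
        have hwu := mem_erase.1 (hDv hw)
        have hvu : v ≠ u := by
          rintro rfl
          exact (mem_Rst.1 hv).1 huY
        have hvz : v ≠ z := by
          rintro rfl
          have h1 : D v = dn F Y v := (Dst_out (W := W) h hZ hzT).1
          have h2 : u ∈ D v := by
            rw [h1]
            exact mem_dn.2 ⟨huY, huz⟩
          exact absurd (mem_erase.1 (hDv h2)).1 (by simp)
        have hwz : w ≠ z := by
          rintro rfl
          have hwU := hwu.2
          rw [hU, mem_Bl] at hwU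
          rcases huz with h1 | h1
          · exact hwu.1 h1
          · exact h.indep w hwU.1 u huY h1
        refine ⟨w, hw, ?_⟩
        rw [sw_ne hwu.1 hwz, sw_ne hvu hvz]
        exact hlt
      change (if Ev R D U s then G s else 0) ≤
        if Ev R D (U.erase u) (sw s u z) then G (sw s u z) else 0
      rw [if_pos hEvs, if_pos hEv', hGsw s u z (hUT u huU) hzT]
  -- the sum of the weights
  have hS0 : 0 ≤ ∑ s : V ≃ Fin n, G s := sum_nonneg fun s _ => hG0 s
  have hS : ∑ s : V ≃ Fin n, G s ≤ (Fintype.card (V ≃ Fin n) : ℝ) *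
      (gn P ν (CY F Y lev) k * Ival m T) := by
    have h1 : ∑ s : V ≃ Fin n, G s ≤
        ∑ s : V ≃ Fin n, if E s then gn P ν (CY F Y lev) k else 0 := by
      refine sum_le_sum fun s _ => ?_
      simp only [hG]
      split_ifs
      · exact Gz_le h
      · exact le_rfl
    refine h1.trans ?_
    rw [← sum_filter, sum_const, nsmul_eq_mul]
    have h2 := count_low (n := n) (W := W) h hi'
    calc ((univ.filter fun s : V ≃ Fin n => E s).card : ℝ) * gn P ν (CY F Y lev) k
        ≤ ((Fintype.card (V ≃ Fin n) : ℝ) * Ival m T) * gn P ν (CY F Y lev) k :=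
          mul_le_mul_of_nonneg_right h2 (gn_nonneg _ _ _ _)
      _ = _ := by ring
  set B : ℝ := ∑ u ∈ Bl Y lev k l, Ival m (U.erase u) + κ * Ival m U with hB
  have hlast : ∑ s ∈ univ.filter (fun s : V ≃ Fin n => gr F W s = Y),
        RL F X (fun _ => 1) (fun j => (P j : ℝ)) s l ≤ (∑ s : V ≃ Fin n, G s) * (B / P k) := by
    refine hmain.trans ?_
    rw [hperm U Subset.rfl, ← mul_div_assoc]
    refine div_le_div_of_nonneg_right ?_ hPk.le
    have h1 : ∑ u ∈ Bl Y lev k l, ∑ s : V ≃ Fin n, (if Ev R D (U.erase u) s then G s else 0) =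
        (∑ u ∈ Bl Y lev k l, Ival m (U.erase u)) * ∑ s : V ≃ Fin n, G s := by
      rw [sum_mul]
      refine sum_congr rfl fun u _ => ?_
      rw [← sum_filter]
      exact hperm _ (erase_subset _ _)
    rw [h1] at hinj
    rw [hB]
    linarith
  refine hlast.trans ?_
  have h1 : (∑ s : V ≃ Fin n, G s) * (B / P k) ≤ (∑ s : V ≃ Fin n, G s) * (max 0 B / P k) :=
    mul_le_mul_of_nonneg_left (div_le_div_of_nonneg_right (le_max_right _ _) hPk.le) hS0
  exact h1.trans (mul_le_mul_of_nonneg_right hS (div_nonneg (le_max_left _ _) hPk.le))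

end

end MP76b19e.Rob
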