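import Pool.Agent.Lib.MP76b19e.Rob.TopB
import Pool.Agent.Lib.MP76b19e.Rob.FinX

/-!
# Masses of lows and tops (problem MP_76b19e_co)

`L` lows, `T` tops, `m` masses of the subsets of `L ∪ T`. Sums of the masses seen by the lows and
by the tops, and crude bounds for the overlaps.
-/

set_option autoImplicit false

open Finset

namespace MP76b19e.Rob

variable {V : Type} [DecidableEq V] {m : Finset V → ℝ} {L T : Finset V}

/-- the masses seen by the lows -/
theorem sum_pa_low (m : Finset V → ℝ) (hLT : Disjoint L T) :
    ∑ j ∈ L, pa m (L ∪ T) j = pal m (L ∪ T) - pal m T + po (push m T) L := by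
  have h1 := sum_pa (m := push m T) (K := L)
  rw [pal_push hLT, push_base] at h1
  rw [← h1]
  exact sum_congr rfl fun j hj => (pa_push m hLT (disjoint_left.1 hLT hj)).symm

/-- the masses seen by the lows, without the private ones -/
theorem sum_pa_sub (m : Finset V → ℝ) (hLT : Disjoint L T) :
    ∑ j ∈ L, (pa m (L ∪ T) j - push m T {j}) =
      pN (push m T) L + po (push m T) L := by
  have h1 := sum_pa (m := push m T) (K := L)
  have h2 := pal_eq (m := push m T) (K := L)
  have h3 : ∑ j ∈ L, pa m (L ∪ T) j = ∑ j ∈ L, pa (push m T) L j :=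
    sum_congr rfl fun j hj => (pa_push m hLT (disjoint_left.1 hLT hj)).symm
  rw [sum_sub_distrib, h3, h1, h2]
  ring

/-- the overlaps of the lows without one of them -/
theorem pom_le_po (h : ∀ D, 0 ≤ m D) (K : Finset V) (j : V) : pom m K j ≤ po m K := by
  unfold pom po
  refine sum_le_sum fun D _ => mul_le_mul_of_nonneg_right ?_ (h D)
  have h1 := card_erase_le (s := D) (a := j)
  exact_mod_cast (by omega : (D.erase j).card - 1 ≤ D.card - 1)

theorem pN_le_po (h : ∀ D, 0 ≤ m D) (K : Finset V) : pN m K ≤ po m K := by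
  rw [po_eq]
  have := pt_nonneg (K := K) h
  linarith

/-- the mass that a top shares with the lows is at least the part shared with one low only -/
theorem sum_shared_le (h : ∀ D, 0 ≤ m D) (hLT : Disjoint L T) :
    ∑ j ∈ L, (push m T {j} - m {j}) ≤ ∑ k ∈ T, (pa m (L ∪ T) k - pa m T k) := by
  classical
  -- the sets `{j} ∪ E`
  have h1 : ∀ j ∈ L, push m T {j} - m {j} ≤
      ∑ E ∈ T.powerset, (E.card : ℝ) * m ({j} ∪ E) := by
    intro j _
    unfold push
    rw [← sum_erase_add _ _ (empty_mem_powerset T), union_empty, add_sub_cancel_right]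
    refine le_trans (sum_le_sum fun E hE => ?_) (sum_le_sum_of_subset_of_nonneg
      (erase_subset _ _) fun E _ _ => mul_nonneg (Nat.cast_nonneg _) (h _))
    rw [mem_erase] at hE
    have h2 : 1 ≤ E.card := card_pos.2 (nonempty_iff_ne_empty.2 hE.1)
    have h3 : (1 : ℝ) ≤ (E.card : ℝ) := by exact_mod_cast h2
    have h4 := h ({j} ∪ E)
    nlinarith
  refine (sum_le_sum h1).trans ?_
  have h2 : ∀ k ∈ T, ∑ j ∈ L, ∑ E ∈ T.powerset, (if k ∈ E then m ({j} ∪ E) else 0) ≤
      pa m (L ∪ T) k - pa m T k := by
    intro k hk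
    unfold pa
    have hsub : T.powerset ⊆ (L ∪ T).powerset := powerset_mono.2 subset_union_right
    rw [← sum_sdiff hsub, add_sub_cancel_right, ← sum_product']
    refine le_trans (le_of_eq ?_) (sum_le_sum_of_subset_of_nonneg
      (s := (L ×ˢ T.powerset).image fun x => {x.1} ∪ x.2) ?_ ?_)
    · rw [sum_image]
      · refine sum_congr rfl fun x hx => ?_
        rw [mem_product] at hx
        have hxk : k ∉ ({x.1} : Finset V) := by
          rw [mem_singleton]
          rintro rfl
          exact disjoint_left.1 hLT hx.1 hk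
        by_cases hkE : k ∈ x.2
        · rw [if_pos hkE, if_pos (mem_union_right _ hkE)]
        · rw [if_neg hkE, if_neg]
          intro h5
          rcases mem_union.1 h5 with h6 | h6
          · exact hxk h6
          · exact hkE h6
      · intro x hx y hy hxy
        rw [mem_coe, mem_product, mem_powerset] at hx hy
        change {x.1} ∪ x.2 = {y.1} ∪ y.2 at hxy
        have e1 : x.1 ∈ {y.1} ∪ y.2 := by
          rw [← hxy]
          exact mem_union_left _ (mem_singleton_self _)
        have hx1 : x.1 ∉ y.2 := fun h5 => disjoint_left.1 hLT hx.1 (hy.2 h5)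
        have e2 : x.1 = y.1 := by
          rcases mem_union.1 e1 with h5 | h5
          · exact mem_singleton.1 h5
          · exact absurd h5 hx1
        have e3 : x.2 = y.2 := by
          ext v
          constructor
          · intro hv
            have h5 : v ∈ {y.1} ∪ y.2 := by
              rw [← hxy]
              exact mem_union_right _ hv
            rcases mem_union.1 h5 with h6 | h6
            · rw [mem_singleton] at h6
              rw [h6, ← e2] at hv
              exact absurd (hx.2 hv) (disjoint_left.1 hLT hx.1)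
            · exact h6
          · intro hv
            have h5 : v ∈ {x.1} ∪ x.2 := by
              rw [hxy]
              exact mem_union_right _ hv
            rcases mem_union.1 h5 with h6 | h6
            · rw [mem_singleton] at h6
              rw [h6, e2] at hv
              exact absurd (hy.2 hv) (disjoint_left.1 hLT hy.1)
            · exact h6
        exact Prod.ext e2 e3
    · intro D hD
      rw [mem_image] at hD
      obtain ⟨x, hx, rfl⟩ := hD
      rw [mem_product, mem_powerset] at hx
      rw [mem_sdiff, mem_powerset, mem_powerset]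
      refine ⟨union_subset (singleton_subset_iff.2 (mem_union_left _ hx.1))
        (hx.2.trans subset_union_right), fun h5 => ?_⟩
      exact disjoint_left.1 hLT hx.1 (h5 (mem_union_left _ (mem_singleton_self _)))
    · intro D _ _
      split_ifs
      · exact h D
      · exact le_rfl
  refine le_trans (le_of_eq ?_) (sum_le_sum h2)
  rw [sum_comm (s := T)]
  refine sum_congr rfl fun j _ => ?_
  rw [sum_comm (s := T)]
  refine sum_congr rfl fun E hE => ?_
  rw [mem_powerset] at hE
  rw [← sum_filter, sum_const, nsmul_eq_mul]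
  congr 2
  congr 1
  ext v
  rw [mem_filter]
  exact ⟨fun hv => ⟨hE hv, hv⟩, fun hv => hv.2⟩

/-- overlaps without one element: crude bound -/
theorem pom_le_crude (h : ∀ D, 0 ≤ m D) {K : Finset V} {k : V} (hk : k ∈ K) (hK : 2 ≤ K.card)
    {B : ℝ} (hB : ∀ i ∈ K, pa m K i - m {i} ≤ B) : pom m K k ≤ ((K.card : ℝ) - 2) * B := by
  have hc : ((K.erase k).card : ℝ) = (K.card : ℝ) - 1 := by
    rw [card_erase_of_mem hk, Nat.cast_sub (by omega)]
    simp
  have h1 : ∑ i ∈ K.erase k, (pa m K i - m {i}) ≤ ((K.card : ℝ) - 1) * B := by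
    rw [← hc, ← nsmul_eq_mul, ← sum_const]
    exact sum_le_sum fun i hi => hB i (mem_of_mem_erase hi)
  have h2 : ∑ i ∈ K.erase k, (pa m K i - m {i}) =
      ∑ D ∈ K.powerset, (((D.erase k).card : ℝ) * m D - if D.card = 1 ∧ k ∉ D then m D else 0) := by
    rw [sum_sub_distrib, sum_sub_distrib]
    congr 1
    · unfold pa
      rw [sum_comm]
      refine sum_congr rfl fun D hD => ?_
      rw [mem_powerset] at hD
      rw [← sum_filter, sum_const, nsmul_eq_mul]
      congr 2
      congr 1
      ext v
      rw [mem_filter, mem_erase, mem_erase]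
      exact ⟨fun hv => ⟨hv.1.1, hv.2⟩, fun hv => ⟨⟨hv.1, hD hv.2⟩, hv.2⟩⟩
    · rw [← sum_filter]
      have h3 : K.powerset.filter (fun D => D.card = 1 ∧ k ∉ D) =
          (K.erase k).image (fun i => ({i} : Finset V)) := by
        ext D
        rw [mem_filter, mem_powerset, mem_image]
        constructor
        · rintro ⟨h4, h5, h6⟩
          obtain ⟨i, rfl⟩ := card_eq_one.1 h5
          refine ⟨i, mem_erase.2 ⟨?_, h4 (mem_singleton_self i)⟩, rfl⟩
          rintro rfl
          exact h6 (mem_singleton_self i)
        · rintro ⟨i, hi, rfl⟩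
          rw [mem_erase] at hi
          refine ⟨singleton_subset_iff.2 hi.2, card_singleton i, ?_⟩
          rw [mem_singleton]
          exact fun h4 => hi.1 h4.symm
      rw [h3, sum_image]
      intro i _ j _ hij
      exact singleton_injective hij
  have h3 : ((K.card : ℝ) - 1) * pom m K k ≤
      ((K.card : ℝ) - 2) * ∑ i ∈ K.erase k, (pa m K i - m {i}) := by
    rw [h2]
    unfold pom
    rw [mul_sum, mul_sum]
    refine sum_le_sum fun D hD => ?_
    rw [mem_powerset] at hD
    have hDc : (D.erase k).card ≤ K.card - 1 := by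
      rw [← card_erase_of_mem hk]
      exact card_le_card (erase_subset_erase k hD)
    have hmD := h D
    have hK' : (2 : ℝ) ≤ (K.card : ℝ) := by exact_mod_cast hK
    rcases Nat.lt_or_ge (D.erase k).card 2 with h4 | h4
    · have h5 : (D.erase k).card - 1 = 0 := by omega
      rw [h5, Nat.cast_zero, zero_mul, mul_zero]
      refine mul_nonneg (by linarith) ?_
      split_ifs with h6
      · have h7 : (D.erase k).card = 1 := by rw [erase_eq_of_notMem h6.2, h6.1]
        rw [h7]
        simp
      · have : (0 : ℝ) ≤ ((D.erase k).card : ℝ) := Nat.cast_nonneg _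
        nlinarith [mul_nonneg this hmD]
    · have h5 : ¬ (D.card = 1 ∧ k ∉ D) := by
        rintro ⟨h6, h7⟩
        rw [erase_eq_of_notMem h7, h6] at h4
        omega
      rw [if_neg h5, sub_zero, Nat.cast_sub (by omega)]
      push_cast
      have h6 : ((D.erase k).card : ℝ) ≤ (K.card : ℝ) - 1 := by
        have : ((D.erase k).card : ℝ) ≤ ((K.card - 1 : ℕ) : ℝ) := by exact_mod_cast hDc
        rwa [Nat.cast_sub (by omega), Nat.cast_one] at this
      have h7 : ((K.card : ℝ) - 1) * (((D.erase k).card : ℝ) - 1) ≤
          ((K.card : ℝ) - 2) * ((D.erase k).card : ℝ) := by nlinarith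
      nlinarith
  have hK' : (2 : ℝ) ≤ (K.card : ℝ) := by exact_mod_cast hK
  have h4 : ((K.card : ℝ) - 1) * pom m K k ≤ ((K.card : ℝ) - 2) * (((K.card : ℝ) - 1) * B) :=
    h3.trans (mul_le_mul_of_nonneg_left h1 (by linarith))
  have h5 : ((K.card : ℝ) - 1) * pom m K k ≤ ((K.card : ℝ) - 1) * (((K.card : ℝ) - 2) * B) := by
    linarith
  exact le_of_mul_le_mul_left h5 (by linarith)

/-- higher overlaps: crude bound -/
theorem pt_le_crude (h : ∀ D, 0 ≤ m D) {K : Finset V} (hK : 2 ≤ K.card)
    {B : ℝ} (hB : ∀ i ∈ K, pa m K i - m {i} ≤ B) : pt m K ≤ ((K.card : ℝ) - 2) * B := by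
  have h1 : ∑ i ∈ K, (pa m K i - m {i}) ≤ (K.card : ℝ) * B := by
    rw [← nsmul_eq_mul, ← sum_const]
    exact sum_le_sum fun i hi => hB i hi
  have h2 : ∑ i ∈ K, (pa m K i - m {i}) =
      ∑ D ∈ K.powerset, ((D.card : ℝ) * m D - if D.card = 1 then m D else 0) := by
    rw [sum_sub_distrib, sum_sub_distrib]
    congr 1
    · unfold pa
      rw [sum_comm]
      refine sum_congr rfl fun D hD => ?_
      rw [mem_powerset] at hD
      rw [← sum_filter, sum_const, nsmul_eq_mul]
      congr 2
      congr 1
      ext v
      rw [mem_filter]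
      exact ⟨fun hv => hv.2, fun hv => ⟨hD hv, hv⟩⟩
    · rw [← sum_filter]
      have h3 : K.powerset.filter (fun D => D.card = 1) = K.image (fun i => ({i} : Finset V)) := by
        ext D
        rw [mem_filter, mem_powerset, mem_image]
        constructor
        · rintro ⟨h4, h5⟩
          obtain ⟨i, rfl⟩ := card_eq_one.1 h5
          exact ⟨i, h4 (mem_singleton_self i), rfl⟩
        · rintro ⟨i, hi, rfl⟩
          exact ⟨singleton_subset_iff.2 hi, card_singleton i⟩
      rw [h3, sum_image]
      intro i _ j _ hij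
      exact singleton_injective hij
  have h3 : (K.card : ℝ) * pt m K ≤ ((K.card : ℝ) - 2) * ∑ i ∈ K, (pa m K i - m {i}) := by
    rw [h2]
    unfold pt
    rw [mul_sum, mul_sum]
    refine sum_le_sum fun D hD => ?_
    rw [mem_powerset] at hD
    have hDc := card_le_card hD
    have hmD := h D
    have hK' : (2 : ℝ) ≤ (K.card : ℝ) := by exact_mod_cast hK
    have hDc' : (D.card : ℝ) ≤ (K.card : ℝ) := by exact_mod_cast hDc
    rcases Nat.lt_or_ge D.card 2 with h4 | h4
    · have h5 : D.card - 2 = 0 := by omega
      rw [h5, Nat.cast_zero, zero_mul, mul_zero]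
      refine mul_nonneg (by linarith) ?_
      split_ifs with h6
      · rw [h6]
        simp
      · have : (0 : ℝ) ≤ (D.card : ℝ) := Nat.cast_nonneg _
        nlinarith [mul_nonneg this hmD]
    · rw [if_neg (by omega), sub_zero, Nat.cast_sub (by omega)]
      push_cast
      have h7 : (K.card : ℝ) * ((D.card : ℝ) - 2) ≤ ((K.card : ℝ) - 2) * (D.card : ℝ) := by
        nlinarith
      nlinarith
  have hK' : (2 : ℝ) ≤ (K.card : ℝ) := by exact_mod_cast hK
  have h4 : (K.card : ℝ) * pt m K ≤ ((K.card : ℝ) - 2) * ((K.card : ℝ) * B) :=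
    h3.trans (mul_le_mul_of_nonneg_left h1 (by linarith))
  have h5 : (K.card : ℝ) * pt m K ≤ (K.card : ℝ) * (((K.card : ℝ) - 2) * B) := by linarith
  exact le_of_mul_le_mul_left h5 (by linarith)

end MP76b19e.Rob
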