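import Pool.Agent.Lib.MP76b19e.Rob.Fill
import Pool.Agent.Lib.MP76b19e.Rob.ZeroL

/-!
# The filling method for the last block (problem MP_76b19e_co)

`fill_blockY`: (V**) when all the elements of `Y \ T` are filled (also those outside `K`).
`mixed_fill`: the local inequality follows from a numerical inequality for the block of the levels
`i, ..., l` after the last zero.
-/

set_option autoImplicit false

open Finset

namespace MP76b19e.Rob

section

variable {V : Type} [DecidableEq V] {m : Finset V → ℝ}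

theorem pal_fillM' {U A : Finset V} (γ : V → ℝ) (hA : A ⊆ U) :
    pal (fillM m γ U) A = pal m A + ∑ u ∈ A, γ u := by
  unfold pal fillM
  rw [sum_add_distrib, sum_comm]
  congr 1
  have h1 : ∀ u ∈ U, (∑ D ∈ A.powerset, if D = {u} then γ u else 0) =
      if u ∈ A then γ u else 0 := by
    intro u _
    rw [sum_ite_eq' (A.powerset) {u}]
    simp only [mem_powerset, singleton_subset_iff]
  rw [sum_congr rfl h1, ← sum_filter]
  congr 1
  ext u
  rw [mem_filter]
  exact ⟨fun h => h.2, fun h => ⟨hA h, h⟩⟩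

end

section

variable {V β : Type} [DecidableEq V] [DecidableEq β] [Fintype V] {F : SimpleGraph V}
  {W Y T K S : Finset V} {B : Finset β} {M : V → Finset β} {c : Finset V → ℕ}
  {m : Finset V → ℝ} {q : ℕ}

/-- (V**) for the filled system; all the elements of `Y \ T` are filled -/
theorem fill_blockY (hpm : PosM m) (hm : ∀ D ⊆ Y \ T, m D = mY F W Y D) (hT : T ⊆ Y)
    (hK : K ⊆ Y \ T)
    (hS : S = (Y \ T) \ K) {r : ℕ} (hr : 1 ≤ r) (hKc : K.card = r + 1)
    (hq : 2 ≤ q) {pc : V → ℕ} (hpc : ∀ v ∈ Y \ T, pc v ≤ q)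
    (hcol : ∀ v ∈ K, (cn F v ∩ W).card + (M v).card ≤ pc v)
    (hB : B.card = q) (hMB : ∀ v, M v ⊆ B)
    (hc1 : ∀ j ∈ K, q ≤ c (Y \ insert j S) + ((Y \ insert j S).biUnion M).card)
    {Q0 Q1 : ℝ} (hQ0 : Q0 = ((Und F W T).card : ℝ) + ∑ u ∈ Y \ T, ((q : ℝ) - pc u) -
      ((r : ℝ) - 1) * q) (hQ1 : 0 < Q1) (hQ1q : Q1 ≤ q)
    (hQ : Q1 + ∑ v ∈ T, ((M v).card : ℝ) ≤ Q0) :
    Q1 * Q0 * ((q : ℝ) ^ (r - 1) *
        Ival (push (fillM m (fun u => (q : ℝ) - pc u) (Y \ T)) S) K) ≤
      2 + ∑ u ∈ K, (c (Y \ insert u S) : ℝ) / pal (mY F W Y) (insert u S) := by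
  classical
  -- the sets
  have hdKS : Disjoint K S := by
    rw [hS]
    exact disjoint_sdiff_self_right
  have hKS : K ∪ S = Y \ T := by
    rw [hS, union_sdiff_of_subset hK]
  have hKY : K ⊆ Y := hK.trans sdiff_subset
  have hdTK : Disjoint T K := (disjoint_sdiff_self_right : Disjoint T (Y \ T)).mono_right hK
  have hSYT : S ⊆ Y \ T := by
    rw [← hKS]
    exact subset_union_right
  have hcompl : ∀ A ⊆ K, Y \ (A ∪ S) = T ∪ (K \ A) := by
    intro A hA
    ext v
    rw [mem_sdiff, mem_union, mem_union, mem_sdiff]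
    constructor
    · rintro ⟨h1, h2⟩
      push Not at h2
      by_cases h3 : v ∈ T
      · exact Or.inl h3
      · right
        have h4 : v ∈ K ∪ S := by
          rw [hKS]
          exact mem_sdiff.2 ⟨h1, h3⟩
        rcases mem_union.1 h4 with h5 | h5
        · exact ⟨h5, h2.1⟩
        · exact absurd h5 h2.2
    · rintro (h1 | ⟨h1, h2⟩)
      · refine ⟨hT h1, ?_⟩
        rintro (h3 | h3)
        · exact (disjoint_left.1 hdTK h1) (hA h3)
        · exact (mem_sdiff.1 (hSYT h3)).2 h1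
      · refine ⟨hKY h1, ?_⟩
        rintro (h3 | h3)
        · exact h2 h3
        · exact (disjoint_left.1 hdKS h1) h3
  set γ : V → ℝ := fun u => (q : ℝ) - pc u with hγdef
  have hγ : ∀ u ∈ Y \ T, (0 : ℝ) ≤ γ u := by
    intro u hu
    have : (pc u : ℝ) ≤ q := by exact_mod_cast hpc u hu
    simp only [hγdef]
    linarith
  set m' := fillM m γ (Y \ T) with hm'
  have hpm1 : PosM m' := hpm.fillM hγ
  have hpm' : PosM (push m' S) := hpm1.push S
  have hAS : ∀ A ⊆ K, A ∪ S ⊆ Y \ T := by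
    intro A hA
    rw [← hKS]
    exact union_subset_union_left hA
  have hpal : ∀ A ⊆ K, pal (push m' S) A =
      ((Und F W (T ∪ (K \ A))).card : ℝ) + ∑ u ∈ A ∪ S, γ u := by
    intro A hA
    rw [pal_push (hdKS.mono_left hA), hm', pal_fillM' γ (hAS A hA), ← hcompl A hA]
    congr 1
    rw [← pal_mY (F := F) (W := W) ((hAS A hA).trans sdiff_subset)]
    unfold pal
    exact sum_congr rfl fun D hD => hm D ((mem_powerset.1 hD).trans (hAS A hA))
  have hU : pal (push m' S) K = ((Und F W T).card : ℝ) + ∑ u ∈ Y \ T, γ u := by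
    rw [hpal K Subset.rfl, Finset.sdiff_self, union_empty, hKS]
  have hpa : ∀ v ∈ K, pa (push m' S) K v ≤ ((cn F v ∩ W).card : ℝ) + γ v := by
    intro v hv
    have h1 := pal_erase (m := push m' S) (K := K) v
    rw [hU, hpal _ (erase_subset _ _), sdiff_erase hv, Finset.sdiff_self, insert_empty_eq,
      union_singleton] at h1
    have h2 := Und_le_insert (F := F) (W := W) T v
    have h3 : ((Und F W T).card : ℝ) ≤ (Und F W (insert v T)).card + (cn F v ∩ W).card := by
      exact_mod_cast h2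
    have h4 : ∑ u ∈ Y \ T, γ u = ∑ u ∈ K.erase v ∪ S, γ u + γ v := by
      have h5 : Y \ T = insert v (K.erase v ∪ S) := by
        rw [← hKS, ← insert_union, insert_erase hv]
      rw [h5, sum_insert]
      · ring
      · rw [mem_union, not_or]
        exact ⟨notMem_erase v K, disjoint_left.1 hdKS hv⟩
    linarith
  have hden : ∀ u ∈ K, pal (push m' S) {u} =
      pal (mY F W Y) (insert u S) + ∑ v ∈ insert u S, γ v := by
    intro u hu
    rw [hpal {u} (singleton_subset_iff.2 hu), ← hcompl {u} (singleton_subset_iff.2 hu),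
      ← pal_mY (F := F) (W := W), ← insert_eq]
    rw [← insert_eq]
    exact insert_subset (hKY hu) (hSYT.trans sdiff_subset)
  have hsing : ∀ u, pal (push m' S) {u} = push m' S {u} + push m' S ∅ := by
    intro u
    unfold pal
    rw [show ({u} : Finset V).powerset = {∅, {u}} from rfl, sum_pair (singleton_ne_empty u).symm,
      add_comm]
  have hYj : ∀ j ∈ K, Y \ insert j S = T ∪ K.erase j := by
    intro j hj
    rw [insert_eq, hcompl {j} (singleton_subset_iff.2 hj), sdiff_singleton_eq_erase]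
  have hc1' : ∀ j ∈ K, q ≤ c (Y \ insert j S) + ((T ∪ K.erase j).biUnion M).card := by
    intro j hj
    rw [← hYj j hj]
    exact hc1 j hj
  have hK2 : (K.card : ℝ) - 2 = (r : ℝ) - 1 := by
    rw [hKc]
    push_cast
    ring
  have hKr : K.card - 2 = r - 1 := by omega
  have hQ0e : pal (push m' S) K - ((K.card : ℝ) - 2) * (q : ℝ) = Q0 := by
    rw [hU, hK2, hQ0]
  have hv := vstar_col (T := T) (M := M) hpm' (by omega) hdTK (show 0 < q by omega) hB hMB
    (fun v hv => by
      have h1 := hcol v hv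
      have h2 : ((cn F v ∩ W).card : ℝ) + (M v).card ≤ pc v := by exact_mod_cast h1
      have h3 := hpa v hv
      simp only [hγdef] at h3
      linarith) hc1' hQ1 hQ1q (by rw [hQ0e]; exact hQ)
  rw [hQ0e, hKr] at hv
  refine hv.trans ?_
  have h1 : ∑ j ∈ K, (c (Y \ insert j S) : ℝ) / (push m' S {j} + push m' S ∅) ≤
      ∑ u ∈ K, (c (Y \ insert u S) : ℝ) / pal (mY F W Y) (insert u S) := by
    refine sum_le_sum fun u hu => ?_
    rw [← hsing u, hden u hu]
    have hsub : insert u S ⊆ Y \ T := insert_subset (hK hu) hSYT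
    refine div_le_div_of_nonneg_left (Nat.cast_nonneg _) ?_ ?_
    · have h3 : pal (mY F W Y) (insert u S) = pal m (insert u S) := by
        unfold pal
        exact sum_congr rfl fun D hD => (hm D ((mem_powerset.1 hD).trans hsub)).symm
      rw [h3]
      refine lt_of_lt_of_le (hpm.2 u) ?_
      unfold pal
      exact single_le_sum (f := m) (fun D _ => hpm.1 D)
        (mem_powerset.2 (singleton_subset_iff.2 (mem_insert_self u S)))
    · have h3 : 0 ≤ ∑ v ∈ insert u S, γ v := sum_nonneg fun v hv => hγ v (hsub hv)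
      linarith
  linarith

end

/-- the factors of the statistic in the block of the levels `i, ..., l` -/
noncomputable def betaB (P ν C : ℕ → ℕ) (i l : ℕ) : ℝ :=
  max 0 (bn P ν C (l - 1)) * ∏ j ∈ Ico i (l - 1), min 1 (max 0 (bn P ν C j))

theorem betaB_nonneg (P ν C : ℕ → ℕ) (i l : ℕ) : 0 ≤ betaB P ν C i l :=
  mul_nonneg (le_max_left _ _) (prod_nonneg fun _ _ => le_min zero_le_one (le_max_left _ _))

theorem rn_betaB {P ν C : ℕ → ℕ} {i l : ℕ} (hil : i < l) :
    rn P ν C l = gn P ν C i * betaB P ν C i l := by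
  obtain ⟨m, rfl⟩ : ∃ m, l = m + 1 := ⟨l - 1, by omega⟩
  change max 0 (bn P ν C m) * gn P ν C m = _
  unfold betaB gn
  rw [Nat.add_sub_cancel, ← prod_range_mul_prod_Ico (fun j => min 1 (max 0 (bn P ν C j)))
    (show i ≤ m by omega)]
  ring

section

variable {V β : Type} [DecidableEq V] [DecidableEq β] [Fintype V] {F : SimpleGraph V}
  {W Y : Finset V} {X : ℕ → Finset V} {lev : V → ℕ} {P ν : ℕ → ℕ} {l n : ℕ}

variable (F) in
/-- the capacity of a set with `k + 1` elements: `K = Y \ S` -/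
noncomputable def SK (W Y : Finset V) (c : Finset V → ℕ) (S : Finset V) : ℝ :=
  (c (Y \ S) : ℝ) + ∑ u ∈ Y \ S, (c (Y \ insert u S) : ℝ) / pal (mY F W Y) (insert u S)

variable (F) in
/-- the deficits and the overlaps of a set -/
noncomputable def GT (W : Finset V) (lev : V → ℕ) (P : ℕ → ℕ) (T : Finset V) : ℝ :=
  ∑ k ∈ T, (P (lev k) : ℝ) - ((CN F T ∩ W).card : ℝ)

variable (F) in
/-- the overlaps of a set -/
noncomputable def OT (W T : Finset V) : ℝ :=
  ∑ k ∈ T, ((cn F k ∩ W).card : ℝ) - ((CN F T ∩ W).card : ℝ)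

omit [DecidableEq β] in
theorem OT_le_GT {T : Finset V} {M : V → Finset β}
    (h : ∀ v ∈ T, (cn F v ∩ W).card + (M v).card ≤ P (lev v)) :
    OT F W T + ∑ v ∈ T, ((M v).card : ℝ) ≤ GT F W lev P T := by
  unfold OT GT
  have h1 : ∑ v ∈ T, ((cn F v ∩ W).card : ℝ) + ∑ v ∈ T, ((M v).card : ℝ) ≤
      ∑ v ∈ T, (P (lev v) : ℝ) := by
    rw [← sum_add_distrib]
    refine sum_le_sum fun v hv => ?_
    exact_mod_cast h v hv
  linarith

omit [Fintype V] [DecidableEq V] in
/-- the elements below a zero -/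
theorem card_zero (hx : ∀ j, j < l → Nn ν j ≤ (Kl Y lev (j + 1)).card) {i : ℕ} (hil : i ≤ l)
    (hi : i = 0 ∨ xY Y lev ν (i - 1) = 0) :
    (Kl Y lev i).card = ∑ j ∈ range i, ν j := by
  rcases Nat.eq_zero_or_pos i with h0 | h0
  · rw [h0, Kl_zero, card_empty, range_zero, sum_empty]
  · obtain ⟨j, rfl⟩ : ∃ j, i = j + 1 := ⟨i - 1, by omega⟩
    have h1 := xY_eq (hx j (by omega))
    have h2 : xY Y lev ν j = 0 := by
      rcases hi with h3 | h3
      · omega
      · simpa using h3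
    rw [h1, h2, add_zero]
    rfl

omit [Fintype V] [DecidableEq V] in
/-- the caps below a zero -/
theorem cap_zero (hx : ∀ j, j < l → Nn ν j ≤ (Kl Y lev (j + 1)).card) {i : ℕ} (hil : i ≤ l)
    (hi : i = 0 ∨ xY Y lev ν (i - 1) = 0) :
    ∑ k ∈ Kl Y lev i, (P (lev k) : ℝ) =
      ∑ j ∈ range i, (ν j : ℝ) * P j - Xs P (xY Y lev ν) i := by
  rcases Nat.eq_zero_or_pos i with h0 | h0
  · rw [h0, Kl_zero, sum_empty, range_zero, sum_empty, Xs_zero]
    ring
  · obtain ⟨j, rfl⟩ : ∃ j, i = j + 1 := ⟨i - 1, by omega⟩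
    have h2 : xY Y lev ν j = 0 := by
      rcases hi with h3 | h3
      · omega
      · simpa using h3
    have h1 := cap_Kl (P := P) (j := j) (fun i hi => hx i (by omega))
    rw [h1, h2, Xs_succ, h2]
    unfold Ss
    push_cast
    ring

omit [Fintype V] in
/-- the sum of the missing caps of the block -/
theorem sum_gap (hle : ∀ v ∈ Y, lev v ≤ l) (hl : 0 < l)
    (hx : ∀ j, j < l → Nn ν j ≤ (Kl Y lev (j + 1)).card) {i : ℕ} (hil : i ≤ l)
    (hi : i = 0 ∨ xY Y lev ν (i - 1) = 0) :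
    ∑ u ∈ Bl Y lev i (l + 1), ((P l : ℝ) - P (lev u)) =
      Xs P (xY Y lev ν) l - Xs P (xY Y lev ν) i +
        ∑ j ∈ Ico i l, (ν j : ℝ) * ((P l : ℝ) - P j) := by
  obtain ⟨m, rfl⟩ : ∃ m, l = m + 1 := ⟨l - 1, by omega⟩
  have h1 : ∑ u ∈ Bl Y lev i (m + 1 + 1), ((P (m + 1) : ℝ) - P (lev u)) =
      ∑ u ∈ Bl Y lev i (m + 1), ((P (m + 1) : ℝ) - P (lev u)) := by
    symm
    refine sum_subset ?_ ?_
    · intro u hu
      rw [mem_Bl] at hu ⊢
      exact ⟨hu.1, hu.2.1, by omega⟩
    · intro u hu hu'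
      rw [mem_Bl] at hu hu'
      have h2 : lev u = m + 1 := by
        by_contra h3
        exact hu' ⟨hu.1, hu.2.1, by omega⟩
      rw [h2, sub_self]
  have h2 : (Kl Y lev i).card + (Bl Y lev i (m + 1)).card = (Kl Y lev (m + 1)).card := by
    rw [← Kl_union (Y := Y) (lev := lev) hil, card_union_of_disjoint Kl_disj]
  have h3 : ∑ k ∈ Kl Y lev i, (P (lev k) : ℝ) + ∑ k ∈ Bl Y lev i (m + 1), (P (lev k) : ℝ) =
      ∑ k ∈ Kl Y lev (m + 1), (P (lev k) : ℝ) := by
    rw [← Kl_union (Y := Y) (lev := lev) hil, sum_union Kl_disj]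
  have h4 := cap_Kl (P := P) (j := m) (fun i hi => hx i (by omega))
  have h5 := xY_eq (hx m (by omega))
  have h6 := card_zero (ν := ν) hx hil hi
  have h7 := cap_zero (P := P) hx hil hi
  rw [h1, sum_sub_distrib, sum_const, nsmul_eq_mul]
  have h8 : ((Bl Y lev i (m + 1)).card : ℝ) = (Nn ν m : ℝ) + xY Y lev ν m -
      ∑ j ∈ range i, (ν j : ℝ) := by
    have h9 : ((Kl Y lev i).card : ℝ) + ((Bl Y lev i (m + 1)).card : ℝ) =
        ((Kl Y lev (m + 1)).card : ℝ) := by exact_mod_cast h2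
    rw [h5, h6] at h9
    push_cast at h9
    linarith
  have h9 : ∑ j ∈ Ico i (m + 1), (ν j : ℝ) * ((P (m + 1) : ℝ) - P j) =
      (∑ j ∈ range (m + 1), (ν j : ℝ) - ∑ j ∈ range i, (ν j : ℝ)) * P (m + 1) -
        (∑ j ∈ range (m + 1), (ν j : ℝ) * P j - ∑ j ∈ range i, (ν j : ℝ) * P j) := by
    rw [← sum_range_add_sum_Ico (fun j => (ν j : ℝ)) hil,
      ← sum_range_add_sum_Ico (fun j => (ν j : ℝ) * P j) hil]
    simp only [mul_sub, sum_sub_distrib, ← sum_mul]
    ring
  have h10 : (Nn ν m : ℝ) = ∑ j ∈ range (m + 1), (ν j : ℝ) := by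
    unfold Nn
    push_cast
    rfl
  have h11 : Ss P ν m = ∑ j ∈ range (m + 1), (ν j : ℝ) * P j := rfl
  rw [h9, h8, h10, Xs_succ]
  rw [h4, h7, h11] at h3
  linarith

/-- the excess of the filled block -/
theorem Q0_eq (h : Lv F W Y X lev) (hle : ∀ v ∈ W, lev v ≤ l) (hl : 0 < l)
    (hWc : (W.card : ℝ) = Ss P ν l - P l + 1)
    (hx : ∀ j, j < l → Nn ν j ≤ (Kl Y lev (j + 1)).card) {i : ℕ} (hil : i ≤ l)
    (hi : i = 0 ∨ xY Y lev ν (i - 1) = 0) :
    ((Und F W (Kl Y lev i)).card : ℝ) + ∑ u ∈ Bl Y lev i (l + 1), ((P l : ℝ) - P (lev u)) -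
        (((∑ j ∈ Ico i (l + 1), ν j : ℕ) : ℝ) - 1) * P l =
      1 + Xs P (xY Y lev ν) l + GT F W lev P (Kl Y lev i) := by
  rw [card_Und, hWc, sum_gap (fun v hv => hle v (h.Y_sub hv)) hl hx hil hi]
  unfold GT
  rw [cap_zero hx hil hi]
  have h1 : Ss P ν l = ∑ j ∈ range i, (ν j : ℝ) * P j + ∑ j ∈ Ico i (l + 1), (ν j : ℝ) * P j := by
    unfold Ss
    rw [sum_range_add_sum_Ico _ (by omega)]
  have h2 : ∑ j ∈ Ico i (l + 1), (ν j : ℝ) * P j =
      ∑ j ∈ Ico i l, (ν j : ℝ) * P j + (ν l : ℝ) * P l := by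
    rw [← sum_Ico_consecutive _ hil (Nat.le_succ l)]
    simp
  have h3 : ((∑ j ∈ Ico i (l + 1), ν j : ℕ) : ℝ) = ∑ j ∈ Ico i l, (ν j : ℝ) + (ν l : ℝ) := by
    push_cast
    rw [← sum_Ico_consecutive _ hil (Nat.le_succ l)]
    simp
  have h4 : ∑ j ∈ Ico i l, (ν j : ℝ) * ((P l : ℝ) - P j) =
      (∑ j ∈ Ico i l, (ν j : ℝ)) * P l - ∑ j ∈ Ico i l, (ν j : ℝ) * P j := by
    simp only [mul_sub, sum_sub_distrib, ← sum_mul]
  rw [h1, h2, h3, h4]
  ring

/-- the filling method: the local inequality from a numerical inequality for the last block -/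
theorem mixed_fill (h : Lv F W Y X lev) (hP : ∀ j, 0 < P j) (hm : ∀ j, P j < P (j + 1))
    (hν : ∀ i, i ≤ l → 1 ≤ ν i) (hcap : Cp F W Y lev P l)
    (hXc : ∀ j, j < l → ((X j).card : ℝ) = Ss P ν j - P j + 1)
    (hWc : (W.card : ℝ) = Ss P ν l - P l + 1) {d : ℕ} (hY : Y.card = Nn ν l + (d + 1))
    {i : ℕ} (hil : i < l) (hi : i = 0 ∨ xY Y lev ν (i - 1) = 0)
    (hlast : ∀ j, i ≤ j → j < l → xY Y lev ν j ≠ 0) (hP2 : 2 ≤ P 0)
    {B : Finset β} {M : V → Finset β} {c : Finset V → ℕ}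
    (hB : B.card = P l) (hMB : ∀ v, M v ⊆ B)
    (hcol : ∀ v ∈ W, (cn F v ∩ W).card + (M v).card ≤ P (lev v))
    (hc1 : ∀ K ⊆ Y, K.card = Nn ν l → P l ≤ c K + (K.biUnion M).card)
    (hc2 : ∀ K ⊆ Y, K.card = Nn ν l + 1 → 1 ≤ c K) {κ : ℝ}
    (hnum : (∀ j, j < l → Nn ν j ≤ (Kl Y lev (j + 1)).card) →
      (∀ j, j < l → 0 < bn P ν (CY F Y lev) j) →
      (Kl Y lev i).card = ∑ j ∈ range i, ν j →
      0 ≤ OT F W (Kl Y lev i) →
      OT F W (Kl Y lev i) + ∑ v ∈ Kl Y lev i, ((M v).card : ℝ) ≤ GT F W lev P (Kl Y lev i) →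
      ∀ D : ℝ, 0 ≤ D → D ≤ 1 + Xs P (xY Y lev ν) i + OT F W (Kl Y lev i) → D ≤ P i →
      ∀ S ⊆ Bl Y lev i (l + 1), S.card = d → 1 ≤ SK F W Y c S →
      D * ((P 0 : ℝ) ^ (∑ j ∈ Ico i (l + 1), (ν j - 1)) * ∏ j ∈ Ico i l, (P j : ℝ)) *
        betaB P ν (CY F Y lev) i l *
        (∏ u ∈ Bl Y lev i (l + 1), (1 + ((P l : ℝ) - P (lev u)) / mY F W Y {u})) *
        (1 + SK F W Y c S) ≤
      κ * (min (1 + Xs P (xY Y lev ν) l + OT F W (Kl Y lev i)) (P l) *
        (1 + Xs P (xY Y lev ν) l + GT F W lev P (Kl Y lev i)) *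
          (P l : ℝ) ^ ((∑ j ∈ Ico i (l + 1), ν j) - 1)) * SK F W Y c S) (hκ : 0 ≤ κ) :
    ((P 0 : ℝ) ^ (∑ i ∈ range (l + 1), (ν i - 1)) * ∏ i ∈ range l, (P i : ℝ)) *
        ∑ s ∈ univ.filter (fun s : V ≃ Fin n => gr F W s = Y),
          RM F X (fun _ => 1) (fun j => (P j : ℝ)) s l ≤
      (Fintype.card (V ≃ Fin n) : ℝ) * (κ * CapT F W (fun K => (c K : ℝ)) Y) := by
  classical
  have hl := hcap.le
  have hl0 : 0 < l := by omega
  have hmono : ∀ a b, a ≤ b → P a ≤ P b := fun a b h =>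
    monotone_nat_of_le_succ (fun j => (hm j).le) h
  have hTw : 0 ≤ (P 0 : ℝ) ^ (∑ i ∈ range (l + 1), (ν i - 1)) * ∏ i ∈ range l, (P i : ℝ) :=
    mul_nonneg (by positivity) (prod_nonneg fun _ _ => Nat.cast_nonneg _)
  have hcard : (0 : ℝ) ≤ (Fintype.card (V ≃ Fin n) : ℝ) := Nat.cast_nonneg _
  by_cases hs : ∃ s : V ≃ Fin n, gr F W s = Y ∧
      0 < RM F X (fun _ => 1) (fun j => (P j : ℝ)) s l
  · obtain ⟨s0, hs0, hpos⟩ := hs
    have hx : ∀ j, j < l → Nn ν j ≤ (Kl Y lev (j + 1)).card := fun j hj =>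
      (Tr_card h.X_eq hP hm hcap.lo hXc hpos j hj).trans (card_le_card (Tr_sub_Kl h hs0 j))
    have hb : ∀ j, j < l → 0 < bn P ν (CY F Y lev) j := by
      intro j hj
      refine (bm_pos hpos j hj).trans_le ?_
      rw [bm_eq (X := X) (s := s0) hXc j hj]
      exact bn_mono j fun i _ => card_le_card (CN_mono (Tr_sub_Kl h hs0 i))
    have hKl : Kl Y lev (l + 1) = Y := by
      unfold Kl
      rw [filter_true_of_mem]
      intro k hk
      have := hl k (h.Y_sub hk)
      omega
    have hi' := start_mem (l := l) (Y := Y) (lev := lev) (ν := ν) hil.le hi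
    have hZ : ∀ z ∈ ZY Y lev ν l, z < i := by
      intro z hz
      unfold ZY at hz
      rw [mem_filter, mem_range] at hz
      by_contra hcon
      exact hlast z (by omega) hz.1 hz.2
    set m := mZ F W X (ZY Y lev ν l) Y with hmdef
    set T := Kl Y lev i with hTdef
    set U := Bl Y lev i (l + 1) with hUdef
    have hTU : T ∪ U = Y := by
      rw [hTdef, hUdef, Kl_union (by omega), hKl]
    have hdTU : Disjoint T U := Kl_disj
    have hTY : T ⊆ Y := by
      rw [← hTU]
      exact subset_union_left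
    have hUY : U = Y \ T := by
      rw [← hTU, union_sdiff_left, sdiff_eq_self_of_disjoint hdTU.symm]
    -- the numbers of elements
    have hTc := card_zero (ν := ν) hx hil.le hi
    rw [← hTdef] at hTc
    set r := ∑ j ∈ Ico i (l + 1), ν j with hr
    have hr1 : 1 ≤ r := by
      have h1 : ν l ≤ r := single_le_sum (f := ν) (fun _ _ => Nat.zero_le _)
        (mem_Ico.2 ⟨hil.le, Nat.lt_succ_self l⟩)
      exact (hν l le_rfl).trans h1
    have hNr : Nn ν l = ∑ j ∈ range i, ν j + r := by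
      unfold Nn
      rw [hr, sum_range_add_sum_Ico _ (by omega)]
    have hUc : U.card = r + (d + 1) := by
      have h1 := card_union_of_disjoint hdTU
      rw [hTU] at h1
      omega
    obtain ⟨hO0', hOG, hD1, hDP⟩ := low_bound h hP hm hcap hx hb i hil.le hi
    have hD0 : 0 ≤ Dv P ν (xY Y lev ν) (CY F Y lev) (IY F W Y X lev P ν l) i :=
      Dv_nonneg hP (blk h hP hm hcap hx).Inn i
    set D := Dv P ν (xY Y lev ν) (CY F Y lev) (IY F W Y X lev P ν l) i with hDdef
    have hOle : OY F W Y X lev ν l i ≤ OT F W T := oK_le_cn h hcap.pen T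
    have hO0 : 0 ≤ OT F W T := hO0'.trans hOle
    have hOGT : OT F W T + ∑ v ∈ T, ((M v).card : ℝ) ≤ GT F W lev P T :=
      OT_le_GT fun v hv => hcol v (h.Y_sub (hTY hv))
    have hD1' : D ≤ 1 + Xs P (xY Y lev ν) i + OT F W T := by linarith
    have hXl := Xs_nonneg (x := xY Y lev ν) hm l
    have hPl : (0 : ℝ) < P l := by exact_mod_cast hP l
    have hP0 : (0 : ℝ) < P 0 := by exact_mod_cast hP 0
    have hTM0 : 0 ≤ ∑ v ∈ T, ((M v).card : ℝ) := sum_nonneg fun _ _ => Nat.cast_nonneg _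
    set Q1 := min (1 + Xs P (xY Y lev ν) l + OT F W T) (P l : ℝ) with hQ1
    set Q0 := 1 + Xs P (xY Y lev ν) l + GT F W lev P T with hQ0
    have hQ1p : 0 < Q1 := lt_min (by linarith) hPl
    have hQ0p : 0 < Q0 := by linarith
    have hmY : ∀ D ⊆ Y \ T, m D = mY F W Y D := by
      intro D hD
      rw [← hUY] at hD
      exact mZ_eq_mY h hi' hZ hD
    have hpm : PosM m := mZ_pos
    set γ : V → ℝ := fun u => (P l : ℝ) - P (lev u) with hγdef
    have hlevU : ∀ u ∈ U, lev u ≤ l := by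
      intro u hu
      rw [hUdef, mem_Bl] at hu
      exact hl u (h.Y_sub hu.1)
    have hγ : ∀ u ∈ U, 0 ≤ γ u := by
      intro u hu
      have h1 : (P (lev u) : ℝ) ≤ P l := by exact_mod_cast hmono _ _ (hlevU u hu)
      simp only [hγdef]
      linarith
    set m' := fillM m γ U with hm'def
    have hpm' : PosM m' := hpm.fillM hγ
    set Cst := ∏ u ∈ U, (1 + ((P l : ℝ) - P (lev u)) / mY F W Y {u}) with hCst
    have hCst0 : 0 ≤ Cst := by
      refine prod_nonneg fun u hu => ?_
      have h1 := div_nonneg (hγ u hu) (mY_nonneg (F := F) (W := W) Y {u})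
      simp only [hγdef] at h1
      linarith
    have hfill : Ival m U ≤ Cst * Ival m' U := by
      have h1 := Ival_fill hpm (Subset.refl U) hγ
      have h2 : ∏ u ∈ U, (1 + γ u / m {u}) = Cst := by
        rw [hCst]
        refine prod_congr rfl fun u hu => ?_
        rw [hmY {u} (by rw [← hUY]; exact singleton_subset_iff.2 hu)]
      rw [h2] at h1
      exact h1
    set Λ := (P 0 : ℝ) ^ (∑ j ∈ Ico i (l + 1), (ν j - 1)) * ∏ j ∈ Ico i l, (P j : ℝ) with hΛ
    have hΛ0 : 0 ≤ Λ := mul_nonneg (by positivity) (prod_nonneg fun _ _ => Nat.cast_nonneg _)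
    set bB := betaB P ν (CY F Y lev) i l with hbB
    have hbB0 : 0 ≤ bB := betaB_nonneg _ _ _ _ _
    -- the capacity
    have hSK : ∀ S ⊆ U, S.card = d → 1 ≤ SK F W Y c S ∧
        2 + ∑ u ∈ U \ S, (c (Y \ insert u S) : ℝ) / pal (mY F W Y) (insert u S) ≤
          1 + SK F W Y c S := by
      intro S hS hSd
      have hSY : S ⊆ Y := by
        rw [hUY] at hS
        exact hS.trans sdiff_subset
      have h1 : 1 ≤ c (Y \ S) := by
        refine hc2 _ sdiff_subset ?_
        rw [card_sdiff_of_subset hSY, hY, hSd]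
        omega
      have h2 : (1 : ℝ) ≤ (c (Y \ S) : ℝ) := by exact_mod_cast h1
      have h3 : ∀ u, 0 ≤ (c (Y \ insert u S) : ℝ) / pal (mY F W Y) (insert u S) := fun u =>
        div_nonneg (Nat.cast_nonneg _) (sum_nonneg fun D _ => mY_nonneg Y D)
      have h4 : ∑ u ∈ U \ S, (c (Y \ insert u S) : ℝ) / pal (mY F W Y) (insert u S) ≤
          ∑ u ∈ Y \ S, (c (Y \ insert u S) : ℝ) / pal (mY F W Y) (insert u S) := by
        refine sum_le_sum_of_subset_of_nonneg ?_ fun u _ _ => h3 u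
        refine sdiff_subset_sdiff ?_ Subset.rfl
        rw [hUY]
        exact sdiff_subset
      have h5 := sum_nonneg fun u (_ : u ∈ Y \ S) => h3 u
      unfold SK
      constructor
      · linarith
      · linarith
    have hk := kwise (F := F) (W := W) (c := fun K => κ * (c K : ℝ))
      (fun K => mul_nonneg hκ (Nat.cast_nonneg _))
      (Y := Y) (Yb := U) (d := d) (by rw [hUY]; exact sdiff_subset) (by omega) hpm'
      (T := D * Λ * bB * Cst) (mul_nonneg (mul_nonneg (mul_nonneg hD0 hΛ0) hbB0) hCst0)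
      (fun S hS => by
        have h1 : Ival m' S ≤ Ival m S := Ival_anti hpm fun D hD => by
          rw [hm'def]
          unfold fillM
          have h2 : 0 ≤ ∑ u ∈ U, (if D = {u} then γ u else 0) := sum_nonneg fun u hu => by
            split_ifs
            · exact hγ u hu
            · exact le_rfl
          linarith
        have h2 : Ival m S = Ival (mY F W Y) S := Ival_congr fun D hD => hmY D (by
          rw [← hUY]
          exact hD.trans hS)
        linarith)
      (by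
        intro S hS hSd
        have hSd' : S = (Y \ T) \ (U \ S) := by
          rw [← hUY, Finset.sdiff_sdiff_eq_self hS]
        have hSY : S ⊆ Y := by
          rw [hUY] at hS
          exact hS.trans sdiff_subset
        have hKc : (U \ S).card = r + 1 := by
          rw [card_sdiff_of_subset hS]
          omega
        obtain ⟨hS1, hS2⟩ := hSK S hS hSd
        have hmain := fill_blockY (F := F) (W := W) (Y := Y) (T := T) (K := U \ S) (S := S)
          (B := B) (M := M) (c := c) (m := m) (q := P l) hpm hmY hTY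
          (by rw [← hUY]; exact sdiff_subset) hSd' (r := r) hr1 hKc
          (hP2.trans (hmono 0 l (Nat.zero_le l))) (pc := fun u => P (lev u))
          (fun v hv => by
            rw [← hUY] at hv
            exact hmono _ _ (hlevU v hv))
          (fun v hv => hcol v (h.Y_sub (by
            have h1 := (mem_sdiff.1 hv).1
            rw [hUY] at h1
            exact (mem_sdiff.1 h1).1))) hB hMB
          (by
            intro j hj
            rw [mem_sdiff] at hj
            refine hc1 _ sdiff_subset ?_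
            have hjY : insert j S ⊆ Y := by
              refine insert_subset ?_ hSY
              have h1 := hj.1
              rw [hUY] at h1
              exact (mem_sdiff.1 h1).1
            rw [card_sdiff_of_subset hjY, card_insert_of_notMem hj.2, hY, hSd]
            omega)
          (Q0 := Q0) (Q1 := Q1)
          (by
            rw [← hUY, hQ0, ← Q0_eq h hl hl0 hWc hx hil.le hi])
          hQ1p (min_le_right _ _)
          (by
            have h1 := min_le_left (1 + Xs P (xY Y lev ν) l + OT F W T) (P l : ℝ)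
            linarith)
        rw [← hUY] at hmain
        have hn := hnum hx hb hTc hO0 hOGT D hD0 hD1' hDP S hS hSd hS1
        have hIn : 0 ≤ Ival (push m' S) (U \ S) := (Ival_pos (hpm'.push S) _).le
        have hN : 0 < Q1 * Q0 * (P l : ℝ) ^ (r - 1) :=
          mul_pos (mul_pos hQ1p hQ0p) (pow_pos hPl _)
        have hA : 0 ≤ D * Λ * bB * Cst :=
          mul_nonneg (mul_nonneg (mul_nonneg hD0 hΛ0) hbB0) hCst0
        have hgoal : D * Λ * bB * Cst * Ival (push m' S) (U \ S) ≤ κ * SK F W Y c S := by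
          refine le_of_mul_le_mul_left ?_ hN
          calc Q1 * Q0 * (P l : ℝ) ^ (r - 1) *
                (D * Λ * bB * Cst * Ival (push m' S) (U \ S))
              = (D * Λ * bB * Cst) * (Q1 * Q0 * ((P l : ℝ) ^ (r - 1) *
                Ival (push m' S) (U \ S))) := by ring
            _ ≤ (D * Λ * bB * Cst) * (1 + SK F W Y c S) :=
                mul_le_mul_of_nonneg_left (hmain.trans hS2) hA
            _ ≤ κ * (Q1 * Q0 * (P l : ℝ) ^ (r - 1)) * SK F W Y c S := hn
            _ = _ := by ring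
        refine hgoal.trans (le_of_eq ?_)
        unfold SK
        rw [mul_add, mul_sum]
        congr 1
        refine sum_congr rfl fun u _ => ?_
        rw [mul_div_assoc])
    -- the weight
    have hEx : Ex P ν (xY Y lev ν) i * ∏ k ∈ T, (P (lev k) : ℝ) =
        (P 0 : ℝ) ^ (∑ i ∈ range i, (ν i - 1)) * ∏ i ∈ range i, (P i : ℝ) := by
      rcases Nat.eq_zero_or_pos i with h0 | h0
      · rw [hTdef, h0, Kl_zero, prod_empty]
        simp [Ex]
      · obtain ⟨j, rfl⟩ : ∃ j, i = j + 1 := ⟨i - 1, by omega⟩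
        have h2 : xY Y lev ν j = 0 := by
          rcases hi with h3 | h3
          · omega
          · simpa using h3
        have h1 := Ex_prod (Y := Y) (lev := lev) (ν := ν) hP (j := j) (fun i hi => hν i (by omega))
          (fun i hi => hx i (by omega))
        rw [h2, pow_zero, mul_one] at h1
        exact h1
    have hIv : Ival m Y = Ival m T * Ival m U := by
      have h1 := Ival_Kl (Z := ZY Y lev ν l) h hi' (show i ≤ l + 1 by omega)
      rw [hKl] at h1
      exact h1
    have hsum := sum_RM_le (n := n) (ν := ν) (l := l) h hP hm hcap.lo hXc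
    rw [← hmdef, rn_betaB hil, ← hbB] at hsum
    have hcap0 : CapT F W (fun K => κ * (c K : ℝ)) Y = κ * CapT F W (fun K => (c K : ℝ)) Y := by
      unfold CapT
      rw [mul_sum]
      exact sum_congr rfl fun K _ => by ring
    rw [hcap0] at hk
    calc ((P 0 : ℝ) ^ (∑ i ∈ range (l + 1), (ν i - 1)) * ∏ i ∈ range l, (P i : ℝ)) *
        ∑ s ∈ univ.filter (fun s : V ≃ Fin n => gr F W s = Y),
          RM F X (fun _ => 1) (fun j => (P j : ℝ)) s l
        ≤ ((P 0 : ℝ) ^ (∑ i ∈ range (l + 1), (ν i - 1)) * ∏ i ∈ range l, (P i : ℝ)) *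
          ((Fintype.card (V ≃ Fin n) : ℝ) * Ival m Y * (gn P ν (CY F Y lev) i * bB)) :=
          mul_le_mul_of_nonneg_left hsum hTw
      _ = (Fintype.card (V ≃ Fin n) : ℝ) * (D * Λ * bB * Ival m U) := by
          rw [hIv, hDdef, hΛ]
          unfold Dv IY
          rw [← hmdef, ← hTdef]
          rw [← sum_range_add_sum_Ico (fun j => ν j - 1) (show i ≤ l + 1 by omega), pow_add,
            ← prod_range_mul_prod_Ico (fun j => (P j : ℝ)) hil.le]
          have h1 : (P 0 : ℝ) ^ (∑ k ∈ range i, (ν k - 1)) *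
              (P 0 : ℝ) ^ (∑ k ∈ Ico i (l + 1), (ν k - 1)) *
              ((∏ k ∈ range i, (P k : ℝ)) * ∏ k ∈ Ico i l, (P k : ℝ)) =
              ((P 0 : ℝ) ^ (∑ k ∈ range i, (ν k - 1)) * ∏ k ∈ range i, (P k : ℝ)) *
              ((P 0 : ℝ) ^ (∑ k ∈ Ico i (l + 1), (ν k - 1)) * ∏ k ∈ Ico i l, (P k : ℝ)) := by
            ring
          rw [h1, ← hEx]
          ring
      _ ≤ (Fintype.card (V ≃ Fin n) : ℝ) * (D * Λ * bB * (Cst * Ival m' U)) := by
          refine mul_le_mul_of_nonneg_left ?_ hcard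
          refine mul_le_mul_of_nonneg_left hfill ?_
          exact mul_nonneg (mul_nonneg hD0 hΛ0) hbB0
      _ = (Fintype.card (V ≃ Fin n) : ℝ) * (D * Λ * bB * Cst * Ival m' U) := by ring
      _ ≤ _ := mul_le_mul_of_nonneg_left hk hcard
  · have h1 : ∑ s ∈ univ.filter (fun s : V ≃ Fin n => gr F W s = Y),
          RM F X (fun _ => 1) (fun j => (P j : ℝ)) s l ≤ 0 := by
      refine sum_nonpos fun s hs' => ?_
      by_contra hcon
      push Not at hcon
      exact hs ⟨s, (mem_filter.1 hs').2, hcon⟩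
    have h2 := mul_nonpos_of_nonneg_of_nonpos hTw h1
    exact h2.trans (mul_nonneg hcard (mul_nonneg hκ (CapT_nonneg c Y)))

end

end MP76b19e.Rob
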