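import Pool.Agent.Lib.MP76b19e.Rob.TopA
import Pool.Agent.Lib.MP76b19e.Rob.VStar

/-!
# One low level below tops without a cap (problem MP_76b19e_co)

`t1_top`: for a partition `L ∪ T` with the cap `p` on `L` only,
`p ^ (|L| - 1) (∑_{u ∈ L} Ival m ((L - u) ∪ T) - (|L| - 2) p Ival m (L ∪ T))` is at most
`(2 + pt / p) Ival m T + ∑_{j ∈ L} (1 + pom j / p) (p Ival m (T + j) - Ival m T)`.
-/

set_option autoImplicit false

open Finset

namespace MP76b19e.Rob

variable {V : Type} [DecidableEq V] {m : Finset V → ℝ} {A L T : Finset V}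

/-! ### The masses without the base -/

/-- the masses without the base -/
noncomputable def z0 (m : Finset V → ℝ) (D : Finset V) : ℝ := if D = ∅ then 0 else m D

theorem z0_empty (m : Finset V → ℝ) : z0 m ∅ = 0 := if_pos rfl

theorem z0_ne {D : Finset V} (h : D ≠ ∅) : z0 m D = m D := if_neg h

theorem PosM.z0 (h : PosM m) : PosM (z0 m) := by
  refine ⟨fun D => ?_, fun k => ?_⟩
  · unfold MP76b19e.Rob.z0
    split_ifs
    · exact le_rfl
    · exact h.1 D
  · rw [z0_ne (singleton_ne_empty k)]
    exact h.2 k

theorem pal_z0 (m : Finset V → ℝ) (A : Finset V) : pal m A = m ∅ + pal (z0 m) A := by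
  unfold pal
  have h1 : ∀ D ∈ A.powerset, m D = (if D = ∅ then m ∅ else 0) + z0 m D := by
    intro D _
    unfold z0
    split_ifs with h
    · rw [h, add_zero]
    · rw [zero_add]
  rw [sum_congr rfl h1, sum_add_distrib, sum_ite_eq' A.powerset ∅, if_pos (empty_mem_powerset A)]

theorem pa_z0 (m : Finset V → ℝ) (A : Finset V) (k : V) : pa (z0 m) A k = pa m A k := by
  unfold pa
  refine sum_congr rfl fun D _ => ?_
  by_cases h : k ∈ D
  · rw [if_pos h, if_pos h, z0_ne (ne_empty_of_mem h)]
  · rw [if_neg h, if_neg h]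

theorem po_z0 (m : Finset V → ℝ) (A : Finset V) : po (z0 m) A = po m A := by
  unfold po
  refine sum_congr rfl fun D _ => ?_
  by_cases h : D = ∅
  · rw [h, card_empty]
    simp
  · rw [z0_ne h]

theorem pt_z0 (m : Finset V → ℝ) (A : Finset V) : pt (z0 m) A = pt m A := by
  unfold pt
  refine sum_congr rfl fun D _ => ?_
  by_cases h : D = ∅
  · rw [h, card_empty]
    simp
  · rw [z0_ne h]

theorem pom_z0 (m : Finset V → ℝ) (A : Finset V) (j : V) : pom (z0 m) A j = pom m A j := by
  unfold pom
  refine sum_congr rfl fun D _ => ?_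
  by_cases h : D = ∅
  · rw [h, erase_empty, card_empty]
    simp
  · rw [z0_ne h]

/-! ### Pushed masses -/

theorem push_base (m : Finset V → ℝ) (S : Finset V) : push m S ∅ = pal m S := by
  unfold push pal
  exact sum_congr rfl fun E _ => by rw [empty_union]

theorem push_mono (h : ∀ D, 0 ≤ m D) {S S' : Finset V} (hS : S ⊆ S') (D : Finset V) :
    push m S D ≤ push m S' D :=
  sum_le_sum_of_subset_of_nonneg (powerset_mono.2 hS) fun _ _ _ => h _

theorem push_congr {m' : Finset V → ℝ} {S D : Finset V} (h : ∀ E ⊆ S, m' (D ∪ E) = m (D ∪ E)) :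
    push m' S D = push m S D :=
  sum_congr rfl fun E hE => h E (mem_powerset.1 hE)

theorem pa_push (m : Finset V → ℝ) {S : Finset V} (hAS : Disjoint A S) {k : V} (hk : k ∉ S) :
    pa (push m S) A k = pa m (A ∪ S) k := by
  have h1 := pal_erase (m := push m S) (K := A) k
  have h2 := pal_erase (m := m) (K := A ∪ S) k
  rw [erase_union_distrib, erase_eq_of_notMem hk] at h2
  rw [pal_push hAS, pal_push (hAS.mono_left (erase_subset _ _))] at h1
  linarith

theorem pa_mono (h : ∀ D, 0 ≤ m D) {A B : Finset V} (hAB : A ⊆ B) (k : V) :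
    pa m A k ≤ pa m B k := by
  unfold pa
  refine sum_le_sum_of_subset_of_nonneg (powerset_mono.2 hAB) fun D _ _ => ?_
  split_ifs
  · exact h D
  · exact le_rfl

theorem push_insert (m : Finset V → ℝ) {S : Finset V} {j : V} (hj : j ∉ S) (D : Finset V) :
    push m (insert j S) D = push m S D + push m S (insert j D) := by
  unfold push
  rw [sum_powerset_insert hj]
  congr 1
  refine sum_congr rfl fun E _ => ?_
  congr 1
  rw [union_insert, insert_union]

theorem po_push_insert (m : Finset V → ℝ) {j : V} (hj : j ∈ L) (hjT : j ∉ T) :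
    po (push m (insert j T)) (L.erase j) = pom (push m T) L j := by
  unfold po pom
  have h1 : insert j (L.erase j) = L := insert_erase hj
  have h2 : j ∉ L.erase j := notMem_erase j L
  have h3 : ∑ D ∈ L.powerset, (((D.erase j).card - 1 : ℕ) : ℝ) * push m T D =
      ∑ D ∈ (insert j (L.erase j)).powerset, (((D.erase j).card - 1 : ℕ) : ℝ) * push m T D := by
    rw [h1]
  rw [h3, sum_powerset_insert h2, ← sum_add_distrib]
  refine sum_congr rfl fun D hD => ?_
  have h4 : j ∉ D := fun h => h2 (mem_powerset.1 hD h)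
  rw [push_insert m hjT, erase_eq_of_notMem h4, erase_insert h4]
  ring

/-! ### The recursion over the tops -/

theorem ival_res (h : PosM m) (h0 : m ∅ = 0) (hAT : Disjoint A T) :
    (push m T ∅ + pal (z0 (push m T)) A) * Ival m (A ∪ T) =
      ∑ u ∈ A, Ival m (A.erase u ∪ T) + ∑ t ∈ T, Ival m (A ∪ T.erase t) := by
  rw [← pal_z0, pal_push hAT]
  rcases (A ∪ T).eq_empty_or_nonempty with h1 | h1
  · obtain ⟨h2, h3⟩ := union_eq_empty.1 h1
    rw [h2, h3, empty_union, pal_empty, h0, sum_empty, sum_empty]
    ring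
  · have h2 := sum_mul_Ival h h1
    unfold pal
    rw [h2, sum_union hAT]
    congr 1
    · refine sum_congr rfl fun u hu => ?_
      rw [erase_union_distrib, erase_eq_of_notMem (disjoint_left.1 hAT hu)]
    · refine sum_congr rfl fun t ht => ?_
      rw [erase_union_distrib, erase_eq_of_notMem (disjoint_right.1 hAT ht)]

theorem env_top (h : PosM m) (h0 : m ∅ = 0) (hLT : Disjoint L T)
    (ha : ∀ k ∈ L, pa m (L ∪ T) k ≤ 1) : ∀ T' ⊆ T,
      Env (z0 (push m T')) L (fun A => Ival m (A ∪ T')) := by
  intro T'
  induction hc : T'.card using Nat.strong_induction_on generalizing T' with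
  | _ c ih =>
    intro hT'
    refine Env.res (ρ := push m T' ∅) (S := fun A => ∑ t ∈ T', Ival m (A ∪ T'.erase t))
      (h.push T').z0 (z0_empty _) ?_ (push_nonneg h.1 _ _) (Ival_pos h _).le ?_ ?_
    · intro A hA k hk
      rw [pa_z0, pa_push m (hLT.mono hA hT') (disjoint_left.1 (hLT.mono hA hT') hk)]
      exact (pa_mono h.1 (union_subset_union hA hT') k).trans (ha k (hA hk))
    · refine Env.sum fun t ht => ?_
      refine Env.anti ?_ (ih _ (by rw [← hc]; exact card_erase_lt_of_mem ht) (T'.erase t) rfl
        ((erase_subset _ _).trans hT'))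
      intro D _
      unfold z0
      split_ifs
      · exact le_rfl
      · exact push_mono h.1 (erase_subset _ _) D
    · intro A hA
      exact ival_res h h0 (hLT.mono hA hT')

/-! ### Moving the overlaps of one element with the tops -/

/-- `m'` arises from `m` by moving the masses of `{j} ∪ E`, `E ⊆ T`, to `{j}` -/
structure Sw (m m' : Finset V → ℝ) (L T : Finset V) (j : V) : Prop where
  ne : ∀ D ⊆ L ∪ T, D \ T ≠ {j} → m' D = m D
  eq : m' {j} = push m T {j}
  zero : ∀ E ⊆ T, E.Nonempty → m' ({j} ∪ E) = 0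

variable {m' : Finset V → ℝ} {j : V}

theorem Sw.push_self (hs : Sw m m' L T j) {T' : Finset V} (hT' : T' ⊆ T) :
    push m' T' {j} = push m T {j} := by
  rw [← hs.eq]
  unfold push
  rw [← sum_erase_add _ _ (empty_mem_powerset T'), union_empty]
  rw [sum_eq_zero, zero_add]
  intro E hE
  rw [mem_erase, mem_powerset] at hE
  exact hs.zero E (hE.2.trans hT') (nonempty_iff_ne_empty.2 hE.1)

theorem Sw.push_ne (hs : Sw m m' L T j) (hLT : Disjoint L T) {T' D : Finset V} (hT' : T' ⊆ T)
    (hD : D ⊆ L) (hDj : D ≠ {j}) : push m' T' D = push m T' D := by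
  refine push_congr fun E hE => hs.ne _ (union_subset_union hD (hE.trans hT')) ?_
  rw [union_sdiff_distrib, sdiff_eq_empty_iff_subset.2 (hE.trans hT'), union_empty,
    sdiff_eq_self_of_disjoint (hLT.mono_left hD)]
  exact hDj

theorem Sw.push_ins (hs : Sw m m' L T j) (hLT : Disjoint L T) (hj : j ∈ L) {T' D : Finset V}
    (hT' : T' ⊆ T) (hD : D ⊆ L.erase j) (hD0 : D ≠ ∅) :
    push m' (insert j T') D = push m (insert j T') D := by
  have hDL : D ⊆ L := hD.trans (erase_subset _ _)
  have hjT : j ∉ T' := fun h => disjoint_left.1 hLT hj (hT' h)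
  obtain ⟨k, hk⟩ := nonempty_iff_ne_empty.2 hD0
  have hkj : k ≠ j := ne_of_mem_erase (hD hk)
  have h1 : D ≠ {j} := by
    intro h
    rw [h, mem_singleton] at hk
    exact hkj hk
  have h2 : insert j D ≠ {j} := by
    intro h
    have h3 : k ∈ ({j} : Finset V) := h ▸ mem_insert_of_mem hk
    exact hkj (mem_singleton.1 h3)
  rw [push_insert m' hjT, push_insert m hjT, hs.push_ne hLT hT' hDL h1,
    hs.push_ne hLT hT' (insert_subset hj hDL) h2]

theorem Sw.pal_eq (hs : Sw m m' L T j) (hLT : Disjoint L T) (hj : j ∈ L) {T' B : Finset V}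
    (hT' : T' ⊆ T) (hB : B ⊆ L.erase j) :
    pal m' (B ∪ insert j T') = pal m (B ∪ insert j T') + (push m T {j} - push m T' {j}) := by
  have hBL : insert j B ⊆ L := insert_subset hj (hB.trans (erase_subset _ _))
  have h1 : B ∪ insert j T' = insert j B ∪ T' := by
    rw [union_insert, insert_union]
  have h2 : Disjoint (insert j B) T' := hLT.mono hBL hT'
  rw [h1, ← pal_push h2, ← pal_push h2]
  unfold pal
  have h3 : ({j} : Finset V) ∈ (insert j B).powerset :=
    mem_powerset.2 (singleton_subset_iff.2 (mem_insert_self j B))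
  rw [← add_sum_erase _ _ h3, ← add_sum_erase _ (push m T') h3, hs.push_self hT']
  have h4 : ∑ D ∈ (insert j B).powerset.erase {j}, push m' T' D =
      ∑ D ∈ (insert j B).powerset.erase {j}, push m T' D := by
    refine sum_congr rfl fun D hD => ?_
    rw [mem_erase, mem_powerset] at hD
    exact hs.push_ne hLT hT' (hD.2.trans hBL) hD.1
  rw [h4]
  ring

theorem Sw.pa_eq (hs : Sw m m' L T j) (hLT : Disjoint L T) {k : V} (hk : k ∈ L) :
    pa m' (L ∪ T) k = pa m (L ∪ T) k := by
  have hkT : k ∉ T := disjoint_left.1 hLT hk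
  rw [← pa_push m' hLT hkT, ← pa_push m hLT hkT]
  unfold pa
  refine sum_congr rfl fun D hD => ?_
  rw [mem_powerset] at hD
  split_ifs
  · by_cases h1 : D = {j}
    · rw [h1, hs.push_self Subset.rfl]
    · exact hs.push_ne hLT Subset.rfl hD h1
  · rfl

theorem switch_env (h : PosM m) (h' : PosM m') (h0 : m ∅ = 0) (h0' : m' ∅ = 0)
    (hLT : Disjoint L T) (hj : j ∈ L) (ha : ∀ k ∈ L, pa m (L ∪ T) k ≤ 1)
    (hs : Sw m m' L T j) : ∀ T' ⊆ T, Env (z0 (push m (insert j T'))) (L.erase j)
      (fun B => Ival m (B ∪ insert j T') - Ival m' (B ∪ insert j T')) := by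
  have hjT : j ∉ T := disjoint_left.1 hLT hj
  intro T'
  induction hc : T'.card using Nat.strong_induction_on generalizing T' with
  | _ c ih =>
    intro hT'
    have hjT' : j ∉ T' := fun h1 => hjT (hT' h1)
    have hd : Disjoint (L.erase j) (insert j T') := by
      rw [disjoint_insert_right]
      exact ⟨notMem_erase j L, (hLT.mono (erase_subset _ _) hT')⟩
    have hsub : L.erase j ∪ insert j T' ⊆ L ∪ T := by
      refine union_subset ((erase_subset _ _).trans subset_union_left) (insert_subset
        (mem_union_left _ hj) (hT'.trans subset_union_right))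
    have hσ : 0 ≤ push m T {j} - push m T' {j} := by
      have := push_mono h.1 hT' {j}
      linarith
    -- the source
    set S : Finset V → ℝ := fun B => ∑ t ∈ T', (Ival m (B ∪ insert j (T'.erase t)) -
        Ival m' (B ∪ insert j (T'.erase t))) +
        (push m T {j} - push m T' {j}) * Ival m' (B ∪ insert j T') with hS
    have hSE : Env (z0 (push m (insert j T'))) (L.erase j) S := by
      refine Env.add (Env.sum fun t ht => ?_) (Env.smul hσ ?_)
      · refine Env.anti ?_ (ih _ (by rw [← hc]; exact card_erase_lt_of_mem ht) (T'.erase t) rfl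
          ((erase_subset _ _).trans hT'))
        intro D _
        unfold z0
        split_ifs
        · exact le_rfl
        · exact push_mono h.1 (insert_subset_insert _ (erase_subset _ _)) D
      · refine Env.anti ?_ (env_top h' h0' hd ?_ (insert j T') Subset.rfl)
        · intro D hD
          unfold z0
          split_ifs with h1
          · exact le_rfl
          · exact (hs.push_ins hLT hj hT' hD h1).le
        · intro k hk
          refine (pa_mono h'.1 hsub k).trans ?_
          rw [hs.pa_eq hLT (mem_of_mem_erase hk)]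
          exact ha k (mem_of_mem_erase hk)
    have hR : Res (z0 (push m (insert j T'))) (push m (insert j T') ∅) (L.erase j) S
        (fun B => Ival m (B ∪ insert j T') - Ival m' (B ∪ insert j T')) := by
      intro B hB
      have hBd : Disjoint B (insert j T') := hd.mono_left hB
      have e1 := ival_res h h0 hBd
      have e2 := ival_res h' h0' hBd
      rw [← pal_z0, pal_push hBd, hs.pal_eq hLT hj hT' hB] at e2
      rw [← pal_z0, pal_push hBd] at e1 ⊢
      rw [sum_insert hjT', erase_insert hjT'] at e1 e2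
      have e3 : Ival m (B ∪ T') = Ival m' (B ∪ T') := by
        refine Ival_congr fun D hD => (hs.ne D ?_ ?_).symm
        · exact hD.trans (union_subset_union (hB.trans (erase_subset _ _)) hT')
        · intro h1
          have h2 : j ∈ D := (mem_sdiff.1 (h1 ▸ mem_singleton_self j : j ∈ D \ T)).1
          rcases mem_union.1 (hD h2) with h3 | h3
          · exact notMem_erase j L (hB h3)
          · exact hjT' h3
      have e4 : ∀ M : Finset V → ℝ, ∑ t ∈ T', Ival M (B ∪ (insert j T').erase t) =
          ∑ t ∈ T', Ival M (B ∪ insert j (T'.erase t)) := by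
        intro M
        refine sum_congr rfl fun t ht => ?_
        have h1 : t ≠ j := fun h1 => hjT' (h1 ▸ ht)
        rw [erase_insert_of_ne h1.symm]
      rw [e4] at e1 e2
      rw [hS]
      simp only
      rw [mul_sub, sum_sub_distrib, sum_sub_distrib]
      rw [e1, e3]
      linarith
    have hX0 : 0 ≤ Ival m (∅ ∪ insert j T') - Ival m' (∅ ∪ insert j T') := by
      have h1 := hR ∅ (empty_subset _)
      rw [pal_empty, z0_empty, sum_empty, add_zero, zero_add, push_base] at h1
      have h2 : 0 < pal m (insert j T') := h.sum_pos (insert_nonempty j T')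
      have h3 := hSE.nn ∅ (empty_subset _)
      rw [← h1] at h3
      exact (mul_nonneg_iff_of_pos_left h2).1 h3
    refine Env.res (ρ := push m (insert j T') ∅) (S := S) (h.push _).z0 (z0_empty _) ?_
      (push_nonneg h.1 _ _) hX0 hSE hR
    intro A hA k hk
    have hkd : k ∉ insert j T' := disjoint_left.1 hd (hA hk)
    rw [pa_z0, pa_push m (hd.mono_left hA) hkd]
    exact (pa_mono h.1 ((union_subset_union hA Subset.rfl).trans hsub) k).trans
      (ha k (mem_of_mem_erase (hA hk)))

/-- the switch at `j` -/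
theorem switch (h : PosM m) (h' : PosM m') (h0 : m ∅ = 0) (h0' : m' ∅ = 0)
    (hLT : Disjoint L T) (hj : j ∈ L) (ha : ∀ k ∈ L, pa m (L ∪ T) k ≤ 1)
    (hs : Sw m m' L T j) :
    VV 2 (fun A => Ival m (A ∪ T)) L ≤ VV 2 (fun A => Ival m' (A ∪ T)) L +
      (1 + pom (push m T) L j) * (Ival m (insert j T) - Ival m' (insert j T)) := by
  have hjT : j ∉ T := disjoint_left.1 hLT hj
  have h1 := (switch_env h h' h0 h0' hLT hj ha hs T Subset.rfl).t0 (L.erase j) Subset.rfl
  rw [po_z0, po_push_insert m hj hjT, empty_union] at h1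
  have h2 : VV 2 (fun A => Ival m (A ∪ T)) L - VV 2 (fun A => Ival m' (A ∪ T)) L =
      VV 1 (fun B => Ival m (B ∪ insert j T) - Ival m' (B ∪ insert j T)) (L.erase j) := by
    unfold VV
    have e1 : (((L.erase j).card : ℕ) : ℝ) = (L.card : ℝ) - 1 := by
      have h3 : (L.erase j).card + 1 = L.card := card_erase_add_one hj
      have h4 : (((L.erase j).card : ℕ) : ℝ) + 1 = (L.card : ℝ) := by exact_mod_cast h3
      linarith
    have e2 : ∀ M : Finset V → ℝ, ∑ u ∈ L, Ival M (L.erase u ∪ T) = Ival M (L.erase j ∪ T) +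
        ∑ u ∈ L.erase j, Ival M ((L.erase j).erase u ∪ insert j T) := by
      intro M
      rw [← add_sum_erase _ _ hj]
      congr 1
      refine sum_congr rfl fun u hu => ?_
      congr 1
      rw [union_insert, ← insert_union, erase_right_comm,
        insert_erase (mem_erase.2 ⟨(ne_of_mem_erase hu).symm, hj⟩)]
    have e3 : Ival m (L.erase j ∪ T) = Ival m' (L.erase j ∪ T) := by
      refine Ival_congr fun D hD => (hs.ne D ?_ ?_).symm
      · exact hD.trans (union_subset_union (erase_subset _ _) Subset.rfl)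
      · intro h1
        have h2 : j ∈ D := (mem_sdiff.1 (h1 ▸ mem_singleton_self j : j ∈ D \ T)).1
        rcases mem_union.1 (hD h2) with h3 | h3
        · exact notMem_erase j L h3
        · exact hjT h3
    have e4 : L.erase j ∪ insert j T = L ∪ T := by
      rw [union_insert, ← insert_union, insert_erase hj]
    simp only
    rw [e2 m, e2 m', e3, e1, e4, sum_sub_distrib]
    ring
  linarith

/-! ### All switches -/

open Classical in
/-- the overlaps of the elements of `J` with the tops are moved -/
noncomputable def swM (m : Finset V → ℝ) (T J D : Finset V) : ℝ :=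
  if ∃ j ∈ J, D \ T = {j} then (if Disjoint D T then push m T D else 0) else m D

theorem swM_ne {J D : Finset V} (h : ¬ ∃ j ∈ J, D \ T = {j}) : swM m T J D = m D := if_neg h

theorem swM_empty_set : swM m T ∅ = m := by
  funext D
  refine swM_ne ?_
  rintro ⟨j, hj, _⟩
  exact notMem_empty j hj

theorem swM_base (J : Finset V) : swM m T J ∅ = m ∅ := by
  refine swM_ne ?_
  rintro ⟨j, _, h⟩
  rw [empty_sdiff] at h
  exact singleton_ne_empty j h.symm

theorem PosM.swM (h : PosM m) (T J : Finset V) : PosM (swM m T J) := by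
  refine ⟨fun D => ?_, fun k => ?_⟩
  · unfold MP76b19e.Rob.swM
    split_ifs
    · exact push_nonneg h.1 _ _
    · exact le_rfl
    · exact h.1 D
  · unfold MP76b19e.Rob.swM
    split_ifs with h1 h2
    · exact (h.push T).2 k
    · exfalso
      obtain ⟨j, _, h3⟩ := h1
      apply h2
      rw [disjoint_singleton_left]
      intro h4
      have h5 : ({k} : Finset V) \ T = ∅ :=
        sdiff_eq_empty_iff_subset.2 (singleton_subset_iff.2 h4)
      rw [h5] at h3
      exact singleton_ne_empty j h3.symm
    · exact h.2 k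

theorem sdiff_sing_union {E : Finset V} (hjT : j ∉ T) (hE : E ⊆ T) : ({j} ∪ E) \ T = {j} := by
  rw [union_sdiff_distrib, sdiff_eq_empty_iff_subset.2 hE, union_empty,
    sdiff_eq_self_of_disjoint (disjoint_singleton_left.2 hjT)]

theorem swM_sw {J : Finset V} (hLT : Disjoint L T) (hj : j ∈ L) (hjJ : j ∉ J) :
    Sw (swM m T J) (swM m T (insert j J)) L T j := by
  have hjT : j ∉ T := disjoint_left.1 hLT hj
  refine ⟨?_, ?_, ?_⟩
  · intro D _ hne
    unfold MP76b19e.Rob.swM
    have h1 : (∃ i ∈ insert j J, D \ T = {i}) ↔ ∃ i ∈ J, D \ T = {i} := by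
      constructor
      · rintro ⟨i, hi, h⟩
        rcases mem_insert.1 hi with h2 | h2
        · exact absurd (h2 ▸ h) hne
        · exact ⟨i, h2, h⟩
      · rintro ⟨i, hi, h⟩
        exact ⟨i, mem_insert_of_mem hi, h⟩
    simp only [h1]
  · have h1 : swM m T (insert j J) {j} = push m T {j} := by
      unfold MP76b19e.Rob.swM
      rw [if_pos ⟨j, mem_insert_self j J, sdiff_eq_self_of_disjoint (disjoint_singleton_left.2 hjT)⟩,
        if_pos (disjoint_singleton_left.2 hjT)]
    rw [h1]
    refine (push_congr fun E hE => swM_ne ?_).symm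
    rintro ⟨i, hi, h2⟩
    rw [sdiff_sing_union hjT hE, singleton_inj] at h2
    exact hjJ (h2 ▸ hi)
  · intro E hE hE0
    unfold MP76b19e.Rob.swM
    rw [if_pos ⟨j, mem_insert_self j J, sdiff_sing_union hjT hE⟩, if_neg]
    intro h1
    obtain ⟨x, hx⟩ := hE0
    exact disjoint_left.1 h1 (mem_union_right _ hx) (hE hx)

/-- the masses seen at the end do not change -/
theorem push_swM {J D : Finset V} (hLT : Disjoint L T) (hJ : J ⊆ L) (hD : D ⊆ L) :
    push (swM m T J) T D = push m T D := by
  induction J using Finset.induction_on with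
  | empty => rw [swM_empty_set]
  | insert j J hj ih =>
    have hjL : j ∈ L := hJ (mem_insert_self j J)
    have hs := swM_sw (m := m) (J := J) hLT hjL hj
    rw [← ih ((subset_insert _ _).trans hJ)]
    by_cases h3 : D = {j}
    · rw [h3]
      exact hs.push_self Subset.rfl
    · exact hs.push_ne hLT Subset.rfl hD h3

theorem pa_swM {J : Finset V} (hLT : Disjoint L T) (hJ : J ⊆ L) {k : V} (hk : k ∈ L) :
    pa (swM m T J) (L ∪ T) k = pa m (L ∪ T) k := by
  have hkT : k ∉ T := disjoint_left.1 hLT hk
  rw [← pa_push _ hLT hkT, ← pa_push m hLT hkT]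
  unfold pa
  refine sum_congr rfl fun D hD => ?_
  rw [mem_powerset] at hD
  by_cases h1 : k ∈ D
  · rw [if_pos h1, if_pos h1, push_swM hLT hJ hD]
  · rw [if_neg h1, if_neg h1]

theorem pom_swM {J : Finset V} (hLT : Disjoint L T) (hJ : J ⊆ L) (j : V) :
    pom (push (swM m T J) T) L j = pom (push m T) L j := by
  unfold pom
  refine sum_congr rfl fun D hD => ?_
  rw [mem_powerset] at hD
  rw [push_swM hLT hJ hD]

theorem pt_swM {J : Finset V} (hLT : Disjoint L T) (hJ : J ⊆ L) :
    pt (push (swM m T J) T) L = pt (push m T) L := by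
  unfold pt
  refine sum_congr rfl fun D hD => ?_
  rw [mem_powerset] at hD
  rw [push_swM hLT hJ hD]

theorem switch_all (h : PosM m) (h0 : m ∅ = 0) (hLT : Disjoint L T)
    (ha : ∀ k ∈ L, pa m (L ∪ T) k ≤ 1) {J : Finset V} (hJ : J ⊆ L) :
    VV 2 (fun A => Ival m (A ∪ T)) L ≤ VV 2 (fun A => Ival (swM m T J) (A ∪ T)) L +
      ∑ j ∈ J, (1 + pom (push m T) L j) * (Ival m (insert j T) - Ival m T / push m T {j}) := by
  induction J using Finset.induction_on with
  | empty => rw [swM_empty_set, sum_empty, add_zero]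
  | insert j J hj ih =>
    have hjL : j ∈ L := hJ (mem_insert_self j J)
    have hjT : j ∉ T := disjoint_left.1 hLT hjL
    have hJ' : J ⊆ L := (subset_insert _ _).trans hJ
    have hs := swM_sw (m := m) (J := J) hLT hjL hj
    have h1 := switch (h.swM T J) (h.swM T (insert j J)) (by rw [swM_base, h0])
      (by rw [swM_base, h0]) hLT hjL (fun k hk => by rw [pa_swM hLT hJ' hk]; exact ha k hk) hs
    rw [pom_swM hLT hJ'] at h1
    have e1 : Ival (swM m T J) (insert j T) = Ival m (insert j T) := by
      refine Ival_congr fun D hD => swM_ne ?_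
      rintro ⟨i, hi, h2⟩
      have h3 : i ∈ D \ T := h2 ▸ mem_singleton_self i
      rw [mem_sdiff] at h3
      rcases mem_insert.1 (hD h3.1) with h4 | h4
      · exact hj (h4 ▸ hi)
      · exact h3.2 h4
    have e2 : Ival (swM m T (insert j J)) (insert j T) = Ival m T / push m T {j} := by
      have hb : swM m T (insert j J) ∅ = 0 := by rw [swM_base, h0]
      have hsj : swM m T (insert j J) {j} = push m T {j} := by
        rw [hs.eq]
        refine push_congr fun E hE => swM_ne ?_
        rintro ⟨i, hi, h2⟩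
        rw [sdiff_sing_union hjT hE, singleton_inj] at h2
        exact hj (h2 ▸ hi)
      rw [insert_eq j T, Ival_union (h.swM T (insert j J)) (disjoint_singleton_left.2 hjT) ?_ hb,
        Ival_singleton j hb, hsj]
      · have e3 : Ival (swM m T (insert j J)) T = Ival m T := by
          refine Ival_congr fun D hD => swM_ne ?_
          rintro ⟨i, _, h2⟩
          rw [sdiff_eq_empty_iff_subset.2 hD] at h2
          exact singleton_ne_empty i h2.symm
        rw [e3]
        ring
      · intro D hD hD0
        refine ⟨fun h3 => hD0 (by rw [h3, hb]), ?_⟩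
        by_contra hcon
        rw [not_or] at hcon
        apply hD0
        have hjD : j ∈ D := by
          by_contra h4
          apply hcon.2
          intro x hx
          rcases mem_union.1 (hD hx) with h5 | h5
          · exact absurd (mem_singleton.1 h5 ▸ hx) h4
          · exact h5
        have h6 : D = {j} ∪ D.erase j := by
          rw [← insert_eq, insert_erase hjD]
        rw [h6]
        refine hs.zero _ ?_ ?_
        · intro x hx
          rcases mem_union.1 (hD (mem_of_mem_erase hx)) with h5 | h5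
          · exact absurd (mem_singleton.1 h5) (ne_of_mem_erase hx)
          · exact h5
        · rw [nonempty_iff_ne_empty]
          intro h7
          apply hcon.1
          rw [h6, h7, union_empty]
    rw [e1, e2] at h1
    have h2 := ih hJ'
    rw [sum_insert hj]
    linarith

/-- the bound with the excess `2` if the lows do not overlap the tops alone -/
theorem env2_top (h : PosM m) (h0 : m ∅ = 0) (hLT : Disjoint L T)
    (ha : ∀ k ∈ L, pa m (L ∪ T) k ≤ 1)
    (hz : ∀ j ∈ L, ∀ E ⊆ T, E.Nonempty → m ({j} ∪ E) = 0) : ∀ T' ⊆ T,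
      Env2 (z0 (push m T')) L (fun A => Ival m (A ∪ T')) := by
  have hsing : ∀ j ∈ L, ∀ T' ⊆ T, push m T' {j} = m {j} := by
    intro j hj T' hT'
    unfold push
    rw [← sum_erase_add _ _ (empty_mem_powerset T'), union_empty]
    rw [sum_eq_zero, zero_add]
    intro E hE
    rw [mem_erase, mem_powerset] at hE
    exact hz j hj E (hE.2.trans hT') (nonempty_iff_ne_empty.2 hE.1)
  have hcap : ∀ T' ⊆ T, ∀ A ⊆ L, ∀ k ∈ A, pa (z0 (push m T')) A k ≤ 1 := by
    intro T' hT' A hA k hk
    rw [pa_z0, pa_push m (hLT.mono hA hT') (disjoint_left.1 (hLT.mono hA hT') hk)]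
    exact (pa_mono h.1 (union_subset_union hA hT') k).trans (ha k (hA hk))
  intro T'
  induction hc : T'.card using Nat.strong_induction_on generalizing T' with
  | _ c ih =>
    intro hT'
    refine Env2.res (ρ := push m T' ∅) (S := fun A => ∑ t ∈ T', Ival m (A ∪ T'.erase t))
      (h.push T').z0 (z0_empty _) (hcap T' hT') (push_nonneg h.1 _ _) (Ival_pos h _).le ?_ ?_
    · refine Env2.sum fun t ht => ?_
      have hTt : T'.erase t ⊆ T := (erase_subset _ _).trans hT'
      refine Env2.anti (h.push _).z0 ?_ ?_ ?_ (hcap _ hTt)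
        (ih _ (by rw [← hc]; exact card_erase_lt_of_mem ht) (T'.erase t) rfl hTt)
      · intro D _
        unfold z0
        split_ifs
        · exact le_rfl
        · exact push_mono h.1 (erase_subset _ _) D
      · rw [z0_empty, z0_empty]
      · intro j hj
        rw [z0_ne (singleton_ne_empty j), z0_ne (singleton_ne_empty j), hsing j hj _ hTt,
          hsing j hj _ hT']
    · intro A hA
      exact ival_res h h0 (hLT.mono hA hT')

/-- the cap `1` -/
theorem t1_top_one (h : PosM m) (h0 : m ∅ = 0) (hLT : Disjoint L T)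
    (ha : ∀ k ∈ L, pa m (L ∪ T) k ≤ 1) :
    VV 2 (fun A => Ival m (A ∪ T)) L ≤ (2 + pt (push m T) L) * Ival m T +
      ∑ j ∈ L, (1 + pom (push m T) L j) * (Ival m (insert j T) - Ival m T) := by
  have h1 := switch_all h h0 hLT ha (Subset.refl L)
  have hp' := h.swM T L
  have hz : ∀ j ∈ L, ∀ E ⊆ T, E.Nonempty → swM m T L ({j} ∪ E) = 0 := by
    intro j hj E hE hE0
    have hjT : j ∉ T := disjoint_left.1 hLT hj
    unfold MP76b19e.Rob.swM
    rw [if_pos ⟨j, hj, sdiff_sing_union hjT hE⟩, if_neg]
    intro h1
    obtain ⟨x, hx⟩ := hE0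
    exact disjoint_left.1 h1 (mem_union_right _ hx) (hE hx)
  have h2 := (env2_top hp' (by rw [swM_base, h0]) hLT
    (fun k hk => by rw [pa_swM hLT Subset.rfl hk]; exact ha k hk) hz T Subset.rfl).t2 L Subset.rfl
  have e3 : Ival (swM m T L) T = Ival m T := by
    refine Ival_congr fun D hD => swM_ne ?_
    rintro ⟨i, _, h2⟩
    rw [sdiff_eq_empty_iff_subset.2 hD] at h2
    exact singleton_ne_empty i h2.symm
  rw [empty_union, e3] at h2
  have e4 : ph (z0 (push (swM m T L) T)) L = 2 + pt (push m T) L +
      ∑ j ∈ L, (1 + pom (push m T) L j) * ((1 - push m T {j}) / push m T {j}) := by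
    unfold ph
    rw [pt_z0, pt_swM hLT Subset.rfl]
    congr 1
    refine sum_congr rfl fun j hj => ?_
    unfold pg
    rw [pom_z0, pom_swM hLT Subset.rfl, z0_empty, z0_ne (singleton_ne_empty j),
      push_swM hLT Subset.rfl (singleton_subset_iff.2 hj), add_zero]
  rw [e4] at h2
  have e5 : (2 + pt (push m T) L +
      ∑ j ∈ L, (1 + pom (push m T) L j) * ((1 - push m T {j}) / push m T {j})) * Ival m T +
      ∑ j ∈ L, (1 + pom (push m T) L j) * (Ival m (insert j T) - Ival m T / push m T {j}) =
      (2 + pt (push m T) L) * Ival m T +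
      ∑ j ∈ L, (1 + pom (push m T) L j) * (Ival m (insert j T) - Ival m T) := by
    rw [add_mul, sum_mul, add_assoc, ← sum_add_distrib]
    congr 1
    refine sum_congr rfl fun j _ => ?_
    have h3 := (h.push T).2 j
    field_simp
    ring
  linarith

/-- (T1-top): one low level `L` with the cap `p`, tops `T` without a cap -/
theorem t1_top (h : PosM m) (h0 : m ∅ = 0) (hLT : Disjoint L T) (hL : L.Nonempty) {p : ℝ}
    (hp : 0 < p) (ha : ∀ k ∈ L, pa m (L ∪ T) k ≤ p) :
    p ^ (L.card - 1) * (∑ u ∈ L, Ival m (L.erase u ∪ T) - ((L.card : ℝ) - 2) * p * Ival m (L ∪ T)) ≤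
      (2 + pt (push m T) L / p) * Ival m T +
        ∑ j ∈ L, (1 + pom (push m T) L j / p) * (p * Ival m (insert j T) - Ival m T) := by
  set m' : Finset V → ℝ := fun D => m D / p with hm'
  have hpne := hp.ne'
  have h' : PosM m' := ⟨fun D => div_nonneg (h.1 D) hp.le, fun k => div_pos (h.2 k) hp⟩
  have h1 := t1_top_one (m := m') (L := L) (T := T) h' (by rw [hm']; simp [h0]) hLT (fun k hk => by
    rw [hm', pa_scale, div_le_one hp]
    exact ha k hk)
  have e1 : push m' T = fun D => push m T D / p := by
    funext D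
    rw [hm']
    unfold push
    rw [sum_div]
  have e2 : pt (fun D => push m T D / p) L = pt (push m T) L / p := by
    unfold pt
    rw [sum_div]
    exact sum_congr rfl fun D _ => by ring
  rw [e1, e2] at h1
  simp only [pom_scale] at h1
  have hdT : ∀ u ∈ L, (L.erase u ∪ T).card = (L.card - 1) + T.card := by
    intro u hu
    rw [card_union_of_disjoint (hLT.mono_left (erase_subset _ _)), card_erase_of_mem hu]
  have hLc : 1 ≤ L.card := card_pos.2 hL
  have hdL : (L ∪ T).card = (L.card - 1) + T.card + 1 := by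
    rw [card_union_of_disjoint hLT]
    omega
  have hins : ∀ j ∈ L, (insert j T).card = T.card + 1 := fun j hj =>
    card_insert_of_notMem (disjoint_left.1 hLT hj)
  unfold VV at h1
  have e3 : ∑ u ∈ L, Ival m' (L.erase u ∪ T) =
      p ^ (L.card - 1) * p ^ T.card * ∑ u ∈ L, Ival m (L.erase u ∪ T) := by
    rw [mul_sum]
    refine sum_congr rfl fun u hu => ?_
    rw [hm', Ival_scale m hpne, hdT u hu, pow_add]
  have e4 : Ival m' (L ∪ T) = p ^ (L.card - 1) * p ^ T.card * p * Ival m (L ∪ T) := by
    rw [hm', Ival_scale m hpne, hdL, pow_succ, pow_add]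
  have e5 : Ival m' T = p ^ T.card * Ival m T := by
    rw [hm', Ival_scale m hpne]
  have e6 : ∑ j ∈ L, (1 + pom (push m T) L j / p) * (Ival m' (insert j T) - Ival m' T) =
      p ^ T.card * ∑ j ∈ L, (1 + pom (push m T) L j / p) *
        (p * Ival m (insert j T) - Ival m T) := by
    rw [mul_sum]
    refine sum_congr rfl fun j hj => ?_
    rw [e5, hm', Ival_scale m hpne, hins j hj, pow_succ]
    ring
  simp only at h1
  rw [e3, e4, e6, e5] at h1
  have hpt : 0 < p ^ T.card := pow_pos hp _
  refine le_of_mul_le_mul_left ?_ hpt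
  calc p ^ T.card * (p ^ (L.card - 1) * (∑ u ∈ L, Ival m (L.erase u ∪ T) -
        ((L.card : ℝ) - 2) * p * Ival m (L ∪ T)))
      = p ^ (L.card - 1) * p ^ T.card * ∑ u ∈ L, Ival m (L.erase u ∪ T) -
        ((L.card : ℝ) - 2) * (p ^ (L.card - 1) * p ^ T.card * p * Ival m (L ∪ T)) := by ring
    _ ≤ _ := h1
    _ = _ := by ring

end MP76b19e.Rob
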