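import Pool.Agent.Lib.MP76b19e.Rob.LinkL
import Pool.Agent.Lib.MP76b19e.Rob.MixF
import Pool.Agent.Lib.MP76b19e.Rob.TopB

/-!
# The last block with one low level (problem MP_76b19e_co)

`mixed_lin`: the local inequality for the linear statistic if the last block has one low level `k`,
from an inequality for the values of `Ival` of the block. `mixed_lin1`: for one low element more
than slots, from an inequality for every set `S` of the last `d` elements.
-/

set_option autoImplicit false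

open Finset

namespace MP76b19e.Rob

private theorem lin_alg (a b c p x y : ℝ) (hp : p ≠ 0) :
    (a * (b * p)) * (x * c * (y / p)) = x * (c * a * b * y) := by
  field_simp

/-- the elements of `A` own at least the mass of the subsets of `A` -/
theorem own_mul_Ival_le {V : Type} [DecidableEq V] {m : Finset V → ℝ} (h : PosM m)
    {U A : Finset V} (hA : A ⊆ U) :
    (pal m A - m ∅) * Ival m U ≤ ∑ k ∈ A, Ival m (U.erase k) := by
  induction hc : U.card using Nat.strong_induction_on generalizing U A with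
  | _ c ih =>
    rcases U.eq_empty_or_nonempty with h0 | h0
    · rw [h0, subset_empty] at hA
      rw [hA, pal_empty, sub_self, zero_mul, sum_empty]
    · have hU : 0 < pal m U := h.sum_pos h0
      have hrec : ∀ B : Finset V, ∑ k ∈ B, Ival m (B.erase k) ≤ pal m B * Ival m B := by
        intro B
        rcases B.eq_empty_or_nonempty with h1 | h1
        · rw [h1, sum_empty, pal_empty]
          exact mul_nonneg (h.1 ∅) (Ival_pos h _).le
        · exact (sum_mul_Ival h h1).ge
      have hI : ∀ k ∈ U, 0 ≤ Ival m (U.erase k) := fun k _ => (Ival_pos h _).le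
      refine le_of_mul_le_mul_left ?_ hU
      have h1 : pal m U * Ival m U = ∑ v ∈ U, Ival m (U.erase v) := sum_mul_Ival h h0
      -- the right side
      have h2 : ∑ k ∈ A, ∑ v ∈ U.erase k, Ival m ((U.erase k).erase v) +
          ∑ k ∈ A, pa m U k * Ival m (U.erase k) ≤ pal m U * ∑ k ∈ A, Ival m (U.erase k) := by
        rw [mul_sum, ← sum_add_distrib]
        refine sum_le_sum fun k _ => ?_
        have h3 := hrec (U.erase k)
        rw [pal_erase] at h3
        linarith
      have h3 : ∑ k ∈ A, ∑ v ∈ U.erase k, Ival m ((U.erase k).erase v) =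
          ∑ v ∈ U, ∑ k ∈ A.erase v, Ival m ((U.erase v).erase k) := by
        rw [sum_comm' (t' := U) (s' := fun v => A.erase v)]
        · refine sum_congr rfl fun v _ => sum_congr rfl fun k _ => ?_
          rw [erase_right_comm]
        · intro k v
          simp only [mem_erase]
          constructor
          · rintro ⟨h4, h5, h6⟩
            exact ⟨⟨fun h7 => h5 h7.symm, h4⟩, h6⟩
          · rintro ⟨⟨h4, h5⟩, h6⟩
            exact ⟨h5, fun h7 => h4 h7.symm, h6⟩
      have h4 : ∀ v ∈ U, (pal m (A.erase v) - m ∅) * Ival m (U.erase v) ≤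
          ∑ k ∈ A.erase v, Ival m ((U.erase v).erase k) := fun v hv =>
        ih _ (by rw [← hc]; exact card_erase_lt_of_mem hv) (erase_subset_erase v hA) rfl
      have h5 : ∑ v ∈ U, pa m A v * Ival m (U.erase v) ≤
          ∑ k ∈ A, pa m U k * Ival m (U.erase k) := by
        have h6 : ∑ v ∈ U, pa m A v * Ival m (U.erase v) =
            ∑ v ∈ A, pa m A v * Ival m (U.erase v) := by
          symm
          refine sum_subset hA fun v _ hv => ?_
          have h7 : pa m A v = 0 := by
            unfold pa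
            refine sum_eq_zero fun D hD => if_neg fun h8 => hv ((mem_powerset.1 hD) h8)
          rw [h7, zero_mul]
        rw [h6]
        exact sum_le_sum fun v hv => mul_le_mul_of_nonneg_right (pa_mono h.1 hA v) (hI v (hA hv))
      have h6 := sum_le_sum h4
      have h7 : ∑ v ∈ U, (pal m (A.erase v) - m ∅) * Ival m (U.erase v) =
          (pal m A - m ∅) * ∑ v ∈ U, Ival m (U.erase v) -
            ∑ v ∈ U, pa m A v * Ival m (U.erase v) := by
        rw [mul_sum, ← sum_sub_distrib]
        refine sum_congr rfl fun v _ => ?_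
        rw [pal_erase]
        ring
      calc pal m U * ((pal m A - m ∅) * Ival m U)
          = (pal m A - m ∅) * ∑ v ∈ U, Ival m (U.erase v) := by rw [← h1]; ring
        _ ≤ _ := by linarith

/-- the elements outside `A` -/
theorem own_compl_le {V : Type} [DecidableEq V] {m : Finset V → ℝ} (h : PosM m) (h0 : m ∅ = 0)
    {U A L : Finset V} (hL : L ∪ A = U) (hd : Disjoint L A) (hU : U.Nonempty) :
    ∑ u ∈ L, Ival m (U.erase u) ≤ (pal m U - pal m A) * Ival m U := by
  have hA : A ⊆ U := by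
    rw [← hL]
    exact subset_union_right
  have h1 := own_mul_Ival_le h hA
  rw [h0, sub_zero] at h1
  have h2 : pal m U * Ival m U = ∑ v ∈ U, Ival m (U.erase v) := sum_mul_Ival h hU
  have h3 : ∑ v ∈ U, Ival m (U.erase v) =
      ∑ v ∈ L, Ival m (U.erase v) + ∑ v ∈ A, Ival m (U.erase v) := by
    rw [← sum_union hd, hL]
  linarith

section

variable {V β : Type} [DecidableEq V] [DecidableEq β] [Fintype V] {F : SimpleGraph V}
  {W Y : Finset V} {X : ℕ → Finset V} {lev : V → ℕ} {P ν : ℕ → ℕ} {l n k : ℕ}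

/-- the constant of the linear factor -/
theorem lin_const (hk : k = 0 ∨ xY Y lev ν (k - 1) = 0) (hkl : k ≤ l)
    (hx : ∀ j, j < l → Nn ν j ≤ (Kl Y lev (j + 1)).card) :
    ((CN F (Kl Y lev k)).card : ℝ) - Ss P ν k + P k =
      -(((ν k : ℝ) - 1) * P k + Xs P (xY Y lev ν) k + Gp P ν (xY Y lev ν) (CY F Y lev) k) := by
  have h1 := Gp_eq (F := F) (P := P) (Y := Y) (lev := lev) (ν := ν) (i := k)
    (fun j hj => hx j (by omega))
  have h2 := cap_zero (P := P) hx hkl hk
  have h3 : Ss P ν k = ∑ j ∈ range k, (ν j : ℝ) * P j + (ν k : ℝ) * P k := by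
    unfold Ss
    rw [sum_range_succ]
  rw [h1, h3]
  linarith

omit [DecidableEq β] in
/-- the local inequality for the linear statistic, one low level in the last block -/
theorem mixed_lin (h : Lv F W Y X lev) (hP : ∀ j, 0 < P j) (hm : ∀ j, P j < P (j + 1))
    (hcap : Cp F W Y lev P l)
    (hXc : ∀ j, j < l → ((X j).card : ℝ) = Ss P ν j - P j + 1)
    (hkl : l = k + 1) (hk : k = 0 ∨ xY Y lev ν (k - 1) = 0) (hxk : xY Y lev ν k ≠ 0)
    {M : V → Finset β} {c : Finset V → ℕ}
    (hcol : ∀ v ∈ W, (cn F v ∩ W).card + (M v).card ≤ P (lev v)) {κ : ℝ} (hκ : 0 ≤ κ)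
    (hnum : (∀ j, j < l → Nn ν j ≤ (Kl Y lev (j + 1)).card) →
      (∀ j, j < l → 0 < bn P ν (CY F Y lev) j) →
      0 ≤ OT F W (Kl Y lev k) →
      OT F W (Kl Y lev k) + ∑ v ∈ Kl Y lev k, ((M v).card : ℝ) ≤ GT F W lev P (Kl Y lev k) →
      0 ≤ Gp P ν (xY Y lev ν) (CY F Y lev) k →
      ∀ D : ℝ, 0 ≤ D → D ≤ 1 + Xs P (xY Y lev ν) k + OT F W (Kl Y lev k) → D ≤ P k →
      ∀ m : Finset V → ℝ, PosM m → m ∅ = 0 → (∀ A ⊆ Bl Y lev k (l + 1), m A = mY F W Y A) →
      0 ≤ ∑ u ∈ Bl Y lev k l, Ival m ((Bl Y lev k (l + 1)).erase u) -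
          (((ν k : ℝ) - 1) * P k + Xs P (xY Y lev ν) k + Gp P ν (xY Y lev ν) (CY F Y lev) k) *
            Ival m (Bl Y lev k (l + 1)) →
      D * (P 0 : ℝ) ^ (∑ j ∈ Ico k (l + 1), (ν j - 1)) *
        (∑ u ∈ Bl Y lev k l, Ival m ((Bl Y lev k (l + 1)).erase u) -
          (((ν k : ℝ) - 1) * P k + Xs P (xY Y lev ν) k + Gp P ν (xY Y lev ν) (CY F Y lev) k) *
            Ival m (Bl Y lev k (l + 1))) ≤
      κ * CapT F W (fun K => (c K : ℝ)) Y) (hν : ∀ i, i ≤ l → 1 ≤ ν i) :
    ((P 0 : ℝ) ^ (∑ i ∈ range (l + 1), (ν i - 1)) * ∏ i ∈ range l, (P i : ℝ)) *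
        ∑ s ∈ univ.filter (fun s : V ≃ Fin n => gr F W s = Y),
          RL F X (fun _ => 1) (fun j => (P j : ℝ)) s l ≤
      (Fintype.card (V ≃ Fin n) : ℝ) * (κ * CapT F W (fun K => (c K : ℝ)) Y) := by
  classical
  have hl := hcap.le
  have hkl' : k < l := by omega
  have hTw : 0 ≤ (P 0 : ℝ) ^ (∑ i ∈ range (l + 1), (ν i - 1)) * ∏ i ∈ range l, (P i : ℝ) :=
    mul_nonneg (by positivity) (prod_nonneg fun _ _ => Nat.cast_nonneg _)
  have hcard : (0 : ℝ) ≤ (Fintype.card (V ≃ Fin n) : ℝ) := Nat.cast_nonneg _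
  have hcap0 : 0 ≤ κ * CapT F W (fun K => (c K : ℝ)) Y := mul_nonneg hκ (CapT_nonneg c Y)
  have hPk : (0 : ℝ) < P k := by exact_mod_cast hP k
  by_cases hs : ∃ s : V ≃ Fin n, gr F W s = Y ∧
      0 < RM F X (fun _ => 1) (fun j => (P j : ℝ)) s l
  · obtain ⟨s0, hs0, hpos⟩ := hs
    have hx : ∀ j, j < l → Nn ν j ≤ (Kl Y lev (j + 1)).card := fun j hj =>
      (Tr_card h.X_eq hP hm hcap.lo hXc hpos j hj).trans (card_le_card (Tr_sub_Kl h hs0 j))
    have hb : ∀ j, j < l → 0 < bn P ν (CY F Y lev) j := by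
      intro j hj
      refine (bm_pos hpos j hj).trans_le ?_
      rw [bm_eq (X := X) (s := s0) hXc j hj]
      exact bn_mono j fun i _ => card_le_card (CN_mono (Tr_sub_Kl h hs0 i))
    have hi' := start_mem (l := l) (Y := Y) (lev := lev) (ν := ν) hkl'.le hk
    have hZ : ∀ z ∈ ZY Y lev ν l, z < k := by
      intro z hz
      unfold ZY at hz
      rw [mem_filter, mem_range] at hz
      rcases Nat.lt_or_ge z k with h1 | h1
      · exact h1
      · have : z = k := by omega
        rw [this] at hz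
        exact absurd hz.2 hxk
    obtain ⟨hO0', hOG, hD1, hDP⟩ := low_bound h hP hm hcap hx hb k hkl'.le hk
    have hD0 : 0 ≤ Dv P ν (xY Y lev ν) (CY F Y lev) (IY F W Y X lev P ν l) k :=
      Dv_nonneg hP (Rob.blk h hP hm hcap hx).Inn k
    set m := mZ F W X (ZY Y lev ν l) Y with hmdef
    set T := Kl Y lev k with hTdef
    set U := Bl Y lev k (l + 1) with hUdef
    set D := Dv P ν (xY Y lev ν) (CY F Y lev) (IY F W Y X lev P ν l) k with hDdef
    have hTY : T ⊆ Y := fun v hv => (mem_Kl.1 hv).1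
    have hOle : OY F W Y X lev ν l k ≤ OT F W T := oK_le_cn h hcap.pen T
    have hO0 : 0 ≤ OT F W T := hO0'.trans hOle
    have hOGT : OT F W T + ∑ v ∈ T, ((M v).card : ℝ) ≤ GT F W lev P T :=
      OT_le_GT fun v hv => hcol v (h.Y_sub (hTY hv))
    have hD1' : D ≤ 1 + Xs P (xY Y lev ν) k + OT F W T := by linarith
    have hmY : ∀ A ⊆ U, m A = mY F W Y A := fun A hA => mZ_eq_mY h hi' hZ hA
    have hm0 : m ∅ = 0 := mZ_empty h.max
    have hlink := link_lin (n := n) h hP hm hcap hXc hkl hk hxk hx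
    rw [← hmdef, ← hTdef, ← hUdef, lin_const hk hkl'.le hx] at hlink
    set Bv := ∑ u ∈ Bl Y lev k l, Ival m (U.erase u) -
      (((ν k : ℝ) - 1) * P k + Xs P (xY Y lev ν) k + Gp P ν (xY Y lev ν) (CY F Y lev) k) *
        Ival m U with hBv
    have hBe : ∑ u ∈ Bl Y lev k l, Ival m (U.erase u) +
        -(((ν k : ℝ) - 1) * P k + Xs P (xY Y lev ν) k + Gp P ν (xY Y lev ν) (CY F Y lev) k) *
          Ival m U = Bv := by
      rw [hBv]
      ring
    rw [hBe] at hlink
    -- the weight
    have hEx : Ex P ν (xY Y lev ν) k * ∏ v ∈ T, (P (lev v) : ℝ) =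
        (P 0 : ℝ) ^ (∑ i ∈ range k, (ν i - 1)) * ∏ i ∈ range k, (P i : ℝ) := by
      rcases Nat.eq_zero_or_pos k with h0 | h0
      · rw [hTdef, h0, Kl_zero, prod_empty]
        simp [Ex]
      · obtain ⟨j, rfl⟩ : ∃ j, k = j + 1 := ⟨k - 1, by omega⟩
        have h2 : xY Y lev ν j = 0 := by
          rcases hk with h3 | h3
          · omega
          · simpa using h3
        have h1 := Ex_prod (Y := Y) (lev := lev) (ν := ν) hP (j := j) (fun i hi => hν i (by omega))
          (fun i hi => hx i (by omega))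
        rw [h2, pow_zero, mul_one] at h1
        exact h1
    have hDe : D = gn P ν (CY F Y lev) k * Ival m T *
        ((P 0 : ℝ) ^ (∑ i ∈ range k, (ν i - 1)) * ∏ i ∈ range k, (P i : ℝ)) := by
      rw [hDdef, ← hEx]
      unfold Dv IY
      rw [← hmdef, ← hTdef]
      ring
    have hTwe : (P 0 : ℝ) ^ (∑ i ∈ range (l + 1), (ν i - 1)) * ∏ i ∈ range l, (P i : ℝ) =
        ((P 0 : ℝ) ^ (∑ i ∈ range k, (ν i - 1)) * ∏ i ∈ range k, (P i : ℝ)) *
          ((P 0 : ℝ) ^ (∑ j ∈ Ico k (l + 1), (ν j - 1)) * P k) := by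
      have e1 : ∏ i ∈ range l, (P i : ℝ) = (∏ i ∈ range k, (P i : ℝ)) * P k := by
        rw [hkl, prod_range_succ]
      rw [← sum_range_add_sum_Ico (fun j => ν j - 1) (show k ≤ l + 1 by omega), pow_add, e1]
      ring
    have hfin : ((P 0 : ℝ) ^ (∑ i ∈ range (l + 1), (ν i - 1)) * ∏ i ∈ range l, (P i : ℝ)) *
        ∑ s ∈ univ.filter (fun s : V ≃ Fin n => gr F W s = Y),
          RL F X (fun _ => 1) (fun j => (P j : ℝ)) s l ≤
        (Fintype.card (V ≃ Fin n) : ℝ) *
          (D * (P 0 : ℝ) ^ (∑ j ∈ Ico k (l + 1), (ν j - 1)) * max 0 Bv) := by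
      refine (mul_le_mul_of_nonneg_left hlink hTw).trans (le_of_eq ?_)
      rw [hTwe, hDe]
      exact lin_alg _ _ _ _ _ _ hPk.ne'
    refine hfin.trans (mul_le_mul_of_nonneg_left ?_ hcard)
    rcases le_total Bv 0 with hB0 | hB0
    · rw [max_eq_left hB0, mul_zero]
      exact hcap0
    · rw [max_eq_right hB0]
      exact hnum hx hb hO0 hOGT (Gp_nonneg h hcap hkl'.le fun j hj => hx j (by omega)) D hD0 hD1'
        hDP m mZ_pos hm0 hmY hB0
  · have h1 : ∑ s ∈ univ.filter (fun s : V ≃ Fin n => gr F W s = Y),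
          RL F X (fun _ => 1) (fun j => (P j : ℝ)) s l ≤ 0 := by
      refine sum_nonpos fun s hs' => (RL_le_RM _ _ _ _ _).trans ?_
      by_contra hcon
      push Not at hcon
      exact hs ⟨s, (mem_filter.1 hs').2, hcon⟩
    have h2 := mul_nonpos_of_nonneg_of_nonpos hTw h1
    exact h2.trans (mul_nonneg hcard hcap0)

omit [Fintype V] in
/-- a sum over the last `d` elements, extended by zero -/
theorem Ival_expand_sub (m : Finset V → ℝ) {A U : Finset V} (hA : A ⊆ U) (d : ℕ)
    (hd : d ≤ A.card) :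
    Ival m A = ∑ S ∈ U.powersetCard d,
      Ival m S * (if S ⊆ A then Ival (push m S) (A \ S) else 0) := by
  classical
  rw [Ival_expand m A d hd]
  refine (sum_congr rfl (g := fun S =>
    Ival m S * (if S ⊆ A then Ival (push m S) (A \ S) else 0)) fun S hS => ?_).trans ?_
  · rw [mem_powersetCard] at hS
    rw [if_pos hS.1, mul_comm]
  · refine sum_subset (powersetCard_mono hA) fun S hS hS' => ?_
    rw [mem_powersetCard] at hS hS'
    rw [if_neg fun h1 => hS' ⟨h1, hS.2⟩, mul_zero]

omit [DecidableEq β] in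
/-- the local inequality for the linear statistic, one low level in the last block, one low element
more than slots: reduction to an inequality for every set of the last `d` elements -/
theorem mixed_lin1 (h : Lv F W Y X lev) (hP : ∀ j, 0 < P j) (hm : ∀ j, P j < P (j + 1))
    (hcap : Cp F W Y lev P l) (hν : ∀ i, i ≤ l → 1 ≤ ν i)
    (hXc : ∀ j, j < l → ((X j).card : ℝ) = Ss P ν j - P j + 1) {d : ℕ}
    (hY : Y.card = Nn ν l + (d + 1))
    (hkl : l = k + 1) (hk : k = 0 ∨ xY Y lev ν (k - 1) = 0) (hxk : xY Y lev ν k = 1)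
    {M : V → Finset β} {c : Finset V → ℕ}
    (hcol : ∀ v ∈ W, (cn F v ∩ W).card + (M v).card ≤ P (lev v)) {κ : ℝ} (hκ : 0 ≤ κ)
    (hnum : (∀ j, j < l → Nn ν j ≤ (Kl Y lev (j + 1)).card) →
      (Kl Y lev k).card = ∑ j ∈ range k, ν j → (Bl Y lev k l).card = ν k + 1 →
      (Bl Y lev l (l + 1)).card = ν l + d →
      0 ≤ OT F W (Kl Y lev k) →
      OT F W (Kl Y lev k) + ∑ v ∈ Kl Y lev k, ((M v).card : ℝ) ≤ GT F W lev P (Kl Y lev k) →
      0 ≤ Gp P ν (xY Y lev ν) (CY F Y lev) k →
      ∀ D : ℝ, 0 ≤ D → D ≤ 1 + Xs P (xY Y lev ν) k + OT F W (Kl Y lev k) → D ≤ P k →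
      ∀ m : Finset V → ℝ, PosM m → m ∅ = 0 → (∀ A ⊆ Bl Y lev k (l + 1), m A = mY F W Y A) →
      ((ν k : ℝ) - 1) * P k + Xs P (xY Y lev ν) k + Gp P ν (xY Y lev ν) (CY F Y lev) k <
        pal m (Bl Y lev k (l + 1)) - pal m (Bl Y lev l (l + 1)) →
      ∀ S ⊆ Bl Y lev k (l + 1), S.card = d →
      D * (P 0 : ℝ) ^ (∑ j ∈ Ico k (l + 1), (ν j - 1)) *
        ((2 + pt (push m (Bl Y lev l (l + 1))) (Bl Y lev k l) / P k) *
            (if S ⊆ Bl Y lev l (l + 1) then Ival (push m S) (Bl Y lev l (l + 1) \ S) else 0) +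
          ∑ u ∈ Bl Y lev k l, (1 + pom (push m (Bl Y lev l (l + 1))) (Bl Y lev k l) u / P k) *
            (P k * (if S ⊆ insert u (Bl Y lev l (l + 1)) then
                Ival (push m S) (insert u (Bl Y lev l (l + 1)) \ S) else 0) -
              (if S ⊆ Bl Y lev l (l + 1) then Ival (push m S) (Bl Y lev l (l + 1) \ S) else 0))) ≤
      κ * (P k : ℝ) ^ ν k * SK F W Y c S) :
    ((P 0 : ℝ) ^ (∑ i ∈ range (l + 1), (ν i - 1)) * ∏ i ∈ range l, (P i : ℝ)) *
        ∑ s ∈ univ.filter (fun s : V ≃ Fin n => gr F W s = Y),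
          RL F X (fun _ => 1) (fun j => (P j : ℝ)) s l ≤
      (Fintype.card (V ≃ Fin n) : ℝ) * (κ * CapT F W (fun K => (c K : ℝ)) Y) := by
  classical
  have hl := hcap.le
  have hkl' : k < l := by omega
  have hPk : (0 : ℝ) < P k := by exact_mod_cast hP k
  refine mixed_lin h hP hm hcap hXc hkl hk (by omega) hcol hκ ?_ hν
  intro hx hb hO0 hOGT hG0 D hD0 hD1 hDP m hpm hm0 hmY hB0
  set T := Kl Y lev k with hTdef
  set U := Bl Y lev k (l + 1) with hUdef
  set L := Bl Y lev k l with hLdef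
  set A := Bl Y lev l (l + 1) with hAdef
  -- the sets
  have hLA : L ∪ A = U := by
    ext v
    rw [mem_union, hLdef, hAdef, hUdef, mem_Bl, mem_Bl, mem_Bl]
    constructor
    · rintro (h1 | h1)
      · exact ⟨h1.1, h1.2.1, by omega⟩
      · exact ⟨h1.1, by omega, h1.2.2⟩
    · rintro ⟨h1, h2, h3⟩
      rcases Nat.lt_or_ge (lev v) l with h4 | h4
      · exact Or.inl ⟨h1, h2, h4⟩
      · exact Or.inr ⟨h1, h4, h3⟩
  have hdLA : Disjoint L A := by
    rw [disjoint_left]
    intro v hv hv'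
    rw [hLdef, mem_Bl] at hv
    rw [hAdef, mem_Bl] at hv'
    omega
  have hKl : Kl Y lev (l + 1) = Y := by
    unfold Kl
    rw [filter_true_of_mem]
    intro v hv
    have := hl v (h.Y_sub hv)
    omega
  have hTc := card_zero (ν := ν) hx hkl'.le hk
  rw [← hTdef] at hTc
  have hLc : L.card = ν k + 1 := by
    have h1 : (Kl Y lev k).card + (Bl Y lev k (k + 1)).card = (Kl Y lev (k + 1)).card := by
      rw [← Kl_union (Y := Y) (lev := lev) (show k ≤ k + 1 by omega),
        card_union_of_disjoint Kl_disj]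
    have h2 := xY_eq (hx k hkl')
    have h3 : Nn ν k = ∑ j ∈ range k, ν j + ν k := by
      unfold Nn
      rw [sum_range_succ]
    rw [hxk, h3, ← h1, ← hTdef, hTc, ← hkl, ← hLdef] at h2
    omega
  have hAc : A.card = ν l + d := by
    have h1 : (Kl Y lev l).card + (Bl Y lev l (l + 1)).card = (Kl Y lev (l + 1)).card := by
      rw [← Kl_union (Y := Y) (lev := lev) (show l ≤ l + 1 by omega),
        card_union_of_disjoint Kl_disj]
    have h2 := xY_eq (hx k hkl')
    rw [hKl, hY] at h1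
    rw [hxk, ← hkl] at h2
    have h3 := Nn_succ ν k
    rw [← hkl] at h3
    rw [hAdef]
    omega
  have hLne : L.Nonempty := card_pos.1 (by omega)
  have hLU : L ⊆ U := by
    rw [← hLA]
    exact subset_union_left
  have hAU : A ⊆ U := by
    rw [← hLA]
    exact subset_union_right
  have hUY : U ⊆ Y := fun v hv => (mem_Bl.1 hv).1
  -- the caps of the lows
  have hpa : ∀ u ∈ L, pa m (L ∪ A) u ≤ P k := by
    intro u hu
    rw [hLA]
    have hu' := hu
    rw [hLdef, mem_Bl] at hu'
    have h1 : pa m U u ≤ pal m U - pal m (U.erase u) := by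
      have := pal_erase (m := m) (K := U) u
      linarith
    have h2 : ∀ B ⊆ U, pal m B = ((Und F W (Y \ B)).card : ℝ) := by
      intro B hB
      rw [← pal_mY (F := F) (W := W) (hB.trans hUY)]
      unfold pal
      exact sum_congr rfl fun D hD => hmY D ((mem_powerset.1 hD).trans hB)
    rw [h2 U Subset.rfl, h2 _ (erase_subset _ _)] at h1
    have h3 : Y \ U.erase u = insert u (Y \ U) := by
      ext v
      rw [mem_sdiff, mem_erase, mem_insert, mem_sdiff]
      constructor
      · rintro ⟨h4, h5⟩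
        by_cases h6 : v = u
        · exact Or.inl h6
        · exact Or.inr ⟨h4, fun h7 => h5 ⟨h6, h7⟩⟩
      · rintro (h4 | h4)
        · rw [h4]
          exact ⟨hu'.1, fun h5 => h5.1 rfl⟩
        · exact ⟨h4.1, fun h5 => h4.2 h5.2⟩
    have h4 := Und_le_insert (F := F) (W := W) (Y \ U) u
    have h5 := hcol u (h.Y_sub hu'.1)
    have h6 : lev u = k := by omega
    rw [h6] at h5
    rw [h3] at h1
    have h7 : ((Und F W (Y \ U)).card : ℝ) ≤ (Und F W (insert u (Y \ U))).card + P k := by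
      exact_mod_cast h4.trans (by omega)
    linarith
  have ht1 := t1_top hpm hm0 hdLA hLne hPk hpa
  rw [hLA, hLc, Nat.add_sub_cancel] at ht1
  have hers : ∀ u ∈ L, L.erase u ∪ A = U.erase u := by
    intro u hu
    rw [← hLA, erase_union_distrib, erase_eq_of_notMem (disjoint_left.1 hdLA hu)]
  rw [sum_congr rfl fun u hu => by rw [hers u hu]] at ht1
  set Bv := ∑ u ∈ L, Ival m (U.erase u) -
      (((ν k : ℝ) - 1) * P k + Xs P (xY Y lev ν) k + Gp P ν (xY Y lev ν) (CY F Y lev) k) *
        Ival m U with hBv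
  have hIU : 0 ≤ Ival m U := (Ival_pos hpm U).le
  rcases hB0.eq_or_lt with hB00 | hBpos
  · rw [← hB00, mul_zero]
    exact mul_nonneg hκ (CapT_nonneg c Y)
  have hbr : ((ν k : ℝ) - 1) * P k + Xs P (xY Y lev ν) k + Gp P ν (xY Y lev ν) (CY F Y lev) k <
      pal m U - pal m A := by
    by_contra hcon
    push Not at hcon
    have h1 := mul_le_mul_of_nonneg_right hcon hIU
    have h2 := own_compl_le hpm hm0 hLA hdLA (hLne.mono hLU)
    rw [hBv] at hBpos
    linarith
  have hXk := Xs_nonneg (x := xY Y lev ν) hm k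
  have hB1 : Bv ≤ ∑ u ∈ L, Ival m (U.erase u) - (((ν k + 1 : ℕ) : ℝ) - 2) * P k * Ival m U := by
    rw [hBv]
    push_cast
    have := mul_nonneg (add_nonneg hXk hG0) hIU
    nlinarith
  set WY := (2 + pt (push m A) L / P k) * Ival m A +
      ∑ u ∈ L, (1 + pom (push m A) L u / P k) * (P k * Ival m (insert u A) - Ival m A) with hWY
  have hB2 : (P k : ℝ) ^ ν k * Bv ≤ WY :=
    (mul_le_mul_of_nonneg_left hB1 (pow_nonneg hPk.le _)).trans ht1
  -- the sum over the last elements
  have hexp : WY = ∑ S ∈ U.powersetCard d, Ival m S *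
      ((2 + pt (push m A) L / P k) *
            (if S ⊆ A then Ival (push m S) (A \ S) else 0) +
          ∑ u ∈ L, (1 + pom (push m A) L u / P k) *
            (P k * (if S ⊆ insert u A then Ival (push m S) (insert u A \ S) else 0) -
              (if S ⊆ A then Ival (push m S) (A \ S) else 0))) := by
    have e1 := Ival_expand_sub m hAU d (by omega)
    have e2 : ∀ u ∈ L, Ival m (insert u A) = ∑ S ∈ U.powersetCard d,
        Ival m S * (if S ⊆ insert u A then Ival (push m S) (insert u A \ S) else 0) := by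
      intro u hu
      refine Ival_expand_sub m (insert_subset (hLU hu) hAU) d ?_
      rw [card_insert_of_notMem (disjoint_left.1 hdLA hu)]
      omega
    rw [hWY, sum_congr rfl fun u hu => by rw [e2 u hu], e1]
    simp only [mul_add, mul_sum, sum_add_distrib, mul_sub, sum_sub_distrib]
    congr 1
    · exact sum_congr rfl fun S _ => by ring
    · congr 1
      · rw [sum_comm]
        exact sum_congr rfl fun S _ => sum_congr rfl fun u _ => by ring
      · rw [sum_comm]
        exact sum_congr rfl fun S _ => sum_congr rfl fun u _ => by ring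
  set Dq := D * (P 0 : ℝ) ^ (∑ j ∈ Ico k (l + 1), (ν j - 1)) with hDq
  have hDq0 : 0 ≤ Dq := mul_nonneg hD0 (by positivity)
  have hpow : 0 < (P k : ℝ) ^ ν k := pow_pos hPk _
  have hmain : Dq * WY ≤ (P k : ℝ) ^ ν k * (κ * CapT F W (fun K => (c K : ℝ)) Y) := by
    rw [hexp, mul_sum]
    calc ∑ S ∈ U.powersetCard d, Dq * (Ival m S *
          ((2 + pt (push m A) L / P k) *
            (if S ⊆ A then Ival (push m S) (A \ S) else 0) +
          ∑ u ∈ L, (1 + pom (push m A) L u / P k) *
            (P k * (if S ⊆ insert u A then Ival (push m S) (insert u A \ S) else 0) -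
              (if S ⊆ A then Ival (push m S) (A \ S) else 0))))
        ≤ ∑ S ∈ U.powersetCard d, Ival (mY F W Y) S * (κ * (P k : ℝ) ^ ν k * SK F W Y c S) := by
          refine sum_le_sum fun S hS => ?_
          rw [mem_powersetCard] at hS
          have h1 := hnum hx hTc hLc hAc hO0 hOGT hG0 D hD0 hD1 hDP m hpm hm0 hmY hbr S hS.1 hS.2
          have h2 : Ival m S = Ival (mY F W Y) S :=
            Ival_congr fun D hD => hmY D (hD.trans hS.1)
          rw [← h2]
          refine le_trans (le_of_eq ?_) (mul_le_mul_of_nonneg_left h1 (Ival_pos hpm S).le)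
          ring
      _ = κ * (P k : ℝ) ^ ν k * ∑ S ∈ U.powersetCard d, Ival (mY F W Y) S * SK F W Y c S := by
          rw [mul_sum]
          exact sum_congr rfl fun S _ => by ring
      _ ≤ κ * (P k : ℝ) ^ ν k * CapT F W (fun K => (c K : ℝ)) Y := by
          refine mul_le_mul_of_nonneg_left ?_ (mul_nonneg hκ hpow.le)
          exact le_CapT (fun K => Nat.cast_nonneg _) hUY
      _ = _ := by ring
  refine le_of_mul_le_mul_left ?_ hpow
  calc (P k : ℝ) ^ ν k * (Dq * Bv) = Dq * ((P k : ℝ) ^ ν k * Bv) := by ring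
    _ ≤ Dq * WY := mul_le_mul_of_nonneg_left hB2 hDq0
    _ ≤ _ := hmain

end

end MP76b19e.Rob
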