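import Mathlib

/-!
# Numerical part of the bound for one maximal independent set of size `r` (problem MP_76b19e_co)

`P` the caps, `ν` the multiplicities, `x` the excess, `q = P 0`. `Ex i` is the weight of the levels
below `i`, `Xs i = ∑_{m<i} x_m (P_{m+1} - P_m)`.
-/

set_option autoImplicit false

open Finset

namespace MP76b19e.Rob

/-- the weight of the excess -/
noncomputable def Ex (P ν x : ℕ → ℕ) : ℕ → ℝ
  | 0 => 1
  | 1 => (((P 0 : ℝ) / P 0) ^ (ν 0 - 1))
  | j + 2 => Ex P ν x (j + 1) * ((P (j + 1) : ℝ) / P j) ^ (x j) *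
      (((P 0 : ℝ) / P (j + 1)) ^ (ν (j + 1) - 1))

/-- the excess sum -/
noncomputable def Xs (P x : ℕ → ℕ) (i : ℕ) : ℝ :=
  ∑ m ∈ range i, (x m : ℝ) * ((P (m + 1) : ℝ) - P m)

theorem Xs_succ (P x : ℕ → ℕ) (i : ℕ) :
    Xs P x (i + 1) = Xs P x i + (x i : ℝ) * ((P (i + 1) : ℝ) - P i) := by
  unfold Xs
  rw [sum_range_succ]

theorem Xs_zero (P x : ℕ → ℕ) : Xs P x 0 = 0 := by
  unfold Xs
  simp

theorem Xs_int (P x : ℕ → ℕ) (i : ℕ) : ∃ n : ℤ, Xs P x i = n := by
  induction i with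
  | zero => exact ⟨0, by rw [Xs_zero]; simp⟩
  | succ i ih =>
    obtain ⟨n, hn⟩ := ih
    refine ⟨n + (x i : ℤ) * ((P (i + 1) : ℤ) - (P i : ℤ)), ?_⟩
    rw [Xs_succ, hn]
    push_cast
    ring

/-- Bernoulli from above -/
theorem bern {a : ℝ} (ha : 0 ≤ a) (n : ℕ) : (1 + a) ^ n * (1 - n * a) ≤ 1 := by
  induction n with
  | zero => simp
  | succ n ih =>
    have h1 : 0 ≤ (1 + a) ^ n := pow_nonneg (by linarith) n
    have h2 : (1 + a) * (1 - ((n : ℝ) + 1) * a) ≤ 1 - n * a := by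
      have h3 : 0 ≤ (n : ℝ) * (a * a) := by positivity
      nlinarith
    have h4 := mul_le_mul_of_nonneg_left h2 h1
    push_cast
    calc (1 + a) ^ (n + 1) * (1 - ((n : ℝ) + 1) * a)
        = (1 + a) ^ n * ((1 + a) * (1 - ((n : ℝ) + 1) * a)) := by ring
      _ ≤ (1 + a) ^ n * (1 - n * a) := h4
      _ ≤ 1 := ih

section

variable {P ν x : ℕ → ℕ} {l : ℕ}

/-- the excess product from `i` to `j` -/
noncomputable def Fx (P x : ℕ → ℕ) (i : ℕ) : ℕ → ℝ
  | 0 => 1
  | d + 1 => Fx P x i d * ((P (i + d + 1) : ℝ) / P (i + d)) ^ (x (i + d))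

theorem Fx_pos (hP : ∀ j, 0 < P j) (i d : ℕ) : 0 < Fx P x i d := by
  induction d with
  | zero => exact zero_lt_one
  | succ d ih =>
    have h1 : (0 : ℝ) < P (i + d) := by exact_mod_cast hP _
    have h2 : (0 : ℝ) < P (i + d + 1) := by exact_mod_cast hP _
    exact mul_pos ih (pow_pos (div_pos h2 h1) _)

/-- the excess lemma -/
theorem Fx_le (hP : ∀ j, 0 < P j) (hm : ∀ j, P j < P (j + 1)) (i d : ℕ)
    (hx : ∀ j, i ≤ j → j < i + d → 1 ≤ x j) :
    Fx P x i d * ((P (i + d) : ℝ) - (Xs P x (i + d) - Xs P x i)) ≤ P (i + d) := by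
  induction d with
  | zero =>
    change 1 * ((P (i + 0) : ℝ) - (Xs P x (i + 0) - Xs P x i)) ≤ P (i + 0)
    simp
  | succ d ih =>
    have ih' := ih fun j h1 h2 => hx j h1 (by omega)
    have hF := Fx_pos (x := x) hP i d
    have hFs := Fx_pos (x := x) hP i (d + 1)
    set p : ℝ := ((P (i + d) : ℕ) : ℝ) with hp
    set p' : ℝ := ((P (i + d + 1) : ℕ) : ℝ) with hp'
    have hp0 : 0 < p := by rw [hp]; exact_mod_cast hP _
    have hpp : p < p' := by rw [hp, hp']; exact_mod_cast hm _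
    set Y : ℝ := Xs P x (i + d) - Xs P x i with hY
    have hY0 : 0 ≤ Y := by
      rw [hY]
      unfold Xs
      rw [sub_nonneg]
      refine sum_le_sum_of_subset_of_nonneg (range_mono (by omega)) fun m _ _ => ?_
      have h3 : (P m : ℝ) ≤ P (m + 1) := by exact_mod_cast (hm m).le
      exact mul_nonneg (Nat.cast_nonneg _) (by linarith)
    have hXs : Xs P x (i + (d + 1)) - Xs P x i = Y + (x (i + d) : ℝ) * (p' - p) := by
      rw [hY, ← add_assoc i d 1, Xs_succ]
      ring
    rw [hXs]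
    change Fx P x i d * (p' / p) ^ (x (i + d)) * ((P (i + (d + 1)) : ℝ) -
      (Y + (x (i + d) : ℝ) * (p' - p))) ≤ (P (i + (d + 1)) : ℝ)
    have e1 : (P (i + (d + 1)) : ℝ) = p' := by rw [hp', add_assoc]
    rw [e1]
    obtain ⟨t, ht⟩ : ∃ t, x (i + d) = t + 1 :=
      ⟨x (i + d) - 1, by have := hx (i + d) (by omega) (by omega); omega⟩
    rw [ht]
    push_cast
    have e2 : p' - (Y + ((t : ℝ) + 1) * (p' - p)) = (p - Y) - t * (p' - p) := by ring
    rw [e2]
    rcases le_or_gt ((p - Y) - t * (p' - p)) 0 with h0 | h0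
    · have h1 : 0 ≤ Fx P x i d * (p' / p) ^ (t + 1) :=
        mul_nonneg hF.le (pow_nonneg (div_nonneg (by linarith) hp0.le) _)
      have h2 := mul_nonpos_of_nonneg_of_nonpos h1 h0
      linarith
    · have ht0 : 0 ≤ (t : ℝ) * (p' - p) := mul_nonneg (Nat.cast_nonneg _) (by linarith)
      have hpY : 0 < p - Y := by linarith
      have hb := bern (a := (p' - p) / p) (div_nonneg (by linarith) hp0.le) t
      have e3 : 1 + (p' - p) / p = p' / p := by field_simp; ring
      rw [e3] at hb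
      -- `(p'/p)^t ((p - Y) - t (p' - p)) ≤ p - Y`
      have h3 : (p' / p) ^ t * ((p - Y) - t * (p' - p)) ≤ p - Y := by
        have h4 : (p - Y) - t * (p' - p) ≤ (p - Y) * (1 - t * ((p' - p) / p)) := by
          have h5 : (p - Y) * (t * ((p' - p) / p)) ≤ t * (p' - p) := by
            rw [← mul_div_assoc, ← mul_div_assoc, div_le_iff₀ hp0]
            nlinarith
          linarith
        have h6 : 0 ≤ (p' / p) ^ t := pow_nonneg (div_nonneg (by linarith) hp0.le) _
        calc (p' / p) ^ t * ((p - Y) - t * (p' - p))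
            ≤ (p' / p) ^ t * ((p - Y) * (1 - t * ((p' - p) / p))) :=
              mul_le_mul_of_nonneg_left h4 h6
          _ = (p - Y) * ((p' / p) ^ t * (1 - t * ((p' - p) / p))) := by ring
          _ ≤ (p - Y) * 1 := mul_le_mul_of_nonneg_left hb hpY.le
          _ = p - Y := mul_one _
      calc Fx P x i d * (p' / p) ^ (t + 1) * ((p - Y) - t * (p' - p))
          = Fx P x i d * (p' / p) * ((p' / p) ^ t * ((p - Y) - t * (p' - p))) := by ring
        _ ≤ Fx P x i d * (p' / p) * (p - Y) :=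
            mul_le_mul_of_nonneg_left h3 (mul_nonneg hF.le (div_nonneg (by linarith) hp0.le))
        _ = (p' / p) * (Fx P x i d * (p - Y)) := by ring
        _ ≤ (p' / p) * p := by
            refine mul_le_mul_of_nonneg_left ?_ (div_nonneg (by linarith) hp0.le)
            rw [hp, hY]
            exact ih'
        _ = p' := div_mul_cancel₀ _ hp0.ne'

/-- the crude bound -/
theorem Fx_exp (hP : ∀ j, 0 < P j) (hm : ∀ j, P j < P (j + 1)) (i d : ℕ)
    (hx : ∀ j, i ≤ j → j < i + d → 1 ≤ x j) :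
    ∃ n : ℕ, (n : ℝ) = (Xs P x (i + d) - Xs P x i) - ((P (i + d) : ℝ) - P i) ∧
      Fx P x i d ≤ (P (i + d) : ℝ) / P i * (1 + 1 / (P i : ℝ)) ^ n := by
  have hmono : ∀ a b, a ≤ b → P a ≤ P b := fun a b h =>
    monotone_nat_of_le_succ (fun j => (hm j).le) h
  induction d with
  | zero =>
    have h1 : (0 : ℝ) < P i := by exact_mod_cast hP i
    refine ⟨0, by simp, ?_⟩
    change (1 : ℝ) ≤ _
    simp [h1.ne']
  | succ d ih =>
    obtain ⟨n, hn, ih'⟩ := ih fun j h1 h2 => hx j h1 (by omega)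
    have hF := Fx_pos (x := x) hP i d
    obtain ⟨h, hh⟩ : ∃ h, P (i + d + 1) = P (i + d) + h :=
      ⟨P (i + d + 1) - P (i + d), by have := hm (i + d); omega⟩
    set p : ℝ := ((P (i + d) : ℕ) : ℝ) with hp
    set p' : ℝ := ((P (i + d + 1) : ℕ) : ℝ) with hp'
    set Q : ℝ := ((P i : ℕ) : ℝ) with hQ
    have hpe : p' = p + h := by
      rw [hp', hh, hp]
      push_cast
      ring
    have hp0 : 0 < p := by rw [hp]; exact_mod_cast hP _
    have hQ0 : 0 < Q := by rw [hQ]; exact_mod_cast hP _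
    have hQp : Q ≤ p := by rw [hQ, hp]; exact_mod_cast hmono i (i + d) (by omega)
    have hpp : p < p' := by rw [hp, hp']; exact_mod_cast hm _
    obtain ⟨t, ht⟩ : ∃ t, x (i + d) = t + 1 :=
      ⟨x (i + d) - 1, by have := hx (i + d) (by omega) (by omega); omega⟩
    have hXs : Xs P x (i + (d + 1)) = Xs P x (i + d) + ((t : ℝ) + 1) * (p' - p) := by
      rw [← add_assoc i d 1, Xs_succ, ht]
      push_cast
      ring
    have e1 : (P (i + (d + 1)) : ℝ) = p' := by rw [hp', add_assoc]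
    refine ⟨n + t * h, ?_, ?_⟩
    · rw [hXs, e1, hpe]
      push_cast
      rw [hn]
      ring
    · change Fx P x i d * (p' / p) ^ (x (i + d)) ≤ (P (i + (d + 1)) : ℝ) / Q *
        (1 + 1 / Q) ^ (n + t * h)
      rw [e1, ht]
      have h1 : (p' / p) ^ t ≤ (1 + 1 / Q) ^ (t * h) := by
        have h2 : p' / p ≤ (1 + 1 / Q) ^ h := by
          have h3 : p' / p = 1 + (h : ℝ) / p := by
            rw [hpe]
            field_simp
          have h4 : (h : ℝ) / p ≤ h * (1 / Q) := by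
            rw [← mul_div_assoc, mul_one]
            exact div_le_div_of_nonneg_left (Nat.cast_nonneg _) hQ0 hQp
          have h5 := one_add_mul_le_pow (a := 1 / Q)
            (by have : 0 ≤ 1 / Q := by positivity
                linarith) h
          rw [h3]
          linarith
        calc (p' / p) ^ t ≤ ((1 + 1 / Q) ^ h) ^ t :=
              pow_le_pow_left₀ (div_nonneg (by linarith) hp0.le) h2 t
          _ = (1 + 1 / Q) ^ (t * h) := by
              rw [← pow_mul, mul_comm h t]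
      calc Fx P x i d * (p' / p) ^ (t + 1)
          = Fx P x i d * ((p' / p) ^ t * (p' / p)) := by ring
        _ ≤ (p / Q * (1 + 1 / Q) ^ n) * ((1 + 1 / Q) ^ (t * h) * (p' / p)) := by
            refine mul_le_mul ih' ?_ ?_ ?_
            · exact mul_le_mul_of_nonneg_right h1 (div_nonneg (by linarith) hp0.le)
            · exact mul_nonneg (pow_nonneg (div_nonneg (by linarith) hp0.le) _)
                (div_nonneg (by linarith) hp0.le)
            · exact mul_nonneg (div_nonneg hp0.le hQ0.le) (by positivity)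
        _ = (p * (p' / p)) / Q * ((1 + 1 / Q) ^ n * (1 + 1 / Q) ^ (t * h)) := by ring
        _ = p' / Q * (1 + 1 / Q) ^ (n + t * h) := by
            rw [mul_div_cancel₀ _ hp0.ne', pow_add]

/-- `(1 + 1/Q)^Q ≤ 2 Q` -/
theorem pow_le_two_mul {Q : ℕ} (hQ : 0 < Q) : (1 + 1 / (Q : ℝ)) ^ Q ≤ 2 * Q := by
  have hQ0 : (0 : ℝ) < Q := by exact_mod_cast hQ
  rcases Nat.lt_or_ge Q 2 with h1 | h1
  · have : Q = 1 := by omega
    rw [this]
    norm_num
  · have h2 : (1 + 1 / (Q : ℝ)) ^ Q ≤ Real.exp 1 := by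
      have h3 := Real.add_one_le_exp (1 / (Q : ℝ))
      calc (1 + 1 / (Q : ℝ)) ^ Q ≤ (Real.exp (1 / (Q : ℝ))) ^ Q :=
            pow_le_pow_left₀ (by positivity) (by linarith) Q
        _ = Real.exp 1 := by
            rw [← Real.exp_nat_mul]
            congr 1
            field_simp
    have h3 := Real.exp_one_lt_d9
    have h4 : (2 : ℝ) ≤ Q := by exact_mod_cast h1
    linarith

/-- the weight of the levels `i..j-1` of a block is at most `Fx` -/
theorem Ex_block (hP : ∀ j, 0 < P j) (hm : ∀ j, P j < P (j + 1)) (i d : ℕ)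
    (hi : i = 0 ∨ x (i - 1) = 0) :
    Ex P ν x (i + d + 1) ≤ Ex P ν x i * Fx P x i d := by
  have hmono : ∀ a b, a ≤ b → P a ≤ P b := fun a b h =>
    monotone_nat_of_le_succ (fun j => (hm j).le) h
  have hw : ∀ j, ((P 0 : ℝ) / P j) ^ (ν j - 1) ≤ 1 := by
    intro j
    have h1 : (0 : ℝ) < P j := by exact_mod_cast hP j
    refine pow_le_one₀ (div_nonneg (Nat.cast_nonneg _) h1.le) ?_
    rw [div_le_one h1]
    exact_mod_cast hmono 0 j (Nat.zero_le j)
  have hpos : ∀ j, 0 < Ex P ν x j := by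
    intro j
    induction j using Nat.strong_induction_on with
    | _ j ih =>
      match j, ih with
      | 0, _ => exact zero_lt_one
      | 1, _ =>
        have h1 : (0 : ℝ) < P 0 := by exact_mod_cast hP 0
        exact pow_pos (div_pos h1 h1) _
      | j + 2, ih =>
        have h1 : (0 : ℝ) < P 0 := by exact_mod_cast hP 0
        have h2 : (0 : ℝ) < P (j + 1) := by exact_mod_cast hP _
        have h3 : (0 : ℝ) < P j := by exact_mod_cast hP _
        exact mul_pos (mul_pos (ih (j + 1) (by omega)) (pow_pos (div_pos h2 h3) _))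
          (pow_pos (div_pos h1 h2) _)
  induction d with
  | zero =>
    change Ex P ν x (i + 1) ≤ Ex P ν x i * 1
    rw [mul_one]
    rcases i with _ | i
    · have h1 : (0 : ℝ) < P 0 := by exact_mod_cast hP 0
      change ((P 0 : ℝ) / P 0) ^ (ν 0 - 1) ≤ 1
      exact hw 0
    · have h0 : x i = 0 := by
        rcases hi with h | h
        · omega
        · simpa using h
      change Ex P ν x (i + 1) * ((P (i + 1) : ℝ) / P i) ^ (x i) *
        (((P 0 : ℝ) / P (i + 1)) ^ (ν (i + 1) - 1)) ≤ Ex P ν x (i + 1)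
      rw [h0, pow_zero, mul_one]
      exact mul_le_of_le_one_right (hpos _).le (hw _)
  | succ d ih =>
    have e1 : i + (d + 1) + 1 = (i + d) + 2 := by omega
    rw [e1]
    change Ex P ν x (i + d + 1) * ((P (i + d + 1) : ℝ) / P (i + d)) ^ (x (i + d)) *
        (((P 0 : ℝ) / P (i + d + 1)) ^ (ν (i + d + 1) - 1)) ≤
      Ex P ν x i * (Fx P x i d * ((P (i + d + 1) : ℝ) / P (i + d)) ^ (x (i + d)))
    have h2 : (0 : ℝ) < P (i + d + 1) := by exact_mod_cast hP _
    have h3 : (0 : ℝ) < P (i + d) := by exact_mod_cast hP _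
    have h4 : 0 ≤ ((P (i + d + 1) : ℝ) / P (i + d)) ^ (x (i + d)) :=
      pow_nonneg (div_nonneg h2.le h3.le) _
    have h5 := mul_le_mul_of_nonneg_right ih h4
    have h6 : 0 ≤ Ex P ν x (i + d + 1) * ((P (i + d + 1) : ℝ) / P (i + d)) ^ (x (i + d)) :=
      mul_nonneg (hpos _).le h4
    refine (mul_le_of_le_one_right h6 (hw _)).trans (h5.trans (le_of_eq ?_))
    ring

theorem Ex_pos (hP : ∀ j, 0 < P j) (j : ℕ) : 0 < Ex P ν x j := by
  induction j using Nat.strong_induction_on with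
  | _ j ih =>
    match j, ih with
    | 0, _ => exact zero_lt_one
    | 1, _ =>
      have h1 : (0 : ℝ) < P 0 := by exact_mod_cast hP 0
      exact pow_pos (div_pos h1 h1) _
    | j + 2, ih =>
      have h1 : (0 : ℝ) < P 0 := by exact_mod_cast hP 0
      have h2 : (0 : ℝ) < P (j + 1) := by exact_mod_cast hP _
      have h3 : (0 : ℝ) < P j := by exact_mod_cast hP _
      exact mul_pos (mul_pos (ih (j + 1) (by omega)) (pow_pos (div_pos h2 h3) _))
        (pow_pos (div_pos h1 h2) _)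

/-- the weight of a complete block `i..z`, `z = i + d + 1`, `x z = 0` -/
theorem Ex_close (hP : ∀ j, 0 < P j) (hm : ∀ j, P j < P (j + 1)) (i d : ℕ)
    (hi : i = 0 ∨ x (i - 1) = 0) (hx : 1 ≤ x (i + d)) (hν : x (i + d) ≤ ν (i + d + 1)) :
    Ex P ν x (i + d + 2) ≤
      Ex P ν x i * Fx P x i d * ((P (i + d + 1) : ℝ) / P (i + d)) := by
  have hmono : ∀ a b, a ≤ b → P a ≤ P b := fun a b h =>
    monotone_nat_of_le_succ (fun j => (hm j).le) h
  have h1 := Ex_block (ν := ν) hP hm i d hi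
  set p : ℝ := ((P (i + d) : ℕ) : ℝ) with hp
  set p' : ℝ := ((P (i + d + 1) : ℕ) : ℝ) with hp'
  set q : ℝ := ((P 0 : ℕ) : ℝ) with hq
  have hp0 : 0 < p := by rw [hp]; exact_mod_cast hP _
  have hp'0 : 0 < p' := by rw [hp']; exact_mod_cast hP _
  have hq0 : 0 < q := by rw [hq]; exact_mod_cast hP _
  have hqp : q ≤ p := by rw [hq, hp]; exact_mod_cast hmono 0 _ (Nat.zero_le _)
  have hqp' : q ≤ p' := by rw [hq, hp']; exact_mod_cast hmono 0 _ (Nat.zero_le _)
  change Ex P ν x (i + d + 1) * (p' / p) ^ (x (i + d)) * ((q / p') ^ (ν (i + d + 1) - 1)) ≤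
    Ex P ν x i * Fx P x i d * (p' / p)
  obtain ⟨t, ht⟩ : ∃ t, x (i + d) = t + 1 := ⟨x (i + d) - 1, by omega⟩
  obtain ⟨u, hu⟩ : ∃ u, ν (i + d + 1) - 1 = t + u := ⟨ν (i + d + 1) - 1 - t, by omega⟩
  rw [ht, hu]
  have h2 : (p' / p) ^ (t + 1) * (q / p') ^ (t + u) ≤ p' / p := by
    have h3 : (p' / p) ^ (t + 1) * (q / p') ^ (t + u) =
        (p' / p) * ((q / p) ^ t * (q / p') ^ u) := by
      have h4 : (p' / p) ^ t * (q / p') ^ t = (q / p) ^ t := by
        rw [← mul_pow]
        congr 1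
        field_simp
      calc (p' / p) ^ (t + 1) * (q / p') ^ (t + u)
          = (p' / p) * (((p' / p) ^ t * (q / p') ^ t) * (q / p') ^ u) := by
            rw [pow_add, pow_add, pow_one]; ring
        _ = _ := by rw [h4]
    rw [h3]
    refine mul_le_of_le_one_right (div_nonneg hp'0.le hp0.le) ?_
    refine mul_le_one₀ (pow_le_one₀ (div_nonneg hq0.le hp0.le) ?_)
      (pow_nonneg (div_nonneg hq0.le hp'0.le) _)
      (pow_le_one₀ (div_nonneg hq0.le hp'0.le) ?_)
    · rw [div_le_one hp0]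
      exact hqp
    · rw [div_le_one hp'0]
      exact hqp'
  calc Ex P ν x (i + d + 1) * (p' / p) ^ (t + 1) * (q / p') ^ (t + u)
      = Ex P ν x (i + d + 1) * ((p' / p) ^ (t + 1) * (q / p') ^ (t + u)) := by ring
    _ ≤ Ex P ν x (i + d + 1) * (p' / p) :=
        mul_le_mul_of_nonneg_left h2 (Ex_pos hP _).le
    _ ≤ Ex P ν x i * Fx P x i d * (p' / p) :=
        mul_le_mul_of_nonneg_right h1 (div_nonneg hp'0.le hp0.le)

end

end MP76b19e.Rob
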