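import Pool.Agent.Lib.MP76b19e.Rob.NumA

/-!
# Numerical part, second half (problem MP_76b19e_co)

`Cc j` is the number of vertices dominated by the elements of level at most `j`; `Gp (j+1)` the
loss up to level `j`; `bn` the numerical version of the running minimum statistic. `start_bound`:
at every start index `i` of a block the partial product is at most `1 + Xs i + O i` and `P i`.
-/

set_option autoImplicit false

open Finset

namespace MP76b19e.Rob

/-- `∑_{i ≤ j} ν_i P_i` -/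
noncomputable def Ss (P ν : ℕ → ℕ) (j : ℕ) : ℝ := ∑ i ∈ range (j + 1), (ν i : ℝ) * P i

/-- the loss below index `i` -/
noncomputable def Gp (P ν x C : ℕ → ℕ) : ℕ → ℝ
  | 0 => 0
  | j + 1 => Ss P ν j + (x j : ℝ) * P j - Xs P x j - C j

/-- numerical statistic -/
noncomputable def bn (P ν C : ℕ → ℕ) : ℕ → ℝ
  | 0 => ((C 0 : ℝ) - Ss P ν 0 + P 0) / P 0
  | j + 1 => ((C (j + 1) : ℝ) - Ss P ν (j + 1) + P (j + 1)) / P (j + 1) +
      1 / P (j + 1) * max (bn P ν C j - 1) 0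

/-- product of the truncated factors -/
noncomputable def gn (P ν C : ℕ → ℕ) (i : ℕ) : ℝ := ∏ j ∈ range i, min 1 (max 0 (bn P ν C j))

theorem gn_nonneg (P ν C : ℕ → ℕ) (i : ℕ) : 0 ≤ gn P ν C i :=
  prod_nonneg fun _ _ => le_min zero_le_one (le_max_left _ _)

theorem gn_succ (P ν C : ℕ → ℕ) (i : ℕ) :
    gn P ν C (i + 1) = gn P ν C i * min 1 (max 0 (bn P ν C i)) := prod_range_succ _ _

theorem gn_anti (P ν C : ℕ → ℕ) {i j : ℕ} (h : i ≤ j) : gn P ν C j ≤ gn P ν C i := by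
  induction j, h using Nat.le_induction with
  | base => exact le_rfl
  | succ j _ ih =>
    rw [gn_succ]
    exact (mul_le_of_le_one_right (gn_nonneg P ν C j) (min_le_left _ _)).trans ih

/-- the last factor of a block is `b z` -/
theorem gn_close (P ν C : ℕ → ℕ) {i z : ℕ} (h : i ≤ z) {β : ℝ} (h0 : 0 ≤ β)
    (hβ : bn P ν C z ≤ β) : gn P ν C (z + 1) ≤ gn P ν C i * β := by
  rw [gn_succ]
  have h1 : min 1 (max 0 (bn P ν C z)) ≤ β := (min_le_right _ _).trans (max_le h0 hβ)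
  exact mul_le_mul (gn_anti P ν C h) h1 (le_min zero_le_one (le_max_left _ _))
    (gn_nonneg P ν C i)

theorem gn_le_one (P ν C : ℕ → ℕ) (i : ℕ) : gn P ν C i ≤ 1 := by
  have := gn_anti P ν C (Nat.zero_le i)
  unfold gn at this ⊢
  simpa using this

section

variable {P ν x C : ℕ → ℕ}

theorem Xs_nonneg (hm : ∀ j, P j < P (j + 1)) (i : ℕ) : 0 ≤ Xs P x i := by
  unfold Xs
  refine sum_nonneg fun m _ => ?_
  have h3 : (P m : ℝ) ≤ P (m + 1) := by exact_mod_cast (hm m).le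
  exact mul_nonneg (Nat.cast_nonneg _) (by linarith)

theorem Xs_mono (hm : ∀ j, P j < P (j + 1)) {i j : ℕ} (h : i ≤ j) : Xs P x i ≤ Xs P x j := by
  unfold Xs
  refine sum_le_sum_of_subset_of_nonneg (range_mono h) fun m _ _ => ?_
  have h3 : (P m : ℝ) ≤ P (m + 1) := by exact_mod_cast (hm m).le
  exact mul_nonneg (Nat.cast_nonneg _) (by linarith)

/-- `b_j ≤ 1 + x_j` -/
theorem bn_le (hP : ∀ j, 0 < P j) (hm : ∀ j, P j < P (j + 1)) (j : ℕ)
    (hG : ∀ i, i ≤ j → 0 ≤ Gp P ν x C (i + 1)) : bn P ν C j ≤ 1 + x j := by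
  induction j with
  | zero =>
    have hp : (0 : ℝ) < P 0 := by exact_mod_cast hP 0
    have h1 := hG 0 le_rfl
    have h2 := Xs_nonneg (x := x) hm 0
    change 0 ≤ Ss P ν 0 + (x 0 : ℝ) * P 0 - Xs P x 0 - C 0 at h1
    change ((C 0 : ℝ) - Ss P ν 0 + P 0) / P 0 ≤ 1 + x 0
    rw [div_le_iff₀ hp]
    linarith
  | succ j ih =>
    have ih' := ih fun i hi => hG i (by omega)
    have hp : (0 : ℝ) < P (j + 1) := by exact_mod_cast hP _
    have h1 := hG (j + 1) le_rfl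
    change 0 ≤ Ss P ν (j + 1) + (x (j + 1) : ℝ) * P (j + 1) - Xs P x (j + 1) - C (j + 1) at h1
    have h2 : (x j : ℝ) ≤ Xs P x (j + 1) := by
      rw [Xs_succ]
      have h3 := Xs_nonneg (x := x) hm j
      have h4 : (1 : ℝ) ≤ (P (j + 1) : ℝ) - P j := by
        have : P j + 1 ≤ P (j + 1) := hm j
        have h5 : ((P j + 1 : ℕ) : ℝ) ≤ (P (j + 1) : ℝ) := by exact_mod_cast this
        push_cast at h5
        linarith
      have h6 : (0 : ℝ) ≤ x j := Nat.cast_nonneg _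
      nlinarith
    have h3 : max (bn P ν C j - 1) 0 ≤ x j := max_le (by linarith) (Nat.cast_nonneg _)
    change ((C (j + 1) : ℝ) - Ss P ν (j + 1) + P (j + 1)) / P (j + 1) +
      1 / P (j + 1) * max (bn P ν C j - 1) 0 ≤ 1 + x (j + 1)
    have e : ((C (j + 1) : ℝ) - Ss P ν (j + 1) + P (j + 1)) / P (j + 1) +
      1 / P (j + 1) * max (bn P ν C j - 1) 0 =
      ((C (j + 1) : ℝ) - Ss P ν (j + 1) + P (j + 1) + max (bn P ν C j - 1) 0) / P (j + 1) := by
      ring
    rw [e, div_le_iff₀ hp]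
    linarith

/-- the value of the last factor of a block, `z = i` -/
theorem bn_single (hP : ∀ j, 0 < P j) (hm : ∀ j, P j < P (j + 1)) (i : ℕ)
    (hi : i = 0 ∨ x (i - 1) = 0) (hz : x i = 0)
    (hG : ∀ j, j ≤ i → 0 ≤ Gp P ν x C (j + 1)) :
    bn P ν C i ≤ ((P i : ℝ) - Xs P x i - Gp P ν x C (i + 1)) / P i := by
  have hp : (0 : ℝ) < P i := by exact_mod_cast hP i
  have hGd : Gp P ν x C (i + 1) = Ss P ν i + (x i : ℝ) * P i - Xs P x i - C i := rfl
  rw [hGd, hz]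
  rcases i with _ | i
  · change ((C 0 : ℝ) - Ss P ν 0 + P 0) / P 0 ≤ _
    refine div_le_div_of_nonneg_right ?_ hp.le
    push_cast
    linarith
  · have h0 : x i = 0 := by
      rcases hi with h | h
      · omega
      · simpa using h
    have h1 := bn_le (ν := ν) (C := C) (x := x) hP hm i (fun j hj => hG j (by omega))
    rw [h0] at h1
    have h2 : max (bn P ν C i - 1) 0 = 0 := max_eq_right (by push_cast at h1; linarith)
    change ((C (i + 1) : ℝ) - Ss P ν (i + 1) + P (i + 1)) / P (i + 1) +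
      1 / P (i + 1) * max (bn P ν C i - 1) 0 ≤ _
    rw [h2, mul_zero, add_zero]
    refine div_le_div_of_nonneg_right ?_ hp.le
    push_cast
    linarith

/-- the value of the last factor of a block, `z = j + 1` -/
theorem bn_long (hP : ∀ j, 0 < P j) (hm : ∀ j, P j < P (j + 1)) (j : ℕ) (hz : x (j + 1) = 0)
    (hj : 1 ≤ x j) (hG : ∀ i, i ≤ j + 1 → 0 ≤ Gp P ν x C (i + 1)) :
    bn P ν C (j + 1) ≤ ((P j : ℝ) - Xs P x j + 1 - Gp P ν x C (j + 2)) / P (j + 1) := by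
  have hp : (0 : ℝ) < P (j + 1) := by exact_mod_cast hP _
  have h1 := bn_le (ν := ν) (C := C) (x := x) hP hm j (fun i hi => hG i (by omega))
  have h3 : max (bn P ν C j - 1) 0 ≤ x j := max_le (by linarith) (Nat.cast_nonneg _)
  have hGd : Gp P ν x C (j + 2) =
    Ss P ν (j + 1) + (x (j + 1) : ℝ) * P (j + 1) - Xs P x (j + 1) - C (j + 1) := rfl
  rw [hGd, hz]
  change ((C (j + 1) : ℝ) - Ss P ν (j + 1) + P (j + 1)) / P (j + 1) +
      1 / P (j + 1) * max (bn P ν C j - 1) 0 ≤ _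
  have e : ((C (j + 1) : ℝ) - Ss P ν (j + 1) + P (j + 1)) / P (j + 1) +
      1 / P (j + 1) * max (bn P ν C j - 1) 0 =
      ((C (j + 1) : ℝ) - Ss P ν (j + 1) + P (j + 1) + max (bn P ν C j - 1) 0) / P (j + 1) := by
    ring
  rw [e]
  refine div_le_div_of_nonneg_right ?_ hp.le
  have h4 : (1 : ℝ) ≤ (P (j + 1) : ℝ) - P j := by
    have : P j + 1 ≤ P (j + 1) := hm j
    have h5 : ((P j + 1 : ℕ) : ℝ) ≤ (P (j + 1) : ℝ) := by exact_mod_cast this
    push_cast at h5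
    linarith
  have h6 : (1 : ℝ) ≤ x j := by exact_mod_cast hj
  have h7 : (P (j + 1) : ℝ) - P j - 1 + x j ≤ (x j : ℝ) * ((P (j + 1) : ℝ) - P j) := by
    nlinarith
  rw [Xs_succ]
  push_cast
  linarith

theorem Gp_int (i : ℕ) : ∃ n : ℤ, Gp P ν x C i = n := by
  rcases i with _ | i
  · exact ⟨0, by change (0 : ℝ) = _; simp⟩
  · obtain ⟨a, ha⟩ := Xs_int P x i
    refine ⟨(∑ k ∈ range (i + 1), (ν k : ℤ) * P k) + (x i : ℤ) * P i - a - C i, ?_⟩
    change Ss P ν i + (x i : ℝ) * P i - Xs P x i - C i = _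
    rw [ha]
    unfold Ss
    push_cast
    ring

end

/-! ### Inequalities for one block -/

/-- the factor of a block -/
noncomputable def Phi (Q g o : ℝ) : ℝ := Q / (Q - g) * (1 + o / (Q + 1))

theorem Phi_nonneg {Q g o : ℝ} (hQ : 0 < Q) (hg : g < Q) (ho : 0 ≤ o) : 0 ≤ Phi Q g o := by
  refine mul_nonneg (div_nonneg hQ.le (by linarith)) ?_
  have : 0 ≤ o / (Q + 1) := div_nonneg ho (by linarith)
  linarith

/-- if `D ≤ Q + 1` then `D (1 + o/(Q+1)) ≤ D + o` -/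
theorem mul_ov {D Q o : ℝ} (hQ : 0 < Q) (hD : D ≤ Q + 1) (ho : 0 ≤ o) :
    D * (1 + o / (Q + 1)) ≤ D + o := by
  have h1 : D * (o / (Q + 1)) ≤ o := by
    rw [← mul_div_assoc, div_le_iff₀ (by linarith)]
    nlinarith
  linarith

/-- `Phi * β ≤ (1 + o/(Q+1)) θ` -/
theorem Phi_mul {Q g o β θ : ℝ} (hQ : 0 < Q) (ho : 0 ≤ o)
    (h : Q / (Q - g) * β ≤ θ) : Phi Q g o * β ≤ (1 + o / (Q + 1)) * θ := by
  have h1 : 0 ≤ 1 + o / (Q + 1) := by
    have : 0 ≤ o / (Q + 1) := div_nonneg ho (by linarith)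
    linarith
  have h2 : Phi Q g o * β = (1 + o / (Q + 1)) * (Q / (Q - g) * β) := by
    unfold Phi
    ring
  rw [h2]
  exact mul_le_mul_of_nonneg_left h h1

/-- a block of one level -/
theorem block_single {D Q R g o : ℝ} (hQ : 0 < Q) (hD0 : 0 ≤ D) (hD : D ≤ Q) (hR : 0 ≤ R)
    (ho : 0 ≤ o) (hg : g < Q) :
    D * Phi Q g o * ((Q - R - g) / Q) ≤ D + o := by
  have h1 : Q / (Q - g) * ((Q - R - g) / Q) ≤ 1 := by
    have h2 : 0 < Q - g := by linarith
    rw [div_mul_div_comm, div_le_one (by positivity)]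
    nlinarith
  have h2 := Phi_mul hQ ho h1
  calc D * Phi Q g o * ((Q - R - g) / Q) = D * (Phi Q g o * ((Q - R - g) / Q)) := by ring
    _ ≤ D * ((1 + o / (Q + 1)) * 1) := mul_le_mul_of_nonneg_left h2 hD0
    _ = D * (1 + o / (Q + 1)) := by ring
    _ ≤ D + o := mul_ov hQ (by linarith) ho

/-- a longer block with earlier losses -/
theorem block_long {D Q R g o M p : ℝ} (hQ : 0 < Q) (hD0 : 0 ≤ D) (hD : D ≤ Q) (hR : 1 ≤ R)
    (ho : 0 ≤ o) (hg0 : 0 ≤ g) (hM : 0 < M) (hMQ : M ≤ Q) (hgM : g < Q) (hp : 0 < p) :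
    D * (p / M) * Phi Q g o * ((M + 1 - g - R) / p) ≤ D + o := by
  have hQg : 0 < Q - g := by linarith
  have h1 : Q / (Q - g) * (p / M * ((M + 1 - g - R) / p)) ≤ 1 := by
    have h2 : p / M * ((M + 1 - g - R) / p) = (M + 1 - g - R) / M := by
      field_simp
    rw [h2, div_mul_div_comm, div_le_one (by positivity)]
    have h3 : 0 ≤ Q * (R - 1) := mul_nonneg hQ.le (by linarith)
    have h4 : 0 ≤ g * (Q - M) := mul_nonneg hg0 (by linarith)
    nlinarith
  have h2 := Phi_mul hQ ho h1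
  calc D * (p / M) * Phi Q g o * ((M + 1 - g - R) / p)
      = D * (Phi Q g o * (p / M * ((M + 1 - g - R) / p))) := by ring
    _ ≤ D * ((1 + o / (Q + 1)) * 1) := mul_le_mul_of_nonneg_left h2 hD0
    _ = D * (1 + o / (Q + 1)) := by ring
    _ ≤ D + o := mul_ov hQ (by linarith) ho

/-- a longer block without earlier losses -/
theorem block_fresh {D Q g o M p : ℝ} (hQ : 1 ≤ Q) (hD : D ≤ 1)
    (ho : 0 ≤ o) (hg0 : g = 0 ∨ 1 ≤ g) (hM : 1 ≤ M) (hMQ : M ≤ Q)
    (hgQ : g ≤ Q - 1) (hp : 0 < p) (hgM : g ≤ M) :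
    D * (p / M) * Phi Q g o * ((M + 1 - g) / p) ≤ 2 + o := by
  have hQ0 : 0 < Q := by linarith
  have hQg : 0 < Q - g := by linarith
  have hM0 : 0 < M := by linarith
  have h1 : Q / (Q - g) * (p / M * ((M + 1 - g) / p)) ≤ 2 := by
    have h2 : p / M * ((M + 1 - g) / p) = (M + 1 - g) / M := by
      field_simp
    rw [h2, div_mul_div_comm, div_le_iff₀ (by positivity)]
    rcases hg0 with h0 | h0
    · rw [h0]
      nlinarith
    · -- `Q (M + 1 - g) ≤ 2 (Q - g) M`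
      have h3 : Q * (M + 1 - g) ≤ M * (Q + 1 - g) := by
        have : 0 ≤ (g - 1) * (Q - M) := mul_nonneg (by linarith) (by linarith)
        nlinarith
      have h4 : M * (Q + 1 - g) ≤ 2 * ((Q - g) * M) := by
        have : 0 ≤ M * (Q - g - 1) := mul_nonneg hM0.le (by linarith)
        nlinarith
      linarith
  have h2 := Phi_mul hQ0 ho h1
  have h3 : 0 ≤ Phi Q g o * (p / M * ((M + 1 - g) / p)) := by
    refine mul_nonneg (Phi_nonneg hQ0 (by linarith) ho) ?_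
    exact mul_nonneg (div_nonneg hp.le hM0.le) (div_nonneg (by linarith) hp.le)
  calc D * (p / M) * Phi Q g o * ((M + 1 - g) / p)
      = D * (Phi Q g o * (p / M * ((M + 1 - g) / p))) := by ring
    _ ≤ 1 * (Phi Q g o * (p / M * ((M + 1 - g) / p))) := mul_le_mul_of_nonneg_right hD h3
    _ ≤ (1 + o / (Q + 1)) * 2 := by rw [one_mul]; exact h2
    _ = 2 * (1 + o / (Q + 1)) := by ring
    _ ≤ 2 + o := mul_ov hQ0 (by linarith) ho

end MP76b19e.Rob
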