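import Mathlib

/-!
# Two slots in the top level, the factor `1`: the numerical inequalities (problem MP_76b19e_co)

`l2t`: the comparison for two tops. `na0`, `na1`, `na2`, `na3`: the bounds for its coefficient.
-/

set_option autoImplicit false

namespace MP76b19e.Rob.NE2

/-- the comparison for two tops -/
theorem l2t {x y g κ φ1 φ2 S1 S2 : ℝ} (hx : 0 < x) (hy : 0 < y) (hg : 0 < g) (hS1 : 0 ≤ S1)
    (hS2 : 0 ≤ S2) (h10 : 0 ≤ φ1) (h20 : 0 ≤ φ2) (h1 : φ1 ≤ y) (h1' : φ1 ≤ g / 2)
    (h2 : φ2 ≤ x) (h2' : φ2 ≤ g / 2)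
    (hκ : κ ≤ g / 2 ∨ κ ≤ g - (x + y) / 4 ∨ (κ * (x + y) ≤ g ^ 2 ∧ 2 * g ≤ x + y)) :
    κ * (x + y) + φ1 * S1 + φ2 * S2 ≤ y * max x (g + S1) + x * max y (g + S2) - x * y := by
  -- the two bounds of every term
  have a1 : y * g + φ1 * S1 ≤ y * max x (g + S1) := by
    have e1 : y * (g + S1) ≤ y * max x (g + S1) := mul_le_mul_of_nonneg_left (le_max_right _ _) hy.le
    have e2 : φ1 * S1 ≤ y * S1 := mul_le_mul_of_nonneg_right h1 hS1
    linarith
  have b1 : y * x + φ1 * (g - x) + φ1 * S1 ≤ y * max x (g + S1) := by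
    rcases le_total x (g + S1) with h | h
    · rw [max_eq_right h]
      have : φ1 * (g + S1 - x) ≤ y * (g + S1 - x) := mul_le_mul_of_nonneg_right h1 (by linarith)
      linarith
    · rw [max_eq_left h]
      have : φ1 * (g + S1 - x) ≤ 0 := mul_nonpos_of_nonneg_of_nonpos h10 (by linarith)
      linarith
  have a2 : x * g + φ2 * S2 ≤ x * max y (g + S2) := by
    have e1 : x * (g + S2) ≤ x * max y (g + S2) := mul_le_mul_of_nonneg_left (le_max_right _ _) hx.le
    have e2 : φ2 * S2 ≤ x * S2 := mul_le_mul_of_nonneg_right h2 hS2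
    linarith
  have b2 : x * y + φ2 * (g - y) + φ2 * S2 ≤ x * max y (g + S2) := by
    rcases le_total y (g + S2) with h | h
    · rw [max_eq_right h]
      have : φ2 * (g + S2 - y) ≤ x * (g + S2 - y) := mul_le_mul_of_nonneg_right h2 (by linarith)
      linarith
    · rw [max_eq_left h]
      have : φ2 * (g + S2 - y) ≤ 0 := mul_nonpos_of_nonneg_of_nonpos h20 (by linarith)
      linarith
  have hn : 0 < x + y := by linarith
  rcases le_total x g with hxg | hxg <;> rcases le_total y g with hyg | hyg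
  · -- both at most `g`
    have key : κ * (x + y) ≤ g * (x + y) - x * y := by
      rcases hκ with h | h | ⟨h, h'⟩
      · have e1 := mul_le_mul_of_nonneg_right h hn.le
        nlinarith [mul_nonneg hx.le (sub_nonneg.2 hyg), mul_nonneg hy.le (sub_nonneg.2 hxg)]
      · have e1 := mul_le_mul_of_nonneg_right h hn.le
        nlinarith [sq_nonneg (x - y)]
      · have e1 : x = g := by linarith
        have e2 : y = g := by linarith
        rw [e1, e2] at h ⊢
        nlinarith
    linarith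
  · -- `x ≤ g ≤ y`
    have key : κ * (x + y) ≤ y * g + φ2 * (g - y) := by
      rcases hκ with h | h | ⟨h, _⟩
      · have e1 := mul_le_mul_of_nonneg_right h hn.le
        nlinarith [mul_nonneg (sub_nonneg.2 hyg) (sub_nonneg.2 h2'),
          mul_nonneg (sub_nonneg.2 hxg) hg.le]
      · have e1 := mul_le_mul_of_nonneg_right h hn.le
        nlinarith [mul_nonneg (sub_nonneg.2 hyg) (sub_nonneg.2 h2), sq_nonneg (y - x)]
      · nlinarith [mul_nonneg (sub_nonneg.2 hyg) (show 0 ≤ g - φ2 by linarith)]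
    linarith
  · -- `y ≤ g ≤ x`
    have key : κ * (x + y) ≤ x * g + φ1 * (g - x) := by
      rcases hκ with h | h | ⟨h, _⟩
      · have e1 := mul_le_mul_of_nonneg_right h hn.le
        nlinarith [mul_nonneg (sub_nonneg.2 hxg) (sub_nonneg.2 h1'),
          mul_nonneg (sub_nonneg.2 hyg) hg.le]
      · have e1 := mul_le_mul_of_nonneg_right h hn.le
        nlinarith [mul_nonneg (sub_nonneg.2 hxg) (sub_nonneg.2 h1), sq_nonneg (y - x)]
      · nlinarith [mul_nonneg (sub_nonneg.2 hxg) (show 0 ≤ g - φ1 by linarith)]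
    linarith
  · -- both at least `g`
    have hxy := mul_nonneg (sub_nonneg.2 hxg) (sub_nonneg.2 hyg)
    have c1 : φ1 * (x - g) ≤ g / 2 * (x - g) := mul_le_mul_of_nonneg_right h1' (by linarith)
    have c2 : φ2 * (y - g) ≤ g / 2 * (y - g) := mul_le_mul_of_nonneg_right h2' (by linarith)
    have key : κ * (x + y) ≤ x * y + φ1 * (g - x) + φ2 * (g - y) := by
      rcases hκ with h | h | ⟨h, h'⟩
      · have e1 := mul_le_mul_of_nonneg_right h hn.le
        nlinarith
      · have h3 : κ ≤ g / 2 := by linarith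
        have e1 := mul_le_mul_of_nonneg_right h3 hn.le
        nlinarith
      · have e1 : 0 ≤ g * (x + y - 2 * g) := mul_nonneg hg.le (by linarith)
        nlinarith
    linarith

/-- no base: the coefficient -/
theorem na0 {p O m : ℝ} (hp : p = 2 ∨ 3 ≤ p) (hO : O = 0 ∨ 1 ≤ O) (hOm : O ≤ m - 2)
    (hm : m ≤ 2 * p + 1) :
    1 + (1 + O / p) * (m - 1 + O) ≤ m * ((2 + O) / 2) ∨
      1 + (1 + O / p) * (m - 1 + O) ≤ m * (2 + O) - m ^ 2 / 4 := by
  rcases hO with h0 | h1
  · left
    rw [h0]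
    simp only [zero_div, add_zero, one_mul]
    linarith
  have hm3 : 3 ≤ m := by linarith
  rcases hp with h2 | h3
  · right
    rw [h2] at hm ⊢
    nlinarith [mul_nonneg (show 0 ≤ O - 1 by linarith) (show 0 ≤ m - 2 - O by linarith),
      mul_nonneg (show 0 ≤ m - 3 by linarith) (show 0 ≤ 5 - m by linarith)]
  · have hp0 : 0 < p := by linarith
    set z := (m - 1 + O) / p with hz
    have hzp : z * p = m - 1 + O := by
      rw [hz]
      field_simp
    have e1 : 1 + (1 + O / p) * (m - 1 + O) = m + O + O * z := by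
      rw [hz]
      field_simp
      ring
    rw [e1]
    rcases le_total (1 + z) (m / 2) with hA | hA
    · left
      have := mul_le_mul_of_nonneg_left hA (show 0 ≤ O by linarith)
      linarith
    · right
      have hz1 : (m - 2) / 2 ≤ z := by linarith
      have hz0 : 0 ≤ z := by linarith
      have hz3 : 3 * z ≤ m - 1 + O := by
        rw [← hzp]
        nlinarith
      have hz2 : z ≤ (2 * m - 3) / 3 := by linarith
      have hO3 : 3 * z - (m - 1) ≤ O := by linarith
      -- `O (m - 1 - z) ≥ m (m - 4) / 4`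
      have hmz : 0 ≤ m - 1 - z := by linarith
      have e2 : (3 * z - (m - 1)) * (m - 1 - z) ≤ O * (m - 1 - z) :=
        mul_le_mul_of_nonneg_right hO3 hmz
      have e3 : 0 ≤ (z - (m - 2) / 2) * ((5 * m - 2) / 6 - z) :=
        mul_nonneg (by linarith) (by linarith)
      nlinarith

/-- no base: the alternatives for two tops -/
theorem na0' {N m g n W κ : ℝ} (hm : 0 < m) (hn : 0 < n) (hWm : m ≤ W) (hWn : n ≤ W)
    (hN0 : 0 ≤ N) (hκ : κ ≤ N / W)
    (hN : N ≤ m * (g / 2) ∨ N ≤ m * g - m ^ 2 / 4) :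
    κ ≤ g / 2 ∨ κ ≤ g - n / 4 ∨ (κ * n ≤ g ^ 2 ∧ 2 * g ≤ n) := by
  have hW : 0 < W := by linarith
  have hκm : κ * m ≤ N := by
    have h1 : N / W ≤ N / m := div_le_div_of_nonneg_left hN0 hm hWm
    have h2 : κ ≤ N / m := hκ.trans h1
    rwa [le_div_iff₀ hm] at h2
  have hκn : κ * n ≤ N := by
    have h1 : N / W ≤ N / n := div_le_div_of_nonneg_left hN0 hn hWn
    have h2 : κ ≤ N / n := hκ.trans h1
    rwa [le_div_iff₀ hn] at h2
  rcases hN with h | h
  · left
    have h1 : κ * m ≤ g / 2 * m := by linarith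
    exact le_of_mul_le_mul_right h1 hm
  · rcases le_total n m with hnm | hnm
    · right
      left
      have h1 : κ * m ≤ (g - m / 4) * m := by nlinarith
      have h2 : κ ≤ g - m / 4 := le_of_mul_le_mul_right h1 hm
      linarith
    · rcases le_total n (2 * g) with h2 | h2
      · right
        left
        have h3 : κ * n ≤ (g - n / 4) * n := by
          nlinarith [mul_nonneg (sub_nonneg.2 hnm) (show 0 ≤ 4 * g - n - m by linarith)]
        exact le_of_mul_le_mul_right h3 hn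
      · right
        right
        refine ⟨?_, h2⟩
        nlinarith [sq_nonneg (m - 2 * g)]

/-- the slope of the chord -/
theorem tau_le {p c τ : ℝ} (hp : 2 ≤ p) (hc : 1 ≤ c) (hτ : τ = max 0 (2 - c / (p - 1)) / (c + 2)) :
    0 ≤ τ ∧ τ * (c + 2) ≤ 2 ∧ τ ≤ 2 / 3 ∧ (p = 2 → τ ≤ 1 / 3) := by
  have h0 : 0 ≤ max 0 (2 - c / (p - 1)) := le_max_left _ _
  have h1 : 0 ≤ τ := by
    rw [hτ]
    exact div_nonneg h0 (by linarith)
  have h2 : τ * (c + 2) = max 0 (2 - c / (p - 1)) := by
    rw [hτ]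
    exact div_mul_cancel₀ _ (by linarith)
  have h3 : τ * (c + 2) ≤ 2 := by
    rw [h2]
    have : 0 ≤ c / (p - 1) := div_nonneg (by linarith) (by linarith)
    exact max_le (by norm_num) (by linarith)
  refine ⟨h1, h3, by nlinarith, fun hp2 => ?_⟩
  have h4 : τ * (c + 2) ≤ max 0 (2 - c) := by
    rw [h2, hp2]
    norm_num
  rcases le_total 0 (2 - c) with h5 | h5
  · rw [max_eq_right h5] at h4
    nlinarith
  · rw [max_eq_left h5] at h4
    nlinarith

/-- a base, `D = 1`: the coefficient -/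
theorem na1 {p O l c W τ : ℝ} (hp : p = 2 ∨ 3 ≤ p) (hO : 0 ≤ O) (hOl : O ≤ l) (hc : 1 ≤ c)
    (hWl : 2 + l ≤ W) (hWc : c + 2 ≤ W) (hτ : τ = max 0 (2 - c / (p - 1)) / (c + 2)) :
    (2 + O / p) / W + (1 + O / p) * (l + O) * ((1 + τ * W) / (W * (W + 1))) ≤ (2 + O) / 2 := by
  have hp2 : 2 ≤ p := by
    rcases hp with h | h <;> linarith
  have hp0 : 0 < p := by linarith
  obtain ⟨h1, h2, h3, h4⟩ := tau_le hp2 hc hτ
  have hW : 0 < W := by linarith
  have hf : 0 ≤ 1 + O / p := by positivity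
  have hlO : 0 ≤ (1 + O / p) * (l + O) := mul_nonneg hf (by linarith)
  have key : ∀ θ : ℝ, 1 + τ * W ≤ θ * (W + 1) →
      (2 + O / p) + (1 + O / p) * (l + O) * θ ≤ (2 + l) * ((2 + O) / 2) →
      (2 + O / p) / W + (1 + O / p) * (l + O) * ((1 + τ * W) / (W * (W + 1))) ≤ (2 + O) / 2 := by
    intro θ h5 h6
    have h7 : (1 + τ * W) / (W * (W + 1)) ≤ θ / W := by
      rw [div_le_div_iff₀ (by positivity) hW]
      have := mul_le_mul_of_nonneg_right h5 hW.le
      linarith
    have h8 := mul_le_mul_of_nonneg_left h7 hlO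
    have h9 : (2 + O / p) / W + (1 + O / p) * (l + O) * (θ / W) =
        ((2 + O / p) + (1 + O / p) * (l + O) * θ) / W := by
      field_simp
    have h10 : ((2 + O / p) + (1 + O / p) * (l + O) * θ) / W ≤ (2 + O) / 2 := by
      rw [div_le_iff₀ hW]
      have : (2 + l) * ((2 + O) / 2) ≤ (2 + O) / 2 * W := by nlinarith
      linarith
    linarith
  rcases hp with h | h
  · refine key (1 / 2) ?_ ?_
    · have := h4 h
      nlinarith
    · rw [h]
      nlinarith [mul_nonneg hO (sub_nonneg.2 hOl)]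
  · refine key (3 / 4) ?_ ?_
    · nlinarith
    · have h5 : O / p ≤ O / 3 := div_le_div_of_nonneg_left hO (by norm_num) h
      have h6 : (1 + O / p) * (l + O) ≤ (1 + O / 3) * (l + O) :=
        mul_le_mul_of_nonneg_right (by linarith) (by linarith)
      nlinarith [mul_nonneg hO (sub_nonneg.2 hOl)]

/-- a base: the coefficient of the shared masses -/
theorem nphi {f c W τ n : ℝ} (hf : 0 ≤ f) (hc : 1 ≤ c) (hτ0 : 0 ≤ τ) (hτ : τ * (c + 2) ≤ 2)
    (hWc : c + 2 ≤ W) (hn : n ≤ W + c) : f * τ * n / (W + 1) ≤ 2 / 3 * f := by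
  have hW : 0 < W + 1 := by linarith
  rw [div_le_iff₀ hW]
  have h1 : τ * n ≤ τ * (W + c) := mul_le_mul_of_nonneg_left hn hτ0
  have h2 : τ * (W + c) ≤ 2 / 3 * (W + 1) := by
    -- `3 τ (W + c) ≤ 2 (W + 1)`
    have h3 : τ * (c + 2) * (W + c) ≤ 2 * (W + c) := mul_le_mul_of_nonneg_right hτ (by linarith)
    have h4 : 3 * (2 * (W + c)) ≤ 2 * (W + 1) * (c + 2) := by
      nlinarith [mul_nonneg (show 0 ≤ c - 1 by linarith) (show 0 ≤ W - (c + 2) by linarith),
        mul_nonneg (show 0 ≤ c - 1 by linarith) (show 0 ≤ c by linarith)]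
    have h5 : (3 * (τ * (W + c))) * (c + 2) ≤ (2 * (W + 1)) * (c + 2) := by nlinarith
    have h6 := le_of_mul_le_mul_right h5 (by linarith)
    linarith
  have h3 := mul_le_mul_of_nonneg_left (h1.trans h2) hf
  calc f * τ * n = f * (τ * n) := by ring
    _ ≤ f * (2 / 3 * (W + 1)) := h3
    _ = _ := by ring

/-- a base, `D = 2, 3`: the coefficient -/
theorem na2 {D O l W τ : ℝ} (hD2 : 2 ≤ D) (hD3 : D ≤ 3) (hO : 0 ≤ O) (hOl : O ≤ l)
    (hWl : D + 1 + l ≤ W) (hτ : τ ≤ 2 / 3) :
    D * (2 / W + (l + O) * ((1 + τ * W) / (W * (W + 1)))) ≤ (D + 1 + O) / 2 := by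
  have hW : 0 < W := by linarith
  have h1 : (1 + τ * W) / (W * (W + 1)) ≤ (2 / 3 + 1 / (3 * (l + D + 2))) / W := by
    rw [div_le_div_iff₀ (by positivity) hW]
    have h2 : 1 / (3 * (l + D + 2)) * (W + 1) ≥ 1 / 3 := by
      rw [ge_iff_le, div_mul_eq_mul_div, one_mul, div_le_div_iff₀ (by norm_num) (by linarith)]
      linarith
    have h3 : τ * W ≤ 2 / 3 * W := mul_le_mul_of_nonneg_right hτ hW.le
    have h4 : 1 + τ * W ≤ (2 / 3 + 1 / (3 * (l + D + 2))) * (W + 1) := by
      have : (2 / 3 + 1 / (3 * (l + D + 2))) * (W + 1) =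
        2 / 3 * (W + 1) + 1 / (3 * (l + D + 2)) * (W + 1) := by ring
      linarith
    have := mul_le_mul_of_nonneg_right h4 hW.le
    linarith
  have h2 := mul_le_mul_of_nonneg_left h1 (show 0 ≤ l + O by linarith)
  have h3 : D * (2 / W + (l + O) * ((2 / 3 + 1 / (3 * (l + D + 2))) / W)) ≤ (D + 1 + O) / 2 := by
    have h4 : D * (2 / W + (l + O) * ((2 / 3 + 1 / (3 * (l + D + 2))) / W)) =
        D * (2 + (l + O) * (2 / 3 + 1 / (3 * (l + D + 2)))) / W := by
      field_simp
    rw [h4, div_le_iff₀ hW]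
    have h5 : (D + 1 + O) / 2 * (D + 1 + l) ≤ (D + 1 + O) / 2 * W :=
      mul_le_mul_of_nonneg_left hWl (by linarith)
    refine le_trans ?_ h5
    have hd : 0 < l + D + 2 := by linarith
    have h6 : (l + O) * (1 / (3 * (l + D + 2))) = (l + O) / (l + D + 2) / 3 := by
      field_simp
    set Y := (l + O) / (l + D + 2) with hY
    have hYm : Y * (l + D + 2) = l + O := by
      rw [hY]
      field_simp
    have hY0 : 0 ≤ Y := div_nonneg (by linarith) hd.le
    have h7 : D * (2 + (l + O) * (2 / 3 + 1 / (3 * (l + D + 2)))) =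
        2 * D + 2 / 3 * D * (l + O) + D * Y / 3 := by
      rw [mul_add (l + O), h6]
      ring
    rw [h7]
    have hY2 : Y ≤ 2 := by
      rw [hY, div_le_iff₀ hd]
      linarith
    rw [← hYm]
    nlinarith [mul_nonneg hO (sub_nonneg.2 hOl), mul_nonneg (sub_nonneg.2 hD2) (sub_nonneg.2 hD3),
      mul_nonneg (sub_nonneg.2 hD3) hY0, mul_nonneg (sub_nonneg.2 hD2) hY0,
      mul_nonneg (mul_nonneg (sub_nonneg.2 hD3) hY0) (show 0 ≤ l by linarith)]
  have h8 := mul_le_mul_of_nonneg_left h2 (show 0 ≤ D by linarith)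
  nlinarith

/-- no base, `D = 2, 3`: the coefficient -/
theorem na3k {D O l W κ : ℝ} (hD : D = 2 ∨ D = 3) (hO : O = 0 ∨ 1 ≤ O) (hOl : O ≤ l)
    (hl : 0 ≤ l) (hWl : D + 1 + l ≤ W) (hκ : κ ≤ 2 * D / W + (l + O) * ((1 + D / W) / (W + 1))) :
    κ ≤ 2 * D / (D + 1) + 3 / 10 * O := by
  have hD0 : 2 ≤ D := by rcases hD with h | h <;> linarith
  have hO0 : 0 ≤ O := by rcases hO with h | h <;> linarith
  have hW : 0 < W := by linarith
  have h1 : 2 * D / W ≤ 2 * D / (D + 1 + l) :=
    div_le_div_of_nonneg_left (by linarith) (by linarith) hWl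
  have h2 : (1 + D / W) / (W + 1) ≤ (1 + D / (D + 1 + l)) / (D + 2 + l) := by
    refine div_le_div₀ ?_ ?_ (by linarith) (by linarith)
    · have : 0 ≤ D / (D + 1 + l) := div_nonneg (by linarith) (by linarith)
      linarith
    · have : D / W ≤ D / (D + 1 + l) := div_le_div_of_nonneg_left (by linarith) (by linarith) hWl
      linarith
  have h3 := mul_le_mul_of_nonneg_left h2 (show 0 ≤ l + O by linarith)
  refine hκ.trans (le_trans (add_le_add h1 h3) ?_)
  have e1 : 2 * D / (D + 1 + l) + (l + O) * ((1 + D / (D + 1 + l)) / (D + 2 + l)) =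
      (2 * D * (D + 2 + l) + (l + O) * (2 * D + 1 + l)) / ((D + 1 + l) * (D + 2 + l)) := by
    have : D + 1 + l ≠ 0 := by linarith
    have : D + 2 + l ≠ 0 := by linarith
    field_simp
    ring
  rw [e1, div_le_iff₀ (mul_pos (by linarith) (by linarith))]
  rcases hD with h | h <;> subst h
  · rcases hO with h | h
    · subst h
      norm_num
      nlinarith [mul_nonneg hl hl]
    · have hl1 : 1 ≤ l := by linarith
      have h5 : 0 ≤ O * (3 / 10 * ((2 + 1 + l) * (2 + 2 + l)) - (5 + l)) :=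
        mul_nonneg hO0 (by nlinarith)
      norm_num
      nlinarith [mul_nonneg hl hl]
  · rcases hO with h | h
    · subst h
      norm_num
      nlinarith [mul_nonneg hl hl]
    · have hl1 : 1 ≤ l := by linarith
      have h5 : 0 ≤ O * (3 / 10 * ((3 + 1 + l) * (3 + 2 + l)) - (7 + l)) :=
        mul_nonneg hO0 (by nlinarith)
      norm_num
      nlinarith [mul_nonneg hl hl]

/-- no base, `D = 2, 3`, one top of mass one -/
theorem na3 {D O x y g κ S1 S2 : ℝ} (hD : D = 2 ∨ D = 3) (hO : 0 ≤ O) (hx : x = 1)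
    (hy : 1 ≤ y) (hg : g = D + 1 + O) (hκ : κ ≤ 2 * D / (D + 1) + 3 / 10 * O) (hS1 : 0 ≤ S1)
    (hS2 : 0 ≤ S2) :
    κ * (x + y) + y / (y + 2) * S1 + x / (x + 2) * S2 + 2 * (D - 1) ≤
      y * max x (g + S1) + x * max y (g + S2) - x * y := by
  subst hx
  have hD0 : 2 ≤ D := by rcases hD with h | h <;> linarith
  have h1 : y * (g + S1) ≤ y * max 1 (g + S1) :=
    mul_le_mul_of_nonneg_left (le_max_right _ _) (by linarith)
  have h2 : y / (y + 2) * S1 ≤ y * S1 := by
    refine mul_le_mul_of_nonneg_right ?_ hS1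
    exact div_le_self (by linarith) (by linarith)
  have h3 : (1 : ℝ) / (1 + 2) * S2 = S2 / 3 := by ring
  have hκ' : κ * (1 + y) ≤ (2 * D / (D + 1) + 3 / 10 * O) * (1 + y) :=
    mul_le_mul_of_nonneg_right hκ (by linarith)
  rw [h3, one_mul]
  rcases le_total y g with hyg | hyg
  · have h4 : g + S2 ≤ max y (g + S2) := le_max_right _ _
    have key : (2 * D / (D + 1) + 3 / 10 * O) * (1 + y) + 2 * (D - 1) ≤ g * (1 + y) - y := by
      rw [hg]
      rcases hD with h | h <;> subst h <;> norm_num <;>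
        nlinarith [mul_nonneg hO (show 0 ≤ y - 1 by linarith)]
    nlinarith
  · have h4 : y + (g + S2 - y) / 3 ≤ max y (g + S2) := by
      rcases le_total y (g + S2) with h | h
      · rw [max_eq_right h]
        linarith
      · rw [max_eq_left h]
        linarith
    have key : (2 * D / (D + 1) + 3 / 10 * O) * (1 + y) + 2 * (D - 1) ≤ y * g - (y - g) / 3 := by
      rw [hg] at hyg ⊢
      rcases hD with h | h <;> subst h <;> norm_num at hyg ⊢ <;>
        nlinarith [mul_nonneg hO (show 0 ≤ y - 1 by linarith), mul_nonneg hO hO]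
    nlinarith

end MP76b19e.Rob.NE2
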