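import Pool.Agent.Lib.MP76b19e.Rob.NumE2

/-!
# Two slots in the top level, the factor `1`: one low (problem MP_76b19e_co)

`lowA`: one low, no base. `lowB`: one low, with a base.
-/

set_option autoImplicit false

namespace MP76b19e.Rob.NE2

/-- the chord -/
theorem chord {p c u τ : ℝ} (hp : 2 ≤ p) (hc : 1 ≤ c) (hu : 1 ≤ u) (hup : u ≤ p)
    (hτ : τ = max 0 (2 - c / (p - 1)) / (c + 2)) :
    p * ((1 + c / (c + 1 + u)) / (u + c)) - 1 ≤ τ * (p - u) := by
  obtain ⟨q, rfl⟩ : ∃ q, p = q + 1 := ⟨p - 1, by ring⟩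
  obtain ⟨v, rfl⟩ : ∃ v, u = v + 1 := ⟨u - 1, by ring⟩
  have hq : 1 ≤ q := by linarith
  have hv : 0 ≤ v := by linarith
  have hvq : 0 ≤ q - v := by linarith
  have e1 : (q + 1) * ((1 + c / (c + 1 + (v + 1))) / (v + 1 + c)) =
      (q + 1) * (2 * c + 2 + v) / ((c + 2 + v) * (c + 1 + v)) := by
    have h1 : c + 1 + (v + 1) ≠ 0 := by linarith
    have h2 : v + 1 + c ≠ 0 := by linarith
    have h3 : c + 2 + v ≠ 0 := by linarith
    have h4 : c + 1 + v ≠ 0 := by linarith
    field_simp
    ring
  have hd : 0 < (c + 2 + v) * (c + 1 + v) := mul_pos (by linarith) (by linarith)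
  have key : (q + 1) * (2 * c + 2 + v) ≤ (1 + τ * (q - v)) * ((c + 2 + v) * (c + 1 + v)) := by
    rcases le_total 0 (2 - c / q) with h | h
    · have e2 : q + 1 - 1 = q := by ring
      rw [e2, max_eq_right h] at hτ
      have hcq : c ≤ 2 * q := by
        have h2 : c / q * q = c := by
          field_simp
        nlinarith
      have hτq : τ * (q * (c + 2)) = 2 * q - c := by
        rw [hτ]
        field_simp
      have hqc : 0 < q * (c + 2) := by positivity
      refine le_of_mul_le_mul_left ?_ hqc
      have e3 : q * (c + 2) * ((1 + τ * (q - v)) * ((c + 2 + v) * (c + 1 + v))) =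
          (q * (c + 2) + (2 * q - c) * (q - v)) * ((c + 2 + v) * (c + 1 + v)) := by
        rw [← hτq]
        ring
      rw [e3]
      have h0 : 0 ≤ -2 * (c + 1) * q * (c + 2) + c * (c + 1) * (c + 2) +
          (q + 1) * q * (3 * c + 4) := by
        nlinarith [sq_nonneg (q - c), mul_nonneg (show 0 ≤ 2 * q - c by linarith)
          (show 0 ≤ c by linarith), mul_nonneg (mul_nonneg (show 0 ≤ 2 * q - c by linarith)
          (show 0 ≤ c by linarith)) (show 0 ≤ q by linarith), sq_nonneg (2 * q - c),
          mul_nonneg (sq_nonneg (q - c)) (show 0 ≤ c by linarith)]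
      -- `q N (v) = v (q h (v))`
      have hN : q * ((q * (c + 2) + (2 * q - c) * (q - v)) * ((c + 2 + v) * (c + 1 + v)) -
          q * (c + 2) * ((q + 1) * (2 * c + 2 + v))) =
          v * ((-2 * (c + 1) * q * (c + 2) + c * (c + 1) * (c + 2) + (q + 1) * q * (3 * c + 4)) *
            (q - v) + (c + 2) * c * (c + 1) * v + q * (2 * q - c) * v * (q - v)) := by
        ring
      have h5 : 0 ≤ v * ((-2 * (c + 1) * q * (c + 2) + c * (c + 1) * (c + 2) +
            (q + 1) * q * (3 * c + 4)) *
            (q - v) + (c + 2) * c * (c + 1) * v + q * (2 * q - c) * v * (q - v)) := by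
        have h6 := mul_nonneg h0 hvq
        have h7 : 0 ≤ (c + 2) * c * (c + 1) * v := by positivity
        have h8 : 0 ≤ q * (2 * q - c) * v * (q - v) :=
          mul_nonneg (mul_nonneg (mul_nonneg (by linarith) (by linarith)) hv) hvq
        exact mul_nonneg hv (by linarith)
      rw [← hN] at h5
      have h6 := nonneg_of_mul_nonneg_right h5 (by linarith : (0 : ℝ) < q)
      linarith
    · have e2 : q + 1 - 1 = q := by ring
      rw [e2, max_eq_left h, zero_div] at hτ
      have hcq : 2 * q ≤ c := by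
        have h2 : c / q * q = c := by
          field_simp
        nlinarith
      rw [hτ, zero_mul, add_zero, one_mul]
      nlinarith [mul_nonneg hv (show 0 ≤ c - 2 * q by linarith), mul_nonneg hv hv]
  rw [e1]
  have h1 : (q + 1) * (2 * c + 2 + v) / ((c + 2 + v) * (c + 1 + v)) ≤ 1 + τ * (q - v) := by
    rw [div_le_iff₀ hd]
    exact key
  have e4 : q + 1 - (v + 1) = q - v := by ring
  rw [e4]
  linarith

/-- one low, no base -/
theorem lowA {x y e mu s1 s2 s12 p W cu F12 F1 F2 F : ℝ} (hx : 1 ≤ x) (hy : 1 ≤ y) (he : 0 ≤ e)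
    (hmu : 1 ≤ mu) (h1 : s1 = 0 ∨ 1 ≤ s1) (h2 : s2 = 0 ∨ 1 ≤ s2) (h12 : s12 = 0 ∨ 1 ≤ s12)
    (hW : W = x + y + e) (hcu : cu = mu + s1 + s2 + s12) (hcp : cu ≤ p)
    (hF12 : F12 = (1 / x + 1 / y) / W) (hF1 : F1 = (1 / x + 1 / mu) / (x + (mu + s1)))
    (hF2 : F2 = (1 / y + 1 / mu) / (y + (mu + s2))) (hF : F = (F12 + F1 + F2) / (W + cu)) :
    ∃ Z : ℝ, 0 ≤ Z ∧ x * y * (p * F - F12) ≤ (p - cu) * (x + y) / (W * (W + 1)) + Z / mu ∧
      Z ≤ (p - cu) * (x + y) / (W + 1) + x / (x + 2) * (s1 + s12) + y / (y + 2) * (s2 + s12) ∧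
      (p ≤ W + cu → Z ≤ x + y) := by
  have h10 : 0 ≤ s1 := by rcases h1 with h | h <;> linarith
  have h20 : 0 ≤ s2 := by rcases h2 with h | h <;> linarith
  have h120 : 0 ≤ s12 := by rcases h12 with h | h <;> linarith
  have hx0 : 0 < x := by linarith
  have hy0 : 0 < y := by linarith
  have hmu0 : 0 < mu := by linarith
  have hW0 : 0 < W := by linarith
  have hV : 0 < W + cu := by linarith
  set a := s1 / (x + (mu + s1)) with ha
  set b := s2 / (y + (mu + s2)) with hb
  have hA : 0 < x + (mu + s1) := by linarith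
  have hB : 0 < y + (mu + s2) := by linarith
  have ha1 : a * (x + (mu + s1)) = s1 := by
    rw [ha]
    field_simp
  have hb1 : b * (y + (mu + s2)) = s2 := by
    rw [hb]
    field_simp
  have ha0 : 0 ≤ a := div_nonneg h10 hA.le
  have hb0 : 0 ≤ b := div_nonneg h20 hB.le
  set N := (p - cu) * (x + y) + s12 * (x + y) + (s1 * x + x * y * a) + (s2 * y + x * y * b) with hN
  have hN0 : 0 ≤ N := by
    have h3 : 0 ≤ (p - cu) * (x + y) := mul_nonneg (by linarith) (by linarith)
    have h4 : 0 ≤ s12 * (x + y) := mul_nonneg h120 (by linarith)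
    positivity
  refine ⟨N / (W + cu), div_nonneg hN0 hV.le, ?_, ?_, ?_⟩
  · have e1 : x * y * F12 = (x + y) / W := by
      rw [hF12]
      field_simp
      ring
    have e2 : x * y * F1 = y * (1 - a) / mu := by
      have h3 : 1 - a = (x + mu) / (x + (mu + s1)) := by
        rw [ha]
        field_simp
        ring
      rw [hF1, h3]
      field_simp
      ring
    have e3 : x * y * F2 = x * (1 - b) / mu := by
      have h3 : 1 - b = (y + mu) / (y + (mu + s2)) := by
        rw [hb]
        field_simp
        ring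
      rw [hF2, h3]
      field_simp
      ring
    have e4 : x * y * (p * F - F12) = ((p - cu) * (x + y) / W +
        (p * (y * (1 - a) + x * (1 - b)) / mu - (x + y))) / (W + cu) := by
      have h3 : x * y * (p * F - F12) = (p * (x * y * F12 + x * y * F1 + x * y * F2) -
          (W + cu) * (x * y * F12)) / (W + cu) := by
        rw [hF]
        field_simp
      rw [h3, e1, e2, e3]
      congr 1
      field_simp
      ring
    rw [e4]
    have h5 : p * (y * (1 - a) + x * (1 - b)) / mu - (x + y) ≤ N / mu := by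
      rw [div_sub' hmu0.ne', div_le_div_iff_of_pos_right hmu0, hN, hcu]
      have h6 : a * (x + (mu + s1)) * y ≤ a * (x + p) * y := by
        refine mul_le_mul_of_nonneg_right (mul_le_mul_of_nonneg_left ?_ ha0) hy0.le
        linarith
      have h7 : b * (y + (mu + s2)) * x ≤ b * (y + p) * x := by
        refine mul_le_mul_of_nonneg_right (mul_le_mul_of_nonneg_left ?_ hb0) hx0.le
        linarith
      rw [ha1] at h6
      rw [hb1] at h7
      nlinarith
    have h6 : ((p - cu) * (x + y) / W + (p * (y * (1 - a) + x * (1 - b)) / mu - (x + y))) /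
        (W + cu) ≤ ((p - cu) * (x + y) / W + N / mu) / (W + cu) :=
      div_le_div_of_nonneg_right (by linarith) hV.le
    refine h6.trans ?_
    rw [add_div]
    refine add_le_add ?_ (le_of_eq (by field_simp))
    rw [div_div]
    exact div_le_div_of_nonneg_left (mul_nonneg (by linarith) (by linarith)) (by positivity)
      (mul_le_mul_of_nonneg_left (by linarith) hW0.le)
  · have h3 : (p - cu) * (x + y) / (W + cu) ≤ (p - cu) * (x + y) / (W + 1) :=
      div_le_div_of_nonneg_left (mul_nonneg (by linarith) (by linarith)) (by linarith)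
        (by linarith)
    have h4 : (s1 * x + x * y * a) / (W + cu) ≤ x / (x + 2) * s1 := by
      rcases h1 with h | h
      · have : a = 0 := by rw [ha, h, zero_div]
        rw [h, this]
        simp
      · rw [div_le_iff₀ hV]
        have h5 : x / (x + 2) * s1 * (x + y + (mu + s1)) ≤ x / (x + 2) * s1 * (W + cu) :=
          mul_le_mul_of_nonneg_left (by linarith) (by positivity)
        refine le_trans ?_ h5
        have h6 : s1 * x + x * y * a = x * s1 * (x + y + (mu + s1)) / (x + (mu + s1)) := by
          rw [ha]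
          field_simp
          ring
        rw [h6, div_mul_eq_mul_div, div_mul_eq_mul_div]
        exact div_le_div_of_nonneg_left (by positivity) (by linarith) (by linarith)
    have h5 : (s2 * y + x * y * b) / (W + cu) ≤ y / (y + 2) * s2 := by
      rcases h2 with h | h
      · have : b = 0 := by rw [hb, h, zero_div]
        rw [h, this]
        simp
      · rw [div_le_iff₀ hV]
        have h5 : y / (y + 2) * s2 * (x + y + (mu + s2)) ≤ y / (y + 2) * s2 * (W + cu) :=
          mul_le_mul_of_nonneg_left (by linarith) (by positivity)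
        refine le_trans ?_ h5
        have h6 : s2 * y + x * y * b = y * s2 * (x + y + (mu + s2)) / (y + (mu + s2)) := by
          rw [hb]
          field_simp
          ring
        rw [h6, div_mul_eq_mul_div, div_mul_eq_mul_div]
        exact div_le_div_of_nonneg_left (by positivity) (by linarith) (by linarith)
    have h6 : s12 * (x + y) / (W + cu) ≤ (x / (x + 2) + y / (y + 2)) * s12 := by
      rcases h12 with h | h
      · rw [h]
        simp
      · rw [div_le_iff₀ hV]
        have h7 : x / (x + y + 2) ≤ x / (x + 2) :=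
          div_le_div_of_nonneg_left hx0.le (by linarith) (by linarith)
        have h8 : y / (x + y + 2) ≤ y / (y + 2) :=
          div_le_div_of_nonneg_left hy0.le (by linarith) (by linarith)
        have h9 : (x + y) ≤ (x / (x + 2) + y / (y + 2)) * (W + cu) := by
          have h10 : (x / (x + y + 2) + y / (x + y + 2)) * (x + y + 2) = x + y := by
            field_simp
          have h11 : (x / (x + y + 2) + y / (x + y + 2)) * (x + y + 2) ≤
              (x / (x + 2) + y / (y + 2)) * (W + cu) :=
            mul_le_mul (by linarith) (by linarith) (by linarith) (by positivity)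
          linarith
        have := mul_le_mul_of_nonneg_left h9 h120
        linarith
    have h7 : N / (W + cu) = (p - cu) * (x + y) / (W + cu) + s12 * (x + y) / (W + cu) +
        (s1 * x + x * y * a) / (W + cu) + (s2 * y + x * y * b) / (W + cu) := by
      rw [hN]
      ring
    rw [h7]
    linarith
  · intro hpV
    rw [div_le_iff₀ hV]
    have h3 : x * a ≤ s1 := by
      rw [← ha1]
      nlinarith [mul_nonneg ha0 (show 0 ≤ mu + s1 by linarith)]
    have h4 : y * b ≤ s2 := by
      rw [← hb1]
      nlinarith [mul_nonneg hb0 (show 0 ≤ mu + s2 by linarith)]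
    have h5 : x * y * a ≤ y * s1 := by nlinarith
    have h6 : x * y * b ≤ x * s2 := by nlinarith
    have h7 : N ≤ (p - mu) * (x + y) := by
      rw [hN, hcu]
      nlinarith
    have h8 : (p - mu) * (x + y) ≤ (W + cu) * (x + y) :=
      mul_le_mul_of_nonneg_right (by linarith) (by linarith)
    linarith

/-- one low, with a base -/
theorem lowB {x y c mu s1 s2 s12 p W cu F12 F1 F2 F τ : ℝ} (hp : 2 ≤ p) (hc : 1 ≤ c)
    (hx : c + 1 ≤ x) (hy : c + 1 ≤ y) (hmu : 1 ≤ mu) (h1 : 0 ≤ s1) (h2 : 0 ≤ s2) (h12 : 0 ≤ s12)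
    (hW : 0 < W) (hcu : cu = mu + s1 + s2 + s12) (hcp : cu ≤ p)
    (hτ : τ = max 0 (2 - c / (p - 1)) / (c + 2))
    (hF12 : F12 = (1 / x + 1 / y) / W) (hF1 : F1 = (1 / x + 1 / (mu + c)) / (x + (mu + s1)))
    (hF2 : F2 = (1 / y + 1 / (mu + c)) / (y + (mu + s2))) (hF : F = (F12 + F1 + F2) / (W + cu)) :
    x * y * (p * F - F12) ≤ (x + y) * ((p - cu) * ((1 + τ * W) / (W * (W + 1))) +
      τ * (s1 + s2 + s12) / (W + 1)) := by
  have hx0 : 0 < x := by linarith
  have hy0 : 0 < y := by linarith
  have hV : 0 < W + cu := by linarith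
  obtain ⟨hτ0, _, _, _⟩ := tau_le hp hc hτ
  set ρ := (1 + c / (c + 1 + mu)) / (mu + c) with hρ
  have hmc : 0 < mu + c := by linarith
  have hFF : ∀ z s, c + 1 ≤ z → 0 ≤ s → z * ((1 / z + 1 / (mu + c)) / (z + (mu + s))) ≤ ρ := by
    intro z s hz hs
    have hz0 : 0 < z := by linarith
    have e1 : z * ((1 / z + 1 / (mu + c)) / (z + (mu + s))) =
        (z + (mu + c)) / (z + (mu + s)) / (mu + c) := by
      field_simp
      ring
    rw [e1, hρ]
    refine div_le_div_of_nonneg_right ?_ hmc.le
    have e2 : 1 + c / (c + 1 + mu) = (c + 1 + mu + c) / (c + 1 + mu) := by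
      field_simp
    rw [e2, div_le_div_iff₀ (by linarith) (by linarith)]
    nlinarith [mul_nonneg hs (show 0 ≤ c + 1 + mu + c by linarith),
      mul_nonneg (show 0 ≤ c by linarith) (show 0 ≤ z - (c + 1) by linarith)]
  have e1 : x * y * F12 = (x + y) / W := by
    rw [hF12]
    field_simp
    ring
  have e2 : x * y * F1 ≤ y * ρ := by
    have h3 := mul_le_mul_of_nonneg_left (hFF x s1 hx h1) hy0.le
    rw [hF1]
    linarith
  have e3 : x * y * F2 ≤ x * ρ := by
    have h3 := mul_le_mul_of_nonneg_left (hFF y s2 hy h2) hx0.le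
    rw [hF2]
    linarith
  have e4 : x * y * (p * F - F12) = (p * (x * y * F12 + x * y * F1 + x * y * F2) -
      (W + cu) * (x * y * F12)) / (W + cu) := by
    rw [hF]
    field_simp
  have hch := chord hp hc hmu (by linarith : mu ≤ p) hτ
  rw [← hρ] at hch
  have h5 : p * (x * y * F12 + x * y * F1 + x * y * F2) - (W + cu) * (x * y * F12) ≤
      (x + y) * ((p - cu) * (1 / W + τ) + τ * (s1 + s2 + s12)) := by
    have h6 : p * (x * y * F1 + x * y * F2) ≤ p * (y * ρ + x * ρ) :=
      mul_le_mul_of_nonneg_left (by linarith) (by linarith)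
    have h7 : (x + y) * (p * ρ - 1) ≤ (x + y) * (τ * (p - mu)) :=
      mul_le_mul_of_nonneg_left hch (by linarith)
    have h8 : (p - (W + cu)) * ((x + y) / W) = (x + y) * ((p - cu) * (1 / W)) - (x + y) := by
      field_simp
      ring
    have h9 : p - mu = (p - cu) + (s1 + s2 + s12) := by
      rw [hcu]
      ring
    rw [h9] at h7
    rw [e1]
    nlinarith
  rw [e4]
  have h6 : 0 ≤ (x + y) * ((p - cu) * (1 / W + τ) + τ * (s1 + s2 + s12)) := by
    have h7 : 0 ≤ (p - cu) * (1 / W + τ) := mul_nonneg (by linarith) (by positivity)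
    positivity
  calc _ ≤ (x + y) * ((p - cu) * (1 / W + τ) + τ * (s1 + s2 + s12)) / (W + cu) :=
        div_le_div_of_nonneg_right h5 hV.le
    _ ≤ (x + y) * ((p - cu) * (1 / W + τ) + τ * (s1 + s2 + s12)) / (W + 1) :=
        div_le_div_of_nonneg_left h6 (by linarith) (by linarith)
    _ = _ := by
        field_simp

end MP76b19e.Rob.NE2
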