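import Pool.Agent.Lib.MP76b19e.Rob.DropU
import Pool.Agent.Lib.MP76b19e.Rob.NumV

/-!
# Numerical bounds with dropped units (problem MP_76b19e_co)
-/

set_option autoImplicit false

open Finset

namespace MP76b19e.Rob

open Pool.Agent.MP76b19e (bq H_pow_le H_pow_le' H_ge_one)

/-! ### Powers are convex in the exponent -/

theorem pow_sub_one_le {x : ℝ} (hx : 1 ≤ x) (u : ℕ) : x ^ u - 1 ≤ u * (x ^ u * (x - 1)) := by
  induction u with
  | zero => simp
  | succ u ih =>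
    have h1 : x ^ u ≤ x ^ (u + 1) := pow_le_pow_right₀ hx (Nat.le_succ u)
    have h2 : 0 ≤ x ^ u := by positivity
    have h3 : x ^ (u + 1) - 1 = (x ^ u - 1) + x ^ u * (x - 1) := by
      rw [pow_succ]
      ring
    rw [h3]
    push_cast
    have h4 := mul_le_mul_of_nonneg_right h1 (sub_nonneg.2 hx)
    have h5 : (u : ℝ) * (x ^ u * (x - 1)) ≤ u * (x ^ (u + 1) * (x - 1)) :=
      mul_le_mul_of_nonneg_left h4 (Nat.cast_nonneg u)
    linarith

theorem pow_chord {x : ℝ} (hx : 1 ≤ x) {u M : ℕ} (h : u ≤ M) :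
    (M : ℝ) * (x ^ u - 1) ≤ u * (x ^ M - 1) := by
  induction M, h using Nat.le_induction with
  | base => exact le_rfl
  | succ M hM ih =>
    have h1 := pow_sub_one_le hx u
    have h2 : x ^ u ≤ x ^ M := pow_le_pow_right₀ hx hM
    have h3 := mul_le_mul_of_nonneg_left (mul_le_mul_of_nonneg_right h2 (sub_nonneg.2 hx))
      (Nat.cast_nonneg u : (0 : ℝ) ≤ u)
    have h4 : x ^ (M + 1) - 1 = (x ^ M - 1) + x ^ M * (x - 1) := by
      rw [pow_succ]
      ring
    rw [h4]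
    push_cast
    linarith

/-- an affine bound which holds at both ends -/
theorem pow_affine {x a α β : ℝ} (hx : 1 ≤ x) (ha : 0 ≤ a) {u M : ℕ} (h : u ≤ M) (h0 : a ≤ α)
    (h1 : a * x ^ M ≤ α + β * M) : a * x ^ u ≤ α + β * u := by
  rcases Nat.eq_zero_or_pos M with hM | hM
  · have hu : u = 0 := by omega
    rw [hu, pow_zero, mul_one, Nat.cast_zero, mul_zero, add_zero]
    exact h0
  · have hM' : (0 : ℝ) < M := by exact_mod_cast hM
    have h2 := mul_le_mul_of_nonneg_left (pow_chord hx h) ha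
    have h3 : (u : ℝ) ≤ M := by exact_mod_cast h
    have h4 := mul_le_mul_of_nonneg_left h0 (sub_nonneg.2 h3)
    have h5 := mul_le_mul_of_nonneg_left h1 (Nat.cast_nonneg u : (0 : ℝ) ≤ u)
    refine le_of_mul_le_mul_left (a := (M : ℝ)) ?_ hM'
    linarith

section

variable {p : ℕ} {L H : ℝ}

theorem H_split (hHq : H ^ (p - 1) = 2 * p / (p + 1)) {a b : ℕ} (h : a = (p - 1) + b) :
    H ^ a = 2 * p / (p + 1) * H ^ b := by
  rw [h, pow_add, hHq]

/-- `H ^ (p + 2)` -/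
theorem H_p2 (hp : 2 ≤ p) (hH : 0 < H) (hHq : H ^ (p - 1) = 2 * p / (p + 1)) :
    H ^ (p + 2) ≤ 2 * p / (p + 1) * ((p + 2) / (p + 1)) ^ 3 := by
  rw [H_split hHq (show p + 2 = (p - 1) + 3 by omega)]
  exact mul_le_mul_of_nonneg_left (pow_le_pow_left₀ hH.le (Hs1 hp hH hHq) 3) (by positivity)

theorem H_2p (hp : 2 ≤ p) (hH : 0 < H) (hHq : H ^ (p - 1) = 2 * p / (p + 1)) (b : ℕ) :
    H ^ (2 * (p - 1) + b) ≤ (2 * p / (p + 1)) ^ 2 * ((p + 2) / (p + 1)) ^ b := by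
  have h1 : H ^ (2 * (p - 1) + b) = (2 * p / (p + 1)) ^ 2 * H ^ b := by
    rw [pow_add, mul_comm 2, pow_mul, hHq]
  rw [h1]
  exact mul_le_mul_of_nonneg_left (pow_le_pow_left₀ hH.le (Hs1 hp hH hHq) b) (by positivity)

theorem Hm (hp : 2 ≤ p) (hH : 0 < H) (hHq : H ^ (p - 1) = 2 * p / (p + 1)) {m : ℕ}
    (hm : m ≤ p + 2) : 11 / 12 * H ^ m ≤ 1 + m / (p - 1) := by
  have hp2 : (2 : ℝ) ≤ p := by exact_mod_cast hp
  have hp1 : (0 : ℝ) < p - 1 := by linarith
  have h1 := pow_affine (a := 11 / 12) (α := 1) (β := 1 / ((p : ℝ) - 1)) (H_ge_one hp hH hHq)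
    (by norm_num) hm (by norm_num) (by
      refine (mul_le_mul_of_nonneg_left (H_p2 hp hH hHq) (by norm_num)).trans ?_
      have e1 : (11 : ℝ) / 12 * (2 * p / (p + 1) * ((p + 2) / (p + 1)) ^ 3) =
          11 * p * (p + 2) ^ 3 / (6 * (p + 1) ^ 4) := by
        field_simp
        ring
      have e2 : (1 : ℝ) + 1 / (p - 1) * ((p + 2 : ℕ) : ℝ) = (2 * p + 1) / (p - 1) := by
        push_cast
        field_simp
        ring
      rw [e1, e2, div_le_div_iff₀ (by positivity) hp1]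
      obtain ⟨x, hx⟩ : ∃ x : ℝ, (p : ℝ) = 2 + x := ⟨p - 2, by ring⟩
      have hx0 : 0 ≤ x := by linarith
      rw [hx, ← sub_nonneg]
      ring_nf
      positivity)
  refine h1.trans (le_of_eq ?_)
  ring

/-- the product of the two factors -/
theorem Hj (hp : 2 ≤ p) (hH : 0 < H) (hHq : H ^ (p - 1) = 2 * p / (p + 1)) {j : ℕ}
    (hj : j ≤ p) : ((p : ℝ) + 1 - j) * H ^ (2 * j) ≤ 11 / 8 * (p + 1) := by
  have hp2 : (2 : ℝ) ≤ p := by exact_mod_cast hp
  have hp0 : (0 : ℝ) < p := by linarith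
  have hjp : (j : ℝ) ≤ p := by exact_mod_cast hj
  have hj0 : (0 : ℝ) ≤ j := Nat.cast_nonneg j
  rcases Nat.lt_or_ge p (2 * j) with h1 | h1
  · rcases Nat.lt_or_ge j p with h2 | h2
    · -- `p < 2 j ≤ 2 p - 2`
      obtain ⟨x, hx⟩ : ∃ x, 2 * j = (p - 1) + x := ⟨2 * j - (p - 1), by omega⟩
      have hxr : (x : ℝ) = 2 * j - p + 1 := by
        have h3 : ((2 * j : ℕ) : ℝ) = ((p - 1 : ℕ) : ℝ) + x := by exact_mod_cast hx
        rw [cast_pred' hp] at h3
        push_cast at h3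
        linarith
      rw [H_split hHq hx]
      have h3 := H_pow_le' hp hH hHq (j := x) (by omega)
      have h4 : 2 * p / (p + 1) * H ^ x ≤ 2 * p / (p + 1) * (1 + x / p) :=
        mul_le_mul_of_nonneg_left h3 (by positivity)
      have h5 : 2 * (p : ℝ) / (p + 1) * (1 + x / p) = 2 * (2 * j + 1) / (p + 1) := by
        rw [hxr]
        field_simp
        ring
      rw [h5] at h4
      refine (mul_le_mul_of_nonneg_left h4 (by linarith)).trans ?_
      rw [mul_div_assoc', div_le_iff₀ (by positivity)]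
      nlinarith [sq_nonneg (2 * (p : ℝ) + 1 - 4 * j)]
    · -- `j = p`
      have h3 : j = p := le_antisymm hj h2
      subst h3
      have h4 := H_2p hp hH hHq 2
      rw [show 2 * (j - 1) + 2 = 2 * j by omega] at h4
      have h5 : ((j : ℝ) + 1 - j) = 1 := by ring
      rw [h5, one_mul]
      refine h4.trans ?_
      rw [div_pow, div_pow, div_mul_div_comm, div_le_iff₀ (by positivity)]
      obtain ⟨x, hx⟩ : ∃ x : ℝ, (j : ℝ) = 2 + x := ⟨j - 2, by ring⟩
      have hx0 : 0 ≤ x := by linarith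
      rw [hx, ← sub_nonneg]
      ring_nf
      positivity
  · have h2 := H_pow_le' hp hH hHq h1
    have h3 : ((p : ℝ) + 1 - j) * H ^ (2 * j) ≤ (p + 1 - j) * (1 + ((2 * j : ℕ) : ℝ) / p) :=
      mul_le_mul_of_nonneg_left h2 (by linarith)
    refine h3.trans ?_
    push_cast
    have h4 : ((p : ℝ) + 1 - j) * (1 + 2 * j / p) = (p + 1 - j) * (p + 2 * j) / p := by
      field_simp
    rw [h4, div_le_iff₀ hp0]
    nlinarith [sq_nonneg ((p : ℝ) + 2 - 4 * j)]

/-- the numerical inequality in the main case -/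
theorem star (hp : 2 ≤ p) (hH : 0 < H) (hHq : H ^ (p - 1) = 2 * p / (p + 1)) {d j m : ℕ}
    (hjd : j + d ≤ p) (hm : m ≤ p + 2 + j) {S : ℝ} (hS1 : 1 ≤ S)
    (hS : 1 + ((m : ℝ) - 2 * j) / (p - 1) ≤ S) :
    2 / 3 * (((p : ℝ) + 1 - d - j) * H ^ m) ≤ (p + 1 - d) * S := by
  have hp2 : (2 : ℝ) ≤ p := by exact_mod_cast hp
  have hp1 : (0 : ℝ) < p - 1 := by linarith
  have hj0 : (0 : ℝ) ≤ j := Nat.cast_nonneg j
  have hd0 : (0 : ℝ) ≤ d := Nat.cast_nonneg d
  have hjdr : (j : ℝ) + d ≤ p := by exact_mod_cast hjd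
  have hH1 := H_ge_one hp hH hHq
  have h1 := Hj hp hH hHq (j := j) (by omega)
  have h2 : ((p : ℝ) + 1 - d - j) * H ^ (2 * j) ≤ 11 / 8 * (p + 1 - d) := by
    have h3 : ((p : ℝ) + 1 - d - j) * (p + 1) ≤ (p + 1 - j) * (p + 1 - d) := by nlinarith
    have h4 : 0 ≤ H ^ (2 * j) := by positivity
    have h5 := mul_le_mul_of_nonneg_right h3 h4
    have h6 := mul_le_mul_of_nonneg_right h1 (by linarith : (0 : ℝ) ≤ p + 1 - d)
    have h7 : (((p : ℝ) + 1 - d - j) * H ^ (2 * j)) * (p + 1) ≤ (11 / 8 * (p + 1 - d)) * (p + 1) := by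
      linarith
    exact le_of_mul_le_mul_right h7 (by linarith)
  rcases Nat.lt_or_ge m (2 * j) with h3 | h3
  · have h4 : H ^ m ≤ H ^ (2 * j) := pow_le_pow_right₀ hH1 h3.le
    have h5 := mul_le_mul_of_nonneg_left h4 (by linarith : (0 : ℝ) ≤ (p : ℝ) + 1 - d - j)
    have h6 := mul_le_mul_of_nonneg_left hS1 (by linarith : (0 : ℝ) ≤ (p : ℝ) + 1 - d)
    linarith
  · obtain ⟨m', hm'⟩ : ∃ m', m = 2 * j + m' := ⟨m - 2 * j, by omega⟩
    have h4 := Hm hp hH hHq (m := m') (by omega)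
    have h5 : (m' : ℝ) = m - 2 * j := by
      rw [hm']
      push_cast
      ring
    rw [h5] at h4
    have h6 : 11 / 12 * H ^ m' ≤ S := h4.trans hS
    have h7 := mul_le_mul h2 h6 (by positivity) (by linarith)
    rw [hm', pow_add]
    nlinarith

end

end MP76b19e.Rob
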