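import Pool.Agent.Lib.MP76b19e.Rob.NumH

/-!
# The constants for dropped units (problem MP_76b19e_co)
-/

set_option autoImplicit false

open Finset

namespace MP76b19e.Rob

open Pool.Agent.MP76b19e (bq H_pow_le H_pow_le' H_ge_one)

/-! ### Powers of `N + 1` -/

/-- induction for `(N + 1) ^ a ≤ r ^ N` -/
theorem big_of {a N0 : ℕ} {r : ℝ} (hr : 1 ≤ r) (hN0 : 1 ≤ N0)
    (h0 : ((N0 : ℝ) + 1) ^ a ≤ r ^ N0) (h1 : ((N0 : ℝ) + 2) ^ a ≤ r * (N0 + 1) ^ a) {N : ℕ}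
    (hN : N0 ≤ N) : ((N : ℝ) + 1) ^ a ≤ r ^ N := by
  induction N, hN using Nat.le_induction with
  | base => exact h0
  | succ n hn ih =>
    have hn' : (N0 : ℝ) ≤ n := by exact_mod_cast hn
    have hN0' : (1 : ℝ) ≤ N0 := by exact_mod_cast hN0
    have h2 : ((n : ℝ) + 2) ^ a * ((N0 : ℝ) + 1) ^ a ≤ ((N0 : ℝ) + 2) ^ a * ((n : ℝ) + 1) ^ a := by
      rw [← mul_pow, ← mul_pow]
      refine pow_le_pow_left₀ (by positivity) ?_ a
      nlinarith
    have h3 : ((n : ℝ) + 2) ^ a * ((N0 : ℝ) + 1) ^ a ≤ (r * (n + 1) ^ a) * ((N0 : ℝ) + 1) ^ a := by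
      refine h2.trans ?_
      have := mul_le_mul_of_nonneg_right h1 (by positivity : 0 ≤ ((n : ℝ) + 1) ^ a)
      linarith
    have h4 := le_of_mul_le_mul_right h3 (by positivity)
    have h5 := mul_le_mul_of_nonneg_left ih (by linarith : (0 : ℝ) ≤ r)
    rw [pow_succ, mul_comm (r ^ n)]
    push_cast
    refine le_trans (le_of_eq ?_) (h4.trans h5)
    ring

section

variable {N : ℕ} {L : ℝ}

/-- the bound for `c₀ = 3`, general `d` -/
noncomputable def r3 (d N : ℝ) : ℝ :=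
  (3 * N + 4 + d) * (4 * N + 4 + d) * (5 * N + 4 + d) * (N + 2) ^ 2 /
    (18 * N ^ 3 * (N + 3) * (N + 2 - d))

theorem r3_ge {d x : ℝ} (hd0 : 0 ≤ d) (hx : 1 ≤ x) (hdx : d ≤ x + 1) :
    10 / 3 ≤ r3 d x := by
  unfold r3
  have h1 : 0 < x + 2 - d := by linarith
  rw [div_le_div_iff₀ (by norm_num) (by positivity)]
  obtain ⟨y, hy⟩ : ∃ y : ℝ, x = 1 + y := ⟨x - 1, by ring⟩
  have hy0 : 0 ≤ y := by linarith
  rw [hy, ← sub_nonneg]
  ring_nf
  positivity

theorem c3_0 (hN : 1 ≤ N) (hL : 0 < L) (hLN : L ^ N = N + 1) : L ^ 4 ≤ r3 0 N := by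
  have hN1 : (1 : ℝ) ≤ N := by exact_mod_cast hN
  have hr := r3_ge (d := 0) le_rfl hN1 (by linarith)
  refine Lpow_le hN hL hLN (by linarith) ?_
  rcases Nat.lt_or_ge N 7 with h | h
  · unfold r3
    interval_cases N <;> norm_num
  · exact (big_of (r := 10 / 3) (by norm_num) (by norm_num) (by norm_num) (by norm_num) h).trans
      (pow_le_pow_left₀ (by norm_num) hr _)

theorem c3_1 (hN : 1 ≤ N) (hL : 0 < L) (hLN : L ^ N = N + 1) : L ^ 5 ≤ r3 1 N := by
  have hN1 : (1 : ℝ) ≤ N := by exact_mod_cast hN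
  have hr := r3_ge (d := 1) (by norm_num) hN1 (by linarith)
  refine Lpow_le hN hL hLN (by linarith) ?_
  rcases Nat.lt_or_ge N 10 with h | h
  · unfold r3
    interval_cases N <;> norm_num
  · exact (big_of (r := 10 / 3) (by norm_num) (by norm_num) (by norm_num) (by norm_num) h).trans
      (pow_le_pow_left₀ (by norm_num) hr _)

theorem c3_2 (hN : 1 ≤ N) (hL : 0 < L) (hLN : L ^ N = N + 1) : L ^ 6 ≤ r3 2 N := by
  have hN1 : (1 : ℝ) ≤ N := by exact_mod_cast hN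
  have hr := r3_ge (d := 2) (by norm_num) hN1 (by linarith)
  refine Lpow_le hN hL hLN (by linarith) ?_
  rcases Nat.lt_or_ge N 14 with h | h
  · unfold r3
    interval_cases N <;> norm_num
  · exact (big_of (r := 10 / 3) (by norm_num) (by norm_num) (by norm_num) (by norm_num) h).trans
      (pow_le_pow_left₀ (by norm_num) hr _)

theorem c3_3 (hN : 2 ≤ N) (hL : 0 < L) (hLN : L ^ N = N + 1) : L ^ 7 ≤ r3 3 N := by
  have hN1 : (2 : ℝ) ≤ N := by exact_mod_cast hN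
  have hr := r3_ge (d := 3) (x := N) (by norm_num) (by linarith) (by linarith)
  refine Lpow_le (by omega) hL hLN (by linarith) ?_
  rcases Nat.lt_or_ge N 17 with h | h
  · unfold r3
    interval_cases N <;> norm_num
  · exact (big_of (r := 10 / 3) (by norm_num) (by norm_num) (by norm_num) (by norm_num) h).trans
      (pow_le_pow_left₀ (by norm_num) hr _)

end

section

variable {p : ℕ} {L H : ℝ}

theorem th3_aux (hp : 2 ≤ p) (hL : 0 < L) (hH : 0 < H) (hLq : L ^ (p - 1) = p)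
    (hHq : H ^ (p - 1) = 2 * p / (p + 1)) {d : ℕ} (hd : d ≤ p)
    (h : L ^ (4 + d) ≤ r3 d ((p - 1 : ℕ) : ℝ)) :
    ((p : ℝ) + 1 - d) * (rhoV L p 3 d * H ^ p) ≤ 2 / 3 * p := by
  obtain ⟨N, rfl⟩ : ∃ N, p = N + 1 := ⟨p - 1, by omega⟩
  have hN1 : (1 : ℝ) ≤ N := by exact_mod_cast (by omega : 1 ≤ N)
  have hdr : (d : ℝ) ≤ N + 1 := by exact_mod_cast hd
  have hd0 : (0 : ℝ) ≤ d := Nat.cast_nonneg d
  simp only [Nat.add_sub_cancel] at h hLq hHq
  have hHp : H ^ (N + 1) ≤ 2 * (N + 1) * (N + 3) / (N + 2) ^ 2 := by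
    rw [pow_succ, hHq]
    push_cast
    have h1 := Hs1 (p := N + 1) (by omega) hH (by simpa using hHq)
    push_cast at h1
    have h2 := mul_le_mul_of_nonneg_left h1
      (by positivity : (0 : ℝ) ≤ 2 * ((N : ℝ) + 1) / (N + 1 + 1))
    refine h2.trans (le_of_eq ?_)
    field_simp
    ring
  have hbq : bq N 3 (2 * N + 1 + 3 + d) =
      6 * N ^ 3 / ((3 * N + 4 + d) * (4 * N + 4 + d) * (5 * N + 4 + d)) := by
    unfold bq
    rw [prod_range_succ, prod_range_succ, prod_range_succ, prod_range_zero]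
    push_cast
    field_simp
    ring
  unfold rhoV
  simp only [Nat.add_sub_cancel]
  rw [hbq]
  have h1 : 0 < (N : ℝ) + 2 - d := by linarith
  have h2 : (0 : ℝ) < (3 * N + 4 + d) * (4 * N + 4 + d) * (5 * N + 4 + d) := by positivity
  have hL' : L ^ (1 + 3 + d) ≤ r3 d N := h
  push_cast
  calc ((N : ℝ) + 1 + 1 - d) * (L ^ (1 + 3 + d) *
        (6 * N ^ 3 / ((3 * N + 4 + d) * (4 * N + 4 + d) * (5 * N + 4 + d))) * H ^ (N + 1))
      ≤ ((N : ℝ) + 1 + 1 - d) * (r3 d N *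
        (6 * N ^ 3 / ((3 * N + 4 + d) * (4 * N + 4 + d) * (5 * N + 4 + d))) *
          (2 * (N + 1) * (N + 3) / (N + 2) ^ 2)) := by
        refine mul_le_mul_of_nonneg_left ?_ (by linarith)
        refine mul_le_mul ?_ hHp (by positivity) ?_
        · exact mul_le_mul_of_nonneg_right hL' (by positivity)
        · refine mul_nonneg (le_trans (by positivity) hL') (by positivity)
    _ = 2 / 3 * ((N : ℝ) + 1) := by
        unfold r3
        have e1 : (N : ℝ) + 1 + 1 - d = N + 2 - d := by ring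
        rw [e1]
        have e2 := h1.ne'
        have e3 : (3 * (N : ℝ) + 4 + d) ≠ 0 := by positivity
        have e4 : (4 * (N : ℝ) + 4 + d) ≠ 0 := by positivity
        have e5 : (5 * (N : ℝ) + 4 + d) ≠ 0 := by positivity
        field_simp
        ring

theorem th3_0 (hp : 2 ≤ p) (hL : 0 < L) (hH : 0 < H) (hLq : L ^ (p - 1) = p)
    (hHq : H ^ (p - 1) = 2 * p / (p + 1)) :
    ((p : ℝ) + 1 - (0 : ℕ)) * (rhoV L p 3 0 * H ^ p) ≤ 2 / 3 * p :=
  th3_aux hp hL hH hLq hHq (by omega) (by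
    have h := c3_0 (N := p - 1) (by omega) hL (by rw [hLq, cast_pred' hp]; ring)
    simpa using h)

theorem th3_1 (hp : 2 ≤ p) (hL : 0 < L) (hH : 0 < H) (hLq : L ^ (p - 1) = p)
    (hHq : H ^ (p - 1) = 2 * p / (p + 1)) :
    ((p : ℝ) + 1 - (1 : ℕ)) * (rhoV L p 3 1 * H ^ p) ≤ 2 / 3 * p :=
  th3_aux hp hL hH hLq hHq (by omega) (by
    have h := c3_1 (N := p - 1) (by omega) hL (by rw [hLq, cast_pred' hp]; ring)
    simpa using h)

theorem th3_2 (hp : 2 ≤ p) (hL : 0 < L) (hH : 0 < H) (hLq : L ^ (p - 1) = p)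
    (hHq : H ^ (p - 1) = 2 * p / (p + 1)) :
    ((p : ℝ) + 1 - (2 : ℕ)) * (rhoV L p 3 2 * H ^ p) ≤ 2 / 3 * p :=
  th3_aux hp hL hH hLq hHq (by omega) (by
    have h := c3_2 (N := p - 1) (by omega) hL (by rw [hLq, cast_pred' hp]; ring)
    simpa using h)

theorem th3_3 (hp : 3 ≤ p) (hL : 0 < L) (hH : 0 < H) (hLq : L ^ (p - 1) = p)
    (hHq : H ^ (p - 1) = 2 * p / (p + 1)) :
    ((p : ℝ) + 1 - (3 : ℕ)) * (rhoV L p 3 3 * H ^ p) ≤ 2 / 3 * p :=
  th3_aux (by omega) hL hH hLq hHq (by omega) (by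
    have h := c3_3 (N := p - 1) (by omega) hL (by rw [hLq, cast_pred' (by omega)]; ring)
    simpa using h)

end

end MP76b19e.Rob
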