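import Pool.Agent.Lib.MP76b19e.Rob.NumI

/-!
# The constants decrease with the number of dropped units (problem MP_76b19e_co)

`rho_step`: `(N + 1 - k) L² H bq N (k + 1) (2 N + 3 + 2 k) ≤ (N + 2 - k) bq N k (2 N + 1 + 2 k)` for
`3 ≤ k ≤ N`.
-/

set_option autoImplicit false

open Finset

namespace MP76b19e.Rob

open Pool.Agent.MP76b19e (bq H_pow_le H_pow_le' H_ge_one)

/-- Bernoulli -/
theorem bern1 {x : ℝ} (hx : 0 ≤ x) (N : ℕ) : 1 + N * x ≤ (1 + x) ^ N :=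
  one_add_mul_le_pow (by linarith) N

/-- four terms of the binomial theorem -/
theorem bern4 {x : ℝ} (hx : 0 ≤ x) (N : ℕ) :
    1 + N * x + N * (N - 1) / 2 * x ^ 2 + N * (N - 1) * (N - 2) / 6 * x ^ 3 +
      N * (N - 1) * (N - 2) * (N - 3) / 24 * x ^ 4 ≤ (1 + x) ^ N := by
  induction N with
  | zero => norm_num
  | succ n ih =>
    have h1 := mul_le_mul_of_nonneg_right ih (by linarith : (0 : ℝ) ≤ 1 + x)
    rw [pow_succ]
    refine le_trans ?_ h1
    have hn : (0 : ℝ) ≤ (n : ℝ) * (n - 1) * (n - 2) * (n - 3) := by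
      rcases Nat.lt_or_ge n 3 with h | h
      · interval_cases n <;> norm_num
      · have h3 : (3 : ℝ) ≤ n := by exact_mod_cast h
        have e1 : (0 : ℝ) ≤ n := by linarith
        have e2 : (0 : ℝ) ≤ (n : ℝ) - 1 := by linarith
        have e3 : (0 : ℝ) ≤ (n : ℝ) - 2 := by linarith
        have e4 : (0 : ℝ) ≤ (n : ℝ) - 3 := by linarith
        positivity
    have h2 : 0 ≤ (n : ℝ) * (n - 1) * (n - 2) * (n - 3) * x ^ 5 := mul_nonneg hn (by positivity)
    push_cast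
    nlinarith [h2]

/-- the polynomial inequality -/
theorem rs_poly {k N : ℝ} (hk : 3 ≤ k) (hN : k ≤ N) :
    2 * (N + 1) ^ 3 * (3 * N + 2 * k + 1) * (4 * N + 2 * k + 1) * (N + 1 - k) *
        (24 * N ^ 3 * (k + 1) ^ 4) ≤
      (N + 2) * ((k + 3) * N + 2 * k + 1) * ((k + 4) * N + 2 * k + 1) * (2 * N + 1 - k) *
        (24 * N ^ 3 * (k + 1) ^ 4 + 24 * N ^ 3 * (k + 1) ^ 3 * (2 * N + 2 * k + 3) +
          12 * N ^ 2 * (N - 1) * (k + 1) ^ 2 * (2 * N + 2 * k + 3) ^ 2 +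
          4 * N * (N - 1) * (N - 2) * (k + 1) * (2 * N + 2 * k + 3) ^ 3 +
          (N - 1) * (N - 2) * (N - 3) * (2 * N + 2 * k + 3) ^ 4) := by
  obtain ⟨a, ha, rfl⟩ : ∃ a, 0 ≤ a ∧ k = 3 + a := ⟨k - 3, by linarith, by ring⟩
  obtain ⟨b, hb, rfl⟩ : ∃ b, 0 ≤ b ∧ N = 3 + a + b := ⟨N - (3 + a), by linarith, by ring⟩
  rw [← sub_nonneg]
  ring_nf
  positivity

/-- the product of the quotients -/
theorem bq_ratio {N : ℕ} (hN : 1 ≤ N) (k a : ℕ) :
    (bq N k (a + 2)) ^ N * (((k + 1) * N + a) * ((k + 2) * N + a)) ≤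
      (bq N k a) ^ N * ((N + a) * (2 * N + a)) := by
  have hN1 : (1 : ℝ) ≤ N := by exact_mod_cast hN
  have ha : (0 : ℝ) ≤ a := Nat.cast_nonneg a
  induction k with
  | zero =>
    unfold bq
    rw [prod_range_zero, prod_range_zero]
    push_cast
    refine le_of_eq ?_
    ring
  | succ k ih =>
    have h1 : bq N (k + 1) (a + 2) = bq N k (a + 2) *
        (((k : ℝ) + 1) * N / (((k : ℝ) + 1) * N + (a + 2 : ℕ))) := by
      unfold bq
      rw [prod_range_succ]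
    have h2 : bq N (k + 1) a = bq N k a * (((k : ℝ) + 1) * N / (((k : ℝ) + 1) * N + a)) := by
      unfold bq
      rw [prod_range_succ]
    have hb0 := (Pool.Agent.MP76b19e.bq_pos hN k a).le
    have hb2 := (Pool.Agent.MP76b19e.bq_pos hN k (a + 2)).le
    obtain ⟨X, hX⟩ : ∃ X : ℝ, X = ((k : ℝ) + 1) * N + a := ⟨_, rfl⟩
    have hX0 : 0 < X := by rw [hX]; positivity
    obtain ⟨Y, hY⟩ : ∃ Y : ℝ, Y = ((k : ℝ) + 1) * N := ⟨_, rfl⟩
    have hY0 : 0 < Y := by rw [hY]; positivity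
    rw [h1, h2]
    push_cast
    rw [← hX, show ((k : ℝ) + 1) * N + (a + 2) = X + 2 by rw [hX]; ring, ← hY]
    -- `(X / (X + 2)) ^ N ≤ X / (X + 2 N)`
    have h3 : (X / (X + 2)) ^ N * (X + 2 * N) ≤ X := by
      have h4 := bern1 (x := 2 / X) (by positivity) N
      have h5 : (1 + 2 / X) = (X / (X + 2))⁻¹ := by
        field_simp
      rw [h5, inv_pow] at h4
      have h6 : 0 < (X / (X + 2)) ^ N := by positivity
      have h7 := mul_le_mul_of_nonneg_left h4 h6.le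
      rw [mul_inv_cancel₀ h6.ne'] at h7
      have h8 : (X / (X + 2)) ^ N * (1 + N * (2 / X)) * X = (X / (X + 2)) ^ N * (X + 2 * N) := by
        field_simp
      have h9 := mul_le_mul_of_nonneg_right h7 hX0.le
      rw [h8, one_mul] at h9
      exact h9
    have e1 : ((k : ℝ) + 1 + 1) * N + a = X + N := by rw [hX]; ring
    have e2 : ((k : ℝ) + 1 + 2) * N + a = X + 2 * N := by rw [hX]; ring
    have e3 : ((k : ℝ) + 2) * N + a = X + N := by rw [hX]; ring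
    rw [e1, e2]
    rw [← hX, e3] at ih
    have h10 : (bq N k (a + 2) * (Y / (X + 2))) ^ N =
        (bq N k (a + 2)) ^ N * ((Y / X) ^ N * (X / (X + 2)) ^ N) := by
      rw [← mul_pow, ← mul_pow]
      congr 2
      field_simp
    have h11 : (bq N k a * (Y / X)) ^ N = (bq N k a) ^ N * (Y / X) ^ N := mul_pow _ _ _
    rw [h10, h11]
    have h12 : 0 ≤ (bq N k (a + 2)) ^ N * (Y / X) ^ N * (X + N) := by positivity
    have h13 := mul_le_mul_of_nonneg_left h3 h12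
    have h14 := mul_le_mul_of_nonneg_right ih (by positivity : 0 ≤ (Y / X) ^ N)
    calc bq N k (a + 2) ^ N * ((Y / X) ^ N * (X / (X + 2)) ^ N) * ((X + N) * (X + 2 * N))
        = (bq N k (a + 2)) ^ N * (Y / X) ^ N * (X + N) * ((X / (X + 2)) ^ N * (X + 2 * N)) := by
          ring
      _ ≤ (bq N k (a + 2)) ^ N * (Y / X) ^ N * (X + N) * X := h13
      _ = (bq N k (a + 2)) ^ N * (X * (X + N)) * (Y / X) ^ N := by ring
      _ ≤ (bq N k a) ^ N * ((N + a) * (2 * N + a)) * (Y / X) ^ N := h14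
      _ = bq N k a ^ N * (Y / X) ^ N * ((N + a) * (2 * N + a)) := by ring

/-- the step -/
theorem rho_step {N k : ℕ} {L H : ℝ} (hk : 3 ≤ k) (hkN : k ≤ N) (hL : 0 < L) (hH : 0 < H)
    (hLN : L ^ N = N + 1) (hHN : H ^ N = 2 * (N + 1) / (N + 2)) :
    ((N : ℝ) + 1 - k) * (L ^ 2 * H * bq N (k + 1) (2 * N + 1 + 2 * k + 2)) ≤
      (N + 2 - k) * bq N k (2 * N + 1 + 2 * k) := by
  have hN1 : 1 ≤ N := by omega
  have hk3 : (3 : ℝ) ≤ k := by exact_mod_cast hk
  have hkNr : (k : ℝ) ≤ N := by exact_mod_cast hkN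
  have hN3 : (3 : ℝ) ≤ N := hk3.trans hkNr
  set a : ℕ := 2 * N + 1 + 2 * k with ha
  have har : (a : ℝ) = 2 * N + 1 + 2 * k := by rw [ha]; push_cast; ring
  have h1 : bq N (k + 1) (a + 2) = bq N k (a + 2) *
      (((k : ℝ) + 1) * N / (((k : ℝ) + 1) * N + (a + 2 : ℕ))) := by
    unfold bq
    rw [prod_range_succ]
  have hb0 := Pool.Agent.MP76b19e.bq_pos hN1 k a
  have hb2 := Pool.Agent.MP76b19e.bq_pos hN1 k (a + 2)
  have hA : (0 : ℝ) < N + 1 - k := by linarith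
  have hB : (0 : ℝ) < N + 2 - k := by linarith
  have hq : (0 : ℝ) < ((k : ℝ) + 1) * N := by positivity
  have hv : (0 : ℝ) < 2 * (N : ℝ) + 2 * k + 3 := by positivity
  have hr := bq_ratio hN1 k a
  rw [har] at hr
  have hg1 : (0 : ℝ) < ((k : ℝ) + 3) * N + 2 * k + 1 := by positivity
  have hg2 : (0 : ℝ) < ((k : ℝ) + 4) * N + 2 * k + 1 := by positivity
  -- the two Bernoulli factors
  have hBer := bern1 (x := 1 / ((N : ℝ) + 1 - k)) (by positivity) N
  have e1 : 1 + (N : ℝ) * (1 / ((N : ℝ) + 1 - k)) = (2 * N + 1 - k) / (N + 1 - k) := by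
    field_simp
    ring
  have e2 : 1 + 1 / ((N : ℝ) + 1 - k) = (N + 2 - k) / (N + 1 - k) := by
    field_simp
    ring
  rw [e1, e2] at hBer
  have hBe4 := bern4 (x := (2 * (N : ℝ) + 2 * k + 3) / (((k : ℝ) + 1) * N)) (by positivity) N
  have e3 : 1 + (2 * (N : ℝ) + 2 * k + 3) / (((k : ℝ) + 1) * N) =
      (((k : ℝ) + 1) * N + (a + 2 : ℕ)) / (((k : ℝ) + 1) * N) := by
    push_cast
    rw [har]
    field_simp
    ring
  rw [e3] at hBe4
  set Z : ℝ := (((k : ℝ) + 1) * N + (a + 2 : ℕ)) / (((k : ℝ) + 1) * N) with hZ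
  have hZ0 : 0 < Z := by rw [hZ]; positivity
  set B : ℝ := ((N : ℝ) + 2 - k) / (N + 1 - k) with hBdef
  have hB0 : 0 < B := div_pos hB hA
  -- the inequality for the powers
  have hpoly := rs_poly hk3 hkNr
  have hmain : (L ^ 2 * H) ^ N * bq N k (a + 2) ^ N ≤ (B * Z) ^ N * bq N k a ^ N := by
    have hl : (L ^ 2 * H) ^ N = (N + 1) ^ 2 * (2 * (N + 1) / (N + 2)) := by
      rw [mul_pow, hHN, ← pow_mul, mul_comm 2, pow_mul, hLN]
    have hG : (N + 1 : ℝ) ^ 2 * (2 * (N + 1) / (N + 2)) *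
        (((N : ℝ) + (2 * N + 1 + 2 * k)) * (2 * N + (2 * N + 1 + 2 * k))) ≤
        (B * Z) ^ N * ((((k : ℝ) + 1) * N + (2 * N + 1 + 2 * k)) *
          ((k + 2) * N + (2 * N + 1 + 2 * k))) := by
      have h2 : (2 * (N : ℝ) + 1 - k) / (N + 1 - k) *
          (1 + N * ((2 * (N : ℝ) + 2 * k + 3) / (((k : ℝ) + 1) * N)) +
            N * (N - 1) / 2 * ((2 * (N : ℝ) + 2 * k + 3) / (((k : ℝ) + 1) * N)) ^ 2 +
            N * (N - 1) * (N - 2) / 6 * ((2 * (N : ℝ) + 2 * k + 3) / (((k : ℝ) + 1) * N)) ^ 3 +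
            N * (N - 1) * (N - 2) * (N - 3) / 24 *
              ((2 * (N : ℝ) + 2 * k + 3) / (((k : ℝ) + 1) * N)) ^ 4) ≤ (B * Z) ^ N := by
        rw [mul_pow]
        refine mul_le_mul hBer hBe4 ?_ (by positivity)
        have f1 : (0 : ℝ) ≤ (N : ℝ) - 1 := by linarith
        have f2 : (0 : ℝ) ≤ (N : ℝ) - 2 := by linarith
        have f3 : (0 : ℝ) ≤ (N : ℝ) - 3 := by linarith
        positivity
      have h3 := mul_le_mul_of_nonneg_right h2 (by positivity : (0 : ℝ) ≤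
        (((k : ℝ) + 1) * N + (2 * N + 1 + 2 * k)) * ((k + 2) * N + (2 * N + 1 + 2 * k)))
      refine le_trans ?_ h3
      have h4 : (2 * (N : ℝ) + 1 - k) / (N + 1 - k) *
          (1 + N * ((2 * (N : ℝ) + 2 * k + 3) / (((k : ℝ) + 1) * N)) +
            N * (N - 1) / 2 * ((2 * (N : ℝ) + 2 * k + 3) / (((k : ℝ) + 1) * N)) ^ 2 +
            N * (N - 1) * (N - 2) / 6 * ((2 * (N : ℝ) + 2 * k + 3) / (((k : ℝ) + 1) * N)) ^ 3 +
            N * (N - 1) * (N - 2) * (N - 3) / 24 *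
              ((2 * (N : ℝ) + 2 * k + 3) / (((k : ℝ) + 1) * N)) ^ 4) *
          ((((k : ℝ) + 1) * N + (2 * N + 1 + 2 * k)) * ((k + 2) * N + (2 * N + 1 + 2 * k))) =
          ((((k : ℝ) + 3) * N + 2 * k + 1) * ((k + 4) * N + 2 * k + 1) * (2 * N + 1 - k) *
            (24 * N ^ 3 * (k + 1) ^ 4 + 24 * N ^ 3 * (k + 1) ^ 3 * (2 * N + 2 * k + 3) +
            12 * N ^ 2 * (N - 1) * (k + 1) ^ 2 * (2 * N + 2 * k + 3) ^ 2 +
            4 * N * (N - 1) * (N - 2) * (k + 1) * (2 * N + 2 * k + 3) ^ 3 +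
            (N - 1) * (N - 2) * (N - 3) * (2 * N + 2 * k + 3) ^ 4)) /
            ((N + 1 - k) * (24 * N ^ 3 * (k + 1) ^ 4)) := by
        have hA' := hA.ne'
        have hk1 : (k : ℝ) + 1 ≠ 0 := by positivity
        have hN' : (N : ℝ) ≠ 0 := by positivity
        field_simp
        ring
      rw [h4, le_div_iff₀ (by positivity)]
      have h5 : (N + 1 : ℝ) ^ 2 * (2 * (N + 1) / (N + 2)) *
          (((N : ℝ) + (2 * N + 1 + 2 * k)) * (2 * N + (2 * N + 1 + 2 * k))) *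
          ((N + 1 - k) * (24 * N ^ 3 * (k + 1) ^ 4)) =
          (2 * (N + 1) ^ 3 * (3 * N + 2 * k + 1) * (4 * N + 2 * k + 1) * (N + 1 - k) *
            (24 * N ^ 3 * (k + 1) ^ 4)) / (N + 2) := by
        field_simp
        ring
      rw [h5, div_le_iff₀ (by positivity)]
      refine hpoly.trans (le_of_eq ?_)
      ring
    rw [hl]
    -- combine with the quotient
    have hW : (0 : ℝ) < ((((k : ℝ) + 1) * N + (2 * N + 1 + 2 * k)) *
          ((k + 2) * N + (2 * N + 1 + 2 * k))) := by positivity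
    have hW' : (0 : ℝ) < (((N : ℝ) + (2 * N + 1 + 2 * k)) * (2 * N + (2 * N + 1 + 2 * k))) := by
      positivity
    have h6 := mul_le_mul_of_nonneg_left hr
      (by positivity : (0 : ℝ) ≤ (N + 1 : ℝ) ^ 2 * (2 * (N + 1) / (N + 2)))
    have h7 := mul_le_mul_of_nonneg_right hG (by positivity : 0 ≤ bq N k a ^ N)
    refine le_of_mul_le_mul_right ?_ hW
    linarith
  have h8 : L ^ 2 * H * bq N k (a + 2) ≤ B * Z * bq N k a := by
    refine le_of_pow_le_pow_left₀ (n := N) (by omega) (by positivity) ?_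
    rw [mul_pow, mul_pow (B * Z)]
    exact hmain
  rw [h1]
  have h9 : ((N : ℝ) + 1 - k) * (L ^ 2 * H * (bq N k (a + 2) *
      (((k : ℝ) + 1) * N / (((k : ℝ) + 1) * N + (a + 2 : ℕ))))) =
      (N + 1 - k) * (L ^ 2 * H * bq N k (a + 2)) / Z := by
    rw [hZ]
    field_simp
  rw [h9, div_le_iff₀ hZ0]
  have h10 := mul_le_mul_of_nonneg_left h8 hA.le
  refine h10.trans (le_of_eq ?_)
  rw [hBdef]
  have hA' := hA.ne'
  field_simp

/-- all `d ≥ 3` -/
theorem thd {p : ℕ} {L H : ℝ} (hL : 0 < L) (hH : 0 < H) (hLq : L ^ (p - 1) = p)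
    (hHq : H ^ (p - 1) = 2 * p / (p + 1)) {d : ℕ} (hd : 3 ≤ d) (hdp : d ≤ p) :
    ((p : ℝ) + 1 - d) * (rhoV L p d d * H ^ (d + p - 3)) ≤ 2 / 3 * p := by
  induction d, hd using Nat.le_induction with
  | base =>
    rw [show 3 + p - 3 = p by omega]
    exact th3_3 hdp hL hH hLq hHq
  | succ k hk ih =>
    have h1 := ih (by omega)
    obtain ⟨N, rfl⟩ : ∃ N, p = N + 1 := ⟨p - 1, by omega⟩
    simp only [Nat.add_sub_cancel] at hLq hHq
    have h2 := rho_step (N := N) (k := k) hk (by omega) hL hH (by rw [hLq]; push_cast; ring)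
      (by rw [hHq]; push_cast; ring)
    refine le_trans ?_ h1
    unfold rhoV
    simp only [Nat.add_sub_cancel]
    have e1 : k + 1 + (N + 1) - 3 = (k + (N + 1) - 3) + 1 := by omega
    have e2 : 1 + (k + 1) + (k + 1) = (1 + k + k) + 2 := by ring
    have e3 : 2 * N + 1 + (k + 1) + (k + 1) = 2 * N + 1 + 2 * k + 2 := by ring
    have e4 : 2 * N + 1 + k + k = 2 * N + 1 + 2 * k := by ring
    rw [e1, e2, e3, e4, pow_succ H, pow_add L (1 + k + k) 2]
    have h3 := mul_le_mul_of_nonneg_left h2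
      (by positivity : 0 ≤ L ^ (1 + k + k) * H ^ (k + (N + 1) - 3))
    push_cast
    refine le_trans (le_of_eq ?_) (h3.trans (le_of_eq ?_)) <;> ring

end MP76b19e.Rob
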