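import Pool.Agent.Lib.MP76b19e.Rob.NumS

/-!
# The constants for `c₀ = 4` (problem MP_76b19e_co)

`th4`: `(2 p + 3 - 2 d) rhoG L p c₀ d * H ^ (c₀ + p - 3) ≤ 8 / 9 * p`, `c₀ = max 4 (d - 1)`, `d ≥ 1`.
-/

set_option autoImplicit false

open Finset

namespace MP76b19e.Rob

open Pool.Agent.MP76b19e (bq H_pow_le H_pow_le' H_ge_one)

section

variable {N : ℕ} {L H : ℝ}

theorem th4_0 (hN : 1 ≤ N) (hLN : L ^ N = N + 1)
    (hHN : H ^ N = 2 * (N + 1) / (N + 2)) :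
    (2 * N + 4) * (L ^ 4 * (24 * N ^ 4 / ((3 * N + 4) * (4 * N + 4) * (5 * N + 4) *
      (6 * N + 4)))) * (2 * (N + 1) / (N + 2) * H ^ 2) ≤ 27 / 32 * (N + 1) := by
  have hN1 : (1 : ℝ) ≤ N := by exact_mod_cast hN
  have hk : 0 < 2 * (N : ℝ) + 4 := by linarith
  obtain ⟨R, hR⟩ : ∃ R : ℝ, R = 27 * ((3 * N + 4) * (4 * N + 4) * (5 * N + 4) * (6 * N + 4)) /
    (3072 * N ^ 4) := ⟨_, rfl⟩
  have hlim : (3 : ℝ) ≤ R := by
    rw [hR, le_div_iff₀ (by positivity)]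
    obtain ⟨x, hx⟩ : ∃ x : ℝ, (N : ℝ) = 1 + x := ⟨N - 1, by ring⟩
    have hx0 : 0 ≤ x := by linarith
    rw [hx, ← sub_nonneg]
    ring_nf
    positivity
  have h1 : L ^ 4 * H ^ 2 ≤ R := by
    refine LH_le (by omega) hLN hHN (by linarith) ?_
    rcases Nat.lt_or_ge N 10 with h | h
    · rw [hR]
      interval_cases N <;> norm_num
    · refine (mul_le_mul_of_nonneg_left (two_H_le 2) (by positivity)).trans ?_
      exact (big_of2 (r := 3) (by norm_num) (by norm_num) (by norm_num) (by norm_num)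
        (by norm_num) h).trans (pow_le_pow_left₀ (by norm_num) hlim _)
  have hA : (0 : ℝ) ≤ (2 * N + 4) * (24 * N ^ 4 / ((3 * N + 4) * (4 * N + 4) * (5 * N + 4) *
      (6 * N + 4))) * (2 * (N + 1) / (N + 2)) :=
    mul_nonneg (mul_nonneg hk.le (by positivity)) (by positivity)
  have h2 := mul_le_mul_of_nonneg_left h1 hA
  refine le_trans (le_of_eq ?_) (h2.trans (le_of_eq ?_))
  · ring
  · rw [hR]
    have hk' := hk.ne'
    field_simp
    ring

theorem th4_1 (hN : 1 ≤ N) (hLN : L ^ N = N + 1)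
    (hHN : H ^ N = 2 * (N + 1) / (N + 2)) :
    (2 * N + 3) * (L ^ 5 * (24 * N ^ 4 / ((3 * N + 5) * (4 * N + 5) * (5 * N + 5) *
      (6 * N + 5)))) * (2 * (N + 1) / (N + 2) * H ^ 2) ≤ 8 / 9 * (N + 1) := by
  have hN1 : (1 : ℝ) ≤ N := by exact_mod_cast hN
  have hk : 0 < 2 * (N : ℝ) + 3 := by linarith
  obtain ⟨R, hR⟩ : ∃ R : ℝ, R = 8 * (N + 2) * ((3 * N + 5) * (4 * N + 5) * (5 * N + 5) * (6 * N + 5)) /
    (432 * N ^ 4 * (2 * N + 3)) := ⟨_, rfl⟩
  have hlim : (10 / 3 : ℝ) ≤ R := by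
    rw [hR, le_div_iff₀ (by positivity)]
    obtain ⟨x, hx⟩ : ∃ x : ℝ, (N : ℝ) = 1 + x := ⟨N - 1, by ring⟩
    have hx0 : 0 ≤ x := by linarith
    rw [hx, ← sub_nonneg]
    ring_nf
    positivity
  have h1 : L ^ 5 * H ^ 2 ≤ R := by
    refine LH_le (by omega) hLN hHN (by linarith) ?_
    rcases Nat.lt_or_ge N 12 with h | h
    · rw [hR]
      interval_cases N <;> norm_num
    · refine (mul_le_mul_of_nonneg_left (two_H_le 2) (by positivity)).trans ?_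
      exact (big_of2 (r := 10 / 3) (by norm_num) (by norm_num) (by norm_num) (by norm_num)
        (by norm_num) h).trans (pow_le_pow_left₀ (by norm_num) hlim _)
  have hA : (0 : ℝ) ≤ (2 * N + 3) * (24 * N ^ 4 / ((3 * N + 5) * (4 * N + 5) * (5 * N + 5) *
      (6 * N + 5))) * (2 * (N + 1) / (N + 2)) :=
    mul_nonneg (mul_nonneg hk.le (by positivity)) (by positivity)
  have h2 := mul_le_mul_of_nonneg_left h1 hA
  refine le_trans (le_of_eq ?_) (h2.trans (le_of_eq ?_))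
  · ring
  · rw [hR]
    have hk' := hk.ne'
    field_simp
    norm_num

theorem th4_2 (hN : 1 ≤ N) (hLN : L ^ N = N + 1)
    (hHN : H ^ N = 2 * (N + 1) / (N + 2)) :
    (2 * N + 1) * (L ^ 6 * (24 * N ^ 4 / ((3 * N + 6) * (4 * N + 6) * (5 * N + 6) *
      (6 * N + 6)))) * (2 * (N + 1) / (N + 2) * H ^ 2) ≤ 8 / 9 * (N + 1) := by
  have hN1 : (1 : ℝ) ≤ N := by exact_mod_cast hN
  have hk : 0 < 2 * (N : ℝ) + 1 := by linarith
  obtain ⟨R, hR⟩ : ∃ R : ℝ, R = 8 * (N + 2) * ((3 * N + 6) * (4 * N + 6) * (5 * N + 6) * (6 * N + 6)) /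
    (432 * N ^ 4 * (2 * N + 1)) := ⟨_, rfl⟩
  have hlim : (10 / 3 : ℝ) ≤ R := by
    rw [hR, le_div_iff₀ (by positivity)]
    obtain ⟨x, hx⟩ : ∃ x : ℝ, (N : ℝ) = 1 + x := ⟨N - 1, by ring⟩
    have hx0 : 0 ≤ x := by linarith
    rw [hx, ← sub_nonneg]
    ring_nf
    positivity
  have h1 : L ^ 6 * H ^ 2 ≤ R := by
    refine LH_le (by omega) hLN hHN (by linarith) ?_
    rcases Nat.lt_or_ge N 15 with h | h
    · rw [hR]
      interval_cases N <;> norm_num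
    · refine (mul_le_mul_of_nonneg_left (two_H_le 2) (by positivity)).trans ?_
      exact (big_of2 (r := 10 / 3) (by norm_num) (by norm_num) (by norm_num) (by norm_num)
        (by norm_num) h).trans (pow_le_pow_left₀ (by norm_num) hlim _)
  have hA : (0 : ℝ) ≤ (2 * N + 1) * (24 * N ^ 4 / ((3 * N + 6) * (4 * N + 6) * (5 * N + 6) *
      (6 * N + 6))) * (2 * (N + 1) / (N + 2)) :=
    mul_nonneg (mul_nonneg hk.le (by positivity)) (by positivity)
  have h2 := mul_le_mul_of_nonneg_left h1 hA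
  refine le_trans (le_of_eq ?_) (h2.trans (le_of_eq ?_))
  · ring
  · rw [hR]
    have hk' := hk.ne'
    field_simp
    norm_num

theorem th4_3 (hN : 1 ≤ N) (hLN : L ^ N = N + 1)
    (hHN : H ^ N = 2 * (N + 1) / (N + 2)) :
    (2 * N - 1) * (L ^ 7 * (24 * N ^ 4 / ((3 * N + 7) * (4 * N + 7) * (5 * N + 7) *
      (6 * N + 7)))) * (2 * (N + 1) / (N + 2) * H ^ 2) ≤ 8 / 9 * (N + 1) := by
  have hN1 : (1 : ℝ) ≤ N := by exact_mod_cast hN
  have hk : 0 < 2 * (N : ℝ) - 1 := by linarith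
  obtain ⟨R, hR⟩ : ∃ R : ℝ, R = 8 * (N + 2) * ((3 * N + 7) * (4 * N + 7) * (5 * N + 7) * (6 * N + 7)) /
    (432 * N ^ 4 * (2 * N - 1)) := ⟨_, rfl⟩
  have hlim : (10 / 3 : ℝ) ≤ R := by
    rw [hR, le_div_iff₀ (by positivity)]
    obtain ⟨x, hx⟩ : ∃ x : ℝ, (N : ℝ) = 1 + x := ⟨N - 1, by ring⟩
    have hx0 : 0 ≤ x := by linarith
    rw [hx, ← sub_nonneg]
    ring_nf
    positivity
  have h1 : L ^ 7 * H ^ 2 ≤ R := by
    refine LH_le (by omega) hLN hHN (by linarith) ?_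
    rcases Nat.lt_or_ge N 19 with h | h
    · rw [hR]
      interval_cases N <;> norm_num
    · refine (mul_le_mul_of_nonneg_left (two_H_le 2) (by positivity)).trans ?_
      exact (big_of2 (r := 10 / 3) (by norm_num) (by norm_num) (by norm_num) (by norm_num)
        (by norm_num) h).trans (pow_le_pow_left₀ (by norm_num) hlim _)
  have hA : (0 : ℝ) ≤ (2 * N - 1) * (24 * N ^ 4 / ((3 * N + 7) * (4 * N + 7) * (5 * N + 7) *
      (6 * N + 7))) * (2 * (N + 1) / (N + 2)) :=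
    mul_nonneg (mul_nonneg hk.le (by positivity)) (by positivity)
  have h2 := mul_le_mul_of_nonneg_left h1 hA
  refine le_trans (le_of_eq ?_) (h2.trans (le_of_eq ?_))
  · ring
  · rw [hR]
    have hk' := hk.ne'
    field_simp
    norm_num

theorem th4_4 (hN : 2 ≤ N) (hLN : L ^ N = N + 1)
    (hHN : H ^ N = 2 * (N + 1) / (N + 2)) :
    (2 * N - 3) * (L ^ 8 * (24 * N ^ 4 / ((3 * N + 8) * (4 * N + 8) * (5 * N + 8) *
      (6 * N + 8)))) * (2 * (N + 1) / (N + 2) * H ^ 2) ≤ 8 / 9 * (N + 1) := by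
  have hN1 : (2 : ℝ) ≤ N := by exact_mod_cast hN
  have hk : 0 < 2 * (N : ℝ) - 3 := by linarith
  obtain ⟨R, hR⟩ : ∃ R : ℝ, R = 8 * (N + 2) * ((3 * N + 8) * (4 * N + 8) * (5 * N + 8) * (6 * N + 8)) /
    (432 * N ^ 4 * (2 * N - 3)) := ⟨_, rfl⟩
  have hlim : (10 / 3 : ℝ) ≤ R := by
    rw [hR, le_div_iff₀ (by positivity)]
    obtain ⟨x, hx⟩ : ∃ x : ℝ, (N : ℝ) = 2 + x := ⟨N - 2, by ring⟩
    have hx0 : 0 ≤ x := by linarith
    rw [hx, ← sub_nonneg]
    ring_nf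
    positivity
  have h1 : L ^ 8 * H ^ 2 ≤ R := by
    refine LH_le (by omega) hLN hHN (by linarith) ?_
    rcases Nat.lt_or_ge N 22 with h | h
    · rw [hR]
      interval_cases N <;> norm_num
    · refine (mul_le_mul_of_nonneg_left (two_H_le 2) (by positivity)).trans ?_
      exact (big_of2 (r := 10 / 3) (by norm_num) (by norm_num) (by norm_num) (by norm_num)
        (by norm_num) h).trans (pow_le_pow_left₀ (by norm_num) hlim _)
  have hA : (0 : ℝ) ≤ (2 * N - 3) * (24 * N ^ 4 / ((3 * N + 8) * (4 * N + 8) * (5 * N + 8) *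
      (6 * N + 8))) * (2 * (N + 1) / (N + 2)) :=
    mul_nonneg (mul_nonneg hk.le (by positivity)) (by positivity)
  have h2 := mul_le_mul_of_nonneg_left h1 hA
  refine le_trans (le_of_eq ?_) (h2.trans (le_of_eq ?_))
  · ring
  · rw [hR]
    have hk' := hk.ne'
    field_simp
    norm_num

theorem th4_5 (hN : 3 ≤ N) (hLN : L ^ N = N + 1)
    (hHN : H ^ N = 2 * (N + 1) / (N + 2)) :
    (2 * N - 5) * (L ^ 9 * (24 * N ^ 4 / ((3 * N + 9) * (4 * N + 9) * (5 * N + 9) *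
      (6 * N + 9)))) * (2 * (N + 1) / (N + 2) * H ^ 2) ≤ 8 / 9 * (N + 1) := by
  have hN1 : (3 : ℝ) ≤ N := by exact_mod_cast hN
  have hk : 0 < 2 * (N : ℝ) - 5 := by linarith
  obtain ⟨R, hR⟩ : ∃ R : ℝ, R = 8 * (N + 2) * ((3 * N + 9) * (4 * N + 9) * (5 * N + 9) * (6 * N + 9)) /
    (432 * N ^ 4 * (2 * N - 5)) := ⟨_, rfl⟩
  have hlim : (10 / 3 : ℝ) ≤ R := by
    rw [hR, le_div_iff₀ (by positivity)]
    obtain ⟨x, hx⟩ : ∃ x : ℝ, (N : ℝ) = 3 + x := ⟨N - 3, by ring⟩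
    have hx0 : 0 ≤ x := by linarith
    rw [hx, ← sub_nonneg]
    ring_nf
    positivity
  have h1 : L ^ 9 * H ^ 2 ≤ R := by
    refine LH_le (by omega) hLN hHN (by linarith) ?_
    rcases Nat.lt_or_ge N 26 with h | h
    · rw [hR]
      interval_cases N <;> norm_num
    · refine (mul_le_mul_of_nonneg_left (two_H_le 2) (by positivity)).trans ?_
      exact (big_of2 (r := 10 / 3) (by norm_num) (by norm_num) (by norm_num) (by norm_num)
        (by norm_num) h).trans (pow_le_pow_left₀ (by norm_num) hlim _)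
  have hA : (0 : ℝ) ≤ (2 * N - 5) * (24 * N ^ 4 / ((3 * N + 9) * (4 * N + 9) * (5 * N + 9) *
      (6 * N + 9))) * (2 * (N + 1) / (N + 2)) :=
    mul_nonneg (mul_nonneg hk.le (by positivity)) (by positivity)
  have h2 := mul_le_mul_of_nonneg_left h1 hA
  refine le_trans (le_of_eq ?_) (h2.trans (le_of_eq ?_))
  · ring
  · rw [hR]
    have hk' := hk.ne'
    field_simp
    norm_num

end

end MP76b19e.Rob
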