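import Pool.Agent.Lib.MP76b19e.Rob.NumM

/-!
# The numerical inequality for base at least four, total mass `(n - 2) p + 2` (problem MP_76b19e_co)
-/

set_option autoImplicit false

open Finset

namespace MP76b19e.Rob

open Pool.Agent.MP76b19e (bq H_pow_le H_pow_le' H_ge_one)

section

variable {p : ℕ} {L H : ℝ}

theorem cast_N {N : ℕ} (h : L ^ (N + 1 - 1) = ((N + 1 : ℕ) : ℝ)) : L ^ N = N + 1 := by
  rw [Nat.add_sub_cancel] at h
  push_cast at h
  exact h

theorem cast_H {N : ℕ} (h : H ^ (N + 1 - 1) = 2 * ((N + 1 : ℕ) : ℝ) / (((N + 1 : ℕ) : ℝ) + 1)) :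
    H ^ N = 2 * (N + 1) / (N + 2) := by
  rw [Nat.add_sub_cancel] at h
  push_cast at h
  rw [h]
  congr 1
  ring

theorem rhoG4 (L : ℝ) (N d : ℕ) : rhoG L (N + 1) 4 d = L ^ (4 + d) * (24 * N ^ 4 /
    ((3 * N + (4 + d)) * (4 * N + (4 + d)) * (5 * N + (4 + d)) * (6 * N + (4 + d)))) := by
  unfold rhoG bq
  rw [prod_range_succ, prod_range_succ, prod_range_succ, prod_range_succ, prod_range_zero]
  simp only [Nat.add_sub_cancel]
  congr 1
  push_cast
  rw [one_mul, div_mul_div_comm, div_mul_div_comm, div_mul_div_comm]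
  congr 1 <;> ring

theorem HN2 {N : ℕ} (hHN : H ^ N = 2 * (N + 1) / (N + 2)) :
    H ^ (N + 2) = 2 * (N + 1) / (N + 2) * H ^ 2 := by
  rw [pow_add, hHN]

/-- nothing over-full -/
theorem th4z (hp : 2 ≤ p) (hLq : L ^ (p - 1) = p) (hHq : H ^ (p - 1) = 2 * p / (p + 1)) :
    (2 * (p : ℝ) + 2) * (rhoG L p 4 0 * H ^ (p + 1)) ≤ 27 / 32 * p := by
  obtain ⟨N, rfl⟩ : ∃ N, p = N + 1 := ⟨p - 1, by omega⟩
  have h := th4_0 (N := N) (by omega) (cast_N hLq) (cast_H hHq)
  rw [rhoG4, show N + 1 + 1 = N + 2 by ring, HN2 (cast_H hHq)]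
  push_cast
  refine le_trans (le_of_eq ?_) h
  ring

/-- `1 ≤ d ≤ 5`, `c₀ = 4` -/
theorem th4s (hp : 2 ≤ p) (hLq : L ^ (p - 1) = p)
    (hHq : H ^ (p - 1) = 2 * p / (p + 1)) {d : ℕ} (hd : 1 ≤ d) (hd5 : d ≤ 5) (hdp : d ≤ p + 1) :
    (2 * (p : ℝ) + 3 - 2 * d) * (rhoG L p 4 d * H ^ (p + 1)) ≤ 8 / 9 * p := by
  obtain ⟨N, rfl⟩ : ∃ N, p = N + 1 := ⟨p - 1, by omega⟩
  rw [rhoG4, show N + 1 + 1 = N + 2 by ring, HN2 (cast_H hHq)]
  interval_cases d
  · have h := th4_1 (N := N) (by omega) (cast_N hLq) (cast_H hHq)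
    push_cast
    refine le_trans (le_of_eq ?_) h
    norm_num
    ring
  · have h := th4_2 (N := N) (by omega) (cast_N hLq) (cast_H hHq)
    push_cast
    refine le_trans (le_of_eq ?_) h
    norm_num
    ring
  · have h := th4_3 (N := N) (by omega) (cast_N hLq) (cast_H hHq)
    push_cast
    refine le_trans (le_of_eq ?_) h
    norm_num
    ring
  · have h := th4_4 (N := N) (by omega) (cast_N hLq) (cast_H hHq)
    push_cast
    refine le_trans (le_of_eq ?_) h
    norm_num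
    ring
  · have h := th4_5 (N := N) (by omega) (cast_N hLq) (cast_H hHq)
    push_cast
    refine le_trans (le_of_eq ?_) h
    norm_num
    ring

/-- `d ≥ 5`, `c₀ = d - 1` -/
theorem th4l (hL : 0 < L) (hH : 0 < H) (hLq : L ^ (p - 1) = p)
    (hHq : H ^ (p - 1) = 2 * p / (p + 1)) {k : ℕ} (hk : 4 ≤ k) (hkp : k ≤ p) :
    (2 * (p : ℝ) + 1 - 2 * k) * (rhoV L p k k * H ^ (k + p - 3)) ≤ 8 / 9 * p := by
  induction k, hk using Nat.le_induction with
  | base =>
    rw [show 4 + p - 3 = p + 1 by omega, ← rhoG_eq]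
    have h := th4s (by omega) hLq hHq (d := 5) (by norm_num) le_rfl (by omega)
    push_cast at h ⊢
    refine le_trans (le_of_eq ?_) h
    ring
  | succ k hk ih =>
    have h1 := ih (by omega)
    obtain ⟨N, rfl⟩ : ∃ N, p = N + 1 := ⟨p - 1, by omega⟩
    have h2 := rho_step (N := N) (k := k) (by omega) (by omega) hL hH (cast_N hLq) (cast_H hHq)
    refine le_trans ?_ h1
    unfold rhoV
    simp only [Nat.add_sub_cancel]
    have e1 : k + 1 + (N + 1) - 3 = (k + (N + 1) - 3) + 1 := by omega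
    have e2 : 1 + (k + 1) + (k + 1) = (1 + k + k) + 2 := by ring
    have e3 : 2 * N + 1 + (k + 1) + (k + 1) = 2 * N + 1 + 2 * k + 2 := by ring
    have e4 : 2 * N + 1 + k + k = 2 * N + 1 + 2 * k := by ring
    rw [e1, e2, e3, e4, pow_succ H, pow_add L (1 + k + k) 2]
    have hkN : (k : ℝ) ≤ N := by exact_mod_cast (by omega : k ≤ N)
    -- the factor
    obtain ⟨A, hA⟩ : ∃ A, A = L ^ 2 * H * bq N (k + 1) (2 * N + 1 + 2 * k + 2) := ⟨_, rfl⟩
    obtain ⟨B, hB⟩ : ∃ B, B = bq N k (2 * N + 1 + 2 * k) := ⟨_, rfl⟩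
    rw [← hA, ← hB] at h2
    have hA0 : 0 ≤ A := by
      rw [hA]
      have := (Pool.Agent.MP76b19e.bq_pos (N := N) (by omega) (k + 1)
        (2 * N + 1 + 2 * k + 2)).le
      positivity
    have hB0 : 0 ≤ B := by
      rw [hB]
      exact (Pool.Agent.MP76b19e.bq_pos (N := N) (by omega) k _).le
    have h5 : (2 * (N : ℝ) + 1 - 2 * k) * A ≤ (2 * N + 3 - 2 * k) * B := by
      have h6 : (2 * (N : ℝ) + 1 - 2 * k) * (N + 2 - k) ≤ (N + 1 - k) * (2 * N + 3 - 2 * k) := by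
        nlinarith
      have h7 : 0 < (N : ℝ) + 2 - k := by linarith
      refine le_of_mul_le_mul_right ?_ h7
      have h8 := mul_le_mul_of_nonneg_right h6 hA0
      have h9 := mul_le_mul_of_nonneg_left h2 (by linarith : (0 : ℝ) ≤ 2 * N + 3 - 2 * k)
      linarith
    have h3 := mul_le_mul_of_nonneg_left h5
      (by positivity : 0 ≤ L ^ (1 + k + k) * H ^ (k + (N + 1) - 3))
    rw [hA, hB] at h3
    push_cast
    refine le_trans (le_of_eq ?_) (h3.trans (le_of_eq ?_)) <;> ring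

/-- all `d ≥ 1` -/
theorem th4 (hp : 2 ≤ p) (hL : 0 < L) (hH : 0 < H) (hLq : L ^ (p - 1) = p)
    (hHq : H ^ (p - 1) = 2 * p / (p + 1)) {d : ℕ} (hd : 1 ≤ d) (hdp : d ≤ p + 1) :
    ∃ c0 : ℕ, c0 ≤ max 4 (d - 1) ∧ 4 ≤ c0 ∧
      (2 * (p : ℝ) + 3 - 2 * d) * (rhoG L p c0 d * H ^ (c0 + p - 3)) ≤ 8 / 9 * p := by
  rcases Nat.lt_or_ge d 6 with h | h
  · refine ⟨4, le_max_left _ _, le_rfl, ?_⟩
    rw [show 4 + p - 3 = p + 1 by omega]
    exact th4s hp hLq hHq hd (by omega) hdp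
  · refine ⟨d - 1, le_max_right _ _, by omega, ?_⟩
    have h1 := th4l hL hH hLq hHq (k := d - 1) (by omega) (by omega)
    rw [rhoG_eq' L (by omega : 1 ≤ d)]
    rw [Nat.cast_sub (by omega)] at h1
    push_cast at h1
    refine le_trans (le_of_eq ?_) h1
    ring

/-! ### The factor `a - J` -/

theorem Hm1 (hp : 2 ≤ p) (hH : 0 < H) (hHq : H ^ (p - 1) = 2 * p / (p + 1)) {m : ℕ}
    (hm : m ≤ p + 1) : H ^ m ≤ 1 + m / (p - 1) := by
  have hp2 : (2 : ℝ) ≤ p := by exact_mod_cast hp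
  have hp1 : (0 : ℝ) < p - 1 := by linarith
  have h1 := pow_affine (a := 1) (α := 1) (β := 1 / ((p : ℝ) - 1)) (H_ge_one hp hH hHq)
    (by norm_num) hm le_rfl (by
      rw [one_mul, H_split hHq (show p + 1 = (p - 1) + 2 by omega)]
      refine (mul_le_mul_of_nonneg_left (pow_le_pow_left₀ hH.le (Hs1 hp hH hHq) 2)
        (by positivity)).trans ?_
      have e1 : 2 * (p : ℝ) / (p + 1) * ((p + 2) / (p + 1)) ^ 2 =
          2 * p * (p + 2) ^ 2 / (p + 1) ^ 3 := by
        field_simp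
      have e2 : (1 : ℝ) + 1 / (p - 1) * ((p + 1 : ℕ) : ℝ) = 2 * p / (p - 1) := by
        push_cast
        field_simp
        ring
      rw [e1, e2, div_le_div_iff₀ (by positivity) hp1]
      have h3 : (p + 2) ^ 2 * ((p : ℝ) - 1) ≤ (p + 1) ^ 3 := by nlinarith
      nlinarith)
  rw [one_mul] at h1
  refine h1.trans (le_of_eq ?_)
  ring

theorem HJ1 (hp : 2 ≤ p) (hH : 0 < H) (hHq : H ^ (p - 1) = 2 * p / (p + 1)) {j : ℕ}
    (hj : j ≤ 2 * p) : (2 * (p : ℝ) + 1 - j) * H ^ j ≤ 9 / 8 * (2 * p + 1) := by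
  have hp2 : (2 : ℝ) ≤ p := by exact_mod_cast hp
  have hp0 : (0 : ℝ) < p := by linarith
  have hjp : (j : ℝ) ≤ 2 * p := by exact_mod_cast hj
  have hj0 : (0 : ℝ) ≤ j := Nat.cast_nonneg j
  rcases Nat.lt_or_ge (p - 1) j with h1 | h1
  · obtain ⟨x, hx⟩ : ∃ x, j = (p - 1) + x := ⟨j - (p - 1), by omega⟩
    have hxr : (j : ℝ) = p - 1 + x := by
      rw [hx]
      push_cast [cast_pred' hp]
      ring
    have hx1 : 1 ≤ x := by omega
    have hx1r : (1 : ℝ) ≤ x := by exact_mod_cast hx1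
    rw [H_split hHq hx, hxr]
    rcases Nat.lt_or_ge (p - 1) x with h2 | h2
    · -- `x = p` or `x = p + 1`
      obtain ⟨y, hy⟩ : ∃ y, x = (p - 1) + y := ⟨x - (p - 1), by omega⟩
      have hy1 : 1 ≤ y := by omega
      have hy2 : y ≤ 2 := by omega
      have hyr : (x : ℝ) = p - 1 + y := by
        rw [hy]
        push_cast [cast_pred' hp]
        ring
      have h3 : H ^ x ≤ 2 * p / (p + 1) * ((p + 2) / (p + 1)) ^ y := by
        rw [H_split hHq hy]
        exact mul_le_mul_of_nonneg_left (pow_le_pow_left₀ hH.le (Hs1 hp hH hHq) y)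
          (by positivity)
      have h5 : (2 * (p : ℝ) + 1 - (p - 1 + x)) = 3 - y := by rw [hyr]; ring
      rw [h5]
      have hy2r : (y : ℝ) ≤ 2 := by exact_mod_cast hy2
      have h7 := mul_le_mul_of_nonneg_left (mul_le_mul_of_nonneg_left h3
        (by positivity : (0 : ℝ) ≤ 2 * p / (p + 1))) (by linarith : (0 : ℝ) ≤ 3 - (y : ℝ))
      refine h7.trans ?_
      obtain ⟨z, hz⟩ : ∃ z : ℝ, (p : ℝ) = 2 + z := ⟨p - 2, by ring⟩
      have hz0 : 0 ≤ z := by linarith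
      interval_cases y
      · have e1 : (3 - ((1 : ℕ) : ℝ)) * (2 * (p : ℝ) / (p + 1) * (2 * p / (p + 1) *
            ((p + 2) / (p + 1)) ^ 1)) = 8 * p ^ 2 * (p + 2) / (p + 1) ^ 3 := by
          field_simp
          norm_num
        rw [e1, div_le_iff₀ (by positivity), hz, ← sub_nonneg]
        ring_nf
        positivity
      · have e1 : (3 - ((2 : ℕ) : ℝ)) * (2 * (p : ℝ) / (p + 1) * (2 * p / (p + 1) *
            ((p + 2) / (p + 1)) ^ 2)) = 4 * p ^ 2 * (p + 2) ^ 2 / (p + 1) ^ 4 := by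
          field_simp
          norm_num
        rw [e1, div_le_iff₀ (by positivity), hz, ← sub_nonneg]
        ring_nf
        positivity
    · have h3 := H_pow_le hp hH hHq h2
      have h4 : (0 : ℝ) ≤ 2 * (p : ℝ) + 1 - (p - 1 + x) := by linarith
      have h5 := mul_le_mul_of_nonneg_left (mul_le_mul_of_nonneg_left h3
        (by positivity : (0 : ℝ) ≤ 2 * p / (p + 1))) h4
      refine h5.trans ?_
      have e1 : (2 * (p : ℝ) + 1 - (p - 1 + x)) * (2 * p / (p + 1) * (1 + x / (p + 1))) =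
          2 * p * ((p + 2 - x) * (p + 1 + x)) / (p + 1) ^ 2 := by
        field_simp
        ring
      rw [e1, div_le_iff₀ (by positivity)]
      have h6 : (p + 2 - x) * (p + 1 + x) ≤ ((p : ℝ) + 2) * (p + 1) := by nlinarith
      have h7 := mul_le_mul_of_nonneg_left h6 (by linarith : (0 : ℝ) ≤ 2 * p)
      refine h7.trans ?_
      nlinarith [mul_nonneg hp0.le hp0.le, mul_nonneg (mul_nonneg hp0.le hp0.le) hp0.le,
        sq_nonneg ((p : ℝ) - 1)]
  · have h2 := H_pow_le hp hH hHq h1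
    have h3 := mul_le_mul_of_nonneg_left h2 (by linarith : (0 : ℝ) ≤ 2 * (p : ℝ) + 1 - j)
    refine h3.trans ?_
    have e1 : (2 * (p : ℝ) + 1 - j) * (1 + j / (p + 1)) =
        (2 * p + 1 - j) * (p + 1 + j) / (p + 1) := by
      field_simp
    rw [e1, div_le_iff₀ (by positivity)]
    nlinarith [sq_nonneg ((p : ℝ) - 2 * j)]

theorem HJ0 (hp : 2 ≤ p) (hH : 0 < H) (hHq : H ^ (p - 1) = 2 * p / (p + 1)) {j : ℕ}
    (hj : j ≤ 2 * p + 1) : (2 * (p : ℝ) + 2 - j) * H ^ j ≤ 32 / 27 * (2 * p + 2) := by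
  have hp2 : (2 : ℝ) ≤ p := by exact_mod_cast hp
  have hp0 : (0 : ℝ) < p := by linarith
  have hjp : (j : ℝ) ≤ 2 * p + 1 := by exact_mod_cast hj
  have hj0 : (0 : ℝ) ≤ j := Nat.cast_nonneg j
  rcases Nat.lt_or_ge (p - 1) j with h1 | h1
  · obtain ⟨x, hx⟩ : ∃ x, j = (p - 1) + x := ⟨j - (p - 1), by omega⟩
    have hxr : (j : ℝ) = p - 1 + x := by
      rw [hx]
      push_cast [cast_pred' hp]
      ring
    have hx1 : 1 ≤ x := by omega
    have hx1r : (1 : ℝ) ≤ x := by exact_mod_cast hx1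
    rw [H_split hHq hx, hxr]
    rcases Nat.lt_or_ge (p - 1) x with h2 | h2
    · -- `x = p`, `p + 1`, `p + 2`
      have hx2 : (p : ℝ) ≤ x := by exact_mod_cast (by omega : p ≤ x)
      obtain ⟨y, hy⟩ : ∃ y, x = (p - 1) + y := ⟨x - (p - 1), by omega⟩
      have hy1 : 1 ≤ y := by omega
      have hy3 : y ≤ 3 := by omega
      have hyr : (x : ℝ) = p - 1 + y := by
        rw [hy]
        push_cast [cast_pred' hp]
        ring
      have h3 : H ^ x ≤ 2 * p / (p + 1) * ((p + 2) / (p + 1)) ^ y := by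
        rw [H_split hHq hy]
        exact mul_le_mul_of_nonneg_left (pow_le_pow_left₀ hH.le (Hs1 hp hH hHq) y)
          (by positivity)
      have h5 : (2 * (p : ℝ) + 2 - (p - 1 + x)) = 4 - y := by rw [hyr]; ring
      rw [h5]
      have hy3r : (y : ℝ) ≤ 3 := by exact_mod_cast hy3
      have h7 := mul_le_mul_of_nonneg_left (mul_le_mul_of_nonneg_left h3
        (by positivity : (0 : ℝ) ≤ 2 * p / (p + 1))) (by linarith : (0 : ℝ) ≤ 4 - (y : ℝ))
      refine h7.trans ?_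
      obtain ⟨z, hz⟩ : ∃ z : ℝ, (p : ℝ) = 2 + z := ⟨p - 2, by ring⟩
      have hz0 : 0 ≤ z := by linarith
      interval_cases y
      · have e1 : (4 - ((1 : ℕ) : ℝ)) * (2 * (p : ℝ) / (p + 1) * (2 * p / (p + 1) *
            ((p + 2) / (p + 1)) ^ 1)) = 12 * p ^ 2 * (p + 2) / (p + 1) ^ 3 := by
          field_simp
          norm_num
        rw [e1, div_le_iff₀ (by positivity), hz, ← sub_nonneg]
        ring_nf
        positivity
      · have e1 : (4 - ((2 : ℕ) : ℝ)) * (2 * (p : ℝ) / (p + 1) * (2 * p / (p + 1) *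
            ((p + 2) / (p + 1)) ^ 2)) = 8 * p ^ 2 * (p + 2) ^ 2 / (p + 1) ^ 4 := by
          field_simp
          norm_num
        rw [e1, div_le_iff₀ (by positivity), hz, ← sub_nonneg]
        ring_nf
        positivity
      · have e1 : (4 - ((3 : ℕ) : ℝ)) * (2 * (p : ℝ) / (p + 1) * (2 * p / (p + 1) *
            ((p + 2) / (p + 1)) ^ 3)) = 4 * p ^ 2 * (p + 2) ^ 3 / (p + 1) ^ 5 := by
          field_simp
          norm_num
        rw [e1, div_le_iff₀ (by positivity), hz, ← sub_nonneg]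
        ring_nf
        positivity
    · have h3 := H_pow_le hp hH hHq h2
      have h4 : (0 : ℝ) ≤ 2 * (p : ℝ) + 2 - (p - 1 + x) := by
        have : (x : ℝ) ≤ p := by exact_mod_cast (by omega : x ≤ p)
        linarith
      have h5 := mul_le_mul_of_nonneg_left (mul_le_mul_of_nonneg_left h3
        (by positivity : (0 : ℝ) ≤ 2 * p / (p + 1))) h4
      refine h5.trans ?_
      have e1 : (2 * (p : ℝ) + 2 - (p - 1 + x)) * (2 * p / (p + 1) * (1 + x / (p + 1))) =
          2 * p * ((p + 3 - x) * (p + 1 + x)) / (p + 1) ^ 2 := by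
        field_simp
        ring
      rw [e1, div_le_iff₀ (by positivity)]
      have h6 : (p + 3 - x) * (p + 1 + x) ≤ ((p : ℝ) + 2) ^ 2 := by
        nlinarith [sq_nonneg ((x : ℝ) - 1)]
      have h7 := mul_le_mul_of_nonneg_left h6 (by linarith : (0 : ℝ) ≤ 2 * p)
      refine h7.trans ?_
      have h8 : 0 ≤ ((p : ℝ) - 2) ^ 2 * (5 * p + 8) := by positivity
      nlinarith
  · have h2 := H_pow_le hp hH hHq h1
    have h3 := mul_le_mul_of_nonneg_left h2 (by linarith : (0 : ℝ) ≤ 2 * (p : ℝ) + 2 - j)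
    refine h3.trans ?_
    have e1 : (2 * (p : ℝ) + 2 - j) * (1 + j / (p + 1)) =
        (2 * p + 2 - j) * (p + 1 + j) / (p + 1) := by
      field_simp
    rw [e1, div_le_iff₀ (by positivity)]
    nlinarith [sq_nonneg ((p : ℝ) + 1 - 2 * j)]

end

end MP76b19e.Rob
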