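import Pool.Agent.Lib.MP76b19e.Rob.NumN

/-!
# The numerical inequality for base two and three, total mass `(n - 2) p + 2` (problem MP_76b19e_co)

The file is generated.
-/

set_option autoImplicit false
set_option linter.unusedTactic false
set_option linter.unreachableTactic false

open Finset

namespace MP76b19e.Rob

open Pool.Agent.MP76b19e (bq H_pow_le H_pow_le' H_ge_one)

/-- an affine bound which holds at both ends -/
theorem piece {x A α β : ℝ} (hx : 1 ≤ x) (hA : 0 ≤ A) {u0 u1 u : ℕ} (h0 : u0 ≤ u) (h1 : u ≤ u1)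
    (hb : A * x ^ u0 ≤ α + β * u0) (ht : A * x ^ u1 ≤ α + β * u1) : A * x ^ u ≤ α + β * u := by
  obtain ⟨v, rfl⟩ : ∃ v, u = u0 + v := ⟨u - u0, by omega⟩
  obtain ⟨w, rfl⟩ : ∃ w, u1 = u0 + w := ⟨u1 - u0, by omega⟩
  have h2 := pow_affine (x := x) (a := A * x ^ u0) (α := α + β * u0) (β := β) (u := v) (M := w)
    hx (by positivity) (by omega) hb (by
      push_cast at ht
      rw [pow_add] at ht
      rw [mul_assoc]
      linarith)
  push_cast
  rw [pow_add]
  rw [mul_assoc] at h2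
  linarith

section

variable {p : ℕ} {L H : ℝ}

theorem rhoG2 (L : ℝ) (N d : ℕ) : rhoG L (N + 1) 2 d =
    L ^ (2 + d) * (2 * N ^ 2 / ((3 * N + (2 + d)) * (4 * N + (2 + d)))) := by
  unfold rhoG bq
  rw [prod_range_succ, prod_range_succ, prod_range_zero]
  simp only [Nat.add_sub_cancel]
  congr 1
  push_cast
  rw [one_mul, div_mul_div_comm]
  congr 1 <;> ring

theorem rhoG3 (L : ℝ) (N d : ℕ) : rhoG L (N + 1) 3 d = L ^ (3 + d) *
    (6 * N ^ 3 / ((3 * N + (3 + d)) * (4 * N + (3 + d)) * (5 * N + (3 + d)))) := by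
  unfold rhoG bq
  rw [prod_range_succ, prod_range_succ, prod_range_succ, prod_range_zero]
  simp only [Nat.add_sub_cancel]
  congr 1
  push_cast
  rw [one_mul, div_mul_div_comm, div_mul_div_comm]
  congr 1 <;> ring

theorem H2N {N : ℕ} (hHN : H ^ N = 2 * (N + 1) / (N + 2)) {a b : ℕ} (h : a = 2 * N + b) :
    H ^ a = (2 * (N + 1) / (N + 2)) ^ 2 * H ^ b := by
  rw [h, pow_add, mul_comm 2 N, pow_mul, hHN]

theorem L_two (hLq : L ^ (2 - 1) = ((2 : ℕ) : ℝ)) : L = 2 := by
  have h : L ^ 1 = 2 := by exact_mod_cast hLq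
  rwa [pow_one] at h

theorem H_two (hHq : H ^ (2 - 1) = 2 * ((2 : ℕ) : ℝ) / (((2 : ℕ) : ℝ) + 1)) : H = 4 / 3 := by
  have h : H ^ 1 = 2 * ((2 : ℕ) : ℝ) / (((2 : ℕ) : ℝ) + 1) := hHq
  rw [pow_one] at h
  rw [h]
  norm_num

theorem bQ1 {N : ℕ} (hN : 2 ≤ N) (hLN : L ^ N = N + 1)
    (hHN : H ^ N = 2 * (N + 1) / (N + 2)) :
    (2 * N + 2) * (L ^ 3 * (2 * N ^ 2 / ((3 * N + 3) * (4 * N + 3)))) * H ^ 0 ≤ N + 1 := by
  have hN1 : (2 : ℝ) ≤ N := by exact_mod_cast hN
  have hk : 0 < 2 * (N : ℝ) + 2 := by linarith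
  obtain ⟨R, hR⟩ : ∃ R : ℝ, R = (N + 1) * ((3 * N + 3) * (4 * N + 3)) / ((2 * N + 2) * (2 * N ^ 2)) := ⟨_, rfl⟩
  have hlim : (3 : ℝ) ≤ R := by
    rw [hR, le_div_iff₀ (by positivity)]
    obtain ⟨x, hx⟩ : ∃ x : ℝ, (N : ℝ) = 2 + x := ⟨N - 2, by ring⟩
    have hx0 : 0 ≤ x := by linarith
    rw [hx, ← sub_nonneg]
    ring_nf
    positivity
  have h1 : L ^ 3 * H ^ 0 ≤ R := by
    refine LH_le (by omega) hLN hHN (by linarith) ?_
    rcases Nat.lt_or_ge N 5 with h | h
    · rw [hR]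
      interval_cases N <;> norm_num
    · refine (mul_le_mul_of_nonneg_left (two_H_le 0) (by positivity)).trans ?_
      exact (big_of2 (r := 3) (by norm_num) (by norm_num) (by norm_num) (by norm_num)
        (by norm_num) h).trans (pow_le_pow_left₀ (by norm_num) hlim _)
  have hA : (0 : ℝ) ≤ (2 * N + 2) * (2 * N ^ 2 / ((3 * N + 3) * (4 * N + 3))) := by positivity
  have h2 := mul_le_mul_of_nonneg_left h1 hA
  refine le_trans (le_of_eq ?_) (h2.trans (le_of_eq ?_))
  · ring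
  · rw [hR]
    field_simp

/-- base 2, 1 units dropped, `J = 1` -/
theorem fQ1 (hp : 2 ≤ p) (hL : 0 < L) (hH : 0 < H) (hLq : L ^ (p - 1) = p)
    (hHq : H ^ (p - 1) = 2 * p / (p + 1)) {u : ℕ} (hu : u ≤ 2 * p + 1) {S : ℝ} (hS1 : 1 ≤ S)
    (h1 : 1 ≤ u → 1 + ((u : ℝ) + 1) / (p + 2) ≤ S)
    (h2 : 1 ≤ u → 1 + 4 * ((u : ℝ) + 0 - p) / (p + 2) ≤ S) :
    (2 * (p : ℝ)) * (rhoG L p 2 1 * H ^ u) ≤ p * S := by
  rcases Nat.eq_or_lt_of_le hp with hp2 | hp3
  · -- `p = 2`
    subst hp2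
    have hL2 := L_two hLq
    have hH2 := H_two hHq
    have hr : rhoG L 2 2 1 = 8 / 21 := by
      rw [hL2]
      unfold rhoG bq
      simp only [prod_range_succ, prod_range_zero]
      norm_num
    rw [hr, hH2]
    rcases Nat.eq_zero_or_pos u with hu0 | hu0
    · subst hu0
      norm_num
      linarith
    · have h1' := h1 hu0
      have h2' := h2 hu0
      clear h1 h2
      push_cast at h1' h2' ⊢
      interval_cases u <;> norm_num at h1' h2' ⊢ <;> linarith
  · obtain ⟨N, rfl⟩ : ∃ N, p = N + 1 := ⟨p - 1, by omega⟩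
    have hN : 2 ≤ N := by omega
    have hNr : (2 : ℝ) ≤ N := by exact_mod_cast hN
    have hLN := cast_N hLq
    have hHN := cast_H hHq
    have hH1 := H_ge_one hp hH hHq
    obtain ⟨A, hA⟩ : ∃ A, A = (2 * ((N + 1 : ℕ) : ℝ)) * rhoG L (N + 1) 2 1 := ⟨_, rfl⟩
    have hA0 : 0 ≤ A := by
      rw [hA]
      have := rhoG_nonneg hp hL 2 1
      push_cast
      exact mul_nonneg (by linarith) this
    have hAe : A = (2 * N + 2) * (L ^ 3 * (2 * N ^ 2 / ((3 * N + 3) * (4 * N + 3)))) := by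
      have e : ((2 : ℝ) + ((1 : ℕ) : ℝ)) = 3 := by norm_num
      rw [hA, rhoG2, e]
      push_cast
      ring
    have hbot : A * H ^ 0 ≤ N + 1 := by
      rw [hAe]
      exact bQ1 hN hLN hHN
    have hgoal : (2 * ((N + 1 : ℕ) : ℝ)) * (rhoG L (N + 1) 2 1 * H ^ u) = A * H ^ u := by
      rw [hA]
      ring
    rw [hgoal]
    push_cast
    rcases Nat.lt_or_ge 0 u with hus | hus
    swap
    · have h3 : A * H ^ u ≤ A * H ^ 0 :=
        mul_le_mul_of_nonneg_left (pow_le_pow_right₀ hH1 hus) hA0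
      nlinarith
    have h1' := h1 (by omega)
    have h2' := h2 (by omega)
    push_cast at h1' h2'
    rcases Nat.lt_or_ge (2 * N + 0) u with hu1 | hu1
    · skip
      have h3 := piece (x := H) (A := A) (α := ((N : ℝ) + 1) * (1 + 4 * (0 - (N + 1)) / (N + 1 + 2)))
        (β := 4 * ((N : ℝ) + 1) / (N + 1 + 2)) (u0 := 2 * N + 1) (u1 := 2 * N + 3) (u := u) hH1 hA0 (by omega) (by omega)
        (by
          have h4 := tQ1b (L := L) (H := H) hN hLN hHN
          rw [hAe, H2N hHN (show 2 * N + 1 = 2 * N + 1 by omega)]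
          refine h4.trans (le_of_eq ?_)
          push_cast
          field_simp
          ring)
        (by
          have h4 := tQ1c (L := L) (H := H) hN hLN hHN
          rw [hAe, H2N hHN (show 2 * N + 3 = 2 * N + 3 by omega)]
          refine h4.trans (le_of_eq ?_)
          push_cast
          field_simp
          ring)
      refine h3.trans ?_
      have h6 := mul_le_mul_of_nonneg_left h2' (by positivity : (0 : ℝ) ≤ (N : ℝ) + 1)
      refine le_trans (le_of_eq ?_) h6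
      field_simp
      ring
    · skip
      have h3 := piece (x := H) (A := A) (α := ((N : ℝ) + 1) * (1 + 1 / (N + 1 + 2)))
        (β := ((N : ℝ) + 1) / (N + 1 + 2)) (u0 := 0) (u1 := 2 * N + 0) (u := u) hH1 hA0 (by omega) (by omega)
        (by
          refine hbot.trans (le_of_sub_nonneg ?_)
          have e1 : ((N : ℝ) + 1) * (1 + 1 / (N + 1 + 2)) + ((N : ℝ) + 1) / (N + 1 + 2) * ((0 : ℕ) : ℝ) - (N + 1) =
              ((N : ℝ) + 1) * 1 / (N + 1 + 2) := by
            push_cast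
            field_simp
            ring
          rw [e1]
          positivity)
        (by
          have h4 := tQ1a (L := L) (H := H) hN hLN hHN
          rw [hAe, H2N hHN (show 2 * N + 0 = 2 * N + 0 by omega)]
          refine h4.trans (le_of_eq ?_)
          push_cast
          field_simp
          ring)
      refine h3.trans ?_
      have h6 := mul_le_mul_of_nonneg_left h1' (by positivity : (0 : ℝ) ≤ (N : ℝ) + 1)
      refine le_trans (le_of_eq ?_) h6
      field_simp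
      ring

theorem bQ2 {N : ℕ} (hN : 2 ≤ N) (hLN : L ^ N = N + 1)
    (hHN : H ^ N = 2 * (N + 1) / (N + 2)) :
    (2 * N + 1) * (L ^ 3 * (2 * N ^ 2 / ((3 * N + 3) * (4 * N + 3)))) * H ^ 0 ≤ N + 1 := by
  have hN1 : (2 : ℝ) ≤ N := by exact_mod_cast hN
  have hk : 0 < 2 * (N : ℝ) + 1 := by linarith
  obtain ⟨R, hR⟩ : ∃ R : ℝ, R = (N + 1) * ((3 * N + 3) * (4 * N + 3)) / ((2 * N + 1) * (2 * N ^ 2)) := ⟨_, rfl⟩
  have hlim : (3 : ℝ) ≤ R := by
    rw [hR, le_div_iff₀ (by positivity)]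
    obtain ⟨x, hx⟩ : ∃ x : ℝ, (N : ℝ) = 2 + x := ⟨N - 2, by ring⟩
    have hx0 : 0 ≤ x := by linarith
    rw [hx, ← sub_nonneg]
    ring_nf
    positivity
  have h1 : L ^ 3 * H ^ 0 ≤ R := by
    refine LH_le (by omega) hLN hHN (by linarith) ?_
    rcases Nat.lt_or_ge N 5 with h | h
    · rw [hR]
      interval_cases N <;> norm_num
    · refine (mul_le_mul_of_nonneg_left (two_H_le 0) (by positivity)).trans ?_
      exact (big_of2 (r := 3) (by norm_num) (by norm_num) (by norm_num) (by norm_num)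
        (by norm_num) h).trans (pow_le_pow_left₀ (by norm_num) hlim _)
  have hA : (0 : ℝ) ≤ (2 * N + 1) * (2 * N ^ 2 / ((3 * N + 3) * (4 * N + 3))) := by positivity
  have h2 := mul_le_mul_of_nonneg_left h1 hA
  refine le_trans (le_of_eq ?_) (h2.trans (le_of_eq ?_))
  · ring
  · rw [hR]
    field_simp

/-- base 2, 1 units dropped, `J = 2` -/
theorem fQ2 (hp : 2 ≤ p) (hL : 0 < L) (hH : 0 < H) (hLq : L ^ (p - 1) = p)
    (hHq : H ^ (p - 1) = 2 * p / (p + 1)) {u : ℕ} (hu : u ≤ 2 * p) {S : ℝ} (hS1 : 1 ≤ S)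
    (h1 : 1 ≤ u → 1 + ((u : ℝ) + 0) / (p + 2) ≤ S)
    (h2 : 1 ≤ u → 1 + 4 * ((u : ℝ) - 1 - p) / (p + 2) ≤ S) :
    (2 * (p : ℝ) - 1) * (rhoG L p 2 1 * H ^ u) ≤ p * S := by
  rcases Nat.eq_or_lt_of_le hp with hp2 | hp3
  · -- `p = 2`
    subst hp2
    have hL2 := L_two hLq
    have hH2 := H_two hHq
    have hr : rhoG L 2 2 1 = 8 / 21 := by
      rw [hL2]
      unfold rhoG bq
      simp only [prod_range_succ, prod_range_zero]
      norm_num
    rw [hr, hH2]
    rcases Nat.eq_zero_or_pos u with hu0 | hu0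
    · subst hu0
      norm_num
      linarith
    · have h1' := h1 hu0
      have h2' := h2 hu0
      clear h1 h2
      push_cast at h1' h2' ⊢
      interval_cases u <;> norm_num at h1' h2' ⊢ <;> linarith
  · obtain ⟨N, rfl⟩ : ∃ N, p = N + 1 := ⟨p - 1, by omega⟩
    have hN : 2 ≤ N := by omega
    have hNr : (2 : ℝ) ≤ N := by exact_mod_cast hN
    have hLN := cast_N hLq
    have hHN := cast_H hHq
    have hH1 := H_ge_one hp hH hHq
    obtain ⟨A, hA⟩ : ∃ A, A = (2 * ((N + 1 : ℕ) : ℝ) - 1) * rhoG L (N + 1) 2 1 := ⟨_, rfl⟩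
    have hA0 : 0 ≤ A := by
      rw [hA]
      have := rhoG_nonneg hp hL 2 1
      push_cast
      exact mul_nonneg (by linarith) this
    have hAe : A = (2 * N + 1) * (L ^ 3 * (2 * N ^ 2 / ((3 * N + 3) * (4 * N + 3)))) := by
      have e : ((2 : ℝ) + ((1 : ℕ) : ℝ)) = 3 := by norm_num
      rw [hA, rhoG2, e]
      push_cast
      ring
    have hbot : A * H ^ 0 ≤ N + 1 := by
      rw [hAe]
      exact bQ2 hN hLN hHN
    have hgoal : (2 * ((N + 1 : ℕ) : ℝ) - 1) * (rhoG L (N + 1) 2 1 * H ^ u) = A * H ^ u := by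
      rw [hA]
      ring
    rw [hgoal]
    push_cast
    rcases Nat.lt_or_ge 0 u with hus | hus
    swap
    · have h3 : A * H ^ u ≤ A * H ^ 0 :=
        mul_le_mul_of_nonneg_left (pow_le_pow_right₀ hH1 hus) hA0
      nlinarith
    have h1' := h1 (by omega)
    have h2' := h2 (by omega)
    push_cast at h1' h2'
    rcases Nat.lt_or_ge (2 * N + 1) u with hu1 | hu1
    · skip
      have h3 := piece (x := H) (A := A) (α := ((N : ℝ) + 1) * (1 + 4 * (-1 - (N + 1)) / (N + 1 + 2)))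
        (β := 4 * ((N : ℝ) + 1) / (N + 1 + 2)) (u0 := 2 * N + 2) (u1 := 2 * N + 2) (u := u) hH1 hA0 (by omega) (by omega)
        (by
          have h4 := tQ2b (L := L) (H := H) hN hLN hHN
          rw [hAe, H2N hHN (show 2 * N + 2 = 2 * N + 2 by omega)]
          refine h4.trans (le_of_eq ?_)
          push_cast
          field_simp
          ring)
        (by
          have h4 := tQ2b (L := L) (H := H) hN hLN hHN
          rw [hAe, H2N hHN (show 2 * N + 2 = 2 * N + 2 by omega)]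
          refine h4.trans (le_of_eq ?_)
          push_cast
          field_simp
          ring)
      refine h3.trans ?_
      have h6 := mul_le_mul_of_nonneg_left h2' (by positivity : (0 : ℝ) ≤ (N : ℝ) + 1)
      refine le_trans (le_of_eq ?_) h6
      field_simp
      ring
    · skip
      have h3 := piece (x := H) (A := A) (α := ((N : ℝ) + 1) * (1 + 0 / (N + 1 + 2)))
        (β := ((N : ℝ) + 1) / (N + 1 + 2)) (u0 := 0) (u1 := 2 * N + 1) (u := u) hH1 hA0 (by omega) (by omega)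
        (by
          refine hbot.trans (le_of_sub_nonneg ?_)
          have e1 : ((N : ℝ) + 1) * (1 + 0 / (N + 1 + 2)) + ((N : ℝ) + 1) / (N + 1 + 2) * ((0 : ℕ) : ℝ) - (N + 1) =
              ((N : ℝ) + 1) * 0 / (N + 1 + 2) := by
            push_cast
            field_simp
            ring
          rw [e1]
          positivity)
        (by
          have h4 := tQ2a (L := L) (H := H) hN hLN hHN
          rw [hAe, H2N hHN (show 2 * N + 1 = 2 * N + 1 by omega)]
          refine h4.trans (le_of_eq ?_)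
          push_cast
          field_simp
          ring)
      refine h3.trans ?_
      have h6 := mul_le_mul_of_nonneg_left h1' (by positivity : (0 : ℝ) ≤ (N : ℝ) + 1)
      refine le_trans (le_of_eq ?_) h6
      field_simp
      ring

theorem bQ3 {N : ℕ} (hN : 2 ≤ N) (hLN : L ^ N = N + 1)
    (hHN : H ^ N = 2 * (N + 1) / (N + 2)) :
    (2 * N + 1) * (L ^ 4 * (2 * N ^ 2 / ((3 * N + 4) * (4 * N + 4)))) * H ^ 0 ≤ N + 1 := by
  have hN1 : (2 : ℝ) ≤ N := by exact_mod_cast hN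
  have hk : 0 < 2 * (N : ℝ) + 1 := by linarith
  obtain ⟨R, hR⟩ : ∃ R : ℝ, R = (N + 1) * ((3 * N + 4) * (4 * N + 4)) / ((2 * N + 1) * (2 * N ^ 2)) := ⟨_, rfl⟩
  have hlim : (3 : ℝ) ≤ R := by
    rw [hR, le_div_iff₀ (by positivity)]
    obtain ⟨x, hx⟩ : ∃ x : ℝ, (N : ℝ) = 2 + x := ⟨N - 2, by ring⟩
    have hx0 : 0 ≤ x := by linarith
    rw [hx, ← sub_nonneg]
    ring_nf
    positivity
  have h1 : L ^ 4 * H ^ 0 ≤ R := by
    refine LH_le (by omega) hLN hHN (by linarith) ?_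
    rcases Nat.lt_or_ge N 8 with h | h
    · rw [hR]
      interval_cases N <;> norm_num
    · refine (mul_le_mul_of_nonneg_left (two_H_le 0) (by positivity)).trans ?_
      exact (big_of2 (r := 3) (by norm_num) (by norm_num) (by norm_num) (by norm_num)
        (by norm_num) h).trans (pow_le_pow_left₀ (by norm_num) hlim _)
  have hA : (0 : ℝ) ≤ (2 * N + 1) * (2 * N ^ 2 / ((3 * N + 4) * (4 * N + 4))) := by positivity
  have h2 := mul_le_mul_of_nonneg_left h1 hA
  refine le_trans (le_of_eq ?_) (h2.trans (le_of_eq ?_))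
  · ring
  · rw [hR]
    field_simp

/-- base 2, 2 units dropped, `J = 0` -/
theorem fQ3 (hp : 2 ≤ p) (hL : 0 < L) (hH : 0 < H) (hLq : L ^ (p - 1) = p)
    (hHq : H ^ (p - 1) = 2 * p / (p + 1)) {u : ℕ} (hu : u ≤ 2 * p) {S : ℝ} (hS1 : 1 ≤ S)
    (h1 : 1 ≤ u → 1 + ((u : ℝ) + 2) / (p + 2) ≤ S)
    (h2 : 1 ≤ u → 1 + 4 * ((u : ℝ) + 1 - p) / (p + 2) ≤ S) :
    (2 * (p : ℝ) - 1) * (rhoG L p 2 2 * H ^ u) ≤ p * S := by
  rcases Nat.eq_or_lt_of_le hp with hp2 | hp3
  · -- `p = 2`
    subst hp2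
    have hL2 := L_two hLq
    have hH2 := H_two hHq
    have hr : rhoG L 2 2 2 = 4 / 7 := by
      rw [hL2]
      unfold rhoG bq
      simp only [prod_range_succ, prod_range_zero]
      norm_num
    rw [hr, hH2]
    rcases Nat.eq_zero_or_pos u with hu0 | hu0
    · subst hu0
      norm_num
      linarith
    · have h1' := h1 hu0
      have h2' := h2 hu0
      clear h1 h2
      push_cast at h1' h2' ⊢
      interval_cases u <;> norm_num at h1' h2' ⊢ <;> linarith
  · obtain ⟨N, rfl⟩ : ∃ N, p = N + 1 := ⟨p - 1, by omega⟩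
    have hN : 2 ≤ N := by omega
    have hNr : (2 : ℝ) ≤ N := by exact_mod_cast hN
    have hLN := cast_N hLq
    have hHN := cast_H hHq
    have hH1 := H_ge_one hp hH hHq
    obtain ⟨A, hA⟩ : ∃ A, A = (2 * ((N + 1 : ℕ) : ℝ) - 1) * rhoG L (N + 1) 2 2 := ⟨_, rfl⟩
    have hA0 : 0 ≤ A := by
      rw [hA]
      have := rhoG_nonneg hp hL 2 2
      push_cast
      exact mul_nonneg (by linarith) this
    have hAe : A = (2 * N + 1) * (L ^ 4 * (2 * N ^ 2 / ((3 * N + 4) * (4 * N + 4)))) := by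
      have e : ((2 : ℝ) + ((2 : ℕ) : ℝ)) = 4 := by norm_num
      rw [hA, rhoG2, e]
      push_cast
      ring
    have hbot : A * H ^ 0 ≤ N + 1 := by
      rw [hAe]
      exact bQ3 hN hLN hHN
    have hgoal : (2 * ((N + 1 : ℕ) : ℝ) - 1) * (rhoG L (N + 1) 2 2 * H ^ u) = A * H ^ u := by
      rw [hA]
      ring
    rw [hgoal]
    push_cast
    rcases Nat.lt_or_ge 0 u with hus | hus
    swap
    · have h3 : A * H ^ u ≤ A * H ^ 0 :=
        mul_le_mul_of_nonneg_left (pow_le_pow_right₀ hH1 hus) hA0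
      nlinarith
    have h1' := h1 (by omega)
    have h2' := h2 (by omega)
    push_cast at h1' h2'
    rcases Nat.lt_or_ge (2 * N - 1) u with hu1 | hu1
    · skip
      have h3 := piece (x := H) (A := A) (α := ((N : ℝ) + 1) * (1 + 4 * (1 - (N + 1)) / (N + 1 + 2)))
        (β := 4 * ((N : ℝ) + 1) / (N + 1 + 2)) (u0 := 2 * N + 0) (u1 := 2 * N + 2) (u := u) hH1 hA0 (by omega) (by omega)
        (by
          have h4 := tQ3b (L := L) (H := H) hN hLN hHN
          rw [hAe, H2N hHN (show 2 * N + 0 = 2 * N + 0 by omega)]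
          refine h4.trans (le_of_eq ?_)
          push_cast
          field_simp
          ring)
        (by
          have h4 := tQ3c (L := L) (H := H) hN hLN hHN
          rw [hAe, H2N hHN (show 2 * N + 2 = 2 * N + 2 by omega)]
          refine h4.trans (le_of_eq ?_)
          push_cast
          field_simp
          ring)
      refine h3.trans ?_
      have h6 := mul_le_mul_of_nonneg_left h2' (by positivity : (0 : ℝ) ≤ (N : ℝ) + 1)
      refine le_trans (le_of_eq ?_) h6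
      field_simp
      ring
    · skip
      have h3 := piece (x := H) (A := A) (α := ((N : ℝ) + 1) * (1 + 2 / (N + 1 + 2)))
        (β := ((N : ℝ) + 1) / (N + 1 + 2)) (u0 := 0) (u1 := 2 * N - 1) (u := u) hH1 hA0 (by omega) (by omega)
        (by
          refine hbot.trans (le_of_sub_nonneg ?_)
          have e1 : ((N : ℝ) + 1) * (1 + 2 / (N + 1 + 2)) + ((N : ℝ) + 1) / (N + 1 + 2) * ((0 : ℕ) : ℝ) - (N + 1) =
              ((N : ℝ) + 1) * 2 / (N + 1 + 2) := by
            push_cast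
            field_simp
            ring
          rw [e1]
          positivity)
        (by
          have h4 := tQ3a (L := L) (H := H) hN hH hLN hHN
          have h5 : H ^ (2 * N - 1) * H = (2 * (N + 1) / (N + 2)) ^ 2 := by
            rw [← pow_succ, show 2 * N - 1 + 1 = 2 * N + 0 by omega, H2N hHN rfl, pow_zero, mul_one]
          refine le_of_mul_le_mul_right ?_ hH
          rw [mul_assoc, h5, hAe]
          refine h4.trans (le_of_eq ?_)
          rw [Nat.cast_sub (by omega)]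
          push_cast
          field_simp
          ring)
      refine h3.trans ?_
      have h6 := mul_le_mul_of_nonneg_left h1' (by positivity : (0 : ℝ) ≤ (N : ℝ) + 1)
      refine le_trans (le_of_eq ?_) h6
      field_simp
      ring

theorem bQ4 {N : ℕ} (hN : 2 ≤ N) (hLN : L ^ N = N + 1)
    (hHN : H ^ N = 2 * (N + 1) / (N + 2)) :
    (2 * N + 2) * (L ^ 2 * (2 * N ^ 2 / ((3 * N + 2) * (4 * N + 2)))) * H ^ 0 ≤ N + 1 := by
  have hN1 : (2 : ℝ) ≤ N := by exact_mod_cast hN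
  have hk : 0 < 2 * (N : ℝ) + 2 := by linarith
  obtain ⟨R, hR⟩ : ∃ R : ℝ, R = (N + 1) * ((3 * N + 2) * (4 * N + 2)) / ((2 * N + 2) * (2 * N ^ 2)) := ⟨_, rfl⟩
  have hlim : (3 : ℝ) ≤ R := by
    rw [hR, le_div_iff₀ (by positivity)]
    obtain ⟨x, hx⟩ : ∃ x : ℝ, (N : ℝ) = 2 + x := ⟨N - 2, by ring⟩
    have hx0 : 0 ≤ x := by linarith
    rw [hx, ← sub_nonneg]
    ring_nf
    positivity
  have h1 : L ^ 2 * H ^ 0 ≤ R := by
    refine LH_le (by omega) hLN hHN (by linarith) ?_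
    rcases Nat.lt_or_ge N 2 with h | h
    · rw [hR]
      interval_cases N <;> norm_num
    · refine (mul_le_mul_of_nonneg_left (two_H_le 0) (by positivity)).trans ?_
      exact (big_of2 (r := 3) (by norm_num) (by norm_num) (by norm_num) (by norm_num)
        (by norm_num) h).trans (pow_le_pow_left₀ (by norm_num) hlim _)
  have hA : (0 : ℝ) ≤ (2 * N + 2) * (2 * N ^ 2 / ((3 * N + 2) * (4 * N + 2))) := by positivity
  have h2 := mul_le_mul_of_nonneg_left h1 hA
  refine le_trans (le_of_eq ?_) (h2.trans (le_of_eq ?_))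
  · ring
  · rw [hR]
    field_simp

/-- base 2, 0 units dropped, `J = 2` -/
theorem fQ4 (hp : 2 ≤ p) (hL : 0 < L) (hH : 0 < H) (hLq : L ^ (p - 1) = p)
    (hHq : H ^ (p - 1) = 2 * p / (p + 1)) {u : ℕ} (hu : u ≤ 2 * p) {S : ℝ} (hS1 : 1 ≤ S)
    (h1 : 1 ≤ u → 1 + ((u : ℝ) + 0) / (p + 2) ≤ S)
    (h2 : 1 ≤ u → 1 + 4 * ((u : ℝ) - 1 - p) / (p + 2) ≤ S) :
    (2 * (p : ℝ)) * (rhoG L p 2 0 * H ^ u) ≤ p * S := by
  rcases Nat.eq_or_lt_of_le hp with hp2 | hp3
  · -- `p = 2`
    subst hp2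
    have hL2 := L_two hLq
    have hH2 := H_two hHq
    have hr : rhoG L 2 2 0 = 4 / 15 := by
      rw [hL2]
      unfold rhoG bq
      simp only [prod_range_succ, prod_range_zero]
      norm_num
    rw [hr, hH2]
    rcases Nat.eq_zero_or_pos u with hu0 | hu0
    · subst hu0
      norm_num
      linarith
    · have h1' := h1 hu0
      have h2' := h2 hu0
      clear h1 h2
      push_cast at h1' h2' ⊢
      interval_cases u <;> norm_num at h1' h2' ⊢ <;> linarith
  · obtain ⟨N, rfl⟩ : ∃ N, p = N + 1 := ⟨p - 1, by omega⟩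
    have hN : 2 ≤ N := by omega
    have hNr : (2 : ℝ) ≤ N := by exact_mod_cast hN
    have hLN := cast_N hLq
    have hHN := cast_H hHq
    have hH1 := H_ge_one hp hH hHq
    obtain ⟨A, hA⟩ : ∃ A, A = (2 * ((N + 1 : ℕ) : ℝ)) * rhoG L (N + 1) 2 0 := ⟨_, rfl⟩
    have hA0 : 0 ≤ A := by
      rw [hA]
      have := rhoG_nonneg hp hL 2 0
      push_cast
      exact mul_nonneg (by linarith) this
    have hAe : A = (2 * N + 2) * (L ^ 2 * (2 * N ^ 2 / ((3 * N + 2) * (4 * N + 2)))) := by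
      have e : ((2 : ℝ) + ((0 : ℕ) : ℝ)) = 2 := by norm_num
      rw [hA, rhoG2, e]
      push_cast
      ring
    have hbot : A * H ^ 0 ≤ N + 1 := by
      rw [hAe]
      exact bQ4 hN hLN hHN
    have hgoal : (2 * ((N + 1 : ℕ) : ℝ)) * (rhoG L (N + 1) 2 0 * H ^ u) = A * H ^ u := by
      rw [hA]
      ring
    rw [hgoal]
    push_cast
    rcases Nat.lt_or_ge 0 u with hus | hus
    swap
    · have h3 : A * H ^ u ≤ A * H ^ 0 :=
        mul_le_mul_of_nonneg_left (pow_le_pow_right₀ hH1 hus) hA0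
      nlinarith
    have h1' := h1 (by omega)
    have h2' := h2 (by omega)
    push_cast at h1' h2'
    have h3 := piece (x := H) (A := A) (α := ((N : ℝ) + 1) * (1 + 0 / (N + 1 + 2)))
      (β := ((N : ℝ) + 1) / (N + 1 + 2)) (u0 := 0) (u1 := 2 * N + 2) (u := u) hH1 hA0 (by omega) (by omega)
      (by
        refine hbot.trans (le_of_sub_nonneg ?_)
        have e1 : ((N : ℝ) + 1) * (1 + 0 / (N + 1 + 2)) + ((N : ℝ) + 1) / (N + 1 + 2) * ((0 : ℕ) : ℝ) - (N + 1) =
            ((N : ℝ) + 1) * 0 / (N + 1 + 2) := by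
          push_cast
          field_simp
          ring
        rw [e1]
        positivity)
      (by
        have h4 := tQ4a (L := L) (H := H) hN hLN hHN
        rw [hAe, H2N hHN (show 2 * N + 2 = 2 * N + 2 by omega)]
        refine h4.trans (le_of_eq ?_)
        push_cast
        field_simp
        ring)
    refine h3.trans ?_
    have h6 := mul_le_mul_of_nonneg_left h1' (by positivity : (0 : ℝ) ≤ (N : ℝ) + 1)
    refine le_trans (le_of_eq ?_) h6
    field_simp
    ring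

theorem bQ5 {N : ℕ} (hN : 2 ≤ N) (hLN : L ^ N = N + 1)
    (hHN : H ^ N = 2 * (N + 1) / (N + 2)) :
    (2 * N + 1) * (L ^ 2 * (2 * N ^ 2 / ((3 * N + 2) * (4 * N + 2)))) * H ^ 1 ≤ N + 1 := by
  have hN1 : (2 : ℝ) ≤ N := by exact_mod_cast hN
  have hk : 0 < 2 * (N : ℝ) + 1 := by linarith
  obtain ⟨R, hR⟩ : ∃ R : ℝ, R = (N + 1) * ((3 * N + 2) * (4 * N + 2)) / ((2 * N + 1) * (2 * N ^ 2)) := ⟨_, rfl⟩
  have hlim : (3 : ℝ) ≤ R := by
    rw [hR, le_div_iff₀ (by positivity)]
    obtain ⟨x, hx⟩ : ∃ x : ℝ, (N : ℝ) = 2 + x := ⟨N - 2, by ring⟩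
    have hx0 : 0 ≤ x := by linarith
    rw [hx, ← sub_nonneg]
    ring_nf
    positivity
  have h1 : L ^ 2 * H ^ 1 ≤ R := by
    refine LH_le (by omega) hLN hHN (by linarith) ?_
    rcases Nat.lt_or_ge N 4 with h | h
    · rw [hR]
      interval_cases N <;> norm_num
    · refine (mul_le_mul_of_nonneg_left (two_H_le 1) (by positivity)).trans ?_
      exact (big_of2 (r := 3) (by norm_num) (by norm_num) (by norm_num) (by norm_num)
        (by norm_num) h).trans (pow_le_pow_left₀ (by norm_num) hlim _)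
  have hA : (0 : ℝ) ≤ (2 * N + 1) * (2 * N ^ 2 / ((3 * N + 2) * (4 * N + 2))) := by positivity
  have h2 := mul_le_mul_of_nonneg_left h1 hA
  refine le_trans (le_of_eq ?_) (h2.trans (le_of_eq ?_))
  · ring
  · rw [hR]
    field_simp

/-- base 2, 0 units dropped, `J = 3` -/
theorem fQ5 (hp : 2 ≤ p) (hL : 0 < L) (hH : 0 < H) (hLq : L ^ (p - 1) = p)
    (hHq : H ^ (p - 1) = 2 * p / (p + 1)) {u : ℕ} (hu : u ≤ 2 * p) {S : ℝ} (hS1 : 1 ≤ S)
    (h1 : 1 ≤ u → 1 + ((u : ℝ) - 1) / (p + 2) ≤ S)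
    (h2 : 1 ≤ u → 1 + 4 * ((u : ℝ) - 2 - p) / (p + 2) ≤ S) :
    (2 * (p : ℝ) - 1) * (rhoG L p 2 0 * H ^ u) ≤ p * S := by
  rcases Nat.eq_or_lt_of_le hp with hp2 | hp3
  · -- `p = 2`
    subst hp2
    have hL2 := L_two hLq
    have hH2 := H_two hHq
    have hr : rhoG L 2 2 0 = 4 / 15 := by
      rw [hL2]
      unfold rhoG bq
      simp only [prod_range_succ, prod_range_zero]
      norm_num
    rw [hr, hH2]
    rcases Nat.eq_zero_or_pos u with hu0 | hu0
    · subst hu0
      norm_num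
      linarith
    · have h1' := h1 hu0
      have h2' := h2 hu0
      clear h1 h2
      push_cast at h1' h2' ⊢
      interval_cases u <;> norm_num at h1' h2' ⊢ <;> linarith
  · obtain ⟨N, rfl⟩ : ∃ N, p = N + 1 := ⟨p - 1, by omega⟩
    have hN : 2 ≤ N := by omega
    have hNr : (2 : ℝ) ≤ N := by exact_mod_cast hN
    have hLN := cast_N hLq
    have hHN := cast_H hHq
    have hH1 := H_ge_one hp hH hHq
    obtain ⟨A, hA⟩ : ∃ A, A = (2 * ((N + 1 : ℕ) : ℝ) - 1) * rhoG L (N + 1) 2 0 := ⟨_, rfl⟩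
    have hA0 : 0 ≤ A := by
      rw [hA]
      have := rhoG_nonneg hp hL 2 0
      push_cast
      exact mul_nonneg (by linarith) this
    have hAe : A = (2 * N + 1) * (L ^ 2 * (2 * N ^ 2 / ((3 * N + 2) * (4 * N + 2)))) := by
      have e : ((2 : ℝ) + ((0 : ℕ) : ℝ)) = 2 := by norm_num
      rw [hA, rhoG2, e]
      push_cast
      ring
    have hbot : A * H ^ 1 ≤ N + 1 := by
      rw [hAe]
      exact bQ5 hN hLN hHN
    have hgoal : (2 * ((N + 1 : ℕ) : ℝ) - 1) * (rhoG L (N + 1) 2 0 * H ^ u) = A * H ^ u := by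
      rw [hA]
      ring
    rw [hgoal]
    push_cast
    rcases Nat.lt_or_ge 1 u with hus | hus
    swap
    · have h3 : A * H ^ u ≤ A * H ^ 1 :=
        mul_le_mul_of_nonneg_left (pow_le_pow_right₀ hH1 hus) hA0
      nlinarith
    have h1' := h1 (by omega)
    have h2' := h2 (by omega)
    push_cast at h1' h2'
    have h3 := piece (x := H) (A := A) (α := ((N : ℝ) + 1) * (1 + (-1) / (N + 1 + 2)))
      (β := ((N : ℝ) + 1) / (N + 1 + 2)) (u0 := 1) (u1 := 2 * N + 2) (u := u) hH1 hA0 (by omega) (by omega)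
      (by
        refine hbot.trans (le_of_sub_nonneg ?_)
        have e1 : ((N : ℝ) + 1) * (1 + (-1) / (N + 1 + 2)) + ((N : ℝ) + 1) / (N + 1 + 2) * ((1 : ℕ) : ℝ) - (N + 1) =
            ((N : ℝ) + 1) * 0 / (N + 1 + 2) := by
          push_cast
          field_simp
          ring
        rw [e1]
        positivity)
      (by
        have h4 := tQ5a (L := L) (H := H) hN hLN hHN
        rw [hAe, H2N hHN (show 2 * N + 2 = 2 * N + 2 by omega)]
        refine h4.trans (le_of_eq ?_)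
        push_cast
        field_simp
        ring)
    refine h3.trans ?_
    have h6 := mul_le_mul_of_nonneg_left h1' (by positivity : (0 : ℝ) ≤ (N : ℝ) + 1)
    refine le_trans (le_of_eq ?_) h6
    field_simp
    ring

theorem bQA {N : ℕ} (hN : 2 ≤ N) (hLN : L ^ N = N + 1)
    (hHN : H ^ N = 2 * (N + 1) / (N + 2)) :
    (2 * N + 2) * (L ^ 4 * (6 * N ^ 3 / ((3 * N + 4) * (4 * N + 4) * (5 * N + 4)))) * H ^ 0 ≤ N + 1 := by
  have hN1 : (2 : ℝ) ≤ N := by exact_mod_cast hN
  have hk : 0 < 2 * (N : ℝ) + 2 := by linarith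
  obtain ⟨R, hR⟩ : ∃ R : ℝ, R = (N + 1) * ((3 * N + 4) * (4 * N + 4) * (5 * N + 4)) / ((2 * N + 2) * (6 * N ^ 3)) := ⟨_, rfl⟩
  have hlim : (5 : ℝ) ≤ R := by
    rw [hR, le_div_iff₀ (by positivity)]
    obtain ⟨x, hx⟩ : ∃ x : ℝ, (N : ℝ) = 2 + x := ⟨N - 2, by ring⟩
    have hx0 : 0 ≤ x := by linarith
    rw [hx, ← sub_nonneg]
    ring_nf
    positivity
  have h1 : L ^ 4 * H ^ 0 ≤ R := by
    refine LH_le (by omega) hLN hHN (by linarith) ?_
    rcases Nat.lt_or_ge N 4 with h | h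
    · rw [hR]
      interval_cases N <;> norm_num
    · refine (mul_le_mul_of_nonneg_left (two_H_le 0) (by positivity)).trans ?_
      exact (big_of2 (r := 5) (by norm_num) (by norm_num) (by norm_num) (by norm_num)
        (by norm_num) h).trans (pow_le_pow_left₀ (by norm_num) hlim _)
  have hA : (0 : ℝ) ≤ (2 * N + 2) * (6 * N ^ 3 / ((3 * N + 4) * (4 * N + 4) * (5 * N + 4))) := by positivity
  have h2 := mul_le_mul_of_nonneg_left h1 hA
  refine le_trans (le_of_eq ?_) (h2.trans (le_of_eq ?_))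
  · ring
  · rw [hR]
    field_simp

/-- base 3, 1 units dropped, `J = 1` -/
theorem fQA (hp : 2 ≤ p) (hL : 0 < L) (hH : 0 < H) (hLq : L ^ (p - 1) = p)
    (hHq : H ^ (p - 1) = 2 * p / (p + 1)) {u : ℕ} (hu : u ≤ 2 * p + 2) {S : ℝ} (hS1 : 1 ≤ S)
    (h1 : 1 ≤ u → 1 + ((u : ℝ) + 0) / (p + 3) ≤ S)
    (h2 : 1 ≤ u → 1 + 4 * ((u : ℝ) - 1 - p) / (p + 3) ≤ S) :
    (2 * (p : ℝ)) * (rhoG L p 3 1 * H ^ u) ≤ p * S := by
  rcases Nat.eq_or_lt_of_le hp with hp2 | hp3
  · -- `p = 2`
    subst hp2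
    have hL2 := L_two hLq
    have hH2 := H_two hHq
    have hr : rhoG L 2 3 1 = 4 / 21 := by
      rw [hL2]
      unfold rhoG bq
      simp only [prod_range_succ, prod_range_zero]
      norm_num
    rw [hr, hH2]
    rcases Nat.eq_zero_or_pos u with hu0 | hu0
    · subst hu0
      norm_num
      linarith
    · have h1' := h1 hu0
      have h2' := h2 hu0
      clear h1 h2
      push_cast at h1' h2' ⊢
      interval_cases u <;> norm_num at h1' h2' ⊢ <;> linarith
  · obtain ⟨N, rfl⟩ : ∃ N, p = N + 1 := ⟨p - 1, by omega⟩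
    have hN : 2 ≤ N := by omega
    have hNr : (2 : ℝ) ≤ N := by exact_mod_cast hN
    have hLN := cast_N hLq
    have hHN := cast_H hHq
    have hH1 := H_ge_one hp hH hHq
    obtain ⟨A, hA⟩ : ∃ A, A = (2 * ((N + 1 : ℕ) : ℝ)) * rhoG L (N + 1) 3 1 := ⟨_, rfl⟩
    have hA0 : 0 ≤ A := by
      rw [hA]
      have := rhoG_nonneg hp hL 3 1
      push_cast
      exact mul_nonneg (by linarith) this
    have hAe : A = (2 * N + 2) * (L ^ 4 * (6 * N ^ 3 / ((3 * N + 4) * (4 * N + 4) * (5 * N + 4)))) := by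
      have e : ((3 : ℝ) + ((1 : ℕ) : ℝ)) = 4 := by norm_num
      rw [hA, rhoG3, e]
      push_cast
      ring
    have hbot : A * H ^ 0 ≤ N + 1 := by
      rw [hAe]
      exact bQA hN hLN hHN
    have hgoal : (2 * ((N + 1 : ℕ) : ℝ)) * (rhoG L (N + 1) 3 1 * H ^ u) = A * H ^ u := by
      rw [hA]
      ring
    rw [hgoal]
    push_cast
    rcases Nat.lt_or_ge 0 u with hus | hus
    swap
    · have h3 : A * H ^ u ≤ A * H ^ 0 :=
        mul_le_mul_of_nonneg_left (pow_le_pow_right₀ hH1 hus) hA0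
      nlinarith
    have h1' := h1 (by omega)
    have h2' := h2 (by omega)
    push_cast at h1' h2'
    rcases Nat.lt_or_ge (2 * N + 2) u with hu1 | hu1
    · skip
      have h3 := piece (x := H) (A := A) (α := ((N : ℝ) + 1) * (1 + 4 * (-1 - (N + 1)) / (N + 1 + 3)))
        (β := 4 * ((N : ℝ) + 1) / (N + 1 + 3)) (u0 := 2 * N + 3) (u1 := 2 * N + 4) (u := u) hH1 hA0 (by omega) (by omega)
        (by
          have h4 := tQAb (L := L) (H := H) hN hLN hHN
          rw [hAe, H2N hHN (show 2 * N + 3 = 2 * N + 3 by omega)]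
          refine h4.trans (le_of_eq ?_)
          push_cast
          field_simp
          ring)
        (by
          have h4 := tQAc (L := L) (H := H) hN hLN hHN
          rw [hAe, H2N hHN (show 2 * N + 4 = 2 * N + 4 by omega)]
          refine h4.trans (le_of_eq ?_)
          push_cast
          field_simp
          ring)
      refine h3.trans ?_
      have h6 := mul_le_mul_of_nonneg_left h2' (by positivity : (0 : ℝ) ≤ (N : ℝ) + 1)
      refine le_trans (le_of_eq ?_) h6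
      field_simp
      ring
    · skip
      have h3 := piece (x := H) (A := A) (α := ((N : ℝ) + 1) * (1 + 0 / (N + 1 + 3)))
        (β := ((N : ℝ) + 1) / (N + 1 + 3)) (u0 := 0) (u1 := 2 * N + 2) (u := u) hH1 hA0 (by omega) (by omega)
        (by
          refine hbot.trans (le_of_sub_nonneg ?_)
          have e1 : ((N : ℝ) + 1) * (1 + 0 / (N + 1 + 3)) + ((N : ℝ) + 1) / (N + 1 + 3) * ((0 : ℕ) : ℝ) - (N + 1) =
              ((N : ℝ) + 1) * 0 / (N + 1 + 3) := by
            push_cast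
            field_simp
            ring
          rw [e1]
          positivity)
        (by
          have h4 := tQAa (L := L) (H := H) hN hLN hHN
          rw [hAe, H2N hHN (show 2 * N + 2 = 2 * N + 2 by omega)]
          refine h4.trans (le_of_eq ?_)
          push_cast
          field_simp
          ring)
      refine h3.trans ?_
      have h6 := mul_le_mul_of_nonneg_left h1' (by positivity : (0 : ℝ) ≤ (N : ℝ) + 1)
      refine le_trans (le_of_eq ?_) h6
      field_simp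
      ring

theorem bQB {N : ℕ} (hN : 2 ≤ N) (hLN : L ^ N = N + 1)
    (hHN : H ^ N = 2 * (N + 1) / (N + 2)) :
    (2 * N + 1) * (L ^ 4 * (6 * N ^ 3 / ((3 * N + 4) * (4 * N + 4) * (5 * N + 4)))) * H ^ 1 ≤ N + 1 := by
  have hN1 : (2 : ℝ) ≤ N := by exact_mod_cast hN
  have hk : 0 < 2 * (N : ℝ) + 1 := by linarith
  obtain ⟨R, hR⟩ : ∃ R : ℝ, R = (N + 1) * ((3 * N + 4) * (4 * N + 4) * (5 * N + 4)) / ((2 * N + 1) * (6 * N ^ 3)) := ⟨_, rfl⟩
  have hlim : (5 : ℝ) ≤ R := by
    rw [hR, le_div_iff₀ (by positivity)]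
    obtain ⟨x, hx⟩ : ∃ x : ℝ, (N : ℝ) = 2 + x := ⟨N - 2, by ring⟩
    have hx0 : 0 ≤ x := by linarith
    rw [hx, ← sub_nonneg]
    ring_nf
    positivity
  have h1 : L ^ 4 * H ^ 1 ≤ R := by
    refine LH_le (by omega) hLN hHN (by linarith) ?_
    rcases Nat.lt_or_ge N 5 with h | h
    · rw [hR]
      interval_cases N <;> norm_num
    · refine (mul_le_mul_of_nonneg_left (two_H_le 1) (by positivity)).trans ?_
      exact (big_of2 (r := 5) (by norm_num) (by norm_num) (by norm_num) (by norm_num)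
        (by norm_num) h).trans (pow_le_pow_left₀ (by norm_num) hlim _)
  have hA : (0 : ℝ) ≤ (2 * N + 1) * (6 * N ^ 3 / ((3 * N + 4) * (4 * N + 4) * (5 * N + 4))) := by positivity
  have h2 := mul_le_mul_of_nonneg_left h1 hA
  refine le_trans (le_of_eq ?_) (h2.trans (le_of_eq ?_))
  · ring
  · rw [hR]
    field_simp

/-- base 3, 1 units dropped, `J = 2` -/
theorem fQB (hp : 2 ≤ p) (hL : 0 < L) (hH : 0 < H) (hLq : L ^ (p - 1) = p)
    (hHq : H ^ (p - 1) = 2 * p / (p + 1)) {u : ℕ} (hu : u ≤ 2 * p + 2) {S : ℝ} (hS1 : 1 ≤ S)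
    (h1 : 1 ≤ u → 1 + ((u : ℝ) - 1) / (p + 3) ≤ S)
    (h2 : 1 ≤ u → 1 + 4 * ((u : ℝ) - 2 - p) / (p + 3) ≤ S) :
    (2 * (p : ℝ) - 1) * (rhoG L p 3 1 * H ^ u) ≤ p * S := by
  rcases Nat.eq_or_lt_of_le hp with hp2 | hp3
  · -- `p = 2`
    subst hp2
    have hL2 := L_two hLq
    have hH2 := H_two hHq
    have hr : rhoG L 2 3 1 = 4 / 21 := by
      rw [hL2]
      unfold rhoG bq
      simp only [prod_range_succ, prod_range_zero]
      norm_num
    rw [hr, hH2]
    rcases Nat.eq_zero_or_pos u with hu0 | hu0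
    · subst hu0
      norm_num
      linarith
    · have h1' := h1 hu0
      have h2' := h2 hu0
      clear h1 h2
      push_cast at h1' h2' ⊢
      interval_cases u <;> norm_num at h1' h2' ⊢ <;> linarith
  · obtain ⟨N, rfl⟩ : ∃ N, p = N + 1 := ⟨p - 1, by omega⟩
    have hN : 2 ≤ N := by omega
    have hNr : (2 : ℝ) ≤ N := by exact_mod_cast hN
    have hLN := cast_N hLq
    have hHN := cast_H hHq
    have hH1 := H_ge_one hp hH hHq
    obtain ⟨A, hA⟩ : ∃ A, A = (2 * ((N + 1 : ℕ) : ℝ) - 1) * rhoG L (N + 1) 3 1 := ⟨_, rfl⟩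
    have hA0 : 0 ≤ A := by
      rw [hA]
      have := rhoG_nonneg hp hL 3 1
      push_cast
      exact mul_nonneg (by linarith) this
    have hAe : A = (2 * N + 1) * (L ^ 4 * (6 * N ^ 3 / ((3 * N + 4) * (4 * N + 4) * (5 * N + 4)))) := by
      have e : ((3 : ℝ) + ((1 : ℕ) : ℝ)) = 4 := by norm_num
      rw [hA, rhoG3, e]
      push_cast
      ring
    have hbot : A * H ^ 1 ≤ N + 1 := by
      rw [hAe]
      exact bQB hN hLN hHN
    have hgoal : (2 * ((N + 1 : ℕ) : ℝ) - 1) * (rhoG L (N + 1) 3 1 * H ^ u) = A * H ^ u := by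
      rw [hA]
      ring
    rw [hgoal]
    push_cast
    rcases Nat.lt_or_ge 1 u with hus | hus
    swap
    · have h3 : A * H ^ u ≤ A * H ^ 1 :=
        mul_le_mul_of_nonneg_left (pow_le_pow_right₀ hH1 hus) hA0
      nlinarith
    have h1' := h1 (by omega)
    have h2' := h2 (by omega)
    push_cast at h1' h2'
    rcases Nat.lt_or_ge (2 * N + 3) u with hu1 | hu1
    · skip
      have h3 := piece (x := H) (A := A) (α := ((N : ℝ) + 1) * (1 + 4 * (-2 - (N + 1)) / (N + 1 + 3)))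
        (β := 4 * ((N : ℝ) + 1) / (N + 1 + 3)) (u0 := 2 * N + 4) (u1 := 2 * N + 4) (u := u) hH1 hA0 (by omega) (by omega)
        (by
          have h4 := tQBb (L := L) (H := H) hN hLN hHN
          rw [hAe, H2N hHN (show 2 * N + 4 = 2 * N + 4 by omega)]
          refine h4.trans (le_of_eq ?_)
          push_cast
          field_simp
          ring)
        (by
          have h4 := tQBb (L := L) (H := H) hN hLN hHN
          rw [hAe, H2N hHN (show 2 * N + 4 = 2 * N + 4 by omega)]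
          refine h4.trans (le_of_eq ?_)
          push_cast
          field_simp
          ring)
      refine h3.trans ?_
      have h6 := mul_le_mul_of_nonneg_left h2' (by positivity : (0 : ℝ) ≤ (N : ℝ) + 1)
      refine le_trans (le_of_eq ?_) h6
      field_simp
      ring
    · skip
      have h3 := piece (x := H) (A := A) (α := ((N : ℝ) + 1) * (1 + (-1) / (N + 1 + 3)))
        (β := ((N : ℝ) + 1) / (N + 1 + 3)) (u0 := 1) (u1 := 2 * N + 3) (u := u) hH1 hA0 (by omega) (by omega)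
        (by
          refine hbot.trans (le_of_sub_nonneg ?_)
          have e1 : ((N : ℝ) + 1) * (1 + (-1) / (N + 1 + 3)) + ((N : ℝ) + 1) / (N + 1 + 3) * ((1 : ℕ) : ℝ) - (N + 1) =
              ((N : ℝ) + 1) * 0 / (N + 1 + 3) := by
            push_cast
            field_simp
            ring
          rw [e1]
          positivity)
        (by
          have h4 := tQBa (L := L) (H := H) hN hLN hHN
          rw [hAe, H2N hHN (show 2 * N + 3 = 2 * N + 3 by omega)]
          refine h4.trans (le_of_eq ?_)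
          push_cast
          field_simp
          ring)
      refine h3.trans ?_
      have h6 := mul_le_mul_of_nonneg_left h1' (by positivity : (0 : ℝ) ≤ (N : ℝ) + 1)
      refine le_trans (le_of_eq ?_) h6
      field_simp
      ring

theorem bQC {N : ℕ} (hN : 2 ≤ N) (hLN : L ^ N = N + 1)
    (hHN : H ^ N = 2 * (N + 1) / (N + 2)) :
    (2 * N) * (L ^ 4 * (6 * N ^ 3 / ((3 * N + 4) * (4 * N + 4) * (5 * N + 4)))) * H ^ 2 ≤ N + 1 := by
  have hN1 : (2 : ℝ) ≤ N := by exact_mod_cast hN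
  have hk : 0 < 2 * (N : ℝ) := by linarith
  obtain ⟨R, hR⟩ : ∃ R : ℝ, R = (N + 1) * ((3 * N + 4) * (4 * N + 4) * (5 * N + 4)) / ((2 * N) * (6 * N ^ 3)) := ⟨_, rfl⟩
  have hlim : (5 : ℝ) ≤ R := by
    rw [hR, le_div_iff₀ (by positivity)]
    obtain ⟨x, hx⟩ : ∃ x : ℝ, (N : ℝ) = 2 + x := ⟨N - 2, by ring⟩
    have hx0 : 0 ≤ x := by linarith
    rw [hx, ← sub_nonneg]
    ring_nf
    positivity
  have h1 : L ^ 4 * H ^ 2 ≤ R := by
    refine LH_le (by omega) hLN hHN (by linarith) ?_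
    rcases Nat.lt_or_ge N 6 with h | h
    · rw [hR]
      interval_cases N <;> norm_num
    · refine (mul_le_mul_of_nonneg_left (two_H_le 2) (by positivity)).trans ?_
      exact (big_of2 (r := 5) (by norm_num) (by norm_num) (by norm_num) (by norm_num)
        (by norm_num) h).trans (pow_le_pow_left₀ (by norm_num) hlim _)
  have hA : (0 : ℝ) ≤ (2 * N) * (6 * N ^ 3 / ((3 * N + 4) * (4 * N + 4) * (5 * N + 4))) := by positivity
  have h2 := mul_le_mul_of_nonneg_left h1 hA
  refine le_trans (le_of_eq ?_) (h2.trans (le_of_eq ?_))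
  · ring
  · rw [hR]
    field_simp

/-- base 3, 1 units dropped, `J = 3` -/
theorem fQC (hp : 2 ≤ p) (hL : 0 < L) (hH : 0 < H) (hLq : L ^ (p - 1) = p)
    (hHq : H ^ (p - 1) = 2 * p / (p + 1)) {u : ℕ} (hu : u ≤ 2 * p + 1) {S : ℝ} (hS1 : 1 ≤ S)
    (h1 : 1 ≤ u → 1 + ((u : ℝ) - 2) / (p + 3) ≤ S)
    (h2 : 1 ≤ u → 1 + 4 * ((u : ℝ) - 3 - p) / (p + 3) ≤ S) :
    (2 * (p : ℝ) - 2) * (rhoG L p 3 1 * H ^ u) ≤ p * S := by
  rcases Nat.eq_or_lt_of_le hp with hp2 | hp3
  · -- `p = 2`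
    subst hp2
    have hL2 := L_two hLq
    have hH2 := H_two hHq
    have hr : rhoG L 2 3 1 = 4 / 21 := by
      rw [hL2]
      unfold rhoG bq
      simp only [prod_range_succ, prod_range_zero]
      norm_num
    rw [hr, hH2]
    rcases Nat.eq_zero_or_pos u with hu0 | hu0
    · subst hu0
      norm_num
      linarith
    · have h1' := h1 hu0
      have h2' := h2 hu0
      clear h1 h2
      push_cast at h1' h2' ⊢
      interval_cases u <;> norm_num at h1' h2' ⊢ <;> linarith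
  · obtain ⟨N, rfl⟩ : ∃ N, p = N + 1 := ⟨p - 1, by omega⟩
    have hN : 2 ≤ N := by omega
    have hNr : (2 : ℝ) ≤ N := by exact_mod_cast hN
    have hLN := cast_N hLq
    have hHN := cast_H hHq
    have hH1 := H_ge_one hp hH hHq
    obtain ⟨A, hA⟩ : ∃ A, A = (2 * ((N + 1 : ℕ) : ℝ) - 2) * rhoG L (N + 1) 3 1 := ⟨_, rfl⟩
    have hA0 : 0 ≤ A := by
      rw [hA]
      have := rhoG_nonneg hp hL 3 1
      push_cast
      exact mul_nonneg (by linarith) this
    have hAe : A = (2 * N) * (L ^ 4 * (6 * N ^ 3 / ((3 * N + 4) * (4 * N + 4) * (5 * N + 4)))) := by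
      have e : ((3 : ℝ) + ((1 : ℕ) : ℝ)) = 4 := by norm_num
      rw [hA, rhoG3, e]
      push_cast
      ring
    have hbot : A * H ^ 2 ≤ N + 1 := by
      rw [hAe]
      exact bQC hN hLN hHN
    have hgoal : (2 * ((N + 1 : ℕ) : ℝ) - 2) * (rhoG L (N + 1) 3 1 * H ^ u) = A * H ^ u := by
      rw [hA]
      ring
    rw [hgoal]
    push_cast
    rcases Nat.lt_or_ge 2 u with hus | hus
    swap
    · have h3 : A * H ^ u ≤ A * H ^ 2 :=
        mul_le_mul_of_nonneg_left (pow_le_pow_right₀ hH1 hus) hA0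
      nlinarith
    have h1' := h1 (by omega)
    have h2' := h2 (by omega)
    push_cast at h1' h2'
    have h3 := piece (x := H) (A := A) (α := ((N : ℝ) + 1) * (1 + (-2) / (N + 1 + 3)))
      (β := ((N : ℝ) + 1) / (N + 1 + 3)) (u0 := 2) (u1 := 2 * N + 3) (u := u) hH1 hA0 (by omega) (by omega)
      (by
        refine hbot.trans (le_of_sub_nonneg ?_)
        have e1 : ((N : ℝ) + 1) * (1 + (-2) / (N + 1 + 3)) + ((N : ℝ) + 1) / (N + 1 + 3) * ((2 : ℕ) : ℝ) - (N + 1) =
            ((N : ℝ) + 1) * 0 / (N + 1 + 3) := by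
          push_cast
          field_simp
          ring
        rw [e1]
        positivity)
      (by
        have h4 := tQCa (L := L) (H := H) hN hLN hHN
        rw [hAe, H2N hHN (show 2 * N + 3 = 2 * N + 3 by omega)]
        refine h4.trans (le_of_eq ?_)
        push_cast
        field_simp
        ring)
    refine h3.trans ?_
    have h6 := mul_le_mul_of_nonneg_left h1' (by positivity : (0 : ℝ) ≤ (N : ℝ) + 1)
    refine le_trans (le_of_eq ?_) h6
    field_simp
    ring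

theorem bQD {N : ℕ} (hN : 2 ≤ N) (hLN : L ^ N = N + 1)
    (hHN : H ^ N = 2 * (N + 1) / (N + 2)) :
    (2 * N + 1) * (L ^ 5 * (6 * N ^ 3 / ((3 * N + 5) * (4 * N + 5) * (5 * N + 5)))) * H ^ 0 ≤ N + 1 := by
  have hN1 : (2 : ℝ) ≤ N := by exact_mod_cast hN
  have hk : 0 < 2 * (N : ℝ) + 1 := by linarith
  obtain ⟨R, hR⟩ : ∃ R : ℝ, R = (N + 1) * ((3 * N + 5) * (4 * N + 5) * (5 * N + 5)) / ((2 * N + 1) * (6 * N ^ 3)) := ⟨_, rfl⟩
  have hlim : (5 : ℝ) ≤ R := by
    rw [hR, le_div_iff₀ (by positivity)]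
    obtain ⟨x, hx⟩ : ∃ x : ℝ, (N : ℝ) = 2 + x := ⟨N - 2, by ring⟩
    have hx0 : 0 ≤ x := by linarith
    rw [hx, ← sub_nonneg]
    ring_nf
    positivity
  have h1 : L ^ 5 * H ^ 0 ≤ R := by
    refine LH_le (by omega) hLN hHN (by linarith) ?_
    rcases Nat.lt_or_ge N 7 with h | h
    · rw [hR]
      interval_cases N <;> norm_num
    · refine (mul_le_mul_of_nonneg_left (two_H_le 0) (by positivity)).trans ?_
      exact (big_of2 (r := 5) (by norm_num) (by norm_num) (by norm_num) (by norm_num)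
        (by norm_num) h).trans (pow_le_pow_left₀ (by norm_num) hlim _)
  have hA : (0 : ℝ) ≤ (2 * N + 1) * (6 * N ^ 3 / ((3 * N + 5) * (4 * N + 5) * (5 * N + 5))) := by positivity
  have h2 := mul_le_mul_of_nonneg_left h1 hA
  refine le_trans (le_of_eq ?_) (h2.trans (le_of_eq ?_))
  · ring
  · rw [hR]
    field_simp

/-- base 3, 2 units dropped, `J = 0` -/
theorem fQD (hp : 2 ≤ p) (hL : 0 < L) (hH : 0 < H) (hLq : L ^ (p - 1) = p)
    (hHq : H ^ (p - 1) = 2 * p / (p + 1)) {u : ℕ} (hu : u ≤ 2 * p + 1) {S : ℝ} (hS1 : 1 ≤ S)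
    (h1 : 1 ≤ u → 1 + ((u : ℝ) + 1) / (p + 3) ≤ S)
    (h2 : 1 ≤ u → 1 + 4 * ((u : ℝ) + 0 - p) / (p + 3) ≤ S) :
    (2 * (p : ℝ) - 1) * (rhoG L p 3 2 * H ^ u) ≤ p * S := by
  rcases Nat.eq_or_lt_of_le hp with hp2 | hp3
  · -- `p = 2`
    subst hp2
    have hL2 := L_two hLq
    have hH2 := H_two hHq
    have hr : rhoG L 2 3 2 = 4 / 15 := by
      rw [hL2]
      unfold rhoG bq
      simp only [prod_range_succ, prod_range_zero]
      norm_num
    rw [hr, hH2]
    rcases Nat.eq_zero_or_pos u with hu0 | hu0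
    · subst hu0
      norm_num
      linarith
    · have h1' := h1 hu0
      have h2' := h2 hu0
      clear h1 h2
      push_cast at h1' h2' ⊢
      interval_cases u <;> norm_num at h1' h2' ⊢ <;> linarith
  · obtain ⟨N, rfl⟩ : ∃ N, p = N + 1 := ⟨p - 1, by omega⟩
    have hN : 2 ≤ N := by omega
    have hNr : (2 : ℝ) ≤ N := by exact_mod_cast hN
    have hLN := cast_N hLq
    have hHN := cast_H hHq
    have hH1 := H_ge_one hp hH hHq
    obtain ⟨A, hA⟩ : ∃ A, A = (2 * ((N + 1 : ℕ) : ℝ) - 1) * rhoG L (N + 1) 3 2 := ⟨_, rfl⟩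
    have hA0 : 0 ≤ A := by
      rw [hA]
      have := rhoG_nonneg hp hL 3 2
      push_cast
      exact mul_nonneg (by linarith) this
    have hAe : A = (2 * N + 1) * (L ^ 5 * (6 * N ^ 3 / ((3 * N + 5) * (4 * N + 5) * (5 * N + 5)))) := by
      have e : ((3 : ℝ) + ((2 : ℕ) : ℝ)) = 5 := by norm_num
      rw [hA, rhoG3, e]
      push_cast
      ring
    have hbot : A * H ^ 0 ≤ N + 1 := by
      rw [hAe]
      exact bQD hN hLN hHN
    have hgoal : (2 * ((N + 1 : ℕ) : ℝ) - 1) * (rhoG L (N + 1) 3 2 * H ^ u) = A * H ^ u := by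
      rw [hA]
      ring
    rw [hgoal]
    push_cast
    rcases Nat.lt_or_ge 0 u with hus | hus
    swap
    · have h3 : A * H ^ u ≤ A * H ^ 0 :=
        mul_le_mul_of_nonneg_left (pow_le_pow_right₀ hH1 hus) hA0
      nlinarith
    have h1' := h1 (by omega)
    have h2' := h2 (by omega)
    push_cast at h1' h2'
    rcases Nat.lt_or_ge (2 * N + 2) u with hu1 | hu1
    · skip
      have h3 := piece (x := H) (A := A) (α := ((N : ℝ) + 1) * (1 + 4 * (0 - (N + 1)) / (N + 1 + 3)))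
        (β := 4 * ((N : ℝ) + 1) / (N + 1 + 3)) (u0 := 2 * N + 3) (u1 := 2 * N + 3) (u := u) hH1 hA0 (by omega) (by omega)
        (by
          have h4 := tQDb (L := L) (H := H) hN hLN hHN
          rw [hAe, H2N hHN (show 2 * N + 3 = 2 * N + 3 by omega)]
          refine h4.trans (le_of_eq ?_)
          push_cast
          field_simp
          ring)
        (by
          have h4 := tQDb (L := L) (H := H) hN hLN hHN
          rw [hAe, H2N hHN (show 2 * N + 3 = 2 * N + 3 by omega)]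
          refine h4.trans (le_of_eq ?_)
          push_cast
          field_simp
          ring)
      refine h3.trans ?_
      have h6 := mul_le_mul_of_nonneg_left h2' (by positivity : (0 : ℝ) ≤ (N : ℝ) + 1)
      refine le_trans (le_of_eq ?_) h6
      field_simp
      ring
    · skip
      have h3 := piece (x := H) (A := A) (α := ((N : ℝ) + 1) * (1 + 1 / (N + 1 + 3)))
        (β := ((N : ℝ) + 1) / (N + 1 + 3)) (u0 := 0) (u1 := 2 * N + 2) (u := u) hH1 hA0 (by omega) (by omega)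
        (by
          refine hbot.trans (le_of_sub_nonneg ?_)
          have e1 : ((N : ℝ) + 1) * (1 + 1 / (N + 1 + 3)) + ((N : ℝ) + 1) / (N + 1 + 3) * ((0 : ℕ) : ℝ) - (N + 1) =
              ((N : ℝ) + 1) * 1 / (N + 1 + 3) := by
            push_cast
            field_simp
            ring
          rw [e1]
          positivity)
        (by
          have h4 := tQDa (L := L) (H := H) hN hLN hHN
          rw [hAe, H2N hHN (show 2 * N + 2 = 2 * N + 2 by omega)]
          refine h4.trans (le_of_eq ?_)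
          push_cast
          field_simp
          ring)
      refine h3.trans ?_
      have h6 := mul_le_mul_of_nonneg_left h1' (by positivity : (0 : ℝ) ≤ (N : ℝ) + 1)
      refine le_trans (le_of_eq ?_) h6
      field_simp
      ring

theorem bQE {N : ℕ} (hN : 2 ≤ N) (hLN : L ^ N = N + 1)
    (hHN : H ^ N = 2 * (N + 1) / (N + 2)) :
    (2 * N) * (L ^ 5 * (6 * N ^ 3 / ((3 * N + 5) * (4 * N + 5) * (5 * N + 5)))) * H ^ 0 ≤ N + 1 := by
  have hN1 : (2 : ℝ) ≤ N := by exact_mod_cast hN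
  have hk : 0 < 2 * (N : ℝ) := by linarith
  obtain ⟨R, hR⟩ : ∃ R : ℝ, R = (N + 1) * ((3 * N + 5) * (4 * N + 5) * (5 * N + 5)) / ((2 * N) * (6 * N ^ 3)) := ⟨_, rfl⟩
  have hlim : (5 : ℝ) ≤ R := by
    rw [hR, le_div_iff₀ (by positivity)]
    obtain ⟨x, hx⟩ : ∃ x : ℝ, (N : ℝ) = 2 + x := ⟨N - 2, by ring⟩
    have hx0 : 0 ≤ x := by linarith
    rw [hx, ← sub_nonneg]
    ring_nf
    positivity
  have h1 : L ^ 5 * H ^ 0 ≤ R := by
    refine LH_le (by omega) hLN hHN (by linarith) ?_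
    rcases Nat.lt_or_ge N 7 with h | h
    · rw [hR]
      interval_cases N <;> norm_num
    · refine (mul_le_mul_of_nonneg_left (two_H_le 0) (by positivity)).trans ?_
      exact (big_of2 (r := 5) (by norm_num) (by norm_num) (by norm_num) (by norm_num)
        (by norm_num) h).trans (pow_le_pow_left₀ (by norm_num) hlim _)
  have hA : (0 : ℝ) ≤ (2 * N) * (6 * N ^ 3 / ((3 * N + 5) * (4 * N + 5) * (5 * N + 5))) := by positivity
  have h2 := mul_le_mul_of_nonneg_left h1 hA
  refine le_trans (le_of_eq ?_) (h2.trans (le_of_eq ?_))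
  · ring
  · rw [hR]
    field_simp

/-- base 3, 2 units dropped, `J = 1` -/
theorem fQE (hp : 2 ≤ p) (hL : 0 < L) (hH : 0 < H) (hLq : L ^ (p - 1) = p)
    (hHq : H ^ (p - 1) = 2 * p / (p + 1)) {u : ℕ} (hu : u ≤ 2 * p + 1) {S : ℝ} (hS1 : 1 ≤ S)
    (h1 : 1 ≤ u → 1 + ((u : ℝ) + 0) / (p + 3) ≤ S)
    (h2 : 1 ≤ u → 1 + 4 * ((u : ℝ) - 1 - p) / (p + 3) ≤ S) :
    (2 * (p : ℝ) - 2) * (rhoG L p 3 2 * H ^ u) ≤ p * S := by
  rcases Nat.eq_or_lt_of_le hp with hp2 | hp3
  · -- `p = 2`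
    subst hp2
    have hL2 := L_two hLq
    have hH2 := H_two hHq
    have hr : rhoG L 2 3 2 = 4 / 15 := by
      rw [hL2]
      unfold rhoG bq
      simp only [prod_range_succ, prod_range_zero]
      norm_num
    rw [hr, hH2]
    rcases Nat.eq_zero_or_pos u with hu0 | hu0
    · subst hu0
      norm_num
      linarith
    · have h1' := h1 hu0
      have h2' := h2 hu0
      clear h1 h2
      push_cast at h1' h2' ⊢
      interval_cases u <;> norm_num at h1' h2' ⊢ <;> linarith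
  · obtain ⟨N, rfl⟩ : ∃ N, p = N + 1 := ⟨p - 1, by omega⟩
    have hN : 2 ≤ N := by omega
    have hNr : (2 : ℝ) ≤ N := by exact_mod_cast hN
    have hLN := cast_N hLq
    have hHN := cast_H hHq
    have hH1 := H_ge_one hp hH hHq
    obtain ⟨A, hA⟩ : ∃ A, A = (2 * ((N + 1 : ℕ) : ℝ) - 2) * rhoG L (N + 1) 3 2 := ⟨_, rfl⟩
    have hA0 : 0 ≤ A := by
      rw [hA]
      have := rhoG_nonneg hp hL 3 2
      push_cast
      exact mul_nonneg (by linarith) this
    have hAe : A = (2 * N) * (L ^ 5 * (6 * N ^ 3 / ((3 * N + 5) * (4 * N + 5) * (5 * N + 5)))) := by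
      have e : ((3 : ℝ) + ((2 : ℕ) : ℝ)) = 5 := by norm_num
      rw [hA, rhoG3, e]
      push_cast
      ring
    have hbot : A * H ^ 0 ≤ N + 1 := by
      rw [hAe]
      exact bQE hN hLN hHN
    have hgoal : (2 * ((N + 1 : ℕ) : ℝ) - 2) * (rhoG L (N + 1) 3 2 * H ^ u) = A * H ^ u := by
      rw [hA]
      ring
    rw [hgoal]
    push_cast
    rcases Nat.lt_or_ge 0 u with hus | hus
    swap
    · have h3 : A * H ^ u ≤ A * H ^ 0 :=
        mul_le_mul_of_nonneg_left (pow_le_pow_right₀ hH1 hus) hA0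
      nlinarith
    have h1' := h1 (by omega)
    have h2' := h2 (by omega)
    push_cast at h1' h2'
    have h3 := piece (x := H) (A := A) (α := ((N : ℝ) + 1) * (1 + 0 / (N + 1 + 3)))
      (β := ((N : ℝ) + 1) / (N + 1 + 3)) (u0 := 0) (u1 := 2 * N + 3) (u := u) hH1 hA0 (by omega) (by omega)
      (by
        refine hbot.trans (le_of_sub_nonneg ?_)
        have e1 : ((N : ℝ) + 1) * (1 + 0 / (N + 1 + 3)) + ((N : ℝ) + 1) / (N + 1 + 3) * ((0 : ℕ) : ℝ) - (N + 1) =
            ((N : ℝ) + 1) * 0 / (N + 1 + 3) := by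
          push_cast
          field_simp
          ring
        rw [e1]
        positivity)
      (by
        have h4 := tQEa (L := L) (H := H) hN hLN hHN
        rw [hAe, H2N hHN (show 2 * N + 3 = 2 * N + 3 by omega)]
        refine h4.trans (le_of_eq ?_)
        push_cast
        field_simp
        ring)
    refine h3.trans ?_
    have h6 := mul_le_mul_of_nonneg_left h1' (by positivity : (0 : ℝ) ≤ (N : ℝ) + 1)
    refine le_trans (le_of_eq ?_) h6
    field_simp
    ring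

theorem bQF {N : ℕ} (hN : 2 ≤ N) (hLN : L ^ N = N + 1)
    (hHN : H ^ N = 2 * (N + 1) / (N + 2)) :
    (2 * N + 2) * (L ^ 3 * (6 * N ^ 3 / ((3 * N + 3) * (4 * N + 3) * (5 * N + 3)))) * H ^ 1 ≤ N + 1 := by
  have hN1 : (2 : ℝ) ≤ N := by exact_mod_cast hN
  have hk : 0 < 2 * (N : ℝ) + 2 := by linarith
  obtain ⟨R, hR⟩ : ∃ R : ℝ, R = (N + 1) * ((3 * N + 3) * (4 * N + 3) * (5 * N + 3)) / ((2 * N + 2) * (6 * N ^ 3)) := ⟨_, rfl⟩
  have hlim : (5 : ℝ) ≤ R := by
    rw [hR, le_div_iff₀ (by positivity)]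
    obtain ⟨x, hx⟩ : ∃ x : ℝ, (N : ℝ) = 2 + x := ⟨N - 2, by ring⟩
    have hx0 : 0 ≤ x := by linarith
    rw [hx, ← sub_nonneg]
    ring_nf
    positivity
  have h1 : L ^ 3 * H ^ 1 ≤ R := by
    refine LH_le (by omega) hLN hHN (by linarith) ?_
    rcases Nat.lt_or_ge N 4 with h | h
    · rw [hR]
      interval_cases N <;> norm_num
    · refine (mul_le_mul_of_nonneg_left (two_H_le 1) (by positivity)).trans ?_
      exact (big_of2 (r := 5) (by norm_num) (by norm_num) (by norm_num) (by norm_num)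
        (by norm_num) h).trans (pow_le_pow_left₀ (by norm_num) hlim _)
  have hA : (0 : ℝ) ≤ (2 * N + 2) * (6 * N ^ 3 / ((3 * N + 3) * (4 * N + 3) * (5 * N + 3))) := by positivity
  have h2 := mul_le_mul_of_nonneg_left h1 hA
  refine le_trans (le_of_eq ?_) (h2.trans (le_of_eq ?_))
  · ring
  · rw [hR]
    field_simp

/-- base 3, 0 units dropped, `J = 2` -/
theorem fQF (hp : 2 ≤ p) (hL : 0 < L) (hH : 0 < H) (hLq : L ^ (p - 1) = p)
    (hHq : H ^ (p - 1) = 2 * p / (p + 1)) {u : ℕ} (hu : u ≤ 2 * p + 1) {S : ℝ} (hS1 : 1 ≤ S)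
    (h1 : 1 ≤ u → 1 + ((u : ℝ) - 1) / (p + 3) ≤ S)
    (h2 : 1 ≤ u → 1 + 4 * ((u : ℝ) - 2 - p) / (p + 3) ≤ S) :
    (2 * (p : ℝ)) * (rhoG L p 3 0 * H ^ u) ≤ p * S := by
  rcases Nat.eq_or_lt_of_le hp with hp2 | hp3
  · -- `p = 2`
    subst hp2
    have hL2 := L_two hLq
    have hH2 := H_two hHq
    have hr : rhoG L 2 3 0 = 1 / 7 := by
      rw [hL2]
      unfold rhoG bq
      simp only [prod_range_succ, prod_range_zero]
      norm_num
    rw [hr, hH2]
    rcases Nat.eq_zero_or_pos u with hu0 | hu0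
    · subst hu0
      norm_num
      linarith
    · have h1' := h1 hu0
      have h2' := h2 hu0
      clear h1 h2
      push_cast at h1' h2' ⊢
      interval_cases u <;> norm_num at h1' h2' ⊢ <;> linarith
  · obtain ⟨N, rfl⟩ : ∃ N, p = N + 1 := ⟨p - 1, by omega⟩
    have hN : 2 ≤ N := by omega
    have hNr : (2 : ℝ) ≤ N := by exact_mod_cast hN
    have hLN := cast_N hLq
    have hHN := cast_H hHq
    have hH1 := H_ge_one hp hH hHq
    obtain ⟨A, hA⟩ : ∃ A, A = (2 * ((N + 1 : ℕ) : ℝ)) * rhoG L (N + 1) 3 0 := ⟨_, rfl⟩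
    have hA0 : 0 ≤ A := by
      rw [hA]
      have := rhoG_nonneg hp hL 3 0
      push_cast
      exact mul_nonneg (by linarith) this
    have hAe : A = (2 * N + 2) * (L ^ 3 * (6 * N ^ 3 / ((3 * N + 3) * (4 * N + 3) * (5 * N + 3)))) := by
      have e : ((3 : ℝ) + ((0 : ℕ) : ℝ)) = 3 := by norm_num
      rw [hA, rhoG3, e]
      push_cast
      ring
    have hbot : A * H ^ 1 ≤ N + 1 := by
      rw [hAe]
      exact bQF hN hLN hHN
    have hgoal : (2 * ((N + 1 : ℕ) : ℝ)) * (rhoG L (N + 1) 3 0 * H ^ u) = A * H ^ u := by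
      rw [hA]
      ring
    rw [hgoal]
    push_cast
    rcases Nat.lt_or_ge 1 u with hus | hus
    swap
    · have h3 : A * H ^ u ≤ A * H ^ 1 :=
        mul_le_mul_of_nonneg_left (pow_le_pow_right₀ hH1 hus) hA0
      nlinarith
    have h1' := h1 (by omega)
    have h2' := h2 (by omega)
    push_cast at h1' h2'
    have h3 := piece (x := H) (A := A) (α := ((N : ℝ) + 1) * (1 + (-1) / (N + 1 + 3)))
      (β := ((N : ℝ) + 1) / (N + 1 + 3)) (u0 := 1) (u1 := 2 * N + 3) (u := u) hH1 hA0 (by omega) (by omega)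
      (by
        refine hbot.trans (le_of_sub_nonneg ?_)
        have e1 : ((N : ℝ) + 1) * (1 + (-1) / (N + 1 + 3)) + ((N : ℝ) + 1) / (N + 1 + 3) * ((1 : ℕ) : ℝ) - (N + 1) =
            ((N : ℝ) + 1) * 0 / (N + 1 + 3) := by
          push_cast
          field_simp
          ring
        rw [e1]
        positivity)
      (by
        have h4 := tQFa (L := L) (H := H) hN hLN hHN
        rw [hAe, H2N hHN (show 2 * N + 3 = 2 * N + 3 by omega)]
        refine h4.trans (le_of_eq ?_)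
        push_cast
        field_simp
        ring)
    refine h3.trans ?_
    have h6 := mul_le_mul_of_nonneg_left h1' (by positivity : (0 : ℝ) ≤ (N : ℝ) + 1)
    refine le_trans (le_of_eq ?_) h6
    field_simp
    ring

theorem bQG {N : ℕ} (hN : 2 ≤ N) (hLN : L ^ N = N + 1)
    (hHN : H ^ N = 2 * (N + 1) / (N + 2)) :
    (2 * N + 1) * (L ^ 3 * (6 * N ^ 3 / ((3 * N + 3) * (4 * N + 3) * (5 * N + 3)))) * H ^ 2 ≤ N + 1 := by
  have hN1 : (2 : ℝ) ≤ N := by exact_mod_cast hN
  have hk : 0 < 2 * (N : ℝ) + 1 := by linarith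
  obtain ⟨R, hR⟩ : ∃ R : ℝ, R = (N + 1) * ((3 * N + 3) * (4 * N + 3) * (5 * N + 3)) / ((2 * N + 1) * (6 * N ^ 3)) := ⟨_, rfl⟩
  have hlim : (5 : ℝ) ≤ R := by
    rw [hR, le_div_iff₀ (by positivity)]
    obtain ⟨x, hx⟩ : ∃ x : ℝ, (N : ℝ) = 2 + x := ⟨N - 2, by ring⟩
    have hx0 : 0 ≤ x := by linarith
    rw [hx, ← sub_nonneg]
    ring_nf
    positivity
  have h1 : L ^ 3 * H ^ 2 ≤ R := by
    refine LH_le (by omega) hLN hHN (by linarith) ?_
    rcases Nat.lt_or_ge N 4 with h | h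
    · rw [hR]
      interval_cases N <;> norm_num
    · refine (mul_le_mul_of_nonneg_left (two_H_le 2) (by positivity)).trans ?_
      exact (big_of2 (r := 5) (by norm_num) (by norm_num) (by norm_num) (by norm_num)
        (by norm_num) h).trans (pow_le_pow_left₀ (by norm_num) hlim _)
  have hA : (0 : ℝ) ≤ (2 * N + 1) * (6 * N ^ 3 / ((3 * N + 3) * (4 * N + 3) * (5 * N + 3))) := by positivity
  have h2 := mul_le_mul_of_nonneg_left h1 hA
  refine le_trans (le_of_eq ?_) (h2.trans (le_of_eq ?_))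
  · ring
  · rw [hR]
    field_simp

/-- base 3, 0 units dropped, `J = 3` -/
theorem fQG (hp : 2 ≤ p) (hL : 0 < L) (hH : 0 < H) (hLq : L ^ (p - 1) = p)
    (hHq : H ^ (p - 1) = 2 * p / (p + 1)) {u : ℕ} (hu : u ≤ 2 * p + 1) {S : ℝ} (hS1 : 1 ≤ S)
    (h1 : 1 ≤ u → 1 + ((u : ℝ) - 2) / (p + 3) ≤ S)
    (h2 : 1 ≤ u → 1 + 4 * ((u : ℝ) - 3 - p) / (p + 3) ≤ S) :
    (2 * (p : ℝ) - 1) * (rhoG L p 3 0 * H ^ u) ≤ p * S := by
  rcases Nat.eq_or_lt_of_le hp with hp2 | hp3
  · -- `p = 2`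
    subst hp2
    have hL2 := L_two hLq
    have hH2 := H_two hHq
    have hr : rhoG L 2 3 0 = 1 / 7 := by
      rw [hL2]
      unfold rhoG bq
      simp only [prod_range_succ, prod_range_zero]
      norm_num
    rw [hr, hH2]
    rcases Nat.eq_zero_or_pos u with hu0 | hu0
    · subst hu0
      norm_num
      linarith
    · have h1' := h1 hu0
      have h2' := h2 hu0
      clear h1 h2
      push_cast at h1' h2' ⊢
      interval_cases u <;> norm_num at h1' h2' ⊢ <;> linarith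
  · obtain ⟨N, rfl⟩ : ∃ N, p = N + 1 := ⟨p - 1, by omega⟩
    have hN : 2 ≤ N := by omega
    have hNr : (2 : ℝ) ≤ N := by exact_mod_cast hN
    have hLN := cast_N hLq
    have hHN := cast_H hHq
    have hH1 := H_ge_one hp hH hHq
    obtain ⟨A, hA⟩ : ∃ A, A = (2 * ((N + 1 : ℕ) : ℝ) - 1) * rhoG L (N + 1) 3 0 := ⟨_, rfl⟩
    have hA0 : 0 ≤ A := by
      rw [hA]
      have := rhoG_nonneg hp hL 3 0
      push_cast
      exact mul_nonneg (by linarith) this
    have hAe : A = (2 * N + 1) * (L ^ 3 * (6 * N ^ 3 / ((3 * N + 3) * (4 * N + 3) * (5 * N + 3)))) := by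
      have e : ((3 : ℝ) + ((0 : ℕ) : ℝ)) = 3 := by norm_num
      rw [hA, rhoG3, e]
      push_cast
      ring
    have hbot : A * H ^ 2 ≤ N + 1 := by
      rw [hAe]
      exact bQG hN hLN hHN
    have hgoal : (2 * ((N + 1 : ℕ) : ℝ) - 1) * (rhoG L (N + 1) 3 0 * H ^ u) = A * H ^ u := by
      rw [hA]
      ring
    rw [hgoal]
    push_cast
    rcases Nat.lt_or_ge 2 u with hus | hus
    swap
    · have h3 : A * H ^ u ≤ A * H ^ 2 :=
        mul_le_mul_of_nonneg_left (pow_le_pow_right₀ hH1 hus) hA0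
      nlinarith
    have h1' := h1 (by omega)
    have h2' := h2 (by omega)
    push_cast at h1' h2'
    have h3 := piece (x := H) (A := A) (α := ((N : ℝ) + 1) * (1 + (-2) / (N + 1 + 3)))
      (β := ((N : ℝ) + 1) / (N + 1 + 3)) (u0 := 2) (u1 := 2 * N + 3) (u := u) hH1 hA0 (by omega) (by omega)
      (by
        refine hbot.trans (le_of_sub_nonneg ?_)
        have e1 : ((N : ℝ) + 1) * (1 + (-2) / (N + 1 + 3)) + ((N : ℝ) + 1) / (N + 1 + 3) * ((2 : ℕ) : ℝ) - (N + 1) =
            ((N : ℝ) + 1) * 0 / (N + 1 + 3) := by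
          push_cast
          field_simp
          ring
        rw [e1]
        positivity)
      (by
        have h4 := tQGa (L := L) (H := H) hN hLN hHN
        rw [hAe, H2N hHN (show 2 * N + 3 = 2 * N + 3 by omega)]
        refine h4.trans (le_of_eq ?_)
        push_cast
        field_simp
        ring)
    refine h3.trans ?_
    have h6 := mul_le_mul_of_nonneg_left h1' (by positivity : (0 : ℝ) ≤ (N : ℝ) + 1)
    refine le_trans (le_of_eq ?_) h6
    field_simp
    ring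

theorem bQH {N : ℕ} (hN : 2 ≤ N) (hLN : L ^ N = N + 1)
    (hHN : H ^ N = 2 * (N + 1) / (N + 2)) :
    (2 * N) * (L ^ 3 * (6 * N ^ 3 / ((3 * N + 3) * (4 * N + 3) * (5 * N + 3)))) * H ^ 3 ≤ N + 1 := by
  have hN1 : (2 : ℝ) ≤ N := by exact_mod_cast hN
  have hk : 0 < 2 * (N : ℝ) := by linarith
  obtain ⟨R, hR⟩ : ∃ R : ℝ, R = (N + 1) * ((3 * N + 3) * (4 * N + 3) * (5 * N + 3)) / ((2 * N) * (6 * N ^ 3)) := ⟨_, rfl⟩
  have hlim : (5 : ℝ) ≤ R := by
    rw [hR, le_div_iff₀ (by positivity)]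
    obtain ⟨x, hx⟩ : ∃ x : ℝ, (N : ℝ) = 2 + x := ⟨N - 2, by ring⟩
    have hx0 : 0 ≤ x := by linarith
    rw [hx, ← sub_nonneg]
    ring_nf
    positivity
  have h1 : L ^ 3 * H ^ 3 ≤ R := by
    refine LH_le (by omega) hLN hHN (by linarith) ?_
    rcases Nat.lt_or_ge N 5 with h | h
    · rw [hR]
      interval_cases N <;> norm_num
    · refine (mul_le_mul_of_nonneg_left (two_H_le 3) (by positivity)).trans ?_
      exact (big_of2 (r := 5) (by norm_num) (by norm_num) (by norm_num) (by norm_num)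
        (by norm_num) h).trans (pow_le_pow_left₀ (by norm_num) hlim _)
  have hA : (0 : ℝ) ≤ (2 * N) * (6 * N ^ 3 / ((3 * N + 3) * (4 * N + 3) * (5 * N + 3))) := by positivity
  have h2 := mul_le_mul_of_nonneg_left h1 hA
  refine le_trans (le_of_eq ?_) (h2.trans (le_of_eq ?_))
  · ring
  · rw [hR]
    field_simp

/-- base 3, 0 units dropped, `J = 4` -/
theorem fQH (hp : 2 ≤ p) (hL : 0 < L) (hH : 0 < H) (hLq : L ^ (p - 1) = p)
    (hHq : H ^ (p - 1) = 2 * p / (p + 1)) {u : ℕ} (hu : u ≤ 2 * p + 1) {S : ℝ} (hS1 : 1 ≤ S)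
    (h1 : 1 ≤ u → 1 + ((u : ℝ) - 3) / (p + 3) ≤ S)
    (h2 : 1 ≤ u → 1 + 4 * ((u : ℝ) - 4 - p) / (p + 3) ≤ S) :
    (2 * (p : ℝ) - 2) * (rhoG L p 3 0 * H ^ u) ≤ p * S := by
  rcases Nat.eq_or_lt_of_le hp with hp2 | hp3
  · -- `p = 2`
    subst hp2
    have hL2 := L_two hLq
    have hH2 := H_two hHq
    have hr : rhoG L 2 3 0 = 1 / 7 := by
      rw [hL2]
      unfold rhoG bq
      simp only [prod_range_succ, prod_range_zero]
      norm_num
    rw [hr, hH2]
    rcases Nat.eq_zero_or_pos u with hu0 | hu0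
    · subst hu0
      norm_num
      linarith
    · have h1' := h1 hu0
      have h2' := h2 hu0
      clear h1 h2
      push_cast at h1' h2' ⊢
      interval_cases u <;> norm_num at h1' h2' ⊢ <;> linarith
  · obtain ⟨N, rfl⟩ : ∃ N, p = N + 1 := ⟨p - 1, by omega⟩
    have hN : 2 ≤ N := by omega
    have hNr : (2 : ℝ) ≤ N := by exact_mod_cast hN
    have hLN := cast_N hLq
    have hHN := cast_H hHq
    have hH1 := H_ge_one hp hH hHq
    obtain ⟨A, hA⟩ : ∃ A, A = (2 * ((N + 1 : ℕ) : ℝ) - 2) * rhoG L (N + 1) 3 0 := ⟨_, rfl⟩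
    have hA0 : 0 ≤ A := by
      rw [hA]
      have := rhoG_nonneg hp hL 3 0
      push_cast
      exact mul_nonneg (by linarith) this
    have hAe : A = (2 * N) * (L ^ 3 * (6 * N ^ 3 / ((3 * N + 3) * (4 * N + 3) * (5 * N + 3)))) := by
      have e : ((3 : ℝ) + ((0 : ℕ) : ℝ)) = 3 := by norm_num
      rw [hA, rhoG3, e]
      push_cast
      ring
    have hbot : A * H ^ 3 ≤ N + 1 := by
      rw [hAe]
      exact bQH hN hLN hHN
    have hgoal : (2 * ((N + 1 : ℕ) : ℝ) - 2) * (rhoG L (N + 1) 3 0 * H ^ u) = A * H ^ u := by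
      rw [hA]
      ring
    rw [hgoal]
    push_cast
    rcases Nat.lt_or_ge 3 u with hus | hus
    swap
    · have h3 : A * H ^ u ≤ A * H ^ 3 :=
        mul_le_mul_of_nonneg_left (pow_le_pow_right₀ hH1 hus) hA0
      nlinarith
    have h1' := h1 (by omega)
    have h2' := h2 (by omega)
    push_cast at h1' h2'
    have h3 := piece (x := H) (A := A) (α := ((N : ℝ) + 1) * (1 + (-3) / (N + 1 + 3)))
      (β := ((N : ℝ) + 1) / (N + 1 + 3)) (u0 := 3) (u1 := 2 * N + 3) (u := u) hH1 hA0 (by omega) (by omega)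
      (by
        refine hbot.trans (le_of_sub_nonneg ?_)
        have e1 : ((N : ℝ) + 1) * (1 + (-3) / (N + 1 + 3)) + ((N : ℝ) + 1) / (N + 1 + 3) * ((3 : ℕ) : ℝ) - (N + 1) =
            ((N : ℝ) + 1) * 0 / (N + 1 + 3) := by
          push_cast
          field_simp
          ring
        rw [e1]
        positivity)
      (by
        have h4 := tQHa (L := L) (H := H) hN hLN hHN
        rw [hAe, H2N hHN (show 2 * N + 3 = 2 * N + 3 by omega)]
        refine h4.trans (le_of_eq ?_)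
        push_cast
        field_simp
        ring)
    refine h3.trans ?_
    have h6 := mul_le_mul_of_nonneg_left h1' (by positivity : (0 : ℝ) ≤ (N : ℝ) + 1)
    refine le_trans (le_of_eq ?_) h6
    field_simp
    ring

end

end MP76b19e.Rob
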