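import Pool.Agent.Lib.MP76b19e.Rob.NumP

/-!
# The numerical inequality, total mass `(n - 2) p + 2`, base at least two (problem MP_76b19e_co)

`τ` tops, `r` of them over-full, `r / 2` moved, `d` units dropped, `J + r / 2 + d = τ`.
-/

set_option autoImplicit false

open Finset

namespace MP76b19e.Rob

open Pool.Agent.MP76b19e (bq H_pow_le H_pow_le' H_ge_one)

variable {p : ℕ} {L H : ℝ}

/-- base two -/
theorem finC2 (hp : 2 ≤ p) (hL : 0 < L) (hH : 0 < H) (hLq : L ^ (p - 1) = p)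
    (hHq : H ^ (p - 1) = 2 * p / (p + 1)) {τ r d J e : ℕ} (hτ2 : 2 ≤ τ) (hτ : τ ≤ 3)
    (hr : r ≤ τ) (hd : d ≤ r - r / 2) (hd1 : 1 ≤ r → 1 ≤ d) (hJ : J + r / 2 + d = τ)
    (he : e ≤ 2 * p + (r - r / 2 - d)) {F S : ℝ} (hF0 : 0 ≤ F)
    (hF : F ≤ rhoG L p 2 d * H ^ e) (hS1 : 1 ≤ S)
    (h1 : 1 ≤ e → 1 + ((e : ℝ) + 2 - J) / (p + 2) ≤ S)
    (h2 : 1 ≤ e → 1 + 4 * ((e : ℝ) + 1 - J - p) / (p + 2) ≤ S) :
    (2 * (p : ℝ) + 2 - τ) * F ≤ p * S := by
  have hp2 : (2 : ℝ) ≤ p := by exact_mod_cast hp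
  have hY : (0 : ℝ) < p + 2 := by linarith
  -- from the factor `2 p + k`
  have hfin : ∀ κ : ℝ, 2 * (p : ℝ) + 2 - τ ≤ κ → 0 ≤ κ →
      κ * (rhoG L p 2 d * H ^ e) ≤ p * S → (2 * (p : ℝ) + 2 - τ) * F ≤ p * S := by
    intro κ hκ hκ0 h
    have h3 := mul_le_mul_of_nonneg_right hκ hF0
    have h4 := mul_le_mul_of_nonneg_left hF hκ0
    linarith
  -- weaker bounds
  have h1' : ∀ x : ℝ, x ≤ 2 - J → 1 ≤ e → 1 + ((e : ℝ) + x) / (p + 2) ≤ S := by
    intro x hx he1
    have h3 : ((e : ℝ) + x) / (p + 2) ≤ (e + 2 - J) / (p + 2) :=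
      div_le_div_of_nonneg_right (by linarith) hY.le
    linarith [h1 he1]
  have h2' : ∀ x : ℝ, x ≤ 1 - J → 1 ≤ e → 1 + 4 * ((e : ℝ) + x - p) / (p + 2) ≤ S := by
    intro x hx he1
    have h3 : 4 * ((e : ℝ) + x - p) / (p + 2) ≤ 4 * (e + 1 - J - p) / (p + 2) :=
      div_le_div_of_nonneg_right (by linarith) hY.le
    linarith [h2 he1]
  have hcases : (d = 0 ∧ τ = 2 ∧ J = 2) ∨ (d = 0 ∧ τ = 3 ∧ J = 3) ∨ (d = 1 ∧ J ≤ 1) ∨
      (d = 1 ∧ J = 2 ∧ τ = 3 ∧ r ≤ 1) ∨ (d = 2 ∧ τ = 3 ∧ J = 0) := by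
    rcases Nat.eq_zero_or_pos d with h | h
    · have hr0 : r = 0 := by
        by_contra hcon
        have := hd1 (by omega)
        omega
      subst h hr0
      have hJτ : J = τ := by simpa using hJ
      rcases Nat.lt_or_ge τ 3 with h3 | h3
      · exact Or.inl ⟨rfl, by omega, by omega⟩
      · exact Or.inr (Or.inl ⟨rfl, by omega, by omega⟩)
    · have hd2 : d ≤ 2 := by omega
      rcases Nat.lt_or_ge d 2 with h3 | h3
      · have h4 : d = 1 := by omega
        subst h4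
        rcases Nat.lt_or_ge J 2 with h5 | h5
        · exact Or.inr (Or.inr (Or.inl ⟨rfl, by omega⟩))
        · have h6 : J = 2 := by omega
          subst h6
          exact Or.inr (Or.inr (Or.inr (Or.inl ⟨rfl, rfl, by omega, by omega⟩)))
      · have h4 : d = 2 := by omega
        subst h4
        have h5 : 3 ≤ r := by omega
        have h6 : 1 ≤ r / 2 := by omega
        exact Or.inr (Or.inr (Or.inr (Or.inr ⟨rfl, by omega, by omega⟩)))
  rcases hcases with
    ⟨hd0, hτ0, hJ0⟩ | ⟨hd0, hτ0, hJ0⟩ | ⟨hd0, hJ0⟩ | ⟨hd0, hJ0, hτ0, hr0⟩ | ⟨hd0, hτ0, hJ0⟩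
  · subst hd0 hτ0 hJ0
    push_cast at h1' h2' hfin ⊢
    refine hfin (2 * p) (by linarith) (by linarith) ?_
    exact fQ4 hp hL hH hLq hHq (by omega) hS1
      (fun he1 => by simpa using h1' 0 (by norm_num) he1)
      (fun he1 => by simpa [sub_eq_add_neg] using h2' (-1) (by norm_num) he1)
  · subst hd0 hτ0 hJ0
    push_cast at h1' h2' hfin ⊢
    refine hfin (2 * p - 1) (by linarith) (by linarith) ?_
    exact fQ5 hp hL hH hLq hHq (by omega) hS1
      (fun he1 => by simpa [sub_eq_add_neg] using h1' (-1) (by norm_num) he1)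
      (fun he1 => by simpa [sub_eq_add_neg] using h2' (-2) (by norm_num) he1)
  · subst hd0
    have hJr : (J : ℝ) ≤ 1 := by exact_mod_cast hJ0
    have hτr : (2 : ℝ) ≤ τ := by exact_mod_cast hτ2
    refine hfin (2 * p) (by linarith) (by linarith) ?_
    exact fQ1 hp hL hH hLq hHq (by omega) hS1
      (fun he1 => by simpa using h1' 1 (by linarith) he1)
      (fun he1 => by simpa using h2' 0 (by linarith) he1)
  · subst hd0 hτ0 hJ0
    push_cast at h1' h2' hfin ⊢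
    refine hfin (2 * p - 1) (by linarith) (by linarith) ?_
    exact fQ2 hp hL hH hLq hHq (by omega) hS1
      (fun he1 => by simpa using h1' 0 (by norm_num) he1)
      (fun he1 => by simpa [sub_eq_add_neg] using h2' (-1) (by norm_num) he1)
  · subst hd0 hτ0 hJ0
    push_cast at h1' h2' hfin ⊢
    refine hfin (2 * p - 1) (by linarith) (by linarith) ?_
    exact fQ3 hp hL hH hLq hHq (by omega) hS1
      (fun he1 => by simpa using h1' 2 (by norm_num) he1)
      (fun he1 => by simpa using h2' 1 (by norm_num) he1)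

/-- base three -/
theorem finC3 (hp : 2 ≤ p) (hL : 0 < L) (hH : 0 < H) (hLq : L ^ (p - 1) = p)
    (hHq : H ^ (p - 1) = 2 * p / (p + 1)) {τ r d J e : ℕ} (hτ2 : 2 ≤ τ) (hτ : τ ≤ 4)
    (hr : r ≤ τ) (hd : d ≤ r - r / 2) (hd1 : 1 ≤ r → 1 ≤ d) (hJ : J + r / 2 + d = τ)
    (he : e ≤ 2 * p + 1 + (r - r / 2 - d)) {F S : ℝ} (hF0 : 0 ≤ F)
    (hF : F ≤ rhoG L p 3 d * H ^ e) (hS1 : 1 ≤ S)
    (h1 : 1 ≤ e → 1 + ((e : ℝ) + 1 - J) / (p + 3) ≤ S)
    (h2 : 1 ≤ e → 1 + 4 * ((e : ℝ) - J - p) / (p + 3) ≤ S) :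
    (2 * (p : ℝ) + 2 - τ) * F ≤ p * S := by
  have hp2 : (2 : ℝ) ≤ p := by exact_mod_cast hp
  have hY : (0 : ℝ) < p + 3 := by linarith
  have hfin : ∀ κ : ℝ, 2 * (p : ℝ) + 2 - τ ≤ κ → 0 ≤ κ →
      κ * (rhoG L p 3 d * H ^ e) ≤ p * S → (2 * (p : ℝ) + 2 - τ) * F ≤ p * S := by
    intro κ hκ hκ0 h
    have h3 := mul_le_mul_of_nonneg_right hκ hF0
    have h4 := mul_le_mul_of_nonneg_left hF hκ0
    linarith
  have h1' : ∀ x : ℝ, x ≤ 1 - J → 1 ≤ e → 1 + ((e : ℝ) + x) / (p + 3) ≤ S := by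
    intro x hx he1
    have h3 : ((e : ℝ) + x) / (p + 3) ≤ (e + 1 - J) / (p + 3) :=
      div_le_div_of_nonneg_right (by linarith) hY.le
    linarith [h1 he1]
  have h2' : ∀ x : ℝ, x ≤ -J → 1 ≤ e → 1 + 4 * ((e : ℝ) + x - p) / (p + 3) ≤ S := by
    intro x hx he1
    have h3 : 4 * ((e : ℝ) + x - p) / (p + 3) ≤ 4 * (e - J - p) / (p + 3) :=
      div_le_div_of_nonneg_right (by linarith) hY.le
    linarith [h2 he1]
  have hcases : (d = 0 ∧ τ = 2 ∧ J = 2) ∨ (d = 0 ∧ τ = 3 ∧ J = 3) ∨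
      (d = 0 ∧ τ = 4 ∧ J = 4) ∨ (d = 1 ∧ J ≤ 1) ∨ (d = 1 ∧ J = 2 ∧ 3 ≤ τ) ∨
      (d = 1 ∧ J = 3 ∧ τ = 4 ∧ r ≤ 1) ∨ (d = 2 ∧ J = 0 ∧ 3 ≤ τ) ∨ (d = 2 ∧ J = 1 ∧ τ = 4) := by
    rcases Nat.eq_zero_or_pos d with h | h
    · have hr0 : r = 0 := by
        by_contra hcon
        have := hd1 (by omega)
        omega
      subst h hr0
      have hJτ : J = τ := by simpa using hJ
      rcases Nat.lt_or_ge τ 3 with h3 | h3
      · exact Or.inl ⟨rfl, by omega, by omega⟩
      · rcases Nat.lt_or_ge τ 4 with h4 | h4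
        · exact Or.inr (Or.inl ⟨rfl, by omega, by omega⟩)
        · exact Or.inr (Or.inr (Or.inl ⟨rfl, by omega, by omega⟩))
    · have hd2 : d ≤ 2 := by omega
      rcases Nat.lt_or_ge d 2 with h3 | h3
      · have h4 : d = 1 := by omega
        subst h4
        rcases Nat.lt_or_ge J 2 with h5 | h5
        · exact Or.inr (Or.inr (Or.inr (Or.inl ⟨rfl, by omega⟩)))
        · rcases Nat.lt_or_ge J 3 with h6 | h6
          · have h7 : J = 2 := by omega
            subst h7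
            exact Or.inr (Or.inr (Or.inr (Or.inr (Or.inl ⟨rfl, rfl, by omega⟩))))
          · have h7 : J = 3 := by omega
            subst h7
            exact Or.inr (Or.inr (Or.inr (Or.inr (Or.inr (Or.inl
              ⟨rfl, rfl, by omega, by omega⟩)))))
      · have h4 : d = 2 := by omega
        subst h4
        have h5 : 3 ≤ r := by omega
        have h6 : 1 ≤ r / 2 := by omega
        rcases Nat.eq_zero_or_pos J with h7 | h7
        · subst h7
          exact Or.inr (Or.inr (Or.inr (Or.inr (Or.inr (Or.inr (Or.inl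
            ⟨rfl, rfl, by omega⟩))))))
        · have h8 : J = 1 := by omega
          subst h8
          exact Or.inr (Or.inr (Or.inr (Or.inr (Or.inr (Or.inr (Or.inr
            ⟨rfl, rfl, by omega⟩))))))
  rcases hcases with
    ⟨hd0, hτ0, hJ0⟩ | ⟨hd0, hτ0, hJ0⟩ | ⟨hd0, hτ0, hJ0⟩ | ⟨hd0, hJ0⟩ | ⟨hd0, hJ0, hτ0⟩ |
    ⟨hd0, hJ0, hτ0, hr0⟩ | ⟨hd0, hJ0, hτ0⟩ | ⟨hd0, hJ0, hτ0⟩
  · subst hd0 hτ0 hJ0
    push_cast at h1' h2' hfin ⊢
    refine hfin (2 * p) (by linarith) (by linarith) ?_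
    exact fQF hp hL hH hLq hHq (by omega) hS1
      (fun he1 => by simpa [sub_eq_add_neg] using h1' (-1) (by norm_num) he1)
      (fun he1 => by simpa [sub_eq_add_neg] using h2' (-2) (by norm_num) he1)
  · subst hd0 hτ0 hJ0
    push_cast at h1' h2' hfin ⊢
    refine hfin (2 * p - 1) (by linarith) (by linarith) ?_
    exact fQG hp hL hH hLq hHq (by omega) hS1
      (fun he1 => by simpa [sub_eq_add_neg] using h1' (-2) (by norm_num) he1)
      (fun he1 => by simpa [sub_eq_add_neg] using h2' (-3) (by norm_num) he1)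
  · subst hd0 hτ0 hJ0
    push_cast at h1' h2' hfin ⊢
    refine hfin (2 * p - 2) (by linarith) (by linarith) ?_
    exact fQH hp hL hH hLq hHq (by omega) hS1
      (fun he1 => by simpa [sub_eq_add_neg] using h1' (-3) (by norm_num) he1)
      (fun he1 => by simpa [sub_eq_add_neg] using h2' (-4) (by norm_num) he1)
  · subst hd0
    have hJr : (J : ℝ) ≤ 1 := by exact_mod_cast hJ0
    have hτr : (2 : ℝ) ≤ τ := by exact_mod_cast hτ2
    refine hfin (2 * p) (by linarith) (by linarith) ?_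
    exact fQA hp hL hH hLq hHq (by omega) hS1
      (fun he1 => by simpa using h1' 0 (by linarith) he1)
      (fun he1 => by simpa [sub_eq_add_neg] using h2' (-1) (by linarith) he1)
  · subst hd0 hJ0
    have hτr : (3 : ℝ) ≤ τ := by exact_mod_cast hτ0
    push_cast at h1' h2'
    refine hfin (2 * p - 1) (by linarith) (by linarith) ?_
    exact fQB hp hL hH hLq hHq (by omega) hS1
      (fun he1 => by simpa [sub_eq_add_neg] using h1' (-1) (by norm_num) he1)
      (fun he1 => by simpa [sub_eq_add_neg] using h2' (-2) (by norm_num) he1)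
  · subst hd0 hτ0 hJ0
    push_cast at h1' h2' hfin ⊢
    refine hfin (2 * p - 2) (by linarith) (by linarith) ?_
    exact fQC hp hL hH hLq hHq (by omega) hS1
      (fun he1 => by simpa [sub_eq_add_neg] using h1' (-2) (by norm_num) he1)
      (fun he1 => by simpa [sub_eq_add_neg] using h2' (-3) (by norm_num) he1)
  · subst hd0 hJ0
    have hτr : (3 : ℝ) ≤ τ := by exact_mod_cast hτ0
    push_cast at h1' h2'
    refine hfin (2 * p - 1) (by linarith) (by linarith) ?_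
    exact fQD hp hL hH hLq hHq (by omega) hS1
      (fun he1 => by simpa using h1' 1 (by norm_num) he1)
      (fun he1 => by simpa using h2' 0 (by norm_num) he1)
  · subst hd0 hτ0 hJ0
    push_cast at h1' h2' hfin ⊢
    refine hfin (2 * p - 2) (by linarith) (by linarith) ?_
    exact fQE hp hL hH hLq hHq (by omega) hS1
      (fun he1 => by simpa using h1' 0 (by norm_num) he1)
      (fun he1 => by simpa [sub_eq_add_neg] using h2' (-1) (by norm_num) he1)

/-- base at least four -/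
theorem finC4 (hp : 2 ≤ p) (hL : 0 < L) (hH : 0 < H) (hLq : L ^ (p - 1) = p)
    (hHq : H ^ (p - 1) = 2 * p / (p + 1)) {c τ r d J e : ℕ} (hc : 4 ≤ c) (hcτ : τ ≤ c + 1)
    (hτ : τ ≤ 2 * p + 1) (hr : r ≤ τ) (hd : d ≤ r - r / 2) (hd1 : 1 ≤ r → 1 ≤ d)
    (hJ : J + r / 2 + d = τ) (he : e + 2 ≤ 2 * p + c + (r - r / 2 - d)) {F S : ℝ} (hF0 : 0 ≤ F)
    (hF : ∀ c0 ≤ c, F ≤ rhoG L p c0 d * H ^ (e - (c - c0))) (hS1 : 1 ≤ S)
    (h3 : 1 ≤ e → 1 + ((e : ℝ) - c + 3 - J - p) / (p - 1) ≤ S) :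
    (2 * (p : ℝ) + 2 - τ) * F ≤ p * S := by
  have hp2 : (2 : ℝ) ≤ p := by exact_mod_cast hp
  have hp0 : (0 : ℝ) < p := by linarith
  have hp1 : (0 : ℝ) < p - 1 := by linarith
  have hH1 := H_ge_one hp hH hHq
  have hτr : (τ : ℝ) ≤ 2 * p + 1 := by exact_mod_cast hτ
  have hJ0 : (0 : ℝ) ≤ J := Nat.cast_nonneg J
  -- the choice of `c0`
  obtain ⟨c0, a, M, hc0c, hc0, ha, haJ, hM0, hth, hMJ⟩ : ∃ (c0 : ℕ) (a M : ℝ), c0 ≤ c ∧ 4 ≤ c0 ∧
      2 * (p : ℝ) + 2 - τ ≤ a - J ∧ 0 ≤ a - J ∧ 0 ≤ M ∧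
      M * (a * (rhoG L p c0 d * H ^ (c0 + p - 3))) ≤ p ∧ (a - J) * H ^ J ≤ M * a := by
    rcases Nat.eq_zero_or_pos d with h | h
    · have hr0 : r = 0 := by
        by_contra hcon
        have := hd1 (by omega)
        omega
      subst hr0
      have hJτ : J = τ := by omega
      refine ⟨4, 2 * p + 2, 32 / 27, hc, le_rfl, ?_, ?_, by norm_num, ?_, ?_⟩
      · rw [hJτ]
      · rw [hJτ]
        linarith
      · rw [h, show 4 + p - 3 = p + 1 by omega]
        have := th4z hp hLq hHq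
        linarith
      · exact HJ0 hp hH hHq (by omega)
    · obtain ⟨c0, h4, h5, h6⟩ := th4 hp hL hH hLq hHq h (by omega)
      have hJ2 : 2 * d + J ≤ τ + 1 := by omega
      have hJ2r : 2 * (d : ℝ) + J ≤ τ + 1 := by exact_mod_cast hJ2
      have hdr : (1 : ℝ) ≤ d := by exact_mod_cast h
      have ha0 : (0 : ℝ) ≤ 2 * p + 3 - 2 * d - J := by linarith
      refine ⟨c0, 2 * p + 3 - 2 * d, 9 / 8, h4.trans (by omega), h5, by linarith, ha0,
        by norm_num, by linarith, ?_⟩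
      have h7 := HJ1 hp hH hHq (j := J) (by omega)
      -- `(a - J) / a ≤ (2 p + 1 - J) / (2 p + 1)`
      have h8 : (2 * (p : ℝ) + 3 - 2 * d - J) * (2 * p + 1) ≤
          (2 * p + 1 - J) * (2 * p + 3 - 2 * d) := by nlinarith
      have h9 : 0 ≤ H ^ J := by positivity
      have h10 := mul_le_mul_of_nonneg_right h8 h9
      have h11 := mul_le_mul_of_nonneg_right h7 (by linarith : (0 : ℝ) ≤ 2 * p + 3 - 2 * d)
      have h12 : ((2 * (p : ℝ) + 3 - 2 * d - J) * H ^ J) * (2 * p + 1) ≤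
          (9 / 8 * (2 * p + 3 - 2 * d)) * (2 * p + 1) := by linarith
      exact le_of_mul_le_mul_right h12 (by linarith)
  have hR0 := rhoG_nonneg hp hL (p := p) c0 d
  obtain ⟨m, hm⟩ : ∃ m, m = (e - (c - c0)) - (c0 + p - 3) := ⟨_, rfl⟩
  have h4 : H ^ (e - (c - c0)) ≤ H ^ (c0 + p - 3) * H ^ m := by
    rw [← pow_add]
    exact pow_le_pow_right₀ hH1 (by omega)
  have h5 : F ≤ rhoG L p c0 d * H ^ (c0 + p - 3) * H ^ m := by
    refine (hF c0 hc0c).trans ?_
    have := mul_le_mul_of_nonneg_left h4 hR0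
    linarith
  obtain ⟨R, hR⟩ : ∃ R, R = rhoG L p c0 d * H ^ (c0 + p - 3) := ⟨_, rfl⟩
  have hR0' : 0 ≤ R := by rw [hR]; positivity
  rw [← hR] at hth h5
  -- the bound for `H ^ m`
  have h6 : (a - J) * H ^ m ≤ M * a * S := by
    rcases Nat.lt_or_ge m J with h7 | h7
    · have h8 : H ^ m ≤ H ^ J := pow_le_pow_right₀ hH1 h7.le
      have h9 := mul_le_mul_of_nonneg_left h8 haJ
      have h10 : 0 ≤ M * a := by
        refine le_trans ?_ hMJ
        positivity
      have h11 := mul_le_mul_of_nonneg_left hS1 h10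
      linarith
    · obtain ⟨m', hm'⟩ : ∃ m', m = J + m' := ⟨m - J, by omega⟩
      have h8 : m' ≤ p + 1 := by omega
      have h9 := Hm1 hp hH hHq h8
      have h10 : H ^ m' ≤ S := by
        rcases Nat.eq_zero_or_pos m' with h11 | h11
        · rw [h11, pow_zero]
          exact hS1
        · refine h9.trans (le_trans (le_of_eq ?_) (h3 (by omega)))
          have h12 : m' + J + c + p = e + 3 := by omega
          have h13 : (m' : ℝ) + J + c + p = e + 3 := by exact_mod_cast h12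
          have h14 : (m' : ℝ) = e - c + 3 - J - p := by linarith
          rw [h14]
      rw [hm', pow_add, ← mul_assoc]
      have h11 : 0 ≤ H ^ m' := by positivity
      have h12 : 0 ≤ M * a := by
        refine le_trans ?_ hMJ
        positivity
      exact mul_le_mul hMJ h10 h11 h12
  have h7 := mul_le_mul_of_nonneg_right ha hF0
  have h8 := mul_le_mul_of_nonneg_left h5 haJ
  have h9 := mul_le_mul_of_nonneg_right h6 hR0'
  have h10 := mul_le_mul_of_nonneg_right hth (by linarith : (0 : ℝ) ≤ S)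
  calc (2 * (p : ℝ) + 2 - τ) * F ≤ (a - J) * F := h7
    _ ≤ (a - J) * (R * H ^ m) := h8
    _ = ((a - J) * H ^ m) * R := by ring
    _ ≤ M * a * S * R := h9
    _ = M * (a * R) * S := by ring
    _ ≤ p * S := h10

end MP76b19e.Rob
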