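import Pool.Agent.Lib.MP76b19e.Rob.NumJ
import Pool.Agent.Lib.MP76b19e.Rob.DropV

/-!
# Products of powers of `L` and `H` (problem MP_76b19e_co)

`L ^ N = N + 1`, `H ^ N = 2 (N + 1) / (N + 2)`: the end points for the piecewise affine bounds.
The file is generated.
-/

set_option autoImplicit false

open Finset

namespace MP76b19e.Rob

/-- `L ^ a * H ^ b ≤ r` from the `N`-th powers -/
theorem LH_le {N : ℕ} (hN : 1 ≤ N) {L H : ℝ} (hLN : L ^ N = N + 1)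
    (hHN : H ^ N = 2 * (N + 1) / (N + 2)) {a b : ℕ} {r : ℝ} (hr : 0 ≤ r)
    (h : ((N : ℝ) + 1) ^ a * (2 * (N + 1) / (N + 2)) ^ b ≤ r ^ N) : L ^ a * H ^ b ≤ r := by
  refine le_of_pow_le_pow_left₀ (n := N) (by omega) hr ?_
  rw [mul_pow, ← pow_mul, ← pow_mul, mul_comm a, mul_comm b, pow_mul, pow_mul, hLN, hHN]
  exact h

/-- `L ^ a ≤ r * H` from the `N`-th powers -/
theorem LH_le' {N : ℕ} (hN : 1 ≤ N) {L H : ℝ} (hH : 0 < H) (hLN : L ^ N = N + 1)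
    (hHN : H ^ N = 2 * (N + 1) / (N + 2)) {a : ℕ} {r : ℝ} (hr : 0 ≤ r)
    (h : ((N : ℝ) + 1) ^ a ≤ r ^ N * (2 * (N + 1) / (N + 2))) : L ^ a ≤ r * H := by
  refine le_of_pow_le_pow_left₀ (n := N) (by omega) (by positivity) ?_
  rw [mul_pow, ← pow_mul, mul_comm a, pow_mul, hLN, hHN]
  exact h

/-- induction for `(N + 1) ^ a * C ≤ r ^ N` -/
theorem big_of2 {a N0 : ℕ} {r C : ℝ} (hr : 1 ≤ r) (hC : 0 ≤ C) (hN0 : 1 ≤ N0)
    (h0 : ((N0 : ℝ) + 1) ^ a * C ≤ r ^ N0) (h1 : ((N0 : ℝ) + 2) ^ a ≤ r * (N0 + 1) ^ a) {N : ℕ}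
    (hN : N0 ≤ N) : ((N : ℝ) + 1) ^ a * C ≤ r ^ N := by
  induction N, hN using Nat.le_induction with
  | base => exact h0
  | succ n hn ih =>
    have hn' : (N0 : ℝ) ≤ n := by exact_mod_cast hn
    have hN0' : (1 : ℝ) ≤ N0 := by exact_mod_cast hN0
    have h2 : ((n : ℝ) + 2) ^ a * ((N0 : ℝ) + 1) ^ a ≤ ((N0 : ℝ) + 2) ^ a * ((n : ℝ) + 1) ^ a := by
      rw [← mul_pow, ← mul_pow]
      refine pow_le_pow_left₀ (by positivity) ?_ a
      nlinarith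
    have h3 : ((n : ℝ) + 2) ^ a * ((N0 : ℝ) + 1) ^ a ≤ (r * (n + 1) ^ a) * ((N0 : ℝ) + 1) ^ a := by
      refine h2.trans ?_
      have := mul_le_mul_of_nonneg_right h1 (by positivity : 0 ≤ ((n : ℝ) + 1) ^ a)
      linarith
    have h4 := le_of_mul_le_mul_right h3 (by positivity)
    have h5 := mul_le_mul_of_nonneg_left ih (by linarith : (0 : ℝ) ≤ r)
    have h6 := mul_le_mul_of_nonneg_right h4 hC
    rw [pow_succ, mul_comm (r ^ n)]
    push_cast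
    refine le_trans (le_of_eq ?_) (h6.trans (le_trans (le_of_eq ?_) h5)) <;> ring

theorem two_H_le {N : ℕ} (b : ℕ) : (2 * ((N : ℝ) + 1) / (N + 2)) ^ b ≤ 2 ^ b := by
  refine pow_le_pow_left₀ (by positivity) ?_ b
  rw [div_le_iff₀ (by positivity)]
  linarith

section

variable {N : ℕ} {L H : ℝ}

theorem tQ1a (hN : 2 ≤ N) (hLN : L ^ N = N + 1)
    (hHN : H ^ N = 2 * (N + 1) / (N + 2)) :
    (2 * N + 2) * (L ^ 3 * (2 * N ^ 2 / ((3 * N + 3) * (4 * N + 3)))) *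
      ((2 * (N + 1) / (N + 2)) ^ 2 * H ^ 0) ≤ (N + 1) * ((3 * N + 4) / (N + 3)) := by
  have hN1 : (2 : ℝ) ≤ N := by exact_mod_cast hN
  have hk : 0 < 2 * (N : ℝ) + 2 := by linarith
  have hs : 0 < 3 * (N : ℝ) + 4 := by linarith
  obtain ⟨R, hR⟩ : ∃ R : ℝ, R = (3 * N + 4) * (N + 2) ^ 2 * ((3 * N + 3) * (4 * N + 3)) /
    (4 * (N + 1) * (N + 3) * (2 * N + 2) * (2 * N ^ 2)) := ⟨_, rfl⟩
  have hlim : (9 / 4 : ℝ) ≤ R := by
    rw [hR, div_le_div_iff₀ (by norm_num) (by positivity)]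
    obtain ⟨x, hx⟩ : ∃ x : ℝ, (N : ℝ) = 2 + x := ⟨N - 2, by ring⟩
    have hx0 : 0 ≤ x := by linarith
    rw [hx, ← sub_nonneg]
    ring_nf
    positivity
  have h1 : L ^ 3 * H ^ 0 ≤ R := by
    refine LH_le (by omega) hLN hHN (by linarith) ?_
    rcases Nat.lt_or_ge N 9 with h | h
    · rw [hR]
      interval_cases N <;> norm_num
    · refine (mul_le_mul_of_nonneg_left (two_H_le 0) (by positivity)).trans ?_
      exact (big_of2 (r := 9 / 4) (by norm_num) (by norm_num) (by norm_num) (by norm_num)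
        (by norm_num) h).trans (pow_le_pow_left₀ (by norm_num) hlim _)
  have hA : (0 : ℝ) ≤ (2 * N + 2) * (2 * N ^ 2 / ((3 * N + 3) * (4 * N + 3))) *
      (2 * (N + 1) / (N + 2)) ^ 2 := by positivity
  have h2 := mul_le_mul_of_nonneg_left h1 hA
  refine le_trans (le_of_eq ?_) (h2.trans (le_of_eq ?_))
  · ring
  · rw [hR]
    field_simp
    norm_num

theorem tQ1b (hN : 2 ≤ N) (hLN : L ^ N = N + 1)
    (hHN : H ^ N = 2 * (N + 1) / (N + 2)) :
    (2 * N + 2) * (L ^ 3 * (2 * N ^ 2 / ((3 * N + 3) * (4 * N + 3)))) *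
      ((2 * (N + 1) / (N + 2)) ^ 2 * H ^ 1) ≤ (N + 1) * ((5 * N + 3) / (N + 3)) := by
  have hN1 : (2 : ℝ) ≤ N := by exact_mod_cast hN
  have hk : 0 < 2 * (N : ℝ) + 2 := by linarith
  have hs : 0 < 5 * (N : ℝ) + 3 := by linarith
  obtain ⟨R, hR⟩ : ∃ R : ℝ, R = (5 * N + 3) * (N + 2) ^ 2 * ((3 * N + 3) * (4 * N + 3)) /
    (4 * (N + 1) * (N + 3) * (2 * N + 2) * (2 * N ^ 2)) := ⟨_, rfl⟩
  have hlim : (15 / 4 : ℝ) ≤ R := by
    rw [hR, div_le_div_iff₀ (by norm_num) (by positivity)]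
    obtain ⟨x, hx⟩ : ∃ x : ℝ, (N : ℝ) = 2 + x := ⟨N - 2, by ring⟩
    have hx0 : 0 ≤ x := by linarith
    rw [hx, ← sub_nonneg]
    ring_nf
    positivity
  have h1 : L ^ 3 * H ^ 1 ≤ R := by
    refine LH_le (by omega) hLN hHN (by linarith) ?_
    rcases Nat.lt_or_ge N 5 with h | h
    · rw [hR]
      interval_cases N <;> norm_num
    · refine (mul_le_mul_of_nonneg_left (two_H_le 1) (by positivity)).trans ?_
      exact (big_of2 (r := 15 / 4) (by norm_num) (by norm_num) (by norm_num) (by norm_num)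
        (by norm_num) h).trans (pow_le_pow_left₀ (by norm_num) hlim _)
  have hA : (0 : ℝ) ≤ (2 * N + 2) * (2 * N ^ 2 / ((3 * N + 3) * (4 * N + 3))) *
      (2 * (N + 1) / (N + 2)) ^ 2 := by positivity
  have h2 := mul_le_mul_of_nonneg_left h1 hA
  refine le_trans (le_of_eq ?_) (h2.trans (le_of_eq ?_))
  · ring
  · rw [hR]
    field_simp
    norm_num

theorem tQ1c (hN : 2 ≤ N) (hLN : L ^ N = N + 1)
    (hHN : H ^ N = 2 * (N + 1) / (N + 2)) :
    (2 * N + 2) * (L ^ 3 * (2 * N ^ 2 / ((3 * N + 3) * (4 * N + 3)))) *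
      ((2 * (N + 1) / (N + 2)) ^ 2 * H ^ 3) ≤ (N + 1) * ((5 * N + 11) / (N + 3)) := by
  have hN1 : (2 : ℝ) ≤ N := by exact_mod_cast hN
  have hk : 0 < 2 * (N : ℝ) + 2 := by linarith
  have hs : 0 < 5 * (N : ℝ) + 11 := by linarith
  obtain ⟨R, hR⟩ : ∃ R : ℝ, R = (5 * N + 11) * (N + 2) ^ 2 * ((3 * N + 3) * (4 * N + 3)) /
    (4 * (N + 1) * (N + 3) * (2 * N + 2) * (2 * N ^ 2)) := ⟨_, rfl⟩
  have hlim : (15 / 4 : ℝ) ≤ R := by
    rw [hR, div_le_div_iff₀ (by norm_num) (by positivity)]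
    obtain ⟨x, hx⟩ : ∃ x : ℝ, (N : ℝ) = 2 + x := ⟨N - 2, by ring⟩
    have hx0 : 0 ≤ x := by linarith
    rw [hx, ← sub_nonneg]
    ring_nf
    positivity
  have h1 : L ^ 3 * H ^ 3 ≤ R := by
    refine LH_le (by omega) hLN hHN (by linarith) ?_
    rcases Nat.lt_or_ge N 6 with h | h
    · rw [hR]
      interval_cases N <;> norm_num
    · refine (mul_le_mul_of_nonneg_left (two_H_le 3) (by positivity)).trans ?_
      exact (big_of2 (r := 15 / 4) (by norm_num) (by norm_num) (by norm_num) (by norm_num)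
        (by norm_num) h).trans (pow_le_pow_left₀ (by norm_num) hlim _)
  have hA : (0 : ℝ) ≤ (2 * N + 2) * (2 * N ^ 2 / ((3 * N + 3) * (4 * N + 3))) *
      (2 * (N + 1) / (N + 2)) ^ 2 := by positivity
  have h2 := mul_le_mul_of_nonneg_left h1 hA
  refine le_trans (le_of_eq ?_) (h2.trans (le_of_eq ?_))
  · ring
  · rw [hR]
    field_simp
    norm_num

theorem tQ2a (hN : 2 ≤ N) (hLN : L ^ N = N + 1)
    (hHN : H ^ N = 2 * (N + 1) / (N + 2)) :
    (2 * N + 1) * (L ^ 3 * (2 * N ^ 2 / ((3 * N + 3) * (4 * N + 3)))) *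
      ((2 * (N + 1) / (N + 2)) ^ 2 * H ^ 1) ≤ (N + 1) * ((3 * N + 4) / (N + 3)) := by
  have hN1 : (2 : ℝ) ≤ N := by exact_mod_cast hN
  have hk : 0 < 2 * (N : ℝ) + 1 := by linarith
  have hs : 0 < 3 * (N : ℝ) + 4 := by linarith
  obtain ⟨R, hR⟩ : ∃ R : ℝ, R = (3 * N + 4) * (N + 2) ^ 2 * ((3 * N + 3) * (4 * N + 3)) /
    (4 * (N + 1) * (N + 3) * (2 * N + 1) * (2 * N ^ 2)) := ⟨_, rfl⟩
  have hlim : (9 / 4 : ℝ) ≤ R := by
    rw [hR, div_le_div_iff₀ (by norm_num) (by positivity)]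
    obtain ⟨x, hx⟩ : ∃ x : ℝ, (N : ℝ) = 2 + x := ⟨N - 2, by ring⟩
    have hx0 : 0 ≤ x := by linarith
    rw [hx, ← sub_nonneg]
    ring_nf
    positivity
  have h1 : L ^ 3 * H ^ 1 ≤ R := by
    refine LH_le (by omega) hLN hHN (by linarith) ?_
    rcases Nat.lt_or_ge N 10 with h | h
    · rw [hR]
      interval_cases N <;> norm_num
    · refine (mul_le_mul_of_nonneg_left (two_H_le 1) (by positivity)).trans ?_
      exact (big_of2 (r := 9 / 4) (by norm_num) (by norm_num) (by norm_num) (by norm_num)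
        (by norm_num) h).trans (pow_le_pow_left₀ (by norm_num) hlim _)
  have hA : (0 : ℝ) ≤ (2 * N + 1) * (2 * N ^ 2 / ((3 * N + 3) * (4 * N + 3))) *
      (2 * (N + 1) / (N + 2)) ^ 2 := by positivity
  have h2 := mul_le_mul_of_nonneg_left h1 hA
  refine le_trans (le_of_eq ?_) (h2.trans (le_of_eq ?_))
  · ring
  · rw [hR]
    field_simp
    norm_num

theorem tQ2b (hN : 2 ≤ N) (hLN : L ^ N = N + 1)
    (hHN : H ^ N = 2 * (N + 1) / (N + 2)) :
    (2 * N + 1) * (L ^ 3 * (2 * N ^ 2 / ((3 * N + 3) * (4 * N + 3)))) *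
      ((2 * (N + 1) / (N + 2)) ^ 2 * H ^ 2) ≤ (N + 1) * ((5 * N + 3) / (N + 3)) := by
  have hN1 : (2 : ℝ) ≤ N := by exact_mod_cast hN
  have hk : 0 < 2 * (N : ℝ) + 1 := by linarith
  have hs : 0 < 5 * (N : ℝ) + 3 := by linarith
  obtain ⟨R, hR⟩ : ∃ R : ℝ, R = (5 * N + 3) * (N + 2) ^ 2 * ((3 * N + 3) * (4 * N + 3)) /
    (4 * (N + 1) * (N + 3) * (2 * N + 1) * (2 * N ^ 2)) := ⟨_, rfl⟩
  have hlim : (15 / 4 : ℝ) ≤ R := by
    rw [hR, div_le_div_iff₀ (by norm_num) (by positivity)]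
    obtain ⟨x, hx⟩ : ∃ x : ℝ, (N : ℝ) = 2 + x := ⟨N - 2, by ring⟩
    have hx0 : 0 ≤ x := by linarith
    rw [hx, ← sub_nonneg]
    ring_nf
    positivity
  have h1 : L ^ 3 * H ^ 2 ≤ R := by
    refine LH_le (by omega) hLN hHN (by linarith) ?_
    rcases Nat.lt_or_ge N 6 with h | h
    · rw [hR]
      interval_cases N <;> norm_num
    · refine (mul_le_mul_of_nonneg_left (two_H_le 2) (by positivity)).trans ?_
      exact (big_of2 (r := 15 / 4) (by norm_num) (by norm_num) (by norm_num) (by norm_num)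
        (by norm_num) h).trans (pow_le_pow_left₀ (by norm_num) hlim _)
  have hA : (0 : ℝ) ≤ (2 * N + 1) * (2 * N ^ 2 / ((3 * N + 3) * (4 * N + 3))) *
      (2 * (N + 1) / (N + 2)) ^ 2 := by positivity
  have h2 := mul_le_mul_of_nonneg_left h1 hA
  refine le_trans (le_of_eq ?_) (h2.trans (le_of_eq ?_))
  · ring
  · rw [hR]
    field_simp
    norm_num

theorem tQ3a (hN : 2 ≤ N) (hH : 0 < H) (hLN : L ^ N = N + 1)
    (hHN : H ^ N = 2 * (N + 1) / (N + 2)) :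
    (2 * N + 1) * (L ^ 4 * (2 * N ^ 2 / ((3 * N + 4) * (4 * N + 4)))) *
      (2 * (N + 1) / (N + 2)) ^ 2 ≤ (N + 1) * ((3 * N + 4) / (N + 3)) * H := by
  have hN1 : (2 : ℝ) ≤ N := by exact_mod_cast hN
  have hk : 0 < 2 * (N : ℝ) + 1 := by linarith
  have hs : 0 < 3 * (N : ℝ) + 4 := by linarith
  obtain ⟨R, hR⟩ : ∃ R : ℝ, R = (3 * N + 4) * (N + 2) ^ 2 * ((3 * N + 4) * (4 * N + 4)) /
    (4 * (N + 1) * (N + 3) * (2 * N + 1) * (2 * N ^ 2)) := ⟨_, rfl⟩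
  have hlim : (9 / 4 : ℝ) ≤ R := by
    rw [hR, div_le_div_iff₀ (by norm_num) (by positivity)]
    obtain ⟨x, hx⟩ : ∃ x : ℝ, (N : ℝ) = 2 + x := ⟨N - 2, by ring⟩
    have hx0 : 0 ≤ x := by linarith
    rw [hx, ← sub_nonneg]
    ring_nf
    positivity
  have h1 : L ^ 4 ≤ R * H := by
    refine LH_le' (by omega) hH hLN hHN (by linarith) ?_
    rcases Nat.lt_or_ge N 14 with h | h
    · rw [hR]
      interval_cases N <;> norm_num
    · have h3 := (big_of2 (a := 4) (C := 1) (r := 9 / 4) (by norm_num) (by norm_num)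
        (by norm_num) (by norm_num) (by norm_num) h).trans
        (pow_le_pow_left₀ (by norm_num) hlim N)
      rw [mul_one] at h3
      refine h3.trans ?_
      have h4 : (1 : ℝ) ≤ 2 * (N + 1) / (N + 2) := by
        rw [le_div_iff₀ (by positivity)]
        linarith
      have h5 : 0 ≤ R ^ N := pow_nonneg (by linarith) N
      nlinarith
  have hA : (0 : ℝ) ≤ (2 * N + 1) * (2 * N ^ 2 / ((3 * N + 4) * (4 * N + 4))) *
      (2 * (N + 1) / (N + 2)) ^ 2 := by positivity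
  have h2 := mul_le_mul_of_nonneg_left h1 hA
  refine le_trans (le_of_eq ?_) (h2.trans (le_of_eq ?_))
  · ring
  · rw [hR]
    field_simp
    norm_num

theorem tQ3b (hN : 2 ≤ N) (hLN : L ^ N = N + 1)
    (hHN : H ^ N = 2 * (N + 1) / (N + 2)) :
    (2 * N + 1) * (L ^ 4 * (2 * N ^ 2 / ((3 * N + 4) * (4 * N + 4)))) *
      ((2 * (N + 1) / (N + 2)) ^ 2 * H ^ 0) ≤ (N + 1) * ((5 * N + 3) / (N + 3)) := by
  have hN1 : (2 : ℝ) ≤ N := by exact_mod_cast hN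
  have hk : 0 < 2 * (N : ℝ) + 1 := by linarith
  have hs : 0 < 5 * (N : ℝ) + 3 := by linarith
  obtain ⟨R, hR⟩ : ∃ R : ℝ, R = (5 * N + 3) * (N + 2) ^ 2 * ((3 * N + 4) * (4 * N + 4)) /
    (4 * (N + 1) * (N + 3) * (2 * N + 1) * (2 * N ^ 2)) := ⟨_, rfl⟩
  have hlim : (15 / 4 : ℝ) ≤ R := by
    rw [hR, div_le_div_iff₀ (by norm_num) (by positivity)]
    obtain ⟨x, hx⟩ : ∃ x : ℝ, (N : ℝ) = 2 + x := ⟨N - 2, by ring⟩
    have hx0 : 0 ≤ x := by linarith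
    rw [hx, ← sub_nonneg]
    ring_nf
    positivity
  have h1 : L ^ 4 * H ^ 0 ≤ R := by
    refine LH_le (by omega) hLN hHN (by linarith) ?_
    rcases Nat.lt_or_ge N 6 with h | h
    · rw [hR]
      interval_cases N <;> norm_num
    · refine (mul_le_mul_of_nonneg_left (two_H_le 0) (by positivity)).trans ?_
      exact (big_of2 (r := 15 / 4) (by norm_num) (by norm_num) (by norm_num) (by norm_num)
        (by norm_num) h).trans (pow_le_pow_left₀ (by norm_num) hlim _)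
  have hA : (0 : ℝ) ≤ (2 * N + 1) * (2 * N ^ 2 / ((3 * N + 4) * (4 * N + 4))) *
      (2 * (N + 1) / (N + 2)) ^ 2 := by positivity
  have h2 := mul_le_mul_of_nonneg_left h1 hA
  refine le_trans (le_of_eq ?_) (h2.trans (le_of_eq ?_))
  · ring
  · rw [hR]
    field_simp
    norm_num

theorem tQ3c (hN : 2 ≤ N) (hLN : L ^ N = N + 1)
    (hHN : H ^ N = 2 * (N + 1) / (N + 2)) :
    (2 * N + 1) * (L ^ 4 * (2 * N ^ 2 / ((3 * N + 4) * (4 * N + 4)))) *
      ((2 * (N + 1) / (N + 2)) ^ 2 * H ^ 2) ≤ (N + 1) * ((5 * N + 11) / (N + 3)) := by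
  have hN1 : (2 : ℝ) ≤ N := by exact_mod_cast hN
  have hk : 0 < 2 * (N : ℝ) + 1 := by linarith
  have hs : 0 < 5 * (N : ℝ) + 11 := by linarith
  obtain ⟨R, hR⟩ : ∃ R : ℝ, R = (5 * N + 11) * (N + 2) ^ 2 * ((3 * N + 4) * (4 * N + 4)) /
    (4 * (N + 1) * (N + 3) * (2 * N + 1) * (2 * N ^ 2)) := ⟨_, rfl⟩
  have hlim : (15 / 4 : ℝ) ≤ R := by
    rw [hR, div_le_div_iff₀ (by norm_num) (by positivity)]
    obtain ⟨x, hx⟩ : ∃ x : ℝ, (N : ℝ) = 2 + x := ⟨N - 2, by ring⟩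
    have hx0 : 0 ≤ x := by linarith
    rw [hx, ← sub_nonneg]
    ring_nf
    positivity
  have h1 : L ^ 4 * H ^ 2 ≤ R := by
    refine LH_le (by omega) hLN hHN (by linarith) ?_
    rcases Nat.lt_or_ge N 8 with h | h
    · rw [hR]
      interval_cases N <;> norm_num
    · refine (mul_le_mul_of_nonneg_left (two_H_le 2) (by positivity)).trans ?_
      exact (big_of2 (r := 15 / 4) (by norm_num) (by norm_num) (by norm_num) (by norm_num)
        (by norm_num) h).trans (pow_le_pow_left₀ (by norm_num) hlim _)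
  have hA : (0 : ℝ) ≤ (2 * N + 1) * (2 * N ^ 2 / ((3 * N + 4) * (4 * N + 4))) *
      (2 * (N + 1) / (N + 2)) ^ 2 := by positivity
  have h2 := mul_le_mul_of_nonneg_left h1 hA
  refine le_trans (le_of_eq ?_) (h2.trans (le_of_eq ?_))
  · ring
  · rw [hR]
    field_simp
    norm_num

theorem tQ4a (hN : 2 ≤ N) (hLN : L ^ N = N + 1)
    (hHN : H ^ N = 2 * (N + 1) / (N + 2)) :
    (2 * N + 2) * (L ^ 2 * (2 * N ^ 2 / ((3 * N + 2) * (4 * N + 2)))) *
      ((2 * (N + 1) / (N + 2)) ^ 2 * H ^ 2) ≤ (N + 1) * ((3 * N + 5) / (N + 3)) := by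
  have hN1 : (2 : ℝ) ≤ N := by exact_mod_cast hN
  have hk : 0 < 2 * (N : ℝ) + 2 := by linarith
  have hs : 0 < 3 * (N : ℝ) + 5 := by linarith
  obtain ⟨R, hR⟩ : ∃ R : ℝ, R = (3 * N + 5) * (N + 2) ^ 2 * ((3 * N + 2) * (4 * N + 2)) /
    (4 * (N + 1) * (N + 3) * (2 * N + 2) * (2 * N ^ 2)) := ⟨_, rfl⟩
  have hlim : (9 / 4 : ℝ) ≤ R := by
    rw [hR, div_le_div_iff₀ (by norm_num) (by positivity)]
    obtain ⟨x, hx⟩ : ∃ x : ℝ, (N : ℝ) = 2 + x := ⟨N - 2, by ring⟩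
    have hx0 : 0 ≤ x := by linarith
    rw [hx, ← sub_nonneg]
    ring_nf
    positivity
  have h1 : L ^ 2 * H ^ 2 ≤ R := by
    refine LH_le (by omega) hLN hHN (by linarith) ?_
    rcases Nat.lt_or_ge N 7 with h | h
    · rw [hR]
      interval_cases N <;> norm_num
    · refine (mul_le_mul_of_nonneg_left (two_H_le 2) (by positivity)).trans ?_
      exact (big_of2 (r := 9 / 4) (by norm_num) (by norm_num) (by norm_num) (by norm_num)
        (by norm_num) h).trans (pow_le_pow_left₀ (by norm_num) hlim _)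
  have hA : (0 : ℝ) ≤ (2 * N + 2) * (2 * N ^ 2 / ((3 * N + 2) * (4 * N + 2))) *
      (2 * (N + 1) / (N + 2)) ^ 2 := by positivity
  have h2 := mul_le_mul_of_nonneg_left h1 hA
  refine le_trans (le_of_eq ?_) (h2.trans (le_of_eq ?_))
  · ring
  · rw [hR]
    field_simp
    norm_num

theorem tQ5a (hN : 2 ≤ N) (hLN : L ^ N = N + 1)
    (hHN : H ^ N = 2 * (N + 1) / (N + 2)) :
    (2 * N + 1) * (L ^ 2 * (2 * N ^ 2 / ((3 * N + 2) * (4 * N + 2)))) *
      ((2 * (N + 1) / (N + 2)) ^ 2 * H ^ 2) ≤ (N + 1) * ((3 * N + 4) / (N + 3)) := by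
  have hN1 : (2 : ℝ) ≤ N := by exact_mod_cast hN
  have hk : 0 < 2 * (N : ℝ) + 1 := by linarith
  have hs : 0 < 3 * (N : ℝ) + 4 := by linarith
  obtain ⟨R, hR⟩ : ∃ R : ℝ, R = (3 * N + 4) * (N + 2) ^ 2 * ((3 * N + 2) * (4 * N + 2)) /
    (4 * (N + 1) * (N + 3) * (2 * N + 1) * (2 * N ^ 2)) := ⟨_, rfl⟩
  have hlim : (9 / 4 : ℝ) ≤ R := by
    rw [hR, div_le_div_iff₀ (by norm_num) (by positivity)]
    obtain ⟨x, hx⟩ : ∃ x : ℝ, (N : ℝ) = 2 + x := ⟨N - 2, by ring⟩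
    have hx0 : 0 ≤ x := by linarith
    rw [hx, ← sub_nonneg]
    ring_nf
    positivity
  have h1 : L ^ 2 * H ^ 2 ≤ R := by
    refine LH_le (by omega) hLN hHN (by linarith) ?_
    rcases Nat.lt_or_ge N 7 with h | h
    · rw [hR]
      interval_cases N <;> norm_num
    · refine (mul_le_mul_of_nonneg_left (two_H_le 2) (by positivity)).trans ?_
      exact (big_of2 (r := 9 / 4) (by norm_num) (by norm_num) (by norm_num) (by norm_num)
        (by norm_num) h).trans (pow_le_pow_left₀ (by norm_num) hlim _)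
  have hA : (0 : ℝ) ≤ (2 * N + 1) * (2 * N ^ 2 / ((3 * N + 2) * (4 * N + 2))) *
      (2 * (N + 1) / (N + 2)) ^ 2 := by positivity
  have h2 := mul_le_mul_of_nonneg_left h1 hA
  refine le_trans (le_of_eq ?_) (h2.trans (le_of_eq ?_))
  · ring
  · rw [hR]
    field_simp
    norm_num

theorem tQAa (hN : 2 ≤ N) (hLN : L ^ N = N + 1)
    (hHN : H ^ N = 2 * (N + 1) / (N + 2)) :
    (2 * N + 2) * (L ^ 4 * (6 * N ^ 3 / ((3 * N + 4) * (4 * N + 4) * (5 * N + 4)))) *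
      ((2 * (N + 1) / (N + 2)) ^ 2 * H ^ 2) ≤ (N + 1) * ((3 * N + 6) / (N + 4)) := by
  have hN1 : (2 : ℝ) ≤ N := by exact_mod_cast hN
  have hk : 0 < 2 * (N : ℝ) + 2 := by linarith
  have hs : 0 < 3 * (N : ℝ) + 6 := by linarith
  obtain ⟨R, hR⟩ : ∃ R : ℝ, R = (3 * N + 6) * (N + 2) ^ 2 * ((3 * N + 4) * (4 * N + 4) * (5 * N + 4)) /
    (4 * (N + 1) * (N + 4) * (2 * N + 2) * (6 * N ^ 3)) := ⟨_, rfl⟩
  have hlim : (15 / 4 : ℝ) ≤ R := by
    rw [hR, div_le_div_iff₀ (by norm_num) (by positivity)]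
    obtain ⟨x, hx⟩ : ∃ x : ℝ, (N : ℝ) = 2 + x := ⟨N - 2, by ring⟩
    have hx0 : 0 ≤ x := by linarith
    rw [hx, ← sub_nonneg]
    ring_nf
    positivity
  have h1 : L ^ 4 * H ^ 2 ≤ R := by
    refine LH_le (by omega) hLN hHN (by linarith) ?_
    rcases Nat.lt_or_ge N 8 with h | h
    · rw [hR]
      interval_cases N <;> norm_num
    · refine (mul_le_mul_of_nonneg_left (two_H_le 2) (by positivity)).trans ?_
      exact (big_of2 (r := 15 / 4) (by norm_num) (by norm_num) (by norm_num) (by norm_num)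
        (by norm_num) h).trans (pow_le_pow_left₀ (by norm_num) hlim _)
  have hA : (0 : ℝ) ≤ (2 * N + 2) * (6 * N ^ 3 / ((3 * N + 4) * (4 * N + 4) * (5 * N + 4))) *
      (2 * (N + 1) / (N + 2)) ^ 2 := by positivity
  have h2 := mul_le_mul_of_nonneg_left h1 hA
  refine le_trans (le_of_eq ?_) (h2.trans (le_of_eq ?_))
  · ring
  · rw [hR]
    field_simp
    norm_num

theorem tQAb (hN : 2 ≤ N) (hLN : L ^ N = N + 1)
    (hHN : H ^ N = 2 * (N + 1) / (N + 2)) :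
    (2 * N + 2) * (L ^ 4 * (6 * N ^ 3 / ((3 * N + 4) * (4 * N + 4) * (5 * N + 4)))) *
      ((2 * (N + 1) / (N + 2)) ^ 2 * H ^ 3) ≤ (N + 1) * ((5 * N + 8) / (N + 4)) := by
  have hN1 : (2 : ℝ) ≤ N := by exact_mod_cast hN
  have hk : 0 < 2 * (N : ℝ) + 2 := by linarith
  have hs : 0 < 5 * (N : ℝ) + 8 := by linarith
  obtain ⟨R, hR⟩ : ∃ R : ℝ, R = (5 * N + 8) * (N + 2) ^ 2 * ((3 * N + 4) * (4 * N + 4) * (5 * N + 4)) /
    (4 * (N + 1) * (N + 4) * (2 * N + 2) * (6 * N ^ 3)) := ⟨_, rfl⟩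
  have hlim : (25 / 4 : ℝ) ≤ R := by
    rw [hR, div_le_div_iff₀ (by norm_num) (by positivity)]
    obtain ⟨x, hx⟩ : ∃ x : ℝ, (N : ℝ) = 2 + x := ⟨N - 2, by ring⟩
    have hx0 : 0 ≤ x := by linarith
    rw [hx, ← sub_nonneg]
    ring_nf
    positivity
  have h1 : L ^ 4 * H ^ 3 ≤ R := by
    refine LH_le (by omega) hLN hHN (by linarith) ?_
    rcases Nat.lt_or_ge N 6 with h | h
    · rw [hR]
      interval_cases N <;> norm_num
    · refine (mul_le_mul_of_nonneg_left (two_H_le 3) (by positivity)).trans ?_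
      exact (big_of2 (r := 25 / 4) (by norm_num) (by norm_num) (by norm_num) (by norm_num)
        (by norm_num) h).trans (pow_le_pow_left₀ (by norm_num) hlim _)
  have hA : (0 : ℝ) ≤ (2 * N + 2) * (6 * N ^ 3 / ((3 * N + 4) * (4 * N + 4) * (5 * N + 4))) *
      (2 * (N + 1) / (N + 2)) ^ 2 := by positivity
  have h2 := mul_le_mul_of_nonneg_left h1 hA
  refine le_trans (le_of_eq ?_) (h2.trans (le_of_eq ?_))
  · ring
  · rw [hR]
    field_simp
    norm_num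

theorem tQAc (hN : 2 ≤ N) (hLN : L ^ N = N + 1)
    (hHN : H ^ N = 2 * (N + 1) / (N + 2)) :
    (2 * N + 2) * (L ^ 4 * (6 * N ^ 3 / ((3 * N + 4) * (4 * N + 4) * (5 * N + 4)))) *
      ((2 * (N + 1) / (N + 2)) ^ 2 * H ^ 4) ≤ (N + 1) * ((5 * N + 12) / (N + 4)) := by
  have hN1 : (2 : ℝ) ≤ N := by exact_mod_cast hN
  have hk : 0 < 2 * (N : ℝ) + 2 := by linarith
  have hs : 0 < 5 * (N : ℝ) + 12 := by linarith
  obtain ⟨R, hR⟩ : ∃ R : ℝ, R = (5 * N + 12) * (N + 2) ^ 2 * ((3 * N + 4) * (4 * N + 4) * (5 * N + 4)) /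
    (4 * (N + 1) * (N + 4) * (2 * N + 2) * (6 * N ^ 3)) := ⟨_, rfl⟩
  have hlim : (25 / 4 : ℝ) ≤ R := by
    rw [hR, div_le_div_iff₀ (by norm_num) (by positivity)]
    obtain ⟨x, hx⟩ : ∃ x : ℝ, (N : ℝ) = 2 + x := ⟨N - 2, by ring⟩
    have hx0 : 0 ≤ x := by linarith
    rw [hx, ← sub_nonneg]
    ring_nf
    positivity
  have h1 : L ^ 4 * H ^ 4 ≤ R := by
    refine LH_le (by omega) hLN hHN (by linarith) ?_
    rcases Nat.lt_or_ge N 6 with h | h
    · rw [hR]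
      interval_cases N <;> norm_num
    · refine (mul_le_mul_of_nonneg_left (two_H_le 4) (by positivity)).trans ?_
      exact (big_of2 (r := 25 / 4) (by norm_num) (by norm_num) (by norm_num) (by norm_num)
        (by norm_num) h).trans (pow_le_pow_left₀ (by norm_num) hlim _)
  have hA : (0 : ℝ) ≤ (2 * N + 2) * (6 * N ^ 3 / ((3 * N + 4) * (4 * N + 4) * (5 * N + 4))) *
      (2 * (N + 1) / (N + 2)) ^ 2 := by positivity
  have h2 := mul_le_mul_of_nonneg_left h1 hA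
  refine le_trans (le_of_eq ?_) (h2.trans (le_of_eq ?_))
  · ring
  · rw [hR]
    field_simp
    norm_num

theorem tQBa (hN : 2 ≤ N) (hLN : L ^ N = N + 1)
    (hHN : H ^ N = 2 * (N + 1) / (N + 2)) :
    (2 * N + 1) * (L ^ 4 * (6 * N ^ 3 / ((3 * N + 4) * (4 * N + 4) * (5 * N + 4)))) *
      ((2 * (N + 1) / (N + 2)) ^ 2 * H ^ 3) ≤ (N + 1) * ((3 * N + 6) / (N + 4)) := by
  have hN1 : (2 : ℝ) ≤ N := by exact_mod_cast hN
  have hk : 0 < 2 * (N : ℝ) + 1 := by linarith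
  have hs : 0 < 3 * (N : ℝ) + 6 := by linarith
  obtain ⟨R, hR⟩ : ∃ R : ℝ, R = (3 * N + 6) * (N + 2) ^ 2 * ((3 * N + 4) * (4 * N + 4) * (5 * N + 4)) /
    (4 * (N + 1) * (N + 4) * (2 * N + 1) * (6 * N ^ 3)) := ⟨_, rfl⟩
  have hlim : (15 / 4 : ℝ) ≤ R := by
    rw [hR, div_le_div_iff₀ (by norm_num) (by positivity)]
    obtain ⟨x, hx⟩ : ∃ x : ℝ, (N : ℝ) = 2 + x := ⟨N - 2, by ring⟩
    have hx0 : 0 ≤ x := by linarith
    rw [hx, ← sub_nonneg]
    ring_nf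
    positivity
  have h1 : L ^ 4 * H ^ 3 ≤ R := by
    refine LH_le (by omega) hLN hHN (by linarith) ?_
    rcases Nat.lt_or_ge N 9 with h | h
    · rw [hR]
      interval_cases N <;> norm_num
    · refine (mul_le_mul_of_nonneg_left (two_H_le 3) (by positivity)).trans ?_
      exact (big_of2 (r := 15 / 4) (by norm_num) (by norm_num) (by norm_num) (by norm_num)
        (by norm_num) h).trans (pow_le_pow_left₀ (by norm_num) hlim _)
  have hA : (0 : ℝ) ≤ (2 * N + 1) * (6 * N ^ 3 / ((3 * N + 4) * (4 * N + 4) * (5 * N + 4))) *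
      (2 * (N + 1) / (N + 2)) ^ 2 := by positivity
  have h2 := mul_le_mul_of_nonneg_left h1 hA
  refine le_trans (le_of_eq ?_) (h2.trans (le_of_eq ?_))
  · ring
  · rw [hR]
    field_simp
    norm_num

theorem tQBb (hN : 2 ≤ N) (hLN : L ^ N = N + 1)
    (hHN : H ^ N = 2 * (N + 1) / (N + 2)) :
    (2 * N + 1) * (L ^ 4 * (6 * N ^ 3 / ((3 * N + 4) * (4 * N + 4) * (5 * N + 4)))) *
      ((2 * (N + 1) / (N + 2)) ^ 2 * H ^ 4) ≤ (N + 1) * ((5 * N + 8) / (N + 4)) := by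
  have hN1 : (2 : ℝ) ≤ N := by exact_mod_cast hN
  have hk : 0 < 2 * (N : ℝ) + 1 := by linarith
  have hs : 0 < 5 * (N : ℝ) + 8 := by linarith
  obtain ⟨R, hR⟩ : ∃ R : ℝ, R = (5 * N + 8) * (N + 2) ^ 2 * ((3 * N + 4) * (4 * N + 4) * (5 * N + 4)) /
    (4 * (N + 1) * (N + 4) * (2 * N + 1) * (6 * N ^ 3)) := ⟨_, rfl⟩
  have hlim : (25 / 4 : ℝ) ≤ R := by
    rw [hR, div_le_div_iff₀ (by norm_num) (by positivity)]
    obtain ⟨x, hx⟩ : ∃ x : ℝ, (N : ℝ) = 2 + x := ⟨N - 2, by ring⟩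
    have hx0 : 0 ≤ x := by linarith
    rw [hx, ← sub_nonneg]
    ring_nf
    positivity
  have h1 : L ^ 4 * H ^ 4 ≤ R := by
    refine LH_le (by omega) hLN hHN (by linarith) ?_
    rcases Nat.lt_or_ge N 6 with h | h
    · rw [hR]
      interval_cases N <;> norm_num
    · refine (mul_le_mul_of_nonneg_left (two_H_le 4) (by positivity)).trans ?_
      exact (big_of2 (r := 25 / 4) (by norm_num) (by norm_num) (by norm_num) (by norm_num)
        (by norm_num) h).trans (pow_le_pow_left₀ (by norm_num) hlim _)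
  have hA : (0 : ℝ) ≤ (2 * N + 1) * (6 * N ^ 3 / ((3 * N + 4) * (4 * N + 4) * (5 * N + 4))) *
      (2 * (N + 1) / (N + 2)) ^ 2 := by positivity
  have h2 := mul_le_mul_of_nonneg_left h1 hA
  refine le_trans (le_of_eq ?_) (h2.trans (le_of_eq ?_))
  · ring
  · rw [hR]
    field_simp
    norm_num

theorem tQCa (hN : 2 ≤ N) (hLN : L ^ N = N + 1)
    (hHN : H ^ N = 2 * (N + 1) / (N + 2)) :
    (2 * N) * (L ^ 4 * (6 * N ^ 3 / ((3 * N + 4) * (4 * N + 4) * (5 * N + 4)))) *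
      ((2 * (N + 1) / (N + 2)) ^ 2 * H ^ 3) ≤ (N + 1) * ((3 * N + 5) / (N + 4)) := by
  have hN1 : (2 : ℝ) ≤ N := by exact_mod_cast hN
  have hk : 0 < 2 * (N : ℝ) := by linarith
  have hs : 0 < 3 * (N : ℝ) + 5 := by linarith
  obtain ⟨R, hR⟩ : ∃ R : ℝ, R = (3 * N + 5) * (N + 2) ^ 2 * ((3 * N + 4) * (4 * N + 4) * (5 * N + 4)) /
    (4 * (N + 1) * (N + 4) * (2 * N) * (6 * N ^ 3)) := ⟨_, rfl⟩
  have hlim : (15 / 4 : ℝ) ≤ R := by
    rw [hR, div_le_div_iff₀ (by norm_num) (by positivity)]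
    obtain ⟨x, hx⟩ : ∃ x : ℝ, (N : ℝ) = 2 + x := ⟨N - 2, by ring⟩
    have hx0 : 0 ≤ x := by linarith
    rw [hx, ← sub_nonneg]
    ring_nf
    positivity
  have h1 : L ^ 4 * H ^ 3 ≤ R := by
    refine LH_le (by omega) hLN hHN (by linarith) ?_
    rcases Nat.lt_or_ge N 9 with h | h
    · rw [hR]
      interval_cases N <;> norm_num
    · refine (mul_le_mul_of_nonneg_left (two_H_le 3) (by positivity)).trans ?_
      exact (big_of2 (r := 15 / 4) (by norm_num) (by norm_num) (by norm_num) (by norm_num)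
        (by norm_num) h).trans (pow_le_pow_left₀ (by norm_num) hlim _)
  have hA : (0 : ℝ) ≤ (2 * N) * (6 * N ^ 3 / ((3 * N + 4) * (4 * N + 4) * (5 * N + 4))) *
      (2 * (N + 1) / (N + 2)) ^ 2 := by positivity
  have h2 := mul_le_mul_of_nonneg_left h1 hA
  refine le_trans (le_of_eq ?_) (h2.trans (le_of_eq ?_))
  · ring
  · rw [hR]
    field_simp
    norm_num

theorem tQDa (hN : 2 ≤ N) (hLN : L ^ N = N + 1)
    (hHN : H ^ N = 2 * (N + 1) / (N + 2)) :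
    (2 * N + 1) * (L ^ 5 * (6 * N ^ 3 / ((3 * N + 5) * (4 * N + 5) * (5 * N + 5)))) *
      ((2 * (N + 1) / (N + 2)) ^ 2 * H ^ 2) ≤ (N + 1) * ((3 * N + 7) / (N + 4)) := by
  have hN1 : (2 : ℝ) ≤ N := by exact_mod_cast hN
  have hk : 0 < 2 * (N : ℝ) + 1 := by linarith
  have hs : 0 < 3 * (N : ℝ) + 7 := by linarith
  obtain ⟨R, hR⟩ : ∃ R : ℝ, R = (3 * N + 7) * (N + 2) ^ 2 * ((3 * N + 5) * (4 * N + 5) * (5 * N + 5)) /
    (4 * (N + 1) * (N + 4) * (2 * N + 1) * (6 * N ^ 3)) := ⟨_, rfl⟩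
  have hlim : (15 / 4 : ℝ) ≤ R := by
    rw [hR, div_le_div_iff₀ (by norm_num) (by positivity)]
    obtain ⟨x, hx⟩ : ∃ x : ℝ, (N : ℝ) = 2 + x := ⟨N - 2, by ring⟩
    have hx0 : 0 ≤ x := by linarith
    rw [hx, ← sub_nonneg]
    ring_nf
    positivity
  have h1 : L ^ 5 * H ^ 2 ≤ R := by
    refine LH_le (by omega) hLN hHN (by linarith) ?_
    rcases Nat.lt_or_ge N 11 with h | h
    · rw [hR]
      interval_cases N <;> norm_num
    · refine (mul_le_mul_of_nonneg_left (two_H_le 2) (by positivity)).trans ?_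
      exact (big_of2 (r := 15 / 4) (by norm_num) (by norm_num) (by norm_num) (by norm_num)
        (by norm_num) h).trans (pow_le_pow_left₀ (by norm_num) hlim _)
  have hA : (0 : ℝ) ≤ (2 * N + 1) * (6 * N ^ 3 / ((3 * N + 5) * (4 * N + 5) * (5 * N + 5))) *
      (2 * (N + 1) / (N + 2)) ^ 2 := by positivity
  have h2 := mul_le_mul_of_nonneg_left h1 hA
  refine le_trans (le_of_eq ?_) (h2.trans (le_of_eq ?_))
  · ring
  · rw [hR]
    field_simp
    norm_num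

theorem tQDb (hN : 2 ≤ N) (hLN : L ^ N = N + 1)
    (hHN : H ^ N = 2 * (N + 1) / (N + 2)) :
    (2 * N + 1) * (L ^ 5 * (6 * N ^ 3 / ((3 * N + 5) * (4 * N + 5) * (5 * N + 5)))) *
      ((2 * (N + 1) / (N + 2)) ^ 2 * H ^ 3) ≤ (N + 1) * ((5 * N + 12) / (N + 4)) := by
  have hN1 : (2 : ℝ) ≤ N := by exact_mod_cast hN
  have hk : 0 < 2 * (N : ℝ) + 1 := by linarith
  have hs : 0 < 5 * (N : ℝ) + 12 := by linarith
  obtain ⟨R, hR⟩ : ∃ R : ℝ, R = (5 * N + 12) * (N + 2) ^ 2 * ((3 * N + 5) * (4 * N + 5) * (5 * N + 5)) /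
    (4 * (N + 1) * (N + 4) * (2 * N + 1) * (6 * N ^ 3)) := ⟨_, rfl⟩
  have hlim : (25 / 4 : ℝ) ≤ R := by
    rw [hR, div_le_div_iff₀ (by norm_num) (by positivity)]
    obtain ⟨x, hx⟩ : ∃ x : ℝ, (N : ℝ) = 2 + x := ⟨N - 2, by ring⟩
    have hx0 : 0 ≤ x := by linarith
    rw [hx, ← sub_nonneg]
    ring_nf
    positivity
  have h1 : L ^ 5 * H ^ 3 ≤ R := by
    refine LH_le (by omega) hLN hHN (by linarith) ?_
    rcases Nat.lt_or_ge N 7 with h | h
    · rw [hR]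
      interval_cases N <;> norm_num
    · refine (mul_le_mul_of_nonneg_left (two_H_le 3) (by positivity)).trans ?_
      exact (big_of2 (r := 25 / 4) (by norm_num) (by norm_num) (by norm_num) (by norm_num)
        (by norm_num) h).trans (pow_le_pow_left₀ (by norm_num) hlim _)
  have hA : (0 : ℝ) ≤ (2 * N + 1) * (6 * N ^ 3 / ((3 * N + 5) * (4 * N + 5) * (5 * N + 5))) *
      (2 * (N + 1) / (N + 2)) ^ 2 := by positivity
  have h2 := mul_le_mul_of_nonneg_left h1 hA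
  refine le_trans (le_of_eq ?_) (h2.trans (le_of_eq ?_))
  · ring
  · rw [hR]
    field_simp
    norm_num

theorem tQEa (hN : 2 ≤ N) (hLN : L ^ N = N + 1)
    (hHN : H ^ N = 2 * (N + 1) / (N + 2)) :
    (2 * N) * (L ^ 5 * (6 * N ^ 3 / ((3 * N + 5) * (4 * N + 5) * (5 * N + 5)))) *
      ((2 * (N + 1) / (N + 2)) ^ 2 * H ^ 3) ≤ (N + 1) * ((3 * N + 7) / (N + 4)) := by
  have hN1 : (2 : ℝ) ≤ N := by exact_mod_cast hN
  have hk : 0 < 2 * (N : ℝ) := by linarith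
  have hs : 0 < 3 * (N : ℝ) + 7 := by linarith
  obtain ⟨R, hR⟩ : ∃ R : ℝ, R = (3 * N + 7) * (N + 2) ^ 2 * ((3 * N + 5) * (4 * N + 5) * (5 * N + 5)) /
    (4 * (N + 1) * (N + 4) * (2 * N) * (6 * N ^ 3)) := ⟨_, rfl⟩
  have hlim : (15 / 4 : ℝ) ≤ R := by
    rw [hR, div_le_div_iff₀ (by norm_num) (by positivity)]
    obtain ⟨x, hx⟩ : ∃ x : ℝ, (N : ℝ) = 2 + x := ⟨N - 2, by ring⟩
    have hx0 : 0 ≤ x := by linarith
    rw [hx, ← sub_nonneg]
    ring_nf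
    positivity
  have h1 : L ^ 5 * H ^ 3 ≤ R := by
    refine LH_le (by omega) hLN hHN (by linarith) ?_
    rcases Nat.lt_or_ge N 11 with h | h
    · rw [hR]
      interval_cases N <;> norm_num
    · refine (mul_le_mul_of_nonneg_left (two_H_le 3) (by positivity)).trans ?_
      exact (big_of2 (r := 15 / 4) (by norm_num) (by norm_num) (by norm_num) (by norm_num)
        (by norm_num) h).trans (pow_le_pow_left₀ (by norm_num) hlim _)
  have hA : (0 : ℝ) ≤ (2 * N) * (6 * N ^ 3 / ((3 * N + 5) * (4 * N + 5) * (5 * N + 5))) *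
      (2 * (N + 1) / (N + 2)) ^ 2 := by positivity
  have h2 := mul_le_mul_of_nonneg_left h1 hA
  refine le_trans (le_of_eq ?_) (h2.trans (le_of_eq ?_))
  · ring
  · rw [hR]
    field_simp
    norm_num

theorem tQFa (hN : 2 ≤ N) (hLN : L ^ N = N + 1)
    (hHN : H ^ N = 2 * (N + 1) / (N + 2)) :
    (2 * N + 2) * (L ^ 3 * (6 * N ^ 3 / ((3 * N + 3) * (4 * N + 3) * (5 * N + 3)))) *
      ((2 * (N + 1) / (N + 2)) ^ 2 * H ^ 3) ≤ (N + 1) * ((3 * N + 6) / (N + 4)) := by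
  have hN1 : (2 : ℝ) ≤ N := by exact_mod_cast hN
  have hk : 0 < 2 * (N : ℝ) + 2 := by linarith
  have hs : 0 < 3 * (N : ℝ) + 6 := by linarith
  obtain ⟨R, hR⟩ : ∃ R : ℝ, R = (3 * N + 6) * (N + 2) ^ 2 * ((3 * N + 3) * (4 * N + 3) * (5 * N + 3)) /
    (4 * (N + 1) * (N + 4) * (2 * N + 2) * (6 * N ^ 3)) := ⟨_, rfl⟩
  have hlim : (15 / 4 : ℝ) ≤ R := by
    rw [hR, div_le_div_iff₀ (by norm_num) (by positivity)]
    obtain ⟨x, hx⟩ : ∃ x : ℝ, (N : ℝ) = 2 + x := ⟨N - 2, by ring⟩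
    have hx0 : 0 ≤ x := by linarith
    rw [hx, ← sub_nonneg]
    ring_nf
    positivity
  have h1 : L ^ 3 * H ^ 3 ≤ R := by
    refine LH_le (by omega) hLN hHN (by linarith) ?_
    rcases Nat.lt_or_ge N 6 with h | h
    · rw [hR]
      interval_cases N <;> norm_num
    · refine (mul_le_mul_of_nonneg_left (two_H_le 3) (by positivity)).trans ?_
      exact (big_of2 (r := 15 / 4) (by norm_num) (by norm_num) (by norm_num) (by norm_num)
        (by norm_num) h).trans (pow_le_pow_left₀ (by norm_num) hlim _)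
  have hA : (0 : ℝ) ≤ (2 * N + 2) * (6 * N ^ 3 / ((3 * N + 3) * (4 * N + 3) * (5 * N + 3))) *
      (2 * (N + 1) / (N + 2)) ^ 2 := by positivity
  have h2 := mul_le_mul_of_nonneg_left h1 hA
  refine le_trans (le_of_eq ?_) (h2.trans (le_of_eq ?_))
  · ring
  · rw [hR]
    field_simp
    norm_num

theorem tQGa (hN : 2 ≤ N) (hLN : L ^ N = N + 1)
    (hHN : H ^ N = 2 * (N + 1) / (N + 2)) :
    (2 * N + 1) * (L ^ 3 * (6 * N ^ 3 / ((3 * N + 3) * (4 * N + 3) * (5 * N + 3)))) *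
      ((2 * (N + 1) / (N + 2)) ^ 2 * H ^ 3) ≤ (N + 1) * ((3 * N + 5) / (N + 4)) := by
  have hN1 : (2 : ℝ) ≤ N := by exact_mod_cast hN
  have hk : 0 < 2 * (N : ℝ) + 1 := by linarith
  have hs : 0 < 3 * (N : ℝ) + 5 := by linarith
  obtain ⟨R, hR⟩ : ∃ R : ℝ, R = (3 * N + 5) * (N + 2) ^ 2 * ((3 * N + 3) * (4 * N + 3) * (5 * N + 3)) /
    (4 * (N + 1) * (N + 4) * (2 * N + 1) * (6 * N ^ 3)) := ⟨_, rfl⟩
  have hlim : (15 / 4 : ℝ) ≤ R := by
    rw [hR, div_le_div_iff₀ (by norm_num) (by positivity)]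
    obtain ⟨x, hx⟩ : ∃ x : ℝ, (N : ℝ) = 2 + x := ⟨N - 2, by ring⟩
    have hx0 : 0 ≤ x := by linarith
    rw [hx, ← sub_nonneg]
    ring_nf
    positivity
  have h1 : L ^ 3 * H ^ 3 ≤ R := by
    refine LH_le (by omega) hLN hHN (by linarith) ?_
    rcases Nat.lt_or_ge N 6 with h | h
    · rw [hR]
      interval_cases N <;> norm_num
    · refine (mul_le_mul_of_nonneg_left (two_H_le 3) (by positivity)).trans ?_
      exact (big_of2 (r := 15 / 4) (by norm_num) (by norm_num) (by norm_num) (by norm_num)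
        (by norm_num) h).trans (pow_le_pow_left₀ (by norm_num) hlim _)
  have hA : (0 : ℝ) ≤ (2 * N + 1) * (6 * N ^ 3 / ((3 * N + 3) * (4 * N + 3) * (5 * N + 3))) *
      (2 * (N + 1) / (N + 2)) ^ 2 := by positivity
  have h2 := mul_le_mul_of_nonneg_left h1 hA
  refine le_trans (le_of_eq ?_) (h2.trans (le_of_eq ?_))
  · ring
  · rw [hR]
    field_simp
    norm_num

theorem tQHa (hN : 2 ≤ N) (hLN : L ^ N = N + 1)
    (hHN : H ^ N = 2 * (N + 1) / (N + 2)) :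
    (2 * N) * (L ^ 3 * (6 * N ^ 3 / ((3 * N + 3) * (4 * N + 3) * (5 * N + 3)))) *
      ((2 * (N + 1) / (N + 2)) ^ 2 * H ^ 3) ≤ (N + 1) * ((3 * N + 4) / (N + 4)) := by
  have hN1 : (2 : ℝ) ≤ N := by exact_mod_cast hN
  have hk : 0 < 2 * (N : ℝ) := by linarith
  have hs : 0 < 3 * (N : ℝ) + 4 := by linarith
  obtain ⟨R, hR⟩ : ∃ R : ℝ, R = (3 * N + 4) * (N + 2) ^ 2 * ((3 * N + 3) * (4 * N + 3) * (5 * N + 3)) /
    (4 * (N + 1) * (N + 4) * (2 * N) * (6 * N ^ 3)) := ⟨_, rfl⟩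
  have hlim : (15 / 4 : ℝ) ≤ R := by
    rw [hR, div_le_div_iff₀ (by norm_num) (by positivity)]
    obtain ⟨x, hx⟩ : ∃ x : ℝ, (N : ℝ) = 2 + x := ⟨N - 2, by ring⟩
    have hx0 : 0 ≤ x := by linarith
    rw [hx, ← sub_nonneg]
    ring_nf
    positivity
  have h1 : L ^ 3 * H ^ 3 ≤ R := by
    refine LH_le (by omega) hLN hHN (by linarith) ?_
    rcases Nat.lt_or_ge N 6 with h | h
    · rw [hR]
      interval_cases N <;> norm_num
    · refine (mul_le_mul_of_nonneg_left (two_H_le 3) (by positivity)).trans ?_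
      exact (big_of2 (r := 15 / 4) (by norm_num) (by norm_num) (by norm_num) (by norm_num)
        (by norm_num) h).trans (pow_le_pow_left₀ (by norm_num) hlim _)
  have hA : (0 : ℝ) ≤ (2 * N) * (6 * N ^ 3 / ((3 * N + 3) * (4 * N + 3) * (5 * N + 3))) *
      (2 * (N + 1) / (N + 2)) ^ 2 := by positivity
  have h2 := mul_le_mul_of_nonneg_left h1 hA
  refine le_trans (le_of_eq ?_) (h2.trans (le_of_eq ?_))
  · ring
  · rw [hR]
    field_simp
    norm_num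

end

end MP76b19e.Rob
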