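import Pool.Agent.Lib.MP76b19e.Rob.MixL
import Pool.Agent.Lib.MP76b19e.Rob.LowTop
import Pool.Agent.Lib.MP76b19e.Rob.Loc

/-!
# One low level, one low element more than slots (problem MP_76b19e_co)

`OL`: the data of the last block, `L` the lows, `A` the tops. `OL.low`: the inequality for the sets
`S` which contain a low. `mixed_ol`: the local inequality from the inequality for the sets of tops.
-/

set_option autoImplicit false

open Finset

namespace MP76b19e.Rob

/-- the data of the last block with one low level `L` and the tops `A` -/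
structure OL {V β : Type} [DecidableEq V] [DecidableEq β] [Fintype V] (F : SimpleGraph V)
    (W Y T0 L A : Finset V) (m : Finset V → ℝ) (M : V → Finset β) (B : Finset β)
    (c : Finset V → ℕ) (p q P νk t d : ℕ) (X O G D : ℝ) : Prop where
  ind : ∀ x ∈ Y, ∀ y ∈ Y, ¬ F.Adj x y
  YW : Y ⊆ W
  dT : Disjoint T0 (L ∪ A)
  dL : Disjoint L A
  Y_eq : T0 ∪ (L ∪ A) = Y
  pos : PosM m
  base : m ∅ = 0
  m_eq : ∀ D ⊆ L ∪ A, m D = mY F W Y D
  Lc : L.card = νk + 1
  Ac : A.card = t + d
  ν1 : 1 ≤ νk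
  t1 : 1 ≤ t
  colW : ∀ v ∈ W, (cn F v ∩ W).card + (M v).card ≤ P
  colL : ∀ v ∈ L, (cn F v ∩ W).card + (M v).card ≤ p
  Bc : B.card = P
  MB : ∀ v, M v ⊆ B
  c1 : ∀ K ⊆ Y, K.card + (d + 1) = Y.card → P ≤ c K + (K.biUnion M).card
  c2 : ∀ K ⊆ Y, K.card + d = Y.card → 1 ≤ c K
  palU : pal m (L ∪ A) = (νk : ℝ) * p + ((t : ℝ) - 1) * P + 1 + X + G
  X0 : 0 ≤ X
  O0 : 0 ≤ O
  OG : O + ∑ v ∈ T0, ((M v).card : ℝ) ≤ G
  D0 : 0 ≤ D
  D1 : D ≤ 1 + X + O
  Dp : D ≤ p
  ext : ((νk : ℝ) - 1) * p + X + G + 1 ≤ pal m (L ∪ A) - pal m A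
  q2 : 2 ≤ q
  qp : q ≤ p
  pP : p + 1 ≤ P
  k0 : (T0 = ∅ ∧ X = 0 ∧ O = 0 ∧ G = 0 ∧ q = p) ∨ q + 1 ≤ p
  XO : ∃ z : ℤ, X + O = z

/-- the bracket of (T1-top), the part of the last elements `S` -/
noncomputable def brkS {V : Type} [DecidableEq V] (m : Finset V → ℝ) (L A S : Finset V) (p : ℝ) :
    ℝ :=
  (2 + pt (push m A) L / p) * (if S ⊆ A then Ival (push m S) (A \ S) else 0) +
    ∑ u ∈ L, (1 + pom (push m A) L u / p) *
      (p * (if S ⊆ insert u A then Ival (push m S) (insert u A \ S) else 0) -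
        (if S ⊆ A then Ival (push m S) (A \ S) else 0))

section

variable {V β : Type} [DecidableEq V] [DecidableEq β] [Fintype V] {F : SimpleGraph V}
  {W Y T0 L A S K : Finset V} {m : Finset V → ℝ} {M : V → Finset β} {B : Finset β}
  {c : Finset V → ℕ} {p q P νk t d : ℕ} {X O G D : ℝ}

theorem OL.UY (h : OL F W Y T0 L A m M B c p q P νk t d X O G D) : L ∪ A = Y \ T0 := by
  rw [← h.Y_eq, union_sdiff_left, sdiff_eq_self_of_disjoint h.dT.symm]

theorem OL.U_sub (h : OL F W Y T0 L A m M B c p q P νk t d X O G D) : L ∪ A ⊆ Y := by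
  rw [h.UY]
  exact sdiff_subset

theorem OL.T0_sub (h : OL F W Y T0 L A m M B c p q P νk t d X O G D) : T0 ⊆ Y := by
  rw [← h.Y_eq]
  exact subset_union_left

theorem OL.Yc (h : OL F W Y T0 L A m M B c p q P νk t d X O G D) :
    Y.card = T0.card + (νk + 1 + (t + d)) := by
  rw [← h.Y_eq, card_union_of_disjoint h.dT, card_union_of_disjoint h.dL, h.Lc, h.Ac]

/-- the mass seen by the subsets of the block -/
theorem OL.pal_eq (h : OL F W Y T0 L A m M B c p q P νk t d X O G D) {E : Finset V}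
    (hE : E ⊆ L ∪ A) : pal m E = ((Und F W (Y \ E)).card : ℝ) := by
  rw [← pal_mY (F := F) (W := W) (hE.trans h.U_sub)]
  unfold pal
  exact sum_congr rfl fun D hD => h.m_eq D ((mem_powerset.1 hD).trans hE)

/-- the mass seen by an element -/
theorem OL.pa_le (h : OL F W Y T0 L A m M B c p q P νk t d X O G D) {u : V} (hu : u ∈ L ∪ A) :
    pa m (L ∪ A) u ≤ ((cn F u ∩ W).card : ℝ) := by
  have h0 := pal_erase (m := m) (K := L ∪ A) u
  rw [h.pal_eq Subset.rfl, h.pal_eq (erase_subset _ _)] at h0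
  have h3 : Y \ (L ∪ A).erase u = insert u (Y \ (L ∪ A)) := by
    ext v
    rw [mem_sdiff, mem_erase, mem_insert, mem_sdiff]
    constructor
    · rintro ⟨h4, h5⟩
      by_cases h6 : v = u
      · exact Or.inl h6
      · exact Or.inr ⟨h4, fun h7 => h5 ⟨h6, h7⟩⟩
    · rintro (h4 | h4)
      · rw [h4]
        exact ⟨h.U_sub hu, fun h5 => h5.1 rfl⟩
      · exact ⟨h4.1, fun h5 => h4.2 h5.2⟩
  have h4 := Und_le_insert (F := F) (W := W) (Y \ (L ∪ A)) u
  rw [h3] at h0
  have h7 : ((Und F W (Y \ (L ∪ A))).card : ℝ) ≤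
      (Und F W (insert u (Y \ (L ∪ A)))).card + (cn F u ∩ W).card := by exact_mod_cast h4
  linarith

theorem OL.paL (h : OL F W Y T0 L A m M B c p q P νk t d X O G D) {u : V} (hu : u ∈ L) :
    pa m (L ∪ A) u + ((M u).card : ℝ) ≤ p := by
  have h1 := h.pa_le (mem_union_left A hu)
  have h2 : ((cn F u ∩ W).card : ℝ) + (M u).card ≤ p := by exact_mod_cast h.colL u hu
  linarith

theorem OL.paA (h : OL F W Y T0 L A m M B c p q P νk t d X O G D) {u : V} (hu : u ∈ L ∪ A) :
    pa m (L ∪ A) u + ((M u).card : ℝ) ≤ P := by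
  have h1 := h.pa_le hu
  have h2 : ((cn F u ∩ W).card : ℝ) + (M u).card ≤ P := by
    exact_mod_cast h.colW u (h.YW (h.U_sub hu))
  linarith

/-- the element itself -/
theorem OL.one (h : OL F W Y T0 L A m M B c p q P νk t d X O G D) {u : V} (hu : u ∈ L ∪ A) :
    1 ≤ m {u} := by
  classical
  rw [h.m_eq {u} (singleton_subset_iff.2 hu)]
  unfold mY
  have h1 : 1 ≤ (W.filter fun v => dn F Y v = {u}).card := by
    refine card_pos.2 ⟨u, ?_⟩
    rw [mem_filter]
    exact ⟨h.YW (h.U_sub hu), dn_self h.ind (h.U_sub hu)⟩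
  have h2 : ((1 : ℕ) : ℝ) ≤ ((W.filter fun v => dn F Y v = {u}).card : ℝ) := by exact_mod_cast h1
  rw [Nat.cast_one] at h2
  convert h2

/-- the capacity of `S` -/
theorem OL.SK_ge (h : OL F W Y T0 L A m M B c p q P νk t d X O G D) (hS : S ⊆ L ∪ A)
    (hSd : S.card = d) (hK : K ⊆ (L ∪ A) \ S) :
    1 + ∑ j ∈ K, (c (Y \ insert j S) : ℝ) / (push m S {j} + push m S ∅) ≤ SK F W Y c S := by
  have hSY := hS.trans h.U_sub
  have h1 : (1 : ℝ) ≤ (c (Y \ S) : ℝ) := by
    have h2 : 1 ≤ c (Y \ S) := by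
      refine h.c2 _ sdiff_subset ?_
      rw [card_sdiff_of_subset hSY, hSd, h.Yc]
      omega
    exact_mod_cast h2
  have h2 : ∀ j ∈ K, push m S {j} + push m S ∅ = pal (mY F W Y) (insert j S) := by
    intro j hj
    have hjK := hK hj
    rw [mem_sdiff] at hjK
    have h3 : pal (push m S) {j} = pal m ({j} ∪ S) := pal_push (by
      rw [disjoint_singleton_left]
      exact hjK.2)
    have h4 : pal (push m S) {j} = push m S {j} + push m S ∅ := by
      unfold pal
      rw [show ({j} : Finset V).powerset = {∅, {j}} from rfl, sum_pair (singleton_ne_empty j).symm,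
        add_comm]
    rw [← h4, h3, ← insert_eq]
    unfold pal
    exact sum_congr rfl fun D hD => h.m_eq D ((mem_powerset.1 hD).trans (insert_subset hjK.1 hS))
  have h3 : ∀ u, 0 ≤ (c (Y \ insert u S) : ℝ) / pal (mY F W Y) (insert u S) := fun u =>
    div_nonneg (Nat.cast_nonneg _) (sum_nonneg fun D _ => mY_nonneg Y D)
  have h4 : ∑ j ∈ K, (c (Y \ insert j S) : ℝ) / pal (mY F W Y) (insert j S) ≤
      ∑ u ∈ Y \ S, (c (Y \ insert u S) : ℝ) / pal (mY F W Y) (insert u S) := by
    refine sum_le_sum_of_subset_of_nonneg (hK.trans ?_) fun u _ _ => h3 u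
    exact sdiff_subset_sdiff h.U_sub Subset.rfl
  rw [sum_congr rfl fun j hj => by rw [h2 j hj]]
  unfold SK
  linarith

theorem OL.SK_one (h : OL F W Y T0 L A m M B c p q P νk t d X O G D) (hS : S ⊆ L ∪ A)
    (hSd : S.card = d) : 1 ≤ SK F W Y c S := by
  have := h.SK_ge hS hSd (empty_subset _)
  rwa [sum_empty, add_zero] at this

/-- the colours of the sets with one element less -/
theorem OL.c1S (h : OL F W Y T0 L A m M B c p q P νk t d X O G D) (hS : S ⊆ L ∪ A)
    (hSd : S.card = d) {j : V} (hj : j ∈ (L ∪ A) \ S) :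
    P ≤ c (Y \ insert j S) + ((Y \ insert j S).biUnion M).card := by
  rw [mem_sdiff] at hj
  refine h.c1 _ sdiff_subset ?_
  rw [card_sdiff_of_subset ((insert_subset hj.1 hS).trans h.U_sub), card_insert_of_notMem hj.2, hSd,
    h.Yc]
  omega

theorem OL.c1T (h : OL F W Y T0 L A m M B c p q P νk t d X O G D) {L' : Finset V}
    (hS : S ⊆ L ∪ A) (hSd : S.card = d) (hLS : L' ∪ K = (L ∪ A) \ S) (hd : Disjoint L' K) {j : V}
    (hj : j ∈ K) : P ≤ c (Y \ insert j S) + (((T0 ∪ L') ∪ K.erase j).biUnion M).card := by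
  have h1 := h.c1S hS hSd (j := j) (by rw [← hLS]; exact mem_union_right _ hj)
  have h2 : Y \ insert j S = (T0 ∪ L') ∪ K.erase j := by
    have h3 : ∀ v, v ∈ L' ∨ v ∈ K ↔ v ∈ L ∪ A ∧ v ∉ S := by
      intro v
      rw [← mem_union, hLS, mem_sdiff]
    have h4 : ∀ v, v ∈ Y ↔ v ∈ T0 ∨ v ∈ L ∪ A := by
      intro v
      rw [← mem_union, h.Y_eq]
    ext v
    rw [mem_sdiff, mem_insert, mem_union, mem_union, mem_erase, h4]
    constructor
    · rintro ⟨h5 | h5, h6⟩
      · exact Or.inl (Or.inl h5)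
      · push Not at h6
        rcases (h3 v).2 ⟨h5, h6.2⟩ with h7 | h7
        · exact Or.inl (Or.inr h7)
        · exact Or.inr ⟨h6.1, h7⟩
    · rintro ((h5 | h5) | ⟨h5, h6⟩)
      · refine ⟨Or.inl h5, ?_⟩
        rintro (h7 | h7)
        · rw [h7] at h5
          exact disjoint_left.1 h.dT h5 ((h3 j).1 (Or.inr hj)).1
        · exact disjoint_left.1 h.dT h5 (hS h7)
      · refine ⟨Or.inr ((h3 v).1 (Or.inl h5)).1, ?_⟩
        rintro (h7 | h7)
        · rw [h7] at h5
          exact disjoint_left.1 hd h5 hj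
        · exact ((h3 v).1 (Or.inl h5)).2 h7
      · refine ⟨Or.inr ((h3 v).1 (Or.inr h6)).1, ?_⟩
        rintro (h7 | h7)
        · exact h5 h7
        · exact ((h3 v).1 (Or.inr h6)).2 h7
  rw [← h2]
  exact h1

/-- the set `S` contains exactly one low -/
theorem OL.low_one (h : OL F W Y T0 L A m M B c p q P νk t d X O G D) (hS : S ⊆ L ∪ A)
    (hSd : S.card = d) {u : V} (huL : u ∈ L) (huS : u ∈ S) (hSu : S ⊆ insert u A) :
    D * (1 + pom (push m A) L u / p) *
      ((P : ℝ) ^ (t - 1) * Ival (push m S) (insert u A \ S)) ≤ SK F W Y c S := by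
  classical
  have hpr : (2 : ℝ) ≤ p := by exact_mod_cast h.q2.trans h.qp
  have hPr : (p : ℝ) + 1 ≤ P := by exact_mod_cast h.pP
  have hp0 : (0 : ℝ) < p := by linarith
  set K := insert u A \ S with hKdef
  set L' := L.erase u with hL'
  have huA : u ∉ A := disjoint_left.1 h.dL huL
  have hL'A : Disjoint L' A := h.dL.mono_left (erase_subset _ _)
  have huL' : u ∉ L' := notMem_erase u L
  have hd1 : 1 ≤ d := by
    rw [← hSd]
    exact card_pos.2 ⟨u, huS⟩
  have hKc : K.card = t + 1 := by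
    rw [hKdef, card_sdiff_of_subset hSu, card_insert_of_notMem huA, h.Ac, hSd]
    omega
  have hL'K : Disjoint L' K := by
    rw [disjoint_left]
    intro v hv hvK
    rw [hKdef, mem_sdiff, mem_insert] at hvK
    rcases hvK.1 with h1 | h1
    · exact huL' (h1 ▸ hv)
    · exact disjoint_left.1 hL'A hv h1
  have hSL' : Disjoint L' S := by
    rw [disjoint_left]
    intro v hv hvS
    rcases mem_insert.1 (hSu hvS) with h1 | h1
    · exact huL' (h1 ▸ hv)
    · exact disjoint_left.1 hL'A hv h1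
  have hUe : L ∪ A = L' ∪ insert u A := by
    rw [union_insert, ← insert_union, hL', insert_erase huL]
  have hL'K' : L' ∪ K = (L ∪ A) \ S := by
    rw [hUe, union_sdiff_distrib, sdiff_eq_self_of_disjoint hSL']
  have hKU : K ⊆ (L ∪ A) \ S := by
    rw [← hL'K']
    exact subset_union_right
  have hKS : K ∪ S = insert u A := by
    rw [hKdef, sdiff_union_of_subset hSu]
  have hdKS : Disjoint K S := sdiff_disjoint
  have hYT : Y \ (T0 ∪ L') = insert u A := by
    have h1 : Y \ (T0 ∪ L') = (Y \ T0) \ L' := by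
      ext v
      rw [mem_sdiff, mem_sdiff, mem_sdiff, mem_union, not_or, and_assoc]
    rw [h1, ← h.UY, hUe, union_sdiff_left]
    refine sdiff_eq_self_of_disjoint ?_
    rw [disjoint_insert_left]
    exact ⟨huL', hL'A.symm⟩
  have hTY : T0 ∪ L' ⊆ Y :=
    union_subset h.T0_sub ((erase_subset _ _).trans (subset_union_left.trans h.U_sub))
  have huU : insert u A ⊆ L ∪ A := insert_subset (mem_union_left A huL) subset_union_right
  -- masses
  set μ := push m A with hμ
  set o := pom μ L u with ho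
  have hμ0 : ∀ D, 0 ≤ μ D := push_nonneg h.pos.1 A
  have ho0 : 0 ≤ o := pom_nonneg hμ0 u
  have hpalL : pal μ L = pal m (L ∪ A) := pal_push h.dL
  have hpalu : μ {u} + μ ∅ = pal m (insert u A) := by
    have h1 : pal μ {u} = pal m ({u} ∪ A) := pal_push (disjoint_singleton_left.2 huA)
    have h2 : pal μ {u} = μ {u} + μ ∅ := by
      unfold pal
      rw [show ({u} : Finset V).powerset = {∅, {u}} from rfl, sum_pair (singleton_ne_empty u).symm,
        add_comm]
    rw [← h2, h1, ← insert_eq]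
  have hpaμ : ∀ v ∈ L, pa μ L v = pa m (L ∪ A) v := fun v hv =>
    pa_push m h.dL (disjoint_left.1 h.dL hv)
  have hsum1 : ∑ v ∈ L', pa m (L ∪ A) v = pal m (L ∪ A) - pal m (insert u A) + o := by
    have h1 := sum_pa (m := μ) (K := L)
    have h2 := pa_add_pom (m := μ) huL
    have h3 := sum_erase_add L (fun v => pa μ L v) huL
    have h4 : ∑ v ∈ L', pa m (L ∪ A) v = ∑ v ∈ L.erase u, pa μ L v :=
      sum_congr rfl fun v hv => (hpaμ v (mem_of_mem_erase hv)).symm
    rw [h4]
    linarith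
  have hL'c : (L'.card : ℝ) = νk := by
    rw [hL', card_erase_of_mem huL, h.Lc, Nat.add_sub_cancel]
  set ΓM := ∑ v ∈ T0, ((M v).card : ℝ) with hΓM
  have hsumM : ∑ v ∈ T0 ∪ L', ((M v).card : ℝ) ≤ ΓM + ((νk : ℝ) * p -
      (pal m (L ∪ A) - pal m (insert u A) + o)) := by
    rw [sum_union (h.dT.mono_right ((erase_subset _ _).trans subset_union_left)), ← hsum1]
    have h1 : ∑ v ∈ L', ((M v).card : ℝ) ≤ ∑ v ∈ L', ((p : ℝ) - pa m (L ∪ A) v) :=
      sum_le_sum fun v hv => by linarith [h.paL (mem_of_mem_erase hv)]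
    rw [sum_sub_distrib, sum_const, nsmul_eq_mul, hL'c] at h1
    linarith
  set Q0 := pal m (insert u A) - ((t : ℝ) - 1) * P with hQ0
  set Z := 1 + X + (G - ΓM) + o with hZ
  have hOG := h.OG
  rw [← hΓM] at hOG
  have hQ : Z + ∑ v ∈ T0 ∪ L', ((M v).card : ℝ) ≤ Q0 := by
    have h1 := h.palU
    linarith
  have hX0 := h.X0
  have hO0 := h.O0
  have hZ0 : 0 < Z := by linarith
  have hTM0 : 0 ≤ ∑ v ∈ T0 ∪ L', ((M v).card : ℝ) := sum_nonneg fun _ _ => Nat.cast_nonneg _
  have hDZ : D * (1 + o / p) ≤ Z := by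
    have h1 : D * (o / p) ≤ o := by
      rw [mul_div_assoc', div_le_iff₀ hp0]
      have := mul_le_mul_of_nonneg_right h.Dp ho0
      linarith
    have h2 := h.D1
    linarith
  have hD'0 : 0 ≤ D * (1 + o / p) := mul_nonneg h.D0 (by positivity)
  have hpm' : PosM (push m S) := h.pos.push S
  have hF : 0 ≤ Ival (push m S) K := (Ival_pos hpm' K).le
  have hP1 : 0 < (P : ℝ) ^ (t - 1) := pow_pos (by linarith) _
  have hc1 : ∀ j ∈ K, P ≤ c (Y \ insert j S) + (((T0 ∪ L') ∪ K.erase j).biUnion M).card :=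
    fun j hj => h.c1T hS hSd hL'K' hL'K hj
  have hdTK : Disjoint (T0 ∪ L') K := by
    refine disjoint_union_left.2 ⟨h.dT.mono_right (hKU.trans sdiff_subset), hL'K⟩
  have hSK := h.SK_ge hS hSd hKU
  rcases le_total Z P with hZP | hZP
  · have hlb := last_block (F := F) (W := W) (Y := Y) (T := T0 ∪ L') (K := K) (S := S) (B := B)
      (M := M) (c := c) (m := m) (q := P) h.ind h.YW h.pos
      (fun D hD => h.m_eq D (by
        rw [hYT] at hD
        exact hD.trans huU)) hTY (by rw [hYT, ← hKS]; exact subset_union_left)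
      (by rw [hYT, hKdef, Finset.sdiff_sdiff_eq_self hSu]) (r := t) h.t1 hKc
      (by
        have h1 := h.q2
        have h2 := h.qp
        have h3 := h.pP
        omega)
      (fun v hv _ => h.colW v hv) h.Bc h.MB
      (fun j hj => h.c1S hS hSd (hKU hj))
      (by
        refine h.c2 _ sdiff_subset ?_
        rw [card_sdiff_of_subset (hS.trans h.U_sub), hSd, h.Yc]
        omega)
      (Q1 := Z) (D := D * (1 + o / p)) hDZ hZ0 hZP
      (by
        rw [show ((Und F W (T0 ∪ L')).card : ℝ) = pal m (insert u A) by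
          rw [h.pal_eq huU, ← hYT, Finset.sdiff_sdiff_eq_self hTY]]
        exact hQ)
    rw [mul_assoc] at hlb
    exact hlb
  · have hpal : pal (push m S) K - ((K.card : ℝ) - 2) * P = Q0 := by
      rw [pal_push hdKS, hKS, hKc, hQ0]
      push_cast
      ring
    have hUS : L ∪ A = (L' ∪ K) ∪ S := by
      rw [hL'K', sdiff_union_of_subset hS]
    have hv := vstar_col (m := push m S) (T := T0 ∪ L') (K := K) (M := M) (q := P) hpm'
      (by rw [hKc]; have := h.t1; omega) hdTK
      (by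
        have h1 := h.pP
        omega) h.Bc h.MB
      (by
        intro v hv
        have h1 := h.paA (mem_sdiff.1 (hKU hv)).1
        have h2 : pa (push m S) K v ≤ pa m (L ∪ A) v := by
          rw [pa_push m hdKS (disjoint_left.1 hdKS hv)]
          refine pa_mono h.pos.1 ?_ v
          rw [hUS]
          exact union_subset_union_left subset_union_right
        linarith)
      hc1 (Q1 := (P : ℝ)) (by linarith) le_rfl (by rw [hpal]; linarith)
    rw [hpal, hKc, show t + 1 - 2 = t - 1 by omega] at hv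
    set Sg := ∑ j ∈ K, (c (Y \ insert j S) : ℝ) / (push m S {j} + push m S ∅) with hSg
    have hSg0 : 0 ≤ Sg := sum_nonneg fun j _ => div_nonneg (Nat.cast_nonneg _)
      (add_nonneg (hpm'.1 _) (hpm'.1 _))
    set Φ := (P : ℝ) ^ (t - 1) * Ival (push m S) K with hΦ
    have hΦ0 : 0 ≤ Φ := mul_nonneg hP1.le hF
    have h1 : D * (1 + o / p) * Φ ≤ Q0 * Φ :=
      mul_le_mul_of_nonneg_right (hDZ.trans (by linarith)) hΦ0
    have h2 : 0 ≤ Q0 * Φ := (mul_nonneg hD'0 hΦ0).trans h1
    have h3 : 2 * (Q0 * Φ) ≤ P * (Q0 * Φ) := mul_le_mul_of_nonneg_right (by linarith) h2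
    have h4 : (P : ℝ) * Q0 * Φ = P * (Q0 * Φ) := by ring
    rw [h4] at hv
    linarith

/-- the inequality for the sets `S` which contain a low -/
theorem OL.low (h : OL F W Y T0 L A m M B c p q P νk t d X O G D) (hS : S ⊆ L ∪ A)
    (hSd : S.card = d) (hSA : ¬ S ⊆ A) {κ : ℝ} (hκ : 1 ≤ κ) :
    D * (q : ℝ) ^ ((νk - 1) + (t - 1)) * brkS m L A S p ≤ κ * (p : ℝ) ^ νk * SK F W Y c S := by
  have hpr : (2 : ℝ) ≤ p := by exact_mod_cast h.q2.trans h.qp
  have hPr : (p : ℝ) + 1 ≤ P := by exact_mod_cast h.pP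
  have hqr : (2 : ℝ) ≤ q := by exact_mod_cast h.q2
  have hqp : (q : ℝ) ≤ p := by exact_mod_cast h.qp
  have hp0 : (0 : ℝ) < p := by linarith
  have hSK := h.SK_one hS hSd
  have hpν : 0 < (p : ℝ) ^ νk := pow_pos hp0 _
  have hR : (p : ℝ) ^ νk * SK F W Y c S ≤ κ * (p : ℝ) ^ νk * SK F W Y c S := by
    have h1 : 0 ≤ (p : ℝ) ^ νk * SK F W Y c S := mul_nonneg hpν.le (by linarith)
    nlinarith
  refine le_trans ?_ hR
  have hbr : brkS m L A S p = ∑ u ∈ L, (1 + pom (push m A) L u / p) *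
      (p * (if S ⊆ insert u A then Ival (push m S) (insert u A \ S) else 0)) := by
    unfold brkS
    rw [if_neg hSA, mul_zero, zero_add]
    exact sum_congr rfl fun u _ => by rw [sub_zero]
  by_cases hex : ∃ u ∈ L, S ⊆ insert u A
  · obtain ⟨u, huL, hSu⟩ := hex
    have huA : u ∉ A := disjoint_left.1 h.dL huL
    have huS : u ∈ S := by
      by_contra h1
      apply hSA
      intro v hv
      rcases mem_insert.1 (hSu hv) with h2 | h2
      · exact absurd (h2 ▸ hv) h1
      · exact h2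
    have hsing : brkS m L A S p = (1 + pom (push m A) L u / p) *
        (p * Ival (push m S) (insert u A \ S)) := by
      rw [hbr, sum_eq_single_of_mem u huL, if_pos hSu]
      intro v hv hvu
      rw [if_neg, mul_zero, mul_zero]
      intro h1
      rcases mem_insert.1 (h1 huS) with h2 | h2
      · exact hvu h2.symm
      · exact huA h2
    have hl := h.low_one hS hSd huL huS hSu
    rw [hsing]
    set F' := Ival (push m S) (insert u A \ S) with hF'
    have hF0 : 0 ≤ F' := (Ival_pos (h.pos.push S) _).le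
    set o := pom (push m A) L u with ho
    have ho0 : 0 ≤ o := pom_nonneg (push_nonneg h.pos.1 A) u
    have hD'0 : 0 ≤ D * (1 + o / p) := mul_nonneg h.D0 (by positivity)
    have e1 : (q : ℝ) ^ (νk - 1) ≤ (p : ℝ) ^ (νk - 1) := pow_le_pow_left₀ (by linarith) hqp _
    have e2 : (q : ℝ) ^ (t - 1) ≤ (P : ℝ) ^ (t - 1) := pow_le_pow_left₀ (by linarith) (by linarith) _
    have e3 : (q : ℝ) ^ (νk - 1) * (q : ℝ) ^ (t - 1) ≤ (p : ℝ) ^ (νk - 1) * (P : ℝ) ^ (t - 1) :=
      mul_le_mul e1 e2 (by positivity) (by positivity)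
    have e4 : (p : ℝ) ^ νk = (p : ℝ) ^ (νk - 1) * p := by
      rw [← pow_succ]
      congr 1
      have := h.ν1
      omega
    calc D * (q : ℝ) ^ ((νk - 1) + (t - 1)) * ((1 + o / p) * (p * F'))
        = ((q : ℝ) ^ (νk - 1) * (q : ℝ) ^ (t - 1)) * (D * (1 + o / p) * p * F') := by
          rw [pow_add]
          ring
      _ ≤ ((p : ℝ) ^ (νk - 1) * (P : ℝ) ^ (t - 1)) * (D * (1 + o / p) * p * F') :=
          mul_le_mul_of_nonneg_right e3 (mul_nonneg (mul_nonneg hD'0 hp0.le) hF0)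
      _ = (p : ℝ) ^ νk * (D * (1 + o / p) * ((P : ℝ) ^ (t - 1) * F')) := by
          rw [e4]
          ring
      _ ≤ _ := mul_le_mul_of_nonneg_left hl hpν.le
  · have h0 : brkS m L A S p = 0 := by
      rw [hbr]
      refine sum_eq_zero fun u hu => ?_
      rw [if_neg fun h1 => hex ⟨u, hu, h1⟩, mul_zero, mul_zero]
    rw [h0, mul_zero]
    exact mul_nonneg hpν.le (by linarith)

end

section

variable {V β : Type} [DecidableEq V] [DecidableEq β] [Fintype V] {F : SimpleGraph V}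
  {W Y : Finset V} {X : ℕ → Finset V} {lev : V → ℕ} {P ν : ℕ → ℕ} {l n k : ℕ}

/-- the local inequality for the linear statistic, one low level in the last block, one low element
more than slots: reduction to an inequality for every set of `d` tops -/
theorem mixed_ol (h : Lv F W Y X lev) (hP : ∀ j, 0 < P j) (hm : ∀ j, P j < P (j + 1))
    (hcap : Cp F W Y lev P l) (hν : ∀ i, i ≤ l → 1 ≤ ν i)
    (hXc : ∀ j, j < l → ((X j).card : ℝ) = Ss P ν j - P j + 1)
    (hWc : (W.card : ℝ) = Ss P ν l - P l + 1) {d : ℕ}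
    (hY : Y.card = Nn ν l + (d + 1))
    (hkl : l = k + 1) (hk : k = 0 ∨ xY Y lev ν (k - 1) = 0) (hxk : xY Y lev ν k = 1)
    (hP2 : 2 ≤ P 0) (hpend : NoPend F W)
    {B : Finset β} {M : V → Finset β} {c : Finset V → ℕ}
    (hB : B.card = P l) (hMB : ∀ v, M v ⊆ B)
    (hcol : ∀ v ∈ W, (cn F v ∩ W).card + (M v).card ≤ P (lev v))
    (hc1 : ∀ K ⊆ Y, K.card = Nn ν l → P l ≤ c K + (K.biUnion M).card)
    (hc2 : ∀ K ⊆ Y, K.card = Nn ν l + 1 → 1 ≤ c K) {κ : ℝ} (hκ : 1 ≤ κ)
    (hcore : ∀ (T0 L A : Finset V) (m : Finset V → ℝ) (X' O G D : ℝ),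
      OL F W Y T0 L A m M B c (P k) (P 0) (P l) (ν k) (ν l) d X' O G D →
      ∀ S ⊆ A, S.card = d →
      D * (P 0 : ℝ) ^ ((ν k - 1) + (ν l - 1)) * brkS m L A S (P k) ≤
        κ * (P k : ℝ) ^ ν k * SK F W Y c S) :
    ((P 0 : ℝ) ^ (∑ i ∈ range (l + 1), (ν i - 1)) * ∏ i ∈ range l, (P i : ℝ)) *
        ∑ s ∈ univ.filter (fun s : V ≃ Fin n => gr F W s = Y),
          RL F X (fun _ => 1) (fun j => (P j : ℝ)) s l ≤
      (Fintype.card (V ≃ Fin n) : ℝ) * (κ * CapT F W (fun K => (c K : ℝ)) Y) := by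
  have hmono : ∀ a b, a ≤ b → P a ≤ P b := fun a b h =>
    monotone_nat_of_le_succ (fun j => (hm j).le) h
  refine mixed_lin1 h hP hm hcap hν hXc hY hkl hk hxk hcol (by linarith) ?_
  intro hx hTc hLc hAc hO0 hOGT hG0 D hD0 hD1 hDP m hpm hm0 hmY hext S hSU hSd
  set T0 := Kl Y lev k with hT0def
  set L := Bl Y lev k l with hLdef
  set A := Bl Y lev l (l + 1) with hAdef
  have hLA : L ∪ A = Bl Y lev k (l + 1) := by
    ext v
    rw [mem_union, hLdef, hAdef, mem_Bl, mem_Bl, mem_Bl]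
    constructor
    · rintro (h1 | h1)
      · exact ⟨h1.1, h1.2.1, by omega⟩
      · exact ⟨h1.1, by omega, h1.2.2⟩
    · rintro ⟨h1, h2, h3⟩
      rcases Nat.lt_or_ge (lev v) l with h4 | h4
      · exact Or.inl ⟨h1, h2, h4⟩
      · exact Or.inr ⟨h1, h4, h3⟩
  have hdLA : Disjoint L A := by
    rw [disjoint_left]
    intro v hv hv'
    rw [hLdef, mem_Bl] at hv
    rw [hAdef, mem_Bl] at hv'
    omega
  rw [← hLA] at hmY hext hSU
  have hYe : T0 ∪ (L ∪ A) = Y := by
    rw [hLA, hT0def, Kl_union (by omega)]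
    unfold Kl
    rw [filter_true_of_mem]
    intro v hv
    have := hcap.le v (h.Y_sub hv)
    omega
  have hdT : Disjoint T0 (L ∪ A) := by
    rw [hLA]
    exact Kl_disj
  have hUY : L ∪ A ⊆ Y := by
    rw [← hYe]
    exact subset_union_right
  have hAY : A ⊆ Y := subset_union_right.trans hUY
  -- the masses seen by the whole block
  have hTU : T0 = Y \ (L ∪ A) := by
    rw [← hYe, union_sdiff_right, sdiff_eq_self_of_disjoint hdT]
  have hpE : ∀ E ⊆ L ∪ A, pal m E = ((Und F W (Y \ E)).card : ℝ) := by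
    intro E hE
    rw [← pal_mY (F := F) (W := W) (hE.trans hUY)]
    unfold pal
    exact sum_congr rfl fun D hD => hmY D ((mem_powerset.1 hD).trans hE)
  have hpU : pal m (L ∪ A) = ((Und F W T0).card : ℝ) := by
    rw [hpE _ Subset.rfl, ← hTU]
  -- no pendants
  have hCN : CN F T0 ∩ W = CN F T0 := by
    rw [inter_eq_left]
    intro v hv
    rw [mem_CN] at hv
    obtain ⟨z, hz, h1⟩ := hv
    rcases h1 with h1 | h1
    · rw [h1]
      exact h.Y_sub (mem_Kl.1 hz).1
    · exact hpend v z h1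
  have hxk' : ∀ j, j < k → Nn ν j ≤ (Kl Y lev (j + 1)).card := fun j hj => hx j (by omega)
  have hGp := Gp_eq (F := F) (P := P) (Y := Y) (lev := lev) (ν := ν) (i := k) hxk'
  have hcz := cap_zero (P := P) hx (show k ≤ l by omega) hk
  rw [← hT0def] at hGp hcz
  set Xk := Xs P (xY Y lev ν) k with hXk
  set Gk := Gp P ν (xY Y lev ν) (CY F Y lev) k with hGk
  have hX0 : 0 ≤ Xk := Xs_nonneg hm k
  have hGT : GT F W lev P T0 = Gk := by
    unfold GT
    rw [hCN, hGp]
  have hpalU : pal m (L ∪ A) = (ν k : ℝ) * P k + ((ν l : ℝ) - 1) * P l + 1 + Xk + Gk := by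
    have h1 : Ss P ν l = ∑ j ∈ range k, (ν j : ℝ) * P j + (ν k : ℝ) * P k + (ν l : ℝ) * P l := by
      unfold Ss
      rw [sum_range_succ]
      have h2 : ∑ j ∈ range l, (ν j : ℝ) * P j =
          ∑ j ∈ range k, (ν j : ℝ) * P j + (ν k : ℝ) * P k := by
        rw [hkl, sum_range_succ]
      rw [h2]
    rw [hpU, card_Und, hWc, hCN, h1]
    linarith
  have hXint : ∃ z : ℤ, Xk = z := ⟨∑ m ∈ range k, (xY Y lev ν m : ℤ) * ((P (m + 1) : ℤ) - P m), by
    rw [hXk]
    unfold Xs
    push_cast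
    rfl⟩
  have hGint : ∃ z : ℤ, Gk = z := ⟨∑ k ∈ T0, (P (lev k) : ℤ) - ((CN F T0).card : ℤ), by
    rw [hGp]
    push_cast
    rfl⟩
  have hext' : ((ν k : ℝ) - 1) * P k + Xk + Gk + 1 ≤ pal m (L ∪ A) - pal m A := by
    refine int_le_of_lt ?_ ?_ hext
    · obtain ⟨z1, h1⟩ := hXint
      obtain ⟨z2, h2⟩ := hGint
      refine ⟨((ν k : ℤ) - 1) * P k + z1 + z2, ?_⟩
      rw [h1, h2]
      push_cast
      ring
    · refine ⟨((Und F W T0).card : ℤ) - ((Und F W (Y \ A)).card : ℤ), ?_⟩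
      rw [hpU, hpE A subset_union_right]
      push_cast
      ring
  have hol : OL F W Y T0 L A m M B c (P k) (P 0) (P l) (ν k) (ν l) d Xk (OT F W T0) Gk D :=
    { ind := h.indep
      YW := h.Y_sub
      dT := hdT
      dL := hdLA
      Y_eq := hYe
      pos := hpm
      base := hm0
      m_eq := hmY
      Lc := hLc
      Ac := hAc
      ν1 := hν k (by omega)
      t1 := hν l le_rfl
      colW := fun v hv => (hcol v hv).trans (hmono _ _ (hcap.le v hv))
      colL := by
        intro v hv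
        rw [hLdef, mem_Bl] at hv
        have h1 := hcol v (h.Y_sub hv.1)
        have h2 : lev v = k := by omega
        rwa [h2] at h1
      Bc := hB
      MB := hMB
      c1 := fun K hK hKc => hc1 K hK (by omega)
      c2 := fun K hK hKc => hc2 K hK (by omega)
      palU := hpalU
      X0 := hX0
      O0 := hO0
      OG := by
        rw [← hGT]
        exact hOGT
      D0 := hD0
      D1 := hD1
      Dp := hDP
      ext := hext'
      q2 := hP2
      qp := hmono 0 k (Nat.zero_le k)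
      pP := by
        rw [hkl]
        exact hm k
      k0 := by
        rcases Nat.eq_zero_or_pos k with h0 | h0
        · left
          have h1 : T0 = ∅ := by rw [hT0def, h0, Kl_zero]
          refine ⟨h1, ?_, ?_, ?_, ?_⟩
          · rw [hXk, h0, Xs_zero]
          · unfold OT
            rw [h1, sum_empty, CN_empty]
            simp
          · rw [hGk, h0]
            rfl
          · rw [h0]
        · right
          have h1 : P 0 < P 1 := hm 0
          have h2 := hmono 1 k h0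
          omega
      XO := by
        obtain ⟨z, hz⟩ := hXint
        refine ⟨z + (∑ k ∈ T0, ((cn F k ∩ W).card : ℤ) - ((CN F T0 ∩ W).card : ℤ)), ?_⟩
        rw [hz]
        unfold OT
        push_cast
        ring }
  have hIco : ∑ j ∈ Ico k (l + 1), (ν j - 1) = (ν k - 1) + (ν l - 1) := by
    rw [hkl, sum_Ico_succ_top (by omega), sum_Ico_succ_top (by omega), Ico_self, sum_empty,
      zero_add]
  rw [hIco]
  change D * (P 0 : ℝ) ^ ((ν k - 1) + (ν l - 1)) * brkS m L A S (P k) ≤ _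
  by_cases hSA : S ⊆ A
  · exact hcore T0 L A m Xk (OT F W T0) Gk D hol S hSA hSd
  · exact hol.low hSU hSd hSA hκ

end

end MP76b19e.Rob
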