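import Pool.Agent.Lib.MP76b19e.Rob.PtPlus
import Pool.Agent.Lib.MP76b19e.Rob.TopB

/-!
# The product potential, preparations (problem MP_76b19e_co)

`n` = masses of the lows `Λ` (caps one), `y + 1 ≤ pQ n Λ`.
`pom_low`: `pom n Λ l ≤ n {l} + n ∅ - y`. `y_ph_le`: `y * ph n Λ ≤ 2 (1 + n ∅)` for `y ≤ 1`.
`ph_mono`: if mass is removed from the lows (`n' ≤ n`) then `y' * ph n' Λ ≤ y * ph n Λ` with
`y' = y - (pal n Λ - pal n' Λ)`, `y ≤ 2`.
-/

set_option autoImplicit false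

open Finset

namespace MP76b19e.Rob

variable {V : Type} [DecidableEq V] {n n' : Finset V → ℝ} {Λ : Finset V}

theorem sub_pa_le_sum (ha : ∀ l ∈ Λ, pa n Λ l ≤ 1) {l : V} (hl : l ∈ Λ) :
    1 - pa n Λ l ≤ ∑ k ∈ Λ, (1 - pa n Λ k) :=
  single_le_sum (f := fun k => 1 - pa n Λ k) (fun k hk => by have := ha k hk; linarith) hl

/-- overlaps without a low element -/
theorem pom_low {y : ℝ} (ha : ∀ l ∈ Λ, pa n Λ l ≤ 1) (hy : y + 1 ≤ pQ n Λ) {l : V} (hl : l ∈ Λ) :
    pom n Λ l ≤ n {l} + n ∅ - y := by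
  have h1 := pa_add_pom (m := n) hl
  have h2 := sum_one_sub_pa (m := n) (K := Λ)
  have h3 := sub_pa_le_sum ha hl
  linarith

theorem y_ph_le (h : PosM n) {y : ℝ} (ha : ∀ l ∈ Λ, pa n Λ l ≤ 1) (hy : y + 1 ≤ pQ n Λ)
    (hy0 : 0 < y) (hy1 : y ≤ 1) : y * ph n Λ ≤ 2 * (1 + n ∅) := by
  have hc0 : 0 ≤ n ∅ := h.1 ∅
  have h1 : y * ∑ l ∈ Λ, (1 + pom n Λ l) * pg n l ≤ ∑ l ∈ Λ, (1 - n {l}) := by
    rw [mul_sum]
    refine sum_le_sum fun l hl => ?_
    have h2 := pom_low ha hy hl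
    have h3 := pom_nonneg (K := Λ) h.1 l
    have h4 := pg_nonneg h hl (ha l hl)
    have h5 := pg_mul h l
    have h6 : y * (1 + pom n Λ l) ≤ n {l} + n ∅ := by nlinarith
    calc y * ((1 + pom n Λ l) * pg n l) = (y * (1 + pom n Λ l)) * pg n l := by ring
      _ ≤ (n {l} + n ∅) * pg n l := mul_le_mul_of_nonneg_right h6 h4
      _ = 1 - n {l} := by rw [mul_comm, h5]
  have h2 := sum_one_sub_m (m := n) (K := Λ)
  have h3 := po_eq (m := n) (K := Λ)
  have h4 := sum_one_sub_pa (m := n) (K := Λ)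
  have h5 : 0 ≤ ∑ k ∈ Λ, (1 - pa n Λ k) := sum_nonneg fun k hk => by
    have := ha k hk
    linarith
  have h6 := pt_nonneg (K := Λ) h.1
  have h7 : y * pt n Λ ≤ pt n Λ := by nlinarith
  unfold ph
  nlinarith

theorem pt_mono (hn : ∀ D ⊆ Λ, n' D ≤ n D) : pt n' Λ ≤ pt n Λ :=
  sum_le_sum fun D hD => mul_le_mul_of_nonneg_left (hn D (mem_powerset.1 hD)) (Nat.cast_nonneg _)

theorem pom_mono (hn : ∀ D ⊆ Λ, n' D ≤ n D) (l : V) : pom n' Λ l ≤ pom n Λ l :=
  sum_le_sum fun D hD => mul_le_mul_of_nonneg_left (hn D (mem_powerset.1 hD)) (Nat.cast_nonneg _)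

theorem pa_mono_mass (hn : ∀ D ⊆ Λ, n' D ≤ n D) (l : V) : pa n' Λ l ≤ pa n Λ l := by
  refine sum_le_sum fun D hD => ?_
  split_ifs
  · exact hn D (mem_powerset.1 hD)
  · exact le_rfl

/-- the masses removed from the single elements -/
theorem sum_single_le (hn : ∀ D ⊆ Λ, n' D ≤ n D) :
    ∑ l ∈ Λ, (n {l} - n' {l}) ≤ pal n Λ - pal n' Λ := by
  unfold pal
  rw [← sum_sub_distrib]
  have h1 : ∑ l ∈ Λ, (n {l} - n' {l}) = ∑ D ∈ Λ.image (fun l => ({l} : Finset V)), (n D - n' D) := by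
    rw [sum_image]
    intro a _ b _ hab
    exact singleton_injective hab
  rw [h1]
  refine sum_le_sum_of_subset_of_nonneg ?_ fun D hD _ => ?_
  · intro D hD
    rw [mem_image] at hD
    obtain ⟨l, hl, rfl⟩ := hD
    exact mem_powerset.2 (singleton_subset_iff.2 hl)
  · have := hn D (mem_powerset.1 hD)
    linarith

theorem single_sub_le (hn : ∀ D ⊆ Λ, n' D ≤ n D) {l : V} (hl : l ∈ Λ) :
    n {l} - n' {l} ≤ pal n Λ - pal n' Λ := by
  refine le_trans ?_ (sum_single_le hn)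
  exact single_le_sum (f := fun l => n {l} - n' {l}) (fun k hk => by
    have := hn {k} (singleton_subset_iff.2 hk)
    linarith) hl

/-- the scalar inequality -/
theorem pp_scal {P v v' y y' c : ℝ} (hv1 : v ≤ 1 + c) (hy' : 0 < y') (hy2 : y ≤ 2)
    (hP1 : 1 ≤ P) (hP : P ≤ 1 + (v - y)) (hv : y ≤ v) (hyy : y' ≤ y) (hv' : v - y + y' ≤ v') :
    P * (1 + c) * y' ≤ v' * (2 * v + P * (1 + c - v)) := by
  have hv0 : 0 < v := by linarith
  have h1 : 0 ≤ 2 * v + P * (1 + c - v) := by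
    have : 0 ≤ P * (1 + c - v) := mul_nonneg (by linarith) (by linarith)
    linarith
  have h2 : (v - y + y') * (2 * v + P * (1 + c - v)) ≤ v' * (2 * v + P * (1 + c - v)) :=
    mul_le_mul_of_nonneg_right hv' h1
  refine le_trans ?_ h2
  have hs : 0 ≤ v - y := by linarith
  have hPc : 0 ≤ P * (1 + c - v) := mul_nonneg (by linarith) (by linarith)
  rcases le_total P 2 with h3 | h3
  · have h4 : 0 ≤ y' * v * (2 - P) := mul_nonneg (mul_nonneg hy'.le hv0.le) (by linarith)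
    have h5 : 0 ≤ (v - y) * (2 * v + P * (1 + c - v)) := mul_nonneg hs h1
    nlinarith
  · -- `P > 2`
    have h4 : y' * v * (P - 2) ≤ y * v * (P - 2) :=
      mul_le_mul_of_nonneg_right (mul_le_mul_of_nonneg_right hyy hv0.le) (by linarith)
    have h5 : y * (P - 2) ≤ 2 * (v - y) := by
      have h6 : y * (P - 2) ≤ 2 * (P - 2) := mul_le_mul_of_nonneg_right hy2 (by linarith)
      linarith
    have h6 : y * v * (P - 2) ≤ 2 * (v - y) * v := by nlinarith
    have h7 : 0 ≤ (v - y) * (P * (1 + c - v)) := mul_nonneg hs hPc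
    nlinarith

theorem two_add_le_ph (h : PosM n) (ha : ∀ l ∈ Λ, pa n Λ l ≤ 1) {l : V} (hl : l ∈ Λ) :
    2 + (1 + pom n Λ l) * pg n l ≤ ph n Λ := by
  unfold ph
  have h1 := pt_nonneg (K := Λ) h.1
  have h2 : (1 + pom n Λ l) * pg n l ≤ ∑ k ∈ Λ, (1 + pom n Λ k) * pg n k :=
    single_le_sum (f := fun k => (1 + pom n Λ k) * pg n k) (fun k hk => mul_nonneg
      (by linarith [pom_nonneg (K := Λ) h.1 k]) (pg_nonneg h hk (ha k hk))) hl
  linarith

/-- removing mass from the lows -/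
theorem ph_mono (h : PosM n) (h' : PosM n') (hn : ∀ D ⊆ Λ, n' D ≤ n D) (h0 : n' ∅ = n ∅)
    (ha : ∀ l ∈ Λ, pa n Λ l ≤ 1) {y y' : ℝ} (hy : y + 1 ≤ pQ n Λ) (hy2 : y ≤ 2)
    (hyy : y' = y - (pal n Λ - pal n' Λ)) (hy' : 0 < y') : y' * ph n' Λ ≤ y * ph n Λ := by
  have hc0 : 0 ≤ n ∅ := h.1 ∅
  have ha' : ∀ l ∈ Λ, pa n' Λ l ≤ 1 := fun l hl => (pa_mono_mass hn l).trans (ha l hl)
  have hX : 0 ≤ pal n Λ - pal n' Λ := by
    have : pal n' Λ ≤ pal n Λ := sum_le_sum fun D hD => hn D (mem_powerset.1 hD)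
    linarith
  have hph0 : 0 ≤ ph n Λ := by
    unfold ph
    have h1 := pt_nonneg (K := Λ) h.1
    have h2 : 0 ≤ ∑ k ∈ Λ, (1 + pom n Λ k) * pg n k := sum_nonneg fun k hk =>
      mul_nonneg (by linarith [pom_nonneg (K := Λ) h.1 k]) (pg_nonneg h hk (ha k hk))
    linarith
  -- termwise
  have hterm : ∀ l ∈ Λ, y' * ((1 + pom n' Λ l) * pg n' l) ≤
      y' * ((1 + pom n Λ l) * pg n l) + (n {l} - n' {l}) * ph n Λ := by
    intro l hl
    have hpl := pom_low ha hy hl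
    have hp0 := pom_nonneg (K := Λ) h.1 l
    have hw' : 0 < n' {l} + n ∅ := by
      have := h'.2 l
      linarith
    have hw : 0 < n {l} + n ∅ := by
      have := h.2 l
      linarith
    have hx0 : 0 ≤ n {l} - n' {l} := by
      have := hn {l} (singleton_subset_iff.2 hl)
      linarith
    have hx1 := single_sub_le hn hl
    have hwle := (le_pa (K := Λ) h.1 hl).trans (ha l hl)
    have h1 : y' * ((1 + pom n' Λ l) * pg n' l) ≤ y' * ((1 + pom n Λ l) * pg n' l) :=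
      mul_le_mul_of_nonneg_left (mul_le_mul_of_nonneg_right
        (by linarith [pom_mono hn l]) (pg_nonneg h' hl (ha' l hl))) hy'.le
    refine h1.trans ?_
    -- the difference of the two quotients
    have h2 : pg n' l - pg n l = (1 + n ∅) * (n {l} - n' {l}) /
        ((n' {l} + n ∅) * (n {l} + n ∅)) := by
      unfold pg
      rw [h0, div_sub_div _ _ hw'.ne' hw.ne']
      congr 1
      ring
    have h3 := pp_scal (P := 1 + pom n Λ l) (v := n {l} + n ∅) (v' := n' {l} + n ∅) (y := y)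
      (y' := y') (c := n ∅) (by linarith) hy' hy2 (by linarith) (by linarith) (by linarith)
      (by linarith) (by linarith)
    have h4 : 2 * (n {l} + n ∅) + (1 + pom n Λ l) * (1 + n ∅ - (n {l} + n ∅)) ≤
        (n {l} + n ∅) * ph n Λ := by
      have h5 := two_add_le_ph h ha hl
      have h6 := mul_le_mul_of_nonneg_left h5 hw.le
      have h7 := pg_mul h l
      calc 2 * (n {l} + n ∅) + (1 + pom n Λ l) * (1 + n ∅ - (n {l} + n ∅)) =
            (n {l} + n ∅) * 2 + (1 + pom n Λ l) * (1 - n {l}) := by ring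
        _ = (n {l} + n ∅) * (2 + (1 + pom n Λ l) * pg n l) := by rw [← h7]; ring
        _ ≤ _ := h6
    have h5 : (1 + pom n Λ l) * (1 + n ∅) * y' ≤
        (n' {l} + n ∅) * (n {l} + n ∅) * ph n Λ := by
      have h6 := mul_le_mul_of_nonneg_left h4 hw'.le
      linarith
    have h6 : y' * ((1 + pom n Λ l) * (pg n' l - pg n l)) ≤ (n {l} - n' {l}) * ph n Λ := by
      rw [h2]
      have h7 : y' * ((1 + pom n Λ l) * ((1 + n ∅) * (n {l} - n' {l}) /
          ((n' {l} + n ∅) * (n {l} + n ∅)))) = (n {l} - n' {l}) *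
            ((1 + pom n Λ l) * (1 + n ∅) * y') / ((n' {l} + n ∅) * (n {l} + n ∅)) := by
        field_simp
      rw [h7, div_le_iff₀ (mul_pos hw' hw)]
      have h8 := mul_le_mul_of_nonneg_left h5 hx0
      linarith
    have h7 : y' * ((1 + pom n Λ l) * pg n' l) = y' * ((1 + pom n Λ l) * pg n l) +
        y' * ((1 + pom n Λ l) * (pg n' l - pg n l)) := by ring
    linarith
  have hsum := sum_le_sum hterm
  rw [← mul_sum, sum_add_distrib, ← mul_sum, ← sum_mul] at hsum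
  have h1 := mul_le_mul_of_nonneg_right (sum_single_le hn) hph0
  have h2 := mul_le_mul_of_nonneg_left (pt_mono hn) hy'.le
  have h3 : y * ph n Λ = y' * ph n Λ + (pal n Λ - pal n' Λ) * ph n Λ := by
    rw [hyy]
    ring
  rw [h3]
  have h4 : y' * ph n' Λ = y' * 2 + y' * pt n' Λ + y' * ∑ l ∈ Λ, (1 + pom n' Λ l) * pg n' l := by
    unfold ph
    ring
  have h5 : y' * ph n Λ = y' * 2 + y' * pt n Λ + y' * ∑ l ∈ Λ, (1 + pom n Λ l) * pg n l := by
    unfold ph
    ring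
  rw [h4, h5]
  linarith

end MP76b19e.Rob
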