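import Pool.Agent.Lib.MP76b19e.Rob.PPa

/-!
# The product potential (problem MP_76b19e_co)

`pp`: lows with `pa ≤ 1`, tops with `q ≤ m {t}`, `pa ≤ 1 + H`, `|K \ T| + α - pal m K ≤ 1`,
`(|T| - 1) + (|T| - 2) H + q ≤ α`: `vv m K T α ≤ 2 * G |T|` for every `G` with
`τ G (τ - 1) ≤ D G τ` for all `D ≥ τ q`, `D ≥ (τ - 2) (1 + H) + q` (if `τ ≥ 3`).
-/

set_option autoImplicit false

open Finset

namespace MP76b19e.Rob

variable {V : Type} [DecidableEq V] {m n n' : Finset V → ℝ} {Λ : Finset V}

/-! ### Masses of the lows -/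

/-- the masses seen by the lows -/
noncomputable def lm (m : Finset V → ℝ) (T E : Finset V) : ℝ := if E = ∅ then m ∅ else push m T E

theorem lm_empty (m : Finset V → ℝ) (T : Finset V) : lm m T ∅ = m ∅ := if_pos rfl

theorem lm_ne (m : Finset V → ℝ) (T : Finset V) {E : Finset V} (hE : E ≠ ∅) :
    lm m T E = push m T E := if_neg hE

theorem lm_self (m : Finset V → ℝ) : lm m ∅ = m := by
  funext E
  by_cases hE : E = ∅
  · rw [hE, lm_empty]
  · rw [lm_ne m ∅ hE, push_empty_set]

theorem PosM.lm (h : PosM m) (T : Finset V) : PosM (lm m T) := by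
  constructor
  · intro D
    by_cases hD : D = ∅
    · rw [hD, lm_empty]
      exact h.1 ∅
    · rw [lm_ne m T hD]
      exact push_nonneg h.1 T D
  · intro k
    rw [lm_ne m T (singleton_ne_empty k)]
    exact (h.push T).2 k

theorem pal_lm (m : Finset V → ℝ) {T : Finset V} (hd : Disjoint Λ T) :
    pal (lm m T) Λ = pal m (Λ ∪ T) - pal m T + m ∅ := by
  rw [← pal_push hd]
  have h1 : pal (push m T) Λ = push m T ∅ + ∑ E ∈ Λ.powerset.erase ∅, push m T E := by
    unfold pal
    rw [add_sum_erase _ _ (empty_mem_powerset Λ)]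
  have h2 : pal (lm m T) Λ = m ∅ + ∑ E ∈ Λ.powerset.erase ∅, push m T E := by
    unfold pal
    rw [← add_sum_erase _ _ (empty_mem_powerset Λ), lm_empty]
    congr 1
    exact sum_congr rfl fun E hE => lm_ne m T (mem_erase.1 hE).1
  rw [h1, h2, push_base]
  ring

theorem pa_lm (m : Finset V → ℝ) {T : Finset V} (hd : Disjoint Λ T) {l : V} (hl : l ∈ Λ) :
    pa (lm m T) Λ l = pa m (Λ ∪ T) l := by
  have hlT : l ∉ T := fun h1 => disjoint_left.1 hd hl h1
  have h1 := pal_erase (m := lm m T) (K := Λ) l
  have h2 := pal_erase (m := m) (K := Λ ∪ T) l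
  rw [erase_union_distrib, erase_eq_of_notMem hlT] at h2
  rw [pal_lm m hd, pal_lm m (hd.mono_left (erase_subset _ _))] at h1
  linarith

theorem lm_mono (h : ∀ D, 0 ≤ m D) {T T' : Finset V} (hT : T' ⊆ T) (E : Finset V) :
    lm m T' E ≤ lm m T E := by
  by_cases hE : E = ∅
  · rw [hE, lm_empty, lm_empty]
  · rw [lm_ne m T' hE, lm_ne m T hE]
    exact push_mono h hT E

theorem card_mul_le_pal (h : PosM m) {T : Finset V} {q : ℝ} (hq : ∀ t ∈ T, q ≤ m {t}) :
    (T.card : ℝ) * q ≤ pal m T - m ∅ := by
  have h1 : (T.card : ℝ) * q ≤ ∑ t ∈ T, m {t} := by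
    rw [← nsmul_eq_mul]
    exact card_nsmul_le_sum _ _ _ hq
  have h2 := pal_eq (m := m) (K := T)
  have h3 := pN_nonneg (K := T) h.1
  linarith

/-! ### The potential of the lows -/

/-- the potential of the lows -/
noncomputable def JJ (n : Finset V → ℝ) (Λ : Finset V) (y : ℝ) : ℝ :=
  if 2 ≤ Λ.card then y * (1 + y) / pQ n Λ * (ph n Λ / (1 + n ∅)) else
    if Λ.card = 1 then y / pal n Λ else y

theorem JJ_nonneg (h : PosM n) (ha : ∀ l ∈ Λ, pa n Λ l ≤ 1) {y : ℝ} (hy0 : 0 ≤ y)
    (hy : y + 1 ≤ pQ n Λ) : 0 ≤ JJ n Λ y := by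
  unfold JJ
  have hc0 : 0 ≤ n ∅ := h.1 ∅
  split_ifs with h1 h2
  · exact mul_nonneg (div_nonneg (by nlinarith) (by linarith))
      (div_nonneg (ph_nonneg h ha) (by linarith))
  · exact div_nonneg hy0 (sum_nonneg fun D _ => h.1 D)
  · exact hy0

theorem JJ_le_two (h : PosM n) (ha : ∀ l ∈ Λ, pa n Λ l ≤ 1) {y : ℝ} (hy0 : 0 < y) (hy1 : y ≤ 1)
    (hy : y + 1 ≤ pQ n Λ) : JJ n Λ y ≤ 2 := by
  unfold JJ
  have hc0 : 0 ≤ n ∅ := h.1 ∅
  split_ifs with h1 h2
  · have h3 := y_ph_le h ha hy hy0 hy1
    have hQ : 0 < pQ n Λ := by linarith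
    have h4 : y * (1 + y) / pQ n Λ ≤ y := by
      rw [div_le_iff₀ hQ]
      nlinarith
    have h5 : 0 ≤ ph n Λ / (1 + n ∅) := div_nonneg (ph_nonneg h ha) (by linarith)
    calc y * (1 + y) / pQ n Λ * (ph n Λ / (1 + n ∅)) ≤ y * (ph n Λ / (1 + n ∅)) :=
          mul_le_mul_of_nonneg_right h4 h5
      _ = y * ph n Λ / (1 + n ∅) := by ring
      _ ≤ 2 := by
        rw [div_le_iff₀ (by linarith)]
        exact h3
  · have h3 : y ≤ pal n Λ := by
      unfold pQ at hy
      rw [h2] at hy
      push_cast at hy
      linarith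
    have h4 : 0 < pal n Λ := by linarith
    have h5 : y / pal n Λ ≤ 1 := by rw [div_le_one h4]; exact h3
    linarith
  · linarith

/-- the potential of two lows -/
theorem ph_two (h : PosM n) (ha : ∀ l ∈ Λ, pa n Λ l ≤ 1) (hc : Λ.card = 2) :
    (1 + n ∅) * ∑ l ∈ Λ, 1 / (n {l} + n ∅) ≤ ph n Λ := by
  unfold ph
  have h1 := pt_nonneg (K := Λ) h.1
  have h2 : ∀ l ∈ Λ, (1 + n ∅) * (1 / (n {l} + n ∅)) ≤ 1 + (1 + pom n Λ l) * pg n l := by
    intro l hl
    have h3 : 0 < n {l} + n ∅ := add_pos_of_pos_of_nonneg (h.2 l) (h.1 ∅)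
    have h4 := pg_nonneg h hl (ha l hl)
    have h5 := pom_nonneg (K := Λ) h.1 l
    have h6 := pg_mul h l
    rw [mul_one_div, div_le_iff₀ h3]
    have h7 : (1 + (1 + pom n Λ l) * pg n l) * (n {l} + n ∅) =
        (n {l} + n ∅) + (1 + pom n Λ l) * (pg n l * (n {l} + n ∅)) := by ring
    have h8 := (le_pa (K := Λ) h.1 hl).trans (ha l hl)
    rw [h7, h6]
    nlinarith
  have h3 := sum_le_sum h2
  rw [← mul_sum, sum_add_distrib, sum_const, hc, nsmul_eq_mul] at h3
  push_cast at h3
  linarith

theorem pal_single (n : Finset V → ℝ) (l : V) : pal n {l} = n {l} + n ∅ := by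
  unfold pal
  have hp : ({l} : Finset V).powerset = {∅, {l}} := by
    ext D
    rw [mem_powerset, subset_singleton_iff, mem_insert, mem_singleton]
  rw [hp, sum_pair (singleton_ne_empty l).symm, add_comm]

theorem Ival_single (n : Finset V → ℝ) (l : V) : Ival n {l} = 1 / pal n {l} := by
  rw [Ival_pal n (singleton_nonempty l), sum_singleton, erase_singleton, Ival_empty]

theorem pa_erase_le_one (h : PosM n) (ha : ∀ l ∈ Λ, pa n Λ l ≤ 1) (k : V) :
    ∀ l ∈ Λ.erase k, pa n (Λ.erase k) l ≤ 1 := fun l hl =>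
  (pa_erase_le h.1 k l).trans (ha l (mem_of_mem_erase hl))

/-- removing a low -/
theorem JJ_low (h : PosM n) (ha : ∀ l ∈ Λ, pa n Λ l ≤ 1) {y : ℝ} (hy0 : 0 < y)
    (hy : y + 1 ≤ pQ n Λ) : ∑ l ∈ Λ, JJ n (Λ.erase l) y ≤ pal n Λ * JJ n Λ y := by
  have hc0 : 0 ≤ n ∅ := h.1 ∅
  have hc1 : 0 < 1 + n ∅ := by linarith
  have hQ : 0 < pQ n Λ := by linarith
  have hpal0 : 0 ≤ pal n Λ := sum_nonneg fun D _ => h.1 D
  rcases Nat.lt_or_ge Λ.card 3 with h3 | h3
  swap
  · -- at least three lows
    have hst := resid0 h ha hQ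
    have h1 : ∀ l ∈ Λ, JJ n (Λ.erase l) y = y * (1 + y) / pQ n Λ / (1 + n ∅) *
        (pQ n Λ / pQ n (Λ.erase l) * ph n (Λ.erase l)) := by
      intro l hl
      have h2 : 2 ≤ (Λ.erase l).card := by
        rw [card_erase_of_mem hl]
        omega
      have h4 : 0 < pQ n (Λ.erase l) := by
        rw [pQ_erase hl]
        linarith [ha l hl]
      unfold JJ
      rw [if_pos h2]
      field_simp
    rw [sum_congr rfl h1, ← mul_sum]
    have h2 : JJ n Λ y = y * (1 + y) / pQ n Λ / (1 + n ∅) * ph n Λ := by
      unfold JJ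
      rw [if_pos (by omega)]
      ring
    rw [h2]
    have h4 : 0 ≤ y * (1 + y) / pQ n Λ / (1 + n ∅) :=
      div_nonneg (div_nonneg (by nlinarith) hQ.le) hc1.le
    have h5 := mul_le_mul_of_nonneg_left hst h4
    linarith
  · rcases Nat.lt_or_ge Λ.card 2 with h4 | h4
    · rcases Nat.eq_zero_or_pos Λ.card with h5 | h5
      · have h6 : Λ = ∅ := card_eq_zero.1 h5
        have h7 : 0 ≤ JJ n Λ y := JJ_nonneg h ha hy0.le hy
        rw [h6] at h7 hpal0 ⊢
        rw [sum_empty]
        exact mul_nonneg hpal0 h7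
      · -- one low
        obtain ⟨l, hl⟩ := card_eq_one.1 (show Λ.card = 1 by omega)
        have h6 : 0 < pal n Λ := h.sum_pos (card_pos.1 h5)
        have h7 : JJ n Λ y = y / pal n Λ := by
          unfold JJ
          rw [if_neg (by omega), if_pos (by omega)]
        rw [h7, mul_div_cancel₀ _ h6.ne']
        rw [hl, sum_singleton, erase_singleton]
        unfold JJ
        rw [if_neg (by rw [card_empty]; omega), if_neg (by rw [card_empty]; omega)]
    · -- two lows
      have h5 : Λ.card = 2 := by omega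
      have h6 := ph_two h ha h5
      have h7 : pQ n Λ = pal n Λ := by
        unfold pQ
        rw [h5]
        push_cast
        ring
      have h8 : JJ n Λ y = y * (1 + y) / pQ n Λ * (ph n Λ / (1 + n ∅)) := by
        unfold JJ
        rw [if_pos (by omega)]
      have h9 : pal n Λ * JJ n Λ y = y * (1 + y) * (ph n Λ / (1 + n ∅)) := by
        rw [h8, h7]
        rw [h7] at hQ
        field_simp
      rw [h9]
      have h10 : ∑ l ∈ Λ, 1 / (n {l} + n ∅) ≤ ph n Λ / (1 + n ∅) := by
        rw [le_div_iff₀ hc1]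
        linarith
      have h11 : ∑ l ∈ Λ, JJ n (Λ.erase l) y = y * ∑ l ∈ Λ, 1 / (n {l} + n ∅) := by
        obtain ⟨i, j, hij, hΛ⟩ := card_eq_two.1 h5
        have hi : Λ.erase i = {j} := by
          rw [hΛ]
          ext x
          simp only [mem_erase, mem_insert, mem_singleton]
          constructor
          · rintro ⟨h1, h2⟩
            exact h2.resolve_left h1
          · rintro rfl
            exact ⟨hij.symm, Or.inr rfl⟩
        have hj : Λ.erase j = {i} := by
          rw [hΛ]
          ext x
          simp only [mem_erase, mem_insert, mem_singleton]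
          constructor
          · rintro ⟨h1, h2⟩
            exact h2.resolve_right h1
          · rintro rfl
            exact ⟨hij, Or.inl rfl⟩
        have hJ : ∀ x, JJ n {x} y = y * (1 / (n {x} + n ∅)) := by
          intro x
          unfold JJ
          rw [if_neg (by rw [card_singleton]; omega), if_pos (card_singleton x), pal_single]
          ring
        have h12 : ∑ l ∈ Λ, JJ n (Λ.erase l) y = JJ n (Λ.erase i) y + JJ n (Λ.erase j) y := by
          conv_lhs => rw [hΛ]
          rw [sum_pair hij, ← hΛ]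
        have h13 : ∑ l ∈ Λ, 1 / (n {l} + n ∅) = 1 / (n {i} + n ∅) + 1 / (n {j} + n ∅) := by
          conv_lhs => rw [hΛ]
          rw [sum_pair hij]
        rw [h12, h13, hi, hj, hJ, hJ]
        ring
      rw [h11]
      have h12 : 0 ≤ ∑ l ∈ Λ, 1 / (n {l} + n ∅) := sum_nonneg fun l _ =>
        div_nonneg zero_le_one (add_nonneg (h.1 _) hc0)
      calc y * ∑ l ∈ Λ, 1 / (n {l} + n ∅) ≤ y * (1 + y) * ∑ l ∈ Λ, 1 / (n {l} + n ∅) := by
            refine mul_le_mul_of_nonneg_right ?_ h12
            nlinarith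
        _ ≤ y * (1 + y) * (ph n Λ / (1 + n ∅)) :=
            mul_le_mul_of_nonneg_left h10 (by nlinarith)

/-- removing mass from the lows -/
theorem JJ_mono (h : PosM n) (h' : PosM n') (hn : ∀ D ⊆ Λ, n' D ≤ n D) (h0 : n' ∅ = n ∅)
    (ha : ∀ l ∈ Λ, pa n Λ l ≤ 1) {y y' : ℝ} (hy : y + 1 ≤ pQ n Λ) (hy2 : y ≤ 2)
    (hyy : y' = y - (pal n Λ - pal n' Λ)) (hy' : 0 < y') : JJ n' Λ y' ≤ JJ n Λ y := by
  have hc0 : 0 ≤ n ∅ := h.1 ∅
  have hc1 : 0 < 1 + n ∅ := by linarith
  have hX : 0 ≤ pal n Λ - pal n' Λ := by
    have : pal n' Λ ≤ pal n Λ := sum_le_sum fun D hD => hn D (mem_powerset.1 hD)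
    linarith
  have hyle : y' ≤ y := by linarith
  have hy0 : 0 < y := by linarith
  have ha' : ∀ l ∈ Λ, pa n' Λ l ≤ 1 := fun l hl => (pa_mono_mass hn l).trans (ha l hl)
  have hQQ : pQ n' Λ = pQ n Λ - (y - y') := by
    unfold pQ
    linarith
  have hQ' : y' + 1 ≤ pQ n' Λ := by linarith
  unfold JJ
  split_ifs with h1 h2
  · have h3 := ph_mono h h' hn h0 ha hy hy2 hyy hy'
    have h4 := ph_nonneg h ha
    have hp' : 0 < pQ n' Λ := by linarith
    have hp : 0 < pQ n Λ := by linarith
    have h5 : (1 + y') / pQ n' Λ ≤ (1 + y) / pQ n Λ := by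
      rw [div_le_div_iff₀ hp' hp, hQQ]
      nlinarith
    have h6 : 0 ≤ (1 + y') / pQ n' Λ := div_nonneg (by linarith) hp'.le
    rw [h0]
    calc y' * (1 + y') / pQ n' Λ * (ph n' Λ / (1 + n ∅)) =
          (y' * ph n' Λ) * ((1 + y') / pQ n' Λ) / (1 + n ∅) := by ring
      _ ≤ (y * ph n Λ) * ((1 + y') / pQ n' Λ) / (1 + n ∅) :=
          div_le_div_of_nonneg_right (mul_le_mul_of_nonneg_right h3 h6) hc1.le
      _ ≤ (y * ph n Λ) * ((1 + y) / pQ n Λ) / (1 + n ∅) :=
          div_le_div_of_nonneg_right (mul_le_mul_of_nonneg_left h5 (mul_nonneg hy0.le h4)) hc1.le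
      _ = y * (1 + y) / pQ n Λ * (ph n Λ / (1 + n ∅)) := by ring
  · have h3 : pQ n Λ = pal n Λ + 1 := by
      unfold pQ
      rw [h2]
      push_cast
      ring
    have hne : Λ.Nonempty := card_pos.1 (by omega)
    have h4 : 0 < pal n Λ := h.sum_pos hne
    have h5 : 0 < pal n' Λ := h'.sum_pos hne
    rw [div_le_div_iff₀ h5 h4]
    have h6 : pal n' Λ = pal n Λ - (y - y') := by linarith
    rw [h6]
    nlinarith
  · exact hyle

/-- the potential bounds the integral -/
theorem JJ_base (h : PosM n) (ha : ∀ l ∈ Λ, pa n Λ l ≤ 1) {y : ℝ} (hy0 : 0 < y)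
    (hy : y + 1 ≤ pQ n Λ) : y * Ival n Λ ≤ JJ n Λ y := by
  have hc0 : 0 ≤ n ∅ := h.1 ∅
  have hc1 : 0 < 1 + n ∅ := by linarith
  have hQ : 0 < pQ n Λ := by linarith
  unfold JJ
  split_ifs with h1 h2
  · have h3 := pot h h1 ha hQ
    have h4 := ph_nonneg h ha
    have h5 : Ival n Λ ≤ ph n Λ / (1 + n ∅) / pQ n Λ := by
      rw [le_div_iff₀ hQ, le_div_iff₀ hc1]
      linarith
    have h6 : 0 ≤ ph n Λ / (1 + n ∅) / pQ n Λ := div_nonneg (div_nonneg h4 hc1.le) hQ.le
    calc y * Ival n Λ ≤ y * (ph n Λ / (1 + n ∅) / pQ n Λ) := mul_le_mul_of_nonneg_left h5 hy0.le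
      _ ≤ y * (1 + y) * (ph n Λ / (1 + n ∅) / pQ n Λ) :=
          mul_le_mul_of_nonneg_right (by nlinarith) h6
      _ = y * (1 + y) / pQ n Λ * (ph n Λ / (1 + n ∅)) := by ring
  · obtain ⟨l, hl⟩ := card_eq_one.1 h2
    rw [hl, Ival_single, mul_one_div]
  · have h3 : Λ = ∅ := card_eq_zero.1 (by omega)
    rw [h3, Ival_empty, mul_one]

/-! ### The induction -/

theorem vv_neg (h : PosM m) (N : ℕ) : ∀ (K T : Finset V) (α : ℝ), K.card ≤ N → T ⊆ K →
    α ≤ pal m T - m ∅ → vv m K T α ≤ 0 := by
  induction N with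
  | zero =>
    intro K T α hN hT hα
    have h1 : K = ∅ := card_eq_zero.1 (by omega)
    subst h1
    have h2 : T = ∅ := subset_empty.1 hT
    subst h2
    refine vv_nonpos h ?_
    have : pal m (∅ : Finset V) = m ∅ := by
      unfold pal
      rw [powerset_empty, sum_singleton]
    linarith
  | succ N ih =>
    intro K T α hN hT hα
    rcases T.eq_empty_or_nonempty with hT0 | hT0
    · subst hT0
      refine vv_nonpos h ?_
      have : pal m (∅ : Finset V) = m ∅ := by
        unfold pal
        rw [powerset_empty, sum_singleton]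
      linarith
    rcases Nat.lt_or_ge K.card 2 with hK | hK
    · obtain ⟨t, ht⟩ := hT0
      have hKt : K = {t} := by
        have h1 : K.card = 1 := by
          have : 0 < K.card := card_pos.2 ⟨t, hT ht⟩
          omega
        obtain ⟨s, hs⟩ := card_eq_one.1 h1
        have h2 := hT ht
        rw [hs, mem_singleton] at h2
        rw [h2]
        exact hs
      have hTt : T = {t} := by
        refine subset_antisymm (hKt ▸ hT) (singleton_subset_iff.2 ht)
      subst hKt
      rw [hTt] at hα ⊢
      unfold vv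
      rw [sum_singleton, erase_singleton, Ival_empty, Ival_single, mul_one_div]
      have h1 : 0 < pal m {t} := h.sum_pos (singleton_nonempty t)
      have h2 : α / pal m {t} ≤ 1 := by
        rw [div_le_one h1]
        linarith [h.1 ∅]
      linarith
    · have hne : K.Nonempty := card_pos.1 (by omega)
      have hal0 : 0 < pal m K := h.sum_pos hne
      have hrec := vv_rec h hK hT α
      have h1 : ∑ l ∈ K \ T, vv m (K.erase l) T α ≤ 0 := by
        refine sum_nonpos fun l hl => ?_
        rw [mem_sdiff] at hl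
        exact ih (K.erase l) T α (by rw [card_erase_of_mem hl.1]; omega)
          (fun t ht => mem_erase.2 ⟨fun h3 => hl.2 (h3 ▸ ht), hT ht⟩) hα
      have h2 : ∑ t ∈ T, vv m (K.erase t) (T.erase t) (α - pa m K t) ≤ 0 := by
        refine sum_nonpos fun t ht => ?_
        refine ih (K.erase t) (T.erase t) _ (by rw [card_erase_of_mem (hT ht)]; omega)
          (erase_subset_erase t hT) ?_
        rw [pal_erase t]
        have := pa_mono h.1 hT t
        linarith
      have h3 : pal m K * vv m K T α ≤ 0 := by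
        rw [hrec]
        linarith
      by_contra hcon
      push Not at hcon
      have := mul_pos hal0 hcon
      linarith

/-- the union of the lows and the tops -/
theorem sdiff_union {K T : Finset V} (hT : T ⊆ K) : (K \ T) ∪ T = K := sdiff_union_of_subset hT

theorem erase_sdiff_low {K T : Finset V} (l : V) : (K.erase l) \ T = (K \ T).erase l := by
  ext x
  simp only [mem_sdiff, mem_erase]
  tauto

theorem erase_sdiff_top {K T : Finset V} {t : V} (ht : t ∈ T) :
    (K.erase t) \ (T.erase t) = K \ T := by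
  ext x
  simp only [mem_sdiff, mem_erase]
  constructor
  · rintro ⟨⟨h1, h2⟩, h3⟩
    exact ⟨h2, fun h4 => h3 ⟨h1, h4⟩⟩
  · rintro ⟨h1, h2⟩
    exact ⟨⟨fun h3 => h2 (h3 ▸ ht), h1⟩, fun h3 => h2 h3.2⟩

/-- the potential for `0 < y ≤ 1` -/
theorem pp4 (h : PosM m) {G : ℕ → ℝ} {q H : ℝ} (hH : 0 ≤ H) (hG0 : ∀ k, 0 ≤ G k)
    (hG1 : 1 ≤ G 0) (hG : ∀ (k : ℕ) (D : ℝ), ((k : ℝ) + 1) * q ≤ D →
      (2 ≤ k → ((k : ℝ) - 1) * (1 + H) + q ≤ D) → ((k : ℝ) + 1) * G k ≤ D * G (k + 1))
    (N : ℕ) : ∀ (K T : Finset V) (α : ℝ), K.card ≤ N → T ⊆ K →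
    (∀ l ∈ K, l ∉ T → pa m K l ≤ 1) → (∀ t ∈ T, pa m K t ≤ 1 + H) → (∀ t ∈ T, q ≤ m {t}) →
    ((T.card : ℝ) - 1) + ((T.card : ℝ) - 2) * H + q ≤ α →
    ((K \ T).card : ℝ) + α - pal m K ≤ 1 → 0 < α - (pal m T - m ∅) → α - (pal m T - m ∅) ≤ 1 →
    vv m K T α ≤ JJ (lm m T) (K \ T) (α - (pal m T - m ∅)) * G T.card := by
  induction N with
  | zero =>
    intro K T α hN hT _ _ _ _ _ hy0 _
    have h1 : K = ∅ := card_eq_zero.1 (by omega)
    subst h1
    have h2 : T = ∅ := subset_empty.1 hT
    subst h2
    have h3 : pal m (∅ : Finset V) = m ∅ := by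
      unfold pal
      rw [powerset_empty, sum_singleton]
    unfold vv JJ
    rw [sum_empty, Ival_empty, h3, if_neg (by simp), if_neg (by simp), card_empty]
    rw [h3] at hy0
    nlinarith
  | succ N ih =>
    intro K T α hN hT hlow htop hq hα hx hy0 hy1
    have hn : PosM (lm m T) := h.lm T
    have hd : Disjoint (K \ T) T := sdiff_disjoint
    have hc0 : 0 ≤ m ∅ := h.1 ∅
    have hpal : pal (lm m T) (K \ T) = pal m K - (pal m T - m ∅) := by
      rw [pal_lm m hd, sdiff_union hT]
      ring
    have ha : ∀ l ∈ K \ T, pa (lm m T) (K \ T) l ≤ 1 := by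
      intro l hl
      rw [pa_lm m hd hl, sdiff_union hT]
      rw [mem_sdiff] at hl
      exact hlow l hl.1 hl.2
    set y : ℝ := α - (pal m T - m ∅) with hy
    have hyQ : y + 1 ≤ pQ (lm m T) (K \ T) := by
      unfold pQ
      rw [hpal]
      linarith
    rcases T.eq_empty_or_nonempty with hT0 | hT0
    · -- no tops
      subst hT0
      have h1 := JJ_base hn ha hy0 hyQ
      have h2 := JJ_nonneg hn ha hy0.le hyQ
      have h3 : pal m (∅ : Finset V) = m ∅ := by
        unfold pal
        rw [powerset_empty, sum_singleton]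
      have h4 : y = α := by rw [hy, h3]; ring
      unfold vv
      rw [sum_empty, sub_zero, card_empty]
      rw [lm_self, sdiff_empty] at h1 h2 ⊢
      rw [← h4]
      nlinarith
    obtain ⟨k, hk⟩ : ∃ k, T.card = k + 1 := ⟨T.card - 1, by have := card_pos.2 hT0; omega⟩
    have hkr : (T.card : ℝ) = k + 1 := by rw [hk]; push_cast; ring
    have huT := card_mul_le_pal h hq
    rcases Nat.lt_or_ge K.card 2 with hK | hK
    · -- one top alone
      obtain ⟨t, ht⟩ := hT0
      have hKt : K = {t} := by
        have h1 : K.card = 1 := by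
          have : 0 < K.card := card_pos.2 ⟨t, hT ht⟩
          omega
        obtain ⟨s, hs⟩ := card_eq_one.1 h1
        have h2 := hT ht
        rw [hs, mem_singleton] at h2
        rw [h2]
        exact hs
      have hTt : T = {t} := subset_antisymm (hKt ▸ hT) (singleton_subset_iff.2 ht)
      have hk0 : k = 0 := by
        rw [hTt, card_singleton] at hk
        omega
      have h1 : 0 < pal m {t} := h.sum_pos (singleton_nonempty t)
      have h2 : JJ (lm m T) (K \ T) y = y := by
        unfold JJ
        rw [hKt, hTt, Finset.sdiff_self, if_neg (by rw [card_empty]; omega),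
          if_neg (by rw [card_empty]; omega)]
      have hqt := hq t ht
      have h3 := hG 0 (pal m {t}) (by
        push_cast
        rw [pal_single]
        linarith) (by omega)
      push_cast at h3
      rw [h2, hk, hk0, hKt, hTt]
      unfold vv
      rw [sum_singleton, erase_singleton, Ival_empty, Ival_single, mul_one_div]
      have h4 : y = α - (pal m {t} - m ∅) := by rw [hy, hTt]
      have h5 : α / pal m {t} - 1 = (α - pal m {t}) / pal m {t} := by
        field_simp
      rw [h5, div_le_iff₀ h1]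
      have h6 : y * 1 ≤ y * (pal m {t} * G (0 + 1)) :=
        mul_le_mul_of_nonneg_left (by linarith) hy0.le
      nlinarith
    · have hne : K.Nonempty := card_pos.1 (by omega)
      have hal0 : 0 < pal m K := h.sum_pos hne
      have hrec := vv_rec h hK hT α
      have hJ0 := JJ_nonneg hn ha hy0.le hyQ
      -- lows
      have hL : ∀ l ∈ K \ T, vv m (K.erase l) T α ≤
          JJ (lm m T) ((K \ T).erase l) y * G T.card := by
        intro l hl
        have hl' := hl
        rw [mem_sdiff] at hl
        have h1 := ih (K.erase l) T α (by rw [card_erase_of_mem hl.1]; omega)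
          (fun t ht => mem_erase.2 ⟨fun h3 => hl.2 (h3 ▸ ht), hT ht⟩)
          (fun l' hl' hl2 => (pa_erase_le h.1 l l').trans (hlow l' (mem_of_mem_erase hl') hl2))
          (fun t ht => (pa_erase_le h.1 l t).trans (htop t ht)) hq hα
          (by
            rw [erase_sdiff_low, card_erase_of_mem hl', pal_erase l]
            have h2 := hlow l hl.1 hl.2
            have h3 : 1 ≤ (K \ T).card := card_pos.2 ⟨l, hl'⟩
            rw [Nat.cast_sub h3]
            push_cast
            linarith) hy0 hy1
        rw [erase_sdiff_low] at h1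
        exact h1
      -- tops
      have hTt : ∀ t ∈ T, vv m (K.erase t) (T.erase t) (α - pa m K t) ≤
          JJ (lm m T) (K \ T) y * G k := by
        intro t ht
        have htK := hT ht
        have hck : (T.erase t).card = k := by
          rw [card_erase_of_mem ht, hk]
          omega
        have hpt : pa m T t ≤ pa m K t := pa_mono h.1 hT t
        have hpalt : pal m (T.erase t) = pal m T - pa m T t := pal_erase t
        rcases le_or_gt (α - pa m K t - (pal m (T.erase t) - m ∅)) 0 with h1 | h1
        · have h2 := vv_neg h K.card (K.erase t) (T.erase t) (α - pa m K t)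
            (card_le_card (erase_subset _ _)) (erase_subset_erase t hT) (by linarith)
          exact h2.trans (mul_nonneg hJ0 (hG0 k))
        · have h2 := ih (K.erase t) (T.erase t) (α - pa m K t)
            (by rw [card_erase_of_mem htK]; omega) (erase_subset_erase t hT)
            (fun l hl hl2 => by
              rw [mem_erase] at hl
              exact (pa_erase_le h.1 t l).trans (hlow l hl.2 fun h3 => hl2 (mem_erase.2 ⟨hl.1, h3⟩)))
            (fun t' ht' => (pa_erase_le h.1 t t').trans (htop t' (mem_of_mem_erase ht')))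
            (fun t' ht' => hq t' (mem_of_mem_erase ht'))
            (by
              rw [hck]
              have h3 := htop t ht
              rw [hkr] at hα
              linarith)
            (by
              rw [erase_sdiff_top ht, pal_erase t]
              linarith) h1 (by rw [hpalt]; linarith)
          rw [erase_sdiff_top ht, hck] at h2
          refine h2.trans (mul_le_mul_of_nonneg_right ?_ (hG0 k))
          have hd' : Disjoint (K \ T) (T.erase t) := hd.mono_right (erase_subset _ _)
          have hpal' : pal (lm m (T.erase t)) (K \ T) =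
              pal m (K.erase t) - (pal m (T.erase t) - m ∅) := by
            rw [pal_lm m hd']
            have h3 : (K \ T) ∪ T.erase t = K.erase t := by
              rw [← erase_sdiff_top ht, sdiff_union_of_subset (erase_subset_erase t hT)]
            rw [h3]
            ring
          refine JJ_mono hn (h.lm _) (fun D _ => lm_mono h.1 (erase_subset _ _) D)
            (by rw [lm_empty, lm_empty]) ha hyQ (by linarith) ?_ h1
          have h5 : pal m (K.erase t) = pal m K - pa m K t := pal_erase t
          rw [hpal, hpal', hy]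
          linarith
      -- the sum
      have hs1 : ∑ l ∈ K \ T, vv m (K.erase l) T α ≤
          pal (lm m T) (K \ T) * JJ (lm m T) (K \ T) y * G T.card := by
        refine (sum_le_sum hL).trans ?_
        rw [← sum_mul]
        exact mul_le_mul_of_nonneg_right (JJ_low hn ha hy0 hyQ) (hG0 _)
      have hs2 : ∑ t ∈ T, vv m (K.erase t) (T.erase t) (α - pa m K t) ≤
          (pal m T - m ∅) * JJ (lm m T) (K \ T) y * G T.card := by
        refine (sum_le_card_nsmul _ _ _ hTt).trans ?_
        rw [nsmul_eq_mul, hkr]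
        have h1 := hG k (pal m T - m ∅) (by rw [← hkr]; exact huT) (fun _ => by
          rw [hkr] at hα
          linarith)
        rw [hk]
        have h2 := mul_le_mul_of_nonneg_left h1 hJ0
        calc ((k : ℝ) + 1) * (JJ (lm m T) (K \ T) y * G k) =
              JJ (lm m T) (K \ T) y * (((k : ℝ) + 1) * G k) := by ring
          _ ≤ JJ (lm m T) (K \ T) y * ((pal m T - m ∅) * G (k + 1)) := h2
          _ = _ := by ring
      have h1 : pal m K * vv m K T α ≤
          pal m K * (JJ (lm m T) (K \ T) y * G T.card) := by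
        rw [hrec]
        refine (add_le_add hs1 hs2).trans (le_of_eq ?_)
        rw [hpal]
        ring
      exact le_of_mul_le_mul_left h1 hal0

/-- THE PRODUCT POTENTIAL -/
theorem pp (h : PosM m) {G : ℕ → ℝ} {q H : ℝ} (hq0 : 0 < q) (hH : 0 ≤ H) (hG0 : ∀ k, 0 ≤ G k)
    (hG1 : 1 ≤ G 0) (hG : ∀ (k : ℕ) (D : ℝ), ((k : ℝ) + 1) * q ≤ D →
      (2 ≤ k → ((k : ℝ) - 1) * (1 + H) + q ≤ D) → ((k : ℝ) + 1) * G k ≤ D * G (k + 1))
    (N : ℕ) : ∀ (K T : Finset V) (α : ℝ), K.card ≤ N → K.Nonempty → T ⊆ K →
    (∀ l ∈ K, l ∉ T → pa m K l ≤ 1) → (∀ t ∈ T, pa m K t ≤ 1 + H) → (∀ t ∈ T, q ≤ m {t}) →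
    ((T.card : ℝ) - 1) + ((T.card : ℝ) - 2) * H + q ≤ α →
    ((K \ T).card : ℝ) + α - pal m K ≤ 1 → vv m K T α ≤ 2 * G T.card := by
  induction N with
  | zero =>
    intro K T α hN hne
    have := card_pos.2 hne
    omega
  | succ N ih =>
    intro K T α hN hne hT hlow htop hq hα hx
    have hn : PosM (lm m T) := h.lm T
    have hd : Disjoint (K \ T) T := sdiff_disjoint
    have hc0 : 0 ≤ m ∅ := h.1 ∅
    have hpal : pal (lm m T) (K \ T) = pal m K - (pal m T - m ∅) := by
      rw [pal_lm m hd, sdiff_union hT]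
      ring
    have ha : ∀ l ∈ K \ T, pa (lm m T) (K \ T) l ≤ 1 := by
      intro l hl
      rw [pa_lm m hd hl, sdiff_union hT]
      rw [mem_sdiff] at hl
      exact hlow l hl.1 hl.2
    have hal0 : 0 < pal m K := h.sum_pos hne
    rcases le_or_gt (α - (pal m T - m ∅)) 0 with hy0 | hy0
    · have h1 := vv_neg h K.card K T α le_rfl hT (by linarith)
      have h2 := hG0 T.card
      linarith
    rcases le_or_gt (α - (pal m T - m ∅)) 1 with hy1 | hy1
    · have h1 := pp4 h hH hG0 hG1 hG K.card K T α le_rfl hT hlow htop hq hα hx hy0 hy1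
      have hyQ : α - (pal m T - m ∅) + 1 ≤ pQ (lm m T) (K \ T) := by
        unfold pQ
        rw [hpal]
        linarith
      have h2 := JJ_le_two hn ha hy0 hy1 hyQ
      exact h1.trans (mul_le_mul_of_nonneg_right h2 (hG0 _))
    -- `y > 1`
    rcases Nat.lt_or_ge K.card 2 with hK | hK
    · have hK1 : K.card = 1 := by
        have := card_pos.2 hne
        omega
      obtain ⟨j, hj⟩ := card_eq_one.1 hK1
      rcases T.eq_empty_or_nonempty with hT0 | hT0
      · subst hT0
        unfold vv
        rw [sum_empty, sub_zero, card_empty, hj, Ival_single, mul_one_div]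
        rw [sdiff_empty, hK1] at hx
        push_cast at hx
        rw [hj] at hx hal0
        have h1 : α / pal m {j} ≤ 1 := by
          rw [div_le_one hal0]
          linarith
        linarith
      · have hTt : T = {j} := by
          obtain ⟨t, ht⟩ := hT0
          have h1 := hT ht
          rw [hj, mem_singleton] at h1
          subst h1
          exact subset_antisymm (hj ▸ hT) (singleton_subset_iff.2 ht)
        have hqt := hq j (by rw [hTt]; exact mem_singleton_self j)
        have h3 := hG 0 (pal m {j}) (by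
          push_cast
          rw [pal_single]
          linarith) (by omega)
        push_cast at h3
        rw [hj, hTt, Finset.sdiff_self, card_empty] at hx
        push_cast at hx
        rw [hj] at hal0
        rw [hTt, card_singleton, hj]
        unfold vv
        rw [sum_singleton, erase_singleton, Ival_empty, Ival_single, mul_one_div]
        have h5 : α / pal m {j} - 1 = (α - pal m {j}) / pal m {j} := by
          field_simp
        rw [h5, div_le_iff₀ hal0]
        rw [zero_add] at h3
        linarith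
    · have hrec := vv_rec h hK hT α
      have hL : ∀ l ∈ K \ T, vv m (K.erase l) T α ≤ 2 * G T.card := by
        intro l hl
        have hl' := hl
        rw [mem_sdiff] at hl
        refine ih (K.erase l) T α (by rw [card_erase_of_mem hl.1]; omega)
          (card_pos.1 (by rw [card_erase_of_mem hl.1]; omega))
          (fun t ht => mem_erase.2 ⟨fun h3 => hl.2 (h3 ▸ ht), hT ht⟩)
          (fun l' hl' hl2 => (pa_erase_le h.1 l l').trans (hlow l' (mem_of_mem_erase hl') hl2))
          (fun t ht => (pa_erase_le h.1 l t).trans (htop t ht)) hq hα ?_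
        rw [erase_sdiff_low, card_erase_of_mem hl', pal_erase l]
        have h2 := hlow l hl.1 hl.2
        have h3 : 1 ≤ (K \ T).card := card_pos.2 ⟨l, hl'⟩
        rw [Nat.cast_sub h3]
        push_cast
        linarith
      have hs1 : ∑ l ∈ K \ T, vv m (K.erase l) T α ≤ (K \ T).card * (2 * G T.card) := by
        refine (sum_le_card_nsmul _ _ _ hL).trans (le_of_eq ?_)
        rw [nsmul_eq_mul]
      have hGT := hG0 T.card
      rcases T.eq_empty_or_nonempty with hT0 | hT0
      · have h1 : pal m K * vv m K T α ≤ pal m K * (2 * G T.card) := by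
          rw [hrec, hT0, sum_empty, add_zero, ← hT0]
          refine hs1.trans (mul_le_mul_of_nonneg_right ?_ (by linarith))
          have h3 : pal m (∅ : Finset V) = m ∅ := by
            unfold pal
            rw [powerset_empty, sum_singleton]
          rw [hT0, h3] at hy1
          linarith
        exact le_of_mul_le_mul_left h1 hal0
      · obtain ⟨k, hk⟩ : ∃ k, T.card = k + 1 := ⟨T.card - 1, by have := card_pos.2 hT0; omega⟩
        have hkr : (T.card : ℝ) = k + 1 := by rw [hk]; push_cast; ring
        have huT := card_mul_le_pal h hq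
        have hTt : ∀ t ∈ T, vv m (K.erase t) (T.erase t) (α - pa m K t) ≤ 2 * G k := by
          intro t ht
          have htK := hT ht
          have hck : (T.erase t).card = k := by
            rw [card_erase_of_mem ht, hk]
            omega
          have h2 := ih (K.erase t) (T.erase t) (α - pa m K t)
            (by rw [card_erase_of_mem htK]; omega)
            (card_pos.1 (by rw [card_erase_of_mem htK]; omega)) (erase_subset_erase t hT)
            (fun l hl hl2 => by
              rw [mem_erase] at hl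
              exact (pa_erase_le h.1 t l).trans (hlow l hl.2 fun h3 => hl2 (mem_erase.2 ⟨hl.1, h3⟩)))
            (fun t' ht' => (pa_erase_le h.1 t t').trans (htop t' (mem_of_mem_erase ht')))
            (fun t' ht' => hq t' (mem_of_mem_erase ht'))
            (by
              rw [hck]
              have h3 := htop t ht
              rw [hkr] at hα
              linarith)
            (by
              rw [erase_sdiff_top ht, pal_erase t]
              linarith)
          rw [hck] at h2
          exact h2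
        have hs2 : ∑ t ∈ T, vv m (K.erase t) (T.erase t) (α - pa m K t) ≤
            (α - 1) * (2 * G T.card) := by
          refine (sum_le_card_nsmul _ _ _ hTt).trans ?_
          rw [nsmul_eq_mul, hkr]
          have h1 := hG k (α - 1) (by rw [← hkr]; linarith) (fun _ => by
            rw [hkr] at hα
            linarith)
          rw [hk]
          linarith
        have h1 : pal m K * vv m K T α ≤ pal m K * (2 * G T.card) := by
          rw [hrec]
          refine (add_le_add hs1 hs2).trans ?_
          rw [← add_mul]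
          exact mul_le_mul_of_nonneg_right (by linarith) (by linarith)
        exact le_of_mul_le_mul_left h1 hal0

end MP76b19e.Rob
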