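import Pool.Agent.Lib.MP76b19e.Rob.PPb
import Pool.Agent.Lib.MP76b19e.Rob.KLev

/-!
# `ν + 1` tops, from the product potential (problem MP_76b19e_co)

`kst_d1`: the inequality for the sets `K` with `ν + 1` tops, constant `p`, for `ν = 1` (all `h`),
for `3 ≤ p ≤ h`, and for `p = 2`, `3 ≤ h`. The numbers `b` are not used.
-/

set_option autoImplicit false

open Finset

namespace MP76b19e.Rob

variable {V : Type} [DecidableEq V] {m : Finset V → ℝ}

/-- the constants -/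
noncomputable def Gc (p : ℝ) (g : ℕ → ℝ) (k : ℕ) : ℝ :=
  if k = 0 then 1 else if k = 1 then p else if k = 2 then p ^ 2 else g k

theorem Gc_nonneg {p : ℝ} (hp : 0 ≤ p) {g : ℕ → ℝ} (hg : ∀ k, 0 ≤ g k) (k : ℕ) : 0 ≤ Gc p g k := by
  unfold Gc
  split_ifs
  · exact zero_le_one
  · exact hp
  · positivity
  · exact hg k

theorem Gc_step {p H : ℝ} (hp : 0 < p) {g : ℕ → ℝ}
    (h3 : ∀ D : ℝ, (1 + H) + 1 / p ≤ D → 3 * p ^ 2 ≤ D * g 3)
    (hg : ∀ (k : ℕ) (D : ℝ), 3 ≤ k → ((k : ℝ) - 1) * (1 + H) + 1 / p ≤ D →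
      ((k : ℝ) + 1) * g k ≤ D * g (k + 1)) (k : ℕ) (D : ℝ) (hD : ((k : ℝ) + 1) * (1 / p) ≤ D)
    (hD2 : 2 ≤ k → ((k : ℝ) - 1) * (1 + H) + 1 / p ≤ D) :
    ((k : ℝ) + 1) * Gc p g k ≤ D * Gc p g (k + 1) := by
  rcases k with _ | _ | _ | k
  · unfold Gc
    push_cast at hD ⊢
    have h1 : (0 + 1 : ℝ) * (1 / p) * p ≤ D * p := mul_le_mul_of_nonneg_right hD hp.le
    have h2 : (1 / p) * p = 1 := by field_simp
    simp only [zero_add, mul_one]
    linarith
  · unfold Gc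
    push_cast at hD ⊢
    have h1 : (1 + 1 : ℝ) * (1 / p) * p ^ 2 ≤ D * p ^ 2 :=
      mul_le_mul_of_nonneg_right (by linarith) (by positivity)
    have h2 : (1 + 1 : ℝ) * (1 / p) * p ^ 2 = (1 + 1) * p := by field_simp
    norm_num at h1 h2 ⊢
    linarith
  · have h1 := hD2 (by omega)
    unfold Gc
    push_cast at h1 ⊢
    norm_num at h1 ⊢
    have h2 := h3 D (by norm_num; linarith)
    linarith
  · have h1 := hD2 (by omega)
    have h2 := hg (k + 1 + 1 + 1) D (by omega) h1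
    unfold Gc
    rw [if_neg (by omega), if_neg (by omega), if_neg (by omega), if_neg (by omega),
      if_neg (by omega), if_neg (by omega)]
    exact h2

/-- scaling -/
theorem vv_scale (m : Finset V → ℝ) {r : ℝ} (hr : r ≠ 0) {K T : Finset V} (hT : T ⊆ K)
    (hK : K.Nonempty) (α : ℝ) :
    vv (fun D => m D / r) K T (α / r) = r ^ (K.card - 1) * vv m K T α := by
  have hc := card_pos.2 hK
  unfold vv
  rw [Ival_scale m hr K]
  have h1 : ∀ t ∈ T, Ival (fun D => m D / r) (K.erase t) =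
      r ^ (K.card - 1) * Ival m (K.erase t) := by
    intro t ht
    rw [Ival_scale m hr, card_erase_of_mem (hT ht)]
  rw [sum_congr rfl h1, ← mul_sum]
  have h2 : r ^ K.card = r ^ (K.card - 1) * r := by
    rw [← pow_succ]
    congr 1
    omega
  rw [h2]
  field_simp

/-- the product potential in units with cap `p` -/
theorem ppP (h : PosM m) {K T : Finset V} (hK : K.Nonempty) (hT : T ⊆ K) {p hh α : ℝ}
    (hp : 0 < p) (hh0 : 0 ≤ hh) {g : ℕ → ℝ} (hg0 : ∀ k, 0 ≤ g k)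
    (h3 : ∀ D : ℝ, (1 + hh / p) + 1 / p ≤ D → 3 * p ^ 2 ≤ D * g 3)
    (hg : ∀ (k : ℕ) (D : ℝ), 3 ≤ k → ((k : ℝ) - 1) * (1 + hh / p) + 1 / p ≤ D →
      ((k : ℝ) + 1) * g k ≤ D * g (k + 1))
    (hlow : ∀ l ∈ K, l ∉ T → pa m K l ≤ p) (htop : ∀ t ∈ T, pa m K t ≤ p + hh)
    (hw : ∀ t ∈ T, 1 ≤ m {t})
    (hα : ((T.card : ℝ) - 1) * p + ((T.card : ℝ) - 2) * hh + 1 ≤ α)
    (hx : ((K \ T).card : ℝ) * p + α - pal m K ≤ p) :
    p ^ (K.card - 1) * vv m K T α ≤ 2 * Gc p g T.card := by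
  have hpne := hp.ne'
  rw [← vv_scale m hpne hT hK α]
  have h' : PosM (fun D => m D / p) :=
    ⟨fun D => div_nonneg (h.1 D) hp.le, fun k => div_pos (h.2 k) hp⟩
  have hpal' : pal (fun D => m D / p) K = pal m K / p := by
    unfold pal
    rw [sum_div]
  refine pp h' (G := Gc p g) (q := 1 / p) (H := hh / p) (by positivity) (div_nonneg hh0 hp.le)
    (Gc_nonneg hp.le hg0) (by unfold Gc; simp) (Gc_step hp h3 hg) K.card K T (α / p) le_rfl hK hT
    (fun l hl hl2 => by rw [pa_scale, div_le_one hp]; exact hlow l hl hl2)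
    (fun t ht => by
      rw [pa_scale, div_le_iff₀ hp, add_mul, div_mul_cancel₀ _ hpne]
      linarith [htop t ht])
    (fun t ht => div_le_div_of_nonneg_right (hw t ht) hp.le) ?_ ?_
  · rw [le_div_iff₀ hp]
    have h1 : ((T.card : ℝ) - 1 + ((T.card : ℝ) - 2) * (hh / p) + 1 / p) * p =
        ((T.card : ℝ) - 1) * p + ((T.card : ℝ) - 2) * hh + 1 := by
      field_simp
    linarith
  · rw [hpal']
    have h1 : ((K \ T).card : ℝ) + α / p - pal m K / p =
        (((K \ T).card : ℝ) * p + α - pal m K) / p := by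
      field_simp
    rw [h1, div_le_one hp]
    exact hx

/-- `ν + 1` tops -/
theorem kst_d1 {K T : Finset V} {b : V → ℝ} {p h ν : ℕ} (hk : KS K T m b p h ν)
    (hc : T.card = ν + 1) (hph : ν = 1 ∨ (3 ≤ p ∧ p ≤ h) ∨ (p = 2 ∧ 3 ≤ h)) :
    (p : ℝ) ^ (K.card - 3) *
        (((ν : ℝ) * p + ((ν : ℝ) - 1) * h + 1) * Ival m K - ∑ t ∈ T, Ival m (K.erase t)) ≤
      p * (1 + ∑ j ∈ K, b j / (m {j} + m ∅)) := by
  have hp2 : (2 : ℝ) ≤ p := by exact_mod_cast hk.p2
  have hh1 : (1 : ℝ) ≤ h := by exact_mod_cast hk.h1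
  have hν1 : (1 : ℝ) ≤ ν := by exact_mod_cast hk.ν1
  have hp0 : (0 : ℝ) < p := by linarith
  have hK2 := hk.Kc
  have hν1' := hk.ν1
  have hK : K.Nonempty := card_pos.1 (by omega)
  have hcr : (T.card : ℝ) = ν + 1 := by rw [hc]; push_cast; ring
  have hS : 0 ≤ ∑ j ∈ K, b j / (m {j} + m ∅) := by
    refine sum_nonneg fun j _ => div_nonneg ?_ (add_nonneg (hk.pos.1 _) (hk.pos.1 _))
    obtain ⟨k, hkb⟩ := hk.bint j
    rw [hkb]
    exact Nat.cast_nonneg _
  have hΛ : ((K \ T).card : ℝ) = K.card - T.card := by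
    rw [card_sdiff_of_subset hk.TK, Nat.cast_sub (card_le_card hk.TK)]
  -- the general bound
  have key : ∀ g : ℕ → ℝ, (∀ k, 0 ≤ g k) →
      (∀ D : ℝ, (1 + (h : ℝ) / p) + 1 / p ≤ D → 3 * (p : ℝ) ^ 2 ≤ D * g 3) →
      (∀ (k : ℕ) (D : ℝ), 3 ≤ k → ((k : ℝ) - 1) * (1 + (h : ℝ) / p) + 1 / p ≤ D →
        ((k : ℝ) + 1) * g k ≤ D * g (k + 1)) →
      2 * Gc p g T.card ≤ (p : ℝ) ^ 3 →
      (p : ℝ) ^ (K.card - 3) *
        (((ν : ℝ) * p + ((ν : ℝ) - 1) * h + 1) * Ival m K - ∑ t ∈ T, Ival m (K.erase t)) ≤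
      p * (1 + ∑ j ∈ K, b j / (m {j} + m ∅)) := by
    intro g hg0 h3 hg hfin
    have h1 := ppP hk.pos hK hk.TK (α := (ν : ℝ) * p + ((ν : ℝ) - 1) * h + 1) hp0
      (by linarith) hg0 h3 hg hk.paL hk.paT (fun t ht => hk.one t (hk.TK ht))
      (by rw [hcr]; linarith) (by rw [hΛ, hcr, hk.palK]; linarith)
    have h2 := h1.trans hfin
    unfold vv at h2
    have h4 : (p : ℝ) ^ (K.card - 1) = (p : ℝ) ^ (K.card - 3) * p ^ 2 := by
      rw [← pow_add]
      congr 1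
      omega
    rw [h4] at h2
    have h5 : (p : ℝ) ^ (K.card - 3) *
        (((ν : ℝ) * p + ((ν : ℝ) - 1) * h + 1) * Ival m K - ∑ t ∈ T, Ival m (K.erase t)) ≤ p := by
      have h6 : (0 : ℝ) < p ^ 2 := by positivity
      have h7 : (p : ℝ) ^ (K.card - 3) *
          (((ν : ℝ) * p + ((ν : ℝ) - 1) * h + 1) * Ival m K - ∑ t ∈ T, Ival m (K.erase t)) * p ^ 2 ≤
            p * p ^ 2 := by
        calc _ = (p : ℝ) ^ (K.card - 3) * p ^ 2 * (((ν : ℝ) * p + ((ν : ℝ) - 1) * h + 1) *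
              Ival m K - ∑ t ∈ T, Ival m (K.erase t)) := by ring
          _ ≤ (p : ℝ) ^ 3 := h2
          _ = p * p ^ 2 := by ring
      exact le_of_mul_le_mul_right h7 h6
    refine h5.trans ?_
    nlinarith
  rcases hph with h1 | ⟨h1, h2⟩ | ⟨h1, h2⟩
  · -- `ν = 1`
    refine key (fun k => (k.factorial : ℝ) * p ^ 2) (fun k => by positivity) ?_ ?_ ?_
    · intro D hD
      have h3 : (1 : ℝ) ≤ D := by
        have : (0 : ℝ) ≤ h / p := by positivity
        have : (0 : ℝ) ≤ 1 / p := by positivity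
        linarith
      have h4 : ((3 : ℕ).factorial : ℝ) = 6 := by norm_num [Nat.factorial]
      rw [h4]
      nlinarith [sq_nonneg (p : ℝ)]
    · intro k D hk3 hD
      have hkr : (3 : ℝ) ≤ k := by exact_mod_cast hk3
      have h3 : (1 : ℝ) ≤ D := by
        have h5 : (0 : ℝ) ≤ h / p := by positivity
        have h6 : (0 : ℝ) ≤ 1 / p := by positivity
        nlinarith
      rw [Nat.factorial_succ]
      push_cast
      have h4 : (0 : ℝ) ≤ ((k : ℝ) + 1) * ((k.factorial : ℝ) * p ^ 2) := by positivity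
      nlinarith
    · rw [hc, h1]
      unfold Gc
      norm_num
      nlinarith [sq_nonneg (p : ℝ)]
  · -- `3 ≤ p ≤ h`
    have h1r : (3 : ℝ) ≤ p := by exact_mod_cast h1
    have h2r : (p : ℝ) ≤ h := by exact_mod_cast h2
    have hH : (1 : ℝ) ≤ (h : ℝ) / p := by rw [le_div_iff₀ hp0]; linarith
    have hq : (0 : ℝ) ≤ 1 / p := by positivity
    refine key (fun _ => 3 / 2 * (p : ℝ) ^ 2) (fun k => by positivity) ?_ ?_ ?_
    · intro D hD
      nlinarith [sq_nonneg (p : ℝ)]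
    · intro k D hk3 hD
      have hkr : (3 : ℝ) ≤ k := by exact_mod_cast hk3
      have h3 : (k : ℝ) + 1 ≤ D := by nlinarith
      exact mul_le_mul_of_nonneg_right h3 (by positivity)
    · rw [hc]
      unfold Gc
      rw [if_neg (by omega), if_neg (by omega)]
      split_ifs
      · nlinarith [sq_nonneg (p : ℝ)]
      · nlinarith [sq_nonneg (p : ℝ)]
  · -- `p = 2`, `3 ≤ h`
    subst h1
    have h2r : (3 : ℝ) ≤ h := by exact_mod_cast h2
    push_cast at key ⊢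
    refine key (fun _ => (2 : ℝ) ^ 2) (fun k => by positivity) ?_ ?_ ?_
    · intro D hD
      norm_num
      linarith
    · intro k D hk3 hD
      have hkr : (3 : ℝ) ≤ k := by exact_mod_cast hk3
      have h3 : (k : ℝ) + 1 ≤ D := by nlinarith
      exact mul_le_mul_of_nonneg_right h3 (by positivity)
    · rw [hc]
      unfold Gc
      rw [if_neg (by omega), if_neg (by omega)]
      split_ifs
      · norm_num
      · norm_num

end MP76b19e.Rob
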