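import Pool.Agent.Lib.MP76b19e.Rob.PushR
import Pool.Agent.Lib.MP76b19e.Rob.PotP

/-!
# The potential with over-full tops, excess one (problem MP_76b19e_co)

`pt1`: `(1 + c) Q (α F_K - ∑_{t ∈ T} F_{K - t}) ≤ (α - |T| q) φ(K)` if every over-full element is
in `T` and `α ≤ a_t` for the over-full `t`.
-/

set_option autoImplicit false

open Finset

namespace MP76b19e.Rob

section

variable {V : Type} [DecidableEq V] {m : Finset V → ℝ}

/-- the recursion of the functional -/
theorem V_rec (h : PosM m) {K T : Finset V} (hTK : T ⊆ K) (hK : 2 ≤ K.card) (α : ℝ) :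
    pal m K * (α * Ival m K - ∑ t ∈ T, Ival m (K.erase t)) =
      ∑ k ∈ K, ((α - if k ∈ T then pa m K k else 0) * Ival m (K.erase k) -
        ∑ t ∈ T.erase k, Ival m ((K.erase k).erase t)) := by
  have hne : K.Nonempty := card_pos.1 (by omega)
  have h1 : pal m K * Ival m K = ∑ k ∈ K, Ival m (K.erase k) := sum_mul_Ival h hne
  have h2 : ∀ t ∈ T, pal m K * Ival m (K.erase t) =
      ∑ k ∈ K.erase t, Ival m ((K.erase t).erase k) + pa m K t * Ival m (K.erase t) := by
    intro t ht
    have h3 : (K.erase t).Nonempty := card_pos.1 (by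
      rw [card_erase_of_mem (hTK ht)]
      omega)
    have h4 : pal m (K.erase t) * Ival m (K.erase t) =
        ∑ k ∈ K.erase t, Ival m ((K.erase t).erase k) := sum_mul_Ival h h3
    rw [← h4, pal_erase]
    ring
  have h5 : ∑ t ∈ T, ∑ k ∈ K.erase t, Ival m ((K.erase t).erase k) =
      ∑ k ∈ K, ∑ t ∈ T.erase k, Ival m ((K.erase k).erase t) := by
    have h6 : ∀ t ∈ T, ∑ k ∈ K.erase t, Ival m ((K.erase t).erase k) =
        ∑ k ∈ K.erase t, Ival m ((K.erase k).erase t) := fun t _ =>
      sum_congr rfl fun k _ => by rw [erase_right_comm]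
    rw [sum_congr rfl h6]
    refine sum_comm' fun t k => ?_
    simp only [mem_erase]
    constructor
    · rintro ⟨a1, a2, a3⟩
      exact ⟨⟨Ne.symm a2, a1⟩, a3⟩
    · rintro ⟨⟨a1, a2⟩, a3⟩
      exact ⟨a2, Ne.symm a1, a3⟩
  have h7 : ∑ k ∈ K, (if k ∈ T then pa m K k else 0) * Ival m (K.erase k) =
      ∑ t ∈ T, pa m K t * Ival m (K.erase t) := by
    rw [← sum_filter_add_sum_filter_not K (fun k => k ∈ T)]
    have h8 : K.filter (fun k => k ∈ T) = T := by
      ext x
      rw [mem_filter]
      exact ⟨fun hx => hx.2, fun hx => ⟨hTK hx, hx⟩⟩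
    rw [h8]
    have h9 : ∑ k ∈ K.filter (fun k => k ∉ T), (if k ∈ T then pa m K k else 0) *
        Ival m (K.erase k) = 0 := by
      refine sum_eq_zero fun k hk => ?_
      rw [mem_filter] at hk
      rw [if_neg hk.2, zero_mul]
    rw [h9, add_zero]
    exact sum_congr rfl fun k hk => by rw [if_pos hk]
  have h10 : ∑ k ∈ K, ((α - if k ∈ T then pa m K k else 0) * Ival m (K.erase k) -
        ∑ t ∈ T.erase k, Ival m ((K.erase k).erase t)) =
      α * ∑ k ∈ K, Ival m (K.erase k) - ∑ t ∈ T, pa m K t * Ival m (K.erase t) -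
        ∑ k ∈ K, ∑ t ∈ T.erase k, Ival m ((K.erase k).erase t) := by
    have h11 : ∀ k ∈ K, ((α - if k ∈ T then pa m K k else 0) * Ival m (K.erase k) -
        ∑ t ∈ T.erase k, Ival m ((K.erase k).erase t)) = (α * Ival m (K.erase k) -
        (if k ∈ T then pa m K k else 0) * Ival m (K.erase k)) -
        ∑ t ∈ T.erase k, Ival m ((K.erase k).erase t) := fun k _ => by ring
    rw [sum_congr rfl h11, sum_sub_distrib, sum_sub_distrib, h7, ← mul_sum]
  rw [h10, mul_sub, mul_sum, sum_congr rfl h2, sum_add_distrib, h5, ← h1]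
  ring

/-- two elements -/
theorem pot_two (h : PosM m) {K : Finset V} (hK : K.card = 2) {g : V → ℝ} (hg : ∀ j, 0 ≤ g j)
    (hg1 : ∀ j, 1 - m {j} ≤ g j * (m {j} + m ∅)) :
    (1 + m ∅) * (pal m K * Ival m K) ≤ phg m g K := by
  have hc0 : 0 ≤ m ∅ := h.1 ∅
  obtain ⟨i, j, hij, hKij⟩ := card_eq_two.1 hK
  have hi : K.erase i = {j} := by
    rw [hKij]
    ext x
    simp only [mem_erase, mem_insert, mem_singleton]
    constructor
    · rintro ⟨h1, h2⟩
      exact h2.resolve_left h1
    · rintro rfl
      exact ⟨hij.symm, Or.inr rfl⟩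
  have hj : K.erase j = {i} := by
    rw [hKij]
    ext x
    simp only [mem_erase, mem_insert, mem_singleton]
    constructor
    · rintro ⟨h1, h2⟩
      exact h2.resolve_right h1
    · rintro rfl
      exact ⟨hij, Or.inl rfl⟩
  have hs : ∀ x, Ival m {x} = 1 / (m {x} + m ∅) := by
    intro x
    rw [Ival_eq m (singleton_nonempty x), sum_singleton, erase_singleton, Ival_empty]
    congr 1
    have hp : ({x} : Finset V).powerset = {∅, {x}} := by
      ext D
      rw [mem_powerset, subset_singleton_iff, mem_insert, mem_singleton]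
    rw [hp, sum_pair (singleton_ne_empty x).symm, add_comm]
  have hne : K.Nonempty := card_pos.1 (by omega)
  have hI : pal m K * Ival m K = 1 / (m {i} + m ∅) + 1 / (m {j} + m ∅) := by
    have h1 := sum_mul_Ival h hne
    unfold pal
    rw [h1]
    conv_lhs => rw [hKij]
    rw [sum_pair hij, ← hKij, hi, hj, hs, hs]
    ring
  have hpt : 0 ≤ pt m K := pt_nonneg h.1
  have hph : 2 + (g i + g j) ≤ phg m g K := by
    unfold phg
    have h1 : ∑ x ∈ K, g x ≤ ∑ x ∈ K, (1 + pom m K x) * g x := by
      refine sum_le_sum fun x _ => ?_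
      have h2 := hg x
      have h3 := pom_nonneg (K := K) h.1 x
      nlinarith
    have h2 : ∑ x ∈ K, g x = g i + g j := by
      conv_lhs => rw [hKij]
      exact sum_pair hij
    rw [h2] at h1
    linarith
  have key : ∀ x, (1 + m ∅) * (1 / (m {x} + m ∅)) ≤ 1 + g x := by
    intro x
    have hy : 0 < m {x} + m ∅ := add_pos_of_pos_of_nonneg (h.2 x) hc0
    rw [← mul_div_assoc, mul_one, div_le_iff₀ hy]
    have := hg1 x
    linarith
  rw [hI, mul_add]
  linarith [key i, key j]

/-- THE POTENTIAL BOUND with over-full tops, `α ≤ a_t` for the over-full tops -/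
theorem pt1 (h : PosM m) {g : V → ℝ} (hg : ∀ j, 0 ≤ g j)
    (hg1 : ∀ j, 1 - m {j} ≤ g j * (m {j} + m ∅)) {q α0 A : ℝ} (hA0 : 0 ≤ A) {K T : Finset V}
    (hov : ∀ B ⊆ K, ∀ k ∈ B, pa m B k ≤ 1 ∨ α0 ≤ pa m B k)
    (hTK : T ⊆ K) (hovT : ∀ k ∈ K, 1 < pa m K k → k ∈ T) (hqT : ∀ t ∈ T, q ≤ m {t})
    (hK : 2 ≤ K.card) (hQ : 0 < pQ m K) {α : ℝ} (hα : α ≤ α0) (hA : α - T.card * q ≤ A) :
    (1 + m ∅) * pQ m K * (α * Ival m K - ∑ t ∈ T, Ival m (K.erase t)) ≤ A * phg m g K := by
  induction hcK : K.card using Nat.strong_induction_on generalizing K T α with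
  | _ n ih =>
    have hne : K.Nonempty := card_pos.1 (by omega)
    have hal0 : 0 < pal m K := h.sum_pos hne
    have hc0 : 0 ≤ m ∅ := h.1 ∅
    have hphg : ∀ B : Finset V, 0 ≤ phg m g B := by
      intro B
      unfold phg
      have h1 := pt_nonneg (K := B) h.1
      have h2 : 0 ≤ ∑ j ∈ B, (1 + pom m B j) * g j := sum_nonneg fun j _ =>
        mul_nonneg (by linarith [pom_nonneg (K := B) h.1 j]) (hg j)
      linarith
    rcases Nat.eq_or_lt_of_le hK with hn | hn
    · -- two elements
      have hQ2 : pQ m K = pal m K := by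
        unfold pQ
        rw [← hn]
        push_cast
        ring
      have h1 := pot_two h hn.symm hg hg1
      have hI := (Ival_pos h K).le
      have h2 : α * Ival m K - ∑ t ∈ T, Ival m (K.erase t) ≤ A * Ival m K := by
        have h3 : ∑ t ∈ T, q * Ival m K ≤ ∑ t ∈ T, Ival m (K.erase t) := by
          refine sum_le_sum fun t ht => ?_
          have h4 := mul_Ival_le_erase h (hTK ht)
          have h5 := mul_le_mul_of_nonneg_right (hqT t ht) hI
          linarith
        rw [sum_const, nsmul_eq_mul] at h3
        have h6 := mul_le_mul_of_nonneg_right hA hI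
        linarith
      rw [hQ2]
      calc (1 + m ∅) * pal m K * (α * Ival m K - ∑ t ∈ T, Ival m (K.erase t))
          ≤ (1 + m ∅) * pal m K * (A * Ival m K) :=
            mul_le_mul_of_nonneg_left h2 (by positivity)
        _ = A * ((1 + m ∅) * (pal m K * Ival m K)) := by ring
        _ ≤ A * phg m g K := mul_le_mul_of_nonneg_left h1 hA0
    · -- the induction step
      have hrec := V_rec h hTK hK α
      have hst := star h hQ hg hg1
      unfold rs at hst
      have key : ∀ k ∈ K, (1 + m ∅) * pQ m K *
          ((α - if k ∈ T then pa m K k else 0) * Ival m (K.erase k) -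
            ∑ t ∈ T.erase k, Ival m ((K.erase k).erase t)) ≤
          A * (th m K k * phg m g (K.erase k)) := by
        intro k hk
        have hth0 : 0 ≤ th m K k := by
          unfold th
          exact div_nonneg hQ.le (add_nonneg hQ.le (le_max_left _ _))
        rcases le_or_gt (pa m K k) 1 with hak | hak
        · -- not over-full
          have hQk := pQ_erase (m := m) hk
          have hQk0 : 0 < pQ m (K.erase k) := by
            rw [hQk]
            linarith
          have hth : th m K k = pQ m K / pQ m (K.erase k) := by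
            unfold th
            rw [max_eq_right (by linarith), hQk]
          have hTe : T.erase k ⊆ K.erase k := erase_subset_erase k hTK
          have h1 := ih (K.card - 1) (by omega) (K := K.erase k) (T := T.erase k)
            (α := α - if k ∈ T then pa m K k else 0)
            (fun B hB => hov B (hB.trans (erase_subset _ _))) hTe
            (fun j hj hj1 => mem_erase.2 ⟨(mem_erase.1 hj).1, hovT j (mem_of_mem_erase hj)
              (lt_of_lt_of_le hj1 (pa_erase_le h.1 k j))⟩)
            (fun t ht => hqT t (mem_of_mem_erase ht))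
            (by rw [card_erase_of_mem hk]; omega) hQk0
            (by
              split_ifs with hkT
              · have := le_pa h.1 hk
                have := h.2 k
                linarith
              · linarith)
            (by
              split_ifs with hkT
              · rw [card_erase_of_mem hkT, Nat.cast_sub (card_pos.2 ⟨k, hkT⟩), Nat.cast_one]
                have h2 := le_pa h.1 hk
                have h3 := hqT k hkT
                linarith
              · rw [erase_eq_of_notMem hkT]
                linarith)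
            (card_erase_of_mem hk)
          rw [hth]
          have h2 : 0 ≤ pQ m K / pQ m (K.erase k) := div_nonneg hQ.le hQk0.le
          have h3 := mul_le_mul_of_nonneg_left h1 h2
          refine le_trans (le_of_eq ?_) (h3.trans (le_of_eq ?_))
          · field_simp
          · ring
        · -- over-full
          have hkT := hovT k hk hak
          have h1 : α0 ≤ pa m K k := (hov K subset_rfl k hk).resolve_left (not_le.2 hak)
          rw [if_pos hkT]
          have h2 : (α - pa m K k) * Ival m (K.erase k) ≤ 0 :=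
            mul_nonpos_of_nonpos_of_nonneg (by linarith) (Ival_pos h _).le
          have h3 : 0 ≤ ∑ t ∈ T.erase k, Ival m ((K.erase k).erase t) :=
            sum_nonneg fun t _ => (Ival_pos h _).le
          have h4 : (1 + m ∅) * pQ m K * ((α - pa m K k) * Ival m (K.erase k) -
              ∑ t ∈ T.erase k, Ival m ((K.erase k).erase t)) ≤ 0 :=
            mul_nonpos_of_nonneg_of_nonpos (by positivity) (by linarith)
          have h5 : 0 ≤ A * (th m K k * phg m g (K.erase k)) :=
            mul_nonneg hA0 (mul_nonneg hth0 (hphg _))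
          linarith
      have hsum := sum_le_sum key
      rw [← mul_sum, ← mul_sum, ← hrec] at hsum
      have h1 : A * ∑ k ∈ K, th m K k * phg m g (K.erase k) ≤ A * (pal m K * phg m g K) :=
        mul_le_mul_of_nonneg_left (by linarith) hA0
      have h2 := hsum.trans h1
      refine le_of_mul_le_mul_left ?_ hal0
      refine le_trans (le_of_eq ?_) (h2.trans (le_of_eq ?_)) <;> ring

end

end MP76b19e.Rob
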