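import Pool.Agent.Lib.MP76b19e.Rob.Basic

/-!
# Counting orders (problem MP_76b19e_co)

`Ival m K`, for `m : Finset V → ℝ`, is defined by `Ival m ∅ = 1` and
`Ival m K = (∑_{k ∈ K} Ival m (K - k)) / ∑_{D ⊆ K} m D`.

`perm_le`: let `D v ⊆ K` for `v ∈ R` (`R` disjoint from `K`). The proportion of the orders in which
every `v ∈ R` with `D v ≠ ∅` is preceded by some element of `D v`, and every `v ∈ R` with `D v = ∅`
is preceded by all elements of `K`, is at most `Ival m K`, where `m D` is the number of `v ∈ R` with
`D v = D`, plus one if `D` is a singleton of `K`.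
-/

set_option autoImplicit false

open Finset

namespace MP76b19e.Rob

/-! ### The first element of a set -/

section first

variable {V : Type} [Fintype V] [DecidableEq V] {n : ℕ}

/-- number of elements of `U` before `k` -/
def rk (s : V ≃ Fin n) (U : Finset V) (k : V) : ℕ := (U.filter fun u => s u < s k).card

/-- `u` is the element of `U` that follows `k` -/
def IsSucc (s : V ≃ Fin n) (U : Finset V) (k u : V) : Prop :=
  u ∈ U ∧ s k < s u ∧ ∀ w ∈ U, s k < s w → s u ≤ s w

omit [Fintype V] in
theorem exists_succ {s : V ≃ Fin n} {U : Finset V} {k : V} (h : rk s U k + 1 < U.card) :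
    ∃ u, IsSucc s U k u := by
  have hne : (U.filter fun u => s k < s u).Nonempty := by
    by_contra hcon
    rw [not_nonempty_iff_eq_empty] at hcon
    have h1 : U ⊆ insert k (U.filter fun u => s u < s k) := by
      intro u hu
      rw [mem_insert, mem_filter]
      rcases lt_trichotomy (s u) (s k) with h2 | h2 | h2
      · exact Or.inr ⟨hu, h2⟩
      · exact Or.inl (s.injective h2)
      · exfalso
        have h3 : u ∈ U.filter fun u => s k < s u := mem_filter.2 ⟨hu, h2⟩
        rw [hcon] at h3
        exact absurd h3 (notMem_empty u)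
    have h2 := (card_le_card h1).trans (card_insert_le _ _)
    unfold rk at h
    omega
  obtain ⟨u, hu, hmin⟩ := exists_min_image _ (fun u => s u) hne
  rw [mem_filter] at hu
  exact ⟨u, hu.1, hu.2, fun w hw hlt => hmin w (mem_filter.2 ⟨hw, hlt⟩)⟩

omit [Fintype V] in
/-- interchanging `k` with its successor does not change the order of the other elements -/
theorem sw_lt_iff {s : V ≃ Fin n} {U : Finset V} {k u : V} (h : IsSucc s U k u) {w w' : V}
    (hw : w ∈ U) (hw' : w' ∈ U) (hk : w ≠ k) (hk' : w' ≠ k) :
    sw s k u w < sw s k u w' ↔ s w < s w' := by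
  by_cases h1 : w = u
  · subst h1
    rw [sw_right]
    by_cases h2 : w' = w
    · subst h2
      rw [sw_right]
      exact ⟨fun h => absurd h (lt_irrefl _), fun h => absurd h (lt_irrefl _)⟩
    · rw [sw_ne hk' h2]
      constructor
      · intro h3
        exact lt_of_le_of_ne (h.2.2 w' hw' h3) fun h4 => h2 (s.injective h4.symm)
      · intro h3
        exact lt_trans h.2.1 h3
  · rw [sw_ne hk h1]
    by_cases h2 : w' = u
    · subst h2
      rw [sw_right]
      constructor
      · intro h3
        exact lt_trans h3 h.2.1
      · intro h3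
        rcases lt_trichotomy (s w) (s k) with h4 | h4 | h4
        · exact h4
        · exact absurd (s.injective h4) hk
        · exact absurd (h.2.2 w hw h4) (not_le.2 h3)
    · rw [sw_ne hk' h2]

omit [Fintype V] in
theorem rk_sw {s : V ≃ Fin n} {U : Finset V} {k u : V} (h : IsSucc s U k u) :
    rk (sw s k u) U k = rk s U k + 1 := by
  have hku : u ≠ k := by
    rintro rfl
    exact absurd h.2.1 (lt_irrefl _)
  have h1 : (U.filter fun w => sw s k u w < sw s k u k) =
      insert u (U.filter fun w => s w < s k) := by
    ext w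
    rw [mem_filter, mem_insert, mem_filter, sw_left]
    by_cases hwk : w = k
    · subst hwk
      rw [sw_left]
      constructor
      · rintro ⟨_, h2⟩
        exact absurd h2 (lt_irrefl _)
      · rintro (h2 | ⟨_, h2⟩)
        · exact absurd h2.symm hku
        · exact absurd h2 (lt_irrefl _)
    · by_cases hwu : w = u
      · subst hwu
        rw [sw_right]
        exact ⟨fun _ => Or.inl rfl, fun _ => ⟨h.1, h.2.1⟩⟩
      · rw [sw_ne hwk hwu]
        constructor
        · rintro ⟨hw, h2⟩
          right
          refine ⟨hw, ?_⟩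
          rcases lt_trichotomy (s w) (s k) with h4 | h4 | h4
          · exact h4
          · exact absurd (s.injective h4) hwk
          · exact absurd (h.2.2 w hw h4) (not_le.2 h2)
        · rintro (h2 | ⟨hw, h2⟩)
          · exact absurd h2 hwu
          · exact ⟨hw, lt_trans h2 h.2.1⟩
  unfold rk
  rw [h1, card_insert_of_notMem]
  rw [mem_filter]
  rintro ⟨_, h2⟩
  exact absurd (lt_trans h2 h.2.1) (lt_irrefl _)

omit [Fintype V] in
theorem sw_succ_inj {s₁ s₂ : V ≃ Fin n} {U : Finset V} {k u₁ u₂ : V} (h₁ : IsSucc s₁ U k u₁)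
    (h₂ : IsSucc s₂ U k u₂) (h : sw s₁ k u₁ = sw s₂ k u₂) : s₁ = s₂ := by
  have key : ∀ {s s' : V ≃ Fin n} {u u' : V}, IsSucc s U k u → IsSucc s' U k u' →
      sw s k u = sw s' k u' → ¬ sw s k u u < sw s k u u' := by
    intro s s' u u' hu hu' heq hlt
    have hku' : u' ≠ k := by
      rintro rfl
      exact absurd hu'.2.1 (lt_irrefl _)
    have h1 : sw s k u u' < sw s k u k := by
      rw [heq, sw_right, sw_left]
      exact hu'.2.1
    have h2 : u' ≠ u := by
      rintro rfl
      exact absurd hlt (lt_irrefl _)
    rw [sw_right, sw_ne hku' h2] at hlt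
    rw [sw_left, sw_ne hku' h2] at h1
    exact absurd (hu.2.2 u' hu'.1 hlt) (not_le.2 h1)
  have hu : u₁ = u₂ := by
    rcases lt_trichotomy (sw s₁ k u₁ u₁) (sw s₁ k u₁ u₂) with h3 | h3 | h3
    · exact absurd h3 (key h₁ h₂ h)
    · exact (sw s₁ k u₁).injective h3
    · rw [h] at h3
      exact absurd h3 (key h₂ h₁ h.symm)
  subst hu
  rw [← sw_sw (s := s₁) k u₁, h, sw_sw]

open Classical in
/-- the probability that `k` is the first element of `U`, given an event that only depends on
the order of the other elements -/
theorem first_le (U : Finset V) {k : V} (_hk : k ∈ U) (E : (V ≃ Fin n) → Prop)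
    (hE : ∀ (s : V ≃ Fin n) (u : V), IsSucc s U k u → E s → E (sw s k u)) :
    U.card * (univ.filter fun s : V ≃ Fin n => (∀ u ∈ U, u ≠ k → s k < s u) ∧ E s).card ≤
      (univ.filter fun s : V ≃ Fin n => E s).card := by
  set R : ℕ → Finset (V ≃ Fin n) := fun i => univ.filter fun s => rk s U k = i ∧ E s with hR
  have hstep : ∀ i, i + 1 < U.card → (R i).card ≤ (R (i + 1)).card := by
    intro i hi
    have hex : ∀ s : V ≃ Fin n, ∃ u, rk s U k = i → IsSucc s U k u := by
      intro s
      by_cases hs : rk s U k = i
      · obtain ⟨u, hu⟩ := exists_succ (s := s) (U := U) (k := k) (by rw [hs]; exact hi)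
        exact ⟨u, fun _ => hu⟩
      · exact ⟨k, fun h => absurd h hs⟩
    choose f hf using hex
    refine card_le_card_of_injOn (fun s => sw s k (f s)) ?_ ?_
    · intro s hs
      have hs' := (mem_filter.1 (mem_coe.1 hs)).2
      refine mem_coe.2 (mem_filter.2 ⟨mem_univ _, ?_, ?_⟩)
      · rw [rk_sw (hf s hs'.1), hs'.1]
      · exact hE s (f s) (hf s hs'.1) hs'.2
    · intro s hs t ht hst
      have hs' := (mem_filter.1 (mem_coe.1 hs)).2
      have ht' := (mem_filter.1 (mem_coe.1 ht)).2
      exact sw_succ_inj (hf s hs'.1) (hf t ht'.1) hst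
  have hle : ∀ i, i < U.card → (R 0).card ≤ (R i).card := by
    intro i
    induction i with
    | zero => intro _; exact le_rfl
    | succ i ih => intro hi; exact (ih (Nat.lt_of_succ_lt hi)).trans (hstep i hi)
  have h0 : (univ.filter fun s : V ≃ Fin n => (∀ u ∈ U, u ≠ k → s k < s u) ∧ E s) = R 0 := by
    ext s
    rw [hR, mem_filter, mem_filter]
    refine and_congr_right fun _ => and_congr_left fun _ => ?_
    unfold rk
    rw [card_eq_zero, filter_eq_empty_iff]
    constructor
    · intro h u hu hlt
      by_cases huk : u = k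
      · rw [huk] at hlt
        exact absurd hlt (lt_irrefl _)
      · exact absurd (lt_trans hlt (h u hu huk)) (lt_irrefl _)
    · intro h u hu huk
      rcases lt_trichotomy (s k) (s u) with h4 | h4 | h4
      · exact h4
      · exact absurd (s.injective h4).symm huk
      · exact absurd h4 (h hu)
  rw [h0]
  calc U.card * (R 0).card = ∑ _i ∈ range U.card, (R 0).card := by
        rw [sum_const, card_range, smul_eq_mul]
    _ ≤ ∑ i ∈ range U.card, (R i).card := sum_le_sum fun i hi => hle i (mem_range.1 hi)
    _ = ((range U.card).biUnion R).card := by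
        rw [card_biUnion]
        intro i _ j _ hij
        rw [Function.onFun, disjoint_left]
        intro s hs hs'
        rw [hR, mem_filter] at hs hs'
        exact hij (hs.2.1.symm.trans hs'.2.1)
    _ ≤ (univ.filter fun s : V ≃ Fin n => E s).card := by
        apply card_le_card
        intro s hs
        obtain ⟨i, _, hs'⟩ := mem_biUnion.1 hs
        rw [hR, mem_filter] at hs'
        exact mem_filter.2 ⟨mem_univ _, hs'.2.2⟩

end first

/-! ### The recursion -/

section recursion

variable {V : Type} [DecidableEq V]

/-- the value of the recursion -/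
noncomputable def Ival (m : Finset V → ℝ) (K : Finset V) : ℝ :=
  if K = ∅ then 1 else (∑ k ∈ K.attach, Ival m (K.erase k.1)) / ∑ D ∈ K.powerset, m D
termination_by K.card
decreasing_by exact card_erase_lt_of_mem k.2

theorem Ival_empty (m : Finset V → ℝ) : Ival m ∅ = 1 := by
  rw [Ival, if_pos rfl]

theorem Ival_eq (m : Finset V → ℝ) {K : Finset V} (hK : K.Nonempty) :
    Ival m K = (∑ k ∈ K, Ival m (K.erase k)) / ∑ D ∈ K.powerset, m D := by
  rw [Ival, if_neg hK.ne_empty]
  congr 1
  exact sum_attach K (fun k => Ival m (K.erase k))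

theorem Ival_nonneg {m : Finset V → ℝ} (hm : ∀ D, 0 ≤ m D) (K : Finset V) : 0 ≤ Ival m K := by
  induction hc : K.card using Nat.strong_induction_on generalizing K with
  | _ c ih =>
    rcases K.eq_empty_or_nonempty with h | h
    · rw [h, Ival_empty]
      exact zero_le_one
    · rw [Ival_eq m h]
      refine div_nonneg (sum_nonneg fun k hk => ?_) (sum_nonneg fun D _ => hm D)
      exact ih _ (by rw [← hc]; exact card_erase_lt_of_mem hk) _ rfl

variable [Fintype V] {n : ℕ}

open Classical in
/-- the event: `R` is the set of the other vertices -/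
def Ev (R : Finset V) (D : V → Finset V) (K : Finset V) (s : V ≃ Fin n) : Prop :=
  ∀ v ∈ R, D v ⊆ K → (D v = ∅ → ∀ k ∈ K, s k < s v) ∧ (D v ≠ ∅ → ∃ k ∈ D v, s k < s v)

open Classical in
/-- counting orders -/
theorem perm_le (R : Finset V) (D : V → Finset V) (K : Finset V) (hR : Disjoint R K)
    (m : Finset V → ℝ)
    (hm : ∀ S ⊆ K, ((R.filter fun v => D v = S).card : ℝ) + (if S.card = 1 then 1 else 0) = m S) :
    ((univ.filter fun s : V ≃ Fin n => Ev R D K s).card : ℝ) ≤
      (Fintype.card (V ≃ Fin n) : ℝ) * Ival m K := by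
  induction hc : K.card using Nat.strong_induction_on generalizing K with
  | _ c ih =>
    rcases K.eq_empty_or_nonempty with h | hne
    · rw [h, Ival_empty, mul_one]
      exact_mod_cast card_le_univ _
    · set U : Finset V := K ∪ R.filter fun v => D v ⊆ K with hU
      have hUcard : (U.card : ℝ) = ∑ S ∈ K.powerset, m S := by
        have h1 : ∑ S ∈ K.powerset, m S =
            ∑ S ∈ K.powerset, ((R.filter fun v => D v = S).card : ℝ) +
              ∑ S ∈ K.powerset, (if S.card = 1 then (1 : ℝ) else 0) := by
          rw [← sum_add_distrib]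
          exact sum_congr rfl fun S hS => (hm S (mem_powerset.1 hS)).symm
        have h2 : ∑ S ∈ K.powerset, (if S.card = 1 then (1 : ℝ) else 0) = K.card := by
          rw [← sum_filter, sum_const, nsmul_eq_mul, mul_one]
          congr 1
          rw [← powersetCard_eq_filter, card_powersetCard, Nat.choose_one_right]
        have h3 : ∑ S ∈ K.powerset, ((R.filter fun v => D v = S).card : ℝ) =
            ((R.filter fun v => D v ⊆ K).card : ℝ) := by
          rw [← Nat.cast_sum]
          congr 1
          rw [card_eq_sum_card_fiberwise (f := D) (t := K.powerset)]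
          · refine sum_congr rfl fun S hS => ?_
            congr 1
            ext v
            rw [mem_filter, mem_filter, mem_filter]
            constructor
            · rintro ⟨h4, h5⟩
              exact ⟨⟨h4, by rw [h5]; exact mem_powerset.1 hS⟩, h5⟩
            · rintro ⟨⟨h4, _⟩, h5⟩
              exact ⟨h4, h5⟩
          · intro v hv
            exact mem_coe.2 (mem_powerset.2 (mem_filter.1 (mem_coe.1 hv)).2)
        have h4 : Disjoint K (R.filter fun v => D v ⊆ K) :=
          (hR.mono_left (filter_subset _ _)).symm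
        rw [h1, h2, h3, hU, card_union_of_disjoint h4]
        push_cast
        ring
      have hKU : K ⊆ U := subset_union_left
      have hUpos : (0 : ℝ) < U.card := by
        have : 0 < U.card := card_pos.2 (hne.mono hKU)
        exact_mod_cast this
      have hIH : ∀ k ∈ K, ((univ.filter fun s : V ≃ Fin n =>
          (∀ u ∈ U, u ≠ k → s k < s u) ∧ Ev R D (K.erase k) s).card : ℝ) ≤
            (Fintype.card (V ≃ Fin n) : ℝ) * Ival m (K.erase k) / U.card := by
        intro k hk
        have h1 := first_le (n := n) U (hKU hk) (Ev R D (K.erase k)) (by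
          intro s u hsu hev v hv hDv
          obtain ⟨h2, h3⟩ := hev v hv hDv
          have hvU : v ∈ U := mem_union_right _ (mem_filter.2 ⟨hv, hDv.trans (erase_subset _ _)⟩)
          have hvk : v ≠ k := by
            rintro rfl
            exact (disjoint_left.1 hR hv) hk
          refine ⟨fun h4 k' hk' => ?_, fun h4 => ?_⟩
          · exact (sw_lt_iff hsu (hKU (mem_of_mem_erase hk')) hvU (ne_of_mem_erase hk') hvk).2
              (h2 h4 k' hk')
          · obtain ⟨k', hk', h5⟩ := h3 h4
            have h6 := hDv hk'
            exact ⟨k', hk', (sw_lt_iff hsu (hKU (mem_of_mem_erase h6)) hvU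
              (ne_of_mem_erase h6) hvk).2 h5⟩)
        have h2 := ih (K.erase k).card (by rw [← hc]; exact card_erase_lt_of_mem hk)
          (K.erase k) (hR.mono_right (erase_subset _ _))
          (fun S hS => hm S (hS.trans (erase_subset _ _))) rfl
        rw [le_div_iff₀ hUpos, mul_comm]
        have h3 : ((U.card * (univ.filter fun s : V ≃ Fin n =>
          (∀ u ∈ U, u ≠ k → s k < s u) ∧ Ev R D (K.erase k) s).card : ℕ) : ℝ) ≤
            ((univ.filter fun s : V ≃ Fin n => Ev R D (K.erase k) s).card : ℝ) := by
          exact_mod_cast h1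
        push_cast at h3
        exact h3.trans h2
      have hsub : (univ.filter fun s : V ≃ Fin n => Ev R D K s) ⊆
          K.biUnion fun k => univ.filter fun s : V ≃ Fin n =>
            (∀ u ∈ U, u ≠ k → s k < s u) ∧ Ev R D (K.erase k) s := by
        intro s hs
        have hs' := (mem_filter.1 hs).2
        obtain ⟨x, hxU, hmin⟩ := exists_min_image U (fun u => s u) (hne.mono hKU)
        have hxlt : ∀ u ∈ U, u ≠ x → s x < s u := fun u hu hux =>
          lt_of_le_of_ne (hmin u hu) fun h => hux (s.injective h.symm)
        have hxK : x ∈ K := by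
          rcases mem_union.1 hxU with h1 | h1
          · exact h1
          · exfalso
            rw [mem_filter] at h1
            obtain ⟨h2, h3⟩ := hs' x h1.1 h1.2
            by_cases h4 : D x = ∅
            · obtain ⟨k, hk⟩ := hne
              exact absurd (h2 h4 k hk) (not_lt.2 (hmin k (hKU hk)))
            · obtain ⟨k, hk, h5⟩ := h3 h4
              exact absurd h5 (not_lt.2 (hmin k (hKU (h1.2 hk))))
        refine mem_biUnion.2 ⟨x, hxK, mem_filter.2 ⟨mem_univ _, hxlt, ?_⟩⟩
        intro v hv hDv
        obtain ⟨h2, h3⟩ := hs' v hv (hDv.trans (erase_subset _ _))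
        exact ⟨fun h4 k hk => h2 h4 k (mem_of_mem_erase hk), h3⟩
      calc ((univ.filter fun s : V ≃ Fin n => Ev R D K s).card : ℝ)
          ≤ ((K.biUnion fun k => univ.filter fun s : V ≃ Fin n =>
            (∀ u ∈ U, u ≠ k → s k < s u) ∧ Ev R D (K.erase k) s).card : ℝ) := by
            exact_mod_cast card_le_card hsub
        _ ≤ ∑ k ∈ K, ((univ.filter fun s : V ≃ Fin n =>
            (∀ u ∈ U, u ≠ k → s k < s u) ∧ Ev R D (K.erase k) s).card : ℝ) := by
            exact_mod_cast card_biUnion_le
        _ ≤ ∑ k ∈ K, (Fintype.card (V ≃ Fin n) : ℝ) * Ival m (K.erase k) / U.card :=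
            sum_le_sum hIH
        _ = (Fintype.card (V ≃ Fin n) : ℝ) * Ival m K := by
            rw [Ival_eq m hne, ← hUcard, ← sum_div, ← mul_sum]
            ring

end recursion

end MP76b19e.Rob
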