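import Pool.Agent.Lib.MP76b19e.Rob.Bridge

/-!
# Counting orders, equalities (problem MP_76b19e_co)

`first_eq`: the probability that `k` is the first element of `U`, weighted by a function that does
not depend on the place of `k` in `U`. `perm_eq`: the weighted version of `perm_le`, an equality.
`robust_inj`: the interchange of a vertex and its first robust neighbour.
-/

set_option autoImplicit false

open Finset

namespace MP76b19e.Rob

section first

variable {V : Type} [Fintype V] [DecidableEq V] {n : ℕ}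

omit [Fintype V] [DecidableEq V] in
theorem succ_unique {s : V ≃ Fin n} {U : Finset V} {k u u' : V} (h : IsSucc s U k u)
    (h' : IsSucc s U k u') : u = u' :=
  s.injective (le_antisymm (h.2.2 u' h'.1 h'.2.1) (h'.2.2 u h.1 h.2.1))

omit [Fintype V] in
/-- an element of `U` that is not the first has a predecessor -/
theorem exists_pred {s : V ≃ Fin n} {U : Finset V} {k : V} (h : 0 < rk s U k) :
    ∃ u, IsSucc (sw s k u) U k u := by
  unfold rk at h
  obtain ⟨u, hu, hmax⟩ := exists_max_image _ (fun u => s u) (card_pos.1 h)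
  rw [mem_filter] at hu
  have hku : k ≠ u := by
    rintro rfl
    exact absurd hu.2 (lt_irrefl _)
  refine ⟨u, hu.1, ?_, fun w hw hlt => ?_⟩
  · rw [sw_left, sw_right]
    exact hu.2
  · rw [sw_left] at hlt
    rw [sw_right]
    by_cases hwk : w = k
    · rw [hwk, sw_left] at hlt
      exact absurd hlt (lt_irrefl _)
    · by_cases hwu : w = u
      · rw [hwu, sw_right]
      · rw [sw_ne hwk hwu] at hlt ⊢
        by_contra hcon
        push Not at hcon
        exact absurd (hmax w (mem_filter.2 ⟨hw, hcon⟩)) (not_le.2 hlt)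

/-- the proportion of the orders in which `k` is the first element of `U` -/
theorem first_eq (U : Finset V) {k : V} (hk : k ∈ U) (f : (V ≃ Fin n) → ℝ)
    (hf : ∀ (s : V ≃ Fin n) (u : V), IsSucc s U k u → f (sw s k u) = f s) :
    (U.card : ℝ) * ∑ s ∈ univ.filter (fun s : V ≃ Fin n => ∀ u ∈ U, u ≠ k → s k < s u), f s =
      ∑ s : V ≃ Fin n, f s := by
  classical
  have hstep : ∀ i, i + 1 < U.card →
      ∑ s ∈ univ.filter (fun s : V ≃ Fin n => rk s U k = i), f s =
        ∑ s ∈ univ.filter (fun s : V ≃ Fin n => rk s U k = i + 1), f s := by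
    intro i hi
    have hex : ∀ s : V ≃ Fin n, ∃ u, rk s U k = i → IsSucc s U k u := by
      intro s
      by_cases hs : rk s U k = i
      · obtain ⟨u, hu⟩ := exists_succ (s := s) (U := U) (k := k) (by rw [hs]; exact hi)
        exact ⟨u, fun _ => hu⟩
      · exact ⟨k, fun h => absurd h hs⟩
    choose g hg using hex
    refine sum_nbij (fun s => sw s k (g s)) ?_ ?_ ?_ ?_
    · intro s hs
      have hs' := (mem_filter.1 hs).2
      refine mem_filter.2 ⟨mem_univ _, ?_⟩
      rw [rk_sw (hg s hs'), hs']
    · intro s hs t ht hst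
      have hs' := (mem_filter.1 (mem_coe.1 hs)).2
      have ht' := (mem_filter.1 (mem_coe.1 ht)).2
      exact sw_succ_inj (hg s hs') (hg t ht') hst
    · intro t ht
      have ht' := (mem_filter.1 (mem_coe.1 ht)).2
      obtain ⟨u, hu⟩ := exists_pred (s := t) (U := U) (k := k) (by omega)
      have h1 : rk (sw t k u) U k = i := by
        have h2 := rk_sw hu
        rw [sw_sw, ht'] at h2
        omega
      refine ⟨sw t k u, mem_coe.2 (mem_filter.2 ⟨mem_univ _, h1⟩), ?_⟩
      change sw (sw t k u) k (g (sw t k u)) = t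
      rw [succ_unique (hg _ h1) hu, sw_sw]
    · intro s hs
      have hs' := (mem_filter.1 hs).2
      exact (hf s _ (hg s hs')).symm
  have hall : ∀ i, i < U.card → ∑ s ∈ univ.filter (fun s : V ≃ Fin n => rk s U k = i), f s =
      ∑ s ∈ univ.filter (fun s : V ≃ Fin n => rk s U k = 0), f s := by
    intro i
    induction i with
    | zero => intro _; rfl
    | succ i ih => intro hi; rw [← hstep i hi, ih (by omega)]
  have h0 : univ.filter (fun s : V ≃ Fin n => ∀ u ∈ U, u ≠ k → s k < s u) =
      univ.filter (fun s : V ≃ Fin n => rk s U k = 0) := by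
    ext s
    rw [mem_filter, mem_filter]
    refine and_congr_right fun _ => ?_
    unfold rk
    rw [card_eq_zero, filter_eq_empty_iff]
    constructor
    · intro h u hu hlt
      by_cases huk : u = k
      · rw [huk] at hlt
        exact absurd hlt (lt_irrefl _)
      · exact absurd (lt_trans hlt (h u hu huk)) (lt_irrefl _)
    · intro h u hu huk
      rcases lt_trichotomy (s k) (s u) with h4 | h4 | h4
      · exact h4
      · exact absurd (s.injective h4).symm huk
      · exact absurd h4 (h hu)
  have hmaps : ∀ s ∈ (univ : Finset (V ≃ Fin n)), rk s U k ∈ range U.card := by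
    intro s _
    rw [mem_range]
    unfold rk
    refine card_lt_card ⟨filter_subset _ _, fun hsub => ?_⟩
    exact absurd (mem_filter.1 (hsub hk)).2 (lt_irrefl _)
  rw [h0, ← sum_fiberwise_of_maps_to hmaps f, sum_congr rfl fun i hi => hall i (mem_range.1 hi),
    sum_const, card_range, nsmul_eq_mul]

end first

section perm

variable {V : Type} [Fintype V] [DecidableEq V] {n : ℕ}

open Classical in
/-- the weighted number of orders in which every `v ∈ R` with `D v ⊆ A` is preceded by some element
of `D v` -/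
theorem perm_eq (R Q : Finset V) (D : V → Finset V) (m : Finset V → ℝ)
    (G : (V ≃ Fin n) → ℝ) (hG : ∀ s : V ≃ Fin n, ∀ a ∈ Q, ∀ b ∈ Q, G (sw s a b) = G s)
    (A : Finset V) (hA : A ⊆ Q) (hR : Disjoint R A)
    (hQ : ∀ v ∈ R, D v ⊆ A → v ∈ Q ∧ (D v).Nonempty)
    (hm : ∀ S ⊆ A, ((R.filter fun v => D v = S).card : ℝ) + (if S.card = 1 then 1 else 0) = m S) :
    ∑ s ∈ univ.filter (fun s : V ≃ Fin n => Ev R D A s), G s =
      Ival m A * ∑ s : V ≃ Fin n, G s := by
  induction hc : A.card using Nat.strong_induction_on generalizing A with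
  | _ c ih =>
    rcases A.eq_empty_or_nonempty with h | hne
    · rw [h, Ival_empty, one_mul]
      congr 1
      rw [filter_true_of_mem]
      intro s _ v hv hDv
      obtain ⟨_, h2⟩ := hQ v hv (by rw [h]; exact hDv)
      rw [subset_empty.1 hDv] at h2
      exact absurd h2 (by simp)
    · set U : Finset V := A ∪ R.filter fun v => D v ⊆ A with hU
      have hUcard : (U.card : ℝ) = ∑ S ∈ A.powerset, m S := by
        have h1 : ∑ S ∈ A.powerset, m S =
            ∑ S ∈ A.powerset, ((R.filter fun v => D v = S).card : ℝ) +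
              ∑ S ∈ A.powerset, (if S.card = 1 then (1 : ℝ) else 0) := by
          rw [← sum_add_distrib]
          exact sum_congr rfl fun S hS => (hm S (mem_powerset.1 hS)).symm
        have h2 : ∑ S ∈ A.powerset, (if S.card = 1 then (1 : ℝ) else 0) = A.card := by
          rw [← sum_filter, sum_const, nsmul_eq_mul, mul_one]
          congr 1
          rw [← powersetCard_eq_filter, card_powersetCard, Nat.choose_one_right]
        have h3 : ∑ S ∈ A.powerset, ((R.filter fun v => D v = S).card : ℝ) =
            ((R.filter fun v => D v ⊆ A).card : ℝ) := by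
          rw [← Nat.cast_sum]
          congr 1
          rw [card_eq_sum_card_fiberwise (f := D) (t := A.powerset)]
          · refine sum_congr rfl fun S hS => ?_
            congr 1
            ext v
            rw [mem_filter, mem_filter, mem_filter]
            constructor
            · rintro ⟨h4, h5⟩
              exact ⟨⟨h4, by rw [h5]; exact mem_powerset.1 hS⟩, h5⟩
            · rintro ⟨⟨h4, _⟩, h5⟩
              exact ⟨h4, h5⟩
          · intro v hv
            exact mem_coe.2 (mem_powerset.2 (mem_filter.1 (mem_coe.1 hv)).2)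
        have h4 : Disjoint A (R.filter fun v => D v ⊆ A) :=
          (hR.mono_left (filter_subset _ _)).symm
        rw [h1, h2, h3, hU, card_union_of_disjoint h4]
        push_cast
        ring
      have hAU : A ⊆ U := subset_union_left
      have hUQ : U ⊆ Q := by
        intro v hv
        rcases mem_union.1 hv with h1 | h1
        · exact hA h1
        · rw [mem_filter] at h1
          exact (hQ v h1.1 h1.2).1
      have hUpos : (0 : ℝ) < U.card := by
        have : 0 < U.card := card_pos.2 (hne.mono hAU)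
        exact_mod_cast this
      -- the events
      have hEv : ∀ k ∈ A, ∀ s : V ≃ Fin n, ∀ u, IsSucc s U k u →
          (Ev R D (A.erase k) (sw s k u) ↔ Ev R D (A.erase k) s) := by
        intro k hk s u hsu
        have key : ∀ v ∈ R, D v ⊆ A.erase k → ∀ k' ∈ A.erase k,
            (sw s k u k' < sw s k u v ↔ s k' < s v) := by
          intro v hv hDv k' hk'
          have hvU : v ∈ U := mem_union_right _ (mem_filter.2 ⟨hv, hDv.trans (erase_subset _ _)⟩)
          have hvk : v ≠ k := by
            rintro rfl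
            exact (disjoint_left.1 hR hv) hk
          exact sw_lt_iff hsu (hAU (mem_of_mem_erase hk')) hvU (ne_of_mem_erase hk') hvk
        constructor
        · intro h v hv hDv
          obtain ⟨h1, h2⟩ := h v hv hDv
          refine ⟨fun h3 k' hk' => (key v hv hDv k' hk').1 (h1 h3 k' hk'), fun h3 => ?_⟩
          obtain ⟨k', hk', h4⟩ := h2 h3
          exact ⟨k', hk', (key v hv hDv k' (hDv hk')).1 h4⟩
        · intro h v hv hDv
          obtain ⟨h1, h2⟩ := h v hv hDv
          refine ⟨fun h3 k' hk' => (key v hv hDv k' hk').2 (h1 h3 k' hk'), fun h3 => ?_⟩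
          obtain ⟨k', hk', h4⟩ := h2 h3
          exact ⟨k', hk', (key v hv hDv k' (hDv hk')).2 h4⟩
      have hIH : ∀ k ∈ A, (U.card : ℝ) * ∑ s ∈ univ.filter (fun s : V ≃ Fin n =>
          (∀ u ∈ U, u ≠ k → s k < s u) ∧ Ev R D (A.erase k) s), G s =
            Ival m (A.erase k) * ∑ s : V ≃ Fin n, G s := by
        intro k hk
        have h1 := first_eq (n := n) U (hAU hk)
          (fun s => if Ev R D (A.erase k) s then G s else 0) (by
            intro s u hsu
            rw [hG s k (hA hk) u (hUQ hsu.1)]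
            simp only [hEv k hk s u hsu])
        rw [← sum_filter, ← sum_filter, filter_filter] at h1
        rw [h1]
        exact ih (A.erase k).card (by rw [← hc]; exact card_erase_lt_of_mem hk)
          (A.erase k) ((erase_subset _ _).trans hA) (hR.mono_right (erase_subset _ _))
          (fun v hv hDv => hQ v hv (hDv.trans (erase_subset _ _)))
          (fun S hS => hm S (hS.trans (erase_subset _ _))) rfl
      -- the decomposition by the first element
      have hdec : univ.filter (fun s : V ≃ Fin n => Ev R D A s) =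
          A.biUnion fun k => univ.filter fun s : V ≃ Fin n =>
            (∀ u ∈ U, u ≠ k → s k < s u) ∧ Ev R D (A.erase k) s := by
        ext s
        rw [mem_filter, mem_biUnion]
        constructor
        · rintro ⟨_, hs'⟩
          obtain ⟨x, hxU, hmin⟩ := exists_min_image U (fun u => s u) (hne.mono hAU)
          have hxlt : ∀ u ∈ U, u ≠ x → s x < s u := fun u hu hux =>
            lt_of_le_of_ne (hmin u hu) fun h => hux (s.injective h.symm)
          have hxA : x ∈ A := by
            rcases mem_union.1 hxU with h1 | h1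
            · exact h1
            · exfalso
              rw [mem_filter] at h1
              obtain ⟨h2, h3⟩ := hs' x h1.1 h1.2
              obtain ⟨k, hk, h5⟩ := h3 (hQ x h1.1 h1.2).2.ne_empty
              exact absurd h5 (not_lt.2 (hmin k (hAU (h1.2 hk))))
          refine ⟨x, hxA, mem_filter.2 ⟨mem_univ _, hxlt, ?_⟩⟩
          intro v hv hDv
          obtain ⟨h2, h3⟩ := hs' v hv (hDv.trans (erase_subset _ _))
          exact ⟨fun h4 k hk => h2 h4 k (mem_of_mem_erase hk), h3⟩
        · rintro ⟨k, hk, hs⟩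
          rw [mem_filter] at hs
          refine ⟨mem_univ _, fun v hv hDv => ?_⟩
          have hne' := (hQ v hv hDv).2
          refine ⟨fun h4 => absurd h4 hne'.ne_empty, fun _ => ?_⟩
          have hvU : v ∈ U := mem_union_right _ (mem_filter.2 ⟨hv, hDv⟩)
          by_cases hkD : k ∈ D v
          · refine ⟨k, hkD, hs.2.1 v hvU ?_⟩
            rintro rfl
            exact (disjoint_left.1 hR hv) hk
          · exact (hs.2.2 v hv (fun x hx => mem_erase.2 ⟨fun h5 => hkD (by rw [← h5]; exact hx),
              hDv hx⟩)).2 hne'.ne_empty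
      rw [hdec, sum_biUnion]
      · refine mul_left_cancel₀ hUpos.ne' ?_
        rw [mul_sum, sum_congr rfl hIH, ← sum_mul, ← mul_assoc]
        congr 1
        rw [Ival_eq m hne, ← hUcard, mul_div_cancel₀ _ hUpos.ne']
      · intro k _ k' _ hkk'
        rw [Function.onFun, disjoint_left]
        intro s hs hs'
        rw [mem_filter] at hs hs'
        rename_i hk hk'
        have h1 := hs.2.1 k' (hAU (by assumption)) (Ne.symm hkk')
        have h2 := hs'.2.1 k (hAU (by assumption)) hkk'
        exact absurd (lt_trans h1 h2) (lt_irrefl _)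

end perm

/-! ### The interchange of a vertex and its first robust neighbour -/

section robust

variable {V : Type} [DecidableEq V] {n : ℕ} {F : SimpleGraph V} {s : V ≃ Fin n} {X : Finset V}

/-- `u` is the first robust vertex adjacent to `z`, or `u = z` is robust -/
def IsFst (F : SimpleGraph V) (s : V ≃ Fin n) (X : Finset V) (z u : V) : Prop :=
  rob F s X u ∧ (z = u ∨ (F.Adj z u ∧ s u < s z ∧ ∀ w, rob F s X w → F.Adj z w → s u ≤ s w))

omit [DecidableEq V] in
theorem exists_fst [Fintype V] {z k : V} (hk : rob F s X k) (h : z = k ∨ F.Adj z k) :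
    ∃ u, IsFst F s X z u := by
  classical
  rcases h with h | h
  · exact ⟨k, hk, Or.inl h⟩
  · obtain ⟨u, hu, hmin⟩ := exists_min_image
      (univ.filter fun w => rob F s X w ∧ F.Adj z w) (fun w => s w)
      ⟨k, mem_filter.2 ⟨mem_univ _, hk, h⟩⟩
    rw [mem_filter] at hu
    obtain ⟨w, hw, hzw, hlt⟩ := Tr_first (mem_Tr.2 hu.2.1) hu.2.2
    refine ⟨u, hu.2.1, Or.inr ⟨hu.2.2, ?_, fun w hw hzw => hmin w
      (mem_filter.2 ⟨mem_univ _, hw, hzw⟩)⟩⟩
    exact lt_of_le_of_lt (hmin w (mem_filter.2 ⟨mem_univ _, mem_Tr.1 hw, hzw⟩)) hlt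

/-- after the interchange `z` is the first neighbour of `u` that is not killed -/
theorem next_of_fst {z u : V} (h : IsFst F s X z u) (hzu : z ≠ u) :
    IsNext F (sw s u z) X u z := by
  obtain ⟨hr, h1⟩ := h
  obtain ⟨hadj, hlt, hmin⟩ := h1.resolve_left hzu
  have hpre : ∀ y, s y < s u → sw s u z y = s y := by
    intro y hy
    apply sw_ne
    · rintro rfl
      exact absurd hy (lt_irrefl _)
    · rintro rfl
      exact absurd (lt_trans hy hlt) (lt_irrefl _)
  refine ⟨hadj.symm, ?_, ?_, ?_⟩
  · rw [sw_left, sw_right]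
    exact hlt
  · rintro ⟨w, hw, hlt2, hrw⟩
    rw [sw_right] at hlt2
    have h2 := prefix_symm hpre w hlt2
    have h3 : s w < s u := by rw [h2]; exact hlt2
    have h4 := (rob_prefix hpre h3).2 hrw
    exact absurd (hmin w h4 hw) (not_le.2 h3)
  · intro y hy hlt2
    rw [sw_right] at hlt2
    have h2 := prefix_symm hpre y hlt2
    have h3 : s y < s u := by rw [h2]; exact hlt2
    exact (killed_prefix hpre h3).1 ((rob_iff.1 hr).2 y hy h3)

/-- the map `(s, z) ↦ (sw s u z, u)` is injective -/
theorem fst_inj {s₁ s₂ : V ≃ Fin n} {z₁ z₂ u : V} (h₁ : IsFst F s₁ X z₁ u)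
    (h₂ : IsFst F s₂ X z₂ u) (h : sw s₁ u z₁ = sw s₂ u z₂) : s₁ = s₂ ∧ z₁ = z₂ := by
  have hself : ∀ t : V ≃ Fin n, sw t u u = t := by
    intro t
    ext y
    unfold sw
    simp
  have key : ∀ {s s' : V ≃ Fin n} {z : V}, IsFst F s X z u → rob F s' X u → z ≠ u →
      sw s u z = s' → False := by
    intro s s' z h1 h2 h3 h4
    have h5 := next_of_fst h1 h3
    rw [h4] at h5
    exact h5.2.2.1 ((rob_iff.1 h2).2 z h5.1 h5.2.1)
  by_cases e₁ : z₁ = u
  · by_cases e₂ : z₂ = u
    · rw [e₁, e₂, hself, hself] at h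
      exact ⟨h, by rw [e₁, e₂]⟩
    · rw [e₁, hself] at h
      exact (key h₂ h₁.1 e₂ h.symm).elim
  · by_cases e₂ : z₂ = u
    · rw [e₂, hself] at h
      exact (key h₁ h₂.1 e₁ h).elim
    · have n₁ := next_of_fst h₁ e₁
      have n₂ := next_of_fst h₂ e₂
      rw [← h] at n₂
      have hz := next_unique n₁ n₂
      subst hz
      refine ⟨?_, rfl⟩
      rw [← sw_sw (s := s₁) u z₁, h, sw_sw]

/-- the sum over the vertices dominated by robust vertices -/
theorem robust_inj [Fintype V] (X Lam : Finset V) (C : (V ≃ Fin n) → Finset V)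
    (hC : ∀ s : V ≃ Fin n, ∀ z ∈ C s, ∃ k, rob F s X k ∧ (z = k ∨ F.Adj z k))
    (f : (V ≃ Fin n) → ℝ) (f' : V → (V ≃ Fin n) → ℝ) (hf' : ∀ u s, 0 ≤ f' u s)
    (h : ∀ s : V ≃ Fin n, ∀ z ∈ C s, ∀ u, IsFst F s X z u → f s ≠ 0 →
      u ∈ Lam ∧ f s ≤ f' u (sw s u z)) :
    ∑ s : V ≃ Fin n, f s * ((C s).card : ℝ) ≤ ∑ u ∈ Lam, ∑ s : V ≃ Fin n, f' u s := by
  classical
  have hex : ∀ s : V ≃ Fin n, ∀ z : V, ∃ u, z ∈ C s → IsFst F s X z u := by
    intro s z
    by_cases hz : z ∈ C s
    · obtain ⟨k, hk, h1⟩ := hC s z hz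
      obtain ⟨u, hu⟩ := exists_fst hk h1
      exact ⟨u, fun _ => hu⟩
    · exact ⟨z, fun h => absurd h hz⟩
  choose g hg using hex
  set S : Finset ((V ≃ Fin n) × V) :=
    (univ ×ˢ univ).filter fun p => p.2 ∈ C p.1 ∧ f p.1 ≠ 0 with hS
  have h1 : ∑ s : V ≃ Fin n, f s * ((C s).card : ℝ) = ∑ p ∈ S, f p.1 := by
    rw [hS, sum_filter, sum_product]
    refine sum_congr rfl fun s _ => ?_
    have h2 : ∀ z ∈ (univ : Finset V), (if z ∈ C s ∧ f s ≠ 0 then f s else 0) =
        if z ∈ C s then f s else 0 := by
      intro z _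
      by_cases h3 : f s = 0
      · simp [h3]
      · simp [h3]
    change f s * ((C s).card : ℝ) = ∑ z : V, if z ∈ C s ∧ f s ≠ 0 then f s else 0
    rw [sum_congr rfl h2, ← sum_filter, sum_const, nsmul_eq_mul]
    have h3 : univ.filter (fun z => z ∈ C s) = C s := by
      ext z
      simp
    rw [h3, mul_comm]
  set φ : (V ≃ Fin n) × V → V × (V ≃ Fin n) := fun p => (g p.1 p.2, sw p.1 (g p.1 p.2) p.2)
    with hφ
  have hinj : Set.InjOn φ S := by
    intro p hp p' hp' hpp
    rw [mem_coe, hS, mem_filter] at hp hp'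
    simp only [hφ, Prod.mk.injEq] at hpp
    have h2 := hg p.1 p.2 hp.2.1
    have h3 := hg p'.1 p'.2 hp'.2.1
    rw [← hpp.1] at h3
    have h4 := fst_inj h2 h3 (by rw [hpp.2, hpp.1])
    exact Prod.ext h4.1 h4.2
  calc ∑ s : V ≃ Fin n, f s * ((C s).card : ℝ) = ∑ p ∈ S, f p.1 := h1
    _ ≤ ∑ p ∈ S, f' (φ p).1 (φ p).2 := by
        refine sum_le_sum fun p hp => ?_
        rw [hS, mem_filter] at hp
        exact (h p.1 p.2 hp.2.1 _ (hg p.1 p.2 hp.2.1) hp.2.2).2
    _ = ∑ r ∈ S.image φ, f' r.1 r.2 := (sum_image (f := fun r => f' r.1 r.2) hinj).symm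
    _ ≤ ∑ r ∈ Lam ×ˢ univ, f' r.1 r.2 := by
        refine sum_le_sum_of_subset_of_nonneg ?_ fun r _ _ => hf' _ _
        intro r hr
        obtain ⟨p, hp, rfl⟩ := mem_image.1 hr
        rw [hS, mem_filter] at hp
        exact mem_product.2 ⟨(h p.1 p.2 hp.2.1 _ (hg p.1 p.2 hp.2.1) hp.2.2).1, mem_univ _⟩
    _ = ∑ u ∈ Lam, ∑ s : V ≃ Fin n, f' u s := sum_product _ _ _

end robust

end MP76b19e.Rob
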