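import Pool.Agent.Lib.MP76b19e.Rob.Ival

/-!
# An exact potential for the recursion `Ival` (problem MP_76b19e_co)

Masses `m D` (`D` a finite set, `m ∅ = c` undominated mass), `∑_{D ∋ k} m D ≤ 1` for every `k ∈ K`.
`pQ K = ∑_{D ⊆ K} m D - |K| + 2`, `pg j = (1 - m {j}) / (m {j} + m ∅)` and
`ph K = 2 + ∑ (|D| - 2)^+ m D + ∑_{j ∈ K} (1 + ∑ (|D \ j| - 1)^+ m D) pg j`. Theorem (helper37):
`(1 + m ∅) * pQ K * Ival m K ≤ ph K` if `pQ K > 0` and `|K| ≥ 2` (equality for `|K| = 2`).
-/

set_option autoImplicit false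

open Finset

namespace MP76b19e.Rob

variable {V : Type} [DecidableEq V]

/-- total mass -/
noncomputable def pal (m : Finset V → ℝ) (A : Finset V) : ℝ := ∑ D ∈ A.powerset, m D

/-- excess -/
noncomputable def pQ (m : Finset V → ℝ) (A : Finset V) : ℝ := pal m A - A.card + 2

/-- mass of the sets which contain `j` -/
noncomputable def pa (m : Finset V → ℝ) (A : Finset V) (j : V) : ℝ :=
  ∑ D ∈ A.powerset, if j ∈ D then m D else 0

/-- shared mass -/
noncomputable def pN (m : Finset V → ℝ) (A : Finset V) : ℝ :=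
  ∑ D ∈ A.powerset, if 2 ≤ D.card then m D else 0

/-- overlaps -/
noncomputable def po (m : Finset V → ℝ) (A : Finset V) : ℝ :=
  ∑ D ∈ A.powerset, ((D.card - 1 : ℕ) : ℝ) * m D

/-- higher overlaps -/
noncomputable def pt (m : Finset V → ℝ) (A : Finset V) : ℝ :=
  ∑ D ∈ A.powerset, ((D.card - 2 : ℕ) : ℝ) * m D

/-- overlaps without `j` -/
noncomputable def pom (m : Finset V → ℝ) (A : Finset V) (j : V) : ℝ :=
  ∑ D ∈ A.powerset, (((D.erase j).card - 1 : ℕ) : ℝ) * m D

/-- free mass divided by private mass -/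
noncomputable def pg (m : Finset V → ℝ) (j : V) : ℝ := (1 - m {j}) / (m {j} + m ∅)

/-- the potential -/
noncomputable def ph (m : Finset V → ℝ) (A : Finset V) : ℝ :=
  2 + pt m A + ∑ j ∈ A, (1 + pom m A j) * pg m j

variable {m : Finset V → ℝ} {K : Finset V}

/-! ### Double counting -/

theorem sum_erase_powerset (K S : Finset V) (φ : Finset V → ℝ) :
    ∑ k ∈ S, ∑ D ∈ (K.erase k).powerset, φ D = ∑ D ∈ K.powerset, ((S \ D).card : ℝ) * φ D := by
  have h1 : ∀ k ∈ S, ∑ D ∈ (K.erase k).powerset, φ D =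
      ∑ D ∈ K.powerset, if k ∉ D then φ D else 0 := by
    intro k _
    rw [← sum_filter]
    refine sum_congr ?_ fun _ _ => rfl
    ext D
    rw [mem_powerset, mem_filter, mem_powerset, subset_erase]
  rw [sum_congr rfl h1, sum_comm]
  refine sum_congr rfl fun D _ => ?_
  rw [← sum_filter, sum_const, nsmul_eq_mul]
  congr 2
  rw [← Finset.filter_notMem_eq_sdiff]

theorem pal_erase (k : V) : pal m (K.erase k) = pal m K - pa m K k := by
  unfold pal pa
  have h1 : ∑ D ∈ (K.erase k).powerset, m D = ∑ D ∈ K.powerset, if k ∉ D then m D else 0 := by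
    rw [← sum_filter]
    refine sum_congr ?_ fun _ _ => rfl
    ext D
    rw [mem_powerset, mem_filter, mem_powerset, subset_erase]
  rw [h1, ← sum_sub_distrib]
  refine sum_congr rfl fun D _ => ?_
  by_cases h : k ∈ D
  · rw [if_pos h, if_neg (by simpa using h), sub_self]
  · rw [if_neg h, if_pos h, sub_zero]

theorem pQ_erase {k : V} (hk : k ∈ K) : pQ m (K.erase k) = pQ m K + (1 - pa m K k) := by
  unfold pQ
  rw [pal_erase k, card_erase_of_mem hk]
  have : 1 ≤ K.card := card_pos.2 ⟨k, hk⟩
  push_cast [Nat.cast_sub this]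
  ring

/-- the sum of the `a_j` -/
theorem sum_pa : ∑ j ∈ K, pa m K j = pal m K - m ∅ + po m K := by
  unfold pa pal po
  rw [sum_comm]
  have h1 : ∀ D ∈ K.powerset, (∑ j ∈ K, if j ∈ D then m D else 0) =
      m D - (if D = ∅ then m D else 0) + ((D.card - 1 : ℕ) : ℝ) * m D := by
    intro D hD
    rw [mem_powerset] at hD
    rw [← sum_filter, sum_const, nsmul_eq_mul]
    have h2 : K.filter (fun j => j ∈ D) = D := by
      ext j
      rw [mem_filter]
      exact ⟨fun h => h.2, fun h => ⟨hD h, h⟩⟩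
    rw [h2]
    rcases D.eq_empty_or_nonempty with h0 | h0
    · subst h0
      simp
    · rw [if_neg h0.ne_empty]
      have : 1 ≤ D.card := card_pos.2 h0
      push_cast [Nat.cast_sub this]
      ring
  rw [sum_congr rfl h1, sum_add_distrib, sum_sub_distrib]
  congr 2
  rw [sum_ite_eq' (K.powerset) ∅, if_pos (empty_mem_powerset K)]

/-- the identity for one element -/
theorem pa_add_pom {j : V} (hj : j ∈ K) : pa m K j + pom m K j = m {j} + po m K := by
  unfold pa pom po
  have h1 : m {j} = ∑ D ∈ K.powerset, if D = {j} then m D else 0 := by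
    rw [sum_ite_eq' (K.powerset) {j}, if_pos (mem_powerset.2 (singleton_subset_iff.2 hj))]
  rw [h1, ← sum_add_distrib, ← sum_add_distrib]
  refine sum_congr rfl fun D _ => ?_
  by_cases h : j ∈ D
  · rw [if_pos h, card_erase_of_mem h]
    by_cases h2 : D = {j}
    · subst h2
      simp
    · rw [if_neg h2]
      have h3 : 2 ≤ D.card := by
        by_contra hcon
        push Not at hcon
        have h4 : D.card = 1 := by
          have := card_pos.2 ⟨j, h⟩
          omega
        obtain ⟨a, ha⟩ := card_eq_one.1 h4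
        rw [ha, mem_singleton] at h
        rw [h] at h2
        exact h2 ha
      have h4 : D.card - 1 - 1 + 1 = D.card - 1 := by omega
      have h5 : ((D.card - 1 - 1 : ℕ) : ℝ) + 1 = ((D.card - 1 : ℕ) : ℝ) := by exact_mod_cast h4
      rw [← h5]
      ring
  · rw [if_neg h, erase_eq_of_notMem h, if_neg]
    rintro rfl
    exact h (mem_singleton_self j)

theorem po_eq : po m K = pN m K + pt m K := by
  unfold po pN pt
  rw [← sum_add_distrib]
  refine sum_congr rfl fun D _ => ?_
  by_cases h : 2 ≤ D.card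
  · rw [if_pos h]
    have h4 : D.card - 1 = 1 + (D.card - 2) := by omega
    rw [h4]
    push_cast
    ring
  · rw [if_neg h]
    have h4 : D.card - 1 = 0 := by omega
    have h5 : D.card - 2 = 0 := by omega
    rw [h4, h5]
    ring

/-- the total mass -/
theorem pal_eq : pal m K = m ∅ + ∑ j ∈ K, m {j} + pN m K := by
  unfold pal pN
  have h1 : ∀ D ∈ K.powerset, m D = (if D = ∅ then m D else 0) +
      (∑ j ∈ K, if D = {j} then m D else 0) + (if 2 ≤ D.card then m D else 0) := by
    intro D hD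
    rw [mem_powerset] at hD
    rcases Nat.lt_or_ge D.card 2 with h | h
    · rw [if_neg (show ¬ 2 ≤ D.card by omega), add_zero]
      rcases D.eq_empty_or_nonempty with h0 | h0
      · rw [if_pos h0, sum_eq_zero, add_zero]
        intro j _
        rw [if_neg]
        rintro rfl
        exact singleton_ne_empty j h0
      · have h2 : D.card = 1 := by
          have := card_pos.2 h0
          omega
        obtain ⟨a, ha⟩ := card_eq_one.1 h2
        rw [if_neg h0.ne_empty, zero_add]
        have haK : a ∈ K := hD (by rw [ha]; exact mem_singleton_self a)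
        rw [sum_eq_single_of_mem a haK, if_pos ha]
        intro j _ hj
        rw [if_neg]
        intro h3
        rw [ha] at h3
        exact hj (singleton_injective h3).symm
    · have h0 : D ≠ ∅ := by
        rintro rfl
        rw [card_empty] at h
        omega
      rw [if_pos h, if_neg h0, sum_eq_zero, zero_add, zero_add]
      intro j _
      rw [if_neg]
      rintro rfl
      rw [card_singleton] at h
      omega
  rw [sum_congr rfl h1, sum_add_distrib, sum_add_distrib]
  congr 2
  · rw [sum_ite_eq' (K.powerset) ∅, if_pos (empty_mem_powerset K)]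
  · rw [sum_comm]
    refine sum_congr rfl fun j hj => ?_
    rw [sum_ite_eq' (K.powerset) {j}, if_pos (mem_powerset.2 (singleton_subset_iff.2 hj))]

/-- squares -/
noncomputable def ps2 (m : Finset V → ℝ) (A : Finset V) : ℝ :=
  ∑ D ∈ A.powerset, ((D.card - 2 : ℕ) : ℝ) ^ 2 * m D

/-- squares without `j` -/
noncomputable def pV (m : Finset V → ℝ) (A : Finset V) (j : V) : ℝ :=
  ∑ D ∈ A.powerset, (((D.erase j).card - 1 : ℕ) : ℝ) ^ 2 * m D

theorem sum_pt_erase : ∑ k ∈ K, pt m (K.erase k) = ((K.card : ℝ) - 2) * pt m K - ps2 m K := by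
  unfold pt ps2
  rw [sum_erase_powerset K K (fun D => ((D.card - 2 : ℕ) : ℝ) * m D), mul_sum,
    ← sum_sub_distrib]
  refine sum_congr rfl fun D hD => ?_
  rw [mem_powerset] at hD
  have h1 := card_sdiff_add_card_eq_card hD
  have h2 : ((K \ D).card : ℝ) = K.card - D.card := by
    have : (((K \ D).card + D.card : ℕ) : ℝ) = (K.card : ℝ) := by exact_mod_cast h1
    push_cast at this
    linarith
  rw [h2]
  rcases Nat.lt_or_ge D.card 2 with h | h
  · have h5 : D.card - 2 = 0 := by omega
    rw [h5]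
    push_cast
    ring
  · push_cast [Nat.cast_sub h]
    ring

theorem sum_pom_erase {j : V} (hj : j ∈ K) : ∑ k ∈ K.erase j, pom m (K.erase k) j =
    ((K.card : ℝ) - 2) * pom m K j - pV m K j := by
  unfold pom pV
  rw [sum_erase_powerset K (K.erase j)
    (fun D => (((D.erase j).card - 1 : ℕ) : ℝ) * m D), mul_sum, ← sum_sub_distrib]
  refine sum_congr rfl fun D hD => ?_
  rw [mem_powerset] at hD
  have h0 : D.erase j ⊆ K.erase j := erase_subset_erase j hD
  have h1 := card_sdiff_add_card_eq_card h0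
  have h3 : K.erase j \ D.erase j = K.erase j \ D := by
    ext x
    simp only [mem_sdiff, mem_erase]
    constructor
    · rintro ⟨⟨h4, h5⟩, h6⟩
      exact ⟨⟨h4, h5⟩, fun h7 => h6 ⟨h4, h7⟩⟩
    · rintro ⟨⟨h4, h5⟩, h6⟩
      exact ⟨⟨h4, h5⟩, fun h7 => h6 h7.2⟩
  rw [h3, card_erase_of_mem hj] at h1
  have hK : 1 ≤ K.card := card_pos.2 ⟨j, hj⟩
  have h2 : ((K.erase j \ D).card : ℝ) = K.card - 1 - (D.erase j).card := by
    have : (((K.erase j \ D).card + (D.erase j).card : ℕ) : ℝ) = ((K.card - 1 : ℕ) : ℝ) := by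
      exact_mod_cast h1
    push_cast [Nat.cast_sub hK] at this
    linarith
  rw [h2]
  rcases Nat.lt_or_ge (D.erase j).card 1 with h | h
  · have h5 : (D.erase j).card - 1 = 0 := by omega
    rw [h5]
    push_cast
    ring
  · push_cast [Nat.cast_sub h]
    ring

/-- the sum of the potentials -/
theorem sum_ph_erase : ∑ k ∈ K, ph m (K.erase k) = 2 * K.card + ((K.card : ℝ) - 2) * pt m K -
    ps2 m K + ∑ j ∈ K, ((K.card : ℝ) - 1 + ((K.card : ℝ) - 2) * pom m K j - pV m K j) * pg m j := by
  unfold ph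
  rw [sum_add_distrib, sum_add_distrib, sum_pt_erase, sum_const, nsmul_eq_mul]
  have h1 : ∑ k ∈ K, ∑ j ∈ K.erase k, (1 + pom m (K.erase k) j) * pg m j =
      ∑ j ∈ K, ∑ k ∈ K.erase j, (1 + pom m (K.erase k) j) * pg m j := by
    refine sum_comm' fun k j => ?_
    simp only [mem_erase]
    constructor
    · rintro ⟨h1, h2, h3⟩
      exact ⟨⟨Ne.symm h2, h1⟩, h3⟩
    · rintro ⟨⟨h1, h2⟩, h3⟩
      exact ⟨h2, Ne.symm h1, h3⟩
  rw [h1]
  have h2 : ∀ j ∈ K, ∑ k ∈ K.erase j, (1 + pom m (K.erase k) j) * pg m j =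
      ((K.card : ℝ) - 1 + ((K.card : ℝ) - 2) * pom m K j - pV m K j) * pg m j := by
    intro j hj
    rw [← sum_mul, sum_add_distrib, sum_pom_erase hj, sum_const, card_erase_of_mem hj,
      nsmul_eq_mul]
    have hK : 1 ≤ K.card := card_pos.2 ⟨j, hj⟩
    push_cast [Nat.cast_sub hK]
    ring
  rw [sum_congr rfl h2]
  ring

/-! ### Estimates -/

theorem pt_nonneg (h : ∀ D, 0 ≤ m D) : 0 ≤ pt m K :=
  sum_nonneg fun D _ => mul_nonneg (Nat.cast_nonneg _) (h D)

theorem po_nonneg (h : ∀ D, 0 ≤ m D) : 0 ≤ po m K :=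
  sum_nonneg fun D _ => mul_nonneg (Nat.cast_nonneg _) (h D)

theorem pom_nonneg (h : ∀ D, 0 ≤ m D) (j : V) : 0 ≤ pom m K j :=
  sum_nonneg fun D _ => mul_nonneg (Nat.cast_nonneg _) (h D)

theorem pN_nonneg (h : ∀ D, 0 ≤ m D) : 0 ≤ pN m K := by
  refine sum_nonneg fun D _ => ?_
  split_ifs
  · exact h D
  · exact le_rfl

theorem pom_le_pV (h : ∀ D, 0 ≤ m D) (j : V) : pom m K j ≤ pV m K j := by
  refine sum_le_sum fun D _ => mul_le_mul_of_nonneg_right ?_ (h D)
  have h1 : ((D.erase j).card - 1) ≤ ((D.erase j).card - 1) ^ 2 := Nat.le_self_pow (by norm_num) _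
  exact_mod_cast h1

theorem pt_le_ps2 (h : ∀ D, 0 ≤ m D) : pt m K ≤ ps2 m K := by
  refine sum_le_sum fun D _ => mul_le_mul_of_nonneg_right ?_ (h D)
  have h1 : (D.card - 2) ≤ (D.card - 2) ^ 2 := Nat.le_self_pow (by norm_num) _
  exact_mod_cast h1

theorem pa_erase_le (h : ∀ D, 0 ≤ m D) (k j : V) : pa m (K.erase k) j ≤ pa m K j := by
  unfold pa
  refine sum_le_sum_of_subset_of_nonneg (powerset_mono.2 (erase_subset k K)) fun D _ _ => ?_
  split_ifs
  · exact h D
  · exact le_rfl

theorem le_pa (h : ∀ D, 0 ≤ m D) {j : V} (hj : j ∈ K) : m {j} ≤ pa m K j := by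
  unfold pa
  have h1 : m {j} = if j ∈ ({j} : Finset V) then m {j} else 0 := by
    rw [if_pos (mem_singleton_self j)]
  rw [h1]
  refine single_le_sum (f := fun D => if j ∈ D then m D else 0) (fun D _ => ?_)
    (mem_powerset.2 (singleton_subset_iff.2 hj))
  split_ifs
  · exact h D
  · exact le_rfl

theorem pN_erase_le (h : ∀ D, 0 ≤ m D) (k : V) : pN m (K.erase k) ≤ pom m K k := by
  unfold pN pom
  have h1 : ∀ D ∈ (K.erase k).powerset, (if 2 ≤ D.card then m D else 0) ≤
      (((D.erase k).card - 1 : ℕ) : ℝ) * m D := by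
    intro D hD
    rw [mem_powerset, subset_erase] at hD
    rw [erase_eq_of_notMem hD.2]
    split_ifs with h2
    · have h3 : (1 : ℝ) ≤ ((D.card - 1 : ℕ) : ℝ) := by
        have : 1 ≤ D.card - 1 := by omega
        exact_mod_cast this
      nlinarith [h D]
    · exact mul_nonneg (Nat.cast_nonneg _) (h D)
  refine (sum_le_sum h1).trans ?_
  refine sum_le_sum_of_subset_of_nonneg (powerset_mono.2 (erase_subset k K)) fun D _ _ => ?_
  exact mul_nonneg (Nat.cast_nonneg _) (h D)

theorem pg_mul (h : PosM m) (j : V) : pg m j * (m {j} + m ∅) = 1 - m {j} := by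
  unfold pg
  have h1 : 0 < m {j} + m ∅ := add_pos_of_pos_of_nonneg (h.2 j) (h.1 ∅)
  rw [div_mul_cancel₀ _ h1.ne']

theorem pg_nonneg (h : PosM m) {j : V} (hj : j ∈ K) (ha : pa m K j ≤ 1) : 0 ≤ pg m j := by
  unfold pg
  have h1 : 0 < m {j} + m ∅ := add_pos_of_pos_of_nonneg (h.2 j) (h.1 ∅)
  have h2 := le_pa (K := K) h.1 hj
  exact div_nonneg (by linarith) h1.le

/-- `∑ (1 - a_j)` -/
theorem sum_one_sub_pa : ∑ j ∈ K, (1 - pa m K j) = 2 - pQ m K + m ∅ - po m K := by
  rw [sum_sub_distrib, sum_pa, sum_const, nsmul_eq_mul, mul_one]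
  unfold pQ
  ring

/-- `∑ (1 - m_j)` -/
theorem sum_one_sub_m : ∑ j ∈ K, (1 - m {j}) = 2 - pQ m K + m ∅ + pN m K := by
  rw [sum_sub_distrib, sum_const, nsmul_eq_mul, mul_one]
  have := pal_eq (m := m) (K := K)
  unfold pQ
  linarith

/-- the private mass is large -/
theorem key_one {j : V} (hj : j ∈ K) (ha : ∀ i ∈ K, pa m K i ≤ 1) :
    pom m K j + (pQ m K - 1) ≤ m {j} + m ∅ := by
  have h1 := sum_one_sub_pa (m := m) (K := K)
  have h2 : 1 - pa m K j ≤ ∑ i ∈ K, (1 - pa m K i) :=
    single_le_sum (f := fun i => 1 - pa m K i) (fun i hi => by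
      have := ha i hi
      linarith) hj
  have h3 := pa_add_pom (m := m) hj
  linarith

/-- the difference between the potential and its leading part -/
noncomputable def pY (m : Finset V → ℝ) (A : Finset V) : ℝ :=
  ph m A - pQ m A * (1 + ∑ j ∈ A, pg m j)

theorem pY_eq : pY m K = (2 - pQ m K) + pt m K + ∑ j ∈ K, pg m j * (pom m K j - (pQ m K - 1)) := by
  unfold pY ph
  rw [mul_add, mul_sum]
  have h1 : ∑ j ∈ K, pg m j * (pom m K j - (pQ m K - 1)) =
      ∑ j ∈ K, (1 + pom m K j) * pg m j - ∑ j ∈ K, pQ m K * pg m j := by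
    rw [← sum_sub_distrib]
    exact sum_congr rfl fun j _ => by ring
  rw [h1]
  ring

theorem sum_pg_mul (h : PosM m) :
    ∑ j ∈ K, pg m j * (m {j} + m ∅) = 2 - pQ m K + m ∅ + pN m K := by
  rw [sum_congr rfl fun j _ => pg_mul h j]
  exact sum_one_sub_m

theorem pY_ge (h : PosM m) (ha : ∀ i ∈ K, pa m K i ≤ 1) : -(pN m K) - m ∅ ≤ pY m K := by
  rw [pY_eq]
  have h1 := sum_pg_mul (K := K) h
  have h2 : 0 ≤ ∑ j ∈ K, pg m j * (m {j} + m ∅ + pom m K j - (pQ m K - 1)) := by
    refine sum_nonneg fun j hj => mul_nonneg (pg_nonneg h hj (ha j hj)) ?_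
    have h3 := key_one hj ha
    have h4 := pom_nonneg (K := K) h.1 j
    linarith
  have h3 : ∑ j ∈ K, pg m j * (m {j} + m ∅ + pom m K j - (pQ m K - 1)) =
      ∑ j ∈ K, pg m j * (m {j} + m ∅) + ∑ j ∈ K, pg m j * (pom m K j - (pQ m K - 1)) := by
    rw [← sum_add_distrib]
    exact sum_congr rfl fun j _ => by ring
  have h4 := pt_nonneg (K := K) h.1
  linarith

theorem pY_ge_of_le (h : PosM m) (ha : ∀ i ∈ K, pa m K i ≤ 1) (hQ : pQ m K ≤ 1) :
    0 ≤ pY m K := by
  rw [pY_eq]
  have h2 : 0 ≤ ∑ j ∈ K, pg m j * (pom m K j - (pQ m K - 1)) := by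
    refine sum_nonneg fun j hj => mul_nonneg (pg_nonneg h hj (ha j hj)) ?_
    have h4 := pom_nonneg (K := K) h.1 j
    linarith
  have h4 := pt_nonneg (K := K) h.1
  linarith

theorem pY_ge_of_lt (h : PosM m) (ha : ∀ i ∈ K, pa m K i ≤ 1) {t : ℝ} (ht : pQ m K = 1 + t)
    (ht0 : 0 < t) (htc : t < m ∅) :
    1 - t - t / m ∅ * (1 + m ∅ + pN m K - t) ≤ pY m K := by
  have hc : 0 < m ∅ := ht0.trans htc
  rw [pY_eq]
  have h1 := sum_pg_mul (K := K) h
  have h2 : 0 ≤ ∑ j ∈ K, pg m j * (pom m K j - (pQ m K - 1) + t / m ∅ * (m {j} + m ∅)) := by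
    refine sum_nonneg fun j hj => mul_nonneg (pg_nonneg h hj (ha j hj)) ?_
    have h4 := pom_nonneg (K := K) h.1 j
    have h5 : t ≤ t / m ∅ * (m {j} + m ∅) := by
      rw [div_mul_eq_mul_div, le_div_iff₀ hc]
      have := h.2 j
      nlinarith
    linarith
  have h3 : ∑ j ∈ K, pg m j * (pom m K j - (pQ m K - 1) + t / m ∅ * (m {j} + m ∅)) =
      ∑ j ∈ K, pg m j * (pom m K j - (pQ m K - 1)) +
        t / m ∅ * ∑ j ∈ K, pg m j * (m {j} + m ∅) := by
    rw [mul_sum, ← sum_add_distrib]
    exact sum_congr rfl fun j _ => by ring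
  have h4 := pt_nonneg (K := K) h.1
  rw [h1] at h3
  have h5 : t / m ∅ * (2 - pQ m K + m ∅ + pN m K) = t / m ∅ * (1 + m ∅ + pN m K - t) := by
    rw [ht]; ring
  linarith

/-- the scalar inequality -/
theorem scal {c d t N p Y Q g w : ℝ} (hd : 0 ≤ d) (hd1 : d ≤ 1) (hQ : Q + d = 1 + t)
    (hQ0 : 0 < Q) (hN : 0 ≤ N) (hNp : N ≤ p) (hg : 0 ≤ g) (hgd : d ≤ g * (1 + c - d)) (hw : 0 ≤ w)
    (hY1 : -N - c ≤ Y) (hY2 : t ≤ 0 → 0 ≤ Y)
    (hY3 : 0 < t → t < c → 1 - t - t / c * (1 + c + N - t) ≤ Y)
    (hw1 : c ≤ t → c ≤ w * (1 + t))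
    (hw2 : 0 < t → t < c → t - (1 - t) * (1 - t / c) ≤ w * (1 + t)) :
    0 ≤ d / (Q + d) * Y + Q * g * p + w * d := by
  rw [hQ]
  have ht1 : 0 < 1 + t := by linarith
  have hp : 0 ≤ p := hN.trans hNp
  rcases le_or_gt t 0 with h0 | h0
  · have h1 := hY2 h0
    have h2 : 0 ≤ d / (1 + t) * Y := mul_nonneg (div_nonneg hd ht1.le) h1
    have h3 : 0 ≤ Q * g * p := by positivity
    have h4 : 0 ≤ w * d := by positivity
    linarith
  -- multiply by `1 + t`
  have hmul : 0 ≤ d * Y + (1 + t) * (Q * g * p) + w * (1 + t) * d := by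
    rcases le_or_gt c t with h1 | h1
    · have h2 := hw1 h1
      have h3 : (1 + c - d) ≤ Q := by linarith
      have h4 : d ≤ Q * g := by
        refine hgd.trans ?_
        rw [mul_comm Q g]
        exact mul_le_mul_of_nonneg_left h3 hg
      have h5 : d * N ≤ (1 + t) * (Q * g * p) := by
        have h6 : d * N ≤ Q * g * p := mul_le_mul h4 hNp hN (by positivity)
        have h7 : 0 ≤ Q * g * p := by positivity
        nlinarith
      have h6 : d * (-N - c) ≤ d * Y := mul_le_mul_of_nonneg_left hY1 hd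
      have h7 : c * d ≤ w * (1 + t) * d := mul_le_mul_of_nonneg_right h2 hd
      nlinarith
    · have hc0 : 0 < c := h0.trans h1
      have h2 := hw2 h0 h1
      have h3 := hY3 h0 h1
      have h4 : t / c * d ≤ Q * g := by
        rw [div_mul_eq_mul_div, div_le_iff₀ hc0]
        have h5 : t * (1 + c - d) ≤ Q * c := by
          have : Q = 1 + t - d := by linarith
          rw [this]
          nlinarith [mul_nonneg (sub_nonneg.2 h1.le) (sub_nonneg.2 hd1)]
        have h6 : t * d ≤ t * (g * (1 + c - d)) := mul_le_mul_of_nonneg_left hgd h0.le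
        have h7 : g * (t * (1 + c - d)) ≤ g * (Q * c) := mul_le_mul_of_nonneg_left h5 hg
        nlinarith
      have h5 : t / c * d * N ≤ (1 + t) * (Q * g * p) := by
        have h6 : t / c * d * N ≤ Q * g * p := mul_le_mul h4 hNp hN (by positivity)
        have h7 : 0 ≤ Q * g * p := by positivity
        nlinarith
      have h6 : d * (1 - t - t / c * (1 + c + N - t)) ≤ d * Y := mul_le_mul_of_nonneg_left h3 hd
      have h7 : (t - (1 - t) * (1 - t / c)) * d ≤ w * (1 + t) * d :=
        mul_le_mul_of_nonneg_right h2 hd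
      have h8 : t / c * c = t := div_mul_cancel₀ _ hc0.ne'
      have h9 : d * (1 - t - t / c * (1 + c + N - t)) =
          -((t - (1 - t) * (1 - t / c)) * d) - t / c * d * N - d * (t / c * c) + d * t := by ring
      rw [h8] at h9
      linarith
  have h1 : d / (1 + t) * Y + Q * g * p + w * d =
      (d * Y + (1 + t) * (Q * g * p) + w * (1 + t) * d) / (1 + t) := by
    field_simp
  rw [h1]
  exact div_nonneg hmul ht1.le

/-- the identity for the induction step -/
theorem step_eq (h : PosM m) (hQk : ∀ k ∈ K, pQ m (K.erase k) ≠ 0) :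
    (pal m K) * ph m K - ∑ k ∈ K, pQ m K / pQ m (K.erase k) * ph m (K.erase k) =
      2 * m ∅ + (ps2 m K - pt m K) + pQ m K * pt m K +
        ∑ j ∈ K, (pg m j * (pV m K j - pom m K j) + pQ m K * pg m j * pom m K j) +
        ∑ k ∈ K, (1 - pa m K k) / pQ m (K.erase k) * pY m (K.erase k) := by
  have hal : pal m K = pQ m K + K.card - 2 := by
    unfold pQ
    ring
  have h1 : ∀ k ∈ K, pQ m K / pQ m (K.erase k) * ph m (K.erase k) =
      ph m (K.erase k) - (1 - pa m K k) / pQ m (K.erase k) * pY m (K.erase k) -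
        (1 - pa m K k) * (1 + ∑ j ∈ K.erase k, pg m j) := by
    intro k hk
    have h2 := hQk k hk
    have h3 := pQ_erase (m := m) hk
    unfold pY
    have h4 : pQ m K = pQ m (K.erase k) - (1 - pa m K k) := by linarith
    rw [h4]
    field_simp
    ring
  rw [sum_congr rfl h1, sum_sub_distrib, sum_sub_distrib, sum_ph_erase]
  have h2 : ∑ k ∈ K, (1 - pa m K k) * (1 + ∑ j ∈ K.erase k, pg m j) =
      ∑ k ∈ K, (1 - pa m K k) + ∑ j ∈ K, (∑ k ∈ K, (1 - pa m K k) - (1 - pa m K j)) * pg m j := by
    have h3 : ∀ k ∈ K, (1 - pa m K k) * (1 + ∑ j ∈ K.erase k, pg m j) =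
        (1 - pa m K k) + ∑ j ∈ K, (1 - pa m K k) * pg m j - (1 - pa m K k) * pg m k := by
      intro k hk
      rw [← mul_sum]
      have h4 := add_sum_erase K (fun j => pg m j) hk
      rw [← h4]
      ring
    rw [sum_congr rfl h3, sum_sub_distrib, sum_add_distrib, sum_comm]
    have h5 : ∀ j ∈ K, (∑ k ∈ K, (1 - pa m K k) - (1 - pa m K j)) * pg m j =
        ∑ k ∈ K, (1 - pa m K k) * pg m j - (1 - pa m K j) * pg m j := by
      intro j _
      rw [sub_mul, sum_mul]
    have h6 : ∑ j ∈ K, (∑ k ∈ K, (1 - pa m K k) - (1 - pa m K j)) * pg m j =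
        ∑ j ∈ K, ∑ k ∈ K, (1 - pa m K k) * pg m j - ∑ j ∈ K, (1 - pa m K j) * pg m j := by
      rw [← sum_sub_distrib]
      exact sum_congr rfl h5
    rw [h6]
    ring
  rw [h2, sum_one_sub_pa]
  have h3 : ∀ j ∈ K, (2 - pQ m K + m ∅ - po m K - (1 - pa m K j)) * pg m j =
      (1 - m {j}) + (1 - pQ m K - pom m K j) * pg m j := by
    intro j hj
    have h4 := pa_add_pom (m := m) hj
    have h5 := pg_mul h j
    have h6 : pa m K j = m {j} + po m K - pom m K j := by linarith
    rw [h6]
    linear_combination h5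
  rw [sum_congr rfl h3, sum_add_distrib, sum_one_sub_m, hal]
  unfold ph
  have h4 := po_eq (m := m) (K := K)
  rw [h4]
  have h5 : ∑ j ∈ K, (pg m j * (pV m K j - pom m K j) + pQ m K * pg m j * pom m K j) =
      (pQ m K + (K.card : ℝ) - 2) * ∑ j ∈ K, (1 + pom m K j) * pg m j -
        ∑ j ∈ K, ((K.card : ℝ) - 1 + ((K.card : ℝ) - 2) * pom m K j - pV m K j) * pg m j +
        ∑ j ∈ K, (1 - pQ m K - pom m K j) * pg m j := by
    rw [mul_sum, ← sum_sub_distrib, ← sum_add_distrib]
    exact sum_congr rfl fun j _ => by ring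
  rw [h5]
  ring

/-- the potential bounds the integral -/
theorem pot (h : PosM m) (hK : 2 ≤ K.card) (ha : ∀ k ∈ K, pa m K k ≤ 1) (hQ : 0 < pQ m K) :
    (1 + m ∅) * pQ m K * Ival m K ≤ ph m K := by
  induction hcK : K.card using Nat.strong_induction_on generalizing K with
  | _ n ih =>
    have hne : K.Nonempty := card_pos.1 (by omega)
    have hal0 : 0 < pal m K := h.sum_pos hne
    have hc0 : 0 ≤ m ∅ := h.1 ∅
    rcases Nat.eq_or_lt_of_le hK with hn | hn
    · -- two elements
      obtain ⟨i, j, hij, hKij⟩ := card_eq_two.1 hn.symm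
      have hi : K.erase i = {j} := by
        rw [hKij]
        ext x
        simp only [mem_erase, mem_insert, mem_singleton]
        constructor
        · rintro ⟨h1, h2⟩
          exact h2.resolve_left h1
        · rintro rfl
          exact ⟨hij.symm, Or.inr rfl⟩
      have hj : K.erase j = {i} := by
        rw [hKij]
        ext x
        simp only [mem_erase, mem_insert, mem_singleton]
        constructor
        · rintro ⟨h1, h2⟩
          exact h2.resolve_right h1
        · rintro rfl
          exact ⟨hij, Or.inl rfl⟩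
      have hs : ∀ x, Ival m {x} = 1 / (m {x} + m ∅) := by
        intro x
        rw [Ival_eq m (singleton_nonempty x), sum_singleton, erase_singleton, Ival_empty]
        congr 1
        have hp : ({x} : Finset V).powerset = {∅, {x}} := by
          ext D
          rw [mem_powerset, subset_singleton_iff, mem_insert, mem_singleton]
        rw [hp, sum_pair (singleton_ne_empty x).symm, add_comm]
      have hI : pal m K * Ival m K = 1 / (m {i} + m ∅) + 1 / (m {j} + m ∅) := by
        have h1 := sum_mul_Ival h hne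
        unfold pal
        rw [h1]
        conv_lhs => rw [hKij]
        rw [sum_pair hij]
        rw [← hKij, hi, hj, hs, hs]
        ring
      have hQ2 : pQ m K = pal m K := by
        unfold pQ
        rw [← hn]
        push_cast
        ring
      have hpt : 0 ≤ pt m K := pt_nonneg h.1
      have hph : 2 + (pg m i + pg m j) ≤ ph m K := by
        unfold ph
        have h1 : ∑ x ∈ K, pg m x ≤ ∑ x ∈ K, (1 + pom m K x) * pg m x := by
          refine sum_le_sum fun x hx => ?_
          have h2 := pg_nonneg h hx (ha x hx)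
          have h3 := pom_nonneg (K := K) h.1 x
          nlinarith
        have h2 : ∑ x ∈ K, pg m x = pg m i + pg m j := by
          conv_lhs => rw [hKij]
          exact sum_pair hij
        rw [h2] at h1
        linarith
      have hyi : 0 < m {i} + m ∅ := add_pos_of_pos_of_nonneg (h.2 i) hc0
      have hyj : 0 < m {j} + m ∅ := add_pos_of_pos_of_nonneg (h.2 j) hc0
      rw [hQ2, mul_assoc, hI]
      refine le_trans (le_of_eq ?_) hph
      unfold pg
      field_simp
      ring
    · -- the induction step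
      have hQk : ∀ k ∈ K, pQ m (K.erase k) = pQ m K + (1 - pa m K k) := fun k hk => pQ_erase hk
      have hQpos : ∀ k ∈ K, 0 < pQ m (K.erase k) := by
        intro k hk
        rw [hQk k hk]
        have := ha k hk
        linarith
      have hak : ∀ k ∈ K, ∀ i ∈ K.erase k, pa m (K.erase k) i ≤ 1 := fun k _ i hi =>
        (pa_erase_le h.1 k i).trans (ha i (mem_of_mem_erase hi))
      have hIH : ∀ k ∈ K, (1 + m ∅) * Ival m (K.erase k) ≤ ph m (K.erase k) / pQ m (K.erase k) := by
        intro k hk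
        rw [le_div_iff₀ (hQpos k hk)]
        have h1 := ih (K.card - 1) (by omega) (K := K.erase k)
          (by rw [card_erase_of_mem hk]; omega) (hak k hk) (hQpos k hk) (card_erase_of_mem hk)
        linarith
      have hstep := step_eq (m := m) (K := K) h fun k hk => (hQpos k hk).ne'
      -- the weight
      set D : ℝ := ∑ k ∈ K, (1 - pa m K k) with hD
      have hDeq : D = 2 - pQ m K + m ∅ - po m K := sum_one_sub_pa
      have hD0 : 0 ≤ D := sum_nonneg fun k hk => by
        have := ha k hk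
        linarith
      have ho := po_nonneg (K := K) h.1
      obtain ⟨w, hw0, hwD, hw1, hw2⟩ : ∃ w : ℝ, 0 ≤ w ∧ w * D ≤ 2 * m ∅ ∧
          (∀ t, pQ m K ≤ 1 + t → m ∅ ≤ t → m ∅ ≤ w * (1 + t)) ∧
          (∀ t, pQ m K ≤ 1 + t → t ≤ pQ m K → 0 < t → t < m ∅ →
            t - (1 - t) * (1 - t / m ∅) ≤ w * (1 + t)) := by
        rcases le_or_gt D 2 with hD2 | hD2
        · refine ⟨m ∅, hc0, by nlinarith, ?_, ?_⟩
          · intro t _ ht
            nlinarith
          · intro t _ _ ht0 htc
            have hc1 : 0 < m ∅ := ht0.trans htc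
            obtain ⟨τ, hτ⟩ : ∃ τ, τ = t / m ∅ := ⟨_, rfl⟩
            have h1 : t = m ∅ * τ := by
              rw [hτ]
              field_simp
            have hτ0 : 0 < τ := by rw [hτ]; positivity
            have hτ1 : τ < 1 := by rw [hτ, div_lt_one hc1]; exact htc
            rw [← hτ, h1]
            have h2 : m ∅ * (1 + m ∅ * τ) - (m ∅ * τ - (1 - m ∅ * τ) * (1 - τ)) =
                (1 - τ) + m ∅ * (1 - τ) ^ 2 + m ∅ ^ 2 * τ := by ring
            have h3 : 0 ≤ (1 - τ) + m ∅ * (1 - τ) ^ 2 + m ∅ ^ 2 * τ := by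
              have : 0 ≤ 1 - τ := by linarith
              positivity
            linarith
        · have hQc : pQ m K < m ∅ := by linarith
          have hDpos : 0 < D := by linarith
          refine ⟨2 * m ∅ / D, by positivity, by rw [div_mul_cancel₀ _ hDpos.ne'], ?_, ?_⟩
          · intro t ht htc
            rw [div_mul_eq_mul_div, le_div_iff₀ hDpos]
            have h1 : D ≤ 2 * (1 + t) := by linarith
            nlinarith
          · intro t ht htQ ht0 htc
            have hc1 : 0 < m ∅ := ht0.trans htc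
            rw [div_mul_eq_mul_div, le_div_iff₀ hDpos]
            have hDt : D ≤ 2 + m ∅ - t := by linarith
            obtain ⟨τ, hτ⟩ : ∃ τ, τ = t / m ∅ := ⟨_, rfl⟩
            have h1 : t = m ∅ * τ := by
              rw [hτ]
              field_simp
            have hτ0 : 0 < τ := by rw [hτ]; positivity
            have hτ1 : τ < 1 := by rw [hτ, div_lt_one hc1]; exact htc
            rw [← hτ]
            rcases le_or_gt (t - (1 - t) * (1 - τ)) 0 with h2 | h2
            · have h3 : (t - (1 - t) * (1 - τ)) * D ≤ 0 := mul_nonpos_of_nonpos_of_nonneg h2 hD0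
              have h4 : 0 ≤ 2 * m ∅ * (1 + t) := by positivity
              linarith
            · refine (mul_le_mul_of_nonneg_left hDt h2.le).trans ?_
              obtain ⟨a, hA⟩ : ∃ a, a = 1 - τ := ⟨_, rfl⟩
              have hτa : τ = 1 - a := by linarith
              have ha0 : 0 < a := by linarith
              have ha1 : a < 1 := by linarith
              rw [h1, hτa]
              have h3 : 2 * m ∅ * (1 + m ∅ * (1 - a)) -
                  (m ∅ * (1 - a) - (1 - m ∅ * (1 - a)) * (1 - (1 - a))) *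
                    (2 + m ∅ - m ∅ * (1 - a)) =
                  2 * a + 3 * m ∅ * a ^ 2 + m ∅ ^ 2 * (1 - a) ^ 2 * (2 + a) := by ring
              have h4 : 0 ≤ 2 * a + 3 * m ∅ * a ^ 2 + m ∅ ^ 2 * (1 - a) ^ 2 * (2 + a) := by
                positivity
              linarith
      -- the terms
      have hterm : ∀ k ∈ K, 0 ≤ (1 - pa m K k) / pQ m (K.erase k) * pY m (K.erase k) +
          pQ m K * pg m k * pom m K k + w * (1 - pa m K k) := by
        intro k hk
        have h1 := hQk k hk
        have hdk0 : 0 ≤ 1 - pa m K k := by have := ha k hk; linarith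
        have hpa0 : m {k} ≤ pa m K k := le_pa h.1 hk
        have hmk := h.2 k
        have hdk1 : 1 - pa m K k ≤ 1 := by linarith
        rw [h1]
        have hg0 := pg_nonneg h hk (ha k hk)
        refine scal (c := m ∅) (t := pQ m K + (1 - pa m K k) - 1) (N := pN m (K.erase k))
          hdk0 hdk1 (by ring) hQ (pN_nonneg h.1) (pN_erase_le h.1 k) hg0 ?_ hw0
          (pY_ge h (hak k hk)) ?_ ?_ ?_ ?_
        · -- `d ≤ g (1 + c - d)`
          have h2 := pg_mul h k
          have h3 : pg m k * (m {k} + m ∅) ≤ pg m k * (pa m K k + m ∅) :=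
            mul_le_mul_of_nonneg_left (by linarith) hg0
          -- `1 - m_k + pg (pa - m_k) ≥ d`
          have h4 : pg m k * (1 + m ∅ - (1 - pa m K k)) = pg m k * (m {k} + m ∅) +
              pg m k * (pa m K k - m {k}) := by ring
          rw [h4, h2]
          have h5 : 0 ≤ pg m k * (pa m K k - m {k}) := mul_nonneg hg0 (by linarith)
          linarith
        · intro ht
          exact pY_ge_of_le h (hak k hk) (by rw [h1]; linarith)
        · intro ht0 htc
          exact pY_ge_of_lt h (hak k hk) (by rw [h1]; ring) ht0 htc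
        · intro htc
          exact hw1 _ (by linarith) htc
        · intro ht0 htc
          exact hw2 _ (by linarith) (by linarith) ht0 htc
      have hsum : 0 ≤ ∑ k ∈ K, (1 - pa m K k) / pQ m (K.erase k) * pY m (K.erase k) +
          ∑ k ∈ K, pQ m K * pg m k * pom m K k + w * D := by
        rw [hD, mul_sum, ← sum_add_distrib, ← sum_add_distrib]
        exact sum_nonneg hterm
      have hV : ∑ k ∈ K, pQ m K * pg m k * pom m K k ≤
          ∑ j ∈ K, (pg m j * (pV m K j - pom m K j) + pQ m K * pg m j * pom m K j) := by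
        refine sum_le_sum fun j hj => ?_
        have h1 := pg_nonneg h hj (ha j hj)
        have h2 := pom_le_pV (K := K) h.1 j
        have h3 : 0 ≤ pg m j * (pV m K j - pom m K j) := mul_nonneg h1 (by linarith)
        linarith
      have hs2 := pt_le_ps2 (K := K) h.1
      have hQt : 0 ≤ pQ m K * pt m K := mul_nonneg hQ.le (pt_nonneg h.1)
      have hPhi : ∑ k ∈ K, pQ m K / pQ m (K.erase k) * ph m (K.erase k) ≤ pal m K * ph m K := by
        linarith
      -- conclusion
      have h1 : pal m K * ((1 + m ∅) * pQ m K * Ival m K) ≤ pal m K * ph m K := by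
        refine le_trans ?_ hPhi
        have h2 := sum_mul_Ival h hne
        have h3 : pal m K * ((1 + m ∅) * pQ m K * Ival m K) =
            ∑ k ∈ K, pQ m K * ((1 + m ∅) * Ival m (K.erase k)) := by
          rw [← mul_sum, ← mul_sum, ← h2]
          unfold pal
          ring
        rw [h3]
        refine sum_le_sum fun k hk => ?_
        have h4 := mul_le_mul_of_nonneg_left (hIH k hk) hQ.le
        refine h4.trans (le_of_eq ?_)
        ring
      exact le_of_mul_le_mul_left h1 hal0

end MP76b19e.Rob
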