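import Pool.Agent.Lib.MP76b19e.Rob.PPc

/-!
# The potential theorem, all tops in the constant (problem MP_76b19e_co)

`ptb`: `(1 + c) pQ vv ≤ max 0 (α - |T| w) phg` if the lows have `pa ≤ 1`, the tops `pa ≤ 1 + H`,
`w ≤ m {t}`, `α ≤ pQ + |T| - 1`, `H (|T| - 1 - |T| w) ≤ pQ (1 - w)`, `(|T| - 2) H + x0 ≤ pQ`.
-/

set_option autoImplicit false

open Finset

namespace MP76b19e.Rob

variable {V : Type} [DecidableEq V] {m : Finset V → ℝ} {g : V → ℝ}

theorem ptb (h : PosM m) (hg : ∀ j, 0 ≤ g j)
    (hg1 : ∀ j, 1 - m {j} ≤ g j * (m {j} + m ∅)) {H w x0 : ℝ} (hH : 0 ≤ H)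
    (hw1 : w ≤ 1) (hx0 : 0 < x0) (N : ℕ) : ∀ (K T : Finset V) (α : ℝ), K.card ≤ N →
      T ⊆ K → 2 ≤ K.card → (∀ l ∈ K, l ∉ T → pa m K l ≤ 1) →
      (∀ t ∈ T, pa m K t ≤ 1 + H) → (∀ t ∈ T, w ≤ m {t}) → 0 < pQ m K →
      α ≤ pQ m K + T.card - 1 → H * ((T.card : ℝ) - 1 - T.card * w) ≤ pQ m K * (1 - w) →
      ((T.card : ℝ) - 2) * H + x0 ≤ pQ m K →
      (1 + m ∅) * vv m K T α ≤ max 0 (α - T.card * w) / pQ m K * phg m g K := by
  induction N with
  | zero =>
    intro K T α hN _ hK
    omega
  | succ N ih =>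
    intro K T α hN hTK hK hlow htop hw hQ hα hcond hx
    have hc0 : 0 ≤ m ∅ := h.1 ∅
    have hc1 : 0 ≤ 1 + m ∅ := by linarith
    have hφ := phg_nonneg h hg K
    have hvle := vv_le' h hTK hw (α := α)
    have hI := Ival_pos h K
    rcases le_or_gt (α - T.card * w) 0 with hneg | hA
    · have h1 : vv m K T α ≤ 0 := hvle.trans (mul_nonpos_of_nonpos_of_nonneg hneg hI.le)
      have h2 : (1 + m ∅) * vv m K T α ≤ 0 := mul_nonpos_of_nonneg_of_nonpos hc1 h1
      rw [max_eq_left hneg, zero_div, zero_mul]
      exact h2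
    rw [max_eq_right hA.le]
    rcases Nat.lt_or_ge 2 K.card with hK3 | hK2
    swap
    · -- two elements
      have h1 := pot_two h hg hg1 (show K.card = 2 by omega)
      rw [div_mul_eq_mul_div, le_div_iff₀ hQ]
      calc (1 + m ∅) * vv m K T α * pQ m K ≤
            (1 + m ∅) * ((α - T.card * w) * Ival m K) * pQ m K :=
            mul_le_mul_of_nonneg_right (mul_le_mul_of_nonneg_left hvle hc1) hQ.le
        _ = (α - T.card * w) * ((1 + m ∅) * pQ m K * Ival m K) := by ring
        _ ≤ (α - T.card * w) * phg m g K := mul_le_mul_of_nonneg_left h1 hA.le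
    -- the step
    have hne : K.Nonempty := card_pos.1 (by omega)
    have hal0 : 0 < pal m K := h.sum_pos hne
    have hstar := star (K := K) h hQ hg hg1
    unfold rs at hstar
    have hrec := vv_rec h hK hTK α
    set ψ : ℝ := (α - T.card * w) / pQ m K with hψ
    have hψ0 : 0 ≤ ψ := div_nonneg hA.le hQ.le
    have hψQ : ψ * pQ m K = α - T.card * w := div_mul_cancel₀ _ hQ.ne'
    -- lows
    have hL : ∀ l ∈ K \ T, (1 + m ∅) * vv m (K.erase l) T α ≤
        ψ * (th m K l * phg m g (K.erase l)) := by
      intro l hl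
      rw [mem_sdiff] at hl
      have hal := hlow l hl.1 hl.2
      have hQl : pQ m (K.erase l) = pQ m K + (1 - pa m K l) := pQ_erase hl.1
      have hQl0 : 0 < pQ m (K.erase l) := by rw [hQl]; linarith
      have h1 := ih (K.erase l) T α (by rw [card_erase_of_mem hl.1]; omega)
        (fun t ht => mem_erase.2 ⟨fun h3 => hl.2 (h3 ▸ ht), hTK ht⟩)
        (by rw [card_erase_of_mem hl.1]; omega)
        (fun l' hl' hl2 => (pa_erase_le h.1 l l').trans (hlow l' (mem_of_mem_erase hl') hl2))
        (fun t ht => (pa_erase_le h.1 l t).trans (htop t ht)) hw hQl0 (by rw [hQl]; linarith)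
        (by
          rw [hQl]
          have : 0 ≤ (1 - pa m K l) * (1 - w) := mul_nonneg (by linarith) (by linarith)
          linarith)
        (by rw [hQl]; linarith)
      rw [max_eq_right hA.le] at h1
      refine h1.trans (le_of_eq ?_)
      unfold th
      rw [max_eq_right (by linarith), ← hQl, ← mul_assoc]
      congr 1
      rw [← mul_div_assoc, hψQ]
    -- tops
    have hTt : ∀ t ∈ T, (1 + m ∅) * vv m (K.erase t) (T.erase t) (α - pa m K t) ≤
        ψ * (th m K t * phg m g (K.erase t)) := by
      intro t ht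
      have hta2 := htop t ht
      have htK := hTK ht
      have hcT : (T.erase t).card = T.card - 1 := card_erase_of_mem ht
      have hcT1 : 1 ≤ T.card := card_pos.2 ⟨t, ht⟩
      have hcTr : ((T.erase t).card : ℝ) = T.card - 1 := by
        rw [hcT, Nat.cast_sub hcT1]
        push_cast
        ring
      have hwt : w ≤ pa m K t := (hw t ht).trans (le_pa h.1 htK)
      have hφt := phg_nonneg h hg (K.erase t)
      have hQt : pQ m (K.erase t) = pQ m K + (1 - pa m K t) := pQ_erase htK
      have hth0 : 0 ≤ th m K t := by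
        unfold th
        exact div_nonneg hQ.le (by have := le_max_left 0 (1 - pa m K t); linarith)
      have hrhs : 0 ≤ ψ * (th m K t * phg m g (K.erase t)) :=
        mul_nonneg hψ0 (mul_nonneg hth0 hφt)
      rcases le_or_gt (α - pa m K t) 0 with hn | hn
      · have h1 := vv_nonpos h (K := K.erase t) (T := T.erase t) hn
        exact (mul_nonpos_of_nonneg_of_nonpos hc1 h1).trans hrhs
      have hlow' : ∀ l ∈ K.erase t, l ∉ T.erase t → pa m (K.erase t) l ≤ 1 := by
        intro l hl hl2
        rw [mem_erase] at hl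
        exact (pa_erase_le h.1 t l).trans (hlow l hl.2 fun h3 => hl2 (mem_erase.2 ⟨hl.1, h3⟩))
      have htop' : ∀ t' ∈ T.erase t, pa m (K.erase t) t' ≤ 1 + H := fun t' ht' =>
        (pa_erase_le h.1 t t').trans (htop t' (mem_of_mem_erase ht'))
      have hw' : ∀ t' ∈ T.erase t, w ≤ m {t'} := fun t' ht' => hw t' (mem_of_mem_erase ht')
      have hcTr1 : (1 : ℝ) ≤ T.card := by exact_mod_cast hcT1
      rcases le_or_gt (pa m K t) 1 with ha1 | ha1
      · -- not over-full
        have hQt0 : 0 < pQ m (K.erase t) := by rw [hQt]; linarith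
        have h1 := ih (K.erase t) (T.erase t) (α - pa m K t)
          (by rw [card_erase_of_mem htK]; omega) (erase_subset_erase t hTK)
          (by rw [card_erase_of_mem htK]; omega) hlow' htop' hw' hQt0
          (by rw [hQt, hcTr]; linarith)
          (by
            rw [hQt, hcTr]
            have h2 : 0 ≤ (1 - pa m K t) * (1 - w) := mul_nonneg (by linarith) (by linarith)
            have h3 : 0 ≤ H * (1 - w) := mul_nonneg hH (by linarith)
            linarith)
          (by rw [hQt, hcTr]; linarith)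
        refine h1.trans ?_
        have hm : max 0 (1 - pa m K t) = 1 - pa m K t := max_eq_right (by linarith)
        unfold th
        rw [hm, ← hQt, ← mul_assoc, ← mul_div_assoc, hψQ, hcTr]
        refine mul_le_mul_of_nonneg_right ?_ hφt
        refine div_le_div_of_nonneg_right (max_le hA.le (by linarith)) hQt0.le
      · -- over-full
        obtain ⟨e, he⟩ : ∃ e, e = pa m K t - 1 := ⟨_, rfl⟩
        have hpa : pa m K t = 1 + e := by linarith
        have he0 : 0 < e := by linarith
        have heH : e ≤ H := by linarith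
        rw [hpa] at hn hQt ⊢
        have hQt' : pQ m (K.erase t) = pQ m K - e := by rw [hQt]; ring
        have hQt0 : 0 < pQ m K - e := by
          rcases Nat.lt_or_ge T.card 3 with h3 | h3
          · have : (T.card : ℝ) ≤ 2 := by exact_mod_cast (show T.card ≤ 2 by omega)
            linarith
          · have h4 : (3 : ℝ) ≤ T.card := by exact_mod_cast h3
            nlinarith
        have hth : th m K t = 1 := by
          unfold th
          rw [max_eq_left (by linarith), add_zero, div_self hQ.ne']
        have h1 := ih (K.erase t) (T.erase t) (α - (1 + e))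
          (by rw [card_erase_of_mem htK]; omega) (erase_subset_erase t hTK)
          (by rw [card_erase_of_mem htK]; omega) hlow' htop' hw' (by rw [hQt']; exact hQt0)
          (by rw [hQt', hcTr]; linarith)
          (by
            rw [hQt', hcTr]
            have h2 : 0 ≤ (H - e) * (1 - w) := mul_nonneg (by linarith) (by linarith)
            linarith)
          (by rw [hQt', hcTr]; linarith)
        refine h1.trans ?_
        rw [hth, one_mul, hQt', hcTr]
        refine mul_le_mul_of_nonneg_right ?_ hφt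
        rw [div_le_iff₀ hQt0]
        refine max_le (mul_nonneg hψ0 hQt0.le) ?_
        -- `(α - 1 - e - (|T| - 1) w) ≤ ψ (Q - e)`
        have h2 : ψ * (pQ m K - e) = α - T.card * w - ψ * e := by
          rw [mul_sub, hψQ]
        rw [h2]
        have h3 : ψ * e ≤ 1 + e - w := by
          rw [hψ, div_mul_eq_mul_div, div_le_iff₀ hQ]
          have h4 : (α - T.card * w) * e ≤ (pQ m K + T.card - 1 - T.card * w) * e :=
            mul_le_mul_of_nonneg_right (by linarith) he0.le
          have h5 : e * ((T.card : ℝ) - 1 - T.card * w) ≤ pQ m K * (1 - w) := by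
            rcases le_or_gt ((T.card : ℝ) - 1 - T.card * w) 0 with h6 | h6
            · have h7 : 0 ≤ pQ m K * (1 - w) := mul_nonneg hQ.le (by linarith)
              exact (mul_nonpos_of_nonneg_of_nonpos he0.le h6).trans h7
            · exact (mul_le_mul_of_nonneg_right heH h6.le).trans hcond
          nlinarith
        linarith
    have hsum : (1 + m ∅) * (pal m K * vv m K T α) ≤
        ψ * ∑ k ∈ K, th m K k * phg m g (K.erase k) := by
      have hs1 := sum_le_sum hL
      have hs2 := sum_le_sum hTt
      rw [← mul_sum, ← mul_sum] at hs1 hs2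
      have hs3 : ψ * ∑ k ∈ K, th m K k * phg m g (K.erase k) =
          ψ * ∑ k ∈ K \ T, th m K k * phg m g (K.erase k) +
            ψ * ∑ k ∈ T, th m K k * phg m g (K.erase k) := by
        rw [← sum_sdiff hTK]
        ring
      rw [hs3, hrec, mul_add]
      exact add_le_add hs1 hs2
    have h1 : pal m K * ((1 + m ∅) * vv m K T α) ≤ pal m K * (ψ * phg m g K) := by
      have h2 : ψ * ∑ k ∈ K, th m K k * phg m g (K.erase k) ≤
          ψ * (pal m K * phg m g K) := mul_le_mul_of_nonneg_left (by linarith) hψ0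
      calc pal m K * ((1 + m ∅) * vv m K T α) = (1 + m ∅) * (pal m K * vv m K T α) := by ring
        _ ≤ ψ * ∑ k ∈ K, th m K k * phg m g (K.erase k) := hsum
        _ ≤ ψ * (pal m K * phg m g K) := h2
        _ = pal m K * (ψ * phg m g K) := by ring
    exact le_of_mul_le_mul_left h1 hal0

omit [DecidableEq V] in
private theorem pt_sc (m : Finset V → ℝ) (r : ℝ) (K : Finset V) :
    pt (fun D => m D / r) K = pt m K / r := by
  unfold pt
  rw [sum_div]
  exact sum_congr rfl fun D _ => by ring

/-- from units with cap one to units with cap `p` -/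
theorem scaleP (h : PosM m) {K T : Finset V} (hTK : T ⊆ K) (hK : 2 ≤ K.card) {p α ψ : ℝ}
    (hp : 0 < p) (hs : (∀ j, 0 ≤ max 0 (p - m {j}) / (m {j} + m ∅)) →
      (∀ j, 1 - m {j} / p ≤ max 0 (p - m {j}) / (m {j} + m ∅) * (m {j} / p + m ∅ / p)) →
      PosM (fun D => m D / p) →
      (1 + m ∅ / p) * vv (fun D => m D / p) K T (α / p) ≤
        ψ * phg (fun D => m D / p) (fun j => max 0 (p - m {j}) / (m {j} + m ∅)) K) :
    (p + m ∅) * (p ^ (K.card - 2) * vv m K T α) ≤
      ψ * (2 + pt m K / p + ∑ j ∈ K, (1 + pom m K j / p) *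
        (max 0 (p - m {j}) / (m {j} + m ∅))) := by
  have hpne := hp.ne'
  have hy : ∀ j, 0 < m {j} + m ∅ := fun j => add_pos_of_pos_of_nonneg (h.2 j) (h.1 ∅)
  have hg0 : ∀ j, 0 ≤ max 0 (p - m {j}) / (m {j} + m ∅) := fun j =>
    div_nonneg (le_max_left _ _) (hy j).le
  have hg1 : ∀ j, 1 - m {j} / p ≤
      max 0 (p - m {j}) / (m {j} + m ∅) * (m {j} / p + m ∅ / p) := by
    intro j
    have h1 : max 0 (p - m {j}) / (m {j} + m ∅) * (m {j} / p + m ∅ / p) =
        max 0 (p - m {j}) / p := by
      rw [← add_div]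
      have := (hy j).ne'
      field_simp
    rw [h1, le_div_iff₀ hp]
    have h2 : (1 - m {j} / p) * p = p - m {j} := by field_simp
    rw [h2]
    exact le_max_right _ _
  have h1 := hs hg0 hg1 ⟨fun D => div_nonneg (h.1 D) hp.le, fun k => div_pos (h.2 k) hp⟩
  rw [vv_scale m hpne hTK (card_pos.1 (by omega))] at h1
  have h2 : phg (fun D => m D / p) (fun j => max 0 (p - m {j}) / (m {j} + m ∅)) K =
      2 + pt m K / p + ∑ j ∈ K, (1 + pom m K j / p) * (max 0 (p - m {j}) / (m {j} + m ∅)) := by
    unfold phg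
    rw [pt_sc]
    congr 1
    refine sum_congr rfl fun j _ => ?_
    rw [pom_scale]
  rw [h2] at h1
  refine le_trans (le_of_eq ?_) h1
  have hn : p ^ (K.card - 1) = p ^ (K.card - 2) * p := by
    rw [← pow_succ]
    congr 1
    omega
  rw [hn]
  field_simp

end MP76b19e.Rob
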