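import Pool.Agent.Lib.MP76b19e.Rob.PtPlus

/-!
# The pushed potential theorem (problem MP_76b19e_co)

`pshL m l` is the mass function in which everything except the private masses `{t}` is pushed off
the elements `t` of the list `l` (the tops). Theorem `ptr`: tops WITHOUT cap, `pQ m K = x`,
`a ≤ 1 + x`: `(1 + m ∅) * vv m K l.toFinset a ≤ ψ * phg (pshL m l) g K` with the weights
`g j ≥ (1 - m {j}) / (m {j} + m ∅)` of the original masses and `a - |l| w ≤ ψ x`.
-/

set_option autoImplicit false

open Finset

namespace MP76b19e.Rob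

variable {V : Type} [DecidableEq V] {m : Finset V → ℝ} {g : V → ℝ}

/-- push everything except `{t}` off `t` -/
noncomputable def psf (m : Finset V → ℝ) (t : V) : Finset V → ℝ :=
  psh m t (fun D => if D = {t} then 0 else m D)

theorem psf_mem {t : V} {D : Finset V} (h : t ∈ D) (h2 : D ≠ {t}) : psf m t D = 0 := by
  unfold psf psh
  rw [if_pos h]
  simp only
  rw [if_neg h2, sub_self]

theorem psf_self (t : V) : psf m t {t} = m {t} := by
  unfold psf psh
  rw [if_pos (mem_singleton_self t)]
  simp only [if_true, sub_zero]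

theorem insert_ne_singleton {t : V} {D : Finset V} (h : t ∉ D) (h0 : D.Nonempty) :
    insert t D ≠ {t} := by
  intro h1
  obtain ⟨x, hx⟩ := h0
  have h2 : x ∈ ({t} : Finset V) := by
    rw [← h1]
    exact mem_insert_of_mem hx
  rw [mem_singleton] at h2
  exact h (h2 ▸ hx)

theorem psf_notMem {t : V} {D : Finset V} (h : t ∉ D) (h0 : D.Nonempty) :
    psf m t D = m D + m (insert t D) := by
  unfold psf psh
  rw [if_neg h]
  simp only
  rw [if_neg (insert_ne_singleton h h0)]

theorem psf_empty (t : V) : psf m t ∅ = m ∅ := by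
  unfold psf psh
  rw [if_neg (notMem_empty t)]
  simp only [insert_empty_eq, if_true, add_zero]

theorem le_psf (h : PosM m) {t : V} {D : Finset V} (ht : t ∉ D) : m D ≤ psf m t D := by
  rcases D.eq_empty_or_nonempty with h0 | h0
  · rw [h0, psf_empty]
  · rw [psf_notMem ht h0]
    linarith [h.1 (insert t D)]

theorem PosM.psf (h : PosM m) (t : V) : PosM (psf m t) := by
  constructor
  · intro D
    by_cases h1 : t ∈ D
    · by_cases h2 : D = {t}
      · rw [h2, psf_self]
        exact h.1 _
      · rw [psf_mem h1 h2]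
    · exact (h.1 D).trans (le_psf h h1)
  · intro k
    by_cases h1 : k = t
    · rw [h1, psf_self]
      exact h.2 t
    · refine lt_of_lt_of_le (h.2 k) (le_psf h ?_)
      rw [mem_singleton]
      exact fun h2 => h1 h2.symm

theorem psf_mono {m1 m2 : Finset V → ℝ} {t u : V} (h : ∀ D, u ∉ D → m1 D ≤ m2 D)
    (htu : u ≠ t) {D : Finset V} (hD : u ∉ D) : psf m1 t D ≤ psf m2 t D := by
  by_cases h1 : t ∈ D
  · by_cases h2 : D = {t}
    · rw [h2, psf_self, psf_self]
      rw [h2] at hD
      exact h _ hD
    · rw [psf_mem h1 h2, psf_mem h1 h2]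
  · rcases D.eq_empty_or_nonempty with h0 | h0
    · rw [h0, psf_empty, psf_empty]
      exact h _ (notMem_empty u)
    · rw [psf_notMem h1 h0, psf_notMem h1 h0]
      refine add_le_add (h _ hD) (h _ ?_)
      rw [mem_insert]
      rintro (h3 | h3)
      · exact htu h3
      · exact hD h3

theorem pal_psf {K : Finset V} {t : V} (ht : t ∈ K) : pal (psf m t) K = pal m K := pal_psh ht _

theorem pQ_psf {K : Finset V} {t : V} (ht : t ∈ K) : pQ (psf m t) K = pQ m K := pQ_psh ht _

theorem pa_psf_ne {K : Finset V} {t j : V} (ht : t ∈ K) (hj : j ≠ t) :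
    pa (psf m t) K j = pa m K j := pa_psh_ne ht hj _

theorem pa_psf_self {K : Finset V} {t : V} (ht : t ∈ K) : pa (psf m t) K t = m {t} := by
  rw [pa_split ht]
  have h1 : ∀ D ∈ (K.erase t).powerset, psf m t (insert t D) = if D = ∅ then m {t} else 0 := by
    intro D hD
    rw [mem_powerset, subset_erase] at hD
    by_cases h2 : D = ∅
    · rw [if_pos h2, h2, insert_empty_eq, psf_self]
    · rw [if_neg h2]
      exact psf_mem (mem_insert_self t D)
        (insert_ne_singleton hD.2 (nonempty_iff_ne_empty.2 h2))
  rw [sum_congr rfl h1, sum_ite_eq' (K.erase t).powerset ∅, if_pos (empty_mem_powerset _)]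

/-- push everything except the private masses off all elements of a list -/
noncomputable def pshL (m : Finset V → ℝ) : List V → (Finset V → ℝ)
  | [] => m
  | t :: l => psf (pshL m l) t

theorem PosM.pshL (h : PosM m) (l : List V) : PosM (pshL m l) := by
  induction l with
  | nil => exact h
  | cons t l ih => exact ih.psf t

theorem pal_pshL {K : Finset V} (l : List V) (hl : ∀ t ∈ l, t ∈ K) :
    pal (pshL m l) K = pal m K := by
  induction l with
  | nil => rfl
  | cons t l ih =>
    rw [show pshL m (t :: l) = psf (pshL m l) t from rfl, pal_psf (hl t List.mem_cons_self)]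
    exact ih fun u hu => hl u (List.mem_cons_of_mem t hu)

theorem pQ_pshL {K : Finset V} (l : List V) (hl : ∀ t ∈ l, t ∈ K) :
    pQ (pshL m l) K = pQ m K := by
  unfold pQ
  rw [pal_pshL l hl]

theorem pa_pshL_low {K : Finset V} (l : List V) (hl : ∀ t ∈ l, t ∈ K) {j : V} (hj : j ∉ l) :
    pa (pshL m l) K j = pa m K j := by
  induction l with
  | nil => rfl
  | cons t l ih =>
    rw [List.mem_cons, not_or] at hj
    rw [show pshL m (t :: l) = psf (pshL m l) t from rfl,
      pa_psf_ne (hl t List.mem_cons_self) hj.1]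
    exact ih (fun u hu => hl u (List.mem_cons_of_mem t hu)) hj.2

theorem two_le_pa (h : PosM m) {K : Finset V} {j t : V} (hj : j ∈ K) (ht : t ∈ K) (hjt : j ≠ t) :
    m {j} + m {t, j} ≤ pa m K j := by
  rw [pa_split hj]
  have h1 : ({t} : Finset V) ∈ (K.erase j).powerset := by
    rw [mem_powerset, singleton_subset_iff, mem_erase]
    exact ⟨hjt.symm, ht⟩
  have h2 : (∅ : Finset V) ∈ (K.erase j).powerset := empty_mem_powerset _
  have h3 : (∅ : Finset V) ≠ {t} := (singleton_ne_empty t).symm
  have h4 : ∑ D ∈ ({∅, {t}} : Finset (Finset V)), m (insert j D) ≤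
      ∑ D ∈ (K.erase j).powerset, m (insert j D) := by
    refine sum_le_sum_of_subset_of_nonneg ?_ fun D _ _ => h.1 _
    intro D hD
    rw [mem_insert, mem_singleton] at hD
    rcases hD with rfl | rfl
    · exact h2
    · exact h1
  rw [sum_pair h3, insert_empty_eq, show insert j ({t} : Finset V) = {t, j} from by
    rw [pair_comm]] at h4
  exact h4

theorem pa_pshL_top (h : PosM m) {K : Finset V} (l : List V) (hl : ∀ t ∈ l, t ∈ K)
    (hn : l.Nodup) {j : V} (hj : j ∈ l) : pa (pshL m l) K j = pshL m l {j} := by
  induction l with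
  | nil => exact absurd hj (List.not_mem_nil)
  | cons t l ih =>
    rw [List.nodup_cons] at hn
    have hl' : ∀ u ∈ l, u ∈ K := fun u hu => hl u (List.mem_cons_of_mem t hu)
    have htK := hl t List.mem_cons_self
    rw [show pshL m (t :: l) = psf (pshL m l) t from rfl]
    by_cases h1 : j = t
    · subst h1
      rw [pa_psf_self htK, psf_self]
    · have hj' : j ∈ l := by
        rcases List.mem_cons.1 hj with h2 | h2
        · exact absurd h2 h1
        · exact h2
      have h2 := ih hl' hn.2 hj'
      rw [pa_psf_ne htK h1, h2]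
      have h3 : t ∉ ({j} : Finset V) := by
        rw [mem_singleton]
        exact fun h4 => h1 h4.symm
      rw [psf_notMem h3 (singleton_nonempty j)]
      have h4 := two_le_pa (h.pshL l) (hl' j hj') htK h1
      have h5 := (h.pshL l).1 (insert t {j})
      rw [h2] at h4
      have h6 : pshL m l (insert t {j}) = pshL m l {t, j} := rfl
      linarith

theorem single_le_pshL (h : PosM m) (l : List V) (j : V) : m {j} ≤ pshL m l {j} := by
  induction l with
  | nil => exact le_rfl
  | cons t l ih =>
    rw [show pshL m (t :: l) = psf (pshL m l) t from rfl]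
    refine ih.trans ?_
    by_cases h1 : j = t
    · rw [h1, psf_self]
    · refine le_psf (h.pshL l) ?_
      rw [mem_singleton]
      exact fun h2 => h1 h2.symm

theorem empty_pshL (l : List V) : pshL m l ∅ = m ∅ := by
  induction l with
  | nil => rfl
  | cons t l ih =>
    rw [show pshL m (t :: l) = psf (pshL m l) t from rfl, psf_empty, ih]

theorem pshL_le_pa (h : PosM m) {K : Finset V} (l : List V) (hl : ∀ t ∈ l, t ∈ K)
    (hn : l.Nodup) {j : V} (hj : j ∈ l) : pshL m l {j} ≤ pa m K j := by
  rw [← pa_pshL_top h l hl hn hj]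
  induction l with
  | nil => exact absurd hj (List.not_mem_nil)
  | cons t l ih =>
    rw [List.nodup_cons] at hn
    have hl' : ∀ u ∈ l, u ∈ K := fun u hu => hl u (List.mem_cons_of_mem t hu)
    have htK := hl t List.mem_cons_self
    rw [show pshL m (t :: l) = psf (pshL m l) t from rfl]
    by_cases h1 : j = t
    · subst h1
      rw [pa_psf_self htK, ← pa_pshL_low l hl' hn.1]
      exact le_pa (h.pshL l).1 htK
    · have hj' : j ∈ l := by
        rcases List.mem_cons.1 hj with h2 | h2
        · exact absurd h2 h1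
        · exact h2
      rw [pa_psf_ne htK h1]
      exact ih hl' hn.2 hj'

theorem pshL_erase (h : PosM m) (l : List V) {t : V} {D : Finset V} (hD : t ∉ D) :
    pshL m (l.erase t) D ≤ pshL m l D := by
  induction l generalizing D with
  | nil => exact le_rfl
  | cons u l ih =>
    by_cases h1 : u = t
    · subst h1
      rw [List.erase_cons_head]
      exact le_psf (h.pshL l) hD
    · rw [List.erase_cons_tail (by simpa using h1)]
      exact psf_mono (u := t) (fun D hD => ih hD) (fun h2 => h1 h2.symm) hD

/-- the potential is monotone in the masses -/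
theorem phg_mono {m1 m2 : Finset V → ℝ} (hg : ∀ j, 0 ≤ g j) {A : Finset V}
    (h : ∀ D ⊆ A, m1 D ≤ m2 D) : phg m1 g A ≤ phg m2 g A := by
  rw [phg_eq, phg_eq]
  have h1 : ∑ D ∈ A.powerset, uw g A D * m1 D ≤ ∑ D ∈ A.powerset, uw g A D * m2 D :=
    sum_le_sum fun D hD => mul_le_mul_of_nonneg_left (h D (mem_powerset.1 hD)) (uw_nonneg hg A D)
  linarith

/-- two elements -/
theorem pot_two' (h : PosM m) (hg1 : ∀ j, 1 - m {j} ≤ g j * (m {j} + m ∅)) {K : Finset V}
    (hK : K.card = 2) : (1 + m ∅) * pQ m K * Ival m K ≤ 2 + ∑ j ∈ K, g j := by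
  have hc0 : 0 ≤ m ∅ := h.1 ∅
  obtain ⟨i, j, hij, hKij⟩ := card_eq_two.1 hK
  have hne : K.Nonempty := card_pos.1 (by omega)
  have hi : K.erase i = {j} := by
    rw [hKij]
    ext x
    simp only [mem_erase, mem_insert, mem_singleton]
    constructor
    · rintro ⟨h1, h2⟩
      exact h2.resolve_left h1
    · rintro rfl
      exact ⟨hij.symm, Or.inr rfl⟩
  have hj : K.erase j = {i} := by
    rw [hKij]
    ext x
    simp only [mem_erase, mem_insert, mem_singleton]
    constructor
    · rintro ⟨h1, h2⟩
      exact h2.resolve_right h1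
    · rintro rfl
      exact ⟨hij, Or.inl rfl⟩
  have hs : ∀ x, Ival m {x} = 1 / (m {x} + m ∅) := by
    intro x
    rw [Ival_eq m (singleton_nonempty x), sum_singleton, erase_singleton, Ival_empty]
    congr 1
    have hp : ({x} : Finset V).powerset = {∅, {x}} := by
      ext D
      rw [mem_powerset, subset_singleton_iff, mem_insert, mem_singleton]
    rw [hp, sum_pair (singleton_ne_empty x).symm, add_comm]
  have hI : pal m K * Ival m K = 1 / (m {i} + m ∅) + 1 / (m {j} + m ∅) := by
    have h1 := sum_mul_Ival h hne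
    unfold pal
    rw [h1]
    conv_lhs => rw [hKij]
    rw [sum_pair hij]
    rw [← hKij, hi, hj, hs, hs]
    ring
  have hQ2 : pQ m K = pal m K := by
    unfold pQ
    rw [hK]
    push_cast
    ring
  have h2 : ∑ x ∈ K, g x = g i + g j := by
    conv_lhs => rw [hKij]
    exact sum_pair hij
  have hyi : 0 < m {i} + m ∅ := add_pos_of_pos_of_nonneg (h.2 i) hc0
  have hyj : 0 < m {j} + m ∅ := add_pos_of_pos_of_nonneg (h.2 j) hc0
  have h1 : ∀ x, 0 < m {x} + m ∅ → (1 + m ∅) * (1 / (m {x} + m ∅)) ≤ 1 + g x := by
    intro x hx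
    rw [mul_one_div, div_le_iff₀ hx]
    have := hg1 x
    linarith
  rw [hQ2, mul_assoc, hI, mul_add, h2]
  have h3 := h1 i hyi
  have h4 := h1 j hyj
  linarith

theorem le_phg (h : PosM m) (hg : ∀ j, 0 ≤ g j) (K : Finset V) : 2 + ∑ j ∈ K, g j ≤ phg m g K := by
  unfold phg
  have h1 := pt_nonneg (K := K) h.1
  have h2 : ∑ j ∈ K, g j ≤ ∑ j ∈ K, (1 + pom m K j) * g j := sum_le_sum fun j _ => by
    have := pom_nonneg (K := K) h.1 j
    nlinarith [hg j]
  linarith

theorem toFinset_erase' {l : List V} (hn : l.Nodup) (t : V) :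
    l.toFinset.erase t = (l.erase t).toFinset := by
  ext x
  rw [mem_erase, List.mem_toFinset, List.mem_toFinset, hn.mem_erase_iff]

/-- THE PUSHED POTENTIAL THEOREM -/
theorem ptr (h : PosM m) (hg : ∀ j, 0 ≤ g j)
    (hg1 : ∀ j, 1 - m {j} ≤ g j * (m {j} + m ∅)) {w : ℝ} (hw0 : 0 ≤ w)
    (hw1 : w ≤ 1) (N : ℕ) : ∀ (K : Finset V) (l : List V) (x a ψ : ℝ), K.card ≤ N → l.Nodup →
      (∀ t ∈ l, t ∈ K) → 2 ≤ K.card → 0 < x → (∀ j ∈ K, j ∉ l → pa m K j ≤ 1) →
      (∀ t ∈ l, w ≤ m {t}) → pQ m K = x → a ≤ 1 + x → 0 ≤ ψ → a - l.length * w ≤ ψ * x →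
      (1 + m ∅) * vv m K l.toFinset a ≤ ψ * phg (pshL m l) g K := by
  induction N with
  | zero =>
    intro K l x a ψ hN _ _ hK
    omega
  | succ N ih =>
    intro K l x a ψ hN hn hlK hK hx hlow hw hQe ha hψ0 hψ1
    have hc0 : 0 ≤ m ∅ := h.1 ∅
    have hc1 : 0 ≤ 1 + m ∅ := by linarith
    have hP : PosM (pshL m l) := h.pshL l
    have hφ := phg_nonneg hP hg K
    have hTK : l.toFinset ⊆ K := fun t ht => hlK t (List.mem_toFinset.1 ht)
    have hcard : l.toFinset.card = l.length := List.toFinset_card_of_nodup hn
    rcases Nat.lt_or_ge 2 K.card with hK3 | hK2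
    swap
    · have hK2' : K.card = 2 := by omega
      have h1 := pot_two' h hg1 hK2'
      have h2 := vv_le' h hTK (fun t ht => hw t (List.mem_toFinset.1 ht)) (α := a)
      rw [hcard] at h2
      have hI := Ival_pos h K
      have h5 : vv m K l.toFinset a ≤ ψ * pQ m K * Ival m K := by
        refine h2.trans ?_
        refine mul_le_mul_of_nonneg_right ?_ hI.le
        rw [hQe]
        exact hψ1
      calc (1 + m ∅) * vv m K l.toFinset a ≤ (1 + m ∅) * (ψ * pQ m K * Ival m K) :=
            mul_le_mul_of_nonneg_left h5 hc1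
        _ = ψ * ((1 + m ∅) * pQ m K * Ival m K) := by ring
        _ ≤ ψ * phg (pshL m l) g K :=
            mul_le_mul_of_nonneg_left (h1.trans (le_phg hP hg K)) hψ0
    have hne : K.Nonempty := card_pos.1 (by omega)
    have hal0 : 0 < pal m K := h.sum_pos hne
    have hQ' : pQ (pshL m l) K = x := by rw [pQ_pshL l hlK, hQe]
    have hgh : ∀ j, 1 - pshL m l {j} ≤ g j * (pshL m l {j} + pshL m l ∅) := by
      intro j
      have h1 := single_le_pshL h l j
      rw [empty_pshL]
      have h2 : g j * (m {j} + m ∅) ≤ g j * (pshL m l {j} + m ∅) :=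
        mul_le_mul_of_nonneg_left (by linarith) (hg j)
      linarith [hg1 j]
    have hstar := star (K := K) hP (by rw [hQ']; exact hx) hg hgh
    unfold rs at hstar
    rw [pal_pshL l hlK] at hstar
    have hrec := vv_rec h hK hTK a
    -- lows
    have hL : ∀ j ∈ K \ l.toFinset, (1 + m ∅) * vv m (K.erase j) l.toFinset a ≤
        ψ * (th (pshL m l) K j * phg (pshL m l) g (K.erase j)) := by
      intro j hj
      rw [mem_sdiff, List.mem_toFinset] at hj
      have hal := hlow j hj.1 hj.2
      have hd0 : 0 ≤ 1 - pa m K j := by linarith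
      have hQd : 0 < x + (1 - pa m K j) := by linarith
      have hth : th (pshL m l) K j = x / (x + (1 - pa m K j)) := by
        unfold th
        rw [pa_pshL_low l hlK hj.2, max_eq_right hd0, hQ']
      have h2 := ih (K.erase j) l (x + (1 - pa m K j)) a (ψ * th (pshL m l) K j)
        (by rw [card_erase_of_mem hj.1]; omega) hn
        (fun t ht => mem_erase.2 ⟨fun h3 => hj.2 (h3 ▸ ht), hlK t ht⟩)
        (by rw [card_erase_of_mem hj.1]; omega) (by linarith)
        (fun i hi hi2 => (pa_erase_le h.1 j i).trans (hlow i (mem_of_mem_erase hi) hi2)) hw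
        (by rw [pQ_erase hj.1, hQe]) (by linarith)
        (mul_nonneg hψ0 (by rw [hth]; exact div_nonneg hx.le hQd.le))
        (by
          rw [hth, mul_assoc, div_mul_cancel₀ _ hQd.ne']
          exact hψ1)
      rw [mul_assoc] at h2
      exact h2
    -- tops
    have hTt : ∀ t ∈ l.toFinset, (1 + m ∅) * vv m (K.erase t) (l.toFinset.erase t)
        (a - pa m K t) ≤ ψ * (th (pshL m l) K t * phg (pshL m l) g (K.erase t)) := by
      intro t ht'
      have ht := List.mem_toFinset.1 ht'
      have htK := hlK t ht
      have hŵ : pa (pshL m l) K t = pshL m l {t} := pa_pshL_top h l hlK hn ht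
      obtain ⟨v, hv⟩ : ∃ v, v = pshL m l {t} := ⟨_, rfl⟩
      have hvw : w ≤ v := by
        rw [hv]
        exact (hw t ht).trans (single_le_pshL h l t)
      have hva : v ≤ pa m K t := by
        rw [hv]
        exact pshL_le_pa h l hlK hn ht
      have hmx : 0 ≤ max 0 (1 - v) := le_max_left _ _
      have hth : th (pshL m l) K t = x / (x + max 0 (1 - v)) := by
        unfold th
        rw [hŵ, ← hv, hQ']
      have hth0 : 0 ≤ th (pshL m l) K t := by
        rw [hth]
        exact div_nonneg hx.le (by linarith)
      have hφt := phg_nonneg hP hg (K.erase t)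
      rcases le_or_gt (a - pa m K t) 0 with h3 | h3
      · have h4 := vv_nonpos h (K := K.erase t) (T := l.toFinset.erase t) h3
        have h5 : (1 + m ∅) * vv m (K.erase t) (l.toFinset.erase t) (a - pa m K t) ≤ 0 :=
          mul_nonpos_of_nonneg_of_nonpos hc1 h4
        exact h5.trans (mul_nonneg hψ0 (mul_nonneg hth0 hφt))
      · obtain ⟨b, hb⟩ : ∃ b, b = pa m K t := ⟨_, rfl⟩
        rw [← hb] at h3 hva ⊢
        have hxt : 0 < x + (1 - b) := by linarith
        have hlen1 : 1 ≤ l.length := List.length_pos_of_mem ht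
        have hlen : (l.erase t).length = l.length - 1 := List.length_erase_of_mem ht
        have hlenr : ((l.erase t).length : ℝ) = l.length - 1 := by
          rw [hlen]
          push_cast [Nat.cast_sub hlen1]
          ring
        have hlr : (1 : ℝ) ≤ l.length := by exact_mod_cast hlen1
        have hkey : a - b - (l.erase t).length * w ≤
            ψ * th (pshL m l) K t * (x + (1 - b)) := by
          rw [hth, hlenr, mul_div_assoc', div_mul_eq_mul_div, le_div_iff₀ (by linarith)]
          obtain ⟨A, hA⟩ : ∃ A, A = a - l.length * w := ⟨_, rfl⟩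
          have hA1 : a - b - (l.length - 1) * w = A - (b - w) := by rw [hA]; ring
          rw [hA1]
          rw [← hA] at hψ1
          have hAz : A ≤ x + 1 - w := by
            rw [hA]
            nlinarith
          have hR : 0 ≤ ψ * x * (x + (1 - b)) := mul_nonneg (mul_nonneg hψ0 hx.le) hxt.le
          rcases le_or_gt (A - (b - w)) 0 with h4 | h4
          · have h5 : (A - (b - w)) * (x + max 0 (1 - v)) ≤ 0 :=
              mul_nonpos_of_nonpos_of_nonneg h4 (by linarith)
            exact h5.trans hR
          · have hA0 : 0 < A := by linarith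
            rcases le_total v 1 with h5 | h5
            · rw [max_eq_right (by linarith)]
              have h6 : (A - (b - w)) * (x + (1 - v)) ≤ A * (x + (1 - b)) := by
                have h7 : A * (b - v) ≤ (x + 1 - w) * (b - v) :=
                  mul_le_mul_of_nonneg_right hAz (by linarith)
                have h8 : 0 ≤ (x + 1 - b) * (v - w) := mul_nonneg (by linarith) (by linarith)
                nlinarith
              exact h6.trans (mul_le_mul_of_nonneg_right hψ1 hxt.le)
            · rw [max_eq_left (by linarith), add_zero]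
              have h6 : A - (b - w) ≤ ψ * (x + (1 - b)) := by
                have hb1 : 1 ≤ b := by linarith
                rcases le_total (ψ * (b - 1)) (b - w) with h7 | h7
                · nlinarith
                · rcases eq_or_lt_of_le hb1 with h9 | h9
                  · rw [← h9] at h7 ⊢
                    rw [sub_self, mul_zero] at h7
                    rw [sub_self, add_zero]
                    linarith
                  · have h8 : 1 ≤ ψ := by
                      by_contra hcon
                      push Not at hcon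
                      nlinarith
                    have h10 : A - (b - w) ≤ x + (1 - b) := by linarith
                    nlinarith
              calc (A - (b - w)) * x ≤ ψ * (x + (1 - b)) * x :=
                    mul_le_mul_of_nonneg_right h6 hx.le
                _ = ψ * x * (x + (1 - b)) := by ring
        have h2 := ih (K.erase t) (l.erase t) (x + (1 - b)) (a - b) (ψ * th (pshL m l) K t)
          (by rw [card_erase_of_mem htK]; omega) (hn.erase t)
          (fun u hu => by
            rw [hn.mem_erase_iff] at hu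
            exact mem_erase.2 ⟨hu.1, hlK u hu.2⟩)
          (by rw [card_erase_of_mem htK]; omega) hxt
          (fun i hi hi2 => by
            rw [mem_erase] at hi
            refine (pa_erase_le h.1 t i).trans (hlow i hi.2 fun h4 => hi2 ?_)
            rw [hn.mem_erase_iff]
            exact ⟨hi.1, h4⟩)
          (fun u hu => hw u (List.mem_of_mem_erase hu))
          (by rw [pQ_erase htK, hQe, ← hb]) (by linarith)
          (mul_nonneg hψ0 hth0) hkey
        rw [← toFinset_erase' hn] at h2
        refine h2.trans ?_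
        rw [mul_assoc]
        refine mul_le_mul_of_nonneg_left (mul_le_mul_of_nonneg_left ?_ hth0) hψ0
        refine phg_mono hg fun D hD => pshL_erase h l ?_
        rw [subset_erase] at hD
        exact hD.2
    have hs1 := sum_le_sum hL
    have hs2 := sum_le_sum hTt
    rw [← mul_sum, ← mul_sum] at hs1 hs2
    have hsum : (1 + m ∅) * (pal m K * vv m K l.toFinset a) ≤
        ψ * ∑ k ∈ K, th (pshL m l) K k * phg (pshL m l) g (K.erase k) := by
      have hs3 : ψ * ∑ k ∈ K, th (pshL m l) K k * phg (pshL m l) g (K.erase k) =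
          ψ * ∑ k ∈ K \ l.toFinset, th (pshL m l) K k * phg (pshL m l) g (K.erase k) +
            ψ * ∑ k ∈ l.toFinset, th (pshL m l) K k * phg (pshL m l) g (K.erase k) := by
        rw [← sum_sdiff hTK]
        ring
      have hs4 : (1 + m ∅) * (pal m K * vv m K l.toFinset a) =
          (1 + m ∅) * ∑ j ∈ K \ l.toFinset, vv m (K.erase j) l.toFinset a +
            (1 + m ∅) * ∑ t ∈ l.toFinset, vv m (K.erase t) (l.toFinset.erase t)
              (a - pa m K t) := by
        rw [hrec]
        ring
      rw [hs3, hs4]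
      exact add_le_add hs1 hs2
    have h1 : pal m K * ((1 + m ∅) * vv m K l.toFinset a) ≤
        pal m K * (ψ * phg (pshL m l) g K) := by
      have h2 : ψ * ∑ k ∈ K, th (pshL m l) K k * phg (pshL m l) g (K.erase k) ≤
          ψ * (pal m K * phg (pshL m l) g K) := mul_le_mul_of_nonneg_left (by linarith) hψ0
      calc pal m K * ((1 + m ∅) * vv m K l.toFinset a) =
            (1 + m ∅) * (pal m K * vv m K l.toFinset a) := by ring
        _ ≤ ψ * ∑ k ∈ K, th (pshL m l) K k * phg (pshL m l) g (K.erase k) := hsum
        _ ≤ ψ * (pal m K * phg (pshL m l) g K) := h2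
        _ = pal m K * (ψ * phg (pshL m l) g K) := by ring
    exact le_of_mul_le_mul_left h1 hal0

/-! ### Masses in units, sets of tops -/

theorem psf_scale (m : Finset V → ℝ) (r : ℝ) (t : V) :
    psf (fun D => m D / r) t = fun D => psf m t D / r := by
  funext D
  by_cases h1 : t ∈ D
  · by_cases h2 : D = {t}
    · rw [h2, psf_self, psf_self]
    · rw [psf_mem h1 h2, psf_mem h1 h2, zero_div]
  · rcases D.eq_empty_or_nonempty with h0 | h0
    · rw [h0, psf_empty, psf_empty]
    · rw [psf_notMem h1 h0, psf_notMem h1 h0, add_div]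

theorem pshL_scale (m : Finset V → ℝ) (r : ℝ) (l : List V) :
    pshL (fun D => m D / r) l = fun D => pshL m l D / r := by
  induction l with
  | nil => rfl
  | cons t l ih =>
    rw [show pshL (fun D => m D / r) (t :: l) = psf (pshL (fun D => m D / r) l) t from rfl, ih,
      psf_scale]
    rfl

/-- the masses pushed off a set of tops -/
noncomputable def mh (m : Finset V → ℝ) (T : Finset V) : Finset V → ℝ := pshL m T.toList

theorem PosM.mh (h : PosM m) (T : Finset V) : PosM (mh m T) := h.pshL _

theorem mh_empty (T : Finset V) : mh m T ∅ = m ∅ := empty_pshL _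

theorem le_mh (h : PosM m) (T : Finset V) (j : V) : m {j} ≤ mh m T {j} := single_le_pshL h _ j

theorem pal_mh {K T : Finset V} (hT : T ⊆ K) : pal (mh m T) K = pal m K :=
  pal_pshL _ fun t ht => hT (mem_toList.1 ht)

theorem pa_mh_low {K T : Finset V} (hT : T ⊆ K) {j : V} (hj : j ∉ T) :
    pa (mh m T) K j = pa m K j :=
  pa_pshL_low _ (fun t ht => hT (mem_toList.1 ht)) fun h => hj (mem_toList.1 h)

theorem pa_mh_top (h : PosM m) {K T : Finset V} (hT : T ⊆ K) {j : V} (hj : j ∈ T) :
    pa (mh m T) K j = mh m T {j} :=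
  pa_pshL_top h _ (fun t ht => hT (mem_toList.1 ht)) (nodup_toList T) (mem_toList.2 hj)

/-- the overlaps of the pushed masses -/
theorem po_mh (h : PosM m) {K T : Finset V} (hT : T ⊆ K) :
    po (mh m T) K ≤ ∑ j ∈ K \ T, pa m K j + pal m T - pal m K := by
  have hP : PosM (mh m T) := h.mh T
  have h1 := sum_pa (m := mh m T) (K := K)
  rw [← sum_sdiff hT, pal_mh hT, mh_empty] at h1
  have h2 : ∑ j ∈ K \ T, pa (mh m T) K j = ∑ j ∈ K \ T, pa m K j :=
    sum_congr rfl fun j hj => pa_mh_low hT (mem_sdiff.1 hj).2
  have h3 : ∑ j ∈ T, pa (mh m T) K j = ∑ j ∈ T, mh m T {j} :=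
    sum_congr rfl fun j hj => pa_mh_top h hT hj
  have h4 := pal_eq (m := mh m T) (K := T)
  rw [pal_mh (subset_refl T), mh_empty] at h4
  have h5 := pN_nonneg (K := T) hP.1
  rw [h2, h3] at h1
  linarith

/-- the pushed masses: the private masses of the lows -/
theorem sum_mh_low (h : PosM m) {K T : Finset V} (hT : T ⊆ K) :
    pal m K - pal m T - pN (mh m T) K ≤ ∑ j ∈ K \ T, mh m T {j} := by
  have hP : PosM (mh m T) := h.mh T
  have h1 := pal_eq (m := mh m T) (K := K)
  rw [pal_mh hT, mh_empty, ← sum_sdiff hT] at h1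
  have h4 := pal_eq (m := mh m T) (K := T)
  rw [pal_mh (subset_refl T), mh_empty] at h4
  have h5 := pN_nonneg (K := T) hP.1
  linarith

/-- if the mass inside the tops is at least `a` then the functional is not positive -/
theorem vv_nonpos_inside (h : PosM m) (N : ℕ) : ∀ (K T : Finset V) (a : ℝ), K.card ≤ N →
    T ⊆ K → a ≤ pal m T - m ∅ → vv m K T a ≤ 0 := by
  induction N with
  | zero =>
    intro K T a hN hT ha
    have hK : K = ∅ := card_eq_zero.1 (by omega)
    have hT0 : T = ∅ := subset_empty.1 (hK ▸ hT)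
    subst hT0
    refine vv_nonpos h (ha.trans ?_)
    unfold pal
    simp
  | succ N ih =>
    intro K T a hN hT ha
    rcases T.eq_empty_or_nonempty with hT0 | hTne
    · subst hT0
      refine vv_nonpos h (ha.trans ?_)
      unfold pal
      simp
    have hKne : K.Nonempty := hTne.mono hT
    have hal0 : 0 < pal m K := h.sum_pos hKne
    rcases eq_or_ne T K with hTK | hTK
    · subst hTK
      have h1 : vv m T T a = (a - pal m T) * Ival m T := by
        unfold vv
        rw [← pal_mul_Ival h hKne]
        ring
      rw [h1]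
      exact mul_nonpos_of_nonpos_of_nonneg (by linarith [h.1 ∅]) (Ival_pos h T).le
    · have hK2 : 2 ≤ K.card := by
        have h1 : T.card < K.card := card_lt_card (ssubset_of_subset_of_ne hT hTK)
        have h2 := card_pos.2 hTne
        omega
      have hrec := vv_rec h hK2 hT a
      have h1 : ∑ l ∈ K \ T, vv m (K.erase l) T a ≤ 0 := by
        refine sum_nonpos fun l hl => ?_
        rw [mem_sdiff] at hl
        exact ih (K.erase l) T a (by rw [card_erase_of_mem hl.1]; omega)
          (fun t ht => mem_erase.2 ⟨fun h3 => hl.2 (h3 ▸ ht), hT ht⟩) ha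
      have h2 : ∑ t ∈ T, vv m (K.erase t) (T.erase t) (a - pa m K t) ≤ 0 := by
        refine sum_nonpos fun t ht => ?_
        refine ih (K.erase t) (T.erase t) _ (by rw [card_erase_of_mem (hT ht)]; omega)
          (erase_subset_erase t hT) ?_
        rw [pal_erase]
        have h3 : pa m T t ≤ pa m K t := by
          unfold pa
          refine sum_le_sum_of_subset_of_nonneg (powerset_mono.2 hT) fun D _ _ => ?_
          split_ifs
          · exact h.1 D
          · exact le_rfl
        linarith
      have h3 : pal m K * vv m K T a ≤ 0 := by linarith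
      by_contra hcon
      push Not at hcon
      have := mul_pos hal0 hcon
      linarith

/-- THE PUSHED POTENTIAL THEOREM, masses in units, cap `p` for the lows, no cap for the tops -/
theorem ptrT (h : PosM m) {K T : Finset V} (hT : T ⊆ K) (hK : 2 ≤ K.card) {p x a ψ : ℝ}
    (hp : 1 ≤ p) (hx : 0 < x) (hlow : ∀ j ∈ K, j ∉ T → pa m K j ≤ p) (hw : ∀ t ∈ T, 1 ≤ m {t})
    (hpal : pal m K = ((K.card : ℝ) - 2) * p + x) (ha : a ≤ p + x) (hψ0 : 0 ≤ ψ)
    (hψ1 : a - T.card ≤ ψ * x) :
    (p + m ∅) * (p ^ (K.card - 2) * vv m K T a) ≤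
      ψ * (2 + pt (mh m T) K / p + ∑ j ∈ K, (1 + pom (mh m T) K j / p) *
        (max 0 (p - m {j}) / (m {j} + m ∅))) := by
  have hp0 : 0 < p := by linarith
  have hpne := hp0.ne'
  set m' : Finset V → ℝ := fun D => m D / p with hm'
  have h' : PosM m' := ⟨fun D => div_nonneg (h.1 D) hp0.le, fun k => div_pos (h.2 k) hp0⟩
  have hpal' : pal m' K = pal m K / p := by
    unfold pal
    rw [sum_div]
  have hy : ∀ j, 0 < m {j} + m ∅ := fun j => add_pos_of_pos_of_nonneg (h.2 j) (h.1 ∅)
  have hg0 : ∀ j, 0 ≤ max 0 (p - m {j}) / (m {j} + m ∅) := fun j =>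
    div_nonneg (le_max_left _ _) (hy j).le
  have hg1 : ∀ j, 1 - m' {j} ≤ max 0 (p - m {j}) / (m {j} + m ∅) * (m' {j} + m' ∅) := by
    intro j
    have h1 : max 0 (p - m {j}) / (m {j} + m ∅) * (m' {j} + m' ∅) = max 0 (p - m {j}) / p := by
      simp only [hm']
      rw [← add_div]
      have := (hy j).ne'
      field_simp
    rw [h1, le_div_iff₀ hp0]
    have h2 : (1 - m' {j}) * p = p - m {j} := by
      simp only [hm']
      field_simp
    rw [h2]
    exact le_max_right _ _
  have h1 := ptr (g := fun j => max 0 (p - m {j}) / (m {j} + m ∅)) h' hg0 hg1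
    (w := 1 / p) (by positivity) (by rw [div_le_one hp0]; exact hp)
    K.card K T.toList (x / p) (a / p) ψ le_rfl (nodup_toList T)
    (fun t ht => hT (mem_toList.1 ht)) hK (div_pos hx hp0)
    (fun j hj hj2 => by
      rw [hm', pa_scale, div_le_one hp0]
      exact hlow j hj fun h3 => hj2 (mem_toList.2 h3))
    (fun t ht => by
      simp only [hm']
      exact div_le_div_of_nonneg_right (hw t (mem_toList.1 ht)) hp0.le)
    (by
      unfold pQ
      rw [hpal', hpal]
      field_simp
      ring)
    (by
      rw [div_le_iff₀ hp0, add_mul, div_mul_cancel₀ _ hpne]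
      linarith)
    hψ0
    (by
      rw [length_toList]
      have h2 : a / p - T.card * (1 / p) = (a - T.card) / p := by ring
      rw [h2, ← mul_div_assoc]
      exact div_le_div_of_nonneg_right hψ1 hp0.le)
  rw [toList_toFinset] at h1
  have h2 : phg (pshL m' T.toList) (fun j => max 0 (p - m {j}) / (m {j} + m ∅)) K =
      2 + pt (mh m T) K / p + ∑ j ∈ K, (1 + pom (mh m T) K j / p) *
        (max 0 (p - m {j}) / (m {j} + m ∅)) := by
    unfold phg
    rw [hm', pshL_scale]
    have h3 : pt (fun D => pshL m T.toList D / p) K = pt (mh m T) K / p := by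
      unfold pt mh
      rw [sum_div]
      exact sum_congr rfl fun D _ => by ring
    rw [h3]
    congr 1
    refine sum_congr rfl fun j _ => ?_
    rw [pom_scale]
    rfl
  rw [h2] at h1
  refine le_trans (le_of_eq ?_) h1
  have hn : K.card = (K.card - 2) + 2 := by omega
  have hI : Ival m' K = p ^ (K.card - 2) * p * p * Ival m K := by
    rw [hm', Ival_scale m hpne K]
    have : p ^ K.card = p ^ (K.card - 2) * p * p := by
      conv_lhs => rw [hn]
      ring
    rw [this]
  have hIt : ∀ t ∈ T, Ival m' (K.erase t) = p ^ (K.card - 2) * p * Ival m (K.erase t) := by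
    intro t ht
    rw [hm', Ival_scale m hpne (K.erase t), card_erase_of_mem (hT ht)]
    have : p ^ (K.card - 1) = p ^ (K.card - 2) * p := by
      rw [← pow_succ]
      congr 1
      omega
    rw [this]
  unfold vv
  rw [hI, sum_congr rfl hIt, ← mul_sum]
  have h4 : m' ∅ = m ∅ / p := rfl
  rw [h4]
  field_simp

end MP76b19e.Rob
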