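import Pool.Agent.Lib.MP76b19e.Rob.Pot

/-!
# The residual inequality of the potential with over-full elements (problem MP_76b19e_co)

`phg m g K = 2 + pt + ∑ (1 + pom j) g j` with arbitrary weights `g j ≥ (1 - m {j}) / (m {j} + m ∅)`,
`g j ≥ 0`. Theorem `star`: if `pQ m K > 0` then, for ARBITRARY masses (elements with
`pa m K k > 1` allowed), `∑ k, th k * phg m g (K.erase k) ≤ pal m K * phg m g K` with
`th k = pQ / (pQ + max 0 (1 - pa k))`. The over-full elements are removed by pushing mass from
`D` to `D.erase t`.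
-/

set_option autoImplicit false

open Finset

namespace MP76b19e.Rob

variable {V : Type} [DecidableEq V] {m : Finset V → ℝ} {K : Finset V} {g : V → ℝ}

/-- weight of a set in the potential -/
noncomputable def uw (g : V → ℝ) (A D : Finset V) : ℝ :=
  ((D.card - 2 : ℕ) : ℝ) + ∑ j ∈ A, (((D.erase j).card - 1 : ℕ) : ℝ) * g j

/-- potential with arbitrary weights -/
noncomputable def phg (m : Finset V → ℝ) (g : V → ℝ) (A : Finset V) : ℝ :=
  2 + pt m A + ∑ j ∈ A, (1 + pom m A j) * g j

/-- the factor of an element -/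
noncomputable def th (m : Finset V → ℝ) (K : Finset V) (k : V) : ℝ :=
  pQ m K / (pQ m K + max 0 (1 - pa m K k))

/-- the residual -/
noncomputable def rs (m : Finset V → ℝ) (g : V → ℝ) (K : Finset V) : ℝ :=
  pal m K * phg m g K - ∑ k ∈ K, th m K k * phg m g (K.erase k)

/-- the coefficient of a set in the residual -/
noncomputable def cf (P : ℝ) (θ : V → ℝ) (g : V → ℝ) (K D : Finset V) : ℝ :=
  P * uw g K D - ∑ k ∈ K \ D, θ k * uw g (K.erase k) D

theorem phg_eq (m : Finset V → ℝ) (g : V → ℝ) (A : Finset V) :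
    phg m g A = 2 + ∑ j ∈ A, g j + ∑ D ∈ A.powerset, uw g A D * m D := by
  unfold phg uw pt pom
  have h1 : ∑ j ∈ A, (1 + ∑ D ∈ A.powerset, (((D.erase j).card - 1 : ℕ) : ℝ) * m D) * g j =
      ∑ j ∈ A, g j + ∑ D ∈ A.powerset, (∑ j ∈ A, (((D.erase j).card - 1 : ℕ) : ℝ) * g j) * m D := by
    have h2 : ∀ j ∈ A, (1 + ∑ D ∈ A.powerset, (((D.erase j).card - 1 : ℕ) : ℝ) * m D) * g j =
        g j + ∑ D ∈ A.powerset, (((D.erase j).card - 1 : ℕ) : ℝ) * g j * m D := by
      intro j _
      rw [add_mul, one_mul, sum_mul]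
      congr 1
      exact sum_congr rfl fun D _ => by ring
    rw [sum_congr rfl h2, sum_add_distrib, sum_comm]
    congr 1
    exact sum_congr rfl fun D _ => by rw [sum_mul]
  rw [h1]
  have h3 : ∑ D ∈ A.powerset, (((D.card - 2 : ℕ) : ℝ) +
      ∑ j ∈ A, (((D.erase j).card - 1 : ℕ) : ℝ) * g j) * m D =
      ∑ D ∈ A.powerset, ((D.card - 2 : ℕ) : ℝ) * m D +
        ∑ D ∈ A.powerset, (∑ j ∈ A, (((D.erase j).card - 1 : ℕ) : ℝ) * g j) * m D := by
    rw [← sum_add_distrib]
    exact sum_congr rfl fun D _ => by ring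
  rw [h3]
  ring

theorem rs_eq (m : Finset V → ℝ) (g : V → ℝ) (K : Finset V) :
    rs m g K = pal m K * (2 + ∑ j ∈ K, g j) - ∑ k ∈ K, th m K k * (2 + ∑ j ∈ K.erase k, g j) +
      ∑ D ∈ K.powerset, cf (pal m K) (th m K) g K D * m D := by
  unfold rs cf
  have h1 : ∀ k ∈ K, th m K k * phg m g (K.erase k) = th m K k * (2 + ∑ j ∈ K.erase k, g j) +
      ∑ D ∈ K.powerset, (if k ∈ K \ D then th m K k * uw g (K.erase k) D * m D else 0) := by
    intro k hk
    rw [phg_eq, mul_add]
    congr 1
    rw [mul_sum, ← sum_filter]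
    refine sum_congr ?_ fun D _ => by ring
    ext D
    simp only [mem_powerset, mem_filter, mem_sdiff, subset_erase]
    tauto
  rw [sum_congr rfl h1, sum_add_distrib, sum_comm, phg_eq]
  have h2 : ∑ D ∈ K.powerset, (pal m K * uw g K D -
      ∑ k ∈ K \ D, th m K k * uw g (K.erase k) D) * m D =
      pal m K * ∑ D ∈ K.powerset, uw g K D * m D - ∑ D ∈ K.powerset,
        ∑ k ∈ K, (if k ∈ K \ D then th m K k * uw g (K.erase k) D * m D else 0) := by
    rw [mul_sum, ← sum_sub_distrib]
    refine sum_congr rfl fun D _ => ?_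
    rw [sub_mul, sum_mul, ← sum_filter]
    have h3 : K.filter (fun k => k ∈ K \ D) = K \ D := by
      ext k
      simp only [mem_filter, mem_sdiff]
      tauto
    rw [h3]
    ring
  rw [h2]
  ring

/-! ### Pushing mass off an element -/

/-- move the mass `r D` from `D` to `D.erase t` -/
def psh (m : Finset V → ℝ) (t : V) (r : Finset V → ℝ) : Finset V → ℝ := fun D =>
  if t ∈ D then m D - r D else m D + r (insert t D)

theorem sum_pw {t : V} (ht : t ∈ K) (f : Finset V → ℝ) : ∑ D ∈ K.powerset, f D =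
    ∑ D ∈ (K.erase t).powerset, f D + ∑ D ∈ (K.erase t).powerset, f (insert t D) := by
  conv_lhs => rw [← insert_erase ht]
  exact sum_powerset_insert (notMem_erase t K) f

theorem psh_sum {t : V} (ht : t ∈ K) (r f : Finset V → ℝ) :
    ∑ D ∈ K.powerset, f D * psh m t r D = ∑ D ∈ K.powerset, f D * m D -
      ∑ D ∈ (K.erase t).powerset, (f (insert t D) - f D) * r (insert t D) := by
  rw [sum_pw ht, sum_pw ht (fun D => f D * m D)]
  have h1 : ∀ D ∈ (K.erase t).powerset, f D * psh m t r D = f D * m D + f D * r (insert t D) := by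
    intro D hD
    rw [mem_powerset, subset_erase] at hD
    unfold psh
    rw [if_neg hD.2]
    ring
  have h2 : ∀ D ∈ (K.erase t).powerset, f (insert t D) * psh m t r (insert t D) =
      f (insert t D) * m (insert t D) - f (insert t D) * r (insert t D) := by
    intro D _
    unfold psh
    rw [if_pos (mem_insert_self t D)]
    ring
  rw [sum_congr rfl h1, sum_congr rfl h2, sum_add_distrib, sum_sub_distrib]
  have h3 : ∑ D ∈ (K.erase t).powerset, (f (insert t D) - f D) * r (insert t D) =
      ∑ D ∈ (K.erase t).powerset, f (insert t D) * r (insert t D) -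
        ∑ D ∈ (K.erase t).powerset, f D * r (insert t D) := by
    rw [← sum_sub_distrib]
    exact sum_congr rfl fun D _ => by ring
  rw [h3]
  ring

theorem pal_psh {t : V} (ht : t ∈ K) (r : Finset V → ℝ) : pal (psh m t r) K = pal m K := by
  have h1 := psh_sum (m := m) ht r (fun _ => 1)
  simp only [one_mul, sub_self, zero_mul, sum_const_zero, sub_zero] at h1
  exact h1

theorem pa_eq_sum (m : Finset V → ℝ) (K : Finset V) (j : V) :
    pa m K j = ∑ D ∈ K.powerset, (if j ∈ D then (1 : ℝ) else 0) * m D := by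
  unfold pa
  refine sum_congr rfl fun D _ => ?_
  split_ifs <;> ring

theorem pa_psh_ne {t j : V} (ht : t ∈ K) (hj : j ≠ t) (r : Finset V → ℝ) :
    pa (psh m t r) K j = pa m K j := by
  rw [pa_eq_sum, pa_eq_sum, psh_sum ht r, sub_eq_self]
  refine sum_eq_zero fun D _ => ?_
  have h1 : (j ∈ insert t D) ↔ j ∈ D := by
    rw [mem_insert]
    tauto
  simp only [h1, sub_self, zero_mul]

theorem pa_psh_self {t : V} (ht : t ∈ K) (r : Finset V → ℝ) :
    pa (psh m t r) K t = pa m K t - ∑ D ∈ (K.erase t).powerset, r (insert t D) := by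
  rw [pa_eq_sum, pa_eq_sum, psh_sum ht r]
  congr 1
  refine sum_congr rfl fun D hD => ?_
  rw [mem_powerset, subset_erase] at hD
  rw [if_pos (mem_insert_self t D), if_neg hD.2]
  ring

theorem pQ_psh {t : V} (ht : t ∈ K) (r : Finset V → ℝ) : pQ (psh m t r) K = pQ m K := by
  unfold pQ
  rw [pal_psh ht]

/-- the total mass of the sets with `t` -/
theorem pa_split {t : V} (ht : t ∈ K) :
    pa m K t = ∑ D ∈ (K.erase t).powerset, m (insert t D) := by
  rw [pa_eq_sum, sum_pw ht]
  have h1 : ∑ D ∈ (K.erase t).powerset, (if t ∈ D then (1 : ℝ) else 0) * m D = 0 := by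
    refine sum_eq_zero fun D hD => ?_
    rw [mem_powerset, subset_erase] at hD
    rw [if_neg hD.2, zero_mul]
  rw [h1, zero_add]
  refine sum_congr rfl fun D _ => ?_
  rw [if_pos (mem_insert_self t D), one_mul]

/-! ### The coefficient is monotone -/

theorem uw_mono (hg : ∀ j, 0 ≤ g j) (A : Finset V) {D : Finset V} {t : V} (ht : t ∉ D) :
    0 ≤ uw g A (insert t D) - uw g A D := by
  unfold uw
  have h1 : ((D.card - 2 : ℕ) : ℝ) ≤ (((insert t D).card - 2 : ℕ) : ℝ) := by
    have : D.card ≤ (insert t D).card := card_le_card (subset_insert t D)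
    exact_mod_cast Nat.sub_le_sub_right this 2
  have h2 : ∑ j ∈ A, (((D.erase j).card - 1 : ℕ) : ℝ) * g j ≤
      ∑ j ∈ A, ((((insert t D).erase j).card - 1 : ℕ) : ℝ) * g j := by
    refine sum_le_sum fun j _ => mul_le_mul_of_nonneg_right ?_ (hg j)
    have : (D.erase j).card ≤ ((insert t D).erase j).card :=
      card_le_card (erase_subset_erase j (subset_insert t D))
    exact_mod_cast Nat.sub_le_sub_right this 1
  linarith

theorem uw_mono_erase (hg : ∀ j, 0 ≤ g j) (A : Finset V) {D : Finset V} {t k : V} (hk : k ∈ A) :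
    uw g (A.erase k) (insert t D) - uw g (A.erase k) D ≤ uw g A (insert t D) - uw g A D := by
  unfold uw
  have h1 := add_sum_erase A (fun j => (((D.erase j).card - 1 : ℕ) : ℝ) * g j) hk
  have h2 := add_sum_erase A (fun j => ((((insert t D).erase j).card - 1 : ℕ) : ℝ) * g j) hk
  have h3 : (((D.erase k).card - 1 : ℕ) : ℝ) * g k ≤
      ((((insert t D).erase k).card - 1 : ℕ) : ℝ) * g k := by
    refine mul_le_mul_of_nonneg_right ?_ (hg k)
    have : (D.erase k).card ≤ ((insert t D).erase k).card :=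
      card_le_card (erase_subset_erase k (subset_insert t D))
    exact_mod_cast Nat.sub_le_sub_right this 1
  linarith

theorem uw_nonneg (hg : ∀ j, 0 ≤ g j) (A D : Finset V) : 0 ≤ uw g A D :=
  add_nonneg (Nat.cast_nonneg _) (sum_nonneg fun j _ => mul_nonneg (Nat.cast_nonneg _) (hg j))

/-- the coefficient decreases when `t` is removed from the set -/
theorem cf_mono (hg : ∀ j, 0 ≤ g j) {P : ℝ} {θ : V → ℝ} (hθ0 : ∀ k, 0 ≤ θ k) (hθ1 : ∀ k, θ k ≤ 1)
    (hP : (K.card : ℝ) - 2 ≤ P) {t : V} (ht : t ∈ K) {D : Finset V}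
    (hD : D ∈ (K.erase t).powerset) : 0 ≤ cf P θ g K (insert t D) - cf P θ g K D := by
  rw [mem_powerset, subset_erase] at hD
  obtain ⟨hDK, htD⟩ := hD
  rcases D.eq_empty_or_nonempty with h0 | h0
  · -- the coefficients vanish
    have h1 : ∀ A : Finset V, uw g A ∅ = 0 := by
      intro A
      unfold uw
      simp
    have h2 : ∀ A : Finset V, uw g A {t} = 0 := by
      intro A
      unfold uw
      have h3 : ∀ j ∈ A, (((({t} : Finset V).erase j).card - 1 : ℕ) : ℝ) * g j = 0 := by
        intro j _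
        have h4 : (({t} : Finset V).erase j).card ≤ 1 := by
          refine (card_le_card (erase_subset j _)).trans ?_
          rw [card_singleton]
        have h5 : (({t} : Finset V).erase j).card - 1 = 0 := by omega
        rw [h5]
        simp
      rw [sum_eq_zero h3, card_singleton]
      norm_num
    subst h0
    unfold cf
    rw [insert_empty_eq]
    simp only [h1, h2, mul_zero, sum_const_zero]
    norm_num
  · unfold cf
    have h1 : K \ D = insert t (K \ insert t D) := by
      ext x
      simp only [mem_sdiff, mem_insert]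
      constructor
      · rintro ⟨h2, h3⟩
        by_cases h4 : x = t
        · exact Or.inl h4
        · exact Or.inr ⟨h2, fun h5 => h5.elim h4 h3⟩
      · rintro (rfl | ⟨h2, h3⟩)
        · exact ⟨ht, htD⟩
        · exact ⟨h2, fun h4 => h3 (Or.inr h4)⟩
    have h2 : t ∉ K \ insert t D := by
      simp
    rw [h1, sum_insert h2]
    have h3 : 0 ≤ θ t * uw g (K.erase t) D := mul_nonneg (hθ0 t) (uw_nonneg hg _ _)
    have h4 : ∑ k ∈ K \ insert t D, θ k * uw g (K.erase k) (insert t D) -
        ∑ k ∈ K \ insert t D, θ k * uw g (K.erase k) D ≤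
        ((K \ insert t D).card : ℝ) * (uw g K (insert t D) - uw g K D) := by
      rw [← sum_sub_distrib, ← nsmul_eq_mul]
      refine sum_le_card_nsmul _ _ _ fun k hk => ?_
      rw [mem_sdiff] at hk
      have h5 := uw_mono_erase hg K (D := D) (t := t) hk.1
      have h6 := uw_mono hg (K.erase k) htD
      have h7 : θ k * (uw g (K.erase k) (insert t D) - uw g (K.erase k) D) ≤
          1 * (uw g (K.erase k) (insert t D) - uw g (K.erase k) D) :=
        mul_le_mul_of_nonneg_right (hθ1 k) h6
      linarith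
    have h5 : ((K \ insert t D).card : ℝ) ≤ (K.card : ℝ) - 2 := by
      have h6 : insert t D ⊆ K := insert_subset ht hDK
      have h7 := card_sdiff_add_card_eq_card h6
      have h8 : 2 ≤ (insert t D).card := by
        rw [card_insert_of_notMem htD]
        have := card_pos.2 h0
        omega
      have h9 : ((K \ insert t D).card : ℝ) + ((insert t D).card : ℝ) = K.card := by
        exact_mod_cast h7
      have h10 : (2 : ℝ) ≤ ((insert t D).card : ℝ) := by exact_mod_cast h8
      linarith
    have h6 := uw_mono hg K htD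
    have h7 : ((K \ insert t D).card : ℝ) * (uw g K (insert t D) - uw g K D) ≤
        P * (uw g K (insert t D) - uw g K D) :=
      mul_le_mul_of_nonneg_right (h5.trans hP) h6
    linarith

/-! ### One push -/

/-- `rs` decreases when mass is pushed off `t` -/
theorem rs_psh (hg : ∀ j, 0 ≤ g j) (hQ : 0 < pQ m K) {t : V} (ht : t ∈ K)
    {r : Finset V → ℝ} (hr : ∀ D, 0 ≤ r D) (h1 : 1 ≤ pa m K t)
    (h2 : ∑ D ∈ (K.erase t).powerset, r (insert t D) = pa m K t - 1) :
    rs (psh m t r) g K ≤ rs m g K := by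
  have hth : th (psh m t r) K = th m K := by
    funext k
    unfold th
    rw [pQ_psh ht]
    by_cases hk : k = t
    · subst hk
      rw [pa_psh_self ht, h2]
      have h3 : 1 - (pa m K k - (pa m K k - 1)) = 0 := by ring
      rw [h3, max_eq_left (by linarith : 1 - pa m K k ≤ 0), max_self]
    · rw [pa_psh_ne ht hk]
  have h3 : rs m g K - rs (psh m t r) g K = ∑ D ∈ (K.erase t).powerset,
      (cf (pal m K) (th m K) g K (insert t D) - cf (pal m K) (th m K) g K D) * r (insert t D) := by
    rw [rs_eq, rs_eq, hth, pal_psh ht, psh_sum ht r]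
    ring
  have h4 : 0 ≤ rs m g K - rs (psh m t r) g K := by
    rw [h3]
    refine sum_nonneg fun D hD => mul_nonneg ?_ (hr _)
    refine cf_mono hg (fun k => ?_) (fun k => ?_) ?_ ht hD
    · exact div_nonneg hQ.le (add_nonneg hQ.le (le_max_left _ _))
    · unfold th
      have h5 := le_max_left (0 : ℝ) (1 - pa m K k)
      exact div_le_one_of_le₀ (by linarith) (by linarith)
    · unfold pQ at hQ
      linarith
  linarith

/-- the pushed masses: `t` becomes full -/
theorem exists_psh (h : PosM m) (hg : ∀ j, 0 ≤ g j)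
    (hg1 : ∀ j, 1 - m {j} ≤ g j * (m {j} + m ∅)) {t : V} (ht : t ∈ K) (h1 : 1 < pa m K t) :
    ∃ r : Finset V → ℝ, (∀ D, 0 ≤ r D) ∧
      (∑ D ∈ (K.erase t).powerset, r (insert t D) = pa m K t - 1) ∧ PosM (psh m t r) ∧
      ∀ j, 1 - psh m t r {j} ≤ g j * (psh m t r {j} + psh m t r ∅) := by
  have hw := le_pa (K := K) h.1 ht
  have hwt := h.2 t
  -- the masses
  obtain ⟨s, hs⟩ : ∃ s, s = max (m {t} - 1) 0 := ⟨_, rfl⟩
  have hs0 : 0 ≤ s := by rw [hs]; exact le_max_right _ _
  have hs1 : m {t} - 1 ≤ s := by rw [hs]; exact le_max_left _ _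
  have hsw : s < m {t} := by
    rw [hs]
    exact max_lt (by linarith) hwt
  have hs3 : s ≤ pa m K t - 1 := by
    rw [hs]
    exact max_le (by linarith) (by linarith)
  obtain ⟨ρ, hρ0, hρ1, hρ⟩ : ∃ ρ : ℝ, 0 ≤ ρ ∧ ρ ≤ 1 ∧
      s + ρ * (pa m K t - m {t}) = pa m K t - 1 := by
    rcases eq_or_lt_of_le hw with h2 | h2
    · refine ⟨0, le_rfl, zero_le_one, ?_⟩
      rw [hs, ← h2, max_eq_left (by linarith)]
      ring
    · have h3 : 0 < pa m K t - m {t} := by linarith
      refine ⟨(pa m K t - 1 - s) / (pa m K t - m {t}), div_nonneg (by linarith) h3.le, ?_, ?_⟩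
      · rw [div_le_one h3]
        linarith
      · rw [div_mul_cancel₀ _ h3.ne']
        ring
  refine ⟨fun D => if D = {t} then s else ρ * m D, ?_, ?_, ⟨?_, ?_⟩, ?_⟩
  · intro D
    simp only
    split_ifs
    · exact hs0
    · exact mul_nonneg hρ0 (h.1 D)
  · -- the total
    have h2 : ∀ D ∈ (K.erase t).powerset, (if insert t D = {t} then s else ρ * m (insert t D)) =
        ρ * m (insert t D) + if D = ∅ then s - ρ * m {t} else 0 := by
      intro D hD
      rw [mem_powerset, subset_erase] at hD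
      by_cases h3 : D = ∅
      · subst h3
        rw [if_pos rfl, insert_empty_eq, if_pos rfl]
        ring
      · rw [if_neg h3, if_neg, add_zero]
        intro h4
        obtain ⟨x, hx⟩ := nonempty_iff_ne_empty.2 h3
        have h5 : x ∈ ({t} : Finset V) := by
          rw [← h4]
          exact mem_insert_of_mem hx
        rw [mem_singleton] at h5
        subst h5
        exact hD.2 hx
    rw [sum_congr rfl h2, sum_add_distrib, ← mul_sum, ← pa_split ht,
      sum_ite_eq' (K.erase t).powerset ∅, if_pos (empty_mem_powerset _)]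
    linarith
  · intro D
    unfold psh
    simp only
    split_ifs with h2 h3 h3
    · rw [h3]
      linarith
    · have := h.1 D
      nlinarith
    · linarith [h.1 D]
    · have := h.1 D
      have := h.1 (insert t D)
      have := mul_nonneg hρ0 this
      linarith
  · intro k
    unfold psh
    simp only
    split_ifs with h2 h3 h3
    · rw [h3]
      linarith
    · rw [mem_singleton] at h2
      subst h2
      exact absurd rfl h3
    · have := h.2 k
      linarith
    · have := h.2 k
      have := mul_nonneg hρ0 (h.1 (insert t {k}))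
      linarith
  · intro j
    have he : psh m t (fun D => if D = {t} then s else ρ * m D) ∅ = m ∅ + s := by
      unfold psh
      rw [if_neg (notMem_empty t)]
      simp only [insert_empty_eq, if_true]
    by_cases hj : j = t
    · subst hj
      have h2 : psh m j (fun D => if D = {j} then s else ρ * m D) {j} = m {j} - s := by
        unfold psh
        rw [if_pos (mem_singleton_self j)]
        simp only [if_true]
      rw [he, h2]
      have h3 := hg1 j
      have h4 : m {j} - s + (m ∅ + s) = m {j} + m ∅ := by ring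
      rw [h4]
      rcases le_total (m {j}) 1 with h5 | h5
      · have h6 : s = 0 := by
          rw [hs]
          exact max_eq_right (by linarith)
        rw [h6]
        linarith
      · have h6 : s = m {j} - 1 := by
          rw [hs]
          exact max_eq_left (by linarith)
        rw [h6]
        have h7 : 0 ≤ g j * (m {j} + m ∅) := mul_nonneg (hg j) (add_nonneg (h.1 _) (h.1 _))
        linarith
    · have h2 : m {j} ≤ psh m t (fun D => if D = {t} then s else ρ * m D) {j} := by
        unfold psh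
        rw [if_neg (by rw [mem_singleton]; exact fun h9 => hj h9.symm)]
        simp only
        split_ifs
        · linarith
        · have := mul_nonneg hρ0 (h.1 (insert t {j}))
          linarith
      rw [he]
      have h3 := hg1 j
      have h4 : g j * (m {j} + m ∅) ≤
          g j * (psh m t (fun D => if D = {t} then s else ρ * m D) {j} + (m ∅ + s)) :=
        mul_le_mul_of_nonneg_left (by linarith) (hg j)
      linarith

/-! ### No over-full element -/

/-- the residual inequality if all elements are at most full (from `Pot`) -/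
theorem resid0 (h : PosM m) (ha : ∀ k ∈ K, pa m K k ≤ 1) (hQ : 0 < pQ m K) :
    ∑ k ∈ K, pQ m K / pQ m (K.erase k) * ph m (K.erase k) ≤ pal m K * ph m K := by
  have hc0 : 0 ≤ m ∅ := h.1 ∅
  have hQk : ∀ k ∈ K, pQ m (K.erase k) = pQ m K + (1 - pa m K k) := fun k hk => pQ_erase hk
  have hQpos : ∀ k ∈ K, 0 < pQ m (K.erase k) := by
    intro k hk
    rw [hQk k hk]
    have := ha k hk
    linarith
  have hak : ∀ k ∈ K, ∀ i ∈ K.erase k, pa m (K.erase k) i ≤ 1 := fun k _ i hi =>
    (pa_erase_le h.1 k i).trans (ha i (mem_of_mem_erase hi))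
  have hstep := step_eq (m := m) (K := K) h fun k hk => (hQpos k hk).ne'
  -- the weight
  set D : ℝ := ∑ k ∈ K, (1 - pa m K k) with hD
  have hDeq : D = 2 - pQ m K + m ∅ - po m K := sum_one_sub_pa
  have hD0 : 0 ≤ D := sum_nonneg fun k hk => by
    have := ha k hk
    linarith
  have ho := po_nonneg (K := K) h.1
  obtain ⟨w, hw0, hwD, hw1, hw2⟩ : ∃ w : ℝ, 0 ≤ w ∧ w * D ≤ 2 * m ∅ ∧
      (∀ t, pQ m K ≤ 1 + t → m ∅ ≤ t → m ∅ ≤ w * (1 + t)) ∧
      (∀ t, pQ m K ≤ 1 + t → t ≤ pQ m K → 0 < t → t < m ∅ →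
        t - (1 - t) * (1 - t / m ∅) ≤ w * (1 + t)) := by
    rcases le_or_gt D 2 with hD2 | hD2
    · refine ⟨m ∅, hc0, by nlinarith, ?_, ?_⟩
      · intro t _ ht
        nlinarith
      · intro t _ _ ht0 htc
        have hc1 : 0 < m ∅ := ht0.trans htc
        obtain ⟨τ, hτ⟩ : ∃ τ, τ = t / m ∅ := ⟨_, rfl⟩
        have h1 : t = m ∅ * τ := by
          rw [hτ]
          field_simp
        have hτ0 : 0 < τ := by rw [hτ]; positivity
        have hτ1 : τ < 1 := by rw [hτ, div_lt_one hc1]; exact htc
        rw [← hτ, h1]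
        have h2 : m ∅ * (1 + m ∅ * τ) - (m ∅ * τ - (1 - m ∅ * τ) * (1 - τ)) =
            (1 - τ) + m ∅ * (1 - τ) ^ 2 + m ∅ ^ 2 * τ := by ring
        have h3 : 0 ≤ (1 - τ) + m ∅ * (1 - τ) ^ 2 + m ∅ ^ 2 * τ := by
          have : 0 ≤ 1 - τ := by linarith
          positivity
        linarith
    · have hQc : pQ m K < m ∅ := by linarith
      have hDpos : 0 < D := by linarith
      refine ⟨2 * m ∅ / D, by positivity, by rw [div_mul_cancel₀ _ hDpos.ne'], ?_, ?_⟩
      · intro t ht htc
        rw [div_mul_eq_mul_div, le_div_iff₀ hDpos]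
        have h1 : D ≤ 2 * (1 + t) := by linarith
        nlinarith
      · intro t ht htQ ht0 htc
        have hc1 : 0 < m ∅ := ht0.trans htc
        rw [div_mul_eq_mul_div, le_div_iff₀ hDpos]
        have hDt : D ≤ 2 + m ∅ - t := by linarith
        obtain ⟨τ, hτ⟩ : ∃ τ, τ = t / m ∅ := ⟨_, rfl⟩
        have h1 : t = m ∅ * τ := by
          rw [hτ]
          field_simp
        have hτ0 : 0 < τ := by rw [hτ]; positivity
        have hτ1 : τ < 1 := by rw [hτ, div_lt_one hc1]; exact htc
        rw [← hτ]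
        rcases le_or_gt (t - (1 - t) * (1 - τ)) 0 with h2 | h2
        · have h3 : (t - (1 - t) * (1 - τ)) * D ≤ 0 := mul_nonpos_of_nonpos_of_nonneg h2 hD0
          have h4 : 0 ≤ 2 * m ∅ * (1 + t) := by positivity
          linarith
        · refine (mul_le_mul_of_nonneg_left hDt h2.le).trans ?_
          obtain ⟨a, hA⟩ : ∃ a, a = 1 - τ := ⟨_, rfl⟩
          have hτa : τ = 1 - a := by linarith
          have ha0 : 0 < a := by linarith
          have ha1 : a < 1 := by linarith
          rw [h1, hτa]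
          have h3 : 2 * m ∅ * (1 + m ∅ * (1 - a)) -
              (m ∅ * (1 - a) - (1 - m ∅ * (1 - a)) * (1 - (1 - a))) *
                (2 + m ∅ - m ∅ * (1 - a)) =
              2 * a + 3 * m ∅ * a ^ 2 + m ∅ ^ 2 * (1 - a) ^ 2 * (2 + a) := by ring
          have h4 : 0 ≤ 2 * a + 3 * m ∅ * a ^ 2 + m ∅ ^ 2 * (1 - a) ^ 2 * (2 + a) := by
            positivity
          linarith
  -- the terms
  have hterm : ∀ k ∈ K, 0 ≤ (1 - pa m K k) / pQ m (K.erase k) * pY m (K.erase k) +
      pQ m K * pg m k * pom m K k + w * (1 - pa m K k) := by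
    intro k hk
    have h1 := hQk k hk
    have hdk0 : 0 ≤ 1 - pa m K k := by have := ha k hk; linarith
    have hpa0 : m {k} ≤ pa m K k := le_pa h.1 hk
    have hmk := h.2 k
    have hdk1 : 1 - pa m K k ≤ 1 := by linarith
    rw [h1]
    have hg0 := pg_nonneg h hk (ha k hk)
    refine scal (c := m ∅) (t := pQ m K + (1 - pa m K k) - 1) (N := pN m (K.erase k))
      hdk0 hdk1 (by ring) hQ (pN_nonneg h.1) (pN_erase_le h.1 k) hg0 ?_ hw0
      (pY_ge h (hak k hk)) ?_ ?_ ?_ ?_
    · -- `d ≤ g (1 + c - d)`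
      have h2 := pg_mul h k
      have h3 : pg m k * (m {k} + m ∅) ≤ pg m k * (pa m K k + m ∅) :=
        mul_le_mul_of_nonneg_left (by linarith) hg0
      -- `1 - m_k + pg (pa - m_k) ≥ d`
      have h4 : pg m k * (1 + m ∅ - (1 - pa m K k)) = pg m k * (m {k} + m ∅) +
          pg m k * (pa m K k - m {k}) := by ring
      rw [h4, h2]
      have h5 : 0 ≤ pg m k * (pa m K k - m {k}) := mul_nonneg hg0 (by linarith)
      linarith
    · intro ht
      exact pY_ge_of_le h (hak k hk) (by rw [h1]; linarith)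
    · intro ht0 htc
      exact pY_ge_of_lt h (hak k hk) (by rw [h1]; ring) ht0 htc
    · intro htc
      exact hw1 _ (by linarith) htc
    · intro ht0 htc
      exact hw2 _ (by linarith) (by linarith) ht0 htc
  have hsum : 0 ≤ ∑ k ∈ K, (1 - pa m K k) / pQ m (K.erase k) * pY m (K.erase k) +
      ∑ k ∈ K, pQ m K * pg m k * pom m K k + w * D := by
    rw [hD, mul_sum, ← sum_add_distrib, ← sum_add_distrib]
    exact sum_nonneg hterm
  have hV : ∑ k ∈ K, pQ m K * pg m k * pom m K k ≤
      ∑ j ∈ K, (pg m j * (pV m K j - pom m K j) + pQ m K * pg m j * pom m K j) := by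
    refine sum_le_sum fun j hj => ?_
    have h1 := pg_nonneg h hj (ha j hj)
    have h2 := pom_le_pV (K := K) h.1 j
    have h3 : 0 ≤ pg m j * (pV m K j - pom m K j) := mul_nonneg h1 (by linarith)
    linarith
  have hs2 := pt_le_ps2 (K := K) h.1
  have hQt : 0 ≤ pQ m K * pt m K := mul_nonneg hQ.le (pt_nonneg h.1)
  have hPhi : ∑ k ∈ K, pQ m K / pQ m (K.erase k) * ph m (K.erase k) ≤ pal m K * ph m K := by
    linarith
  exact hPhi

/-- the coefficient of a weight in the residual is nonnegative -/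
theorem coef_nonneg (h : PosM m) (ha : ∀ k ∈ K, pa m K k ≤ 1) (hQ : 0 < pQ m K) {j : V}
    (hj : j ∈ K) : ∑ k ∈ K.erase j, th m K k * (1 + pom m (K.erase k) j) ≤
      pal m K * (1 + pom m K j) := by
  obtain ⟨Q, hQe⟩ : ∃ Q, Q = pQ m K := ⟨_, rfl⟩
  have hal : pal m K = Q + K.card - 2 := by
    rw [hQe]
    unfold pQ
    ring
  have hd0 : ∀ k ∈ K, 0 ≤ 1 - pa m K k := fun k hk => by
    have := ha k hk
    linarith
  -- the total free mass without `j`
  obtain ⟨D, hD⟩ : ∃ D, D = ∑ k ∈ K.erase j, (1 - pa m K k) := ⟨_, rfl⟩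
  have hD0 : 0 ≤ D := by
    rw [hD]
    exact sum_nonneg fun k hk => hd0 k (mem_of_mem_erase hk)
  have hDe : D = 1 - Q + (m {j} + m ∅) - pom m K j := by
    have h1 := sum_one_sub_pa (m := m) (K := K)
    rw [← add_sum_erase K _ hj, ← hD] at h1
    have h2 := pa_add_pom (m := m) hj
    rw [hQe]
    linarith
  have hth : ∀ k ∈ K.erase j, th m K k ≤ 1 - (1 - pa m K k) / (Q + D) := by
    intro k hk
    have h1 := hd0 k (mem_of_mem_erase hk)
    have h2 : 1 - pa m K k ≤ D := by
      rw [hD]
      exact single_le_sum (f := fun i => 1 - pa m K i)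
        (fun i hi => hd0 i (mem_of_mem_erase hi)) hk
    unfold th
    rw [max_eq_right h1, ← hQe, div_le_iff₀ (by linarith), sub_mul, one_mul, div_mul_eq_mul_div]
    have h3 : (1 - pa m K k) * (Q + (1 - pa m K k)) / (Q + D) ≤ 1 - pa m K k := by
      rw [div_le_iff₀ (by linarith)]
      exact mul_le_mul_of_nonneg_left (by linarith) h1
    linarith
  have hth1 : ∀ k ∈ K.erase j, th m K k ≤ 1 := by
    intro k hk
    have h1 := hd0 k (mem_of_mem_erase hk)
    refine (hth k hk).trans ?_
    have : 0 ≤ (1 - pa m K k) / (Q + D) := div_nonneg h1 (by linarith)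
    linarith
  -- the sum
  have h1 : ∑ k ∈ K.erase j, th m K k * (1 + pom m (K.erase k) j) ≤
      ∑ k ∈ K.erase j, (1 - (1 - pa m K k) / (Q + D) + pom m (K.erase k) j) := by
    refine sum_le_sum fun k hk => ?_
    have h2 := hth k hk
    have h3 := hth1 k hk
    have h4 := pom_nonneg (K := K.erase k) h.1 j
    nlinarith
  have h2 : ∑ k ∈ K.erase j, (1 - (1 - pa m K k) / (Q + D) + pom m (K.erase k) j) =
      (K.card - 1) - D / (Q + D) + (((K.card : ℝ) - 2) * pom m K j - pV m K j) := by
    rw [sum_add_distrib, sum_sub_distrib, sum_pom_erase hj, ← sum_div, ← hD, sum_const,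
      card_erase_of_mem hj, nsmul_eq_mul, mul_one]
    have hK : 1 ≤ K.card := card_pos.2 ⟨j, hj⟩
    push_cast [Nat.cast_sub hK]
    ring
  rw [h2] at h1
  refine h1.trans ?_
  rw [hal]
  have h3 := pom_le_pV (K := K) h.1 j
  have h4 := pom_nonneg (K := K) h.1 j
  obtain ⟨o, ho⟩ : ∃ o, o = pom m K j := ⟨_, rfl⟩
  rw [← ho] at h3 h4 hDe ⊢
  have hy : 0 < m {j} + m ∅ := add_pos_of_pos_of_nonneg (h.2 j) (h.1 ∅)
  have hQ0 : 0 < Q := by rw [hQe]; exact hQ
  -- `1 - D / (Q + D) = Q / (Q + D) ≤ Q + (Q + 1) o`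
  have h5 : 1 - D / (Q + D) ≤ Q + (Q + 1) * o := by
    have h6 : 0 < Q + D := by linarith
    have h7 : 1 - D / (Q + D) = Q / (Q + D) := by
      field_simp
      ring
    rw [h7, div_le_iff₀ h6]
    have h8 : Q + D = 1 + (m {j} + m ∅) - o := by linarith
    rcases le_total o (m {j} + m ∅) with h9 | h9
    · have : Q * 1 ≤ Q * (Q + D) := mul_le_mul_of_nonneg_left (by linarith) hQ0.le
      nlinarith [mul_nonneg (mul_nonneg (by linarith : (0 : ℝ) ≤ Q + 1) h4) h6.le]
    · -- `Q ≤ Q + D`, `1 ≤ Q + D + o`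
      have h10 : Q * 1 ≤ Q * (Q + D + o) := mul_le_mul_of_nonneg_left (by linarith) hQ0.le
      have h11 : Q * o ≤ (Q + D) * o := mul_le_mul_of_nonneg_right (by linarith) h4
      have h12 : 0 ≤ Q * o * (Q + D) := by positivity
      nlinarith
  nlinarith

theorem ph_eq_phg (m : Finset V → ℝ) (A : Finset V) : ph m A = phg m (pg m) A := rfl

/-- the residual inequality without over-full elements, arbitrary weights -/
theorem star0 (h : PosM m) (ha : ∀ k ∈ K, pa m K k ≤ 1) (hQ : 0 < pQ m K)
    (hg1 : ∀ j, 1 - m {j} ≤ g j * (m {j} + m ∅)) : 0 ≤ rs m g K := by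
  have h0 : 0 ≤ rs m (pg m) K := by
    unfold rs
    have h1 := resid0 h ha hQ
    have h2 : ∑ k ∈ K, th m K k * phg m (pg m) (K.erase k) =
        ∑ k ∈ K, pQ m K / pQ m (K.erase k) * ph m (K.erase k) := by
      refine sum_congr rfl fun k hk => ?_
      unfold th
      rw [max_eq_right (by linarith [ha k hk]), ← pQ_erase hk]
      rfl
    rw [h2]
    have h3 : pal m K * phg m (pg m) K = pal m K * ph m K := rfl
    rw [h3]
    linarith
  have hgp : ∀ j, pg m j ≤ g j := by
    intro j
    unfold pg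
    rw [div_le_iff₀ (add_pos_of_pos_of_nonneg (h.2 j) (h.1 ∅))]
    exact hg1 j
  have h1 : ∀ A : Finset V, phg m g A - phg m (pg m) A =
      ∑ j ∈ A, (1 + pom m A j) * (g j - pg m j) := by
    intro A
    unfold phg
    have h2 : ∑ j ∈ A, (1 + pom m A j) * (g j - pg m j) =
        ∑ j ∈ A, (1 + pom m A j) * g j - ∑ j ∈ A, (1 + pom m A j) * pg m j := by
      rw [← sum_sub_distrib]
      exact sum_congr rfl fun j _ => by ring
    rw [h2]
    ring
  have h2 : rs m g K - rs m (pg m) K = ∑ j ∈ K, (g j - pg m j) * (pal m K * (1 + pom m K j) -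
      ∑ k ∈ K.erase j, th m K k * (1 + pom m (K.erase k) j)) := by
    have h3 : rs m g K - rs m (pg m) K = pal m K * (phg m g K - phg m (pg m) K) -
        ∑ k ∈ K, th m K k * (phg m g (K.erase k) - phg m (pg m) (K.erase k)) := by
      unfold rs
      have h4 : ∑ k ∈ K, th m K k * (phg m g (K.erase k) - phg m (pg m) (K.erase k)) =
          ∑ k ∈ K, th m K k * phg m g (K.erase k) -
            ∑ k ∈ K, th m K k * phg m (pg m) (K.erase k) := by
        rw [← sum_sub_distrib]
        exact sum_congr rfl fun j _ => by ring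
      rw [h4]
      ring
    rw [h3, h1 K]
    have h4 : ∑ k ∈ K, th m K k * (phg m g (K.erase k) - phg m (pg m) (K.erase k)) =
        ∑ j ∈ K, ∑ k ∈ K.erase j, (g j - pg m j) * (th m K k * (1 + pom m (K.erase k) j)) := by
      have h5 : ∀ k ∈ K, th m K k * (phg m g (K.erase k) - phg m (pg m) (K.erase k)) =
          ∑ j ∈ K.erase k, (g j - pg m j) * (th m K k * (1 + pom m (K.erase k) j)) := by
        intro k _
        rw [h1 (K.erase k), mul_sum]
        exact sum_congr rfl fun j _ => by ring
      rw [sum_congr rfl h5]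
      refine sum_comm' fun k j => ?_
      simp only [mem_erase]
      constructor
      · rintro ⟨h6, h7, h8⟩
        exact ⟨⟨Ne.symm h7, h6⟩, h8⟩
      · rintro ⟨⟨h6, h7⟩, h8⟩
        exact ⟨h7, Ne.symm h6, h8⟩
    rw [h4, mul_sum, ← sum_sub_distrib]
    refine sum_congr rfl fun j _ => ?_
    rw [← mul_sum]
    ring
  have h3 : 0 ≤ rs m g K - rs m (pg m) K := by
    rw [h2]
    refine sum_nonneg fun j hj => mul_nonneg (by linarith [hgp j]) ?_
    have := coef_nonneg h ha hQ hj
    linarith
  linarith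

/-- THE RESIDUAL INEQUALITY, arbitrary over-full elements -/
theorem star (h : PosM m) (hQ : 0 < pQ m K) (hg : ∀ j, 0 ≤ g j)
    (hg1 : ∀ j, 1 - m {j} ≤ g j * (m {j} + m ∅)) : 0 ≤ rs m g K := by
  obtain ⟨N, hN⟩ : ∃ N, N = (K.filter fun k => 1 < pa m K k).card := ⟨_, rfl⟩
  induction N using Nat.strong_induction_on generalizing m with
  | _ N ih =>
    rcases (K.filter fun k => 1 < pa m K k).eq_empty_or_nonempty with h0 | ⟨t, ht⟩
    · refine star0 h (fun k hk => ?_) hQ hg1
      by_contra hcon
      push Not at hcon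
      have : k ∈ K.filter fun k => 1 < pa m K k := mem_filter.2 ⟨hk, hcon⟩
      rw [h0] at this
      exact notMem_empty k this
    · rw [mem_filter] at ht
      obtain ⟨htK, hta⟩ := ht
      obtain ⟨r, hr0, hr1, hP, hg2⟩ := exists_psh h hg hg1 htK hta
      have h1 := rs_psh hg hQ htK hr0 hta.le hr1
      refine le_trans ?_ h1
      refine ih (K.filter fun k => 1 < pa (psh m t r) K k).card ?_ hP ?_ hg2 rfl
      · rw [hN]
        refine card_lt_card ?_
        rw [ssubset_iff_of_subset]
        · refine ⟨t, mem_filter.2 ⟨htK, hta⟩, ?_⟩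
          rw [mem_filter, pa_psh_self htK, hr1]
          rintro ⟨_, h2⟩
          linarith
        · intro k hk
          rw [mem_filter] at hk ⊢
          refine ⟨hk.1, ?_⟩
          by_cases h2 : k = t
          · rw [h2]
            exact hta
          · rw [pa_psh_ne htK h2] at hk
            exact hk.2
      · rw [pQ_psh htK]
        exact hQ

end MP76b19e.Rob
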