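import Pool.Agent.Lib.MP76b19e.Rob.SD

/-!
# The running minimum statistic (problem MP_76b19e_co)

`B_j = (|C(T_j)| - |X_j| + b_j) / P_j`, `β_j = b_j / P_j`, `bm 0 = B_0`,
`bm (j+1) = B_{j+1} + β_{j+1} (bm j - 1)^+`, `RM (m+1) = (bm m)^+ ∏_{i<m} min(1, (bm i)^+)`.
Its mean is at least `∏_{j<m} β_j`.
-/

set_option autoImplicit false

open Finset

namespace MP76b19e.Rob

variable {V : Type} [Fintype V] [DecidableEq V] {n : ℕ} {F : SimpleGraph V}

variable (F) in
/-- the modified factors -/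
noncomputable def bm (X : ℕ → Finset V) (b P : ℕ → ℝ) (s : V ≃ Fin n) : ℕ → ℝ
  | 0 => (Dx F (X 0) s + b 0) / P 0
  | j + 1 => (Dx F (X (j + 1)) s + b (j + 1)) / P (j + 1) +
      b (j + 1) / P (j + 1) * max (bm X b P s j - 1) 0

variable (F) in
/-- the product of the truncated factors -/
noncomputable def gm (X : ℕ → Finset V) (b P : ℕ → ℝ) (s : V ≃ Fin n) (m : ℕ) : ℝ :=
  ∏ i ∈ range m, min 1 (max 0 (bm F X b P s i))

variable (F) in
/-- the running minimum statistic -/
noncomputable def RM (X : ℕ → Finset V) (b P : ℕ → ℝ) (s : V ≃ Fin n) : ℕ → ℝ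
  | 0 => 1
  | m + 1 => max 0 (bm F X b P s m) * gm F X b P s m

theorem gm_nonneg (X : ℕ → Finset V) (b P : ℕ → ℝ) (s : V ≃ Fin n) (m : ℕ) :
    0 ≤ gm F X b P s m :=
  prod_nonneg fun _ _ => le_min zero_le_one (le_max_left _ _)

theorem gm_le_one (X : ℕ → Finset V) (b P : ℕ → ℝ) (s : V ≃ Fin n) (m : ℕ) :
    gm F X b P s m ≤ 1 :=
  prod_le_one (fun _ _ => le_min zero_le_one (le_max_left _ _)) fun _ _ => min_le_left _ _

theorem RM_nonneg (X : ℕ → Finset V) (b P : ℕ → ℝ) (s : V ≃ Fin n) (m : ℕ) :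
    0 ≤ RM F X b P s m := by
  cases m with
  | zero => exact zero_le_one
  | succ m => exact mul_nonneg (le_max_left _ _) (gm_nonneg X b P s m)

theorem bm_mon (X : ℕ → Finset V) (b P : ℕ → ℝ) (hb : ∀ j, 0 ≤ b j) (hP : ∀ j, 0 < P j) (m : ℕ)
    {Y : Finset V} (hY : ∀ j ≤ m, X j ⊆ Y) : Mon F Y (fun s : V ≃ Fin n => bm F X b P s m) := by
  induction m with
  | zero =>
    intro s s' h
    have h1 := mon_Dx (F := F) (hY 0 le_rfl) s s' h
    change (Dx F (X 0) s + b 0) / P 0 ≤ (Dx F (X 0) s' + b 0) / P 0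
    exact div_le_div_of_nonneg_right (by linarith) (hP 0).le
  | succ m ih =>
    intro s s' h
    have h1 := mon_Dx (F := F) (hY (m + 1) le_rfl) s s' h
    have h2 := ih (fun j hj => hY j (hj.trans (Nat.le_succ m))) s s' h
    change (Dx F (X (m + 1)) s + b (m + 1)) / P (m + 1) +
        b (m + 1) / P (m + 1) * max (bm F X b P s m - 1) 0 ≤
      (Dx F (X (m + 1)) s' + b (m + 1)) / P (m + 1) +
        b (m + 1) / P (m + 1) * max (bm F X b P s' m - 1) 0
    refine add_le_add (div_le_div_of_nonneg_right (by linarith) (hP (m + 1)).le) ?_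
    refine mul_le_mul_of_nonneg_left ?_ (div_nonneg (hb (m + 1)) (hP (m + 1)).le)
    exact max_le_max (sub_le_sub_right h2 1) le_rfl

theorem gm_mon (X : ℕ → Finset V) (b P : ℕ → ℝ) (hb : ∀ j, 0 ≤ b j) (hP : ∀ j, 0 < P j) (m : ℕ)
    {Y : Finset V} (hY : ∀ j < m, X j ⊆ Y) : Mon F Y (fun s : V ≃ Fin n => gm F X b P s m) := by
  intro s s' h
  refine prod_le_prod (fun _ _ => le_min zero_le_one (le_max_left _ _)) fun i hi => ?_
  have h1 := bm_mon (F := F) X b P hb hP i
    (fun j hj => hY j (lt_of_le_of_lt hj (mem_range.1 hi))) s s' h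
  exact min_le_min le_rfl (max_le_max le_rfl h1)

theorem gm_succ (X : ℕ → Finset V) (b P : ℕ → ℝ) (s : V ≃ Fin n) (m : ℕ) :
    gm F X b P s (m + 1) = gm F X b P s m * min 1 (max 0 (bm F X b P s m)) :=
  prod_range_succ _ _

/-- one step of the recursion -/
theorem RM_step (X : ℕ → Finset V) (b P : ℕ → ℝ) (hb : ∀ j, 0 ≤ b j) (hP : ∀ j, 0 < P j)
    (s : V ≃ Fin n) (m : ℕ) :
    gm F X b P s m * Dx F (X m) s / P m + b m / P m * RM F X b P s m ≤ RM F X b P s (m + 1) := by
  have hg := gm_nonneg (F := F) X b P s m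
  have hle : bm F X b P s m * gm F X b P s m ≤ RM F X b P s (m + 1) :=
    mul_le_mul_of_nonneg_right (le_max_right _ _) hg
  refine le_trans (le_of_eq ?_) hle
  cases m with
  | zero =>
    change gm F X b P s 0 * Dx F (X 0) s / P 0 + b 0 / P 0 * 1 =
      (Dx F (X 0) s + b 0) / P 0 * gm F X b P s 0
    have : gm F X b P s 0 = 1 := by
      unfold gm
      simp
    rw [this]
    ring
  | succ k =>
    change gm F X b P s (k + 1) * Dx F (X (k + 1)) s / P (k + 1) +
        b (k + 1) / P (k + 1) * (max 0 (bm F X b P s k) * gm F X b P s k) =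
      ((Dx F (X (k + 1)) s + b (k + 1)) / P (k + 1) +
        b (k + 1) / P (k + 1) * max (bm F X b P s k - 1) 0) * gm F X b P s (k + 1)
    have key : max 0 (bm F X b P s k) * gm F X b P s k =
        (1 + max (bm F X b P s k - 1) 0) * gm F X b P s (k + 1) := by
      rw [gm_succ]
      rcases le_total (bm F X b P s k) 1 with h1 | h1
      · rw [max_eq_right (by linarith : bm F X b P s k - 1 ≤ 0),
          min_eq_right (max_le zero_le_one h1)]
        ring
      · rw [max_eq_left (by linarith : 0 ≤ bm F X b P s k - 1),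
          max_eq_right (by linarith : 0 ≤ bm F X b P s k), min_eq_left h1]
        ring
    rw [key]
    ring

/-- the running minimum statistic has mean at least `∏ b_j / P_j` -/
theorem rm_mean (X : ℕ → Finset V) (hX : Monotone X) (b P : ℕ → ℝ) (hb : ∀ j, 0 ≤ b j)
    (hP : ∀ j, 0 < P j) (m : ℕ) :
    (Fintype.card (V ≃ Fin n) : ℝ) * ∏ j ∈ range m, b j / P j ≤
      ∑ s : V ≃ Fin n, RM F X b P s m := by
  induction m with
  | zero =>
    rw [Finset.prod_range_zero, mul_one]
    have h1 : ∀ s : V ≃ Fin n, RM F X b P s 0 = 1 := fun _ => rfl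
    rw [Finset.sum_congr rfl fun s _ => h1 s, Finset.sum_const, nsmul_eq_mul, mul_one,
      Finset.card_univ]
  | succ m ih =>
    have hβ : 0 ≤ b m / P m := div_nonneg (hb m) (hP m).le
    have h1 := dx_lemma (X m) (fun s : V ≃ Fin n => gm F X b P s m)
      (fun s => gm_nonneg X b P s m) (gm_mon X b P hb hP m (fun j hj => hX hj.le))
    calc (Fintype.card (V ≃ Fin n) : ℝ) * ∏ j ∈ range (m + 1), b j / P j
        = b m / P m * ((Fintype.card (V ≃ Fin n) : ℝ) * ∏ j ∈ range m, b j / P j) := by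
          rw [Finset.prod_range_succ]; ring
      _ ≤ b m / P m * ∑ s, RM F X b P s m := mul_le_mul_of_nonneg_left ih hβ
      _ ≤ (∑ s, gm F X b P s m * Dx F (X m) s) / P m + b m / P m * ∑ s, RM F X b P s m := by
          exact le_add_of_nonneg_left (div_nonneg h1 (hP m).le)
      _ = ∑ s, (gm F X b P s m * Dx F (X m) s / P m + b m / P m * RM F X b P s m) := by
          rw [Finset.sum_add_distrib, Finset.sum_div, Finset.mul_sum]
      _ ≤ ∑ s : V ≃ Fin n, RM F X b P s (m + 1) :=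
          Finset.sum_le_sum fun s _ => RM_step X b P hb hP s m

end MP76b19e.Rob
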