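import Pool.Agent.Lib.MP76b19e.Rob.StepM
import Pool.Agent.Lib.MP76b19e.Rob.StB2
import Pool.Agent.Lib.MP76b19e.Rob.KLev

/-!
# Over-full tops are removed one by one, `ν = 1`, `h = 1` (problem MP_76b19e_co)
-/

set_option autoImplicit false

open Finset

namespace MP76b19e.Rob

/-- the inequality for `σ ≥ 2` tops, nothing over-full -/
def NO2 (p : ℕ) : Prop :=
  ∀ (V : Type) (_ : DecidableEq V) (K : Finset V) (m : Finset V → ℝ) (b : V → ℝ) (σ : ℕ),
    PosM m → (∀ D, ∃ k : ℕ, m D = k) → 3 ≤ K.card → (∀ j ∈ K, 1 ≤ m {j}) →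
    (∀ j ∈ K, pa m K j ≤ p) → 2 ≤ σ → σ ≤ p → (σ : ℝ) ≤ m ∅ →
    pal m K = ((K.card : ℝ) - 2) * p + 1 → (∀ j ∈ K, 0 ≤ b j) →
    (∀ j ∈ K, 2 - (σ : ℝ) + pom m K j - (m {j} + m ∅) ≤ b j) →
    3 - (σ : ℝ) + po m K - m ∅ ≤ ∑ j ∈ K, b j →
    (p : ℝ) ^ (K.card - 3) * (((p : ℝ) + 1 - σ) * Ival m K) ≤
      1 + ∑ j ∈ K, b j / (m {j} + m ∅)

/-- the data with over-full elements `U` and other tops `T` -/
structure OF {V : Type} [DecidableEq V] (K U T : Finset V) (m : Finset V → ℝ) (b : V → ℝ)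
    (p : ℕ) : Prop where
  UK : U ⊆ K
  TK : T ⊆ K
  UT : Disjoint U T
  pos : PosM m
  int : ∀ D, ∃ k : ℕ, m D = k
  one : ∀ j ∈ K, 1 ≤ m {j}
  paL : ∀ j ∈ K, j ∉ U → pa m K j ≤ p
  paU : ∀ j ∈ U, pa m K j = (p : ℝ) + 1
  Kc : 3 ≤ K.card
  palK : pal m K = ((K.card : ℝ) - 2) * p + 1
  b0 : ∀ j ∈ K, 0 ≤ b j
  bL : ∀ j ∈ K, 2 - (T.card : ℝ) - U.card + po m K - m ∅ - min (pa m K j) p ≤ b j
  bsum : 3 - (T.card : ℝ) - U.card + po m K - m ∅ ≤ ∑ j ∈ K, b j

section

variable {V : Type} [DecidableEq V] {K U T D : Finset V} {m : Finset V → ℝ} {b : V → ℝ} {p : ℕ}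
  {t : V}

theorem OF.step (h : OF K U T m b p) (ht : t ∈ U) (hD : D ⊆ K) (htD : t ∈ D)
    (h2 : 2 ≤ D.card) (h1 : 1 ≤ m D) : OF K (U.erase t) T (mvM m D t) b p := by
  have hc : ((U.erase t).card : ℝ) = U.card - 1 := by
    rw [card_erase_of_mem ht, Nat.cast_sub (card_pos.2 ⟨t, ht⟩), Nat.cast_one]
  have hpo := po_mvM (m := m) hD htD h2
  have he : mvM m D t ∅ = m ∅ := mvM_empty htD h2
  refine ⟨(erase_subset _ _).trans h.UK, h.TK, h.UT.mono_left (erase_subset _ _),
    h.pos.mvM htD h2 h1, mvM_int h.int h1, fun j hj => (h.one j hj).trans (le_mvM_single h2 j),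
    ?_, ?_, h.Kc, ?_, h.b0, ?_, ?_⟩
  · intro j hj hjU
    by_cases hjt : j = t
    · subst hjt
      rw [pa_mvM_self hD htD, h.paU j ht]
      linarith
    · rw [pa_mvM_ne hD hjt]
      exact h.paL j hj fun h3 => hjU (mem_erase.2 ⟨hjt, h3⟩)
  · intro j hj
    rw [mem_erase] at hj
    rw [pa_mvM_ne hD hj.1]
    exact h.paU j hj.2
  · rw [pal_mvM hD]
    exact h.palK
  · intro j hj
    have h3 := h.bL j hj
    rw [hc, hpo, he]
    by_cases hjt : j = t
    · subst hjt
      rw [pa_mvM_self hD htD, h.paU j ht]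
      rw [h.paU j ht, min_eq_right (by linarith)] at h3
      rw [show (p : ℝ) + 1 - 1 = p by ring, min_self]
      linarith
    · rw [pa_mvM_ne hD hjt]
      linarith
  · rw [hc, hpo, he]
    have := h.bsum
    linarith

/-- the sum of the quotients does not grow -/
theorem sum_div_mvM_le (h : PosM m) (hb : ∀ j ∈ K, 0 ≤ b j) (htD : t ∈ D) (h2 : 2 ≤ D.card) :
    ∑ j ∈ K, b j / (mvM m D t {j} + mvM m D t ∅) ≤ ∑ j ∈ K, b j / (m {j} + m ∅) := by
  refine sum_le_sum fun j hj => ?_
  rw [mvM_empty htD h2]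
  have h3 := le_mvM_single (m := m) (t := t) h2 j
  have h4 := h.2 j
  have h5 := h.1 ∅
  exact div_le_div_of_nonneg_left (hb j hj) (by linarith) (by linarith)

theorem OF.bpom (h : OF K ∅ T m b p) : ∀ j ∈ K,
    2 - (T.card : ℝ) + pom m K j - (m {j} + m ∅) ≤ b j := by
  intro j hj
  have h1 := h.bL j hj
  rw [card_empty, Nat.cast_zero, min_eq_left (h.paL j hj (notMem_empty j))] at h1
  have h2 := pa_add_pom (m := m) hj
  linarith

/-- the tops which are not over-full -/
theorem OF.tops (h : OF K U T m b p) (β : ℝ) :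
    β * Ival m K - ∑ v ∈ T, Ival m (K.erase v) ≤ (β - T.card) * Ival m K := by
  have h1 : ∑ v ∈ T, Ival m K ≤ ∑ v ∈ T, Ival m (K.erase v) := by
    refine sum_le_sum fun v hv => ?_
    have h2 := mul_Ival_le_erase h.pos (h.TK hv)
    have h3 := mul_le_mul_of_nonneg_right (h.one v (h.TK hv)) (Ival_pos h.pos K).le
    linarith
  rw [sum_const, nsmul_eq_mul] at h1
  linarith

theorem OF.leaf (hNO : NO2 p) (hp : 2 ≤ p) (h : OF K ∅ T m b p) (hT : 1 ≤ T.card)
    (hc : (T.card : ℝ) ≤ m ∅) :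
    (p : ℝ) ^ (K.card - 3) * (((p : ℝ) + 1 - T.card) * Ival m K) ≤
      1 + ∑ j ∈ K, b j / (m {j} + m ∅) := by
  have hp0 : (0 : ℝ) < p := by
    have : 0 < p := by omega
    exact_mod_cast this
  have hS : 0 ≤ ∑ j ∈ K, b j / (m {j} + m ∅) := sum_nonneg fun j hj =>
    div_nonneg (h.b0 j hj) (by
      have := h.pos.2 j
      have := h.pos.1 ∅
      linarith)
  have hpw : (p : ℝ) ^ (K.card - 2) = p * p ^ (K.card - 3) := by
    rw [← pow_succ']
    congr 1
    have := h.Kc
    omega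
  have hF := (Ival_pos h.pos K).le
  have hpa : ∀ j ∈ K, pa m K j ≤ p := fun j hj => h.paL j hj (notMem_empty j)
  have hbs := h.bsum
  rw [card_empty, Nat.cast_zero, sub_zero] at hbs
  rcases Nat.eq_or_lt_of_le hT with h1 | h1
  · choose mn hmn using h.int
    have h2 := h.bpom
    rw [← h1, Nat.cast_one] at h2 hbs hc ⊢
    have h3 := stB2 (m := m) (K := K) h.pos hmn h.Kc hp h.one hpa (by
      rw [hmn] at hc
      exact_mod_cast hc) h.palK h.b0 (fun j hj => by linarith [h2 j hj]) (by linarith)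
    rw [hpw] at h3
    refine le_trans (le_of_eq ?_) h3
    ring
  · rcases Nat.lt_or_ge p T.card with h2 | h2
    · have h3 : (p : ℝ) + 1 ≤ T.card := by exact_mod_cast h2
      have h4 : (p : ℝ) ^ (K.card - 3) * (((p : ℝ) + 1 - T.card) * Ival m K) ≤ 0 := by
        refine mul_nonpos_of_nonneg_of_nonpos (by positivity) ?_
        exact mul_nonpos_of_nonpos_of_nonneg (by linarith) hF
      linarith
    · exact hNO V _ K m b T.card h.pos h.int h.Kc h.one hpa h1 h2 hc h.palK h.b0 h.bpom hbs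

/-- after at least one step -/
theorem OF.main (hNO : NO2 p) (hp : 2 ≤ p) (h : OF K U T m b p)
    (hc : (T.card : ℝ) + 1 ≤ m ∅) :
    (p : ℝ) ^ (K.card - 3) * ((p : ℝ) * Ival m K - ∑ v ∈ U, Ival m (K.erase v) -
      ∑ v ∈ T, Ival m (K.erase v)) ≤ 1 + ∑ j ∈ K, b j / (m {j} + m ∅) := by
  induction hn : U.card generalizing U m with
  | zero =>
    rw [card_eq_zero] at hn
    subst hn
    rw [sum_empty, sub_zero]
    have hp2 : (2 : ℝ) ≤ p := by exact_mod_cast hp
    have hp0 : (0 : ℝ) < p := by linarith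
    have hF := (Ival_pos h.pos K).le
    have hS : 0 ≤ ∑ j ∈ K, b j / (m {j} + m ∅) := sum_nonneg fun j hj =>
      div_nonneg (h.b0 j hj) (by
        have := h.pos.2 j
        have := h.pos.1 ∅
        linarith)
    rcases Nat.eq_zero_or_pos T.card with h1 | h1
    · have hT : T = ∅ := card_eq_zero.1 h1
      have hb := h.bpom
      have hbs := h.bsum
      rw [hT, card_empty, Nat.cast_zero, sub_zero] at hb hbs
      rw [sub_zero] at hbs
      rw [hT, sum_empty, sub_zero]
      have hQ : pal m K - ((K.card : ℝ) - 2) * p = 1 := by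
        rw [h.palK]
        ring
      have hKc := h.Kc
      have h2 := vstar (m := m) (K := K) h.pos (by omega) (P := p) (Q1 := 2) hp0
        (fun j hj => h.paL j hj (notMem_empty j)) (by rw [hQ]; norm_num) hp2 (by norm_num)
        (b := b) hb (by rw [hQ]; linarith)
      rw [hQ] at h2
      have hpw : (p : ℝ) ^ (K.card - 2) = p * p ^ (K.card - 3) := by
        rw [← pow_succ']
        congr 1
        omega
      rw [hpw] at h2
      nlinarith
    · refine le_trans ?_ (h.leaf hNO hp h1 (by linarith))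
      refine mul_le_mul_of_nonneg_left ?_ (by positivity)
      refine (h.tops p).trans ?_
      nlinarith
  | succ n ih =>
    obtain ⟨t, ht⟩ : U.Nonempty := card_pos.1 (by omega)
    have htK := h.UK ht
    have hp0 : (0 : ℝ) < p := by
      have : 0 < p := by omega
      exact_mod_cast this
    have hS : 0 ≤ ∑ j ∈ K, b j / (m {j} + m ∅) := sum_nonneg fun j hj =>
      div_nonneg (h.b0 j hj) (by
        have := h.pos.2 j
        have := h.pos.1 ∅
        linarith)
    have h1 : ∀ m' : Finset V → ℝ, ∑ v ∈ U.erase t ∪ T, Ival m' (K.erase v) =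
        ∑ v ∈ U.erase t, Ival m' (K.erase v) + ∑ v ∈ T, Ival m' (K.erase v) := fun m' =>
      sum_union (h.UT.mono_left (erase_subset _ _))
    have h2 : ∑ v ∈ U, Ival m (K.erase v) = Ival m (K.erase t) +
        ∑ v ∈ U.erase t, Ival m (K.erase v) :=
      (add_sum_erase U (fun v => Ival m (K.erase v)) ht).symm
    have h3 : (p : ℝ) * Ival m K - ∑ v ∈ U, Ival m (K.erase v) - ∑ v ∈ T, Ival m (K.erase v) =
        p * Ival m K - Ival m (K.erase t) - ∑ v ∈ U.erase t ∪ T, Ival m (K.erase v) := by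
      rw [h1, h2]
      ring
    rw [h3]
    rcases stepM h.pos h.int htK (U.erase t ∪ T) (β := p) (by rw [h.paU t ht]; linarith) with
      h4 | ⟨D, hD, htD, hD2, hD1, h4⟩
    · have := mul_nonpos_of_nonneg_of_nonpos (by positivity : (0 : ℝ) ≤ (p : ℝ) ^ (K.card - 3)) h4
      linarith
    · have hs := h.step ht hD htD hD2 hD1
      have h5 := ih hs (by rw [mvM_empty htD hD2]; exact hc) (by
        rw [card_erase_of_mem ht, hn]
        rfl)
      have h6 := sum_div_mvM_le (K := K) (b := b) h.pos h.b0 htD hD2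
      refine le_trans ?_ (h5.trans (by linarith))
      refine mul_le_mul_of_nonneg_left (h4.trans ?_) (by positivity)
      rw [h1]
      have h7 := (Ival_pos hs.pos K).le
      have h8 := h.one t htK
      nlinarith

/-- the inequality for `ν = 1`, `h = 1` and at least one top -/
theorem KS.one_one {b : V → ℝ} (hNO : NO2 p) (h : KS K T m b p 1 1) (hT : 1 ≤ T.card) :
    (p : ℝ) ^ (K.card - 3) * (((p : ℝ) + 1) * Ival m K - ∑ t ∈ T, Ival m (K.erase t)) ≤
      1 + ∑ j ∈ K, b j / (m {j} + m ∅) := by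
  classical
  have hp := h.p2
  have hbase := h.base
  rw [Nat.cast_one] at hbase
  have hb0 : ∀ j ∈ K, 0 ≤ b j := fun j _ => by
    obtain ⟨k, hk⟩ := h.bint j
    rw [hk]
    exact Nat.cast_nonneg _
  have hS : 0 ≤ ∑ j ∈ K, b j / (m {j} + m ∅) := sum_nonneg fun j hj =>
    div_nonneg (hb0 j hj) (by
      have := h.pos.2 j
      have := h.pos.1 ∅
      linarith)
  set U := T.filter fun v => pa m K v = (p : ℝ) + 1 with hU
  set T0 := T.filter fun v => ¬ pa m K v = (p : ℝ) + 1 with hT0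
  have hUT : Disjoint U T0 := disjoint_filter_filter_not _ _ _
  have hUn : U ∪ T0 = T := filter_union_filter_not_eq _ _
  have hcard : U.card + T0.card = T.card := by
    rw [← card_union_of_disjoint hUT, hUn]
  have hcr : (T.card : ℝ) = U.card + T0.card := by exact_mod_cast hcard.symm
  have hsum : ∀ m' : Finset V → ℝ, ∑ v ∈ T, Ival m' (K.erase v) =
      ∑ v ∈ U, Ival m' (K.erase v) + ∑ v ∈ T0, Ival m' (K.erase v) := fun m' => by
    rw [← sum_union hUT, hUn]
  have hle : ∀ j ∈ K, j ∉ U → pa m K j ≤ p := by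
    intro j hj hjU
    by_cases hjT : j ∈ T
    · have h1 := h.paT j hjT
      rw [Nat.cast_one] at h1
      obtain ⟨a, ha⟩ := pa_int h.int K j
      have h2 : ¬ pa m K j = (p : ℝ) + 1 := fun h3 => hjU (mem_filter.2 ⟨hjT, h3⟩)
      rw [ha] at h1 h2 ⊢
      have h3 : a ≤ p + 1 := by exact_mod_cast h1
      have h4 : a ≠ p + 1 := fun h5 => h2 (by rw [h5]; push_cast; ring)
      exact_mod_cast (by omega : a ≤ p)
    · exact h.paL j hj hjT
  have hOF : OF K U T0 m b p := by
    refine ⟨(filter_subset _ _).trans h.TK, (filter_subset _ _).trans h.TK, hUT, h.pos, h.int,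
      h.one, hle, fun j hj => (mem_filter.1 hj).2, h.Kc, ?_, hb0, ?_, ?_⟩
    · rw [h.palK]
      simp
    · intro j hj
      have h5 := pa_add_pom (m := m) hj
      by_cases hjT : j ∈ T
      · have h1 := h.bT j hjT
        rw [Nat.cast_one, mul_one] at h1
        by_cases hjU : j ∈ U
        · have h2 := (mem_filter.1 hjU).2
          rw [h2, min_eq_right (by linarith)]
          linarith
        · rw [min_eq_left (hle j hj hjU)]
          linarith
      · have h1 := h.bL j hj hjT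
        rw [Nat.cast_one, mul_one] at h1
        have hjU : j ∉ U := fun h2 => hjT (mem_filter.1 h2).1
        rw [min_eq_left (hle j hj hjU)]
        linarith
    · have h1 := h.bsum
      rw [Nat.cast_one, mul_one] at h1
      linarith
  rcases Nat.eq_zero_or_pos U.card with h1 | h1
  · have hU0 : U = ∅ := card_eq_zero.1 h1
    have h2 : T0 = T := by rw [← hUn, hU0, empty_union]
    rw [hU0, h2] at hOF
    refine le_trans ?_ (hOF.leaf hNO hp hT (by linarith))
    exact mul_le_mul_of_nonneg_left (hOF.tops _) (by positivity)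
  · obtain ⟨t, ht⟩ := card_pos.1 h1
    have htK := hOF.UK ht
    have h2 : ∀ m' : Finset V → ℝ, ∑ v ∈ U.erase t ∪ T0, Ival m' (K.erase v) =
        ∑ v ∈ U.erase t, Ival m' (K.erase v) + ∑ v ∈ T0, Ival m' (K.erase v) := fun m' =>
      sum_union (hUT.mono_left (erase_subset _ _))
    have h3 : ((p : ℝ) + 1) * Ival m K - ∑ v ∈ T, Ival m (K.erase v) =
        ((p : ℝ) + 1) * Ival m K - Ival m (K.erase t) -
          ∑ v ∈ U.erase t ∪ T0, Ival m (K.erase v) := by
      rw [h2, hsum, ← add_sum_erase U (fun v => Ival m (K.erase v)) ht]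
      ring
    rw [h3]
    rcases stepM h.pos h.int htK (U.erase t ∪ T0) (β := (p : ℝ) + 1)
      (by rw [hOF.paU t ht]) with h4 | ⟨D, hD, htD, hD2, hD1, h4⟩
    · have := mul_nonpos_of_nonneg_of_nonpos (by positivity : (0 : ℝ) ≤ (p : ℝ) ^ (K.card - 3)) h4
      linarith
    · have hs := hOF.step ht hD htD hD2 hD1
      have hUc : (1 : ℝ) ≤ U.card := by exact_mod_cast h1
      have h5 := hs.main hNO hp (by rw [mvM_empty htD hD2]; linarith)
      have h6 := sum_div_mvM_le (K := K) (b := b) h.pos hb0 htD hD2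
      refine le_trans ?_ (h5.trans (by linarith))
      refine mul_le_mul_of_nonneg_left (h4.trans ?_) (by positivity)
      rw [h2]
      have h7 := (Ival_pos hs.pos K).le
      have h8 := h.one t htK
      nlinarith

end

end MP76b19e.Rob
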