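import Pool.Agent.Lib.MP76b19e.One

/-! Removal of components `K_q` of the complement, and of a single first list entry
(MP_76b19e_co). -/

open Finset

noncomputable section

namespace Pool.Agent.MP76b19e

section
variable {V : Type*} {G : SimpleGraph V}

/-- `Q` is a component of size `q` of the complement of `G` inside `U`, and it is complete
there: every vertex of `Q` has closed co-neighbourhood `Q`. -/
def Comp (G : SimpleGraph V) (U : Finset V) (q : ℕ) (Q : Finset V) : Prop :=
  Q ⊆ U ∧ Q.card = q ∧ ∀ x ∈ Q, cn G U x = Q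

/-- `U` contains no complete component of size `q` of the complement -/
def CompFree (G : SimpleGraph V) (U : Finset V) (q : ℕ) : Prop := ∀ Q, ¬ Comp G U q Q

lemma Comp.adj {U Q : Finset V} {q : ℕ} (h : Comp G U q Q) {x y : V} (hx : x ∈ Q) (hy : y ∈ U)
    (hyQ : y ∉ Q) : G.Adj x y := by
  by_contra hn
  have h1 : y ∈ cn G U x := mem_cn.2 ⟨hy, hn⟩
  rw [h.2.2 x hx] at h1
  exact hyQ h1

/-- a component is a factor of the number of cliques -/
lemma Comp.count [DecidableEq V] {U Q : Finset V} {q : ℕ} (h : Comp G U q Q) (m : ℕ) :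
    q * (K G (U \ Q) m).card ≤ (K G U (m + 1)).card := by
  classical
  rw [← h.2.1, ← Finset.card_product]
  refine Finset.card_le_card_of_injOn (fun z => insert z.1 z.2) ?_ ?_
  · rintro ⟨x, s⟩ hz
    rw [Finset.mem_coe, Finset.mem_product] at hz
    obtain ⟨hx, hs⟩ := hz
    simp only at hx hs
    refine insert_mem_K (h.1 hx) ?_
    rw [mem_K] at hs ⊢
    refine ⟨?_, hs.2.1, hs.2.2⟩
    intro u hu
    have h1 := Finset.mem_sdiff.1 (hs.1 hu)
    exact mem_nb.2 ⟨h1.1, h.adj hx h1.1 h1.2⟩
  · rintro ⟨x, s⟩ hz ⟨y, t⟩ hz' hst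
    rw [Finset.mem_coe, Finset.mem_product] at hz hz'
    obtain ⟨hx, hs⟩ := hz
    obtain ⟨hy, ht⟩ := hz'
    simp only at hx hs hy ht hst
    have hs1 := (mem_K.1 hs).1
    have ht1 := (mem_K.1 ht).1
    have hxy : x = y := by
      have h1 : x ∈ insert y t := by rw [← hst]; exact Finset.mem_insert_self _ _
      rcases Finset.mem_insert.1 h1 with h1 | h1
      · exact h1
      · exact absurd hx (Finset.mem_sdiff.1 (ht1 h1)).2
    subst hxy
    have hxs : x ∉ s := fun h1 => (Finset.mem_sdiff.1 (hs1 h1)).2 hx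
    have hxt : x ∉ t := fun h1 => (Finset.mem_sdiff.1 (ht1 h1)).2 hx
    have h2 : s = t := by
      rw [← Finset.erase_insert hxs, hst, Finset.erase_insert hxt]
    rw [h2]

lemma Comp.list [DecidableEq V] {U Q : Finset V} {q : ℕ} (h : Comp G U q Q) {ps : List ℕ}
    (hC : C G U 0 (q :: ps)) : C G (U \ Q) 0 ps := by
  classical
  simp only [C] at hC
  refine C_sub Finset.sdiff_subset ?_ ps 0 hC.2
  rw [← h.2.1, Finset.card_sdiff_add_card_eq_card h.1]

/-- the first entry of a list can be used up by one vertex -/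
lemma first_free [DecidableEq V] {U : Finset V} {q : ℕ} {ps : List ℕ} (hC : C G U 0 (q :: ps)) :
    ∃ U' ⊆ U, C G U' 0 ps ∧ (K G U' (ps.length + 1)).card ≤ (K G U (ps.length + 2)).card := by
  classical
  simp only [C] at hC
  obtain ⟨v, hv⟩ : (W G U q).Nonempty := Finset.card_pos.1 (by omega)
  refine ⟨nb G U v, nb_subset, ?_, ?_⟩
  · refine C_sub nb_subset ?_ ps 0 hC.2
    have h1 := cn_card_add_nb_card (G := G) U v
    have h2 := (mem_W.1 hv).2
    omega
  · refine Finset.card_le_card_of_injOn (fun s => insert v s) ?_ ?_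
    · intro s hs
      exact insert_mem_K (mem_W.1 hv).1 hs
    · intro s hs t ht hst
      have hvn : v ∉ nb G U v := fun h => G.loopless.irrefl v (mem_nb.1 h).2
      have h1 : v ∉ s := fun h => hvn ((mem_K.1 hs).1 h)
      have h2 : v ∉ t := fun h => hvn ((mem_K.1 ht).1 h)
      simp only at hst
      rw [← Finset.erase_insert h1, hst, Finset.erase_insert h2]

/-- REDUCTION: lists `q^ν, ts`; it is enough to treat vertex sets without complete components of
size `q` of the complement. `τ ν` is the wanted bound. -/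
theorem rem_comp [DecidableEq V] (q : ℕ) (ts : List ℕ) (τ : ℕ → ℕ)
    (hτ : ∀ ν, 1 ≤ ν → τ (ν + 1) ≤ q * τ ν)
    (h1 : ∀ U : Finset V, C G U 0 (q :: ts) → τ 1 ≤ (K G U (ts.length + 2)).card)
    (h2 : ∀ (ν : ℕ) (U : Finset V), 2 ≤ ν → CompFree G U q →
      C G U 0 (List.replicate ν q ++ ts) → τ ν ≤ (K G U (ν + ts.length + 1)).card) :
    ∀ (ν : ℕ) (U : Finset V), 1 ≤ ν → C G U 0 (List.replicate ν q ++ ts) →
      τ ν ≤ (K G U (ν + ts.length + 1)).card := by
  intro ν
  induction ν with
  | zero => intro U h; omega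
  | succ ν ih =>
    intro U _ hC
    rcases Nat.eq_zero_or_pos ν with h0 | h0
    · subst h0
      have h3 := h1 U (by simpa using hC)
      rw [show 0 + 1 + ts.length + 1 = ts.length + 2 by ring]
      exact h3
    · by_cases hf : CompFree G U q
      · exact h2 _ U (by omega) hf hC
      · unfold CompFree at hf
        push Not at hf
        obtain ⟨Q, hQ⟩ := hf
        rw [List.replicate_succ, List.cons_append] at hC
        have h3 := ih (U \ Q) h0 (hQ.list hC)
        have h4 := hQ.count (ν + ts.length + 1)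
        calc τ (ν + 1) ≤ q * τ ν := hτ ν h0
          _ ≤ q * (K G (U \ Q) (ν + ts.length + 1)).card := Nat.mul_le_mul_left _ h3
          _ ≤ _ := by
            rw [show ν + 1 + ts.length + 1 = ν + ts.length + 1 + 1 by ring]
            exact h4

end

end Pool.Agent.MP76b19e
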