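import Pool.Agent.Lib.MP76b19e.Rob.Cov

/-!
# Products and truncated compositions (problem MP_76b19e_co)

`X 0 ⊆ X 1 ⊆ …`, `T_j` = robust set of `X j`, `D_j = |C(T_j)| - |X j|`. `sd_prod`:
`E ∏_{j<m} (D_j + b_j)^+ ≥ ∏_{j<m} b_j`. `sd_trunc`: the same for the truncated compositions
`Ψ_{j+1} = (B_j min(Ψ_j, 1) + β_j (Ψ_j - 1)^+)^+`, `B_j = (D_j + b_j)/P_j`, `β_j = b_j/P_j`.
-/

set_option autoImplicit false

open Finset

namespace MP76b19e.Rob

variable {V : Type} [Fintype V] [DecidableEq V] {n : ℕ} {F : SimpleGraph V}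
  {s s' t : V ≃ Fin n} {X X' : Finset V}

variable (F) in
/-- `G` does not decrease when vertices that are neither robust for `X` nor adjacent to robust
vertices are permuted -/
def Mon (X : Finset V) (G : (V ≃ Fin n) → ℝ) : Prop :=
  ∀ s s' : V ≃ Fin n, (∀ y, s' y ≠ s y →
    ¬ rob F s X y ∧ ∀ x, rob F s X x → ¬ F.Adj x y) → G s ≤ G s'

omit [Fintype V] [DecidableEq V] in
theorem Mon.mono (hX : X ⊆ X') {G : (V ≃ Fin n) → ℝ} (hG : Mon F X G) : Mon F X' G := by
  intro s s' h
  refine hG s s' fun y hy => ⟨fun hr => (h y hy).1 (rob_mono hX hr), fun x hx => ?_⟩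
  exact (h y hy).2 x (rob_mono hX hx)

theorem cov_subset {Y : Finset V} (hY : Y ⊆ X)
    (h : ∀ y, s' y ≠ s y → ¬ rob F s X y ∧ ∀ x, rob F s X x → ¬ F.Adj x y) :
    cov F s Y Y ⊆ cov F s' Y Y := by
  intro u hu
  rw [mem_cov] at hu ⊢
  obtain ⟨z, hz, hr, h1⟩ := hu
  exact ⟨z, hz, rob_stab hY h hr, h1⟩

variable (F) in
/-- the excess of the closed neighbourhood of the robust set of `X` -/
noncomputable def Dx (X : Finset V) (s : V ≃ Fin n) : ℝ :=
  ((cov F s X X).card : ℝ) - (X.card : ℝ)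

theorem mon_Dx {Y : Finset V} (hY : Y ⊆ X) : Mon F X (fun s : V ≃ Fin n => Dx F Y s) := by
  intro s s' h
  unfold Dx
  have h1 := Finset.card_le_card (cov_subset hY h)
  have h2 : ((cov F s Y Y).card : ℝ) ≤ ((cov F s' Y Y).card : ℝ) := by exact_mod_cast h1
  linarith

/-- `E[g D] ≥ 0` -/
theorem dx_lemma (X : Finset V) (g : (V ≃ Fin n) → ℝ) (hg0 : ∀ s, 0 ≤ g s)
    (hg : Mon F X g) : 0 ≤ ∑ s : V ≃ Fin n, g s * Dx F X s :=
  cov_lemma F (Finset.Subset.refl X) g hg0 hg

/-- the product statistic -/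
theorem sd_prod (X : ℕ → Finset V) (hX : Monotone X) (b : ℕ → ℝ) (hb : ∀ j, 0 ≤ b j) (m : ℕ) :
    (Fintype.card (V ≃ Fin n) : ℝ) * ∏ j ∈ range m, b j ≤
      ∑ s : V ≃ Fin n, ∏ j ∈ range m, max 0 (Dx F (X j) s + b j) := by
  induction m with
  | zero => simp
  | succ m ih =>
    set P : (V ≃ Fin n) → ℝ := fun s => ∏ j ∈ range m, max 0 (Dx F (X j) s + b j) with hP
    have hP0 : ∀ s, 0 ≤ P s := fun s => Finset.prod_nonneg fun j _ => le_max_left _ _
    have hmon : Mon F (X m) P := by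
      intro s s' h
      refine Finset.prod_le_prod (fun j _ => le_max_left _ _) fun j hj => ?_
      have hjm : X j ⊆ X m := hX (le_of_lt (mem_range.1 hj))
      have h1 := mon_Dx (F := F) hjm s s' h
      exact max_le_max le_rfl (by linarith)
    have h1 := dx_lemma (X m) P hP0 hmon
    calc (Fintype.card (V ≃ Fin n) : ℝ) * ∏ j ∈ range (m + 1), b j
        = ((Fintype.card (V ≃ Fin n) : ℝ) * ∏ j ∈ range m, b j) * b m := by
          rw [Finset.prod_range_succ]; ring
      _ ≤ (∑ s, P s) * b m := mul_le_mul_of_nonneg_right ih (hb m)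
      _ ≤ ∑ s, P s * (Dx F (X m) s + b m) := by
          rw [Finset.sum_mul]
          have h2 : ∑ s, P s * (Dx F (X m) s + b m) = ∑ s, P s * Dx F (X m) s +
              ∑ s, P s * b m := by
            rw [← Finset.sum_add_distrib]
            exact Finset.sum_congr rfl fun s _ => by ring
          rw [h2]
          linarith
      _ ≤ ∑ s : V ≃ Fin n, ∏ j ∈ range (m + 1), max 0 (Dx F (X j) s + b j) := by
          refine Finset.sum_le_sum fun s _ => ?_
          rw [Finset.prod_range_succ]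
          exact mul_le_mul_of_nonneg_left (le_max_right _ _) (hP0 s)

/-- the truncated composition -/
noncomputable def phi (β b ψ : ℝ) : ℝ := max 0 (b * min ψ 1 + β * max (ψ - 1) 0)

theorem phi_nonneg (β b ψ : ℝ) : 0 ≤ phi β b ψ := le_max_left _ _

theorem phi_mono {β b b' ψ ψ' : ℝ} (hβ : 0 ≤ β) (hb : b ≤ b') (h0 : 0 ≤ ψ) (hψ : ψ ≤ ψ') :
    phi β b ψ ≤ phi β b' ψ' := by
  unfold phi
  rcases le_total ψ 1 with h1 | h1
  · rw [min_eq_left h1, max_eq_right (by linarith : ψ - 1 ≤ 0), mul_zero, add_zero]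
    refine max_le (le_max_left _ _) ?_
    rcases le_total b 0 with h2 | h2
    · exact le_trans (mul_nonpos_of_nonpos_of_nonneg h2 h0) (le_max_left _ _)
    · refine le_trans ?_ (le_max_right _ _)
      have h3 : b * ψ ≤ b' * min ψ' 1 :=
        mul_le_mul hb (le_min hψ h1) h0 (le_trans h2 hb)
      have h4 : 0 ≤ β * max (ψ' - 1) 0 := mul_nonneg hβ (le_max_right _ _)
      linarith
  · have h2 : 1 ≤ ψ' := le_trans h1 hψ
    rw [min_eq_right h1, min_eq_right h2, max_eq_left (by linarith : 0 ≤ ψ - 1),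
      max_eq_left (by linarith : 0 ≤ ψ' - 1), mul_one, mul_one]
    refine max_le_max le_rfl ?_
    have h3 : β * (ψ - 1) ≤ β * (ψ' - 1) := mul_le_mul_of_nonneg_left (by linarith) hβ
    linarith

variable (F) in
/-- the truncated statistic -/
noncomputable def Psi (X : ℕ → Finset V) (b P : ℕ → ℝ) (s : V ≃ Fin n) : ℕ → ℝ
  | 0 => 1
  | m + 1 => phi (b m / P m) ((Dx F (X m) s + b m) / P m) (Psi X b P s m)

theorem Psi_nonneg (X : ℕ → Finset V) (b P : ℕ → ℝ) (s : V ≃ Fin n) (m : ℕ) :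
    0 ≤ Psi F X b P s m := by
  cases m with
  | zero => exact zero_le_one
  | succ m => exact phi_nonneg _ _ _

theorem Psi_mon (X : ℕ → Finset V) (b P : ℕ → ℝ) (hb : ∀ j, 0 ≤ b j)
    (hP : ∀ j, 0 < P j) (m : ℕ) {Y : Finset V} (hY : ∀ j < m, X j ⊆ Y) :
    Mon F Y (fun s : V ≃ Fin n => Psi F X b P s m) := by
  induction m with
  | zero => exact fun s s' _ => le_rfl
  | succ m ih =>
    intro s s' h
    change phi _ _ _ ≤ phi _ _ _
    refine phi_mono (div_nonneg (hb m) (hP m).le) ?_ (Psi_nonneg X b P s m)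
      (ih (fun j hj => hY j (Nat.lt_succ_of_lt hj)) s s' h)
    have h1 := mon_Dx (F := F) (hY m (Nat.lt_succ_self m)) s s' h
    exact div_le_div_of_nonneg_right (by linarith) (hP m).le

/-- the truncated statistic has mean at least `∏ b_j / P_j` -/
theorem sd_trunc (X : ℕ → Finset V) (hX : Monotone X) (b P : ℕ → ℝ) (hb : ∀ j, 0 ≤ b j)
    (hP : ∀ j, 0 < P j) (m : ℕ) :
    (Fintype.card (V ≃ Fin n) : ℝ) * ∏ j ∈ range m, b j / P j ≤
      ∑ s : V ≃ Fin n, Psi F X b P s m := by
  induction m with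
  | zero =>
    rw [Finset.prod_range_zero, mul_one]
    have h1 : ∀ s : V ≃ Fin n, Psi F X b P s 0 = 1 := fun _ => rfl
    rw [Finset.sum_congr rfl fun s _ => h1 s, Finset.sum_const, nsmul_eq_mul, mul_one,
      Finset.card_univ]
  | succ m ih =>
    have hβ : 0 ≤ b m / P m := div_nonneg (hb m) (hP m).le
    set g : (V ≃ Fin n) → ℝ := fun s => min (Psi F X b P s m) 1 with hg
    have hg0 : ∀ s, 0 ≤ g s := fun s => le_min (Psi_nonneg X b P s m) zero_le_one
    have hgm : Mon F (X m) g := by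
      intro s s' h
      exact min_le_min (Psi_mon X b P hb hP m (fun j hj => hX hj.le) s s' h) le_rfl
    have h1 := dx_lemma (X m) g hg0 hgm
    have key : ∀ s : V ≃ Fin n, g s * Dx F (X m) s / P m + b m / P m * Psi F X b P s m ≤
        Psi F X b P s (m + 1) := by
      intro s
      change _ ≤ phi _ _ _
      unfold phi
      refine le_trans (le_of_eq ?_) (le_max_right _ _)
      rw [hg]
      simp only
      rcases le_total (Psi F X b P s m) 1 with h2 | h2
      · rw [min_eq_left h2, max_eq_right (by linarith)]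
        ring
      · rw [min_eq_right h2, max_eq_left (by linarith)]
        ring
    calc (Fintype.card (V ≃ Fin n) : ℝ) * ∏ j ∈ range (m + 1), b j / P j
        = b m / P m * ((Fintype.card (V ≃ Fin n) : ℝ) * ∏ j ∈ range m, b j / P j) := by
          rw [Finset.prod_range_succ]; ring
      _ ≤ b m / P m * ∑ s, Psi F X b P s m := mul_le_mul_of_nonneg_left ih hβ
      _ ≤ (∑ s, g s * Dx F (X m) s) / P m + b m / P m * ∑ s, Psi F X b P s m := by
          exact le_add_of_nonneg_left (div_nonneg h1 (hP m).le)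
      _ = ∑ s, (g s * Dx F (X m) s / P m + b m / P m * Psi F X b P s m) := by
          rw [Finset.sum_add_distrib, Finset.sum_div, Finset.mul_sum]
      _ ≤ ∑ s : V ≃ Fin n, Psi F X b P s (m + 1) := Finset.sum_le_sum fun s _ => key s

end MP76b19e.Rob
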