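import Pool.Agent.Lib.MP76b19e.Rob.VStar
import Pool.Agent.Lib.MP76b19e.Rob.MixL

/-!
# Scaling the masses at one element (problem MP_76b19e_co)

`scM m t σ`: the masses of the sets which contain `t` divided by `σ ≥ 1`. `Ival_scM`:
`σ * Ival m K ≤ Ival (scM m t σ) K` for `t ∈ K` and `m ∅ = 0`.
-/

set_option autoImplicit false

open Finset

namespace MP76b19e.Rob

variable {V : Type} [DecidableEq V] {m : Finset V → ℝ} {K : Finset V} {t : V} {σ : ℝ}

/-- one element owns at most its mass -/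
theorem Ival_erase_le (h : PosM m) (h0 : m ∅ = 0) (ht : t ∈ K) :
    Ival m (K.erase t) ≤ pa m K t * Ival m K := by
  have h1 := own_compl_le h h0 (U := K) (A := K.erase t) (L := {t}) (by
      rw [← insert_eq, insert_erase ht]) (by
      rw [disjoint_singleton_left]
      exact notMem_erase t K) ⟨t, ht⟩
  rw [sum_singleton, pal_erase] at h1
  linarith

/-- the masses of the sets which contain `t`, divided by `σ` -/
noncomputable def scM (m : Finset V → ℝ) (t : V) (σ : ℝ) (D : Finset V) : ℝ :=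
  if t ∈ D then m D / σ else m D

theorem scM_mem {D : Finset V} (h : t ∈ D) : scM m t σ D = m D / σ := if_pos h

theorem scM_notMem {D : Finset V} (h : t ∉ D) : scM m t σ D = m D := if_neg h

theorem scM_empty : scM m t σ ∅ = m ∅ := if_neg (notMem_empty t)

theorem PosM.scM (h : PosM m) (hσ : 0 < σ) : PosM (scM m t σ) := by
  refine ⟨fun D => ?_, fun k => ?_⟩
  · unfold MP76b19e.Rob.scM
    split_ifs
    · exact div_nonneg (h.1 D) hσ.le
    · exact h.1 D
  · unfold MP76b19e.Rob.scM
    split_ifs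
    · exact div_pos (h.2 k) hσ
    · exact h.2 k

theorem scM_le (h : ∀ D, 0 ≤ m D) (hσ : 1 ≤ σ) (D : Finset V) : scM m t σ D ≤ m D := by
  unfold scM
  split_ifs
  · exact div_le_self (h D) hσ
  · exact le_rfl

theorem pal_scM : pal (scM m t σ) K = pal m K - (pa m K t - pa m K t / σ) := by
  unfold pal pa
  rw [sum_div, ← sum_sub_distrib, ← sum_sub_distrib]
  refine sum_congr rfl fun D _ => ?_
  by_cases h : t ∈ D
  · rw [scM_mem h, if_pos h]
    ring
  · rw [scM_notMem h, if_neg h]
    ring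

theorem pa_scM_self : pa (scM m t σ) K t = pa m K t / σ := by
  unfold pa
  rw [sum_div]
  refine sum_congr rfl fun D _ => ?_
  by_cases h : t ∈ D
  · rw [if_pos h, if_pos h, scM_mem h]
  · rw [if_neg h, if_neg h, zero_div]

theorem pa_scM_le (h : ∀ D, 0 ≤ m D) (hσ : 1 ≤ σ) (k : V) : pa (scM m t σ) K k ≤ pa m K k := by
  unfold pa
  refine sum_le_sum fun D _ => ?_
  split_ifs
  · exact scM_le h hσ D
  · exact le_rfl

theorem pom_scM_le (h : ∀ D, 0 ≤ m D) (hσ : 1 ≤ σ) (k : V) : pom (scM m t σ) K k ≤ pom m K k :=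
  sum_le_sum fun D _ => mul_le_mul_of_nonneg_left (scM_le h hσ D) (Nat.cast_nonneg _)

theorem po_scM_le (h : ∀ D, 0 ≤ m D) (hσ : 1 ≤ σ) : po (scM m t σ) K ≤ po m K :=
  sum_le_sum fun D _ => mul_le_mul_of_nonneg_left (scM_le h hσ D) (Nat.cast_nonneg _)

theorem pt_scM_le (h : ∀ D, 0 ≤ m D) (hσ : 1 ≤ σ) : pt (scM m t σ) K ≤ pt m K :=
  sum_le_sum fun D _ => mul_le_mul_of_nonneg_left (scM_le h hσ D) (Nat.cast_nonneg _)

/-- the scaling lemma -/
theorem Ival_scM (h : PosM m) (h0 : m ∅ = 0) (ht : t ∈ K) (hσ : 1 ≤ σ) :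
    σ * Ival m K ≤ Ival (scM m t σ) K := by
  have hσ0 : 0 < σ := by linarith
  have h' := h.scM (t := t) hσ0
  induction hc : K.card using Nat.strong_induction_on generalizing K with
  | _ c ih =>
    have hK : K.Nonempty := ⟨t, ht⟩
    have hp : 0 < pal (scM m t σ) K := h'.sum_pos hK
    have h1 : pal (scM m t σ) K * Ival (scM m t σ) K =
        ∑ v ∈ K, Ival (scM m t σ) (K.erase v) := sum_mul_Ival h' hK
    have h2 : pal m K * Ival m K = ∑ v ∈ K, Ival m (K.erase v) := sum_mul_Ival h hK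
    rw [← add_sum_erase K _ ht] at h1 h2
    have h3 : Ival (scM m t σ) (K.erase t) = Ival m (K.erase t) := by
      refine Ival_congr fun D hD => scM_notMem fun htD => ?_
      exact notMem_erase t K (hD htD)
    have h4 : σ * ∑ v ∈ K.erase t, Ival m (K.erase v) ≤
        ∑ v ∈ K.erase t, Ival (scM m t σ) (K.erase v) := by
      rw [mul_sum]
      refine sum_le_sum fun v hv => ?_
      have hvt : v ≠ t := ne_of_mem_erase hv
      have hvK : v ∈ K := mem_of_mem_erase hv
      exact ih _ (by rw [← hc]; exact card_erase_lt_of_mem hvK) (mem_erase.2 ⟨hvt.symm, ht⟩) rfl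
    have h5 := Ival_erase_le h h0 ht
    have h6 : (σ - 1) * Ival m (K.erase t) ≤ (σ - 1) * (pa m K t * Ival m K) :=
      mul_le_mul_of_nonneg_left h5 (by linarith)
    have h7 : pal (scM m t σ) K * (σ * Ival m K) =
        σ * (pal m K * Ival m K) - (σ - 1) * (pa m K t * Ival m K) := by
      rw [pal_scM]
      field_simp
    refine le_of_mul_le_mul_left ?_ hp
    rw [h7, h1, h3, h2]
    linarith

end MP76b19e.Rob
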