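import Pool.Agent.Lib.MP76b19e.Rob.StarS
import Pool.Agent.Lib.MP76b19e.Rob.JSum

/-!
# The decomposition by the levels of robustness (problem MP_76b19e_co)

For an order `s` with greedy set `Y` and `u ∈ Y` below level `l` let `lam u` be the first level `j`
with `u` robust in `X j` (`l` if there is none). `star_chain`: the sum of the statistic over the orders
with greedy set `Y` is at most the sum over the functions `lam` of the numerical statistic for the
sets `{lam ≤ j}` times the product over the levels `j` of the proportions of the orders of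
`{lam = j}` in which all elements of `{lam = j, lev < j}` are preceded by one of their neighbours that
is not dominated by `{lam < j}`. The decomposition is exact.
-/

set_option autoImplicit false

open Finset

namespace MP76b19e.Rob

section

variable {V : Type} [DecidableEq V] [Fintype V] {n : ℕ} {F : SimpleGraph V} {A : Finset V}
  {s : V ≃ Fin n}

/-- splitting the event that all elements of `A` are robust by the robust elements of `A'` -/
theorem tr_star (hA : ∀ x ∈ A, ∀ y ∈ A, ¬ F.Adj x y) {A' B : Finset V} (hB : B ⊆ A')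
    (hA' : A' ⊆ A) :
    (Tr F s A = A ∧ Tr F s A' = B) ↔
      (Tr F s B = B ∧ (Ev (RA F A) (dn F A) (A \ B) s ∧ Lo F (CN F B) (A' \ B) s)) := by
  have hBA := hB.trans hA'
  have hAB : A = B ∪ A \ B := (union_sdiff_of_subset hBA).symm
  have hd : Disjoint B (A \ B) := disjoint_sdiff_self_right
  constructor
  · rintro ⟨h1, h2⟩
    have h3 : Tr F s B = B := by
      rw [Tr_restrict (X := A') (by rw [h2]) hB, h2]
    refine ⟨h3, ((tr_split hA hAB hd).1 ⟨h1, h3⟩).2, fun u hu => ?_⟩
    rw [mem_sdiff] at hu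
    have hnr : ¬ rob F s A' u := by
      intro h4
      have h5 : u ∈ Tr F s A' := mem_Tr.2 h4
      rw [h2] at h5
      exact hu.2 h5
    rw [rob_iff] at hnr
    push Not at hnr
    obtain ⟨y, hy, hlt, hk⟩ := hnr hu.1
    refine ⟨y, fun h4 => ?_, hy.symm, hlt⟩
    obtain ⟨x, hx, h5⟩ := mem_CN.1 h4
    have hxT : x ∈ Tr F s A' := by
      rw [h2]
      exact hx
    rcases h5 with h5 | h5
    · rw [h5] at hy
      exact hA u (hA' hu.1) x (hBA hx) hy
    · obtain ⟨w, hw, hyw, hlt2⟩ := Tr_first hxT h5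
      exact hk ⟨w, hyw, hlt2, mem_Tr.1 hw⟩
  · rintro ⟨h1, h2, h3⟩
    refine ⟨((tr_split hA hAB hd).2 ⟨h1, h2⟩).1, Subset.antisymm ?_ ?_⟩
    · intro v hv
      by_contra hvB
      induction hc : (s v).val using Nat.strong_induction_on generalizing v with
      | _ c ih =>
        obtain ⟨y, hyC, hy, hlt⟩ := h3 v (mem_sdiff.2 ⟨Tr_subset hv, hvB⟩)
        obtain ⟨z, hyz, hlt2, hr⟩ := (rob_iff.1 (mem_Tr.1 hv)).2 y hy.symm hlt
        refine ih (s z).val (by rw [← hc]; exact lt_trans hlt2 hlt) (mem_Tr.2 hr) ?_ rfl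
        intro hzB
        exact hyC (mem_CN.2 ⟨z, hzB, Or.inr hyz⟩)
    · have h4 : Tr F s B ⊆ Tr F s A' := Tr_mono hB
      rw [h1] at h4
      exact h4

/-- the system of the vertices dominated by `A` -/
theorem syA (hA : ∀ x ∈ A, ∀ y ∈ A, ¬ F.Adj x y) {B S : Finset V} (hAB : A = B ∪ S)
    (hd : Disjoint B S) : Sy F (RA F A) (dn F A) (CN F B) S := by
  have hBA : B ⊆ A := by
    rw [hAB]
    exact subset_union_left
  have hSA : S ⊆ A := by
    rw [hAB]
    exact subset_union_right
  refine ⟨fun v hv h1 => (mem_RA.1 hv).1 (hSA h1), fun v hv _ => (mem_RA.1 hv).2,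
    fun v _ hDv => (dn_sub_iff hAB hd v).1 hDv, ?_,
    fun x hx y hy => hA x (hSA hx) y (hSA hy), ?_⟩
  · intro u hu h1
    obtain ⟨x, hx, h2⟩ := mem_CN.1 h1
    rcases h2 with h2 | h2
    · rw [h2] at hu
      exact disjoint_left.1 hd hx hu
    · exact hA u (hSA hu) x (hBA hx) h2
  · intro v hv _ k hk
    rw [mem_dn]
    constructor
    · rintro ⟨_, h1⟩
      rcases h1 with h1 | h1
      · rw [h1] at hv
        exact absurd (hSA hk) (mem_RA.1 hv).1
      · exact h1
    · exact fun h1 => ⟨hSA hk, Or.inr h1⟩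

end

section

variable {V : Type} [DecidableEq V] [Fintype V] {F : SimpleGraph V} {W Y : Finset V}
  {X : ℕ → Finset V} {lev lam : V → ℕ} {P ν : ℕ → ℕ} {l n i m : ℕ} {Z : Finset ℕ}
  {s : V ≃ Fin n}

/-- the raised elements of level `j` -/
def Jl (Y : Finset V) (lev lam : V → ℕ) (j : ℕ) : Finset V :=
  (Bl Y lam j (j + 1)).filter fun v => lev v < j

omit [DecidableEq V] [Fintype V] in
theorem mem_Jl {v : V} {j : ℕ} : v ∈ Jl Y lev lam j ↔ v ∈ Y ∧ lam v = j ∧ lev v < j := by
  unfold Jl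
  rw [mem_filter, mem_Bl]
  constructor
  · rintro ⟨⟨h1, h2, h3⟩, h4⟩
    exact ⟨h1, by omega, h4⟩
  · rintro ⟨h1, h2, h3⟩
    exact ⟨⟨h1, by omega, by omega⟩, h3⟩

/-- the proportion of the level `j` below the last level -/
noncomputable def Lj (F : SimpleGraph V) (Y : Finset V) (lev lam : V → ℕ) (n j : ℕ) : ℝ :=
  LV F n (RA F (Kl Y lam (j + 1))) (dn F (Kl Y lam (j + 1))) (CN F (Kl Y lam j))
    (Bl Y lam j (j + 1)) (Jl Y lev lam j)

/-- the proportion of the last level -/
noncomputable def Lt (F : SimpleGraph V) (W Y : Finset V) (X : ℕ → Finset V) (Z : Finset ℕ)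
    (lev lam : V → ℕ) (n l : ℕ) : ℝ :=
  LV F n (Rst F W X Z Y) (Dst F X Z Y) (CN F (Kl Y lam l)) (Bl Y lam l (l + 1)) (Jl Y lev lam l)

/-- the event of the levels below `m` -/
def Ch (F : SimpleGraph V) (X : ℕ → Finset V) (Y : Finset V) (lev lam : V → ℕ) (Z : Finset ℕ)
    (i m : ℕ) (s : V ≃ Fin n) : Prop :=
  (∀ z ∈ Z, Tr F s (X z ∩ Kl Y lev i) = Y ∩ X z) ∧ Tr F s (Kl Y lam m) = Kl Y lam m ∧
    ∀ j, i ≤ j → j + 1 < m → Tr F s (X j ∩ Kl Y lam m) = Kl Y lam (j + 1)

/-- the assumptions on the levels of robustness -/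
structure Lm (Y : Finset V) (lev lam : V → ℕ) (i : ℕ) : Prop where
  le : ∀ v ∈ Y, lev v ≤ lam v
  low : ∀ v ∈ Y, lev v < i → lam v = lev v

omit [DecidableEq V] [Fintype V] in
theorem Lm.Kl_eq (hm : Lm Y lev lam i) : Kl Y lam i = Kl Y lev i := by
  ext v
  rw [mem_Kl, mem_Kl]
  constructor
  · rintro ⟨h1, h2⟩
    have := hm.le v h1
    exact ⟨h1, by omega⟩
  · rintro ⟨h1, h2⟩
    rw [hm.low v h1 h2]
    exact ⟨h1, h2⟩

omit [Fintype V] in
theorem Kl_sub_X (h : Lv F W Y X lev) (hm : Lm Y lev lam i) (j : ℕ) : Kl Y lam (j + 1) ⊆ X j := by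
  intro v hv
  rw [mem_Kl] at hv
  have := hm.le v hv.1
  exact (h.mem_X hv.1).2 (by omega)

omit [Fintype V] in
theorem X_mono (h : Lv F W Y X lev) {a b : ℕ} (hab : a ≤ b) : X a ⊆ X b := by
  intro v hv
  rw [h.X_eq, mem_filter] at hv ⊢
  exact ⟨hv.1, by omega⟩

/-- one more level -/
theorem ch_step (h : Lv F W Y X lev) (hi : i = 0 ∨ i - 1 ∈ Z) (hlm : Lm Y lev lam i)
    (him : i ≤ m) (s : V ≃ Fin n) :
    Ch F X Y lev lam Z i (m + 1) s ↔ (Ch F X Y lev lam Z i m s ∧
      (Ev (RA F (Kl Y lam (m + 1))) (dn F (Kl Y lam (m + 1))) (Bl Y lam m (m + 1)) s ∧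
        Lo F (CN F (Kl Y lam m)) (Jl Y lev lam m) s)) := by
  have hind : ∀ x ∈ Kl Y lam (m + 1), ∀ y ∈ Kl Y lam (m + 1), ¬ F.Adj x y := fun x hx y hy =>
    h.indep x (mem_Kl.1 hx).1 y (mem_Kl.1 hy).1
  have hBm : Kl Y lam m ⊆ Kl Y lam (m + 1) := Kl_mono (Nat.le_succ m)
  have hS : Kl Y lam (m + 1) \ Kl Y lam m = Bl Y lam m (m + 1) := by
    ext v
    rw [mem_sdiff, mem_Kl, mem_Kl, mem_Bl]
    constructor
    · rintro ⟨⟨h1, h2⟩, h3⟩
      refine ⟨h1, ?_, h2⟩
      by_contra h4
      exact h3 ⟨h1, by omega⟩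
    · rintro ⟨h1, h2, h3⟩
      exact ⟨⟨h1, h3⟩, fun h4 => by omega⟩
  have hd : Disjoint (Kl Y lam m) (Bl Y lam m (m + 1)) := Kl_disj
  have hun : Kl Y lam (m + 1) = Kl Y lam m ∪ Bl Y lam m (m + 1) :=
    (Kl_union (Nat.le_succ m)).symm
  rcases Nat.lt_or_ge i m with hlt | hge
  · -- a level above the first one
    obtain ⟨k, rfl⟩ : ∃ k, m = k + 1 := ⟨m - 1, by omega⟩
    have hAX : X k ∩ Kl Y lam (k + 1 + 1) ⊆ Kl Y lam (k + 1 + 1) := inter_subset_right
    have hBX : Kl Y lam (k + 1) ⊆ X k ∩ Kl Y lam (k + 1 + 1) :=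
      subset_inter (Kl_sub_X h hlm k) hBm
    have hJ : (X k ∩ Kl Y lam (k + 1 + 1)) \ Kl Y lam (k + 1) = Jl Y lev lam (k + 1) := by
      ext v
      rw [mem_sdiff, mem_inter, mem_Kl, mem_Kl, mem_Jl]
      constructor
      · rintro ⟨⟨h1, h2, h3⟩, h4⟩
        have h5 := (h.mem_X h2).1 h1
        refine ⟨h2, ?_, by omega⟩
        by_contra h6
        exact h4 ⟨h2, by omega⟩
      · rintro ⟨h1, h2, h3⟩
        exact ⟨⟨(h.mem_X h1).2 (by omega), h1, by omega⟩, fun h4 => by omega⟩
    have hst := tr_star (s := s) hind hBX hAX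
    rw [hS, hJ] at hst
    have hres : ∀ j, i ≤ j → j + 1 < k + 1 →
        Tr F s (X k ∩ Kl Y lam (k + 1 + 1)) = Kl Y lam (k + 1) →
        Tr F s (X j ∩ Kl Y lam (k + 1)) = Tr F s (X j ∩ Kl Y lam (k + 1 + 1)) := by
      intro j _ hjk hT
      refine Tr_restrict (X := X j ∩ Kl Y lam (k + 1 + 1)) ?_ (inter_subset_inter_left hBm)
      refine subset_inter (Tr_subset.trans inter_subset_left) ?_
      rw [← hT]
      exact Tr_mono (inter_subset_inter_right (X_mono h (by omega)))
    constructor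
    · rintro ⟨h1, h2, h3⟩
      have h4 := h3 k (by omega) (by omega)
      obtain ⟨h5, h6⟩ := hst.1 ⟨h2, h4⟩
      refine ⟨⟨h1, h5, fun j hj hjk => ?_⟩, h6⟩
      rw [hres j hj hjk h4]
      exact h3 j hj (by omega)
    · rintro ⟨⟨h1, h2, h3⟩, h4⟩
      obtain ⟨h5, h6⟩ := hst.2 ⟨h2, h4⟩
      refine ⟨h1, h5, fun j hj hjk => ?_⟩
      rcases Nat.lt_or_ge j k with hjk' | hjk'
      · rw [← hres j hj (by omega) h6]
        exact h3 j hj (by omega)
      · have : j = k := by omega
        rw [this]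
        exact h6
  · -- the first level
    have hmi : m = i := le_antisymm hge him
    subst hmi
    have hJ : Jl Y lev lam m = ∅ := by
      rw [Finset.eq_empty_iff_forall_notMem]
      intro v hv
      rw [mem_Jl] at hv
      have := hlm.low v hv.1 hv.2.2
      omega
    have hTK : (∀ z ∈ Z, Tr F s (X z ∩ Kl Y lev m) = Y ∩ X z) →
        Tr F s (Kl Y lam m) = Kl Y lam m := by
      intro h1
      rw [hlm.Kl_eq]
      rcases Nat.eq_zero_or_pos m with h0 | h0
      · rw [h0, Kl_zero]
        exact subset_empty.1 Tr_subset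
      · have hmZ : m - 1 ∈ Z := by
          rcases hi with h2 | h2
          · omega
          · exact h2
        have h2 := h1 _ hmZ
        rw [Y_inter h, show m - 1 + 1 = m by omega] at h2
        have h3 : X (m - 1) ∩ Kl Y lev m = Kl Y lev m := by
          refine inter_eq_right.2 fun v hv => ?_
          rw [mem_Kl] at hv
          exact (h.mem_X hv.1).2 (by omega)
        rw [h3] at h2
        exact h2
    have hsp := tr_split (s := s) hind hun hd
    constructor
    · rintro ⟨h1, h2, _⟩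
      have h3 := hTK h1
      refine ⟨⟨h1, h3, fun j hj hjm => by omega⟩, (hsp.1 ⟨h2, h3⟩).2, fun u hu => ?_⟩
      rw [hJ] at hu
      exact absurd hu (notMem_empty u)
    · rintro ⟨⟨h1, h2, _⟩, h3, _⟩
      exact ⟨h1, (hsp.2 ⟨h2, h3⟩).1, fun j hj hjm => by omega⟩

theorem ch_sw (him : i ≤ m) (hlm : Lm Y lev lam i) (s : V ≃ Fin n) {a b : V}
    (ha : a ∉ CN F (Kl Y lam m)) (hb : b ∉ CN F (Kl Y lam m)) :
    Ch F X Y lev lam Z i m (sw s a b) ↔ Ch F X Y lev lam Z i m s := by
  have h1 : ∀ j, Tr F (sw s a b) (X j ∩ Kl Y lev i) = Tr F s (X j ∩ Kl Y lev i) := fun j => by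
    refine Tr_sw ha hb (inter_subset_right.trans ?_)
    rw [← hlm.Kl_eq]
    exact Kl_mono him
  have h2 : Tr F (sw s a b) (Kl Y lam m) = Tr F s (Kl Y lam m) := Tr_sw ha hb Subset.rfl
  have h3 : ∀ j, Tr F (sw s a b) (X j ∩ Kl Y lam m) = Tr F s (X j ∩ Kl Y lam m) := fun j =>
    Tr_sw ha hb inter_subset_right
  unfold Ch
  simp only [h1, h2, h3]

theorem syl (h : Lv F W Y X lev) (m : ℕ) : Sy F (RA F (Kl Y lam (m + 1)))
    (dn F (Kl Y lam (m + 1))) (CN F (Kl Y lam m)) (Bl Y lam m (m + 1)) :=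
  syA (fun x hx y hy => h.indep x (mem_Kl.1 hx).1 y (mem_Kl.1 hy).1)
    (Kl_union (Nat.le_succ m)).symm Kl_disj

omit [DecidableEq V] [Fintype V] in
theorem Jl_sub (j : ℕ) : Jl Y lev lam j ⊆ Bl Y lam j (j + 1) := filter_subset _ _

open Classical in
/-- the number of orders of the levels below `m` -/
theorem ch_count (h : Lv F W Y X lev) (hi : i = 0 ∨ i - 1 ∈ Z) (hlm : Lm Y lev lam i)
    (him : i ≤ m) :
    ((univ.filter fun s : V ≃ Fin n => Ch F X Y lev lam Z i m s).card : ℝ) ≤
      (Fintype.card (V ≃ Fin n) : ℝ) * (Ival (mZ F W X Z Y) (Kl Y lev i) *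
        ∏ j ∈ Ico i m, Lj F Y lev lam n j) := by
  induction m, him using Nat.le_induction with
  | base =>
    rw [Ico_self, prod_empty, mul_one]
    refine le_trans ?_ (count_low (n := n) h hi)
    refine Nat.cast_le.2 (card_le_card fun s hs => ?_)
    rw [mem_filter] at hs ⊢
    exact ⟨hs.1, hs.2.1⟩
  | succ m him ih =>
    have h1 := lo_sum (n := n) (syl (lam := lam) h m) (Jl_sub (lev := lev) m)
      (fun s => if Ch F X Y lev lam Z i m s then (1 : ℝ) else 0) (by
      intro s a b ha hb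
      simp only [ch_sw him hlm s ha hb])
    have h2 : ((univ.filter fun s : V ≃ Fin n => Ch F X Y lev lam Z i (m + 1) s).card : ℝ) =
        ∑ s ∈ univ.filter (fun s : V ≃ Fin n =>
          Ev (RA F (Kl Y lam (m + 1))) (dn F (Kl Y lam (m + 1))) (Bl Y lam m (m + 1)) s ∧
            Lo F (CN F (Kl Y lam m)) (Jl Y lev lam m) s),
          if Ch F X Y lev lam Z i m s then (1 : ℝ) else 0 := by
      rw [← sum_filter, filter_filter, sum_const, nsmul_eq_mul, mul_one]
      congr 2
      ext s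
      rw [mem_filter, mem_filter, ch_step h hi hlm him s]
      exact ⟨fun h3 => ⟨h3.1, h3.2.2, h3.2.1⟩, fun h3 => ⟨h3.1, h3.2.2, h3.2.1⟩⟩
    have h3 : ∑ s : V ≃ Fin n, (if Ch F X Y lev lam Z i m s then (1 : ℝ) else 0) =
        ((univ.filter fun s : V ≃ Fin n => Ch F X Y lev lam Z i m s).card : ℝ) := by
      rw [← sum_filter, sum_const, nsmul_eq_mul, mul_one]
    rw [h3] at h1
    rw [h2, h1, prod_Ico_succ_top him]
    refine (mul_le_mul_of_nonneg_left ih LV_nonneg).trans (le_of_eq ?_)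
    unfold Lj
    ring

open Classical in
/-- the number of orders with given levels of robustness -/
theorem chain_count (h : Lv F W Y X lev) (hl : ∀ v ∈ W, lev v ≤ l) (hi : i = 0 ∨ i - 1 ∈ Z)
    (hZ : ∀ z ∈ Z, z < i) (hil : i < l) (hlm : Lm Y lev lam i) (hlaml : ∀ v ∈ Y, lam v ≤ l) :
    ((univ.filter fun s : V ≃ Fin n => gr F W s = Y ∧ (∀ z ∈ Z, Tr F s (X z) = Y ∩ X z) ∧
        ∀ j, i ≤ j → j < l → Tr F s (X j) = Kl Y lam (j + 1)).card : ℝ) ≤
      (Fintype.card (V ≃ Fin n) : ℝ) * (Ival (mZ F W X Z Y) (Kl Y lev i) *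
        ((∏ j ∈ Ico i l, Lj F Y lev lam n j) * Lt F W Y X Z lev lam n l)) := by
  obtain ⟨k, rfl⟩ : ∃ k, l = k + 1 := ⟨l - 1, by omega⟩
  have hik : i ≤ k := by omega
  set R := Kl Y lam (k + 1) \ Kl Y lev i with hR
  have hKle : Kl Y lev i ⊆ Kl Y lam (k + 1) := by
    rw [← hlm.Kl_eq]
    exact Kl_mono (by omega)
  have hKR : Kl Y lev i ∪ R = Kl Y lam (k + 1) := union_sdiff_of_subset hKle
  have hRB : R ⊆ Bl Y lev i (k + 1) := by
    intro v hv
    rw [hR, mem_sdiff, mem_Kl, mem_Kl] at hv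
    have h1 := hlm.le v hv.1.1
    refine mem_Bl.2 ⟨hv.1.1, ?_, by omega⟩
    by_contra h2
    exact hv.2 ⟨hv.1.1, by omega⟩
  have hS : Bl Y lev i (k + 1 + 1) \ R = Bl Y lam (k + 1) (k + 1 + 1) := by
    ext v
    rw [mem_sdiff, mem_Bl, hR, mem_sdiff, mem_Kl, mem_Kl, mem_Bl]
    constructor
    · rintro ⟨⟨h1, h2, h3⟩, h4⟩
      have h5 := hlaml v h1
      refine ⟨h1, ?_, by omega⟩
      by_contra h6
      exact h4 ⟨⟨h1, by omega⟩, fun h7 => by omega⟩
    · rintro ⟨h1, h2, h3⟩
      have h4 := hl v (h.Y_sub h1)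
      refine ⟨⟨h1, ?_, by omega⟩, fun h5 => by omega⟩
      by_contra h5
      have := hlm.low v h1 (by omega)
      omega
  have hJ : Bl Y lev i (k + 1) \ R = Jl Y lev lam (k + 1) := by
    ext v
    rw [mem_sdiff, mem_Bl, hR, mem_sdiff, mem_Kl, mem_Kl, mem_Jl]
    constructor
    · rintro ⟨⟨h1, h2, h3⟩, h4⟩
      have h5 := hlaml v h1
      refine ⟨h1, ?_, by omega⟩
      by_contra h6
      exact h4 ⟨⟨h1, by omega⟩, fun h7 => by omega⟩
    · rintro ⟨h1, h2, h3⟩
      refine ⟨⟨h1, ?_, by omega⟩, fun h5 => by omega⟩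
      by_contra h5
      have := hlm.low v h1 (by omega)
      omega
  have hsy := sy (l := k + 1) h hi hZ hRB
  rw [hKR, hS] at hsy
  have h1 := lo_sum (n := n) hsy (Jl_sub (lev := lev) (k + 1))
    (fun s => if Ch F X Y lev lam Z i (k + 1) s then (1 : ℝ) else 0) (by
    intro s a b ha hb
    simp only [ch_sw hil.le hlm s ha hb])
  have hiff : ∀ s : V ≃ Fin n, (gr F W s = Y ∧ (∀ z ∈ Z, Tr F s (X z) = Y ∩ X z) ∧
        ∀ j, i ≤ j → j < k + 1 → Tr F s (X j) = Kl Y lam (j + 1)) ↔
      ((Ev (Rst F W X Z Y) (Dst F X Z Y) (Bl Y lam (k + 1) (k + 1 + 1)) s ∧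
        Lo F (CN F (Kl Y lam (k + 1))) (Jl Y lev lam (k + 1)) s) ∧
        Ch F X Y lev lam Z i (k + 1) s) := by
    intro s
    have h2 := star_iff h hl hi hZ hik hRB s
    rw [hKR, hS, hJ] at h2
    have hres : ∀ j, i ≤ j → j + 1 < k + 1 → Tr F s (X k) = Kl Y lam (k + 1) →
        Tr F s (X j ∩ Kl Y lam (k + 1)) = Tr F s (X j) := by
      intro j _ hjk hT
      refine Tr_restrict (X := X j) (subset_inter Tr_subset ?_) inter_subset_left
      rw [← hT]
      exact Tr_mono (X_mono h (by omega))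
    constructor
    · rintro ⟨h3, h4, h5⟩
      have h6 := h5 k hik (Nat.lt_succ_self k)
      obtain ⟨⟨h7, h8⟩, h9⟩ := h2.1 ⟨h3, h4, h6⟩
      refine ⟨h9, h7, h8, fun j hj hjk => ?_⟩
      rw [hres j hj hjk h6]
      exact h5 j hj (by omega)
    · rintro ⟨h3, h4, h5, h6⟩
      obtain ⟨h7, h8, h9⟩ := h2.2 ⟨⟨h4, h5⟩, h3⟩
      refine ⟨h7, h8, fun j hj hjk => ?_⟩
      rcases Nat.lt_or_ge j k with h10 | h10
      · rw [← hres j hj (by omega) h9]
        exact h6 j hj (by omega)
      · have : j = k := by omega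
        rw [this]
        exact h9
  have h3 : ((univ.filter fun s : V ≃ Fin n => gr F W s = Y ∧
        (∀ z ∈ Z, Tr F s (X z) = Y ∩ X z) ∧
        ∀ j, i ≤ j → j < k + 1 → Tr F s (X j) = Kl Y lam (j + 1)).card : ℝ) =
      ∑ s ∈ univ.filter (fun s : V ≃ Fin n =>
        Ev (Rst F W X Z Y) (Dst F X Z Y) (Bl Y lam (k + 1) (k + 1 + 1)) s ∧
          Lo F (CN F (Kl Y lam (k + 1))) (Jl Y lev lam (k + 1)) s),
        if Ch F X Y lev lam Z i (k + 1) s then (1 : ℝ) else 0 := by
    rw [← sum_filter, filter_filter, sum_const, nsmul_eq_mul, mul_one]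
    congr 2
    ext s
    rw [mem_filter, mem_filter, hiff s]
  rw [h3, h1, ← sum_filter, sum_const, nsmul_eq_mul, mul_one]
  refine (mul_le_mul_of_nonneg_left (ch_count (n := n) h hi hlm hil.le) LV_nonneg).trans
    (le_of_eq ?_)
  unfold Lt
  ring

open Classical in
/-- the admissible levels of robustness -/
noncomputable def Lam (Y : Finset V) (lev : V → ℕ) (ν : ℕ → ℕ) (i l : ℕ) : Finset (V → ℕ) :=
  (Fintype.piFinset fun v => if v ∈ Bl Y lev i l then Icc (lev v) l else {lev v}).filter fun lam =>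
    ∀ j, j < l → (Y.filter fun v => lev v ≤ j ∧ j < lam v).card ≤ xY Y lev ν j

theorem mem_Lam : lam ∈ Lam Y lev ν i l ↔
    (∀ v, v ∈ Bl Y lev i l → lev v ≤ lam v ∧ lam v ≤ l) ∧
      (∀ v, v ∉ Bl Y lev i l → lam v = lev v) ∧
      ∀ j, j < l → (Y.filter fun v => lev v ≤ j ∧ j < lam v).card ≤ xY Y lev ν j := by
  classical
  unfold Lam
  rw [mem_filter, Fintype.mem_piFinset]
  constructor
  · rintro ⟨h1, h2⟩
    refine ⟨fun v hv => ?_, fun v hv => ?_, h2⟩
    · have h3 := h1 v
      rw [if_pos hv, mem_Icc] at h3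
      exact h3
    · have h3 := h1 v
      rw [if_neg hv, mem_singleton] at h3
      exact h3
  · rintro ⟨h1, h2, h3⟩
    refine ⟨fun v => ?_, h3⟩
    split_ifs with h4
    · rw [mem_Icc]
      exact h1 v h4
    · rw [mem_singleton]
      exact h2 v h4

theorem Lam_Lm (hlam : lam ∈ Lam Y lev ν i l) : Lm Y lev lam i := by
  classical
  rw [mem_Lam] at hlam
  constructor
  · intro v _
    by_cases h1 : v ∈ Bl Y lev i l
    · exact (hlam.1 v h1).1
    · exact (hlam.2.1 v h1).ge
  · intro v _ hlt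
    refine hlam.2.1 v fun h1 => ?_
    have := mem_Bl.1 h1
    omega

/-- the numbers of vertices dominated by the robust sets -/
noncomputable def Cl (F : SimpleGraph V) (Y : Finset V) (lam : V → ℕ) (j : ℕ) : ℕ :=
  (CN F (Kl Y lam (j + 1))).card

/-- the decomposition by the levels of robustness -/
theorem star_chain (h : Lv F W Y X lev) (hP : ∀ j, 0 < P j) (hm : ∀ j, P j < P (j + 1))
    (hcap : Cp F W Y lev P l)
    (hXc : ∀ j, j < l → ((X j).card : ℝ) = Ss P ν j - P j + 1) (hil : i < l)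
    (hi : i = 0 ∨ xY Y lev ν (i - 1) = 0) (hxi : ∀ j, i ≤ j → j < l → xY Y lev ν j ≠ 0) :
    ∑ s ∈ univ.filter (fun s : V ≃ Fin n => gr F W s = Y),
        RM F X (fun _ => 1) (fun j => (P j : ℝ)) s l ≤
      (Fintype.card (V ≃ Fin n) : ℝ) * (Ival (mZ F W X (ZY Y lev ν l) Y) (Kl Y lev i) *
        ∑ lam ∈ Lam Y lev ν i l, rn P ν (Cl F Y lam) l *
          ((∏ j ∈ Ico i l, Lj F Y lev lam n j) *
            Lt F W Y X (ZY Y lev ν l) lev lam n l)) := by
  classical
  set Z := ZY Y lev ν l with hZdef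
  have hl := hcap.le
  have hZ : ∀ z ∈ Z, z < i := by
    intro z hz
    rw [hZdef] at hz
    unfold ZY at hz
    rw [mem_filter, mem_range] at hz
    by_contra h1
    exact hxi z (by omega) hz.1 hz.2
  have hi' : i = 0 ∨ i - 1 ∈ Z := start_mem (l := l) hil.le hi
  have h1 : ∀ s ∈ univ.filter (fun s : V ≃ Fin n => gr F W s = Y),
      RM F X (fun _ => 1) (fun j => (P j : ℝ)) s l ≤
        ∑ lam ∈ Lam Y lev ν i l, if ((∀ z ∈ Z, Tr F s (X z) = Y ∩ X z) ∧
          ∀ j, i ≤ j → j < l → Tr F s (X j) = Kl Y lam (j + 1)) then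
            rn P ν (Cl F Y lam) l else 0 := by
    intro s hs
    have hs' := (mem_filter.1 hs).2
    have hpt : ∀ lam : V → ℕ, 0 ≤ (if ((∀ z ∈ Z, Tr F s (X z) = Y ∩ X z) ∧
          ∀ j, i ≤ j → j < l → Tr F s (X j) = Kl Y lam (j + 1)) then
            rn P ν (Cl F Y lam) l else 0) := by
      intro lam
      split_ifs
      · exact rn_nonneg _ _ _ _
      · exact le_rfl
    rcases lt_or_ge 0 (RM F X (fun _ => 1) (fun j => (P j : ℝ)) s l) with hpos | hneg
    · have hcard := Tr_card h.X_eq hP hm hcap.lo hXc hpos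
      have htr : ∀ z ∈ Z, Tr F s (X z) = Y ∩ X z := by
        intro z hz
        rw [hZdef] at hz
        unfold ZY at hz
        rw [mem_filter, mem_range] at hz
        have h3 := hcard z hz.1
        rw [Y_inter h z]
        refine eq_of_subset_of_card_le (Tr_sub_Kl h hs' z) ?_
        have h4 := card_le_card (Tr_sub_Kl h hs' z)
        have h5 := xY_eq (Y := Y) (lev := lev) (ν := ν) (j := z) (h3.trans h4)
        omega
      -- the levels of robustness
      set lam : V → ℕ := fun v => if v ∈ Bl Y lev i l then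
        (if hv : ∃ j, j < l ∧ v ∈ Tr F s (X j) then Nat.find hv else l) else lev v with hlam
      have hmonoT : ∀ a b, a ≤ b → Tr F s (X a) ⊆ Tr F s (X b) := fun a b hab =>
        Tr_mono (X_mono h hab)
      have hlamB : ∀ v ∈ Bl Y lev i l, ∀ j, j < l → (v ∈ Tr F s (X j) ↔ lam v ≤ j) := by
        intro v hv j hj
        have e1 : lam v = if hv : ∃ j, j < l ∧ v ∈ Tr F s (X j) then Nat.find hv else l := by
          rw [hlam]
          simp only
          rw [if_pos hv]
        rw [e1]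
        split_ifs with h3
        · constructor
          · intro h4
            exact Nat.find_min' h3 ⟨hj, h4⟩
          · intro h4
            exact hmonoT _ _ h4 (Nat.find_spec h3).2
        · constructor
          · intro h4
            exact absurd ⟨j, hj, h4⟩ h3
          · intro h4
            omega
      have hlamN : ∀ v, v ∉ Bl Y lev i l → lam v = lev v := by
        intro v hv
        rw [hlam]
        simp only
        rw [if_neg hv]
      have hKT : Kl Y lev i ⊆ Tr F s (X i) := by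
        rcases Nat.eq_zero_or_pos i with h0 | h0
        · rw [h0, Kl_zero]
          exact empty_subset _
        · have h3 : i - 1 ∈ Z := by
            rcases hi' with h4 | h4
            · omega
            · exact h4
          have h4 := htr _ h3
          rw [Y_inter h, show i - 1 + 1 = i by omega] at h4
          rw [← h4]
          exact hmonoT _ _ (by omega)
      have hTr : ∀ j, i ≤ j → j < l → Tr F s (X j) = Kl Y lam (j + 1) := by
        intro j hij hjl
        ext v
        rw [mem_Kl]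
        constructor
        · intro hv
          have h3 := mem_Kl.1 (Tr_sub_Kl h hs' j hv)
          refine ⟨h3.1, ?_⟩
          by_cases h4 : v ∈ Bl Y lev i l
          · have := (hlamB v h4 j hjl).1 hv
            omega
          · rw [hlamN v h4]
            exact h3.2
        · rintro ⟨hvY, hlt⟩
          by_cases h4 : v ∈ Bl Y lev i l
          · exact (hlamB v h4 j hjl).2 (by omega)
          · rw [hlamN v h4] at hlt
            rw [mem_Bl] at h4
            push Not at h4
            have h5 : lev v < i := by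
              by_contra h6
              have := h4 hvY (by omega)
              omega
            exact hmonoT _ _ hij (hKT (mem_Kl.2 ⟨hvY, h5⟩))
      have hmem : lam ∈ Lam Y lev ν i l := by
        rw [mem_Lam]
        refine ⟨fun v hv => ⟨?_, ?_⟩, hlamN, fun j hj => ?_⟩
        · have h3 := mem_Bl.1 hv
          by_contra h4
          push Not at h4
          have h5 := (hlamB v hv (lam v) (by omega)).2 le_rfl
          have h6 := Tr_subset h5
          rw [h.X_eq, mem_filter] at h6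
          omega
        · have e1 : lam v = if hv : ∃ j, j < l ∧ v ∈ Tr F s (X j) then Nat.find hv else l := by
            rw [hlam]
            simp only
            rw [if_pos hv]
          rw [e1]
          split_ifs with h3
          · exact (Nat.find_spec h3).1.le
          · exact le_rfl
        · have h3 := hcard j hj
          have h5 : (Y.filter fun v => lev v ≤ j ∧ j < lam v) ⊆ Kl Y lev (j + 1) := by
            intro v hv
            rw [mem_filter] at hv
            exact mem_Kl.2 ⟨hv.1, by omega⟩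
          have hTs := Tr_sub_Kl h hs' j
          have h6 : (Y.filter fun v => lev v ≤ j ∧ j < lam v).card +
              (Tr F s (X j)).card ≤ (Kl Y lev (j + 1)).card := by
            rw [← card_union_of_disjoint]
            · exact card_le_card (union_subset h5 hTs)
            · rw [disjoint_left]
              intro v hv hv'
              rw [mem_filter] at hv
              by_cases h7 : v ∈ Bl Y lev i l
              · have := (hlamB v h7 j hj).1 hv'
                omega
              · have := hlamN v h7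
                omega
          unfold xY
          omega
      refine le_trans ?_ (single_le_sum (f := fun lam => if ((∀ z ∈ Z, Tr F s (X z) = Y ∩ X z) ∧
          ∀ j, i ≤ j → j < l → Tr F s (X j) = Kl Y lam (j + 1)) then
            rn P ν (Cl F Y lam) l else 0) (fun lam _ => hpt lam) hmem)
      change _ ≤ if ((∀ z ∈ Z, Tr F s (X z) = Y ∩ X z) ∧
          ∀ j, i ≤ j → j < l → Tr F s (X j) = Kl Y lam (j + 1)) then
            rn P ν (Cl F Y lam) l else 0
      rw [if_pos ⟨htr, hTr⟩, RM_eq_rn hXc]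
      refine rn_mono fun j hj => card_le_card (CN_mono ?_)
      rcases Nat.lt_or_ge j i with h3 | h3
      · intro v hv
        have h4 := mem_Kl.1 (Tr_sub_Kl h hs' j hv)
        rw [mem_Kl, hlamN v (fun h5 => by have := mem_Bl.1 h5; omega)]
        exact h4
      · rw [hTr j h3 hj]
    · exact hneg.trans (sum_nonneg fun lam _ => hpt lam)
  refine (sum_le_sum h1).trans ?_
  rw [sum_comm, mul_sum, mul_sum]
  refine sum_le_sum fun lam hlam => ?_
  rw [← sum_filter, filter_filter, sum_const, nsmul_eq_mul]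
  have hlaml : ∀ v ∈ Y, lam v ≤ l := by
    intro v hv
    have h2 := mem_Lam.1 hlam
    by_cases h3 : v ∈ Bl Y lev i l
    · exact (h2.1 v h3).2
    · rw [h2.2.1 v h3]
      exact hl v (h.Y_sub hv)
  have h2 := chain_count (n := n) (W := W) h hl hi' hZ hil (Lam_Lm hlam) hlaml
  calc _ ≤ ((Fintype.card (V ≃ Fin n) : ℝ) * (Ival (mZ F W X Z Y) (Kl Y lev i) *
        ((∏ j ∈ Ico i l, Lj F Y lev lam n j) * Lt F W Y X Z lev lam n l))) *
          rn P ν (Cl F Y lam) l := by
        refine mul_le_mul_of_nonneg_right ?_ (rn_nonneg _ _ _ _)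
        exact h2
    _ = _ := by ring

end

end MP76b19e.Rob
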