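import Pool.Agent.Lib.MP76b19e.Rob.Clus
import Pool.Agent.Lib.MP76b19e.Rob.StarC

/-!
# The decomposition by the last elements and the levels of robustness (problem MP_76b19e_co)

`Y` is a maximal independent set of `W`, `T = Kl Y lev i` its elements below the last block,
`Bl = Bl Y lev i (l + 1)` the elements of the last block, `S` the set of the last `d` elements of `Bl`,
`K = Bl \ S`. For `u ∈ K` let `lam u` be the first level `j` with `u` robust in `X j` (`l` if there is
none). `mn lam B` is the set of the elements of `B` of least `lam`.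

* Every vertex `v` which is not in `K` and not dominated by `T` is preceded by an element of
  `mn lam (D v)`, `D v` the neighbours of `v` in `K` (if `D v` is nonempty, and `v ∈ W` or
  `lam < l` on `mn lam (D v)`), and by all elements of `K` (if `D v = ∅` and `v ∈ W`): `Ev (Rk ...)`.
* Every `u ∈ K` with `lev u < lam u` is preceded by a neighbour `y` with `u ∈ mn lam (D y)`: `Lk`.
* The vertices of `W \ Y` dominated only by `S` are preceded by one of their neighbours in `S`.

`star_K`: the sum of the statistic over the orders with greedy set `Y` is at most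
`n! Ival (mZ) T ∑_S Ival (mY) S ∑_lam rn (Cl lam) LK S lam`, `LK S lam` the proportion of the orders with
the first two properties.

`LK_prod`: `LK ≤ ∏_A (1 - |Qc A| / |Nk A|) Ival (mK lam) K` for clusters `A` of raised elements of the
same level `lam` with pairwise disjoint sets `Nk A` (all vertices `v` with `mn lam (D v)` meeting `A`);
`Qc A` is the set of the vertices `v` with `mn lam (D v) ⊆ A` (and the elements of `A`).
The masses `mK lam` include the base `mK lam ∅`, the number of the vertices of `W` that are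
dominated only by `S`.
-/

set_option autoImplicit false

open Finset

namespace MP76b19e.Rob

section mn

variable {V : Type} [DecidableEq V] {lam : V → ℕ} {B : Finset V} {u : V}

/-- the elements of least level -/
def mn (lam : V → ℕ) (B : Finset V) : Finset V := B.filter fun u => ∀ w ∈ B, lam u ≤ lam w

omit [DecidableEq V] in
theorem mem_mn : u ∈ mn lam B ↔ u ∈ B ∧ ∀ w ∈ B, lam u ≤ lam w := by
  unfold mn
  rw [mem_filter]

omit [DecidableEq V] in
theorem mn_sub : mn lam B ⊆ B := filter_subset _ _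

omit [DecidableEq V] in
theorem mn_empty : mn lam (∅ : Finset V) = ∅ := filter_empty _

omit [DecidableEq V] in
theorem mn_nonempty (h : B.Nonempty) : (mn lam B).Nonempty := by
  obtain ⟨u, hu, hmin⟩ := exists_min_image B lam h
  exact ⟨u, mem_mn.2 ⟨hu, hmin⟩⟩

omit [DecidableEq V] in
theorem mn_eq_empty : mn lam B = ∅ ↔ B = ∅ := by
  constructor
  · intro h
    by_contra h1
    exact (mn_nonempty (lam := lam) (nonempty_iff_ne_empty.2 h1)).ne_empty h
  · intro h
    rw [h, mn_empty]

/-- the last `d` elements -/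
theorem exists_last {n : ℕ} (s : V ≃ Fin n) (B : Finset V) {d : ℕ} (hd : d ≤ B.card) :
    ∃ S ⊆ B, S.card = d ∧ ∀ k ∈ B \ S, ∀ u ∈ S, s k < s u := by
  induction d with
  | zero => exact ⟨∅, empty_subset _, card_empty, fun _ _ u hu => absurd hu (notMem_empty u)⟩
  | succ d ih =>
    obtain ⟨S, hS, hc, hlt⟩ := ih (by omega)
    have hne : (B \ S).Nonempty := by
      rw [← card_pos, card_sdiff_of_subset hS]
      omega
    obtain ⟨x, hx, hmax⟩ := exists_max_image (B \ S) (fun u => s u) hne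
    have hx' := mem_sdiff.1 hx
    refine ⟨insert x S, insert_subset hx'.1 hS, by rw [card_insert_of_notMem hx'.2, hc], ?_⟩
    intro k hk u hu
    rw [mem_sdiff, mem_insert] at hk
    push Not at hk
    have hk' : k ∈ B \ S := mem_sdiff.2 ⟨hk.1, hk.2.2⟩
    rcases mem_insert.1 hu with h1 | h1
    · rw [h1]
      exact lt_of_le_of_ne (hmax k hk') fun h2 => hk.2.1 (s.injective h2)
    · exact hlt k hk' u h1

end mn

section defs

variable {V : Type} [DecidableEq V] [Fintype V]

open Classical in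
/-- the vertices of the events of `K` -/
noncomputable def Rk (F : SimpleGraph V) (W T K : Finset V) (lam : V → ℕ) (l : ℕ) : Finset V :=
  univ.filter fun v => v ∉ K ∧ v ∉ CN F T ∧ (v ∈ W ∨ ∃ u ∈ dn F K v, lam u < l)

theorem mem_Rk {F : SimpleGraph V} {W T K : Finset V} {lam : V → ℕ} {l : ℕ} {v : V} :
    v ∈ Rk F W T K lam l ↔ v ∉ K ∧ v ∉ CN F T ∧ (v ∈ W ∨ ∃ u ∈ dn F K v, lam u < l) := by
  classical
  unfold Rk
  rw [mem_filter]
  exact ⟨fun h => h.2, fun h => ⟨mem_univ v, h⟩⟩

/-- every raised element is preceded by a neighbour that is not dominated by lower elements -/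
def Lk (F : SimpleGraph V) (T K : Finset V) (lev lam : V → ℕ) {n : ℕ} (s : V ≃ Fin n) : Prop :=
  ∀ u ∈ K, lev u < lam u →
    ∃ y, y ∉ K ∧ y ∉ CN F T ∧ F.Adj y u ∧ u ∈ mn lam (dn F K y) ∧ s y < s u

/-- the event of `K` -/
def Ek (F : SimpleGraph V) (W T K : Finset V) (lev lam : V → ℕ) (l : ℕ) {n : ℕ}
    (s : V ≃ Fin n) : Prop :=
  Ev (Rk F W T K lam l) (fun v => mn lam (dn F K v)) K s ∧ Lk F T K lev lam s

open Classical in
/-- the proportion of the event of `K` -/
noncomputable def LK (F : SimpleGraph V) (W T K : Finset V) (lev lam : V → ℕ) (n l : ℕ) : ℝ :=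
  ((univ.filter fun s : V ≃ Fin n => Ek F W T K lev lam l s).card : ℝ) /
    (Fintype.card (V ≃ Fin n) : ℝ)

theorem LK_nonneg (F : SimpleGraph V) (W T K : Finset V) (lev lam : V → ℕ) (n l : ℕ) :
    0 ≤ LK F W T K lev lam n l := div_nonneg (Nat.cast_nonneg _) (Nat.cast_nonneg _)

open Classical in
theorem LK_mul (F : SimpleGraph V) (W T K : Finset V) (lev lam : V → ℕ) (n l : ℕ) :
    LK F W T K lev lam n l * (Fintype.card (V ≃ Fin n) : ℝ) =
      ((univ.filter fun s : V ≃ Fin n => Ek F W T K lev lam l s).card : ℝ) := by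
  unfold LK
  rcases Nat.eq_zero_or_pos (Fintype.card (V ≃ Fin n)) with h0 | h0
  · have h1 : (univ.filter fun s : V ≃ Fin n => Ek F W T K lev lam l s) = ∅ := by
      rw [Fintype.card_eq_zero_iff] at h0
      ext s
      exact h0.elim s
    rw [h1, h0]
    simp
  · rw [div_mul_cancel₀]
    exact_mod_cast h0.ne'

open Classical in
/-- the multiplicities -/
noncomputable def mK (F : SimpleGraph V) (W T K : Finset V) (lam : V → ℕ) (l : ℕ)
    (D : Finset V) : ℝ :=
  (((Rk F W T K lam l).filter fun v => mn lam (dn F K v) = D).card : ℝ) +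
    if D.card = 1 then 1 else 0

theorem mK_pos {F : SimpleGraph V} {W T K : Finset V} {lam : V → ℕ} {l : ℕ} :
    PosM (mK F W T K lam l) := by
  classical
  refine ⟨fun D => ?_, fun k => ?_⟩
  · unfold mK
    refine add_nonneg (Nat.cast_nonneg _) ?_
    split_ifs <;> norm_num
  · unfold mK
    rw [if_pos (card_singleton k)]
    have h1 : (0 : ℝ) ≤ (((Rk F W T K lam l).filter fun v => mn lam (dn F K v) = {k}).card : ℝ) :=
      Nat.cast_nonneg _
    linarith

open Classical in
/-- the vertices of a cluster -/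
noncomputable def Nk (F : SimpleGraph V) (T K : Finset V) (lam : V → ℕ) (A : Finset V) :
    Finset V :=
  A ∪ univ.filter fun v => v ∉ K ∧ v ∉ CN F T ∧ (mn lam (dn F K v) ∩ A).Nonempty

theorem mem_Nk {F : SimpleGraph V} {T K A : Finset V} {lam : V → ℕ} {v : V} :
    v ∈ Nk F T K lam A ↔ v ∈ A ∨ (v ∉ K ∧ v ∉ CN F T ∧ (mn lam (dn F K v) ∩ A).Nonempty) := by
  classical
  unfold Nk
  rw [mem_union, mem_filter]
  exact ⟨fun h => h.imp id fun h1 => h1.2, fun h => h.imp id fun h1 => ⟨mem_univ v, h1⟩⟩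

/-- the forbidden vertices of a cluster -/
noncomputable def Qk (F : SimpleGraph V) (W T K : Finset V) (lam : V → ℕ) (l : ℕ)
    (A : Finset V) : Finset V :=
  Qc (Rk F W T K lam l) (fun v => mn lam (dn F K v)) A

/-- clusters of raised elements -/
theorem LK_prod {F : SimpleGraph V} {W T K : Finset V} {lev lam : V → ℕ} {l n : ℕ}
    (𝒜 : Finset (Finset V))
    (hA : ∀ A ∈ 𝒜, A ⊆ K ∧ A.Nonempty ∧ ∀ u ∈ A, lev u < lam u)
    (hd : (𝒜 : Set (Finset V)).PairwiseDisjoint (Nk F T K lam)) :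
    LK F W T K lev lam n l ≤
      (∏ A ∈ 𝒜, (1 - ((Qk F W T K lam l A).card : ℝ) / ((Nk F T K lam A).card : ℝ))) *
        Ival (mK F W T K lam l) K := by
  classical
  set R := Rk F W T K lam l with hR
  set D : V → Finset V := fun v => mn lam (dn F K v) with hD
  have hQN : ∀ A ∈ 𝒜, Qc R D A ⊆ Nk F T K lam A := by
    intro A _ v hv
    rcases mem_Qc.1 hv with h1 | ⟨h1, h2, h3⟩
    · exact mem_Nk.2 (Or.inl h1)
    · rw [hR, mem_Rk] at h1
      refine mem_Nk.2 (Or.inr ⟨h1.1, h1.2.1, ?_⟩)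
      obtain ⟨x, hx⟩ := h2
      exact ⟨x, mem_inter.2 ⟨hx, h3 hx⟩⟩
  have h1 := clus (n := n) R D (Nk F T K lam) (mK_pos (F := F) (W := W) (T := T) (K := K)
    (lam := lam) (l := l)) K 𝒜
    (disjoint_left.2 fun v hv hv' => (mem_Rk.1 hv).1 hv') (fun A hA' => ⟨(hA A hA').1, (hA A hA').2.1⟩)
    hQN (fun A _ v hv => by
      rw [mem_inter, mem_Nk] at hv
      rcases hv.1 with h2 | h2
      · exact h2
      · exact absurd hv.2 h2.1) hd (fun _ _ => rfl)
  have hNpos : ∀ A ∈ 𝒜, (0 : ℝ) < ((Nk F T K lam A).card : ℝ) := by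
    intro A hA'
    have h2 : 0 < (Nk F T K lam A).card :=
      card_pos.2 ((hA A hA').2.1.mono fun a ha => mem_Nk.2 (Or.inl ha))
    exact_mod_cast h2
  have hPpos : 0 < ∏ A ∈ 𝒜, ((Nk F T K lam A).card : ℝ) := prod_pos hNpos
  -- the events
  have h2 : ((univ.filter fun s : V ≃ Fin n => Ek F W T K lev lam l s).card : ℝ) ≤
      ((univ.filter fun s : V ≃ Fin n => Ev R D K s ∧ Fo R D (Nk F T K lam) 𝒜 s).card : ℝ) := by
    refine Nat.cast_le.2 (card_le_card fun s hs => ?_)
    rw [mem_filter] at hs ⊢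
    obtain ⟨_, hev, hlk⟩ := hs
    refine ⟨mem_univ _, hev, fun A hA' => ?_⟩
    obtain ⟨hAK, hAne, hAr⟩ := hA A hA'
    -- the first element of `N A`
    obtain ⟨x, hx, hmin⟩ := exists_min_image (Nk F T K lam A) (fun u => s u)
      (hAne.mono fun a ha => mem_Nk.2 (Or.inl ha))
    refine ⟨x, hx, fun u hu => lt_of_le_of_ne (hmin u (hQN A hA' hu)) fun h3 => ?_⟩
    have hxu : x = u := s.injective h3
    subst hxu
    rcases mem_Qc.1 hu with h4 | ⟨h4, h5, h6⟩
    · obtain ⟨y, hyK, hyT, _, hym, hlt⟩ := hlk x (hAK h4) (hAr x h4)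
      exact absurd hlt (not_lt.2 (hmin y (mem_Nk.2 (Or.inr ⟨hyK, hyT, x,
        mem_inter.2 ⟨hym, h4⟩⟩))))
    · obtain ⟨k, hk, hlt⟩ := (hev x h4 (h6.trans hAK)).2 h5.ne_empty
      exact absurd hlt (not_lt.2 (hmin k (mem_Nk.2 (Or.inl (h6 hk)))))
  have h3 : ∏ A ∈ 𝒜, (1 - ((Qk F W T K lam l A).card : ℝ) / ((Nk F T K lam A).card : ℝ)) =
      (∏ A ∈ 𝒜, (((Nk F T K lam A).card : ℝ) - ((Qc R D A).card : ℝ))) /
        ∏ A ∈ 𝒜, ((Nk F T K lam A).card : ℝ) := by
    rw [← prod_div_distrib]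
    refine prod_congr rfl fun A hA' => ?_
    rw [sub_div, div_self (hNpos A hA').ne']
    rfl
  rw [h3]
  unfold LK
  rcases Nat.eq_zero_or_pos (Fintype.card (V ≃ Fin n)) with h0 | h0
  · rw [h0]
    simp only [Nat.cast_zero, div_zero]
    refine mul_nonneg (div_nonneg (prod_nonneg fun A hA' => ?_) hPpos.le) (Ival_pos mK_pos K).le
    have h4 : ((Qc R D A).card : ℝ) ≤ ((Nk F T K lam A).card : ℝ) := by
      exact_mod_cast card_le_card (hQN A hA')
    linarith
  · have hC : (0 : ℝ) < (Fintype.card (V ≃ Fin n) : ℝ) := by exact_mod_cast h0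
    rw [div_le_iff₀ hC, div_mul_eq_mul_div, div_mul_eq_mul_div, le_div_iff₀ hPpos]
    calc ((univ.filter fun s : V ≃ Fin n => Ek F W T K lev lam l s).card : ℝ) *
          ∏ A ∈ 𝒜, ((Nk F T K lam A).card : ℝ)
        ≤ ((univ.filter fun s : V ≃ Fin n =>
            Ev R D K s ∧ Fo R D (Nk F T K lam) 𝒜 s).card : ℝ) *
          ∏ A ∈ 𝒜, ((Nk F T K lam A).card : ℝ) := mul_le_mul_of_nonneg_right h2 hPpos.le
      _ ≤ _ := by
          rw [mul_comm]
          refine h1.trans (le_of_eq ?_)
          ring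

end defs

section events

variable {V : Type} [DecidableEq V] [Fintype V] {F : SimpleGraph V} {W Y S : Finset V}
  {X : ℕ → Finset V} {lev lam : V → ℕ} {P ν : ℕ → ℕ} {l n i : ℕ} {Z : Finset ℕ} {s : V ≃ Fin n}

omit [Fintype V] in
/-- an element of `Y` is below the block or in the block -/
theorem Y_cases (h : Lv F W Y X lev) (hl : ∀ v ∈ W, lev v ≤ l) {w : V} (hw : w ∈ Y) :
    w ∈ Kl Y lev i ∨ w ∈ Bl Y lev i (l + 1) := by
  have h1 := hl w (h.Y_sub hw)
  by_cases h2 : lev w < i
  · exact Or.inl (mem_Kl.2 ⟨hw, h2⟩)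
  · exact Or.inr (mem_Bl.2 ⟨hw, by omega, by omega⟩)

/-- the elements of the block are not dominated by the lower elements -/
theorem Bl_out (h : Lv F W Y X lev) {j : ℕ} {u : V} (hu : u ∈ Bl Y lev i j) :
    u ∉ CN F (Kl Y lev i) := by
  intro h1
  obtain ⟨x, hx, h2⟩ := mem_CN.1 h1
  have h3 := mem_Kl.1 hx
  have h4 := mem_Bl.1 hu
  rcases h2 with h2 | h2
  · rw [h2] at h4
    omega
  · exact h.indep u h4.1 x h3.1 h2

/-- the properties of the orders with greedy set `Y` -/
theorem star_ev (h : Lv F W Y X lev) (hl : ∀ v ∈ W, lev v ≤ l) (hi : i = 0 ∨ i - 1 ∈ Z)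
    (hg : gr F W s = Y)
    (ht : ∀ z ∈ Z, Tr F s (X z) = Y ∩ X z)
    (hlast : ∀ k ∈ Bl Y lev i (l + 1) \ S, ∀ u ∈ S, s k < s u)
    (hlam : ∀ u ∈ Bl Y lev i (l + 1) \ S, ∀ j, j < l → (u ∈ Tr F s (X j) ↔ lam u ≤ j))
    (hlaml : ∀ u ∈ Bl Y lev i (l + 1) \ S, lam u ≤ l) :
    Ev (W \ Y) (dn F Y) S s ∧ Ek F W (Kl Y lev i) (Bl Y lev i (l + 1) \ S) lev lam l s := by
  set T := Kl Y lev i with hT
  set K := Bl Y lev i (l + 1) \ S with hK
  have hKY : K ⊆ Y := fun v hv => (mem_Bl.1 (mem_sdiff.1 hv).1).1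
  have hKB : ∀ v ∈ K, v ∈ Bl Y lev i (l + 1) := fun v hv => (mem_sdiff.1 hv).1
  -- a neighbour of `K` outside `K` is not in `Y`
  have hnY : ∀ v, v ∉ K → (dn F K v).Nonempty → v ∉ Y := by
    rintro v hvK ⟨k, hk⟩ hvY
    rw [mem_dn] at hk
    rcases hk.2 with h1 | h1
    · rw [h1] at hvK
      exact hvK hk.1
    · exact h.indep v hvY k (hKY hk.1) h1
  have hadj : ∀ v, v ∉ K → ∀ k ∈ dn F K v, F.Adj v k := by
    intro v hvK k hk
    rw [mem_dn] at hk
    rcases hk.2 with h1 | h1
    · rw [h1] at hvK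
      exact absurd hk.1 hvK
    · exact h1
  -- an element of `Y` adjacent to a vertex not dominated by `T`
  have hcases : ∀ v w, v ∉ CN F T → w ∈ Y → F.Adj v w → w ∈ K ∨ w ∈ S := by
    intro v w hvT hw hvw
    rcases Y_cases (i := i) h hl hw with h1 | h1
    · exact absurd (mem_CN.2 ⟨w, h1, Or.inr hvw⟩) hvT
    · by_cases h2 : w ∈ S
      · exact Or.inr h2
      · exact Or.inl (mem_sdiff.2 ⟨h1, h2⟩)
  refine ⟨fun v hv hDv => ?_, fun v hv _ => ⟨fun h0 k hk => ?_, fun h0 => ?_⟩, ?_⟩
  · -- the vertices dominated only by `S`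
    rw [mem_sdiff] at hv
    have hne := h.max v hv.1
    refine ⟨fun h0 => absurd h0 hne.ne_empty, fun _ => ?_⟩
    have h1 := gr_first (F := F) (s := s) hv.1 (by rw [hg]; exact hv.2)
    rw [hg] at h1
    exact h1
  · -- the vertices not dominated by `K`
    rw [mem_Rk] at hv
    obtain ⟨hvK, hvT, hvW⟩ := hv
    have h0' : dn F K v = ∅ := mn_eq_empty.1 h0
    have hvW' : v ∈ W := by
      rcases hvW with h1 | ⟨u, hu, _⟩
      · exact h1
      · rw [h0'] at hu
        exact absurd hu (notMem_empty u)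
    by_cases hvY : v ∈ Y
    · have hvS : v ∈ S := by
        rcases Y_cases (i := i) h hl hvY with h1 | h1
        · exact absurd (mem_CN.2 ⟨v, h1, Or.inl rfl⟩) hvT
        · by_contra h2
          exact hvK (mem_sdiff.2 ⟨h1, h2⟩)
      exact hlast k hk v hvS
    · obtain ⟨w, hw, hlt⟩ := gr_first (F := F) (s := s) hvW' (by rw [hg]; exact hvY)
      rw [hg, mem_dn] at hw
      have hvw : F.Adj v w := by
        rcases hw.2 with h1 | h1
        · rw [h1] at hvY
          exact absurd hw.1 hvY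
        · exact h1
      rcases hcases v w hvT hw.1 hvw with h1 | h1
      · have h2 : w ∈ dn F K v := mem_dn.2 ⟨h1, Or.inr hvw⟩
        rw [h0'] at h2
        exact absurd h2 (notMem_empty w)
      · exact lt_trans (hlast k hk w h1) hlt
  · -- the vertices dominated by `K`
    rw [mem_Rk] at hv
    obtain ⟨hvK, hvT, hvW⟩ := hv
    obtain ⟨u, hu⟩ := nonempty_iff_ne_empty.2 h0
    have hum := mem_mn.1 hu
    have huK : u ∈ K := (mem_dn.1 hum.1).1
    have hvY := hnY v hvK ⟨u, hum.1⟩
    have hvu := hadj v hvK u hum.1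
    rcases Nat.lt_or_ge (lam u) l with h1 | h1
    · have huT : u ∈ Tr F s (X (lam u)) := (hlam u huK _ h1).2 le_rfl
      obtain ⟨w, hw, hvw, hlt⟩ := Tr_first huT hvu
      have hwY : w ∈ Y := (mem_Kl.1 (Tr_sub_Kl h hg _ hw)).1
      rcases hcases v w hvT hwY hvw with h2 | h2
      · have h3 := (hlam w h2 _ h1).1 hw
        refine ⟨w, mem_mn.2 ⟨mem_dn.2 ⟨h2, Or.inr hvw⟩, fun x hx => ?_⟩, hlt⟩
        exact h3.trans (hum.2 x hx)
      · exact ⟨u, hu, lt_trans (hlast u huK w h2) hlt⟩
    · have hvW' : v ∈ W := by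
        rcases hvW with h2 | ⟨x, hx, h3⟩
        · exact h2
        · have := hum.2 x hx
          omega
      obtain ⟨w, hw, hlt⟩ := gr_first (F := F) (s := s) hvW' (by rw [hg]; exact hvY)
      rw [hg, mem_dn] at hw
      have hvw : F.Adj v w := by
        rcases hw.2 with h1 | h1
        · rw [h1] at hvY
          exact absurd hw.1 hvY
        · exact h1
      rcases hcases v w hvT hw.1 hvw with h2 | h2
      · refine ⟨w, mem_mn.2 ⟨mem_dn.2 ⟨h2, Or.inr hvw⟩, fun x hx => ?_⟩, hlt⟩
        exact ((hlaml w h2).trans h1).trans (hum.2 x hx)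
      · exact ⟨u, hu, lt_trans (hlast u huK w h2) hlt⟩
  · -- the raised elements
    intro u huK hlt
    have huB := mem_Bl.1 (hKB u huK)
    have hul := hlaml u huK
    obtain ⟨j, hj⟩ : ∃ j, lam u = j + 1 := ⟨lam u - 1, by omega⟩
    have huj : u ∉ Tr F s (X j) := by
      rw [hlam u huK j (by omega)]
      omega
    have huX : u ∈ X j := (h.mem_X huB.1).2 (by omega)
    have hnr : ¬ rob F s (X j) u := fun h1 => huj (mem_Tr.2 h1)
    rw [rob_iff] at hnr
    push Not at hnr
    obtain ⟨y, hy, hlt2, hk⟩ := hnr huX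
    have hTT : T ⊆ Tr F s (X j) := by
      rcases Nat.eq_zero_or_pos i with h0 | h0
      · rw [hT, h0, Kl_zero]
        exact empty_subset _
      · have h3 : i - 1 ∈ Z := by
          rcases hi with h4 | h4
          · omega
          · exact h4
        have h4 := ht _ h3
        rw [Y_inter h, show i - 1 + 1 = i by omega] at h4
        rw [hT, ← h4]
        exact Tr_mono (X_mono h (by omega))
    have hnk : ∀ w ∈ Tr F s (X j), ¬ F.Adj y w := by
      intro w hw hyw
      obtain ⟨z, hz, hyz, hlt3⟩ := Tr_first hw hyw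
      exact hk ⟨z, hyz, hlt3, mem_Tr.1 hz⟩
    have hyY : y ∉ Y := fun h1 => h.indep u huB.1 y h1 hy
    refine ⟨y, fun h1 => hyY (hKY h1), fun h1 => ?_, hy.symm, ?_, hlt2⟩
    · obtain ⟨x, hx, h2⟩ := mem_CN.1 h1
      rcases h2 with h2 | h2
      · rw [h2] at hyY
        exact hyY (mem_Kl.1 hx).1
      · exact hnk x (hTT hx) h2
    · refine mem_mn.2 ⟨mem_dn.2 ⟨huK, Or.inr hy.symm⟩, fun w hw => ?_⟩
      by_contra h1
      push Not at h1
      rw [mem_dn] at hw
      have hwT : w ∈ Tr F s (X j) := (hlam w hw.1 j (by omega)).2 (by omega)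
      rcases hw.2 with h2 | h2
      · rw [h2] at hyY
        exact hyY (hKY hw.1)
      · exact hnk w hwT h2

/-- the event of `K` depends only on the order of the vertices not dominated by `T` -/
theorem Ek_congr {T K : Finset V} (hKT : ∀ u ∈ K, u ∉ CN F T) {s s' : V ≃ Fin n}
    (hss : ∀ a b, a ∉ CN F T → b ∉ CN F T → (s a < s b ↔ s' a < s' b))
    (h : Ek F W T K lev lam l s) : Ek F W T K lev lam l s' := by
  obtain ⟨h1, h2⟩ := h
  refine ⟨fun v hv hDv => ?_, fun u hu hlt => ?_⟩
  · obtain ⟨h3, h4⟩ := h1 v hv hDv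
    have hvT := (mem_Rk.1 hv).2.1
    refine ⟨fun h5 k hk => (hss k v (hKT k hk) hvT).1 (h3 h5 k hk), fun h5 => ?_⟩
    obtain ⟨k, hk, h6⟩ := h4 h5
    exact ⟨k, hk, (hss k v (hKT k (hDv hk)) hvT).1 h6⟩
  · obtain ⟨y, hyK, hyT, hyu, hym, hlt2⟩ := h2 u hu hlt
    exact ⟨y, hyK, hyT, hyu, hym, (hss y u hyT (hKT u hu)).1 hlt2⟩

/-- the event of `K` does not depend on the order of the vertices of the base -/
theorem Ek_base {T K : Finset V} {s : V ≃ Fin n} {a b : V}
    (ha : a ∈ W ∧ a ∉ CN F T ∧ dn F K a = ∅) (hb : b ∈ W ∧ b ∉ CN F T ∧ dn F K b = ∅)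
    (h : Ek F W T K lev lam l s) : Ek F W T K lev lam l (sw s a b) := by
  obtain ⟨h1, h2⟩ := h
  have hK : ∀ c, dn F K c = ∅ → c ∉ K := by
    intro c hc hcK
    have h3 : c ∈ dn F K c := mem_dn.2 ⟨hcK, Or.inl rfl⟩
    rw [hc] at h3
    exact notMem_empty c h3
  have hbase : ∀ c, (c ∈ W ∧ c ∉ CN F T ∧ dn F K c = ∅) → ∀ k ∈ K, s k < s c := by
    intro c hc k hk
    refine (h1 c (mem_Rk.2 ⟨hK c hc.2.2, hc.2.1, Or.inl hc.1⟩) ?_).1 (mn_eq_empty.2 hc.2.2) k hk
    change mn lam (dn F K c) ⊆ K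
    rw [hc.2.2, mn_empty]
    exact empty_subset _
  have hKab : ∀ k ∈ K, sw s a b k = s k := by
    intro k hk
    apply sw_ne
    · rintro rfl
      exact hK _ ha.2.2 hk
    · rintro rfl
      exact hK _ hb.2.2 hk
  have hne : ∀ v, (dn F K v).Nonempty → sw s a b v = s v := by
    intro v hv
    apply sw_ne
    · rintro rfl
      exact hv.ne_empty ha.2.2
    · rintro rfl
      exact hv.ne_empty hb.2.2
  refine ⟨fun v hv hDv => ⟨fun h0 k hk => ?_, fun h0 => ?_⟩, fun u hu hlt => ?_⟩
  · rw [hKab k hk]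
    by_cases hva : v = a
    · rw [hva, sw_left]
      exact hbase b hb k hk
    · by_cases hvb : v = b
      · rw [hvb, sw_right]
        exact hbase a ha k hk
      · rw [sw_ne hva hvb]
        exact (h1 v hv hDv).1 h0 k hk
  · obtain ⟨k, hk, hlt⟩ := (h1 v hv hDv).2 h0
    refine ⟨k, hk, ?_⟩
    rw [hKab k (hDv hk), hne v ⟨k, mn_sub hk⟩]
    exact hlt
  · obtain ⟨y, hyK, hyT, hyu, hym, hlt2⟩ := h2 u hu hlt
    refine ⟨y, hyK, hyT, hyu, hym, ?_⟩
    rw [hKab u hu, hne y ⟨u, mn_sub hym⟩]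
    exact hlt2

open Classical in
/-- the number of orders -/
theorem count_K (h : Lv F W Y X lev) (hi : i = 0 ∨ i - 1 ∈ Z)
    (hS : S ⊆ Bl Y lev i (l + 1)) :
    ((univ.filter fun s : V ≃ Fin n => (∀ z ∈ Z, Tr F s (X z ∩ Kl Y lev i) = Y ∩ X z) ∧
        Ev (W \ Y) (dn F Y) S s ∧
          Ek F W (Kl Y lev i) (Bl Y lev i (l + 1) \ S) lev lam l s).card : ℝ) ≤
      (Fintype.card (V ≃ Fin n) : ℝ) * (Ival (mZ F W X Z Y) (Kl Y lev i) *
        (Ival (mY F W Y) S * LK F W (Kl Y lev i) (Bl Y lev i (l + 1) \ S) lev lam n l)) := by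
  set T := Kl Y lev i with hT
  set K := Bl Y lev i (l + 1) \ S with hK
  have hKT : ∀ u ∈ K, u ∉ CN F T := fun u hu => Bl_out h (mem_sdiff.1 hu).1
  have hSY : S ⊆ Y := fun v hv => (mem_Bl.1 (hS hv)).1
  set E : (V ≃ Fin n) → Prop := fun s => ∀ z ∈ Z, Tr F s (X z ∩ T) = Y ∩ X z with hE
  set G : (V ≃ Fin n) → ℝ := fun s => if E s ∧ Ek F W T K lev lam l s then 1 else 0 with hG
  have hEsw : ∀ s : V ≃ Fin n, ∀ a b, a ∉ CN F T → b ∉ CN F T → (E (sw s a b) ↔ E s) := by
    intro s a b ha hb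
    have h1 : ∀ j, Tr F (sw s a b) (X j ∩ T) = Tr F s (X j ∩ T) := fun j =>
      Tr_sw ha hb inter_subset_right
    simp only [hE, h1]
  -- the base
  set B0 : Finset V := W.filter fun v => dn F Y v ⊆ S with hB0
  have hB0' : ∀ v ∈ B0, v ∈ W ∧ v ∉ CN F T ∧ dn F K v = ∅ := by
    intro v hv
    rw [hB0, mem_filter] at hv
    refine ⟨hv.1, fun h1 => ?_, ?_⟩
    · obtain ⟨x, hx, h2⟩ := mem_CN.1 h1
      have h3 := mem_Kl.1 hx
      have h4 := mem_Bl.1 (hS (hv.2 (mem_dn.2 ⟨h3.1, h2⟩)))
      omega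
    · rw [Finset.eq_empty_iff_forall_notMem]
      intro k hk
      rw [mem_dn] at hk
      have h1 := mem_sdiff.1 hk.1
      exact h1.2 (hv.2 (mem_dn.2 ⟨(mem_Bl.1 h1.1).1, hk.2⟩))
  have hpe := perm_eq (n := n) (W \ Y) B0 (dn F Y) (mY F W Y) G
    (by
      intro s a ha b hb
      have ha' := hB0' a ha
      have hb' := hB0' b hb
      have h1 : Ek F W T K lev lam l (sw s a b) ↔ Ek F W T K lev lam l s := by
        constructor
        · intro h2
          have h3 := Ek_base ha' hb' h2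
          rwa [sw_sw] at h3
        · exact Ek_base ha' hb'
      simp only [hG, hEsw s a b ha'.2.1 hb'.2.1, h1]) S
    (fun v hv => mem_filter.2 ⟨h.Y_sub (hSY hv), by
      rw [dn_self h.indep (hSY hv)]
      exact singleton_subset_iff.2 hv⟩)
    (disjoint_left.2 fun v hv hv' => (mem_sdiff.1 hv).2 (hSY hv'))
    (fun v hv hDv => ⟨mem_filter.2 ⟨(mem_sdiff.1 hv).1, hDv⟩, h.max v (mem_sdiff.1 hv).1⟩)
    (by
      intro B hB
      have hBY := hB.trans hSY
      have key : W.filter (fun v => dn F Y v = B) =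
          ((W \ Y).filter fun v => dn F Y v = B) ∪ (if B.card = 1 then B else ∅) := by
        ext v
        rw [mem_filter, mem_union, mem_filter, mem_sdiff]
        constructor
        · rintro ⟨h1, h2⟩
          by_cases hvY : v ∈ Y
          · right
            have h3 := dn_self h.indep hvY
            rw [h2] at h3
            rw [h3, if_pos (card_singleton v)]
            exact mem_singleton_self v
          · exact Or.inl ⟨⟨h1, hvY⟩, h2⟩
        · rintro (⟨⟨h1, _⟩, h2⟩ | h1)
          · exact ⟨h1, h2⟩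
          · split_ifs at h1 with h2
            · obtain ⟨k, hk⟩ := card_eq_one.1 h2
              have hvY := hBY h1
              refine ⟨h.Y_sub hvY, ?_⟩
              rw [dn_self h.indep hvY]
              rw [hk, mem_singleton] at h1
              rw [hk, h1]
            · exact absurd h1 (notMem_empty v)
      have hdisj : Disjoint ((W \ Y).filter fun v => dn F Y v = B)
          (if B.card = 1 then B else ∅) := by
        rw [disjoint_left]
        intro v hv hv'
        rw [mem_filter, mem_sdiff] at hv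
        split_ifs at hv' with h2
        · exact hv.1.2 (hBY hv')
        · exact absurd hv' (notMem_empty v)
      unfold mY
      rw [key, card_union_of_disjoint hdisj]
      push_cast
      congr 1
      split_ifs with h2
      · rw [h2]
        simp
      · simp)
  -- the lower part
  have hind := indep (univ.filter fun v => v ∉ CN F T)
    (fun s : V ≃ Fin n => if Ek F W T K lev lam l s then (1 : ℝ) else 0)
    (fun s => if E s then (1 : ℝ) else 0)
    (fun s a ha b hb => by
      simp only [hEsw s a b (mem_filter.1 ha).2 (mem_filter.1 hb).2])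
    (fun s s' hss => by
      have h0 : ∀ a b, a ∉ CN F T → b ∉ CN F T → (s a < s b ↔ s' a < s' b) := fun a b ha hb =>
        hss a (mem_filter.2 ⟨mem_univ _, ha⟩) b (mem_filter.2 ⟨mem_univ _, hb⟩)
      have h2 : Ek F W T K lev lam l s → Ek F W T K lev lam l s' := Ek_congr hKT h0
      have h3 : Ek F W T K lev lam l s' → Ek F W T K lev lam l s :=
        Ek_congr hKT fun a b ha hb => (h0 a b ha hb).symm
      by_cases h4 : Ek F W T K lev lam l s
      · rw [if_pos h4, if_pos (h2 h4)]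
      · rw [if_neg h4, if_neg fun h5 => h4 (h3 h5)])
  have hGs : ∑ s : V ≃ Fin n, G s = ∑ s : V ≃ Fin n,
      (if Ek F W T K lev lam l s then (1 : ℝ) else 0) * (if E s then (1 : ℝ) else 0) := by
    refine sum_congr rfl fun s _ => ?_
    simp only [hG]
    by_cases h4 : E s
    · by_cases h5 : Ek F W T K lev lam l s
      · rw [if_pos ⟨h4, h5⟩, if_pos h5, if_pos h4, one_mul]
      · rw [if_neg fun h6 => h5 h6.2, if_neg h5, zero_mul]
    · rw [if_neg fun h6 => h4 h6.1, if_neg h4, mul_zero]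
  have hEk : ∑ s : V ≃ Fin n, (if Ek F W T K lev lam l s then (1 : ℝ) else 0) =
      LK F W T K lev lam n l * (Fintype.card (V ≃ Fin n) : ℝ) := by
    rw [LK_mul, ← sum_filter, sum_const, nsmul_eq_mul, mul_one]
  have hEs : ∑ s : V ≃ Fin n, (if E s then (1 : ℝ) else 0) ≤
      (Fintype.card (V ≃ Fin n) : ℝ) * Ival (mZ F W X Z Y) T := by
    rw [← sum_filter, sum_const, nsmul_eq_mul, mul_one]
    exact count_low (n := n) h hi
  have hGle : ∑ s : V ≃ Fin n, G s ≤ (Fintype.card (V ≃ Fin n) : ℝ) *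
      (Ival (mZ F W X Z Y) T * LK F W T K lev lam n l) := by
    rw [← hGs, hEk] at hind
    rcases Nat.eq_zero_or_pos (Fintype.card (V ≃ Fin n)) with h0 | h0
    · have h1 : ∑ s : V ≃ Fin n, G s = 0 := by
        rw [Fintype.card_eq_zero_iff] at h0
        simp
      rw [h1, h0]
      simp
    · have hC : (0 : ℝ) < (Fintype.card (V ≃ Fin n) : ℝ) := by exact_mod_cast h0
      refine le_of_mul_le_mul_left ?_ hC
      rw [hind]
      have h1 : 0 ≤ LK F W T K lev lam n l * (Fintype.card (V ≃ Fin n) : ℝ) :=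
        mul_nonneg (LK_nonneg _ _ _ _ _ _ _ _) hC.le
      refine (mul_le_mul_of_nonneg_left hEs h1).trans (le_of_eq ?_)
      ring
  have hcount : ((univ.filter fun s : V ≃ Fin n => (∀ z ∈ Z, Tr F s (X z ∩ T) = Y ∩ X z) ∧
        Ev (W \ Y) (dn F Y) S s ∧ Ek F W T K lev lam l s).card : ℝ) =
      ∑ s ∈ univ.filter (fun s : V ≃ Fin n => Ev (W \ Y) (dn F Y) S s), G s := by
    simp only [hG]
    rw [← sum_filter, filter_filter, sum_const, nsmul_eq_mul, mul_one]
    congr 2
    ext s
    rw [mem_filter, mem_filter]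
    exact ⟨fun h3 => ⟨h3.1, h3.2.2.1, h3.2.1, h3.2.2.2⟩,
      fun h3 => ⟨h3.1, h3.2.2.1, h3.2.1, h3.2.2.2⟩⟩
  have hI : 0 ≤ Ival (mY F W Y) S := Ival_nonneg (mY_nonneg Y) S
  rw [hcount, hpe]
  calc Ival (mY F W Y) S * ∑ s : V ≃ Fin n, G s
      ≤ Ival (mY F W Y) S * ((Fintype.card (V ≃ Fin n) : ℝ) *
      (Ival (mZ F W X Z Y) T * LK F W T K lev lam n l)) := mul_le_mul_of_nonneg_left hGle hI
    _ = _ := by ring

open Classical in
/-- the admissible levels of robustness of the elements of `K` -/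
noncomputable def LamK (Y K : Finset V) (lev : V → ℕ) (ν : ℕ → ℕ) (l : ℕ) : Finset (V → ℕ) :=
  (Fintype.piFinset fun v => if v ∈ K then Icc (lev v) l else {lev v}).filter fun lam =>
    ∀ j, j < l → (K.filter fun v => lev v ≤ j ∧ j < lam v).card ≤ xY Y lev ν j

theorem mem_LamK {K : Finset V} : lam ∈ LamK Y K lev ν l ↔
    (∀ v, v ∈ K → lev v ≤ lam v ∧ lam v ≤ l) ∧ (∀ v, v ∉ K → lam v = lev v) ∧
      ∀ j, j < l → (K.filter fun v => lev v ≤ j ∧ j < lam v).card ≤ xY Y lev ν j := by
  classical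
  unfold LamK
  rw [mem_filter, Fintype.mem_piFinset]
  constructor
  · rintro ⟨h1, h2⟩
    refine ⟨fun v hv => ?_, fun v hv => ?_, h2⟩
    · have h3 := h1 v
      rw [if_pos hv, mem_Icc] at h3
      exact h3
    · have h3 := h1 v
      rw [if_neg hv, mem_singleton] at h3
      exact h3
  · rintro ⟨h1, h2, h3⟩
    refine ⟨fun v => ?_, h3⟩
    split_ifs with h4
    · rw [mem_Icc]
      exact h1 v h4
    · rw [mem_singleton]
      exact h2 v h4

/-- the decomposition by the last elements and the levels of robustness -/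
theorem star_K (h : Lv F W Y X lev) (hP : ∀ j, 0 < P j) (hm : ∀ j, P j < P (j + 1))
    (hcap : Cp F W Y lev P l)
    (hXc : ∀ j, j < l → ((X j).card : ℝ) = Ss P ν j - P j + 1) (hil : i ≤ l)
    (hi : i = 0 ∨ xY Y lev ν (i - 1) = 0) (hxi : ∀ j, i ≤ j → j < l → xY Y lev ν j ≠ 0)
    {d : ℕ} (hd : d ≤ (Bl Y lev i (l + 1)).card) :
    ∑ s ∈ univ.filter (fun s : V ≃ Fin n => gr F W s = Y),
        RM F X (fun _ => 1) (fun j => (P j : ℝ)) s l ≤
      (Fintype.card (V ≃ Fin n) : ℝ) * (Ival (mZ F W X (ZY Y lev ν l) Y) (Kl Y lev i) *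
        ∑ S ∈ (Bl Y lev i (l + 1)).powersetCard d, Ival (mY F W Y) S *
          ∑ lam ∈ LamK Y (Bl Y lev i (l + 1) \ S) lev ν l, rn P ν (Cl F Y lam) l *
            LK F W (Kl Y lev i) (Bl Y lev i (l + 1) \ S) lev lam n l) := by
  classical
  set Z := ZY Y lev ν l with hZdef
  have hl := hcap.le
  have hi' : i = 0 ∨ i - 1 ∈ Z := start_mem (l := l) hil hi
  set Bb := Bl Y lev i (l + 1) with hBb
  set g : Finset V → (V → ℕ) → (V ≃ Fin n) → ℝ := fun S lam s =>
    if ((∀ z ∈ Z, Tr F s (X z ∩ Kl Y lev i) = Y ∩ X z) ∧ Ev (W \ Y) (dn F Y) S s ∧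
      Ek F W (Kl Y lev i) (Bb \ S) lev lam l s) then rn P ν (Cl F Y lam) l else 0 with hg
  have hg0 : ∀ S lam s, 0 ≤ g S lam s := by
    intro S lam s
    simp only [hg]
    split_ifs
    · exact rn_nonneg _ _ _ _
    · exact le_rfl
  have h1 : ∀ s ∈ univ.filter (fun s : V ≃ Fin n => gr F W s = Y),
      RM F X (fun _ => 1) (fun j => (P j : ℝ)) s l ≤
        ∑ S ∈ Bb.powersetCard d, ∑ lam ∈ LamK Y (Bb \ S) lev ν l, g S lam s := by
    intro s hs
    have hs' := (mem_filter.1 hs).2
    rcases lt_or_ge 0 (RM F X (fun _ => 1) (fun j => (P j : ℝ)) s l) with hpos | hneg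
    · have hcard := Tr_card h.X_eq hP hm hcap.lo hXc hpos
      have htr : ∀ z ∈ Z, Tr F s (X z) = Y ∩ X z := by
        intro z hz
        rw [hZdef] at hz
        unfold ZY at hz
        rw [mem_filter, mem_range] at hz
        have h3 := hcard z hz.1
        rw [Y_inter h z]
        refine eq_of_subset_of_card_le (Tr_sub_Kl h hs' z) ?_
        have h4 := card_le_card (Tr_sub_Kl h hs' z)
        have h5 := xY_eq (Y := Y) (lev := lev) (ν := ν) (j := z) (h3.trans h4)
        omega
      have hZ : ∀ z ∈ Z, z < i := by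
        intro z hz
        rw [hZdef] at hz
        unfold ZY at hz
        rw [mem_filter, mem_range] at hz
        by_contra h1
        exact hxi z (by omega) hz.1 hz.2
      -- the last elements
      obtain ⟨S, hSB, hSd, hlast⟩ := exists_last s Bb hd
      set K := Bb \ S with hK
      -- the levels of robustness
      set lam : V → ℕ := fun v => if v ∈ K then
        (if hv : ∃ j, j < l ∧ v ∈ Tr F s (X j) then Nat.find hv else l) else lev v with hlam
      have hmonoT : ∀ a b, a ≤ b → Tr F s (X a) ⊆ Tr F s (X b) := fun a b hab =>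
        Tr_mono (X_mono h hab)
      have e0 : ∀ v ∈ K, lam v = if hv : ∃ j, j < l ∧ v ∈ Tr F s (X j) then Nat.find hv
          else l := by
        intro v hv
        rw [hlam]
        simp only
        rw [if_pos hv]
      have hlamB : ∀ v ∈ K, ∀ j, j < l → (v ∈ Tr F s (X j) ↔ lam v ≤ j) := by
        intro v hv j hj
        rw [e0 v hv]
        split_ifs with h3
        · constructor
          · intro h4
            exact Nat.find_min' h3 ⟨hj, h4⟩
          · intro h4
            exact hmonoT _ _ h4 (Nat.find_spec h3).2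
        · constructor
          · intro h4
            exact absurd ⟨j, hj, h4⟩ h3
          · intro h4
            omega
      have hlamN : ∀ v, v ∉ K → lam v = lev v := by
        intro v hv
        rw [hlam]
        simp only
        rw [if_neg hv]
      have hlaml : ∀ v ∈ K, lam v ≤ l := by
        intro v hv
        rw [e0 v hv]
        split_ifs with h3
        · exact (Nat.find_spec h3).1.le
        · exact le_rfl
      have hmem : lam ∈ LamK Y K lev ν l := by
        rw [mem_LamK]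
        refine ⟨fun v hv => ⟨?_, hlaml v hv⟩, hlamN, fun j hj => ?_⟩
        · have h3 := mem_Bl.1 (mem_sdiff.1 hv).1
          by_contra h4
          push Not at h4
          have h5 := (hlamB v hv (lam v) (by omega)).2 le_rfl
          have h6 := Tr_subset h5
          rw [h.X_eq, mem_filter] at h6
          omega
        · have h3 := hcard j hj
          have h5 : (K.filter fun v => lev v ≤ j ∧ j < lam v) ⊆ Kl Y lev (j + 1) := by
            intro v hv
            rw [mem_filter] at hv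
            exact mem_Kl.2 ⟨(mem_Bl.1 (mem_sdiff.1 hv.1).1).1, by omega⟩
          have hTs := Tr_sub_Kl h hs' j
          have h6 : (K.filter fun v => lev v ≤ j ∧ j < lam v).card +
              (Tr F s (X j)).card ≤ (Kl Y lev (j + 1)).card := by
            rw [← card_union_of_disjoint]
            · exact card_le_card (union_subset h5 hTs)
            · rw [disjoint_left]
              intro v hv hv'
              rw [mem_filter] at hv
              have := (hlamB v hv.1 j hj).1 hv'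
              omega
          unfold xY
          omega
      have hlow := ((ev_iff h hl hi' hZ s).1 ⟨hs', htr⟩).1
      have hev := star_ev h hl hi' hs' htr hlast hlamB hlaml
      have hval : RM F X (fun _ => 1) (fun j => (P j : ℝ)) s l ≤ g S lam s := by
        change _ ≤ if ((∀ z ∈ Z, Tr F s (X z ∩ Kl Y lev i) = Y ∩ X z) ∧
          Ev (W \ Y) (dn F Y) S s ∧
          Ek F W (Kl Y lev i) (Bb \ S) lev lam l s) then rn P ν (Cl F Y lam) l else 0
        rw [if_pos ⟨hlow, hev.1, hev.2⟩, RM_eq_rn hXc]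
        refine rn_mono fun j hj => card_le_card (CN_mono ?_)
        intro v hv
        have h4 := mem_Kl.1 (Tr_sub_Kl h hs' j hv)
        rw [mem_Kl]
        by_cases h5 : v ∈ K
        · have := (hlamB v h5 j hj).1 hv
          exact ⟨h4.1, by omega⟩
        · rw [hlamN v h5]
          exact h4
      refine hval.trans ?_
      have h2 := single_le_sum (f := fun lam => g S lam s) (fun lam _ => hg0 S lam s) hmem
      refine h2.trans ?_
      exact single_le_sum (f := fun S => ∑ lam ∈ LamK Y (Bb \ S) lev ν l, g S lam s)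
        (fun S _ => sum_nonneg fun lam _ => hg0 S lam s) (mem_powersetCard.2 ⟨hSB, hSd⟩)
    · exact hneg.trans (sum_nonneg fun S _ => sum_nonneg fun lam _ => hg0 S lam s)
  refine (sum_le_sum h1).trans ?_
  rw [sum_comm, mul_sum, mul_sum]
  refine sum_le_sum fun S hS => ?_
  rw [mem_powersetCard] at hS
  rw [sum_comm, mul_sum, mul_sum, mul_sum]
  refine sum_le_sum fun lam _ => ?_
  have h2 : ∑ s ∈ univ.filter (fun s : V ≃ Fin n => gr F W s = Y), g S lam s ≤
      ((univ.filter fun s : V ≃ Fin n => (∀ z ∈ Z, Tr F s (X z ∩ Kl Y lev i) = Y ∩ X z) ∧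
        Ev (W \ Y) (dn F Y) S s ∧
          Ek F W (Kl Y lev i) (Bl Y lev i (l + 1) \ S) lev lam l s).card : ℝ) *
        rn P ν (Cl F Y lam) l := by
    simp only [hg]
    rw [← sum_filter, sum_const, nsmul_eq_mul]
    refine mul_le_mul_of_nonneg_right ?_ (rn_nonneg _ _ _ _)
    refine Nat.cast_le.2 (card_le_card fun s hs => ?_)
    rw [mem_filter, mem_filter] at hs
    exact mem_filter.2 ⟨mem_univ _, hs.2⟩
  refine h2.trans ?_
  refine (mul_le_mul_of_nonneg_right (count_K (n := n) (lam := lam) h hi' hS.1)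
    (rn_nonneg _ _ _ _)).trans (le_of_eq ?_)
  ring

end events

end MP76b19e.Rob
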