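import Pool.Agent.Lib.MP76b19e.Rob.StarK

/-!
# The masses of the decomposition by the last elements (problem MP_76b19e_co)

`K = Bl Y lev i (l + 1) \ S`, `T = Kl Y lev i`. `mK_eq`: `mK lam D` is the sum of `push (mY) S B` over the
sets `B ⊆ K` with `mn lam B = D`, plus the number of pendants of `u` if `D = {u}`, `lam u < l`.
`card_Qk`, `card_Nk`: the sizes of the sets of a cluster.
-/

set_option autoImplicit false

open Finset

namespace MP76b19e.Rob

section

variable {V : Type} [DecidableEq V] [Fintype V] {F : SimpleGraph V} {W Y S : Finset V}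
  {X : ℕ → Finset V} {lev lam : V → ℕ} {l i : ℕ}

open Classical in
/-- the number of pendants -/
noncomputable def pe (F : SimpleGraph V) (W Y : Finset V) (u : V) : ℝ :=
  ((univ.filter fun v => v ∉ W ∧ dn F Y v = {u}).card : ℝ)

theorem pe_nonneg (u : V) : 0 ≤ pe F W Y u := Nat.cast_nonneg _

/-- the vertices dominated by the lower elements -/
theorem not_CN_iff (h : Lv F W Y X lev) (hl : ∀ v ∈ W, lev v ≤ l) (v : V) :
    v ∉ CN F (Kl Y lev i) ↔ dn F Y v ⊆ Bl Y lev i (l + 1) := by
  constructor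
  · intro h1 k hk
    rw [mem_dn] at hk
    rcases Y_cases (i := i) h hl hk.1 with h2 | h2
    · exact absurd (mem_CN.2 ⟨k, h2, hk.2⟩) h1
    · exact h2
  · intro h1 h2
    obtain ⟨x, hx, h3⟩ := mem_CN.1 h2
    have h4 := mem_Kl.1 hx
    have h5 := mem_Bl.1 (h1 (mem_dn.2 ⟨h4.1, h3⟩))
    omega

/-- the masses seen outside `S` -/
theorem push_eq (h : Lv F W Y X lev) (hl : ∀ v ∈ W, lev v ≤ l)
    (hS : S ⊆ Bl Y lev i (l + 1)) {B : Finset V} (hB : B ⊆ Bl Y lev i (l + 1) \ S) :
    push (mY F W Y) S B = ((W.filter fun v => v ∉ CN F (Kl Y lev i) ∧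
      dn F (Bl Y lev i (l + 1) \ S) v = B).card : ℝ) := by
  classical
  set K := Bl Y lev i (l + 1) \ S with hK
  have hSY : S ⊆ Y := fun v hv => (mem_Bl.1 (hS hv)).1
  have hKY : K ⊆ Y := fun v hv => (mem_Bl.1 (mem_sdiff.1 hv).1).1
  have hKS : Disjoint K S := disjoint_sdiff_self_left
  unfold push mY
  rw [← Nat.cast_sum]
  congr 1
  rw [card_eq_sum_card_fiberwise (f := fun v => dn F S v) (t := S.powerset)]
  · refine sum_congr rfl fun E hE => ?_
    rw [mem_powerset] at hE
    congr 1
    ext v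
    rw [mem_filter, mem_filter, mem_filter]
    constructor
    · rintro ⟨h1, h2⟩
      have hout : v ∉ CN F (Kl Y lev i) := by
        rw [not_CN_iff h hl v, h2]
        exact union_subset (hB.trans sdiff_subset) (hE.trans hS)
      refine ⟨⟨h1, hout, ?_⟩, ?_⟩
      · ext k
        rw [mem_dn]
        constructor
        · rintro ⟨h3, h4⟩
          have h5 : k ∈ dn F Y v := mem_dn.2 ⟨hKY h3, h4⟩
          rw [h2] at h5
          rcases mem_union.1 h5 with h6 | h6
          · exact h6
          · exact absurd (hE h6) (disjoint_left.1 hKS h3)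
        · intro h3
          have h5 : k ∈ dn F Y v := by
            rw [h2]
            exact mem_union_left _ h3
          exact ⟨hB h3, (mem_dn.1 h5).2⟩
      · ext k
        rw [mem_dn]
        constructor
        · rintro ⟨h3, h4⟩
          have h5 : k ∈ dn F Y v := mem_dn.2 ⟨hSY h3, h4⟩
          rw [h2] at h5
          rcases mem_union.1 h5 with h6 | h6
          · exact absurd h3 (disjoint_left.1 hKS (hB h6))
          · exact h6
        · intro h3
          have h5 : k ∈ dn F Y v := by
            rw [h2]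
            exact mem_union_right _ h3
          exact ⟨hE h3, (mem_dn.1 h5).2⟩
    · rintro ⟨⟨h1, h2, h3⟩, h4⟩
      refine ⟨h1, ?_⟩
      rw [← h3, ← h4]
      ext k
      rw [mem_union, mem_dn, mem_dn, mem_dn]
      constructor
      · rintro ⟨h5, h6⟩
        have h7 := (not_CN_iff h hl v).1 h2 (mem_dn.2 ⟨h5, h6⟩)
        by_cases h8 : k ∈ S
        · exact Or.inr ⟨h8, h6⟩
        · exact Or.inl ⟨mem_sdiff.2 ⟨h7, h8⟩, h6⟩
      · rintro (⟨h5, h6⟩ | ⟨h5, h6⟩)
        · exact ⟨hKY h5, h6⟩
        · exact ⟨hSY h5, h6⟩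
  · intro v _
    refine mem_coe.2 (mem_powerset.2 fun k hk => (mem_dn.1 hk).1)

omit [Fintype V] in
theorem dn_K_self (hY : ∀ x ∈ Y, ∀ y ∈ Y, ¬ F.Adj x y) {K : Finset V} (hK : K ⊆ Y) {v : V}
    (hv : v ∈ K) : dn F K v = {v} :=
  dn_self (fun x hx y hy => hY x (hK hx) y (hK hy)) hv

omit [DecidableEq V] [Fintype V] in
theorem mn_singleton (u : V) : mn lam {u} = {u} := by
  ext w
  rw [mem_mn, mem_singleton]
  constructor
  · exact fun h => h.1
  · rintro rfl
    exact ⟨rfl, fun x hx => by rw [mem_singleton.1 hx]⟩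

/-- the masses -/
theorem mK_eq (h : Lv F W Y X lev) (hl : ∀ v ∈ W, lev v ≤ l)
    (hp : ∀ v, v ∉ W → (dn F Y v).card ≤ 1)
    (hS : S ⊆ Bl Y lev i (l + 1)) {D : Finset V} (hD : D ⊆ Bl Y lev i (l + 1) \ S) :
    mK F W (Kl Y lev i) (Bl Y lev i (l + 1) \ S) lam l D =
      ∑ B ∈ (Bl Y lev i (l + 1) \ S).powerset.filter (fun B => mn lam B = D),
        push (mY F W Y) S B +
      ∑ u ∈ (Bl Y lev i (l + 1) \ S).filter (fun u => lam u < l),
        if D = {u} then pe F W Y u else 0 := by
  classical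
  set K := Bl Y lev i (l + 1) \ S with hK
  set T := Kl Y lev i with hT
  have hKY : K ⊆ Y := fun v hv => (mem_Bl.1 (mem_sdiff.1 hv).1).1
  have hKT : ∀ u ∈ K, u ∉ CN F T := fun u hu => Bl_out h (mem_sdiff.1 hu).1
  -- the vertices of `W`
  have h1 : ∑ B ∈ K.powerset.filter (fun B => mn lam B = D), push (mY F W Y) S B =
      ((W.filter fun v => v ∉ CN F T ∧ mn lam (dn F K v) = D).card : ℝ) := by
    rw [card_eq_sum_card_fiberwise (f := fun v => dn F K v)
      (t := K.powerset.filter (fun B => mn lam B = D))]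
    · push_cast
      refine sum_congr rfl fun B hB => ?_
      rw [mem_filter, mem_powerset] at hB
      rw [push_eq h hl hS hB.1]
      congr 2
      ext v
      rw [mem_filter, mem_filter, mem_filter]
      constructor
      · rintro ⟨h2, h3, h4⟩
        exact ⟨⟨h2, h3, by rw [h4]; exact hB.2⟩, h4⟩
      · rintro ⟨⟨h2, h3, _⟩, h4⟩
        exact ⟨h2, h3, h4⟩
    · intro v hv
      rw [mem_coe, mem_filter] at hv
      exact mem_coe.2 (mem_filter.2 ⟨mem_powerset.2 fun k hk => (mem_dn.1 hk).1, hv.2.2⟩)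
  -- the pendants
  have h2 : ∑ u ∈ K.filter (fun u => lam u < l), (if D = {u} then pe F W Y u else 0) =
      ((univ.filter fun v => v ∉ W ∧ ∃ u ∈ K, lam u < l ∧ D = {u} ∧ dn F Y v = {u}).card : ℝ) := by
    by_cases h3 : ∃ u ∈ K, lam u < l ∧ D = {u}
    · obtain ⟨u, huK, hul, huD⟩ := h3
      rw [sum_eq_single u]
      · rw [if_pos huD]
        unfold pe
        congr 2
        ext v
        rw [mem_filter, mem_filter]
        constructor
        · rintro ⟨h4, h5, h6⟩
          exact ⟨h4, h5, u, huK, hul, huD, h6⟩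
        · rintro ⟨h4, h5, u', _, _, h6, h7⟩
          refine ⟨h4, h5, ?_⟩
          rw [h7, ← h6, huD]
      · intro u' _ hne
        rw [if_neg]
        intro h4
        rw [huD] at h4
        exact hne (singleton_inj.1 h4).symm
      · intro h4
        exact absurd (mem_filter.2 ⟨huK, hul⟩) h4
    · rw [sum_eq_zero]
      · symm
        rw [Nat.cast_eq_zero, card_eq_zero, filter_eq_empty_iff]
        rintro v _ ⟨_, u, huK, hul, huD, _⟩
        exact h3 ⟨u, huK, hul, huD⟩
      · intro u hu
        rw [mem_filter] at hu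
        rw [if_neg fun h4 => h3 ⟨u, hu.1, hu.2, h4⟩]
  -- the elements of `K`
  have h3 : ((K.filter fun v => ({v} : Finset V) = D).card : ℝ) =
      if D.card = 1 then 1 else 0 := by
    split_ifs with h4
    · obtain ⟨k, hk⟩ := card_eq_one.1 h4
      have h5 : (K.filter fun v => ({v} : Finset V) = D) = {k} := by
        ext v
        rw [mem_filter, mem_singleton, hk, singleton_inj]
        constructor
        · exact fun h6 => h6.2
        · rintro rfl
          refine ⟨hD ?_, rfl⟩
          rw [hk]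
          exact mem_singleton_self _
      rw [h5, card_singleton]
      simp
    · rw [Nat.cast_eq_zero, card_eq_zero, filter_eq_empty_iff]
      intro v _ h5
      rw [← h5] at h4
      exact h4 (card_singleton v)
  have h4 : W.filter (fun v => v ∉ CN F T ∧ mn lam (dn F K v) = D) =
      (W.filter fun v => v ∉ K ∧ v ∉ CN F T ∧ mn lam (dn F K v) = D) ∪
        K.filter fun v => ({v} : Finset V) = D := by
    ext v
    rw [mem_union, mem_filter, mem_filter, mem_filter]
    constructor
    · rintro ⟨h5, h6, h7⟩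
      by_cases h8 : v ∈ K
      · right
        rw [dn_K_self h.indep hKY h8, mn_singleton] at h7
        exact ⟨h8, h7⟩
      · exact Or.inl ⟨h5, h8, h6, h7⟩
    · rintro (⟨h5, _, h6, h7⟩ | ⟨h5, h6⟩)
      · exact ⟨h5, h6, h7⟩
      · refine ⟨h.Y_sub (hKY h5), hKT v h5, ?_⟩
        rw [dn_K_self h.indep hKY h5, mn_singleton]
        exact h6
  have h5 : (Rk F W T K lam l).filter (fun v => mn lam (dn F K v) = D) =
      (W.filter fun v => v ∉ K ∧ v ∉ CN F T ∧ mn lam (dn F K v) = D) ∪
        (univ.filter fun v => v ∉ W ∧ ∃ u ∈ K, lam u < l ∧ D = {u} ∧ dn F Y v = {u}) := by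
    ext v
    rw [mem_union, mem_filter, mem_filter, mem_filter, mem_Rk]
    constructor
    · rintro ⟨⟨h6, h7, h8⟩, h9⟩
      by_cases hvW : v ∈ W
      · exact Or.inl ⟨hvW, h6, h7, h9⟩
      · right
        rcases h8 with h8 | ⟨u, hu, hul⟩
        · exact absurd h8 hvW
        · have h10 := mem_dn.1 hu
          have h11 : dn F Y v = {u} := by
            have h12 : u ∈ dn F Y v := mem_dn.2 ⟨hKY h10.1, h10.2⟩
            have h13 : ({u} : Finset V) ⊆ dn F Y v := singleton_subset_iff.2 h12
            refine (eq_of_subset_of_card_le h13 ?_).symm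
            rw [card_singleton]
            exact hp v hvW
          have h12 : dn F K v = {u} := by
            refine Subset.antisymm (fun k hk => ?_) (singleton_subset_iff.2 hu)
            rw [mem_dn] at hk
            rw [← h11]
            exact mem_dn.2 ⟨hKY hk.1, hk.2⟩
          rw [h12, mn_singleton] at h9
          exact ⟨mem_univ v, hvW, u, h10.1, hul, h9.symm, h11⟩
    · rintro (⟨h6, h7, h8, h9⟩ | ⟨_, h6, u, huK, hul, huD, h7⟩)
      · exact ⟨⟨h7, h8, Or.inl h6⟩, h9⟩
      · have hu : u ∈ dn F Y v := by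
          rw [h7]
          exact mem_singleton_self u
        have hu' := (mem_dn.1 hu).2
        have h8 : dn F K v = {u} := by
          refine Subset.antisymm (fun k hk => ?_)
            (singleton_subset_iff.2 (mem_dn.2 ⟨huK, hu'⟩))
          rw [mem_dn] at hk
          rw [← h7]
          exact mem_dn.2 ⟨hKY hk.1, hk.2⟩
        refine ⟨⟨fun h9 => h6 (h.Y_sub (hKY h9)), ?_, Or.inr ⟨u, ?_, hul⟩⟩, ?_⟩
        · rw [hT, not_CN_iff h hl v, h7]
          exact singleton_subset_iff.2 (mem_sdiff.1 huK).1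
        · rw [h8]
          exact mem_singleton_self u
        · rw [h8, mn_singleton, huD]
  have hd1 : Disjoint (W.filter fun v => v ∉ K ∧ v ∉ CN F T ∧ mn lam (dn F K v) = D)
      (K.filter fun v => ({v} : Finset V) = D) := by
    rw [disjoint_left]
    intro v hv hv'
    exact (mem_filter.1 hv).2.1 (mem_filter.1 hv').1
  have hd2 : Disjoint (W.filter fun v => v ∉ K ∧ v ∉ CN F T ∧ mn lam (dn F K v) = D)
      (univ.filter fun v => v ∉ W ∧ ∃ u ∈ K, lam u < l ∧ D = {u} ∧ dn F Y v = {u}) := by
    rw [disjoint_left]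
    intro v hv hv'
    exact (mem_filter.1 hv').2.1 (mem_filter.1 hv).1
  rw [h1, h2, h4, card_union_of_disjoint hd1]
  unfold mK
  rw [h5, card_union_of_disjoint hd2]
  push_cast
  rw [h3]
  ring

/-- the base -/
theorem mK_empty (h : Lv F W Y X lev) (hl : ∀ v ∈ W, lev v ≤ l)
    (hp : ∀ v, v ∉ W → (dn F Y v).card ≤ 1) (hS : S ⊆ Bl Y lev i (l + 1)) :
    mK F W (Kl Y lev i) (Bl Y lev i (l + 1) \ S) lam l ∅ = pal (mY F W Y) S := by
  classical
  rw [mK_eq h hl hp hS (empty_subset _)]
  have h1 : (Bl Y lev i (l + 1) \ S).powerset.filter (fun B => mn lam B = ∅) = {∅} := by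
    ext B
    rw [mem_filter, mem_powerset, mn_eq_empty, mem_singleton]
    exact ⟨fun h2 => h2.2, fun h2 => ⟨by rw [h2]; exact empty_subset _, h2⟩⟩
  rw [h1, sum_singleton, sum_eq_zero, add_zero]
  · unfold push pal
    exact sum_congr rfl fun E _ => by rw [empty_union]
  · intro u _
    rw [if_neg (singleton_ne_empty u).symm]

/-- the number of forced vertices -/
theorem card_Qk {T K : Finset V} {A : Finset V} (hA : A ⊆ K) :
    ((Qk F W T K lam l A).card : ℝ) = pal (mK F W T K lam l) A - mK F W T K lam l ∅ := by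
  classical
  set R := Rk F W T K lam l with hR
  set D : V → Finset V := fun v => mn lam (dn F K v) with hD
  have hd : Disjoint A (R.filter fun v => (D v).Nonempty ∧ D v ⊆ A) := by
    rw [disjoint_left]
    intro v hv hv'
    exact (mem_Rk.1 (mem_filter.1 hv').1).1 (hA hv)
  have h1 : ((Qk F W T K lam l A).card : ℝ) = (A.card : ℝ) +
      ((R.filter fun v => (D v).Nonempty ∧ D v ⊆ A).card : ℝ) := by
    unfold Qk Qc
    rw [card_union_of_disjoint hd]
    push_cast
    rfl
  have h5 : ((R.filter fun v => (D v).Nonempty ∧ D v ⊆ A).card : ℝ) =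
      ∑ B ∈ A.powerset.erase ∅, ((R.filter fun v => D v = B).card : ℝ) := by
    rw [← Nat.cast_sum]
    congr 1
    rw [card_eq_sum_card_fiberwise (f := D) (t := A.powerset.erase ∅)]
    · refine sum_congr rfl fun B hB => ?_
      congr 1
      ext v
      rw [mem_erase, mem_powerset] at hB
      rw [mem_filter, mem_filter, mem_filter]
      constructor
      · rintro ⟨⟨h5, _⟩, h6⟩
        exact ⟨h5, h6⟩
      · rintro ⟨h5, h6⟩
        refine ⟨⟨h5, ?_, ?_⟩, h6⟩
        · rw [h6]
          exact nonempty_iff_ne_empty.2 hB.1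
        · rw [h6]
          exact hB.2
    · intro v hv
      have h5 := (mem_filter.1 (mem_coe.1 hv)).2
      exact mem_coe.2 (mem_erase.2 ⟨h5.1.ne_empty, mem_powerset.2 h5.2⟩)
  have h6 : (A.card : ℝ) = ∑ B ∈ A.powerset.erase ∅,
      (if B.card = 1 then (1 : ℝ) else 0) := by
    rw [← sum_filter, sum_const, nsmul_eq_mul, mul_one]
    congr 1
    have h7 : (A.powerset.erase ∅).filter (fun B => B.card = 1) =
        A.powersetCard 1 := by
      ext B
      rw [mem_filter, mem_erase, mem_powerset, mem_powersetCard]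
      constructor
      · rintro ⟨⟨_, h8⟩, h9⟩
        exact ⟨h8, h9⟩
      · rintro ⟨h8, h9⟩
        refine ⟨⟨?_, h8⟩, h9⟩
        rintro rfl
        exact absurd h9 (by simp)
    rw [h7, card_powersetCard, Nat.choose_one_right]
  have h7 : pal (mK F W T K lam l) A - mK F W T K lam l ∅ =
      ∑ B ∈ A.powerset.erase ∅, mK F W T K lam l B := by
    unfold pal
    rw [← add_sum_erase A.powerset (mK F W T K lam l) (empty_mem_powerset A)]
    ring
  rw [h7, h1, h5, h6, ← sum_add_distrib]
  refine sum_congr rfl fun B _ => ?_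
  unfold mK
  ring

/-- the number of the vertices of a cluster -/
theorem card_Nk (h : Lv F W Y X lev) (hl : ∀ v ∈ W, lev v ≤ l)
    (hp : ∀ v, v ∉ W → (dn F Y v).card ≤ 1)
    {A : Finset V} (hA : A ⊆ Bl Y lev i (l + 1) \ S) :
    ((Nk F (Kl Y lev i) (Bl Y lev i (l + 1) \ S) lam A).card : ℝ) =
      ∑ D ∈ (Bl Y lev i (l + 1) \ S).powerset.filter (fun D => (D ∩ A).Nonempty),
        mK F W (Kl Y lev i) (Bl Y lev i (l + 1) \ S) lam l D +
      ∑ u ∈ A.filter (fun u => l ≤ lam u), pe F W Y u := by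
  classical
  set K := Bl Y lev i (l + 1) \ S with hK
  set T := Kl Y lev i with hT
  have hKY : K ⊆ Y := fun v hv => (mem_Bl.1 (mem_sdiff.1 hv).1).1
  have hKT : ∀ u ∈ K, u ∉ CN F T := fun u hu => Bl_out h (mem_sdiff.1 hu).1
  have h1 : Nk F T K lam A = A ∪ (((Rk F W T K lam l).filter fun v =>
      (mn lam (dn F K v) ∩ A).Nonempty) ∪
        (A.filter fun u => l ≤ lam u).biUnion fun u =>
          univ.filter fun v => v ∉ W ∧ dn F Y v = {u}) := by
    ext v
    rw [mem_Nk, mem_union, mem_union, mem_filter, mem_biUnion, mem_Rk]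
    constructor
    · rintro (h2 | ⟨h2, h3, h4⟩)
      · exact Or.inl h2
      · right
        by_cases h5 : v ∈ W ∨ ∃ u ∈ dn F K v, lam u < l
        · exact Or.inl ⟨⟨h2, h3, h5⟩, h4⟩
        · right
          push Not at h5
          obtain ⟨u, hu⟩ := h4
          rw [mem_inter] at hu
          have hud := mn_sub hu.1
          have h6 := mem_dn.1 hud
          refine ⟨u, mem_filter.2 ⟨hu.2, h5.2 u hud⟩, mem_filter.2 ⟨mem_univ v, h5.1, ?_⟩⟩
          have h7 : ({u} : Finset V) ⊆ dn F Y v :=
            singleton_subset_iff.2 (mem_dn.2 ⟨hKY h6.1, h6.2⟩)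
          refine (eq_of_subset_of_card_le h7 ?_).symm
          rw [card_singleton]
          exact hp v h5.1
    · rintro (h2 | ⟨⟨h2, h3, _⟩, h4⟩ | ⟨u, hu, hv⟩)
      · exact Or.inl h2
      · exact Or.inr ⟨h2, h3, h4⟩
      · right
        rw [mem_filter] at hu hv
        have huK := hA hu.1
        have hud : u ∈ dn F Y v := by
          rw [hv.2.2]
          exact mem_singleton_self u
        have h8 : dn F K v = {u} := by
          refine Subset.antisymm (fun k hk => ?_)
            (singleton_subset_iff.2 (mem_dn.2 ⟨huK, (mem_dn.1 hud).2⟩))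
          rw [mem_dn] at hk
          rw [← hv.2.2]
          exact mem_dn.2 ⟨hKY hk.1, hk.2⟩
        refine ⟨fun h9 => hv.2.1 (h.Y_sub (hKY h9)), ?_, ?_⟩
        · rw [hT, not_CN_iff h hl v, hv.2.2]
          exact singleton_subset_iff.2 (mem_sdiff.1 huK).1
        · rw [h8, mn_singleton]
          exact ⟨u, mem_inter.2 ⟨mem_singleton_self u, hu.1⟩⟩
  have hd1 : Disjoint A (((Rk F W T K lam l).filter fun v =>
      (mn lam (dn F K v) ∩ A).Nonempty) ∪
        (A.filter fun u => l ≤ lam u).biUnion fun u =>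
          univ.filter fun v => v ∉ W ∧ dn F Y v = {u}) := by
    rw [disjoint_left]
    intro v hv hv'
    rcases mem_union.1 hv' with h2 | h2
    · exact (mem_Rk.1 (mem_filter.1 h2).1).1 (hA hv)
    · obtain ⟨u, _, h3⟩ := mem_biUnion.1 h2
      exact (mem_filter.1 h3).2.1 (h.Y_sub (hKY (hA hv)))
  have hd2 : Disjoint ((Rk F W T K lam l).filter fun v => (mn lam (dn F K v) ∩ A).Nonempty)
      ((A.filter fun u => l ≤ lam u).biUnion fun u =>
          univ.filter fun v => v ∉ W ∧ dn F Y v = {u}) := by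
    rw [disjoint_left]
    intro v hv hv'
    obtain ⟨u, hu, h3⟩ := mem_biUnion.1 hv'
    rw [mem_filter] at h3 hu
    rcases (mem_Rk.1 (mem_filter.1 hv).1).2.2 with h4 | ⟨w, hw, h4⟩
    · exact h3.2.1 h4
    · rw [mem_dn] at hw
      have h5 : w ∈ dn F Y v := mem_dn.2 ⟨hKY hw.1, hw.2⟩
      rw [h3.2.2, mem_singleton] at h5
      rw [h5] at h4
      omega
  have h2 : (((A.filter fun u => l ≤ lam u).biUnion fun u =>
          univ.filter fun v => v ∉ W ∧ dn F Y v = {u}).card : ℝ) =
      ∑ u ∈ A.filter (fun u => l ≤ lam u), pe F W Y u := by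
    rw [card_biUnion]
    · push_cast
      rfl
    · intro u _ u' _ hne
      rw [Function.onFun, disjoint_left]
      intro v hv hv'
      rw [mem_filter] at hv hv'
      rw [hv.2.2] at hv'
      exact hne (singleton_inj.1 hv'.2.2)
  have h3 : (((Rk F W T K lam l).filter fun v => (mn lam (dn F K v) ∩ A).Nonempty).card : ℝ) =
      ∑ D ∈ K.powerset.filter (fun D => (D ∩ A).Nonempty),
        (((Rk F W T K lam l).filter fun v => mn lam (dn F K v) = D).card : ℝ) := by
    rw [← Nat.cast_sum]
    congr 1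
    rw [card_eq_sum_card_fiberwise (f := fun v => mn lam (dn F K v))
      (t := K.powerset.filter (fun D => (D ∩ A).Nonempty))]
    · refine sum_congr rfl fun B hB => ?_
      congr 1
      ext v
      rw [mem_filter, mem_powerset] at hB
      rw [mem_filter, mem_filter, mem_filter]
      constructor
      · rintro ⟨⟨h5, _⟩, h6⟩
        exact ⟨h5, h6⟩
      · rintro ⟨h5, h6⟩
        exact ⟨⟨h5, by rw [h6]; exact hB.2⟩, h6⟩
    · intro v hv
      have h5 := (mem_filter.1 (mem_coe.1 hv)).2
      exact mem_coe.2 (mem_filter.2 ⟨mem_powerset.2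
        (mn_sub.trans fun k hk => (mem_dn.1 hk).1), h5⟩)
  have h4 : (A.card : ℝ) = ∑ D ∈ K.powerset.filter (fun D => (D ∩ A).Nonempty),
      (if D.card = 1 then (1 : ℝ) else 0) := by
    rw [← sum_filter, sum_const, nsmul_eq_mul, mul_one]
    congr 1
    have h7 : (K.powerset.filter (fun D => (D ∩ A).Nonempty)).filter (fun B => B.card = 1) =
        A.powersetCard 1 := by
      ext B
      rw [mem_filter, mem_filter, mem_powerset, mem_powersetCard]
      constructor
      · rintro ⟨⟨_, h8⟩, h9⟩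
        obtain ⟨k, hk⟩ := card_eq_one.1 h9
        obtain ⟨x, hx⟩ := h8
        rw [hk, mem_inter, mem_singleton] at hx
        rw [hk]
        refine ⟨singleton_subset_iff.2 ?_, card_singleton k⟩
        rw [← hx.1]
        exact hx.2
      · rintro ⟨h8, h9⟩
        refine ⟨⟨h8.trans hA, ?_⟩, h9⟩
        rw [inter_eq_left.2 h8]
        exact card_pos.1 (by omega)
    rw [h7, card_powersetCard, Nat.choose_one_right]
  rw [h1, card_union_of_disjoint hd1, card_union_of_disjoint hd2]
  push_cast
  rw [h2, h3, h4, ← add_assoc, ← sum_add_distrib]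
  congr 1
  refine sum_congr rfl fun B _ => ?_
  unfold mK
  ring

end

end MP76b19e.Rob
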