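import Pool.Agent.Lib.MP76b19e.Rob.Indep
import Pool.Agent.Lib.MP76b19e.Rob.LinkL

/-!
# The decomposition by the elements that are not robust (problem MP_76b19e_co)

`Y` is a maximal independent set of `W`, `i` is the start of the last block, `Kl` its elements of
level less than `i`, `i ≤ k < l`. `star_iff`: the orders with greedy set `Y`, with the right robust
sets at the zeros, and with the robust set `Kl ∪ R` at level `k`. Such an order consists of an order
of the vertices dominated by `Kl ∪ R` and an order of the other vertices (`star_count`), in which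
every element of `J = Bl i (k + 1) \ R` is preceded by one of its neighbours (`Lo`). `LV` is the
proportion of the orders of the second kind. `LV_step`: a cluster `A` of `J` multiplies the
proportion by at most `1 - w(A) / c(A)`.
-/

set_option autoImplicit false

open Finset

namespace MP76b19e.Rob

section lost

variable {V : Type} {n : ℕ}

/-- every element of `J` is preceded by one of its neighbours outside `C` -/
def Lo (F : SimpleGraph V) (C J : Finset V) (s : V ≃ Fin n) : Prop :=
  ∀ u ∈ J, ∃ v, v ∉ C ∧ F.Adj v u ∧ s v < s u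

theorem Lo_mono {F : SimpleGraph V} {C J J' : Finset V} {s : V ≃ Fin n} (hJ : J' ⊆ J)
    (h : Lo F C J s) : Lo F C J' s := fun u hu => h u (hJ hu)

variable [DecidableEq V]

/-- the standing assumptions on a system of events -/
structure Sy (F : SimpleGraph V) (R : Finset V) (D : V → Finset V) (C S : Finset V) : Prop where
  disj : ∀ v ∈ R, v ∉ S
  ne : ∀ v ∈ R, D v ⊆ S → (D v).Nonempty
  out : ∀ v ∈ R, D v ⊆ S → v ∉ C
  S_out : ∀ u ∈ S, u ∉ C
  ind : ∀ x ∈ S, ∀ y ∈ S, ¬ F.Adj x y
  adj : ∀ v ∈ R, D v ⊆ S → ∀ k ∈ S, (k ∈ D v ↔ F.Adj v k)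

omit [DecidableEq V] in
theorem Sy.erase {F : SimpleGraph V} {R : Finset V} {D : V → Finset V} {C S S' : Finset V}
    (h : Sy F R D C S) (hS : S' ⊆ S) : Sy F R D C S' :=
  ⟨fun v hv h1 => h.disj v hv (hS h1), fun v hv h1 => h.ne v hv (h1.trans hS),
    fun v hv h1 => h.out v hv (h1.trans hS), fun u hu => h.S_out u (hS hu),
    fun x hx y hy => h.ind x (hS hx) y (hS hy),
    fun v hv h1 k hk => h.adj v hv (h1.trans hS) k (hS hk)⟩

variable [Fintype V]

open Classical in
/-- the proportion of the orders in which every `v ∈ R` with `D v ⊆ S` is preceded by an element of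
`D v` and every `u ∈ J` is preceded by one of its neighbours outside `C` -/
noncomputable def LV (F : SimpleGraph V) (n : ℕ) (R : Finset V) (D : V → Finset V)
    (C S J : Finset V) : ℝ :=
  ((univ.filter fun s : V ≃ Fin n => Ev R D S s ∧ Lo F C J s).card : ℝ) /
    (Fintype.card (V ≃ Fin n) : ℝ)

variable {F : SimpleGraph V} {R : Finset V} {D : V → Finset V} {C S J A : Finset V}
  {m : Finset V → ℝ}

theorem LV_nonneg : 0 ≤ LV F n R D C S J := div_nonneg (Nat.cast_nonneg _) (Nat.cast_nonneg _)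

open Classical in
theorem LV_mul : LV F n R D C S J * (Fintype.card (V ≃ Fin n) : ℝ) =
    ((univ.filter fun s : V ≃ Fin n => Ev R D S s ∧ Lo F C J s).card : ℝ) := by
  unfold LV
  rcases Nat.eq_zero_or_pos (Fintype.card (V ≃ Fin n)) with h0 | h0
  · have h1 : (univ.filter fun s : V ≃ Fin n => Ev R D S s ∧ Lo F C J s) = ∅ := by
      rw [Fintype.card_eq_zero_iff] at h0
      ext s
      exact h0.elim s
    rw [h1, h0]
    simp
  · rw [div_mul_cancel₀]
    exact_mod_cast h0.ne'

open Classical in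
/-- the event is independent of the order of the other vertices -/
theorem lo_sum (h : Sy F R D C S) (hJ : J ⊆ S) (G : (V ≃ Fin n) → ℝ)
    (hG : ∀ s : V ≃ Fin n, ∀ a b, a ∉ C → b ∉ C → G (sw s a b) = G s) :
    ∑ s ∈ univ.filter (fun s : V ≃ Fin n => Ev R D S s ∧ Lo F C J s), G s =
      LV F n R D C S J * ∑ s : V ≃ Fin n, G s := by
  have key : ∀ s s' : V ≃ Fin n, (∀ a ∈ univ.filter (fun v => v ∉ C),
      ∀ b ∈ univ.filter (fun v => v ∉ C), (s a < s b ↔ s' a < s' b)) →
      (Ev R D S s ∧ Lo F C J s) → (Ev R D S s' ∧ Lo F C J s') := by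
    intro s s' hss
    have h0 : ∀ a b, a ∉ C → b ∉ C → (s a < s b ↔ s' a < s' b) := fun a b ha hb =>
      hss a (mem_filter.2 ⟨mem_univ _, ha⟩) b (mem_filter.2 ⟨mem_univ _, hb⟩)
    rintro ⟨h1, h2⟩
    refine ⟨fun v hv hDv => ?_, fun u hu => ?_⟩
    · obtain ⟨h3, h4⟩ := h1 v hv hDv
      have hvC := h.out v hv hDv
      refine ⟨fun h5 k hk => (h0 k v (h.S_out k hk) hvC).1 (h3 h5 k hk), fun h5 => ?_⟩
      obtain ⟨k, hk, h6⟩ := h4 h5
      exact ⟨k, hk, (h0 k v (h.S_out k (hDv hk)) hvC).1 h6⟩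
    · obtain ⟨v, hvC, hadj, hlt⟩ := h2 u hu
      exact ⟨v, hvC, hadj, (h0 v u hvC (h.S_out u (hJ hu))).1 hlt⟩
  have h1 := indep (univ.filter fun v => v ∉ C)
    (fun s : V ≃ Fin n => if Ev R D S s ∧ Lo F C J s then (1 : ℝ) else 0) G
    (fun s a ha b hb => hG s a b (mem_filter.1 ha).2 (mem_filter.1 hb).2)
    (fun s s' hss => by
      have h2 := key s s' hss
      have h3 := key s' s (fun a ha b hb => (hss a ha b hb).symm)
      by_cases h4 : Ev R D S s ∧ Lo F C J s
      · rw [if_pos h4, if_pos (h2 h4)]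
      · rw [if_neg h4, if_neg fun h5 => h4 (h3 h5)])
  have h2 : ∑ s : V ≃ Fin n, (if Ev R D S s ∧ Lo F C J s then (1 : ℝ) else 0) =
      ((univ.filter fun s : V ≃ Fin n => Ev R D S s ∧ Lo F C J s).card : ℝ) := by
    rw [← sum_filter, sum_const, nsmul_eq_mul, mul_one]
  have h3 : ∑ s ∈ univ.filter (fun s : V ≃ Fin n => Ev R D S s ∧ Lo F C J s), G s =
      ∑ s : V ≃ Fin n, (if Ev R D S s ∧ Lo F C J s then (1 : ℝ) else 0) * G s := by
    rw [sum_filter]
    refine sum_congr rfl fun s _ => ?_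
    split_ifs
    · rw [one_mul]
    · rw [zero_mul]
  rw [h2, ← LV_mul] at h1
  rw [h3]
  rcases Nat.eq_zero_or_pos (Fintype.card (V ≃ Fin n)) with h0 | h0
  · rw [Fintype.card_eq_zero_iff] at h0
    simp
  · have h4 : (Fintype.card (V ≃ Fin n) : ℝ) ≠ 0 := by exact_mod_cast h0.ne'
    refine mul_left_cancel₀ h4 ?_
    rw [h1]
    ring

/-- no element has to be preceded by a neighbour -/
theorem LV_empty (h : Sy F R D C S) (hpm : PosM m)
    (hm : ∀ B ⊆ S, ((R.filter fun v => D v = B).card : ℝ) + (if B.card = 1 then 1 else 0) = m B) :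
    LV F n R D C S ∅ ≤ Ival m S := by
  classical
  have h1 := perm_eq (n := n) R (univ.filter fun v => v ∉ C) D m (fun _ => (1 : ℝ))
    (fun _ _ _ _ _ => rfl) S (fun v hv => mem_filter.2 ⟨mem_univ _, h.S_out v hv⟩)
    (disjoint_left.2 h.disj)
    (fun v hv hDv => ⟨mem_filter.2 ⟨mem_univ _, h.out v hv hDv⟩, h.ne v hv hDv⟩) hm
  rw [sum_const, nsmul_eq_mul, mul_one, sum_const, card_univ, nsmul_eq_mul, mul_one] at h1
  have h2 : (univ.filter fun s : V ≃ Fin n => Ev R D S s ∧ Lo F C ∅ s) =
      univ.filter fun s : V ≃ Fin n => Ev R D S s := by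
    refine filter_congr fun s _ => ?_
    exact ⟨fun h3 => h3.1, fun h3 => ⟨h3, fun u hu => absurd hu (notMem_empty u)⟩⟩
  unfold LV
  rw [h2, h1]
  rcases Nat.eq_zero_or_pos (Fintype.card (V ≃ Fin n)) with h0 | h0
  · rw [h0]
    simp only [Nat.cast_zero, mul_zero, zero_div]
    exact (Ival_pos hpm S).le
  · rw [mul_div_cancel_right₀]
    exact_mod_cast h0.ne'

open Classical in
/-- the probability that `k` is the first element of `U`, given an event that is preserved if the
successor of `k` in `U` is moved to a later place -/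
theorem first_ge (U : Finset V) {k : V} (hk : k ∈ U) (E : (V ≃ Fin n) → Prop)
    (hE : ∀ (s : V ≃ Fin n) (u : V), IsSucc s U k u → E (sw s k u) → E s) :
    (univ.filter fun s : V ≃ Fin n => E s).card ≤
      U.card * (univ.filter fun s : V ≃ Fin n => (∀ u ∈ U, u ≠ k → s k < s u) ∧ E s).card := by
  set R : ℕ → Finset (V ≃ Fin n) := fun i => univ.filter fun s => rk s U k = i ∧ E s with hR
  have hstep : ∀ i, (R (i + 1)).card ≤ (R i).card := by
    intro i
    have hex : ∀ t : V ≃ Fin n, ∃ u, rk t U k = i + 1 → IsSucc (sw t k u) U k u := by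
      intro t
      by_cases ht : rk t U k = i + 1
      · obtain ⟨u, hu⟩ := exists_pred (s := t) (U := U) (k := k) (by omega)
        exact ⟨u, fun _ => hu⟩
      · exact ⟨k, fun h => absurd h ht⟩
    choose f hf using hex
    refine card_le_card_of_injOn (fun t => sw t k (f t)) ?_ ?_
    · intro t ht
      have ht' := (mem_filter.1 (mem_coe.1 ht)).2
      have h1 := hf t ht'.1
      refine mem_coe.2 (mem_filter.2 ⟨mem_univ _, ?_, ?_⟩)
      · have h2 := rk_sw h1
        rw [sw_sw, ht'.1] at h2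
        change rk (sw t k (f t)) U k = i
        omega
      · refine hE _ (f t) h1 ?_
        rw [sw_sw]
        exact ht'.2
    · intro t ht t' ht' htt
      have h1 := hf t (mem_filter.1 (mem_coe.1 ht)).2.1
      have h2 := hf t' (mem_filter.1 (mem_coe.1 ht')).2.1
      change sw t k (f t) = sw t' k (f t') at htt
      rw [← htt] at h2
      have h3 := succ_unique h1 h2
      rw [← sw_sw (s := t) k (f t), htt, h3, sw_sw]
  have hle : ∀ i, (R i).card ≤ (R 0).card := by
    intro i
    induction i with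
    | zero => exact le_rfl
    | succ i ih => exact (hstep i).trans ih
  have h0 : (univ.filter fun s : V ≃ Fin n => (∀ u ∈ U, u ≠ k → s k < s u) ∧ E s) = R 0 := by
    ext s
    rw [hR, mem_filter, mem_filter]
    refine and_congr_right fun _ => and_congr_left fun _ => ?_
    unfold rk
    rw [card_eq_zero, filter_eq_empty_iff]
    constructor
    · intro h u hu hlt
      by_cases huk : u = k
      · rw [huk] at hlt
        exact absurd hlt (lt_irrefl _)
      · exact absurd (lt_trans hlt (h u hu huk)) (lt_irrefl _)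
    · intro h u hu huk
      rcases lt_trichotomy (s k) (s u) with h4 | h4 | h4
      · exact h4
      · exact absurd (s.injective h4).symm huk
      · exact absurd h4 (h hu)
  have hmaps : ∀ s ∈ (univ.filter fun s : V ≃ Fin n => E s), rk s U k ∈ range U.card := by
    intro s _
    rw [mem_range]
    unfold rk
    refine card_lt_card ⟨filter_subset _ _, fun hsub => ?_⟩
    exact absurd (mem_filter.1 (hsub hk)).2 (lt_irrefl _)
  rw [h0, card_eq_sum_card_fiberwise hmaps]
  calc ∑ i ∈ range U.card, ((univ.filter fun s : V ≃ Fin n => E s).filter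
        fun s => rk s U k = i).card ≤ ∑ i ∈ range U.card, (R 0).card := by
        refine sum_le_sum fun i _ => le_trans (le_of_eq ?_) (hle i)
        congr 1
        ext s
        rw [mem_filter, mem_filter, hR, mem_filter]
        exact ⟨fun h => ⟨mem_univ _, h.2, h.1.2⟩, fun h => ⟨⟨mem_univ _, h.2.2⟩, h.2.1⟩⟩
    _ = U.card * (R 0).card := by rw [sum_const, card_range, smul_eq_mul]

/-- the vertices outside `C` that meet the cluster -/
theorem mem_star {v : V} : v ∈ CN F A \ C ↔ v ∉ C ∧ (v ∈ A ∨ ∃ a ∈ A, F.Adj v a) := by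
  rw [mem_sdiff, mem_CN]
  constructor
  · rintro ⟨⟨a, ha, h1⟩, h2⟩
    refine ⟨h2, ?_⟩
    rcases h1 with h1 | h1
    · left
      rw [h1]
      exact ha
    · exact Or.inr ⟨a, ha, h1⟩
  · rintro ⟨h2, h1⟩
    refine ⟨?_, h2⟩
    rcases h1 with h1 | ⟨a, ha, h1⟩
    · exact ⟨v, h1, Or.inl rfl⟩
    · exact ⟨a, ha, Or.inr h1⟩

/-- the private vertices of the cluster belong to its star -/
theorem w_le_c (h : Sy F R D C S) (hA : A ⊆ S)
    (hm : ∀ B ⊆ S, ((R.filter fun v => D v = B).card : ℝ) + (if B.card = 1 then 1 else 0) = m B) :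
    ∑ a ∈ A, m {a} ≤ ((CN F A \ C).card : ℝ) := by
  classical
  have h1 : ∀ a ∈ A, m {a} = ((insert a (R.filter fun v => D v = {a})).card : ℝ) := by
    intro a ha
    rw [← hm {a} (singleton_subset_iff.2 (hA ha)), card_singleton, if_pos rfl,
      card_insert_of_notMem]
    · push_cast
      rfl
    · intro h2
      exact h.disj a (mem_filter.1 h2).1 (hA ha)
  rw [sum_congr rfl h1, ← Nat.cast_sum, Nat.cast_le, ← card_biUnion]
  · refine card_le_card fun v hv => ?_
    obtain ⟨a, ha, h2⟩ := mem_biUnion.1 hv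
    rw [mem_star]
    rcases mem_insert.1 h2 with h3 | h3
    · rw [h3]
      exact ⟨h.S_out a (hA ha), Or.inl ha⟩
    · rw [mem_filter] at h3
      have h4 : D v ⊆ S := by
        rw [h3.2]
        exact singleton_subset_iff.2 (hA ha)
      refine ⟨h.out v h3.1 h4, Or.inr ⟨a, ha, ?_⟩⟩
      rw [← h.adj v h3.1 h4 a (hA ha), h3.2]
      exact mem_singleton_self a
  · intro a ha b hb hab
    rw [Function.onFun, disjoint_left]
    intro v hv hv'
    rcases mem_insert.1 hv with h3 | h3
    · rcases mem_insert.1 hv' with h4 | h4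
      · exact hab (h3.symm.trans h4)
      · rw [mem_filter] at h4
        rw [h3] at h4
        exact h.disj a h4.1 (hA ha)
    · rw [mem_filter] at h3
      rcases mem_insert.1 hv' with h4 | h4
      · rw [h4] at h3
        exact h.disj b h3.1 (hA hb)
      · rw [mem_filter] at h4
        rw [h3.2] at h4
        exact hab (singleton_inj.1 h4.2)

/-- a cluster of `J` -/
theorem LV_step (h : Sy F R D C S) (hJ : J ⊆ S) (hA : A ⊆ J) (hne : A.Nonempty)
    (hsep : ∀ v, v ∉ C → ∀ a ∈ A, ∀ b ∈ J \ A, F.Adj v a → ¬ F.Adj v b)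
    (hm : ∀ B ⊆ S, ((R.filter fun v => D v = B).card : ℝ) + (if B.card = 1 then 1 else 0) = m B) :
    LV F n R D C S J ≤ (1 - (∑ a ∈ A, m {a}) / ((CN F A \ C).card : ℝ)) *
      LV F n R D C S (J \ A) := by
  classical
  set N := CN F A \ C with hN
  set J' := J \ A with hJ'
  have hJ'S : J' ⊆ S := sdiff_subset.trans hJ
  have hAS : A ⊆ S := hA.trans hJ
  have hAN : A ⊆ N := fun a ha => mem_star.2 ⟨h.S_out a (hAS ha), Or.inl ha⟩
  have hNpos : (0 : ℝ) < (N.card : ℝ) := by
    have : 0 < N.card := card_pos.2 (hne.mono hAN)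
    exact_mod_cast this
  -- the elements of `N` are not in `J'` and not adjacent to `J'`
  have hNJ : ∀ v ∈ N, ∀ u ∈ J', v ≠ u ∧ ¬ F.Adj v u := by
    intro v hv u hu
    rw [hN, mem_star] at hv
    have huJ := mem_sdiff.1 hu
    constructor
    · rintro rfl
      rcases hv.2 with h1 | ⟨a, ha, h1⟩
      · exact huJ.2 h1
      · exact h.ind v (hJ huJ.1) a (hAS ha) h1
    · intro hvu
      rcases hv.2 with h1 | ⟨a, ha, h1⟩
      · exact h.ind v (hAS h1) u (hJ huJ.1) hvu
      · exact hsep v hv.1 a ha u hu h1 hvu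
  set E : (V ≃ Fin n) → Prop := fun s => Ev R D S s ∧ Lo F C J' s with hE
  set a0 : ℝ := ((univ.filter fun s : V ≃ Fin n => E s).card : ℝ) with ha0
  -- the orders in which the first element of `N` is `a`
  have hfirst : ∀ a ∈ A, m {a} / (N.card : ℝ) * a0 ≤
      ((univ.filter fun s : V ≃ Fin n => (∀ u ∈ N, u ≠ a → s a < s u) ∧ E s).card : ℝ) := by
    intro a ha
    have haS := hAS ha
    have haC := h.S_out a haS
    set E' : (V ≃ Fin n) → Prop := fun s => Ev R D (S.erase a) s ∧ Lo F C J' s with hE'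
    -- if `a` is the first element of `N`, then the events coincide
    have h1 : (univ.filter fun s : V ≃ Fin n => (∀ u ∈ N, u ≠ a → s a < s u) ∧ E' s) ⊆
        (univ.filter fun s : V ≃ Fin n => (∀ u ∈ N, u ≠ a → s a < s u) ∧ E s) := by
      intro s hs
      rw [mem_filter] at hs ⊢
      obtain ⟨_, hf, hev, hlo⟩ := hs
      refine ⟨mem_univ _, hf, fun v hv hDv => ?_, hlo⟩
      have hnv := h.ne v hv hDv
      refine ⟨fun h0 => absurd h0 hnv.ne_empty, fun _ => ?_⟩
      by_cases haD : a ∈ D v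
      · have hadj := (h.adj v hv hDv a haS).1 haD
        refine ⟨a, haD, hf v (mem_star.2 ⟨h.out v hv hDv, Or.inr ⟨a, ha, hadj⟩⟩) ?_⟩
        rintro rfl
        exact h.disj v hv haS
      · exact (hev v hv fun k hk => mem_erase.2 ⟨fun h2 => haD (by rw [← h2]; exact hk),
          hDv hk⟩).2 hnv.ne_empty
    -- the first element of `N`
    have h2 := first_ge (n := n) N (hAN ha) E' (by
      intro s u hsu hEs
      have hua : u ≠ a := by
        rintro rfl
        exact absurd hsu.2.1 (lt_irrefl _)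
      obtain ⟨hev, hlo⟩ := hEs
      constructor
      · intro v hv hDv
        have hDvS : D v ⊆ S := hDv.trans (erase_subset _ _)
        have hnv := h.ne v hv hDvS
        refine ⟨fun h0 => absurd h0 hnv.ne_empty, fun _ => ?_⟩
        obtain ⟨k, hk, hlt⟩ := (hev v hv hDv).2 hnv.ne_empty
        refine ⟨k, hk, ?_⟩
        have hka : k ≠ a := (mem_erase.1 (hDv hk)).1
        have hva : v ≠ a := by
          rintro rfl
          exact h.disj v hv haS
        by_cases hku : k = u
        · -- `u` is an element of `A`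
          subst hku
          have hkS := hDvS hk
          have hkA : k ∈ A := by
            have h3 := hsu.1
            rw [hN, mem_star] at h3
            rcases h3.2 with h4 | ⟨b, hb, h4⟩
            · exact h4
            · exact absurd h4 (h.ind k hkS b (hAS hb))
          have hvk : v ≠ k := by
            rintro rfl
            exact h.disj v hv hkS
          rw [sw_right, sw_ne hva hvk] at hlt
          have hvN : v ∈ N := mem_star.2 ⟨h.out v hv hDvS, Or.inr ⟨k, hkA,
            (h.adj v hv hDvS k hkS).1 hk⟩⟩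
          exact lt_of_le_of_ne (hsu.2.2 v hvN hlt) fun h4 => hvk (s.injective h4.symm)
        · rw [sw_ne hka hku] at hlt
          by_cases hvu : v = u
          · subst hvu
            rw [sw_right] at hlt
            exact lt_trans hlt hsu.2.1
          · rw [sw_ne hva hvu] at hlt
            exact hlt
      · intro x hx
        obtain ⟨v, hvC, hadj, hlt⟩ := hlo x hx
        refine ⟨v, hvC, hadj, ?_⟩
        have hvN : v ∉ N := fun h3 => (hNJ v h3 x hx).2 hadj
        have hxN : x ∉ N := fun h3 => (hNJ x h3 x hx).1 rfl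
        have hne' : ∀ y, y ∉ N → sw s a u y = s y := by
          intro y hy
          apply sw_ne
          · rintro rfl
            exact hy (hAN ha)
          · rintro rfl
            exact hy hsu.1
        rw [hne' v hvN, hne' x hxN] at hlt
        exact hlt)
    -- the private vertices of `a`
    set M := insert a (R.filter fun v => D v = {a}) with hM
    have hMc : (M.card : ℝ) = m {a} := by
      rw [← hm {a} (singleton_subset_iff.2 haS), card_singleton, if_pos rfl, hM,
        card_insert_of_notMem]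
      · push_cast
        rfl
      · intro h3
        exact h.disj a (mem_filter.1 h3).1 haS
    have hMN : M ⊆ N := by
      intro v hv
      rcases mem_insert.1 hv with h3 | h3
      · rw [h3]
        exact hAN ha
      · rw [mem_filter] at h3
        have h4 : D v ⊆ S := by
          rw [h3.2]
          exact singleton_subset_iff.2 haS
        refine mem_star.2 ⟨h.out v h3.1 h4, Or.inr ⟨a, ha, ?_⟩⟩
        rw [← h.adj v h3.1 h4 a haS, h3.2]
        exact mem_singleton_self a
    have h3 := first_eq (n := n) M (mem_insert_self _ _)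
      (fun s => if E' s then (1 : ℝ) else 0) (by
        intro s u hsu
        have hua : u ≠ a := by
          rintro rfl
          exact absurd hsu.2.1 (lt_irrefl _)
        have huR : u ∈ R ∧ D u = {a} := by
          rcases mem_insert.1 hsu.1 with h4 | h4
          · exact absurd h4 hua
          · exact mem_filter.1 h4
        have huN := hMN hsu.1
        have hiff : E' (sw s a u) ↔ E' s := by
          have hfix : ∀ y, y ≠ a → y ≠ u → sw s a u y = s y := fun y h4 h5 => sw_ne h4 h5
          refine and_congr ?_ ?_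
          · refine forall_congr' fun v => forall_congr' fun hv => forall_congr' fun hDv => ?_
            have hDvS : D v ⊆ S := hDv.trans (erase_subset _ _)
            have hva : v ≠ a := by
              rintro rfl
              exact h.disj v hv haS
            have hvu : v ≠ u := by
              rintro rfl
              rw [huR.2] at hDv
              exact absurd (mem_erase.1 (hDv (mem_singleton_self a))).1 (by simp)
            have hk : ∀ k ∈ S.erase a, k ≠ a ∧ k ≠ u := by
              intro k hk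
              refine ⟨(mem_erase.1 hk).1, ?_⟩
              rintro rfl
              exact h.disj k huR.1 (mem_erase.1 hk).2
            rw [hfix v hva hvu]
            refine and_congr ?_ ?_
            · refine forall_congr' fun _ => forall_congr' fun k => forall_congr' fun hk' => ?_
              rw [hfix k (hk k hk').1 (hk k hk').2]
            · refine forall_congr' fun _ => exists_congr fun k => and_congr_right fun hk' => ?_
              rw [hfix k (hk k (hDv hk')).1 (hk k (hDv hk')).2]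
          · refine forall_congr' fun x => forall_congr' fun hx => exists_congr fun v =>
              and_congr_right fun hvC => and_congr_right fun hadj => ?_
            have hne' : ∀ y, y ∉ N → sw s a u y = s y := by
              intro y hy
              apply sw_ne
              · rintro rfl
                exact hy (hAN ha)
              · rintro rfl
                exact hy huN
            rw [hne' v fun h4 => (hNJ v h4 x hx).2 hadj, hne' x fun h4 => (hNJ x h4 x hx).1 rfl]
        simp only [hiff])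
    rw [← sum_filter, ← sum_filter, filter_filter, sum_const, sum_const, nsmul_eq_mul,
      nsmul_eq_mul, mul_one, mul_one, hMc] at h3
    -- `E` implies `E'` and that `a` is the first element of `M`
    have h4 : a0 ≤ ((univ.filter fun s : V ≃ Fin n =>
        (∀ u ∈ M, u ≠ a → s a < s u) ∧ E' s).card : ℝ) := by
      rw [ha0]
      refine Nat.cast_le.2 (card_le_card fun s hs => ?_)
      rw [mem_filter] at hs ⊢
      obtain ⟨_, hev, hlo⟩ := hs
      refine ⟨mem_univ _, fun u hu hua => ?_, fun v hv hDv => ?_, hlo⟩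
      · have huR : u ∈ R ∧ D u = {a} := by
          rcases mem_insert.1 hu with h4 | h4
          · exact absurd h4 hua
          · exact mem_filter.1 h4
        have hDS : D u ⊆ S := by
          rw [huR.2]
          exact singleton_subset_iff.2 haS
        obtain ⟨k, hk, hlt⟩ := (hev u huR.1 hDS).2 (h.ne u huR.1 hDS).ne_empty
        rw [huR.2, mem_singleton] at hk
        rw [hk] at hlt
        exact hlt
      · have hDvS : D v ⊆ S := hDv.trans (erase_subset _ _)
        exact ⟨fun h0 => absurd h0 (h.ne v hv hDvS).ne_empty, (hev v hv hDvS).2⟩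
    have h5' : (univ.filter fun s : V ≃ Fin n => E' s).card ≤ N.card *
        (univ.filter fun s : V ≃ Fin n => (∀ u ∈ N, u ≠ a → s a < s u) ∧ E' s).card := by
      convert h2
    have h5 : ((univ.filter fun s : V ≃ Fin n => E' s).card : ℝ) ≤
        (N.card : ℝ) * ((univ.filter fun s : V ≃ Fin n =>
        (∀ u ∈ N, u ≠ a → s a < s u) ∧ E' s).card : ℝ) := by exact_mod_cast h5'
    have h6 : ((univ.filter fun s : V ≃ Fin n =>
        (∀ u ∈ N, u ≠ a → s a < s u) ∧ E' s).card : ℝ) ≤
        ((univ.filter fun s : V ≃ Fin n => (∀ u ∈ N, u ≠ a → s a < s u) ∧ E s).card : ℝ) := by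
      exact_mod_cast card_le_card h1
    have hm0 : 0 ≤ m {a} := by
      rw [← hMc]
      exact Nat.cast_nonneg _
    have h7 : m {a} * a0 ≤ ((univ.filter fun s : V ≃ Fin n => E' s).card : ℝ) := by
      rw [← h3]
      exact mul_le_mul_of_nonneg_left h4 hm0
    rw [div_mul_eq_mul_div, div_le_iff₀ hNpos]
    calc m {a} * a0 ≤ ((univ.filter fun s : V ≃ Fin n => E' s).card : ℝ) := h7
      _ ≤ (N.card : ℝ) * ((univ.filter fun s : V ≃ Fin n =>
        (∀ u ∈ N, u ≠ a → s a < s u) ∧ E' s).card : ℝ) := h5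
      _ ≤ (N.card : ℝ) * ((univ.filter fun s : V ≃ Fin n =>
        (∀ u ∈ N, u ≠ a → s a < s u) ∧ E s).card : ℝ) := mul_le_mul_of_nonneg_left h6 hNpos.le
      _ = _ := mul_comm _ _
  -- the orders in which all elements of `J` are preceded
  have hmain : (univ.filter fun s : V ≃ Fin n => Ev R D S s ∧ Lo F C J s).card +
      ∑ a ∈ A, (univ.filter fun s : V ≃ Fin n => (∀ u ∈ N, u ≠ a → s a < s u) ∧ E s).card ≤
      (univ.filter fun s : V ≃ Fin n => E s).card := by
    rw [← card_biUnion, ← card_union_of_disjoint]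
    · refine card_le_card fun s hs => ?_
      rw [mem_filter]
      refine ⟨mem_univ _, ?_⟩
      rcases mem_union.1 hs with h1 | h1
      · rw [mem_filter] at h1
        exact ⟨h1.2.1, Lo_mono sdiff_subset h1.2.2⟩
      · obtain ⟨a, _, h2⟩ := mem_biUnion.1 h1
        exact (mem_filter.1 h2).2.2
    · rw [disjoint_left]
      intro s hs hs'
      rw [mem_filter] at hs
      obtain ⟨a, ha, h2⟩ := mem_biUnion.1 hs'
      rw [mem_filter] at h2
      obtain ⟨v, hvC, hadj, hlt⟩ := hs.2.2 a (hA ha)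
      have h3 := h2.2.1 v (mem_star.2 ⟨hvC, Or.inr ⟨a, ha, hadj⟩⟩) hadj.ne
      exact absurd (lt_trans hlt h3) (lt_irrefl _)
    · intro a ha b hb hab
      rw [Function.onFun, disjoint_left]
      intro s hs hs'
      rw [mem_filter] at hs hs'
      exact absurd (lt_trans (hs.2.1 b (hAN hb) hab.symm) (hs'.2.1 a (hAN ha) hab)) (lt_irrefl _)
  have hmain' : ((univ.filter fun s : V ≃ Fin n => Ev R D S s ∧ Lo F C J s).card : ℝ) +
      ∑ a ∈ A, ((univ.filter fun s : V ≃ Fin n =>
        (∀ u ∈ N, u ≠ a → s a < s u) ∧ E s).card : ℝ) ≤ a0 := by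
    rw [ha0]
    exact_mod_cast hmain
  have hsum : (∑ a ∈ A, m {a}) / (N.card : ℝ) * a0 ≤
      ∑ a ∈ A, ((univ.filter fun s : V ≃ Fin n =>
        (∀ u ∈ N, u ≠ a → s a < s u) ∧ E s).card : ℝ) := by
    rw [sum_div, sum_mul]
    exact sum_le_sum hfirst
  unfold LV
  rw [mul_div_assoc']
  refine div_le_div_of_nonneg_right ?_ (Nat.cast_nonneg _)
  change _ ≤ (1 - (∑ a ∈ A, m {a}) / (N.card : ℝ)) * a0
  linarith

theorem LV_anti {J' : Finset V} (hJ : J' ⊆ J) : LV F n R D C S J ≤ LV F n R D C S J' := by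
  classical
  unfold LV
  refine div_le_div_of_nonneg_right ?_ (Nat.cast_nonneg _)
  refine Nat.cast_le.2 (card_le_card fun s hs => ?_)
  rw [mem_filter] at hs ⊢
  exact ⟨hs.1, hs.2.1, Lo_mono hJ hs.2.2⟩

/-- disjoint clusters of `J` -/
theorem LV_prod (h : Sy F R D C S) (hJ : J ⊆ S) (𝒜 : Finset (Finset V))
    (hA : ∀ A ∈ 𝒜, A ⊆ J ∧ A.Nonempty) (hd : (𝒜 : Set (Finset V)).PairwiseDisjoint id)
    (hsep : ∀ A ∈ 𝒜, ∀ v, v ∉ C → ∀ a ∈ A, ∀ b ∈ J \ A, F.Adj v a → ¬ F.Adj v b)
    (hpm : PosM m)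
    (hm : ∀ B ⊆ S, ((R.filter fun v => D v = B).card : ℝ) + (if B.card = 1 then 1 else 0) = m B) :
    LV F n R D C S J ≤
      (∏ A ∈ 𝒜, (1 - (∑ a ∈ A, m {a}) / ((CN F A \ C).card : ℝ))) * Ival m S := by
  classical
  induction 𝒜 using Finset.induction_on generalizing J with
  | empty =>
    rw [prod_empty, one_mul]
    exact (LV_anti (empty_subset J)).trans (LV_empty h hpm hm)
  | insert A 𝒜 hA' ih =>
    have h1 := hA A (mem_insert_self _ _)
    have hstep := LV_step (n := n) h hJ h1.1 h1.2 (hsep A (mem_insert_self _ _)) hm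
    have hdis : ∀ B ∈ 𝒜, Disjoint A B := by
      intro B hB
      refine hd (mem_coe.2 (mem_insert_self _ _)) (mem_coe.2 (mem_insert_of_mem hB)) ?_
      rintro rfl
      exact hA' hB
    have h2 := ih (J := J \ A) (sdiff_subset.trans hJ)
      (fun B hB => ⟨fun b hb => mem_sdiff.2 ⟨(hA B (mem_insert_of_mem hB)).1 hb,
        disjoint_right.1 (hdis B hB) hb⟩, (hA B (mem_insert_of_mem hB)).2⟩)
      (fun B hB B' hB' hne => hd (mem_coe.2 (mem_insert_of_mem (mem_coe.1 hB)))
        (mem_coe.2 (mem_insert_of_mem (mem_coe.1 hB'))) hne)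
      (fun B hB v hv a ha b hb => hsep B (mem_insert_of_mem hB) v hv a ha b
        (mem_sdiff.2 ⟨(mem_sdiff.1 (mem_sdiff.1 hb).1).1, (mem_sdiff.1 hb).2⟩))
    have h3 : 0 ≤ 1 - (∑ a ∈ A, m {a}) / ((CN F A \ C).card : ℝ) := by
      have h4 := w_le_c h (h1.1.trans hJ) hm
      have h5 : (∑ a ∈ A, m {a}) / ((CN F A \ C).card : ℝ) ≤ 1 :=
        div_le_one_of_le₀ h4 (Nat.cast_nonneg _)
      linarith
    rw [prod_insert hA', mul_assoc]
    exact hstep.trans (mul_le_mul_of_nonneg_left h2 h3)

/-- elements of `J` that have no common neighbour with other elements of `J` -/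
theorem LV_singles (h : Sy F R D C S) (hJ : J ⊆ S) {J0 : Finset V} (hJ0 : J0 ⊆ J)
    (hsep : ∀ v, v ∉ C → ∀ a ∈ J0, ∀ b ∈ J, a ≠ b → F.Adj v a → ¬ F.Adj v b)
    (hpm : PosM m)
    (hm : ∀ B ⊆ S, ((R.filter fun v => D v = B).card : ℝ) + (if B.card = 1 then 1 else 0) = m B) :
    LV F n R D C S J ≤ (∏ u ∈ J0, (1 - m {u} / ((CN F {u} \ C).card : ℝ))) * Ival m S := by
  classical
  have h1 := LV_prod (n := n) h hJ (J0.map ⟨fun u => ({u} : Finset V), singleton_injective⟩)
    (fun A hA => by
      obtain ⟨u, hu, rfl⟩ := mem_map.1 hA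
      exact ⟨singleton_subset_iff.2 (hJ0 hu), singleton_nonempty u⟩)
    (fun A hA B hB hne => by
      obtain ⟨u, _, rfl⟩ := mem_map.1 (mem_coe.1 hA)
      obtain ⟨v, _, rfl⟩ := mem_map.1 (mem_coe.1 hB)
      change Disjoint ({u} : Finset V) {v}
      rw [disjoint_singleton]
      rintro rfl
      exact hne rfl)
    (fun A hA v hv a ha b hb => by
      obtain ⟨u, hu, rfl⟩ := mem_map.1 hA
      change a ∈ ({u} : Finset V) at ha
      change b ∈ J \ ({u} : Finset V) at hb
      rw [mem_singleton] at ha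
      rw [mem_sdiff, mem_singleton] at hb
      rw [ha]
      exact hsep v hv u hu b hb.1 (Ne.symm hb.2))
    hpm hm
  rw [prod_map] at h1
  simp only [Function.Embedding.coeFn_mk, sum_singleton] at h1
  exact h1

end lost

section star

variable {V : Type} [DecidableEq V] [Fintype V] {F : SimpleGraph V} {W Y R : Finset V}
  {X : ℕ → Finset V} {lev : V → ℕ} {P ν : ℕ → ℕ} {l n i k : ℕ} {Z : Finset ℕ} {s : V ≃ Fin n}

omit [Fintype V] in
theorem KR_sub_X (h : Lv F W Y X lev) (hik : i ≤ k) (hR : R ⊆ Bl Y lev i (k + 1)) :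
    Kl Y lev i ∪ R ⊆ X k := by
  intro v hv
  rcases mem_union.1 hv with h1 | h1
  · rw [mem_Kl] at h1
    exact (h.mem_X h1.1).2 (by omega)
  · have h2 := mem_Bl.1 (hR h1)
    exact (h.mem_X h2.1).2 (by omega)

omit [Fintype V] [DecidableEq V] in
theorem KR_sub_Y [DecidableEq V] (hR : R ⊆ Bl Y lev i (k + 1)) : Kl Y lev i ∪ R ⊆ Y := by
  intro v hv
  rcases mem_union.1 hv with h1 | h1
  · exact (mem_Kl.1 h1).1
  · exact (mem_Bl.1 (hR h1)).1

/-- the system of the elements that are not robust -/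
theorem sy (h : Lv F W Y X lev) (hi : i = 0 ∨ i - 1 ∈ Z) (hZ : ∀ z ∈ Z, z < i)
    (hR : R ⊆ Bl Y lev i (k + 1)) :
    Sy F (Rst F W X Z Y) (Dst F X Z Y) (CN F (Kl Y lev i ∪ R)) (Bl Y lev i (l + 1) \ R) := by
  have hKR := KR_sub_Y (Y := Y) (lev := lev) hR
  have hSY : ∀ v ∈ Bl Y lev i (l + 1) \ R, v ∈ Y := fun v hv => (mem_Bl.1 (mem_sdiff.1 hv).1).1
  have hK : ∀ v ∈ Rst F W X Z Y, Dst F X Z Y v ⊆ Bl Y lev i (l + 1) \ R →
      v ∉ CN F (Kl Y lev i) := by
    intro v hv hDv h1
    obtain ⟨h2, x, hx⟩ := Dst_low h hi h1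
    have h3 := mem_Kl.1 (h2 hx)
    have h4 := mem_Bl.1 (mem_sdiff.1 (hDv hx)).1
    omega
  refine ⟨fun v hv h1 => (mem_Rst.1 hv).1 (hSY v h1), fun v hv _ => Dst_nonempty h.max hv,
    ?_, ?_, fun x hx y hy => h.indep x (hSY x hx) y (hSY y hy), ?_⟩
  · intro v hv hDv h1
    have h2 := hK v hv hDv
    obtain ⟨x, hx, h3⟩ := mem_CN.1 h1
    rcases mem_union.1 hx with h4 | h4
    · exact h2 (mem_CN.2 ⟨x, h4, h3⟩)
    · have h5 : x ∈ Dst F X Z Y v := by
        rw [(Dst_out (W := W) h hZ h2).1]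
        exact mem_dn.2 ⟨hKR hx, h3⟩
      exact (mem_sdiff.1 (hDv h5)).2 h4
  · intro u hu h1
    obtain ⟨x, hx, h3⟩ := mem_CN.1 h1
    rcases h3 with h3 | h3
    · subst h3
      have h4 := mem_sdiff.1 hu
      rcases mem_union.1 hx with h5 | h5
      · have h6 := mem_Kl.1 h5
        have h7 := mem_Bl.1 h4.1
        omega
      · exact h4.2 h5
    · exact h.indep u (hSY u hu) x (hKR hx) h3
  · intro v hv hDv x hx
    rw [(Dst_out (W := W) h hZ (hK v hv hDv)).1, mem_dn]
    constructor
    · rintro ⟨_, h2⟩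
      rcases h2 with h2 | h2
      · rw [h2] at hv
        exact absurd (hSY x hx) (mem_Rst.1 hv).1
      · exact h2
    · exact fun h2 => ⟨hSY x hx, Or.inr h2⟩

/-- the orders with a given robust set at level `k` -/
theorem star_iff (h : Lv F W Y X lev) (hl : ∀ v ∈ W, lev v ≤ l) (hi : i = 0 ∨ i - 1 ∈ Z)
    (hZ : ∀ z ∈ Z, z < i) (hik : i ≤ k) (hR : R ⊆ Bl Y lev i (k + 1))
    (s : V ≃ Fin n) :
    (gr F W s = Y ∧ (∀ z ∈ Z, Tr F s (X z) = Y ∩ X z) ∧ Tr F s (X k) = Kl Y lev i ∪ R) ↔
      (((∀ z ∈ Z, Tr F s (X z ∩ Kl Y lev i) = Y ∩ X z) ∧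
          Tr F s (Kl Y lev i ∪ R) = Kl Y lev i ∪ R) ∧
        (Ev (Rst F W X Z Y) (Dst F X Z Y) (Bl Y lev i (l + 1) \ R) s ∧
          Lo F (CN F (Kl Y lev i ∪ R)) (Bl Y lev i (k + 1) \ R) s)) := by
  have hKX := KR_sub_X (W := W) h hik hR
  have hKR := KR_sub_Y (Y := Y) (lev := lev) hR
  set B := Kl Y lev i ∪ R with hB
  constructor
  · rintro ⟨hg, ht, hT⟩
    obtain ⟨h1, h2⟩ := (ev_iff h hl hi hZ s).1 ⟨hg, ht⟩
    refine ⟨⟨h1, ?_⟩, fun v hv hDv => ?_, fun u hu => ?_⟩
    · rw [Tr_restrict (X := X k) (by rw [hT]) hKX, hT]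
    · have hne := Dst_nonempty h.max hv
      exact ⟨fun h0 => absurd h0 hne.ne_empty, (h2 v hv (hDv.trans sdiff_subset)).2⟩
    · rw [mem_sdiff, mem_Bl] at hu
      have huX : u ∈ X k := (h.mem_X hu.1.1).2 (by omega)
      have hnr : ¬ rob F s (X k) u := by
        intro h3
        have h4 : u ∈ Tr F s (X k) := mem_Tr.2 h3
        rw [hT, hB, mem_union] at h4
        rcases h4 with h4 | h4
        · have := (mem_Kl.1 h4).2
          omega
        · exact hu.2 h4
      rw [rob_iff] at hnr
      push Not at hnr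
      obtain ⟨y, hy, hlt, hk⟩ := hnr huX
      refine ⟨y, fun h3 => ?_, hy.symm, hlt⟩
      obtain ⟨x, hx, h4⟩ := mem_CN.1 h3
      have hxT : x ∈ Tr F s (X k) := by
        rw [hT]
        exact hx
      rcases h4 with h4 | h4
      · rw [h4] at hy
        exact h.indep u hu.1.1 x (hKR hx) hy
      · obtain ⟨w, hw, hyw, hlt2⟩ := Tr_first hxT h4
        exact hk ⟨w, hyw, hlt2, mem_Tr.1 hw⟩
  · rintro ⟨⟨hE, hT⟩, hEv, hLo⟩
    have h1 : Ev (Rst F W X Z Y) (Dst F X Z Y) (Bl Y lev i (l + 1)) s := by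
      intro v hv hDv
      have hne := Dst_nonempty h.max hv
      refine ⟨fun h0 => absurd h0 hne.ne_empty, fun _ => ?_⟩
      have hvK : v ∉ CN F (Kl Y lev i) := by
        intro h2
        obtain ⟨h3, x, hx⟩ := Dst_low h hi h2
        have h4 := mem_Kl.1 (h3 hx)
        have h5 := mem_Bl.1 (hDv hx)
        omega
      have hDe := (Dst_out (W := W) h hZ hvK).1
      by_cases hvB : v ∈ CN F B
      · obtain ⟨x, hx, h2⟩ := mem_CN.1 hvB
        have hvY : v ∉ Y := (mem_Rst.1 hv).1
        have hadj : F.Adj v x := by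
          rcases h2 with h2 | h2
          · rw [h2] at hvY
            exact absurd (hKR hx) hvY
          · exact h2
        have hxT : x ∈ Tr F s B := by
          rw [hT]
          exact hx
        obtain ⟨w, hw, hvw, hlt⟩ := Tr_first hxT hadj
        refine ⟨w, ?_, hlt⟩
        rw [hDe]
        exact mem_dn.2 ⟨hKR (Tr_subset hw), Or.inr hvw⟩
      · refine (hEv v hv fun x hx => mem_sdiff.2 ⟨hDv hx, fun h2 => ?_⟩).2 hne.ne_empty
        rw [hDe, mem_dn] at hx
        exact hvB (mem_CN.2 ⟨x, mem_union_right _ h2, hx.2⟩)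
    obtain ⟨hg, ht⟩ := (ev_iff h hl hi hZ s).2 ⟨hE, h1⟩
    refine ⟨hg, ht, Subset.antisymm ?_ ?_⟩
    · -- the elements of `J` are not robust
      intro v hv
      by_contra hvB
      induction hc : (s v).val using Nat.strong_induction_on generalizing v with
      | _ c ih =>
        have h2 := mem_Kl.1 (Tr_sub_Kl h hg k hv)
        have hvJ : v ∈ Bl Y lev i (k + 1) \ R := by
          rw [mem_sdiff, mem_Bl]
          refine ⟨⟨h2.1, ?_, h2.2⟩, fun h3 => hvB (mem_union_right _ h3)⟩
          by_contra h3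
          exact hvB (mem_union_left _ (mem_Kl.2 ⟨h2.1, by omega⟩))
        obtain ⟨y, hyC, hy, hlt⟩ := hLo v hvJ
        obtain ⟨z, hyz, hlt2, hr⟩ := (rob_iff.1 (mem_Tr.1 hv)).2 y hy.symm hlt
        refine ih (s z).val (by rw [← hc]; exact lt_trans hlt2 hlt) (mem_Tr.2 hr) ?_ rfl
        intro hzB
        exact hyC (mem_CN.2 ⟨z, hzB, Or.inr hyz⟩)
    · have h2 : Tr F s B ⊆ Tr F s (X k) := Tr_mono hKX
      rw [hT] at h2
      exact h2

open Classical in
/-- the multiplicities of the vertices dominated by `R` but not by `K` -/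
noncomputable def mR (F : SimpleGraph V) (K R D : Finset V) : ℝ :=
  (((univ.filter fun v => v ∉ CN F K ∧ v ∉ R ∧ (dn F R v).Nonempty).filter
    fun v => dn F R v = D).card : ℝ) + if D.card = 1 then 1 else 0

theorem mR_pos {K : Finset V} : PosM (mR F K R) := by
  refine ⟨fun D => ?_, fun k => ?_⟩
  · unfold mR
    refine add_nonneg (Nat.cast_nonneg _) ?_
    split_ifs <;> norm_num
  · unfold mR
    rw [if_pos (card_singleton k)]
    have h1 : (0 : ℝ) ≤ (((univ.filter fun v => v ∉ CN F K ∧ v ∉ R ∧ (dn F R v).Nonempty).filter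
      fun v => dn F R v = {k}).card : ℝ) := Nat.cast_nonneg _
    linarith

open Classical in
/-- the orders with the right robust sets in `Kl ∪ R` -/
theorem count_KR (h : Lv F W Y X lev) (hi : i = 0 ∨ i - 1 ∈ Z)
    (hR : R ⊆ Bl Y lev i (k + 1)) :
    ((univ.filter fun s : V ≃ Fin n => (∀ z ∈ Z, Tr F s (X z ∩ Kl Y lev i) = Y ∩ X z) ∧
        Tr F s (Kl Y lev i ∪ R) = Kl Y lev i ∪ R).card : ℝ) ≤
      (Fintype.card (V ≃ Fin n) : ℝ) * (Ival (mZ F W X Z Y) (Kl Y lev i) *
        Ival (mR F (Kl Y lev i) R) R) := by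
  set K := Kl Y lev i with hK
  have hKR := KR_sub_Y (Y := Y) (lev := lev) hR
  have hRK : ∀ u ∈ R, u ∉ CN F K := by
    intro u hu h1
    obtain ⟨x, hx, h2⟩ := mem_CN.1 h1
    rcases h2 with h2 | h2
    · subst h2
      have h3 := mem_Kl.1 hx
      have h4 := mem_Bl.1 (hR hu)
      omega
    · exact h.indep u (hKR (mem_union_right _ hu)) x (hKR (mem_union_left _ hx)) h2
  set Q : Finset V := univ.filter fun v => v ∉ CN F K with hQ
  set R' : Finset V := univ.filter fun v => v ∉ CN F K ∧ v ∉ R ∧ (dn F R v).Nonempty with hR'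
  set G : (V ≃ Fin n) → ℝ := fun s =>
    if (∀ z ∈ Z, Tr F s (X z ∩ K) = Y ∩ X z) then 1 else 0 with hG
  have h1 := perm_eq (n := n) R' Q (dn F R) (mR F K R) G (by
    intro s a ha b hb
    rw [hQ, mem_filter] at ha hb
    have h2 : ∀ j, Tr F (sw s a b) (X j ∩ K) = Tr F s (X j ∩ K) := fun j =>
      Tr_sw ha.2 hb.2 inter_subset_right
    simp only [hG, h2]) R
    (fun v hv => mem_filter.2 ⟨mem_univ _, hRK v hv⟩)
    (disjoint_left.2 fun v hv hv' => (mem_filter.1 hv).2.2.1 hv')
    (fun v hv _ => ⟨mem_filter.2 ⟨mem_univ _, (mem_filter.1 hv).2.1⟩, (mem_filter.1 hv).2.2.2⟩)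
    (fun _ _ => rfl)
  have h2 : ((univ.filter fun s : V ≃ Fin n => (∀ z ∈ Z, Tr F s (X z ∩ K) = Y ∩ X z) ∧
        Tr F s (K ∪ R) = K ∪ R).card : ℝ) ≤
      ∑ s ∈ univ.filter (fun s : V ≃ Fin n => Ev R' (dn F R) R s), G s := by
    have h3 : ∑ s ∈ univ.filter (fun s : V ≃ Fin n => Ev R' (dn F R) R s), G s =
        ((univ.filter fun s : V ≃ Fin n => Ev R' (dn F R) R s ∧
          ∀ z ∈ Z, Tr F s (X z ∩ K) = Y ∩ X z).card : ℝ) := by
      simp only [hG]
      rw [← sum_filter, filter_filter, sum_const, nsmul_eq_mul, mul_one]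
    rw [h3]
    refine Nat.cast_le.2 (card_le_card fun s hs => ?_)
    rw [mem_filter] at hs ⊢
    obtain ⟨_, h4, h5⟩ := hs
    refine ⟨mem_univ _, fun v hv _ => ?_, h4⟩
    rw [hR', mem_filter] at hv
    refine ⟨fun h0 => absurd h0 hv.2.2.2.ne_empty, fun _ => ?_⟩
    obtain ⟨x, hx⟩ := hv.2.2.2
    rw [mem_dn] at hx
    have hadj : F.Adj v x := by
      rcases hx.2 with h6 | h6
      · rw [h6] at hv
        exact absurd hx.1 hv.2.2.1
      · exact h6
    have hxT : x ∈ Tr F s (K ∪ R) := by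
      rw [h5]
      exact mem_union_right _ hx.1
    obtain ⟨w, hw, hvw, hlt⟩ := Tr_first hxT hadj
    refine ⟨w, ?_, hlt⟩
    rcases mem_union.1 (Tr_subset hw) with h6 | h6
    · exact absurd (mem_CN.2 ⟨w, h6, Or.inr hvw⟩) hv.2.1
    · exact mem_dn.2 ⟨h6, Or.inr hvw⟩
  have h3 : ∑ s : V ≃ Fin n, G s ≤
      (Fintype.card (V ≃ Fin n) : ℝ) * Ival (mZ F W X Z Y) K := by
    simp only [hG]
    rw [← sum_filter, sum_const, nsmul_eq_mul, mul_one]
    exact count_low (n := n) h hi
  have h4 := (Ival_pos (mR_pos (F := F) (K := K) (R := R)) R).le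
  calc _ ≤ ∑ s ∈ univ.filter (fun s : V ≃ Fin n => Ev R' (dn F R) R s), G s := h2
    _ = Ival (mR F K R) R * ∑ s : V ≃ Fin n, G s := h1
    _ ≤ Ival (mR F K R) R * ((Fintype.card (V ≃ Fin n) : ℝ) * Ival (mZ F W X Z Y) K) :=
        mul_le_mul_of_nonneg_left h3 h4
    _ = _ := by ring

open Classical in
/-- the number of orders with a given robust set at level `k` -/
theorem star_count (h : Lv F W Y X lev) (hl : ∀ v ∈ W, lev v ≤ l) (hi : i = 0 ∨ i - 1 ∈ Z)
    (hZ : ∀ z ∈ Z, z < i) (hik : i ≤ k) (hkl : k ≤ l) (hR : R ⊆ Bl Y lev i (k + 1)) :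
    ((univ.filter fun s : V ≃ Fin n => gr F W s = Y ∧ (∀ z ∈ Z, Tr F s (X z) = Y ∩ X z) ∧
        Tr F s (X k) = Kl Y lev i ∪ R).card : ℝ) ≤
      (Fintype.card (V ≃ Fin n) : ℝ) * (Ival (mZ F W X Z Y) (Kl Y lev i) *
        (Ival (mR F (Kl Y lev i) R) R *
          LV F n (Rst F W X Z Y) (Dst F X Z Y) (CN F (Kl Y lev i ∪ R)) (Bl Y lev i (l + 1) \ R)
            (Bl Y lev i (k + 1) \ R))) := by
  have hsy := sy (l := l) h hi hZ hR
  set C := CN F (Kl Y lev i ∪ R) with hC
  set S := Bl Y lev i (l + 1) \ R with hS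
  set J := Bl Y lev i (k + 1) \ R with hJ
  have hJS : J ⊆ S := by
    intro v hv
    rw [hJ, mem_sdiff, mem_Bl] at hv
    rw [hS, mem_sdiff, mem_Bl]
    exact ⟨⟨hv.1.1, hv.1.2.1, by omega⟩, hv.2⟩
  set G : (V ≃ Fin n) → ℝ := fun s =>
    if ((∀ z ∈ Z, Tr F s (X z ∩ Kl Y lev i) = Y ∩ X z) ∧
        Tr F s (Kl Y lev i ∪ R) = Kl Y lev i ∪ R) then 1 else 0 with hG
  have h1 := lo_sum (n := n) hsy hJS G (by
    intro s a b ha hb
    have h2 : ∀ j, Tr F (sw s a b) (X j ∩ Kl Y lev i) = Tr F s (X j ∩ Kl Y lev i) := fun j =>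
      Tr_sw ha hb (inter_subset_right.trans subset_union_left)
    have h3 : Tr F (sw s a b) (Kl Y lev i ∪ R) = Tr F s (Kl Y lev i ∪ R) :=
      Tr_sw ha hb Subset.rfl
    simp only [hG, h2, h3])
  have h2 : ((univ.filter fun s : V ≃ Fin n => gr F W s = Y ∧ (∀ z ∈ Z, Tr F s (X z) = Y ∩ X z) ∧
        Tr F s (X k) = Kl Y lev i ∪ R).card : ℝ) =
      ∑ s ∈ univ.filter (fun s : V ≃ Fin n =>
        Ev (Rst F W X Z Y) (Dst F X Z Y) S s ∧ Lo F C J s), G s := by
    simp only [hG]
    rw [← sum_filter, filter_filter, sum_const, nsmul_eq_mul, mul_one]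
    congr 2
    ext s
    rw [mem_filter, mem_filter, star_iff h hl hi hZ hik hR s]
    exact ⟨fun h3 => ⟨h3.1, h3.2.2, h3.2.1⟩, fun h3 => ⟨h3.1, h3.2.2, h3.2.1⟩⟩
  have h3 : ∑ s : V ≃ Fin n, G s ≤ (Fintype.card (V ≃ Fin n) : ℝ) *
      (Ival (mZ F W X Z Y) (Kl Y lev i) * Ival (mR F (Kl Y lev i) R) R) := by
    simp only [hG]
    rw [← sum_filter, sum_const, nsmul_eq_mul, mul_one]
    exact count_KR (n := n) h hi hR
  rw [h2, h1]
  calc _ ≤ LV F n (Rst F W X Z Y) (Dst F X Z Y) C S J * ((Fintype.card (V ≃ Fin n) : ℝ) *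
      (Ival (mZ F W X Z Y) (Kl Y lev i) * Ival (mR F (Kl Y lev i) R) R)) :=
        mul_le_mul_of_nonneg_left h3 LV_nonneg
    _ = _ := by ring

/-- the numbers of dominated vertices without the elements of `J` -/
noncomputable def CJ (F : SimpleGraph V) (Y : Finset V) (lev : V → ℕ) (J : Finset V) (j : ℕ) : ℕ :=
  (CN F (Kl Y lev (j + 1) \ J)).card

theorem rn_mono {C C' : ℕ → ℕ} (hCC : ∀ j, j < l → C j ≤ C' j) :
    rn P ν C l ≤ rn P ν C' l := by
  rcases l with _ | m
  · exact le_rfl
  · change max 0 (bn P ν C m) * gn P ν C m ≤ max 0 (bn P ν C' m) * gn P ν C' m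
    have hb : ∀ j, j ≤ m → bn P ν C j ≤ bn P ν C' j := fun j hj =>
      bn_mono j fun i hi => hCC i (by omega)
    refine mul_le_mul (max_le_max le_rfl (hb m le_rfl)) ?_ (gn_nonneg _ _ _ _)
      (le_max_left _ _)
    unfold gn
    refine prod_le_prod (fun _ _ => le_min zero_le_one (le_max_left _ _)) fun i hi => ?_
    have := mem_range.1 hi
    exact min_le_min le_rfl (max_le_max le_rfl (hb i (by omega)))

/-- the statistic is the numerical one at the robust sets -/
theorem RM_eq_rn (hXc : ∀ j, j < l → ((X j).card : ℝ) = Ss P ν j - P j + 1) :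
    RM F X (fun _ => 1) (fun j => (P j : ℝ)) s l =
      rn P ν (fun j => (CN F (Tr F s (X j))).card) l := by
  rcases l with _ | m
  · rfl
  · change max 0 (bm F X (fun _ => 1) (fun j => (P j : ℝ)) s m) *
      gm F X (fun _ => 1) (fun j => (P j : ℝ)) s m = _
    rw [bm_eq (X := X) (s := s) hXc m (by omega)]
    change _ = max 0 (bn P ν (fun j => (CN F (Tr F s (X j))).card) m) *
      gn P ν (fun j => (CN F (Tr F s (X j))).card) m
    congr 1
    unfold gm gn
    refine prod_congr rfl fun j hj => ?_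
    rw [bm_eq (X := X) (s := s) hXc j (by have := mem_range.1 hj; omega)]

open Classical in
/-- the admissible sets of elements that are not robust -/
noncomputable def JS (Y : Finset V) (lev : V → ℕ) (ν : ℕ → ℕ) (i l : ℕ) : Finset (Finset V) :=
  (Bl Y lev i l).powerset.filter fun J => ∀ j, j < l → (J.filter fun v => lev v ≤ j).card ≤
    xY Y lev ν j

omit [DecidableEq V] [Fintype V] in
theorem mem_JS {J : Finset V} : J ∈ JS Y lev ν i l ↔ J ⊆ Bl Y lev i l ∧
    ∀ j, j < l → (J.filter fun v => lev v ≤ j).card ≤ xY Y lev ν j := by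
  unfold JS
  rw [mem_filter, mem_powerset]

/-- the sum of the statistic over the orders with greedy set `Y` -/
theorem star_sum (h : Lv F W Y X lev) (hP : ∀ j, 0 < P j) (hm : ∀ j, P j < P (j + 1))
    (hcap : Cp F W Y lev P l)
    (hXc : ∀ j, j < l → ((X j).card : ℝ) = Ss P ν j - P j + 1) (hil : i < l)
    (hi : i = 0 ∨ xY Y lev ν (i - 1) = 0) (hxi : ∀ j, i ≤ j → j < l → xY Y lev ν j ≠ 0) :
    ∑ s ∈ univ.filter (fun s : V ≃ Fin n => gr F W s = Y),
        RM F X (fun _ => 1) (fun j => (P j : ℝ)) s l ≤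
      (Fintype.card (V ≃ Fin n) : ℝ) * (Ival (mZ F W X (ZY Y lev ν l) Y) (Kl Y lev i) *
        ∑ J ∈ JS Y lev ν i l, rn P ν (CJ F Y lev J) l *
          (Ival (mR F (Kl Y lev i) (Bl Y lev i l \ J)) (Bl Y lev i l \ J) *
            LV F n (Rst F W X (ZY Y lev ν l) Y) (Dst F X (ZY Y lev ν l) Y)
              (CN F (Kl Y lev i ∪ (Bl Y lev i l \ J))) (Bl Y lev i (l + 1) \ (Bl Y lev i l \ J))
              J)) := by
  classical
  obtain ⟨k, rfl⟩ : ∃ k, l = k + 1 := ⟨l - 1, by omega⟩
  have hik : i ≤ k := by omega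
  set Z := ZY Y lev ν (k + 1) with hZdef
  have hl := hcap.le
  have hZ : ∀ z ∈ Z, z < i := by
    intro z hz
    rw [hZdef] at hz
    unfold ZY at hz
    rw [mem_filter, mem_range] at hz
    by_contra h1
    exact hxi z (by omega) hz.1 hz.2
  have hi' : i = 0 ∨ i - 1 ∈ Z := start_mem (l := k + 1) hil.le hi
  -- the statistic is a sum over the sets of elements that are not robust
  have h1 : ∀ s ∈ univ.filter (fun s : V ≃ Fin n => gr F W s = Y),
      RM F X (fun _ => 1) (fun j => (P j : ℝ)) s (k + 1) ≤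
        ∑ J ∈ JS Y lev ν i (k + 1), if ((∀ z ∈ Z, Tr F s (X z) = Y ∩ X z) ∧
          Tr F s (X k) = Kl Y lev i ∪ (Bl Y lev i (k + 1) \ J)) then
            rn P ν (CJ F Y lev J) (k + 1) else 0 := by
    intro s hs
    have hs' := (mem_filter.1 hs).2
    rcases lt_or_ge 0 (RM F X (fun _ => 1) (fun j => (P j : ℝ)) s (k + 1)) with hpos | hneg
    · have hcard := Tr_card h.X_eq hP hm hcap.lo hXc hpos
      have htr : ∀ z ∈ Z, Tr F s (X z) = Y ∩ X z := by
        intro z hz
        rw [hZdef] at hz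
        unfold ZY at hz
        rw [mem_filter, mem_range] at hz
        have h3 := hcard z hz.1
        rw [Y_inter h z]
        refine eq_of_subset_of_card_le (Tr_sub_Kl h hs' z) ?_
        have h4 := card_le_card (Tr_sub_Kl h hs' z)
        have h5 := xY_eq (Y := Y) (lev := lev) (ν := ν) (j := z) (h3.trans h4)
        omega
      have hKT : Kl Y lev i ⊆ Tr F s (X k) := by
        rcases hi' with h3 | h3
        · rw [h3, Kl_zero]
          exact empty_subset _
        · rcases Nat.eq_zero_or_pos i with h0 | h0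
          · rw [h0, Kl_zero]
            exact empty_subset _
          · have h4 := htr _ h3
            rw [Y_inter h, show i - 1 + 1 = i by omega] at h4
            rw [← h4]
            refine Tr_mono ?_
            intro v hv
            rw [h.X_eq, mem_filter] at hv ⊢
            exact ⟨hv.1, by omega⟩
      set J := Bl Y lev i (k + 1) \ Tr F s (X k) with hJ
      have hTrJ : ∀ j, j ≤ k → Tr F s (X j) ⊆ Kl Y lev (j + 1) \ J := by
        intro j hj v hv
        have hXjk : X j ⊆ X k := by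
          intro v hv
          rw [h.X_eq, mem_filter] at hv ⊢
          exact ⟨hv.1, by omega⟩
        have h3 := Tr_mono (F := F) (s := s) hXjk hv
        exact mem_sdiff.2 ⟨Tr_sub_Kl h hs' j hv, fun h4 => (mem_sdiff.1 h4).2 h3⟩
      have hJS : J ∈ JS Y lev ν i (k + 1) := by
        refine mem_JS.2 ⟨sdiff_subset, fun j hj => ?_⟩
        have h3 := hcard j hj
        have h4 := card_le_card (hTrJ j (by omega))
        have h5 : (J.filter fun v => lev v ≤ j) ⊆ Kl Y lev (j + 1) := by
          intro v hv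
          rw [mem_filter, hJ, mem_sdiff, mem_Bl] at hv
          exact mem_Kl.2 ⟨hv.1.1.1, by omega⟩
        have h6 : (J.filter fun v => lev v ≤ j).card + (Kl Y lev (j + 1) \ J).card ≤
            (Kl Y lev (j + 1)).card := by
          rw [← card_union_of_disjoint]
          · refine card_le_card (union_subset h5 sdiff_subset)
          · rw [disjoint_left]
            intro v hv hv'
            exact (mem_sdiff.1 hv').2 (mem_filter.1 hv).1
        unfold xY
        omega
      have hTk : Tr F s (X k) = Kl Y lev i ∪ (Bl Y lev i (k + 1) \ J) := by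
        apply Subset.antisymm
        · intro v hv
          have h3 := mem_Kl.1 (Tr_sub_Kl h hs' k hv)
          rw [mem_union]
          by_cases h4 : lev v < i
          · exact Or.inl (mem_Kl.2 ⟨h3.1, h4⟩)
          · right
            rw [mem_sdiff, hJ, mem_sdiff, mem_Bl]
            exact ⟨⟨h3.1, by omega, h3.2⟩, fun h5 => h5.2 hv⟩
        · intro v hv
          rcases mem_union.1 hv with h3 | h3
          · exact hKT h3
          · rw [mem_sdiff, hJ, mem_sdiff] at h3
            by_contra h4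
            exact h3.2 ⟨h3.1, h4⟩
      refine le_trans ?_ (single_le_sum (f := fun J => if ((∀ z ∈ Z, Tr F s (X z) = Y ∩ X z) ∧
          Tr F s (X k) = Kl Y lev i ∪ (Bl Y lev i (k + 1) \ J)) then
            rn P ν (CJ F Y lev J) (k + 1) else 0) ?_ hJS)
      · change _ ≤ if ((∀ z ∈ Z, Tr F s (X z) = Y ∩ X z) ∧
          Tr F s (X k) = Kl Y lev i ∪ (Bl Y lev i (k + 1) \ J)) then
            rn P ν (CJ F Y lev J) (k + 1) else 0
        rw [if_pos ⟨htr, hTk⟩, RM_eq_rn hXc]
        exact rn_mono fun j hj => card_le_card (CN_mono (hTrJ j (by omega)))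
      · intro J' _
        change 0 ≤ if ((∀ z ∈ Z, Tr F s (X z) = Y ∩ X z) ∧
          Tr F s (X k) = Kl Y lev i ∪ (Bl Y lev i (k + 1) \ J')) then
            rn P ν (CJ F Y lev J') (k + 1) else 0
        split_ifs
        · exact rn_nonneg _ _ _ _
        · exact le_rfl
    · refine hneg.trans (sum_nonneg fun J' _ => ?_)
      split_ifs
      · exact rn_nonneg _ _ _ _
      · exact le_rfl
  refine (sum_le_sum h1).trans ?_
  rw [sum_comm, mul_sum, mul_sum]
  refine sum_le_sum fun J hJ => ?_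
  have hJB := (mem_JS.1 hJ).1
  rw [← sum_filter, filter_filter, sum_const, nsmul_eq_mul]
  have h2 := star_count (n := n) (W := W) h hl hi' hZ hik (Nat.le_succ k)
    (R := Bl Y lev i (k + 1) \ J) sdiff_subset
  rw [Finset.sdiff_sdiff_eq_self hJB] at h2
  calc _ ≤ ((Fintype.card (V ≃ Fin n) : ℝ) * (Ival (mZ F W X Z Y) (Kl Y lev i) *
        (Ival (mR F (Kl Y lev i) (Bl Y lev i (k + 1) \ J)) (Bl Y lev i (k + 1) \ J) *
          LV F n (Rst F W X Z Y) (Dst F X Z Y) (CN F (Kl Y lev i ∪ (Bl Y lev i (k + 1) \ J)))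
            (Bl Y lev i (k + 1 + 1) \ (Bl Y lev i (k + 1) \ J)) J))) *
          rn P ν (CJ F Y lev J) (k + 1) := by
        refine mul_le_mul_of_nonneg_right ?_ (rn_nonneg _ _ _ _)
        exact h2
    _ = _ := by ring

end star

end MP76b19e.Rob
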