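import Pool.Agent.Lib.MP76b19e.Rob.LemM

/-!
# One step of the removal of over-full elements (problem MP_76b19e_co)

`stepM`: if `β ≤ pa m K t`, then `β I(K) - I(K - t) - ∑_{T} I(K - t')` is at most
`(β - m {t}) I'(K) - ∑_{T} I'(K - t')` for the masses `I'` in which one unit of a set `D ∋ t` has been
moved to `D \ {t}`.
-/

set_option autoImplicit false

open Finset

namespace MP76b19e.Rob

variable {V : Type} [DecidableEq V]

/-- monotonicity in the total masses -/
theorem Ival_anti_pal {m m' : Finset V → ℝ} (h : PosM m) {K : Finset V}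
    (hmm : ∀ A ⊆ K, pal m A ≤ pal m' A) : Ival m' K ≤ Ival m K := by
  induction hc : K.card using Nat.strong_induction_on generalizing K with
  | _ c ih =>
    rcases K.eq_empty_or_nonempty with h0 | h0
    · rw [h0, Ival_empty, Ival_empty]
    · rw [Ival_eq m h0, Ival_eq m' h0]
      refine div_le_div₀ (sum_nonneg fun k _ => (Ival_pos h _).le)
        (sum_le_sum fun k hk => ?_) (h.sum_pos h0) (hmm K Subset.rfl)
      exact ih _ (by rw [← hc]; exact card_erase_lt_of_mem hk)
        (fun A hA => hmm A (hA.trans (erase_subset _ _))) rfl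

section

variable {m : Finset V → ℝ} {K D : Finset V} {t : V}

theorem erase_ne (ht : t ∈ D) : D.erase t ≠ D := fun h2 => by
  rw [← h2] at ht
  exact notMem_erase t D ht

theorem pal_le_mvM (A : Finset V) : pal m A ≤ pal (mvM m D t) A := by
  by_cases h1 : D ⊆ A
  · exact (pal_mvM h1).ge
  · unfold pal mvM
    refine sum_le_sum fun E hE => ?_
    have h2 : E ≠ D := fun h3 => h1 (h3 ▸ mem_powerset.1 hE)
    rw [if_neg h2]
    split_ifs <;> linarith

theorem Ival_mvM_le (h : PosM m) : Ival (mvM m D t) K ≤ Ival m K :=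
  Ival_anti_pal h fun A _ => pal_le_mvM A

theorem mvM_empty (ht : t ∈ D) (hD : 2 ≤ D.card) : mvM m D t ∅ = m ∅ := by
  unfold mvM
  rw [if_neg, if_neg]
  · ring
  · rintro h1
    rw [← h1] at ht
    exact absurd ht (notMem_empty t)
  · intro h1
    have h2 := card_erase_of_mem ht
    rw [← h1, card_empty] at h2
    omega

theorem le_mvM_single (hD : 2 ≤ D.card) (j : V) : m {j} ≤ mvM m D t {j} := by
  unfold mvM
  have h2 : ({j} : Finset V) ≠ D := fun h3 => by
    rw [← h3, card_singleton] at hD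
    omega
  rw [if_neg h2]
  split_ifs <;> linarith

theorem mvM_int (hint : ∀ E, ∃ k : ℕ, m E = k) (h1 : 1 ≤ m D) (E : Finset V) :
    ∃ k : ℕ, mvM m D t E = k := by
  obtain ⟨k, hk⟩ := hint E
  unfold mvM
  by_cases h2 : E = D
  · subst h2
    rw [if_pos rfl, hk]
    rw [hk] at h1
    have h3 : 1 ≤ k := by exact_mod_cast h1
    split_ifs
    · exact ⟨k, by ring⟩
    · exact ⟨k - 1, by rw [Nat.cast_sub h3]; push_cast; ring⟩
  · rw [if_neg h2, hk]
    split_ifs
    · exact ⟨k + 1, by push_cast; ring⟩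
    · exact ⟨k, by ring⟩

theorem sum_mvM' (f : Finset V → ℝ) (hD : D ⊆ K) :
    ∑ E ∈ K.powerset, f E * mvM m D t E = ∑ E ∈ K.powerset, f E * m E + f (D.erase t) - f D := by
  have h1 := sum_mvM (m := m) (D := D) (t := t) f K.powerset
    (mem_powerset.2 hD) (mem_powerset.2 ((erase_subset _ _).trans hD))
  simp only [mul_comm _ (f _)] at h1
  exact h1

theorem pa_eq_sum (v : V) : pa m K v = ∑ E ∈ K.powerset, (if v ∈ E then (1 : ℝ) else 0) * m E := by
  unfold pa
  refine sum_congr rfl fun E _ => ?_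
  split_ifs <;> ring

theorem pa_mvM (hD : D ⊆ K) (v : V) : pa (mvM m D t) K v =
    pa m K v + (if v ∈ D.erase t then 1 else 0) - (if v ∈ D then 1 else 0) := by
  rw [pa_eq_sum, pa_eq_sum, sum_mvM' _ hD]

theorem pa_mvM_self (hD : D ⊆ K) (ht : t ∈ D) : pa (mvM m D t) K t = pa m K t - 1 := by
  rw [pa_mvM hD, if_neg (notMem_erase t D), if_pos ht]
  ring

theorem pa_mvM_ne (hD : D ⊆ K) {v : V} (hv : v ≠ t) : pa (mvM m D t) K v = pa m K v := by
  rw [pa_mvM hD]
  by_cases h1 : v ∈ D
  · rw [if_pos (mem_erase.2 ⟨hv, h1⟩), if_pos h1]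
    ring
  · rw [if_neg (fun h2 => h1 (mem_of_mem_erase h2)), if_neg h1]
    ring

theorem po_mvM (hD : D ⊆ K) (ht : t ∈ D) (h2 : 2 ≤ D.card) :
    po (mvM m D t) K = po m K - 1 := by
  unfold po
  rw [sum_mvM' _ hD, card_erase_of_mem ht]
  have h3 : ((D.card - 1 : ℕ) : ℝ) = ((D.card - 1 - 1 : ℕ) : ℝ) + 1 := by
    rw [← Nat.cast_succ]
    congr 1
    omega
  rw [h3]
  ring

/-- the sets which share a unit with `t` -/
noncomputable def shS (m : Finset V → ℝ) (K : Finset V) (t : V) : Finset (Finset V) := by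
  classical
  exact K.powerset.filter fun D => t ∈ D ∧ 2 ≤ D.card ∧ 1 ≤ m D

theorem mem_shS : D ∈ shS m K t ↔ D ⊆ K ∧ t ∈ D ∧ 2 ≤ D.card ∧ 1 ≤ m D := by
  unfold shS
  rw [mem_filter, mem_powerset]

private theorem sum_shS (hint : ∀ E, ∃ k : ℕ, m E = k) (f : Finset V → ℝ) :
    ∑ D ∈ K.powerset, (if t ∈ D ∧ 2 ≤ D.card then m D * f D else 0) =
      ∑ D ∈ shS m K t, m D * f D := by
  classical
  unfold shS
  rw [sum_filter]
  refine sum_congr rfl fun D _ => ?_
  by_cases h1 : t ∈ D ∧ 2 ≤ D.card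
  · rw [if_pos h1]
    obtain ⟨k, hk⟩ := hint D
    rcases Nat.eq_zero_or_pos k with h0 | h0
    · rw [hk, h0, Nat.cast_zero, zero_mul]
      simp
    · have h2 : 1 ≤ m D := by
        rw [hk]
        exact_mod_cast h0
      rw [if_pos ⟨h1.1, h1.2, h2⟩]
  · rw [if_neg h1, if_neg fun h2 => h1 ⟨h2.1, h2.2.1⟩]

/-- the shared mass of `t` -/
theorem sum_shS_one (hint : ∀ E, ∃ k : ℕ, m E = k) (ht : t ∈ K) :
    ∑ D ∈ shS m K t, m D = pa m K t - m {t} := by
  have h1 := sum_shS (K := K) (t := t) hint fun _ => (1 : ℝ)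
  simp only [mul_one] at h1
  rw [← h1]
  have h2 : pa m K t = ∑ D ∈ K.powerset, ((if t ∈ D ∧ 2 ≤ D.card then m D else 0) +
      (if D = {t} then m D else 0)) := by
    unfold pa
    refine sum_congr rfl fun D _ => ?_
    by_cases h3 : t ∈ D
    · rw [if_pos h3]
      by_cases h4 : 2 ≤ D.card
      · rw [if_pos ⟨h3, h4⟩, if_neg, add_zero]
        rintro rfl
        rw [card_singleton] at h4
        omega
      · rw [if_neg (fun h5 => h4 h5.2), if_pos, zero_add]
        refine (eq_of_subset_of_card_le (singleton_subset_iff.2 h3) ?_).symm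
        rw [card_singleton]
        omega
    · rw [if_neg h3, if_neg (fun h4 => h3 h4.1), if_neg, add_zero]
      rintro rfl
      exact h3 (mem_singleton_self t)
  rw [h2, sum_add_distrib, sum_ite_eq', if_pos (mem_powerset.2 (singleton_subset_iff.2 ht))]
  ring

/-- THE STEP -/
theorem stepM (h : PosM m) (hint : ∀ E, ∃ k : ℕ, m E = k) (ht : t ∈ K) (T : Finset V) {β : ℝ}
    (hβ : β ≤ pa m K t) :
    β * Ival m K - Ival m (K.erase t) - ∑ v ∈ T, Ival m (K.erase v) ≤ 0 ∨
      ∃ D ⊆ K, t ∈ D ∧ 2 ≤ D.card ∧ 1 ≤ m D ∧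
        β * Ival m K - Ival m (K.erase t) - ∑ v ∈ T, Ival m (K.erase v) ≤
          (β - m {t}) * Ival (mvM m D t) K - ∑ v ∈ T, Ival (mvM m D t) (K.erase v) := by
  classical
  have h1 := lemM h hint ht
  unfold shM at h1
  rw [sum_shS hint] at h1
  have hx := sum_shS_one (m := m) (K := K) hint ht
  have hF := (Ival_pos h K).le
  have hT : 0 ≤ ∑ v ∈ T, Ival m (K.erase v) := sum_nonneg fun v _ => (Ival_pos h _).le
  rcases (shS m K t).eq_empty_or_nonempty with h0 | h0
  · left
    rw [h0, sum_empty] at h1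
    have h2 := mul_le_mul_of_nonneg_right hβ hF
    linarith
  · by_contra hcon
    push Not at hcon
    obtain ⟨h2, h3⟩ := hcon
    set X := β * Ival m K - Ival m (K.erase t) - ∑ v ∈ T, Ival m (K.erase v) with hX
    have h4 : ∑ D ∈ shS m K t, m D * ((β - m {t}) * Ival (mvM m D t) K -
        ∑ v ∈ T, Ival (mvM m D t) (K.erase v)) < ∑ D ∈ shS m K t, m D * X := by
      refine sum_lt_sum_of_nonempty h0 fun D hD => ?_
      obtain ⟨h5, h6, h7, h8⟩ := mem_shS.1 hD
      exact mul_lt_mul_of_pos_left (h3 D h5 h6 h7 h8) (by linarith)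
    rw [← sum_mul, hx] at h4
    have h5 : (pa m K t - m {t}) * X ≤ ∑ D ∈ shS m K t, m D * ((β - m {t}) *
        Ival (mvM m D t) K - ∑ v ∈ T, Ival (mvM m D t) (K.erase v)) := by
      have h6 : X ≤ ∑ D ∈ shS m K t, m D * Ival (mvM m D t) K -
          (pa m K t - β) * Ival m K - ∑ v ∈ T, Ival m (K.erase v) := by
        rw [hX]
        linarith
      have hx0 : 0 ≤ pa m K t - m {t} := by
        rw [← hx]
        exact sum_nonneg fun D hD => by
          have := (mem_shS.1 hD).2.2.2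
          linarith
      refine (mul_le_mul_of_nonneg_left h6 hx0).trans ?_
      have h7 : (pa m K t - m {t}) * (∑ D ∈ shS m K t, m D * Ival (mvM m D t) K -
          (pa m K t - β) * Ival m K - ∑ v ∈ T, Ival m (K.erase v)) =
          ∑ D ∈ shS m K t, m D * ((pa m K t - m {t}) * Ival (mvM m D t) K -
            (pa m K t - β) * Ival m K - ∑ v ∈ T, Ival m (K.erase v)) := by
        simp only [mul_sub, sum_sub_distrib]
        rw [← sum_mul, hx]
        have h8 : ∑ D ∈ shS m K t, m D * ((pa m K t - m {t}) * Ival (mvM m D t) K) =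
            (pa m K t - m {t}) * ∑ D ∈ shS m K t, m D * Ival (mvM m D t) K := by
          rw [mul_sum]
          exact sum_congr rfl fun D _ => by ring
        simp only [sub_mul] at h8 ⊢
        simp only [mul_sub, sum_sub_distrib] at h8 ⊢
        rw [← sum_mul, hx]
        linarith
      rw [h7]
      refine sum_le_sum fun D hD => ?_
      obtain ⟨h8, h9, h10, h11⟩ := mem_shS.1 hD
      refine mul_le_mul_of_nonneg_left ?_ (by linarith)
      have h12 : Ival (mvM m D t) K ≤ Ival m K := Ival_mvM_le h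
      have h13 : ∑ v ∈ T, Ival (mvM m D t) (K.erase v) ≤ ∑ v ∈ T, Ival m (K.erase v) :=
        sum_le_sum fun v _ => Ival_mvM_le h
      have h14 := mul_le_mul_of_nonneg_left h12 (sub_nonneg.2 hβ)
      linarith
    linarith

end

end MP76b19e.Rob
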