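import Pool.Agent.Lib.MP76b19e.Rob.MixL

/-!
# The stopping decomposition (problem MP_76b19e_co)

`VL m K L g p z` is the linear functional of a set `K` with the low elements `K ∩ L`. It is split
exactly by the last element (`VL_expand`), and so is the capacity (`cap_expand1`). `stop`: it is
enough to treat the sets of the last elements after which the number of low elements is one more
than the number of slots, and the sets of the last `d` elements. `mixed_stop` is the local
inequality for one low level and any number of surplus low elements.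
-/

set_option autoImplicit false

open Finset

namespace MP76b19e.Rob

section

variable {V : Type} [DecidableEq V]

/-- the linear functional of the set `K`, low elements `K ∩ L` -/
noncomputable def VL (m : Finset V → ℝ) (K L : Finset V) (g p z : ℝ) : ℝ :=
  ∑ u ∈ K ∩ L, Ival m (K.erase u) - ((((K ∩ L).card : ℝ) - g) * p + z) * Ival m K

theorem push_push_singleton (m : Finset V → ℝ) {R : Finset V} {l : V} (hl : l ∉ R) :
    push (push m R) {l} = push m (insert l R) := by
  funext D
  rw [push_insert m hl]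
  change ∑ E ∈ ({l} : Finset V).powerset, push m R (D ∪ E) = _
  have h1 : ({l} : Finset V).powerset = {∅, {l}} := by
    ext E
    rw [mem_powerset, mem_insert, mem_singleton, subset_singleton_iff]
  have h2 : (∅ : Finset V) ∉ ({{l}} : Finset (Finset V)) := by
    rw [mem_singleton]
    exact (singleton_ne_empty l).symm
  rw [h1, sum_insert h2, sum_singleton, union_empty, union_comm, ← insert_eq]

/-- splitting by the last element -/
theorem Ival_expand1 (m : Finset V → ℝ) {K : Finset V} (hK : K.Nonempty) :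
    Ival m K = ∑ l ∈ K, Ival m {l} * Ival (push m {l}) (K.erase l) := by
  rw [Ival_expand m K 1 (card_pos.2 hK), powersetCard_one, sum_map]
  refine sum_congr rfl fun l _ => ?_
  simp only [Function.Embedding.coeFn_mk]
  rw [sdiff_singleton_eq_erase, mul_comm]

/-- the linear functional, split by the last element -/
theorem VL_expand (m : Finset V → ℝ) {K L : Finset V} (hK : 2 ≤ K.card) (g p z : ℝ) :
    VL m K L g p z = ∑ l ∈ K, Ival m {l} *
      VL (push m {l}) (K.erase l) L (g - if l ∈ L then 1 else 0) p z := by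
  have hne : K.Nonempty := card_pos.1 (by omega)
  have h1 : ∀ u ∈ K ∩ L, Ival m (K.erase u) =
      ∑ l ∈ K.erase u, Ival m {l} * Ival (push m {l}) ((K.erase u).erase l) := fun u hu =>
    Ival_expand1 m (card_pos.1 (by
      rw [card_erase_of_mem (mem_inter.1 hu).1]
      omega))
  have h2 : ∑ u ∈ K ∩ L, Ival m (K.erase u) =
      ∑ l ∈ K, ∑ u ∈ (K.erase l) ∩ L, Ival m {l} * Ival (push m {l}) ((K.erase l).erase u) := by
    rw [sum_congr rfl h1, sum_comm' (t' := K) (s' := fun l => (K.erase l) ∩ L)]
    · refine sum_congr rfl fun l _ => sum_congr rfl fun u _ => ?_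
      rw [erase_right_comm]
    · intro u l
      simp only [mem_inter, mem_erase]
      constructor
      · rintro ⟨⟨h3, h4⟩, h5, h6⟩
        exact ⟨⟨⟨fun h7 => h5 h7.symm, h3⟩, h4⟩, h6⟩
      · rintro ⟨⟨⟨h3, h4⟩, h5⟩, h6⟩
        exact ⟨⟨h4, h5⟩, fun h7 => h3 h7.symm, h6⟩
  unfold VL
  rw [h2]
  conv_lhs => rw [Ival_expand1 m hne]
  rw [mul_sum, ← sum_sub_distrib]
  refine sum_congr rfl fun l hl => ?_
  have h3 : ((((K.erase l) ∩ L).card : ℝ) - (g - if l ∈ L then 1 else 0)) =
      ((K ∩ L).card : ℝ) - g := by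
    rw [erase_inter]
    split_ifs with h4
    · rw [card_erase_of_mem (mem_inter.2 ⟨hl, h4⟩)]
      have h5 : 1 ≤ (K ∩ L).card := card_pos.2 ⟨l, mem_inter.2 ⟨hl, h4⟩⟩
      rw [Nat.cast_sub h5]
      push_cast
      ring
    · rw [erase_eq_of_notMem fun h5 => h4 (mem_inter.1 h5).2]
      ring
  rw [h3, ← mul_sum]
  ring

/-- the capacity, split by the last element -/
theorem cap_expand1 (m : Finset V → ℝ) (K : Finset V) (d : ℕ) (f : Finset V → ℝ) :
    ∑ S ∈ K.powersetCard (d + 1), Ival m S * f S =
      ∑ l ∈ K, Ival m {l} *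
        ∑ S ∈ (K.erase l).powersetCard d, Ival (push m {l}) S * f (insert l S) := by
  have h1 : ∀ S ∈ K.powersetCard (d + 1), Ival m S * f S =
      ∑ u ∈ S, (fun (T : Finset V) (v : V) =>
        Ival m {v} * (Ival (push m {v}) T * f (insert v T))) (S.erase u) u := by
    intro S hS
    rw [mem_powersetCard] at hS
    have hne : S.Nonempty := card_pos.1 (by omega)
    rw [Ival_expand1 m hne, sum_mul]
    refine sum_congr rfl fun u hu => ?_
    simp only
    rw [insert_erase hu]
    ring
  rw [sum_congr rfl h1,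
    Pool.Agent.MP76b19e.sum_powersetCard_erase K d
      (fun T v => Ival m {v} * (Ival (push m {v}) T * f (insert v T)))]
  simp only [mul_sum]
  refine sum_comm' fun T v => ?_
  simp only [mem_powersetCard, mem_sdiff, subset_erase]
  tauto

/-- the stopping decomposition -/
theorem stop {m : Finset V → ℝ} (hm : PosM m) {U L : Finset V} {d e : ℕ} {q p z : ℝ}
    (f : Finset V → ℝ) (hU : d + 1 ≤ U.card)
    (hT : ∀ R ⊆ U, ∀ d', R.card + d' = d → (R ∩ L).card + 1 = e →
      q * VL (push m R) (U \ R) L 2 p z ≤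
        ∑ S ∈ (U \ R).powersetCard d', Ival (push m R) S * f (R ∪ S))
    (hS : ∀ R ⊆ U, R.card = d → (R ∩ L).card + 2 ≤ e →
      q * VL (push m R) (U \ R) L ((e : ℝ) + 1 - ((R ∩ L).card : ℝ)) p z ≤ f R)
    (he : 1 ≤ e) :
    q * VL m U L ((e : ℝ) + 1) p z ≤ ∑ S ∈ U.powersetCard d, Ival m S * f S := by
  have key : ∀ d' : ℕ, ∀ R ⊆ U, R.card + d' = d → (R ∩ L).card + 1 ≤ e →
      q * VL (push m R) (U \ R) L ((e : ℝ) + 1 - ((R ∩ L).card : ℝ)) p z ≤
        ∑ S ∈ (U \ R).powersetCard d', Ival (push m R) S * f (R ∪ S) := by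
    intro d'
    induction d' with
    | zero =>
      intro R hR hd hle
      rcases Nat.lt_or_ge ((R ∩ L).card + 1) e with h1 | h1
      · rw [powersetCard_zero, sum_singleton, Ival_empty, one_mul, union_empty]
        exact hS R hR (by omega) (by omega)
      · have h2 : (e : ℝ) + 1 - ((R ∩ L).card : ℝ) = 2 := by
          have h3 : ((R ∩ L).card : ℝ) + 1 = e := by exact_mod_cast (by omega :
            (R ∩ L).card + 1 = e)
          linarith
        rw [h2]
        exact hT R hR 0 hd (by omega)
    | succ n ih =>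
      intro R hR hd hle
      rcases Nat.lt_or_ge ((R ∩ L).card + 1) e with h1 | h1
      · have hc : (U \ R).card = U.card - R.card := card_sdiff_of_subset hR
        rw [VL_expand (push m R) (by omega), cap_expand1, mul_sum]
        refine sum_le_sum fun l hl => ?_
        rw [mem_sdiff] at hl
        have h2 : 0 ≤ Ival (push m R) {l} := (Ival_pos (hm.push R) _).le
        have h3 : (U \ R).erase l = U \ insert l R := by
          ext v
          simp only [mem_erase, mem_sdiff, mem_insert]
          tauto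
        have h4 : (insert l R).card = R.card + 1 := card_insert_of_notMem hl.2
        have h5 : (e : ℝ) + 1 - ((R ∩ L).card : ℝ) - (if l ∈ L then 1 else 0) =
            (e : ℝ) + 1 - (((insert l R) ∩ L).card : ℝ) := by
          split_ifs with h6
          · rw [insert_inter_of_mem h6, card_insert_of_notMem fun h7 => hl.2 (mem_inter.1 h7).1]
            push_cast
            ring
          · rw [insert_inter_of_notMem h6]
            ring
        have h6 : ((insert l R) ∩ L).card ≤ (R ∩ L).card + 1 := by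
          by_cases h7 : l ∈ L
          · rw [insert_inter_of_mem h7]
            exact card_insert_le _ _
          · rw [insert_inter_of_notMem h7]
            omega
        have h7 := ih (insert l R) (insert_subset hl.1 hR) (by omega) (by omega)
        rw [push_push_singleton m hl.2, h3, h5]
        calc q * (Ival (push m R) {l} * VL (push m (insert l R)) (U \ insert l R) L
              ((e : ℝ) + 1 - (((insert l R) ∩ L).card : ℝ)) p z)
            = Ival (push m R) {l} * (q * VL (push m (insert l R)) (U \ insert l R) L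
              ((e : ℝ) + 1 - (((insert l R) ∩ L).card : ℝ)) p z) := by ring
          _ ≤ Ival (push m R) {l} * ∑ S ∈ (U \ insert l R).powersetCard n,
              Ival (push m (insert l R)) S * f (insert l R ∪ S) :=
              mul_le_mul_of_nonneg_left h7 h2
          _ = _ := by
              congr 1
              refine sum_congr rfl fun S _ => ?_
              rw [insert_union, union_insert]
      · have h2 : (e : ℝ) + 1 - ((R ∩ L).card : ℝ) = 2 := by
          have h3 : ((R ∩ L).card : ℝ) + 1 = e := by exact_mod_cast (by omega :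
            (R ∩ L).card + 1 = e)
          linarith
        rw [h2]
        exact hT R hR (n + 1) hd (by omega)
  have h1 := key d ∅ (empty_subset _) (by simp) (by simpa using he)
  have h2 : push m ∅ = m := funext fun D => push_empty_set m D
  rw [h2] at h1
  simpa using h1

end

section

variable {V β : Type} [DecidableEq V] [DecidableEq β] [Fintype V] {F : SimpleGraph V}
  {W Y : Finset V} {X : ℕ → Finset V} {lev : V → ℕ} {P ν : ℕ → ℕ} {l n k : ℕ}

omit [DecidableEq β] in
/-- the local inequality for the linear statistic, one low level in the last block, `e` low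
elements more than slots: reduction to the sets `R` of the last elements which contain `e - 1` lows,
and to the sets of the last `d` elements with fewer lows -/
theorem mixed_stop (h : Lv F W Y X lev) (hP : ∀ j, 0 < P j) (hm : ∀ j, P j < P (j + 1))
    (hcap : Cp F W Y lev P l) (hν : ∀ i, i ≤ l → 1 ≤ ν i)
    (hXc : ∀ j, j < l → ((X j).card : ℝ) = Ss P ν j - P j + 1) {d e : ℕ}
    (hY : Y.card = Nn ν l + (d + 1))
    (hkl : l = k + 1) (hk : k = 0 ∨ xY Y lev ν (k - 1) = 0) (hxk : xY Y lev ν k = e)
    (he : 1 ≤ e)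
    {M : V → Finset β} {c : Finset V → ℕ}
    (hcol : ∀ v ∈ W, (cn F v ∩ W).card + (M v).card ≤ P (lev v)) {κ : ℝ} (hκ : 0 ≤ κ)
    (hnum : (∀ j, j < l → Nn ν j ≤ (Kl Y lev (j + 1)).card) →
      (Kl Y lev k).card = ∑ j ∈ range k, ν j → (Bl Y lev k l).card = ν k + e →
      (Bl Y lev l (l + 1)).card + e = ν l + (d + 1) →
      0 ≤ OT F W (Kl Y lev k) →
      OT F W (Kl Y lev k) + ∑ v ∈ Kl Y lev k, ((M v).card : ℝ) ≤ GT F W lev P (Kl Y lev k) →
      0 ≤ Gp P ν (xY Y lev ν) (CY F Y lev) k →
      ∀ D : ℝ, 0 ≤ D → D ≤ 1 + Xs P (xY Y lev ν) k + OT F W (Kl Y lev k) → D ≤ P k →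
      ∀ m : Finset V → ℝ, PosM m → m ∅ = 0 → (∀ A ⊆ Bl Y lev k (l + 1), m A = mY F W Y A) →
      (∀ R ⊆ Bl Y lev k (l + 1), ∀ d', R.card + d' = d → (R ∩ Bl Y lev k l).card + 1 = e →
        0 < VL (push m R) (Bl Y lev k (l + 1) \ R) (Bl Y lev k l) 2 (P k)
          (Xs P (xY Y lev ν) k + Gp P ν (xY Y lev ν) (CY F Y lev) k) →
        D * (P 0 : ℝ) ^ (∑ j ∈ Ico k (l + 1), (ν j - 1)) *
          VL (push m R) (Bl Y lev k (l + 1) \ R) (Bl Y lev k l) 2 (P k)
            (Xs P (xY Y lev ν) k + Gp P ν (xY Y lev ν) (CY F Y lev) k) ≤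
          ∑ S ∈ (Bl Y lev k (l + 1) \ R).powersetCard d',
            Ival (push m R) S * (κ * SK F W Y c (R ∪ S))) ∧
      (∀ R ⊆ Bl Y lev k (l + 1), R.card = d → (R ∩ Bl Y lev k l).card + 2 ≤ e →
        0 < VL (push m R) (Bl Y lev k (l + 1) \ R) (Bl Y lev k l)
            ((e : ℝ) + 1 - ((R ∩ Bl Y lev k l).card : ℝ)) (P k)
            (Xs P (xY Y lev ν) k + Gp P ν (xY Y lev ν) (CY F Y lev) k) →
        D * (P 0 : ℝ) ^ (∑ j ∈ Ico k (l + 1), (ν j - 1)) *
          VL (push m R) (Bl Y lev k (l + 1) \ R) (Bl Y lev k l)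
            ((e : ℝ) + 1 - ((R ∩ Bl Y lev k l).card : ℝ)) (P k)
            (Xs P (xY Y lev ν) k + Gp P ν (xY Y lev ν) (CY F Y lev) k) ≤
          κ * SK F W Y c R)) :
    ((P 0 : ℝ) ^ (∑ i ∈ range (l + 1), (ν i - 1)) * ∏ i ∈ range l, (P i : ℝ)) *
        ∑ s ∈ univ.filter (fun s : V ≃ Fin n => gr F W s = Y),
          RL F X (fun _ => 1) (fun j => (P j : ℝ)) s l ≤
      (Fintype.card (V ≃ Fin n) : ℝ) * (κ * CapT F W (fun K => (c K : ℝ)) Y) := by
  classical
  have hl := hcap.le
  have hkl' : k < l := by omega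
  refine mixed_lin h hP hm hcap hXc hkl hk (by omega) hcol hκ ?_ hν
  intro hx hb hO0 hOGT hG0 D hD0 hD1 hDP m hpm hm0 hmY _
  have hKl : Kl Y lev (l + 1) = Y := by
    unfold Kl
    rw [filter_true_of_mem]
    intro v hv
    have := hl v (h.Y_sub hv)
    omega
  have hTc := card_zero (ν := ν) hx hkl'.le hk
  set T := Kl Y lev k with hTdef
  set U := Bl Y lev k (l + 1) with hUdef
  set L := Bl Y lev k l with hLdef
  set A := Bl Y lev l (l + 1) with hAdef
  have hLU : L ⊆ U := by
    intro v hv
    rw [hLdef, mem_Bl] at hv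
    rw [hUdef, mem_Bl]
    exact ⟨hv.1, hv.2.1, by omega⟩
  have hLc : L.card = ν k + e := by
    have h1 : (Kl Y lev k).card + (Bl Y lev k (k + 1)).card = (Kl Y lev (k + 1)).card := by
      rw [← Kl_union (Y := Y) (lev := lev) (show k ≤ k + 1 by omega),
        card_union_of_disjoint Kl_disj]
    have h2 := xY_eq (hx k hkl')
    have h3 : Nn ν k = ∑ j ∈ range k, ν j + ν k := by
      unfold Nn
      rw [sum_range_succ]
    rw [hxk, h3, ← h1, ← hTdef, hTc, ← hkl, ← hLdef] at h2
    omega
  have hAc : A.card + e = ν l + (d + 1) := by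
    have h1 : (Kl Y lev l).card + (Bl Y lev l (l + 1)).card = (Kl Y lev (l + 1)).card := by
      rw [← Kl_union (Y := Y) (lev := lev) (show l ≤ l + 1 by omega),
        card_union_of_disjoint Kl_disj]
    have h2 := xY_eq (hx k hkl')
    rw [hKl, hY] at h1
    rw [hxk, ← hkl] at h2
    have h3 := Nn_succ ν k
    rw [← hkl] at h3
    rw [hAdef]
    omega
  have hUY : U ⊆ Y := fun v hv => (mem_Bl.1 hv).1
  have hUc : d + 1 ≤ U.card := by
    have h1 : (Kl Y lev k).card + (Bl Y lev k (l + 1)).card = (Kl Y lev (l + 1)).card := by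
      rw [← Kl_union (Y := Y) (lev := lev) (show k ≤ l + 1 by omega),
        card_union_of_disjoint Kl_disj]
    rw [hKl, hY, ← hTdef, hTc, ← hUdef] at h1
    have h3 : ∑ j ∈ range k, ν j ≤ Nn ν l := by
      unfold Nn
      exact sum_le_sum_of_subset (range_mono (by omega))
    omega
  obtain ⟨hT, hS⟩ := hnum hx hTc hLc hAc hO0 hOGT hG0 D hD0 hD1 hDP m hpm hm0 hmY
  set Z := Xs P (xY Y lev ν) k + Gp P ν (xY Y lev ν) (CY F Y lev) k with hZ
  set Dq := D * (P 0 : ℝ) ^ (∑ j ∈ Ico k (l + 1), (ν j - 1)) with hDq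
  have hDq0 : 0 ≤ Dq := mul_nonneg hD0 (by positivity)
  have hSK : ∀ S, 0 ≤ SK F W Y c S := by
    intro S
    unfold SK
    refine add_nonneg (Nat.cast_nonneg _) (sum_nonneg fun u _ => ?_)
    exact div_nonneg (Nat.cast_nonneg _) (sum_nonneg fun D _ => mY_nonneg Y D)
  have hmain := stop (m := m) hpm (U := U) (L := L) (d := d) (e := e) (q := Dq) (p := (P k : ℝ))
    (z := Z) (fun S => κ * SK F W Y c S) hUc
    (fun R hR d' hd' hRe => by
      rcases lt_or_ge 0 (VL (push m R) (U \ R) L 2 (P k) Z) with h1 | h1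
      · exact hT R hR d' hd' hRe h1
      · refine (mul_nonpos_of_nonneg_of_nonpos hDq0 h1).trans (sum_nonneg fun S _ => ?_)
        exact mul_nonneg (Ival_pos (hpm.push R) _).le (mul_nonneg hκ (hSK _)))
    (fun R hR hd' hRe => by
      rcases lt_or_ge 0 (VL (push m R) (U \ R) L ((e : ℝ) + 1 - ((R ∩ L).card : ℝ)) (P k) Z)
        with h1 | h1
      · exact hS R hR hd' hRe h1
      · exact (mul_nonpos_of_nonneg_of_nonpos hDq0 h1).trans (mul_nonneg hκ (hSK _))) he
  have hVL : VL m U L ((e : ℝ) + 1) (P k) Z = ∑ u ∈ L, Ival m (U.erase u) -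
      (((ν k : ℝ) - 1) * P k + Xs P (xY Y lev ν) k + Gp P ν (xY Y lev ν) (CY F Y lev) k) *
        Ival m U := by
    unfold VL
    rw [inter_eq_right.2 hLU, hLc, hZ]
    push_cast
    ring
  rw [hVL] at hmain
  refine hmain.trans ?_
  calc ∑ S ∈ U.powersetCard d, Ival m S * (κ * SK F W Y c S)
      = κ * ∑ S ∈ U.powersetCard d, Ival (mY F W Y) S * SK F W Y c S := by
        rw [mul_sum]
        refine sum_congr rfl fun S hS' => ?_
        rw [mem_powersetCard] at hS'
        have h2 : Ival m S = Ival (mY F W Y) S :=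
          Ival_congr fun D hD => hmY D (hD.trans hS'.1)
        rw [h2]
        ring
    _ ≤ κ * CapT F W (fun K => (c K : ℝ)) Y :=
        mul_le_mul_of_nonneg_left (le_CapT (fun K => Nat.cast_nonneg _) hUY) hκ

end

end MP76b19e.Rob
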