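import Pool.Agent.Lib.MP76b19e.Rob.KW

/-!
# Environments (problem MP_76b19e_co)

`step1`, `step2`: the static inequalities for the potentials `1 + po` and `ph` (base `0`).
`Env m U X`: the function `X` of the subsets of `U` satisfies the bounds of a process whose masses
start with `m` and decrease. `Env.res`, `Env2.res`: these bounds pass through the resolvent.
-/

set_option autoImplicit false

open Finset

namespace MP76b19e.Rob

variable {V : Type} [DecidableEq V] {m : Finset V → ℝ} {K : Finset V}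

/-! ### The static inequalities -/

/-- the static inequality for `ph`, base `0` -/
theorem step2 (h : PosM m) (h0 : m ∅ = 0) (ha : ∀ k ∈ K, pa m K k ≤ 1) (hQ : 0 < pQ m K) :
    ∑ k ∈ K, pQ m K / pQ m (K.erase k) * ph m (K.erase k) ≤ pal m K * ph m K := by
  have hQk : ∀ k ∈ K, pQ m (K.erase k) = pQ m K + (1 - pa m K k) := fun k hk => pQ_erase hk
  have hQpos : ∀ k ∈ K, 0 < pQ m (K.erase k) := by
    intro k hk
    rw [hQk k hk]
    have := ha k hk
    linarith
  have hak : ∀ k ∈ K, ∀ i ∈ K.erase k, pa m (K.erase k) i ≤ 1 := fun k _ i hi =>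
    (pa_erase_le h.1 k i).trans (ha i (mem_of_mem_erase hi))
  have hstep := step_eq (m := m) (K := K) h fun k hk => (hQpos k hk).ne'
  have hterm : ∀ k ∈ K, 0 ≤ (1 - pa m K k) / pQ m (K.erase k) * pY m (K.erase k) +
      pQ m K * pg m k * pom m K k + 0 * (1 - pa m K k) := by
    intro k hk
    have h1 := hQk k hk
    have hdk0 : 0 ≤ 1 - pa m K k := by have := ha k hk; linarith
    have hpa0 : m {k} ≤ pa m K k := le_pa h.1 hk
    have hmk := h.2 k
    have hdk1 : 1 - pa m K k ≤ 1 := by linarith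
    rw [h1]
    have hg0 := pg_nonneg h hk (ha k hk)
    refine scal (c := 0) (t := pQ m K + (1 - pa m K k) - 1) (N := pN m (K.erase k))
      hdk0 hdk1 (by ring) hQ (pN_nonneg h.1) (pN_erase_le h.1 k) hg0 ?_ le_rfl
      ?_ ?_ ?_ ?_ ?_
    · have h2 := pg_mul h k
      rw [h0] at h2
      have h5 : 0 ≤ pg m k * (pa m K k - m {k}) := mul_nonneg hg0 (by linarith)
      nlinarith
    · have h2 := pY_ge h (hak k hk)
      rw [h0] at h2
      exact h2
    · intro ht
      exact pY_ge_of_le h (hak k hk) (by rw [h1]; linarith)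
    · intro ht0 htc
      exact absurd (ht0.trans htc) (lt_irrefl _)
    · intro htc
      simp
    · intro ht0 htc
      exact absurd (ht0.trans htc) (lt_irrefl _)
  have hsum : 0 ≤ ∑ k ∈ K, (1 - pa m K k) / pQ m (K.erase k) * pY m (K.erase k) +
      ∑ k ∈ K, pQ m K * pg m k * pom m K k := by
    rw [← sum_add_distrib]
    refine sum_nonneg fun k hk => ?_
    have := hterm k hk
    linarith
  have hV : ∑ k ∈ K, pQ m K * pg m k * pom m K k ≤
      ∑ j ∈ K, (pg m j * (pV m K j - pom m K j) + pQ m K * pg m j * pom m K j) := by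
    refine sum_le_sum fun j hj => ?_
    have h1 := pg_nonneg h hj (ha j hj)
    have h2 := pom_le_pV (K := K) h.1 j
    have h3 : 0 ≤ pg m j * (pV m K j - pom m K j) := mul_nonneg h1 (by linarith)
    linarith
  have hs2 := pt_le_ps2 (K := K) h.1
  have hQt : 0 ≤ pQ m K * pt m K := mul_nonneg hQ.le (pt_nonneg h.1)
  linarith

/-- the overlaps which disappear with `k` -/
theorem po_erase (k : V) : po m K = po m (K.erase k) +
    ∑ D ∈ K.powerset, if k ∈ D then ((D.card - 1 : ℕ) : ℝ) * m D else 0 := by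
  unfold po
  have h1 : ∑ D ∈ (K.erase k).powerset, ((D.card - 1 : ℕ) : ℝ) * m D =
      ∑ D ∈ K.powerset, if k ∉ D then ((D.card - 1 : ℕ) : ℝ) * m D else 0 := by
    rw [← sum_filter]
    refine sum_congr ?_ fun _ _ => rfl
    ext D
    rw [mem_powerset, mem_filter, mem_powerset, subset_erase]
  rw [h1, ← sum_add_distrib]
  refine sum_congr rfl fun D _ => ?_
  by_cases h : k ∈ D
  · rw [if_neg (not_not.2 h), if_pos h, zero_add]
  · rw [if_pos h, if_neg h, add_zero]

/-- every overlap disappears at least twice -/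
theorem two_po_le (h : ∀ D, 0 ≤ m D) : 2 * po m K ≤
    ∑ k ∈ K, ∑ D ∈ K.powerset, if k ∈ D then ((D.card - 1 : ℕ) : ℝ) * m D else 0 := by
  unfold po
  rw [sum_comm, mul_sum]
  refine sum_le_sum fun D hD => ?_
  rw [mem_powerset] at hD
  rw [← sum_filter, sum_const, nsmul_eq_mul]
  have h1 : K.filter (fun k => k ∈ D) = D := by
    ext k
    rw [mem_filter]
    exact ⟨fun h => h.2, fun h => ⟨hD h, h⟩⟩
  rw [h1]
  have h2 : 0 ≤ ((D.card - 1 : ℕ) : ℝ) * m D := mul_nonneg (Nat.cast_nonneg _) (h D)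
  rcases Nat.lt_or_ge D.card 2 with h3 | h3
  · have h4 : D.card - 1 = 0 := by omega
    rw [h4]
    simp
  · have h4 : (2 : ℝ) ≤ D.card := by exact_mod_cast h3
    exact mul_le_mul_of_nonneg_right h4 h2

/-- the static inequality for `1 + po`, base `0` -/
theorem step1 (h : PosM m) (h0 : m ∅ = 0) (ha : ∀ k ∈ K, pa m K k ≤ 1) (hQ : 0 < pQ m K - 1) :
    ∑ k ∈ K, (pQ m K - 1) / (pQ m (K.erase k) - 1) * (1 + po m (K.erase k)) ≤
      pal m K * (1 + po m K) := by
  set Q := pQ m K - 1 with hQdef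
  set o := po m K with ho
  set v : V → ℝ := fun k => ∑ D ∈ K.powerset, if k ∈ D then ((D.card - 1 : ℕ) : ℝ) * m D else 0
    with hv
  have hv0 : ∀ k, 0 ≤ v k := fun k => sum_nonneg fun D _ => by
    split_ifs
    · exact mul_nonneg (Nat.cast_nonneg _) (h.1 D)
    · exact le_rfl
  have hvo : ∀ k, po m (K.erase k) = o - v k := by
    intro k
    have := po_erase (m := m) (K := K) k
    simp only [hv]
    linarith
  have hvle : ∀ k, v k ≤ o := by
    intro k
    have h1 := hvo k
    have h2 := po_nonneg (K := K.erase k) h.1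
    linarith
  have hsv : 2 * o ≤ ∑ k ∈ K, v k := two_po_le h.1
  have ho0 : 0 ≤ o := po_nonneg h.1
  have hd : ∀ k ∈ K, 0 ≤ 1 - pa m K k := fun k hk => by
    have := ha k hk
    linarith
  have hsum := sum_one_sub_pa (m := m) (K := K)
  rw [h0] at hsum
  -- `o ≤ 1 - Q`
  have hoQ : ∑ k ∈ K, (1 - pa m K k) = 1 - Q - o := by
    rw [hsum, hQdef, ho]
    ring
  have ho1 : o ≤ 1 - Q := by
    have := sum_nonneg hd
    linarith
  have hk1 : ∀ k ∈ K, pQ m (K.erase k) - 1 = Q + (1 - pa m K k) := by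
    intro k hk
    rw [pQ_erase hk, hQdef]
    ring
  have hdle : ∀ k ∈ K, 1 - pa m K k ≤ 1 - Q - o := by
    intro k hk
    rw [← hoQ]
    exact single_le_sum (f := fun k => 1 - pa m K k) hd hk
  have hal : pal m K = Q + K.card - 1 := by
    rw [hQdef]
    unfold pQ
    ring
  -- the terms
  have hterm : ∀ k ∈ K, (pQ m K - 1) / (pQ m (K.erase k) - 1) * (1 + po m (K.erase k)) ≤
      (1 + o) - v k - (1 + o) * (1 - pa m K k) + o * (1 - pa m K k) := by
    intro k hk
    rw [hk1 k hk, hvo k, ← hQdef]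
    set δ := 1 - pa m K k with hδ
    have hδ0 : 0 ≤ δ := hd k hk
    have hδ1 : δ ≤ 1 - Q - o := hdle k hk
    have hpos : 0 < Q + δ := by linarith
    have hv1 := hv0 k
    have hv2 := hvle k
    refine le_trans (b := (1 + o - v k) * (1 - δ)) ?_ ?_
    · rw [div_mul_eq_mul_div, div_le_iff₀ hpos]
      have e : (1 + o - v k) * (1 - δ) * (Q + δ) - Q * (1 + (o - v k)) =
          (1 + o - v k) * (δ * (1 - Q - δ)) := by ring
      have h1 : 0 ≤ 1 - Q - δ := by linarith
      have h2 : 0 ≤ 1 + o - v k := by linarith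
      have h3 : 0 ≤ (1 + o - v k) * (δ * (1 - Q - δ)) := by positivity
      linarith
    · have h1 : v k * δ ≤ o * δ := mul_le_mul_of_nonneg_right hv2 hδ0
      nlinarith
  refine (sum_le_sum hterm).trans ?_
  rw [sum_add_distrib, sum_sub_distrib, sum_sub_distrib, ← mul_sum, ← mul_sum, hoQ, sum_const,
    nsmul_eq_mul, hal]
  nlinarith

/-! ### Functions with decreasing masses -/

/-- `∑ X (A - u) - (|A| - g) X A` -/
noncomputable def VV (g : ℝ) (X : Finset V → ℝ) (A : Finset V) : ℝ :=
  ∑ u ∈ A, X (A.erase u) - ((A.card : ℝ) - g) * X A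

/-- the owned mass is at most the total mass -/
structure MonoX (m : Finset V → ℝ) (U : Finset V) (X : Finset V → ℝ) : Prop where
  nn : ∀ A ⊆ U, 0 ≤ X A
  mono : ∀ A ⊆ U, ∑ u ∈ A, X (A.erase u) ≤ pal m A * X A

/-- the resolvent equation with the source `S` -/
def Res (m : Finset V → ℝ) (ρ : ℝ) (U : Finset V) (S X : Finset V → ℝ) : Prop :=
  ∀ A ⊆ U, (ρ + pal m A) * X A = ∑ u ∈ A, X (A.erase u) + S A

variable {U A : Finset V} {X S : Finset V → ℝ} {ρ g : ℝ}

theorem VV_empty (g : ℝ) (X : Finset V → ℝ) : VV g X ∅ = g * X ∅ := by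
  unfold VV
  rw [sum_empty, card_empty]
  push_cast
  ring

theorem pal_empty (m : Finset V → ℝ) : pal m ∅ = m ∅ := by
  unfold pal
  rw [powerset_empty, sum_singleton]

theorem VV_add (g : ℝ) (X X' : Finset V → ℝ) (A : Finset V) :
    VV g (fun B => X B + X' B) A = VV g X A + VV g X' A := by
  unfold VV
  rw [sum_add_distrib]
  ring

theorem VV_smul (g c : ℝ) (X : Finset V → ℝ) (A : Finset V) :
    VV g (fun B => c * X B) A = c * VV g X A := by
  unfold VV
  rw [← mul_sum]
  ring

theorem VV_sum {ι : Type} (g : ℝ) (I : Finset ι) (X : ι → Finset V → ℝ) (A : Finset V) :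
    VV g (fun B => ∑ i ∈ I, X i B) A = ∑ i ∈ I, VV g (X i) A := by
  unfold VV
  rw [sum_sub_distrib, sum_comm, mul_sum]

/-- the resolvent and `VV` -/
theorem VV_res (hR : Res m ρ U S X) (hA : A ⊆ U) :
    (ρ + pal m A) * VV g X A =
      ∑ k ∈ A, (VV g X (A.erase k) - (1 - pa m A k) * X (A.erase k)) + VV g S A := by
  unfold VV
  have h1 : ∀ k ∈ A, (ρ + pal m A) * X (A.erase k) =
      ∑ j ∈ A.erase k, X ((A.erase k).erase j) + S (A.erase k) + pa m A k * X (A.erase k) := by
    intro k hk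
    have h2 := hR (A.erase k) ((erase_subset _ _).trans hA)
    have h3 := pal_erase (m := m) (K := A) k
    rw [h3] at h2
    linarith
  have h2 : (ρ + pal m A) * ∑ k ∈ A, X (A.erase k) =
      ∑ k ∈ A, (∑ j ∈ A.erase k, X ((A.erase k).erase j) + S (A.erase k) +
        pa m A k * X (A.erase k)) := by
    rw [mul_sum]
    exact sum_congr rfl h1
  have h3 := hR A hA
  have h4 : ∑ k ∈ A, (∑ j ∈ A.erase k, X ((A.erase k).erase j) -
      (((A.erase k).card : ℝ) - g) * X (A.erase k) - (1 - pa m A k) * X (A.erase k)) =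
      ∑ k ∈ A, (∑ j ∈ A.erase k, X ((A.erase k).erase j) + pa m A k * X (A.erase k)) -
        ((A.card : ℝ) - g) * ∑ k ∈ A, X (A.erase k) := by
    rw [mul_sum, ← sum_sub_distrib]
    refine sum_congr rfl fun k hk => ?_
    have h5 : (((A.erase k).card : ℕ) : ℝ) = (A.card : ℝ) - 1 := by
      have h6 : (A.erase k).card + 1 = A.card := card_erase_add_one hk
      have h7 : (((A.erase k).card : ℕ) : ℝ) + 1 = (A.card : ℝ) := by exact_mod_cast h6
      linarith
    rw [h5]
    ring
  rw [h4, mul_sub, h2]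
  have h5 : (ρ + pal m A) * (((A.card : ℝ) - g) * X A) =
      ((A.card : ℝ) - g) * (∑ u ∈ A, X (A.erase u) + S A) := by
    rw [← h3]
    ring
  rw [h5]
  simp only [sum_add_distrib]
  ring

theorem MonoX.res (h : PosM m) (h0 : m ∅ = 0) (hρ : 0 ≤ ρ) (hX0 : 0 ≤ X ∅)
    (hS : MonoX m U S) (hR : Res m ρ U S X) : MonoX m U X := by
  have hpal : ∀ A : Finset V, A.Nonempty → 0 < pal m A := fun A hA => h.sum_pos hA
  have hnn : ∀ A ⊆ U, 0 ≤ X A := by
    intro A
    induction hc : A.card using Nat.strong_induction_on generalizing A with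
    | _ c ih =>
      intro hA
      rcases A.eq_empty_or_nonempty with h1 | h1
      · rw [h1]
        exact hX0
      · have h2 := hR A hA
        have h3 : 0 ≤ ∑ u ∈ A, X (A.erase u) := sum_nonneg fun u hu =>
          ih _ (by rw [← hc]; exact card_erase_lt_of_mem hu) _ rfl ((erase_subset _ _).trans hA)
        have h4 := hS.nn A hA
        have h5 : 0 < ρ + pal m A := by
          have := hpal A h1
          linarith
        have h6 : 0 ≤ (ρ + pal m A) * X A := by
          rw [h2]
          linarith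
        exact (mul_nonneg_iff_of_pos_left h5).1 h6
  have hle : ∀ A ⊆ U, ρ * X A ≤ S A := by
    intro A
    induction hc : A.card using Nat.strong_induction_on generalizing A with
    | _ c ih =>
      intro hA
      rcases A.eq_empty_or_nonempty with h1 | h1
      · have h2 := hR ∅ (empty_subset _)
        rw [pal_empty, h0, sum_empty] at h2
        rw [h1]
        linarith
      · have h2 := hR A hA
        have h5 : 0 < ρ + pal m A := by
          have := hpal A h1
          linarith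
        have h3 : ρ * ∑ u ∈ A, X (A.erase u) ≤ pal m A * S A := by
          rw [mul_sum]
          refine (sum_le_sum fun u hu => ?_).trans (hS.mono A hA)
          exact ih _ (by rw [← hc]; exact card_erase_lt_of_mem hu) _ rfl
            ((erase_subset _ _).trans hA)
        have h4 : (ρ + pal m A) * (ρ * X A) ≤ (ρ + pal m A) * S A := by
          calc (ρ + pal m A) * (ρ * X A) = ρ * ((ρ + pal m A) * X A) := by ring
            _ = ρ * ∑ u ∈ A, X (A.erase u) + ρ * S A := by rw [h2]; ring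
            _ ≤ pal m A * S A + ρ * S A := by linarith
            _ = _ := by ring
        exact le_of_mul_le_mul_left h4 h5
  refine ⟨hnn, fun A hA => ?_⟩
  have h1 := hR A hA
  have h2 := hle A hA
  linarith

/-- a static bound passes through the resolvent -/
theorem bound_res {φ : Finset V → ℝ} (h : PosM m) (h0 : m ∅ = 0)
    (ha : ∀ A ⊆ U, ∀ k ∈ A, pa m A k ≤ 1) (hφ0 : ∀ A ⊆ U, 0 ≤ φ A) (hφ : g ≤ φ ∅)
    (hstep : ∀ A ⊆ U, 0 < pQ m A - 2 + g →
      ∑ k ∈ A, (pQ m A - 2 + g) / (pQ m (A.erase k) - 2 + g) * φ (A.erase k) ≤ pal m A * φ A)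
    (hρ : 0 ≤ ρ) (hX : MonoX m U X) (hR : Res m ρ U S X)
    (hS : ∀ A ⊆ U, VV g S A ≤ φ A * S ∅) : ∀ A ⊆ U, VV g X A ≤ φ A * X ∅ := by
  have hX0 := hX.nn ∅ (empty_subset _)
  have hS0 : S ∅ = ρ * X ∅ := by
    have h2 := hR ∅ (empty_subset _)
    rw [pal_empty, h0, sum_empty] at h2
    linarith
  have hQ : ∀ A ⊆ U, VV g X A ≤ (pQ m A - 2 + g) * X A := by
    intro A hA
    unfold VV pQ
    have h1 := hX.mono A hA
    linarith
  intro A
  induction hc : A.card using Nat.strong_induction_on generalizing A with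
  | _ c ih =>
    intro hA
    rcases A.eq_empty_or_nonempty with h1 | h1
    · rw [h1, VV_empty]
      exact mul_le_mul_of_nonneg_right hφ hX0
    · rcases le_or_gt (pQ m A - 2 + g) 0 with h2 | h2
      · refine (hQ A hA).trans ?_
        have h3 := mul_nonpos_of_nonpos_of_nonneg h2 (hX.nn A hA)
        exact h3.trans (mul_nonneg (hφ0 A hA) hX0)
      · have hpos : 0 < ρ + pal m A := by
          have := h.sum_pos h1
          unfold pal
          linarith
        have h3 := VV_res (g := g) hR hA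
        have h4 : ∀ k ∈ A, VV g X (A.erase k) - (1 - pa m A k) * X (A.erase k) ≤
            ((pQ m A - 2 + g) / (pQ m (A.erase k) - 2 + g) * φ (A.erase k)) * X ∅ := by
          intro k hk
          have hkU : A.erase k ⊆ U := (erase_subset _ _).trans hA
          have h5 := ih _ (by rw [← hc]; exact card_erase_lt_of_mem hk) _ rfl hkU
          have h6 := hQ _ hkU
          have h7 : pQ m (A.erase k) - 2 + g = (pQ m A - 2 + g) + (1 - pa m A k) := by
            rw [pQ_erase hk]
            ring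
          have h8 : 0 ≤ 1 - pa m A k := by
            have := ha A hA k hk
            linarith
          rw [h7] at h6 ⊢
          set Q := pQ m A - 2 + g
          set δ := 1 - pa m A k
          have h9 : 0 < Q + δ := by linarith
          have h10 : δ * (VV g X (A.erase k) / (Q + δ)) ≤ δ * X (A.erase k) := by
            refine mul_le_mul_of_nonneg_left ?_ h8
            rw [div_le_iff₀ h9]
            linarith
          have h11 : VV g X (A.erase k) - δ * (VV g X (A.erase k) / (Q + δ)) =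
              Q / (Q + δ) * VV g X (A.erase k) := by
            field_simp
            ring
          have h12 : Q / (Q + δ) * VV g X (A.erase k) ≤
              Q / (Q + δ) * (φ (A.erase k) * X ∅) :=
            mul_le_mul_of_nonneg_left h5 (div_nonneg h2.le h9.le)
          calc VV g X (A.erase k) - δ * X (A.erase k)
              ≤ VV g X (A.erase k) - δ * (VV g X (A.erase k) / (Q + δ)) := by linarith
            _ = Q / (Q + δ) * VV g X (A.erase k) := h11
            _ ≤ Q / (Q + δ) * (φ (A.erase k) * X ∅) := h12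
            _ = _ := by ring
        have h5 := sum_le_sum h4
        rw [← sum_mul] at h5
        have h6 := mul_le_mul_of_nonneg_right (hstep A hA h2) hX0
        have h7 := hS A hA
        rw [hS0] at h7
        refine le_of_mul_le_mul_left ?_ hpos
        rw [h3]
        calc ∑ k ∈ A, (VV g X (A.erase k) - (1 - pa m A k) * X (A.erase k)) + VV g S A
            ≤ pal m A * φ A * X ∅ + φ A * (ρ * X ∅) := by linarith
          _ = _ := by ring

/-- the bounds with the excess `1` -/
structure Env (m : Finset V → ℝ) (U : Finset V) (X : Finset V → ℝ) : Prop extends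
    MonoX m U X where
  t0 : ∀ A ⊆ U, VV 1 X A ≤ (1 + po m A) * X ∅

/-- the bounds with the excess `2` -/
structure Env2 (m : Finset V → ℝ) (U : Finset V) (X : Finset V → ℝ) : Prop extends
    MonoX m U X where
  t2 : ∀ A ⊆ U, VV 2 X A ≤ ph m A * X ∅

theorem po_empty' (m : Finset V → ℝ) : po m ∅ = 0 := by
  unfold po
  rw [powerset_empty, sum_singleton, card_empty]
  simp

theorem ph_empty (m : Finset V → ℝ) : ph m ∅ = 2 := by
  unfold ph pt
  rw [powerset_empty, sum_singleton, card_empty, sum_empty]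
  simp

theorem ph_nonneg (h : PosM m) (ha : ∀ k ∈ K, pa m K k ≤ 1) : 0 ≤ ph m K := by
  unfold ph
  have h1 := pt_nonneg (K := K) h.1
  have h2 : 0 ≤ ∑ j ∈ K, (1 + pom m K j) * pg m j := sum_nonneg fun j hj =>
    mul_nonneg (by have := pom_nonneg (K := K) h.1 j; linarith) (pg_nonneg h hj (ha j hj))
  linarith

theorem Env.res (h : PosM m) (h0 : m ∅ = 0) (ha : ∀ A ⊆ U, ∀ k ∈ A, pa m A k ≤ 1)
    (hρ : 0 ≤ ρ) (hX0 : 0 ≤ X ∅) (hS : Env m U S) (hR : Res m ρ U S X) : Env m U X := by
  have hX := MonoX.res h h0 hρ hX0 hS.toMonoX hR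
  refine ⟨hX, bound_res (g := 1) (φ := fun A => 1 + po m A) h h0 ha ?_ ?_ ?_ hρ hX hR hS.t0⟩
  · intro A _
    have := po_nonneg (K := A) h.1
    linarith
  · rw [po_empty']
    linarith
  · intro A hA hQ
    have h1 := step1 h h0 (ha A hA) (by linarith)
    refine le_trans (le_of_eq ?_) h1
    refine sum_congr rfl fun k _ => ?_
    rw [show pQ m A - 2 + 1 = pQ m A - 1 by ring,
      show pQ m (A.erase k) - 2 + 1 = pQ m (A.erase k) - 1 by ring]

theorem Env2.res (h : PosM m) (h0 : m ∅ = 0) (ha : ∀ A ⊆ U, ∀ k ∈ A, pa m A k ≤ 1)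
    (hρ : 0 ≤ ρ) (hX0 : 0 ≤ X ∅) (hS : Env2 m U S) (hR : Res m ρ U S X) : Env2 m U X := by
  have hX := MonoX.res h h0 hρ hX0 hS.toMonoX hR
  refine ⟨hX, bound_res (g := 2) (φ := ph m) h h0 ha ?_ ?_ ?_ hρ hX hR hS.t2⟩
  · intro A hA
    exact ph_nonneg h (ha A hA)
  · rw [ph_empty]
  · intro A hA hQ
    have h1 := step2 h h0 (ha A hA) (by linarith)
    refine le_trans (le_of_eq ?_) h1
    refine sum_congr rfl fun k _ => ?_
    rw [show pQ m A - 2 + 2 = pQ m A by ring,
      show pQ m (A.erase k) - 2 + 2 = pQ m (A.erase k) by ring]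

theorem MonoX.sum {ι : Type} {I : Finset ι} {X : ι → Finset V → ℝ}
    (h : ∀ i ∈ I, MonoX m U (X i)) : MonoX m U (fun A => ∑ i ∈ I, X i A) := by
  refine ⟨fun A hA => sum_nonneg fun i hi => (h i hi).nn A hA, fun A hA => ?_⟩
  rw [sum_comm, mul_sum]
  exact sum_le_sum fun i hi => (h i hi).mono A hA

theorem Env.sum {ι : Type} {I : Finset ι} {X : ι → Finset V → ℝ}
    (h : ∀ i ∈ I, Env m U (X i)) : Env m U (fun A => ∑ i ∈ I, X i A) := by
  refine ⟨MonoX.sum fun i hi => (h i hi).toMonoX, fun A hA => ?_⟩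
  rw [VV_sum, mul_sum]
  exact sum_le_sum fun i hi => (h i hi).t0 A hA

theorem Env2.sum {ι : Type} {I : Finset ι} {X : ι → Finset V → ℝ}
    (h : ∀ i ∈ I, Env2 m U (X i)) : Env2 m U (fun A => ∑ i ∈ I, X i A) := by
  refine ⟨MonoX.sum fun i hi => (h i hi).toMonoX, fun A hA => ?_⟩
  rw [VV_sum, mul_sum]
  exact sum_le_sum fun i hi => (h i hi).t2 A hA

theorem Env.add {X X' : Finset V → ℝ} (h : Env m U X) (h' : Env m U X') :
    Env m U (fun A => X A + X' A) := by
  refine ⟨⟨fun A hA => add_nonneg (h.nn A hA) (h'.nn A hA), fun A hA => ?_⟩, fun A hA => ?_⟩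
  · rw [sum_add_distrib, mul_add]
    exact add_le_add (h.mono A hA) (h'.mono A hA)
  · rw [VV_add, mul_add]
    exact add_le_add (h.t0 A hA) (h'.t0 A hA)

theorem Env.smul {c : ℝ} (hc : 0 ≤ c) (h : Env m U X) : Env m U (fun A => c * X A) := by
  refine ⟨⟨fun A hA => mul_nonneg hc (h.nn A hA), fun A hA => ?_⟩, fun A hA => ?_⟩
  · rw [← mul_sum]
    have := mul_le_mul_of_nonneg_left (h.mono A hA) hc
    linarith
  · rw [VV_smul]
    have := mul_le_mul_of_nonneg_left (h.t0 A hA) hc
    linarith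

theorem pal_mono {m' : Finset V → ℝ} (hmm : ∀ D ⊆ U, m' D ≤ m D) (hA : A ⊆ U) :
    pal m' A ≤ pal m A :=
  sum_le_sum fun D hD => hmm D ((mem_powerset.1 hD).trans hA)

theorem MonoX.anti {m' : Finset V → ℝ} (hmm : ∀ D ⊆ U, m' D ≤ m D) (h : MonoX m' U X) :
    MonoX m U X :=
  ⟨h.nn, fun A hA => (h.mono A hA).trans
    (mul_le_mul_of_nonneg_right (pal_mono hmm hA) (h.nn A hA))⟩

theorem Env.anti {m' : Finset V → ℝ} (hmm : ∀ D ⊆ U, m' D ≤ m D) (h : Env m' U X) :
    Env m U X := by
  refine ⟨h.toMonoX.anti hmm, fun A hA => (h.t0 A hA).trans ?_⟩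
  refine mul_le_mul_of_nonneg_right ?_ (h.nn ∅ (empty_subset _))
  have h1 : po m' A ≤ po m A := sum_le_sum fun D hD =>
    mul_le_mul_of_nonneg_left (hmm D ((mem_powerset.1 hD).trans hA)) (Nat.cast_nonneg _)
  linarith

theorem Env2.anti {m' : Finset V → ℝ} (hp : PosM m') (hmm : ∀ D ⊆ U, m' D ≤ m D)
    (h0 : m' ∅ = m ∅) (h1 : ∀ j ∈ U, m' {j} = m {j}) (ha : ∀ A ⊆ U, ∀ k ∈ A, pa m' A k ≤ 1)
    (h : Env2 m' U X) : Env2 m U X := by
  refine ⟨h.toMonoX.anti hmm, fun A hA => (h.t2 A hA).trans ?_⟩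
  refine mul_le_mul_of_nonneg_right ?_ (h.nn ∅ (empty_subset _))
  unfold ph
  have h2 : pt m' A ≤ pt m A := sum_le_sum fun D hD =>
    mul_le_mul_of_nonneg_left (hmm D ((mem_powerset.1 hD).trans hA)) (Nat.cast_nonneg _)
  have h3 : ∑ j ∈ A, (1 + pom m' A j) * pg m' j ≤ ∑ j ∈ A, (1 + pom m A j) * pg m j := by
    refine sum_le_sum fun j hj => ?_
    have h4 : pg m' j = pg m j := by
      unfold pg
      rw [h1 j (hA hj), h0]
    have h5 := pg_nonneg hp hj (ha A hA j hj)
    rw [← h4]
    refine mul_le_mul_of_nonneg_right ?_ h5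
    have h6 : pom m' A j ≤ pom m A j := sum_le_sum fun D hD =>
      mul_le_mul_of_nonneg_left (hmm D ((mem_powerset.1 hD).trans hA)) (Nat.cast_nonneg _)
    linarith
  linarith

end MP76b19e.Rob
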